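import Pool.Agent.H48.FB.Defs

/-! A01: basic facts on bands. -/

open Complex Set MeasureTheory Filter Topology

namespace FB

theorem mem_band {a b : ℝ} {z : ℂ} : z ∈ band a b ↔ a < z.im ∧ z.im < b := Iff.rfl
theorem mem_strip {r : ℝ} {z : ℂ} : z ∈ strip r ↔ -r < z.im ∧ z.im < r := Iff.rfl
theorem isOpen_band (a b : ℝ) : IsOpen (band a b) :=
  (isOpen_lt continuous_const continuous_im).inter (isOpen_lt continuous_im continuous_const)
theorem convex_band (a b : ℝ) : Convex ℝ (band a b) := by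
  have h1 : Convex ℝ {z : ℂ | a < z.im} := convex_halfSpace_im_gt a
  have h2 : Convex ℝ {z : ℂ | z.im < b} := convex_halfSpace_im_lt b
  exact h1.inter h2
theorem isPreconnected_band (a b : ℝ) : IsPreconnected (band a b) := (convex_band a b).isPreconnected
theorem band_subset {a b a' b' : ℝ} (h1 : a' ≤ a) (h2 : b ≤ b') : band a b ⊆ band a' b' :=
  fun _ hz => ⟨lt_of_le_of_lt h1 hz.1, lt_of_lt_of_le hz.2 h2⟩
theorem add_real_mem_band {a b : ℝ} {z : ℂ} (hz : z ∈ band a b) (s : ℝ) : z + (s : ℂ) ∈ band a b := by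
  simpa [band] using hz
theorem sub_real_mem_band {a b : ℝ} {z : ℂ} (hz : z ∈ band a b) (s : ℝ) : z - (s : ℂ) ∈ band a b := by
  simpa [band] using hz
theorem neg_mem_strip {r : ℝ} {z : ℂ} (hz : z ∈ strip r) : -z ∈ strip r := by
  rw [mem_strip] at hz ⊢
  rw [neg_im]
  constructor <;> linarith [hz.1, hz.2]
theorem conj_mem_strip {r : ℝ} {z : ℂ} (hz : z ∈ strip r) : (starRingEnd ℂ) z ∈ strip r := by
  rw [mem_strip] at hz ⊢
  rw [conj_im]
  constructor <;> linarith [hz.1, hz.2]
/-- Identity theorem on a band: equality near one point (or on a subband) implies equality. -/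
theorem eqOn_band {a b a' b' : ℝ} (h1 : a ≤ a') (h2 : b' ≤ b) (h3 : a' < b') {f g : ℂ → ℂ}
    (hf : DifferentiableOn ℂ f (band a b)) (hg : DifferentiableOn ℂ g (band a b)) (h : EqOn f g (band a' b')) :
    EqOn f g (band a b) := by
  have hfa : AnalyticOnNhd ℂ f (band a b) := hf.analyticOnNhd (isOpen_band a b)
  have hga : AnalyticOnNhd ℂ g (band a b) := hg.analyticOnNhd (isOpen_band a b)
  set z0 : ℂ := (((a' + b') / 2 : ℝ) : ℂ) * I with hz0
  have him : z0.im = (a' + b') / 2 := by
    rw [hz0, mul_im]; simp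
  have hz0' : z0 ∈ band a' b' := by
    rw [mem_band, him]
    constructor <;> linarith
  have hz0b : z0 ∈ band a b := band_subset h1 h2 hz0'
  have hev : f =ᶠ[𝓝 z0] g := by
    filter_upwards [(isOpen_band a' b').mem_nhds hz0'] with z hz using h hz
  exact hfa.eqOn_of_preconnected_of_eventuallyEq hga (isPreconnected_band a b) hz0b hev

end FB
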