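import Pool.Agent.H48.FB.A01

/-! A02: Fourier coefficients on horizontal lines. -/

open Complex Set MeasureTheory Filter Topology

namespace FB

private theorem a02_mem {a b x y : ℝ} (hy : y ∈ Ioo a b) : ((x:ℂ) + (y:ℂ) * I) ∈ band a b := by
  simp only [band, mem_ofPred_eq, add_im, ofReal_im, mul_im, ofReal_re, I_im, mul_one, I_re, mul_zero, add_zero,
    zero_add]
  exact ⟨hy.1, hy.2⟩

private theorem a02_exp_period (k : ℤ) (z : ℂ) :
    exp (-(I * (k:ℂ) * (z + 2 * (Real.pi : ℂ)))) = exp (-(I * (k:ℂ) * z)) := by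
  have h1 : -(I * (k:ℂ) * (z + 2 * (Real.pi : ℂ))) = -(I * (k:ℂ) * z) + ((-k : ℤ) : ℂ) * (2 * (Real.pi : ℂ) * I) := by
    push_cast; ring
  rw [h1, Complex.exp_add, Complex.exp_int_mul_two_pi_mul_I, mul_one]

/-- contour shift: `Complex.integral_boundary_rect_eq_zero_of_differentiableOn` on `[0, 2 pi] × [y, y']`, the two vertical sides cancel by
periodicity of `f z * exp (- I k z)` -/
theorem fc_indep {f : ℂ → ℂ} {a b : ℝ} (hf : DifferentiableOn ℂ f (band a b))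
    (hp : ∀ z ∈ band a b, f (z + 2 * (Real.pi : ℂ)) = f z) {y y' : ℝ} (hy : y ∈ Ioo a b) (hy' : y' ∈ Ioo a b) (k : ℤ) :
    fc f y k = fc f y' k := by
  set F : ℂ → ℂ := fun z => f z * exp (-(I * (k : ℂ) * z)) with hF
  have hFd : DifferentiableOn ℂ F (band a b) := by
    refine hf.mul (Differentiable.differentiableOn ?_)
    fun_prop
  have hsub : (uIcc ((0:ℂ) + (y:ℂ) * I).re (((2 * Real.pi : ℝ) : ℂ) + (y':ℂ) * I : ℂ).re ×ℂ
      uIcc ((0:ℂ) + (y:ℂ) * I).im (((2 * Real.pi : ℝ) : ℂ) + (y':ℂ) * I : ℂ).im) ⊆ band a b := by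
    intro z hz
    have h2 := hz.2
    simp only [mem_preimage, add_im, mul_im, ofReal_im, ofReal_re, I_im, mul_one, I_re, mul_zero,
      add_zero, zero_add] at h2
    have h3 : uIcc y y' ⊆ Ioo a b := by
      intro t ht
      rcases le_total y y' with h | h
      · rw [uIcc_of_le h] at ht
        exact ⟨lt_of_lt_of_le hy.1 ht.1, lt_of_le_of_lt ht.2 hy'.2⟩
      · rw [uIcc_of_ge h] at ht
        exact ⟨lt_of_lt_of_le hy'.1 ht.1, lt_of_le_of_lt ht.2 hy.2⟩
    exact h3 h2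
  have key := Complex.integral_boundary_rect_eq_zero_of_differentiableOn F
    ((0:ℂ) + (y:ℂ) * I) (((2 * Real.pi : ℝ) : ℂ) + (y':ℂ) * I) (hFd.mono hsub)
  simp only [add_re, mul_re, ofReal_re, I_re, mul_zero, ofReal_im, I_im, mul_one, sub_self, add_zero,
    add_im, mul_im, zero_add] at key
  have hvert : (∫ t : ℝ in y..y', F (((2 * Real.pi : ℝ) : ℂ) + (t:ℂ) * I)) =
      ∫ t : ℝ in y..y', F (((0:ℝ) : ℂ) + (t:ℂ) * I) := by
    refine intervalIntegral.integral_congr ?_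
    intro t ht
    have ht' : t ∈ Ioo a b := by
      rcases le_total y y' with h | h
      · rw [uIcc_of_le h] at ht
        exact ⟨lt_of_lt_of_le hy.1 ht.1, lt_of_le_of_lt ht.2 hy'.2⟩
      · rw [uIcc_of_ge h] at ht
        exact ⟨lt_of_lt_of_le hy'.1 ht.1, lt_of_le_of_lt ht.2 hy.2⟩
    have hm := a02_mem (x := 0) ht'
    have e1 : (((2 * Real.pi : ℝ) : ℂ) + (t:ℂ) * I) = (((0:ℝ) : ℂ) + (t:ℂ) * I) + 2 * (Real.pi : ℂ) := by
      push_cast; ring
    simp only [hF]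
    rw [e1, hp _ hm, a02_exp_period]
  rw [hvert] at key
  have key2 : (∫ x : ℝ in (0:ℝ)..(2 * Real.pi), F ((x:ℂ) + (y:ℂ) * I)) =
      ∫ x : ℝ in (0:ℝ)..(2 * Real.pi), F ((x:ℂ) + (y':ℂ) * I) := by
    linear_combination key
  unfold fc
  simp only [hF] at key2
  rw [key2]

private theorem a02_norm_exp (x y : ℝ) (k : ℤ) :
    ‖exp (-(I * (k:ℂ) * ((x:ℂ) + (y:ℂ) * I)))‖ = Real.exp (k * y) := by
  rw [Complex.norm_exp]
  congr 1
  simp

theorem fc_norm_le {f : ℂ → ℂ} {y B : ℝ} (hB : ∀ x : ℝ, ‖f ((x:ℂ) + (y:ℂ) * I)‖ ≤ B) (k : ℤ) :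
    ‖fc f y k‖ ≤ B * Real.exp (k * y) := by
  unfold fc
  have h1 : ‖∫ x in (0:ℝ)..(2 * Real.pi), f ((x : ℂ) + (y : ℂ) * I) * exp (-(I * (k : ℂ) * ((x : ℂ) + (y : ℂ) * I)))‖
      ≤ (B * Real.exp (k * y)) * |2 * Real.pi - 0| := by
    refine intervalIntegral.norm_integral_le_of_norm_le_const ?_
    intro x _
    rw [norm_mul, a02_norm_exp]
    exact mul_le_mul_of_nonneg_right (hB x) (Real.exp_pos _).le
  have hpi : (0:ℝ) < 2 * Real.pi := by positivity
  rw [norm_mul]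
  have h2 : ‖(1 / (2 * (Real.pi : ℂ)))‖ = 1 / (2 * Real.pi) := by
    have : (1 / (2 * (Real.pi : ℂ))) = ((1 / (2 * Real.pi) : ℝ) : ℂ) := by push_cast; ring
    rw [this, Complex.norm_real, Real.norm_of_nonneg (by positivity)]
  rw [h2]
  rw [sub_zero, abs_of_pos hpi] at h1
  calc 1 / (2 * Real.pi) * ‖∫ x in (0:ℝ)..(2 * Real.pi), f ((x : ℂ) + (y : ℂ) * I) *
        exp (-(I * (k : ℂ) * ((x : ℂ) + (y : ℂ) * I)))‖
      ≤ 1 / (2 * Real.pi) * ((B * Real.exp (k * y)) * (2 * Real.pi)) := by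
        exact mul_le_mul_of_nonneg_left h1 (by positivity)
    _ = B * Real.exp (k * y) := by
        field_simp

private theorem a02_cont {f : ℂ → ℂ} {a b : ℝ} (hf : DifferentiableOn ℂ f (band a b)) {y : ℝ} (hy : y ∈ Ioo a b) :
    Continuous (fun x : ℝ => f ((x:ℂ) + (y:ℂ) * I)) := by
  have h1 : ContinuousOn f (band a b) := hf.continuousOn
  have h2 : Continuous (fun x : ℝ => ((x:ℂ) + (y:ℂ) * I)) := by fun_prop
  exact h1.comp_continuous h2 (fun x => a02_mem hy)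

private theorem a02_periodic {f : ℂ → ℂ} {a b : ℝ}
    (hp : ∀ z ∈ band a b, f (z + 2 * (Real.pi : ℂ)) = f z) {y : ℝ} (hy : y ∈ Ioo a b) :
    Function.Periodic (fun x : ℝ => f ((x:ℂ) + (y:ℂ) * I)) (2 * Real.pi) := by
  intro x
  have e1 : (((x + 2 * Real.pi : ℝ) : ℂ) + (y:ℂ) * I) = ((x:ℂ) + (y:ℂ) * I) + 2 * (Real.pi : ℂ) := by
    push_cast; ring
  simp only
  rw [e1, hp _ (a02_mem hy)]

private theorem a02_bdd {f : ℂ → ℂ} {a b : ℝ} (hf : DifferentiableOn ℂ f (band a b))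
    (hp : ∀ z ∈ band a b, f (z + 2 * (Real.pi : ℂ)) = f z) {y : ℝ} (hy : y ∈ Ioo a b) :
    ∃ B : ℝ, ∀ x : ℝ, ‖f ((x:ℂ) + (y:ℂ) * I)‖ ≤ B := by
  have h := (a02_periodic hp hy).isBounded_of_continuous (by positivity) (a02_cont hf hy)
  obtain ⟨B, hB⟩ := h.exists_norm_le
  exact ⟨B, fun x => hB _ ⟨x, rfl⟩⟩

/-- Summability of the Fourier series, from the bounds on two lines `y1 < Im z < y2`. -/
theorem fc_summable {f : ℂ → ℂ} {a b : ℝ} (hf : DifferentiableOn ℂ f (band a b))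
    (hp : ∀ z ∈ band a b, f (z + 2 * (Real.pi : ℂ)) = f z) {y : ℝ} (hy : y ∈ Ioo a b) {y' : ℝ} (hy' : y' ∈ Ioo a b) :
    Summable (fun k : ℤ => ‖fc f y k‖ * Real.exp (-(k * y'))) := by
  obtain ⟨y1, h1a, h1b⟩ := exists_between hy'.1
  obtain ⟨y2, h2a, h2b⟩ := exists_between hy'.2
  have hy1 : y1 ∈ Ioo a b := ⟨h1a, h1b.trans hy'.2⟩
  have hy2 : y2 ∈ Ioo a b := ⟨hy'.1.trans h2a, h2b⟩
  obtain ⟨B1, hB1⟩ := a02_bdd hf hp hy1
  obtain ⟨B2, hB2⟩ := a02_bdd hf hp hy2
  have c1 : ∀ k : ℤ, ‖fc f y k‖ * Real.exp (-(k * y')) ≤ B1 * Real.exp (k * (y1 - y')) := by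
    intro k
    rw [fc_indep hf hp hy hy1 k]
    calc ‖fc f y1 k‖ * Real.exp (-(k * y')) ≤ (B1 * Real.exp (k * y1)) * Real.exp (-(k * y')) :=
          mul_le_mul_of_nonneg_right (fc_norm_le hB1 k) (Real.exp_pos _).le
      _ = B1 * Real.exp (k * (y1 - y')) := by
          rw [mul_assoc, ← Real.exp_add]; congr 2; ring
  have c2 : ∀ k : ℤ, ‖fc f y k‖ * Real.exp (-(k * y')) ≤ B2 * Real.exp (k * (y2 - y')) := by
    intro k
    rw [fc_indep hf hp hy hy2 k]
    calc ‖fc f y2 k‖ * Real.exp (-(k * y')) ≤ (B2 * Real.exp (k * y2)) * Real.exp (-(k * y')) :=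
          mul_le_mul_of_nonneg_right (fc_norm_le hB2 k) (Real.exp_pos _).le
      _ = B2 * Real.exp (k * (y2 - y')) := by
          rw [mul_assoc, ← Real.exp_add]; congr 2; ring
  refine Summable.of_nat_of_neg ?_ ?_
  · refine Summable.of_nonneg_of_le (fun n => by positivity) (fun n => c1 n) ?_
    refine Summable.mul_left _ ?_
    have : (fun n : ℕ => Real.exp (((n:ℤ):ℝ) * (y1 - y'))) = fun n : ℕ => Real.exp (n * (y1 - y')) := by
      funext n; simp
    rw [this]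
    exact Real.summable_exp_nat_mul_iff.mpr (by linarith)
  · refine Summable.of_nonneg_of_le (fun n => by positivity) (fun n => c2 (-(n:ℤ))) ?_
    refine Summable.mul_left _ ?_
    have : (fun n : ℕ => Real.exp (((-(n:ℤ) : ℤ):ℝ) * (y2 - y'))) = fun n : ℕ => Real.exp (n * (y' - y2)) := by
      funext n; congr 1; push_cast; ring
    rw [this]
    exact Real.summable_exp_nat_mul_iff.mpr (by linarith)

/-- Fourier reconstruction (on the line through `z`: `hasSum_fourier_series_of_summable` / pointwise version for continuous functions on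
`AddCircle (2 pi)` with summable coefficients). -/
theorem fc_hasSum {f : ℂ → ℂ} {a b : ℝ} (hf : DifferentiableOn ℂ f (band a b))
    (hp : ∀ z ∈ band a b, f (z + 2 * (Real.pi : ℂ)) = f z) {y : ℝ} (hy : y ∈ Ioo a b) {z : ℂ} (hz : z ∈ band a b) :
    HasSum (fun k : ℤ => fc f y k * exp (I * (k:ℂ) * z)) (f z) := by
  have hy0 : z.im ∈ Ioo a b := ⟨hz.1, hz.2⟩
  have : Fact (0 < 2 * Real.pi) := ⟨by positivity⟩
  have hper := a02_periodic hp hy0
  have hcont := a02_cont hf hy0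
  let G : C(AddCircle (2 * Real.pi), ℂ) := ⟨hper.lift, by
    exact continuous_coinduced_dom.mpr hcont⟩
  have hGv : ∀ x : ℝ, G (x : AddCircle (2 * Real.pi)) = f ((x:ℂ) + (z.im:ℂ) * I) := by
    intro x
    exact hper.lift_coe x
  have hpi : (Real.pi : ℂ) ≠ 0 := by exact_mod_cast Real.pi_ne_zero
  have hco : ∀ k : ℤ, fourierCoeff G k = fc f z.im k * ((Real.exp (-(k * z.im)) : ℝ) : ℂ) := by
    intro k
    rw [fourierCoeff_eq_intervalIntegral (G : AddCircle (2 * Real.pi) → ℂ) k 0]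
    unfold fc
    rw [zero_add, mul_assoc, ← intervalIntegral.integral_mul_const]
    have e0 : ∀ w : ℂ, (1 / (2 * Real.pi) : ℝ) • w = (1 / (2 * (Real.pi : ℂ))) * w := by
      intro w
      rw [Complex.real_smul]
      push_cast
      ring
    rw [e0]
    congr 1
    refine intervalIntegral.integral_congr ?_
    intro x _
    have e5 : exp (-(I * (k:ℂ) * ((x:ℂ) + (z.im:ℂ) * I))) * ((Real.exp (-(k * z.im)) : ℝ) : ℂ) =
        exp (2 * (Real.pi : ℂ) * I * ((-k : ℤ) : ℂ) * (x : ℂ) / ((2 * Real.pi : ℝ) : ℂ)) := by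
      rw [Complex.ofReal_exp, ← Complex.exp_add]
      congr 1
      have hI : I * I = -1 := Complex.I_mul_I
      push_cast
      field_simp
      linear_combination (-((k:ℂ) * (z.im:ℂ))) * hI
    simp only
    rw [hGv, fourier_coe_apply, smul_eq_mul, ← e5]
    ring
  have hsum : Summable (fourierCoeff G) := by
    refine Summable.of_norm ?_
    refine (fc_summable hf hp hy0 hy0).congr ?_
    intro k
    rw [hco, norm_mul, Complex.norm_real, Real.norm_of_nonneg (Real.exp_pos _).le]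
  have hmain := has_pointwise_sum_fourier_series_of_summable hsum (z.re : AddCircle (2 * Real.pi))
  rw [hGv, Complex.re_add_im] at hmain
  have e6 : (fun k : ℤ => fc f y k * exp (I * (k:ℂ) * z)) =
      fun k : ℤ => fourierCoeff G k • fourier k (z.re : AddCircle (2 * Real.pi)) := by
    funext k
    have e5 : exp (I * (k:ℂ) * z) = ((Real.exp (-(k * z.im)) : ℝ) : ℂ) *
        exp (2 * (Real.pi : ℂ) * I * (k : ℂ) * (z.re : ℂ) / ((2 * Real.pi : ℝ) : ℂ)) := by
      rw [Complex.ofReal_exp, ← Complex.exp_add]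
      congr 1
      have hI : I * I = -1 := Complex.I_mul_I
      conv_lhs => rw [← Complex.re_add_im z]
      push_cast
      field_simp
      linear_combination ((k:ℂ) * (z.im:ℂ)) * hI
    rw [hco, fc_indep hf hp hy hy0 k, fourier_coe_apply, smul_eq_mul, e5]
    ring
  rw [e6]
  exact hmain

/-- two functions with the same coefficients agree -/
theorem fc_ext {f g : ℂ → ℂ} {a b : ℝ} (hf : DifferentiableOn ℂ f (band a b))
    (hp : ∀ z ∈ band a b, f (z + 2 * (Real.pi : ℂ)) = f z) (hg : DifferentiableOn ℂ g (band a b))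
    (hpg : ∀ z ∈ band a b, g (z + 2 * (Real.pi : ℂ)) = g z) {y : ℝ} (hy : y ∈ Ioo a b) (h : ∀ k, fc f y k = fc g y k) :
    EqOn f g (band a b) := by
  intro z hz
  have h1 := fc_hasSum hf hp hy hz
  have h2 := fc_hasSum hg hpg hy hz
  simp only [h] at h1
  exact h1.unique h2

end FB
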