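import Pool.Agent.H48.FB.A02

/-! A03: algebra of Fourier coefficients. -/

open Complex Set MeasureTheory Filter Topology

namespace FB

theorem A03_mem_line {a b y : ℝ} (hy : y ∈ Ioo a b) (x : ℝ) : (x : ℂ) + (y : ℂ) * I ∈ band a b := by
  rw [mem_band]
  simpa using hy

/-- the integrand of `fc` is periodic -/
theorem A03_periodic {f : ℂ → ℂ} {a b : ℝ}
    (hp : ∀ z ∈ band a b, f (z + 2 * (Real.pi : ℂ)) = f z) {y : ℝ} (hy : y ∈ Ioo a b) (k : ℤ) :
    Function.Periodic (fun x : ℝ => f ((x : ℂ) + (y : ℂ) * I) * exp (-(I * (k : ℂ) * ((x : ℂ) + (y : ℂ) * I))))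
      (2 * Real.pi) := by
  intro x
  have h1 : (((x + 2 * Real.pi : ℝ) : ℂ) + (y : ℂ) * I) = ((x : ℂ) + (y : ℂ) * I) + 2 * (Real.pi : ℂ) := by
    push_cast
    ring
  show f (((x + 2 * Real.pi : ℝ) : ℂ) + (y : ℂ) * I) * exp (-(I * (k : ℂ) * (((x + 2 * Real.pi : ℝ) : ℂ) + (y : ℂ) * I))) = _
  rw [h1, hp _ (A03_mem_line hy x)]
  congr 1
  have h2 : -(I * (k : ℂ) * ((x : ℂ) + (y : ℂ) * I + 2 * (Real.pi : ℂ))) =
      -(I * (k : ℂ) * ((x : ℂ) + (y : ℂ) * I)) - (k : ℂ) * (2 * (Real.pi : ℂ) * I) := by ring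
  rw [h2, exp_sub, Complex.exp_int_mul_two_pi_mul_I, div_one]

theorem A03_continuous_line (y : ℝ) : Continuous fun x : ℝ => (x : ℂ) + (y : ℂ) * I :=
  Complex.continuous_ofReal.add continuous_const

theorem A03_continuous_exp (y : ℝ) (k : ℤ) :
    Continuous fun x : ℝ => exp (-(I * (k : ℂ) * ((x : ℂ) + (y : ℂ) * I))) :=
  Complex.continuous_exp.comp (continuous_const.mul (A03_continuous_line y)).neg

theorem A03_continuous_comp {f : ℂ → ℂ} {a b : ℝ} (hf : ContinuousOn f (band a b)) {y : ℝ} (hy : y ∈ Ioo a b) :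
    Continuous fun x : ℝ => f ((x : ℂ) + (y : ℂ) * I) :=
  hf.comp_continuous (A03_continuous_line y) fun x => A03_mem_line hy x

theorem A03_congr {f g : ℂ → ℂ} {a b : ℝ} (h : EqOn f g (band a b)) {y : ℝ} (hy : y ∈ Ioo a b) (k : ℤ) :
    fc f y k = fc g y k := by
  unfold fc
  congr 1
  refine intervalIntegral.integral_congr fun x _ => ?_
  show f ((x : ℂ) + (y : ℂ) * I) * _ = g ((x : ℂ) + (y : ℂ) * I) * _
  rw [h (A03_mem_line hy x)]

theorem fc_shift {f : ℂ → ℂ} {a b : ℝ} (hf : DifferentiableOn ℂ f (band a b))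
    (hp : ∀ z ∈ band a b, f (z + 2 * (Real.pi : ℂ)) = f z) {y : ℝ} (hy : y ∈ Ioo a b) (s : ℝ) (k : ℤ) :
    fc (fun z => f (z + (s:ℂ))) y k = exp (I * k * s) * fc f y k := by
  unfold fc
  rw [mul_left_comm]
  congr 1
  set G : ℝ → ℂ := fun x : ℝ => f ((x : ℂ) + (y : ℂ) * I) * exp (-(I * (k : ℂ) * ((x : ℂ) + (y : ℂ) * I))) with hG
  have hper : Function.Periodic G (2 * Real.pi) := A03_periodic hp hy k
  have h1 : ∀ x : ℝ, f ((x : ℂ) + (y : ℂ) * I + (s : ℂ)) * exp (-(I * (k : ℂ) * ((x : ℂ) + (y : ℂ) * I))) =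
      exp (I * k * s) * G (x + s) := by
    intro x
    have h2 : (((x + s : ℝ) : ℂ) + (y : ℂ) * I) = (x : ℂ) + (y : ℂ) * I + (s : ℂ) := by
      push_cast
      ring
    show _ = exp (I * k * s) * (f (((x + s : ℝ) : ℂ) + (y : ℂ) * I) *
      exp (-(I * (k : ℂ) * (((x + s : ℝ) : ℂ) + (y : ℂ) * I))))
    rw [h2, mul_left_comm, ← exp_add]
    congr 2
    ring
  simp only [h1]
  rw [intervalIntegral.integral_const_mul]
  congr 1
  rw [intervalIntegral.integral_comp_add_right G s, zero_add, add_comm (2 * Real.pi) s,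
    hper.intervalIntegral_add_eq s 0, zero_add]

theorem fc_deriv {f : ℂ → ℂ} {a b : ℝ} (hf : DifferentiableOn ℂ f (band a b))
    (hp : ∀ z ∈ band a b, f (z + 2 * (Real.pi : ℂ)) = f z) {y : ℝ} (hy : y ∈ Ioo a b) (k : ℤ) :
    fc (deriv f) y k = I * k * fc f y k := by
  have hd : DifferentiableOn ℂ (deriv f) (band a b) := hf.deriv (isOpen_band a b)
  unfold fc
  rw [mul_left_comm]
  congr 1
  rw [← intervalIntegral.integral_const_mul]
  rw [← sub_eq_zero, ← intervalIntegral.integral_sub]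
  · -- the derivative of a periodic function
    have hper := A03_periodic hp hy k
    have hderiv : ∀ x ∈ Set.uIcc (0:ℝ) (2 * Real.pi), HasDerivAt
        (fun x : ℝ => f ((x : ℂ) + (y : ℂ) * I) * exp (-(I * (k : ℂ) * ((x : ℂ) + (y : ℂ) * I))))
        (deriv f ((x : ℂ) + (y : ℂ) * I) * exp (-(I * (k : ℂ) * ((x : ℂ) + (y : ℂ) * I))) -
          I * k * (f ((x : ℂ) + (y : ℂ) * I) * exp (-(I * (k : ℂ) * ((x : ℂ) + (y : ℂ) * I))))) x := by
      intro x _
      have hl : HasDerivAt (fun x : ℝ => (x : ℂ) + (y : ℂ) * I) 1 x :=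
        (Complex.ofRealCLM.hasDerivAt (x := x)).add_const _
      have h1 : HasDerivAt f (deriv f ((x : ℂ) + (y : ℂ) * I)) ((x : ℂ) + (y : ℂ) * I) :=
        (hf.differentiableAt ((isOpen_band a b).mem_nhds (A03_mem_line hy x))).hasDerivAt
      have h2 : HasDerivAt (fun x : ℝ => f ((x : ℂ) + (y : ℂ) * I)) (deriv f ((x : ℂ) + (y : ℂ) * I)) x := by
        have := h1.comp x hl
        rw [mul_one] at this
        exact this
      have h3 : HasDerivAt (fun z : ℂ => exp (-(I * (k : ℂ) * z)))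
          (exp (-(I * (k : ℂ) * ((x : ℂ) + (y : ℂ) * I))) * (-(I * (k : ℂ)))) ((x : ℂ) + (y : ℂ) * I) := by
        have h4 : HasDerivAt (fun z : ℂ => -(I * (k : ℂ) * z)) (-(I * (k : ℂ))) ((x : ℂ) + (y : ℂ) * I) := by
          have := ((hasDerivAt_id ((x : ℂ) + (y : ℂ) * I)).const_mul (I * (k : ℂ))).neg
          rw [mul_one] at this
          exact this
        exact h4.cexp
      have h5 : HasDerivAt (fun x : ℝ => exp (-(I * (k : ℂ) * ((x : ℂ) + (y : ℂ) * I))))
          (exp (-(I * (k : ℂ) * ((x : ℂ) + (y : ℂ) * I))) * (-(I * (k : ℂ)))) x := by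
        have := h3.comp x hl
        rw [mul_one] at this
        exact this
      have h6 := h2.mul h5
      refine h6.congr_deriv ?_
      ring
    rw [intervalIntegral.integral_eq_sub_of_hasDerivAt hderiv]
    · have h1 := hper 0
      simp only [zero_add] at h1
      rw [sub_eq_zero]
      exact h1
    · apply Continuous.intervalIntegrable
      exact ((A03_continuous_comp hd.continuousOn hy).mul (A03_continuous_exp y k)).sub
        (continuous_const.mul ((A03_continuous_comp hf.continuousOn hy).mul (A03_continuous_exp y k)))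
  · apply Continuous.intervalIntegrable
    exact (A03_continuous_comp hd.continuousOn hy).mul (A03_continuous_exp y k)
  · apply Continuous.intervalIntegrable
    exact continuous_const.mul ((A03_continuous_comp hf.continuousOn hy).mul (A03_continuous_exp y k))

theorem A03_exp_pi (k : ℤ) : exp (I * k * (Real.pi : ℂ)) = (-1 : ℂ) ^ k := by
  rw [show I * k * (Real.pi : ℂ) = (k : ℂ) * ((Real.pi : ℂ) * I) by ring, exp_int_mul, exp_pi_mul_I]

theorem fc_odd_of_pi {f : ℂ → ℂ} {a b : ℝ} (hf : DifferentiableOn ℂ f (band a b))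
    (hp : ∀ z ∈ band a b, f (z + (Real.pi : ℂ)) = f z) {y : ℝ} (hy : y ∈ Ioo a b) {k : ℤ} (hk : Odd k) :
    fc f y k = 0 := by
  have hp2 : ∀ z ∈ band a b, f (z + 2 * (Real.pi : ℂ)) = f z := by
    intro z hz
    rw [two_mul, ← add_assoc, hp _ (add_real_mem_band hz _), hp z hz]
  have h1 := fc_shift hf hp2 hy Real.pi k
  rw [A03_exp_pi, hk.neg_one_zpow, A03_congr (g := f) (fun z hz => hp z hz) hy k] at h1
  have h2 : (2 : ℂ) * fc f y k = 0 := by
    linear_combination h1
  rcases mul_eq_zero.1 h2 with h | h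
  · norm_num at h
  · exact h

theorem fc_even_of_api {f : ℂ → ℂ} {a b : ℝ} (hf : DifferentiableOn ℂ f (band a b))
    (hp : ∀ z ∈ band a b, f (z + (Real.pi : ℂ)) = - f z) {y : ℝ} (hy : y ∈ Ioo a b) {k : ℤ} (hk : Even k) :
    fc f y k = 0 := by
  have hp2 : ∀ z ∈ band a b, f (z + 2 * (Real.pi : ℂ)) = f z := by
    intro z hz
    rw [two_mul, ← add_assoc, hp _ (add_real_mem_band hz _), hp z hz, neg_neg]
  have h1 := fc_shift hf hp2 hy Real.pi k
  have h3 : fc (fun z => - f z) y k = - fc f y k := by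
    unfold fc
    rw [← mul_neg, ← intervalIntegral.integral_neg]
    congr 1
    refine intervalIntegral.integral_congr fun x _ => ?_
    simp
  rw [A03_exp_pi, hk.neg_one_zpow, A03_congr (g := fun z => - f z) (fun z hz => hp z hz) hy k, h3] at h1
  have h2 : (2 : ℂ) * fc f y k = 0 := by
    linear_combination -h1
  rcases mul_eq_zero.1 h2 with h | h
  · norm_num at h
  · exact h

theorem fc_add {f g : ℂ → ℂ} {a b : ℝ} (hf : ContinuousOn f (band a b)) (hg : ContinuousOn g (band a b)) {y : ℝ}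
    (hy : y ∈ Ioo a b) (k : ℤ) : fc (fun z => f z + g z) y k = fc f y k + fc g y k := by
  unfold fc
  rw [← mul_add]
  rw [← intervalIntegral.integral_add]
  · congr 1
    refine intervalIntegral.integral_congr fun x _ => ?_
    show (f ((x : ℂ) + (y : ℂ) * I) + g ((x : ℂ) + (y : ℂ) * I)) * _ = _
    rw [add_mul]
  · exact ((A03_continuous_comp hf hy).mul (A03_continuous_exp y k)).intervalIntegrable _ _
  · exact ((A03_continuous_comp hg hy).mul (A03_continuous_exp y k)).intervalIntegrable _ _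

theorem fc_const_mul {f : ℂ → ℂ} (c : ℂ) (y : ℝ) (k : ℤ) : fc (fun z => c * f z) y k = c * fc f y k := by
  unfold fc
  rw [mul_left_comm]
  congr 1
  rw [← intervalIntegral.integral_const_mul]
  refine intervalIntegral.integral_congr fun x _ => ?_
  exact mul_assoc _ _ _

/-- reality: if `f (- conj z) = conj (f z)` then the coefficients are real -/
theorem fc_real {f : ℂ → ℂ} {a b : ℝ} (hf : ContinuousOn f (band a b))
    (hp : ∀ z ∈ band a b, f (z + 2 * (Real.pi : ℂ)) = f z)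
    (hr : ∀ z ∈ band a b, f (-(starRingEnd ℂ) z) = (starRingEnd ℂ) (f z)) {y : ℝ} (hy : y ∈ Ioo a b) (k : ℤ) :
    (fc f y k).im = 0 := by
  rw [← Complex.conj_eq_iff_im]
  unfold fc
  rw [map_mul]
  congr 1
  · rw [map_div₀, map_one, map_mul, Complex.conj_ofReal]
    congr 2
    exact Complex.conj_ofReal 2
  set G : ℝ → ℂ := fun x : ℝ => f ((x : ℂ) + (y : ℂ) * I) * exp (-(I * (k : ℂ) * ((x : ℂ) + (y : ℂ) * I))) with hG
  have hper : Function.Periodic G (2 * Real.pi) := A03_periodic hp hy k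
  have h0 : (starRingEnd ℂ) (∫ x in (0:ℝ)..(2 * Real.pi), G x) = ∫ x in (0:ℝ)..(2 * Real.pi), (starRingEnd ℂ) (G x) := by
    rw [intervalIntegral.integral_of_le Real.two_pi_pos.le, intervalIntegral.integral_of_le Real.two_pi_pos.le]
    exact integral_conj.symm
  have h1 : ∀ x : ℝ, (starRingEnd ℂ) (G x) = G (-x) := by
    intro x
    have hm := A03_mem_line hy x
    have h2 : -(starRingEnd ℂ) ((x : ℂ) + (y : ℂ) * I) = (((-x : ℝ) : ℂ) + (y : ℂ) * I) := by
      rw [map_add, map_mul, Complex.conj_ofReal, Complex.conj_ofReal, Complex.conj_I]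
      push_cast
      ring
    have h3 : (starRingEnd ℂ) (-(I * (k : ℂ) * ((x : ℂ) + (y : ℂ) * I))) =
        -(I * (k : ℂ) * (((-x : ℝ) : ℂ) + (y : ℂ) * I)) := by
      rw [map_neg, map_mul, map_mul, map_add, map_mul, Complex.conj_ofReal, Complex.conj_ofReal, Complex.conj_I,
        map_intCast]
      push_cast
      ring
    show (starRingEnd ℂ) (f ((x : ℂ) + (y : ℂ) * I) * exp (-(I * (k : ℂ) * ((x : ℂ) + (y : ℂ) * I)))) =
      f (((-x : ℝ) : ℂ) + (y : ℂ) * I) * exp (-(I * (k : ℂ) * (((-x : ℝ) : ℂ) + (y : ℂ) * I)))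
    rw [map_mul, ← hr _ hm, h2, ← Complex.exp_conj, h3]
  rw [h0]
  simp only [h1]
  rw [intervalIntegral.integral_comp_neg (fun x => G x), neg_zero]
  have h4 := hper.intervalIntegral_add_eq (-(2 * Real.pi)) 0
  rw [neg_add_cancel, zero_add] at h4
  exact h4

/-- uniform limits -/
theorem fc_tendsto {f : ℂ → ℂ} {F : ℕ → ℂ → ℂ} {y : ℝ} (hF : ∀ n, Continuous (fun x : ℝ => F n ((x:ℂ) + (y:ℂ) * I)))
    (h : TendstoUniformly (fun n (x : ℝ) => F n ((x:ℂ) + (y:ℂ) * I)) (fun x : ℝ => f ((x:ℂ) + (y:ℂ) * I)) atTop) (k : ℤ) :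
    Tendsto (fun n => fc (F n) y k) atTop (𝓝 (fc f y k)) := by
  have hfc : Continuous (fun x : ℝ => f ((x:ℂ) + (y:ℂ) * I)) :=
    h.continuous (Filter.Frequently.of_forall hF)
  have hsub : ∀ n, fc (F n) y k - fc f y k = fc (fun z => F n z - f z) y k := by
    intro n
    unfold fc
    rw [← mul_sub, ← intervalIntegral.integral_sub]
    · congr 1
      refine intervalIntegral.integral_congr fun x _ => ?_
      show _ = (F n ((x : ℂ) + (y : ℂ) * I) - f ((x : ℂ) + (y : ℂ) * I)) * _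
      rw [sub_mul]
    · exact ((hF n).mul (A03_continuous_exp y k)).intervalIntegrable _ _
    · exact (hfc.mul (A03_continuous_exp y k)).intervalIntegrable _ _
  rw [Metric.tendsto_atTop]
  intro ε hε
  have hE : 0 < Real.exp (k * y) := Real.exp_pos _
  have hε' : 0 < ε / (2 * Real.exp (k * y)) := by positivity
  rw [Metric.tendstoUniformly_iff] at h
  obtain ⟨N, hN⟩ := Filter.eventually_atTop.1 (h _ hε')
  refine ⟨N, fun n hn => ?_⟩
  rw [dist_eq_norm, hsub]
  have h1 : ∀ x : ℝ, ‖(fun z => F n z - f z) ((x:ℂ) + (y:ℂ) * I)‖ ≤ ε / (2 * Real.exp (k * y)) := by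
    intro x
    have := hN n hn x
    rw [dist_comm, dist_eq_norm] at this
    exact this.le
  refine (fc_norm_le h1 k).trans_lt ?_
  have h2 : ε / (2 * Real.exp (k * y)) * Real.exp (k * y) = ε / 2 := by
    field_simp
  rw [h2]
  exact half_lt_self hε

end FB
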