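import Pool.Agent.H48.FB.A02

/-! A04: synthesis; even and odd extensions. -/

open Complex Set MeasureTheory Filter Topology

namespace FB

theorem a04_norm_exp (k : ℤ) (z : ℂ) : ‖exp (I * (k:ℂ) * z)‖ = Real.exp (-((k:ℝ) * z.im)) := by
  rw [Complex.norm_exp]
  congr 1
  have : I * (k:ℂ) * z = ((k:ℝ):ℂ) * (I * z) := by push_cast; ring
  rw [this, Complex.re_ofReal_mul, Complex.I_mul_re]
  ring

theorem a04_bound {r : ℝ} (k : ℤ) (z : ℂ) (hz : |z.im| ≤ r) :
    ‖exp (I * (k:ℂ) * z)‖ ≤ Real.exp (|(k:ℝ)| * r) := by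
  rw [a04_norm_exp]
  apply Real.exp_le_exp.2
  calc -((k:ℝ) * z.im) ≤ |(k:ℝ) * z.im| := neg_le_abs _
    _ = |(k:ℝ)| * |z.im| := abs_mul _ _
    _ ≤ |(k:ℝ)| * r := mul_le_mul_of_nonneg_left hz (abs_nonneg _)

theorem a04_exp_period (k : ℤ) (z : ℂ) : exp (I * (k:ℂ) * (z + 2 * (Real.pi : ℂ))) = exp (I * (k:ℂ) * z) := by
  have : I * (k:ℂ) * (z + 2 * (Real.pi : ℂ)) = I * (k:ℂ) * z + (k:ℂ) * (2 * (Real.pi:ℂ) * I) := by ring
  rw [this, Complex.exp_add, Complex.exp_int_mul_two_pi_mul_I, mul_one]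

/-- orthogonality of the exponentials on a horizontal line -/
theorem a04_orth (y : ℝ) (j k : ℤ) :
    ∫ x in (0:ℝ)..(2 * Real.pi), exp (I * (j:ℂ) * ((x : ℂ) + (y : ℂ) * I)) * exp (-(I * (k : ℂ) * ((x : ℂ) + (y : ℂ) * I))) =
      if j = k then 2 * (Real.pi : ℂ) else 0 := by
  have h1 : ∀ x : ℝ, exp (I * (j:ℂ) * ((x : ℂ) + (y : ℂ) * I)) * exp (-(I * (k : ℂ) * ((x : ℂ) + (y : ℂ) * I))) =
      exp (-(((j - k : ℤ) : ℂ) * (y:ℂ))) * exp ((I * ((j - k : ℤ) : ℂ)) * (x:ℂ)) := by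
    intro x
    rw [← Complex.exp_add, ← Complex.exp_add]
    congr 1
    have hI : I * I = -1 := Complex.I_mul_I
    push_cast
    linear_combination ((j:ℂ) - k) * (y:ℂ) * hI
  simp_rw [h1]
  rw [intervalIntegral.integral_const_mul]
  split_ifs with hjk
  · subst hjk
    simp
  · have hne : I * ((j - k : ℤ) : ℂ) ≠ 0 := by
      apply mul_ne_zero Complex.I_ne_zero
      exact_mod_cast sub_ne_zero.2 hjk
    rw [integral_exp_mul_complex hne]
    have h2 : I * ((j - k : ℤ) : ℂ) * ((2 * Real.pi : ℝ) : ℂ) = ((j - k : ℤ) : ℂ) * (2 * (Real.pi:ℂ) * I) := by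
      push_cast; ring
    rw [h2, Complex.exp_int_mul_two_pi_mul_I]
    simp

theorem synth {b : ℝ} (hb : 0 < b) {c : ℤ → ℂ}
    (hc : ∀ r : ℝ, 0 ≤ r → r < b → Summable (fun k : ℤ => ‖c k‖ * Real.exp (|(k:ℝ)| * r))) :
    DifferentiableOn ℂ (fun z => ∑' k : ℤ, c k * exp (I * (k:ℂ) * z)) (strip b) ∧
    (∀ z ∈ strip b, HasSum (fun k : ℤ => c k * exp (I * (k:ℂ) * z)) (∑' k : ℤ, c k * exp (I * (k:ℂ) * z))) ∧
    (∀ z : ℂ, (∑' k : ℤ, c k * exp (I * (k:ℂ) * (z + 2 * (Real.pi : ℂ)))) = ∑' k : ℤ, c k * exp (I * (k:ℂ) * z)) ∧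
    ∀ y ∈ Ioo (-b) b, ∀ k : ℤ, fc (fun z => ∑' k : ℤ, c k * exp (I * (k:ℂ) * z)) y k = c k := by
  have hterm : ∀ (r : ℝ) (k : ℤ) (z : ℂ), |z.im| ≤ r → ‖c k * exp (I * (k:ℂ) * z)‖ ≤ ‖c k‖ * Real.exp (|(k:ℝ)| * r) := by
    intro r k z hz
    rw [norm_mul]
    exact mul_le_mul_of_nonneg_left (a04_bound k z hz) (norm_nonneg _)
  have hsum : ∀ z ∈ strip b, Summable (fun k : ℤ => c k * exp (I * (k:ℂ) * z)) := by
    intro z hz
    have hz' : |z.im| < b := abs_lt.2 hz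
    exact Summable.of_norm_bounded (hc |z.im| (abs_nonneg _) hz') (fun k => hterm _ k z le_rfl)
  refine ⟨?_, fun z hz => (hsum z hz).hasSum, ?_, ?_⟩
  · intro z hz
    have hz' : |z.im| < b := abs_lt.2 hz
    obtain ⟨r, hr1, hr2⟩ := exists_between hz'
    have hd : DifferentiableOn ℂ (fun z => ∑' k : ℤ, c k * exp (I * (k:ℂ) * z)) (strip r) := by
      apply differentiableOn_tsum_of_summable_norm (hc r ((abs_nonneg _).trans hr1.le) hr2)
      · intro k
        fun_prop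
      · exact isOpen_band _ _
      · intro k w hw
        exact hterm r k w (abs_lt.2 hw).le
    have hzr : z ∈ strip r := abs_lt.1 hr1
    exact ((hd z hzr).differentiableAt ((isOpen_band _ _).mem_nhds hzr)).differentiableWithinAt
  · intro z
    refine tsum_congr (fun k => ?_)
    rw [a04_exp_period]
  · intro y hy k
    have hyb : |y| < b := abs_lt.2 hy
    have him : ∀ x : ℝ, ((x:ℂ) + (y:ℂ) * I).im = y := by
      intro x; simp
    have key : HasSum (fun j : ℤ => ∫ x in (0:ℝ)..(2 * Real.pi),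
        (c j * exp (I * (j:ℂ) * ((x : ℂ) + (y : ℂ) * I))) * exp (-(I * (k : ℂ) * ((x : ℂ) + (y : ℂ) * I))))
        (∫ x in (0:ℝ)..(2 * Real.pi), (∑' j : ℤ, c j * exp (I * (j:ℂ) * ((x : ℂ) + (y : ℂ) * I))) *
          exp (-(I * (k : ℂ) * ((x : ℂ) + (y : ℂ) * I)))) := by
      apply intervalIntegral.hasSum_integral_of_dominated_convergence
        (fun j _ => (‖c j‖ * Real.exp (|(j:ℝ)| * |y|)) * Real.exp (|(k:ℝ)| * |y|))
      · intro j
        apply Continuous.aestronglyMeasurable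
        fun_prop
      · intro j
        refine Eventually.of_forall (fun x _ => ?_)
        rw [norm_mul]
        apply mul_le_mul
        · exact hterm |y| j _ (by rw [him])
        · have := a04_bound (r := |y|) (-k) ((x:ℂ) + (y:ℂ) * I) (by rw [him])
          have e : -(I * (k : ℂ) * ((x : ℂ) + (y : ℂ) * I)) = I * ((-k : ℤ) : ℂ) * ((x : ℂ) + (y : ℂ) * I) := by
            push_cast; ring
          rw [e]
          simpa using this
        · exact norm_nonneg _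
        · positivity
      · refine Eventually.of_forall (fun x _ => ?_)
        exact (hc |y| (abs_nonneg _) hyb).mul_right _
      · exact intervalIntegrable_const
      · refine Eventually.of_forall (fun x _ => ?_)
        apply HasSum.mul_right
        apply Summable.hasSum
        apply hsum
        refine ⟨?_, ?_⟩
        · rw [him]; exact hy.1
        · rw [him]; exact hy.2
    have key2 : (fun j : ℤ => ∫ x in (0:ℝ)..(2 * Real.pi),
        (c j * exp (I * (j:ℂ) * ((x : ℂ) + (y : ℂ) * I))) * exp (-(I * (k : ℂ) * ((x : ℂ) + (y : ℂ) * I)))) =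
        fun j => if j = k then c k * (2 * (Real.pi:ℂ)) else 0 := by
      funext j
      have : ∀ x : ℝ, (c j * exp (I * (j:ℂ) * ((x : ℂ) + (y : ℂ) * I))) * exp (-(I * (k : ℂ) * ((x : ℂ) + (y : ℂ) * I))) =
          c j * (exp (I * (j:ℂ) * ((x : ℂ) + (y : ℂ) * I)) * exp (-(I * (k : ℂ) * ((x : ℂ) + (y : ℂ) * I)))) := by
        intro x; ring
      simp_rw [this]
      rw [intervalIntegral.integral_const_mul, a04_orth]
      split_ifs with h
      · rw [h]
      · simp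
    rw [key2] at key
    have key3 := (hasSum_ite_eq k (c k * (2 * (Real.pi:ℂ)))).unique key
    unfold fc
    rw [← key3]
    have hpi : (Real.pi : ℂ) ≠ 0 := by exact_mod_cast Real.pi_ne_zero
    field_simp

/-- coefficients of an even or odd function -/
theorem a04_fc_neg {g : ℂ → ℂ} {b : ℝ} (hg : DifferentiableOn ℂ g (strip b))
    (hp : ∀ z ∈ strip b, g (z + 2 * (Real.pi : ℂ)) = g z) {s : ℂ} (hs : ∀ z ∈ strip b, g (-z) = s * g z)
    {y : ℝ} (hy : y ∈ Ioo (-b) b) (k : ℤ) : fc g y (-k) = s * fc g y k := by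
  have hy' : -y ∈ Ioo (-b) b := ⟨by linarith [hy.2], by linarith [hy.1]⟩
  rw [fc_indep hg hp hy hy' (-k)]
  unfold fc
  have him : ∀ x : ℝ, ((x:ℂ) + (y:ℂ) * I) ∈ strip b := by
    intro x
    refine ⟨?_, ?_⟩
    · simpa using hy.1
    · simpa using hy.2
  -- the integrand on the line `-y`
  obtain ⟨G, hG⟩ : ∃ G : ℝ → ℂ, G = fun u : ℝ => s * (g ((u : ℂ) + (y : ℂ) * I) * exp (-(I * (k : ℂ) * ((u : ℂ) + (y : ℂ) * I)))) :=
    ⟨_, rfl⟩
  have h1 : ∀ x : ℝ, g ((x : ℂ) + ((-y:ℝ) : ℂ) * I) * exp (-(I * ((-k:ℤ) : ℂ) * ((x : ℂ) + ((-y:ℝ) : ℂ) * I))) = G (-x) := by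
    intro x
    have e1 : (x : ℂ) + ((-y:ℝ) : ℂ) * I = -(((-x:ℝ):ℂ) + (y:ℂ) * I) := by push_cast; ring
    have e2 : -(I * ((-k:ℤ) : ℂ) * ((x : ℂ) + ((-y:ℝ) : ℂ) * I)) = -(I * (k:ℂ) * (((-x:ℝ):ℂ) + (y:ℂ) * I)) := by
      push_cast; ring
    rw [e2, e1, hs _ (him (-x)), hG]
    ring
  have h2 : (∫ x in (0:ℝ)..(2 * Real.pi), g ((x : ℂ) + ((-y:ℝ) : ℂ) * I) *
      exp (-(I * ((-k:ℤ) : ℂ) * ((x : ℂ) + ((-y:ℝ) : ℂ) * I)))) = ∫ x in (0:ℝ)..(2 * Real.pi), G (-x) :=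
    intervalIntegral.integral_congr (fun x _ => h1 x)
  rw [h2, intervalIntegral.integral_comp_neg]
  have hper : Function.Periodic G (2 * Real.pi) := by
    intro u
    have e1 : ((u + 2 * Real.pi : ℝ):ℂ) + (y:ℂ) * I = ((u:ℂ) + (y:ℂ) * I) + 2 * (Real.pi:ℂ) := by push_cast; ring
    have e2 : exp (-(I * (k : ℂ) * (((u:ℂ) + (y:ℂ) * I) + 2 * (Real.pi:ℂ)))) = exp (-(I * (k : ℂ) * ((u:ℂ) + (y:ℂ) * I))) := by
      have := a04_exp_period (-k) ((u:ℂ) + (y:ℂ) * I)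
      push_cast at this
      rw [show I * -(k:ℂ) * (((u:ℂ) + (y:ℂ) * I) + 2 * (Real.pi:ℂ)) = -(I * (k : ℂ) * (((u:ℂ) + (y:ℂ) * I) + 2 * (Real.pi:ℂ))) by ring,
        show I * -(k:ℂ) * ((u:ℂ) + (y:ℂ) * I) = -(I * (k : ℂ) * ((u:ℂ) + (y:ℂ) * I)) by ring] at this
      exact this
    rw [hG]
    simp only
    rw [e1, hp _ (him u), e2]
  have h3 := hper.intervalIntegral_add_eq (-(2 * Real.pi)) 0
  rw [show -(2 * Real.pi) + 2 * Real.pi = (0:ℝ) by ring, show (0:ℝ) + 2 * Real.pi = 2 * Real.pi by ring] at h3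
  rw [show (-0:ℝ) = 0 by simp, h3, hG, intervalIntegral.integral_const_mul]
  ring

theorem a04_fc_congr {f g : ℂ → ℂ} {a b y : ℝ} (h : EqOn g f (band a b)) (hy : y ∈ Ioo a b) (k : ℤ) : fc g y k = fc f y k := by
  unfold fc
  congr 1
  apply intervalIntegral.integral_congr
  intro x _
  have : g ((x : ℂ) + (y : ℂ) * I) = f ((x : ℂ) + (y : ℂ) * I) := h ⟨by simpa using hy.1, by simpa using hy.2⟩
  simp only [this]

theorem a04_subset {a b : ℝ} (ha : 0 ≤ a) (hab : a < b) : band a b ⊆ strip b :=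
  band_subset (by linarith) le_rfl

/-- common proof of the two criteria -/
theorem a04_ext {f : ℂ → ℂ} {a b : ℝ} (ha : 0 ≤ a) (hab : a < b) (hf : DifferentiableOn ℂ f (band a b))
    (hp : ∀ z ∈ band a b, f (z + 2 * (Real.pi : ℂ)) = f z) {y : ℝ} (hy : y ∈ Ioo a b) {s : ℂ} (hs1 : ‖s‖ = 1) :
    (∃ g : ℂ → ℂ, DifferentiableOn ℂ g (strip b) ∧ (∀ z ∈ strip b, g (z + 2 * (Real.pi : ℂ)) = g z) ∧
      (∀ z ∈ strip b, g (-z) = s * g z) ∧ EqOn g f (band a b)) ↔ ∀ k : ℤ, fc f y (-k) = s * fc f y k := by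
  have hb : 0 < b := lt_of_le_of_lt ha hab
  constructor
  · rintro ⟨g, hg, hgp, hgs, hgf⟩ k
    rw [← a04_fc_congr hgf hy (-k), ← a04_fc_congr hgf hy k]
    exact a04_fc_neg hg hgp hgs ⟨by linarith [hy.1], hy.2⟩ k
  · intro hk
    have hnorm : ∀ k : ℤ, ‖fc f y (-k)‖ = ‖fc f y k‖ := by
      intro k
      rw [hk k, norm_mul, hs1, one_mul]
    have hc : ∀ r : ℝ, 0 ≤ r → r < b → Summable (fun k : ℤ => ‖fc f y k‖ * Real.exp (|(k:ℝ)| * r)) := by
      intro r hr hrb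
      obtain ⟨y', h1, h2⟩ := exists_between (max_lt hab hrb)
      have hy' : y' ∈ Ioo a b := ⟨lt_of_le_of_lt (le_max_left _ _) h1, h2⟩
      have hry : r ≤ y' := ((le_max_right _ _).trans h1.le)
      have s1 := fc_summable hf hp hy hy'
      have s2 : Summable (fun k : ℤ => ‖fc f y (-k)‖ * Real.exp (-(((-k:ℤ):ℝ) * y'))) :=
        (Equiv.neg ℤ).summable_iff.2 s1
      have s3 := s1.add s2
      refine Summable.of_nonneg_of_le (fun k => by positivity) (fun k => ?_) s3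
      rw [hnorm k, ← mul_add]
      apply mul_le_mul_of_nonneg_left _ (norm_nonneg _)
      have h4 : Real.exp (|(k:ℝ)| * r) ≤ Real.exp (|(k:ℝ)| * y') :=
        Real.exp_le_exp.2 (mul_le_mul_of_nonneg_left hry (abs_nonneg _))
      refine h4.trans ?_
      rcases abs_cases (k:ℝ) with ⟨h5, _⟩ | ⟨h5, _⟩
      · rw [h5]
        have : Real.exp (-(((-k:ℤ):ℝ) * y')) = Real.exp ((k:ℝ) * y') := by
          congr 1; push_cast; ring
        rw [this]
        linarith [Real.exp_pos (-((k:ℝ) * y'))]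
      · rw [h5]
        have : Real.exp (-((k:ℝ) * y')) = Real.exp (-(k:ℝ) * y') := by
          congr 1; ring
        rw [this]
        linarith [Real.exp_pos (-(((-k:ℤ):ℝ) * y'))]
    obtain ⟨h1, h2, h3, h4⟩ := synth hb hc
    refine ⟨fun z => ∑' k : ℤ, fc f y k * exp (I * (k:ℂ) * z), h1, fun z _ => h3 z, ?_, ?_⟩
    · intro z _
      simp only
      rw [← (Equiv.neg ℤ).tsum_eq (fun k : ℤ => fc f y k * exp (I * (k:ℂ) * (-z))), ← tsum_mul_left]
      refine tsum_congr (fun k => ?_)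
      rw [Equiv.neg_apply, hk k]
      have : I * ((-k:ℤ):ℂ) * (-z) = I * (k:ℂ) * z := by push_cast; ring
      rw [this]
      ring
    · intro z hz
      exact (fc_hasSum hf hp hy hz).tsum_eq

/-- `EvenExt` in terms of coefficients -/
theorem evenExt_iff {f : ℂ → ℂ} {a b : ℝ} (ha : 0 ≤ a) (hab : a < b) (hf : DifferentiableOn ℂ f (band a b))
    (hp : ∀ z ∈ band a b, f (z + 2 * (Real.pi : ℂ)) = f z) {y : ℝ} (hy : y ∈ Ioo a b) :
    EvenExt a b f ↔ ∀ k : ℤ, fc f y (-k) = fc f y k := by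
  have := a04_ext ha hab hf hp hy (s := 1) (by simp)
  simp only [one_mul] at this
  exact this
theorem oddExt_iff {f : ℂ → ℂ} {a b : ℝ} (ha : 0 ≤ a) (hab : a < b) (hf : DifferentiableOn ℂ f (band a b))
    (hp : ∀ z ∈ band a b, f (z + 2 * (Real.pi : ℂ)) = f z) {y : ℝ} (hy : y ∈ Ioo a b) :
    OddExt a b f ↔ ∀ k : ℤ, fc f y (-k) = - fc f y k := by
  have := a04_ext ha hab hf hp hy (s := -1) (by simp)
  simp only [neg_one_mul] at this
  exact this

theorem a04_glue {f h : ℂ → ℂ} {a a' b : ℝ} (ha : 0 ≤ a) (haa : a < a') (hab : a' ≤ b)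
    (hf : DifferentiableOn ℂ f (band a b)) (hp : ∀ z ∈ band a b, f (z + 2 * (Real.pi : ℂ)) = f z)
    (hh : DifferentiableOn ℂ h (strip a')) {s : ℂ} (hs1 : ‖s‖ = 1) (he : ∀ z ∈ strip a', h (-z) = s * h z)
    (hfh : EqOn f h (band a a')) : ∃ g : ℂ → ℂ, DifferentiableOn ℂ g (strip b) ∧
      (∀ z ∈ strip b, g (z + 2 * (Real.pi : ℂ)) = g z) ∧
      (∀ z ∈ strip b, g (-z) = s * g z) ∧ EqOn g f (band a b) := by
  obtain ⟨y, hy1, hy2⟩ := exists_between haa
  have hyb : y ∈ Ioo a b := ⟨hy1, hy2.trans_le hab⟩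
  rw [a04_ext ha (haa.trans_le hab) hf hp hyb hs1]
  -- `h` is periodic
  have hper : EqOn (fun z => h (z + 2 * (Real.pi : ℂ))) h (strip a') := by
    apply eqOn_band (a := -a') (b := a') (a' := a) (b' := a') (by linarith) le_rfl haa
    · apply DifferentiableOn.comp hh
      · fun_prop
      · intro z hz
        have := add_real_mem_band hz (2 * Real.pi)
        push_cast at this
        exact this
    · exact hh
    · intro z hz
      have hz1 : z + 2 * (Real.pi : ℂ) ∈ band a a' := by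
        have := add_real_mem_band hz (2 * Real.pi)
        push_cast at this
        exact this
      simp only
      rw [← hfh hz1, ← hfh hz]
      exact hp z (band_subset le_rfl hab hz)
  intro k
  have e : ∀ j : ℤ, fc f y j = fc h y j := fun j => a04_fc_congr (fun z hz => hfh hz) ⟨hy1, hy2⟩ j
  rw [e, e]
  exact a04_fc_neg hh (fun z hz => hper hz) he ⟨by linarith, hy2⟩ k

/-- gluing: `f` on `band a b` agrees on `band a a'` with an even analytic function on `strip a'` -/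
theorem evenExt_of_glue {f h : ℂ → ℂ} {a a' b : ℝ} (ha : 0 ≤ a) (haa : a < a') (hab : a' ≤ b)
    (hf : DifferentiableOn ℂ f (band a b)) (hp : ∀ z ∈ band a b, f (z + 2 * (Real.pi : ℂ)) = f z)
    (hh : DifferentiableOn ℂ h (strip a')) (he : ∀ z ∈ strip a', h (-z) = h z) (hfh : EqOn f h (band a a')) :
    EvenExt a b f := by
  obtain ⟨g, h1, h2, h3, h4⟩ := a04_glue ha haa hab hf hp hh (s := 1) (by simp)
    (fun z hz => by rw [he z hz, one_mul]) hfh
  exact ⟨g, h1, h2, fun z hz => by rw [h3 z hz, one_mul], h4⟩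
theorem oddExt_of_glue {f h : ℂ → ℂ} {a a' b : ℝ} (ha : 0 ≤ a) (haa : a < a') (hab : a' ≤ b)
    (hf : DifferentiableOn ℂ f (band a b)) (hp : ∀ z ∈ band a b, f (z + 2 * (Real.pi : ℂ)) = f z)
    (hh : DifferentiableOn ℂ h (strip a')) (he : ∀ z ∈ strip a', h (-z) = - h z) (hfh : EqOn f h (band a a')) :
    OddExt a b f := by
  obtain ⟨g, h1, h2, h3, h4⟩ := a04_glue ha haa hab hf hp hh (s := -1) (by simp)
    (fun z hz => by rw [he z hz, neg_one_mul]) hfh
  exact ⟨g, h1, h2, fun z hz => by rw [h3 z hz, neg_one_mul], h4⟩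

end FB
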