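import Pool.Agent.H48.FB.A01

/-! A05: maximum principle on strips (module by helper36). -/

open Complex Set MeasureTheory Filter Topology

namespace FB

theorem per_int {g : ℂ → ℂ} {b : ℝ}
    (hp : ∀ z ∈ strip b, g (z + 2 * (Real.pi : ℂ)) = g z) (n : ℤ) :
    ∀ z ∈ strip b, g (z + (n : ℂ) * (2 * (Real.pi : ℂ))) = g z := by
  have hmem : ∀ z ∈ strip b, ∀ x : ℝ, z + (x : ℂ) ∈ strip b := fun z hz x => add_real_mem_band hz x
  have hmem2 : ∀ z ∈ strip b, ∀ m : ℤ, z + (m : ℂ) * (2 * (Real.pi : ℂ)) ∈ strip b := by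
    intro z hz m
    have := hmem z hz ((m : ℝ) * (2 * Real.pi))
    push_cast at this
    exact this
  induction n with
  | zero => intro z _; simp
  | succ i ih =>
    intro z hz
    have h1 := hp _ (hmem2 z hz (i : ℤ))
    rw [ih z hz] at h1
    rw [← h1]
    congr 1
    push_cast
    ring
  | pred i ih =>
    intro z hz
    have h1 := hp _ (hmem2 z hz (-(i : ℤ) - 1))
    rw [← h1, ← ih z hz]
    congr 1
    push_cast
    ring

/-- a periodic function is bounded on closed sub-strips -/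
theorem bounded_strip {g : ℂ → ℂ} {b y : ℝ} (hy : y < b) (hg : DifferentiableOn ℂ g (strip b))
    (hp : ∀ z ∈ strip b, g (z + 2 * (Real.pi : ℂ)) = g z) :
    ∃ C : ℝ, ∀ z : ℂ, -y ≤ z.im → z.im ≤ y → ‖g z‖ ≤ C := by
  have hK : IsCompact (Icc (0 : ℝ) (2 * Real.pi) ×ℂ Icc (-y) y) := isCompact_Icc.reProdIm isCompact_Icc
  have hsub : (Icc (0 : ℝ) (2 * Real.pi) ×ℂ Icc (-y) y) ⊆ strip b := by
    intro z hz
    have h2 := hz.2
    exact ⟨by linarith [h2.1], by linarith [h2.2]⟩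
  obtain ⟨C, hC⟩ := hK.exists_bound_of_continuousOn (hg.continuousOn.mono hsub)
  refine ⟨C, fun z h1 h2 => ?_⟩
  have hz : z ∈ strip b := ⟨by linarith, by linarith⟩
  have hpi : (0 : ℝ) < 2 * Real.pi := Real.two_pi_pos
  set m : ℤ := ⌊z.re / (2 * Real.pi)⌋ with hm
  have h3 := per_int hp (-m) z hz
  rw [← h3]
  apply hC
  have him : (z + ((-m : ℤ) : ℂ) * (2 * (Real.pi : ℂ))).im = z.im := by simp
  have hre : (z + ((-m : ℤ) : ℂ) * (2 * (Real.pi : ℂ))).re = z.re - (m : ℝ) * (2 * Real.pi) := by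
    simp [sub_eq_add_neg]
  have h4 : (m : ℝ) ≤ z.re / (2 * Real.pi) := Int.floor_le _
  have h5 : z.re / (2 * Real.pi) < (m : ℝ) + 1 := Int.lt_floor_add_one _
  rw [le_div_iff₀ hpi] at h4
  rw [div_lt_iff₀ hpi] at h5
  refine ⟨?_, ?_⟩
  · show (z + ((-m : ℤ) : ℂ) * (2 * (Real.pi : ℂ))).re ∈ Icc (0 : ℝ) (2 * Real.pi)
    rw [hre]
    constructor
    · linarith
    · nlinarith
  · show (z + ((-m : ℤ) : ℂ) * (2 * (Real.pi : ℂ))).im ∈ Icc (-y) y
    rw [him]
    exact ⟨h1, h2⟩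

/-- Proof: fix `y ∈ (a, b)`; on the closed strip `|Im z| ≤ y` the periodic function `g` is bounded (compactness of
`[0, 2 pi] × [-y, y]`), and `‖g‖ ≤ M` on both boundary lines (the lower one by symmetry);
`PhragmenLindelof.horizontal_strip` (the growth condition is trivial for a bounded function). For `z` with `|Im z| > a` it is the hypothesis. -/
theorem maxP {g : ℂ → ℂ} {a b M : ℝ} (ha : 0 ≤ a) (hab : a < b) (hg : DifferentiableOn ℂ g (strip b))
    (hp : ∀ z ∈ strip b, g (z + 2 * (Real.pi : ℂ)) = g z) (hs : ∀ z ∈ strip b, ‖g (-z)‖ = ‖g z‖)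
    (hM : ∀ z ∈ band a b, ‖g z‖ ≤ M) : ∀ z ∈ strip b, ‖g z‖ ≤ M := by
  have hup : ∀ z : ℂ, a < z.im → z.im < b → ‖g z‖ ≤ M := fun z h1 h2 => hM z ⟨h1, h2⟩
  have hlo : ∀ z : ℂ, -b < z.im → z.im < -a → ‖g z‖ ≤ M := by
    intro z h1 h2
    have h3 := hup (-z) (by rw [neg_im]; linarith) (by rw [neg_im]; linarith)
    rwa [hs z ⟨h1, by linarith⟩] at h3
  intro z hz
  obtain ⟨h1, h2⟩ := mem_strip.1 hz
  by_cases h3 : a < z.im
  · exact hup z h3 h2
  by_cases h4 : z.im < -a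
  · exact hlo z h1 h4
  push Not at h3 h4
  set y : ℝ := (a + b) / 2 with hy
  have hay : a < y := by rw [hy]; linarith
  have hyb : y < b := by rw [hy]; linarith
  have hy0 : 0 < y := by linarith
  obtain ⟨C, hC⟩ := bounded_strip hyb hg hp
  have hcl : closure (im ⁻¹' Ioo (-y) y) ⊆ strip b := by
    have : closure (im ⁻¹' Ioo (-y) y) ⊆ im ⁻¹' Icc (-y) y :=
      closure_minimal (preimage_mono Ioo_subset_Icc_self) (isClosed_Icc.preimage continuous_im)
    refine this.trans fun w hw => ?_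
    exact ⟨by linarith [hw.1], by linarith [hw.2]⟩
  refine PhragmenLindelof.horizontal_strip (a := -y) (b := y) (hg.mono hcl).diffContOnCl ?_ ?_ ?_
    (by linarith) (by linarith)
  · refine ⟨0, by
      apply div_pos Real.pi_pos
      linarith, 0, ?_⟩
    refine Asymptotics.IsBigO.of_bound C ?_
    have hmem : (im ⁻¹' Ioo (-y) y) ∈ comap (_root_.abs ∘ re) atTop ⊓ 𝓟 (im ⁻¹' Ioo (-y) y) :=
      mem_inf_of_right (mem_principal_self _)
    filter_upwards [hmem] with w hw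
    have := hC w hw.1.le hw.2.le
    simpa using this
  · intro w hw
    exact hlo w (by rw [hw]; linarith) (by rw [hw]; linarith)
  · intro w hw
    exact hup w (by rw [hw]; linarith) (by rw [hw]; linarith)

/-- Cauchy estimate -/
theorem norm_deriv_le_band {f : ℂ → ℂ} {a b M ρ : ℝ} (hρ : 0 < ρ) (hf : DifferentiableOn ℂ f (band a b))
    (hM : ∀ z ∈ band a b, ‖f z‖ ≤ M) : ∀ z ∈ band (a + ρ) (b - ρ), ‖deriv f z‖ ≤ M / ρ := by
  intro z hz
  obtain ⟨h1, h2⟩ := mem_band.1 hz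
  have hsub : Metric.closedBall z ρ ⊆ band a b := by
    intro w hw
    have h3 : |(w - z).im| ≤ ρ := (abs_im_le_norm _).trans (by simpa [dist_eq_norm] using hw)
    rw [sub_im] at h3
    have h4 := abs_le.1 h3
    exact ⟨by linarith [h4.1], by linarith [h4.2]⟩
  refine Complex.norm_deriv_le_of_forall_mem_sphere_norm_le hρ ?_ fun w hw => hM w (hsub
    (Metric.sphere_subset_closedBall hw))
  exact (hf.mono (Metric.closure_ball_subset_closedBall.trans hsub)).diffContOnCl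

theorem smul_mem_strip {b : ℝ} {z : ℂ} (hz : z ∈ strip b) {t : ℝ} (ht : t ∈ Icc (0 : ℝ) 1) :
    (t : ℂ) * z ∈ strip b := by
  obtain ⟨h1, h2⟩ := mem_strip.1 hz
  have him : ((t : ℂ) * z).im = t * z.im := by simp
  rw [mem_strip, him]
  obtain ⟨h3, h4⟩ := ht
  constructor
  · nlinarith
  · nlinarith

/-- the derivative of the integrand -/
noncomputable def Fp (H : ℂ → ℂ) (x : ℂ) (t : ℝ) : ℂ :=
  deriv H ((t : ℂ) * x) * (t : ℂ) * x + H ((t : ℂ) * x)

theorem cont_Fp2 {H : ℂ → ℂ} {b : ℝ} (hH : DifferentiableOn ℂ H (strip b)) :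
    ContinuousOn (fun p : ℝ × ℂ => Fp H p.2 p.1) (Icc (0 : ℝ) 1 ×ˢ strip b) := by
  have hopen : IsOpen (strip b) := isOpen_band _ _
  have hH' : DifferentiableOn ℂ (deriv H) (strip b) := hH.deriv hopen
  have hm : MapsTo (fun p : ℝ × ℂ => (p.1 : ℂ) * p.2) (Icc (0 : ℝ) 1 ×ˢ strip b) (strip b) :=
    fun p hp => smul_mem_strip hp.2 hp.1
  have h3 : ContinuousOn (fun p : ℝ × ℂ => (p.1 : ℂ)) (Icc (0 : ℝ) 1 ×ˢ strip b) :=
    (continuous_ofReal.comp continuous_fst).continuousOn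
  have h4 : ContinuousOn (fun p : ℝ × ℂ => p.2) (Icc (0 : ℝ) 1 ×ˢ strip b) :=
    continuous_snd.continuousOn
  have hc : ContinuousOn (fun p : ℝ × ℂ => (p.1 : ℂ) * p.2) (Icc (0 : ℝ) 1 ×ˢ strip b) := h3.mul h4
  have h1 : ContinuousOn (fun p : ℝ × ℂ => deriv H ((p.1 : ℂ) * p.2)) (Icc (0 : ℝ) 1 ×ˢ strip b) :=
    ContinuousOn.comp (g := deriv H) hH'.continuousOn hc hm
  have h2 : ContinuousOn (fun p : ℝ × ℂ => H ((p.1 : ℂ) * p.2)) (Icc (0 : ℝ) 1 ×ˢ strip b) :=
    ContinuousOn.comp (g := H) hH.continuousOn hc hm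
  exact ((h1.mul h3).mul h4).add h2

theorem cont_Fp1 {H : ℂ → ℂ} {b : ℝ} (hH : DifferentiableOn ℂ H (strip b)) {x : ℂ}
    (hx : x ∈ strip b) : ContinuousOn (fun t : ℝ => Fp H x t) (Icc (0 : ℝ) 1) := by
  have hopen : IsOpen (strip b) := isOpen_band _ _
  have hH' : DifferentiableOn ℂ (deriv H) (strip b) := hH.deriv hopen
  have hm : MapsTo (fun t : ℝ => (t : ℂ) * x) (Icc (0 : ℝ) 1) (strip b) :=
    fun t ht => smul_mem_strip hx ht
  have h3 : ContinuousOn (fun t : ℝ => (t : ℂ)) (Icc (0 : ℝ) 1) := continuous_ofReal.continuousOn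
  have hc : ContinuousOn (fun t : ℝ => (t : ℂ) * x) (Icc (0 : ℝ) 1) := h3.mul continuousOn_const
  have h1 : ContinuousOn (fun t : ℝ => deriv H ((t : ℂ) * x)) (Icc (0 : ℝ) 1) :=
    ContinuousOn.comp (g := deriv H) hH'.continuousOn hc hm
  have h2 : ContinuousOn (fun t : ℝ => H ((t : ℂ) * x)) (Icc (0 : ℝ) 1) :=
    ContinuousOn.comp (g := H) hH.continuousOn hc hm
  exact ((h1.mul h3).mul continuousOn_const).add h2

theorem cont_F0 {H : ℂ → ℂ} {b : ℝ} (hH : DifferentiableOn ℂ H (strip b)) {x : ℂ}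
    (hx : x ∈ strip b) : ContinuousOn (fun t : ℝ => H ((t : ℂ) * x) * x) (Icc (0 : ℝ) 1) := by
  have hm : MapsTo (fun t : ℝ => (t : ℂ) * x) (Icc (0 : ℝ) 1) (strip b) :=
    fun t ht => smul_mem_strip hx ht
  have h3 : ContinuousOn (fun t : ℝ => (t : ℂ)) (Icc (0 : ℝ) 1) := continuous_ofReal.continuousOn
  have hc : ContinuousOn (fun t : ℝ => (t : ℂ) * x) (Icc (0 : ℝ) 1) := h3.mul continuousOn_const
  have h2 : ContinuousOn (fun t : ℝ => H ((t : ℂ) * x)) (Icc (0 : ℝ) 1) :=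
    ContinuousOn.comp (g := H) hH.continuousOn hc hm
  exact h2.mul continuousOn_const

theorem diff_F0 {H : ℂ → ℂ} {b : ℝ} (hH : DifferentiableOn ℂ H (strip b)) {x : ℂ}
    (hx : x ∈ strip b) {t : ℝ} (ht : t ∈ Icc (0 : ℝ) 1) :
    HasDerivAt (fun x : ℂ => H ((t : ℂ) * x) * x) (Fp H x t) x := by
  have hopen : IsOpen (strip b) := isOpen_band _ _
  have hx' : (t : ℂ) * x ∈ strip b := smul_mem_strip hx ht
  have h1 : HasDerivAt H (deriv H ((t : ℂ) * x)) ((t : ℂ) * x) :=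
    (hH.differentiableAt (hopen.mem_nhds hx')).hasDerivAt
  have h2 : HasDerivAt (fun x : ℂ => (t : ℂ) * x) (t : ℂ) x := by
    simpa using (hasDerivAt_id x).const_mul (t : ℂ)
  have h4 : HasDerivAt (fun x : ℂ => H ((t : ℂ) * x)) (deriv H ((t : ℂ) * x) * (t : ℂ)) x :=
    HasDerivAt.comp x h1 h2
  have h3 := h4.mul (hasDerivAt_id' x)
  rw [mul_one] at h3
  exact h3

theorem diff_t {H : ℂ → ℂ} {b : ℝ} (hH : DifferentiableOn ℂ H (strip b)) {x : ℂ}
    (hx : x ∈ strip b) {t : ℝ} (ht : t ∈ Icc (0 : ℝ) 1) :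
    HasDerivAt (fun t : ℝ => (t : ℂ) * H ((t : ℂ) * x)) (Fp H x t) t := by
  have hopen : IsOpen (strip b) := isOpen_band _ _
  have hx' : (t : ℂ) * x ∈ strip b := smul_mem_strip hx ht
  have h1 : HasDerivAt H (deriv H ((t : ℂ) * x)) ((t : ℂ) * x) :=
    (hH.differentiableAt (hopen.mem_nhds hx')).hasDerivAt
  have h0 : HasDerivAt (fun t : ℝ => (t : ℂ)) 1 t := Complex.ofRealCLM.hasDerivAt
  have h2 : HasDerivAt (fun t : ℝ => (t : ℂ) * x) x t := by
    simpa using h0.mul_const x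
  have h4 : HasDerivAt (fun t : ℝ => H ((t : ℂ) * x)) (deriv H ((t : ℂ) * x) * x) t :=
    HasDerivAt.comp t h1 h2
  have h3 := h0.mul h4
  have h5 : 1 * H ((t : ℂ) * x) + (t : ℂ) * (deriv H ((t : ℂ) * x) * x) = Fp H x t := by
    rw [Fp]; ring
  rw [h5] at h3
  exact h3

/-- primitives on strips: `G z = ∫_0^1 H (t z) z dt` -/
theorem exists_primitive_strip {H : ℂ → ℂ} {b : ℝ} (hb : 0 < b) (hH : DifferentiableOn ℂ H (strip b)) :
    ∃ G : ℂ → ℂ, DifferentiableOn ℂ G (strip b) ∧ (∀ z ∈ strip b, deriv G z = H z) ∧ G 0 = 0 ∧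
      ((∀ z ∈ strip b, H (-z) = - H z) → ∀ z ∈ strip b, G (-z) = G z) ∧
      ((∀ z ∈ strip b, H (-z) = H z) → ∀ z ∈ strip b, G (-z) = - G z) := by
  have hopen : IsOpen (strip b) := isOpen_band _ _
  have hd : ∀ z ∈ strip b, HasDerivAt (fun z : ℂ => ∫ t in (0 : ℝ)..1, H ((t : ℂ) * z) * z) (H z) z := by
    intro z hz
    obtain ⟨ε, hε, hball⟩ := Metric.isOpen_iff.1 hopen z hz
    have hcb : Metric.closedBall z (ε / 2) ⊆ strip b :=
      (Metric.closedBall_subset_ball (by linarith)).trans hball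
    obtain ⟨C, hC⟩ := (isCompact_Icc.prod (isCompact_closedBall z (ε / 2))).exists_bound_of_continuousOn
      ((cont_Fp2 hH).mono (prod_mono_right hcb))
    have huIoc : uIoc (0 : ℝ) 1 ⊆ Icc 0 1 := by
      rw [uIoc_of_le zero_le_one]; exact Ioc_subset_Icc_self
    have huIcc : uIcc (0 : ℝ) 1 = Icc 0 1 := uIcc_of_le zero_le_one
    have hmeas : ∀ f : ℝ → ℂ, ContinuousOn f (Icc (0 : ℝ) 1) →
        AEStronglyMeasurable f (volume.restrict (uIoc (0 : ℝ) 1)) := by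
      intro f hf
      exact (hf.mono huIoc).aestronglyMeasurable measurableSet_uIoc
    have hmeasF : ∀ᶠ x in 𝓝 z, AEStronglyMeasurable (fun t : ℝ => H ((t : ℂ) * x) * x)
        (volume.restrict (uIoc (0 : ℝ) 1)) := by
      filter_upwards [hopen.mem_nhds hz] with x hx
      exact hmeas _ (cont_F0 hH hx)
    have key := intervalIntegral.hasDerivAt_integral_of_dominated_loc_of_deriv_le
      (μ := volume) (a := 0) (b := 1) (F := fun (x : ℂ) (t : ℝ) => H ((t : ℂ) * x) * x) (F' := Fp H)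
      (x₀ := z) (s := Metric.ball z (ε / 2)) (bound := fun _ => C)
      (Metric.ball_mem_nhds z (by linarith)) hmeasF
      ((cont_F0 hH hz).intervalIntegrable_of_Icc zero_le_one)
      (hmeas _ (cont_Fp1 hH hz))
      (Eventually.of_forall fun t ht x hx => hC (t, x) ⟨huIoc ht, Metric.ball_subset_closedBall hx⟩)
      intervalIntegrable_const
      (Eventually.of_forall fun t ht x hx =>
        diff_F0 hH (hcb (Metric.ball_subset_closedBall hx)) (huIoc ht))
    have hval : ∫ t in (0 : ℝ)..1, Fp H z t = H z := by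
      rw [intervalIntegral.integral_eq_sub_of_hasDerivAt
        (fun t ht => diff_t hH hz (huIcc ▸ ht))
        ((cont_Fp1 hH hz).intervalIntegrable_of_Icc zero_le_one)]
      simp
    rw [hval] at key
    exact key.2
  refine ⟨fun z : ℂ => ∫ t in (0 : ℝ)..1, H ((t : ℂ) * z) * z,
    fun z hz => (hd z hz).differentiableAt.differentiableWithinAt, fun z hz => (hd z hz).deriv,
    ?_, ?_, ?_⟩
  · simp
  · intro h z hz
    refine intervalIntegral.integral_congr fun t ht => ?_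
    rw [uIcc_of_le zero_le_one] at ht
    have h1 := h _ (smul_mem_strip hz ht)
    show H ((t : ℂ) * -z) * -z = H ((t : ℂ) * z) * z
    rw [mul_neg (t : ℂ) z, h1]
    ring
  · intro h z hz
    show (∫ t in (0 : ℝ)..1, H ((t : ℂ) * -z) * -z) = -∫ t in (0 : ℝ)..1, H ((t : ℂ) * z) * z
    rw [← intervalIntegral.integral_neg]
    refine intervalIntegral.integral_congr fun t ht => ?_
    rw [uIcc_of_le zero_le_one] at ht
    have h1 := h _ (smul_mem_strip hz ht)
    show H ((t : ℂ) * -z) * -z = -(H ((t : ℂ) * z) * z)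
    rw [mul_neg (t : ℂ) z, h1]
    ring

end FB
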