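import Pool.Agent.H48.FB.A03
import Pool.Agent.H48.FB.A04
import Pool.Agent.H48.FB.A05

/-! A06: closure properties of `EvenExt` and `OddExt`. -/

open Complex Set MeasureTheory Filter Topology

namespace FB

theorem EvenExt.congr {f g : ℂ → ℂ} {a b : ℝ} (h : EvenExt a b f) (he : EqOn f g (band a b)) : EvenExt a b g := by
  obtain ⟨u, h1, h2, h3, h4⟩ := h
  exact ⟨u, h1, h2, h3, h4.trans he⟩
theorem OddExt.congr {f g : ℂ → ℂ} {a b : ℝ} (h : OddExt a b f) (he : EqOn f g (band a b)) : OddExt a b g := by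
  obtain ⟨u, h1, h2, h3, h4⟩ := h
  exact ⟨u, h1, h2, h3, h4.trans he⟩
theorem EvenExt.of_strip {g : ℂ → ℂ} {a b : ℝ} (ha : -b ≤ a) (hg : DifferentiableOn ℂ g (strip b))
    (hp : ∀ z ∈ strip b, g (z + 2 * (Real.pi : ℂ)) = g z) (he : ∀ z ∈ strip b, g (-z) = g z) : EvenExt a b g :=
  ⟨g, hg, hp, he, fun _ _ => rfl⟩
theorem OddExt.of_strip {g : ℂ → ℂ} {a b : ℝ} (ha : -b ≤ a) (hg : DifferentiableOn ℂ g (strip b))
    (hp : ∀ z ∈ strip b, g (z + 2 * (Real.pi : ℂ)) = g z) (he : ∀ z ∈ strip b, g (-z) = - g z) : OddExt a b g :=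
  ⟨g, hg, hp, he, fun _ _ => rfl⟩
theorem EvenExt.const {a b : ℝ} (c : ℂ) : EvenExt a b (fun _ => c) :=
  ⟨fun _ => c, differentiableOn_const c, fun _ _ => rfl, fun _ _ => rfl, fun _ _ => rfl⟩
theorem EvenExt.add {f g : ℂ → ℂ} {a b : ℝ} (h : EvenExt a b f) (h' : EvenExt a b g) : EvenExt a b (fun z => f z + g z) := by
  obtain ⟨u, h1, h2, h3, h4⟩ := h
  obtain ⟨v, k1, k2, k3, k4⟩ := h'
  refine ⟨fun z => u z + v z, h1.add k1, fun z hz => ?_, fun z hz => ?_, fun z hz => ?_⟩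
  · simp only [h2 z hz, k2 z hz]
  · simp only [h3 z hz, k3 z hz]
  · simp only [h4 hz, k4 hz]
theorem EvenExt.sub {f g : ℂ → ℂ} {a b : ℝ} (h : EvenExt a b f) (h' : EvenExt a b g) : EvenExt a b (fun z => f z - g z) := by
  obtain ⟨u, h1, h2, h3, h4⟩ := h
  obtain ⟨v, k1, k2, k3, k4⟩ := h'
  refine ⟨fun z => u z - v z, h1.sub k1, fun z hz => ?_, fun z hz => ?_, fun z hz => ?_⟩
  · simp only [h2 z hz, k2 z hz]
  · simp only [h3 z hz, k3 z hz]
  · simp only [h4 hz, k4 hz]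
theorem EvenExt.neg {f : ℂ → ℂ} {a b : ℝ} (h : EvenExt a b f) : EvenExt a b (fun z => - f z) := by
  obtain ⟨u, h1, h2, h3, h4⟩ := h
  refine ⟨fun z => - u z, h1.neg, fun z hz => ?_, fun z hz => ?_, fun z hz => ?_⟩
  · simp only [h2 z hz]
  · simp only [h3 z hz]
  · simp only [h4 hz]
theorem EvenExt.mul {f g : ℂ → ℂ} {a b : ℝ} (h : EvenExt a b f) (h' : EvenExt a b g) : EvenExt a b (fun z => f z * g z) := by
  obtain ⟨u, h1, h2, h3, h4⟩ := h
  obtain ⟨v, k1, k2, k3, k4⟩ := h'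
  refine ⟨fun z => u z * v z, h1.mul k1, fun z hz => ?_, fun z hz => ?_, fun z hz => ?_⟩
  · simp only [h2 z hz, k2 z hz]
  · simp only [h3 z hz, k3 z hz]
  · simp only [h4 hz, k4 hz]
theorem OddExt.add {f g : ℂ → ℂ} {a b : ℝ} (h : OddExt a b f) (h' : OddExt a b g) : OddExt a b (fun z => f z + g z) := by
  obtain ⟨u, h1, h2, h3, h4⟩ := h
  obtain ⟨v, k1, k2, k3, k4⟩ := h'
  refine ⟨fun z => u z + v z, h1.add k1, fun z hz => ?_, fun z hz => ?_, fun z hz => ?_⟩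
  · simp only [h2 z hz, k2 z hz]
  · simp only [h3 z hz, k3 z hz]
    ring
  · simp only [h4 hz, k4 hz]
theorem OddExt.neg {f : ℂ → ℂ} {a b : ℝ} (h : OddExt a b f) : OddExt a b (fun z => - f z) := by
  obtain ⟨u, h1, h2, h3, h4⟩ := h
  refine ⟨fun z => - u z, h1.neg, fun z hz => ?_, fun z hz => ?_, fun z hz => ?_⟩
  · simp only [h2 z hz]
  · simp only [h3 z hz]
  · simp only [h4 hz]
theorem OddExt.mul {f g : ℂ → ℂ} {a b : ℝ} (h : OddExt a b f) (h' : OddExt a b g) : EvenExt a b (fun z => f z * g z) := by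
  obtain ⟨u, h1, h2, h3, h4⟩ := h
  obtain ⟨v, k1, k2, k3, k4⟩ := h'
  refine ⟨fun z => u z * v z, h1.mul k1, fun z hz => ?_, fun z hz => ?_, fun z hz => ?_⟩
  · simp only [h2 z hz, k2 z hz]
  · simp only [h3 z hz, k3 z hz]
    ring
  · simp only [h4 hz, k4 hz]
theorem EvenExt.mul_odd {f g : ℂ → ℂ} {a b : ℝ} (h : EvenExt a b f) (h' : OddExt a b g) : OddExt a b (fun z => f z * g z) := by
  obtain ⟨u, h1, h2, h3, h4⟩ := h
  obtain ⟨v, k1, k2, k3, k4⟩ := h'
  refine ⟨fun z => u z * v z, h1.mul k1, fun z hz => ?_, fun z hz => ?_, fun z hz => ?_⟩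
  · simp only [h2 z hz, k2 z hz]
  · simp only [h3 z hz, k3 z hz]
    ring
  · simp only [h4 hz, k4 hz]
/-- by `maxP` the extension stays within `‖c‖/2` of `c`, hence does not vanish -/
theorem EvenExt.inv {f : ℂ → ℂ} {a b : ℝ} (ha : 0 ≤ a) (hab : a < b) (h : EvenExt a b f) {c : ℂ} (hc : c ≠ 0)
    (hf : ∀ z ∈ band a b, ‖f z - c‖ ≤ ‖c‖ / 2) : EvenExt a b (fun z => (f z)⁻¹) := by
  obtain ⟨u, h1, h2, h3, h4⟩ := h
  have hu : ∀ z ∈ strip b, ‖u z - c‖ ≤ ‖c‖ / 2 := by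
    refine maxP (g := fun z => u z - c) ha hab (h1.sub_const c) (fun z hz => ?_) (fun z hz => ?_)
      (fun z hz => ?_)
    · simp only [h2 z hz]
    · simp only [h3 z hz]
    · simp only [h4 hz]
      exact hf z hz
  have hu0 : ∀ z ∈ strip b, u z ≠ 0 := by
    intro z hz h0
    have h5 := hu z hz
    rw [h0, zero_sub, norm_neg] at h5
    have h6 : 0 < ‖c‖ := norm_pos_iff.2 hc
    linarith
  refine ⟨fun z => (u z)⁻¹, h1.inv hu0, fun z hz => ?_, fun z hz => ?_, fun z hz => ?_⟩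
  · simp only [h2 z hz]
  · simp only [h3 z hz]
  · simp only [h4 hz]
theorem a06_strip_mono {b b' : ℝ} (hb : b' ≤ b) : strip b' ⊆ strip b := band_subset (by linarith) hb
theorem EvenExt.mono {f : ℂ → ℂ} {a b a' b' : ℝ} (h : EvenExt a b f) (ha : a ≤ a') (hb : b' ≤ b) : EvenExt a' b' f := by
  obtain ⟨u, h1, h2, h3, h4⟩ := h
  exact ⟨u, h1.mono (a06_strip_mono hb), fun z hz => h2 z (a06_strip_mono hb hz),
    fun z hz => h3 z (a06_strip_mono hb hz), h4.mono (band_subset ha hb)⟩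
theorem OddExt.mono {f : ℂ → ℂ} {a b a' b' : ℝ} (h : OddExt a b f) (ha : a ≤ a') (hb : b' ≤ b) : OddExt a' b' f := by
  obtain ⟨u, h1, h2, h3, h4⟩ := h
  exact ⟨u, h1.mono (a06_strip_mono hb), fun z hz => h2 z (a06_strip_mono hb hz),
    fun z hz => h3 z (a06_strip_mono hb hz), h4.mono (band_subset ha hb)⟩
theorem a06_isOpen_strip (b : ℝ) : IsOpen (strip b) := isOpen_band _ _
theorem a06_deriv_eqOn_band {u f : ℂ → ℂ} {a b : ℝ} (h : EqOn u f (band a b)) :
    EqOn (deriv u) (deriv f) (band a b) := fun z hz =>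
  Filter.EventuallyEq.deriv_eq (Filter.eventuallyEq_of_mem ((isOpen_band a b).mem_nhds hz) h)
theorem a06_deriv_periodic {u : ℂ → ℂ} {s : Set ℂ} (hs : IsOpen s) {p : ℂ}
    (h : ∀ z ∈ s, u (z + p) = u z) : ∀ z ∈ s, deriv u (z + p) = deriv u z := by
  intro z hz
  rw [← deriv_comp_add_const]
  exact Filter.EventuallyEq.deriv_eq (Filter.eventuallyEq_of_mem (hs.mem_nhds hz) h)
theorem EvenExt.deriv {f : ℂ → ℂ} {a b : ℝ} (h : EvenExt a b f) : OddExt a b (deriv f) := by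
  obtain ⟨u, h1, h2, h3, h4⟩ := h
  refine ⟨_root_.deriv u, h1.deriv (a06_isOpen_strip b), a06_deriv_periodic (a06_isOpen_strip b) h2,
    fun z hz => ?_, a06_deriv_eqOn_band h4⟩
  have h5 : _root_.deriv (fun z => u (-z)) z = _root_.deriv u z :=
    Filter.EventuallyEq.deriv_eq (Filter.eventuallyEq_of_mem ((a06_isOpen_strip b).mem_nhds hz) h3)
  rw [deriv_comp_neg] at h5
  rw [← h5, neg_neg]
theorem OddExt.deriv {f : ℂ → ℂ} {a b : ℝ} (h : OddExt a b f) : EvenExt a b (deriv f) := by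
  obtain ⟨u, h1, h2, h3, h4⟩ := h
  refine ⟨_root_.deriv u, h1.deriv (a06_isOpen_strip b), a06_deriv_periodic (a06_isOpen_strip b) h2,
    fun z hz => ?_, a06_deriv_eqOn_band h4⟩
  have h5 : _root_.deriv (fun z => u (-z)) z = _root_.deriv (fun z => - u z) z :=
    Filter.EventuallyEq.deriv_eq (Filter.eventuallyEq_of_mem ((a06_isOpen_strip b).mem_nhds hz) h3)
  rw [deriv_comp_neg, deriv.fun_neg] at h5
  exact neg_injective h5
/-- `k fc f k` is odd, so `fc f` is even (the coefficient `k = 0` is no condition) -/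
theorem EvenExt.of_deriv {f : ℂ → ℂ} {a b : ℝ} (ha : 0 ≤ a) (hab : a < b) (hf : DifferentiableOn ℂ f (band a b))
    (hp : ∀ z ∈ band a b, f (z + 2 * (Real.pi : ℂ)) = f z) (hd : OddExt a b (_root_.deriv f)) : EvenExt a b f := by
  have hy : (a + b) / 2 ∈ Ioo a b := ⟨by linarith, by linarith⟩
  rw [evenExt_iff ha hab hf hp hy]
  intro k
  have h1 := (oddExt_iff ha hab (hf.deriv (isOpen_band a b)) (a06_deriv_periodic (isOpen_band a b) hp)
    hy).1 hd k
  rw [fc_deriv hf hp hy, fc_deriv hf hp hy] at h1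
  by_cases hk : k = 0
  · subst hk
    simp
  · have hk' : (I * (k : ℂ)) ≠ 0 := mul_ne_zero I_ne_zero (by exact_mod_cast hk)
    apply mul_left_cancel₀ hk'
    push_cast at h1
    linear_combination -h1
/-- here the coefficient `k = 0` vanishes because `f` is `pi`-antiperiodic -/
theorem OddExt.of_deriv {f : ℂ → ℂ} {a b : ℝ} (ha : 0 ≤ a) (hab : a < b) (hf : DifferentiableOn ℂ f (band a b))
    (hp : ∀ z ∈ band a b, f (z + (Real.pi : ℂ)) = - f z) (hd : EvenExt a b (_root_.deriv f)) : OddExt a b f := by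
  have hy : (a + b) / 2 ∈ Ioo a b := ⟨by linarith, by linarith⟩
  have hp2 : ∀ z ∈ band a b, f (z + 2 * (Real.pi : ℂ)) = f z := by
    intro z hz
    have h1 : z + 2 * (Real.pi : ℂ) = (z + (Real.pi : ℂ)) + (Real.pi : ℂ) := by ring
    rw [h1, hp _ (add_real_mem_band hz Real.pi), hp z hz, neg_neg]
  rw [oddExt_iff ha hab hf hp2 hy]
  intro k
  have h1 := (evenExt_iff ha hab (hf.deriv (isOpen_band a b)) (a06_deriv_periodic (isOpen_band a b) hp2)
    hy).1 hd k
  rw [fc_deriv hf hp2 hy, fc_deriv hf hp2 hy] at h1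
  by_cases hk : k = 0
  · subst hk
    have h2 := fc_even_of_api hf hp hy (k := 0) (by decide)
    simp [h2]
  · have hk' : (I * (k : ℂ)) ≠ 0 := mul_ne_zero I_ne_zero (by exact_mod_cast hk)
    apply mul_left_cancel₀ hk'
    push_cast at h1
    linear_combination -h1
/-- limits: use `evenExt_iff` and `fc_tendsto` -/
theorem EvenExt.limit {f : ℂ → ℂ} {F : ℕ → ℂ → ℂ} {a b : ℝ} (ha : 0 ≤ a) (hab : a < b) (hf : DifferentiableOn ℂ f (band a b))
    (hF : ∀ n, EvenExt a b (F n)) (h : TendstoUniformlyOn F f atTop (band a b)) : EvenExt a b f := by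
  have hy : (a + b) / 2 ∈ Ioo a b := ⟨by linarith, by linarith⟩
  have hbs : band a b ⊆ strip b := band_subset (by linarith) le_rfl
  have hFp : ∀ n, ∀ z ∈ band a b, F n (z + 2 * (Real.pi : ℂ)) = F n z := by
    intro n z hz
    obtain ⟨u, h1, h2, h3, h4⟩ := hF n
    have hz' : z + 2 * (Real.pi : ℂ) ∈ band a b := by
      have := add_real_mem_band hz (2 * Real.pi)
      push_cast at this
      exact this
    rw [← h4 hz, ← h4 hz', h2 z (hbs hz)]
  have hFd : ∀ n, DifferentiableOn ℂ (F n) (band a b) := by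
    intro n
    obtain ⟨u, h1, h2, h3, h4⟩ := hF n
    exact (h1.mono hbs).congr fun z hz => (h4 hz).symm
  have hp : ∀ z ∈ band a b, f (z + 2 * (Real.pi : ℂ)) = f z := by
    intro z hz
    have hz' : z + 2 * (Real.pi : ℂ) ∈ band a b := by
      have := add_real_mem_band hz (2 * Real.pi)
      push_cast at this
      exact this
    have h1 := h.tendsto_at hz'
    have h2 := h.tendsto_at hz
    refine tendsto_nhds_unique h1 (h2.congr fun n => (hFp n z hz).symm)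
  have hline : ∀ x : ℝ, (x : ℂ) + (((a + b) / 2 : ℝ) : ℂ) * I ∈ band a b := by
    intro x
    rw [mem_band]
    simpa using hy
  rw [evenExt_iff ha hab hf hp hy]
  intro k
  have hc : ∀ n, Continuous (fun x : ℝ => F n ((x : ℂ) + (((a + b) / 2 : ℝ) : ℂ) * I)) := by
    intro n
    have h1 : Continuous fun x : ℝ => (x : ℂ) + (((a + b) / 2 : ℝ) : ℂ) * I := by fun_prop
    exact (hFd n).continuousOn.comp_continuous h1 hline
  have hu : TendstoUniformly (fun n (x : ℝ) => F n ((x : ℂ) + (((a + b) / 2 : ℝ) : ℂ) * I))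
      (fun x : ℝ => f ((x : ℂ) + (((a + b) / 2 : ℝ) : ℂ) * I)) atTop := by
    have h1 := h.comp (fun x : ℝ => (x : ℂ) + (((a + b) / 2 : ℝ) : ℂ) * I)
    rw [← tendstoUniformlyOn_univ]
    refine h1.mono fun x _ => hline x
  have h1 := fc_tendsto hc hu k
  have h2 := fc_tendsto hc hu (-k)
  refine tendsto_nhds_unique h2 (h1.congr fun n => ?_)
  exact ((evenExt_iff ha hab (hFd n) (hFp n) hy).1 (hF n) k).symm

end FB
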