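import Pool.Agent.H48.FB.Defs

/-! A07: one variable lemmas (Cauchy estimates in a complex parameter, Schwarz lemma at a removable singularity). -/

open Complex Set MeasureTheory Filter Topology

namespace FB

/-- Taylor coefficients with a geometric bound -/
theorem taylor_aux {g : ℂ → ℂ} {T C : ℝ} (hT : 2 ≤ T) (hg : DifferentiableOn ℂ g (Metric.ball 0 T))
    (hC : ∀ z ∈ Metric.ball (0:ℂ) T, ‖g z‖ ≤ C) :
    ∃ a : ℕ → ℂ, HasSum a (g 1) ∧ a 0 = g 0 ∧ a 1 = deriv g 0 ∧ a 2 = deriv (deriv g) 0 / 2 ∧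
      ∀ n, ‖a n‖ ≤ C * (4 / (3 * T)) ^ n := by
  have hT0 : 0 < T := by linarith
  refine ⟨fun n => ((n.factorial : ℂ))⁻¹ * iteratedDeriv n g 0, ?_, ?_, ?_, ?_, fun n => ?_⟩
  · have h1 : (1 : ℂ) ∈ Metric.ball (0:ℂ) T := by
      rw [mem_ball_zero_iff, norm_one]; linarith
    have := Complex.hasSum_taylorSeries_on_ball hg h1
    simpa using this
  · simp
  · simp [iteratedDeriv_one]
  · simp only [Nat.factorial_two, Nat.cast_ofNat]
    rw [iteratedDeriv_succ, iteratedDeriv_one]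
    ring
  · have hR : 0 < 3 * T / 4 := by positivity
    have hsub : Metric.closedBall (0:ℂ) (3 * T / 4) ⊆ Metric.ball 0 T :=
      Metric.closedBall_subset_ball (by linarith)
    have hd : DiffContOnCl ℂ g (Metric.ball 0 (3 * T / 4)) := by
      apply DifferentiableOn.diffContOnCl
      rw [closure_ball _ hR.ne']
      exact hg.mono hsub
    have h := Complex.norm_iteratedDeriv_le_of_forall_mem_sphere_norm_le (C := C) n hR hd
      (fun z hz => hC z (hsub (Metric.sphere_subset_closedBall hz)))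
    rw [norm_mul, norm_inv, Complex.norm_natCast]
    have hf : (0:ℝ) < n.factorial := by exact_mod_cast n.factorial_pos
    rw [inv_mul_le_iff₀ hf]
    refine h.trans (le_of_eq ?_)
    have e : 4 / (3 * T) = (3 * T / 4)⁻¹ := by
      rw [inv_div]
    rw [e, inv_pow]
    field_simp

/-- tail of the series -/
theorem taylor_tail {g : ℂ → ℂ} {T C : ℝ} (hT : 2 ≤ T) {a : ℕ → ℂ} (ha : HasSum a (g 1))
    (hC : ∀ n, ‖a n‖ ≤ C * (4 / (3 * T)) ^ n) (k : ℕ) :
    ‖g 1 - ∑ i ∈ Finset.range k, a i‖ ≤ 3 * C * (4 / (3 * T)) ^ k := by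
  have hT0 : 0 < T := by linarith
  set q : ℝ := 4 / (3 * T) with hq
  have hq0 : 0 < q := by positivity
  have hq1 : q ≤ 2 / 3 := by
    rw [hq, div_le_div_iff₀ (by positivity) (by norm_num)]
    linarith
  have hC0 : 0 ≤ C := by
    have := (norm_nonneg _).trans (hC 0)
    simpa using this
  have h1 : HasSum (fun n => a (n + k)) (g 1 - ∑ i ∈ Finset.range k, a i) :=
    (hasSum_nat_add_iff' k).2 ha
  have h2 : HasSum (fun n : ℕ => C * q ^ k * q ^ n) (C * q ^ k * (1 - q)⁻¹) :=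
    (hasSum_geometric_of_lt_one hq0.le (by linarith)).mul_left _
  have h3 : ‖g 1 - ∑ i ∈ Finset.range k, a i‖ ≤ C * q ^ k * (1 - q)⁻¹ := by
    apply h1.norm_le_of_bounded h2
    intro n
    refine (hC (n + k)).trans (le_of_eq ?_)
    rw [pow_add]; ring
  refine h3.trans ?_
  have h4 : (1 - q)⁻¹ ≤ 3 := by
    rw [inv_le_comm₀ (by linarith) (by norm_num)]
    linarith
  have h5 : 0 ≤ C * q ^ k := by positivity
  calc C * q ^ k * (1 - q)⁻¹ ≤ C * q ^ k * 3 := by gcongr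
    _ = 3 * C * q ^ k := by ring

theorem taylor_two {g : ℂ → ℂ} {T C : ℝ} (hT : 2 ≤ T) (hg : DifferentiableOn ℂ g (Metric.ball 0 T))
    (hC : ∀ z ∈ Metric.ball (0:ℂ) T, ‖g z‖ ≤ C) : ‖g 1 - g 0 - deriv g 0‖ ≤ 16 * C / T ^ 2 := by
  obtain ⟨a, ha, h0, h1, _, hb⟩ := taylor_aux hT hg hC
  have hT0 : 0 < T := by linarith
  have hC0 : 0 ≤ C := (norm_nonneg _).trans (hC 0 (Metric.mem_ball_self hT0))
  have h := taylor_tail hT ha hb 2
  rw [Finset.sum_range_succ, Finset.sum_range_one, h0, h1, ← sub_sub] at h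
  refine h.trans ?_
  rw [div_pow, mul_div_assoc', div_le_div_iff₀ (by positivity) (by positivity)]
  have : 0 ≤ C * T ^ 2 := by positivity
  nlinarith

theorem taylor_one {g : ℂ → ℂ} {T C : ℝ} (hT : 2 ≤ T) (hg : DifferentiableOn ℂ g (Metric.ball 0 T))
    (hC : ∀ z ∈ Metric.ball (0:ℂ) T, ‖g z‖ ≤ C) : ‖g 1 - g 0‖ ≤ 8 * C / T ∧ ‖deriv g 0‖ ≤ 8 * C / T := by
  obtain ⟨a, ha, h0, h1, _, hb⟩ := taylor_aux hT hg hC
  have hT0 : 0 < T := by linarith
  have hC0 : 0 ≤ C := (norm_nonneg _).trans (hC 0 (Metric.mem_ball_self hT0))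
  have hCT : 0 ≤ C * T := by positivity
  constructor
  · have h := taylor_tail hT ha hb 1
    rw [Finset.sum_range_one, h0] at h
    refine h.trans ?_
    rw [pow_one, mul_div_assoc', div_le_div_iff₀ (by positivity) (by positivity)]
    nlinarith
  · have h := hb 1
    rw [h1] at h
    refine h.trans ?_
    rw [pow_one, mul_div_assoc', div_le_div_iff₀ (by positivity) (by positivity)]
    nlinarith

/-- third order version, for the expansion in the amplitude -/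
theorem taylor_three {g : ℂ → ℂ} {T C : ℝ} (hT : 2 ≤ T) (hg : DifferentiableOn ℂ g (Metric.ball 0 T))
    (hC : ∀ z ∈ Metric.ball (0:ℂ) T, ‖g z‖ ≤ C) : ‖g 1 - g 0 - deriv g 0 - deriv (deriv g) 0 / 2‖ ≤ 64 * C / T ^ 3 := by
  obtain ⟨a, ha, h0, h1, h2, hb⟩ := taylor_aux hT hg hC
  have hT0 : 0 < T := by linarith
  have hC0 : 0 ≤ C := (norm_nonneg _).trans (hC 0 (Metric.mem_ball_self hT0))
  have h := taylor_tail hT ha hb 3
  rw [Finset.sum_range_succ, Finset.sum_range_succ, Finset.sum_range_one, h0, h1, h2, ← sub_sub,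
    ← sub_sub] at h
  refine h.trans ?_
  rw [div_pow, mul_div_assoc', div_le_div_iff₀ (by positivity) (by positivity)]
  have : 0 ≤ C * T ^ 3 := by positivity
  nlinarith

/-- mixed differences -/
theorem taylor_mixed {G : ℂ → ℂ → ℂ} {T1 T2 C : ℝ} (h1 : 2 ≤ T1) (h2 : 2 ≤ T2)
    (hs : ∀ t ∈ Metric.ball (0:ℂ) T2, DifferentiableOn ℂ (fun s => G s t) (Metric.ball 0 T1))
    (ht : ∀ s ∈ Metric.ball (0:ℂ) T1, DifferentiableOn ℂ (fun t => G s t) (Metric.ball 0 T2))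
    (hC : ∀ s ∈ Metric.ball (0:ℂ) T1, ∀ t ∈ Metric.ball (0:ℂ) T2, ‖G s t‖ ≤ C) :
    ‖G 1 1 - G 1 0 - G 0 1 + G 0 0‖ ≤ 64 * C / (T1 * T2) := by
  have hT1 : 0 < T1 := by linarith
  have hT2 : 0 < T2 := by linarith
  have m1 : (1 : ℂ) ∈ Metric.ball (0:ℂ) T2 := by rw [mem_ball_zero_iff, norm_one]; linarith
  have m0 : (0 : ℂ) ∈ Metric.ball (0:ℂ) T2 := Metric.mem_ball_self hT2
  have hd : DifferentiableOn ℂ (fun s => G s 1 - G s 0) (Metric.ball 0 T1) :=
    (hs 1 m1).sub (hs 0 m0)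
  have hb : ∀ s ∈ Metric.ball (0:ℂ) T1, ‖G s 1 - G s 0‖ ≤ 8 * C / T2 := fun s hs' =>
    (taylor_one (g := fun t => G s t) h2 (ht s hs') (hC s hs')).1
  have h := (taylor_one (g := fun s => G s 1 - G s 0) h1 hd hb).1
  have e : G 1 1 - G 1 0 - G 0 1 + G 0 0 = (G 1 1 - G 1 0) - (G 0 1 - G 0 0) := by ring
  rw [e]
  refine h.trans (le_of_eq ?_)
  field_simp
  ring

theorem schwarz_punctured {f : ℂ → ℂ} {c : ℂ} {ρ M : ℝ} (hρ : 0 < ρ)
    (hf : DifferentiableOn ℂ f (Metric.ball c ρ \ {c})) (hlim : Tendsto f (𝓝[≠] c) (𝓝 0))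
    (hM : ∀ z ∈ Metric.ball c ρ \ {c}, ‖f z‖ ≤ M) : ∀ z ∈ Metric.ball c ρ \ {c}, ‖f z‖ ≤ M / ρ * ‖z - c‖ := by
  intro z hz
  have hM0 : 0 ≤ M := (norm_nonneg _).trans (hM z hz)
  set g : ℂ → ℂ := Function.update f c 0 with hg
  have hgc : g c = 0 := by rw [hg, Function.update_self]
  have hgz : ∀ w, w ≠ c → g w = f w := fun w hw => by rw [hg, Function.update_of_ne hw]
  have hd : DifferentiableOn ℂ g (Metric.ball c ρ) := by
    rw [← Complex.differentiableOn_compl_singleton_and_continuousAt_iff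
      (Metric.ball_mem_nhds c hρ)]
    refine ⟨hf.congr fun w hw => hgz w hw.2, ?_⟩
    rw [continuousAt_iff_punctured_nhds, hgc]
    refine hlim.congr' ?_
    filter_upwards [self_mem_nhdsWithin] with w hw
    exact (hgz w hw).symm
  have hmaps : MapsTo g (Metric.ball c ρ) (Metric.closedBall (g c) M) := by
    intro w hw
    rw [hgc, mem_closedBall_zero_iff]
    by_cases hwc : w = c
    · rw [hwc, hgc, norm_zero]; exact hM0
    · rw [hgz w hwc]
      exact hM w ⟨hw, hwc⟩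
  have h := Complex.dist_le_div_mul_dist_of_mapsTo_ball hd hmaps hz.1
  rw [hgc, dist_zero_right, hgz z hz.2, dist_eq_norm] at h
  exact h

end FB
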