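import Pool.Agent.H48.FB.A01

/-! A08: toolkit for families `Fam`. -/

open Complex Set MeasureTheory Filter Topology

namespace FB

theorem Fam.mono {U V : Set ℂ} {f : EE → ℂ → ℂ} (h : Fam U f) (hVU : V ⊆ U) : Fam V f :=
  ⟨h.cont.mono (prod_mono subset_rfl hVU), fun e => (h.diff e).mono hVU⟩

theorem Fam.congr {U : Set ℂ} {f g : EE → ℂ → ℂ} (h : Fam U f) (he : ∀ e, EqOn (f e) (g e) U) : Fam U g :=
  ⟨h.cont.congr (fun p hp => (he p.1 hp.2).symm), fun e => (h.diff e).congr (fun _ hz => (he e hz).symm)⟩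

theorem Fam.const {U : Set ℂ} {f : ℂ → ℂ} (h : DifferentiableOn ℂ f U) : Fam U (fun _ => f) :=
  ⟨h.continuousOn.comp continuous_snd.continuousOn (fun _ hp => hp.2), fun _ => h⟩

theorem Fam.param {U : Set ℂ} {g : EE → ℂ} (h : Continuous g) : Fam U (fun e _ => g e) :=
  ⟨(h.comp continuous_fst).continuousOn, fun _ => differentiableOn_const _⟩

theorem Fam.add {U : Set ℂ} {f g : EE → ℂ → ℂ} (h : Fam U f) (h' : Fam U g) : Fam U (fun e z => f e z + g e z) :=
  ⟨h.cont.add h'.cont, fun e => (h.diff e).add (h'.diff e)⟩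

theorem Fam.sub {U : Set ℂ} {f g : EE → ℂ → ℂ} (h : Fam U f) (h' : Fam U g) : Fam U (fun e z => f e z - g e z) :=
  ⟨h.cont.sub h'.cont, fun e => (h.diff e).sub (h'.diff e)⟩

theorem Fam.neg {U : Set ℂ} {f : EE → ℂ → ℂ} (h : Fam U f) : Fam U (fun e z => - f e z) :=
  ⟨h.cont.neg, fun e => (h.diff e).neg⟩

theorem Fam.mul {U : Set ℂ} {f g : EE → ℂ → ℂ} (h : Fam U f) (h' : Fam U g) : Fam U (fun e z => f e z * g e z) :=
  ⟨h.cont.mul h'.cont, fun e => (h.diff e).mul (h'.diff e)⟩

theorem Fam.pow {U : Set ℂ} {f : EE → ℂ → ℂ} (h : Fam U f) (n : ℕ) : Fam U (fun e z => f e z ^ n) :=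
  ⟨h.cont.pow n, fun e => (h.diff e).pow n⟩

theorem Fam.inv {U : Set ℂ} {f : EE → ℂ → ℂ} (h : Fam U f) (h0 : ∀ e, ∀ z ∈ U, f e z ≠ 0) : Fam U (fun e z => (f e z)⁻¹) :=
  ⟨h.cont.inv₀ (fun p hp => h0 p.1 p.2 hp.2), fun e => (h.diff e).inv (h0 e)⟩

theorem Fam.comp {U V : Set ℂ} {f : EE → ℂ → ℂ} {Φ : ℂ → ℂ} (h : Fam U f) (hΦ : DifferentiableOn ℂ Φ V)
    (hV : ∀ e, ∀ z ∈ U, f e z ∈ V) : Fam U (fun e z => Φ (f e z)) :=
  ⟨hΦ.continuousOn.comp h.cont (fun p hp => hV p.1 p.2 hp.2),
    fun e => hΦ.comp (h.diff e) (fun z hz => hV e z hz)⟩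

theorem Fam.shift {a b : ℝ} {f : EE → ℂ → ℂ} (h : Fam (band a b) f) (s : ℝ) : Fam (band a b) (fun e z => f e (z + (s:ℂ))) := by
  refine ⟨?_, ?_⟩
  · have hm : Continuous (fun p : EE × ℂ => ((p.1, p.2 + (s:ℂ)) : EE × ℂ)) := by fun_prop
    exact h.cont.comp hm.continuousOn (fun p hp => ⟨mem_univ _, add_real_mem_band hp.2 s⟩)
  · intro e
    exact (h.diff e).comp ((differentiable_id.add_const (s:ℂ)).differentiableOn)
      (fun z hz => add_real_mem_band hz s)

theorem Fam.shift_sub {a b : ℝ} {f : EE → ℂ → ℂ} (h : Fam (band a b) f) (s : ℝ) : Fam (band a b) (fun e z => f e (z - (s:ℂ))) := by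
  have h1 := h.shift (-s)
  refine h1.congr (fun e z _ => ?_)
  simp only [ofReal_neg, ← sub_eq_add_neg]

/-- uniform closeness on compact sets -/
theorem Fam.unif {U : Set ℂ} {f : EE → ℂ → ℂ} (h : Fam U f) {K : Set ℂ} (hK : IsCompact K) (hKU : K ⊆ U)
    (e0 : EE) {ε : ℝ} (hε : 0 < ε) : ∀ᶠ e in 𝓝 e0, ∀ z ∈ K, ‖f e z - f e0 z‖ < ε := by
  have hc : ContinuousOn (Function.uncurry f) (univ ×ˢ K) := h.cont.mono (prod_mono subset_rfl hKU)
  obtain ⟨v, hv, hv'⟩ := hK.mem_uniformity_of_prod hc (mem_univ e0) (Metric.dist_mem_uniformity hε)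
  rw [nhdsWithin_univ] at hv
  filter_upwards [hv] with e he z hz
  have := hv' e he z hz
  rw [← dist_eq_norm]
  exact this

theorem A08_ball {a b : ℝ} {z0 : ℂ} (hz : z0 ∈ band a b) :
    ∃ R > 0, Metric.closedBall z0 R ⊆ band a b := by
  obtain ⟨R, hR, h⟩ := Metric.isOpen_iff.1 (isOpen_band a b) z0 hz
  exact ⟨R / 2, by positivity, (Metric.closedBall_subset_ball (by linarith)).trans h⟩

/-- Cauchy estimate in a half ball -/
theorem A08_cauchy {g : ℂ → ℂ} {z0 : ℂ} {R C : ℝ} (hR : 0 < R)
    (hg : DifferentiableOn ℂ g (Metric.closedBall z0 R)) (hC : ∀ z ∈ Metric.closedBall z0 R, ‖g z‖ ≤ C)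
    {z : ℂ} (hz : z ∈ Metric.ball z0 (R / 2)) : ‖_root_.deriv g z‖ ≤ C / (R / 2) := by
  have hsub : Metric.closedBall z (R / 2) ⊆ Metric.closedBall z0 R := by
    intro w hw
    rw [Metric.mem_closedBall] at hw ⊢
    rw [Metric.mem_ball] at hz
    linarith [dist_triangle w z z0]
  apply Complex.norm_deriv_le_of_forall_mem_sphere_norm_le (by positivity)
  · apply DifferentiableOn.diffContOnCl
    rw [closure_ball z (by positivity)]
    exact hg.mono hsub
  · intro w hw
    exact hC w (hsub (Metric.sphere_subset_closedBall hw))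

/-- joint continuity of the derivative: Cauchy formula on small circles (locally uniform in `e`) -/
theorem Fam.deriv {a b : ℝ} {f : EE → ℂ → ℂ} (h : Fam (band a b) f) : Fam (band a b) (fun e => _root_.deriv (f e)) := by
  refine ⟨?_, fun e => (h.diff e).deriv (isOpen_band a b)⟩
  rintro ⟨e0, z0⟩ hp
  have hz0 : z0 ∈ band a b := hp.2
  apply ContinuousAt.continuousWithinAt
  obtain ⟨R, hR, hball⟩ := A08_ball hz0
  rw [Metric.continuousAt_iff']
  intro ε hε
  have hcd : ContinuousAt (_root_.deriv (f e0)) z0 :=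
    (((h.diff e0).deriv (isOpen_band a b)).differentiableAt
      ((isOpen_band a b).mem_nhds hz0)).continuousAt
  rw [Metric.continuousAt_iff'] at hcd
  have h1 := hcd (ε / 2) (by positivity)
  have h2 := h.unif (isCompact_closedBall z0 R) hball e0 (ε := ε / 4 * (R / 2)) (by positivity)
  have h3 : ∀ᶠ z in 𝓝 z0, z ∈ Metric.ball z0 (R / 2) := Metric.ball_mem_nhds z0 (by positivity)
  have h4 : ∀ᶠ p : EE × ℂ in 𝓝 (e0, z0), (∀ z ∈ Metric.closedBall z0 R, ‖f p.1 z - f e0 z‖ < ε / 4 * (R / 2)) ∧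
      (dist (_root_.deriv (f e0) p.2) (_root_.deriv (f e0) z0) < ε / 2 ∧ p.2 ∈ Metric.ball z0 (R / 2)) := by
    rw [nhds_prod_eq]
    exact h2.prod_mk (h1.and h3)
  filter_upwards [h4] with p hp
  obtain ⟨hp1, hp2, hp3⟩ := hp
  have hmem : p.2 ∈ band a b := by
    apply hball
    rw [Metric.mem_ball] at hp3
    rw [Metric.mem_closedBall]; linarith
  have hd : ‖_root_.deriv (fun z => f p.1 z - f e0 z) p.2‖ ≤ (ε / 4 * (R / 2)) / (R / 2) :=
    A08_cauchy hR (((h.diff p.1).sub (h.diff e0)).mono hball) (fun z hz => (hp1 z hz).le) hp3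
  have hd1 : _root_.deriv (fun z => f p.1 z - f e0 z) p.2 = _root_.deriv (f p.1) p.2 - _root_.deriv (f e0) p.2 := by
    have e1 := ((h.diff p.1).differentiableAt ((isOpen_band a b).mem_nhds hmem))
    have e2 := ((h.diff e0).differentiableAt ((isOpen_band a b).mem_nhds hmem))
    exact deriv_fun_sub e1 e2
  rw [hd1] at hd
  have hd2 : (ε / 4 * (R / 2)) / (R / 2) = ε / 4 := by field_simp
  rw [hd2, ← dist_eq_norm] at hd
  have := dist_triangle (_root_.deriv (f p.1) p.2) (_root_.deriv (f e0) p.2) (_root_.deriv (f e0) z0)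
  linarith

theorem Fam.fc_cont {a b : ℝ} {f : EE → ℂ → ℂ} (h : Fam (band a b) f) {y : ℝ} (hy : y ∈ Ioo a b) (k : ℤ) :
    Continuous (fun e => fc (f e) y k) := by
  unfold fc
  apply continuous_const.mul
  apply intervalIntegral.continuous_parametric_intervalIntegral_of_continuous'
  have hm : Continuous (fun p : EE × ℝ => ((p.1, (p.2:ℂ) + (y:ℂ) * I) : EE × ℂ)) := by fun_prop
  have h1 : Continuous (fun p : EE × ℝ => f p.1 ((p.2:ℂ) + (y:ℂ) * I)) := by
    refine h.cont.comp_continuous hm (fun p => ⟨mem_univ _, ?_⟩)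
    simp only [band, mem_ofPred_eq, add_im, ofReal_im, mul_im, ofReal_re, I_im, I_re]
    constructor
    · have := hy.1; linarith
    · have := hy.2; linarith
  have h2 : Continuous (fun p : EE × ℝ => exp (-(I * (k : ℂ) * ((p.2 : ℂ) + (y : ℂ) * I)))) := by fun_prop
  exact h1.mul h2

/-- locally uniform limits (here: uniform on the whole of `univ × U`) -/
theorem Fam.limit {a b : ℝ} {f : EE → ℂ → ℂ} {F : ℕ → EE → ℂ → ℂ} (hF : ∀ n, Fam (band a b) (F n))
    (h : TendstoUniformlyOn (fun n (p : EE × ℂ) => F n p.1 p.2) (fun p => f p.1 p.2) atTop (univ ×ˢ band a b)) :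
    Fam (band a b) f := by
  refine ⟨h.continuousOn (Eventually.of_forall fun n => (hF n).cont).frequently, fun e => ?_⟩
  have h1 : TendstoUniformlyOn (fun n z => F n e z) (f e) atTop (band a b) := by
    rw [Metric.tendstoUniformlyOn_iff] at h ⊢
    intro ε hε
    filter_upwards [h ε hε] with n hn z hz
    exact hn (e, z) ⟨mem_univ _, hz⟩
  exact h1.tendstoLocallyUniformlyOn.differentiableOn (Eventually.of_forall fun n => (hF n).diff e)
    (isOpen_band a b)

/-- parametric integrals -/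
theorem Fam.integral {a b al M : ℝ} (hal : 0 < al) {F : EE → ℂ → ℝ → ℂ} (hF : ∀ s ∈ Ioo (-al) al, Fam (band a b) (fun e z => F e z s))
    (hM : ∀ e, ∀ z ∈ band a b, ∀ s ∈ Ioo (-al) al, ‖F e z s‖ ≤ M)
    (hs : ∀ e, ∀ z ∈ band a b, ContinuousOn (F e z) (Ioo (-al) al)) :
    Fam (band a b) (fun e z => ∫ s in (-al)..al, F e z s) := by
  have hal' : -al ≤ al := by linarith
  have hne : ∀ᵐ t ∂(volume : Measure ℝ), t ∈ uIoc (-al) al → t ∈ Ioo (-al) al := by
    have h0 : ∀ᵐ t ∂(volume : Measure ℝ), t ≠ al := by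
      rw [ae_iff]; simp
    filter_upwards [h0] with t ht ht'
    rw [uIoc_of_le hal'] at ht'
    exact ⟨ht'.1, lt_of_le_of_ne ht'.2 ht⟩
  have hres : (volume : Measure ℝ).restrict (uIoc (-al) al) = (volume : Measure ℝ).restrict (Ioo (-al) al) := by
    rw [uIoc_of_le hal']
    exact (Measure.restrict_congr_set Ioo_ae_eq_Ioc).symm
  have hmeas : ∀ e, ∀ z ∈ band a b, AEStronglyMeasurable (F e z) ((volume : Measure ℝ).restrict (uIoc (-al) al)) := by
    intro e z hz
    rw [hres]
    exact (hs e z hz).aestronglyMeasurable measurableSet_Ioo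
  refine ⟨?_, ?_⟩
  · intro p hp
    apply intervalIntegral.continuousWithinAt_of_dominated_interval (bound := fun _ => M)
    · filter_upwards [self_mem_nhdsWithin] with q hq
      exact hmeas q.1 q.2 hq.2
    · filter_upwards [self_mem_nhdsWithin] with q hq
      filter_upwards [hne] with t ht ht'
      exact hM q.1 q.2 hq.2 t (ht ht')
    · exact intervalIntegrable_const
    · filter_upwards [hne] with t ht ht'
      exact (hF t (ht ht')).cont p hp
  · intro e z0 hz0
    apply DifferentiableAt.differentiableWithinAt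
    obtain ⟨R, hR, hball⟩ := A08_ball hz0
    have hint : IntervalIntegrable (F e z0) volume (-al) al := by
      rw [intervalIntegrable_iff]
      refine IntegrableOn.of_bound ?_ (hmeas e z0 hz0) M ?_
      · rw [uIoc_of_le hal']; exact measure_Ioc_lt_top
      · rw [ae_restrict_iff' measurableSet_uIoc]
        filter_upwards [hne] with t ht ht'
        exact hM e z0 hz0 t (ht ht')
    have key := intervalIntegral.hasDerivAt_integral_of_dominated_loc_of_deriv_le
      (μ := (volume : Measure ℝ)) (a := -al) (b := al)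
      (F := fun z s => F e z s) (F' := fun z s => _root_.deriv (fun z => F e z s) z) (x₀ := z0)
      (s := Metric.ball z0 (R / 2)) (bound := fun _ => M / (R / 2))
      (Metric.ball_mem_nhds z0 (by positivity))
      (by
        filter_upwards [(isOpen_band a b).mem_nhds hz0] with z hz
        exact hmeas e z hz)
      hint
      (by
        -- measurability of the derivative: limit of difference quotients
        have hev : ∀ᶠ n : ℕ in atTop, z0 + ((1 / ((n:ℝ) + 1) : ℝ) : ℂ) ∈ band a b := by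
          filter_upwards with n
          exact add_real_mem_band hz0 _
        have hmem : ∀ n : ℕ, z0 + ((1 / ((n:ℝ) + 1) : ℝ) : ℂ) ∈ band a b := fun n => add_real_mem_band hz0 _
        refine aestronglyMeasurable_of_tendsto_ae (u := atTop)
          (f := fun (n : ℕ) t => (((n:ℝ) + 1 : ℝ) : ℂ) * (F e (z0 + ((1 / ((n:ℝ) + 1) : ℝ) : ℂ)) t - F e z0 t)) ?_ ?_
        · intro n
          exact ((hmeas e _ (hmem n)).sub (hmeas e z0 hz0)).const_mul _
        · rw [ae_restrict_iff' measurableSet_uIoc]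
          filter_upwards [hne] with t ht ht'
          have hd : HasDerivAt (fun z => F e z t) (_root_.deriv (fun z => F e z t) z0) z0 :=
            (((hF t (ht ht')).diff e).differentiableAt ((isOpen_band a b).mem_nhds hz0)).hasDerivAt
          have hsl := hd.tendsto_slope_zero
          have hseq : Tendsto (fun n : ℕ => ((1 / ((n:ℝ) + 1) : ℝ) : ℂ)) atTop (𝓝[≠] 0) := by
            rw [tendsto_nhdsWithin_iff]
            constructor
            · have := tendsto_one_div_add_atTop_nhds_zero_nat (𝕜 := ℝ)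
              have h2 : Tendsto (fun n : ℕ => ((1 / ((n:ℝ) + 1) : ℝ) : ℂ)) atTop (𝓝 ((0 : ℝ) : ℂ)) :=
                (continuous_ofReal.tendsto 0).comp this
              rw [ofReal_zero] at h2
              exact h2
            · filter_upwards with n
              have : (1 / ((n:ℝ) + 1) : ℝ) ≠ 0 := by positivity
              exact ofReal_ne_zero.2 this
          have hcomp := hsl.comp hseq
          refine hcomp.congr (fun n => ?_)
          simp only [Function.comp, smul_eq_mul]
          congr 1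
          push_cast
          rw [one_div, inv_inv])
      (by
        filter_upwards [hne] with t ht ht' z hz
        refine A08_cauchy hR (((hF t (ht ht')).diff e).mono hball) (fun w hw => ?_) hz
        exact hM e w (hball hw) t (ht ht'))
      intervalIntegrable_const
      (by
        filter_upwards [hne] with t ht ht' z hz
        have hz' : z ∈ band a b := by
          apply hball
          rw [Metric.mem_ball] at hz
          rw [Metric.mem_closedBall]; linarith
        exact (((hF t (ht ht')).diff e).differentiableAt ((isOpen_band a b).mem_nhds hz')).hasDerivAt)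
    exact key.2.differentiableAt

/-- series with a majorant -/
theorem Fam.tsum {a b : ℝ} {ι : Type} {F : ι → EE → ℂ → ℂ} (hF : ∀ i, Fam (band a b) (F i))
    (hM : ∀ a' b', a < a' → b' < b → ∃ M : ι → ℝ, Summable M ∧ ∀ i e, ∀ z ∈ band a' b', ‖F i e z‖ ≤ M i) :
    Fam (band a b) (fun e z => ∑' i, F i e z) := by
  have hloc : ∀ z ∈ band a b, ∃ a' b', a < a' ∧ b' < b ∧ z ∈ band a' b' := by
    intro z hz
    refine ⟨(a + z.im) / 2, (z.im + b) / 2, ?_, ?_, ?_, ?_⟩
    · have := hz.1; linarith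
    · have := hz.2; linarith
    · have := hz.1; linarith
    · have := hz.2; linarith
  refine ⟨?_, ?_⟩
  · rintro ⟨e0, z0⟩ hp
    obtain ⟨a', b', ha', hb', hz'⟩ := hloc z0 hp.2
    obtain ⟨M, hMs, hMb⟩ := hM a' b' ha' hb'
    have hc : ContinuousOn (fun p : EE × ℂ => ∑' i, F i p.1 p.2) (univ ×ˢ band a' b') :=
      continuousOn_tsum (fun i => ((hF i).mono (band_subset ha'.le hb'.le)).cont) hMs
        (fun i p hp => hMb i p.1 p.2 hp.2)
    have hopen : IsOpen ((univ : Set EE) ×ˢ band a' b') := isOpen_univ.prod (isOpen_band a' b')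
    exact (hc.continuousAt (hopen.mem_nhds ⟨mem_univ _, hz'⟩)).continuousWithinAt
  · intro e z0 hz0
    obtain ⟨a', b', ha', hb', hz'⟩ := hloc z0 hz0
    obtain ⟨M, hMs, hMb⟩ := hM a' b' ha' hb'
    have hd : DifferentiableOn ℂ (fun z => ∑' i, F i e z) (band a' b') :=
      differentiableOn_tsum_of_summable_norm hMs
        (fun i => ((hF i).diff e).mono (band_subset ha'.le hb'.le)) (isOpen_band a' b')
        (fun i z hz => hMb i e z hz)
    exact (hd.differentiableAt ((isOpen_band a' b').mem_nhds hz')).differentiableWithinAt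

end FB
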