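import Pool.Agent.H48.FB.Defs

/-! A09: Neumann series with parameter and majorants (pure series manipulations). -/

open Set Filter Topology
open scoped ENNReal

noncomputable section

namespace FB

/-- Iterated majorants in `ℝ≥0∞`. -/
def nXE (TM : ℕ → ℕ → ℝ) (G : ℕ → ℝ) : ℕ → ℕ → ℝ≥0∞
  | 0 => fun n => ENNReal.ofReal (G n)
  | (k + 1) => fun n => ∑' m, ENNReal.ofReal (TM n m) * nXE TM G k m

/-- The iterates. -/
def nxr (T : EE → ℕ → ℕ → ℝ) (g : EE → ℕ → ℝ) : ℕ → EE → ℕ → ℝ
  | 0 => g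
  | (k + 1) => fun e n => -∑' m, T e n m * nxr T g k e m

theorem nXE_weight {TM : ℕ → ℕ → ℝ} {G : ℕ → ℝ} (hTM : ∀ n m, 0 ≤ TM n m)
    {w : ℕ → ℝ} (hw : ∀ n, 0 ≤ w n)
    (hwT : ∀ m, Summable (fun n => w n * TM n m) ∧ ∑' n, w n * TM n m ≤ w m / 2) (k : ℕ) :
    ∑' n, ENNReal.ofReal (w n) * nXE TM G k n ≤
      (2⁻¹ : ℝ≥0∞) ^ k * ∑' n, ENNReal.ofReal (w n) * ENNReal.ofReal (G n) := by
  induction k with
  | zero => simp [nXE]
  | succ k ih =>
    have h1 : ∀ m, ∑' n, ENNReal.ofReal (w n) * ENNReal.ofReal (TM n m) ≤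
        ENNReal.ofReal (w m) * 2⁻¹ := by
      intro m
      have h2 : ∑' n, ENNReal.ofReal (w n) * ENNReal.ofReal (TM n m) =
          ENNReal.ofReal (∑' n, w n * TM n m) := by
        rw [ENNReal.ofReal_tsum_of_nonneg (fun n => mul_nonneg (hw n) (hTM n m)) (hwT m).1]
        exact tsum_congr fun n => (ENNReal.ofReal_mul (hw n)).symm
      rw [h2]
      refine (ENNReal.ofReal_le_ofReal (hwT m).2).trans (le_of_eq ?_)
      rw [div_eq_mul_inv, ENNReal.ofReal_mul (hw m), ENNReal.ofReal_inv_of_pos (by norm_num)]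
      norm_num
    calc ∑' n, ENNReal.ofReal (w n) * nXE TM G (k + 1) n
        = ∑' n, ∑' m, ENNReal.ofReal (w n) * (ENNReal.ofReal (TM n m) * nXE TM G k m) := by
          refine tsum_congr fun n => ?_
          rw [ENNReal.tsum_mul_left]
          rfl
      _ = ∑' m, (∑' n, ENNReal.ofReal (w n) * ENNReal.ofReal (TM n m)) * nXE TM G k m := by
          rw [ENNReal.tsum_comm]
          refine tsum_congr fun m => ?_
          rw [← ENNReal.tsum_mul_right]
          exact tsum_congr fun n => (mul_assoc _ _ _).symm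
      _ ≤ ∑' m, (ENNReal.ofReal (w m) * 2⁻¹) * nXE TM G k m :=
          ENNReal.tsum_le_tsum fun m => mul_le_mul_left (h1 m) _
      _ = 2⁻¹ * ∑' m, ENNReal.ofReal (w m) * nXE TM G k m := by
          rw [← ENNReal.tsum_mul_left]
          exact tsum_congr fun m => by ring
      _ ≤ 2⁻¹ * ((2⁻¹ : ℝ≥0∞) ^ k * ∑' n, ENNReal.ofReal (w n) * ENNReal.ofReal (G n)) :=
          mul_le_mul_right ih _
      _ = _ := by rw [pow_succ]; ring

theorem nXE_sum {TM : ℕ → ℕ → ℝ} {G : ℕ → ℝ} (hTM : ∀ n m, 0 ≤ TM n m)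
    {w : ℕ → ℝ} (hw : ∀ n, 0 ≤ w n)
    (hwT : ∀ m, Summable (fun n => w n * TM n m) ∧ ∑' n, w n * TM n m ≤ w m / 2) :
    ∑' n, ENNReal.ofReal (w n) * ∑' k, nXE TM G k n ≤
      2 * ∑' n, ENNReal.ofReal (w n) * ENNReal.ofReal (G n) := by
  calc ∑' n, ENNReal.ofReal (w n) * ∑' k, nXE TM G k n
      = ∑' k, ∑' n, ENNReal.ofReal (w n) * nXE TM G k n := by
        rw [← ENNReal.tsum_comm]
        exact tsum_congr fun n => ENNReal.tsum_mul_left.symm
    _ ≤ ∑' k, (2⁻¹ : ℝ≥0∞) ^ k * ∑' n, ENNReal.ofReal (w n) * ENNReal.ofReal (G n) :=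
        ENNReal.tsum_le_tsum fun k => nXE_weight hTM hw hwT k
    _ = 2 * ∑' n, ENNReal.ofReal (w n) * ENNReal.ofReal (G n) := by
        rw [ENNReal.tsum_mul_right, ENNReal.tsum_geometric, ENNReal.one_sub_inv_two, inv_inv]

/-- Proof: `X^0 = G`, `X^{k+1} n = ∑' m, TM n m * X^k m`, `XM = ∑' k, X^k`; `x^0 = g`, `x^{k+1} e n = - ∑' m, T e n m * x^k e m`,
`x = ∑' k, x^k`. For a weight `w` as in the last statement `∑' w X^{k+1} ≤ (1/2) ∑' w X^k` (exchange the sums), so
`∑' w XM ≤ 2 ∑' w G`. All exchanges are justified with the positive weight `w0`. Continuity in `e`: every `x^k e n` is continuous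
(`continuous_tsum` with the majorants), and the sum over `k` converges uniformly. -/
theorem neumann {T : EE → ℕ → ℕ → ℝ} {g : EE → ℕ → ℝ} {TM : ℕ → ℕ → ℝ} {G : ℕ → ℝ}
    (hT : ∀ e n m, |T e n m| ≤ TM n m) (hTc : ∀ n m, Continuous (fun e => T e n m))
    (hg : ∀ e n, |g e n| ≤ G n) (hgc : ∀ n, Continuous (fun e => g e n))
    {w0 : ℕ → ℝ} (hw0 : ∀ n, 0 < w0 n)
    (hw0T : ∀ m, Summable (fun n => w0 n * TM n m) ∧ ∑' n, w0 n * TM n m ≤ w0 m / 2)
    (hw0G : Summable (fun n => w0 n * G n)) :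
    ∃ x : EE → ℕ → ℝ, ∃ XM : ℕ → ℝ, (∀ n, Continuous (fun e => x e n)) ∧ (∀ e n, |x e n| ≤ XM n) ∧
      (∀ e n, Summable (fun m => T e n m * x e m) ∧ x e n = g e n - ∑' m, T e n m * x e m) ∧
      ∀ w : ℕ → ℝ, (∀ n, 0 ≤ w n) → (∀ m, Summable (fun n => w n * TM n m) ∧ ∑' n, w n * TM n m ≤ w m / 2) →
        Summable (fun n => w n * G n) →
        Summable (fun n => w n * XM n) ∧ ∑' n, w n * XM n ≤ 2 * ∑' n, w n * G n := by
  have e0 : EE := ⟨0, by simp⟩
  have hTM : ∀ n m, 0 ≤ TM n m := fun n m => (abs_nonneg _).trans (hT e0 n m)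
  have hG : ∀ n, 0 ≤ G n := fun n => (abs_nonneg _).trans (hg e0 n)
  set XE := nXE TM G with hXE
  set XME : ℕ → ℝ≥0∞ := fun n => ∑' k, XE k n with hXME
  have hsumG : ∀ w : ℕ → ℝ, (∀ n, 0 ≤ w n) → Summable (fun n => w n * G n) →
      ∑' n, ENNReal.ofReal (w n) * ENNReal.ofReal (G n) = ENNReal.ofReal (∑' n, w n * G n) := by
    intro w hw hs
    rw [ENNReal.ofReal_tsum_of_nonneg (fun n => mul_nonneg (hw n) (hG n)) hs]
    exact tsum_congr fun n => (ENNReal.ofReal_mul (hw n)).symm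
  have hfin : ∀ n, XME n ≠ ⊤ := by
    intro n htop
    have h1 := nXE_sum (G := G) hTM (fun n => (hw0 n).le) hw0T
    rw [hsumG w0 (fun n => (hw0 n).le) hw0G] at h1
    have h2 : ENNReal.ofReal (w0 n) * XME n ≤ 2 * ENNReal.ofReal (∑' n, w0 n * G n) :=
      (ENNReal.le_tsum n).trans h1
    rw [htop, ENNReal.mul_top (by simpa using hw0 n)] at h2
    exact absurd (lt_of_le_of_lt h2 (ENNReal.mul_lt_top (by norm_num) ENNReal.ofReal_lt_top))
      (lt_irrefl _)
  have hfink : ∀ k n, XE k n ≠ ⊤ := fun k n =>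
    ne_top_of_le_ne_top (hfin n) (ENNReal.le_tsum (f := fun k => XE k n) k)
  set XR : ℕ → ℕ → ℝ := fun k n => (XE k n).toReal with hXR
  have hXR0 : ∀ k n, 0 ≤ XR k n := fun k n => ENNReal.toReal_nonneg
  have hofX : ∀ k n, ENNReal.ofReal (XR k n) = XE k n := fun k n => ENNReal.ofReal_toReal (hfink k n)
  -- sums over `m`
  have hTX : ∀ k n, (∑' m, ENNReal.ofReal (TM n m * XR k m)) = XE (k + 1) n := by
    intro k n
    change _ = ∑' m, ENNReal.ofReal (TM n m) * XE k m
    exact tsum_congr fun m => by rw [ENNReal.ofReal_mul (hTM n m), hofX]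
  have hsm : ∀ k n, Summable fun m => TM n m * XR k m := by
    intro k n
    have h := ENNReal.summable_toReal (f := fun m => ENNReal.ofReal (TM n m * XR k m))
      (by rw [hTX]; exact hfink (k + 1) n)
    refine h.congr fun m => ?_
    exact ENNReal.toReal_ofReal (mul_nonneg (hTM n m) (hXR0 k m))
  have hsmv : ∀ k n, ∑' m, TM n m * XR k m = XR (k + 1) n := by
    intro k n
    have h := ENNReal.ofReal_tsum_of_nonneg (fun m => mul_nonneg (hTM n m) (hXR0 k m)) (hsm k n)
    rw [hTX k n] at h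
    have h0 : 0 ≤ ∑' m, TM n m * XR k m := tsum_nonneg fun m => mul_nonneg (hTM n m) (hXR0 k m)
    rw [hXR]
    simp only
    rw [← h, ENNReal.toReal_ofReal h0]
  have hsk : ∀ n, Summable fun k => XR k n := fun n => ENNReal.summable_toReal (hfin n)
  set x1 := nxr T g with hx1
  have hb : ∀ k e n, |x1 k e n| ≤ XR k n := by
    intro k
    induction k with
    | zero =>
      intro e n
      change |g e n| ≤ (ENNReal.ofReal (G n)).toReal
      rw [ENNReal.toReal_ofReal (hG n)]
      exact hg e n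
    | succ k ih =>
      intro e n
      change |-∑' m, T e n m * x1 k e m| ≤ _
      rw [abs_neg, ← hsmv k n, ← Real.norm_eq_abs]
      refine tsum_of_norm_bounded (hsm k n).hasSum fun m => ?_
      rw [norm_mul]
      exact mul_le_mul (hT e n m) (ih e m) (norm_nonneg _) (hTM n m)
  have hcont : ∀ k n, Continuous fun e => x1 k e n := by
    intro k
    induction k with
    | zero => exact hgc
    | succ k ih =>
      intro n
      change Continuous fun e => -∑' m, T e n m * x1 k e m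
      refine (continuous_tsum (f := fun m e => T e n m * x1 k e m)
        (fun m => (hTc n m).mul (ih m)) (hsm k n) fun m e => ?_).neg
      rw [norm_mul]
      exact mul_le_mul (hT e n m) (hb k e m) (norm_nonneg _) (hTM n m)
  have hsx : ∀ e n, Summable fun k => x1 k e n := fun e n =>
    Summable.of_norm_bounded (hsk n) fun k => hb k e n
  have hXM : ∀ n, ∑' k, XR k n = (XME n).toReal := fun n => (ENNReal.tsum_toReal_eq fun k => hfink k n).symm
  refine ⟨fun e n => ∑' k, x1 k e n, fun n => (XME n).toReal, ?_, ?_, ?_, ?_⟩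
  · intro n
    exact continuous_tsum (fun k => hcont k n) (hsk n) fun k e => hb k e n
  · intro e n
    change |∑' k, x1 k e n| ≤ (XME n).toReal
    rw [← hXM n, ← Real.norm_eq_abs]
    exact tsum_of_norm_bounded (hsk n).hasSum fun k => hb k e n
  · intro e n
    -- joint summability
    have hj : Summable fun p : ℕ × ℕ => TM n p.1 * XR p.2 p.1 := by
      have h := ENNReal.summable_toReal
        (f := fun p : ℕ × ℕ => ENNReal.ofReal (TM n p.1 * XR p.2 p.1)) (by
          rw [ENNReal.tsum_prod', ENNReal.tsum_comm]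
          simp_rw [hTX]
          refine ne_top_of_le_ne_top (hfin n) ?_
          exact ENNReal.tsum_comp_le_tsum_of_injective (Nat.succ_injective) (fun k => XE k n))
      refine h.congr fun p => ?_
      exact ENNReal.toReal_ofReal (mul_nonneg (hTM n _) (hXR0 _ _))
    have hj2 : Summable fun p : ℕ × ℕ => T e n p.1 * x1 p.2 e p.1 := by
      refine Summable.of_norm_bounded hj fun p => ?_
      rw [norm_mul]
      exact mul_le_mul (hT e n _) (hb _ e _) (norm_nonneg _) (hTM n _)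
    have h1 : ∀ m, T e n m * ∑' k, x1 k e m = ∑' k, T e n m * x1 k e m := fun m =>
      tsum_mul_left.symm
    have hs1 : Summable fun m => T e n m * ∑' k, x1 k e m := by
      simp_rw [h1]
      exact hj2.prod
    refine ⟨hs1, ?_⟩
    have h2 : ∑' m, T e n m * ∑' k, x1 k e m = ∑' k, ∑' m, T e n m * x1 k e m := by
      simp_rw [h1]
      exact (Summable.tsum_comm (f := fun m k => T e n m * x1 k e m) hj2).symm
    have h3 : ∀ k, ∑' m, T e n m * x1 k e m = -x1 (k + 1) e n := fun k => by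
      change _ = -(-∑' m, T e n m * x1 k e m)
      rw [neg_neg]
    change ∑' k, x1 k e n = g e n - ∑' m, T e n m * ∑' k, x1 k e m
    rw [h2]
    simp_rw [h3]
    rw [tsum_neg, sub_neg_eq_add, (hsx e n).tsum_eq_zero_add]
    rfl
  · intro w hw hwT hwG
    have h1 := nXE_sum (G := G) hTM hw hwT
    rw [hsumG w hw hwG] at h1
    have h2 : ∀ n, ENNReal.ofReal (w n) * XME n = ENNReal.ofReal (w n * (XME n).toReal) := by
      intro n
      rw [ENNReal.ofReal_mul (hw n), ENNReal.ofReal_toReal (hfin n)]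
    have h3 : ∑' n, ENNReal.ofReal (w n * (XME n).toReal) ≤ 2 * ENNReal.ofReal (∑' n, w n * G n) := by
      refine le_trans (le_of_eq ?_) h1
      exact tsum_congr fun n => (h2 n).symm
    have hne : ∑' n, ENNReal.ofReal (w n * (XME n).toReal) ≠ ⊤ :=
      ne_top_of_le_ne_top (ENNReal.mul_lt_top (by norm_num) ENNReal.ofReal_lt_top).ne h3
    have h0 : ∀ n, 0 ≤ w n * (XME n).toReal := fun n => mul_nonneg (hw n) ENNReal.toReal_nonneg
    have hs : Summable fun n => w n * (XME n).toReal := by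
      refine (ENNReal.summable_toReal hne).congr fun n => ?_
      exact ENNReal.toReal_ofReal (h0 n)
    refine ⟨hs, ?_⟩
    rw [← ENNReal.ofReal_tsum_of_nonneg h0 hs] at h3
    have h4 : (2 : ℝ≥0∞) * ENNReal.ofReal (∑' n, w n * G n) =
        ENNReal.ofReal (2 * ∑' n, w n * G n) := by
      rw [ENNReal.ofReal_mul (by norm_num)]
      norm_num
    rw [h4] at h3
    exact (ENNReal.ofReal_le_ofReal_iff (mul_nonneg (by norm_num)
      (tsum_nonneg fun n => mul_nonneg (hw n) (hG n)))).1 h3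

end FB
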