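import Pool.Agent.H48.FB.A01
import Pool.Agent.H48.FB.A09

/-! A10: Legendre functions `PL n z = P_{2n}(cos z)`: elementary properties; conversion of cosine series into Legendre series. -/

open Complex Set MeasureTheory Filter Topology

noncomputable section

namespace FB

/-! `cc j = C(2j,j)/4^j`: `cc 0 = 1`, `cc (j+1) = cc j * (2j+1)/(2j+2)`. -/
theorem cc_pos (j : ℕ) : 0 < cc j := by
  rw [cc]
  have := Nat.centralBinom_pos j
  positivity

theorem A10_cc_zero : cc 0 = 1 := by simp [cc]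

theorem cc_succ (j : ℕ) : cc (j + 1) = cc j * ((2 * (j:ℝ) + 1) / (2 * j + 2)) := by
  have h := Nat.succ_mul_centralBinom_succ j
  have h' : ((j:ℝ) + 1) * (Nat.centralBinom (j + 1) : ℝ) =
      2 * (2 * (j:ℝ) + 1) * (Nat.centralBinom j : ℝ) := by exact_mod_cast h
  rw [cc, cc, pow_succ]
  have h1 : (j:ℝ) + 1 ≠ 0 := by positivity
  have h2 : (2 * (j:ℝ) + 2) ≠ 0 := by positivity
  field_simp
  linarith

theorem A10_cc_succ_le (j : ℕ) : cc (j + 1) ≤ cc j := by
  rw [cc_succ]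
  have h := cc_pos j
  have h2 : (2 * (j:ℝ) + 1) / (2 * j + 2) ≤ 1 := by
    rw [div_le_one (by positivity)]; linarith
  nlinarith

theorem A10_cc_antitone : Antitone cc := antitone_nat_of_succ_le A10_cc_succ_le

theorem cc_le_one (j : ℕ) : cc j ≤ 1 := by
  have h := A10_cc_antitone (Nat.zero_le j)
  rwa [A10_cc_zero] at h

theorem cc_anti {i j : ℕ} (h : i ≤ j) : cc j ≤ cc i := A10_cc_antitone h

/-- `n cc_n^2` is increasing -/
theorem A10_cc_sq_mono : Monotone fun n : ℕ => (n : ℝ) * cc n ^ 2 := by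
  refine monotone_nat_of_le_succ fun n => ?_
  rw [cc_succ, mul_pow, div_pow]
  have h := cc_pos n
  have h1 : (n : ℝ) ≤ ((n + 1 : ℕ) : ℝ) * ((2 * (n:ℝ) + 1) ^ 2 / (2 * n + 2) ^ 2) := by
    rw [Nat.cast_add, Nat.cast_one, mul_div_assoc', le_div_iff₀ (by positivity)]
    have hn : (0 : ℝ) ≤ n := Nat.cast_nonneg n
    nlinarith
  calc (n : ℝ) * cc n ^ 2 ≤ (((n + 1 : ℕ) : ℝ) * ((2 * (n:ℝ) + 1) ^ 2 / (2 * n + 2) ^ 2)) * cc n ^ 2 :=
        mul_le_mul_of_nonneg_right h1 (by positivity)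
    _ = _ := by ring

/-- `1 / (2 sqrt (j+1)) ≤ cc j` -/
theorem cc_lower (j : ℕ) : 1 / (2 * Real.sqrt (j + 1)) ≤ cc j := by
  have hpos := cc_pos j
  have hs : (0 : ℝ) < (j : ℝ) + 1 := by positivity
  have key : 1 ≤ 4 * ((j : ℝ) + 1) * cc j ^ 2 := by
    rcases Nat.eq_zero_or_pos j with h | h
    · subst h; rw [A10_cc_zero]; norm_num
    · have h1 := A10_cc_sq_mono h
      have h2 : cc 1 = 1 / 2 := by
        have := cc_succ 0
        rw [A10_cc_zero] at this
        norm_num at this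
        exact this
      simp only [Nat.succ_eq_add_one, zero_add] at h1
      rw [h2] at h1
      norm_num at h1
      nlinarith [sq_nonneg (cc j)]
  rw [div_le_iff₀ (by positivity)]
  have h1 : Real.sqrt 1 ≤ Real.sqrt (4 * ((j : ℝ) + 1) * cc j ^ 2) := Real.sqrt_le_sqrt key
  have h2 : Real.sqrt (4 * ((j : ℝ) + 1) * cc j ^ 2) = cc j * (2 * Real.sqrt (j + 1)) := by
    rw [Real.sqrt_mul (by positivity), Real.sqrt_mul (by norm_num), Real.sqrt_sq hpos.le,
      show (4 : ℝ) = 2 ^ 2 by norm_num, Real.sqrt_sq (by norm_num)]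
    ring
  rw [Real.sqrt_one, h2] at h1
  exact h1

/-- `c_{N-j} ≤ sqrt 2 c_N` for `2j ≤ N` (`c_n^2 (n + 1/4)` is increasing.. or `c_n^2 n` increasing for `n ≥ 1`) -/
theorem cc_ratio {N j : ℕ} (h : 2 * j ≤ N) : cc (N - j) ≤ Real.sqrt 2 * cc N := by
  have h1 := A10_cc_sq_mono (Nat.sub_le N j)
  simp only at h1
  have hp := cc_pos N
  have hp' := cc_pos (N - j)
  rcases Nat.eq_zero_or_pos N with h0 | h0
  · have : j = 0 := by omega
    subst h0; subst this
    have : (1 : ℝ) ≤ Real.sqrt 2 := by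
      rw [Real.le_sqrt (by norm_num) (by norm_num)]; norm_num
    rw [Nat.sub_zero]
    nlinarith
  · have h2 : (N : ℝ) ≤ 2 * ((N - j : ℕ) : ℝ) := by exact_mod_cast (by omega : N ≤ 2 * (N - j))
    have h3 : (0 : ℝ) < ((N - j : ℕ) : ℝ) := by exact_mod_cast (by omega : 0 < N - j)
    have h4 : cc (N - j) ^ 2 ≤ 2 * cc N ^ 2 := by
      have h5 : ((N - j : ℕ) : ℝ) * cc (N - j) ^ 2 ≤ ((N - j : ℕ) : ℝ) * (2 * cc N ^ 2) := by
        refine h1.trans ?_
        nlinarith [sq_nonneg (cc N)]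
      exact le_of_mul_le_mul_left h5 h3
    have h6 : cc (N - j) ^ 2 ≤ (Real.sqrt 2 * cc N) ^ 2 := by
      rw [mul_pow, Real.sq_sqrt (by norm_num)]; exact h4
    exact le_of_sq_le_sq h6 (by positivity)

theorem PL_diff (n : ℕ) : Differentiable ℂ (PL n) := by
  have : PL n = fun z => ∑ j ∈ Finset.range (2 * n + 1),
      ((cc j * cc (2 * n - j) : ℝ) : ℂ) * cos (((2 * n : ℤ) - 2 * (j : ℤ) : ℤ) * z) := rfl
  rw [this]
  fun_prop

theorem PL_neg (n : ℕ) (z : ℂ) : PL n (-z) = PL n z := by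
  rw [PL, PL]
  refine Finset.sum_congr rfl fun j _ => ?_
  rw [mul_neg, Complex.cos_neg]

theorem PL_pi (n : ℕ) (z : ℂ) : PL n (z + (Real.pi : ℂ)) = PL n z := by
  rw [PL, PL]
  refine Finset.sum_congr rfl fun j _ => ?_
  congr 1
  have : (((2 * n : ℤ) - 2 * (j : ℤ) : ℤ) : ℂ) * (z + (Real.pi : ℂ)) =
      (((2 * n : ℤ) - 2 * (j : ℤ) : ℤ) : ℂ) * z + (((n : ℤ) - (j : ℤ) : ℤ) : ℂ) * (2 * Real.pi) := by
    push_cast; ring
  rw [this, Complex.cos_add_int_mul_two_pi]

theorem PL_conj (n : ℕ) (z : ℂ) : PL n ((starRingEnd ℂ) z) = (starRingEnd ℂ) (PL n z) := by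
  rw [PL, PL, map_sum]
  refine Finset.sum_congr rfl fun j _ => ?_
  rw [map_mul, Complex.conj_ofReal, ← Complex.cos_conj, map_mul, map_intCast]

theorem PL_zero (z : ℂ) : PL 0 z = 1 := by
  simp [PL, A10_cc_zero]

theorem A10_cc_one : cc 1 = 1 / 2 := by
  have := cc_succ 0; rw [A10_cc_zero] at this; norm_num at this; exact this
theorem A10_cc_two : cc 2 = 3 / 8 := by
  have := cc_succ 1; rw [A10_cc_one] at this; norm_num at this; exact this
theorem A10_cc_three : cc 3 = 5 / 16 := by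
  have := cc_succ 2; rw [A10_cc_two] at this; norm_num at this; exact this
theorem A10_cc_four : cc 4 = 35 / 128 := by
  have := cc_succ 3; rw [A10_cc_three] at this; norm_num at this; exact this

theorem PL_one (z : ℂ) : PL 1 z = (3 * cos z ^ 2 - 1) / 2 := by
  rw [PL]
  simp only [Finset.sum_range_succ, Finset.sum_range_zero]
  norm_num [A10_cc_zero, A10_cc_one, A10_cc_two]
  rw [Complex.cos_two_mul]
  ring

theorem PL_two (z : ℂ) : PL 2 z = (35 * cos z ^ 4 - 30 * cos z ^ 2 + 3) / 8 := by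
  rw [PL]
  simp only [Finset.sum_range_succ, Finset.sum_range_zero]
  norm_num [A10_cc_zero, A10_cc_one, A10_cc_two, A10_cc_three, A10_cc_four]
  rw [show (4 : ℂ) * z = 2 * (2 * z) by ring, Complex.cos_two_mul, Complex.cos_two_mul]
  ring

/-- as a sum of exponentials (combine `j` and `2n - j`) -/
theorem PL_exp (n : ℕ) (z : ℂ) : PL n z = ∑ j ∈ Finset.range (2 * n + 1), ((cc j * cc (2 * n - j) : ℝ) : ℂ) *
    exp (-(I * (((2 * n : ℤ) - 2 * (j : ℤ) : ℤ) : ℂ) * z)) := by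
  have h1 : ∑ j ∈ Finset.range (2 * n + 1), ((cc j * cc (2 * n - j) : ℝ) : ℂ) *
      exp (-(I * (((2 * n : ℤ) - 2 * (j : ℤ) : ℤ) : ℂ) * z)) =
      ∑ j ∈ Finset.range (2 * n + 1), ((cc j * cc (2 * n - j) : ℝ) : ℂ) *
      exp (I * (((2 * n : ℤ) - 2 * (j : ℤ) : ℤ) : ℂ) * z) := by
    rw [← Finset.sum_range_reflect]
    refine Finset.sum_congr rfl fun j hj => ?_
    have hj' : j ≤ 2 * n := Nat.lt_succ_iff.1 (Finset.mem_range.1 hj)
    have e1 : 2 * n + 1 - 1 - j = 2 * n - j := by omega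
    have e2 : 2 * n - (2 * n - j) = j := by omega
    rw [e1, e2]
    congr 1
    · rw [mul_comm]
    · congr 1
      rw [Nat.cast_sub hj']
      push_cast; ring
  have h2 : PL n z = (1 / 2) * (∑ j ∈ Finset.range (2 * n + 1), ((cc j * cc (2 * n - j) : ℝ) : ℂ) *
      exp (-(I * (((2 * n : ℤ) - 2 * (j : ℤ) : ℤ) : ℂ) * z)) +
      ∑ j ∈ Finset.range (2 * n + 1), ((cc j * cc (2 * n - j) : ℝ) : ℂ) *
      exp (I * (((2 * n : ℤ) - 2 * (j : ℤ) : ℤ) : ℂ) * z)) := by
    rw [← Finset.sum_add_distrib, Finset.mul_sum, PL]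
    refine Finset.sum_congr rfl fun j _ => ?_
    rw [Complex.cos]
    have e1 : (((2 * n : ℤ) - 2 * (j : ℤ) : ℤ) : ℂ) * z * I =
        I * (((2 * n : ℤ) - 2 * (j : ℤ) : ℤ) : ℂ) * z := by ring
    have e2 : -((((2 * n : ℤ) - 2 * (j : ℤ) : ℤ) : ℂ) * z) * I =
        -(I * (((2 * n : ℤ) - 2 * (j : ℤ) : ℤ) : ℂ) * z) := by ring
    rw [e1, e2]
    ring
  rw [h2, ← h1]
  ring

/-- the coefficient recursion behind the Legendre equation -/
theorem A10_cc_rec {N j : ℕ} (h : j + 1 ≤ N) :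
    cc (j + 1) * cc (N - (j + 1)) * ((2 * (j:ℝ) + 2) * (2 * N - 2 * j - 1)) =
      cc j * cc (N - j) * ((2 * N - 2 * j) * (2 * (j:ℝ) + 1)) := by
  obtain ⟨k, rfl⟩ := Nat.exists_eq_add_of_le h
  have e1 : j + 1 + k - (j + 1) = k := by omega
  have e2 : j + 1 + k - j = k + 1 := by omega
  rw [e1, e2, cc_succ j, cc_succ k]
  have h1 : (2 * (j:ℝ) + 2) ≠ 0 := by positivity
  have h2 : (2 * (k:ℝ) + 2) ≠ 0 := by positivity
  push_cast
  field_simp
  ring

/-- Legendre equation; coefficientwise `(N-m)(N+m+1) a_m = (N+m+2)(N-m-1) a_{m+2}` with `N = 2n`, `a_{N-2j} = cc j cc (N-j)` -/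
theorem PL_ode (n : ℕ) (z : ℂ) : sin z * deriv (deriv (PL n)) z + cos z * deriv (PL n) z +
    2 * n * (2 * n + 1) * sin z * PL n z = 0 := by
  have hfun : PL n = fun z => ∑ j ∈ Finset.range (2 * n + 1), ((cc j * cc (2 * n - j) : ℝ) : ℂ) *
    exp (-(I * (((2 * n : ℤ) - 2 * (j : ℤ) : ℤ) : ℂ) * z)) := funext fun z => PL_exp n z
  set a : ℕ → ℂ := fun j => ((cc j * cc (2 * n - j) : ℝ) : ℂ) with ha
  set m : ℕ → ℂ := fun j => (((2 * n : ℤ) - 2 * (j : ℤ) : ℤ) : ℂ) with hm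
  have hd : ∀ (c : ℕ → ℂ) (z : ℂ), HasDerivAt
      (fun z => ∑ j ∈ Finset.range (2 * n + 1), c j * exp (-(I * m j * z)))
      (∑ j ∈ Finset.range (2 * n + 1), (c j * (-(I * m j))) * exp (-(I * m j * z))) z := by
    intro c z
    refine HasDerivAt.fun_sum fun j _ => ?_
    have h0 : HasDerivAt (fun z : ℂ => (-(I * m j)) * z) (-(I * m j) * 1) z :=
      (hasDerivAt_id z).const_mul _
    have h1 : HasDerivAt (fun z => -(I * m j * z)) (-(I * m j)) z := by
      simpa [neg_mul] using h0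
    have h2 := (h1.cexp).const_mul (c j)
    exact h2.congr_deriv (by ring)
  have h1 : deriv (PL n) = fun z => ∑ j ∈ Finset.range (2 * n + 1),
      (a j * (-(I * m j))) * exp (-(I * m j * z)) := by
    rw [hfun]
    exact funext fun z => (hd a z).deriv
  have h2 : deriv (deriv (PL n)) z = ∑ j ∈ Finset.range (2 * n + 1),
      (a j * (-(I * m j)) * (-(I * m j))) * exp (-(I * m j * z)) := by
    rw [h1]
    exact (hd _ z).deriv
  rw [h2, h1, hfun]
  simp only
  set u : ℕ → ℂ := fun j => a j * ((4 * n - 2 * j) * (2 * j + 1)) * exp (I * (1 - m j) * z) with hu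
  set w : ℕ → ℂ := fun j => if j = 0 then 0 else u (j - 1) with hw
  have key : ∀ j ∈ Finset.range (2 * n + 1),
      sin z * ((a j * (-(I * m j)) * (-(I * m j))) * exp (-(I * m j * z))) +
      cos z * ((a j * (-(I * m j))) * exp (-(I * m j * z))) +
      2 * n * (2 * n + 1) * sin z * (a j * exp (-(I * m j * z))) =
      (1 / (2 * I)) * (w (j + 1) - w j) := by
    intro j hj
    have hj' : j ≤ 2 * n := Nat.lt_succ_iff.1 (Finset.mem_range.1 hj)
    have hmj : m j = 2 * n - 2 * j := by rw [hm]; push_cast; ring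
    have hw1 : w (j + 1) = a j * ((4 * n - 2 * j) * (2 * j + 1)) * exp (I * (1 - m j) * z) := by
      rw [hw]; simp only [Nat.succ_ne_zero, if_false, Nat.add_sub_cancel, hu]
    have hw2 : w j = a j * (2 * j * (4 * n - 2 * j + 1)) * exp (I * (-1 - m j) * z) := by
      rcases Nat.eq_zero_or_pos j with h0 | h0
      · subst h0
        rw [hw]; simp
      · obtain ⟨i, rfl⟩ : ∃ i, j = i + 1 := ⟨j - 1, by omega⟩
        have e1 : w (i + 1) = u i := by
          rw [hw]; simp only [Nat.succ_ne_zero, if_false, Nat.add_sub_cancel]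
        have e2 : I * (1 - m i) * z = I * (-1 - m (i + 1)) * z := by
          have : m i = m (i + 1) + 2 := by rw [hm]; push_cast; ring
          rw [this]; ring
        rw [e1, hu]
        simp only
        rw [e2]
        congr 1
        have h3 := A10_cc_rec (N := 2 * n) (j := i) hj'
        have h4 : a (i + 1) * ((2 * (i:ℂ) + 2) * (4 * n - 2 * i - 1)) =
            a i * ((4 * n - 2 * i) * (2 * (i:ℂ) + 1)) := by
          have h5 := congrArg (fun x : ℝ => (x : ℂ)) h3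
          simp only [ha]
          push_cast at h5 ⊢
          linear_combination h5
        rw [← h4]
        push_cast
        ring
    rw [hw1, hw2]
    have hE : exp (I * (1 - m j) * z) = exp (I * z) * exp (-(I * m j * z)) := by
      rw [← Complex.exp_add]; congr 1; ring
    have hE' : exp (I * (-1 - m j) * z) = exp (-(I * z)) * exp (-(I * m j * z)) := by
      rw [← Complex.exp_add]; congr 1; ring
    have hs : sin z = (exp (I * z) - exp (-(I * z))) * (1 / (2 * I)) := by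
      rw [Complex.sin]
      have e1 : -z * I = -(I * z) := by ring
      have e2 : z * I = I * z := by ring
      rw [e1, e2]
      have : (1 / (2 * I) : ℂ) = - I / 2 := by
        field_simp
        rw [Complex.I_sq]
        norm_num
      rw [this]; ring
    have hc : cos z = (exp (I * z) + exp (-(I * z))) * (I * (1 / (2 * I))) := by
      rw [Complex.cos]
      have e1 : -z * I = -(I * z) := by ring
      have e2 : z * I = I * z := by ring
      rw [e1, e2]
      have : (I * (1 / (2 * I)) : ℂ) = 1 / 2 := by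
        field_simp
      rw [this]; ring
    rw [hE, hE', hs, hc, hmj]
    have hI : I * I = -1 := Complex.I_mul_I
    generalize exp (I * z) = E
    generalize exp (-(I * z)) = E'
    generalize exp (-(I * (2 * (n:ℂ) - 2 * j) * z)) = G
    generalize (1 / (2 * I) : ℂ) = c
    linear_combination (a j * G * c * ((E - E') * (2 * n - 2 * j) ^ 2 - (E + E') * (2 * n - 2 * j))) * hI
  rw [Finset.mul_sum, Finset.mul_sum, Finset.mul_sum, ← Finset.sum_add_distrib,
    ← Finset.sum_add_distrib, Finset.sum_congr rfl key, ← Finset.mul_sum, Finset.sum_range_sub]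
  have e1 : w (2 * n + 1) = 0 := by
    rw [hw]
    simp only [Nat.succ_ne_zero, if_false, Nat.add_sub_cancel, hu]
    push_cast
    ring
  have e2 : w 0 = 0 := by rw [hw]; simp
  rw [e1, e2, sub_zero, mul_zero]

/-- the sum of the geometric majorant -/
theorem A10_exp_sum_le (n : ℕ) : ∑ j ∈ Finset.range n, Real.exp (-(2 * (j : ℝ))) ≤ 6 / 5 := by
  have h0 : Real.exp (-2) ≤ 1 / 6 := by
    have h1 : (6 : ℝ) ≤ Real.exp 2 := by
      have h2 := Real.exp_one_gt_d9
      have h3 : Real.exp 2 = Real.exp 1 * Real.exp 1 := by rw [← Real.exp_add]; norm_num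
      rw [h3]
      nlinarith
    rw [Real.exp_neg, inv_eq_one_div]
    exact one_div_le_one_div_of_le (by norm_num) h1
  have h1 : ∀ j : ℕ, Real.exp (-(2 * (j : ℝ))) ≤ (1 / 6 : ℝ) ^ j := by
    intro j
    have : Real.exp (-(2 * (j : ℝ))) = Real.exp (-2) ^ j := by
      rw [← Real.exp_nat_mul]; congr 1; ring
    rw [this]
    exact pow_le_pow_left₀ (Real.exp_pos _).le h0 j
  have hs : Summable fun j : ℕ => (1 / 6 : ℝ) ^ j := summable_geometric_of_lt_one (by norm_num) (by norm_num)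
  calc ∑ j ∈ Finset.range n, Real.exp (-(2 * (j : ℝ))) ≤ ∑ j ∈ Finset.range n, (1 / 6 : ℝ) ^ j :=
        Finset.sum_le_sum fun j _ => h1 j
    _ ≤ ∑' j : ℕ, (1 / 6 : ℝ) ^ j := hs.sum_le_tsum _ fun j _ => by positivity
    _ = 6 / 5 := by rw [tsum_geometric_of_lt_one (by norm_num) (by norm_num)]; norm_num

/-- the basic term estimate -/
theorem A10_cc_term {n j : ℕ} (hj : j ≤ n) {r : ℝ} (hr : 1 ≤ r) :
    cc j * cc (2 * n - j) * Real.exp ((2 * (n:ℝ) - 2 * j) * r) ≤
      Real.sqrt 2 * WW n r * Real.exp (-(2 * (j : ℝ))) := by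
  have h1 : cc (2 * n - j) ≤ Real.sqrt 2 * cc (2 * n) := cc_ratio (by omega)
  have h2 := cc_le_one j
  have h3 := cc_pos j
  have h4 := cc_pos (2 * n - j)
  have h5 := cc_pos (2 * n)
  have h6 : Real.exp ((2 * (n:ℝ) - 2 * j) * r) ≤ Real.exp (2 * n * r) * Real.exp (-(2 * (j : ℝ))) := by
    rw [← Real.exp_add]
    refine Real.exp_le_exp.2 ?_
    have : (0 : ℝ) ≤ j := Nat.cast_nonneg j
    nlinarith
  have h7 : cc j * cc (2 * n - j) ≤ Real.sqrt 2 * cc (2 * n) := by nlinarith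
  calc cc j * cc (2 * n - j) * Real.exp ((2 * (n:ℝ) - 2 * j) * r) ≤
      (Real.sqrt 2 * cc (2 * n)) * (Real.exp (2 * n * r) * Real.exp (-(2 * (j : ℝ)))) :=
        mul_le_mul h7 h6 (Real.exp_pos _).le (by positivity)
    _ = _ := by rw [WW]; ring

theorem A10_sqrt_two_le : Real.sqrt 2 ≤ 71 / 50 := by
  rw [Real.sqrt_le_left (by norm_num)]; norm_num

theorem A10_WW_pos (n : ℕ) (r : ℝ) : 0 < WW n r := by
  rw [WW]
  have := cc_pos (2 * n)
  positivity

theorem PL_bound (n : ℕ) {r : ℝ} (hr : 1 ≤ r) {z : ℂ} (hz : |z.im| ≤ r) : ‖PL n z‖ ≤ 4 * WW n r := by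
  rw [PL_exp]
  have hW := A10_WW_pos n r
  set g : ℕ → ℝ := fun j => Real.sqrt 2 * WW n r * Real.exp (-(2 * (j : ℝ))) with hg
  have hg0 : ∀ j, 0 ≤ g j := fun j => by rw [hg]; positivity
  have h1 : ∀ j ∈ Finset.range (2 * n + 1), ‖((cc j * cc (2 * n - j) : ℝ) : ℂ) *
      exp (-(I * (((2 * n : ℤ) - 2 * (j : ℤ) : ℤ) : ℂ) * z))‖ ≤ g j + g (2 * n - j) := by
    intro j hj
    have hj' : j ≤ 2 * n := Nat.lt_succ_iff.1 (Finset.mem_range.1 hj)
    have hp := cc_pos j
    have hp' := cc_pos (2 * n - j)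
    rw [norm_mul, Complex.norm_real, Real.norm_eq_abs, abs_of_pos (mul_pos hp hp'), Complex.norm_exp]
    have hre : (-(I * (((2 * n : ℤ) - 2 * (j : ℤ) : ℤ) : ℂ) * z)).re = (2 * (n:ℝ) - 2 * j) * z.im := by
      have : (((2 * n : ℤ) - 2 * (j : ℤ) : ℤ) : ℂ) = ((2 * (n:ℝ) - 2 * j : ℝ) : ℂ) := by push_cast; ring
      rw [this]
      simp
    rw [hre]
    obtain ⟨hz1, hz2⟩ := abs_le.1 hz
    rcases le_total j n with h | h
    · have h3 := A10_cc_term h hr
      have h4 : (0 : ℝ) ≤ 2 * n - 2 * j := by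
        have : (j : ℝ) ≤ n := by exact_mod_cast h
        linarith
      have h5 : Real.exp ((2 * (n:ℝ) - 2 * j) * z.im) ≤ Real.exp ((2 * (n:ℝ) - 2 * j) * r) :=
        Real.exp_le_exp.2 (mul_le_mul_of_nonneg_left hz2 h4)
      have h6 := mul_le_mul_of_nonneg_left h5 (mul_pos hp hp').le
      have := hg0 (2 * n - j)
      linarith
    · have h' : 2 * n - j ≤ n := by omega
      have h3 := A10_cc_term h' hr
      have e2 : 2 * n - (2 * n - j) = j := by omega
      rw [e2, Nat.cast_sub hj'] at h3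
      have h4 : (0 : ℝ) ≤ 2 * j - 2 * n := by
        have : (n : ℝ) ≤ j := by exact_mod_cast h
        linarith
      have h5 : Real.exp ((2 * (n:ℝ) - 2 * j) * z.im) ≤
          Real.exp ((2 * (n:ℝ) - 2 * ((2 * n : ℕ) - j)) * r) := by
        refine Real.exp_le_exp.2 ?_
        push_cast
        nlinarith
      have h6 := mul_le_mul_of_nonneg_left h5 (mul_pos hp hp').le
      have h7 : g (2 * n - j) = Real.sqrt 2 * WW n r * Real.exp (-(2 * (((2 * n : ℕ) : ℝ) - j))) := by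
        rw [hg]; simp only; rw [Nat.cast_sub hj']
      have := hg0 j
      rw [h7]
      rw [mul_comm (cc (2 * n - j)) (cc j)] at h3
      linarith
  have h2 : ∑ j ∈ Finset.range (2 * n + 1), g (2 * n - j) = ∑ j ∈ Finset.range (2 * n + 1), g j := by
    have := Finset.sum_range_reflect g (2 * n + 1)
    rw [← this]
    refine Finset.sum_congr rfl fun j _ => ?_
    congr 1
  have h3 : ∑ j ∈ Finset.range (2 * n + 1), g j ≤ Real.sqrt 2 * WW n r * (6 / 5) := by
    rw [hg, ← Finset.mul_sum]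
    exact mul_le_mul_of_nonneg_left (A10_exp_sum_le _) (by positivity)
  calc _ ≤ ∑ j ∈ Finset.range (2 * n + 1), (g j + g (2 * n - j)) :=
        (norm_sum_le _ _).trans (Finset.sum_le_sum h1)
    _ = 2 * ∑ j ∈ Finset.range (2 * n + 1), g j := by rw [Finset.sum_add_distrib, h2]; ring
    _ ≤ 2 * (Real.sqrt 2 * WW n r * (6 / 5)) := by linarith
    _ ≤ 4 * WW n r := by
        have := A10_sqrt_two_le
        nlinarith

/-- leading behaviour for `Im z → ∞` -/
theorem PL_lead (n : ℕ) : Tendsto (fun y : ℝ => exp (I * (2 * n : ℂ) * (y * I)) * PL n (y * I)) atTop (𝓝 ((cc (2 * n) : ℝ) : ℂ)) := by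
  have h1 : ∀ y : ℝ, exp (I * (2 * n : ℂ) * (y * I)) * PL n (y * I) =
      ∑ j ∈ Finset.range (2 * n + 1), ((cc j * cc (2 * n - j) : ℝ) : ℂ) *
        ((Real.exp (-(2 * (j : ℝ) * y)) : ℝ) : ℂ) := by
    intro y
    rw [PL_exp, Finset.mul_sum]
    refine Finset.sum_congr rfl fun j _ => ?_
    rw [mul_left_comm, ← Complex.exp_add, Complex.ofReal_exp]
    congr 2
    push_cast
    linear_combination ((2 * (j : ℂ)) * y) * Complex.I_sq
  simp only [h1]
  have h2 : ((cc (2 * n) : ℝ) : ℂ) = ∑ j ∈ Finset.range (2 * n + 1),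
      ((cc j * cc (2 * n - j) : ℝ) : ℂ) * ((if j = 0 then (1:ℝ) else 0 : ℝ) : ℂ) := by
    rw [Finset.sum_eq_single 0]
    · simp [A10_cc_zero]
    · intro j _ hj
      simp [hj]
    · intro h; simp at h
  rw [h2]
  refine tendsto_finsetSum _ fun j _ => ?_
  refine Tendsto.const_mul _ ?_
  refine (Complex.continuous_ofReal.tendsto _).comp ?_
  rcases Nat.eq_zero_or_pos j with h0 | h0
  · subst h0; simp
  · have hj : (0 : ℝ) < j := by exact_mod_cast h0
    simp only [h0.ne', if_false]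
    refine Real.tendsto_exp_atBot.comp ?_
    refine tendsto_neg_atTop_atBot.comp ?_
    exact tendsto_id.const_mul_atTop (by positivity)

/-! ### conversion -/

/-- coefficient of `cos (2 m z)` in `PL n z` (up to the factor `A10_ep m`) -/
def A10_Bk (n m : ℕ) : ℝ := if m ≤ n then cc (n - m) * cc (n + m) else 0

/-- `1, 2, 2, …` -/
def A10_ep (m : ℕ) : ℝ := if m = 0 then 1 else 2

theorem A10_ep_pos (m : ℕ) : 0 < A10_ep m := by
  rw [A10_ep]; split_ifs <;> norm_num

theorem A10_ep_le (m : ℕ) : A10_ep m ≤ 2 := by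
  rw [A10_ep]; split_ifs <;> norm_num

theorem A10_Bk_nonneg (n m : ℕ) : 0 ≤ A10_Bk n m := by
  rw [A10_Bk]; split_ifs
  · exact (mul_pos (cc_pos _) (cc_pos _)).le
  · exact le_rfl

theorem A10_Bk_of_lt {n m : ℕ} (h : n < m) : A10_Bk n m = 0 := by
  rw [A10_Bk, if_neg (not_le.2 h)]

theorem A10_sum_sym {n : ℕ} {f : ℕ → ℂ} (hf : ∀ j ≤ 2 * n, f (2 * n - j) = f j) :
    ∑ j ∈ Finset.range (2 * n + 1), f j = ∑ m ∈ Finset.range (n + 1), (A10_ep m : ℂ) * f (n - m) := by
  have e0 : 2 * n + 1 = n + (n + 1) := by ring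
  rw [e0, Finset.sum_range_add]
  have e1 : ∑ x ∈ Finset.range (n + 1), f (n + x) = ∑ x ∈ Finset.range (n + 1), f (n - x) := by
    refine Finset.sum_congr rfl fun x hx => ?_
    have hx' : x ≤ n := Nat.lt_succ_iff.1 (Finset.mem_range.1 hx)
    have := hf (n + x) (by omega)
    rw [← this]
    congr 1
    omega
  have e2 : ∑ x ∈ Finset.range n, f x = ∑ x ∈ Finset.range n, f (n - (x + 1)) := by
    rw [← Finset.sum_range_reflect]
    refine Finset.sum_congr rfl fun x _ => ?_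
    congr 1
    omega
  rw [e1, e2, Finset.sum_range_succ', Finset.sum_range_succ' (fun m => (A10_ep m : ℂ) * f (n - m)),
    ← add_assoc, ← Finset.sum_add_distrib]
  congr 1
  · refine Finset.sum_congr rfl fun x _ => ?_
    rw [A10_ep, if_neg (Nat.succ_ne_zero x)]
    push_cast
    ring
  · rw [A10_ep, if_pos rfl]
    push_cast
    ring

theorem A10_PL_cos (n : ℕ) (z : ℂ) : PL n z = ∑ m ∈ Finset.range (n + 1),
    ((A10_ep m * A10_Bk n m : ℝ) : ℂ) * cos (2 * (m : ℂ) * z) := by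
  rw [PL, A10_sum_sym]
  · refine Finset.sum_congr rfl fun m hm => ?_
    have hm' : m ≤ n := Nat.lt_succ_iff.1 (Finset.mem_range.1 hm)
    have e1 : 2 * n - (n - m) = n + m := by omega
    rw [A10_Bk, if_pos hm', e1]
    have e2 : (((2 * n : ℤ) - 2 * ((n - m : ℕ) : ℤ) : ℤ) : ℂ) * z = 2 * (m : ℂ) * z := by
      rw [Nat.cast_sub hm']; push_cast; ring
    rw [e2]
    push_cast
    ring
  · intro j hj
    have e1 : 2 * n - (2 * n - j) = j := by omega
    rw [e1]
    have e2 : (((2 * n : ℤ) - 2 * ((2 * n - j : ℕ) : ℤ) : ℤ) : ℂ) * z =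
        -((((2 * n : ℤ) - 2 * (j : ℤ) : ℤ) : ℂ) * z) := by
      rw [Nat.cast_sub hj]; push_cast; ring
    rw [e2, Complex.cos_neg, mul_comm (cc (2 * n - j)) (cc j)]

theorem A10_norm_cos_le {w : ℂ} {R : ℝ} (h : |w.im| ≤ R) : ‖cos w‖ ≤ Real.exp R := by
  obtain ⟨h1, h2⟩ := abs_le.1 h
  rw [Complex.cos]
  have e1 : ‖exp (w * I)‖ ≤ Real.exp R := by
    rw [Complex.norm_exp]
    refine Real.exp_le_exp.2 ?_
    simp; linarith
  have e2 : ‖exp (-w * I)‖ ≤ Real.exp R := by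
    rw [Complex.norm_exp]
    refine Real.exp_le_exp.2 ?_
    simp; linarith
  rw [norm_div]
  have := norm_add_le (exp (w * I)) (exp (-w * I))
  rw [show ‖(2 : ℂ)‖ = 2 by norm_num]
  linarith

theorem A10_norm_cos_two_le {z : ℂ} {r : ℝ} (h : |z.im| ≤ r) (m : ℕ) :
    ‖cos (2 * (m : ℂ) * z)‖ ≤ Real.exp (2 * m * r) := by
  refine A10_norm_cos_le ?_
  have e1 : (2 * (m : ℂ) * z).im = 2 * m * z.im := by
    have : (2 * (m : ℂ) * z) = ((2 * m : ℝ) : ℂ) * z := by push_cast; ring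
    rw [this, Complex.im_ofReal_mul]
  rw [e1, abs_mul, abs_of_nonneg (by positivity)]
  exact mul_le_mul_of_nonneg_left h (by positivity)

theorem A10_Bk_sum_le (n : ℕ) {r : ℝ} (hr : 1 ≤ r) :
    ∑ m ∈ Finset.range (n + 1), A10_ep m * A10_Bk n m * Real.exp (2 * m * r) ≤ 4 * WW n r := by
  have hW := A10_WW_pos n r
  have h1 : ∑ m ∈ Finset.range (n + 1), A10_ep m * A10_Bk n m * Real.exp (2 * m * r) ≤
      ∑ m ∈ Finset.range (n + 1), 2 * (Real.sqrt 2 * WW n r * Real.exp (-(2 * ((n - m : ℕ) : ℝ)))) := by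
    refine Finset.sum_le_sum fun m hm => ?_
    have hm' : m ≤ n := Nat.lt_succ_iff.1 (Finset.mem_range.1 hm)
    have h2 := A10_cc_term (n := n) (j := n - m) (Nat.sub_le n m) hr
    have e1 : 2 * n - (n - m) = n + m := by omega
    rw [e1] at h2
    have e2 : (2 * (n:ℝ) - 2 * ((n - m : ℕ) : ℝ)) * r = 2 * m * r := by
      rw [Nat.cast_sub hm']; ring
    rw [e2] at h2
    rw [A10_Bk, if_pos hm']
    have h3 := A10_ep_le m
    have h4 : 0 ≤ cc (n - m) * cc (n + m) * Real.exp (2 * m * r) := by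
      have := cc_pos (n - m)
      have := cc_pos (n + m)
      positivity
    calc A10_ep m * (cc (n - m) * cc (n + m)) * Real.exp (2 * m * r) =
        A10_ep m * (cc (n - m) * cc (n + m) * Real.exp (2 * m * r)) := by ring
      _ ≤ 2 * (cc (n - m) * cc (n + m) * Real.exp (2 * m * r)) :=
          mul_le_mul_of_nonneg_right h3 h4
      _ ≤ _ := by linarith
  have h2 : ∑ m ∈ Finset.range (n + 1), 2 * (Real.sqrt 2 * WW n r * Real.exp (-(2 * ((n - m : ℕ) : ℝ)))) =
      2 * (Real.sqrt 2 * WW n r * ∑ j ∈ Finset.range (n + 1), Real.exp (-(2 * (j : ℝ)))) := by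
    rw [Finset.mul_sum, Finset.mul_sum, ← Finset.sum_range_reflect]
    refine Finset.sum_congr rfl fun m hm => ?_
    have hm' : m ≤ n := Nat.lt_succ_iff.1 (Finset.mem_range.1 hm)
    have e1 : n - (n + 1 - 1 - m) = m := by omega
    rw [e1]
  rw [h2] at h1
  have h3 := A10_exp_sum_le (n + 1)
  have h4 := A10_sqrt_two_le
  have h5 : Real.sqrt 2 * WW n r * ∑ j ∈ Finset.range (n + 1), Real.exp (-(2 * (j : ℝ))) ≤
      71 / 50 * WW n r * (6 / 5) :=
    mul_le_mul (by nlinarith) h3 (Finset.sum_nonneg fun j _ => (Real.exp_pos _).le) (by positivity)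
  nlinarith

/-- the coefficients of the cosine series -/
def A10_Dc (l : ℕ → ℝ) (m : ℕ) : ℝ := ∑' n, l n * A10_Bk n m

/-- the majorant of the double series -/
theorem A10_maj_summable {l : ℕ → ℝ} {r : ℝ} (hr : 1 ≤ r) (hl : Summable fun n => |l n| * WW n r) :
    Summable fun p : ℕ × ℕ => |l p.1| * (A10_ep p.2 * A10_Bk p.1 p.2 * Real.exp (2 * p.2 * r)) := by
  have hnn : ∀ n m : ℕ, 0 ≤ |l n| * (A10_ep m * A10_Bk n m * Real.exp (2 * m * r)) := by
    intro n m
    have := A10_Bk_nonneg n m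
    have := A10_ep_pos m
    positivity
  have hsup : ∀ n : ℕ, ∀ m ∉ Finset.range (n + 1),
      |l n| * (A10_ep m * A10_Bk n m * Real.exp (2 * m * r)) = 0 := by
    intro n m hm
    rw [A10_Bk_of_lt (by simpa using hm)]
    ring
  rw [summable_prod_of_nonneg (fun p => hnn p.1 p.2)]
  refine ⟨fun n => summable_of_ne_finset_zero (hsup n), ?_⟩
  refine Summable.of_nonneg_of_le (fun n => tsum_nonneg fun m => hnn n m) (fun n => ?_) (hl.mul_left 4)
  simp only
  rw [tsum_eq_sum (hsup n), ← Finset.mul_sum]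
  have h1 := mul_le_mul_of_nonneg_left (A10_Bk_sum_le n hr) (abs_nonneg (l n))
  linarith

theorem A10_col_summable {l : ℕ → ℝ} {r : ℝ} (hr : 1 ≤ r) (hl : Summable fun n => |l n| * WW n r) (m : ℕ) :
    Summable fun n => |l n * A10_Bk n m| := by
  have h0 : Summable fun p : ℕ × ℕ => |l p.2| * (A10_ep p.1 * A10_Bk p.2 p.1 * Real.exp (2 * p.1 * r)) :=
    (A10_maj_summable hr hl).prod_symm
  have h1 : Summable fun n : ℕ => |l n| * (A10_ep m * A10_Bk n m * Real.exp (2 * m * r)) := h0.prod_factor m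
  have h2 := h1.mul_left ((A10_ep m * Real.exp (2 * m * r))⁻¹)
  refine h2.congr fun n => ?_
  have e1 := A10_ep_pos m
  have e2 := Real.exp_pos (2 * m * r)
  rw [abs_mul, abs_of_nonneg (A10_Bk_nonneg n m)]
  field_simp

theorem A10_Dc_summable {l : ℕ → ℝ} {r : ℝ} (hr : 1 ≤ r) (hl : Summable fun n => |l n| * WW n r) :
    Summable fun m : ℕ => A10_ep m * |A10_Dc l m| * Real.exp (2 * m * r) := by
  have h0 : Summable fun p : ℕ × ℕ => |l p.2| * (A10_ep p.1 * A10_Bk p.2 p.1 * Real.exp (2 * p.1 * r)) :=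
    (A10_maj_summable hr hl).prod_symm
  have h1 : Summable fun m : ℕ => ∑' n : ℕ, |l n| * (A10_ep m * A10_Bk n m * Real.exp (2 * m * r)) := h0.prod
  refine Summable.of_nonneg_of_le (fun m => ?_) (fun m => ?_) h1
  · have := A10_ep_pos m
    positivity
  · have h2 : |A10_Dc l m| ≤ ∑' n, |l n * A10_Bk n m| := by
      have h3 : Summable fun n => ‖l n * A10_Bk n m‖ := A10_col_summable hr hl m
      have h4 : ‖∑' n, l n * A10_Bk n m‖ ≤ ∑' n, ‖l n * A10_Bk n m‖ := norm_tsum_le_tsum_norm h3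
      simp only [Real.norm_eq_abs] at h4
      rw [A10_Dc]
      exact h4
    have h3 : ∑' n, |l n| * (A10_ep m * A10_Bk n m * Real.exp (2 * m * r)) =
        (A10_ep m * Real.exp (2 * m * r)) * ∑' n, |l n * A10_Bk n m| := by
      rw [← tsum_mul_left]
      refine tsum_congr fun n => ?_
      rw [abs_mul, abs_of_nonneg (A10_Bk_nonneg n m)]
      ring
    rw [h3]
    have h4 : 0 ≤ A10_ep m * Real.exp (2 * m * r) := by
      have := A10_ep_pos m
      positivity
    calc A10_ep m * |A10_Dc l m| * Real.exp (2 * m * r) = (A10_ep m * Real.exp (2 * m * r)) * |A10_Dc l m| := by ring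
      _ ≤ _ := mul_le_mul_of_nonneg_left h2 h4

theorem A10_leg_expand {l : ℕ → ℝ} {r : ℝ} (hr : 1 ≤ r) (hl : Summable fun n => |l n| * WW n r)
    {z : ℂ} (hz : |z.im| ≤ r) : ∃ S : ℂ, HasSum (fun n => ((l n : ℝ) : ℂ) * PL n z) S ∧
      HasSum (fun m : ℕ => ((A10_ep m * A10_Dc l m : ℝ) : ℂ) * cos (2 * (m : ℂ) * z)) S := by
  have hs : Summable fun p : ℕ × ℕ => ((l p.1 * (A10_ep p.2 * A10_Bk p.1 p.2) : ℝ) : ℂ) *
      cos (2 * (p.2 : ℂ) * z) := by
    refine Summable.of_norm_bounded (A10_maj_summable hr hl) fun p => ?_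
    rw [norm_mul, Complex.norm_real, Real.norm_eq_abs, abs_mul,
      abs_of_nonneg (mul_nonneg (A10_ep_pos _).le (A10_Bk_nonneg _ _)), ← mul_assoc |l p.1|]
    have h0 : 0 ≤ |l p.1| * (A10_ep p.2 * A10_Bk p.1 p.2) := by
      have := A10_Bk_nonneg p.1 p.2
      have := A10_ep_pos p.2
      positivity
    have h1 := mul_le_mul_of_nonneg_left (A10_norm_cos_two_le hz p.2) h0
    linarith
  refine ⟨_, hs.hasSum.prod_fiberwise fun n => ?_, ?_⟩
  · rw [A10_PL_cos, Finset.mul_sum]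
    have h1 : ∀ m ∉ Finset.range (n + 1), ((l n * (A10_ep m * A10_Bk n m) : ℝ) : ℂ) *
        cos (2 * (m : ℂ) * z) = 0 := by
      intro m hm
      rw [A10_Bk_of_lt (by simpa using hm)]
      simp
    have h2 : HasSum (fun m : ℕ => ((l n * (A10_ep m * A10_Bk n m) : ℝ) : ℂ) * cos (2 * (m : ℂ) * z))
        (∑ m ∈ Finset.range (n + 1), ((l n * (A10_ep m * A10_Bk n m) : ℝ) : ℂ) *
          cos (2 * (m : ℂ) * z)) := hasSum_sum_of_ne_finset_zero h1
    have h3 : ∑ m ∈ Finset.range (n + 1), ((l n * (A10_ep m * A10_Bk n m) : ℝ) : ℂ) *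
        cos (2 * (m : ℂ) * z) = ∑ i ∈ Finset.range (n + 1), ((l n : ℝ) : ℂ) *
          (((A10_ep i * A10_Bk n i : ℝ) : ℂ) * cos (2 * (i : ℂ) * z)) :=
      Finset.sum_congr rfl fun m _ => by push_cast; ring
    rw [← h3]
    exact h2
  · have hs' : HasSum (fun p : ℕ × ℕ => ((l p.2 * (A10_ep p.1 * A10_Bk p.2 p.1) : ℝ) : ℂ) *
        cos (2 * (p.1 : ℂ) * z)) (∑' p : ℕ × ℕ, ((l p.1 * (A10_ep p.2 * A10_Bk p.1 p.2) : ℝ) : ℂ) *
        cos (2 * (p.2 : ℂ) * z)) := ((Equiv.prodComm ℕ ℕ).hasSum_iff (f := fun p : ℕ × ℕ =>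
      ((l p.1 * (A10_ep p.2 * A10_Bk p.1 p.2) : ℝ) : ℂ) * cos (2 * (p.2 : ℂ) * z))).2 hs.hasSum
    refine HasSum.prod_fiberwise hs' fun m => ?_
    change HasSum (fun n : ℕ => ((l n * (A10_ep m * A10_Bk n m) : ℝ) : ℂ) * cos (2 * (m : ℂ) * z))
      (((A10_ep m * A10_Dc l m : ℝ) : ℂ) * cos (2 * (m : ℂ) * z))
    have h1 : HasSum (fun n => l n * A10_Bk n m) (A10_Dc l m) := (A10_col_summable hr hl m).of_abs.hasSum
    have h2 : HasSum (fun n => ((l n * A10_Bk n m : ℝ) : ℂ)) ((A10_Dc l m : ℝ) : ℂ) :=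
      Complex.hasSum_ofReal.2 h1
    have h3 := h2.mul_left ((A10_ep m : ℂ) * cos (2 * (m : ℂ) * z))
    have e1 : (fun n : ℕ => ((l n * (A10_ep m * A10_Bk n m) : ℝ) : ℂ) * cos (2 * (m : ℂ) * z)) =
        fun n => ((A10_ep m : ℂ) * cos (2 * (m : ℂ) * z)) * ((l n * A10_Bk n m : ℝ) : ℂ) := by
      funext n
      push_cast; ring
    have e2 : (((A10_ep m * A10_Dc l m : ℝ) : ℂ) * cos (2 * (m : ℂ) * z)) =
        ((A10_ep m : ℂ) * cos (2 * (m : ℂ) * z)) * ((A10_Dc l m : ℝ) : ℂ) := by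
      push_cast; ring
    rw [e1, e2]
    exact h3

/-- the kernel of the Neumann series -/
def A10_TK (n m : ℕ) : ℝ := if n < m then cc (m - n) * cc (m + n) / cc (2 * n) else 0

theorem A10_TK_nonneg (n m : ℕ) : 0 ≤ A10_TK n m := by
  rw [A10_TK]; split_ifs
  · have := cc_pos (m - n)
    have := cc_pos (m + n)
    have := cc_pos (2 * n)
    positivity
  · exact le_rfl

theorem A10_TK_sum {p : ℕ → ℝ} (hp : Monotone p) (hp0 : ∀ n, 0 ≤ p n) {r : ℝ} (hr : 1 ≤ r) (m : ℕ) :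
    Summable (fun n => p n * WW n r * A10_TK n m) ∧
      ∑' n, p n * WW n r * A10_TK n m ≤ p m * WW m r / 2 := by
  have h0 : ∀ n ∉ Finset.range m, p n * WW n r * A10_TK n m = 0 := by
    intro n hn
    rw [A10_TK, if_neg (by simpa using hn), mul_zero]
  refine ⟨summable_of_ne_finset_zero h0, ?_⟩
  rw [tsum_eq_sum h0, ← Finset.sum_range_reflect]
  have hW := A10_WW_pos m r
  have hpm := hp0 m
  have h1 : ∀ i ∈ Finset.range m, p (m - 1 - i) * WW (m - 1 - i) r * A10_TK (m - 1 - i) m ≤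
      p m * (Real.sqrt 2 * WW m r * (Real.exp (-2) * Real.exp (-(2 * (i : ℝ))))) := by
    intro i hi
    have hi' := Finset.mem_range.1 hi
    have e0 : m - 1 - i = m - (i + 1) := by omega
    rw [e0]
    have h2 := A10_cc_term (n := m) (j := i + 1) hi' hr
    have h3 : WW (m - (i + 1)) r * A10_TK (m - (i + 1)) m =
        cc (i + 1) * cc (2 * m - (i + 1)) * Real.exp ((2 * (m:ℝ) - 2 * ((i + 1 : ℕ) : ℝ)) * r) := by
      rw [A10_TK, if_pos (by omega), WW]
      have e1 : m - (m - (i + 1)) = i + 1 := by omega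
      have e2 : m + (m - (i + 1)) = 2 * m - (i + 1) := by omega
      rw [e1, e2]
      have e3 := (cc_pos (2 * (m - (i + 1)))).ne'
      have e4 : (2 * (((m - (i + 1) : ℕ)) : ℝ) * r) = (2 * (m:ℝ) - 2 * ((i + 1 : ℕ) : ℝ)) * r := by
        rw [Nat.cast_sub hi']; ring
      rw [e4]
      field_simp
    have h4 : Real.exp (-(2 * ((i + 1 : ℕ) : ℝ))) = Real.exp (-2) * Real.exp (-(2 * (i : ℝ))) := by
      rw [← Real.exp_add]; congr 1; push_cast; ring
    rw [h4] at h2
    rw [mul_assoc, h3]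
    have h5 : p (m - (i + 1)) ≤ p m := hp (Nat.sub_le _ _)
    refine mul_le_mul h5 h2 ?_ hpm
    have := cc_pos (i + 1)
    have := cc_pos (2 * m - (i + 1))
    positivity
  refine (Finset.sum_le_sum h1).trans ?_
  rw [← Finset.mul_sum, ← Finset.mul_sum, ← Finset.mul_sum]
  have h2 := A10_exp_sum_le m
  have h3 : Real.exp (-2) ≤ 1 / 6 := by
    have h1 : (6 : ℝ) ≤ Real.exp 2 := by
      have h2 := Real.exp_one_gt_d9
      have h3 : Real.exp 2 = Real.exp 1 * Real.exp 1 := by rw [← Real.exp_add]; norm_num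
      rw [h3]
      nlinarith
    rw [Real.exp_neg, inv_eq_one_div]
    exact one_div_le_one_div_of_le (by norm_num) h1
  have h4 := A10_sqrt_two_le
  have h5 : Real.exp (-2) * ∑ i ∈ Finset.range m, Real.exp (-(2 * (i : ℝ))) ≤ 1 / 6 * (6 / 5) :=
    mul_le_mul h3 h2 (Finset.sum_nonneg fun j _ => (Real.exp_pos _).le) (by norm_num)
  have h6 : Real.sqrt 2 * WW m r * (Real.exp (-2) * ∑ i ∈ Finset.range m, Real.exp (-(2 * (i : ℝ)))) ≤
      71 / 50 * WW m r * (1 / 6 * (6 / 5)) :=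
    mul_le_mul (by nlinarith) h5 (mul_nonneg (Real.exp_pos _).le
      (Finset.sum_nonneg fun j _ => (Real.exp_pos _).le)) (by positivity)
  calc _ ≤ p m * (71 / 50 * WW m r * (1 / 6 * (6 / 5))) := mul_le_mul_of_nonneg_left h6 hpm
    _ ≤ p m * WW m r / 2 := by
        have : 0 ≤ p m * WW m r := by positivity
        nlinarith

theorem A10_pow_mono72 : Monotone fun n : ℕ => (1 + 2 * (n:ℝ)) ^ ((7:ℝ)/2) := by
  intro a b h
  have : (a : ℝ) ≤ b := by exact_mod_cast h
  exact Real.rpow_le_rpow (by positivity) (by linarith) (by norm_num)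

/-- the relation between `l` and its cosine coefficients -/
theorem A10_Dc_eq {l : ℕ → ℝ} {r : ℝ} (hr : 1 ≤ r) (hl : Summable fun n => |l n| * WW n r) (n : ℕ) :
    Summable (fun m => A10_TK n m * l m) ∧ A10_Dc l n = cc (2 * n) * (l n + ∑' m, A10_TK n m * l m) := by
  have h1 : Summable fun m => l m * A10_Bk m n := (A10_col_summable hr hl n).of_abs
  have hc := cc_pos (2 * n)
  have h2 : ∀ m, A10_TK n m * l m = (cc (2 * n))⁻¹ * (l m * A10_Bk m n - if m = n then l n * cc (2 * n) else 0) := by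
    intro m
    rcases lt_trichotomy m n with h | h | h
    · rw [A10_TK, if_neg (by omega), A10_Bk_of_lt h, if_neg h.ne]; ring
    · subst h
      rw [A10_TK, if_neg (lt_irrefl _), A10_Bk, if_pos le_rfl, if_pos rfl, Nat.sub_self, A10_cc_zero, two_mul]
      ring
    · rw [A10_TK, if_pos h, A10_Bk, if_pos h.le, if_neg h.ne']
      field_simp
      ring
  have h3 : HasSum (fun m => if m = n then l n * cc (2 * n) else 0) (l n * cc (2 * n)) := by
    have := hasSum_ite_eq n (l n * cc (2 * n))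
    exact this
  have h4 := (h1.hasSum.sub h3).mul_left ((cc (2 * n))⁻¹)
  have h5 : HasSum (fun m => A10_TK n m * l m) ((cc (2 * n))⁻¹ * (A10_Dc l n - l n * cc (2 * n))) := by
    refine h4.congr_fun ?_
    intro m; exact h2 m
  refine ⟨h5.summable, ?_⟩
  rw [h5.tsum_eq]
  field_simp
  ring

/-- Conversion. With `x_n = l_n WW n r`, `y_m = phi_m exp (2 m r)` the relation is
`y_m = ∑_{j ≥ 0} x_{m+j} * cc j * cc (2m+j) / cc (2m+2j) * exp (-2 j r)`, i.e. `(1 + U) x = y` where the column sums of `U` are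
`≤ ∑_{j ≥ 1} (1/sqrt 2)... ≤ sqrt 2 ∑_{j≥1} cc j e^{-2 j r} ≤ 1/8` for `r ≥ 1` (cc_ratio), also with the weight `(1+2n)^{7/2}` since `U` lowers the
index. Use `neumann` (A09) with `T = U` unnormalised: `T e m n = cc (n-m) cc (n+m) / (cc 0 cc (2m))` for `n > m`
(`f_m = ∑_{n ≥ m} l_n cc (n-m) cc (n+m)`), weights `w n = (1+2n)^{7/2} WW n r` and `w n = WW n r`. Then rearrange the double series
`∑_n l_n PL n z = ∑_n l_n ∑_{|m| ≤ n} cc (n-m) cc (n+m) e^{2imz} = cosS phi z`, absolutely convergent for `|Im z| < b`. -/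
theorem legConv {b : ℝ} (hb : 1 < b) {φ : EE → ℕ → ℝ} {F : ℕ → ℝ} (hc : ∀ m, Continuous (fun e => φ e m))
    (hφ : ∀ e m, |φ e m| ≤ F m)
    (hF : ∀ r : ℝ, 1 ≤ r → r < b → Summable (fun m : ℕ => (1 + 2 * (m:ℝ)) ^ ((7:ℝ)/2) * (F m * Real.exp (2 * m * r)))) :
    ∃ l : EE → ℕ → ℝ, ∃ L : ℕ → ℝ, (∀ n, Continuous (fun e => l e n)) ∧ (∀ e n, |l e n| ≤ L n) ∧
      (∀ r : ℝ, 1 ≤ r → r < b → Summable (fun n : ℕ => (1 + 2 * (n:ℝ)) ^ ((7:ℝ)/2) * (L n * WW n r)) ∧
        ∑' n : ℕ, (1 + 2 * (n:ℝ)) ^ ((7:ℝ)/2) * (L n * WW n r) ≤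
          2 * ∑' m : ℕ, (1 + 2 * (m:ℝ)) ^ ((7:ℝ)/2) * (F m * Real.exp (2 * m * r))) ∧
      ∀ e, ∀ z ∈ strip b, HasSum (fun n => ((l e n : ℝ) : ℂ) * PL n z) (cosS (φ e) z) := by
  set p : ℕ → ℝ := fun n => (1 + 2 * (n:ℝ)) ^ ((7:ℝ)/2) with hp
  have hp0 : ∀ n, 0 < p n := fun n => by rw [hp]; positivity
  have hpm : Monotone p := A10_pow_mono72
  have hG : ∀ r : ℝ, 1 ≤ r → r < b → (fun n : ℕ => p n * WW n r * (F n / cc (2 * n))) =
      fun m : ℕ => p m * (F m * Real.exp (2 * m * r)) := by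
    intro r _ _
    funext n
    rw [WW]
    have := (cc_pos (2 * n)).ne'
    field_simp
  obtain ⟨l, L, hlc, hlL, hrel, hw⟩ := neumann (T := fun _ n m => A10_TK n m)
    (g := fun e n => φ e n / cc (2 * n)) (TM := A10_TK) (G := fun n => F n / cc (2 * n))
    (fun _ n m => by rw [abs_of_nonneg (A10_TK_nonneg n m)]) (fun n m => continuous_const)
    (fun e n => by
      rw [abs_div, abs_of_pos (cc_pos _)]
      exact div_le_div_of_nonneg_right (hφ e n) (cc_pos _).le)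
    (fun n => (hc n).div_const _) (w0 := fun n => p n * WW n 1)
    (fun n => mul_pos (hp0 n) (A10_WW_pos n 1))
    (fun m => A10_TK_sum hpm (fun n => (hp0 n).le) le_rfl m)
    (by rw [hG 1 le_rfl hb]; exact hF 1 le_rfl hb)
  have hmain : ∀ r : ℝ, 1 ≤ r → r < b → Summable (fun n : ℕ => p n * (L n * WW n r)) ∧
        ∑' n : ℕ, p n * (L n * WW n r) ≤ 2 * ∑' m : ℕ, p m * (F m * Real.exp (2 * m * r)) := by
    intro r hr hrb
    have h1 := hw (fun n => p n * WW n r) (fun n => (mul_pos (hp0 n) (A10_WW_pos n r)).le)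
      (fun m => A10_TK_sum hpm (fun n => (hp0 n).le) hr m) (by rw [hG r hr hrb]; exact hF r hr hrb)
    rw [hG r hr hrb] at h1
    have h2 : (fun n : ℕ => p n * WW n r * L n) = fun n => p n * (L n * WW n r) := by
      funext n; ring
    rw [h2] at h1
    exact h1
  refine ⟨l, L, hlc, hlL, hmain, ?_⟩
  intro e z hz
  obtain ⟨hz1, hz2⟩ := mem_strip.1 hz
  set r := max 1 |z.im| with hr
  have hr1 : 1 ≤ r := le_max_left _ _
  have hrz : |z.im| ≤ r := le_max_right _ _
  have hrb : r < b := max_lt hb (abs_lt.2 ⟨hz1, hz2⟩)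
  have hL := (hmain r hr1 hrb).1
  have hls : Summable fun n => |l e n| * WW n r := by
    refine Summable.of_nonneg_of_le (fun n => mul_nonneg (abs_nonneg _) (A10_WW_pos n r).le)
      (fun n => ?_) hL
    have h1 : (1 : ℝ) ≤ p n := by
      rw [hp]
      exact Real.one_le_rpow (by have : (0 : ℝ) ≤ n := Nat.cast_nonneg n; linarith) (by norm_num)
    have h2 := hlL e n
    have h3 : 0 ≤ L n := (abs_nonneg _).trans h2
    have h4 := A10_WW_pos n r
    calc |l e n| * WW n r ≤ L n * WW n r := mul_le_mul_of_nonneg_right h2 h4.le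
      _ = 1 * (L n * WW n r) := by ring
      _ ≤ p n * (L n * WW n r) := mul_le_mul_of_nonneg_right h1 (by positivity)
  have hDc : ∀ n, A10_Dc (l e) n = φ e n := by
    intro n
    rw [(A10_Dc_eq hr1 hls n).2]
    have h1 := (hrel e n).2
    have h2 := (cc_pos (2 * n)).ne'
    rw [h1]
    field_simp
    ring
  obtain ⟨S, hS1, hS2⟩ := A10_leg_expand hr1 hls hrz
  have hS : S = cosS (φ e) z := by
    rw [← hS2.tsum_eq, hS2.summable.tsum_eq_zero_add, cosS, ← tsum_mul_left]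
    congr 1
    · rw [hDc]; simp [A10_ep]
    · refine tsum_congr fun m => ?_
      rw [hDc, A10_ep, if_neg (Nat.succ_ne_zero m)]
      push_cast
      ring
  rw [← hS]
  exact hS1

theorem A10_int_exp (k : ℤ) (y : ℝ) :
    ∫ x in (0:ℝ)..(2 * Real.pi), exp (2 * I * (k : ℂ) * ((x : ℂ) + (y : ℂ) * I)) =
      if k = 0 then 2 * (Real.pi : ℂ) else 0 := by
  have h1 : ∀ x : ℝ, exp (2 * I * (k : ℂ) * ((x : ℂ) + (y : ℂ) * I)) =
      exp (2 * I * (k : ℂ) * ((y : ℂ) * I)) * exp (2 * I * (k : ℂ) * (x : ℂ)) := by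
    intro x
    rw [← Complex.exp_add]; congr 1; ring
  simp only [h1]
  rw [intervalIntegral.integral_const_mul]
  split_ifs with hk
  · subst hk; simp
  · have hc : 2 * I * (k : ℂ) ≠ 0 := by
      simp [hk]
    rw [integral_exp_mul_complex hc]
    have e1 : exp (2 * I * (k : ℂ) * ((2 * Real.pi : ℝ) : ℂ)) = 1 := by
      rw [Complex.exp_eq_one_iff]
      exact ⟨2 * k, by push_cast; ring⟩
    rw [e1]
    simp

theorem A10_int_cos (m k : ℕ) (y : ℝ) :
    ∫ x in (0:ℝ)..(2 * Real.pi), ((A10_ep m : ℝ) : ℂ) * cos (2 * (m : ℂ) * ((x : ℂ) + (y : ℂ) * I)) *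
      exp (-(2 * I * (k : ℂ) * ((x : ℂ) + (y : ℂ) * I))) = if m = k then 2 * (Real.pi : ℂ) else 0 := by
  have h1 : ∀ x : ℝ, ((A10_ep m : ℝ) : ℂ) * cos (2 * (m : ℂ) * ((x : ℂ) + (y : ℂ) * I)) *
      exp (-(2 * I * (k : ℂ) * ((x : ℂ) + (y : ℂ) * I))) = ((A10_ep m / 2 : ℝ) : ℂ) *
      (exp (2 * I * (((m : ℤ) - k : ℤ) : ℂ) * ((x : ℂ) + (y : ℂ) * I)) +
      exp (2 * I * ((-(m : ℤ) - k : ℤ) : ℂ) * ((x : ℂ) + (y : ℂ) * I))) := by
    intro x
    rw [Complex.cos]
    have e1 : exp (2 * I * (((m : ℤ) - k : ℤ) : ℂ) * ((x : ℂ) + (y : ℂ) * I)) =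
        exp (2 * (m : ℂ) * ((x : ℂ) + (y : ℂ) * I) * I) *
          exp (-(2 * I * (k : ℂ) * ((x : ℂ) + (y : ℂ) * I))) := by
      rw [← Complex.exp_add]; congr 1; push_cast; ring
    have e2 : exp (2 * I * ((-(m : ℤ) - k : ℤ) : ℂ) * ((x : ℂ) + (y : ℂ) * I)) =
        exp (-(2 * (m : ℂ) * ((x : ℂ) + (y : ℂ) * I)) * I) *
          exp (-(2 * I * (k : ℂ) * ((x : ℂ) + (y : ℂ) * I))) := by
      rw [← Complex.exp_add]; congr 1; push_cast; ring
    rw [e1, e2]
    push_cast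
    ring
  simp only [h1]
  rw [intervalIntegral.integral_const_mul, intervalIntegral.integral_add, A10_int_exp, A10_int_exp]
  · rw [A10_ep]
    rcases eq_or_ne m k with h | h
    · subst h
      rcases eq_or_ne m 0 with h0 | h0
      · subst h0; simp; ring
      · have e1 : ¬ ((-(m : ℤ) - m : ℤ) = 0) := by omega
        simp [h0, e1]
    · have e1 : ¬ (((m : ℤ) - k : ℤ) = 0) := by omega
      have e2 : ¬ ((-(m : ℤ) - k : ℤ) = 0) := by omega
      rw [if_neg e1, if_neg e2, if_neg h]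
      simp
  · exact (by fun_prop : Continuous fun x : ℝ => exp (2 * I * (((m : ℤ) - k : ℤ) : ℂ) *
      ((x : ℂ) + (y : ℂ) * I))).intervalIntegrable _ _
  · exact (by fun_prop : Continuous fun x : ℝ => exp (2 * I * ((-(m : ℤ) - k : ℤ) : ℂ) *
      ((x : ℂ) + (y : ℂ) * I))).intervalIntegrable _ _

/-- uniqueness of cosine coefficients -/
theorem A10_cos_unique {D : ℕ → ℝ} {y : ℝ} (hs : Summable fun m : ℕ => A10_ep m * |D m| * Real.exp (2 * m * y))
    (hy : 0 ≤ y)
    (h : ∀ x : ℝ, ∑' m : ℕ, ((A10_ep m * D m : ℝ) : ℂ) * cos (2 * (m : ℂ) * ((x : ℂ) + (y : ℂ) * I)) = 0)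
    (k : ℕ) : D k = 0 := by
  have hpi := Real.pi_pos
  set f : ℕ → ℝ → ℂ := fun m x => (D m : ℂ) * (((A10_ep m : ℝ) : ℂ) *
    cos (2 * (m : ℂ) * ((x : ℂ) + (y : ℂ) * I)) *
      exp (-(2 * I * (k : ℂ) * ((x : ℂ) + (y : ℂ) * I)))) with hf
  have hfc : ∀ m, Continuous (f m) := fun m => by rw [hf]; fun_prop
  have him : ∀ x : ℝ, |((x : ℂ) + (y : ℂ) * I).im| ≤ y := by
    intro x; simp [abs_of_nonneg hy]
  have hfn : ∀ m x, ‖f m x‖ ≤ Real.exp (2 * k * y) * (A10_ep m * |D m| * Real.exp (2 * m * y)) := by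
    intro m x
    rw [hf]
    simp only [norm_mul, Complex.norm_real, Real.norm_eq_abs, abs_of_pos (A10_ep_pos m)]
    have h1 := A10_norm_cos_two_le (him x) m
    have h2 : ‖exp (-(2 * I * (k : ℂ) * ((x : ℂ) + (y : ℂ) * I)))‖ = Real.exp (2 * k * y) := by
      rw [Complex.norm_exp]
      congr 1
      have : -(2 * I * (k : ℂ) * ((x : ℂ) + (y : ℂ) * I)) =
          ((2 * k * y : ℝ) : ℂ) + ((-(2 * k * x) : ℝ) : ℂ) * I := by
        push_cast
        linear_combination (-(2 * (k : ℂ) * y)) * Complex.I_sq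
      rw [this]
      simp
    rw [h2]
    have h3 := A10_ep_pos m
    have h4 := Real.exp_pos (2 * k * y)
    calc |D m| * (A10_ep m * ‖cos (2 * (m : ℂ) * ((x : ℂ) + (y : ℂ) * I))‖ * Real.exp (2 * k * y)) ≤
        |D m| * (A10_ep m * Real.exp (2 * m * y) * Real.exp (2 * k * y)) := by gcongr
      _ = _ := by ring
  have hint : ∀ m, Integrable (f m) (volume.restrict (Ioc 0 (2 * Real.pi))) := fun m =>
    ((hfc m).integrableOn_Ioc)
  have hsum : Summable fun m => ∫ x in Ioc 0 (2 * Real.pi), ‖f m x‖ := by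
    refine Summable.of_nonneg_of_le (fun m => integral_nonneg fun x => norm_nonneg _) (fun m => ?_)
      ((hs.mul_left (Real.exp (2 * k * y))).mul_left (2 * Real.pi))
    calc ∫ x in Ioc 0 (2 * Real.pi), ‖f m x‖ ≤
        ∫ x in Ioc 0 (2 * Real.pi), Real.exp (2 * k * y) * (A10_ep m * |D m| * Real.exp (2 * m * y)) := by
          refine integral_mono (hint m).norm (integrable_const _) fun x => hfn m x
      _ = 2 * Real.pi * (Real.exp (2 * k * y) * (A10_ep m * |D m| * Real.exp (2 * m * y))) := by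
          simp [hpi.le]
  have h1 := hasSum_integral_of_summable_integral_norm hint hsum
  have h2 : ∀ x : ℝ, ∑' m, f m x = 0 := by
    intro x
    have h3 : ∀ m, f m x = exp (-(2 * I * (k : ℂ) * ((x : ℂ) + (y : ℂ) * I))) *
        (((A10_ep m * D m : ℝ) : ℂ) * cos (2 * (m : ℂ) * ((x : ℂ) + (y : ℂ) * I))) := by
      intro m; rw [hf]; push_cast; ring
    simp only [h3]
    rw [tsum_mul_left, h x, mul_zero]
  simp only [h2, integral_zero] at h1
  have h3 : ∀ m, ∫ x in Ioc 0 (2 * Real.pi), f m x = if m = k then (D k : ℂ) * (2 * (Real.pi : ℂ)) else 0 := by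
    intro m
    rw [← intervalIntegral.integral_of_le (by positivity), hf]
    simp only
    rw [intervalIntegral.integral_const_mul, A10_int_cos]
    split_ifs with h
    · rw [h]
    · rw [mul_zero]
  simp only [h3] at h1
  have h4 := h1.unique (hasSum_ite_eq k ((D k : ℂ) * (2 * (Real.pi : ℂ))))
  have h5 : (2 * (Real.pi : ℂ)) ≠ 0 := by
    have : (Real.pi : ℂ) ≠ 0 := by exact_mod_cast hpi.ne'
    simp [this]
  have h6 : (D k : ℂ) = 0 := (mul_eq_zero.1 h4.symm).resolve_right h5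
  exact_mod_cast h6

/-- uniqueness of Legendre coefficients -/
theorem leg_unique {b : ℝ} (hb : 1 < b) {l l' : ℕ → ℝ} (h : ∀ r : ℝ, 1 ≤ r → r < b → Summable (fun n => |l n| * WW n r))
    (h' : ∀ r : ℝ, 1 ≤ r → r < b → Summable (fun n => |l' n| * WW n r))
    (he : ∀ z ∈ band 1 b, ∑' n, ((l n : ℝ) : ℂ) * PL n z = ∑' n, ((l' n : ℝ) : ℂ) * PL n z) : l = l' := by
  obtain ⟨y, hy1, hyb⟩ := exists_between hb
  set d : ℕ → ℝ := fun n => l n - l' n with hd
  have hy0 : 0 ≤ y := by linarith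
  have hds : Summable fun n => |d n| * WW n y := by
    refine Summable.of_nonneg_of_le (fun n => mul_nonneg (abs_nonneg _) (A10_WW_pos n y).le)
      (fun n => ?_) ((h y hy1.le hyb).add (h' y hy1.le hyb))
    rw [← add_mul]
    exact mul_le_mul_of_nonneg_right (abs_sub _ _) (A10_WW_pos n y).le
  have hD : ∀ k, A10_Dc d k = 0 := by
    refine A10_cos_unique (A10_Dc_summable hy1.le hds) hy0 fun x => ?_
    have him : ((x : ℂ) + (y : ℂ) * I).im = y := by simp
    have hz : |((x : ℂ) + (y : ℂ) * I).im| ≤ y := by rw [him, abs_of_nonneg hy0]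
    obtain ⟨S, h1, h2⟩ := A10_leg_expand hy1.le hds hz
    obtain ⟨S1, h3, -⟩ := A10_leg_expand hy1.le (h y hy1.le hyb) hz
    obtain ⟨S2, h4, -⟩ := A10_leg_expand hy1.le (h' y hy1.le hyb) hz
    have h5 : S1 = S2 := by
      rw [← h3.tsum_eq, ← h4.tsum_eq]
      refine he _ ?_
      rw [mem_band, him]
      exact ⟨hy1, hyb⟩
    have h6 : HasSum (fun n => ((d n : ℝ) : ℂ) * PL n ((x : ℂ) + (y : ℂ) * I)) (S1 - S2) := by
      refine (h3.sub h4).congr_fun fun n => ?_
      rw [hd]; push_cast; ring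
    rw [h2.tsum_eq, h1.unique h6, h5, sub_self]
  have hrec : ∀ n, d n = - ∑' m, A10_TK n m * d m := by
    intro n
    have h1 := (A10_Dc_eq hy1.le hds n).2
    rw [hD n] at h1
    have h2 := (mul_eq_zero.1 h1.symm).resolve_left (cc_pos _).ne'
    linarith
  -- weighted sum
  have hcol : ∀ m, Summable (fun n => WW n y * A10_TK n m) ∧ ∑' n, WW n y * A10_TK n m ≤ WW m y / 2 := by
    intro m
    have h1 := A10_TK_sum (p := fun _ => 1) monotone_const (fun _ => zero_le_one) hy1.le m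
    simpa only [one_mul] using h1
  have hnn : ∀ m n : ℕ, 0 ≤ |d m| * (WW n y * A10_TK n m) := fun m n =>
    mul_nonneg (abs_nonneg _) (mul_nonneg (A10_WW_pos n y).le (A10_TK_nonneg n m))
  have hm : ∀ m : ℕ, Summable fun n : ℕ => |d m| * (WW n y * A10_TK n m) := fun m =>
    (hcol m).1.mul_left |d m|
  have hprod : Summable fun p : ℕ × ℕ => |d p.1| * (WW p.2 y * A10_TK p.2 p.1) := by
    rw [summable_prod_of_nonneg (fun p => hnn p.1 p.2)]
    refine ⟨fun m => hm m, ?_⟩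
    refine Summable.of_nonneg_of_le (fun m => tsum_nonneg fun n => hnn m n) (fun m => ?_) hds
    simp only
    rw [tsum_mul_left]
    refine mul_le_mul_of_nonneg_left ?_ (abs_nonneg _)
    have := (hcol m).2
    have := A10_WW_pos m y
    linarith
  have hprod' : Summable fun p : ℕ × ℕ => |d p.2| * (WW p.1 y * A10_TK p.1 p.2) := hprod.prod_symm
  have e1 : ∑' m : ℕ, ∑' n : ℕ, |d m| * (WW n y * A10_TK n m) ≤ (∑' m, |d m| * WW m y) / 2 := by
    rw [← tsum_div_const]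
    refine Summable.tsum_le_tsum (fun m => ?_) hprod.prod (hds.div_const 2)
    rw [tsum_mul_left, mul_div_assoc]
    exact mul_le_mul_of_nonneg_left (hcol m).2 (abs_nonneg _)
  have e2 : ∑' m : ℕ, ∑' n : ℕ, |d m| * (WW n y * A10_TK n m) =
      ∑' n : ℕ, ∑' m : ℕ, |d m| * (WW n y * A10_TK n m) := by
    exact Summable.tsum_comm (f := fun n m : ℕ => |d m| * (WW n y * A10_TK n m)) hprod'
  have e3 : ∑' m, |d m| * WW m y ≤ ∑' n : ℕ, ∑' m : ℕ, |d m| * (WW n y * A10_TK n m) := by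
    refine Summable.tsum_le_tsum (fun n => ?_) hds hprod'.prod
    have h1 : Summable fun m => ‖A10_TK n m * d m‖ := by
      have h2 := (hprod'.prod_factor n).mul_left (WW n y)⁻¹
      refine h2.congr fun m => ?_
      have := (A10_WW_pos n y).ne'
      rw [norm_mul, Real.norm_eq_abs, Real.norm_eq_abs, abs_of_nonneg (A10_TK_nonneg n m)]
      field_simp
    have h3 := norm_tsum_le_tsum_norm h1
    have h4 : |d n| ≤ ∑' m, ‖A10_TK n m * d m‖ := by
      rw [hrec n, abs_neg]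
      exact h3
    have h5 : ∑' m : ℕ, |d m| * (WW n y * A10_TK n m) = WW n y * ∑' m, ‖A10_TK n m * d m‖ := by
      rw [← tsum_mul_left]
      refine tsum_congr fun m => ?_
      rw [norm_mul, Real.norm_eq_abs, Real.norm_eq_abs, abs_of_nonneg (A10_TK_nonneg n m)]
      ring
    rw [h5, mul_comm]
    exact mul_le_mul_of_nonneg_left h4 (A10_WW_pos n y).le
  have e4 : ∑' m, |d m| * WW m y ≤ 0 := by
    rw [← e2] at e3
    linarith
  funext n
  have h1 : |d n| * WW n y ≤ ∑' m, |d m| * WW m y :=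
    hds.le_tsum n fun m _ => mul_nonneg (abs_nonneg _) (A10_WW_pos m y).le
  have h2 : |d n| ≤ 0 := by
    have h3 := A10_WW_pos n y
    by_contra hcon
    push Not at hcon
    have := mul_pos hcon h3
    linarith
  have h3 : d n = 0 := abs_nonpos_iff.1 h2
  rw [hd] at h3
  simp only at h3
  linarith

end FB
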