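import Pool.Agent.H48.FB.A03
import Pool.Agent.H48.FB.A04
import Pool.Agent.H48.FB.A08

/-! A11: real cosine and sine series. -/

open Complex Set MeasureTheory Filter Topology

noncomputable section

namespace FB

theorem norm_cos_le_exp (w : ℂ) : ‖cos w‖ ≤ Real.exp |w.im| := by
  have h1 : cos w = (exp (w * I) + exp (-w * I)) / 2 := by
    rw [← Complex.two_cos]; ring
  rw [h1, norm_div, Complex.norm_ofNat]
  have h2 : ‖exp (w * I) + exp (-w * I)‖ ≤ Real.exp |w.im| + Real.exp |w.im| := by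
    refine (norm_add_le _ _).trans (add_le_add ?_ ?_)
    · rw [Complex.norm_exp, Real.exp_le_exp]
      have : (w * I).re = -w.im := by simp
      rw [this]
      exact neg_le_abs _
    · rw [Complex.norm_exp, Real.exp_le_exp]
      have : (-w * I).re = w.im := by simp
      rw [this]
      exact le_abs_self _
  linarith

theorem norm_cos_term_le {b : ℝ} (m : ℕ) {z : ℂ} (hz : |z.im| ≤ b) :
    ‖cos (2 * ((m : ℂ) + 1) * z)‖ ≤ Real.exp (2 * ((m + 1 : ℕ) : ℝ) * b) := by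
  refine (norm_cos_le_exp _).trans ?_
  rw [Real.exp_le_exp]
  have : (2 * ((m : ℂ) + 1) * z).im = 2 * ((m + 1 : ℕ) : ℝ) * z.im := by
    have h : (2 * ((m : ℂ) + 1) * z) = ((2 * ((m + 1 : ℕ) : ℝ) : ℝ) : ℂ) * z := by push_cast; ring
    rw [h, Complex.im_ofReal_mul]
  rw [this, abs_mul, abs_of_nonneg (by positivity : (0:ℝ) ≤ 2 * ((m + 1 : ℕ) : ℝ))]
  gcongr

theorem cosS_hasSum {b : ℝ} {φ : ℕ → ℝ} (h : Summable (fun m : ℕ => |φ m| * Real.exp (2 * m * b))) {z : ℂ} (hz : |z.im| ≤ b) :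
    HasSum (fun m : ℕ => (φ (m + 1) : ℂ) * cos (2 * ((m : ℂ) + 1) * z)) ((cosS φ z - φ 0) / 2) ∧
    ‖cosS φ z‖ ≤ 2 * ∑' m : ℕ, |φ m| * Real.exp (2 * m * b) := by
  have h1 : Summable (fun m : ℕ => |φ (m + 1)| * Real.exp (2 * ((m + 1 : ℕ) : ℝ) * b)) :=
    (summable_nat_add_iff 1).2 h
  have hle : ∀ m : ℕ, ‖(φ (m + 1) : ℂ) * cos (2 * ((m : ℂ) + 1) * z)‖ ≤
      |φ (m + 1)| * Real.exp (2 * ((m + 1 : ℕ) : ℝ) * b) := by
    intro m
    rw [norm_mul, Complex.norm_real, Real.norm_eq_abs]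
    exact mul_le_mul_of_nonneg_left (norm_cos_term_le m hz) (abs_nonneg _)
  have hs : Summable (fun m : ℕ => (φ (m + 1) : ℂ) * cos (2 * ((m : ℂ) + 1) * z)) :=
    Summable.of_norm_bounded h1 hle
  constructor
  · have : (cosS φ z - φ 0) / 2 = ∑' m : ℕ, (φ (m + 1) : ℂ) * cos (2 * ((m : ℂ) + 1) * z) := by
      rw [cosS]; ring
    rw [this]
    exact hs.hasSum
  · rw [cosS, h.tsum_eq_zero_add]
    have h2 : ‖∑' m : ℕ, (φ (m + 1) : ℂ) * cos (2 * ((m : ℂ) + 1) * z)‖ ≤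
        ∑' m : ℕ, |φ (m + 1)| * Real.exp (2 * ((m + 1 : ℕ) : ℝ) * b) :=
      tsum_of_norm_bounded h1.hasSum hle
    refine (norm_add_le _ _).trans ?_
    rw [norm_mul, Complex.norm_ofNat, Complex.norm_real, Real.norm_eq_abs]
    have h3 := abs_nonneg (φ 0)
    have h4 : |φ 0| * Real.exp (2 * ((0 : ℕ) : ℝ) * b) = |φ 0| := by simp
    rw [h4]
    linarith

/-- resummation of an even / odd bilateral series -/
theorem bilateral {c : ℤ → ℂ} {z S : ℂ} (hS : HasSum (fun k : ℤ => c k * exp (I * (k:ℂ) * z)) S)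
    (hodd : ∀ k, Odd k → c k = 0) :
    HasSum (fun m : ℕ => c (2 * ((m:ℤ) + 1)) * exp (I * (2 * ((m:ℂ) + 1)) * z) +
      c (-(2 * ((m:ℤ) + 1))) * exp (-(I * (2 * ((m:ℂ) + 1)) * z))) (S - c 0) := by
  have h1 := hS.nat_add_neg
  set g : ℕ → ℂ := fun n => c (n:ℤ) * exp (I * (((n:ℤ):ℂ)) * z) +
    c (-(n:ℤ)) * exp (I * (((-(n:ℤ) : ℤ):ℂ)) * z) with hg
  have h1' : HasSum g (S + c 0) := by
    have e : c 0 * exp (I * (((0:ℤ):ℂ)) * z) = c 0 := by simp
    rw [e] at h1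
    exact h1
  have hinj : Function.Injective (fun m : ℕ => 2 * m) := fun a b h => by
    simpa using h
  have h2 : HasSum (g ∘ fun m : ℕ => 2 * m) (S + c 0) := by
    rw [hinj.hasSum_iff]
    · exact h1'
    · intro n hn
      have hno : Odd n := by
        rw [← Nat.not_even_iff_odd]
        rintro ⟨m, hm⟩
        exact hn ⟨m, by simp only; omega⟩
      have ho : Odd (n:ℤ) := by exact_mod_cast hno
      simp only [hg]
      rw [hodd _ ho, hodd _ ho.neg, zero_mul, zero_mul, add_zero]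
  have h3 := (hasSum_nat_add_iff' 1).2 h2
  rw [Finset.sum_range_one] at h3
  have e0 : (g ∘ fun m : ℕ => 2 * m) 0 = 2 * c 0 := by
    simp [hg]; ring
  rw [e0] at h3
  have e1 : S + c 0 - 2 * c 0 = S - c 0 := by ring
  rw [e1] at h3
  refine h3.congr_fun ?_
  intro m
  simp only [Function.comp, hg]
  have i1 : ((2 * (m + 1) : ℕ) : ℤ) = 2 * ((m:ℤ) + 1) := by push_cast; ring
  rw [i1]
  push_cast
  congr 3
  ring

/-- even functions given on the upper band -/
theorem fourierEven {a b : ℝ} (ha : 0 ≤ a) (hab : a < b) {f : EE → ℂ → ℂ} (hf : Fam (band a b) f)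
    (hp : ∀ e, ∀ z ∈ band a b, f e (z + (Real.pi : ℂ)) = f e z) (he : ∀ e, EvenExt a b (f e))
    (hr : ∀ e, ∀ z ∈ band a b, f e (-(starRingEnd ℂ) z) = (starRingEnd ℂ) (f e z)) :
    ∃ φ : EE → ℕ → ℝ, (∀ m, Continuous (fun e => φ e m)) ∧ (∀ e, ∀ z ∈ band a b, f e z = cosS (φ e) z) ∧
      (∀ e m, ∀ y ∈ Ioo a b, ∀ B : ℝ, (∀ x : ℝ, ‖f e ((x:ℂ) + (y:ℂ) * I)‖ ≤ B) → |φ e m| ≤ B * Real.exp (-(2 * m * y))) ∧
      (∀ e (m : ℕ), ∀ y ∈ Ioo a b, fc (f e) y (-(2 * (m:ℤ))) = φ e m) := by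
  have hy0 : (a + b) / 2 ∈ Ioo a b := ⟨by linarith, by linarith⟩
  have hp2 : ∀ e, ∀ z ∈ band a b, f e (z + 2 * (Real.pi : ℂ)) = f e z := by
    intro e z hz
    have e1 : z + 2 * (Real.pi : ℂ) = (z + (Real.pi : ℂ)) + (Real.pi : ℂ) := by ring
    rw [e1, hp e _ (add_real_mem_band hz Real.pi), hp e z hz]
  have hreal : ∀ e, ∀ y ∈ Ioo a b, ∀ k : ℤ, fc (f e) y k = ((fc (f e) ((a + b) / 2) k).re : ℂ) := by
    intro e y hy k
    rw [fc_indep (hf.diff e) (hp2 e) hy hy0 k]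
    apply Complex.ext
    · simp
    · rw [Complex.ofReal_im]
      exact fc_real (hf.diff e).continuousOn (hp2 e) (hr e) hy0 k
  refine ⟨fun e m => (fc (f e) ((a + b) / 2) (-(2 * (m:ℤ)))).re, fun m => ?_, fun e z hz => ?_,
    fun e m y hy B hB => ?_, fun e m y hy => hreal e y hy _⟩
  · exact Complex.continuous_re.comp (hf.fc_cont hy0 _)
  · have hS := fc_hasSum (hf.diff e) (hp2 e) hy0 hz
    have hodd : ∀ k : ℤ, Odd k → fc (f e) ((a + b) / 2) k = 0 := fun k hk =>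
      fc_odd_of_pi (hf.diff e) (hp e) hy0 hk
    have h1 := bilateral hS hodd
    have hev := (evenExt_iff ha hab (hf.diff e) (hp2 e) hy0).1 (he e)
    rw [cosS]
    have h2 : HasSum (fun m : ℕ => 2 * (((fc (f e) ((a + b) / 2) (-(2 * ((m + 1 : ℕ):ℤ)))).re : ℂ) *
        cos (2 * ((m : ℂ) + 1) * z))) (f e z - fc (f e) ((a + b) / 2) 0) := by
      refine h1.congr_fun ?_
      intro m
      rw [← hreal e _ hy0, hev]
      have e3 : ((m + 1 : ℕ) : ℤ) = (m:ℤ) + 1 := by push_cast; ring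
      rw [e3]
      have e4 := Complex.two_cos (2 * ((m : ℂ) + 1) * z)
      have e5 : I * (2 * ((m:ℂ) + 1)) * z = 2 * ((m : ℂ) + 1) * z * I := by ring
      have e6 : -(I * (2 * ((m:ℂ) + 1)) * z) = -(2 * ((m : ℂ) + 1) * z) * I := by ring
      rw [hev, e6, e5, ← mul_add, ← e4]
      ring
    have h3 := h2.tsum_eq
    rw [tsum_mul_left] at h3
    rw [h3]
    have h4 : ((fc (f e) ((a + b) / 2) (-(2 * ((0 : ℕ):ℤ)))).re : ℂ) = fc (f e) ((a + b) / 2) 0 := by
      rw [← hreal e _ hy0]; simp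
    rw [h4]
    ring
  · have h1 := fc_norm_le hB (-(2 * (m:ℤ)))
    rw [hreal e y hy, Complex.norm_real, Real.norm_eq_abs] at h1
    refine h1.trans (le_of_eq ?_)
    push_cast
    congr 2
    ring

/-- odd functions on the full strip -/
theorem fourierOdd {b : ℝ} (hb : 0 < b) {f : EE → ℂ → ℂ} (hf : Fam (strip b) f)
    (hp : ∀ e, ∀ z ∈ strip b, f e (z + (Real.pi : ℂ)) = f e z) (ho : ∀ e, ∀ z ∈ strip b, f e (-z) = - f e z)
    (hr : ∀ e, ∀ z ∈ strip b, f e ((starRingEnd ℂ) z) = (starRingEnd ℂ) (f e z)) :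
    ∃ ψ : EE → ℕ → ℝ, (∀ m, Continuous (fun e => ψ e m)) ∧ (∀ e, ∀ z ∈ strip b, f e z = sinS (ψ e) z) ∧
      (∀ e m, ∀ y ∈ Ioo (0:ℝ) b, ∀ B : ℝ, (∀ x : ℝ, ‖f e ((x:ℂ) + (y:ℂ) * I)‖ ≤ B) → |ψ e m| ≤ B * Real.exp (-(2 * m * y))) := by
  have hy0 : b / 2 ∈ Ioo (0:ℝ) b := ⟨by linarith, by linarith⟩
  have hy1 : b / 2 ∈ Ioo (-b) b := ⟨by linarith, by linarith⟩
  have hsub : band 0 b ⊆ strip b := band_subset (by linarith) le_rfl
  have hp2 : ∀ e, ∀ z ∈ strip b, f e (z + 2 * (Real.pi : ℂ)) = f e z := by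
    intro e z hz
    have e1 : z + 2 * (Real.pi : ℂ) = (z + (Real.pi : ℂ)) + (Real.pi : ℂ) := by ring
    rw [e1, hp e _ (add_real_mem_band hz Real.pi), hp e z hz]
  have hanti : ∀ e, ∀ k : ℤ, fc (f e) (b / 2) (-k) = - fc (f e) (b / 2) k := by
    intro e
    refine (oddExt_iff le_rfl hb ((hf.diff e).mono hsub) (fun z hz => hp2 e z (hsub hz)) hy0).1 ?_
    exact ⟨f e, hf.diff e, hp2 e, ho e, fun z _ => rfl⟩
  have hre : ∀ e, ∀ k : ℤ, (fc (f e) (b / 2) k).re = 0 := by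
    intro e k
    have h1 : (fc (fun z => I * f e z) (b / 2) k).im = 0 := by
      refine fc_real (f := fun z => I * f e z) (a := -b) (b := b)
        (continuousOn_const.mul (hf.diff e).continuousOn) ?_ ?_ hy1 k
      · intro z hz
        show I * f e (z + 2 * (Real.pi : ℂ)) = I * f e z
        rw [hp2 e z hz]
      · intro z hz
        show I * f e (-(starRingEnd ℂ) z) = (starRingEnd ℂ) (I * f e z)
        rw [ho e _ (conj_mem_strip hz), hr e z hz, map_mul, Complex.conj_I]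
        ring
    rw [fc_const_mul] at h1
    simpa using h1
  have hval : ∀ e, ∀ k : ℤ, fc (f e) (b / 2) k = I * ((fc (f e) (b / 2) k).im : ℂ) := by
    intro e k
    apply Complex.ext
    · simp [hre e k]
    · simp
  refine ⟨fun e m => (fc (f e) (b / 2) (-(2 * (m:ℤ)))).im, fun m => ?_, fun e z hz => ?_,
    fun e m y hy B hB => ?_⟩
  · exact Complex.continuous_im.comp (hf.fc_cont hy1 _)
  · have hS := fc_hasSum (hf.diff e) (hp2 e) hy1 hz
    have hodd : ∀ k : ℤ, Odd k → fc (f e) (b / 2) k = 0 := fun k hk =>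
      fc_odd_of_pi (hf.diff e) (hp e) hy1 hk
    have h1 := bilateral hS hodd
    have h0 : fc (f e) (b / 2) 0 = 0 := by
      have := hanti e 0
      rw [neg_zero] at this
      exact self_eq_neg.1 this
    rw [sinS]
    have h2 : HasSum (fun m : ℕ => 2 * (((fc (f e) (b / 2) (-(2 * ((m + 1 : ℕ):ℤ)))).im : ℂ) *
        sin (2 * ((m : ℂ) + 1) * z))) (f e z - fc (f e) (b / 2) 0) := by
      refine h1.congr_fun ?_
      intro m
      have e3 : ((m + 1 : ℕ) : ℤ) = (m:ℤ) + 1 := by push_cast; ring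
      rw [e3]
      have e4 := Complex.two_sin (2 * ((m : ℂ) + 1) * z)
      have e5 : I * (2 * ((m:ℂ) + 1)) * z = 2 * ((m : ℂ) + 1) * z * I := by ring
      have e6 : -(I * (2 * ((m:ℂ) + 1)) * z) = -(2 * ((m : ℂ) + 1) * z) * I := by ring
      have e7 : fc (f e) (b / 2) (2 * ((m:ℤ) + 1)) = - fc (f e) (b / 2) (-(2 * ((m:ℤ) + 1))) := by
        rw [hanti e, neg_neg]
      have e8 := hval e (-(2 * ((m:ℤ) + 1)))
      rw [e7, e6, e5]
      set V : ℂ := fc (f e) (b / 2) (-(2 * ((m:ℤ) + 1))) with hV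
      set v : ℂ := (V.im : ℂ) with hv
      rw [e8]
      linear_combination v * e4
    have h3 := h2.tsum_eq
    rw [tsum_mul_left, h0, sub_zero] at h3
    exact h3.symm
  · have hyb : y ∈ Ioo (-b) b := ⟨by linarith [hy.1], hy.2⟩
    have h1 := fc_norm_le hB (-(2 * (m:ℤ)))
    rw [fc_indep (hf.diff e) (hp2 e) hyb hy1] at h1
    refine (Complex.abs_im_le_norm _).trans (h1.trans (le_of_eq ?_))
    push_cast
    congr 2
    ring

/-- cosine series as a family on the strip -/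
theorem cosS_fam {b : ℝ} (hb : 0 < b) {φ : EE → ℕ → ℝ} {F : ℕ → ℝ} (hc : ∀ m, Continuous (fun e => φ e m))
    (hφ : ∀ e m, |φ e m| ≤ F m) (hF : ∀ r : ℝ, 0 ≤ r → r < b → Summable (fun m : ℕ => F m * Real.exp (2 * m * r))) :
    Fam (strip b) (fun e => cosS (φ e)) ∧ (∀ e, ∀ z, cosS (φ e) (-z) = cosS (φ e) z) ∧
    (∀ e, ∀ z, cosS (φ e) (z + (Real.pi : ℂ)) = cosS (φ e) z) ∧
    (∀ e, ∀ z, cosS (φ e) ((starRingEnd ℂ) z) = (starRingEnd ℂ) (cosS (φ e) z)) := by
  refine ⟨?_, fun e z => ?_, fun e z => ?_, fun e z => ?_⟩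
  · have h0 : Fam (strip b) (fun e _ => (φ e 0 : ℂ)) :=
      Fam.param (Complex.continuous_ofReal.comp (hc 0))
    have h2 : Fam (strip b) (fun _ _ => (2 : ℂ)) := Fam.const (f := fun _ => (2:ℂ)) (differentiableOn_const _)
    have ht : Fam (strip b) (fun e z => ∑' m : ℕ, (φ e (m + 1) : ℂ) * cos (2 * ((m : ℂ) + 1) * z)) := by
      refine Fam.tsum (F := fun m e z => (φ e (m + 1) : ℂ) * cos (2 * ((m : ℂ) + 1) * z)) ?_ ?_
      · intro m
        refine Fam.mul (f := fun e _ => (φ e (m + 1) : ℂ)) (g := fun _ z => cos (2 * ((m : ℂ) + 1) * z))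
          (Fam.param (Complex.continuous_ofReal.comp (hc (m + 1)))) (Fam.const ?_)
        exact (Complex.differentiable_cos.comp (differentiable_id.const_mul _)).differentiableOn
      · intro a' b' ha' hb'
        set r : ℝ := max (max (-a') b') 0 with hr
        have hr0 : 0 ≤ r := le_max_right _ _
        have hrb : r < b := max_lt (max_lt (by linarith) hb') hb
        refine ⟨fun m => F (m + 1) * Real.exp (2 * ((m + 1 : ℕ) : ℝ) * r),
          (summable_nat_add_iff 1).2 (hF r hr0 hrb), fun m e z hz => ?_⟩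
        have hz' : |z.im| ≤ r := by
          rw [abs_le]
          have h3 : -a' ≤ r := (le_max_left _ _).trans (le_max_left _ _)
          have h4 : b' ≤ r := (le_max_right _ _).trans (le_max_left _ _)
          exact ⟨by linarith [hz.1], by linarith [hz.2]⟩
        rw [norm_mul, Complex.norm_real, Real.norm_eq_abs]
        exact mul_le_mul (hφ e _) (norm_cos_term_le m hz') (norm_nonneg _)
          ((abs_nonneg _).trans (hφ e _))
    exact h0.add (h2.mul ht)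
  · simp only [cosS, mul_neg, Complex.cos_neg]
  · simp only [cosS]
    congr 2
    refine tsum_congr fun m => ?_
    congr 1
    have e1 : 2 * ((m : ℂ) + 1) * (z + (Real.pi : ℂ)) =
        2 * ((m : ℂ) + 1) * z + ((m + 1 : ℕ) : ℂ) * (2 * (Real.pi : ℂ)) := by push_cast; ring
    rw [e1, Complex.cos_add_nat_mul_two_pi]
  · simp only [cosS, map_add, map_mul, Complex.conj_tsum, Complex.conj_ofReal]
    congr 1
    · congr 1
      · exact (Complex.conj_ofNat 2).symm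
      · refine tsum_congr fun m => ?_
        congr 1
        rw [← Complex.cos_conj]
        congr 1
        rw [map_mul, map_mul, map_add, Complex.conj_natCast, map_one, Complex.conj_ofNat]

end FB
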