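import Pool.Agent.H48.FB.Defs

/-! A12: the special functions. `bf w = sum_k sqrt 2 C(2k,k)/(8^k (2k+1)) w^k`, `afn w = sum_k (..) 2/(2k+3) w^k`. -/

open Complex Set MeasureTheory Filter Topology

namespace FB

/-- Integrals over `[0, 1]` of functions which depend holomorphically on a parameter. -/
theorem a12_paramDiff {U : Set ℂ} (hU : IsOpen U) {f : ℂ → ℝ → ℂ}
    (hc : ContinuousOn (fun p : ℂ × ℝ => f p.1 p.2) (U ×ˢ Icc (0 : ℝ) 1))
    (hd : ∀ s ∈ Icc (0 : ℝ) 1, DifferentiableOn ℂ (fun w => f w s) U) :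
    DifferentiableOn ℂ (fun w => ∫ s in (0 : ℝ)..1, f w s) U := by
  intro w0 hw0
  obtain ⟨ρ, hρ, hball⟩ : ∃ ρ : ℝ, 0 < ρ ∧ Metric.closedBall w0 (2 * ρ) ⊆ U := by
    obtain ⟨r, hr, h⟩ := Metric.isOpen_iff.mp hU w0 hw0
    exact ⟨r / 4, by positivity, (Metric.closedBall_subset_ball (by linarith)).trans h⟩
  have hK : IsCompact (Metric.closedBall w0 (2 * ρ) ×ˢ Icc (0 : ℝ) 1) :=
    (isCompact_closedBall _ _).prod isCompact_Icc
  obtain ⟨M, hM⟩ := hK.exists_bound_of_continuousOn (hc.mono (prod_mono_left hball))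
  have hcs : ∀ w ∈ U, ContinuousOn (fun s => f w s) (Icc (0 : ℝ) 1) := fun w hw =>
    hc.comp (f := fun s : ℝ => (w, s)) (by fun_prop) (fun s hs => ⟨hw, hs⟩)
  have huI : uIoc (0 : ℝ) 1 ⊆ Icc 0 1 := by
    rw [uIoc_of_le zero_le_one]; exact Ioc_subset_Icc_self
  have hmeas : ∀ w ∈ U, AEStronglyMeasurable (fun s => f w s)
      (volume.restrict (uIoc (0 : ℝ) 1)) := fun w hw =>
    ((hcs w hw).mono huI).aestronglyMeasurable measurableSet_uIoc
  have hsub : Metric.ball w0 ρ ⊆ U := fun w hw => hball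
    (Metric.closedBall_subset_closedBall (by linarith) (Metric.ball_subset_closedBall hw))
  have hdiffAt : ∀ s ∈ Icc (0 : ℝ) 1, ∀ w ∈ U, DifferentiableAt ℂ (fun w => f w s) w :=
    fun s hs w hw => (hd s hs).differentiableAt (hU.mem_nhds hw)
  have hderiv : ∀ s ∈ Icc (0 : ℝ) 1, ∀ w ∈ Metric.ball w0 ρ,
      ‖deriv (fun w => f w s) w‖ ≤ M / ρ := by
    intro s hs w hw
    have hcb : Metric.closedBall w ρ ⊆ Metric.closedBall w0 (2 * ρ) := by
      refine Metric.closedBall_subset_closedBall' ?_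
      have := Metric.mem_ball.mp hw
      linarith
    refine Complex.norm_deriv_le_of_forall_mem_sphere_norm_le hρ ?_ ?_
    · exact ((hd s hs).mono (hcb.trans hball)).diffContOnCl_ball Subset.rfl
    · intro z hz
      exact hM (z, s) ⟨hcb (Metric.sphere_subset_closedBall hz), hs⟩
  have hUn : U ∈ 𝓝 w0 := hU.mem_nhds hw0
  have hseq : AEStronglyMeasurable (fun s => deriv (fun w => f w s) w0)
      (volume.restrict (uIoc (0 : ℝ) 1)) := by
    have htend : Tendsto (fun n : ℕ => ((ρ / ((n : ℝ) + 1) : ℝ) : ℂ)) atTop (𝓝[≠] 0) := by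
      rw [tendsto_nhdsWithin_iff]
      constructor
      · have h1 : Tendsto (fun n : ℕ => ρ / ((n : ℝ) + 1)) atTop (𝓝 0) := by
          have h2 := (tendsto_one_div_add_atTop_nhds_zero_nat (𝕜 := ℝ)).const_mul ρ
          simp only [mul_one_div, mul_zero] at h2
          exact h2
        have h3 := (Complex.continuous_ofReal.tendsto 0).comp h1
        rw [Complex.ofReal_zero] at h3
        exact h3
      · refine Eventually.of_forall fun n => ?_
        have : (0 : ℝ) < ρ / ((n : ℝ) + 1) := by positivity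
        exact Complex.ofReal_ne_zero.mpr this.ne'
    refine aestronglyMeasurable_of_tendsto_ae (u := atTop)
      (f := fun (n : ℕ) (s : ℝ) => (((ρ / ((n : ℝ) + 1) : ℝ) : ℂ))⁻¹ •
        (f (w0 + ((ρ / ((n : ℝ) + 1) : ℝ) : ℂ)) s - f w0 s)) ?_ ?_
    · intro n
      have hmem : w0 + ((ρ / ((n : ℝ) + 1) : ℝ) : ℂ) ∈ U := by
        apply hball
        rw [Metric.mem_closedBall, dist_self_add_left, Complex.norm_real, Real.norm_eq_abs,
          abs_of_pos (by positivity)]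
        have : ρ / ((n : ℝ) + 1) ≤ ρ := by
          apply div_le_self hρ.le
          have : (0 : ℝ) ≤ n := Nat.cast_nonneg n
          linarith
        linarith
      exact ((hmeas _ hmem).sub (hmeas _ hw0)).const_smul (((ρ / ((n : ℝ) + 1) : ℝ) : ℂ))⁻¹
    · rw [ae_restrict_iff' measurableSet_uIoc]
      refine Eventually.of_forall fun s hs => ?_
      have h1 := (hdiffAt s (huI hs) w0 hw0).hasDerivAt
      rw [hasDerivAt_iff_tendsto_slope_zero] at h1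
      exact h1.comp htend
  have h := intervalIntegral.hasDerivAt_integral_of_dominated_loc_of_deriv_le
    (F := f) (F' := fun w s => deriv (fun w => f w s) w) (bound := fun _ => M / ρ) (x₀ := w0)
    (μ := volume) (a := 0) (b := 1) (s := Metric.ball w0 ρ) (Metric.ball_mem_nhds _ hρ)
    (by filter_upwards [hUn] with w hw using hmeas w hw)
    ((hcs w0 hw0).intervalIntegrable_of_Icc zero_le_one)
    hseq
    (Eventually.of_forall fun s hs w hw => hderiv s (huI hs) w hw)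
    intervalIntegrable_const
    (Eventually.of_forall fun s hs w hw => (hdiffAt s (huI hs) w (hsub hw)).hasDerivAt)
  exact h.2.differentiableAt.differentiableWithinAt

/-- Primitives along rays. -/
theorem a12_ray {r : ℝ} {h : ℂ → ℂ} (hh : DifferentiableOn ℂ h (Metric.ball 0 r)) {y : ℂ}
    (hy : y ∈ Metric.ball (0 : ℂ) r) :
    HasDerivAt (fun y : ℂ => ∫ s in (0 : ℝ)..1, y * h ((s : ℂ) * y)) (h y) y := by
  obtain ⟨G, hG⟩ := hh.isExactOn_ball
  have key : ∀ y ∈ Metric.ball (0 : ℂ) r,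
      ∫ s in (0 : ℝ)..1, y * h ((s : ℂ) * y) = G y - G 0 := by
    intro y hy
    have hmem : ∀ s ∈ uIcc (0 : ℝ) 1, (s : ℂ) * y ∈ Metric.ball (0 : ℂ) r := by
      intro s hs
      rw [uIcc_of_le zero_le_one] at hs
      rw [mem_ball_zero_iff] at hy ⊢
      rw [norm_mul, Complex.norm_real, Real.norm_eq_abs, abs_of_nonneg hs.1]
      calc s * ‖y‖ ≤ 1 * ‖y‖ := mul_le_mul_of_nonneg_right hs.2 (norm_nonneg _)
        _ < r := by rw [one_mul]; exact hy
    have h1 := intervalIntegral.integral_eq_sub_of_hasDerivAt (a := 0) (b := 1)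
      (f := fun s : ℝ => G ((s : ℂ) * y)) (f' := fun s : ℝ => y * h ((s : ℂ) * y)) ?_ ?_
    · simpa using h1
    · intro s hs
      have h2 : HasDerivAt (fun z : ℂ => G (z * y)) (h ((s : ℂ) * y) * (1 * y)) (s : ℂ) :=
        (hG _ (hmem s hs)).comp (s : ℂ) ((hasDerivAt_id (s : ℂ)).mul_const y)
      have h3 := h2.comp_ofReal
      have e : h ((s : ℂ) * y) * (1 * y) = y * h ((s : ℂ) * y) := by ring
      rw [e] at h3
      exact h3
    · apply ContinuousOn.intervalIntegrable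
      exact continuousOn_const.mul (hh.continuousOn.comp
        (f := fun s : ℝ => (s : ℂ) * y) (by fun_prop) hmem)
  refine ((hG y hy).sub_const (G 0)).congr_of_eventuallyEq ?_
  filter_upwards [Metric.isOpen_ball.mem_nhds hy] with z hz using key z hz

theorem a12_re {z : ℂ} (hz : ‖z‖ < 2) : 0 < (2 - z).re := by
  have := Complex.re_le_norm z
  simp only [sub_re, re_ofNat]
  linarith

theorem a12_slit {z : ℂ} (hz : ‖z‖ < 2) : 2 - z ∈ slitPlane := Or.inl (a12_re hz)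

theorem a12_scale {s : ℝ} (hs : s ∈ Icc (0 : ℝ) 1) {w : ℂ} {r : ℝ} (hw : ‖w‖ < r) :
    ‖(s : ℂ) ^ 2 * w‖ < r := by
  rw [norm_mul, norm_pow, Complex.norm_real, Real.norm_eq_abs, abs_of_nonneg hs.1]
  have h1 : s ^ 2 ≤ 1 := pow_le_one₀ hs.1 hs.2
  nlinarith [norm_nonneg w]

theorem a12_cont : ContinuousOn (fun p : ℂ × ℝ => 2 * (2 - (p.2 : ℂ) ^ 2 * p.1) ^ (-((1:ℂ)/2)))
    (Metric.ball 0 2 ×ˢ Icc (0 : ℝ) 1) := by
  refine continuousOn_const.mul (ContinuousOn.cpow_const (by fun_prop) ?_)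
  rintro ⟨w, s⟩ ⟨hw, hs⟩
  exact a12_slit (a12_scale hs (mem_ball_zero_iff.mp hw))

theorem bf_diff : DifferentiableOn ℂ bf (Metric.ball 0 2) := by
  refine a12_paramDiff Metric.isOpen_ball a12_cont fun s hs => ?_
  intro w hw
  have h1 : (2 - (s : ℂ) ^ 2 * w) ∈ slitPlane := a12_slit (a12_scale hs (mem_ball_zero_iff.mp hw))
  have h2 : HasDerivAt (fun w : ℂ => 2 - (s : ℂ) ^ 2 * w) (-((s : ℂ) ^ 2 * 1)) w :=
    ((hasDerivAt_id w).const_mul ((s : ℂ) ^ 2)).const_sub 2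
  exact ((h2.cpow_const h1).const_mul 2).differentiableAt.differentiableWithinAt

theorem afn_diff : DifferentiableOn ℂ afn (Metric.ball 0 2) := by
  refine a12_paramDiff Metric.isOpen_ball ?_ fun s hs => ?_
  · refine ContinuousOn.mul (by fun_prop) ?_
    refine bf_diff.continuousOn.comp (f := fun p : ℂ × ℝ => (p.2 : ℂ) ^ 2 * p.1) (by fun_prop) ?_
    rintro ⟨w, s⟩ ⟨hw, hs⟩
    exact mem_ball_zero_iff.mpr (a12_scale hs (mem_ball_zero_iff.mp hw))
  · refine DifferentiableOn.const_mul ?_ _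
    refine bf_diff.comp (f := fun w : ℂ => (s : ℂ) ^ 2 * w) (by fun_prop) ?_
    intro w hw
    exact mem_ball_zero_iff.mpr (a12_scale hs (mem_ball_zero_iff.mp hw))

theorem a12_sqrt2 : (2 : ℂ) ^ ((1 : ℂ) / 2) = (Real.sqrt 2 : ℂ) := by
  rw [Real.sqrt_eq_rpow, Complex.ofReal_cpow (by norm_num)]
  norm_num

theorem a12_sqrt2' : 2 * (2 : ℂ) ^ (-((1 : ℂ) / 2)) = (Real.sqrt 2 : ℂ) := by
  rw [Complex.cpow_neg, a12_sqrt2]
  have h : ((Real.sqrt 2 : ℝ) : ℂ) * (Real.sqrt 2 : ℂ) = 2 := by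
    rw [← Complex.ofReal_mul, Real.mul_self_sqrt (by norm_num)]; norm_num
  have h0 : ((Real.sqrt 2 : ℝ) : ℂ) ≠ 0 := by
    intro hh
    rw [hh] at h
    norm_num at h
  field_simp
  linear_combination -h

theorem bf_zero : bf 0 = (Real.sqrt 2 : ℂ) := by
  simp only [bf, mul_zero, sub_zero, a12_sqrt2']
  simp

theorem afn_zero : afn 0 = (2 * Real.sqrt 2 / 3 : ℂ) := by
  simp only [afn, mul_zero, bf_zero]
  have h : (fun t : ℝ => 2 * (t : ℂ) ^ 2 * (Real.sqrt 2 : ℂ)) =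
      fun t : ℝ => ((2 * Real.sqrt 2 * t ^ 2 : ℝ) : ℂ) := by
    funext t; push_cast; ring
  rw [h, intervalIntegral.integral_ofReal, intervalIntegral.integral_const_mul, integral_pow]
  push_cast
  norm_num
  ring

theorem a12_sq (u : ℂ) : (u ^ ((1 : ℂ) / 2)) ^ 2 = u := by
  rw [one_div]
  exact_mod_cast Complex.cpow_nat_inv_pow u two_ne_zero

/-- principal square root of a number with real part at least one -/
theorem a12_root {u : ℂ} (hu : 1 ≤ u.re) : 1 ≤ (u ^ ((1 : ℂ) / 2)).re ∧ (u ^ ((1 : ℂ) / 2)) ^ 2 = u := by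
  constructor
  · rw [one_div, Complex.cpow_inv_two_re]
    have h1 := Complex.re_le_norm u
    apply Real.one_le_sqrt.mpr
    linarith
  · exact a12_sq u

theorem a12_diff {z : ℂ} (hz : ‖z‖ ≤ 1) :
    ‖2 * (2 - z) ^ (-((1 : ℂ) / 2)) - (Real.sqrt 2 : ℂ)‖ ≤ (2 - Real.sqrt 2) * ‖z‖ := by
  have hre : 1 ≤ (2 - z).re := by
    have := Complex.re_le_norm z
    simp only [sub_re, re_ofNat]
    linarith
  obtain ⟨h1, h2⟩ := a12_root hre
  set A : ℂ := (2 - z) ^ ((1 : ℂ) / 2) with hA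
  have hs2 : Real.sqrt 2 ^ 2 = 2 := Real.sq_sqrt (by norm_num)
  have hs0 : 0 < Real.sqrt 2 := by positivity
  have hs2c : (Real.sqrt 2 : ℂ) ^ 2 = 2 := by
    rw [← Complex.ofReal_pow, hs2]; norm_num
  have hA1 : 1 ≤ ‖A‖ := h1.trans (Complex.re_le_norm A)
  have hAB : 1 + Real.sqrt 2 ≤ ‖A + (Real.sqrt 2 : ℂ)‖ := by
    have h3 := Complex.re_le_norm (A + (Real.sqrt 2 : ℂ))
    simp only [add_re, ofReal_re] at h3
    linarith
  have hA0 : A ≠ 0 := by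
    intro h; rw [h, norm_zero] at hA1; linarith
  have hAB0 : A + (Real.sqrt 2 : ℂ) ≠ 0 := by
    intro h; rw [h, norm_zero] at hAB; linarith
  rw [Complex.cpow_neg, ← hA]
  have e : 2 * A⁻¹ - (Real.sqrt 2 : ℂ) = (Real.sqrt 2 : ℂ) * z / (A * (A + (Real.sqrt 2 : ℂ))) := by
    have hz : z = (Real.sqrt 2 : ℂ) ^ 2 - A ^ 2 := by rw [hs2c, h2]; ring
    rw [hz]
    field_simp
    linear_combination (-(A + (Real.sqrt 2 : ℂ))) * hs2c
  rw [e, norm_div, norm_mul, norm_mul, Complex.norm_real, Real.norm_eq_abs, abs_of_pos hs0,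
    div_le_iff₀ (by positivity)]
  have h4 : 1 + Real.sqrt 2 ≤ ‖A‖ * ‖A + (Real.sqrt 2 : ℂ)‖ := by nlinarith
  have h5 : 0 ≤ (2 - Real.sqrt 2) * ‖z‖ := by
    apply mul_nonneg _ (norm_nonneg z)
    nlinarith
  calc Real.sqrt 2 * ‖z‖ = (2 - Real.sqrt 2) * ‖z‖ * (1 + Real.sqrt 2) := by
        linear_combination (‖z‖) * hs2
    _ ≤ _ := mul_le_mul_of_nonneg_left h4 h5

theorem bf_bound {w : ℂ} (hw : ‖w‖ ≤ 1) : ‖bf w - (Real.sqrt 2 : ℂ)‖ ≤ 1/5 * ‖w‖ := by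
  have hint : IntervalIntegrable (fun s : ℝ => 2 * (2 - (s : ℂ) ^ 2 * w) ^ (-((1:ℂ)/2)))
      volume 0 1 := by
    apply ContinuousOn.intervalIntegrable
    rw [uIcc_of_le zero_le_one]
    exact a12_cont.comp (f := fun s : ℝ => (w, s)) (by fun_prop)
      (fun s hs => ⟨mem_ball_zero_iff.mpr (by linarith), hs⟩)
  have e : bf w - (Real.sqrt 2 : ℂ) = ∫ s in (0:ℝ)..1,
      (2 * (2 - (s : ℂ) ^ 2 * w) ^ (-((1:ℂ)/2)) - (Real.sqrt 2 : ℂ)) := by
    rw [intervalIntegral.integral_sub hint intervalIntegrable_const, bf]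
    simp
  rw [e]
  have hb : ∀ s ∈ Icc (0 : ℝ) 1,
      ‖2 * (2 - (s : ℂ) ^ 2 * w) ^ (-((1:ℂ)/2)) - (Real.sqrt 2 : ℂ)‖ ≤
        (2 - Real.sqrt 2) * ‖w‖ * s ^ 2 := by
    intro s hs
    have h1 : ‖(s : ℂ) ^ 2 * w‖ = s ^ 2 * ‖w‖ := by
      rw [norm_mul, norm_pow, Complex.norm_real, Real.norm_eq_abs, abs_of_nonneg hs.1]
    have h2 : s ^ 2 * ‖w‖ ≤ 1 := mul_le_one₀ (pow_le_one₀ hs.1 hs.2) (norm_nonneg _) hw
    have h3 := a12_diff (z := (s : ℂ) ^ 2 * w) (by rw [h1]; exact h2)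
    rw [h1] at h3
    linarith
  have h := intervalIntegral.norm_integral_le_of_norm_le (a := (0 : ℝ)) (b := 1) (μ := volume)
    (f := fun s : ℝ => 2 * (2 - (s : ℂ) ^ 2 * w) ^ (-((1:ℂ)/2)) - (Real.sqrt 2 : ℂ))
    (g := fun s => (2 - Real.sqrt 2) * ‖w‖ * s ^ 2) zero_le_one
    (Eventually.of_forall fun s hs => hb s (Ioc_subset_Icc_self hs))
    (by apply Continuous.intervalIntegrable; fun_prop)
  refine h.trans ?_
  rw [intervalIntegral.integral_const_mul, integral_pow]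
  have hs2 : Real.sqrt 2 ^ 2 = 2 := Real.sq_sqrt (by norm_num)
  have hs0 : 0 < Real.sqrt 2 := by positivity
  have hs14 : 1.4 < Real.sqrt 2 := by
    rw [Real.lt_sqrt (by norm_num)]; norm_num
  norm_num
  nlinarith [norm_nonneg w]

theorem afn_bound {w : ℂ} (hw : ‖w‖ ≤ 1) :
    ‖afn w - (2 * Real.sqrt 2 / 3 : ℂ)‖ ≤ 1/10 * ‖w‖ := by
  have hc : ∀ w : ℂ, ‖w‖ ≤ 1 → IntervalIntegrable
      (fun t : ℝ => 2 * (t : ℂ) ^ 2 * bf ((t : ℂ) ^ 2 * w)) volume 0 1 := by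
    intro w hw
    apply ContinuousOn.intervalIntegrable
    rw [uIcc_of_le zero_le_one]
    refine ContinuousOn.mul (by fun_prop) ?_
    refine bf_diff.continuousOn.comp (f := fun s : ℝ => (s : ℂ) ^ 2 * w) (by fun_prop) ?_
    intro s hs
    exact mem_ball_zero_iff.mpr (a12_scale hs (by linarith))
  rw [← afn_zero, afn, afn, ← intervalIntegral.integral_sub (hc w hw) (hc 0 (by simp))]
  have hb : ∀ t ∈ Icc (0 : ℝ) 1,
      ‖2 * (t : ℂ) ^ 2 * bf ((t : ℂ) ^ 2 * w) - 2 * (t : ℂ) ^ 2 * bf ((t : ℂ) ^ 2 * 0)‖ ≤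
        2 / 5 * ‖w‖ * t ^ 4 := by
    intro t ht
    have h1 : ‖(t : ℂ) ^ 2 * w‖ = t ^ 2 * ‖w‖ := by
      rw [norm_mul, norm_pow, Complex.norm_real, Real.norm_eq_abs, abs_of_nonneg ht.1]
    have h2 : t ^ 2 * ‖w‖ ≤ 1 := mul_le_one₀ (pow_le_one₀ ht.1 ht.2) (norm_nonneg _) hw
    have h3 := bf_bound (w := (t : ℂ) ^ 2 * w) (by rw [h1]; exact h2)
    rw [h1] at h3
    rw [mul_zero, bf_zero, ← mul_sub, norm_mul, norm_mul, norm_pow, Complex.norm_real,
      Real.norm_eq_abs, abs_of_nonneg ht.1]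
    have h4 : (0 : ℝ) ≤ t ^ 2 := sq_nonneg t
    have h5 : ‖(2 : ℂ)‖ = 2 := by norm_num
    rw [h5]
    nlinarith
  have h := intervalIntegral.norm_integral_le_of_norm_le (a := (0 : ℝ)) (b := 1) (μ := volume)
    (f := fun t : ℝ => 2 * (t : ℂ) ^ 2 * bf ((t : ℂ) ^ 2 * w) -
      2 * (t : ℂ) ^ 2 * bf ((t : ℂ) ^ 2 * 0))
    (g := fun t => 2 / 5 * ‖w‖ * t ^ 4) zero_le_one
    (Eventually.of_forall fun s hs => hb s (Ioc_subset_Icc_self hs))
    (by apply Continuous.intervalIntegrable; fun_prop)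
  refine h.trans ?_
  rw [intervalIntegral.integral_const_mul, integral_pow]
  norm_num
  nlinarith [norm_nonneg w]

theorem bf_conj (w : ℂ) (hw : ‖w‖ < 2) : bf ((starRingEnd ℂ) w) = (starRingEnd ℂ) (bf w) := by
  rw [bf, bf, intervalIntegral.integral_of_le zero_le_one,
    intervalIntegral.integral_of_le zero_le_one, ← integral_conj]
  refine setIntegral_congr_fun measurableSet_Ioc fun s hs => ?_
  have h1 : (2 - (s : ℂ) ^ 2 * w) ∈ slitPlane := a12_slit (a12_scale (Ioc_subset_Icc_self hs) hw)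
  have h2 := conj_cpow (2 - (s : ℂ) ^ 2 * w) (-((1:ℂ)/2)) (slitPlane_arg_ne_pi h1)
  simp only [map_sub, map_mul, map_pow, conj_ofReal, map_neg, map_div₀, map_one, map_ofNat] at h2 ⊢
  rw [h2]

theorem afn_conj (w : ℂ) (hw : ‖w‖ < 2) :
    afn ((starRingEnd ℂ) w) = (starRingEnd ℂ) (afn w) := by
  rw [afn, afn, intervalIntegral.integral_of_le zero_le_one,
    intervalIntegral.integral_of_le zero_le_one, ← integral_conj]
  refine setIntegral_congr_fun measurableSet_Ioc fun s hs => ?_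
  have h2 := bf_conj ((s : ℂ) ^ 2 * w) (a12_scale (Ioc_subset_Icc_self hs) hw)
  simp only [map_mul, map_pow, conj_ofReal, map_ofNat] at h2 ⊢
  rw [h2]

theorem a12_norm_sq {y : ℂ} (hy : ‖y‖ ^ 2 < 2) : ‖y ^ 2‖ < 2 := by rw [norm_pow]; exact hy

theorem a12_mem {y : ℂ} (hy : ‖y‖ ^ 2 < 2) : y ∈ Metric.ball (0 : ℂ) (Real.sqrt 2) := by
  rw [mem_ball_zero_iff, Real.lt_sqrt (norm_nonneg y)]
  exact hy

theorem a12_mem' {y : ℂ} (hy : y ∈ Metric.ball (0 : ℂ) (Real.sqrt 2)) : ‖y‖ ^ 2 < 2 := by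
  rw [mem_ball_zero_iff, Real.lt_sqrt (norm_nonneg y)] at hy
  exact hy

theorem a12_pow_deriv {y : ℂ} (hy : ‖y‖ ^ 2 < 2) (c : ℂ) :
    HasDerivAt (fun y : ℂ => (2 - y ^ 2) ^ c) (c * (2 - y ^ 2) ^ (c - 1) * (-(2 * y))) y := by
  have h1 : HasDerivAt (fun y : ℂ => 2 - y ^ 2) (-(2 * y)) y := by
    have h2 := (hasDerivAt_pow 2 y).const_sub (2 : ℂ)
    simpa using h2
  exact h1.cpow_const (a12_slit (a12_norm_sq hy))

/-- derivative along rays: `Af y = ∫_0^1 y * 2 (2 - s^2 y^2)^{-1/2} ds` is the primitive of `2 (2 - y^2)^{-1/2}` vanishing at `0` -/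
theorem hasDerivAt_Af {y : ℂ} (hy : ‖y‖ ^ 2 < 2) : HasDerivAt Af (2 * (2 - y ^ 2) ^ (-((1:ℂ)/2))) y := by
  have h1 : DifferentiableOn ℂ (fun y : ℂ => 2 * (2 - y ^ 2) ^ (-((1:ℂ)/2)))
      (Metric.ball 0 (Real.sqrt 2)) := fun z hz =>
    ((a12_pow_deriv (a12_mem' hz) _).const_mul 2).differentiableAt.differentiableWithinAt
  have h2 := a12_ray h1 (a12_mem hy)
  have e : Af = fun y : ℂ => ∫ s in (0 : ℝ)..1, y * (2 * (2 - ((s : ℂ) * y) ^ 2) ^ (-((1:ℂ)/2))) := by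
    funext y
    rw [intervalIntegral.integral_const_mul, Af, bf]
    simp only [mul_pow]
  rw [e]
  exact h2

theorem a12_Af_diff : DifferentiableOn ℂ Af (Metric.ball 0 (Real.sqrt 2)) := fun _ hz =>
  (hasDerivAt_Af (a12_mem' hz)).differentiableAt.differentiableWithinAt

theorem hasDerivAt_Lf {y : ℂ} (hy : ‖y‖ ^ 2 < 2) : HasDerivAt Lf (2 * y * Af y) y := by
  have h1 : DifferentiableOn ℂ (fun y : ℂ => 2 * y * Af y) (Metric.ball 0 (Real.sqrt 2)) :=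
    DifferentiableOn.mul (by fun_prop) a12_Af_diff
  have h2 := a12_ray h1 (a12_mem hy)
  have e : Lf = fun y : ℂ => ∫ s in (0 : ℝ)..1, y * (2 * ((s : ℂ) * y) * Af ((s : ℂ) * y)) := by
    funext y
    rw [Lf, afn, ← intervalIntegral.integral_const_mul]
    congr 1
    funext s
    rw [Af, mul_pow]
    ring
  rw [e]
  exact h2

theorem a12_rr {y : ℂ} (hy : ‖y‖ ^ 2 < 2) :
    (2 - y ^ 2) ^ ((1 : ℂ) / 2) ≠ 0 ∧ ((2 - y ^ 2) ^ ((1 : ℂ) / 2)) ^ 2 = 2 - y ^ 2 ∧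
      (2 - y ^ 2) ^ (-((1 : ℂ) / 2)) = ((2 - y ^ 2) ^ ((1 : ℂ) / 2))⁻¹ := by
  have h0 : (2 - y ^ 2) ≠ 0 := slitPlane_ne_zero (a12_slit (a12_norm_sq hy))
  have h2 : ((2 - y ^ 2) ^ ((1 : ℂ) / 2)) ^ 2 = 2 - y ^ 2 := a12_sq _
  refine ⟨fun h => ?_, h2, Complex.cpow_neg _ _⟩
  rw [h] at h2
  exact h0 (by rw [← h2]; ring)

theorem hasDerivAt_Uf {y : ℂ} (hy : ‖y‖ ^ 2 < 2) : HasDerivAt Uf ((2 - 2 * y ^ 2) * (2 - y ^ 2) ^ (-((1:ℂ)/2))) y := by
  obtain ⟨h0, h2, h3⟩ := a12_rr hy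
  have h4 := (hasDerivAt_id y).mul (a12_pow_deriv hy ((1 : ℂ) / 2))
  have e : ((1 : ℂ) / 2 - 1) = -((1 : ℂ) / 2) := by norm_num
  rw [e, h3] at h4
  rw [h3]
  refine h4.congr_deriv ?_
  simp only [id]
  set R := (2 - y ^ 2) ^ ((1 : ℂ) / 2)
  field_simp
  linear_combination h2

theorem hasDerivAt_Wf {y : ℂ} (hy : ‖y‖ ^ 2 < 2) : HasDerivAt Wf (4 * y ^ 2 * (2 - y ^ 2) ^ ((1:ℂ)/2)) y := by
  obtain ⟨h0, h2, h3⟩ := a12_rr hy
  have h5 : HasDerivAt (fun y : ℂ => 1 - y ^ 2) (-(2 * y)) y := by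
    have h6 := (hasDerivAt_pow 2 y).const_sub (1 : ℂ)
    simpa using h6
  have h4 := (hasDerivAt_Af hy).sub (h5.mul (hasDerivAt_Uf hy))
  rw [h3] at h4
  refine h4.congr_deriv ?_
  rw [Uf]
  set R := (2 - y ^ 2) ^ ((1 : ℂ) / 2)
  field_simp
  linear_combination (-2 * y ^ 2) * h2

theorem Lf_eq {y : ℂ} (hy : ‖y‖ ^ 2 < 2) : Lf y = Uf y - (1 - y ^ 2) * Af y := by
  have hd : ∀ z ∈ Metric.ball (0 : ℂ) (Real.sqrt 2),
      HasDerivAt (fun y => Uf y - (1 - y ^ 2) * Af y) (2 * z * Af z) z := by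
    intro z hz
    have hz' := a12_mem' hz
    obtain ⟨h0, h2, h3⟩ := a12_rr hz'
    have h5 : HasDerivAt (fun y : ℂ => 1 - y ^ 2) (-(2 * z)) z := by
      have h6 := (hasDerivAt_pow 2 z).const_sub (1 : ℂ)
      simpa using h6
    have h4 := (hasDerivAt_Uf hz').sub (h5.mul (hasDerivAt_Af hz'))
    refine h4.congr_deriv ?_
    ring
  have h1 : EqOn Lf (fun y => Uf y - (1 - y ^ 2) * Af y) (Metric.ball (0 : ℂ) (Real.sqrt 2)) := by
    refine Metric.isOpen_ball.eqOn_of_deriv_eq (convex_ball _ _).isPreconnected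
      (fun z hz => (hasDerivAt_Lf (a12_mem' hz)).differentiableAt.differentiableWithinAt)
      (fun z hz => (hd z hz).differentiableAt.differentiableWithinAt)
      (fun z hz => ?_) (x := 0) (Metric.mem_ball_self (by positivity)) ?_
    · rw [(hasDerivAt_Lf (a12_mem' hz)).deriv, (hd z hz).deriv]
    · simp [Lf, Uf, Af]
  exact h1 (a12_mem hy)

theorem Uf_sq {y : ℂ} (hy : ‖y‖ ^ 2 < 2) : Uf y ^ 2 = y ^ 2 * (2 - y ^ 2) := by
  rw [Uf, mul_pow, (a12_rr hy).2.1]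

end FB
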