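import Pool.Agent.H48.FB.BDefs
import Pool.Agent.H48.FB.A01

/-! B00: monotonicity of the structures (proved). -/

open Complex Set MeasureTheory Filter Topology

namespace FB

theorem NB.mono {c c' a a' b b' : ℝ} {Z X : ℂ → ℂ} (h : NB c a b Z X) (hc : c ≤ c') (ha : a ≤ a') (hb : b' ≤ b) :
    NB c' a' b' Z X where
  dZ := h.dZ.mono (band_subset ha hb)
  dX := h.dX.mono (band_subset ha hb)
  z0 := fun z hz => (h.z0 z (band_subset ha hb hz)).trans hc
  x0 := fun z hz => (h.x0 z (band_subset ha hb hz)).trans hc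
  z1 := fun z hz => (h.z1 z (band_subset ha hb hz)).trans hc
  x1 := fun z hz => (h.x1 z (band_subset ha hb hz)).trans hc

theorem Sym.mono {r r' : ℝ} {Z X : ℂ → ℂ} (h : Sym r Z X) (hr : r' ≤ r) : Sym r' Z X where
  eZ := fun z hz => h.eZ z (band_subset (by linarith) hr hz)
  oX := fun z hz => h.oX z (band_subset (by linarith) hr hz)
  aZ := fun z hz => h.aZ z (band_subset (by linarith) hr hz)
  aX := fun z hz => h.aX z (band_subset (by linarith) hr hz)

theorem RealC.mono {r r' : ℝ} {Z X : ℂ → ℂ} (h : RealC r Z X) (hr : r' ≤ r) : RealC r' Z X where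
  rZ := fun z hz => h.rZ z (band_subset (by linarith) hr hz)
  rX := fun z hz => h.rX z (band_subset (by linarith) hr hz)

theorem DirBd.mono {d d' a a' b b' : ℝ} {A B : ℂ → ℂ} (h : DirBd d a b A B) (hd : d ≤ d') (ha : a ≤ a') (hb : b' ≤ b) :
    DirBd d' a' b' A B where
  dA := h.dA.mono (band_subset ha hb)
  dB := h.dB.mono (band_subset ha hb)
  a0 := fun z hz => (h.a0 z (band_subset ha hb hz)).trans hd
  b0 := fun z hz => (h.b0 z (band_subset ha hb hz)).trans hd
  a1 := fun z hz => (h.a1 z (band_subset ha hb hz)).trans hd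
  b1 := fun z hz => (h.b1 z (band_subset ha hb hz)).trans hd

theorem Sym.aper {r : ℝ} {Z X : ℂ → ℂ} (h : Sym r Z X) {a b : ℝ} (ha : -r ≤ a) (hb : b ≤ r) : APer a b Z X where
  z := fun z hz => h.aZ z (band_subset ha hb hz)
  x := fun z hz => h.aX z (band_subset ha hb hz)

theorem ureal_of {r : ℝ} {Z X : ℂ → ℂ} (h : Sym r Z X) (h' : RealC r Z X) {a b : ℝ} (ha : -r ≤ a) (hb : b ≤ r) :
    UReal a b Z X where
  z := fun z hz => by
    have hz' : z ∈ strip r := band_subset ha hb hz
    have hc : (starRingEnd ℂ) z ∈ strip r := by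
      obtain ⟨h1, h2⟩ := hz'
      constructor <;> simp only [conj_im] <;> linarith
    rw [h.eZ _ hc, h'.rZ _ hz']
  x := fun z hz => by
    have hz' : z ∈ strip r := band_subset ha hb hz
    have hc : (starRingEnd ℂ) z ∈ strip r := by
      obtain ⟨h1, h2⟩ := hz'
      constructor <;> simp only [conj_im] <;> linarith
    rw [h.oX _ hc, h'.rX _ hz']

/-- the circle is a curve of the class -/
theorem NB_circle (a b : ℝ) : NB 0 a b cos sin where
  dZ := differentiable_cos.differentiableOn
  dX := differentiable_sin.differentiableOn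
  z0 := fun z _ => by simp
  x0 := fun z _ => by simp
  z1 := fun z _ => by rw [Complex.deriv_cos]; simp
  x1 := fun z _ => by rw [Complex.deriv_sin]; simp
theorem Sym_circle (r : ℝ) : Sym r cos sin where
  eZ := fun z _ => Complex.cos_neg z
  oX := fun z _ => Complex.sin_neg z
  aZ := fun z _ => Complex.cos_add_pi z
  aX := fun z _ => Complex.sin_add_pi z
theorem RealC_circle (r : ℝ) : RealC r cos sin where
  rZ := fun z _ => Complex.cos_conj z
  rX := fun z _ => Complex.sin_conj z

end FB
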