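import Pool.Agent.H48.FB.HDefs

/-! H00: numerical facts about the interval `JJ`. -/

open Set

namespace FB

private theorem cos_118 : (0.378 : ℝ) < Real.cos 1.18 := by
  have h0 : (1 - (0.1475:ℝ) ^ 2 / 2) ≤ Real.cos 0.1475 := Real.one_sub_sq_div_two_le_cos
  have e1 : Real.cos 0.295 = 2 * Real.cos 0.1475 ^ 2 - 1 := by
    rw [← Real.cos_two_mul]; norm_num
  have e2 : Real.cos 0.59 = 2 * Real.cos 0.295 ^ 2 - 1 := by
    rw [← Real.cos_two_mul]; norm_num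
  have e3 : Real.cos 1.18 = 2 * Real.cos 0.59 ^ 2 - 1 := by
    rw [← Real.cos_two_mul]; norm_num
  have h1 : (0.9567:ℝ) ≤ Real.cos 0.295 := by
    rw [e1]
    have : (0.98912:ℝ) ≤ Real.cos 0.1475 := by
      refine le_trans ?_ h0
      norm_num
    nlinarith
  have h2 : (0.8305:ℝ) ≤ Real.cos 0.59 := by
    rw [e2]
    nlinarith
  rw [e3]
  nlinarith

private theorem cos_119 : Real.cos 1.19 < (0.3779 : ℝ) := by
  have h0 := Real.cos_bound (x := 0.14875) (by rw [abs_of_pos] <;> norm_num)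
  have p1 : 0 < Real.cos 0.14875 := Real.cos_pos_of_le_one (by rw [abs_of_pos] <;> norm_num)
  have p2 : 0 < Real.cos 0.2975 := Real.cos_pos_of_le_one (by rw [abs_of_pos] <;> norm_num)
  have p3 : 0 < Real.cos 0.595 := Real.cos_pos_of_le_one (by rw [abs_of_pos] <;> norm_num)
  have e1 : Real.cos 0.2975 = 2 * Real.cos 0.14875 ^ 2 - 1 := by
    rw [← Real.cos_two_mul]; norm_num
  have e2 : Real.cos 0.595 = 2 * Real.cos 0.2975 ^ 2 - 1 := by
    rw [← Real.cos_two_mul]; norm_num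
  have e3 : Real.cos 1.19 = 2 * Real.cos 0.595 ^ 2 - 1 := by
    rw [← Real.cos_two_mul]; norm_num
  have h0' : Real.cos 0.14875 ≤ 0.98897 := by
    have := (abs_le.1 h0).2
    rw [abs_of_pos (by norm_num : (0:ℝ) < 0.14875)] at this
    have e : (0.14875:ℝ) ^ 4 * (5 / 96) ≤ 0.000026 := by norm_num
    have e' : (1 - (0.14875:ℝ) ^ 2 / 2) ≤ 0.988937 := by norm_num
    linarith
  have h1 : Real.cos 0.2975 ≤ (0.95613:ℝ) := by
    rw [e1]
    nlinarith
  have h2 : Real.cos 0.595 ≤ (0.82838:ℝ) := by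
    rw [e2]
    nlinarith
  rw [e3]
  nlinarith

private theorem sqrt7 : (0.3779 : ℝ) < 1 / Real.sqrt 7 ∧ 1 / Real.sqrt 7 < (0.378 : ℝ) := by
  have h1 : Real.sqrt 7 < 2.6459 := by
    rw [Real.sqrt_lt' (by norm_num)]; norm_num
  have h2 : 2.6456 < Real.sqrt 7 := by
    rw [Real.lt_sqrt (by norm_num)]; norm_num
  constructor
  · rw [lt_div_iff₀ (by linarith)]
    nlinarith
  · rw [div_lt_iff₀ (by linarith)]
    nlinarith

/-- `al0 = arccos (1/sqrt 7) = 1.18319...`; `JJ = [al0 - 1/100, al0 + 1/100]`.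
Proof hints: `cos` is strictly antitone on `[0, pi]`; bound `cos 1.18`, `cos 1.19` by Taylor polynomials
(`Real.cos_bound`, or `cos x = 2 cos (x/2)^2 - 1` with `Real.cos_bound` at `x/2`, or
use `Real.cos_le_one_sub_mul_cos_sq`...), and compare with `1/sqrt 7 = 0.37796...`.
For `al ∈ JJ`: `|cos al - cos al0| ≤ 1/100` and `sin al ^ 2 = 1 - cos al ^ 2`. -/
theorem al0_bounds : 1.18 < al0 ∧ al0 < 1.19 ∧ Real.cos al0 = 1 / Real.sqrt 7 ∧
    (Real.sin al0) ^ 2 = 6 / 7 ∧ 0 < Real.sin al0 ∧ al0 < Real.pi / 2 := by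
  obtain ⟨s1, s2⟩ := sqrt7
  have hc : Real.cos al0 = 1 / Real.sqrt 7 := by
    unfold al0
    exact Real.cos_arccos (by linarith) (by linarith)
  have hn : 0 ≤ al0 := Real.arccos_nonneg _
  have hp : al0 ≤ Real.pi := Real.arccos_le_pi _
  have hpi := Real.pi_gt_three
  have h1 : 1.18 < al0 := by
    by_contra h
    push Not at h
    have := Real.cos_le_cos_of_nonneg_of_le_pi hn (by linarith) h
    linarith [cos_118]
  have h2 : al0 < 1.19 := by
    by_contra h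
    push Not at h
    have := Real.cos_le_cos_of_nonneg_of_le_pi (by norm_num : (0:ℝ) ≤ 1.19) hp h
    linarith [cos_119]
  refine ⟨h1, h2, hc, ?_, ?_, by linarith⟩
  · rw [Real.sin_sq, hc, div_pow, Real.sq_sqrt (by norm_num)]
    norm_num
  · exact Real.sin_pos_of_pos_of_lt_pi (by linarith) (by linarith)

theorem JJ_bounds {al : ℝ} (h : al ∈ JJ) : 1.17 < al ∧ al < 1.2 ∧ al < Real.pi / 2 ∧
    0.36 < Real.cos al ∧ Real.cos al < 0.39 ∧ 0.92 < Real.sin al ∧ Real.sin al < 0.94 := by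
  obtain ⟨s1, s2⟩ := sqrt7
  obtain ⟨a1, a2, hc, _, _, _⟩ := al0_bounds
  obtain ⟨h1, h2⟩ := h
  have hpi := Real.pi_gt_three
  have l1 : 1.17 < al := by linarith
  have l2 : al < 1.2 := by linarith
  have hd : |Real.cos al - Real.cos al0| ≤ 1 / 100 := by
    refine le_trans (Real.abs_cos_sub_cos_le al al0) ?_
    rw [abs_le]
    constructor <;> linarith
  rw [abs_le, hc] at hd
  have hs : 0 < Real.sin al := Real.sin_pos_of_pos_of_lt_pi (by linarith) (by linarith)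
  have hss := Real.sin_sq_add_cos_sq al
  refine ⟨l1, l2, by linarith, by linarith, by linarith, ?_, ?_⟩
  · nlinarith
  · nlinarith

/-- `sin (2 k al0) ≠ 0` quantitatively. `exp (2 i al0) = (-5 + 2 sqrt 6 i)/7`. Write
`(-5 + 2 sqrt(-6))^k = a_k + b_k sqrt(-6)` with integers `a_k, b_k`:
`a_{k+1} = -5 a_k - 12 b_k`, `b_{k+1} = 2 a_k - 5 b_k`, so `b_{k+2} = -10 b_{k+1} - 49 b_k`, `b_0 = 0`, `b_1 = 2`;
hence `b_k ≡ 2 (-3)^{k-1} ≢ 0 mod 7` for `k ≥ 1`, so `|b_k| ≥ 1`, and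
`sin (2 k al0) = sqrt 6 * b_k / 7^k`. -/
theorem sin_al0_lower (k : ℕ) (hk : 1 ≤ k) : 2 / 7 ^ k ≤ |Real.sin (2 * k * al0)| := by
  obtain ⟨a1, a2, hc, hs2, hs, _⟩ := al0_bounds
  have hsin : Real.sin al0 = Real.sqrt 6 / Real.sqrt 7 := by
    rw [← Real.sqrt_div (by norm_num), ← hs2, Real.sqrt_sq hs.le]
  have h7 : Real.sqrt 7 ^ 2 = 7 := Real.sq_sqrt (by norm_num)
  have h6 : Real.sqrt 6 ^ 2 = 6 := Real.sq_sqrt (by norm_num)
  have h70 : Real.sqrt 7 ≠ 0 := by positivity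
  have c2 : Real.cos (2 * al0) = -5 / 7 := by
    rw [Real.cos_two_mul, hc, div_pow, h7]; norm_num
  have s2 : Real.sin (2 * al0) = 2 * Real.sqrt 6 / 7 := by
    rw [Real.sin_two_mul, hc, hsin]
    field_simp
    rw [h7]
  have key : ∃ a b : ℤ, (7:ℝ) ^ k * Real.cos (2 * k * al0) = a ∧ (7:ℝ) ^ k * Real.sin (2 * k * al0) = Real.sqrt 6 * b ∧
      (7:ℤ) ∣ a - b ∧ ¬ (7:ℤ) ∣ b := by
    induction k, hk using Nat.le_induction with
    | base =>
      refine ⟨-5, 2, ?_, ?_, ?_, ?_⟩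
      · simp only [Nat.cast_one, mul_one, pow_one]
        rw [c2]; norm_num
      · simp only [Nat.cast_one, mul_one, pow_one]
        rw [s2]; push_cast; ring
      · norm_num
      · norm_num
    | succ n hn ih =>
      obtain ⟨a, b, ha, hb, hab, hnb⟩ := ih
      have e : (2 * ((n + 1 : ℕ) : ℝ) * al0) = 2 * (n:ℝ) * al0 + 2 * al0 := by push_cast; ring
      refine ⟨-5 * a - 12 * b, 2 * a - 5 * b, ?_, ?_, ?_, ?_⟩
      · rw [e, Real.cos_add, c2, s2]
        push_cast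
        rw [pow_succ]
        have : (7:ℝ) ^ n * 7 * (Real.cos (2 * (n:ℝ) * al0) * (-5 / 7) - Real.sin (2 * (n:ℝ) * al0) * (2 * Real.sqrt 6 / 7))
            = -5 * ((7:ℝ) ^ n * Real.cos (2 * (n:ℝ) * al0)) - 2 * Real.sqrt 6 * ((7:ℝ) ^ n * Real.sin (2 * (n:ℝ) * al0)) := by
          ring
        rw [this, ha, hb]
        have : 2 * Real.sqrt 6 * (Real.sqrt 6 * (b:ℝ)) = 2 * (Real.sqrt 6 ^ 2) * b := by ring
        rw [this, h6]
        ring
      · rw [e, Real.sin_add, c2, s2]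
        push_cast
        rw [pow_succ]
        have : (7:ℝ) ^ n * 7 * (Real.sin (2 * (n:ℝ) * al0) * (-5 / 7) + Real.cos (2 * (n:ℝ) * al0) * (2 * Real.sqrt 6 / 7))
            = -5 * ((7:ℝ) ^ n * Real.sin (2 * (n:ℝ) * al0)) + 2 * Real.sqrt 6 * ((7:ℝ) ^ n * Real.cos (2 * (n:ℝ) * al0)) := by
          ring
        rw [this, ha, hb]
        ring
      · omega
      · omega
  obtain ⟨a, b, _, hb, _, hnb⟩ := key
  have hb0 : b ≠ 0 := by
    rintro rfl
    exact hnb (dvd_zero _)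
  have hb1 : (1:ℝ) ≤ |(b:ℝ)| := by
    have : (1:ℤ) ≤ |b| := Int.one_le_abs hb0
    exact_mod_cast this
  have h7k : (0:ℝ) < 7 ^ k := by positivity
  have e : Real.sin (2 * k * al0) = Real.sqrt 6 * b / 7 ^ k := by
    rw [eq_div_iff h7k.ne', ← hb]; ring
  rw [e, abs_div, abs_mul, abs_of_pos h7k, abs_of_nonneg (Real.sqrt_nonneg 6)]
  have h62 : (2:ℝ) ≤ Real.sqrt 6 := by
    exact (Real.le_sqrt' (by norm_num : (0:ℝ) < 2)).2 (by norm_num)
  gcongr
  nlinarith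

end FB
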