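import Pool.Agent.H48.FB.BDefs
import Pool.Agent.H48.FB.A01
import Pool.Agent.H48.FB.H00

/-! B01: closeness of the chord quantities (real `s`). -/

open Complex Set MeasureTheory Filter Topology

noncomputable section

namespace FB

/-! ### elementary facts on complex sine and cosine -/

theorem b01_norm_exp_I (z : ℂ) : ‖exp (z * I)‖ ≤ Real.exp |z.im| := by
  rw [Complex.norm_exp]
  refine Real.exp_le_exp.2 ?_
  have : (z * I).re = -z.im := by simp
  rw [this]
  exact neg_le_abs _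

theorem b01_norm_exp_negI (z : ℂ) : ‖exp (-z * I)‖ ≤ Real.exp |z.im| := by
  have := b01_norm_exp_I (-z)
  simpa using this

theorem b01_norm_cos (z : ℂ) : ‖cos z‖ ≤ Real.exp |z.im| := by
  rw [Complex.cos, norm_div, Complex.norm_ofNat]
  have h1 := norm_add_le (exp (z * I)) (exp (-z * I))
  have h2 := b01_norm_exp_I z
  have h3 := b01_norm_exp_negI z
  rw [div_le_iff₀ (by norm_num)]
  linarith

theorem b01_norm_sin (z : ℂ) : ‖sin z‖ ≤ Real.exp |z.im| := by
  rw [Complex.sin, norm_div, Complex.norm_ofNat, norm_mul, Complex.norm_I, mul_one]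
  have h1 := norm_sub_le (exp (-z * I)) (exp (z * I))
  have h2 := b01_norm_exp_I z
  have h3 := b01_norm_exp_negI z
  rw [div_le_iff₀ (by norm_num)]
  linarith

theorem b01_sin_sq (z : ℂ) : ‖sin z‖ ^ 2 = Real.sin z.re ^ 2 + Real.sinh z.im ^ 2 := by
  have h1 : sin z = ((Real.sin z.re * Real.cosh z.im : ℝ) : ℂ) +
      ((Real.cos z.re * Real.sinh z.im : ℝ) : ℂ) * I := by
    rw [Complex.sin_eq z]
    push_cast
    ring
  rw [← Complex.normSq_eq_norm_sq, h1, Complex.normSq_add_mul_I]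
  have h2 := Real.cosh_sq z.im
  have h3 := Real.sin_sq_add_cos_sq z.re
  calc (Real.sin z.re * Real.cosh z.im) ^ 2 + (Real.cos z.re * Real.sinh z.im) ^ 2
      = Real.sin z.re ^ 2 * Real.cosh z.im ^ 2 + Real.cos z.re ^ 2 * Real.sinh z.im ^ 2 := by ring
    _ = Real.sin z.re ^ 2 +
        (Real.sin z.re ^ 2 + Real.cos z.re ^ 2) * Real.sinh z.im ^ 2 := by rw [h2]; ring
    _ = Real.sin z.re ^ 2 + Real.sinh z.im ^ 2 := by rw [h3]; ring

theorem b01_sin_lower (z : ℂ) : |z.im| ≤ ‖sin z‖ := by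
  have h1 := b01_sin_sq z
  have h2 : z.im ^ 2 ≤ Real.sinh z.im ^ 2 := by
    rw [sq_le_sq]
    rcases le_total 0 z.im with h | h
    · have h3 := Real.self_le_sinh_iff.2 h
      rw [abs_of_nonneg h, abs_of_nonneg (h.trans h3)]
      exact h3
    · have h3 := Real.sinh_le_self_iff.2 h
      rw [abs_of_nonpos h, abs_of_nonpos (h3.trans h)]
      linarith
  refine le_of_sq_le_sq ?_ (norm_nonneg _)
  rw [sq_abs, h1]
  nlinarith [sq_nonneg (Real.sin z.re)]

/-- lower bound of the sine near the real zeros -/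
theorem b01_sin_lower' {z : ℂ} (h : |z.re| ≤ Real.pi / 2) : 2 / Real.pi * ‖z‖ ≤ ‖sin z‖ := by
  have h1 := b01_sin_sq z
  have hpi := Real.pi_gt_three
  have h2 : z.im ^ 2 ≤ Real.sinh z.im ^ 2 := by
    rw [sq_le_sq]
    rcases le_total 0 z.im with h | h
    · have h3 := Real.self_le_sinh_iff.2 h
      rw [abs_of_nonneg h, abs_of_nonneg (h.trans h3)]
      exact h3
    · have h3 := Real.sinh_le_self_iff.2 h
      rw [abs_of_nonpos h, abs_of_nonpos (h3.trans h)]
      linarith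
  have h3 : (2 / Real.pi * |z.re|) ^ 2 ≤ Real.sin z.re ^ 2 := by
    have h4 := Real.mul_le_sin (abs_nonneg z.re) h
    have h5 : Real.sin |z.re| ^ 2 = Real.sin z.re ^ 2 := by
      rcases abs_choice z.re with h | h <;> rw [h]
      rw [Real.sin_neg, neg_sq]
    rw [← h5]
    exact pow_le_pow_left₀ (by positivity) h4 2
  have h6 : ‖z‖ ^ 2 = z.re ^ 2 + z.im ^ 2 := by
    rw [← Complex.normSq_eq_norm_sq, Complex.normSq_apply]
    ring
  have h7 : (2 / Real.pi) ^ 2 ≤ 1 := by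
    have : 2 / Real.pi ≤ 1 := by
      rw [div_le_one (by linarith)]
      linarith
    have h0 : 0 ≤ 2 / Real.pi := by positivity
    nlinarith
  refine le_of_sq_le_sq ?_ (norm_nonneg _)
  rw [h1, mul_pow, h6, mul_add]
  rw [mul_pow, sq_abs] at h3
  have h8 : (2 / Real.pi) ^ 2 * z.im ^ 2 ≤ 1 * z.im ^ 2 :=
    mul_le_mul_of_nonneg_right h7 (sq_nonneg _)
  linarith

/-- the principal square root has nonnegative real part -/
theorem b01_sqrt_re (z : ℂ) : 0 ≤ (z ^ ((1:ℂ)/2)).re := by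
  by_cases hz : z = 0
  · rw [hz, Complex.zero_cpow (by norm_num)]
    simp
  · rw [Complex.cpow_def_of_ne_zero hz, Complex.exp_re]
    refine mul_nonneg (Real.exp_nonneg _) (Real.cos_nonneg_of_mem_Icc ?_)
    have h1 : (log z * (1 / 2)).im = arg z / 2 := by
      simp [Complex.mul_im, Complex.log_im]
      ring
    rw [h1]
    have h2 := Complex.neg_pi_lt_arg z
    have h3 := Complex.arg_le_pi z
    constructor <;> linarith

theorem b01_sqrt_sq (z : ℂ) : (z ^ ((1:ℂ)/2)) ^ 2 = z := by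
  have := Complex.cpow_nat_inv_pow z (n := 2) (by norm_num)
  rw [one_div]
  exact_mod_cast this

/-- the square root is close to a positive number -/
theorem b01_sqrt_close {z : ℂ} {σ d : ℝ} (hσ : 0 < σ) (h : ‖z - (σ:ℂ) ^ 2‖ ≤ d) :
    ‖z ^ ((1:ℂ)/2) - (σ:ℂ)‖ ≤ d / σ := by
  set w := z ^ ((1:ℂ)/2) with hw
  have h1 : w ^ 2 = z := b01_sqrt_sq z
  have h2 : (w - σ) * (w + σ) = z - (σ:ℂ) ^ 2 := by rw [← h1]; ring
  have h3 : σ ≤ ‖w + (σ:ℂ)‖ := by
    have h4 : (w + (σ:ℂ)).re ≤ ‖w + (σ:ℂ)‖ := Complex.re_le_norm _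
    have h5 : (w + (σ:ℂ)).re = w.re + σ := by simp
    have h6 := b01_sqrt_re z
    rw [← hw] at h6
    linarith
  have h4 : ‖w - σ‖ * σ ≤ d := by
    calc ‖w - σ‖ * σ ≤ ‖w - σ‖ * ‖w + σ‖ := mul_le_mul_of_nonneg_left h3 (norm_nonneg _)
      _ = ‖z - (σ:ℂ) ^ 2‖ := by rw [← norm_mul, h2]
      _ ≤ d := h
  rwa [le_div_iff₀ hσ]

/-- two close products -/
theorem b01_prod {x y x0 y0 : ℂ} {c E : ℝ} (hx : ‖x - x0‖ ≤ c) (hy : ‖y - y0‖ ≤ c)
    (hx0 : ‖x0‖ ≤ E) (hy0 : ‖y0‖ ≤ E) (hc : 0 ≤ c) (hc1 : c ≤ 1) (hE : 0 ≤ E) :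
    ‖x * y - x0 * y0‖ ≤ c * (2 * E + 1) := by
  have h1 : x * y - x0 * y0 = (x - x0) * (y - y0) + (x - x0) * y0 + x0 * (y - y0) := by ring
  rw [h1]
  refine (norm_add₃_le).trans ?_
  rw [norm_mul, norm_mul, norm_mul]
  have h2 : ‖x - x0‖ * ‖y - y0‖ ≤ c * 1 := mul_le_mul hx (hy.trans hc1) (norm_nonneg _) hc
  have h3 : ‖x - x0‖ * ‖y0‖ ≤ c * E := mul_le_mul hx hy0 (norm_nonneg _) hc
  have h4 : ‖x0‖ * ‖y - y0‖ ≤ E * c := mul_le_mul hx0 hy (norm_nonneg _) hE
  linarith

/-! ### the core estimate -/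

theorem b01_half {x y x0 y0 : ℂ} {c : ℝ} (hx : ‖x - x0‖ ≤ c) (hy : ‖y - y0‖ ≤ c) :
    ‖(x - y) / 2 - (x0 - y0) / 2‖ ≤ c ∧ ‖(x + y) / 2 - (x0 + y0) / 2‖ ≤ c := by
  constructor
  · have h1 : (x - y) / 2 - (x0 - y0) / 2 = ((x - x0) - (y - y0)) / 2 := by ring
    rw [h1, norm_div, Complex.norm_ofNat, div_le_iff₀ (by norm_num)]
    have := norm_sub_le (x - x0) (y - y0)
    linarith
  · have h1 : (x + y) / 2 - (x0 + y0) / 2 = ((x - x0) + (y - y0)) / 2 := by ring
    rw [h1, norm_div, Complex.norm_ofNat, div_le_iff₀ (by norm_num)]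
    have := norm_add_le (x - x0) (y - y0)
    linarith

/-- the chord quantities of the circle -/
theorem b01_circle (al : ℝ) (t : ℂ) :
    (sin (t + (al:ℂ)) - sin (t - (al:ℂ))) / 2 = (Real.sin al : ℂ) * cos t ∧
    (cos (t + (al:ℂ)) - cos (t - (al:ℂ))) / 2 = -((Real.sin al : ℂ) * sin t) ∧
    (cos (t + (al:ℂ)) + cos (t - (al:ℂ))) / 2 = (Real.cos al : ℂ) * cos t ∧
    (sin (t + (al:ℂ)) + sin (t - (al:ℂ))) / 2 = (Real.cos al : ℂ) * sin t := by
  rw [Complex.sin_add, Complex.sin_sub, Complex.cos_add, Complex.cos_sub, Complex.ofReal_sin,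
    Complex.ofReal_cos]
  refine ⟨?_, ?_, ?_, ?_⟩ <;> ring

/-- first order chord quantities -/
structure B01Core (c E al : ℝ) (Z X : ℂ → ℂ) (t : ℂ) : Prop where
  nz : ‖nz al X t - (Real.sin al : ℂ) * cos t‖ ≤ c
  nx : ‖nx al Z t - (Real.sin al : ℂ) * sin t‖ ≤ c
  zm : ‖md al Z t - (Real.cos al : ℂ) * cos t‖ ≤ c
  xm : ‖md al X t - (Real.cos al : ℂ) * sin t‖ ≤ c
  c0 : ‖cos t‖ ≤ E
  s0 : ‖sin t‖ ≤ E
  nz0 : ‖(Real.sin al : ℂ) * cos t‖ ≤ E
  nx0 : ‖(Real.sin al : ℂ) * sin t‖ ≤ E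
  zm0 : ‖(Real.cos al : ℂ) * cos t‖ ≤ E
  xm0 : ‖(Real.cos al : ℂ) * sin t‖ ≤ E

theorem b01_real_mul {x : ℝ} (hx : |x| ≤ 1) {w : ℂ} {E : ℝ} (hw : ‖w‖ ≤ E) :
    ‖(x : ℂ) * w‖ ≤ E := by
  rw [norm_mul, Complex.norm_real, Real.norm_eq_abs]
  calc |x| * ‖w‖ ≤ 1 * ‖w‖ := mul_le_mul_of_nonneg_right hx (norm_nonneg _)
    _ ≤ E := by rwa [one_mul]

theorem b01_core {c E a b al : ℝ} {Z X : ℂ → ℂ} (h : NB c a b Z X)
    (hE : ∀ z ∈ band a b, ‖cos z‖ ≤ E ∧ ‖sin z‖ ≤ E) {t : ℂ} (ht : t ∈ band a b) :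
    B01Core c E al Z X t := by
  obtain ⟨e1, e2, e3, e4⟩ := b01_circle al t
  have hP : t + (al:ℂ) ∈ band a b := add_real_mem_band ht al
  have hQ : t - (al:ℂ) ∈ band a b := sub_real_mem_band ht al
  have hX := b01_half (h.x0 _ hP) (h.x0 _ hQ)
  have hZ := b01_half (h.z0 _ hP) (h.z0 _ hQ)
  rw [e1, e4] at hX
  rw [e2, e3] at hZ
  have hs1 : |Real.sin al| ≤ 1 := Real.abs_sin_le_one al
  have hc1 : |Real.cos al| ≤ 1 := Real.abs_cos_le_one al
  refine ⟨hX.1, ?_, hZ.2, hX.2, (hE t ht).1, (hE t ht).2, b01_real_mul hs1 (hE t ht).1,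
    b01_real_mul hs1 (hE t ht).2, b01_real_mul hc1 (hE t ht).1, b01_real_mul hc1 (hE t ht).2⟩
  have h1 : FB.nx al Z t - (Real.sin al : ℂ) * sin t =
      -((Z (t + (al:ℂ)) - Z (t - (al:ℂ))) / 2 - -((Real.sin al : ℂ) * sin t)) := by
    simp only [FB.nx, FB.df]
    ring
  rw [h1, norm_neg]
  exact hZ.1

theorem b01_chordBd {c E a b al K : ℝ} {Z X : ℂ → ℂ} (h : NB c a b Z X)
    (hE : ∀ z ∈ band a b, ‖cos z‖ ≤ E ∧ ‖sin z‖ ≤ E) (hE1 : 1 ≤ E) (hc : 0 ≤ c) (hc1 : c ≤ 1)
    (hal : al ∈ JJ) {t : ℂ} (ht : t ∈ band a b) (hK : 10 * (2 * E + 1) ≤ K)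
    (hnu : ‖nu al Z t - 1‖ ≤ K * c) : ChordBd (K * c) al Z X t := by
  have hE0 : 0 ≤ E := by linarith
  obtain ⟨-, -, -, -, -, hs92, hs94⟩ := JJ_bounds hal
  have h' := b01_core (al := al) h hE ht
  have hP : t + (al:ℂ) ∈ band a b := add_real_mem_band ht al
  have hQ : t - (al:ℂ) ∈ band a b := sub_real_mem_band ht al
  have hsc : cos t ^ 2 + sin t ^ 2 = 1 := Complex.cos_sq_add_sin_sq t
  have h1K : c ≤ K * c := by nlinarith
  have h2K : 2 * (c * (2 * E + 1)) ≤ K * c := by nlinarith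
  have h3K : 3 * (c * (2 * E + 1)) ≤ K * c := by nlinarith
  -- `et`
  have het : ‖et al Z X t - (Real.sin al : ℂ) * (Real.cos al : ℂ)‖ ≤ 2 * (c * (2 * E + 1)) := by
    have e : et al Z X t - (Real.sin al : ℂ) * (Real.cos al : ℂ) =
        (nz al X t * md al Z t - (Real.sin al : ℂ) * cos t * ((Real.cos al : ℂ) * cos t)) +
        (nx al Z t * md al X t - (Real.sin al : ℂ) * sin t * ((Real.cos al : ℂ) * sin t)) := by
      simp only [FB.et]
      linear_combination (Real.sin al : ℂ) * (Real.cos al : ℂ) * hsc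
    rw [e]
    refine (norm_add_le _ _).trans ?_
    have := b01_prod h'.nz h'.zm h'.nz0 h'.zm0 hc hc1 hE0
    have := b01_prod h'.nx h'.xm h'.nx0 h'.xm0 hc hc1 hE0
    linarith
  -- `l2`
  have hl2 : ‖(nz al X t) ^ 2 + (nx al Z t) ^ 2 - (Real.sin al : ℂ) ^ 2‖ ≤
      2 * (c * (2 * E + 1)) := by
    have e : (nz al X t) ^ 2 + (nx al Z t) ^ 2 - (Real.sin al : ℂ) ^ 2 =
        (nz al X t * nz al X t - (Real.sin al : ℂ) * cos t * ((Real.sin al : ℂ) * cos t)) +
        (nx al Z t * nx al Z t - (Real.sin al : ℂ) * sin t * ((Real.sin al : ℂ) * sin t)) := by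
      linear_combination (Real.sin al : ℂ) ^ 2 * hsc
    rw [e]
    refine (norm_add_le _ _).trans ?_
    have := b01_prod h'.nz h'.nz h'.nz0 h'.nz0 hc hc1 hE0
    have := b01_prod h'.nx h'.nx h'.nx0 h'.nx0 hc hc1 hE0
    linarith
  have hσ : 0 < Real.sin al := by linarith
  have hσ2 : 0.8 ≤ Real.sin al ^ 2 := by nlinarith
  -- derivative terms
  have hsP : ‖-sin (t + (al:ℂ))‖ ≤ E := by rw [norm_neg]; exact (hE _ hP).2
  have hsQ : ‖-sin (t - (al:ℂ))‖ ≤ E := by rw [norm_neg]; exact (hE _ hQ).2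
  have hzP : ‖deriv Z (t + (al:ℂ)) - -sin (t + (al:ℂ))‖ ≤ c := by
    rw [sub_neg_eq_add]; exact h.z1 _ hP
  have hzQ : ‖deriv Z (t - (al:ℂ)) - -sin (t - (al:ℂ))‖ ≤ c := by
    rw [sub_neg_eq_add]; exact h.z1 _ hQ
  have hcp : ‖nz al X t * deriv Z (t + (al:ℂ)) + nx al Z t * deriv X (t + (al:ℂ)) +
      (Real.sin al : ℂ) ^ 2‖ ≤ 2 * (c * (2 * E + 1)) := by
    have e0 : (Real.sin al : ℂ) = cos t * sin (t + (al:ℂ)) - sin t * cos (t + (al:ℂ)) := by
      rw [Complex.sin_add, Complex.cos_add, Complex.ofReal_sin]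
      linear_combination (-Complex.sin (al:ℂ)) * hsc
    have e : nz al X t * deriv Z (t + (al:ℂ)) + nx al Z t * deriv X (t + (al:ℂ)) +
        (Real.sin al : ℂ) ^ 2 =
        (nz al X t * deriv Z (t + (al:ℂ)) -
          (Real.sin al : ℂ) * cos t * (-sin (t + (al:ℂ)))) +
        (nx al Z t * deriv X (t + (al:ℂ)) -
          (Real.sin al : ℂ) * sin t * cos (t + (al:ℂ))) := by
      linear_combination (Real.sin al : ℂ) * e0
    rw [e]
    refine (norm_add_le _ _).trans ?_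
    have := b01_prod h'.nz hzP h'.nz0 hsP hc hc1 hE0
    have := b01_prod h'.nx (h.x1 _ hP) h'.nx0 (hE _ hP).1 hc hc1 hE0
    linarith
  have hcm : ‖nz al X t * deriv Z (t - (al:ℂ)) + nx al Z t * deriv X (t - (al:ℂ)) -
      (Real.sin al : ℂ) ^ 2‖ ≤ 2 * (c * (2 * E + 1)) := by
    have e0 : (Real.sin al : ℂ) = -(cos t * sin (t - (al:ℂ))) + sin t * cos (t - (al:ℂ)) := by
      rw [Complex.sin_sub, Complex.cos_sub, Complex.ofReal_sin]
      linear_combination (-Complex.sin (al:ℂ)) * hsc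
    have e : nz al X t * deriv Z (t - (al:ℂ)) + nx al Z t * deriv X (t - (al:ℂ)) -
        (Real.sin al : ℂ) ^ 2 =
        (nz al X t * deriv Z (t - (al:ℂ)) -
          (Real.sin al : ℂ) * cos t * (-sin (t - (al:ℂ)))) +
        (nx al Z t * deriv X (t - (al:ℂ)) -
          (Real.sin al : ℂ) * sin t * cos (t - (al:ℂ))) := by
      linear_combination (-(Real.sin al : ℂ)) * e0
    rw [e]
    refine (norm_add_le _ _).trans ?_
    have := b01_prod h'.nz hzQ h'.nz0 hsQ hc hc1 hE0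
    have := b01_prod h'.nx (h.x1 _ hQ) h'.nx0 (hE _ hQ).1 hc hc1 hE0
    linarith
  have hsc2 : ((Real.sin al : ℂ)) ^ 2 ≠ 0 := pow_ne_zero _ (Complex.ofReal_ne_zero.2 hσ.ne')
  have hns2 : ‖((Real.sin al : ℂ)) ^ 2‖ = Real.sin al ^ 2 := by
    rw [norm_pow, Complex.norm_real, Real.norm_eq_abs, abs_of_pos hσ]
  refine ⟨h'.nz.trans h1K, h'.nx.trans h1K, h'.zm.trans h1K, h'.xm.trans h1K, het.trans h2K,
    hl2.trans h2K, ?_, hnu, ?_, ?_⟩
  · refine (b01_sqrt_close hσ hl2).trans ?_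
    rw [div_le_iff₀ hσ]
    have h0 : 0 ≤ c * (2 * E + 1) := by positivity
    nlinarith
  · have e : chip al Z X t - 1 = -((nz al X t * deriv Z (t + (al:ℂ)) +
        nx al Z t * deriv X (t + (al:ℂ)) + (Real.sin al : ℂ) ^ 2) / (Real.sin al : ℂ) ^ 2) := by
      simp only [FB.chip]
      rw [div_sub_one hsc2, neg_div', ← sub_eq_zero]
      field_simp
      ring
    rw [e, norm_neg, norm_div, hns2, div_le_iff₀ (by linarith)]
    have h0 : 0 ≤ c * (2 * E + 1) := by positivity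
    nlinarith
  · have e : chim al Z X t - 1 = (nz al X t * deriv Z (t - (al:ℂ)) +
        nx al Z t * deriv X (t - (al:ℂ)) - (Real.sin al : ℂ) ^ 2) / (Real.sin al : ℂ) ^ 2 := by
      simp only [FB.chim]
      rw [div_sub_one hsc2]
    rw [e, norm_div, hns2, div_le_iff₀ (by linarith)]
    have h0 : 0 ≤ c * (2 * E + 1) := by positivity
    nlinarith

/-! ### the quotient `chi` -/

/-- lower bound of `cos s - cos al` -/
theorem b01_cos_lower {al s : ℝ} (hal : al ∈ JJ) (hs : s ∈ Ioo (-al) al) :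
    0.23 * min (al - s) (s + al) ≤ Real.cos s - Real.cos al := by
  obtain ⟨h117, h12, hpi2, -⟩ := JJ_bounds hal
  have hpi := Real.pi_gt_three
  have hpi' := Real.pi_lt_d2
  have e : Real.cos s - Real.cos al = 2 * (Real.sin ((al + s) / 2) * Real.sin ((al - s) / 2)) := by
    rw [Real.cos_sub_cos]
    rw [show (s + al) / 2 = (al + s) / 2 by ring, show (s - al) / 2 = -((al - s) / 2) by ring,
      Real.sin_neg]
    ring
  have hu0 : 0 ≤ (al + s) / 2 := by linarith [hs.1]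
  have hv0 : 0 ≤ (al - s) / 2 := by linarith [hs.2]
  have hu : 2 / Real.pi * ((al + s) / 2) ≤ Real.sin ((al + s) / 2) :=
    Real.mul_le_sin hu0 (by linarith [hs.2])
  have hv : 2 / Real.pi * ((al - s) / 2) ≤ Real.sin ((al - s) / 2) :=
    Real.mul_le_sin hv0 (by linarith [hs.1])
  have hp : 0.63 ≤ 2 / Real.pi := by
    rw [le_div_iff₀ (by linarith)]
    norm_num at hpi' ⊢
    linarith
  have hu' : 0.63 * ((al + s) / 2) ≤ Real.sin ((al + s) / 2) :=
    (mul_le_mul_of_nonneg_right hp hu0).trans hu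
  have hv' : 0.63 * ((al - s) / 2) ≤ Real.sin ((al - s) / 2) :=
    (mul_le_mul_of_nonneg_right hp hv0).trans hv
  have h1 : 0.63 * ((al + s) / 2) * (0.63 * ((al - s) / 2)) ≤
      Real.sin ((al + s) / 2) * Real.sin ((al - s) / 2) :=
    mul_le_mul hu' hv' (by positivity) (by linarith [mul_nonneg (by norm_num : (0:ℝ) ≤ 0.63) hu0])
  rw [e]
  have h2 : 0.23 * min (al - s) (s + al) ≤ 2 * (0.63 * ((al + s) / 2) * (0.63 * ((al - s) / 2))) := by
    rcases le_total (al - s) (s + al) with h | h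
    · rw [min_eq_left h]
      have : (al + s) ≥ 1.17 := by linarith
      nlinarith
    · rw [min_eq_right h]
      have : (al - s) ≥ 1.17 := by linarith
      nlinarith
  linarith

theorem b01_chi {c E a b al : ℝ} {Z X : ℂ → ℂ} (h : NB c a b Z X)
    (hE : ∀ z ∈ band a b, ‖cos z‖ ≤ E ∧ ‖sin z‖ ≤ E) (hE1 : 1 ≤ E) (hc : 0 ≤ c) (hc1 : c ≤ 1)
    (hal : al ∈ JJ) {t : ℂ} (ht : t ∈ band a b) {s : ℝ} (hs : s ∈ Ioo (-al) al) :
    ‖chi al Z X t (s:ℂ) - 1‖ ≤ 10 * (2 * E + 1) * c := by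
  have hE0 : 0 ≤ E := by linarith
  obtain ⟨-, -, -, -, -, hs92, hs94⟩ := JJ_bounds hal
  have h' := b01_core (al := al) h hE ht
  have hsc : cos t ^ 2 + sin t ^ 2 = 1 := Complex.cos_sq_add_sin_sq t
  set M : ℝ := 2 * (c * (2 * E + 1)) with hM
  -- the difference function
  let G : ℝ → ℂ := fun x => (nz al X t * Z (t + (x:ℂ)) + nx al Z t * X (t + (x:ℂ)) - et al Z X t) -
    (Real.sin al : ℂ) * (cos (x:ℂ) - (Real.cos al : ℂ))
  have hder : ∀ x : ℝ, HasDerivAt G (nz al X t * deriv Z (t + (x:ℂ)) +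
      nx al Z t * deriv X (t + (x:ℂ)) - (Real.sin al : ℂ) * (-sin (x:ℂ))) x := by
    intro x
    have hx : t + (x:ℂ) ∈ band a b := add_real_mem_band ht x
    have hopen := isOpen_band a b
    have hZd : HasDerivAt Z (deriv Z (t + (x:ℂ))) (t + (x:ℂ)) :=
      ((h.dZ _ hx).differentiableAt (hopen.mem_nhds hx)).hasDerivAt
    have hXd : HasDerivAt X (deriv X (t + (x:ℂ))) (t + (x:ℂ)) :=
      ((h.dX _ hx).differentiableAt (hopen.mem_nhds hx)).hasDerivAt
    have hadd : HasDerivAt (fun y : ℝ => t + (y:ℂ)) 1 x := by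
      simpa using (Complex.ofRealCLM.hasDerivAt (x := x)).const_add t
    have h1 : HasDerivAt (fun y : ℝ => Z (t + (y:ℂ))) (deriv Z (t + (x:ℂ))) x := by
      have := HasDerivAt.scomp x hZd hadd
      simpa [Function.comp_def] using this
    have h2 : HasDerivAt (fun y : ℝ => X (t + (y:ℂ))) (deriv X (t + (x:ℂ))) x := by
      have := HasDerivAt.scomp x hXd hadd
      simpa [Function.comp_def] using this
    have h3 : HasDerivAt (fun y : ℝ => cos (y:ℂ)) (-sin (x:ℂ)) x := by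
      have := HasDerivAt.scomp x (Complex.hasDerivAt_cos (x:ℂ))
        (Complex.ofRealCLM.hasDerivAt (x := x))
      simpa [Function.comp_def] using this
    exact (((h1.const_mul _).add (h2.const_mul _)).sub_const _).sub
      ((h3.sub_const _).const_mul _)
  have hbd : ∀ x : ℝ, ‖nz al X t * deriv Z (t + (x:ℂ)) +
      nx al Z t * deriv X (t + (x:ℂ)) - (Real.sin al : ℂ) * (-sin (x:ℂ))‖ ≤ M := by
    intro x
    have hx : t + (x:ℂ) ∈ band a b := add_real_mem_band ht x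
    have e0 : sin (x:ℂ) = cos t * sin (t + (x:ℂ)) - sin t * cos (t + (x:ℂ)) := by
      rw [Complex.sin_add, Complex.cos_add]
      linear_combination (-Complex.sin (x:ℂ)) * hsc
    have e : nz al X t * deriv Z (t + (x:ℂ)) + nx al Z t * deriv X (t + (x:ℂ)) -
        (Real.sin al : ℂ) * (-sin (x:ℂ)) =
        (nz al X t * deriv Z (t + (x:ℂ)) -
          (Real.sin al : ℂ) * cos t * (-sin (t + (x:ℂ)))) +
        (nx al Z t * deriv X (t + (x:ℂ)) -
          (Real.sin al : ℂ) * sin t * cos (t + (x:ℂ))) := by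
      linear_combination (Real.sin al : ℂ) * e0
    rw [e]
    refine (norm_add_le _ _).trans ?_
    have hs' : ‖-sin (t + (x:ℂ))‖ ≤ E := by rw [norm_neg]; exact (hE _ hx).2
    have hz' : ‖deriv Z (t + (x:ℂ)) - -sin (t + (x:ℂ))‖ ≤ c := by
      rw [sub_neg_eq_add]; exact h.z1 _ hx
    have := b01_prod h'.nz hz' h'.nz0 hs' hc hc1 hE0
    have := b01_prod h'.nx (h.x1 _ hx) h'.nx0 (hE _ hx).1 hc hc1 hE0
    simp only [hM]
    linarith
  have hGal : G al = 0 := by
    simp only [G, FB.et, FB.nz, FB.nx, FB.md, FB.df, Complex.ofReal_cos]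
    ring
  have hGal' : G (-al) = 0 := by
    simp only [G, FB.et, FB.nz, FB.nx, FB.md, FB.df, Complex.ofReal_cos, Complex.ofReal_neg,
      Complex.cos_neg, ← sub_eq_add_neg]
    ring
  have hMV : ∀ x y : ℝ, ‖G y - G x‖ ≤ M * |y - x| := by
    intro x y
    have := Convex.norm_image_sub_le_of_norm_hasDerivWithin_le (f := G) (s := univ) (C := M)
      (x := x) (y := y)
      (fun z _ => (hder z).hasDerivWithinAt) (fun z _ => hbd z) convex_univ (mem_univ _)
      (mem_univ _)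
    simpa [Real.norm_eq_abs] using this
  have hGs : ‖G s‖ ≤ M * min (al - s) (s + al) := by
    have hM0 : 0 ≤ M := by positivity
    rcases le_total (al - s) (s + al) with h1 | h1
    · rw [min_eq_left h1]
      have h2 := hMV al s
      rw [hGal, sub_zero, abs_of_nonpos (by linarith [hs.2])] at h2
      linarith
    · rw [min_eq_right h1]
      have h2 := hMV (-al) s
      rw [hGal', sub_zero, abs_of_nonneg (by linarith [hs.1])] at h2
      linarith
  have hlow := b01_cos_lower hal hs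
  have hmin : 0 < min (al - s) (s + al) := lt_min (by linarith [hs.2]) (by linarith [hs.1])
  have hcpos : 0 < Real.cos s - Real.cos al := by
    have : 0 < 0.23 * min (al - s) (s + al) := by positivity
    linarith
  have hcne : (cos (s:ℂ) - (Real.cos al : ℂ)) ≠ 0 := by
    rw [← Complex.ofReal_cos, ← Complex.ofReal_sub]
    exact Complex.ofReal_ne_zero.2 hcpos.ne'
  have hsne : (Real.sin al : ℂ) ≠ 0 := Complex.ofReal_ne_zero.2 (by linarith)
  have e : chi al Z X t (s:ℂ) - 1 =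
      G s / ((cos (s:ℂ) - (Real.cos al : ℂ)) * (Real.sin al : ℂ)) := by
    simp only [FB.chi, FB.Hq, G]
    field_simp
  rw [e, norm_div, norm_mul, ← Complex.ofReal_cos, ← Complex.ofReal_sub, Complex.norm_real,
    Complex.norm_real, Real.norm_eq_abs, Real.norm_eq_abs, abs_of_pos hcpos,
    abs_of_pos (by linarith : (0:ℝ) < Real.sin al)]
  rw [div_le_iff₀ (by positivity)]
  have h3 : 0.23 * min (al - s) (s + al) * 0.92 ≤ (Real.cos s - Real.cos al) * Real.sin al :=
    mul_le_mul hlow hs92.le (by norm_num) hcpos.le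
  calc ‖G s‖ ≤ M * min (al - s) (s + al) := hGs
    _ ≤ 10 * (2 * E + 1) * c * (0.23 * min (al - s) (s + al) * 0.92) := by
        simp only [hM]
        have : 0 ≤ c * (2 * E + 1) * min (al - s) (s + al) := by positivity
        nlinarith
    _ ≤ 10 * (2 * E + 1) * c * ((Real.cos s - Real.cos al) * Real.sin al) :=
        mul_le_mul_of_nonneg_left h3 (by positivity)

/-! ### the theorems -/

theorem b01_bound_E {R : ℝ} (hR : 1 < R) {a b : ℝ} (ha : -R ≤ a) (hb : b ≤ R) :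
    ∀ z ∈ band a b, ‖cos z‖ ≤ Real.exp R ∧ ‖sin z‖ ≤ Real.exp R := by
  intro z hz
  have h1 : |z.im| ≤ R := abs_le.2 ⟨by linarith [hz.1], by linarith [hz.2]⟩
  have h2 := Real.exp_le_exp.2 h1
  exact ⟨(b01_norm_cos z).trans h2, (b01_norm_sin z).trans h2⟩

/-- Everything except `nu, xi, chi` is a polynomial in the values of `Z, X, Z', X'` at `t ± al` (`‖cos‖, ‖sin‖ ≤ e^R` there); `ell`: principal square
root near `sin al > 0.9`. `nu, xi`: `|sin t| ≥ sinh 1` on `Im t ≥ 1`. `chi`: with `N(s) = nz Z(t+s) + nx X(t+s) - et` one has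
`N(±al) = 0` identically, for the circle `N(s) = sin al (cos s - cos al)`, so the difference `N - N_circle` vanishes at `± al`, has derivative
`≤ C c`, hence is `≤ C c min(|s - al|, |s + al|)`, while `cos s - cos al ≥ c' min(|s-al|, |s+al|)` on `[-al, al]`. -/
theorem chord_bd (R : ℝ) (hR : 1 < R) : ∃ c0 C : ℝ, 0 < c0 ∧ 1 ≤ C ∧ C * c0 ≤ 1/100 ∧
    ∀ al ∈ JJ, ∀ a b c : ℝ, 1 ≤ a → b ≤ R → 0 ≤ c → c ≤ c0 → ∀ Z X : ℂ → ℂ, NB c a b Z X → ∀ t ∈ band a b,
      ChordBd (C * c) al Z X t ∧ (∀ s : ℝ, ‖xi X (t + s) - 1‖ ≤ C * c) ∧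
      ∀ s ∈ Ioo (-al) al, ‖chi al Z X t (s:ℂ) - 1‖ ≤ C * c := by
  set E := Real.exp R with hEdef
  have hE1 : 1 ≤ E := Real.one_le_exp (by linarith)
  set C : ℝ := 10 * (2 * E + 1) with hC
  have hCpos : 0 < C := by positivity
  have hC1 : 1 ≤ C := by nlinarith
  refine ⟨1 / (100 * C), C, by positivity, hC1, ?_, ?_⟩
  · rw [show C * (1 / (100 * C)) = 1 / 100 by field_simp]
  · intro al hal a b c ha hb hc hc0 Z X h t ht
    have hc1 : c ≤ 1 := by
      refine hc0.trans ?_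
      rw [div_le_one (by positivity)]
      linarith
    have hE := b01_bound_E hR (a := a) (b := b) (by linarith) hb
    obtain ⟨-, -, -, -, -, hs92, hs94⟩ := JJ_bounds hal
    have hsin : ∀ z ∈ band a b, 1 ≤ ‖sin z‖ ∧ sin z ≠ 0 := by
      intro z hz
      have h1 : 1 ≤ ‖sin z‖ := by
        refine le_trans ?_ (b01_sin_lower z)
        rw [abs_of_pos (by linarith [hz.1])]
        linarith [hz.1]
      exact ⟨h1, fun h0 => by rw [h0, norm_zero] at h1; linarith⟩
    have hnu : ‖nu al Z t - 1‖ ≤ C * c := by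
      have h' := b01_core (al := al) h hE ht
      obtain ⟨h1, h2⟩ := hsin t ht
      have hsne : (Real.sin al : ℂ) ≠ 0 := Complex.ofReal_ne_zero.2 (by linarith)
      have e : nu al Z t - 1 = (nx al Z t - (Real.sin al : ℂ) * sin t) /
          ((Real.sin al : ℂ) * sin t) := by
        simp only [nu, if_neg h2]
        field_simp
      rw [e, norm_div, norm_mul, Complex.norm_real, Real.norm_eq_abs,
        abs_of_pos (by linarith : (0:ℝ) < Real.sin al), div_le_iff₀ (by positivity)]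
      have h3 : 0.92 * 1 ≤ Real.sin al * ‖sin t‖ := mul_le_mul hs92.le h1 (by norm_num) (by linarith)
      calc ‖nx al Z t - (Real.sin al : ℂ) * sin t‖ ≤ c := h'.nx
        _ ≤ C * c * (0.92 * 1) := by nlinarith
        _ ≤ C * c * (Real.sin al * ‖sin t‖) := mul_le_mul_of_nonneg_left h3 (by positivity)
    refine ⟨b01_chordBd h hE hE1 hc hc1 hal ht le_rfl hnu, fun s => ?_, fun s hs => ?_⟩
    · have hz : t + (s:ℂ) ∈ band a b := add_real_mem_band ht s
      obtain ⟨h1, h2⟩ := hsin _ hz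
      have e : xi X (t + s) - 1 = (X (t + s) - sin (t + s)) / sin (t + s) := by
        simp only [xi, if_neg h2]
        field_simp
      rw [e, norm_div, div_le_iff₀ (by linarith)]
      calc ‖X (t + s) - sin (t + s)‖ ≤ c := h.x0 _ hz
        _ ≤ C * c * 1 := by nlinarith
        _ ≤ C * c * ‖sin (t + (s:ℂ))‖ := mul_le_mul_of_nonneg_left h1 (by positivity)
    · exact b01_chi h hE hE1 hc hc1 hal ht hs

/-- nearest multiple of `pi` -/
theorem b01_nearest (x : ℝ) : ∃ k : ℤ, |x - k * Real.pi| ≤ Real.pi / 2 := by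
  refine ⟨round (x / Real.pi), ?_⟩
  have h1 := abs_sub_round (x / Real.pi)
  have hpi := Real.pi_pos
  have e : x - round (x / Real.pi) * Real.pi = (x / Real.pi - round (x / Real.pi)) * Real.pi := by
    field_simp
  rw [e, abs_mul, abs_of_pos hpi]
  nlinarith

theorem b01_cos_int_mul_pi (k : ℤ) : Complex.cos ((k:ℂ) * (Real.pi : ℂ)) = (-1) ^ k := by
  have h := Real.cos_int_mul_pi k
  have h1 : Complex.cos ((k:ℂ) * (Real.pi : ℂ)) = ((Real.cos (k * Real.pi) : ℝ) : ℂ) := by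
    push_cast
    rfl
  rw [h1, h]
  push_cast
  rfl

/-- a function vanishing at the multiples of `pi` with small derivative -/
theorem b01_quot {r c : ℝ} (hr : 0 < r) {D : ℂ → ℂ} (hD : DifferentiableOn ℂ D (strip r))
    (hd : ∀ z ∈ strip r, ‖deriv D z‖ ≤ c) (h0 : ∀ k : ℤ, D ((k:ℂ) * (Real.pi : ℂ)) = 0)
    {z : ℂ} (hz : z ∈ strip r) : ‖D z‖ ≤ 2 * c * ‖sin z‖ := by
  obtain ⟨k, hk⟩ := b01_nearest z.re
  set p : ℂ := (k:ℂ) * (Real.pi : ℂ) with hp
  have hpr : p = ((k * Real.pi : ℝ) : ℂ) := by rw [hp]; push_cast; ring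
  have hps : p ∈ strip r := by
    rw [hpr]
    constructor
    · rw [Complex.ofReal_im]; linarith
    · rw [Complex.ofReal_im]; linarith
  have hopen : IsOpen (strip r) := isOpen_band _ _
  have hconv : Convex ℝ (strip r) := convex_band _ _
  have h1 := hconv.norm_image_sub_le_of_norm_deriv_le
    (fun x hx => (hD x hx).differentiableAt (hopen.mem_nhds hx)) hd hps hz
  rw [h0 k, sub_zero] at h1
  have h2 : |(z - p).re| ≤ Real.pi / 2 := by
    rw [hpr]
    simpa using hk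
  have h3 := b01_sin_lower' h2
  have h4 : ‖sin (z - p)‖ = ‖sin z‖ := by
    have h5 : sin (z - p) = (-1) ^ k * sin z := by
      rw [hp, Complex.sin_sub, Complex.sin_int_mul_pi, b01_cos_int_mul_pi]
      ring
    rw [h5, norm_mul, norm_zpow, norm_neg, norm_one, one_zpow, one_mul]
  rw [h4] at h3
  have hc0 : 0 ≤ c := (norm_nonneg _).trans (hd z hz)
  have hpi := Real.pi_gt_three
  have hpi' := Real.pi_lt_four
  have h6 : ‖z - p‖ ≤ 2 * ‖sin z‖ := by
    have h7 : (1:ℝ) / 2 ≤ 2 / Real.pi := by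
      rw [div_le_div_iff₀ (by norm_num) (by linarith)]
      linarith
    have h8 : 1 / 2 * ‖z - p‖ ≤ ‖sin z‖ :=
      (mul_le_mul_of_nonneg_right h7 (norm_nonneg _)).trans h3
    linarith
  calc ‖D z‖ ≤ c * ‖z - p‖ := h1
    _ ≤ c * (2 * ‖sin z‖) := mul_le_mul_of_nonneg_left h6 hc0
    _ = 2 * c * ‖sin z‖ := by ring

/-- antiperiodic functions at multiples of `pi` -/
theorem b01_anti {r : ℝ} {F : ℂ → ℂ} (h : ∀ z ∈ strip r, F (z + (Real.pi:ℂ)) = - F z) {w : ℂ}
    (hw : w ∈ strip r) (k : ℤ) : F (w + (k:ℂ) * (Real.pi : ℂ)) = (-1) ^ k * F w := by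
  have hmem : ∀ k : ℤ, w + (k:ℂ) * (Real.pi : ℂ) ∈ strip r := by
    intro k
    have : w + (k:ℂ) * (Real.pi : ℂ) = w + ((k * Real.pi : ℝ) : ℂ) := by push_cast; ring
    rw [this]
    exact add_real_mem_band hw _
  induction k using Int.induction_on with
  | zero => simp
  | succ i ih =>
    have e : w + ((i + 1 : ℤ) : ℂ) * (Real.pi : ℂ) =
        (w + ((i : ℤ) : ℂ) * (Real.pi : ℂ)) + (Real.pi : ℂ) := by push_cast; ring
    rw [e, h _ (hmem i), ih, zpow_add₀ (by norm_num), zpow_one]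
    ring
  | pred i ih =>
    have e : w + ((-i : ℤ) : ℂ) * (Real.pi : ℂ) =
        (w + ((-i - 1 : ℤ) : ℂ) * (Real.pi : ℂ)) + (Real.pi : ℂ) := by push_cast; ring
    rw [e, h _ (hmem _)] at ih
    have h2 : ((-1 : ℂ)) ^ (-(i:ℤ) - 1) = -((-1) ^ (-(i:ℤ))) := by
      rw [zpow_sub₀ (by norm_num), zpow_one]
      ring
    rw [h2, neg_mul, ← ih, neg_neg]

/-- full strip version (uses the symmetries: `X` vanishes at `pi k`, `nx` vanishes at `pi k`; `|f(b)| ≤ |b - pi k| sup |f'|` and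
`|sin b| ≥ (2/pi) |b - pi k|` for `|Re b - pi k| ≤ pi/2`). -/
theorem chord_bd_strip (R : ℝ) (hR : 1 < R) : ∃ c0 C : ℝ, 0 < c0 ∧ 1 ≤ C ∧ C * c0 ≤ 1/100 ∧
    ∀ al ∈ JJ, ∀ r c : ℝ, 0 < r → r ≤ R → 0 ≤ c → c ≤ c0 → ∀ Z X : ℂ → ℂ, NB c (-r) r Z X → Sym r Z X → ∀ t ∈ strip r,
      ChordBd (C * c) al Z X t ∧ ‖xi X t - 1‖ ≤ C * c := by
  set E := Real.exp R with hEdef
  have hE1 : 1 ≤ E := Real.one_le_exp (by linarith)
  set C : ℝ := 10 * (2 * E + 1) with hC
  have hCpos : 0 < C := by positivity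
  have hC1 : 1 ≤ C := by nlinarith
  have hC10 : 10 ≤ C := by nlinarith
  refine ⟨1 / (100 * C), C, by positivity, hC1, ?_, ?_⟩
  · rw [show C * (1 / (100 * C)) = 1 / 100 by field_simp]
  · intro al hal r c hr hrR hc hc0 Z X h hS t ht
    have hc1 : c ≤ 1 := by
      refine hc0.trans ?_
      rw [div_le_one (by positivity)]
      linarith
    have hE := b01_bound_E hR (a := -r) (b := r) (by linarith) hrR
    obtain ⟨-, -, -, -, -, hs92, hs94⟩ := JJ_bounds hal
    have hσ : 0 < Real.sin al := by linarith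
    have hsne : (Real.sin al : ℂ) ≠ 0 := Complex.ofReal_ne_zero.2 hσ.ne'
    have hopen : IsOpen (strip r) := isOpen_band _ _
    have hZd : ∀ z ∈ strip r, HasDerivAt Z (deriv Z z) z := fun z hz =>
      ((h.dZ z hz).differentiableAt (hopen.mem_nhds hz)).hasDerivAt
    have hXd : ∀ z ∈ strip r, HasDerivAt X (deriv X z) z := fun z hz =>
      ((h.dX z hz).differentiableAt (hopen.mem_nhds hz)).hasDerivAt
    have h0s : (0:ℂ) ∈ strip r := ⟨by simpa using hr, by simpa using hr⟩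
    -- `X`
    have hX0 : X 0 = 0 := by
      have h1 := hS.oX 0 h0s
      rw [neg_zero] at h1
      have h2 : 2 * X 0 = 0 := by linear_combination h1
      simpa using h2
    let D1 : ℂ → ℂ := fun z => X z - sin z
    have hD1 : ∀ z ∈ strip r, HasDerivAt D1 (deriv X z - cos z) z := fun z hz =>
      (hXd z hz).sub (Complex.hasDerivAt_sin z)
    have hq1 : ∀ z ∈ strip r, ‖X z - sin z‖ ≤ 2 * c * ‖sin z‖ := by
      intro z hz
      refine b01_quot (D := D1) hr (fun w hw => (hD1 w hw).differentiableAt.differentiableWithinAt)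
        (fun w hw => ?_) (fun k => ?_) hz
      · rw [(hD1 w hw).deriv]
        exact h.x1 w hw
      · have h1 := b01_anti hS.aX h0s k
        rw [zero_add, hX0, mul_zero] at h1
        simp only [D1]
        rw [h1, Complex.sin_int_mul_pi, sub_zero]
    -- `nx`
    let D2 : ℂ → ℂ := fun z => nx al Z z - (Real.sin al : ℂ) * sin z
    have hnxd : ∀ z ∈ strip r, HasDerivAt (nx al Z)
        (-((deriv Z (z + (al:ℂ)) - deriv Z (z - (al:ℂ))) / 2)) z := by
      intro z hz
      have hP : z + (al:ℂ) ∈ strip r := add_real_mem_band hz al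
      have hQ : z - (al:ℂ) ∈ strip r := sub_real_mem_band hz al
      have h1 : HasDerivAt (fun w => Z (w + (al:ℂ))) (deriv Z (z + (al:ℂ))) z :=
        (hZd _ hP).comp_add_const z (al:ℂ)
      have h2 : HasDerivAt (fun w => Z (w - (al:ℂ))) (deriv Z (z - (al:ℂ))) z :=
        (hZd _ hQ).comp_sub_const z (al:ℂ)
      exact ((h1.sub h2).div_const 2).neg
    have hD2 : ∀ z ∈ strip r, HasDerivAt D2
        (-((deriv Z (z + (al:ℂ)) - deriv Z (z - (al:ℂ))) / 2) - (Real.sin al : ℂ) * cos z) z :=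
      fun z hz => (hnxd z hz).sub ((Complex.hasDerivAt_sin z).const_mul _)
    have hD2b : ∀ z ∈ strip r,
        ‖-((deriv Z (z + (al:ℂ)) - deriv Z (z - (al:ℂ))) / 2) - (Real.sin al : ℂ) * cos z‖ ≤ c := by
      intro z hz
      have hP : z + (al:ℂ) ∈ strip r := add_real_mem_band hz al
      have hQ : z - (al:ℂ) ∈ strip r := sub_real_mem_band hz al
      have h1 := h.z1 _ hP
      have h2 := h.z1 _ hQ
      rw [← sub_neg_eq_add] at h1 h2
      have h3 := (b01_half h1 h2).1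
      obtain ⟨e1, -, -, -⟩ := b01_circle al z
      have e : -((deriv Z (z + (al:ℂ)) - deriv Z (z - (al:ℂ))) / 2) - (Real.sin al : ℂ) * cos z =
          -((deriv Z (z + (al:ℂ)) - deriv Z (z - (al:ℂ))) / 2 -
            (-sin (z + (al:ℂ)) - -sin (z - (al:ℂ))) / 2) := by
        rw [← e1]
        ring
      rw [e, norm_neg]
      exact h3
    have hq2 : ∀ z ∈ strip r, ‖nx al Z z - (Real.sin al : ℂ) * sin z‖ ≤ 2 * c * ‖sin z‖ := by
      intro z hz
      refine b01_quot (D := D2) hr (fun w hw => (hD2 w hw).differentiableAt.differentiableWithinAt)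
        (fun w hw => ?_) (fun k => ?_) hz
      · rw [(hD2 w hw).deriv]
        exact hD2b w hw
      · have hals : (al:ℂ) ∈ strip r := by
          have := add_real_mem_band h0s al
          rw [zero_add] at this
          exact this
        have hals' : (-(al:ℂ)) ∈ strip r := by
          have := sub_real_mem_band h0s al
          rw [zero_sub] at this
          exact this
        have h1 := b01_anti hS.aZ hals k
        have h2 := b01_anti hS.aZ hals' k
        have h3 := hS.eZ _ hals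
        have e1 : (k:ℂ) * (Real.pi:ℂ) + (al:ℂ) = (al:ℂ) + (k:ℂ) * (Real.pi:ℂ) := by ring
        have e2 : (k:ℂ) * (Real.pi:ℂ) - (al:ℂ) = -(al:ℂ) + (k:ℂ) * (Real.pi:ℂ) := by ring
        simp only [D2, FB.nx, FB.df]
        rw [e1, e2, h1, h2, h3, Complex.sin_int_mul_pi]
        ring
    have hCs : 2 ≤ C * Real.sin al := by nlinarith
    have hnu : ‖nu al Z t - 1‖ ≤ C * c := by
      by_cases hst : sin t = 0
      · have hct : ‖cos t‖ = 1 := by
          have h1 := Complex.cos_sq_add_sin_sq t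
          rw [hst] at h1
          have h2 : ‖cos t‖ ^ 2 = 1 := by
            rw [← norm_pow]
            have : cos t ^ 2 = 1 := by linear_combination h1
            rw [this, norm_one]
          exact (pow_eq_one_iff_of_nonneg (norm_nonneg _) two_ne_zero).1 h2
        have hcne : cos t ≠ 0 := fun h0 => by rw [h0, norm_zero] at hct; linarith
        have e : nu al Z t - 1 = (-((deriv Z (t + (al:ℂ)) - deriv Z (t - (al:ℂ))) / 2) -
            (Real.sin al : ℂ) * cos t) / ((Real.sin al : ℂ) * cos t) := by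
          simp only [nu, if_pos hst]
          rw [(hnxd t ht).deriv]
          field_simp
        rw [e, norm_div, norm_mul, hct, Complex.norm_real, Real.norm_eq_abs, abs_of_pos hσ,
          div_le_iff₀ (by linarith)]
        refine (hD2b t ht).trans ?_
        have h1 : 2 * c ≤ C * Real.sin al * c := mul_le_mul_of_nonneg_right hCs hc
        linarith
      · have hsp : 0 < ‖sin t‖ := norm_pos_iff.2 hst
        have e : nu al Z t - 1 = (nx al Z t - (Real.sin al : ℂ) * sin t) /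
            ((Real.sin al : ℂ) * sin t) := by
          simp only [nu, if_neg hst]
          field_simp
        rw [e, norm_div, norm_mul, Complex.norm_real, Real.norm_eq_abs, abs_of_pos hσ,
          div_le_iff₀ (by positivity)]
        refine (hq2 t ht).trans ?_
        have h1 : 2 * c ≤ C * c * Real.sin al := by
          have := mul_le_mul_of_nonneg_right hCs hc
          linarith
        calc 2 * c * ‖sin t‖ ≤ C * c * Real.sin al * ‖sin t‖ :=
              mul_le_mul_of_nonneg_right h1 hsp.le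
          _ = C * c * (Real.sin al * ‖sin t‖) := by ring
    refine ⟨b01_chordBd h hE hE1 hc hc1 hal ht le_rfl hnu, ?_⟩
    by_cases hst : sin t = 0
    · have hct : ‖cos t‖ = 1 := by
        have h1 := Complex.cos_sq_add_sin_sq t
        rw [hst] at h1
        have h2 : ‖cos t‖ ^ 2 = 1 := by
          rw [← norm_pow]
          have : cos t ^ 2 = 1 := by linear_combination h1
          rw [this, norm_one]
        exact (pow_eq_one_iff_of_nonneg (norm_nonneg _) two_ne_zero).1 h2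
      have hcne : cos t ≠ 0 := fun h0 => by rw [h0, norm_zero] at hct; linarith
      have e : xi X t - 1 = (deriv X t - cos t) / cos t := by
        simp only [xi, if_pos hst]
        field_simp
      rw [e, norm_div, hct, div_one]
      refine (h.x1 t ht).trans ?_
      nlinarith
    · have hsp : 0 < ‖sin t‖ := norm_pos_iff.2 hst
      have e : xi X t - 1 = (X t - sin t) / sin t := by
        simp only [xi, if_neg hst]
        field_simp
      rw [e, norm_div, div_le_iff₀ hsp]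
      refine (hq1 t ht).trans ?_
      have h1 : 2 * c ≤ C * c := by nlinarith
      exact mul_le_mul_of_nonneg_right h1 hsp.le

end FB
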