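import Pool.Agent.H48.FB.B01

/-! B02: closeness of `chi` for complex `s`, and analyticity in `s`. -/

open Complex Set MeasureTheory Filter Topology

noncomputable section

namespace FB

/-! auxiliary bounds for `sin`, `cos` -/

private theorem norm_sin_sq (w : ℂ) : ‖sin w‖ ^ 2 = Real.sin w.re ^ 2 + Real.sinh w.im ^ 2 := by
  have e : sin w = ((Real.sin w.re * Real.cosh w.im : ℝ) : ℂ) + ((Real.cos w.re * Real.sinh w.im : ℝ) : ℂ) * I := by
    rw [Complex.sin_eq]
    push_cast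
    rfl
  have e2 : ‖sin w‖ ^ 2 = (Real.sin w.re * Real.cosh w.im) ^ 2 + (Real.cos w.re * Real.sinh w.im) ^ 2 := by
    rw [← Complex.normSq_eq_norm_sq, e, Complex.normSq_add_mul_I]
  rw [e2]
  have h1 := Real.sin_sq_add_cos_sq w.re
  have h2 := Real.cosh_sq w.im
  have : (Real.sin w.re * Real.cosh w.im) ^ 2 = Real.sin w.re ^ 2 * Real.cosh w.im ^ 2 := by ring
  rw [this, h2]
  have : (Real.cos w.re * Real.sinh w.im) ^ 2 = (1 - Real.sin w.re ^ 2) * Real.sinh w.im ^ 2 := by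
    rw [← h1]; ring
  rw [this]
  ring

private theorem sinh_sq_ge (y : ℝ) : y ^ 2 ≤ Real.sinh y ^ 2 := by
  rw [sq_le_sq, Real.abs_sinh]
  exact Real.self_le_sinh_iff.2 (abs_nonneg y)

private theorem norm_sin_ge {w : ℂ} (h : |w.re| ≤ Real.pi / 2) : 2 / Real.pi * ‖w‖ ≤ ‖sin w‖ := by
  have hpi := Real.pi_pos
  have h3 := Real.pi_gt_three
  have h1 := Real.mul_abs_le_abs_sin h
  have h2 := sinh_sq_ge w.im
  have h4 : ‖w‖ ^ 2 = w.re ^ 2 + w.im ^ 2 := by
    rw [← Complex.normSq_eq_norm_sq, Complex.normSq_apply]; ring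
  have h5 : (2 / Real.pi) ^ 2 * w.re ^ 2 ≤ Real.sin w.re ^ 2 := by
    have : (2 / Real.pi * |w.re|) ^ 2 ≤ |Real.sin w.re| ^ 2 := by gcongr
    rwa [mul_pow, sq_abs, sq_abs] at this
  have h6 : (2 / Real.pi) ^ 2 ≤ 1 := by
    rw [div_pow, div_le_one (by positivity)]
    nlinarith
  have h7 : (2 / Real.pi * ‖w‖) ^ 2 ≤ ‖sin w‖ ^ 2 := by
    rw [norm_sin_sq, mul_pow, h4]
    nlinarith [sq_nonneg w.im]
  exact (sq_le_sq₀ (by positivity) (norm_nonneg _)).1 h7

private theorem norm_exp_mul_I_le (w : ℂ) : ‖exp (w * I)‖ ≤ Real.exp |w.im| := by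
  rw [Complex.norm_exp]
  apply Real.exp_le_exp.2
  simp only [Complex.mul_re, Complex.I_re, Complex.I_im, mul_zero, mul_one, zero_sub]
  exact neg_le_abs w.im

private theorem norm_sin_le (w : ℂ) : ‖sin w‖ ≤ Real.exp |w.im| := by
  rw [Complex.sin]
  have h1 := norm_exp_mul_I_le w
  have h2 : ‖exp (-w * I)‖ ≤ Real.exp |w.im| := by
    have := norm_exp_mul_I_le (-w)
    simpa using this
  rw [norm_div, norm_mul, Complex.norm_I, mul_one]
  have h3 : ‖exp (-w * I) - exp (w * I)‖ ≤ 2 * Real.exp |w.im| := by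
    refine le_trans (norm_sub_le _ _) ?_
    linarith
  rw [Complex.norm_ofNat, div_le_iff₀ (by norm_num)]
  linarith

private theorem norm_cos_le (w : ℂ) : ‖cos w‖ ≤ Real.exp |w.im| := by
  rw [Complex.cos]
  have h1 := norm_exp_mul_I_le w
  have h2 : ‖exp (-w * I)‖ ≤ Real.exp |w.im| := by
    have := norm_exp_mul_I_le (-w)
    simpa using this
  rw [norm_div]
  have h3 : ‖exp (w * I) + exp (-w * I)‖ ≤ 2 * Real.exp |w.im| := by
    refine le_trans (norm_add_le _ _) ?_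
    linarith
  rw [Complex.norm_ofNat, div_le_iff₀ (by norm_num)]
  linarith

/-! auxiliary facts on the region -/

private theorem convex_abs_re (C : ℝ) : Convex ℝ {s : ℂ | |s.re| < C ∧ |s.im| < 3/4} := by
  have h1 : {s : ℂ | |s.re| < C ∧ |s.im| < 3/4} = (Complex.re ⁻¹' Ioo (-C) C) ∩ (Complex.im ⁻¹' Ioo (-(3/4)) (3/4)) := by
    ext s
    simp [abs_lt]
  rw [h1]
  exact ((convex_Ioo _ _).is_linear_preimage Complex.reLm.isLinear).inter
    ((convex_Ioo _ _).is_linear_preimage Complex.imLm.isLinear)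

private theorem convex_RR (al ρ : ℝ) : Convex ℝ (RR al ρ) := by
  have h1 : RR al ρ = (Complex.re ⁻¹' Ioo (-(al + ρ)) (al + ρ)) ∩ (Complex.im ⁻¹' Ioo (-(1/2) - ρ) ρ) := by
    ext s
    simp only [RR, mem_setOf_eq, abs_lt, mem_inter_iff, mem_preimage, mem_Ioo]
  rw [h1]
  exact ((convex_Ioo _ _).is_linear_preimage Complex.reLm.isLinear).inter
    ((convex_Ioo _ _).is_linear_preimage Complex.imLm.isLinear)

private theorem cos_sub_eq (al : ℝ) (s : ℂ) :
    cos s - (Real.cos al : ℂ) = -2 * sin ((s + al) / 2) * sin ((s - al) / 2) := by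
  rw [Complex.ofReal_cos, Complex.cos_sub_cos]

private theorem cos_sub_lower {al : ℝ} (hal : al ∈ JJ) {s : ℂ} (h1 : |s.re| < al + 1/4) :
    (1/5) * min ‖s - al‖ ‖s + al‖ ≤ ‖cos s - (Real.cos al : ℂ)‖ := by
  obtain ⟨a1, a2, a3, _, _, _, _⟩ := JJ_bounds hal
  have hpi := Real.pi_gt_three
  have hpi2 := Real.pi_lt_d2
  have hpi0 := Real.pi_pos
  rw [abs_lt] at h1
  have w1 : |((s + al) / 2 : ℂ).re| ≤ Real.pi / 2 := by
    have : ((s + al) / 2 : ℂ).re = (s.re + al) / 2 := by simp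
    rw [this, abs_le]
    constructor <;> linarith
  have w2 : |((s - al) / 2 : ℂ).re| ≤ Real.pi / 2 := by
    have : ((s - al) / 2 : ℂ).re = (s.re - al) / 2 := by simp
    rw [this, abs_le]
    constructor <;> linarith
  have g1 := norm_sin_ge w1
  have g2 := norm_sin_ge w2
  rw [norm_div, Complex.norm_ofNat] at g1 g2
  rw [cos_sub_eq, norm_mul, norm_mul, norm_neg, Complex.norm_ofNat]
  have hmax : al ≤ max ‖s - al‖ ‖s + al‖ := by
    have : 2 * al ≤ ‖s - al‖ + ‖s + al‖ := by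
      have e : ((2 * al : ℝ) : ℂ) = (s + al) - (s - al) := by push_cast; ring
      have : ‖((2 * al : ℝ) : ℂ)‖ ≤ ‖s + al‖ + ‖s - al‖ := by
        rw [e]; exact norm_sub_le _ _
      rw [Complex.norm_real, Real.norm_eq_abs, abs_of_pos (by linarith)] at this
      linarith
    have h5 := le_max_left ‖s - (al:ℂ)‖ ‖s + al‖
    have h6 := le_max_right ‖s - (al:ℂ)‖ ‖s + al‖
    linarith
  have hprod : ‖s - al‖ * ‖s + al‖ = min ‖s - al‖ ‖s + al‖ * max ‖s - al‖ ‖s + al‖ := (min_mul_max _ _).symm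
  have hmin : 0 ≤ min ‖s - (al:ℂ)‖ ‖s + al‖ := le_min (norm_nonneg _) (norm_nonneg _)
  have h7 : (2 / Real.pi * (‖s + al‖ / 2)) * (2 / Real.pi * (‖s - al‖ / 2)) ≤ ‖sin ((s + al) / 2)‖ * ‖sin ((s - al) / 2)‖ := by
    gcongr
  have h8 : (2 / Real.pi * (‖s + (al:ℂ)‖ / 2)) * (2 / Real.pi * (‖s - al‖ / 2)) = (1 / Real.pi ^ 2) * (‖s - al‖ * ‖s + al‖) := by
    field_simp
  have h9 : (1/10 : ℝ) ≤ 1 / Real.pi ^ 2 * al := by
    rw [one_div_mul_eq_div, le_div_iff₀ (by positivity)]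
    nlinarith
  calc (1/5) * min ‖s - al‖ ‖s + al‖ = 2 * (min ‖s - al‖ ‖s + al‖ * (1/10)) := by ring
    _ ≤ 2 * (min ‖s - al‖ ‖s + al‖ * (1 / Real.pi ^ 2 * al)) := by gcongr
    _ ≤ 2 * (min ‖s - al‖ ‖s + al‖ * (1 / Real.pi ^ 2 * max ‖s - al‖ ‖s + al‖)) := by gcongr
    _ = 2 * ((1 / Real.pi ^ 2) * (‖s - al‖ * ‖s + al‖)) := by rw [hprod]; ring
    _ ≤ 2 * (‖sin ((s + al) / 2)‖ * ‖sin ((s - al) / 2)‖) := by rw [← h8]; gcongr
    _ = _ := by ring

private theorem cos_sub_upper {al : ℝ} (hal : al ∈ JJ) {s : ℂ} (h1 : |s.re| < al + 1/4) (h2 : |s.im| < 3/4) :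
    ‖cos s - (Real.cos al : ℂ)‖ ≤ 3 * min ‖s - al‖ ‖s + al‖ := by
  obtain ⟨a1, a2, a3, _, _, _, _⟩ := JJ_bounds hal
  have hb : ∀ w ∈ {s : ℂ | |s.re| < al + 1/4 ∧ |s.im| < 3/4}, ‖-sin w‖ ≤ 3 := by
    intro w hw
    rw [norm_neg]
    refine le_trans (norm_sin_le w) ?_
    have : Real.exp |w.im| ≤ Real.exp 1 := Real.exp_le_exp.2 (by linarith [hw.2])
    linarith [Real.exp_one_lt_d9]
  have hs : s ∈ {s : ℂ | |s.re| < al + 1/4 ∧ |s.im| < 3/4} := ⟨h1, h2⟩
  have hp : (al:ℂ) ∈ {s : ℂ | |s.re| < al + 1/4 ∧ |s.im| < 3/4} := by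
    constructor
    · rw [Complex.ofReal_re, abs_of_pos (by linarith)]; linarith
    · rw [Complex.ofReal_im, abs_zero]; norm_num
  have hm : -(al:ℂ) ∈ {s : ℂ | |s.re| < al + 1/4 ∧ |s.im| < 3/4} := by
    constructor
    · rw [Complex.neg_re, Complex.ofReal_re, abs_neg, abs_of_pos (by linarith)]; linarith
    · rw [Complex.neg_im, Complex.ofReal_im, neg_zero, abs_zero]; norm_num
  have k1 := (convex_abs_re (al + 1/4)).norm_image_sub_le_of_norm_hasDerivWithin_le (f := cos) (f' := fun w => -sin w)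
    (fun w _ => (Complex.hasDerivAt_cos w).hasDerivWithinAt) hb hp hs
  have k2 := (convex_abs_re (al + 1/4)).norm_image_sub_le_of_norm_hasDerivWithin_le (f := cos) (f' := fun w => -sin w)
    (fun w _ => (Complex.hasDerivAt_cos w).hasDerivWithinAt) hb hm hs
  rw [Complex.cos_neg] at k2
  rw [sub_neg_eq_add] at k2
  rw [Complex.ofReal_cos]
  rcases le_total ‖s - (al:ℂ)‖ ‖s + al‖ with h | h
  · rw [min_eq_left h]; exact k1
  · rw [min_eq_right h]; exact k2

/-- numerator of `chi` -/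
private def NN (al : ℝ) (Z X : ℂ → ℂ) (t s : ℂ) : ℂ :=
  nz al X t * Z (t + s) + nx al Z t * X (t + s) - et al Z X t

private theorem NN_al (al : ℝ) (Z X : ℂ → ℂ) (t : ℂ) : NN al Z X t al = 0 := by
  simp only [NN, nz, nx, et, md, df]; ring

private theorem NN_neg_al (al : ℝ) (Z X : ℂ → ℂ) (t : ℂ) : NN al Z X t (-(al:ℂ)) = 0 := by
  simp only [NN, nz, nx, et, md, df, ← sub_eq_add_neg]; ring

private theorem NN_deriv (al : ℝ) {Z X : ℂ → ℂ} {t s : ℂ} {b : ℝ} (hZ : DifferentiableOn ℂ Z (band 1 b))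
    (hX : DifferentiableOn ℂ X (band 1 b)) (hs : t + s ∈ band 1 b) :
    HasDerivAt (fun s => NN al Z X t s) (nz al X t * deriv Z (t + s) + nx al Z t * deriv X (t + s)) s := by
  have hZ' : HasDerivAt Z (deriv Z (t + s)) (t + s) :=
    (hZ.differentiableAt ((isOpen_band 1 b).mem_nhds hs)).hasDerivAt
  have hX' : HasDerivAt X (deriv X (t + s)) (t + s) :=
    (hX.differentiableAt ((isOpen_band 1 b).mem_nhds hs)).hasDerivAt
  have h1 : HasDerivAt (fun s => Z (t + s)) (deriv Z (t + s)) s := hZ'.comp_const_add t s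
  have h2 : HasDerivAt (fun s => X (t + s)) (deriv X (t + s)) s := hX'.comp_const_add t s
  exact ((h1.const_mul _).add (h2.const_mul _)).sub_const _

private theorem chi_eq (al : ℝ) (Z X : ℂ → ℂ) (t s : ℂ) :
    chi al Z X t s = NN al Z X t s / (cos s - (Real.cos al : ℂ)) / (Real.sin al : ℂ) := rfl

private theorem sin_al_ne {al : ℝ} (hal : al ∈ JJ) : (Real.sin al : ℂ) ≠ 0 := by
  have h := (JJ_bounds hal).2.2.2.2.2.1
  have h2 : Real.sin al ≠ 0 := by linarith
  exact_mod_cast h2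

private theorem quot_tendsto {N κ : ℂ → ℂ} {p N1 κ1 : ℂ} (hN : HasDerivAt N N1 p) (hκ : HasDerivAt κ κ1 p)
    (hN0 : N p = 0) (hκ0 : κ p = 0) (hκ1 : κ1 ≠ 0) : Tendsto (fun s => N s / κ s) (𝓝[≠] p) (𝓝 (N1 / κ1)) := by
  have h1 := hN.tendsto_slope
  have h2 := hκ.tendsto_slope
  have h3 := h1.div h2 hκ1
  refine h3.congr' ?_
  filter_upwards [self_mem_nhdsWithin] with s hs
  have hs' : s - p ≠ 0 := sub_ne_zero.2 hs
  simp only [Pi.div_apply, slope, hN0, hκ0, vsub_eq_sub, sub_zero, smul_eq_mul]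
  rw [mul_div_mul_left _ _ (inv_ne_zero hs')]

/-- Same proof as for real `s`: for `s ∈ RR al ρ` the segment from `± al` to `s` stays in `RR al ρ` (convex), and `t + s ∈ band 1 (b+ρ)`... -/
theorem chi_bd (R : ℝ) (hR : 3 ≤ R) : ∃ c0 C : ℝ, 0 < c0 ∧ 1 ≤ C ∧ C * c0 ≤ 1/100 ∧
    ∀ al ∈ JJ, ∀ b c ρ : ℝ, 2 < b → b ≤ R → 0 < ρ → ρ ≤ 1/4 → 0 ≤ c → c ≤ c0 → ∀ Z X : ℂ → ℂ, NB c 1 b Z X →
      ∀ t ∈ band 2 (b - ρ), ∀ s ∈ RR al ρ, s ≠ (al:ℂ) → s ≠ -(al:ℂ) → ‖chi al Z X t s - 1‖ ≤ C * c := by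
  have hE : 0 < Real.exp R := Real.exp_pos R
  have hC1 : 0 < 4 * Real.exp R + 2 := by linarith
  refine ⟨1 / (100 * (6 * (4 * Real.exp R + 2))), 6 * (4 * Real.exp R + 2), by positivity, by linarith, ?_, ?_⟩
  · apply le_of_eq
    field_simp
  intro al hal b c ρ hb hbR hρ hρ4 hc hcc Z X hZX t ht s hs hs1 hs2
  obtain ⟨a1, a2, a3, a4, a5, a6, a7⟩ := JJ_bounds hal
  have hc1 : c ≤ 1 := by
    refine le_trans hcc ?_
    rw [div_le_one (by positivity)]
    linarith
  have ht1 : t ∈ band 1 b := ⟨by linarith [ht.1], by linarith [ht.2]⟩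
  have hband : ∀ w ∈ RR al ρ, t + w ∈ band 1 b := by
    intro w hw
    obtain ⟨_, w2, w3⟩ := hw
    constructor
    · rw [Complex.add_im]; linarith [ht.1]
    · rw [Complex.add_im]; linarith [ht.2]
  have hexp : ∀ w ∈ band 1 b, Real.exp |w.im| ≤ Real.exp R := by
    intro w hw
    apply Real.exp_le_exp.2
    rw [abs_of_pos (by linarith [hw.1])]
    linarith [hw.2]
  have hsR : ‖(Real.sin al : ℂ)‖ ≤ 1 := by
    rw [Complex.norm_real, Real.norm_eq_abs]
    exact Real.abs_sin_le_one al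
  have htp := add_real_mem_band ht1 al
  have htm := sub_real_mem_band ht1 al
  have hnz : ‖nz al X t - (Real.sin al : ℂ) * cos t‖ ≤ c := by
    have e : nz al X t - (Real.sin al : ℂ) * cos t = ((X (t + al) - sin (t + al)) - (X (t - al) - sin (t - al))) / 2 := by
      simp only [nz, df, Complex.ofReal_sin, Complex.sin_add, Complex.sin_sub]; ring
    rw [e, norm_div, Complex.norm_ofNat, div_le_iff₀ (by norm_num)]
    refine le_trans (norm_sub_le _ _) ?_
    linarith [hZX.x0 _ htp, hZX.x0 _ htm]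
  have hnx : ‖nx al Z t - (Real.sin al : ℂ) * sin t‖ ≤ c := by
    have e : nx al Z t - (Real.sin al : ℂ) * sin t = (-(Z (t + al) - cos (t + al)) + (Z (t - al) - cos (t - al))) / 2 := by
      simp only [nx, df, Complex.ofReal_sin, Complex.cos_add, Complex.cos_sub]; ring
    rw [e, norm_div, Complex.norm_ofNat, div_le_iff₀ (by norm_num)]
    refine le_trans (norm_add_le _ _) ?_
    rw [norm_neg]
    linarith [hZX.z0 _ htp, hZX.z0 _ htm]
  -- derivative of the difference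
  have hder : ∀ w ∈ RR al ρ, HasDerivWithinAt (fun w => NN al Z X t w - (Real.sin al : ℂ) * (cos w - (Real.cos al : ℂ)))
      (nz al X t * deriv Z (t + w) + nx al Z t * deriv X (t + w) - (Real.sin al : ℂ) * (-sin w)) (RR al ρ) w := by
    intro w hw
    have h1 := NN_deriv al hZX.dZ hZX.dX (hband w hw)
    have h2 := ((Complex.hasDerivAt_cos w).sub_const (Real.cos al : ℂ)).const_mul (Real.sin al : ℂ)
    exact (h1.sub h2).hasDerivWithinAt
  have hbd : ∀ w ∈ RR al ρ, ‖nz al X t * deriv Z (t + w) + nx al Z t * deriv X (t + w) - (Real.sin al : ℂ) * (-sin w)‖ ≤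
      (4 * Real.exp R + 2) * c := by
    intro w hw
    have hw1 := hband w hw
    have e : nz al X t * deriv Z (t + w) + nx al Z t * deriv X (t + w) - (Real.sin al : ℂ) * (-sin w) =
        ((nz al X t - (Real.sin al : ℂ) * cos t) * deriv Z (t + w) + ((Real.sin al : ℂ) * cos t) * (deriv Z (t + w) + sin (t + w))) +
        ((nx al Z t - (Real.sin al : ℂ) * sin t) * deriv X (t + w) + ((Real.sin al : ℂ) * sin t) * (deriv X (t + w) - cos (t + w))) := by
      have e1 : sin w = cos t * sin (t + w) - sin t * cos (t + w) := by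
        have : w = (t + w) - t := by ring
        conv_lhs => rw [this, Complex.sin_sub]
        ring
      rw [e1]
      ring
    have hz1 := hZX.z1 _ hw1
    have hx1 := hZX.x1 _ hw1
    have hs3 : ‖sin (t + w)‖ ≤ Real.exp R := (norm_sin_le _).trans (hexp _ hw1)
    have hc3 : ‖cos (t + w)‖ ≤ Real.exp R := (norm_cos_le _).trans (hexp _ hw1)
    have hs4 : ‖sin t‖ ≤ Real.exp R := (norm_sin_le _).trans (hexp _ ht1)
    have hc4 : ‖cos t‖ ≤ Real.exp R := (norm_cos_le _).trans (hexp _ ht1)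
    have hdZ : ‖deriv Z (t + w)‖ ≤ Real.exp R + 1 := by
      have : deriv Z (t + w) = (deriv Z (t + w) + sin (t + w)) - sin (t + w) := by ring
      rw [this]
      refine le_trans (norm_sub_le _ _) ?_
      linarith
    have hdX : ‖deriv X (t + w)‖ ≤ Real.exp R + 1 := by
      have : deriv X (t + w) = (deriv X (t + w) - cos (t + w)) + cos (t + w) := by ring
      rw [this]
      refine le_trans (norm_add_le _ _) ?_
      linarith
    have q1 : ‖(nz al X t - (Real.sin al : ℂ) * cos t) * deriv Z (t + w)‖ ≤ c * (Real.exp R + 1) := by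
      rw [norm_mul]; gcongr
    have q2 : ‖((Real.sin al : ℂ) * cos t) * (deriv Z (t + w) + sin (t + w))‖ ≤ (1 * Real.exp R) * c := by
      rw [norm_mul, norm_mul]; gcongr
    have q3 : ‖(nx al Z t - (Real.sin al : ℂ) * sin t) * deriv X (t + w)‖ ≤ c * (Real.exp R + 1) := by
      rw [norm_mul]; gcongr
    have q4 : ‖((Real.sin al : ℂ) * sin t) * (deriv X (t + w) - cos (t + w))‖ ≤ (1 * Real.exp R) * c := by
      rw [norm_mul, norm_mul]; gcongr
    rw [e]
    refine le_trans (norm_add_le _ _) ?_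
    have r1 := norm_add_le ((nz al X t - (Real.sin al : ℂ) * cos t) * deriv Z (t + w)) (((Real.sin al : ℂ) * cos t) * (deriv Z (t + w) + sin (t + w)))
    have r2 := norm_add_le ((nx al Z t - (Real.sin al : ℂ) * sin t) * deriv X (t + w)) (((Real.sin al : ℂ) * sin t) * (deriv X (t + w) - cos (t + w)))
    linarith
  have hpR : (al:ℂ) ∈ RR al ρ := by
    refine ⟨?_, ?_, ?_⟩
    · rw [Complex.ofReal_re, abs_of_pos (by linarith)]; linarith
    · rw [Complex.ofReal_im]; linarith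
    · rw [Complex.ofReal_im]; exact hρ
  have hmR : -(al:ℂ) ∈ RR al ρ := by
    refine ⟨?_, ?_, ?_⟩
    · rw [Complex.neg_re, Complex.ofReal_re, abs_neg, abs_of_pos (by linarith)]; linarith
    · rw [Complex.neg_im, Complex.ofReal_im, neg_zero]; linarith
    · rw [Complex.neg_im, Complex.ofReal_im, neg_zero]; exact hρ
  have k1 := (convex_RR al ρ).norm_image_sub_le_of_norm_hasDerivWithin_le hder hbd hpR hs
  have k2 := (convex_RR al ρ).norm_image_sub_le_of_norm_hasDerivWithin_le hder hbd hmR hs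
  simp only [NN_al, NN_neg_al, Complex.cos_neg, Complex.ofReal_cos, sub_self, mul_zero, sub_zero, sub_neg_eq_add] at k1 k2
  rw [← Complex.ofReal_cos] at k1 k2
  have kmin : ‖NN al Z X t s - (Real.sin al : ℂ) * (cos s - (Real.cos al : ℂ))‖ ≤ (4 * Real.exp R + 2) * c * min ‖s - al‖ ‖s + al‖ := by
    rcases le_total ‖s - (al:ℂ)‖ ‖s + al‖ with h | h
    · rw [min_eq_left h]; exact k1
    · rw [min_eq_right h]; exact k2
  have hlow := cos_sub_lower hal (s := s) (by linarith [hs.1])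
  have hminpos : 0 < min ‖s - (al:ℂ)‖ ‖s + al‖ := by
    refine lt_min (norm_pos_iff.2 (sub_ne_zero.2 hs1)) (norm_pos_iff.2 ?_)
    intro h
    exact hs2 (eq_neg_of_add_eq_zero_left h)
  have hκpos : 0 < ‖cos s - (Real.cos al : ℂ)‖ := by linarith
  have hκ : cos s - (Real.cos al : ℂ) ≠ 0 := norm_pos_iff.1 hκpos
  have hsal := sin_al_ne hal
  have efin : chi al Z X t s - 1 = (NN al Z X t s - (Real.sin al : ℂ) * (cos s - (Real.cos al : ℂ))) /
      ((cos s - (Real.cos al : ℂ)) * (Real.sin al : ℂ)) := by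
    rw [chi_eq]
    field_simp
  have hsn : ‖(Real.sin al : ℂ)‖ = Real.sin al := by
    rw [Complex.norm_real, Real.norm_eq_abs, abs_of_pos (by linarith)]
  rw [efin, norm_div, norm_mul, hsn, div_le_iff₀ (by positivity)]
  refine le_trans kmin ?_
  have hA : 0 ≤ (4 * Real.exp R + 2) * c := by positivity
  have hB : (1/6 : ℝ) * min ‖s - (al:ℂ)‖ ‖s + al‖ ≤ ‖cos s - (Real.cos al : ℂ)‖ * Real.sin al := by
    calc (1/6 : ℝ) * min ‖s - (al:ℂ)‖ ‖s + al‖ ≤ ((1/5) * min ‖s - (al:ℂ)‖ ‖s + al‖) * 0.92 := by nlinarith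
      _ ≤ ‖cos s - (Real.cos al : ℂ)‖ * Real.sin al := by gcongr
  calc (4 * Real.exp R + 2) * c * min ‖s - (al:ℂ)‖ ‖s + al‖
      = ((4 * Real.exp R + 2) * c) * (6 * ((1/6 : ℝ) * min ‖s - (al:ℂ)‖ ‖s + al‖)) := by ring
    _ ≤ ((4 * Real.exp R + 2) * c) * (6 * (‖cos s - (Real.cos al : ℂ)‖ * Real.sin al)) := by gcongr
    _ = _ := by ring

/-- `chi` tends to `chip`, `chim` at the end points, and is analytic elsewhere. -/
theorem chi_tendsto {al : ℝ} (hal : al ∈ JJ) {b : ℝ} {Z X : ℂ → ℂ} (hZ : DifferentiableOn ℂ Z (band 1 b))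
    (hX : DifferentiableOn ℂ X (band 1 b)) {t : ℂ} (ht : t ∈ band 1 b) :
    Tendsto (fun s => chi al Z X t s) (𝓝[≠] (al:ℂ)) (𝓝 (chip al Z X t)) ∧
    Tendsto (fun s => chi al Z X t s) (𝓝[≠] (-(al:ℂ))) (𝓝 (chim al Z X t)) := by
  have hsal := sin_al_ne hal
  have hκ : ∀ p : ℂ, HasDerivAt (fun s => cos s - (Real.cos al : ℂ)) (-sin p) p :=
    fun p => (Complex.hasDerivAt_cos p).sub_const _
  have hp : t + (al:ℂ) ∈ band 1 b := add_real_mem_band ht al
  have hm : t + -(al:ℂ) ∈ band 1 b := by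
    rw [← sub_eq_add_neg]; exact sub_real_mem_band ht al
  constructor
  · have h1 := quot_tendsto (NN_deriv al hZ hX hp) (hκ al) (NN_al al Z X t) (by simp)
      (neg_ne_zero.2 (by rw [← Complex.ofReal_sin]; exact hsal))
    have h2 := h1.div_const (Real.sin al : ℂ)
    refine (h2.congr (fun s => (chi_eq al Z X t s).symm)).trans ?_
    apply le_of_eq
    congr 1
    rw [chip, ← Complex.ofReal_sin]
    field_simp
  · have h1 := quot_tendsto (NN_deriv al hZ hX hm) (hκ (-(al:ℂ))) (NN_neg_al al Z X t) (by simp)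
      (neg_ne_zero.2 (by rw [Complex.sin_neg, ← Complex.ofReal_sin]; exact neg_ne_zero.2 hsal))
    have h2 := h1.div_const (Real.sin al : ℂ)
    refine (h2.congr (fun s => (chi_eq al Z X t s).symm)).trans ?_
    apply le_of_eq
    congr 1
    rw [chim, Complex.sin_neg, ← Complex.ofReal_sin, neg_neg, ← sub_eq_add_neg]
    field_simp

theorem chi_diff_s {al : ℝ} (hal : al ∈ JJ) {b : ℝ} {Z X : ℂ → ℂ} (hZ : DifferentiableOn ℂ Z (band 1 b))
    (hX : DifferentiableOn ℂ X (band 1 b)) {t s : ℂ} (ht : t ∈ band 1 b) (hs : t + s ∈ band 1 b) (hs1 : |s.re| < 2)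
    (h1 : s ≠ (al:ℂ)) (h2 : s ≠ -(al:ℂ)) : DifferentiableAt ℂ (fun s => chi al Z X t s) s := by
  obtain ⟨a1, a2, a3, a4, a5, a6, a7⟩ := JJ_bounds hal
  have hpi := Real.pi_gt_three
  have hzero : ∀ w : ℂ, |w.re| < Real.pi → sin w = 0 → w = 0 := by
    intro w hw h
    obtain ⟨k, hk⟩ := Complex.sin_eq_zero_iff.1 h
    have hre : w.re = k * Real.pi := by
      rw [hk]; simp
    rw [hre, abs_mul, abs_of_pos Real.pi_pos] at hw
    have h5 : |(k:ℝ)| < 1 := by
      by_contra h6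
      push Not at h6
      nlinarith
    have h7 : k = 0 := by
      have : |k| < 1 := by exact_mod_cast h5
      exact Int.abs_lt_one_iff.1 this
    rw [hk, h7]; simp
  rw [abs_lt] at hs1
  have hκ : cos s - (Real.cos al : ℂ) ≠ 0 := by
    rw [cos_sub_eq]
    refine mul_ne_zero (mul_ne_zero (by norm_num) ?_) ?_
    · intro h
      have := hzero _ (by
        have : ((s + al) / 2 : ℂ).re = (s.re + al) / 2 := by simp
        rw [this, abs_lt]; constructor <;> linarith) h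
      apply h2
      have h8 : s + al = 0 := by
        have := congrArg (fun z => 2 * z) this
        simpa [mul_div_cancel₀] using this
      exact eq_neg_of_add_eq_zero_left h8
    · intro h
      have := hzero _ (by
        have : ((s - al) / 2 : ℂ).re = (s.re - al) / 2 := by simp
        rw [this, abs_lt]; constructor <;> linarith) h
      apply h1
      have h8 : s - al = 0 := by
        have := congrArg (fun z => 2 * z) this
        simpa [mul_div_cancel₀] using this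
      exact sub_eq_zero.1 h8
  have h3 : DifferentiableAt ℂ (fun s => NN al Z X t s) s := (NN_deriv al hZ hX hs).differentiableAt
  have h4 : DifferentiableAt ℂ (fun s => cos s - (Real.cos al : ℂ)) s :=
    ((Complex.hasDerivAt_cos s).sub_const _).differentiableAt
  exact (h3.div h4 hκ).div_const _

/-- `cos s - cos al` on the region: bounds and zeros -/
theorem cos_sub_bd {al : ℝ} (hal : al ∈ JJ) {ρ : ℝ} (hρ : 0 < ρ) (hρ4 : ρ ≤ 1/4) :
    ∃ c C : ℝ, 0 < c ∧ 0 < C ∧ ∀ s ∈ RR al ρ, c * min ‖s - al‖ ‖s + al‖ ≤ ‖cos s - (Real.cos al : ℂ)‖ ∧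
      ‖cos s - (Real.cos al : ℂ)‖ ≤ C * min ‖s - al‖ ‖s + al‖ := by
  refine ⟨1/5, 3, by norm_num, by norm_num, ?_⟩
  intro s hs
  obtain ⟨s1, s2, s3⟩ := hs
  refine ⟨cos_sub_lower hal (by linarith), cos_sub_upper hal (by linarith) ?_⟩
  rw [abs_lt]
  constructor <;> linarith

/-- the real part of `cos s - cos al` is nonnegative on `[-al, al] × (-i)[0, 1/2]`, positive inside -/
theorem cos_sub_re {al : ℝ} (hal : al ∈ JJ) {s : ℂ} (h1 : |s.re| ≤ al) (h2 : -(1/2) ≤ s.im) (h3 : s.im ≤ 0) :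
    0 ≤ (cos s - (Real.cos al : ℂ)).re ∧ ((|s.re| < al ∨ s.im < 0) → 0 < (cos s - (Real.cos al : ℂ)).re) := by
  obtain ⟨a1, a2, a3, a4, a5, a6, a7⟩ := JJ_bounds hal
  have hpi := Real.pi_gt_three
  have hre : (cos s - (Real.cos al : ℂ)).re = Real.cos s.re * Real.cosh s.im - Real.cos al := by
    have e : cos s = ((Real.cos s.re * Real.cosh s.im : ℝ) : ℂ) - ((Real.sin s.re * Real.sinh s.im : ℝ) : ℂ) * I := by
      rw [Complex.cos_eq]; push_cast; rfl
    rw [e]
    simp only [Complex.sub_re, Complex.ofReal_re, Complex.mul_re, Complex.I_re, Complex.I_im, Complex.ofReal_im]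
    ring
  rw [hre]
  have hle : Real.cos al ≤ Real.cos s.re := by
    rw [← Real.cos_abs s.re]
    exact Real.cos_le_cos_of_nonneg_of_le_pi (abs_nonneg _) (by linarith) h1
  have hch := Real.one_le_cosh s.im
  have hcpos : 0 < Real.cos s.re := by linarith
  constructor
  · nlinarith
  · rintro (h | h)
    · have hlt : Real.cos al < Real.cos s.re := by
        rw [← Real.cos_abs s.re]
        exact Real.cos_lt_cos_of_nonneg_of_le_pi (abs_nonneg _) (by linarith) h
      nlinarith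
    · have hch' : 1 < Real.cosh s.im := Real.one_lt_cosh.2 h.ne
      nlinarith

end FB
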