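import Pool.Agent.H48.FB.B01
import Pool.Agent.H48.FB.A08

/-! B03: families of chord quantities; symmetries. -/

open Complex Set MeasureTheory Filter Topology

noncomputable section

namespace FB

/-! ### auxiliary lemmas on families -/

theorem Fam.smulc {U : Set ℂ} {f : EE → ℂ → ℂ} (c : ℂ) (h : Fam U f) :
    Fam U (fun e z => c * f e z) :=
  (Fam.const (f := fun _ => c) (differentiableOn_const _)).mul h

theorem Fam.divc {U : Set ℂ} {f : EE → ℂ → ℂ} (h : Fam U f) (c : ℂ) :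
    Fam U (fun e z => f e z / c) := by
  refine (h.smulc c⁻¹).congr fun e z _ => ?_
  simp only [div_eq_mul_inv]
  ring

theorem Fam.div {U : Set ℂ} {f g : EE → ℂ → ℂ} (h : Fam U f) (h' : Fam U g)
    (h0 : ∀ e, ∀ z ∈ U, g e z ≠ 0) : Fam U (fun e z => f e z / g e z) := by
  refine (h.mul (h'.inv h0)).congr fun e z _ => ?_
  simp only [div_eq_mul_inv]

theorem fam_md {al a b : ℝ} {Z : EE → ℂ → ℂ} (hZ : Fam (band a b) Z) :
    Fam (band a b) (fun e => md al (Z e)) :=
  ((hZ.shift al).add (hZ.shift_sub al)).divc 2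

theorem fam_df {al a b : ℝ} {Z : EE → ℂ → ℂ} (hZ : Fam (band a b) Z) :
    Fam (band a b) (fun e => df al (Z e)) :=
  ((hZ.shift al).sub (hZ.shift_sub al)).divc 2

theorem fam_chord {al a b : ℝ} {Z X : EE → ℂ → ℂ} (hZ : Fam (band a b) Z) (hX : Fam (band a b) X) :
    Fam (band a b) (fun e => md al (Z e)) ∧ Fam (band a b) (fun e => md al (X e)) ∧
    Fam (band a b) (fun e => nz al (X e)) ∧ Fam (band a b) (fun e => nx al (Z e)) ∧
    Fam (band a b) (fun e => et al (Z e) (X e)) ∧ Fam (band a b) (fun e => chip al (Z e) (X e)) ∧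
    Fam (band a b) (fun e => chim al (Z e) (X e)) := by
  have h1 := fam_md (al := al) hZ
  have h2 := fam_md (al := al) hX
  have h3 : Fam (band a b) (fun e => nz al (X e)) := fam_df (al := al) hX
  have h4 : Fam (band a b) (fun e => nx al (Z e)) := (fam_df (al := al) hZ).neg
  refine ⟨h1, h2, h3, h4, (h3.mul h1).add (h4.mul h2), ?_, ?_⟩
  · exact (((h3.mul (hZ.deriv.shift al)).add (h4.mul (hX.deriv.shift al))).neg).divc _
  · exact ((h3.mul (hZ.deriv.shift_sub al)).add (h4.mul (hX.deriv.shift_sub al))).divc _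

/-- square root of the squared length -/
theorem fam_ell {al a b D : ℝ} {Z X : EE → ℂ → ℂ} (hZ : Fam (band a b) Z) (hX : Fam (band a b) X)
    (hal : al ∈ JJ) (hD : D ≤ 1/100) (hb : ∀ e, ∀ t ∈ band a b, ChordBd D al (Z e) (X e) t) :
    Fam (band a b) (fun e => ell al (Z e) (X e)) ∧ Fam (band a b) (fun e => Yf al (Z e) (X e)) ∧
    ∀ e, ∀ t ∈ band a b, (nz al (X e) t) ^ 2 + (nx al (Z e) t) ^ 2 ∈ slitPlane := by
  obtain ⟨-, -, h3, h4, -, -, -⟩ := fam_chord (al := al) hZ hX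
  obtain ⟨-, -, -, -, -, hs1, hs2⟩ := JJ_bounds hal
  have hsl : ∀ e, ∀ t ∈ band a b, (nz al (X e) t) ^ 2 + (nx al (Z e) t) ^ 2 ∈ slitPlane := by
    intro e t ht
    left
    have h := (hb e t ht).l2
    have h' : |((nz al (X e) t) ^ 2 + (nx al (Z e) t) ^ 2 - (Real.sin al : ℂ) ^ 2).re| ≤ D :=
      (abs_re_le_norm _).trans h
    have h2 : ((Real.sin al : ℂ) ^ 2).re = Real.sin al ^ 2 := by
      rw [← ofReal_pow, ofReal_re]
    rw [sub_re, h2] at h'
    have := (abs_le.1 h').1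
    nlinarith
  have hell : Fam (band a b) (fun e => ell al (Z e) (X e)) := by
    refine ((h3.pow 2).add (h4.pow 2)).comp (Φ := fun w => w ^ ((1:ℂ)/2)) (V := slitPlane) ?_ hsl
    intro w hw
    exact (differentiableAt_id.cpow_const hw).differentiableWithinAt
  have hne : ∀ e, ∀ t ∈ band a b, ell al (Z e) (X e) t ≠ 0 := by
    intro e t ht h0
    have h := (hb e t ht).ell
    rw [h0, zero_sub, norm_neg, norm_real, Real.norm_eq_abs, abs_of_pos (by linarith)] at h
    linarith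
  refine ⟨hell, ?_, hsl⟩
  have hq : Fam (band a b) (fun e z => nz al (X e) z / ell al (Z e) (X e) z) := h3.div hell hne
  exact ((hell.mul ((((hq.pow 4).smulc 35).sub ((hq.pow 2).smulc 30)).add
    (Fam.const (f := fun _ => (3:ℂ)) (differentiableOn_const _)))).divc 8)

theorem sin_ne_zero_of_im {z : ℂ} (hz : z.im ≠ 0) : sin z ≠ 0 := by
  intro h
  rw [Complex.sin_eq_zero_iff] at h
  obtain ⟨k, hk⟩ := h
  apply hz
  rw [hk]
  simp

/-- square roots and quotients, upper band -/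
theorem fam_chord' (R : ℝ) (hR : 1 < R) : ∃ c0 : ℝ, 0 < c0 ∧ ∀ al ∈ JJ, ∀ a b : ℝ, 1 ≤ a → b ≤ R →
    ∀ Z X : EE → ℂ → ℂ, FNB c0 a b Z X →
      Fam (band a b) (fun e => ell al (Z e) (X e)) ∧ Fam (band a b) (fun e => nu al (Z e)) ∧
      Fam (band a b) (fun e => xi (X e)) ∧ Fam (band a b) (fun e => Yf al (Z e) (X e)) := by
  obtain ⟨c0, C, hc0, hC, hCc, H⟩ := chord_bd R hR
  refine ⟨c0, hc0, fun al hal a b ha hb Z X hN => ?_⟩
  have hB : ∀ e, ∀ t ∈ band a b, ChordBd (C * c0) al (Z e) (X e) t := fun e t ht =>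
    (H al hal a b c0 ha hb hc0.le le_rfl (Z e) (X e) (hN.nb e) t ht).1
  obtain ⟨h1, h2, -⟩ := fam_ell hN.fZ hN.fX hal hCc hB
  obtain ⟨-, -, -, h4, -, -, -⟩ := fam_chord (al := al) hN.fZ hN.fX
  obtain ⟨-, -, -, -, -, hs1, hs2⟩ := JJ_bounds hal
  have hsal : (Real.sin al : ℂ) ≠ 0 := by
    rw [Ne, ofReal_eq_zero]
    linarith
  have hsin : ∀ z ∈ band a b, sin z ≠ 0 := fun z hz =>
    sin_ne_zero_of_im (by have := hz.1; linarith)
  refine ⟨h1, ?_, ?_, h2⟩
  · have hf : Fam (band a b) (fun (_ : EE) z => (Real.sin al : ℂ) * sin z) :=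
      Fam.const ((differentiable_sin.const_mul _).differentiableOn)
    refine (h4.div hf fun e z hz => mul_ne_zero hsal (hsin z hz)).congr fun e z hz => ?_
    simp only [nu, if_neg (hsin z hz)]
  · have hf : Fam (band a b) (fun (_ : EE) z => sin z) :=
      Fam.const differentiable_sin.differentiableOn
    refine (hN.fX.div hf fun e z hz => hsin z hz).congr fun e z hz => ?_
    simp only [xi, if_neg (hsin z hz)]

/-! ### removable singularities in families -/

theorem continuousAt_dslope {a b : ℝ} {f : EE → ℂ → ℂ} (hf : Fam (band a b) f) {z0 : ℂ}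
    (hz0 : z0 ∈ band a b) (e0 : EE) :
    ContinuousAt (fun p : EE × ℂ => dslope (f p.1) z0 p.2) (e0, z0) := by
  have hd := (hf.deriv).cont.continuousAt (x := (e0, z0))
    ((isOpen_univ.prod (isOpen_band a b)).mem_nhds ⟨mem_univ _, hz0⟩)
  rw [Metric.continuousAt_iff'] at hd ⊢
  intro ε hε
  have h1 := hd (ε / 2) (by linarith)
  have h2 : ∀ᶠ p : EE × ℂ in 𝓝 (e0, z0), p.2 ∈ band a b :=
    continuousAt_snd.eventually ((isOpen_band a b).mem_nhds hz0)
  have h3 := h1.and h2
  rw [nhds_prod_eq] at h3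
  obtain ⟨U, hU, δ, hδ, hUδ⟩ : ∃ U ∈ 𝓝 e0, ∃ δ > 0, ∀ e ∈ U, ∀ z ∈ Metric.ball z0 δ,
      dist (_root_.deriv (f e) z) (_root_.deriv (f e0) z0) < ε / 2 ∧ z ∈ band a b := by
    obtain ⟨pa, hpa, pb, hpb, hab⟩ := Filter.eventually_prod_iff.1 h3
    obtain ⟨δ, hδ, hδ'⟩ := Metric.eventually_nhds_iff_ball.1 hpb
    exact ⟨{e | pa e}, hpa, δ, hδ, fun e he z hz => hab he (hδ' z hz)⟩
  rw [nhds_prod_eq, Filter.eventually_prod_iff]
  refine ⟨fun e => e ∈ U, hU, fun z => z ∈ Metric.ball z0 δ, Metric.ball_mem_nhds z0 hδ, ?_⟩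
  intro e he z hz
  have hself : dslope (f e0) z0 z0 = _root_.deriv (f e0) z0 := dslope_same _ _
  simp only [hself]
  by_cases hzz : z = z0
  · rw [hzz, dslope_same]
    exact (hUδ e he z0 (Metric.mem_ball_self hδ)).1.trans (by linarith)
  · rw [dslope_of_ne _ hzz, slope_def_field, dist_eq_norm]
    set c := _root_.deriv (f e0) z0 with hc
    have hdf : ∀ w ∈ Metric.ball z0 δ, DifferentiableAt ℂ (f e) w := fun w hw =>
      (hf.diff e).differentiableAt ((isOpen_band a b).mem_nhds (hUδ e he w hw).2)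
    have hdg : ∀ w ∈ Metric.ball z0 δ, HasDerivAt (fun w => f e w - c * w)
        (_root_.deriv (f e) w - c) w := by
      intro w hw
      have := ((hdf w hw).hasDerivAt).fun_sub (((hasDerivAt_id w).const_mul c))
      simpa using this
    have hbound := Convex.norm_image_sub_le_of_norm_hasDerivWithin_le (C := ε / 2)
      (f := fun w => f e w - c * w) (f' := fun w => _root_.deriv (f e) w - c)
      (s := Metric.ball z0 δ) (x := z0) (y := z)
      (fun w hw => (hdg w hw).hasDerivWithinAt)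
      (fun w hw => by
        have := (hUδ e he w hw).1
        rw [dist_eq_norm] at this
        exact this.le)
      (convex_ball z0 δ) (Metric.mem_ball_self hδ) hz
    have hne : z - z0 ≠ 0 := sub_ne_zero.2 hzz
    have hpos : 0 < ‖z - z0‖ := norm_pos_iff.2 hne
    have heq : (f e z - f e z0) / (z - z0) - c = ((f e z - c * z) - (f e z0 - c * z0)) / (z - z0) := by
      field_simp
      ring
    rw [heq, norm_div, div_lt_iff₀ hpos]
    nlinarith

/-- the quotient by `sin` with the removable singularities removed -/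
def qs (f : ℂ → ℂ) (z : ℂ) : ℂ := if sin z = 0 then _root_.deriv f z / cos z else f z / sin z

theorem cos_ne_zero_of_sin {z : ℂ} (h : sin z = 0) : cos z ≠ 0 := by
  intro h'
  have := sin_sq_add_cos_sq z
  rw [h, h'] at this
  simp at this

theorem sin_ne_zero_punctured (z0 : ℂ) : ∀ᶠ z in 𝓝[≠] z0, sin z ≠ 0 := by
  have hA : AnalyticAt ℂ sin z0 := analyticAt_sin
  rcases hA.eventually_eq_zero_or_eventually_ne_zero with h | h
  · exfalso
    have h0 : sin z0 = 0 := h.self_of_nhds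
    have hd : _root_.deriv sin z0 = 0 := by
      have : sin =ᶠ[𝓝 z0] fun _ => (0:ℂ) := h
      rw [this.deriv_eq, deriv_const]
    rw [Complex.deriv_sin] at hd
    exact cos_ne_zero_of_sin h0 hd
  · exact h

theorem fam_qs {r : ℝ} {f : EE → ℂ → ℂ} (hf : Fam (strip r) f)
    (h0 : ∀ e, ∀ z ∈ strip r, sin z = 0 → f e z = 0) : Fam (strip r) (fun e => qs (f e)) := by
  have hopen : IsOpen (strip r) := isOpen_band _ _
  have hcont : ∀ e0, ∀ z0 ∈ strip r, ContinuousAt (fun p : EE × ℂ => qs (f p.1) p.2) (e0, z0) := by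
    intro e0 z0 hz0
    by_cases hs : sin z0 = 0
    · -- singular point
      have hcos := cos_ne_zero_of_sin hs
      have hS : ContinuousAt (fun p : EE × ℂ => dslope sin z0 p.2) (e0, z0) := by
        have : ContinuousAt (dslope sin z0) z0 :=
          continuousAt_dslope_same.2 Complex.differentiable_sin.differentiableAt
        exact this.comp_of_eq continuousAt_snd rfl
      have hS0 : dslope sin z0 z0 ≠ 0 := by
        rw [dslope_same, Complex.deriv_sin]
        exact hcos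
      have hq := (continuousAt_dslope hf hz0 e0).div hS hS0
      refine hq.congr ?_
      have hev : ∀ᶠ p : EE × ℂ in 𝓝 (e0, z0), p.2 ≠ z0 → sin p.2 ≠ 0 := by
        have := sin_ne_zero_punctured z0
        rw [eventually_nhdsWithin_iff] at this
        exact (continuousAt_snd (p := (e0, z0))).eventually this
      filter_upwards [hev] with p hp
      by_cases hpz : p.2 = z0
      · simp only [Pi.div_apply, qs, hpz, hs, if_true, dslope_same, Complex.deriv_sin]
      · simp only [Pi.div_apply, qs, if_neg (hp hpz), dslope_of_ne _ hpz, slope_def_field, h0 p.1 z0 hz0 hs,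
          hs, sub_zero]
        have h1 : p.2 - z0 ≠ 0 := sub_ne_zero.2 hpz
        have h2 := hp hpz
        field_simp
    · have hev : ∀ᶠ p : EE × ℂ in 𝓝 (e0, z0), sin p.2 ≠ 0 :=
        (Complex.continuous_sin.continuousAt.comp continuousAt_snd).eventually_ne hs
      have hq : ContinuousAt (fun p : EE × ℂ => f p.1 p.2 / sin p.2) (e0, z0) := by
        refine ContinuousAt.div ?_ (Complex.continuous_sin.continuousAt.comp continuousAt_snd) hs
        exact hf.cont.continuousAt ((isOpen_univ.prod hopen).mem_nhds ⟨mem_univ _, hz0⟩)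
      refine hq.congr ?_
      filter_upwards [hev] with p hp
      simp only [qs, if_neg hp]
  constructor
  · rintro ⟨e0, z0⟩ ⟨-, hz0⟩
    exact (hcont e0 z0 hz0).continuousWithinAt
  · intro e z0 hz0
    have hce : ∀ z1 ∈ strip r, ContinuousAt (qs (f e)) z1 := by
      intro z1 hz1
      exact (hcont e z1 hz1).comp_of_eq (f := fun z => (e, z))
        (continuousAt_const.prodMk continuousAt_id) rfl
    have hreg : ∀ z1 ∈ strip r, sin z1 ≠ 0 → DifferentiableAt ℂ (qs (f e)) z1 := by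
      intro z1 hz1 hs
      have hd : DifferentiableAt ℂ (fun z => f e z / sin z) z1 :=
        ((hf.diff e).differentiableAt (hopen.mem_nhds hz1)).div
          Complex.differentiable_sin.differentiableAt hs
      refine hd.congr_of_eventuallyEq ?_
      filter_upwards [Complex.continuous_sin.continuousAt.eventually_ne hs] with z hz
      simp only [qs, if_neg hz]
    refine DifferentiableAt.differentiableWithinAt ?_
    have hev := (sin_ne_zero_punctured z0)
    rw [eventually_nhdsWithin_iff] at hev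
    obtain ⟨V, hV, hVo, hzV⟩ := eventually_nhds_iff.1 (hev.and (hopen.mem_nhds hz0))
    have hVn : V ∈ 𝓝 z0 := hVo.mem_nhds hzV
    have := (Complex.differentiableOn_compl_singleton_and_continuousAt_iff (f := qs (f e)) hVn).1
      ⟨fun z hz => (hreg z (hV z hz.1).2 ((hV z hz.1).1 hz.2)).differentiableWithinAt, hce z0 hz0⟩
    exact this.differentiableAt hVn

/-! ### symmetries -/

theorem deriv_of_odd {r : ℝ} {f : ℂ → ℂ} (h : ∀ z ∈ strip r, f (-z) = - f z) {z : ℂ}
    (hz : z ∈ strip r) : _root_.deriv f (-z) = _root_.deriv f z := by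
  have h1 : (fun w => f (-w)) =ᶠ[𝓝 z] fun w => - f w := by
    filter_upwards [(isOpen_band (-r) r).mem_nhds hz] with w hw using h w hw
  have h2 := h1.deriv_eq
  rw [deriv_comp_neg, deriv.fun_neg] at h2
  exact neg_injective h2

theorem deriv_of_even {r : ℝ} {f : ℂ → ℂ} (h : ∀ z ∈ strip r, f (-z) = f z) {z : ℂ}
    (hz : z ∈ strip r) : _root_.deriv f (-z) = - _root_.deriv f z := by
  have h1 : (fun w => f (-w)) =ᶠ[𝓝 z] fun w => f w := by
    filter_upwards [(isOpen_band (-r) r).mem_nhds hz] with w hw using h w hw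
  have h2 := h1.deriv_eq
  rw [deriv_comp_neg] at h2
  exact neg_eq_iff_eq_neg.1 h2

theorem deriv_of_anti {r : ℝ} {f : ℂ → ℂ} (h : ∀ z ∈ strip r, f (z + (Real.pi : ℂ)) = - f z) {z : ℂ}
    (hz : z ∈ strip r) : _root_.deriv f (z + (Real.pi : ℂ)) = - _root_.deriv f z := by
  have h1 : (fun w => f (w + (Real.pi : ℂ))) =ᶠ[𝓝 z] fun w => - f w := by
    filter_upwards [(isOpen_band (-r) r).mem_nhds hz] with w hw using h w hw
  have h2 := h1.deriv_eq
  rw [deriv_comp_add_const, deriv.fun_neg] at h2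
  exact h2

theorem deriv_of_conj {r : ℝ} {f : ℂ → ℂ}
    (h : ∀ z ∈ strip r, f ((starRingEnd ℂ) z) = (starRingEnd ℂ) (f z)) {z : ℂ} (hz : z ∈ strip r) :
    _root_.deriv f ((starRingEnd ℂ) z) = (starRingEnd ℂ) (_root_.deriv f z) := by
  have h1 : ((starRingEnd ℂ) ∘ f ∘ (starRingEnd ℂ)) =ᶠ[𝓝 z] f := by
    filter_upwards [(isOpen_band (-r) r).mem_nhds hz] with w hw
    simp only [Function.comp_apply, h w hw, conj_conj]
  have h2 := h1.deriv_eq
  rw [deriv_conj_conj] at h2
  simp only [Function.comp_apply] at h2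
  rw [← h2, conj_conj]

/-- all the symmetries of one curve -/
structure CSym (al r : ℝ) (Z X : ℂ → ℂ) : Prop where
  ev : ∀ z ∈ strip r, xi X (-z) = xi X z ∧ nu al Z (-z) = nu al Z z ∧
        ell al Z X (-z) = ell al Z X z ∧ Yf al Z X (-z) = Yf al Z X z ∧
        et al Z X (-z) = et al Z X z ∧ chip al Z X (-z) = chim al Z X z ∧
        nz al X (-z) = nz al X z ∧ nx al Z (-z) = - nx al Z z
  pe : ∀ z ∈ strip r, xi X (z + (Real.pi:ℂ)) = xi X z ∧ nu al Z (z + (Real.pi:ℂ)) = nu al Z z ∧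
        ell al Z X (z + (Real.pi:ℂ)) = ell al Z X z ∧ Yf al Z X (z + (Real.pi:ℂ)) = Yf al Z X z ∧
        et al Z X (z + (Real.pi:ℂ)) = et al Z X z ∧ chip al Z X (z + (Real.pi:ℂ)) = chip al Z X z ∧
        chim al Z X (z + (Real.pi:ℂ)) = chim al Z X z

theorem shift_neg (z : ℂ) (al : ℝ) : -z + (al:ℂ) = -(z - (al:ℂ)) ∧ -z - (al:ℂ) = -(z + (al:ℂ)) :=
  ⟨by ring, by ring⟩

theorem cSym_of_sym {al r : ℝ} {Z X : ℂ → ℂ} (h : Sym r Z X) : CSym al r Z X := by
  have hnz : ∀ z ∈ strip r, nz al X (-z) = nz al X z := by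
    intro z hz
    simp only [nz, df, (shift_neg z al).1, (shift_neg z al).2]
    rw [h.oX _ (sub_real_mem_band hz al), h.oX _ (add_real_mem_band hz al)]
    ring
  have hnx : ∀ z ∈ strip r, nx al Z (-z) = - nx al Z z := by
    intro z hz
    simp only [nx, df, (shift_neg z al).1, (shift_neg z al).2]
    rw [h.eZ _ (sub_real_mem_band hz al), h.eZ _ (add_real_mem_band hz al)]
    ring
  have hmZ : ∀ z ∈ strip r, md al Z (-z) = md al Z z := by
    intro z hz
    simp only [md, (shift_neg z al).1, (shift_neg z al).2]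
    rw [h.eZ _ (sub_real_mem_band hz al), h.eZ _ (add_real_mem_band hz al)]
    ring
  have hmX : ∀ z ∈ strip r, md al X (-z) = - md al X z := by
    intro z hz
    simp only [md, (shift_neg z al).1, (shift_neg z al).2]
    rw [h.oX _ (sub_real_mem_band hz al), h.oX _ (add_real_mem_band hz al)]
    ring
  have hell : ∀ z ∈ strip r, ell al Z X (-z) = ell al Z X z := by
    intro z hz
    simp only [ell, hnz z hz, hnx z hz, neg_sq]
  have sh1 : ∀ z : ℂ, z + (Real.pi:ℂ) + (al:ℂ) = (z + (al:ℂ)) + (Real.pi:ℂ) := fun z => by ring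
  have sh2 : ∀ z : ℂ, z + (Real.pi:ℂ) - (al:ℂ) = (z - (al:ℂ)) + (Real.pi:ℂ) := fun z => by ring
  have pnz : ∀ z ∈ strip r, nz al X (z + (Real.pi:ℂ)) = - nz al X z := by
    intro z hz
    simp only [nz, df, sh1, sh2]
    rw [h.aX _ (sub_real_mem_band hz al), h.aX _ (add_real_mem_band hz al)]
    ring
  have pnx : ∀ z ∈ strip r, nx al Z (z + (Real.pi:ℂ)) = - nx al Z z := by
    intro z hz
    simp only [nx, df, sh1, sh2]
    rw [h.aZ _ (sub_real_mem_band hz al), h.aZ _ (add_real_mem_band hz al)]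
    ring
  have pmZ : ∀ z ∈ strip r, md al Z (z + (Real.pi:ℂ)) = - md al Z z := by
    intro z hz
    simp only [md, sh1, sh2]
    rw [h.aZ _ (sub_real_mem_band hz al), h.aZ _ (add_real_mem_band hz al)]
    ring
  have pmX : ∀ z ∈ strip r, md al X (z + (Real.pi:ℂ)) = - md al X z := by
    intro z hz
    simp only [md, sh1, sh2]
    rw [h.aX _ (sub_real_mem_band hz al), h.aX _ (add_real_mem_band hz al)]
    ring
  have pell : ∀ z ∈ strip r, ell al Z X (z + (Real.pi:ℂ)) = ell al Z X z := by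
    intro z hz
    simp only [ell, pnz z hz, pnx z hz, neg_sq]
  refine ⟨fun z hz => ⟨?_, ?_, hell z hz, ?_, ?_, ?_, hnz z hz, hnx z hz⟩,
    fun z hz => ⟨?_, ?_, pell z hz, ?_, ?_, ?_, ?_⟩⟩
  · simp only [xi, sin_neg, cos_neg, neg_eq_zero, deriv_of_odd h.oX hz, h.oX z hz, neg_div_neg_eq]
  · simp only [nu, sin_neg, cos_neg, neg_eq_zero, deriv_of_odd hnx hz, hnx z hz, mul_neg,
      neg_div_neg_eq]
  · simp only [Yf, hell z hz, hnz z hz]
  · simp only [et, hnz z hz, hnx z hz, hmZ z hz, hmX z hz]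
    ring
  · simp only [chip, chim, hnz z hz, hnx z hz, (shift_neg z al).1,
      deriv_of_even h.eZ (sub_real_mem_band hz al), deriv_of_odd h.oX (sub_real_mem_band hz al)]
    ring
  · simp only [xi, sin_add_pi, cos_add_pi, neg_eq_zero, deriv_of_anti h.aX hz, h.aX z hz,
      neg_div_neg_eq]
  · simp only [nu, sin_add_pi, cos_add_pi, neg_eq_zero, deriv_of_anti pnx hz, pnx z hz, mul_neg,
      neg_div_neg_eq]
  · simp only [Yf, pell z hz, pnz z hz, neg_div]
    ring
  · simp only [et, pnz z hz, pnx z hz, pmZ z hz, pmX z hz]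
    ring
  · simp only [chip, pnz z hz, pnx z hz, sh1,
      deriv_of_anti h.aZ (add_real_mem_band hz al), deriv_of_anti h.aX (add_real_mem_band hz al)]
    ring
  · simp only [chim, pnz z hz, pnx z hz, sh2,
      deriv_of_anti h.aZ (sub_real_mem_band hz al), deriv_of_anti h.aX (sub_real_mem_band hz al)]
    ring

theorem conj_real (x : ℝ) : (starRingEnd ℂ) (x : ℂ) = (x : ℂ) := conj_ofReal x

/-- reality of the chord quantities -/
theorem cReal {al r : ℝ} {Z X : ℂ → ℂ} (h : RealC r Z X)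
    (hsl : ∀ t ∈ strip r, (nz al X t) ^ 2 + (nx al Z t) ^ 2 ∈ slitPlane) :
    ∀ z ∈ strip r, xi X ((starRingEnd ℂ) z) = (starRingEnd ℂ) (xi X z) ∧
        nu al Z ((starRingEnd ℂ) z) = (starRingEnd ℂ) (nu al Z z) ∧
        ell al Z X ((starRingEnd ℂ) z) = (starRingEnd ℂ) (ell al Z X z) ∧
        Yf al Z X ((starRingEnd ℂ) z) = (starRingEnd ℂ) (Yf al Z X z) ∧
        et al Z X ((starRingEnd ℂ) z) = (starRingEnd ℂ) (et al Z X z) ∧
        chip al Z X ((starRingEnd ℂ) z) = (starRingEnd ℂ) (chip al Z X z) ∧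
        chim al Z X ((starRingEnd ℂ) z) = (starRingEnd ℂ) (chim al Z X z) := by
  have sh1 : ∀ z : ℂ, (starRingEnd ℂ) z + (al:ℂ) = (starRingEnd ℂ) (z + (al:ℂ)) := fun z => by
    rw [map_add, conj_real]
  have sh2 : ∀ z : ℂ, (starRingEnd ℂ) z - (al:ℂ) = (starRingEnd ℂ) (z - (al:ℂ)) := fun z => by
    rw [map_sub, conj_real]
  have hnz : ∀ z ∈ strip r, nz al X ((starRingEnd ℂ) z) = (starRingEnd ℂ) (nz al X z) := by
    intro z hz
    simp only [nz, df, sh1, sh2]
    rw [h.rX _ (sub_real_mem_band hz al), h.rX _ (add_real_mem_band hz al)]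
    simp [conj_ofNat]
  have hnx : ∀ z ∈ strip r, nx al Z ((starRingEnd ℂ) z) = (starRingEnd ℂ) (nx al Z z) := by
    intro z hz
    simp only [nx, df, sh1, sh2]
    rw [h.rZ _ (sub_real_mem_band hz al), h.rZ _ (add_real_mem_band hz al)]
    simp [conj_ofNat]
  have hmZ : ∀ z ∈ strip r, md al Z ((starRingEnd ℂ) z) = (starRingEnd ℂ) (md al Z z) := by
    intro z hz
    simp only [md, sh1, sh2]
    rw [h.rZ _ (sub_real_mem_band hz al), h.rZ _ (add_real_mem_band hz al)]
    simp [conj_ofNat]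
  have hmX : ∀ z ∈ strip r, md al X ((starRingEnd ℂ) z) = (starRingEnd ℂ) (md al X z) := by
    intro z hz
    simp only [md, sh1, sh2]
    rw [h.rX _ (sub_real_mem_band hz al), h.rX _ (add_real_mem_band hz al)]
    simp [conj_ofNat]
  have hell : ∀ z ∈ strip r, ell al Z X ((starRingEnd ℂ) z) = (starRingEnd ℂ) (ell al Z X z) := by
    intro z hz
    simp only [ell, hnz z hz, hnx z hz]
    rw [← map_pow, ← map_pow, ← map_add, conj_cpow _ _ (mem_slitPlane_iff_arg.1 (hsl z hz)).1]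
    congr 1
    simp [conj_ofNat]
  intro z hz
  refine ⟨?_, ?_, hell z hz, ?_, ?_, ?_, ?_⟩
  · simp only [xi, sin_conj, cos_conj, deriv_of_conj h.rX hz, h.rX z hz, map_eq_zero]
    split_ifs <;> simp
  · simp only [nu, sin_conj, cos_conj, deriv_of_conj hnx hz, hnx z hz, map_eq_zero]
    split_ifs <;> simp [-ofReal_sin]
  · simp only [Yf, hell z hz, hnz z hz]
    simp [conj_ofNat]
  · simp only [et, hnz z hz, hnx z hz, hmZ z hz, hmX z hz]
    simp
  · simp only [chip, hnz z hz, hnx z hz, sh1,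
      deriv_of_conj h.rZ (add_real_mem_band hz al), deriv_of_conj h.rX (add_real_mem_band hz al)]
    simp [-ofReal_sin]
  · simp only [chim, hnz z hz, hnx z hz, sh2,
      deriv_of_conj h.rZ (sub_real_mem_band hz al), deriv_of_conj h.rX (sub_real_mem_band hz al)]
    simp [-ofReal_sin]

/-- an odd antiperiodic function vanishes at the zeros of the sine -/
theorem zero_of_sin {r : ℝ} {f : ℂ → ℂ} (ho : ∀ z ∈ strip r, f (-z) = - f z)
    (ha : ∀ z ∈ strip r, f (z + (Real.pi : ℂ)) = - f z) {z : ℂ} (hz : z ∈ strip r)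
    (hs : sin z = 0) : f z = 0 := by
  have hr : 0 < r := by
    have := hz.1.trans hz.2
    linarith
  have h0mem : (0:ℂ) ∈ strip r := by
    constructor <;> simp [hr]
  have h0 : f 0 = 0 := by
    have := ho 0 h0mem
    rw [neg_zero] at this
    exact self_eq_neg.1 this
  have hreal : ∀ x : ℝ, (x : ℂ) ∈ strip r := by
    intro x
    constructor <;> simp [hr]
  have hnat : ∀ k : ℕ, f ((k : ℂ) * (Real.pi : ℂ)) = 0 := by
    intro k
    induction k with
    | zero => simpa using h0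
    | succ k ih =>
      have h1 : ((k + 1 : ℕ) : ℂ) * (Real.pi : ℂ) = (k : ℂ) * (Real.pi : ℂ) + (Real.pi : ℂ) := by
        push_cast
        ring
      have hm : (k : ℂ) * (Real.pi : ℂ) ∈ strip r := by
        have := hreal ((k : ℝ) * Real.pi)
        simpa using this
      rw [h1, ha _ hm, ih, neg_zero]
  rw [Complex.sin_eq_zero_iff] at hs
  obtain ⟨k, hk⟩ := hs
  rw [hk]
  rcases Int.eq_nat_or_neg k with ⟨n, rfl | rfl⟩
  · simpa using hnat n
  · have hm : (n : ℂ) * (Real.pi : ℂ) ∈ strip r := by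
      have := hreal ((n : ℝ) * Real.pi)
      simpa using this
    have h1 : (((-(n:ℤ) : ℤ)) : ℂ) * (Real.pi : ℂ) = -((n : ℂ) * (Real.pi : ℂ)) := by
      push_cast
      ring
    rw [h1, ho _ hm, hnat n, neg_zero]

/-- full strip (removable singularities at `pi k`) -/
theorem fam_strip (R : ℝ) (hR : 1 < R) : ∃ c0 : ℝ, 0 < c0 ∧ ∀ al ∈ JJ, ∀ r : ℝ, 0 < r → r ≤ R →
    ∀ Z X : EE → ℂ → ℂ, FC c0 r Z X →
      Fam (strip r) (fun e => ell al (Z e) (X e)) ∧ Fam (strip r) (fun e => nu al (Z e)) ∧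
      Fam (strip r) (fun e => xi (X e)) ∧ Fam (strip r) (fun e => Yf al (Z e) (X e)) ∧
      (∀ e, ∀ z ∈ strip r, xi (X e) (-z) = xi (X e) z ∧ nu al (Z e) (-z) = nu al (Z e) z ∧
        ell al (Z e) (X e) (-z) = ell al (Z e) (X e) z ∧ Yf al (Z e) (X e) (-z) = Yf al (Z e) (X e) z ∧
        et al (Z e) (X e) (-z) = et al (Z e) (X e) z ∧ chip al (Z e) (X e) (-z) = chim al (Z e) (X e) z ∧
        nz al (X e) (-z) = nz al (X e) z ∧ nx al (Z e) (-z) = - nx al (Z e) z) ∧
      (∀ e, ∀ z ∈ strip r, xi (X e) (z + (Real.pi:ℂ)) = xi (X e) z ∧ nu al (Z e) (z + (Real.pi:ℂ)) = nu al (Z e) z ∧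
        ell al (Z e) (X e) (z + (Real.pi:ℂ)) = ell al (Z e) (X e) z ∧ Yf al (Z e) (X e) (z + (Real.pi:ℂ)) = Yf al (Z e) (X e) z ∧
        et al (Z e) (X e) (z + (Real.pi:ℂ)) = et al (Z e) (X e) z ∧ chip al (Z e) (X e) (z + (Real.pi:ℂ)) = chip al (Z e) (X e) z ∧
        chim al (Z e) (X e) (z + (Real.pi:ℂ)) = chim al (Z e) (X e) z) ∧
      (∀ e, ∀ z ∈ strip r, xi (X e) ((starRingEnd ℂ) z) = (starRingEnd ℂ) (xi (X e) z) ∧
        nu al (Z e) ((starRingEnd ℂ) z) = (starRingEnd ℂ) (nu al (Z e) z) ∧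
        ell al (Z e) (X e) ((starRingEnd ℂ) z) = (starRingEnd ℂ) (ell al (Z e) (X e) z) ∧
        Yf al (Z e) (X e) ((starRingEnd ℂ) z) = (starRingEnd ℂ) (Yf al (Z e) (X e) z) ∧
        et al (Z e) (X e) ((starRingEnd ℂ) z) = (starRingEnd ℂ) (et al (Z e) (X e) z) ∧
        chip al (Z e) (X e) ((starRingEnd ℂ) z) = (starRingEnd ℂ) (chip al (Z e) (X e) z) ∧
        chim al (Z e) (X e) ((starRingEnd ℂ) z) = (starRingEnd ℂ) (chim al (Z e) (X e) z)) := by
  obtain ⟨c0, C, hc0, hC, hCc, H⟩ := chord_bd_strip R hR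
  refine ⟨c0, hc0, fun al hal r hr hrR Z X hN => ?_⟩
  have hB : ∀ e, ∀ t ∈ strip r, ChordBd (C * c0) al (Z e) (X e) t := fun e t ht =>
    (H al hal r c0 hr hrR hc0.le le_rfl (Z e) (X e) (hN.nb e) (hN.sy e) t ht).1
  obtain ⟨h1, h2, hsl⟩ := fam_ell hN.fZ hN.fX hal hCc hB
  obtain ⟨-, -, -, h4, -, -, -⟩ := fam_chord (al := al) hN.fZ hN.fX
  obtain ⟨-, -, -, -, -, hs1, hs2⟩ := JJ_bounds hal
  have hsal : (Real.sin al : ℂ) ≠ 0 := by
    rw [Ne, ofReal_eq_zero]
    linarith
  have hsym : ∀ e, CSym al r (Z e) (X e) := fun e => cSym_of_sym (hN.sy e)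
  have hnxa : ∀ e, ∀ z ∈ strip r, nx al (Z e) (z + (Real.pi:ℂ)) = - nx al (Z e) z := by
    intro e z hz
    have sh1 : z + (Real.pi:ℂ) + (al:ℂ) = (z + (al:ℂ)) + (Real.pi:ℂ) := by ring
    have sh2 : z + (Real.pi:ℂ) - (al:ℂ) = (z - (al:ℂ)) + (Real.pi:ℂ) := by ring
    simp only [nx, df, sh1, sh2]
    rw [(hN.sy e).aZ _ (sub_real_mem_band hz al), (hN.sy e).aZ _ (add_real_mem_band hz al)]
    ring
  refine ⟨h1, ?_, ?_, h2, fun e => (hsym e).ev, fun e => (hsym e).pe,
    fun e => cReal (hN.re e) (hsl e)⟩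
  · have hq : Fam (strip r) (fun e => qs (nx al (Z e))) := fam_qs h4 fun e z hz hs =>
      zero_of_sin (fun z hz => ((hsym e).ev z hz).2.2.2.2.2.2.2) (hnxa e) hz hs
    refine (hq.divc (Real.sin al : ℂ)).congr fun e z _ => ?_
    simp only [qs, nu]
    split_ifs with hs
    · have := cos_ne_zero_of_sin hs
      field_simp
    · field_simp
  · refine (fam_qs hN.fX fun e z hz hs => zero_of_sin (hN.sy e).oX (hN.sy e).aX hz hs).congr
      fun e z _ => ?_
    rfl

end FB
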