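import Pool.Agent.H48.FB.B01
import Pool.Agent.H48.FB.B03
import Pool.Agent.H48.FB.A12

/-! B04: the square root variable `yy`. -/

open Complex Set MeasureTheory Filter Topology

noncomputable section

namespace FB

/-! ### auxiliary facts -/

theorem norm_exp_two_lt {t : ℂ} (ht : 1 ≤ t.im) : ‖exp (2 * I * t)‖ < 1 / 5 := by
  rw [norm_exp]
  have h1 : (2 * I * t).re = -(2 * t.im) := by simp [mul_re, mul_im]
  rw [h1]
  have h2 : Real.exp (-(2 * t.im)) ≤ Real.exp (-2) := Real.exp_le_exp.2 (by linarith)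
  have h3 : Real.exp (-2) = (Real.exp 1)⁻¹ * (Real.exp 1)⁻¹ := by
    rw [← Real.exp_neg, ← Real.exp_add]
    norm_num
  have h4 : (2.7182818283 : ℝ) < Real.exp 1 := Real.exp_one_gt_d9
  have h5 : (Real.exp 1)⁻¹ ≤ (2.7 : ℝ)⁻¹ := inv_anti₀ (by norm_num) (by linarith)
  have h6 : 0 < (Real.exp 1)⁻¹ := by positivity
  have h7 : (Real.exp 1)⁻¹ * (Real.exp 1)⁻¹ ≤ (2.7 : ℝ)⁻¹ * (2.7 : ℝ)⁻¹ :=
    mul_le_mul h5 h5 h6.le (by norm_num)
  have h8 : (2.7 : ℝ)⁻¹ * (2.7 : ℝ)⁻¹ < 1 / 5 := by norm_num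
  linarith

theorem prod_slit {a b : ℂ} (ha : ‖a‖ < 1 / 5) (hb : ‖b‖ < 1 / 5) :
    (1 - a) * (1 - b) ∈ slitPlane := by
  left
  have h1 : |(a + b - a * b).re| ≤ ‖a‖ + ‖b‖ + ‖a‖ * ‖b‖ := by
    refine (abs_re_le_norm _).trans ((norm_sub_le _ _).trans ?_)
    rw [norm_mul]
    linarith [norm_add_le a b]
  have h2 : (1 - a) * (1 - b) = 1 - (a + b - a * b) := by ring
  rw [h2, sub_re, one_re]
  have h3 := (abs_le.1 h1).2
  have h4 : ‖a‖ * ‖b‖ ≤ 1 / 5 * (1 / 5) :=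
    mul_le_mul ha.le hb.le (norm_nonneg _) (by norm_num)
  linarith

theorem prod_slit' {t s : ℂ} (ht : 1 ≤ t.im) (hs : 1 ≤ (t + s).im) :
    (1 - exp (2 * I * t)) * (1 - exp (2 * I * (t + s))) ∈ slitPlane :=
  prod_slit (norm_exp_two_lt ht) (norm_exp_two_lt hs)

theorem sin_eq_exp (t : ℂ) : sin t = I / 2 * exp (-(I * t)) * (1 - exp (2 * I * t)) := by
  have h1 : exp (2 * I * t) = exp (I * t) * exp (I * t) := by
    rw [← exp_add]
    congr 1
    ring
  have h2 : exp (-(I * t)) * exp (I * t) = 1 := by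
    rw [← exp_add, neg_add_cancel, exp_zero]
  have h3 : sin t = (exp (-(I * t)) - exp (I * t)) * I / 2 := by
    rw [Complex.sin]
    congr 3
    · congr 1
      ring
    · congr 1
      ring
  rw [h3, h1]
  linear_combination (I / 2 * exp (I * t)) * h2

theorem cpow_neg_half_sq (w : ℂ) : (w ^ (-((1:ℂ)/2))) ^ 2 = w⁻¹ := by
  rw [← cpow_nat_mul, show ((2:ℕ):ℂ) * (-((1:ℂ)/2)) = -1 by push_cast; ring, cpow_neg_one]

theorem cpow_half_sq (w : ℂ) : (w ^ ((1:ℂ)/2)) ^ 2 = w := by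
  rw [← cpow_nat_mul, show ((2:ℕ):ℂ) * ((1:ℂ)/2) = 1 by push_cast; ring, cpow_one]

/-- `q0 t s ^ 2 = 1 / (sin t sin (t+s))` on the upper half plane, and `q0` is analytic there
(`|e^{2it}| < 1`, `|e^{2i(t+s)}| < 1`, so the product `(1 - ..)(1 - ..)` is in the slit plane when `Im ≥ 1/2`: its argument is `< pi`). -/
theorem q0_sq {t s : ℂ} (ht : 1 ≤ t.im) (hs : 1 ≤ (t + s).im) : q0 t s ^ 2 = 1 / (sin t * sin (t + s)) ∧ q0 t s ≠ 0 := by
  have hW := slitPlane_ne_zero (prod_slit' ht hs)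
  have hW1 : (1 - exp (2 * I * t)) ≠ 0 := left_ne_zero_of_mul hW
  have hW2 : (1 - exp (2 * I * (t + s))) ≠ 0 := right_ne_zero_of_mul hW
  constructor
  · rw [q0, mul_pow, mul_pow, mul_pow, cpow_neg_half_sq, I_sq, sin_eq_exp t, sin_eq_exp (t + s)]
    have h1 : exp (I * (t + s / 2)) ^ 2 * (exp (-(I * t)) * exp (-(I * (t + s)))) = 1 := by
      rw [sq, ← exp_add, ← exp_add, ← exp_add]
      rw [show I * (t + s / 2) + I * (t + s / 2) + (-(I * t) + -(I * (t + s))) = 0 by ring, exp_zero]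
    have h2 : exp (-(I * t)) ≠ 0 := exp_ne_zero _
    have h3 : exp (-(I * (t + s))) ≠ 0 := exp_ne_zero _
    have hI : I ^ 2 = -1 := I_sq
    have hI0 := I_ne_zero
    generalize exp (I * (t + s / 2)) = E at *
    generalize exp (-(I * t)) = e1 at *
    generalize exp (-(I * (t + s))) = e2 at *
    generalize exp (2 * I * t) = u at *
    generalize exp (2 * I * (t + s)) = v at *
    rw [eq_div_iff (mul_ne_zero (mul_ne_zero (mul_ne_zero (div_ne_zero hI0 two_ne_zero) h2) hW1)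
      (mul_ne_zero (mul_ne_zero (div_ne_zero hI0 two_ne_zero) h3) hW2))]
    have h4 : ((1 - u) * (1 - v))⁻¹ * ((1 - u) * (1 - v)) = 1 := inv_mul_cancel₀ hW
    linear_combination ((-1) * I ^ 2 * (E ^ 2 * (e1 * e2)) * 1) * h4 + (-I ^ 2) * h1 + (-1) * hI
  · rw [q0]
    refine mul_ne_zero (mul_ne_zero (mul_ne_zero (by norm_num) I_ne_zero) (exp_ne_zero _)) ?_
    rw [cpow_def_of_ne_zero hW]
    exact exp_ne_zero _

theorem q0_diff {t s : ℂ} (ht : 1 ≤ t.im) (hs : 1 ≤ (t + s).im) :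
    DifferentiableAt ℂ (fun t => q0 t s) t ∧ DifferentiableAt ℂ (fun s => q0 t s) s ∧
    ContinuousAt (fun p : ℂ × ℂ => q0 p.1 p.2) (t, s) := by
  have hW := prod_slit' ht hs
  refine ⟨?_, ?_, ?_⟩
  · unfold q0
    refine DifferentiableAt.mul (by fun_prop) ?_
    exact DifferentiableAt.cpow_const (by fun_prop) hW
  · unfold q0
    refine DifferentiableAt.mul (by fun_prop) ?_
    exact DifferentiableAt.cpow_const (by fun_prop) hW
  · unfold q0
    refine ContinuousAt.mul (by fun_prop) ?_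
    exact ContinuousAt.cpow (by fun_prop) continuousAt_const hW

theorem q0_pi (t s : ℂ) : q0 (t + (Real.pi : ℂ)) s = - q0 t s := by
  have h1 : exp (I * (t + (Real.pi : ℂ) + s / 2)) = - exp (I * (t + s / 2)) := by
    rw [show I * (t + (Real.pi : ℂ) + s / 2) = I * (t + s / 2) + (Real.pi : ℂ) * I by ring, exp_add,
      exp_pi_mul_I]
    ring
  have h2 : ∀ w : ℂ, exp (2 * I * (w + (Real.pi : ℂ))) = exp (2 * I * w) := by
    intro w
    rw [show 2 * I * (w + (Real.pi : ℂ)) = 2 * I * w + 2 * (Real.pi : ℂ) * I by ring, exp_add,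
      exp_two_pi_mul_I, mul_one]
  have h3 : t + (Real.pi : ℂ) + s = (t + s) + (Real.pi : ℂ) := by ring
  rw [q0, q0, h3, h2, h2, h1]
  ring

theorem exp_I_conj (c : ℝ) (w : ℂ) :
    exp ((c : ℂ) * I * (-(starRingEnd ℂ) w)) = (starRingEnd ℂ) (exp ((c : ℂ) * I * w)) := by
  rw [← exp_conj]
  congr 1
  simp

theorem q0_conj {t s : ℂ} (ht : 1 ≤ t.im) (hs : 1 ≤ (t + s).im) :
    q0 (-(starRingEnd ℂ) t) (-(starRingEnd ℂ) s) = - (starRingEnd ℂ) (q0 t s) := by
  have hW := prod_slit' ht hs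
  have h1 : exp (I * (-(starRingEnd ℂ) t + -(starRingEnd ℂ) s / 2)) =
      (starRingEnd ℂ) (exp (I * (t + s / 2))) := by
    have := exp_I_conj 1 (t + s / 2)
    rw [ofReal_one, one_mul] at this
    rw [← this]
    congr 2
    rw [map_add, map_div₀, conj_ofNat]
    ring
  have h2 : exp (2 * I * (-(starRingEnd ℂ) t)) = (starRingEnd ℂ) (exp (2 * I * t)) := by
    have := exp_I_conj 2 t
    rwa [ofReal_ofNat] at this
  have h3 : exp (2 * I * (-(starRingEnd ℂ) t + -(starRingEnd ℂ) s)) =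
      (starRingEnd ℂ) (exp (2 * I * (t + s))) := by
    have := exp_I_conj 2 (t + s)
    rw [ofReal_ofNat, map_add, neg_add] at this
    exact this
  rw [q0, q0, h1, h2, h3]
  have h4 : ((1 - (starRingEnd ℂ) (exp (2 * I * t))) * (1 - (starRingEnd ℂ) (exp (2 * I * (t + s))))) ^ (-((1:ℂ)/2)) =
      (starRingEnd ℂ) (((1 - exp (2 * I * t)) * (1 - exp (2 * I * (t + s)))) ^ (-((1:ℂ)/2))) := by
    have h5 : (1 - (starRingEnd ℂ) (exp (2 * I * t))) * (1 - (starRingEnd ℂ) (exp (2 * I * (t + s)))) =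
        (starRingEnd ℂ) ((1 - exp (2 * I * t)) * (1 - exp (2 * I * (t + s)))) := by
      simp only [map_mul, map_sub, map_one]
    rw [h5, conj_cpow _ _ (mem_slitPlane_iff_arg.1 hW).1]
    congr 2
    simp [conj_ofNat]
  rw [h4]
  simp only [map_mul, map_neg, conj_ofNat, conj_I]
  ring

/-- for real `s ∈ (-al, al)`: `kk al s = sqrt (cos s - cos al) > 0` -/
theorem kk_real {al s : ℝ} (h : Real.cos al ≤ Real.cos s) :
    kk al (s:ℂ) = ((Real.sqrt (Real.cos s - Real.cos al) : ℝ) : ℂ) := by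
  rw [kk, ← ofReal_cos, ← ofReal_sub, Real.sqrt_eq_rpow, ofReal_cpow (by linarith)]
  congr 1
  push_cast
  ring

/-- the quotient under the square root -/
def rho (al : ℝ) (Z X : ℂ → ℂ) (t s : ℂ) : ℂ := chi al Z X t s / (nu al Z t * xi X (t + s))

theorem yy_eq (al : ℝ) (Z X : ℂ → ℂ) (t s : ℂ) :
    yy al Z X t s = kk al s * (q0 t s * rho al Z X t s ^ ((1:ℂ)/2)) := rfl

theorem rho_bd {x n u : ℂ} (hx : ‖x - 1‖ ≤ 1/100) (hn : ‖n - 1‖ ≤ 1/100) (hu : ‖u - 1‖ ≤ 1/100) :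
    ‖x / (n * u)‖ ≤ 1.04 ∧ x / (n * u) ∈ slitPlane ∧ x ≠ 0 ∧ n ≠ 0 ∧ u ≠ 0 := by
  have hx1 : ‖x‖ ≤ 1.01 := by
    have := norm_add_le (x - 1) 1
    rw [sub_add_cancel, norm_one] at this
    linarith
  have lower : ∀ w : ℂ, ‖w - 1‖ ≤ 1/100 → 0.99 ≤ ‖w‖ := by
    intro w hw
    have := norm_sub_norm_le (1:ℂ) (1 - w)
    rw [sub_sub_cancel, norm_one, ← norm_neg (1 - w), neg_sub] at this
    linarith
  have hxl := lower x hx
  have hnl := lower n hn
  have hul := lower u hu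
  have hx0 : x ≠ 0 := norm_pos_iff.1 (by linarith)
  have hn0 : n ≠ 0 := norm_pos_iff.1 (by linarith)
  have hu0 : u ≠ 0 := norm_pos_iff.1 (by linarith)
  have hnu : 0.98 ≤ ‖n * u‖ := by
    rw [norm_mul]
    nlinarith
  have hpos : 0 < ‖n * u‖ := by linarith
  refine ⟨?_, ?_, hx0, hn0, hu0⟩
  · rw [norm_div, div_le_iff₀ hpos]
    nlinarith
  · left
    have h1 : x / (n * u) - 1 = ((x - 1) - (n - 1) * (u - 1) - (n - 1) - (u - 1)) / (n * u) := by
      field_simp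
      ring
    have h2 : ‖x / (n * u) - 1‖ ≤ 1 / 2 := by
      rw [h1, norm_div, div_le_iff₀ hpos]
      have h3 : ‖(x - 1) - (n - 1) * (u - 1) - (n - 1) - (u - 1)‖ ≤
          ‖x - 1‖ + ‖n - 1‖ * ‖u - 1‖ + ‖n - 1‖ + ‖u - 1‖ := by
        refine (norm_sub_le _ _).trans (add_le_add ?_ le_rfl)
        refine (norm_sub_le _ _).trans (add_le_add ?_ le_rfl)
        refine (norm_sub_le _ _).trans (add_le_add le_rfl ?_)
        rw [norm_mul]
      have h4 : ‖n - 1‖ * ‖u - 1‖ ≤ 1/100 * (1/100) :=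
        mul_le_mul hn hu (norm_nonneg _) (by norm_num)
      nlinarith
    have h5 := (abs_le.1 ((abs_re_le_norm _).trans h2)).1
    rw [sub_re, one_re] at h5
    linarith

theorem sin_im_ge {t : ℂ} (ht : 1 ≤ t.im) : 1.38 ≤ ‖sin t‖ ^ 2 := by
  have h1 : ‖sin t‖ ^ 2 = Real.sin t.re ^ 2 + Real.sinh t.im ^ 2 := by
    have h2 : ‖sin t‖ ^ 2 = (sin t).re ^ 2 + (sin t).im ^ 2 := by
      rw [← normSq_eq_norm_sq, normSq_apply]
      ring
    have h3 : (sin t).re = Real.sin t.re * Real.cosh t.im := by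
      conv_lhs => rw [← re_add_im t, sin_add, ← ofReal_sin, ← ofReal_cos]
      rw [cos_mul_I, sin_mul_I, ← ofReal_cosh, ← ofReal_sinh]
      simp only [add_re, mul_re, mul_im, ofReal_re, ofReal_im, I_re, I_im]
      ring
    have h4 : (sin t).im = Real.cos t.re * Real.sinh t.im := by
      conv_lhs => rw [← re_add_im t, sin_add, ← ofReal_sin, ← ofReal_cos]
      rw [cos_mul_I, sin_mul_I, ← ofReal_cosh, ← ofReal_sinh]
      simp only [add_im, mul_re, mul_im, ofReal_re, ofReal_im, I_re, I_im]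
      ring
    rw [h2, h3, h4]
    have h5 := Real.cosh_sq t.im
    have h6 := Real.sin_sq_add_cos_sq t.re
    have h7 : (Real.sin t.re * Real.cosh t.im) ^ 2 = Real.sin t.re ^ 2 * Real.cosh t.im ^ 2 := by ring
    rw [h7, h5]
    linear_combination (Real.sinh t.im ^ 2) * h6
  have h8 : 1.175 ≤ Real.sinh t.im := by
    have h9 : Real.sinh 1 ≤ Real.sinh t.im := Real.sinh_le_sinh.2 ht
    have h10 : 1.175 ≤ Real.sinh 1 := by
      rw [Real.sinh_eq]
      have h4 : (2.7182818283 : ℝ) < Real.exp 1 := Real.exp_one_gt_d9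
      have h5 : Real.exp (-1) ≤ (2.718 : ℝ)⁻¹ := by
        rw [Real.exp_neg]
        exact inv_anti₀ (by norm_num) (by linarith)
      have h6 : (2.718 : ℝ)⁻¹ ≤ 0.36792 := by norm_num
      linarith
    linarith
  rw [h1]
  nlinarith [sq_nonneg (Real.sin t.re)]

theorem cos_gt {al s : ℝ} (hal : al ∈ JJ) (hs : s ∈ Ioo (-al) al) : Real.cos al < Real.cos s := by
  obtain ⟨h1, h2, h3, -⟩ := JJ_bounds hal
  rw [← Real.cos_abs s]
  exact Real.cos_lt_cos_of_nonneg_of_le_pi (abs_nonneg _) (by linarith [Real.pi_pos]) (abs_lt.2 hs)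

/-- what is used of `chord_bd` at one point -/
structure PtBd (al : ℝ) (Z X : ℂ → ℂ) (t s : ℂ) : Prop where
  nu : ‖nu al Z t - 1‖ ≤ 1/100
  xi : ‖xi X (t + s) - 1‖ ≤ 1/100
  chi : ‖chi al Z X t s - 1‖ ≤ 1/100

theorem add_real_im (t : ℂ) (s : ℝ) : (t + (s : ℂ)).im = t.im := by simp

/-- values of the quotients -/
theorem nu_eq {al : ℝ} {Z : ℂ → ℂ} {t : ℂ} (hs : sin t ≠ 0) :
    nu al Z t = nx al Z t / ((Real.sin al : ℂ) * sin t) := by
  simp only [nu, if_neg hs]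

theorem xi_eq {X : ℂ → ℂ} {t : ℂ} (hs : sin t ≠ 0) : xi X t = X t / sin t := by
  simp only [xi, if_neg hs]

theorem om_norm {al : ℝ} {Z X : ℂ → ℂ} {t s : ℂ} (ht : 1 ≤ t.im) (hs : 1 ≤ (t + s).im)
    (hb : PtBd al Z X t s) : ‖om al Z X t s‖ ^ 2 ≤ 1.04 / 1.38 := by
  obtain ⟨h1, h2, -⟩ := rho_bd hb.chi hb.nu hb.xi
  have h3 : om al Z X t s ^ 2 = 1 / (sin t * sin (t + s)) * rho al Z X t s := by
    rw [om, mul_pow, (q0_sq ht hs).1, cpow_half_sq]
    rfl
  rw [← norm_pow, h3, norm_mul, norm_div, norm_one, norm_mul]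
  have h4 := sin_im_ge ht
  have h5 := sin_im_ge hs
  have h6 : 1.38 ≤ ‖sin t‖ * ‖sin (t + s)‖ := by
    have h7 : (1.38 : ℝ) ^ 2 ≤ (‖sin t‖ * ‖sin (t + s)‖) ^ 2 := by
      rw [mul_pow]
      nlinarith
    exact le_of_sq_le_sq h7 (by positivity)
  have h8 : 1 / (‖sin t‖ * ‖sin (t + s)‖) ≤ 1 / 1.38 :=
    one_div_le_one_div_of_le (by norm_num) h6
  have h9 : ‖rho al Z X t s‖ ≤ 1.04 := h1
  calc 1 / (‖sin t‖ * ‖sin (t + s)‖) * ‖rho al Z X t s‖ ≤ 1 / 1.38 * 1.04 :=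
        mul_le_mul h8 h9 (norm_nonneg _) (by norm_num)
    _ = 1.04 / 1.38 := by norm_num

/-- the basic facts on `yy` for real `s` -/
theorem yy_basic (R : ℝ) (hR : 1 < R) : ∃ c0 : ℝ, 0 < c0 ∧
    ∀ al ∈ JJ, ∀ a b : ℝ, 1 ≤ a → b ≤ R → ∀ Z X : ℂ → ℂ, NB c0 a b Z X → ∀ t ∈ band a b, ∀ s ∈ Ioo (-al) al,
      yy al Z X t (s:ℂ) ≠ 0 ∧ ‖yy al Z X t (s:ℂ)‖ ^ 2 ≤ 1/2 ∧ ‖om al Z X t (s:ℂ)‖ ≤ 2 ∧ nx al Z t ≠ 0 ∧ X (t + s) ≠ 0 ∧
      yy al Z X t (s:ℂ) ^ 2 = (nz al X t * Z (t + s) + nx al Z t * X (t + s) - et al Z X t) / (nx al Z t * X (t + s)) ∧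
      DifferentiableAt ℂ (fun t => yy al Z X t (s:ℂ)) t ∧ ContinuousAt (fun s : ℝ => yy al Z X t (s:ℂ)) s ∧
      (∃ y' : ℂ, HasDerivAt (fun s : ℝ => yy al Z X t (s:ℂ)) y' s) := by
  obtain ⟨c0, C, hc0, hC, hCc, H⟩ := chord_bd R hR
  refine ⟨c0, hc0, fun al hal a b ha hb Z X hN t ht s hs => ?_⟩
  obtain ⟨hB, hxi, hchi⟩ := H al hal a b c0 ha hb hc0.le le_rfl Z X hN t ht
  obtain ⟨hj1, hj2, hj3, hj4, hj5, hs1, hs2⟩ := JJ_bounds hal
  have him : 1 ≤ t.im := by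
    have := ht.1
    linarith
  have him' : 1 ≤ (t + (s:ℂ)).im := by
    rw [add_real_im]
    exact him
  have hpt : PtBd al Z X t (s:ℂ) := ⟨hB.nu.trans hCc, (hxi s).trans hCc, (hchi s hs).trans hCc⟩
  obtain ⟨hr1, hr2, hc0', hn0, hx0⟩ := rho_bd hpt.chi hpt.nu hpt.xi
  have hsal : (Real.sin al : ℂ) ≠ 0 := by
    rw [Ne, ofReal_eq_zero]
    linarith
  have hst : sin t ≠ 0 := sin_ne_zero_of_im (by linarith)
  have hsts : sin (t + (s:ℂ)) ≠ 0 := sin_ne_zero_of_im (by linarith)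
  have hcos := cos_gt hal hs
  have hkd : cos (s:ℂ) - (Real.cos al : ℂ) ≠ 0 := by
    rw [← ofReal_cos, ← ofReal_sub, Ne, ofReal_eq_zero]
    linarith
  have hkk : kk al (s:ℂ) ≠ 0 := by
    rw [kk, cpow_def_of_ne_zero hkd]
    exact exp_ne_zero _
  have hom := om_norm him him' hpt
  have hnx : nx al Z t ≠ 0 := by
    intro h0
    apply hn0
    rw [nu_eq hst, h0, zero_div]
  have hXs : X (t + (s:ℂ)) ≠ 0 := by
    intro h0
    apply hx0
    rw [xi_eq hsts, h0, zero_div]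
  have hrho : rho al Z X t (s:ℂ) ≠ 0 := slitPlane_ne_zero hr2
  have hyy : yy al Z X t (s:ℂ) ≠ 0 := by
    rw [yy_eq]
    refine mul_ne_zero hkk (mul_ne_zero (q0_sq him him').2 ?_)
    rw [cpow_def_of_ne_zero hrho]
    exact exp_ne_zero _
  have hbo : IsOpen (band a b) := isOpen_band a b
  refine ⟨hyy, ?_, ?_, hnx, hXs, ?_, ?_, ?_⟩
  · rw [yy, norm_mul, mul_pow, ← norm_pow, kk, cpow_half_sq, ← ofReal_cos, ← ofReal_sub,
      norm_real, Real.norm_eq_abs, abs_of_pos (by linarith)]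
    have h1 : Real.cos s - Real.cos al ≤ 0.64 := by
      have := Real.cos_le_one s
      linarith
    have h2 : (Real.cos s - Real.cos al) * ‖om al Z X t (s:ℂ)‖ ^ 2 ≤ 0.64 * (1.04 / 1.38) :=
      mul_le_mul h1 hom (by positivity) (by norm_num)
    refine h2.trans (by norm_num)
  · have h1 : ‖om al Z X t (s:ℂ)‖ ^ 2 ≤ 2 ^ 2 := hom.trans (by norm_num)
    exact le_of_sq_le_sq h1 (by norm_num)
  · rw [yy_eq, mul_pow, mul_pow, (q0_sq him him').1, cpow_half_sq, kk, cpow_half_sq, rho, chi, Hq,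
      nu_eq hst, xi_eq hsts]
    field_simp
  · -- differentiability in `t`
    have hZ : ∀ w ∈ band a b, DifferentiableAt ℂ Z w := fun w hw =>
      hN.dZ.differentiableAt (hbo.mem_nhds hw)
    have hX : ∀ w ∈ band a b, DifferentiableAt ℂ X w := fun w hw =>
      hN.dX.differentiableAt (hbo.mem_nhds hw)
    have hsh : ∀ (f : ℂ → ℂ) (c : ℂ), DifferentiableAt ℂ f (t + c) →
        DifferentiableAt ℂ (fun w => f (w + c)) t := fun f c hf =>
      hf.comp (f := fun w => w + c) t (differentiableAt_id.add_const c)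
    have hsh' : ∀ (f : ℂ → ℂ) (c : ℂ), DifferentiableAt ℂ f (t - c) →
        DifferentiableAt ℂ (fun w => f (w - c)) t := fun f c hf =>
      hf.comp (f := fun w => w - c) t (differentiableAt_id.sub_const c)
    have dnz : DifferentiableAt ℂ (nz al X) t := by
      unfold nz df
      exact ((hsh X _ (hX _ (add_real_mem_band ht al))).fun_sub
        (hsh' X _ (hX _ (sub_real_mem_band ht al)))).div_const 2
    have dnx : DifferentiableAt ℂ (nx al Z) t := by
      unfold nx df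
      exact (((hsh Z _ (hZ _ (add_real_mem_band ht al))).fun_sub
        (hsh' Z _ (hZ _ (sub_real_mem_band ht al)))).div_const 2).fun_neg
    have dmZ : DifferentiableAt ℂ (md al Z) t := by
      unfold md
      exact ((hsh Z _ (hZ _ (add_real_mem_band ht al))).fun_add
        (hsh' Z _ (hZ _ (sub_real_mem_band ht al)))).div_const 2
    have dmX : DifferentiableAt ℂ (md al X) t := by
      unfold md
      exact ((hsh X _ (hX _ (add_real_mem_band ht al))).fun_add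
        (hsh' X _ (hX _ (sub_real_mem_band ht al)))).div_const 2
    have det : DifferentiableAt ℂ (et al Z X) t := by
      unfold et
      exact (dnz.fun_mul dmZ).fun_add (dnx.fun_mul dmX)
    have dchi : DifferentiableAt ℂ (fun w => chi al Z X w (s:ℂ)) t := by
      unfold chi Hq
      exact ((((dnz.fun_mul (hsh Z _ (hZ _ (add_real_mem_band ht s)))).fun_add
        (dnx.fun_mul (hsh X _ (hX _ (add_real_mem_band ht s))))).fun_sub det).div_const _).div_const _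
    have dnu : DifferentiableAt ℂ (nu al Z) t := by
      have h1 : DifferentiableAt ℂ (fun w => nx al Z w / ((Real.sin al : ℂ) * sin w)) t :=
        dnx.fun_div (by fun_prop) (mul_ne_zero hsal hst)
      refine h1.congr_of_eventuallyEq ?_
      filter_upwards [Complex.continuous_sin.continuousAt.eventually_ne hst] with w hw
      exact nu_eq hw
    have dxi : DifferentiableAt ℂ (xi X) (t + (s:ℂ)) := by
      have h1 : DifferentiableAt ℂ (fun w => X w / sin w) (t + (s:ℂ)) :=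
        (hX _ (add_real_mem_band ht s)).fun_div (by fun_prop) hsts
      refine h1.congr_of_eventuallyEq ?_
      filter_upwards [Complex.continuous_sin.continuousAt.eventually_ne hsts] with w hw
      exact xi_eq hw
    have drho : DifferentiableAt ℂ (fun w => rho al Z X w (s:ℂ)) t := by
      unfold rho
      exact dchi.fun_div (dnu.fun_mul (hsh (xi X) _ dxi)) (mul_ne_zero hn0 hx0)
    have h2 : (fun w => yy al Z X w (s:ℂ)) =
        fun w => kk al (s:ℂ) * (q0 w (s:ℂ) * rho al Z X w (s:ℂ) ^ ((1:ℂ)/2)) := rfl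
    rw [h2]
    exact (((q0_diff him him').1.fun_mul (drho.cpow_const hr2))).const_mul _
  · -- in `s`
    have hZ : DifferentiableAt ℂ Z (t + (s:ℂ)) :=
      hN.dZ.differentiableAt (hbo.mem_nhds (add_real_mem_band ht s))
    have hX : DifferentiableAt ℂ X (t + (s:ℂ)) :=
      hN.dX.differentiableAt (hbo.mem_nhds (add_real_mem_band ht s))
    have hsh : ∀ (f : ℂ → ℂ), DifferentiableAt ℂ f (t + (s:ℂ)) →
        DifferentiableAt ℂ (fun w => f (t + w)) (s:ℂ) := fun f hf =>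
      hf.comp (f := fun w => t + w) (s:ℂ) (differentiableAt_id.const_add t)
    have dk : DifferentiableAt ℂ (fun w => kk al w) (s:ℂ) := by
      unfold kk
      refine DifferentiableAt.cpow_const (by fun_prop) ?_
      left
      rw [← ofReal_cos, ← ofReal_sub, ofReal_re]
      linarith
    have dchi : DifferentiableAt ℂ (fun w => chi al Z X t w) (s:ℂ) := by
      unfold chi Hq
      refine DifferentiableAt.div_const ?_ _
      refine DifferentiableAt.fun_div ?_ (by fun_prop) hkd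
      exact ((((hsh Z hZ).const_mul _).fun_add ((hsh X hX).const_mul _))).sub_const _
    have dxi : DifferentiableAt ℂ (xi X) (t + (s:ℂ)) := by
      have h1 : DifferentiableAt ℂ (fun w => X w / sin w) (t + (s:ℂ)) :=
        hX.fun_div (by fun_prop) hsts
      refine h1.congr_of_eventuallyEq ?_
      filter_upwards [Complex.continuous_sin.continuousAt.eventually_ne hsts] with w hw
      exact xi_eq hw
    have drho : DifferentiableAt ℂ (fun w => rho al Z X t w) (s:ℂ) := by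
      unfold rho
      exact dchi.fun_div ((hsh (xi X) dxi).const_mul _) (mul_ne_zero hn0 hx0)
    have dyy : DifferentiableAt ℂ (fun w => yy al Z X t w) (s:ℂ) := by
      have h2 : (fun w => yy al Z X t w) =
          fun w => kk al w * (q0 t w * rho al Z X t w ^ ((1:ℂ)/2)) := rfl
      rw [h2]
      exact dk.fun_mul ((q0_diff him him').2.1.fun_mul (drho.cpow_const hr2))
    have hder := dyy.hasDerivAt.comp_ofReal
    exact ⟨hder.continuousAt, _, hder⟩

/-- families -/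
theorem fam_yy (R : ℝ) (hR : 1 < R) : ∃ c0 : ℝ, 0 < c0 ∧ ∀ al ∈ JJ, ∀ a b : ℝ, 1 ≤ a → b ≤ R →
    ∀ Z X : EE → ℂ → ℂ, FNB c0 a b Z X → ∀ s ∈ Ioo (-al) al, Fam (band a b) (fun e t => yy al (Z e) (X e) t (s:ℂ)) := by
  obtain ⟨c0, C, hc0, hC, hCc, H⟩ := chord_bd R hR
  obtain ⟨c1, hc1, H1⟩ := fam_chord' R hR
  refine ⟨min c0 c1, lt_min hc0 hc1, fun al hal a b ha hb Z X hN s hs => ?_⟩
  have hmono : ∀ {c c' : ℝ} {Z X : ℂ → ℂ}, c ≤ c' → NB c a b Z X → NB c' a b Z X :=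
    fun h hn => ⟨hn.dZ, hn.dX, fun z hz => (hn.z0 z hz).trans h, fun z hz => (hn.x0 z hz).trans h,
      fun z hz => (hn.z1 z hz).trans h, fun z hz => (hn.x1 z hz).trans h⟩
  have hN0 : ∀ e, NB c0 a b (Z e) (X e) := fun e => hmono (min_le_left _ _) (hN.nb e)
  have hN1 : FNB c1 a b Z X := ⟨hN.fZ, hN.fX, fun e => hmono (min_le_right _ _) (hN.nb e)⟩
  obtain ⟨-, fnu, fxi, -⟩ := H1 al hal a b ha hb Z X hN1
  obtain ⟨-, -, fnz, fnx, fet, -, -⟩ := fam_chord (al := al) hN.fZ hN.fX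
  have hpt : ∀ e, ∀ t ∈ band a b, PtBd al (Z e) (X e) t (s:ℂ) := by
    intro e t ht
    obtain ⟨hB, hxi, hchi⟩ := H al hal a b c0 ha hb hc0.le le_rfl (Z e) (X e) (hN0 e) t ht
    exact ⟨hB.nu.trans hCc, (hxi s).trans hCc, (hchi s hs).trans hCc⟩
  have hr : ∀ e, ∀ t ∈ band a b, rho al (Z e) (X e) t (s:ℂ) ∈ slitPlane ∧ nu al (Z e) t ≠ 0 ∧
      xi (X e) (t + (s:ℂ)) ≠ 0 := by
    intro e t ht
    obtain ⟨-, h2, -, h4, h5⟩ := rho_bd (hpt e t ht).chi (hpt e t ht).nu (hpt e t ht).xi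
    exact ⟨h2, h4, h5⟩
  have fchi : Fam (band a b) (fun e t => chi al (Z e) (X e) t (s:ℂ)) :=
    ((((fnz.mul (hN.fZ.shift s)).add (fnx.mul (hN.fX.shift s))).sub fet).divc _).divc _
  have frho : Fam (band a b) (fun e t => rho al (Z e) (X e) t (s:ℂ)) :=
    fchi.div (fnu.mul (fxi.shift s)) fun e z hz => mul_ne_zero (hr e z hz).2.1 (hr e z hz).2.2
  have fsq : Fam (band a b) (fun e t => rho al (Z e) (X e) t (s:ℂ) ^ ((1:ℂ)/2)) := by
    refine frho.comp (Φ := fun w => w ^ ((1:ℂ)/2)) (V := slitPlane) ?_ fun e z hz => (hr e z hz).1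
    intro w hw
    exact (differentiableAt_id.cpow_const hw).differentiableWithinAt
  have fq : Fam (band a b) (fun (_ : EE) t => q0 t (s:ℂ)) := by
    refine Fam.const fun t ht => ?_
    have him : 1 ≤ t.im := by
      have := ht.1
      linarith
    exact (q0_diff him (by rw [add_real_im]; exact him)).1.differentiableWithinAt
  exact (fq.mul fsq).smulc (kk al (s:ℂ))

/-- `pi` periodicity and reality of `yy` -/
theorem yy_pi {al a b : ℝ} {Z X : ℂ → ℂ} (h : APer a b Z X) (ha : 0 < a) {t : ℂ} (ht : t ∈ band a b) (s : ℝ) :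
    yy al Z X (t + (Real.pi : ℂ)) (s:ℂ) = - yy al Z X t (s:ℂ) := by
  have him : t.im ≠ 0 := by
    have := ht.1
    linarith
  have hst : sin t ≠ 0 := sin_ne_zero_of_im him
  have hsts : sin (t + (s:ℂ)) ≠ 0 := sin_ne_zero_of_im (by rw [add_real_im]; exact him)
  have sh1 : ∀ c : ℝ, t + (Real.pi:ℂ) + (c:ℂ) = (t + (c:ℂ)) + (Real.pi:ℂ) := fun c => by ring
  have sh2 : t + (Real.pi:ℂ) - (al:ℂ) = (t - (al:ℂ)) + (Real.pi:ℂ) := by ring
  have pnz : nz al X (t + (Real.pi:ℂ)) = - nz al X t := by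
    simp only [nz, df, sh1, sh2]
    rw [h.x _ (sub_real_mem_band ht al), h.x _ (add_real_mem_band ht al)]
    ring
  have pnx : nx al Z (t + (Real.pi:ℂ)) = - nx al Z t := by
    simp only [nx, df, sh1, sh2]
    rw [h.z _ (sub_real_mem_band ht al), h.z _ (add_real_mem_band ht al)]
    ring
  have pmZ : md al Z (t + (Real.pi:ℂ)) = - md al Z t := by
    simp only [md, sh1, sh2]
    rw [h.z _ (sub_real_mem_band ht al), h.z _ (add_real_mem_band ht al)]
    ring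
  have pmX : md al X (t + (Real.pi:ℂ)) = - md al X t := by
    simp only [md, sh1, sh2]
    rw [h.x _ (sub_real_mem_band ht al), h.x _ (add_real_mem_band ht al)]
    ring
  have pet : et al Z X (t + (Real.pi:ℂ)) = et al Z X t := by
    simp only [et, pnz, pnx, pmZ, pmX]
    ring
  have pchi : chi al Z X (t + (Real.pi:ℂ)) (s:ℂ) = chi al Z X t (s:ℂ) := by
    simp only [chi, Hq, pnz, pnx, pet, sh1]
    rw [h.z _ (add_real_mem_band ht s), h.x _ (add_real_mem_band ht s)]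
    ring
  have pnu : nu al Z (t + (Real.pi:ℂ)) = nu al Z t := by
    rw [nu_eq hst, nu_eq (by rw [sin_add_pi]; exact neg_ne_zero.2 hst), pnx, sin_add_pi, mul_neg,
      neg_div_neg_eq]
  have pxi : xi X (t + (Real.pi:ℂ) + (s:ℂ)) = xi X (t + (s:ℂ)) := by
    rw [sh1, xi_eq hsts, xi_eq (by rw [sin_add_pi]; exact neg_ne_zero.2 hsts), sin_add_pi,
      h.x _ (add_real_mem_band ht s), neg_div_neg_eq]
  rw [yy_eq, yy_eq, q0_pi, rho, rho, pchi, pnu, pxi]
  ring

theorem yy_conj (R : ℝ) (hR : 1 < R) : ∃ c0 : ℝ, 0 < c0 ∧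
    ∀ al ∈ JJ, ∀ a b : ℝ, 1 ≤ a → b ≤ R → ∀ Z X : ℂ → ℂ, NB c0 a b Z X → UReal a b Z X → ∀ t ∈ band a b, ∀ s ∈ Ioo (-al) al,
      yy al Z X (-(starRingEnd ℂ) t) ((-s : ℝ) : ℂ) = - (starRingEnd ℂ) (yy al Z X t (s:ℂ)) := by
  obtain ⟨c0, C, hc0, hC, hCc, H⟩ := chord_bd R hR
  refine ⟨c0, hc0, fun al hal a b ha hb Z X hN h t ht s hs => ?_⟩
  obtain ⟨hB, hxi, hchi⟩ := H al hal a b c0 ha hb hc0.le le_rfl Z X hN t ht
  have hpt : PtBd al Z X t (s:ℂ) := ⟨hB.nu.trans hCc, (hxi s).trans hCc, (hchi s hs).trans hCc⟩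
  obtain ⟨-, hr2, -, -, -⟩ := rho_bd hpt.chi hpt.nu hpt.xi
  have him : 1 ≤ t.im := by
    have := ht.1
    linarith
  have him' : 1 ≤ (t + (s:ℂ)).im := by
    rw [add_real_im]
    exact him
  have hst : sin t ≠ 0 := sin_ne_zero_of_im (by linarith)
  have hsts : sin (t + (s:ℂ)) ≠ 0 := sin_ne_zero_of_im (by linarith)
  have sh1 : -(starRingEnd ℂ) t + (al:ℂ) = -(starRingEnd ℂ) (t - (al:ℂ)) := by
    rw [map_sub, conj_ofReal]
    ring
  have sh2 : -(starRingEnd ℂ) t - (al:ℂ) = -(starRingEnd ℂ) (t + (al:ℂ)) := by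
    rw [map_add, conj_ofReal]
    ring
  have sh3 : -(starRingEnd ℂ) t + ((-s : ℝ) : ℂ) = -(starRingEnd ℂ) (t + (s:ℂ)) := by
    rw [map_add, conj_ofReal]
    push_cast
    ring
  have hsc : ∀ w : ℂ, sin (-(starRingEnd ℂ) w) = - (starRingEnd ℂ) (sin w) := fun w => by
    rw [sin_neg, sin_conj]
  have c2 : (starRingEnd ℂ) (2:ℂ) = 2 := conj_ofNat 2
  have pnz : nz al X (-(starRingEnd ℂ) t) = (starRingEnd ℂ) (nz al X t) := by
    simp only [nz, df, sh1, sh2]
    rw [h.x _ (sub_real_mem_band ht al), h.x _ (add_real_mem_band ht al)]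
    simp only [map_div₀, map_sub, c2]
    ring
  have pnx : nx al Z (-(starRingEnd ℂ) t) = - (starRingEnd ℂ) (nx al Z t) := by
    simp only [nx, df, sh1, sh2]
    rw [h.z _ (sub_real_mem_band ht al), h.z _ (add_real_mem_band ht al)]
    simp only [map_neg, map_div₀, map_sub, c2]
    ring
  have pmZ : md al Z (-(starRingEnd ℂ) t) = (starRingEnd ℂ) (md al Z t) := by
    simp only [md, sh1, sh2]
    rw [h.z _ (sub_real_mem_band ht al), h.z _ (add_real_mem_band ht al)]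
    simp only [map_div₀, map_add, c2]
    ring
  have pmX : md al X (-(starRingEnd ℂ) t) = - (starRingEnd ℂ) (md al X t) := by
    simp only [md, sh1, sh2]
    rw [h.x _ (sub_real_mem_band ht al), h.x _ (add_real_mem_band ht al)]
    simp only [map_div₀, map_add, c2]
    ring
  have pet : et al Z X (-(starRingEnd ℂ) t) = (starRingEnd ℂ) (et al Z X t) := by
    simp only [et, pnz, pnx, pmZ, pmX, map_add, map_mul]
    ring
  have hcs : cos (((-s : ℝ)) : ℂ) = cos (s:ℂ) := by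
    push_cast
    rw [cos_neg]
  have hcc : (starRingEnd ℂ) (cos (s:ℂ)) = cos (s:ℂ) := by
    rw [← cos_conj, conj_ofReal]
  have pchi : chi al Z X (-(starRingEnd ℂ) t) ((-s : ℝ) : ℂ) = (starRingEnd ℂ) (chi al Z X t (s:ℂ)) := by
    simp only [chi, Hq, pnz, pnx, pet, sh3, hcs]
    rw [h.z _ (add_real_mem_band ht s), h.x _ (add_real_mem_band ht s)]
    simp only [map_div₀, map_sub, map_add, map_mul, hcc, conj_ofReal]
    ring
  have pnu : nu al Z (-(starRingEnd ℂ) t) = (starRingEnd ℂ) (nu al Z t) := by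
    have hne : sin (-(starRingEnd ℂ) t) ≠ 0 := by
      rw [hsc]
      exact neg_ne_zero.2 ((map_ne_zero _).2 hst)
    rw [nu_eq hst, nu_eq hne, pnx, hsc, mul_neg, neg_div_neg_eq, map_div₀, map_mul, conj_ofReal]
  have pxi : xi X (-(starRingEnd ℂ) t + ((-s : ℝ) : ℂ)) = (starRingEnd ℂ) (xi X (t + (s:ℂ))) := by
    have hne : sin (-(starRingEnd ℂ) (t + (s:ℂ))) ≠ 0 := by
      rw [hsc]
      exact neg_ne_zero.2 ((map_ne_zero _).2 hsts)
    rw [sh3, xi_eq hsts, xi_eq hne, hsc, h.x _ (add_real_mem_band ht s), neg_div_neg_eq, map_div₀]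
  have prho : rho al Z X (-(starRingEnd ℂ) t) ((-s : ℝ) : ℂ) = (starRingEnd ℂ) (rho al Z X t (s:ℂ)) := by
    rw [rho, rho, pchi, pnu, pxi, map_div₀, map_mul]
  have pq : q0 (-(starRingEnd ℂ) t) ((-s : ℝ) : ℂ) = - (starRingEnd ℂ) (q0 t (s:ℂ)) := by
    rw [← q0_conj him him', conj_ofReal]
    push_cast
    rfl
  have pk : kk al ((-s : ℝ) : ℂ) = (starRingEnd ℂ) (kk al (s:ℂ)) := by
    have hc := (cos_gt hal hs).le
    rw [kk_real hc, conj_ofReal, kk_real (by rw [Real.cos_neg]; exact hc), Real.cos_neg]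
  have ph : ((starRingEnd ℂ) (rho al Z X t (s:ℂ))) ^ ((1:ℂ)/2) =
      (starRingEnd ℂ) (rho al Z X t (s:ℂ) ^ ((1:ℂ)/2)) := by
    have hr3 : rho al Z X t (s:ℂ) ∈ slitPlane := hr2
    rw [conj_cpow _ _ (mem_slitPlane_iff_arg.1 hr3).1]
    congr 2
    simp [conj_ofNat]
  rw [yy_eq, yy_eq, pk, pq, prho, ph]
  simp only [map_mul]
  ring

end FB
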