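import Pool.Agent.H48.FB.Defs

/-! Structures used in the statements of the B, C, ... modules. -/

open Complex Set MeasureTheory Filter Topology

noncomputable section

namespace FB

/-- chord quantities are `D`-close to those of the circle -/
structure ChordBd (D al : ℝ) (Z X : ℂ → ℂ) (t : ℂ) : Prop where
  nz : ‖nz al X t - (Real.sin al : ℂ) * cos t‖ ≤ D
  nx : ‖nx al Z t - (Real.sin al : ℂ) * sin t‖ ≤ D
  zm : ‖md al Z t - (Real.cos al : ℂ) * cos t‖ ≤ D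
  xm : ‖md al X t - (Real.cos al : ℂ) * sin t‖ ≤ D
  et : ‖et al Z X t - (Real.sin al : ℂ) * (Real.cos al : ℂ)‖ ≤ D
  l2 : ‖(FB.nz al X t) ^ 2 + (FB.nx al Z t) ^ 2 - (Real.sin al : ℂ) ^ 2‖ ≤ D
  ell : ‖ell al Z X t - (Real.sin al : ℂ)‖ ≤ D
  nu : ‖nu al Z t - 1‖ ≤ D
  chip : ‖chip al Z X t - 1‖ ≤ D
  chim : ‖chim al Z X t - 1‖ ≤ D

/-- closed region for complex `s`: `|Re s| < al + ρ`, `-1/2-ρ < Im s < ρ` -/
def RR (al ρ : ℝ) : Set ℂ := {s | |s.re| < al + ρ ∧ -(1/2) - ρ < s.im ∧ s.im < ρ}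

/-- family version of the hypotheses on a band -/
structure FNB (c a b : ℝ) (Z X : EE → ℂ → ℂ) : Prop where
  fZ : Fam (band a b) Z
  fX : Fam (band a b) X
  nb : ∀ e, NB c a b (Z e) (X e)

/-- family of symmetric real curves on a strip -/
structure FC (c r : ℝ) (Z X : EE → ℂ → ℂ) : Prop where
  fZ : Fam (strip r) Z
  fX : Fam (strip r) X
  nb : ∀ e, NB c (-r) r (Z e) (X e)
  sy : ∀ e, Sym r (Z e) (X e)
  re : ∀ e, RealC r (Z e) (X e)

/-- antiperiodicity on a band -/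
structure APer (a b : ℝ) (Z X : ℂ → ℂ) : Prop where
  z : ∀ t ∈ band a b, Z (t + (Real.pi : ℂ)) = - Z t
  x : ∀ t ∈ band a b, X (t + (Real.pi : ℂ)) = - X t

/-- reality in the form used on the upper band: `Z (- conj t) = conj (Z t)`, `X (- conj t) = - conj (X t)` -/
structure UReal (a b : ℝ) (Z X : ℂ → ℂ) : Prop where
  z : ∀ t ∈ band a b, Z (-(starRingEnd ℂ) t) = (starRingEnd ℂ) (Z t)
  x : ∀ t ∈ band a b, X (-(starRingEnd ℂ) t) = - (starRingEnd ℂ) (X t)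

/-- a direction of variation, bounded by `d` with its first derivatives -/
structure DirBd (d a b : ℝ) (A B : ℂ → ℂ) : Prop where
  dA : DifferentiableOn ℂ A (band a b)
  dB : DifferentiableOn ℂ B (band a b)
  a0 : ∀ z ∈ band a b, ‖A z‖ ≤ d
  b0 : ∀ z ∈ band a b, ‖B z‖ ≤ d
  a1 : ∀ z ∈ band a b, ‖deriv A z‖ ≤ d
  b1 : ∀ z ∈ band a b, ‖deriv B z‖ ≤ d

end FB
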