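import Pool.Agent.H48.FB.B04

/-! C01: the functionals are families of analytic functions, with bounds; periodicity; reality. -/

open Complex Set MeasureTheory Filter Topology

noncomputable section

namespace FB

/-! ### auxiliary lemmas -/

theorem c01_NB_mono {c c' a b : ℝ} {Z X : ℂ → ℂ} (h : NB c a b Z X) (hc : c ≤ c') :
    NB c' a b Z X :=
  { dZ := h.dZ
    dX := h.dX
    z0 := fun z hz => (h.z0 z hz).trans hc
    x0 := fun z hz => (h.x0 z hz).trans hc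
    z1 := fun z hz => (h.z1 z hz).trans hc
    x1 := fun z hz => (h.x1 z hz).trans hc }

theorem c01_FNB_mono {c c' a b : ℝ} {Z X : EE → ℂ → ℂ} (h : FNB c a b Z X) (hc : c ≤ c') :
    FNB c' a b Z X :=
  { fZ := h.fZ
    fX := h.fX
    nb := fun e => c01_NB_mono (h.nb e) hc }

theorem c01_Wf_diff : DifferentiableOn ℂ Wf {y : ℂ | ‖y‖ ^ 2 < 2} :=
  fun _ hy => (hasDerivAt_Wf hy).differentiableAt.differentiableWithinAt

theorem c01_Uf_diff : DifferentiableOn ℂ Uf {y : ℂ | ‖y‖ ^ 2 < 2} :=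
  fun _ hy => (hasDerivAt_Uf hy).differentiableAt.differentiableWithinAt

theorem c01_WU_bound : ∃ C : ℝ, 1 ≤ C ∧ ∀ y : ℂ, ‖y‖ ^ 2 ≤ 1/2 → ‖Wf y‖ ≤ C ∧ ‖Uf y‖ ≤ C := by
  have hsub : Metric.closedBall (0:ℂ) 1 ⊆ {y : ℂ | ‖y‖ ^ 2 < 2} := by
    intro y hy
    rw [mem_closedBall_zero_iff] at hy
    show ‖y‖ ^ 2 < 2
    have := norm_nonneg y
    nlinarith
  have hc := isCompact_closedBall (0:ℂ) 1
  obtain ⟨C1, h1⟩ := hc.exists_bound_of_continuousOn (c01_Wf_diff.continuousOn.mono hsub)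
  obtain ⟨C2, h2⟩ := hc.exists_bound_of_continuousOn (c01_Uf_diff.continuousOn.mono hsub)
  refine ⟨max 1 (max C1 C2), le_max_left _ _, ?_⟩
  intro y hy
  have hy' : y ∈ Metric.closedBall (0:ℂ) 1 := by
    rw [mem_closedBall_zero_iff]
    have := norm_nonneg y
    nlinarith
  exact ⟨(h1 y hy').trans ((le_max_left _ _).trans (le_max_right _ _)),
    (h2 y hy').trans ((le_max_right _ _).trans (le_max_right _ _))⟩

theorem c01_cos_le (z : ℂ) : ‖cos z‖ ≤ Real.exp |z.im| := by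
  have h1 : cos z = (exp (z * I) + exp (-z * I)) / 2 := rfl
  rw [h1, norm_div]
  have h2 : ‖exp (z * I)‖ ≤ Real.exp |z.im| := by
    rw [norm_exp, Real.exp_le_exp]
    have : (z * I).re = -z.im := by simp
    rw [this]
    exact neg_le_abs _
  have h3 : ‖exp (-z * I)‖ ≤ Real.exp |z.im| := by
    rw [norm_exp, Real.exp_le_exp]
    have : (-z * I).re = z.im := by simp
    rw [this]
    exact le_abs_self _
  have h4 : ‖(2:ℂ)‖ = 2 := by simp
  rw [h4, div_le_iff₀ (by norm_num)]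
  refine (norm_add_le _ _).trans ?_
  linarith

theorem c01_sin_le (z : ℂ) : ‖sin z‖ ≤ Real.exp |z.im| := by
  have h1 : sin z = (exp (-z * I) - exp (z * I)) * I / 2 := rfl
  rw [h1, norm_div, norm_mul, norm_I, mul_one]
  have h2 : ‖exp (z * I)‖ ≤ Real.exp |z.im| := by
    rw [norm_exp, Real.exp_le_exp]
    have : (z * I).re = -z.im := by simp
    rw [this]
    exact neg_le_abs _
  have h3 : ‖exp (-z * I)‖ ≤ Real.exp |z.im| := by
    rw [norm_exp, Real.exp_le_exp]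
    have : (-z * I).re = z.im := by simp
    rw [this]
    exact le_abs_self _
  have h4 : ‖(2:ℂ)‖ = 2 := by simp
  rw [h4, div_le_iff₀ (by norm_num)]
  refine (norm_sub_le _ _).trans ?_
  linarith

theorem c01_sin_ge {z : ℂ} (hz : 1 ≤ z.im) : 1.17 ≤ ‖sin z‖ := by
  have h1 : sin z = (exp (-z * I) - exp (z * I)) * I / 2 := rfl
  rw [h1, norm_div, norm_mul, norm_I, mul_one]
  have h2 : ‖exp (z * I)‖ ≤ Real.exp (-1) := by
    rw [norm_exp, Real.exp_le_exp]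
    have : (z * I).re = -z.im := by simp
    rw [this]
    linarith
  have h3 : Real.exp 1 ≤ ‖exp (-z * I)‖ := by
    rw [norm_exp, Real.exp_le_exp]
    have : (-z * I).re = z.im := by simp
    rw [this]
    exact hz
  have h4 : ‖(2:ℂ)‖ = 2 := by simp
  rw [h4, le_div_iff₀ (by norm_num)]
  have h5 := norm_sub_norm_le (exp (-z * I)) (exp (z * I))
  have h6 := Real.exp_one_gt_d9
  have h7 : Real.exp (-1) < 0.37 := by
    rw [Real.exp_neg, inv_lt_comm₀ (Real.exp_pos _) (by norm_num)]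
    refine lt_trans ?_ h6
    norm_num
  linarith

theorem c01_int_bound {al M : ℝ} (hal : 0 ≤ al) (hM : 0 ≤ M) {g : ℝ → ℂ}
    (h : ∀ s ∈ Ioo (-al) al, ‖g s‖ ≤ M) : ‖∫ s in (-al)..al, g s‖ ≤ M * (2 * al) := by
  rw [intervalIntegral.integral_of_le (by linarith), integral_Ioc_eq_integral_Ioo]
  have h1 : volume (Ioo (-al) al) < ⊤ := by
    rw [Real.volume_Ioo]
    exact ENNReal.ofReal_lt_top
  have h2 := norm_setIntegral_le_of_norm_le_const (μ := volume) (f := g) h1 h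
  refine h2.trans ?_
  apply mul_le_mul_of_nonneg_left _ hM
  rw [Measure.real, Real.volume_Ioo, ENNReal.toReal_ofReal (by linarith)]
  linarith

/-- the integrands -/
def c01V (al : ℝ) (Z X : ℂ → ℂ) (t : ℂ) (s : ℝ) : ℂ :=
  (- deriv Z (t + (s:ℂ))) * X (t + (s:ℂ)) ^ 2 * Wf (yy al Z X t (s:ℂ))
def c01Z (al : ℝ) (Z X : ℂ → ℂ) (t : ℂ) (s : ℝ) : ℂ :=
  (- deriv Z (t + (s:ℂ))) * Z (t + (s:ℂ)) * X (t + (s:ℂ)) ^ 2 * Wf (yy al Z X t (s:ℂ))
def c01X (al : ℝ) (Z X : ℂ → ℂ) (t : ℂ) (s : ℝ) : ℂ :=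
  (2/3 : ℂ) * (- deriv Z (t + (s:ℂ))) * (X (t + (s:ℂ)) * Uf (yy al Z X t (s:ℂ))) ^ 3
def c01a (al : ℝ) (j : ℕ) (Z X : ℂ → ℂ) (t : ℂ) (s : ℝ) : ℂ :=
  (tau al Z t (s:ℂ)) ^ j * (X (t + (s:ℂ)) * Uf (yy al Z X t (s:ℂ))) *
    (- deriv Z (t + (s:ℂ))) / nx al Z t

theorem c01_df (al : ℝ) (Z : ℂ → ℂ) (t : ℂ) : df al Z t = - nx al Z t := by
  unfold nx
  ring

/-- pointwise bounds -/
theorem c01_bounds (R : ℝ) (hR : 1 < R) : ∃ c0 K : ℝ, 0 < c0 ∧ 1 ≤ K ∧
    ∀ al ∈ JJ, ∀ a b : ℝ, 1 ≤ a → b ≤ R → ∀ Z X : ℂ → ℂ, NB c0 a b Z X → ∀ t ∈ band a b,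
      (∀ s : ℝ, ‖Z (t + s)‖ ≤ K ∧ ‖X (t + s)‖ ≤ K ∧ ‖deriv Z (t + s)‖ ≤ K) ∧
      ‖nz al X t‖ ≤ K ∧ ‖nx al Z t‖ ≤ K ∧ 1 ≤ ‖nx al Z t‖ ∧ ‖et al Z X t‖ ≤ K ∧
      ∀ s ∈ Ioo (-al) al, ‖yy al Z X t (s:ℂ)‖ ^ 2 ≤ 1/2 ∧ ‖Wf (yy al Z X t (s:ℂ))‖ ≤ K ∧
        ‖Uf (yy al Z X t (s:ℂ))‖ ≤ K ∧ ‖tau al Z t (s:ℂ)‖ ≤ K ∧
        ContinuousAt (fun s : ℝ => yy al Z X t (s:ℂ)) s := by
  obtain ⟨c1, C1, hc1, hC1, hCc1, H1⟩ := chord_bd R hR
  obtain ⟨c2, hc2, H2⟩ := yy_basic R hR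
  obtain ⟨CW, hCW, HW⟩ := c01_WU_bound
  set B : ℝ := Real.exp R + 1 with hB
  have hB1 : 1 ≤ B := by
    have := Real.exp_pos R
    linarith
  set K : ℝ := max CW (2 * B ^ 2) with hK
  have hKW : CW ≤ K := le_max_left _ _
  have hKB : 2 * B ^ 2 ≤ K := le_max_right _ _
  have hKB1 : B ≤ K := by nlinarith
  have hKB2 : 2 * B ≤ K := by nlinarith
  refine ⟨min 1 (min c1 c2), K, by positivity, hCW.trans hKW, ?_⟩
  intro al hal a b ha hb Z X hNB t ht
  have hNB1 : NB c1 a b Z X :=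
    c01_NB_mono hNB ((min_le_right _ _).trans (min_le_left _ _))
  have hNB2 : NB c2 a b Z X :=
    c01_NB_mono hNB ((min_le_right _ _).trans (min_le_right _ _))
  have hNB3 : NB 1 a b Z X := c01_NB_mono hNB (min_le_left _ _)
  have hexp : ∀ z ∈ band a b, Real.exp |z.im| ≤ Real.exp R := by
    intro z hz
    rw [Real.exp_le_exp, abs_of_nonneg (by linarith [hz.1])]
    linarith [hz.2]
  have hZb : ∀ z ∈ band a b, ‖Z z‖ ≤ B := by
    intro z hz
    have h1 := hNB3.z0 z hz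
    have h2 := c01_cos_le z
    have h3 := norm_sub_norm_le (Z z) (cos z)
    have h4 := hexp z hz
    linarith
  have hXb : ∀ z ∈ band a b, ‖X z‖ ≤ B := by
    intro z hz
    have h1 := hNB3.x0 z hz
    have h2 := c01_sin_le z
    have h3 := norm_sub_norm_le (X z) (sin z)
    have h4 := hexp z hz
    linarith
  have hZ'b : ∀ z ∈ band a b, ‖deriv Z z‖ ≤ B := by
    intro z hz
    have h1 := hNB3.z1 z hz
    have h2 := c01_sin_le z
    have h3 := norm_sub_norm_le (deriv Z z) (-sin z)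
    rw [sub_neg_eq_add, norm_neg] at h3
    have h4 := hexp z hz
    linarith
  have htp : ∀ s : ℝ, t + (s:ℂ) ∈ band a b := fun s => add_real_mem_band ht s
  have htm : ∀ s : ℝ, t - (s:ℂ) ∈ band a b := fun s => sub_real_mem_band ht s
  obtain ⟨hJ1, hJ2, -, hJ3, hJ4, hJ5, hJ6⟩ := JJ_bounds hal
  obtain ⟨hch, -, -⟩ := H1 al hal a b c1 ha hb hc1.le le_rfl Z X hNB1 t ht
  have hnx1 : 1 ≤ ‖nx al Z t‖ := by
    have h1 := hch.nx
    have h2 := c01_sin_ge (show 1 ≤ t.im by linarith [ht.1])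
    have h3 : ‖(Real.sin al : ℂ) * sin t‖ = Real.sin al * ‖sin t‖ := by
      rw [norm_mul, Complex.norm_real, Real.norm_of_nonneg (by linarith)]
    have h4 := norm_sub_norm_le ((Real.sin al : ℂ) * sin t) (nx al Z t)
    rw [norm_sub_rev, h3] at h4
    have h5 : 0.92 * 1.17 ≤ Real.sin al * ‖sin t‖ := by
      apply mul_le_mul hJ5.le h2 (by norm_num) (by linarith)
    norm_num at h5 ⊢
    linarith
  have hnx2 : ‖nx al Z t‖ ≤ B := by
    unfold nx df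
    rw [norm_neg, norm_div]
    have h4 : ‖(2:ℂ)‖ = 2 := by simp
    rw [h4, div_le_iff₀ (by norm_num)]
    refine (norm_sub_le _ _).trans ?_
    have := hZb _ (htp al)
    have := hZb _ (htm al)
    linarith
  have hnz2 : ‖nz al X t‖ ≤ B := by
    unfold nz df
    rw [norm_div]
    have h4 : ‖(2:ℂ)‖ = 2 := by simp
    rw [h4, div_le_iff₀ (by norm_num)]
    refine (norm_sub_le _ _).trans ?_
    have := hXb _ (htp al)
    have := hXb _ (htm al)
    linarith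
  have hmd : ∀ f : ℂ → ℂ, (∀ z ∈ band a b, ‖f z‖ ≤ B) → ‖md al f t‖ ≤ B := by
    intro f hf
    unfold md
    rw [norm_div]
    have h4 : ‖(2:ℂ)‖ = 2 := by simp
    rw [h4, div_le_iff₀ (by norm_num)]
    refine (norm_add_le _ _).trans ?_
    have := hf _ (htp al)
    have := hf _ (htm al)
    linarith
  refine ⟨fun s => ⟨(hZb _ (htp s)).trans hKB1, (hXb _ (htp s)).trans hKB1,
    (hZ'b _ (htp s)).trans hKB1⟩, hnz2.trans hKB1, hnx2.trans hKB1, hnx1, ?_, ?_⟩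
  · unfold et
    refine (norm_add_le _ _).trans ?_
    rw [norm_mul, norm_mul]
    have h1 : ‖nz al X t‖ * ‖md al Z t‖ ≤ B * B :=
      mul_le_mul hnz2 (hmd Z hZb) (norm_nonneg _) (by linarith)
    have h2 : ‖nx al Z t‖ * ‖md al X t‖ ≤ B * B :=
      mul_le_mul hnx2 (hmd X hXb) (norm_nonneg _) (by linarith)
    nlinarith
  · intro s hs
    obtain ⟨-, hy, -, -, -, -, -, hcont, -⟩ := H2 al hal a b ha hb Z X hNB2 t ht s hs
    refine ⟨hy, (HW _ hy).1.trans hKW, (HW _ hy).2.trans hKW, ?_, hcont⟩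
    unfold tau
    rw [norm_div, c01_df, norm_neg, div_le_iff₀ (by linarith)]
    have h1 : ‖Z (t + (s:ℂ)) - md al Z t‖ ≤ 2 * B := by
      refine (norm_sub_le _ _).trans ?_
      have := hZb _ (htp s)
      have := hmd Z hZb
      linarith
    have h2 : K * 1 ≤ K * ‖nx al Z t‖ :=
      mul_le_mul_of_nonneg_left hnx1 (by linarith)
    linarith

/-- continuity in `s` -/
theorem c01_cont {al a b : ℝ} {Z X : ℂ → ℂ} (hZ : DifferentiableOn ℂ Z (band a b))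
    (hX : DifferentiableOn ℂ X (band a b)) {t : ℂ} (ht : t ∈ band a b)
    (hy : ∀ s ∈ Ioo (-al) al, ‖yy al Z X t (s:ℂ)‖ ^ 2 ≤ 1/2 ∧
      ContinuousAt (fun s : ℝ => yy al Z X t (s:ℂ)) s) :
    ContinuousOn (c01V al Z X t) (Ioo (-al) al) ∧ ContinuousOn (c01Z al Z X t) (Ioo (-al) al) ∧
    ContinuousOn (c01X al Z X t) (Ioo (-al) al) ∧
    ∀ j, ContinuousOn (c01a al j Z X t) (Ioo (-al) al) := by
  have hline : ∀ s : ℝ, ContinuousAt (fun s : ℝ => t + (s:ℂ)) s := by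
    intro s
    fun_prop
  have hop := isOpen_band a b
  have key : ∀ f : ℂ → ℂ, DifferentiableOn ℂ f (band a b) →
      ∀ s : ℝ, ContinuousAt (fun s : ℝ => f (t + (s:ℂ))) s := by
    intro f hf s
    have h1 : ContinuousAt f (t + (s:ℂ)) :=
      (hf.differentiableAt (hop.mem_nhds (add_real_mem_band ht s))).continuousAt
    exact ContinuousAt.comp (g := f) (f := fun s : ℝ => t + (s:ℂ)) h1 (hline s)
  have kZ := key Z hZ
  have kX := key X hX
  have kZ' := key (deriv Z) (hZ.deriv hop)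
  have kop : IsOpen {y : ℂ | ‖y‖ ^ 2 < 2} := isOpen_lt (by fun_prop) continuous_const
  have kW : ∀ s ∈ Ioo (-al) al, ContinuousAt (fun s : ℝ => Wf (yy al Z X t (s:ℂ))) s := by
    intro s hs
    obtain ⟨h1, h2⟩ := hy s hs
    have h3 : ‖yy al Z X t (s:ℂ)‖ ^ 2 < 2 := by linarith
    have h4 : ContinuousAt Wf (yy al Z X t (s:ℂ)) := (hasDerivAt_Wf h3).continuousAt
    exact ContinuousAt.comp (g := Wf) (f := fun s : ℝ => yy al Z X t (s:ℂ)) h4 h2
  have kU : ∀ s ∈ Ioo (-al) al, ContinuousAt (fun s : ℝ => Uf (yy al Z X t (s:ℂ))) s := by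
    intro s hs
    obtain ⟨h1, h2⟩ := hy s hs
    have h3 : ‖yy al Z X t (s:ℂ)‖ ^ 2 < 2 := by linarith
    have h4 : ContinuousAt Uf (yy al Z X t (s:ℂ)) := (hasDerivAt_Uf h3).continuousAt
    exact ContinuousAt.comp (g := Uf) (f := fun s : ℝ => yy al Z X t (s:ℂ)) h4 h2
  refine ⟨fun s hs => ContinuousAt.continuousWithinAt ?_,
    fun s hs => ContinuousAt.continuousWithinAt ?_,
    fun s hs => ContinuousAt.continuousWithinAt ?_,
    fun j s hs => ContinuousAt.continuousWithinAt ?_⟩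
  · unfold c01V
    exact ((kZ' s).neg.mul ((kX s).pow 2)).mul (kW s hs)
  · unfold c01Z
    exact (((kZ' s).neg.mul (kZ s)).mul ((kX s).pow 2)).mul (kW s hs)
  · unfold c01X
    exact (continuousAt_const.mul (kZ' s).neg).mul (((kX s).mul (kU s hs)).pow 3)
  · unfold c01a tau
    exact ((((((kZ s).sub continuousAt_const).div_const _).pow j).mul
      ((kX s).mul (kU s hs))).mul (kZ' s).neg).div_const _

/-- the integrands are families -/
theorem c01_fam {al a b : ℝ} {Z X : EE → ℂ → ℂ} (hZ : Fam (band a b) Z)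
    (hX : Fam (band a b) X) (hnx : ∀ e, ∀ t ∈ band a b, nx al (Z e) t ≠ 0) {s : ℝ}
    (hyf : Fam (band a b) (fun e t => yy al (Z e) (X e) t (s:ℂ)))
    (hy : ∀ e, ∀ t ∈ band a b, ‖yy al (Z e) (X e) t (s:ℂ)‖ ^ 2 ≤ 1/2) :
    Fam (band a b) (fun e t => c01V al (Z e) (X e) t s) ∧
    Fam (band a b) (fun e t => c01Z al (Z e) (X e) t s) ∧
    Fam (band a b) (fun e t => c01X al (Z e) (X e) t s) ∧
    ∀ j, Fam (band a b) (fun e t => c01a al j (Z e) (X e) t s) := by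
  have fZ : Fam (band a b) (fun e z => Z e (z + (s:ℂ))) := hZ.shift s
  have fX : Fam (band a b) (fun e z => X e (z + (s:ℂ))) := hX.shift s
  have fZ' : Fam (band a b) (fun e z => deriv (Z e) (z + (s:ℂ))) := hZ.deriv.shift s
  have hy2 : ∀ e, ∀ z ∈ band a b, yy al (Z e) (X e) z (s:ℂ) ∈ {y : ℂ | ‖y‖ ^ 2 < 2} := by
    intro e z hz
    have := hy e z hz
    show ‖yy al (Z e) (X e) z (s:ℂ)‖ ^ 2 < 2
    linarith
  have fW : Fam (band a b) (fun e t => Wf (yy al (Z e) (X e) t (s:ℂ))) :=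
    hyf.comp c01_Wf_diff hy2
  have fU : Fam (band a b) (fun e t => Uf (yy al (Z e) (X e) t (s:ℂ))) :=
    hyf.comp c01_Uf_diff hy2
  obtain ⟨fmZ, fmX, fnz, fnx, fet, -, -⟩ := fam_chord (al := al) hZ hX
  have fnxi : Fam (band a b) (fun e t => (nx al (Z e) t)⁻¹) := fnx.inv hnx
  have ftau : Fam (band a b) (fun e t => tau al (Z e) t (s:ℂ)) := by
    have h1 := ((fZ.sub fmZ).mul fnxi).neg
    refine h1.congr ?_
    intro e t _
    show -((Z e (t + (s:ℂ)) - md al (Z e) t) * (nx al (Z e) t)⁻¹) = tau al (Z e) t (s:ℂ)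
    unfold tau
    rw [c01_df, div_neg, div_eq_mul_inv]
  refine ⟨?_, ?_, ?_, fun j => ?_⟩
  · exact (fZ'.neg.mul (fX.pow 2)).mul fW
  · exact ((fZ'.neg.mul fZ).mul (fX.pow 2)).mul fW
  · have h1 := ((Fam.const (U := band a b) (f := fun _ => (2/3 : ℂ))
      (differentiableOn_const _)).mul fZ'.neg).mul ((fX.mul fU).pow 3)
    exact h1
  · have h1 := (((ftau.pow j).mul (fX.mul fU)).mul fZ'.neg).mul fnxi
    refine h1.congr ?_
    intro e t _
    rfl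

/-- `Fam.integral` with the integrands built from B03, B04; bounds: `‖Z'‖, ‖X‖ ≤ e^R + 1`, `‖Wf y‖, ‖Uf y‖ ≤ 10` for `‖y‖^2 ≤ 1/2`,
`1/nx` and `1/df Z` bounded (`|sin t| ≥ sinh 1`). -/
theorem fam_functionals (R : ℝ) (hR : 1 < R) : ∃ c0 C : ℝ, 0 < c0 ∧ 1 ≤ C ∧ ∀ al ∈ JJ, ∀ a b : ℝ, 1 ≤ a → a < b → b ≤ R →
    ∀ Z X : EE → ℂ → ℂ, FNB c0 a b Z X →
      Fam (band a b) (fun e => Vf al (Z e) (X e)) ∧ Fam (band a b) (fun e => Pzf al (Z e) (X e)) ∧
      Fam (band a b) (fun e => Pxf al (Z e) (X e)) ∧ (∀ j ≤ 2, Fam (band a b) (fun e => aj al j (Z e) (X e))) ∧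
      Fam (band a b) (fun e => Sf al (Z e) (X e)) ∧
      (∀ e, ∀ t ∈ band a b, ‖Vf al (Z e) (X e) t‖ ≤ C ∧ ‖Pzf al (Z e) (X e) t‖ ≤ C ∧ ‖Pxf al (Z e) (X e) t‖ ≤ C ∧
        (∀ j ≤ 2, ‖aj al j (Z e) (X e) t‖ ≤ C) ∧ ‖Sf al (Z e) (X e) t‖ ≤ C) := by
  obtain ⟨c1, K, hc1, hK, H1⟩ := c01_bounds R hR
  obtain ⟨c2, hc2, H2⟩ := fam_yy R hR
  refine ⟨min c1 c2, 9 * K ^ 8, by positivity, ?_, ?_⟩
  · have : 1 ≤ K ^ 8 := one_le_pow₀ hK
    linarith
  intro al hal a b ha hab hb Z X hF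
  have hF1 := c01_FNB_mono hF (min_le_left c1 c2)
  have hF2 := c01_FNB_mono hF (min_le_right c1 c2)
  have B := fun e t ht => H1 al hal a b ha hb (Z e) (X e) (hF1.nb e) t ht
  obtain ⟨hJ1, hJ2, -, -, -, -, -⟩ := JJ_bounds hal
  have hal0 : 0 < al := by linarith
  have hK0 : 0 ≤ K := by linarith
  have hnx : ∀ e, ∀ t ∈ band a b, nx al (Z e) t ≠ 0 := by
    intro e t ht
    obtain ⟨-, -, -, h1, -, -⟩ := B e t ht
    intro h0
    rw [h0, norm_zero] at h1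
    linarith
  have fams : ∀ s ∈ Ioo (-al) al, Fam (band a b) (fun e t => c01V al (Z e) (X e) t s) ∧
      Fam (band a b) (fun e t => c01Z al (Z e) (X e) t s) ∧
      Fam (band a b) (fun e t => c01X al (Z e) (X e) t s) ∧
      ∀ j, Fam (band a b) (fun e t => c01a al j (Z e) (X e) t s) := by
    intro s hs
    refine c01_fam hF.fZ hF.fX hnx (H2 al hal a b ha hb Z X hF2 s hs) ?_
    intro e t ht
    obtain ⟨-, -, -, -, -, h1⟩ := B e t ht
    exact (h1 s hs).1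
  have conts : ∀ e, ∀ t ∈ band a b, ContinuousOn (c01V al (Z e) (X e) t) (Ioo (-al) al) ∧
      ContinuousOn (c01Z al (Z e) (X e) t) (Ioo (-al) al) ∧
      ContinuousOn (c01X al (Z e) (X e) t) (Ioo (-al) al) ∧
      ∀ j, ContinuousOn (c01a al j (Z e) (X e) t) (Ioo (-al) al) := by
    intro e t ht
    obtain ⟨-, -, -, -, -, h1⟩ := B e t ht
    exact c01_cont (hF.nb e).dZ (hF.nb e).dX ht (fun s hs => ⟨(h1 s hs).1, (h1 s hs).2.2.2.2⟩)
  -- bounds of the integrands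
  have hpow : ∀ k : ℕ, k ≤ 7 → K ^ k ≤ K ^ 7 := fun k hk => pow_le_pow_right₀ hK hk
  have bds : ∀ e, ∀ t ∈ band a b, ∀ s ∈ Ioo (-al) al, ‖c01V al (Z e) (X e) t s‖ ≤ K ^ 7 ∧
      ‖c01Z al (Z e) (X e) t s‖ ≤ K ^ 7 ∧ ‖c01X al (Z e) (X e) t s‖ ≤ K ^ 7 ∧
      ∀ j ≤ 2, ‖c01a al j (Z e) (X e) t s‖ ≤ K ^ 7 := by
    intro e t ht s hs
    obtain ⟨h1, h2, h3, h4, h5, h6⟩ := B e t ht
    obtain ⟨hZ, hX, hZ'⟩ := h1 s
    obtain ⟨-, hW, hU, ht, -⟩ := h6 s hs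
    refine ⟨?_, ?_, ?_, ?_⟩
    · have e1 : ‖c01V al (Z e) (X e) t s‖ ≤ K * K ^ 2 * K := by
        unfold c01V
        rw [norm_mul, norm_mul, norm_neg, norm_pow]
        gcongr
      have e2 : K * K ^ 2 * K = K ^ 4 := by ring
      rw [e2] at e1
      exact e1.trans (hpow 4 (by norm_num))
    · have e1 : ‖c01Z al (Z e) (X e) t s‖ ≤ K * K * K ^ 2 * K := by
        unfold c01Z
        rw [norm_mul, norm_mul, norm_mul, norm_neg, norm_pow]
        gcongr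
      have e2 : K * K * K ^ 2 * K = K ^ 5 := by ring
      rw [e2] at e1
      exact e1.trans (hpow 5 (by norm_num))
    · have e1 : ‖c01X al (Z e) (X e) t s‖ ≤ 1 * K * (K * K) ^ 3 := by
        unfold c01X
        rw [norm_mul, norm_mul, norm_neg, norm_pow, norm_mul]
        have h23 : ‖(2/3 : ℂ)‖ ≤ 1 := by
          rw [norm_div]
          norm_num
        gcongr
      have e2 : 1 * K * (K * K) ^ 3 = K ^ 7 := by ring
      rw [e2] at e1
      exact e1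
    · intro j hj
      have e1 : ‖c01a al j (Z e) (X e) t s‖ ≤ K ^ j * (K * K) * K / 1 := by
        unfold c01a
        rw [norm_div, norm_mul, norm_mul, norm_mul, norm_neg, norm_pow]
        gcongr
      have e2 : K ^ j * (K * K) * K / 1 = K ^ (j + 3) := by
        rw [pow_add]
        ring
      rw [e2] at e1
      exact e1.trans (hpow (j + 3) (by omega))
  have hK7 : 0 ≤ K ^ 7 := by positivity
  -- families
  have FV : Fam (band a b) (fun e => Vf al (Z e) (X e)) :=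
    Fam.integral hal0 (fun s hs => (fams s hs).1) (fun e t ht s hs => (bds e t ht s hs).1)
      (fun e t ht => (conts e t ht).1)
  have FPz : Fam (band a b) (fun e => Pzf al (Z e) (X e)) :=
    Fam.integral hal0 (fun s hs => (fams s hs).2.1) (fun e t ht s hs => (bds e t ht s hs).2.1)
      (fun e t ht => (conts e t ht).2.1)
  have FPx : Fam (band a b) (fun e => Pxf al (Z e) (X e)) :=
    Fam.integral hal0 (fun s hs => (fams s hs).2.2.1)
      (fun e t ht s hs => (bds e t ht s hs).2.2.1) (fun e t ht => (conts e t ht).2.2.1)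
  have Fa : ∀ j ≤ 2, Fam (band a b) (fun e => aj al j (Z e) (X e)) := fun j hj =>
    Fam.integral hal0 (fun s hs => (fams s hs).2.2.2 j)
      (fun e t ht s hs => (bds e t ht s hs).2.2.2 j hj) (fun e t ht => (conts e t ht).2.2.2 j)
  obtain ⟨fmZ, fmX, fnz, fnx, fet, -, -⟩ := fam_chord (al := al) hF.fZ hF.fX
  have FS : Fam (band a b) (fun e => Sf al (Z e) (X e)) :=
    ((fnz.mul FPz).add (fnx.mul FPx)).sub (fet.mul FV)
  refine ⟨FV, FPz, FPx, Fa, FS, ?_⟩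
  intro e t ht
  have hint : ∀ g : ℝ → ℂ, (∀ s ∈ Ioo (-al) al, ‖g s‖ ≤ K ^ 7) →
      ‖∫ s in (-al)..al, g s‖ ≤ 3 * K ^ 7 := by
    intro g hg
    refine (c01_int_bound hal0.le hK7 hg).trans ?_
    nlinarith
  have h78 : K ^ 7 ≤ K ^ 8 := pow_le_pow_right₀ hK (by norm_num)
  have bV : ‖Vf al (Z e) (X e) t‖ ≤ 3 * K ^ 7 := hint _ (fun s hs => (bds e t ht s hs).1)
  have bPz : ‖Pzf al (Z e) (X e) t‖ ≤ 3 * K ^ 7 := hint _ (fun s hs => (bds e t ht s hs).2.1)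
  have bPx : ‖Pxf al (Z e) (X e) t‖ ≤ 3 * K ^ 7 :=
    hint _ (fun s hs => (bds e t ht s hs).2.2.1)
  have ba : ∀ j ≤ 2, ‖aj al j (Z e) (X e) t‖ ≤ 3 * K ^ 7 := fun j hj =>
    hint _ (fun s hs => (bds e t ht s hs).2.2.2 j hj)
  refine ⟨by linarith, by linarith, by linarith, fun j hj => by linarith [ba j hj], ?_⟩
  obtain ⟨-, h2, h3, -, h5, -⟩ := B e t ht
  unfold Sf
  refine (norm_sub_le _ _).trans ?_
  have e1 : ‖nz al (X e) t * Pzf al (Z e) (X e) t + nx al (Z e) t * Pxf al (Z e) (X e) t‖ ≤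
      K * (3 * K ^ 7) + K * (3 * K ^ 7) := by
    refine (norm_add_le _ _).trans ?_
    rw [norm_mul, norm_mul]
    gcongr
  have e2 : ‖et al (Z e) (X e) t * Vf al (Z e) (X e) t‖ ≤ K * (3 * K ^ 7) := by
    rw [norm_mul]
    gcongr
  have e3 : K * (3 * K ^ 7) = 3 * K ^ 8 := by ring
  linarith

theorem c01_Wf_odd (y : ℂ) : Wf (-y) = -Wf y := by
  unfold Wf Af Uf
  rw [neg_sq]
  ring

theorem c01_Uf_odd (y : ℂ) : Uf (-y) = -Uf y := by
  unfold Uf
  rw [neg_sq]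
  ring

theorem c01_deriv_pi {a b : ℝ} {Z : ℂ → ℂ} (h : ∀ t ∈ band a b, Z (t + (Real.pi : ℂ)) = - Z t)
    {t : ℂ} (ht : t ∈ band a b) : deriv Z (t + (Real.pi : ℂ)) = - deriv Z t := by
  have h1 : (fun z => Z (z + (Real.pi : ℂ))) =ᶠ[𝓝 t] fun z => - Z z := by
    filter_upwards [(isOpen_band a b).mem_nhds ht] with z hz
    exact h z hz
  have h2 := h1.deriv_eq
  rw [deriv_comp_add_const] at h2
  rw [h2]
  exact deriv.fun_neg

theorem functionals_pi {al a b : ℝ} {Z X : ℂ → ℂ} (h : APer a b Z X) (ha : 0 < a) {t : ℂ} (ht : t ∈ band a b) :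
    Vf al Z X (t + (Real.pi:ℂ)) = Vf al Z X t ∧ Pzf al Z X (t + (Real.pi:ℂ)) = - Pzf al Z X t ∧
    Pxf al Z X (t + (Real.pi:ℂ)) = - Pxf al Z X t ∧ (∀ j, aj al j Z X (t + (Real.pi:ℂ)) = aj al j Z X t) ∧
    Sf al Z X (t + (Real.pi:ℂ)) = Sf al Z X t ∧ nz al X (t + (Real.pi:ℂ)) = - nz al X t ∧
    nx al Z (t + (Real.pi:ℂ)) = - nx al Z t ∧ et al Z X (t + (Real.pi:ℂ)) = et al Z X t ∧
    ell al Z X (t + (Real.pi:ℂ)) = ell al Z X t ∧ Yf al Z X (t + (Real.pi:ℂ)) = Yf al Z X t := by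
  have htp : ∀ s : ℝ, t + (s:ℂ) ∈ band a b := fun s => add_real_mem_band ht s
  have htm : ∀ s : ℝ, t - (s:ℂ) ∈ band a b := fun s => sub_real_mem_band ht s
  have e1 : ∀ s : ℝ, t + (Real.pi:ℂ) + (s:ℂ) = t + (s:ℂ) + (Real.pi:ℂ) := fun s => by ring
  have e2 : ∀ s : ℝ, t + (Real.pi:ℂ) - (s:ℂ) = t - (s:ℂ) + (Real.pi:ℂ) := fun s => by ring
  have hmZ : md al Z (t + (Real.pi:ℂ)) = - md al Z t := by
    unfold md
    rw [e1, e2, h.z _ (htp al), h.z _ (htm al)]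
    ring
  have hmX : md al X (t + (Real.pi:ℂ)) = - md al X t := by
    unfold md
    rw [e1, e2, h.x _ (htp al), h.x _ (htm al)]
    ring
  have hdZ : df al Z (t + (Real.pi:ℂ)) = - df al Z t := by
    unfold df
    rw [e1, e2, h.z _ (htp al), h.z _ (htm al)]
    ring
  have hdX : df al X (t + (Real.pi:ℂ)) = - df al X t := by
    unfold df
    rw [e1, e2, h.x _ (htp al), h.x _ (htm al)]
    ring
  have hnz : nz al X (t + (Real.pi:ℂ)) = - nz al X t := hdX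
  have hnx : nx al Z (t + (Real.pi:ℂ)) = - nx al Z t := by
    unfold nx
    rw [hdZ]
  have het : et al Z X (t + (Real.pi:ℂ)) = et al Z X t := by
    unfold et
    rw [hnz, hnx, hmZ, hmX]
    ring
  have hell : ell al Z X (t + (Real.pi:ℂ)) = ell al Z X t := by
    unfold ell
    rw [hnz, hnx, neg_sq, neg_sq]
  have hyy : ∀ s : ℝ, yy al Z X (t + (Real.pi : ℂ)) (s:ℂ) = - yy al Z X t (s:ℂ) :=
    fun s => yy_pi h ha ht s
  have hZ : ∀ s : ℝ, Z (t + (Real.pi:ℂ) + (s:ℂ)) = - Z (t + (s:ℂ)) := fun s => by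
    rw [e1, h.z _ (htp s)]
  have hX : ∀ s : ℝ, X (t + (Real.pi:ℂ) + (s:ℂ)) = - X (t + (s:ℂ)) := fun s => by
    rw [e1, h.x _ (htp s)]
  have hZ' : ∀ s : ℝ, deriv Z (t + (Real.pi:ℂ) + (s:ℂ)) = - deriv Z (t + (s:ℂ)) := fun s => by
    rw [e1, c01_deriv_pi h.z (htp s)]
  have hV : Vf al Z X (t + (Real.pi:ℂ)) = Vf al Z X t := by
    unfold Vf
    congr 1
    funext s
    rw [hZ', hX, hyy, c01_Wf_odd]
    ring
  have hPz : Pzf al Z X (t + (Real.pi:ℂ)) = - Pzf al Z X t := by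
    unfold Pzf
    rw [← intervalIntegral.integral_neg]
    congr 1
    funext s
    rw [hZ', hX, hZ, hyy, c01_Wf_odd]
    ring
  have hPx : Pxf al Z X (t + (Real.pi:ℂ)) = - Pxf al Z X t := by
    unfold Pxf
    rw [← intervalIntegral.integral_neg]
    congr 1
    funext s
    rw [hZ', hX, hyy, c01_Uf_odd]
    ring
  have haj : ∀ j, aj al j Z X (t + (Real.pi:ℂ)) = aj al j Z X t := by
    intro j
    unfold aj
    congr 1
    funext s
    have htau : tau al Z (t + (Real.pi:ℂ)) (s:ℂ) = tau al Z t (s:ℂ) := by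
      unfold tau
      rw [hZ, hmZ, hdZ, ← neg_div_neg_eq]
      congr 1 <;> ring
    rw [htau, hZ', hX, hyy, c01_Uf_odd, hnx, div_neg, ← neg_div]
    congr 1
    ring
  refine ⟨hV, hPz, hPx, haj, ?_, hnz, hnx, het, hell, ?_⟩
  · unfold Sf
    rw [hnz, hnx, hPz, hPx, het, hV]
    ring
  · unfold Yf
    rw [hell, hnz, neg_div]
    ring

/-! ### reality -/

theorem c01_Uf_conj {y : ℂ} (hy : ‖y‖ ^ 2 ≤ 1/2) :
    Uf ((starRingEnd ℂ) y) = (starRingEnd ℂ) (Uf y) := by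
  unfold Uf
  have h1 : (2 : ℂ) - ((starRingEnd ℂ) y) ^ 2 = (starRingEnd ℂ) (2 - y ^ 2) := by
    rw [map_sub, map_pow, map_ofNat]
  have h2 : (2 - y ^ 2 : ℂ).arg ≠ Real.pi := by
    intro h0
    have h3 : (2 - y ^ 2 : ℂ).re < 0 := (arg_eq_pi_iff.mp h0).1
    have h4 : (y ^ 2).re ≤ ‖y ^ 2‖ := re_le_norm _
    rw [norm_pow] at h4
    have h5 : (2 - y ^ 2 : ℂ).re = 2 - (y ^ 2).re := by simp
    rw [h5] at h3
    linarith
  rw [h1, conj_cpow _ _ h2, map_mul]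
  congr 3
  rw [map_div₀, map_one, map_ofNat]

theorem c01_Wf_conj {y : ℂ} (hy : ‖y‖ ^ 2 ≤ 1/2) :
    Wf ((starRingEnd ℂ) y) = (starRingEnd ℂ) (Wf y) := by
  unfold Wf
  rw [map_sub, map_mul, c01_Uf_conj hy]
  have h1 : Af ((starRingEnd ℂ) y) = (starRingEnd ℂ) (Af y) := by
    unfold Af
    rw [map_mul, ← map_pow, bf_conj]
    rw [norm_pow]
    linarith
  rw [h1, map_sub, map_pow, map_one]

theorem c01_deriv_conj {a b : ℝ} {Z : ℂ → ℂ}
    (h : ∀ t ∈ band a b, Z (-(starRingEnd ℂ) t) = (starRingEnd ℂ) (Z t))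
    {t : ℂ} (ht : t ∈ band a b) :
    deriv Z (-(starRingEnd ℂ) t) = - (starRingEnd ℂ) (deriv Z t) := by
  set g : ℂ → ℂ := fun w => Z (-w) with hg
  have h1 : (⇑(starRingEnd ℂ) ∘ g ∘ ⇑(starRingEnd ℂ)) =ᶠ[𝓝 t] Z := by
    filter_upwards [(isOpen_band a b).mem_nhds ht] with z hz
    show (starRingEnd ℂ) (Z (-(starRingEnd ℂ) z)) = Z z
    rw [h z hz, Complex.conj_conj]
  have h2 := h1.deriv_eq
  rw [deriv_conj_conj] at h2
  have h3 : deriv g ((starRingEnd ℂ) t) = - deriv Z (-(starRingEnd ℂ) t) := by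
    rw [hg]
    exact deriv_comp_neg Z ((starRingEnd ℂ) t)
  have h4 : (starRingEnd ℂ) (deriv g ((starRingEnd ℂ) t)) = deriv Z t := h2
  rw [h3, map_neg] at h4
  rw [← h4, map_neg, Complex.conj_conj, neg_neg]

theorem c01_int_conj {al : ℝ} (hal : 0 ≤ al) {G g : ℝ → ℂ} (ε : ℂ)
    (h : ∀ s ∈ Ioo (-al) al, G (-s) = ε * (starRingEnd ℂ) (g s)) :
    (∫ s in (-al)..al, G s) = ε * (starRingEnd ℂ) (∫ s in (-al)..al, g s) := by
  have h1 := intervalIntegral.integral_comp_neg (a := -al) (b := al) G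
  rw [neg_neg] at h1
  rw [← h1, intervalIntegral.integral_of_le (by linarith),
    intervalIntegral.integral_of_le (by linarith), integral_Ioc_eq_integral_Ioo,
    integral_Ioc_eq_integral_Ioo, setIntegral_congr_fun measurableSet_Ioo h, ← integral_conj,
    ← integral_const_mul]

theorem functionals_conj (R : ℝ) (hR : 1 < R) : ∃ c0 : ℝ, 0 < c0 ∧
    ∀ al ∈ JJ, ∀ a b : ℝ, 1 ≤ a → b ≤ R → ∀ Z X : ℂ → ℂ, NB c0 a b Z X → UReal a b Z X → ∀ t ∈ band a b,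
      Vf al Z X (-(starRingEnd ℂ) t) = (starRingEnd ℂ) (Vf al Z X t) ∧
      Pzf al Z X (-(starRingEnd ℂ) t) = (starRingEnd ℂ) (Pzf al Z X t) ∧
      Pxf al Z X (-(starRingEnd ℂ) t) = - (starRingEnd ℂ) (Pxf al Z X t) ∧
      (∀ j, aj al j Z X (-(starRingEnd ℂ) t) = (-1) ^ j * (starRingEnd ℂ) (aj al j Z X t)) ∧
      Sf al Z X (-(starRingEnd ℂ) t) = (starRingEnd ℂ) (Sf al Z X t) ∧
      et al Z X (-(starRingEnd ℂ) t) = (starRingEnd ℂ) (et al Z X t) ∧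
      ell al Z X (-(starRingEnd ℂ) t) = (starRingEnd ℂ) (ell al Z X t) ∧
      Yf al Z X (-(starRingEnd ℂ) t) = (starRingEnd ℂ) (Yf al Z X t) := by
  obtain ⟨c1, K, hc1, hK, H1⟩ := c01_bounds R hR
  obtain ⟨c2, hc2, H2⟩ := yy_conj R hR
  obtain ⟨c3, C3, hc3, hC3, hCc3, H3⟩ := chord_bd R hR
  refine ⟨min c1 (min c2 c3), by positivity, ?_⟩
  intro al hal a b ha hb Z X hNB hU t ht
  have hNB1 : NB c1 a b Z X := c01_NB_mono hNB (min_le_left _ _)
  have hNB2 : NB c2 a b Z X :=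
    c01_NB_mono hNB ((min_le_right _ _).trans (min_le_left _ _))
  have hNB3 : NB c3 a b Z X :=
    c01_NB_mono hNB ((min_le_right _ _).trans (min_le_right _ _))
  obtain ⟨hJ1, hJ2, -, -, -, hJ5, hJ6⟩ := JJ_bounds hal
  have hal0 : 0 ≤ al := by linarith
  obtain ⟨-, -, -, -, -, B6⟩ := H1 al hal a b ha hb Z X hNB1 t ht
  obtain ⟨hch, -, -⟩ := H3 al hal a b c3 ha hb hc3.le le_rfl Z X hNB3 t ht
  have htp : ∀ s : ℝ, t + (s:ℂ) ∈ band a b := fun s => add_real_mem_band ht s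
  have htm : ∀ s : ℝ, t - (s:ℂ) ∈ band a b := fun s => sub_real_mem_band ht s
  have e1 : ∀ s : ℝ, -(starRingEnd ℂ) t + (s:ℂ) = -(starRingEnd ℂ) (t - (s:ℂ)) := fun s => by
    rw [map_sub, Complex.conj_ofReal]
    ring
  have e2 : ∀ s : ℝ, -(starRingEnd ℂ) t - (s:ℂ) = -(starRingEnd ℂ) (t + (s:ℂ)) := fun s => by
    rw [map_add, Complex.conj_ofReal]
    ring
  have e3 : ∀ s : ℝ, -(starRingEnd ℂ) t + ((-s : ℝ):ℂ) = -(starRingEnd ℂ) (t + (s:ℂ)) :=
    fun s => by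
    rw [map_add, Complex.conj_ofReal]
    push_cast
    ring
  have hmZ : md al Z (-(starRingEnd ℂ) t) = (starRingEnd ℂ) (md al Z t) := by
    unfold md
    rw [e1, e2, hU.z _ (htp al), hU.z _ (htm al), map_div₀, map_add]
    simp only [map_ofNat]
    ring
  have hmX : md al X (-(starRingEnd ℂ) t) = - (starRingEnd ℂ) (md al X t) := by
    unfold md
    rw [e1, e2, hU.x _ (htp al), hU.x _ (htm al), map_div₀, map_add]
    simp only [map_ofNat]
    ring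
  have hdZ : df al Z (-(starRingEnd ℂ) t) = - (starRingEnd ℂ) (df al Z t) := by
    unfold df
    rw [e1, e2, hU.z _ (htp al), hU.z _ (htm al), map_div₀, map_sub]
    simp only [map_ofNat]
    ring
  have hdX : df al X (-(starRingEnd ℂ) t) = (starRingEnd ℂ) (df al X t) := by
    unfold df
    rw [e1, e2, hU.x _ (htp al), hU.x _ (htm al), map_div₀, map_sub]
    simp only [map_ofNat]
    ring
  have hnz : nz al X (-(starRingEnd ℂ) t) = (starRingEnd ℂ) (nz al X t) := hdX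
  have hnx : nx al Z (-(starRingEnd ℂ) t) = - (starRingEnd ℂ) (nx al Z t) := by
    unfold nx
    rw [hdZ, map_neg]
  have het : et al Z X (-(starRingEnd ℂ) t) = (starRingEnd ℂ) (et al Z X t) := by
    unfold et
    rw [hnz, hnx, hmZ, hmX, map_add, map_mul, map_mul]
    ring
  have hell : ell al Z X (-(starRingEnd ℂ) t) = (starRingEnd ℂ) (ell al Z X t) := by
    unfold ell
    have h1 : ((starRingEnd ℂ) (nz al X t)) ^ 2 + (-(starRingEnd ℂ) (nx al Z t)) ^ 2 =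
        (starRingEnd ℂ) ((nz al X t) ^ 2 + (nx al Z t) ^ 2) := by
      rw [map_add, map_pow, map_pow, neg_sq]
    have h2 : ((nz al X t) ^ 2 + (nx al Z t) ^ 2 : ℂ).arg ≠ Real.pi := by
      intro h0
      have h3 := (arg_eq_pi_iff.mp h0).1
      have h4 := hch.l2
      have h5 := abs_re_le_norm ((nz al X t) ^ 2 + (nx al Z t) ^ 2 - (Real.sin al : ℂ) ^ 2)
      have h6 : (((nz al X t) ^ 2 + (nx al Z t) ^ 2 - (Real.sin al : ℂ) ^ 2) : ℂ).re =
          ((nz al X t) ^ 2 + (nx al Z t) ^ 2 : ℂ).re - (Real.sin al) ^ 2 := by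
        rw [Complex.sub_re, ← Complex.ofReal_pow, Complex.ofReal_re]
      rw [h6] at h5
      have h7 := neg_abs_le (((nz al X t) ^ 2 + (nx al Z t) ^ 2 : ℂ).re - (Real.sin al) ^ 2)
      have h8 : (0.8 : ℝ) ≤ (Real.sin al) ^ 2 := by nlinarith
      norm_num at h8
      linarith
    rw [hnz, hnx, h1, conj_cpow _ _ h2]
    congr 2
    rw [map_div₀, map_one, map_ofNat]
  have hZ : ∀ s : ℝ, Z (-(starRingEnd ℂ) t + ((-s : ℝ):ℂ)) = (starRingEnd ℂ) (Z (t + (s:ℂ))) :=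
    fun s => by rw [e3, hU.z _ (htp s)]
  have hX : ∀ s : ℝ, X (-(starRingEnd ℂ) t + ((-s : ℝ):ℂ)) = - (starRingEnd ℂ) (X (t + (s:ℂ))) :=
    fun s => by rw [e3, hU.x _ (htp s)]
  have hZ' : ∀ s : ℝ, deriv Z (-(starRingEnd ℂ) t + ((-s : ℝ):ℂ)) =
      - (starRingEnd ℂ) (deriv Z (t + (s:ℂ))) :=
    fun s => by rw [e3, c01_deriv_conj hU.z (htp s)]
  have hW : ∀ s ∈ Ioo (-al) al, Wf (yy al Z X (-(starRingEnd ℂ) t) ((-s : ℝ) : ℂ)) =
      - (starRingEnd ℂ) (Wf (yy al Z X t (s:ℂ))) := by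
    intro s hs
    rw [H2 al hal a b ha hb Z X hNB2 hU t ht s hs, c01_Wf_odd, c01_Wf_conj (B6 s hs).1]
  have hUf : ∀ s ∈ Ioo (-al) al, Uf (yy al Z X (-(starRingEnd ℂ) t) ((-s : ℝ) : ℂ)) =
      - (starRingEnd ℂ) (Uf (yy al Z X t (s:ℂ))) := by
    intro s hs
    rw [H2 al hal a b ha hb Z X hNB2 hU t ht s hs, c01_Uf_odd, c01_Uf_conj (B6 s hs).1]
  have hV : Vf al Z X (-(starRingEnd ℂ) t) = (starRingEnd ℂ) (Vf al Z X t) := by
    rw [← one_mul ((starRingEnd ℂ) (Vf al Z X t))]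
    apply c01_int_conj hal0 1
    intro s hs
    rw [hZ', hX, hW s hs]
    simp only [map_mul, map_neg, map_pow]
    ring
  have hPz : Pzf al Z X (-(starRingEnd ℂ) t) = (starRingEnd ℂ) (Pzf al Z X t) := by
    rw [← one_mul ((starRingEnd ℂ) (Pzf al Z X t))]
    apply c01_int_conj hal0 1
    intro s hs
    rw [hZ', hX, hZ, hW s hs]
    simp only [map_mul, map_neg, map_pow]
    ring
  have hPx : Pxf al Z X (-(starRingEnd ℂ) t) = - (starRingEnd ℂ) (Pxf al Z X t) := by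
    rw [← neg_one_mul ((starRingEnd ℂ) (Pxf al Z X t))]
    apply c01_int_conj hal0 (-1)
    intro s hs
    rw [hZ', hX, hUf s hs]
    simp only [map_mul, map_neg, map_pow, map_div₀, map_ofNat]
    ring
  have haj : ∀ j, aj al j Z X (-(starRingEnd ℂ) t) =
      (-1) ^ j * (starRingEnd ℂ) (aj al j Z X t) := by
    intro j
    apply c01_int_conj hal0 ((-1) ^ j)
    intro s hs
    have htau : tau al Z (-(starRingEnd ℂ) t) ((-s : ℝ):ℂ) =
        -1 * (starRingEnd ℂ) (tau al Z t (s:ℂ)) := by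
      unfold tau
      rw [hZ, hmZ, hdZ, map_div₀, map_sub, div_neg]
      ring
    rw [htau, hZ', hX, hUf s hs, hnx, mul_pow]
    simp only [map_mul, map_neg, map_pow, map_div₀]
    rw [div_neg]
    ring
  refine ⟨hV, hPz, hPx, haj, ?_, het, hell, ?_⟩
  · unfold Sf
    rw [hnz, hnx, hPz, hPx, het, hV]
    simp only [map_mul, map_add, map_sub]
    ring
  · unfold Yf
    rw [hell, hnz]
    simp only [map_mul, map_add, map_sub, map_pow, map_div₀, map_ofNat]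

end FB
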