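import Pool.Agent.H48.FB.B04
import Pool.Agent.H48.FB.C01

/-! C02: the variation operators: families, bounds, linearity, periodicity, reality. -/

open Complex Set MeasureTheory Filter Topology

noncomputable section

namespace FB

/-! ### auxiliary lemmas -/

theorem c02_Af_diff : DifferentiableOn ℂ Af {y : ℂ | ‖y‖ ^ 2 < 2} :=
  fun _ hy => (hasDerivAt_Af hy).differentiableAt.differentiableWithinAt

theorem c02_Lf_diff : DifferentiableOn ℂ Lf {y : ℂ | ‖y‖ ^ 2 < 2} :=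
  fun _ hy => (hasDerivAt_Lf hy).differentiableAt.differentiableWithinAt

theorem c02_AL_bound : ∃ C : ℝ, 1 ≤ C ∧ ∀ y : ℂ, ‖y‖ ^ 2 ≤ 1/2 → ‖Af y‖ ≤ C ∧ ‖Lf y‖ ≤ C := by
  have hsub : Metric.closedBall (0:ℂ) 1 ⊆ {y : ℂ | ‖y‖ ^ 2 < 2} := by
    intro y hy
    rw [mem_closedBall_zero_iff] at hy
    show ‖y‖ ^ 2 < 2
    have := norm_nonneg y
    nlinarith
  have hc := isCompact_closedBall (0:ℂ) 1
  obtain ⟨C1, h1⟩ := hc.exists_bound_of_continuousOn (c02_Af_diff.continuousOn.mono hsub)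
  obtain ⟨C2, h2⟩ := hc.exists_bound_of_continuousOn (c02_Lf_diff.continuousOn.mono hsub)
  refine ⟨max 1 (max C1 C2), le_max_left _ _, ?_⟩
  intro y hy
  have hy' : y ∈ Metric.closedBall (0:ℂ) 1 := by
    rw [mem_closedBall_zero_iff]
    have := norm_nonneg y
    nlinarith
  exact ⟨(h1 y hy').trans ((le_max_left _ _).trans (le_max_right _ _)),
    (h2 y hy').trans ((le_max_right _ _).trans (le_max_right _ _))⟩

theorem c02_Af_odd (y : ℂ) : Af (-y) = -Af y := by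
  unfold Af
  rw [neg_sq]
  ring

theorem c02_Lf_odd (y : ℂ) : Lf (-y) = -Lf y := by
  unfold Lf
  rw [neg_sq]
  ring

theorem c02_Af_conj {y : ℂ} (hy : ‖y‖ ^ 2 ≤ 1/2) :
    Af ((starRingEnd ℂ) y) = (starRingEnd ℂ) (Af y) := by
  unfold Af
  rw [map_mul, ← map_pow, bf_conj]
  rw [norm_pow]
  linarith

theorem c02_Lf_conj {y : ℂ} (hy : ‖y‖ ^ 2 ≤ 1/2) :
    Lf ((starRingEnd ℂ) y) = (starRingEnd ℂ) (Lf y) := by
  have h : afn ((starRingEnd ℂ) y ^ 2) = (starRingEnd ℂ) (afn (y ^ 2)) := by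
    rw [← map_pow, afn_conj]
    rw [norm_pow]
    linarith
  unfold Lf
  rw [map_mul, map_pow, h]

/-- the integrands -/
def c02V (al : ℝ) (Z X A B : ℂ → ℂ) (t : ℂ) (s : ℝ) : ℂ :=
  Af (yy al Z X t (s:ℂ)) * (2 * X (t + (s:ℂ))) *
    (deriv X (t + (s:ℂ)) * A (t + (s:ℂ)) - deriv Z (t + (s:ℂ)) * B (t + (s:ℂ)))
def c02S (al : ℝ) (Z X A B : ℂ → ℂ) (t : ℂ) (s : ℝ) : ℂ :=
  Lf (yy al Z X t (s:ℂ)) * (nx al Z t * X (t + (s:ℂ))) * (2 * X (t + (s:ℂ))) *
    (deriv X (t + (s:ℂ)) * A (t + (s:ℂ)) - deriv Z (t + (s:ℂ)) * B (t + (s:ℂ)))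

/-- pointwise bounds -/
theorem c02_bounds (R : ℝ) (hR : 1 < R) : ∃ c0 K : ℝ, 0 < c0 ∧ 1 ≤ K ∧
    ∀ al ∈ JJ, ∀ a b : ℝ, 1 ≤ a → b ≤ R → ∀ Z X : ℂ → ℂ, NB c0 a b Z X → ∀ t ∈ band a b,
      (∀ s : ℝ, ‖Z (t + s)‖ ≤ K ∧ ‖X (t + s)‖ ≤ K ∧ ‖deriv Z (t + s)‖ ≤ K ∧
        ‖deriv X (t + s)‖ ≤ K) ∧
      ‖nz al X t‖ ≤ K ∧ ‖nx al Z t‖ ≤ K ∧ ‖md al Z t‖ ≤ K ∧ ‖md al X t‖ ≤ K ∧
      ∀ s ∈ Ioo (-al) al, ‖yy al Z X t (s:ℂ)‖ ^ 2 ≤ 1/2 ∧ ‖Af (yy al Z X t (s:ℂ))‖ ≤ K ∧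
        ‖Lf (yy al Z X t (s:ℂ))‖ ≤ K ∧ ContinuousAt (fun s : ℝ => yy al Z X t (s:ℂ)) s := by
  obtain ⟨c1, K1, hc1, hK1, H1⟩ := c01_bounds R hR
  obtain ⟨CA, hCA, HA⟩ := c02_AL_bound
  set B : ℝ := Real.exp R + 1 with hB
  have hB1 : 1 ≤ B := by
    have := Real.exp_pos R
    linarith
  refine ⟨min 1 c1, max K1 (max CA B), by positivity, hK1.trans (le_max_left _ _), ?_⟩
  have l1 : K1 ≤ max K1 (max CA B) := le_max_left _ _
  have l2 : CA ≤ max K1 (max CA B) := (le_max_left _ _).trans (le_max_right _ _)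
  have l3 : B ≤ max K1 (max CA B) := (le_max_right _ _).trans (le_max_right _ _)
  intro al hal a b ha hb Z X hNB t ht
  have hNB1 : NB c1 a b Z X := c01_NB_mono hNB (min_le_right _ _)
  have hNB3 : NB 1 a b Z X := c01_NB_mono hNB (min_le_left _ _)
  obtain ⟨h1, h2, h3, -, -, h6⟩ := H1 al hal a b ha hb Z X hNB1 t ht
  have hX'b : ∀ z ∈ band a b, ‖deriv X z‖ ≤ B := by
    intro z hz
    have h1 := hNB3.x1 z hz
    have h2 := c01_cos_le z
    have h3 := norm_sub_norm_le (deriv X z) (cos z)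
    have h4 : Real.exp |z.im| ≤ Real.exp R := by
      rw [Real.exp_le_exp, abs_of_nonneg (by linarith [hz.1])]
      linarith [hz.2]
    linarith
  have htm : t + ((-al : ℝ) : ℂ) = t - (al:ℂ) := by push_cast; ring
  have hmd : ∀ f : ℂ → ℂ, (∀ s : ℝ, ‖f (t + s)‖ ≤ K1) → ‖md al f t‖ ≤ K1 := by
    intro f hf
    unfold md
    rw [norm_div]
    have h4 : ‖(2:ℂ)‖ = 2 := by simp
    rw [h4, div_le_iff₀ (by norm_num)]
    refine (norm_add_le _ _).trans ?_
    have e1 := hf al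
    have e2 := hf (-al)
    rw [htm] at e2
    linarith
  refine ⟨fun s => ⟨(h1 s).1.trans l1, (h1 s).2.1.trans l1, (h1 s).2.2.trans l1,
    (hX'b _ (add_real_mem_band ht s)).trans l3⟩, h2.trans l1, h3.trans l1,
    (hmd Z fun s => (h1 s).1).trans l1, (hmd X fun s => (h1 s).2.1).trans l1, fun s hs => ?_⟩
  obtain ⟨hy, -, -, -, hcont⟩ := h6 s hs
  exact ⟨hy, (HA _ hy).1.trans l2, (HA _ hy).2.trans l2, hcont⟩

/-- continuity in `s` -/
theorem c02_cont {al a b : ℝ} {Z X A B : ℂ → ℂ} (hZ : DifferentiableOn ℂ Z (band a b))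
    (hX : DifferentiableOn ℂ X (band a b)) (hA : ContinuousOn A (band a b))
    (hB : ContinuousOn B (band a b)) {t : ℂ} (ht : t ∈ band a b)
    (hy : ∀ s ∈ Ioo (-al) al, ‖yy al Z X t (s:ℂ)‖ ^ 2 ≤ 1/2 ∧
      ContinuousAt (fun s : ℝ => yy al Z X t (s:ℂ)) s) :
    ContinuousOn (c02V al Z X A B t) (Ioo (-al) al) ∧
    ContinuousOn (c02S al Z X A B t) (Ioo (-al) al) := by
  have hline : ∀ s : ℝ, ContinuousAt (fun s : ℝ => t + (s:ℂ)) s := by
    intro s
    fun_prop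
  have hop := isOpen_band a b
  have key : ∀ f : ℂ → ℂ, ContinuousOn f (band a b) →
      ∀ s : ℝ, ContinuousAt (fun s : ℝ => f (t + (s:ℂ))) s := by
    intro f hf s
    have h1 : ContinuousAt f (t + (s:ℂ)) :=
      hf.continuousAt (hop.mem_nhds (add_real_mem_band ht s))
    exact ContinuousAt.comp (g := f) (f := fun s : ℝ => t + (s:ℂ)) h1 (hline s)
  have kX := key X hX.continuousOn
  have kA := key A hA
  have kB := key B hB
  have kZ' := key (deriv Z) (hZ.deriv hop).continuousOn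
  have kX' := key (deriv X) (hX.deriv hop).continuousOn
  have kAf : ∀ s ∈ Ioo (-al) al, ContinuousAt (fun s : ℝ => Af (yy al Z X t (s:ℂ))) s := by
    intro s hs
    obtain ⟨h1, h2⟩ := hy s hs
    have h3 : ‖yy al Z X t (s:ℂ)‖ ^ 2 < 2 := by linarith
    have h4 : ContinuousAt Af (yy al Z X t (s:ℂ)) := (hasDerivAt_Af h3).continuousAt
    exact ContinuousAt.comp (g := Af) (f := fun s : ℝ => yy al Z X t (s:ℂ)) h4 h2
  have kL : ∀ s ∈ Ioo (-al) al, ContinuousAt (fun s : ℝ => Lf (yy al Z X t (s:ℂ))) s := by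
    intro s hs
    obtain ⟨h1, h2⟩ := hy s hs
    have h3 : ‖yy al Z X t (s:ℂ)‖ ^ 2 < 2 := by linarith
    have h4 : ContinuousAt Lf (yy al Z X t (s:ℂ)) := (hasDerivAt_Lf h3).continuousAt
    exact ContinuousAt.comp (g := Lf) (f := fun s : ℝ => yy al Z X t (s:ℂ)) h4 h2
  refine ⟨fun s hs => ContinuousAt.continuousWithinAt ?_,
    fun s hs => ContinuousAt.continuousWithinAt ?_⟩
  · unfold c02V
    exact ((kAf s hs).mul (continuousAt_const.mul (kX s))).mul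
      (((kX' s).mul (kA s)).sub ((kZ' s).mul (kB s)))
  · unfold c02S
    exact (((kL s hs).mul (continuousAt_const.mul (kX s))).mul
      (continuousAt_const.mul (kX s))).mul (((kX' s).mul (kA s)).sub ((kZ' s).mul (kB s)))

/-- the integrands are families -/
theorem c02_fam {al a b : ℝ} {Z X A B : EE → ℂ → ℂ} (hZ : Fam (band a b) Z)
    (hX : Fam (band a b) X) (hA : Fam (band a b) A) (hB : Fam (band a b) B) {s : ℝ}
    (hyf : Fam (band a b) (fun e t => yy al (Z e) (X e) t (s:ℂ)))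
    (hy : ∀ e, ∀ t ∈ band a b, ‖yy al (Z e) (X e) t (s:ℂ)‖ ^ 2 ≤ 1/2) :
    Fam (band a b) (fun e t => c02V al (Z e) (X e) (A e) (B e) t s) ∧
    Fam (band a b) (fun e t => c02S al (Z e) (X e) (A e) (B e) t s) := by
  have fX : Fam (band a b) (fun e z => X e (z + (s:ℂ))) := hX.shift s
  have fA : Fam (band a b) (fun e z => A e (z + (s:ℂ))) := hA.shift s
  have fB : Fam (band a b) (fun e z => B e (z + (s:ℂ))) := hB.shift s
  have fZ' : Fam (band a b) (fun e z => deriv (Z e) (z + (s:ℂ))) := hZ.deriv.shift s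
  have fX' : Fam (band a b) (fun e z => deriv (X e) (z + (s:ℂ))) := hX.deriv.shift s
  have hy2 : ∀ e, ∀ z ∈ band a b, yy al (Z e) (X e) z (s:ℂ) ∈ {y : ℂ | ‖y‖ ^ 2 < 2} := by
    intro e z hz
    have := hy e z hz
    show ‖yy al (Z e) (X e) z (s:ℂ)‖ ^ 2 < 2
    linarith
  have fAf : Fam (band a b) (fun e t => Af (yy al (Z e) (X e) t (s:ℂ))) :=
    hyf.comp c02_Af_diff hy2
  have fL : Fam (band a b) (fun e t => Lf (yy al (Z e) (X e) t (s:ℂ))) :=
    hyf.comp c02_Lf_diff hy2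
  obtain ⟨-, -, -, fnx, -, -, -⟩ := fam_chord (al := al) hZ hX
  have f2 : Fam (band a b) (fun (_ : EE) (_ : ℂ) => (2:ℂ)) :=
    Fam.const (U := band a b) (f := fun _ => (2 : ℂ)) (differentiableOn_const _)
  have fW : Fam (band a b) (fun e z => deriv (X e) (z + (s:ℂ)) * A e (z + (s:ℂ)) -
      deriv (Z e) (z + (s:ℂ)) * B e (z + (s:ℂ))) := (fX'.mul fA).sub (fZ'.mul fB)
  exact ⟨(fAf.mul (f2.mul fX)).mul fW, ((fL.mul (fnx.mul fX)).mul (f2.mul fX)).mul fW⟩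

theorem fam_variation (R : ℝ) (hR : 1 < R) : ∃ c0 C : ℝ, 0 < c0 ∧ 1 ≤ C ∧ ∀ al ∈ JJ, ∀ a b : ℝ, 1 ≤ a → a < b → b ≤ R →
    ∀ Z X : EE → ℂ → ℂ, FNB c0 a b Z X → ∀ A B : EE → ℂ → ℂ, Fam (band a b) A → Fam (band a b) B → ∀ d : ℝ,
      (∀ e, ∀ z ∈ band a b, ‖A e z‖ ≤ d ∧ ‖B e z‖ ≤ d) →
      Fam (band a b) (fun e => DV al (Z e) (X e) (A e) (B e)) ∧ Fam (band a b) (fun e => DS0 al (Z e) (X e) (A e) (B e)) ∧
      Fam (band a b) (fun e => DS al (Z e) (X e) (A e) (B e)) ∧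
      (∀ e, ∀ t ∈ band a b, ‖DV al (Z e) (X e) (A e) (B e) t‖ ≤ C * d ∧ ‖DS0 al (Z e) (X e) (A e) (B e) t‖ ≤ C * d ∧
        ‖DS al (Z e) (X e) (A e) (B e) t‖ ≤ C * d ∧ ‖Det al (Z e) (X e) (A e) (B e) t‖ ≤ C * d) := by
  obtain ⟨c1, K, hc1, hK, H1⟩ := c02_bounds R hR
  obtain ⟨c2, hc2, H2⟩ := fam_yy R hR
  obtain ⟨c3, C1, hc3, hC1, H3⟩ := fam_functionals R hR
  refine ⟨min c1 (min c2 c3), 10 * K ^ 5 + 20 * C1 * K, by positivity, ?_, ?_⟩
  · have h1 : 1 ≤ K ^ 5 := one_le_pow₀ hK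
    have h2 : 0 ≤ 20 * C1 * K := by positivity
    linarith
  intro al hal a b ha hab hb Z X hF A B hA hB d hd
  have hF1 := c01_FNB_mono hF (min_le_left c1 (min c2 c3))
  have hF2 := c01_FNB_mono hF ((min_le_right c1 (min c2 c3)).trans (min_le_left _ _))
  have hF3 := c01_FNB_mono hF ((min_le_right c1 (min c2 c3)).trans (min_le_right _ _))
  have Bd := fun e t ht => H1 al hal a b ha hb (Z e) (X e) (hF1.nb e) t ht
  obtain ⟨FV, FPz, FPx, Fa, -, Bf⟩ := H3 al hal a b ha hab hb Z X hF3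
  obtain ⟨hJ1, hJ2, -, -, -, -, -⟩ := JJ_bounds hal
  have hal0 : 0 < al := by linarith
  have hK0 : 0 ≤ K := by linarith
  have hC10 : 0 ≤ C1 := by linarith
  have fams : ∀ s ∈ Ioo (-al) al,
      Fam (band a b) (fun e t => c02V al (Z e) (X e) (A e) (B e) t s) ∧
      Fam (band a b) (fun e t => c02S al (Z e) (X e) (A e) (B e) t s) := by
    intro s hs
    refine c02_fam hF.fZ hF.fX hA hB (H2 al hal a b ha hb Z X hF2 s hs) ?_
    intro e t ht
    exact ((Bd e t ht).2.2.2.2.2 s hs).1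
  have conts : ∀ e, ∀ t ∈ band a b,
      ContinuousOn (c02V al (Z e) (X e) (A e) (B e) t) (Ioo (-al) al) ∧
      ContinuousOn (c02S al (Z e) (X e) (A e) (B e) t) (Ioo (-al) al) := by
    intro e t ht
    exact c02_cont (hF.nb e).dZ (hF.nb e).dX (hA.diff e).continuousOn (hB.diff e).continuousOn ht
      (fun s hs => ⟨((Bd e t ht).2.2.2.2.2 s hs).1, ((Bd e t ht).2.2.2.2.2 s hs).2.2.2⟩)
  -- bounds of the integrands
  have bds : ∀ e, ∀ t ∈ band a b, 0 ≤ d ∧ ∀ s ∈ Ioo (-al) al,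
      ‖c02V al (Z e) (X e) (A e) (B e) t s‖ ≤ 4 * K ^ 3 * d ∧
      ‖c02S al (Z e) (X e) (A e) (B e) t s‖ ≤ 4 * K ^ 5 * d := by
    intro e t ht
    have hd0 : 0 ≤ d := (norm_nonneg _).trans (hd e t ht).1
    refine ⟨hd0, fun s hs => ?_⟩
    obtain ⟨h1, h2, h3, -, -, h6⟩ := Bd e t ht
    obtain ⟨hZ, hX, hZ', hX'⟩ := h1 s
    obtain ⟨-, hAf, hL, -⟩ := h6 s hs
    obtain ⟨hAs, hBs⟩ := hd e _ (add_real_mem_band ht s)
    have hW : ‖deriv (X e) (t + (s:ℂ)) * A e (t + (s:ℂ)) -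
        deriv (Z e) (t + (s:ℂ)) * B e (t + (s:ℂ))‖ ≤ 2 * (K * d) := by
      refine (norm_sub_le _ _).trans ?_
      rw [norm_mul, norm_mul]
      have e1 : ‖deriv (X e) (t + (s:ℂ))‖ * ‖A e (t + (s:ℂ))‖ ≤ K * d := by gcongr
      have e2 : ‖deriv (Z e) (t + (s:ℂ))‖ * ‖B e (t + (s:ℂ))‖ ≤ K * d := by gcongr
      linarith
    have h2X : ‖2 * X e (t + (s:ℂ))‖ ≤ 2 * K := by
      rw [norm_mul]
      have : ‖(2:ℂ)‖ = 2 := by simp
      rw [this]
      gcongr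
    constructor
    · have e1 : ‖c02V al (Z e) (X e) (A e) (B e) t s‖ ≤ K * (2 * K) * (2 * (K * d)) := by
        unfold c02V
        rw [norm_mul, norm_mul]
        gcongr
      refine e1.trans (le_of_eq ?_)
      ring
    · have e1 : ‖c02S al (Z e) (X e) (A e) (B e) t s‖ ≤ K * (K * K) * (2 * K) * (2 * (K * d)) := by
        unfold c02S
        rw [norm_mul, norm_mul, norm_mul, norm_mul (nx al (Z e) t)]
        gcongr
      refine e1.trans (le_of_eq ?_)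
      ring
  have bmem : ∀ e t, t ∈ band a b → 0 ≤ d := fun e t ht => (bds e t ht).1
  -- families
  have FI : Fam (band a b) (fun e t => ∫ s in (-al)..al, c02V al (Z e) (X e) (A e) (B e) t s) :=
    Fam.integral hal0 (fun s hs => (fams s hs).1) (fun e t ht s hs => ((bds e t ht).2 s hs).1)
      (fun e t ht => (conts e t ht).1)
  have FS0 : Fam (band a b) (fun e => DS0 al (Z e) (X e) (A e) (B e)) :=
    Fam.integral hal0 (fun s hs => (fams s hs).2) (fun e t ht s hs => ((bds e t ht).2 s hs).2)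
      (fun e t ht => (conts e t ht).2)
  obtain ⟨fmZ, fmX, fnz, fnx, fet, -, -⟩ := fam_chord (al := al) hF.fZ hF.fX
  have fndp : Fam (band a b) (fun e => ndp al (Z e) (X e) (A e) (B e)) :=
    (fnz.mul (hA.shift al)).add (fnx.mul (hB.shift al))
  have fndm : Fam (band a b) (fun e => ndm al (Z e) (X e) (A e) (B e)) :=
    (fnz.mul (hA.shift_sub al)).add (fnx.mul (hB.shift_sub al))
  have FDV : Fam (band a b) (fun e => DV al (Z e) (X e) (A e) (B e)) :=
    (FI.sub (((Fa 0 (by norm_num)).add (Fa 1 (by norm_num))).mul fndp)).sub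
      (((Fa 0 (by norm_num)).sub (Fa 1 (by norm_num))).mul fndm)
  have fdA := fam_df (al := al) hA
  have fdB := fam_df (al := al) hB
  have fmA := fam_md (al := al) hA
  have fmB := fam_md (al := al) hB
  have fDet : Fam (band a b) (fun e => Det al (Z e) (X e) (A e) (B e)) :=
    (((fdB.mul fmZ).sub (fdA.mul fmX)).add (fnz.mul fmA)).add (fnx.mul fmB)
  have FDS : Fam (band a b) (fun e => DS al (Z e) (X e) (A e) (B e)) :=
    ((FS0.add (fdB.mul FPz)).sub (fdA.mul FPx)).sub (fDet.mul FV)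
  refine ⟨FDV, FS0, FDS, ?_⟩
  intro e t ht
  obtain ⟨hd0, hbi⟩ := bds e t ht
  obtain ⟨h1, h2, h3, h4, h5, -⟩ := Bd e t ht
  obtain ⟨bV, bPz, bPx, baj, -⟩ := Bf e t ht
  have htm : t + ((-al : ℝ) : ℂ) = t - (al:ℂ) := by push_cast; ring
  have tp := add_real_mem_band ht al
  have tm := sub_real_mem_band ht al
  have hnorm2 : ‖(2:ℂ)‖ = 2 := by simp
  have half : ∀ f : ℂ → ℂ, (∀ z ∈ band a b, ‖f z‖ ≤ d) → ‖df al f t‖ ≤ d ∧ ‖md al f t‖ ≤ d := by
    intro f hf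
    have e1 := hf _ tp
    have e2 := hf _ tm
    constructor
    · unfold df
      rw [norm_div, hnorm2, div_le_iff₀ (by norm_num)]
      refine (norm_sub_le _ _).trans ?_
      linarith
    · unfold md
      rw [norm_div, hnorm2, div_le_iff₀ (by norm_num)]
      refine (norm_add_le _ _).trans ?_
      linarith
  obtain ⟨dA, mA⟩ := half (A e) (fun z hz => (hd e z hz).1)
  obtain ⟨dB, mB⟩ := half (B e) (fun z hz => (hd e z hz).2)
  have bdet : ‖Det al (Z e) (X e) (A e) (B e) t‖ ≤ 4 * K * d := by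
    unfold Det
    have e1 : ‖df al (B e) t * md al (Z e) t‖ ≤ d * K := by rw [norm_mul]; gcongr
    have e2 : ‖df al (A e) t * md al (X e) t‖ ≤ d * K := by rw [norm_mul]; gcongr
    have e3 : ‖nz al (X e) t * md al (A e) t‖ ≤ K * d := by rw [norm_mul]; gcongr
    have e4 : ‖nx al (Z e) t * md al (B e) t‖ ≤ K * d := by rw [norm_mul]; gcongr
    refine (norm_add_le _ _).trans ?_
    have e5 := norm_add_le (df al (B e) t * md al (Z e) t - df al (A e) t * md al (X e) t)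
      (nz al (X e) t * md al (A e) t)
    have e6 := norm_sub_le (df al (B e) t * md al (Z e) t) (df al (A e) t * md al (X e) t)
    linarith
  have bndp : ‖ndp al (Z e) (X e) (A e) (B e) t‖ ≤ 2 * K * d := by
    unfold ndp
    have q1 := (hd e _ tp).1
    have q2 := (hd e _ tp).2
    have e1 : ‖nz al (X e) t * A e (t + (al:ℂ))‖ ≤ K * d := by rw [norm_mul]; gcongr
    have e2 : ‖nx al (Z e) t * B e (t + (al:ℂ))‖ ≤ K * d := by rw [norm_mul]; gcongr
    refine (norm_add_le _ _).trans ?_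
    linarith
  have bndm : ‖ndm al (Z e) (X e) (A e) (B e) t‖ ≤ 2 * K * d := by
    unfold ndm
    have q1 := (hd e _ tm).1
    have q2 := (hd e _ tm).2
    have e1 : ‖nz al (X e) t * A e (t - (al:ℂ))‖ ≤ K * d := by rw [norm_mul]; gcongr
    have e2 : ‖nx al (Z e) t * B e (t - (al:ℂ))‖ ≤ K * d := by rw [norm_mul]; gcongr
    refine (norm_add_le _ _).trans ?_
    linarith
  have bI : ‖∫ s in (-al)..al, c02V al (Z e) (X e) (A e) (B e) t s‖ ≤ 10 * K ^ 3 * d := by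
    have e0 : 0 ≤ 4 * K ^ 3 * d := by positivity
    refine (c01_int_bound hal0.le e0 (fun s hs => (hbi s hs).1)).trans ?_
    nlinarith
  have bS0 : ‖DS0 al (Z e) (X e) (A e) (B e) t‖ ≤ 10 * K ^ 5 * d := by
    have e0 : 0 ≤ 4 * K ^ 5 * d := by positivity
    refine (c01_int_bound hal0.le e0 (fun s hs => (hbi s hs).2)).trans ?_
    nlinarith
  have hK35 : K ^ 3 ≤ K ^ 5 := pow_le_pow_right₀ hK (by norm_num)
  have hK35d : K ^ 3 * d ≤ K ^ 5 * d := mul_le_mul_of_nonneg_right hK35 hd0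
  have hCKd : 0 ≤ C1 * K * d := by positivity
  have hKd : K * d ≤ C1 * K * d := by
    have := mul_le_mul_of_nonneg_right hC1 (mul_nonneg hK0 hd0)
    linarith
  have hCd : C1 * d ≤ C1 * K * d := by
    have := mul_le_mul_of_nonneg_left hK (mul_nonneg hC10 hd0)
    linarith
  have hK5d : 0 ≤ K ^ 5 * d := by positivity
  refine ⟨?_, ?_, ?_, ?_⟩
  · have e1 : ‖(aj al 0 (Z e) (X e) t + aj al 1 (Z e) (X e) t) *
        ndp al (Z e) (X e) (A e) (B e) t‖ ≤ (C1 + C1) * (2 * K * d) := by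
      rw [norm_mul]
      refine mul_le_mul ((norm_add_le _ _).trans (add_le_add (baj 0 (by norm_num))
        (baj 1 (by norm_num)))) bndp (norm_nonneg _) (by positivity)
    have e2 : ‖(aj al 0 (Z e) (X e) t - aj al 1 (Z e) (X e) t) *
        ndm al (Z e) (X e) (A e) (B e) t‖ ≤ (C1 + C1) * (2 * K * d) := by
      rw [norm_mul]
      refine mul_le_mul ((norm_sub_le _ _).trans (add_le_add (baj 0 (by norm_num))
        (baj 1 (by norm_num)))) bndm (norm_nonneg _) (by positivity)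
    have e3 : ‖DV al (Z e) (X e) (A e) (B e) t‖ ≤ 10 * K ^ 3 * d + (C1 + C1) * (2 * K * d) +
        (C1 + C1) * (2 * K * d) := by
      unfold DV
      refine (norm_sub_le _ _).trans (add_le_add ((norm_sub_le _ _).trans (add_le_add bI e1)) e2)
    refine e3.trans ?_
    linarith
  · refine bS0.trans ?_
    linarith
  · have e1 : ‖df al (B e) t * Pzf al (Z e) (X e) t‖ ≤ d * C1 := by rw [norm_mul]; gcongr
    have e2 : ‖df al (A e) t * Pxf al (Z e) (X e) t‖ ≤ d * C1 := by rw [norm_mul]; gcongr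
    have e3 : ‖Det al (Z e) (X e) (A e) (B e) t * Vf al (Z e) (X e) t‖ ≤ 4 * K * d * C1 := by
      rw [norm_mul]; gcongr
    have e4 : ‖DS al (Z e) (X e) (A e) (B e) t‖ ≤ 10 * K ^ 5 * d + d * C1 + d * C1 +
        4 * K * d * C1 := by
      unfold DS
      refine (norm_sub_le _ _).trans (add_le_add ((norm_sub_le _ _).trans
        (add_le_add ((norm_add_le _ _).trans (add_le_add bS0 e1)) e2)) e3)
    refine e4.trans ?_
    linarith
  · refine bdet.trans ?_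
    linarith

theorem c02_integrable {al M : ℝ} (hal : 0 ≤ al) {g : ℝ → ℂ} (hc : ContinuousOn g (Ioo (-al) al))
    (h : ∀ s ∈ Ioo (-al) al, ‖g s‖ ≤ M) : IntervalIntegrable g volume (-al) al := by
  rw [intervalIntegrable_iff_integrableOn_Ioo_of_le (by linarith)]
  refine Integrable.mono' (g := fun _ => M) (integrable_const M)
    (hc.aestronglyMeasurable measurableSet_Ioo) ?_
  rw [ae_restrict_iff' measurableSet_Ioo]
  exact Eventually.of_forall h

/-- linearity in the direction (single curves; integrability from B04) -/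
theorem DV_add (R : ℝ) (hR : 1 < R) : ∃ c0 : ℝ, 0 < c0 ∧ ∀ al ∈ JJ, ∀ a b : ℝ, 1 ≤ a → b ≤ R →
    ∀ Z X : ℂ → ℂ, NB c0 a b Z X → ∀ A B A' B' : ℂ → ℂ, ContinuousOn A (band a b) → ContinuousOn B (band a b) →
      ContinuousOn A' (band a b) → ContinuousOn B' (band a b) → ∀ t ∈ band a b, ∀ p q : ℂ,
      DV al Z X (fun z => p * A z + q * A' z) (fun z => p * B z + q * B' z) t =
        p * DV al Z X A B t + q * DV al Z X A' B' t ∧
      DS0 al Z X (fun z => p * A z + q * A' z) (fun z => p * B z + q * B' z) t =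
        p * DS0 al Z X A B t + q * DS0 al Z X A' B' t ∧
      DS al Z X (fun z => p * A z + q * A' z) (fun z => p * B z + q * B' z) t =
        p * DS al Z X A B t + q * DS al Z X A' B' t := by
  obtain ⟨c1, K, hc1, hK, H1⟩ := c02_bounds R hR
  refine ⟨c1, hc1, ?_⟩
  intro al hal a b ha hb Z X hNB A B A' B' hA hB hA' hB' t ht p q
  obtain ⟨hJ1, hJ2, -, -, -, -, -⟩ := JJ_bounds hal
  have hal0 : 0 < al := by linarith
  have hK0 : 0 ≤ K := by linarith
  obtain ⟨h1, h2, h3, -, -, h6⟩ := H1 al hal a b ha hb Z X hNB t ht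
  have hint : ∀ A B : ℂ → ℂ, ContinuousOn A (band a b) → ContinuousOn B (band a b) →
      IntervalIntegrable (c02V al Z X A B t) volume (-al) al ∧
      IntervalIntegrable (c02S al Z X A B t) volume (-al) al := by
    intro A B hA hB
    obtain ⟨k1, k2⟩ := c02_cont hNB.dZ hNB.dX hA hB ht
      (fun s hs => ⟨(h6 s hs).1, (h6 s hs).2.2.2⟩)
    have hcs : ∀ f : ℂ → ℂ, ContinuousOn f (band a b) →
        ∃ M : ℝ, ∀ s ∈ Icc (-al) al, ‖f (t + (s:ℂ))‖ ≤ M := by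
      intro f hf
      have hf' : ContinuousOn (fun s : ℝ => f (t + (s:ℂ))) (Icc (-al) al) :=
        hf.comp (f := fun s : ℝ => t + (s:ℂ)) (by fun_prop) (fun s _ => add_real_mem_band ht s)
      exact isCompact_Icc.exists_bound_of_continuousOn hf'
    obtain ⟨MA, hMA⟩ := hcs A hA
    obtain ⟨MB, hMB⟩ := hcs B hB
    have hMA0 : 0 ≤ MA := (norm_nonneg _).trans (hMA 0 ⟨by linarith, by linarith⟩)
    have hMB0 : 0 ≤ MB := (norm_nonneg _).trans (hMB 0 ⟨by linarith, by linarith⟩)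
    have hW : ∀ s ∈ Ioo (-al) al, ‖deriv X (t + (s:ℂ)) * A (t + (s:ℂ)) -
        deriv Z (t + (s:ℂ)) * B (t + (s:ℂ))‖ ≤ K * MA + K * MB := by
      intro s hs
      have hAs := hMA s (Ioo_subset_Icc_self hs)
      have hBs := hMB s (Ioo_subset_Icc_self hs)
      obtain ⟨-, -, hZ', hX'⟩ := h1 s
      refine (norm_sub_le _ _).trans ?_
      rw [norm_mul, norm_mul]
      gcongr
    have h2X : ∀ s : ℝ, ‖2 * X (t + (s:ℂ))‖ ≤ 2 * K := by
      intro s
      obtain ⟨-, hX, -, -⟩ := h1 s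
      rw [norm_mul]
      have : ‖(2:ℂ)‖ = 2 := by simp
      rw [this]
      gcongr
    constructor
    · refine c02_integrable (M := K * (2 * K) * (K * MA + K * MB)) hal0.le k1 fun s hs => ?_
      have e1 := hW s hs
      have e2 := h2X s
      have e3 := (h6 s hs).2.1
      unfold c02V
      rw [norm_mul, norm_mul]
      gcongr
    · refine c02_integrable (M := K * (K * K) * (2 * K) * (K * MA + K * MB)) hal0.le k2
        fun s hs => ?_
      have e1 := hW s hs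
      have e2 := h2X s
      have e3 := (h6 s hs).2.2.1
      have e4 := (h1 s).2.1
      unfold c02S
      rw [norm_mul, norm_mul, norm_mul, norm_mul (nx al Z t)]
      gcongr
  obtain ⟨i1, i2⟩ := hint A B hA hB
  obtain ⟨i3, i4⟩ := hint A' B' hA' hB'
  have eV : (∫ s in (-al)..al, c02V al Z X (fun z => p * A z + q * A' z)
      (fun z => p * B z + q * B' z) t s) =
      p * (∫ s in (-al)..al, c02V al Z X A B t s) + q * ∫ s in (-al)..al, c02V al Z X A' B' t s := by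
    rw [← intervalIntegral.integral_const_mul, ← intervalIntegral.integral_const_mul,
      ← intervalIntegral.integral_add (i1.const_mul p) (i3.const_mul q)]
    congr 1
    funext s
    unfold c02V
    ring
  have eS : (∫ s in (-al)..al, c02S al Z X (fun z => p * A z + q * A' z)
      (fun z => p * B z + q * B' z) t s) =
      p * (∫ s in (-al)..al, c02S al Z X A B t s) + q * ∫ s in (-al)..al, c02S al Z X A' B' t s := by
    rw [← intervalIntegral.integral_const_mul, ← intervalIntegral.integral_const_mul,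
      ← intervalIntegral.integral_add (i2.const_mul p) (i4.const_mul q)]
    congr 1
    funext s
    unfold c02S
    ring
  have eS' : DS0 al Z X (fun z => p * A z + q * A' z) (fun z => p * B z + q * B' z) t =
        p * DS0 al Z X A B t + q * DS0 al Z X A' B' t := eS
  refine ⟨?_, eS', ?_⟩
  · have d1 : ∀ A B : ℂ → ℂ, DV al Z X A B t = (∫ s in (-al)..al, c02V al Z X A B t s)
        - (aj al 0 Z X t + aj al 1 Z X t) * ndp al Z X A B t
        - (aj al 0 Z X t - aj al 1 Z X t) * ndm al Z X A B t := fun A B => rfl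
    rw [d1, d1, d1, eV]
    unfold ndp ndm
    ring
  · unfold DS
    rw [eS']
    unfold Det df md
    ring

/-- tangential variations `(tau Z', tau X')`: the integral terms vanish -/
theorem DV_tangential {al : ℝ} (hal : al ∈ JJ) (Z X τ : ℂ → ℂ) (t : ℂ) :
    DS0 al Z X (fun z => τ z * deriv Z z) (fun z => τ z * deriv X z) t = 0 ∧
    DV al Z X (fun z => τ z * deriv Z z) (fun z => τ z * deriv X z) t =
      (Real.sin al : ℂ) ^ 2 * ((aj al 0 Z X t + aj al 1 Z X t) * chip al Z X t * τ (t + al) -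
        (aj al 0 Z X t - aj al 1 Z X t) * chim al Z X t * τ (t - al)) := by
  obtain ⟨-, -, -, -, -, hs, -⟩ := JJ_bounds hal
  have hs0 : (Real.sin al : ℂ) ≠ 0 := by
    rw [Ne, Complex.ofReal_eq_zero]
    linarith
  have e0 : ∀ w : ℂ, deriv X w * (τ w * deriv Z w) - deriv Z w * (τ w * deriv X w) = 0 := by
    intro w
    ring
  constructor
  · unfold DS0
    simp only [e0, mul_zero]
    simp
  · unfold DV
    simp only [e0, mul_zero]
    unfold ndp ndm chip chim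
    simp only [intervalIntegral.integral_zero]
    field_simp
    ring

theorem variation_pi {al a b : ℝ} {Z X A B : ℂ → ℂ} (h : APer a b Z X) (h' : APer a b A B) (ha : 0 < a) {t : ℂ} (ht : t ∈ band a b) :
    DV al Z X A B (t + (Real.pi:ℂ)) = DV al Z X A B t ∧ DS0 al Z X A B (t + (Real.pi:ℂ)) = DS0 al Z X A B t ∧
    DS al Z X A B (t + (Real.pi:ℂ)) = DS al Z X A B t := by
  have htp : ∀ s : ℝ, t + (s:ℂ) ∈ band a b := fun s => add_real_mem_band ht s
  have htm : ∀ s : ℝ, t - (s:ℂ) ∈ band a b := fun s => sub_real_mem_band ht s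
  have e1 : ∀ s : ℝ, t + (Real.pi:ℂ) + (s:ℂ) = t + (s:ℂ) + (Real.pi:ℂ) := fun s => by ring
  have e2 : ∀ s : ℝ, t + (Real.pi:ℂ) - (s:ℂ) = t - (s:ℂ) + (Real.pi:ℂ) := fun s => by ring
  obtain ⟨hV, hPz, hPx, haj, -, hnz, hnx, -, -, -⟩ := functionals_pi (al := al) h ha ht
  have hmd : ∀ f : ℂ → ℂ, (∀ t ∈ band a b, f (t + (Real.pi:ℂ)) = - f t) →
      md al f (t + (Real.pi:ℂ)) = - md al f t ∧ df al f (t + (Real.pi:ℂ)) = - df al f t := by
    intro f hf
    unfold md df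
    rw [e1, e2, hf _ (htp al), hf _ (htm al)]
    constructor <;> ring
  obtain ⟨hmZ, hdZ⟩ := hmd Z h.z
  obtain ⟨hmX, hdX⟩ := hmd X h.x
  obtain ⟨hmA, hdA⟩ := hmd A h'.z
  obtain ⟨hmB, hdB⟩ := hmd B h'.x
  have hyy : ∀ s : ℝ, yy al Z X (t + (Real.pi : ℂ)) (s:ℂ) = - yy al Z X t (s:ℂ) :=
    fun s => yy_pi h ha ht s
  have hX : ∀ s : ℝ, X (t + (Real.pi:ℂ) + (s:ℂ)) = - X (t + (s:ℂ)) := fun s => by
    rw [e1, h.x _ (htp s)]
  have hA : ∀ s : ℝ, A (t + (Real.pi:ℂ) + (s:ℂ)) = - A (t + (s:ℂ)) := fun s => by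
    rw [e1, h'.z _ (htp s)]
  have hB : ∀ s : ℝ, B (t + (Real.pi:ℂ) + (s:ℂ)) = - B (t + (s:ℂ)) := fun s => by
    rw [e1, h'.x _ (htp s)]
  have hZ' : ∀ s : ℝ, deriv Z (t + (Real.pi:ℂ) + (s:ℂ)) = - deriv Z (t + (s:ℂ)) := fun s => by
    rw [e1, c01_deriv_pi h.z (htp s)]
  have hX' : ∀ s : ℝ, deriv X (t + (Real.pi:ℂ) + (s:ℂ)) = - deriv X (t + (s:ℂ)) := fun s => by
    rw [e1, c01_deriv_pi h.x (htp s)]
  have hAm : A (t + (Real.pi:ℂ) - (al:ℂ)) = - A (t - (al:ℂ)) := by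
    rw [e2, h'.z _ (htm al)]
  have hBm : B (t + (Real.pi:ℂ) - (al:ℂ)) = - B (t - (al:ℂ)) := by
    rw [e2, h'.x _ (htm al)]
  have hS0 : DS0 al Z X A B (t + (Real.pi:ℂ)) = DS0 al Z X A B t := by
    unfold DS0
    congr 1
    funext s
    rw [hyy, c02_Lf_odd, hnx, hX, hX', hZ', hA, hB]
    ring
  refine ⟨?_, hS0, ?_⟩
  · unfold DV
    have hI : (∫ s in (-al)..al, Af (yy al Z X (t + (Real.pi:ℂ)) (s:ℂ)) *
        (2 * X (t + (Real.pi:ℂ) + (s:ℂ))) * (deriv X (t + (Real.pi:ℂ) + (s:ℂ)) *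
        A (t + (Real.pi:ℂ) + (s:ℂ)) - deriv Z (t + (Real.pi:ℂ) + (s:ℂ)) *
        B (t + (Real.pi:ℂ) + (s:ℂ)))) = ∫ s in (-al)..al, Af (yy al Z X t (s:ℂ)) *
        (2 * X (t + (s:ℂ))) * (deriv X (t + (s:ℂ)) * A (t + (s:ℂ)) - deriv Z (t + (s:ℂ)) *
        B (t + (s:ℂ))) := by
      congr 1
      funext s
      rw [hyy, c02_Af_odd, hX, hX', hZ', hA, hB]
      ring
    rw [hI, haj, haj]
    unfold ndp ndm
    rw [hnz, hnx, hA, hB, hAm, hBm]
    ring
  · unfold DS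
    rw [hS0, hdA, hdB, hPz, hPx, hV]
    unfold Det
    rw [hdA, hdB, hmZ, hmX, hnz, hnx, hmA, hmB]
    ring

theorem c02_deriv_conj' {a b : ℝ} {X : ℂ → ℂ}
    (h : ∀ t ∈ band a b, X (-(starRingEnd ℂ) t) = - (starRingEnd ℂ) (X t))
    {t : ℂ} (ht : t ∈ band a b) :
    deriv X (-(starRingEnd ℂ) t) = (starRingEnd ℂ) (deriv X t) := by
  have h1 := c01_deriv_conj (Z := fun z => I * X z) (a := a) (b := b) (fun z hz => by
    rw [h z hz, map_mul, conj_I]
    ring) ht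
  rw [deriv_const_mul_field, deriv_const_mul_field, map_mul, conj_I] at h1
  have h2 : I * deriv X (-(starRingEnd ℂ) t) = I * (starRingEnd ℂ) (deriv X t) := by
    rw [h1]
    ring
  exact mul_left_cancel₀ I_ne_zero h2

theorem variation_conj (R : ℝ) (hR : 1 < R) : ∃ c0 : ℝ, 0 < c0 ∧
    ∀ al ∈ JJ, ∀ a b : ℝ, 1 ≤ a → b ≤ R → ∀ Z X A B : ℂ → ℂ, NB c0 a b Z X → UReal a b Z X → UReal a b A B → ∀ t ∈ band a b,
      DV al Z X A B (-(starRingEnd ℂ) t) = (starRingEnd ℂ) (DV al Z X A B t) ∧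
      DS0 al Z X A B (-(starRingEnd ℂ) t) = (starRingEnd ℂ) (DS0 al Z X A B t) := by
  obtain ⟨c1, K, hc1, hK, H1⟩ := c02_bounds R hR
  obtain ⟨c2, hc2, H2⟩ := yy_conj R hR
  obtain ⟨c3, hc3, H3⟩ := functionals_conj R hR
  refine ⟨min c1 (min c2 c3), by positivity, ?_⟩
  intro al hal a b ha hb Z X A B hNB hU hU' t ht
  have hNB1 : NB c1 a b Z X := c01_NB_mono hNB (min_le_left _ _)
  have hNB2 : NB c2 a b Z X :=
    c01_NB_mono hNB ((min_le_right _ _).trans (min_le_left _ _))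
  have hNB3 : NB c3 a b Z X :=
    c01_NB_mono hNB ((min_le_right _ _).trans (min_le_right _ _))
  obtain ⟨hJ1, hJ2, -, -, -, hJ5, hJ6⟩ := JJ_bounds hal
  have hal0 : 0 ≤ al := by linarith
  obtain ⟨-, -, -, -, -, B6⟩ := H1 al hal a b ha hb Z X hNB1 t ht
  obtain ⟨-, -, -, haj, -, -, -, -⟩ := H3 al hal a b ha hb Z X hNB3 hU t ht
  have htp : ∀ s : ℝ, t + (s:ℂ) ∈ band a b := fun s => add_real_mem_band ht s
  have htm : ∀ s : ℝ, t - (s:ℂ) ∈ band a b := fun s => sub_real_mem_band ht s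
  have e1 : ∀ s : ℝ, -(starRingEnd ℂ) t + (s:ℂ) = -(starRingEnd ℂ) (t - (s:ℂ)) := fun s => by
    rw [map_sub, Complex.conj_ofReal]
    ring
  have e2 : ∀ s : ℝ, -(starRingEnd ℂ) t - (s:ℂ) = -(starRingEnd ℂ) (t + (s:ℂ)) := fun s => by
    rw [map_add, Complex.conj_ofReal]
    ring
  have e3 : ∀ s : ℝ, -(starRingEnd ℂ) t + ((-s : ℝ):ℂ) = -(starRingEnd ℂ) (t + (s:ℂ)) :=
    fun s => by
    rw [map_add, Complex.conj_ofReal]
    push_cast
    ring
  have hnz : nz al X (-(starRingEnd ℂ) t) = (starRingEnd ℂ) (nz al X t) := by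
    unfold nz df
    rw [e1, e2, hU.x _ (htp al), hU.x _ (htm al), map_div₀, map_sub]
    simp only [map_ofNat]
    ring
  have hnx : nx al Z (-(starRingEnd ℂ) t) = - (starRingEnd ℂ) (nx al Z t) := by
    unfold nx df
    rw [e1, e2, hU.z _ (htp al), hU.z _ (htm al), map_neg, map_div₀, map_sub]
    simp only [map_ofNat]
    ring
  have hX : ∀ s : ℝ, X (-(starRingEnd ℂ) t + ((-s : ℝ):ℂ)) = - (starRingEnd ℂ) (X (t + (s:ℂ))) :=
    fun s => by rw [e3, hU.x _ (htp s)]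
  have hA : ∀ s : ℝ, A (-(starRingEnd ℂ) t + ((-s : ℝ):ℂ)) = (starRingEnd ℂ) (A (t + (s:ℂ))) :=
    fun s => by rw [e3, hU'.z _ (htp s)]
  have hB : ∀ s : ℝ, B (-(starRingEnd ℂ) t + ((-s : ℝ):ℂ)) = - (starRingEnd ℂ) (B (t + (s:ℂ))) :=
    fun s => by rw [e3, hU'.x _ (htp s)]
  have hZ' : ∀ s : ℝ, deriv Z (-(starRingEnd ℂ) t + ((-s : ℝ):ℂ)) =
      - (starRingEnd ℂ) (deriv Z (t + (s:ℂ))) :=
    fun s => by rw [e3, c01_deriv_conj hU.z (htp s)]
  have hX' : ∀ s : ℝ, deriv X (-(starRingEnd ℂ) t + ((-s : ℝ):ℂ)) =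
      (starRingEnd ℂ) (deriv X (t + (s:ℂ))) :=
    fun s => by rw [e3, c02_deriv_conj' hU.x (htp s)]
  have hAf : ∀ s ∈ Ioo (-al) al, Af (yy al Z X (-(starRingEnd ℂ) t) ((-s : ℝ) : ℂ)) =
      - (starRingEnd ℂ) (Af (yy al Z X t (s:ℂ))) := by
    intro s hs
    rw [H2 al hal a b ha hb Z X hNB2 hU t ht s hs, c02_Af_odd, c02_Af_conj (B6 s hs).1]
  have hLf : ∀ s ∈ Ioo (-al) al, Lf (yy al Z X (-(starRingEnd ℂ) t) ((-s : ℝ) : ℂ)) =
      - (starRingEnd ℂ) (Lf (yy al Z X t (s:ℂ))) := by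
    intro s hs
    rw [H2 al hal a b ha hb Z X hNB2 hU t ht s hs, c02_Lf_odd, c02_Lf_conj (B6 s hs).1]
  have hS0 : DS0 al Z X A B (-(starRingEnd ℂ) t) = (starRingEnd ℂ) (DS0 al Z X A B t) := by
    rw [← one_mul ((starRingEnd ℂ) (DS0 al Z X A B t))]
    apply c01_int_conj hal0 1
    intro s hs
    rw [hLf s hs, hnx, hX, hX', hZ', hA, hB]
    simp only [map_mul, map_sub, map_ofNat]
    ring
  have hI : (∫ s in (-al)..al, c02V al Z X A B (-(starRingEnd ℂ) t) s) =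
      (starRingEnd ℂ) (∫ s in (-al)..al, c02V al Z X A B t s) := by
    rw [← one_mul ((starRingEnd ℂ) (∫ s in (-al)..al, c02V al Z X A B t s))]
    apply c01_int_conj hal0 1
    intro s hs
    unfold c02V
    rw [hAf s hs, hX, hX', hZ', hA, hB]
    simp only [map_mul, map_sub, map_ofNat]
    ring
  refine ⟨?_, hS0⟩
  have d1 : ∀ t : ℂ, DV al Z X A B t = (∫ s in (-al)..al, c02V al Z X A B t s)
      - (aj al 0 Z X t + aj al 1 Z X t) * ndp al Z X A B t
      - (aj al 0 Z X t - aj al 1 Z X t) * ndm al Z X A B t := fun t => rfl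
  rw [d1, d1, hI, haj, haj]
  unfold ndp ndm
  rw [hnz, hnx, e1, e2, hU'.z _ (htp al), hU'.z _ (htm al), hU'.x _ (htp al), hU'.x _ (htm al)]
  simp only [map_mul, map_sub, map_add, pow_zero, pow_one]
  ring

end FB
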