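import Pool.Agent.H48.FB.EDefs
import Pool.Agent.H48.FB.B00
import Pool.Agent.H48.FB.A05

/-! D01: the profile function `F` with `X^2 = F(Z)`. -/

open Complex Set MeasureTheory Filter Topology

noncomputable section

namespace FB

/-- the candidate, an integral over the line `Im b = 29/10` -/
def Fint (Z X : ℂ → ℂ) (w : ℂ) : ℂ :=
  - (1 / (2 * (Real.pi : ℂ) * I)) * ∫ x in (-Real.pi)..Real.pi,
    X ((x:ℂ) + (29/10 : ℂ) * I) ^ 2 * deriv Z ((x:ℂ) + (29/10 : ℂ) * I) / (Z ((x:ℂ) + (29/10 : ℂ) * I) - w)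

/-! ### elementary bounds -/

theorem d01_exp1 (z : ℂ) : ‖exp (z * I)‖ = Real.exp (-z.im) := by
  rw [norm_exp]; simp

theorem d01_exp2 (z : ℂ) : ‖exp (-z * I)‖ = Real.exp z.im := by
  rw [norm_exp]; simp

theorem d01_two : ‖(2:ℂ)‖ = 2 := by simp

theorem d01_cos_le (z : ℂ) : ‖cos z‖ ≤ Real.cosh z.im := by
  have h1 : cos z = (exp (z * I) + exp (-z * I)) / 2 := rfl
  rw [h1, norm_div, Real.cosh_eq, d01_two]
  have h := norm_add_le (exp (z * I)) (exp (-z * I))
  rw [d01_exp1, d01_exp2] at h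
  linarith

theorem d01_sin_le (z : ℂ) : ‖sin z‖ ≤ Real.cosh z.im := by
  have h1 : sin z = (exp (-z * I) - exp (z * I)) * I / 2 := rfl
  rw [h1, norm_div, norm_mul, norm_I, mul_one, Real.cosh_eq, d01_two]
  have h := norm_sub_le (exp (-z * I)) (exp (z * I))
  rw [d01_exp2, d01_exp1] at h
  linarith

theorem d01_le_cos (z : ℂ) : Real.sinh z.im ≤ ‖cos z‖ := by
  have h1 : cos z = (exp (z * I) + exp (-z * I)) / 2 := rfl
  rw [h1, norm_div, Real.sinh_eq, d01_two]
  have h := norm_sub_le (exp (z * I) + exp (-z * I)) (exp (z * I))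
  rw [add_sub_cancel_left, d01_exp2, d01_exp1] at h
  linarith

theorem d01_le_sin (z : ℂ) : Real.sinh z.im ≤ ‖sin z‖ := by
  have h1 : sin z = (exp (-z * I) - exp (z * I)) * I / 2 := rfl
  rw [h1, norm_div, norm_mul, norm_I, mul_one, Real.sinh_eq, d01_two]
  have h := norm_add_le (exp (-z * I) - exp (z * I)) (exp (z * I))
  rw [sub_add_cancel, d01_exp2, d01_exp1] at h
  linarith

theorem d01_exp29 : 12 ≤ Real.exp (29/10) := by
  have h1 : Real.exp (29/10) = Real.exp 1 * Real.exp 1 * Real.exp (9/10) := by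
    rw [← Real.exp_add, ← Real.exp_add]; norm_num
  have h2 := Real.exp_one_gt_d9
  have h3 : (19/10 : ℝ) ≤ Real.exp (9/10) := by
    have := Real.add_one_le_exp (9/10 : ℝ)
    linarith
  rw [h1]
  nlinarith [mul_le_mul h2.le h2.le (by norm_num) (Real.exp_pos 1).le]

theorem d01_expm29 : Real.exp (-(29/10)) ≤ 1/12 := by
  rw [Real.exp_neg, inv_le_comm₀ (Real.exp_pos _) (by norm_num)]
  have := d01_exp29
  norm_num at this ⊢
  exact this

theorem d01_cosh2 : Real.cosh 2 ≤ 39/10 := by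
  rw [Real.cosh_eq]
  have h1 : Real.exp 2 = Real.exp 1 * Real.exp 1 := by
    rw [← Real.exp_add]; norm_num
  have h2 := Real.exp_one_lt_d9
  have h3 := Real.exp_pos 1
  have h4 : Real.exp 2 ≤ 7.4 := by
    rw [h1]; nlinarith
  have h5 : Real.exp (-2) ≤ 0.2 := by
    rw [Real.exp_neg, inv_le_comm₀ (Real.exp_pos _) (by norm_num), h1]
    nlinarith [Real.exp_one_gt_d9]
  linarith

/-- Jordan type inequality -/
theorem d01_jordan {z : ℂ} (hz : |z.re| ≤ Real.pi / 2) : 2 / Real.pi * ‖z‖ ≤ ‖sin z‖ := by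
  have hpi := Real.pi_pos
  have h1 : ‖sin z‖ ^ 2 = Real.sin z.re ^ 2 + Real.sinh z.im ^ 2 := by
    rw [Complex.sq_norm, Complex.sin_eq, normSq_apply]
    have hre : (sin (z.re:ℂ) * cosh (z.im:ℂ) + cos (z.re:ℂ) * sinh (z.im:ℂ) * I).re =
        Real.sin z.re * Real.cosh z.im := by
      rw [← ofReal_sin, ← ofReal_cosh, ← ofReal_cos, ← ofReal_sinh]
      simp only [add_re, mul_re, ofReal_re, ofReal_im, I_re, I_im, mul_zero, mul_one, sub_zero, mul_im, zero_mul,
        add_zero, sub_self]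
    have him : (sin (z.re:ℂ) * cosh (z.im:ℂ) + cos (z.re:ℂ) * sinh (z.im:ℂ) * I).im =
        Real.cos z.re * Real.sinh z.im := by
      rw [← ofReal_sin, ← ofReal_cosh, ← ofReal_cos, ← ofReal_sinh]
      simp only [add_im, mul_re, ofReal_re, ofReal_im, I_re, I_im, mul_zero, mul_one, sub_zero, mul_im, zero_mul,
        add_zero, zero_add]
    rw [hre, him]
    have h2 := Real.sin_sq_add_cos_sq z.re
    have h3 := Real.cosh_sq z.im
    have h4 : Real.cos z.re ^ 2 = 1 - Real.sin z.re ^ 2 := by linarith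
    calc Real.sin z.re * Real.cosh z.im * (Real.sin z.re * Real.cosh z.im) +
          Real.cos z.re * Real.sinh z.im * (Real.cos z.re * Real.sinh z.im)
        = Real.sin z.re ^ 2 * Real.cosh z.im ^ 2 + Real.cos z.re ^ 2 * Real.sinh z.im ^ 2 := by ring
      _ = _ := by rw [h3, h4]; ring
  have h2 : (2 / Real.pi * |z.re|) ^ 2 ≤ Real.sin z.re ^ 2 := by
    have h5 := Real.mul_le_sin (abs_nonneg z.re) hz
    have h6 : Real.sin |z.re| ^ 2 = Real.sin z.re ^ 2 := by
      rcases abs_choice z.re with h | h <;> rw [h]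
      rw [Real.sin_neg]; ring
    rw [← h6]
    exact pow_le_pow_left₀ (by positivity) h5 2
  have h3 : (z.im) ^ 2 ≤ Real.sinh z.im ^ 2 := by
    have h5 : |z.im| ≤ Real.sinh |z.im| := Real.self_le_sinh_iff.2 (abs_nonneg _)
    have h6 : Real.sinh |z.im| ^ 2 = Real.sinh z.im ^ 2 := by
      rcases abs_choice z.im with h | h <;> rw [h]
      rw [Real.sinh_neg]; ring
    rw [← h6, ← sq_abs z.im]
    exact pow_le_pow_left₀ (abs_nonneg _) h5 2
  have h4 : (2 / Real.pi) ^ 2 ≤ 1 := by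
    have : 2 / Real.pi ≤ 1 := by
      rw [div_le_one hpi]; linarith [Real.pi_gt_three]
    exact pow_le_one₀ (by positivity) this
  have h5 : ‖z‖ ^ 2 = z.re ^ 2 + z.im ^ 2 := by
    rw [Complex.sq_norm, normSq_apply]; ring
  refine le_of_sq_le_sq ?_ (norm_nonneg _)
  rw [mul_pow, h1, h5, mul_add]
  rw [mul_pow, sq_abs] at h2
  nlinarith [sq_nonneg z.im]

/-! ### the top line -/

def d01L (x : ℝ) : ℂ := (x:ℂ) + (29/10 : ℂ) * I

theorem d01L_eq (x : ℝ) : d01L x = (x:ℂ) + ((29/10 : ℝ) : ℂ) * I := by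
  unfold d01L; push_cast; ring

theorem d01L_im (x : ℝ) : (d01L x).im = 29/10 := by
  rw [d01L_eq]
  simp

theorem d01L_mem (x : ℝ) : d01L x ∈ strip 3 := by
  rw [mem_strip, d01L_im]
  norm_num

theorem d01L_cont : Continuous d01L := by
  unfold d01L
  fun_prop

theorem d01L_add (x y : ℝ) : d01L (x + y) = d01L x + (y:ℂ) := by
  unfold d01L; push_cast; ring

theorem d01L_neg (x : ℝ) : d01L (-x) = -(starRingEnd ℂ) (d01L x) := by
  rw [d01L_eq, d01L_eq, map_add, map_mul, conj_ofReal, conj_ofReal, conj_I]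
  push_cast
  ring

theorem d01_int_conj (f : ℝ → ℂ) (a b : ℝ) :
    ∫ x in a..b, (starRingEnd ℂ) (f x) = (starRingEnd ℂ) (∫ x in a..b, f x) := by
  rw [intervalIntegral.intervalIntegral_eq_integral_uIoc, intervalIntegral.intervalIntegral_eq_integral_uIoc,
    integral_conj]
  split_ifs <;> simp

variable {c : ℝ} {Z X : ℂ → ℂ}

theorem d01_strip_nhds {z : ℂ} (hz : z ∈ strip 3) : strip 3 ∈ 𝓝 z := (isOpen_band _ _).mem_nhds hz

theorem d01_dZ_pi (hs : Sym 3 Z X) {z : ℂ} (hz : z ∈ strip 3) :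
    deriv Z (z + (Real.pi : ℂ)) = - deriv Z z := by
  have h1 : (fun z => Z (z + (Real.pi : ℂ))) =ᶠ[𝓝 z] fun z => - Z z := by
    filter_upwards [d01_strip_nhds hz] with w hw using hs.aZ w hw
  have h2 := h1.deriv_eq
  rw [deriv_comp_add_const, deriv.fun_neg] at h2
  exact h2

theorem d01_dZ_neg (hs : Sym 3 Z X) {z : ℂ} (hz : z ∈ strip 3) :
    deriv Z (-z) = - deriv Z z := by
  have h1 : (fun z => Z (-z)) =ᶠ[𝓝 z] Z := by
    filter_upwards [d01_strip_nhds hz] with w hw using hs.eZ w hw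
  have h2 := h1.deriv_eq
  rw [deriv_comp_neg] at h2
  rw [← h2, neg_neg]

theorem d01_dZ_conj (hs : RealC 3 Z X) {z : ℂ} (hz : z ∈ strip 3) :
    deriv Z ((starRingEnd ℂ) z) = (starRingEnd ℂ) (deriv Z z) := by
  have h1 : ((starRingEnd ℂ) ∘ Z ∘ (starRingEnd ℂ)) =ᶠ[𝓝 z] Z := by
    filter_upwards [d01_strip_nhds hz] with w hw
    simp only [Function.comp_apply]
    rw [hs.rZ w hw]
    exact conj_conj _
  have h2 := h1.deriv_eq
  rw [deriv_conj_conj] at h2
  rw [← h2]
  simp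

/-- the integrand -/
def d01f (Z X : ℂ → ℂ) (w z : ℂ) : ℂ := X z ^ 2 * deriv Z z / (Z z - w)

theorem Fint_eq (Z X : ℂ → ℂ) (w : ℂ) :
    Fint Z X w = - (1 / (2 * (Real.pi : ℂ) * I)) * ∫ x in (-Real.pi)..Real.pi, d01f Z X w (d01L x) := rfl

theorem d01f_pi (hs : Sym 3 Z X) (w : ℂ) {z : ℂ} (hz : z ∈ strip 3) :
    d01f Z X w (z + (Real.pi:ℂ)) = d01f Z X (-w) z := by
  unfold d01f
  rw [hs.aZ z hz, hs.aX z hz, d01_dZ_pi hs hz]
  have : - Z z - w = - (Z z - -w) := by ring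
  rw [this, neg_sq, mul_neg, neg_div_neg_eq]

theorem d01f_per (hs : Sym 3 Z X) (w : ℂ) {z : ℂ} (hz : z ∈ strip 3) :
    d01f Z X w (z + 2 * (Real.pi:ℂ)) = d01f Z X w z := by
  have h1 : z + 2 * (Real.pi:ℂ) = z + (Real.pi:ℂ) + (Real.pi:ℂ) := by ring
  rw [h1, d01f_pi hs w (add_real_mem_band hz _), d01f_pi hs (-w) hz, neg_neg]

theorem d01_shift {f : ℝ → ℂ} (hf : Function.Periodic f (2 * Real.pi)) (t : ℝ) :
    ∫ x in (t - Real.pi)..(t + Real.pi), f x = ∫ x in (-Real.pi)..Real.pi, f x := by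
  have h1 := hf.intervalIntegral_add_eq (t - Real.pi) (-Real.pi)
  have h2 : t - Real.pi + 2 * Real.pi = t + Real.pi := by ring
  have h3 : -Real.pi + 2 * Real.pi = Real.pi := by ring
  rwa [h2, h3] at h1

/-- parity of `Fint` -/
theorem d01_even (hs : Sym 3 Z X) (w : ℂ) : Fint Z X (-w) = Fint Z X w := by
  rw [Fint_eq, Fint_eq]
  congr 1
  have hp : Function.Periodic (fun x : ℝ => d01f Z X w (d01L x)) (2 * Real.pi) := by
    intro x
    show d01f Z X w (d01L (x + 2 * Real.pi)) = d01f Z X w (d01L x)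
    rw [d01L_add]
    have := d01f_per hs w (d01L_mem x)
    push_cast at this ⊢
    exact this
  have h1 : (∫ x in (-Real.pi)..Real.pi, d01f Z X (-w) (d01L x)) =
      ∫ x in (-Real.pi)..Real.pi, d01f Z X w (d01L (x + Real.pi)) := by
    refine intervalIntegral.integral_congr fun x _ => ?_
    show d01f Z X (-w) (d01L x) = d01f Z X w (d01L (x + Real.pi))
    rw [d01L_add, d01f_pi hs w (d01L_mem x)]
  rw [h1, intervalIntegral.integral_comp_add_right (fun x => d01f Z X w (d01L x))]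
  have h2 := d01_shift hp Real.pi
  have h3 : -Real.pi + Real.pi = Real.pi - Real.pi := by ring
  rw [h3]
  exact h2

/-- reality of `Fint` -/
theorem d01_conj (hs : Sym 3 Z X) (hr : RealC 3 Z X) (w : ℂ) :
    Fint Z X ((starRingEnd ℂ) w) = (starRingEnd ℂ) (Fint Z X w) := by
  rw [Fint_eq, Fint_eq, map_mul, ← d01_int_conj]
  have h1 : (∫ x in (-Real.pi)..Real.pi, d01f Z X ((starRingEnd ℂ) w) (d01L x)) =
      ∫ x in (-Real.pi)..Real.pi, d01f Z X ((starRingEnd ℂ) w) (d01L (-x)) := by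
    rw [intervalIntegral.integral_comp_neg (fun x => d01f Z X ((starRingEnd ℂ) w) (d01L x)), neg_neg]
  have h2 : (∫ x in (-Real.pi)..Real.pi, d01f Z X ((starRingEnd ℂ) w) (d01L (-x))) =
      - ∫ x in (-Real.pi)..Real.pi, (starRingEnd ℂ) (d01f Z X w (d01L x)) := by
    rw [← intervalIntegral.integral_neg]
    refine intervalIntegral.integral_congr fun x _ => ?_
    show d01f Z X ((starRingEnd ℂ) w) (d01L (-x)) = -(starRingEnd ℂ) (d01f Z X w (d01L x))
    have hm := d01L_mem x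
    have hc := conj_mem_strip hm
    rw [d01L_neg]
    unfold d01f
    rw [hs.eZ _ hc, hs.oX _ hc, d01_dZ_neg hs hc, d01_dZ_conj hr hm, hr.rZ _ hm, hr.rX _ hm, map_div₀, map_mul,
      map_pow, map_sub]
    ring
  have h3 : (starRingEnd ℂ) (2:ℂ) = 2 := map_ofNat _ 2
  rw [h1, h2]
  simp [h3]

/-! ### bounds on the top line, analyticity -/

def d01M : ℝ := Real.cosh 3 + 5

theorem d01M_ge : 5 ≤ d01M := by
  unfold d01M
  have := Real.one_le_cosh 3
  linarith

theorem d01_cosh29 : Real.cosh (29/10) ≤ Real.cosh 3 := by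
  rw [Real.cosh_le_cosh, abs_of_nonneg (by norm_num), abs_of_nonneg (by norm_num)]
  norm_num

theorem d01_top_far (hc : c ≤ 1/100) (h : NB c (-3) 3 Z X) {w : ℂ} (hw : ‖w‖ < 4) (x : ℝ) :
    1 ≤ ‖Z (d01L x) - w‖ := by
  have h1 := h.z0 _ (d01L_mem x)
  have h2 := d01_le_cos (d01L x)
  rw [d01L_im] at h2
  have h3 : (5.9 : ℝ) ≤ Real.sinh (29/10) := by
    rw [Real.sinh_eq]
    have := d01_exp29
    have := d01_expm29
    linarith
  have h4 : ‖cos (d01L x)‖ ≤ ‖Z (d01L x) - cos (d01L x)‖ + ‖w‖ + ‖Z (d01L x) - w‖ := by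
    have h5 : cos (d01L x) = -(Z (d01L x) - cos (d01L x)) + w + (Z (d01L x) - w) := by ring
    calc ‖cos (d01L x)‖ = ‖-(Z (d01L x) - cos (d01L x)) + w + (Z (d01L x) - w)‖ := by rw [← h5]
      _ ≤ _ := by
        refine (norm_add₃_le).trans ?_
        rw [norm_neg]
  linarith

theorem d01_top_bd (hc : c ≤ 1/100) (h : NB c (-3) 3 Z X) {w : ℂ} (hw : ‖w‖ < 4) (x : ℝ) :
    ‖X (d01L x)‖ ≤ d01M ∧ ‖deriv Z (d01L x)‖ ≤ d01M ∧ ‖Z (d01L x) - w‖ ≤ d01M := by
  have h1 := h.z0 _ (d01L_mem x)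
  have h2 := h.x0 _ (d01L_mem x)
  have h3 := h.z1 _ (d01L_mem x)
  have h4 := d01_cos_le (d01L x)
  have h5 := d01_sin_le (d01L x)
  rw [d01L_im] at h4 h5
  have h6 := d01_cosh29
  unfold d01M
  refine ⟨?_, ?_, ?_⟩
  · have := norm_sub_norm_le (X (d01L x)) (sin (d01L x))
    linarith
  · have := norm_sub_norm_le (deriv Z (d01L x)) (-sin (d01L x))
    rw [sub_neg_eq_add, norm_neg] at this
    linarith
  · have h7 := norm_sub_norm_le (Z (d01L x)) (cos (d01L x))
    have h8 := norm_sub_le (Z (d01L x)) w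
    linarith

theorem d01_cont {f : ℂ → ℂ} (hf : DifferentiableOn ℂ f (strip 3)) : Continuous (fun x : ℝ => f (d01L x)) :=
  hf.continuousOn.comp_continuous d01L_cont d01L_mem

theorem d01_cont_dZ (h : NB c (-3) 3 Z X) : Continuous (fun x : ℝ => deriv Z (d01L x)) :=
  d01_cont (h.dZ.deriv (isOpen_band _ _))

theorem d01_ne0 (hc : c ≤ 1/100) (h : NB c (-3) 3 Z X) {w : ℂ} (hw : ‖w‖ < 4) (x : ℝ) :
    Z (d01L x) - w ≠ 0 := by
  intro h0
  have := d01_top_far hc h hw x
  rw [h0, norm_zero] at this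
  linarith

theorem d01f_cont (hc : c ≤ 1/100) (h : NB c (-3) 3 Z X) {w : ℂ} (hw : ‖w‖ < 4) :
    Continuous (fun x : ℝ => d01f Z X w (d01L x)) := by
  unfold d01f
  exact (((d01_cont h.dX).pow 2).mul (d01_cont_dZ h)).div ((d01_cont h.dZ).sub continuous_const)
    (fun x => d01_ne0 hc h hw x)

theorem d01_diff (hc : c ≤ 1/100) (h : NB c (-3) 3 Z X) : DifferentiableOn ℂ (Fint Z X) (Metric.ball 0 4) := by
  intro w hw
  have hcF' : ∀ w : ℂ, ‖w‖ < 4 → Continuous (fun x : ℝ => X (d01L x) ^ 2 * deriv Z (d01L x) / (Z (d01L x) - w) ^ 2) := by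
    intro w hw
    exact (((d01_cont h.dX).pow 2).mul (d01_cont_dZ h)).div (((d01_cont h.dZ).sub continuous_const).pow 2)
      (fun x => pow_ne_zero _ (d01_ne0 hc h hw x))
  have key := intervalIntegral.hasDerivAt_integral_of_dominated_loc_of_deriv_le
    (μ := (volume : Measure ℝ)) (a := -Real.pi) (b := Real.pi)
    (F := fun w x => d01f Z X w (d01L x))
    (F' := fun w x => X (d01L x) ^ 2 * deriv Z (d01L x) / (Z (d01L x) - w) ^ 2) (x₀ := w)
    (s := Metric.ball 0 4) (bound := fun _ => d01M ^ 3)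
    (Metric.isOpen_ball.mem_nhds hw)
    (by
      filter_upwards [Metric.isOpen_ball.mem_nhds hw] with z hz
      exact (d01f_cont hc h (mem_ball_zero_iff.1 hz)).aestronglyMeasurable)
    ((d01f_cont hc h (mem_ball_zero_iff.1 hw)).intervalIntegrable _ _)
    (hcF' w (mem_ball_zero_iff.1 hw)).aestronglyMeasurable
    (by
      refine ae_of_all _ fun x _ z hz => ?_
      have hz' := mem_ball_zero_iff.1 hz
      obtain ⟨b1, b2, -⟩ := d01_top_bd hc h hz' x
      have b3 := d01_top_far hc h hz' x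
      rw [norm_div, norm_mul, norm_pow, norm_pow]
      have hM := d01M_ge
      have b4 : 1 ≤ ‖Z (d01L x) - z‖ ^ 2 := one_le_pow₀ b3
      refine (div_le_self (by positivity) b4).trans ?_
      calc ‖X (d01L x)‖ ^ 2 * ‖deriv Z (d01L x)‖ ≤ d01M ^ 2 * d01M :=
            mul_le_mul (pow_le_pow_left₀ (norm_nonneg _) b1 2) b2 (norm_nonneg _) (by positivity)
        _ = d01M ^ 3 := by ring)
    intervalIntegrable_const
    (by
      refine ae_of_all _ fun x _ z hz => ?_
      have hne := d01_ne0 hc h (mem_ball_zero_iff.1 hz) x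
      have h1 : HasDerivAt (fun z : ℂ => Z (d01L x) - z) (-1) z := by
        simpa using (hasDerivAt_id z).const_sub (Z (d01L x))
      have h2 := (hasDerivAt_const z (X (d01L x) ^ 2 * deriv Z (d01L x))).div h1 hne
      refine h2.congr_deriv ?_
      simp)
  have := key.2.differentiableAt.const_mul (- (1 / (2 * (Real.pi : ℂ) * I)))
  exact this.differentiableWithinAt

/-- Lipschitz dependence -/
theorem d01_lip (hc0 : 0 ≤ c) (hc : c ≤ 1/100) (h : NB c (-3) 3 Z X) {w : ℂ} (hw : ‖w‖ < 4) :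
    ‖Fint Z X w - Fint cos sin w‖ ≤ 4 * d01M ^ 3 * c := by
  have hN := NB_circle (-3) 3
  have hM := d01M_ge
  rw [Fint_eq, Fint_eq, ← mul_sub, ← intervalIntegral.integral_sub
    ((d01f_cont hc h hw).intervalIntegrable _ _)
    ((d01f_cont (by norm_num) hN hw).intervalIntegrable _ _)]
  have hpt : ∀ x ∈ Set.uIoc (-Real.pi) Real.pi,
      ‖d01f Z X w (d01L x) - d01f cos sin w (d01L x)‖ ≤ 4 * d01M ^ 3 * c := by
    intro x _
    obtain ⟨b1, b2, b3⟩ := d01_top_bd hc h hw x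
    obtain ⟨e1, e2, e3⟩ := d01_top_bd (c := 0) (by norm_num) hN hw x
    have b4 := d01_top_far hc h hw x
    have e4 := d01_top_far (c := 0) (by norm_num) hN hw x
    have b5 := d01_ne0 hc h hw x
    have e5 := d01_ne0 (c := 0) (by norm_num) hN hw x
    have k1 := h.x0 _ (d01L_mem x)
    have k2 := h.z1 _ (d01L_mem x)
    have k3 := h.z0 _ (d01L_mem x)
    unfold d01f
    set z := d01L x
    rw [div_sub_div _ _ b5 e5, norm_div]
    have h1 : 1 ≤ ‖(Z z - w) * (cos z - w)‖ := by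
      rw [norm_mul]
      nlinarith
    refine (div_le_self (norm_nonneg _) h1).trans ?_
    have h2 : X z ^ 2 * deriv Z z * (cos z - w) - (Z z - w) * (sin z ^ 2 * deriv cos z) =
        (X z - sin z) * (X z + sin z) * deriv Z z * (cos z - w) + sin z ^ 2 * (deriv Z z - deriv cos z) * (cos z - w)
          - sin z ^ 2 * deriv cos z * (Z z - cos z) := by ring
    rw [h2]
    have k4 : ‖deriv Z z - deriv cos z‖ ≤ c := by
      rw [Complex.deriv_cos, sub_neg_eq_add]; exact k2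
    have k5 : ‖X z + sin z‖ ≤ 2 * d01M := by
      refine (norm_add_le _ _).trans ?_
      linarith
    have n1 : ‖(X z - sin z) * (X z + sin z) * deriv Z z * (cos z - w)‖ ≤ c * (2 * d01M) * d01M * d01M := by
      rw [norm_mul, norm_mul, norm_mul]
      gcongr
    have n2 : ‖sin z ^ 2 * (deriv Z z - deriv cos z) * (cos z - w)‖ ≤ d01M ^ 2 * c * d01M := by
      rw [norm_mul, norm_mul, norm_pow]
      gcongr
    have n3 : ‖sin z ^ 2 * deriv cos z * (Z z - cos z)‖ ≤ d01M ^ 2 * d01M * c := by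
      rw [norm_mul, norm_mul, norm_pow]
      gcongr
    have n4 := norm_sub_le ((X z - sin z) * (X z + sin z) * deriv Z z * (cos z - w) +
      sin z ^ 2 * (deriv Z z - deriv cos z) * (cos z - w)) (sin z ^ 2 * deriv cos z * (Z z - cos z))
    have n5 := norm_add_le ((X z - sin z) * (X z + sin z) * deriv Z z * (cos z - w))
      (sin z ^ 2 * (deriv Z z - deriv cos z) * (cos z - w))
    linarith
  have hint := intervalIntegral.norm_integral_le_of_norm_le_const hpt
  have hpi := Real.pi_pos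
  have h3 : ‖- (1 / (2 * (Real.pi : ℂ) * I))‖ = 1 / (2 * Real.pi) := by
    rw [norm_neg, norm_div, norm_mul, norm_mul, norm_I, norm_one, mul_one, d01_two, Complex.norm_real,
      Real.norm_of_nonneg hpi.le]
  rw [norm_mul, h3]
  have h4 : |Real.pi - -Real.pi| = 2 * Real.pi := by
    rw [abs_of_nonneg] <;> linarith
  rw [h4] at hint
  calc _ ≤ 1 / (2 * Real.pi) * (4 * d01M ^ 3 * c * (2 * Real.pi)) := by
        exact mul_le_mul_of_nonneg_left hint (by positivity)
    _ = 4 * d01M ^ 3 * c := by field_simp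

/-! ### the identity `F (Z b) = X b ^ 2` -/

theorem d01_Z_mem (hc : c ≤ 1/100) (h : NB c (-3) 3 Z X) {b : ℂ} (hb : b ∈ strip 2) : ‖Z b‖ < 4 := by
  have hb3 : b ∈ strip 3 := band_subset (by norm_num) (by norm_num) hb
  have h1 := h.z0 _ hb3
  have h2 := d01_cos_le b
  have h3 : Real.cosh b.im ≤ Real.cosh 2 := by
    rw [Real.cosh_le_cosh, abs_of_nonneg (show (0:ℝ) ≤ 2 by norm_num), abs_le]
    exact ⟨hb.1.le, hb.2.le⟩
  have h4 := norm_sub_norm_le (Z b) (cos b)
  have h5 := d01_cosh2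
  linarith

theorem d01_sep (hc : c ≤ 1/100) (h : NB c (-3) 3 Z X) {b β : ℂ} (hb1 : 1 < b.im) (hb2 : b.im < 3/2)
    (h0 : 0 ≤ β.im) (h1 : β.im ≤ 29/10) (hre : |(β - b).re| ≤ Real.pi) (hne : β ≠ b) : Z β ≠ Z b := by
  intro hZ
  have hβ : β ∈ band (-3) 3 := ⟨by linarith, by linarith⟩
  have hb : b ∈ band (-3) 3 := ⟨by linarith, by linarith⟩
  have hop := isOpen_band (-3) 3
  have hd : ∀ z ∈ band (-3) 3, HasDerivAt (fun z => Z z - cos z) (deriv Z z + sin z) z := by
    intro z hz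
    have h2 := (h.dZ.differentiableAt (hop.mem_nhds hz)).hasDerivAt.sub (Complex.hasDerivAt_cos z)
    rwa [sub_neg_eq_add] at h2
  have hmv : ‖(Z β - cos β) - (Z b - cos b)‖ ≤ c * ‖β - b‖ :=
    (convex_band (-3) 3).norm_image_sub_le_of_norm_deriv_le (𝕜 := ℂ) (f := fun z => Z z - cos z)
      (fun z hz => (hd z hz).differentiableAt) (fun z hz => by rw [(hd z hz).deriv]; exact h.z1 z hz) hb hβ
  have hcos : cos β - cos b = -2 * sin ((β + b) / 2) * sin ((β - b) / 2) := Complex.cos_sub_cos β b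
  have e1 : (Z β - cos β) - (Z b - cos b) = -(cos β - cos b) := by rw [hZ]; ring
  rw [e1, norm_neg, hcos, norm_mul, norm_mul, norm_neg, d01_two] at hmv
  have s1 : (1:ℝ)/2 ≤ ‖sin ((β + b) / 2)‖ := by
    have h2 := d01_le_sin ((β + b) / 2)
    have h3 : ((β + b) / 2).im = (β.im + b.im) / 2 := by
      rw [show (β + b) / 2 = (β + b) / (2:ℝ) by push_cast; ring, div_ofReal_im, add_im]
    rw [h3] at h2
    have h4 : (β.im + b.im) / 2 ≤ Real.sinh ((β.im + b.im) / 2) := Real.self_le_sinh_iff.2 (by linarith)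
    linarith
  have s2 : 2 / Real.pi * (‖β - b‖ / 2) ≤ ‖sin ((β - b) / 2)‖ := by
    have h3 : ((β - b) / 2).re = (β - b).re / 2 := by
      rw [show (β - b) / 2 = (β - b) / (2:ℝ) by push_cast; ring, div_ofReal_re]
    have h2 := d01_jordan (z := (β - b) / 2) (by
      rw [h3, abs_div, abs_of_nonneg (show (0:ℝ) ≤ 2 by norm_num)]
      linarith)
    rwa [norm_div, d01_two] at h2
  have hpos : 0 < ‖β - b‖ := norm_pos_iff.2 (sub_ne_zero.2 hne)
  have hpi := Real.pi_pos
  have hpi2 := Real.pi_lt_four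
  have s3 : ‖β - b‖ / 4 ≤ 2 / Real.pi * (‖β - b‖ / 2) := by
    have : (1:ℝ) / 4 ≤ 1 / Real.pi := one_div_le_one_div_of_le hpi hpi2.le
    calc ‖β - b‖ / 4 = ‖β - b‖ * (1 / 4) := by ring
      _ ≤ ‖β - b‖ * (1 / Real.pi) := mul_le_mul_of_nonneg_left this hpos.le
      _ = _ := by ring
  have s4 : (1/2 : ℝ) * (‖β - b‖ / 4) ≤ ‖sin ((β + b) / 2)‖ * ‖sin ((β - b) / 2)‖ :=
    mul_le_mul s1 (s3.trans s2) (by positivity) (norm_nonneg _)
  nlinarith

theorem d01_dZ_ne (hc : c ≤ 1/100) (h : NB c (-3) 3 Z X) {b : ℂ} (hb1 : 1 < b.im) (hb2 : b.im < 3/2) :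
    deriv Z b ≠ 0 := by
  intro h0
  have hb : b ∈ band (-3) 3 := ⟨by linarith, by linarith⟩
  have h1 := h.z1 b hb
  rw [h0, zero_add] at h1
  have h2 := d01_le_sin b
  have h4 : b.im ≤ Real.sinh b.im := Real.self_le_sinh_iff.2 (by linarith)
  linarith

/-- the auxiliary function -/
def d01H (Z X : ℂ → ℂ) (b β : ℂ) : ℂ :=
  dslope (fun z => X z ^ 2) b β * deriv Z β / dslope Z b β

def d01h (Z X : ℂ → ℂ) (b β : ℂ) : ℂ := (X β ^ 2 - X b ^ 2) * deriv Z β / (Z β - Z b)

theorem d01H_eq {b β : ℂ} (hne : β ≠ b) : d01H Z X b β = d01h Z X b β := by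
  unfold d01H d01h
  rw [dslope_of_ne _ hne, dslope_of_ne _ hne, slope_def_field, slope_def_field]
  have h1 : β - b ≠ 0 := sub_ne_zero.2 hne
  rw [div_mul_eq_mul_div, div_div_div_cancel_right₀ h1]

theorem d01h_per (hs : Sym 3 Z X) (b : ℂ) {z : ℂ} (hz : z ∈ strip 3) :
    d01h Z X b (z + 2 * (Real.pi:ℂ)) = d01h Z X b z := by
  have h1 : z + 2 * (Real.pi:ℂ) = z + (Real.pi:ℂ) + (Real.pi:ℂ) := by ring
  have hz1 : z + (Real.pi:ℂ) ∈ strip 3 := add_real_mem_band hz _
  unfold d01h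
  rw [h1, hs.aZ _ hz1, hs.aX _ hz1, d01_dZ_pi hs hz1, hs.aZ _ hz, hs.aX _ hz, d01_dZ_pi hs hz]
  simp only [neg_neg]

theorem d01_log (hc : c ≤ 1/100) (hs : Sym 3 Z X) (h : NB c (-3) 3 Z X) {w : ℂ} (hw : ‖w‖ < 4) :
    ∫ x in (-Real.pi)..Real.pi, deriv Z (d01L x) / (Z (d01L x) - w) = -2 * (Real.pi : ℂ) * I := by
  set Φ : ℂ → ℂ := fun z => log (2 * (Z z - w) * exp (I * z)) - I * z with hΦ
  have hslit : ∀ x : ℝ, 2 * (Z (d01L x) - w) * exp (I * d01L x) ∈ slitPlane := by
    intro x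
    set z := d01L x with hz
    have hE : ‖exp (I * z)‖ ≤ 1/12 := by
      rw [mul_comm, d01_exp1, hz, d01L_im]
      exact d01_expm29
    have e1 : 2 * cos z * exp (I * z) = 1 + exp (I * z) ^ 2 := by
      have h1 : 2 * cos z = exp (z * I) + exp (-z * I) := by
        have : cos z = (exp (z * I) + exp (-z * I)) / 2 := rfl
        rw [this]; ring
      have h2 : exp (-z * I) * exp (I * z) = 1 := by
        rw [← Complex.exp_add]
        have : -z * I + I * z = 0 := by ring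
        rw [this, Complex.exp_zero]
      rw [h1, add_mul, h2, mul_comm z I]
      ring
    have e2 : 2 * (Z z - w) * exp (I * z) = 1 + (exp (I * z) ^ 2 + (2 * (Z z - cos z) - 2 * w) * exp (I * z)) := by
      linear_combination e1
    rw [e2]
    refine mem_slitPlane_of_norm_lt_one ?_
    have k := h.z0 _ (d01L_mem x)
    rw [← hz] at k
    have k2 : ‖2 * (Z z - cos z) - 2 * w‖ ≤ 2 * c + 8 := by
      refine (norm_sub_le _ _).trans ?_
      rw [norm_mul, norm_mul, d01_two]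
      linarith
    have k3 : ‖(2 * (Z z - cos z) - 2 * w) * exp (I * z)‖ ≤ (2 * c + 8) * (1/12) := by
      rw [norm_mul]
      exact mul_le_mul k2 hE (norm_nonneg _) ((norm_nonneg _).trans k2)
    have k4 : ‖exp (I * z) ^ 2‖ ≤ (1/12) ^ 2 := by
      rw [norm_pow]
      exact pow_le_pow_left₀ (norm_nonneg _) hE 2
    have k5 := norm_add_le (exp (I * z) ^ 2) ((2 * (Z z - cos z) - 2 * w) * exp (I * z))
    linarith
  have hderiv : ∀ x ∈ uIcc (-Real.pi) Real.pi,
      HasDerivAt (fun x : ℝ => Φ (d01L x)) (deriv Z (d01L x) / (Z (d01L x) - w)) x := by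
    intro x _
    have hop := isOpen_band (-3) 3
    have hne := d01_ne0 hc h hw x
    have hZ := (h.dZ.differentiableAt (hop.mem_nhds (d01L_mem x))).hasDerivAt
    have h1 : HasDerivAt (fun z => 2 * (Z z - w)) (2 * deriv Z (d01L x)) (d01L x) := by
      simpa using (hZ.sub_const w).const_mul 2
    have h2 : HasDerivAt (fun z : ℂ => exp (I * z)) (exp (I * d01L x) * I) (d01L x) := by
      have h3 : HasDerivAt (fun z : ℂ => I * z) I (d01L x) := by
        simpa using (hasDerivAt_id (d01L x)).const_mul I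
      exact h3.cexp
    have h3 : HasDerivAt (fun z : ℂ => I * z) I (d01L x) := by
      simpa using (hasDerivAt_id (d01L x)).const_mul I
    have h12 : HasDerivAt (fun z : ℂ => 2 * (Z z - w) * exp (I * z))
        (2 * deriv Z (d01L x) * exp (I * d01L x) + 2 * (Z (d01L x) - w) * (exp (I * d01L x) * I)) (d01L x) :=
      h1.mul h2
    have h4 := (h12.clog (hslit x)).sub h3
    have h5 : HasDerivAt Φ (deriv Z (d01L x) / (Z (d01L x) - w)) (d01L x) := by
      refine h4.congr_deriv ?_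
      have hex := Complex.exp_ne_zero (I * d01L x)
      field_simp
      ring
    have h6 : HasDerivAt d01L 1 x := by
      unfold d01L
      exact (Complex.ofRealCLM.hasDerivAt (x := x)).add_const _
    have h7 : HasDerivAt (Φ ∘ d01L) (deriv Z (d01L x) / (Z (d01L x) - w)) x := by
      simpa using h5.scomp x h6
    exact h7
  have hint : IntervalIntegrable (fun x : ℝ => deriv Z (d01L x) / (Z (d01L x) - w)) volume (-Real.pi) Real.pi :=
    ((d01_cont_dZ h).div ((d01_cont h.dZ).sub continuous_const) (fun x => d01_ne0 hc h hw x)).intervalIntegrable _ _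
  rw [intervalIntegral.integral_eq_sub_of_hasDerivAt hderiv hint]
  have hL : d01L Real.pi = d01L (-Real.pi) + (Real.pi : ℂ) + (Real.pi : ℂ) := by
    unfold d01L; push_cast; ring
  have hm := d01L_mem (-Real.pi)
  have hm1 : d01L (-Real.pi) + (Real.pi : ℂ) ∈ strip 3 := add_real_mem_band hm _
  have hZp : Z (d01L Real.pi) = Z (d01L (-Real.pi)) := by
    rw [hL, hs.aZ _ hm1, hs.aZ _ hm, neg_neg]
  have hEp : exp (I * d01L Real.pi) = exp (I * d01L (-Real.pi)) := by
    have : I * d01L Real.pi = I * d01L (-Real.pi) + 2 * (Real.pi : ℂ) * I := by rw [hL]; ring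
    rw [this, Complex.exp_add, Complex.exp_two_pi_mul_I, mul_one]
  simp only [hΦ]
  rw [hZp, hEp, hL]
  ring

theorem d01_key (hc : c ≤ 1/100) (hs : Sym 3 Z X) (h : NB c (-3) 3 Z X) {b : ℂ} (hb1 : 1 < b.im) (hb2 : b.im < 3/2) :
    Fint Z X (Z b) = X b ^ 2 := by
  have hop := isOpen_band (-3) 3
  have hpi := Real.pi_pos
  have hb : b ∈ band (-3) 3 := ⟨by linarith, by linarith⟩
  have hw : ‖Z b‖ < 4 := d01_Z_mem hc h ⟨by linarith, by linarith⟩
  have hnb := hop.mem_nhds hb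
  -- the rectangle
  have hdiff : DifferentiableOn ℂ (d01H Z X b)
      (uIcc (b.re - Real.pi) (b.re + Real.pi) ×ℂ uIcc (0:ℝ) (29/10)) := by
    intro β hβ
    obtain ⟨hβ1, hβ2⟩ := hβ
    have hβ1' : β.re ∈ uIcc (b.re - Real.pi) (b.re + Real.pi) := hβ1
    have hβ2' : β.im ∈ uIcc (0:ℝ) (29/10) := hβ2
    rw [uIcc_of_le (by linarith)] at hβ1'
    rw [uIcc_of_le (by norm_num)] at hβ2'
    have hβ : β ∈ band (-3) 3 := ⟨by linarith [hβ2'.1], by linarith [hβ2'.2]⟩
    have hnβ := hop.mem_nhds hβ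
    have d1 : DifferentiableAt ℂ (dslope (fun z => X z ^ 2) b) β :=
      ((Complex.differentiableOn_dslope hnb).2 (h.dX.pow 2)).differentiableAt hnβ
    have d2 : DifferentiableAt ℂ (dslope Z b) β :=
      ((Complex.differentiableOn_dslope hnb).2 h.dZ).differentiableAt hnβ
    have d3 : DifferentiableAt ℂ (deriv Z) β := (h.dZ.deriv hop).differentiableAt hnβ
    have d4 : dslope Z b β ≠ 0 := by
      by_cases hne : β = b
      · rw [hne, dslope_same]
        exact d01_dZ_ne hc h hb1 hb2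
      · rw [dslope_of_ne _ hne, slope_def_field]
        refine div_ne_zero (sub_ne_zero.2 ?_) (sub_ne_zero.2 hne)
        refine d01_sep hc h hb1 hb2 hβ2'.1 hβ2'.2 ?_ hne
        rw [sub_re, abs_le]
        constructor <;> linarith [hβ1'.1, hβ1'.2]
    exact ((d1.mul d3).div d2 d4).differentiableWithinAt
  have key := Complex.integral_boundary_rect_eq_zero_of_differentiableOn (d01H Z X b)
    ⟨b.re - Real.pi, 0⟩ ⟨b.re + Real.pi, 29/10⟩ hdiff
  simp only at key
  -- vertical sides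
  have hvert : (∫ y : ℝ in (0:ℝ)..(29/10), d01H Z X b (((b.re + Real.pi : ℝ) : ℂ) + (y:ℂ) * I)) =
      ∫ y : ℝ in (0:ℝ)..(29/10), d01H Z X b (((b.re - Real.pi : ℝ) : ℂ) + (y:ℂ) * I) := by
    refine intervalIntegral.integral_congr fun y hy => ?_
    rw [uIcc_of_le (by norm_num)] at hy
    have n1 : ((b.re + Real.pi : ℝ) : ℂ) + (y:ℂ) * I ≠ b := by
      intro h0
      have := congrArg Complex.re h0
      simp at this
    have n2 : ((b.re - Real.pi : ℝ) : ℂ) + (y:ℂ) * I ≠ b := by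
      intro h0
      have := congrArg Complex.re h0
      simp at this
    show d01H Z X b (((b.re + Real.pi : ℝ) : ℂ) + (y:ℂ) * I) = d01H Z X b (((b.re - Real.pi : ℝ) : ℂ) + (y:ℂ) * I)
    rw [d01H_eq n1, d01H_eq n2]
    have hm : ((b.re - Real.pi : ℝ) : ℂ) + (y:ℂ) * I ∈ strip 3 := by
      rw [mem_strip]
      simp
      constructor <;> linarith [hy.1, hy.2]
    have e1 : ((b.re + Real.pi : ℝ) : ℂ) + (y:ℂ) * I = (((b.re - Real.pi : ℝ) : ℂ) + (y:ℂ) * I) + 2 * (Real.pi : ℂ) := by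
      push_cast; ring
    rw [e1, d01h_per hs b hm]
  -- bottom
  have hbot : (∫ x : ℝ in (b.re - Real.pi)..(b.re + Real.pi), d01H Z X b ((x:ℂ) + ((0:ℝ):ℂ) * I)) = 0 := by
    have h1 : (∫ x : ℝ in (b.re - Real.pi)..(b.re + Real.pi), d01H Z X b ((x:ℂ) + ((0:ℝ):ℂ) * I)) =
        ∫ x : ℝ in (b.re - Real.pi)..(b.re + Real.pi), d01h Z X b (x:ℂ) := by
      refine intervalIntegral.integral_congr fun x _ => ?_
      show d01H Z X b ((x:ℂ) + ((0:ℝ):ℂ) * I) = d01h Z X b (x:ℂ)
      have e1 : (x:ℂ) + ((0:ℝ):ℂ) * I = (x:ℂ) := by simp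
      rw [e1, d01H_eq]
      intro h0
      have := congrArg Complex.im h0
      simp at this
      linarith
    have hmem : ∀ x : ℝ, (x:ℂ) ∈ strip 3 := by
      intro x
      rw [mem_strip]
      simp
    have hper : Function.Periodic (fun x : ℝ => d01h Z X b (x:ℂ)) (2 * Real.pi) := by
      intro x
      have := d01h_per hs b (hmem x)
      show d01h Z X b ((x + 2 * Real.pi : ℝ) : ℂ) = d01h Z X b (x:ℂ)
      push_cast
      exact this
    rw [h1, d01_shift hper]
    have h2 : (∫ x : ℝ in (-Real.pi)..Real.pi, d01h Z X b (x:ℂ)) =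
        ∫ x : ℝ in (-Real.pi)..Real.pi, d01h Z X b ((-x : ℝ):ℂ) := by
      rw [intervalIntegral.integral_comp_neg (fun x : ℝ => d01h Z X b (x:ℂ)), neg_neg]
    have h3 : (∫ x : ℝ in (-Real.pi)..Real.pi, d01h Z X b ((-x : ℝ):ℂ)) =
        - ∫ x : ℝ in (-Real.pi)..Real.pi, d01h Z X b (x:ℂ) := by
      rw [← intervalIntegral.integral_neg]
      refine intervalIntegral.integral_congr fun x _ => ?_
      show d01h Z X b ((-x : ℝ):ℂ) = - d01h Z X b (x:ℂ)
      have hm := hmem x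
      unfold d01h
      rw [ofReal_neg, hs.eZ _ hm, hs.oX _ hm, d01_dZ_neg hs hm]
      ring
    have h4 := h2.trans h3
    have h5 : (2:ℂ) * (∫ x : ℝ in (-Real.pi)..Real.pi, d01h Z X b (x:ℂ)) = 0 := by
      linear_combination h4
    exact (mul_eq_zero.1 h5).resolve_left two_ne_zero
  -- top
  have htop : (∫ x : ℝ in (b.re - Real.pi)..(b.re + Real.pi), d01H Z X b ((x:ℂ) + ((29/10:ℝ):ℂ) * I)) =
      (∫ x in (-Real.pi)..Real.pi, d01f Z X (Z b) (d01L x)) - X b ^ 2 * (-2 * (Real.pi : ℂ) * I) := by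
    have h1 : (∫ x : ℝ in (b.re - Real.pi)..(b.re + Real.pi), d01H Z X b ((x:ℂ) + ((29/10:ℝ):ℂ) * I)) =
        ∫ x : ℝ in (b.re - Real.pi)..(b.re + Real.pi), d01h Z X b (d01L x) := by
      refine intervalIntegral.integral_congr fun x _ => ?_
      show d01H Z X b ((x:ℂ) + ((29/10:ℝ):ℂ) * I) = d01h Z X b (d01L x)
      rw [← d01L_eq, d01H_eq]
      intro h0
      have := congrArg Complex.im h0
      rw [d01L_im] at this
      linarith
    have hper : Function.Periodic (fun x : ℝ => d01h Z X b (d01L x)) (2 * Real.pi) := by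
      intro x
      show d01h Z X b (d01L (x + 2 * Real.pi)) = d01h Z X b (d01L x)
      rw [d01L_add]
      have := d01h_per hs b (d01L_mem x)
      push_cast at this ⊢
      exact this
    have hi2 : IntervalIntegrable (fun x : ℝ => X b ^ 2 * (deriv Z (d01L x) / (Z (d01L x) - Z b))) volume
        (-Real.pi) Real.pi :=
      (continuous_const.mul ((d01_cont_dZ h).div ((d01_cont h.dZ).sub continuous_const)
        (fun x => d01_ne0 hc h hw x))).intervalIntegrable _ _
    rw [h1, d01_shift hper, ← d01_log hc hs h hw, ← intervalIntegral.integral_const_mul,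
      ← intervalIntegral.integral_sub ((d01f_cont hc h hw).intervalIntegrable _ _) hi2]
    refine intervalIntegral.integral_congr fun x _ => ?_
    show d01h Z X b (d01L x) = d01f Z X (Z b) (d01L x) - X b ^ 2 * (deriv Z (d01L x) / (Z (d01L x) - Z b))
    unfold d01h d01f
    ring
  rw [hvert, hbot, htop] at key
  have hI : (∫ x in (-Real.pi)..Real.pi, d01f Z X (Z b) (d01L x)) = X b ^ 2 * (-2 * (Real.pi : ℂ) * I) := by
    linear_combination -key
  rw [Fint_eq, hI]
  have hpi' : (Real.pi : ℂ) ≠ 0 := by exact_mod_cast hpi.ne'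
  have hI0 := I_ne_zero
  field_simp

theorem d01_main (hc : c ≤ 1/100) (hs : Sym 3 Z X) (h : NB c (-3) 3 Z X) {b : ℂ} (hb : b ∈ strip 2) :
    Fint Z X (Z b) = X b ^ 2 := by
  have hsub : strip 2 ⊆ band (-3) 3 := band_subset (by norm_num) (by norm_num)
  have h1 : DifferentiableOn ℂ (fun b => Fint Z X (Z b)) (band (-2) 2) := by
    refine (d01_diff hc h).comp (h.dZ.mono hsub) ?_
    intro z hz
    exact mem_ball_zero_iff.2 (d01_Z_mem hc h hz)
  have h2 : DifferentiableOn ℂ (fun b => X b ^ 2) (band (-2) 2) := (h.dX.mono hsub).pow 2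
  refine eqOn_band (a' := 1) (b' := 3/2) (by norm_num) (by norm_num) (by norm_num) h1 h2 ?_ hb
  intro z hz
  exact d01_key hc hs h hz.1 hz.2

/-- the circle -/
theorem d01_circle {w : ℂ} (hw : w ∈ Metric.ball (0:ℂ) 4) : Fint cos sin w = 1 - w ^ 2 := by
  have hN := NB_circle (-3) 3
  have hS := Sym_circle 3
  have h1 : AnalyticOnNhd ℂ (Fint cos sin) (Metric.ball 0 4) :=
    (d01_diff (c := 0) (by norm_num) hN).analyticOnNhd Metric.isOpen_ball
  have h2 : AnalyticOnNhd ℂ (fun w : ℂ => 1 - w ^ 2) (Metric.ball 0 4) := by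
    refine DifferentiableOn.analyticOnNhd ?_ Metric.isOpen_ball
    exact (Differentiable.differentiableOn (by fun_prop))
  have h3 : (fun w => Fint cos sin w) =ᶠ[𝓝 (0:ℂ)] fun w => 1 - w ^ 2 := by
    have h4 : HasStrictDerivAt cos (-sin ((Real.pi : ℂ) / 2)) ((Real.pi : ℂ) / 2) :=
      Complex.hasStrictDerivAt_cos _
    have h5 := h4.map_nhds_eq (by rw [Complex.sin_pi_div_two]; norm_num)
    rw [Complex.cos_pi_div_two] at h5
    show ∀ᶠ w in 𝓝 (0:ℂ), Fint cos sin w = 1 - w ^ 2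
    rw [← h5, eventually_map]
    have hmem : strip 2 ∈ 𝓝 ((Real.pi : ℂ) / 2) := by
      refine (isOpen_band _ _).mem_nhds ?_
      rw [mem_band]
      have : ((Real.pi : ℂ) / 2).im = 0 := by
        rw [show (Real.pi : ℂ) / 2 = ((Real.pi / 2 : ℝ) : ℂ) by push_cast; ring, ofReal_im]
      rw [this]
      norm_num
    filter_upwards [hmem] with b hb
    rw [d01_main (c := 0) (by norm_num) hS hN hb, Complex.sin_sq]
  exact h1.eqOn_of_preconnected_of_eventuallyEq h2 (convex_ball (0:ℂ) 4).isPreconnected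
    (Metric.mem_ball_self (by norm_num)) h3 hw

/-- On the line `|cos b| ≥ sinh 2.9 > 9.05`, so `|Z b - w| ≥ 5 - c` for `|w| < 4`: `F = Fint` is analytic on `ball 0 4` and depends Lipschitz
continuously on `(Z, Z', X)`; for the circle `F = 1 - w^2` (this is the case `Z = cos` of the argument below). Parity: shift the variable by
`pi` (periodicity). Identity `F (Z b) = X b ^ 2`: both sides are analytic in `b ∈ strip 2` (`|cos b| ≤ cosh 2 < 3.8`), so it is enough to prove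
it for `b ∈ band 1 (3/2)` (A01 `eqOn_band`). Fix such `b`, `w = Z b`, `G = X^2`.
(a) `Z β ≠ Z b` for `β ≠ b`, `|Re (β - b)| ≤ pi`, `0 ≤ Im β ≤ 29/10`: `|cos β - cos b| = 2 |sin((β+b)/2)| |sin((β-b)/2)| ≥
2 * sinh(1/2) * (2/pi) |β - b|/2 ≥ 0.33 |β - b|` while `|(Z - cos) β - (Z - cos) b| ≤ c |β - b|` (mean value inequality, `z1`).
(b) `(G β - G b) Z' β/(Z β - Z b)` extends to an analytic function on a neighbourhood of the rectangle
`[Re b - pi, Re b + pi] × [0, 29/10]` (quotient of `dslope`s), is `2 pi`-periodic; so its integrals over the bottom and the top side agree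
(`Complex.integral_boundary_rect_eq_zero_of_differentiableOn` or the countable exceptional set version). On the real line (bottom) the
function `G Z'/(Z - w)` is odd, and so is `Z'/(Z - w)` (`Z, G` even, `Z'` odd), so the bottom integral is `0` (here `Z - w ≠ 0` on the real line
by (a)).
(c) On the top line `∫ Z'/(Z - w) = - 2 pi I`: `Z'/(Z-w) = d/dx log (2 (Z - w) e^{I b}) - I`, where `2 (Z - w) e^{I b} = 1 + e^{2 I b} - 2 w e^{I b} + O(c)`
has distance `≤ 0.003 + 8 e^{-2.9} + .. < 1/2` from `1`, so the principal `log` is fine and periodic.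
Hence `∫_top G Z'/(Z - w) = G b ∫_top Z'/(Z-w) = - 2 pi I G b`. -/
theorem exists_F : ∃ c0 C : ℝ, 0 < c0 ∧ 1 ≤ C ∧ C * c0 ≤ 1/100 ∧ ∀ c : ℝ, 0 ≤ c → c ≤ c0 → ∀ Z X : ℂ → ℂ,
    NB c (-3) 3 Z X → Sym 3 Z X → FOk (C * c) Z X (Fint Z X) ∧
      (RealC 3 Z X → ∀ z ∈ Metric.ball (0:ℂ) 4, Fint Z X ((starRingEnd ℂ) z) = (starRingEnd ℂ) (Fint Z X z)) := by
  have hM := d01M_ge
  set C : ℝ := 4 * d01M ^ 3 with hC
  have hC1 : 1 ≤ C := by
    have : 1 ≤ d01M ^ 3 := one_le_pow₀ (by linarith)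
    linarith
  have hC0 : 0 < C := by linarith
  refine ⟨1 / (100 * C), C, by positivity, hC1, ?_, ?_⟩
  · rw [mul_one_div, div_le_iff₀ (by positivity)]
    linarith
  intro c hc0 hcc Z X h hs
  have hc : c ≤ 1/100 := by
    refine hcc.trans ?_
    exact one_div_le_one_div_of_le (by norm_num) (by linarith)
  refine ⟨⟨d01_diff hc h, ?_, fun z _ => d01_even hs z, ?_⟩, fun hr z _ => d01_conj hs hr z⟩
  · intro z hz
    have h1 := d01_lip hc0 hc h (mem_ball_zero_iff.1 hz)
    rwa [d01_circle hz] at h1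
  · intro b hb
    exact ⟨mem_ball_zero_iff.2 (d01_Z_mem hc h hb), d01_main hc hs h hb⟩

end FB
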