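import Pool.Agent.H48.FB.D01
import Pool.Agent.H48.FB.A07
import Pool.Agent.H48.FB.A08
import Pool.Agent.H48.FB.H00

/-! D02: the water line moments near the real axis. -/

open Complex Set MeasureTheory Filter Topology

noncomputable section

namespace FB

theorem d02_cosh : Real.cosh (8/5) < 2.58 := by
  have h1 : (2.7182818283:ℝ) < Real.exp 1 := Real.exp_one_gt_d9
  have h2 : Real.exp 1 < 2.7182818286 := Real.exp_one_lt_d9
  have e : Real.exp (8/5) ^ 5 = Real.exp 1 ^ 8 := by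
    rw [← Real.exp_nat_mul, ← Real.exp_nat_mul]
    norm_num
  have u : Real.exp (8/5) < 4.954 := by
    by_contra h
    push Not at h
    have a1 : (4.954:ℝ) ^ 5 ≤ Real.exp (8/5) ^ 5 := pow_le_pow_left₀ (by norm_num) h 5
    have a2 : Real.exp 1 ^ 8 ≤ (2.7182818286:ℝ) ^ 8 := pow_le_pow_left₀ (by positivity) h2.le 8
    rw [e] at a1
    have := a1.trans a2
    norm_num at this
  have l : 4.95 < Real.exp (8/5) := by
    by_contra h
    push Not at h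
    have a1 : Real.exp (8/5) ^ 5 ≤ (4.95:ℝ) ^ 5 := pow_le_pow_left₀ (by positivity) h 5
    have a2 : (2.7182818283:ℝ) ^ 8 ≤ Real.exp 1 ^ 8 := pow_le_pow_left₀ (by norm_num) h1.le 8
    rw [e] at a1
    have := a2.trans a1
    norm_num at this
  have v : Real.exp (-(8/5)) < 0.2021 := by
    rw [Real.exp_neg, inv_lt_comm₀ (by positivity) (by norm_num)]
    norm_num
    linarith
  rw [Real.cosh_eq]
  linarith

theorem d02_norm_cos (z : ℂ) : ‖cos z‖ ≤ Real.cosh z.im := by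
  rw [Complex.cos, norm_div, Real.cosh_eq]
  have h1 : ‖exp (z * I)‖ = Real.exp (-z.im) := by rw [Complex.norm_exp]; simp
  have h2 : ‖exp (-z * I)‖ = Real.exp (z.im) := by rw [Complex.norm_exp]; simp
  have h := norm_add_le (exp (z * I)) (exp (-z * I))
  rw [h1, h2] at h
  rw [show ‖(2:ℂ)‖ = 2 by simp]
  linarith

theorem d02_norm_sin (z : ℂ) : ‖sin z‖ ≤ Real.cosh z.im := by
  have h := d02_norm_cos (z - Real.pi / 2)
  rw [Complex.cos_sub_pi_div_two] at h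
  simpa using h

theorem d02_cs {t : ℂ} (ht : t ∈ strip (8/5)) : ‖cos t‖ ≤ 2.58 ∧ ‖sin t‖ ≤ 2.58 := by
  have h : Real.cosh t.im ≤ Real.cosh (8/5) := by
    rw [Real.cosh_le_cosh]
    rw [abs_of_pos (by norm_num : (0:ℝ) < 8/5), abs_le]
    exact ⟨ht.1.le, ht.2.le⟩
  have := d02_cosh
  exact ⟨(d02_norm_cos t).trans (by linarith), (d02_norm_sin t).trans (by linarith)⟩

/-- the point of the chord for the circle -/
theorem d02_W0 {al : ℝ} (hal : al ∈ JJ) {t x : ℂ} (ht : t ∈ strip (8/5)) (hx : ‖x‖ ≤ 6/5) :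
    ‖(Real.cos al : ℂ) * cos t - x * (Real.sin al : ℂ) * sin t‖ ≤ 3.92 ∧
    ‖(Real.cos al : ℂ) * sin t + x * (Real.sin al : ℂ) * cos t‖ ≤ 3.92 := by
  obtain ⟨-, -, -, c1, c2, s1, s2⟩ := JJ_bounds hal
  obtain ⟨hc, hs⟩ := d02_cs ht
  have a1 : ‖(Real.cos al : ℂ)‖ ≤ 0.39 := by
    rw [Complex.norm_real, Real.norm_eq_abs, abs_of_pos (by linarith)]; exact c2.le
  have a2 : ‖(Real.sin al : ℂ)‖ ≤ 0.94 := by
    rw [Complex.norm_real, Real.norm_eq_abs, abs_of_pos (by linarith)]; exact s2.le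
  have b1 : ∀ w : ℂ, ‖w‖ ≤ 2.58 → ‖(Real.cos al : ℂ) * w‖ ≤ 0.39 * 2.58 := fun w hw => by
    rw [norm_mul]; exact mul_le_mul a1 hw (norm_nonneg _) (by norm_num)
  have b2 : ∀ w : ℂ, ‖w‖ ≤ 2.58 → ‖x * (Real.sin al : ℂ) * w‖ ≤ 6/5 * 0.94 * 2.58 := fun w hw => by
    rw [norm_mul, norm_mul]
    exact mul_le_mul (mul_le_mul hx a2 (norm_nonneg _) (by norm_num)) hw (norm_nonneg _) (by norm_num)
  constructor
  · refine (norm_sub_le _ _).trans ?_
    have := b1 _ hc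
    have := b2 _ hs
    norm_num at *
    linarith
  · refine (norm_add_le _ _).trans ?_
    have := b1 _ hs
    have := b2 _ hc
    norm_num at *
    linarith

theorem d02_mem {t : ℂ} (ht : t ∈ strip (8/5)) (al : ℝ) : t + (al:ℂ) ∈ band (-2) 2 ∧ t - (al:ℂ) ∈ band (-2) 2 := by
  have h : t ∈ band (-2) 2 := band_subset (by norm_num) (by norm_num) ht
  exact ⟨add_real_mem_band h al, sub_real_mem_band h al⟩

/-- closeness of the chord points -/
theorem d02_W {al c : ℝ} {f g : ℂ → ℂ} {t x : ℂ} (h1 : ‖f (t + (al:ℂ)) - g (t + (al:ℂ))‖ ≤ c)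
    (h2 : ‖f (t - (al:ℂ)) - g (t - (al:ℂ))‖ ≤ c) (hx : ‖x‖ ≤ 6/5) :
    ‖(md al f t + x * df al f t) - (md al g t + x * df al g t)‖ ≤ 11/5 * c := by
  have hc : 0 ≤ c := (norm_nonneg _).trans h1
  have e : (md al f t + x * df al f t) - (md al g t + x * df al g t) =
      ((1 + x) / 2) * (f (t + (al:ℂ)) - g (t + (al:ℂ))) + ((1 - x) / 2) * (f (t - (al:ℂ)) - g (t - (al:ℂ))) := by
    simp only [md, df]; ring
  have n1 : ‖(1 + x) / 2‖ ≤ 11/10 := by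
    rw [norm_div, show ‖(2:ℂ)‖ = 2 by simp]
    have := norm_add_le 1 x
    rw [norm_one] at this
    linarith
  have n2 : ‖(1 - x) / 2‖ ≤ 11/10 := by
    rw [norm_div, show ‖(2:ℂ)‖ = 2 by simp]
    have := norm_sub_le 1 x
    rw [norm_one] at this
    linarith
  rw [e]
  refine (norm_add_le _ _).trans ?_
  rw [norm_mul, norm_mul]
  have m1 := mul_le_mul n1 h1 (norm_nonneg _) (by norm_num)
  have m2 := mul_le_mul n2 h2 (norm_nonneg _) (by norm_num)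
  linarith

theorem d02_mdcos (al : ℝ) (t x : ℂ) :
    md al cos t + x * df al cos t = (Real.cos al : ℂ) * cos t - x * (Real.sin al : ℂ) * sin t ∧
    md al sin t + x * df al sin t = (Real.cos al : ℂ) * sin t + x * (Real.sin al : ℂ) * cos t := by
  simp only [md, df, Complex.cos_add, Complex.cos_sub, Complex.sin_add, Complex.sin_sub, Complex.ofReal_cos,
    Complex.ofReal_sin]
  constructor <;> ring

/-- the chord points of the curve stay in the ball of radius 4; the defect -/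
theorem d02_D {al : ℝ} (hal : al ∈ JJ) {c : ℝ} (hc0 : 0 ≤ c) (hc : c ≤ 1/100) {Z X F : ℂ → ℂ}
    (h : NB c (-2) 2 Z X) (hF : FOk c Z X F) {t x : ℂ} (ht : t ∈ strip (8/5)) (hx : ‖x‖ ≤ 6/5) :
    md al Z t + x * df al Z t ∈ Metric.ball (0:ℂ) 4 ∧
    ‖Gx al Z X F t x - (Real.sin al : ℂ) ^ 2 * (1 - x ^ 2)‖ ≤ 40 * c := by
  obtain ⟨m1, m2⟩ := d02_mem ht al
  have w1 := d02_W (x := x) (h.z0 _ m1) (h.z0 _ m2) hx
  have w2 := d02_W (x := x) (h.x0 _ m1) (h.x0 _ m2) hx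
  rw [(d02_mdcos al t x).1] at w1
  rw [(d02_mdcos al t x).2] at w2
  obtain ⟨v1, v2⟩ := d02_W0 hal ht hx
  set W := md al Z t + x * df al Z t with hW
  set V := md al X t + x * df al X t with hV
  set W0 := (Real.cos al : ℂ) * cos t - x * (Real.sin al : ℂ) * sin t with hW0
  set V0 := (Real.cos al : ℂ) * sin t + x * (Real.sin al : ℂ) * cos t with hV0
  have nW : ‖W‖ ≤ 3.95 := by
    have := norm_add_le (W - W0) W0
    rw [sub_add_cancel] at this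
    norm_num at *
    linarith
  have nV : ‖V‖ ≤ 3.95 := by
    have := norm_add_le (V - V0) V0
    rw [sub_add_cancel] at this
    norm_num at *
    linarith
  have hWm : W ∈ Metric.ball (0:ℂ) 4 := by
    rw [mem_ball_zero_iff]
    norm_num at *
    linarith
  refine ⟨hWm, ?_⟩
  have id0 : 1 - W0 ^ 2 - V0 ^ 2 = (Real.sin al : ℂ) ^ 2 * (1 - x ^ 2) := by
    have e1 : (Real.sin al : ℂ) ^ 2 + (Real.cos al : ℂ) ^ 2 = 1 := by
      rw [Complex.ofReal_sin, Complex.ofReal_cos]; exact Complex.sin_sq_add_cos_sq _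
    have e2 : sin t ^ 2 + cos t ^ 2 = 1 := Complex.sin_sq_add_cos_sq _
    rw [hW0, hV0]
    linear_combination (-(Real.cos al : ℂ) ^ 2 - x ^ 2 * (Real.sin al : ℂ) ^ 2) * e2 - e1
  have e : Gx al Z X F t x - (Real.sin al : ℂ) ^ 2 * (1 - x ^ 2) =
      (F W - (1 - W ^ 2)) - (W - W0) * (W + W0) - (V - V0) * (V + V0) := by
    rw [← id0]
    simp only [Gx]
    rw [← hW, ← hV]
    ring
  rw [e]
  have b0 := hF.n W hWm
  have b1 : ‖(W - W0) * (W + W0)‖ ≤ 11/5 * c * 8 := by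
    rw [norm_mul]
    refine mul_le_mul w1 ?_ (norm_nonneg _) (by positivity)
    have := norm_add_le W W0
    norm_num at *
    linarith
  have b2 : ‖(V - V0) * (V + V0)‖ ≤ 11/5 * c * 8 := by
    rw [norm_mul]
    refine mul_le_mul w2 ?_ (norm_nonneg _) (by positivity)
    have := norm_add_le V V0
    norm_num at *
    linarith
  have b3 := norm_sub_le ((F W - (1 - W ^ 2)) - (W - W0) * (W + W0)) ((V - V0) * (V + V0))
  have b4 := norm_sub_le (F W - (1 - W ^ 2)) ((W - W0) * (W + W0))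
  linarith

theorem d02_ends {al : ℝ} {c : ℝ} {Z X F : ℂ → ℂ} (hF : FOk c Z X F) {t : ℂ} (ht : t ∈ strip (8/5)) :
    Gx al Z X F t 1 = 0 ∧ Gx al Z X F t (-1) = 0 := by
  obtain ⟨m1, m2⟩ := d02_mem ht al
  have e1 : md al Z t + 1 * df al Z t = Z (t + (al:ℂ)) := by simp only [md, df]; ring
  have e2 : md al X t + 1 * df al X t = X (t + (al:ℂ)) := by simp only [md, df]; ring
  have e3 : md al Z t + (-1) * df al Z t = Z (t - (al:ℂ)) := by simp only [md, df]; ring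
  have e4 : md al X t + (-1) * df al X t = X (t - (al:ℂ)) := by simp only [md, df]; ring
  constructor
  · rw [Gx, e1, e2, (hF.v _ m1).2]; ring
  · rw [Gx, e3, e4, (hF.v _ m2).2]; ring

theorem d02_diffx {al : ℝ} (hal : al ∈ JJ) {c : ℝ} (hc0 : 0 ≤ c) (hc : c ≤ 1/100) {Z X F : ℂ → ℂ}
    (h : NB c (-2) 2 Z X) (hF : FOk c Z X F) {t : ℂ} (ht : t ∈ strip (8/5)) :
    DifferentiableOn ℂ (fun x => Gx al Z X F t x) (Metric.ball 0 (6/5)) := by
  intro x hx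
  apply DifferentiableAt.differentiableWithinAt
  have hx' : ‖x‖ ≤ 6/5 := by rw [mem_ball_zero_iff] at hx; exact hx.le
  have hW := (d02_D hal hc0 hc h hF ht hx').1
  have hFd : DifferentiableAt ℂ F (md al Z t + x * df al Z t) := hF.d.differentiableAt (Metric.isOpen_ball.mem_nhds hW)
  have h1 : DifferentiableAt ℂ (fun x : ℂ => md al Z t + x * df al Z t) x := by fun_prop
  have h2 : DifferentiableAt ℂ (fun x : ℂ => (md al X t + x * df al X t) ^ 2) x := by fun_prop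
  exact (DifferentiableAt.comp (g := F) x hFd h1).sub h2

theorem d02_difft {al : ℝ} (hal : al ∈ JJ) {c : ℝ} (hc0 : 0 ≤ c) (hc : c ≤ 1/100) {Z X F : ℂ → ℂ}
    (h : NB c (-2) 2 Z X) (hF : FOk c Z X F) {t : ℂ} (ht : t ∈ strip (8/5)) {x : ℂ} (hx : ‖x‖ ≤ 6/5) :
    DifferentiableAt ℂ (fun t => Gx al Z X F t x) t := by
  obtain ⟨m1, m2⟩ := d02_mem ht al
  have hW := (d02_D hal hc0 hc h hF ht hx).1
  have hFd : DifferentiableAt ℂ F (md al Z t + x * df al Z t) := hF.d.differentiableAt (Metric.isOpen_ball.mem_nhds hW)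
  have p1 : ∀ f : ℂ → ℂ, DifferentiableOn ℂ f (band (-2) 2) → DifferentiableAt ℂ (fun t => f (t + (al:ℂ))) t := fun f hf =>
    DifferentiableAt.comp (g := f) t (hf.differentiableAt ((isOpen_band _ _).mem_nhds m1)) (by fun_prop)
  have p2 : ∀ f : ℂ → ℂ, DifferentiableOn ℂ f (band (-2) 2) → DifferentiableAt ℂ (fun t => f (t - (al:ℂ))) t := fun f hf =>
    DifferentiableAt.comp (g := f) t (hf.differentiableAt ((isOpen_band _ _).mem_nhds m2)) (by fun_prop)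
  have q : ∀ f : ℂ → ℂ, DifferentiableOn ℂ f (band (-2) 2) → DifferentiableAt ℂ (fun t => md al f t + x * df al f t) t := fun f hf => by
    have := ((p1 f hf).add (p2 f hf)).div_const 2 |>.add ((((p1 f hf).sub (p2 f hf)).div_const 2).const_mul x)
    exact this
  exact (DifferentiableAt.comp (g := F) t hFd (q Z h.dZ)).sub ((q X h.dX).pow 2)

/-- For `t ∈ strip (8/5)`, `|x| < 5/4`: `|z_m + x z_d| ≤ cosh(1.6) (0.39 + 1.25 * 0.94) + c (..) < 4` (`cosh 1.6 < 2.58`), so `Gx` is analytic in `x` there;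
it vanishes at `x = ± 1` (`Γ_m ± Γ_d = Γ(t ± al)` and `FOk.v`, `|Im (t ± al)| < 2`). For the circle (`F = 1 - w^2`) `Gx = sin^2 al (1 - x^2)`. The
difference `D` is bounded by `C c` and vanishes at `± 1`, so `‖D/(1 - x^2)‖ ≤ C' c` on the unit disc (Schwarz lemma near `± 1`, or the
maximum principle for the extension). -/
theorem Gx_bd_aux : ∀ al ∈ JJ, ∀ c : ℝ, 0 ≤ c → c ≤ 1/20000 → ∀ Z X F : ℂ → ℂ,
    NB c (-2) 2 Z X → FOk c Z X F → ∀ t ∈ strip (8/5),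
      (∀ x ∈ Metric.ball (0:ℂ) 1, ‖Gx al Z X F t x / (1 - x ^ 2) - (Real.sin al : ℂ) ^ 2‖ ≤ 200 * c) := by
  intro al hal c hc0 hc Z X F h hF t ht
  have hc' : c ≤ 1/100 := by linarith
  set D : ℂ → ℂ := fun x => Gx al Z X F t x - (Real.sin al : ℂ) ^ 2 * (1 - x ^ 2) with hD
  have dD : DifferentiableOn ℂ D (Metric.ball 0 (6/5)) :=
    (d02_diffx hal hc0 hc' h hF ht).sub (by fun_prop)
  have D1 : D 1 = 0 := by
    simp only [hD]; rw [(d02_ends hF ht).1]; ring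
  have Dm1 : D (-1) = 0 := by
    simp only [hD]; rw [(d02_ends hF ht).2]; ring
  have n1 : Metric.ball (0:ℂ) (6/5) ∈ 𝓝 (1:ℂ) := Metric.isOpen_ball.mem_nhds (by rw [mem_ball_zero_iff]; norm_num)
  have nm1 : Metric.ball (0:ℂ) (6/5) ∈ 𝓝 (-1:ℂ) := Metric.isOpen_ball.mem_nhds (by rw [mem_ball_zero_iff]; norm_num)
  set E1 := dslope D 1 with hE1
  have dE1 : DifferentiableOn ℂ E1 (Metric.ball 0 (6/5)) := (Complex.differentiableOn_dslope n1).2 dD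
  have r1 : ∀ x, D x = (x - 1) * E1 x := fun x => by
    have := sub_smul_dslope D 1 x
    rw [smul_eq_mul, D1, sub_zero] at this
    exact this.symm
  have E1m : E1 (-1) = 0 := by
    have := r1 (-1)
    rw [Dm1] at this
    have h2 : ((-1:ℂ) - 1) ≠ 0 := by norm_num
    exact (mul_eq_zero.1 this.symm).resolve_left h2
  set E2 := dslope E1 (-1) with hE2
  have dE2 : DifferentiableOn ℂ E2 (Metric.ball 0 (6/5)) := (Complex.differentiableOn_dslope nm1).2 dE1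
  have r2 : ∀ x, D x = (x ^ 2 - 1) * E2 x := fun x => by
    have := sub_smul_dslope E1 (-1) x
    rw [smul_eq_mul, E1m, sub_zero] at this
    rw [r1 x, ← this]
    ring
  have bd : ∀ z ∈ frontier (Metric.ball (0:ℂ) (11/10)), ‖E2 z‖ ≤ 200 * c := by
    intro z hz
    rw [frontier_ball _ (by norm_num), mem_sphere_zero_iff_norm] at hz
    have h1 := (d02_D hal hc0 hc' h hF ht (x := z) (by rw [hz]; norm_num)).2
    have h2 : ‖D z‖ ≤ 40 * c := h1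
    rw [r2 z, norm_mul] at h2
    have h3 : 0.21 ≤ ‖z ^ 2 - 1‖ := by
      have := norm_sub_norm_le (z ^ 2) 1
      rw [norm_pow, hz, norm_one] at this
      norm_num at this ⊢
      linarith
    have h4 : 0.21 * ‖E2 z‖ ≤ 40 * c := (mul_le_mul_of_nonneg_right h3 (norm_nonneg _)).trans h2
    norm_num at h4
    linarith
  intro x hx
  have hx1 : ‖x‖ < 1 := by rwa [mem_ball_zero_iff] at hx
  have hmax := Complex.norm_le_of_forall_mem_frontier_norm_le (f := E2) (U := Metric.ball (0:ℂ) (11/10)) Metric.isBounded_ball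
    (DifferentiableOn.diffContOnCl (dE2.mono (by
      rw [closure_ball _ (by norm_num)]; exact Metric.closedBall_subset_ball (by norm_num)))) bd
    (z := x) (subset_closure (by rw [mem_ball_zero_iff]; linarith))
  have hne : (1 - x ^ 2 : ℂ) ≠ 0 := by
    intro h0
    have : x ^ 2 = 1 := (sub_eq_zero.1 h0).symm
    have h2 : ‖x‖ ^ 2 = 1 := by rw [← norm_pow, this, norm_one]
    nlinarith [norm_nonneg x]
  have e : Gx al Z X F t x / (1 - x ^ 2) - (Real.sin al : ℂ) ^ 2 = - E2 x := by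
    have := r2 x
    simp only [hD] at this
    rw [div_sub' hne, div_eq_iff hne]
    linear_combination this
  rw [e, norm_neg]
  exact hmax

theorem d02_ne {x : ℂ} (hx : x ∈ Metric.ball (0:ℂ) 1) : (1 - x ^ 2 : ℂ) ≠ 0 := by
  have hx1 : ‖x‖ < 1 := by rwa [mem_ball_zero_iff] at hx
  intro h0
  have : x ^ 2 = 1 := (sub_eq_zero.1 h0).symm
  have h2 : ‖x‖ ^ 2 = 1 := by rw [← norm_pow, this, norm_one]
  nlinarith [norm_nonneg x]

/-- For `t ∈ strip (8/5)`, `|x| < 5/4`: `|z_m + x z_d| ≤ cosh(1.6) (0.39 + 1.25 * 0.94) + c (..) < 4` (`cosh 1.6 < 2.58`), so `Gx` is analytic in `x` there;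
it vanishes at `x = ± 1` (`Γ_m ± Γ_d = Γ(t ± al)` and `FOk.v`, `|Im (t ± al)| < 2`). For the circle (`F = 1 - w^2`) `Gx = sin^2 al (1 - x^2)`. The
difference `D` is bounded by `C c` and vanishes at `± 1`, so `‖D/(1 - x^2)‖ ≤ C' c` on the unit disc (Schwarz lemma near `± 1`, or the
maximum principle for the extension). -/
theorem Gx_bd : ∃ c0 C : ℝ, 0 < c0 ∧ 1 ≤ C ∧ C * c0 ≤ 1/100 ∧ ∀ al ∈ JJ, ∀ c : ℝ, 0 ≤ c → c ≤ c0 → ∀ Z X F : ℂ → ℂ,
    NB c (-2) 2 Z X → Sym 2 Z X → FOk c Z X F → ∀ t ∈ strip (8/5),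
      (∀ x ∈ Metric.ball (0:ℂ) 1, ‖Gx al Z X F t x / (1 - x ^ 2) - (Real.sin al : ℂ) ^ 2‖ ≤ C * c) ∧
      DifferentiableOn ℂ (fun x => Gx al Z X F t x / (1 - x ^ 2)) (Metric.ball 0 1) ∧
      (∀ x ∈ Metric.ball (0:ℂ) 1, DifferentiableAt ℂ (fun t => Gx al Z X F t x) t) ∧
      Gx al Z X F t 1 = 0 ∧ Gx al Z X F t (-1) = 0 := by
  refine ⟨1/20000, 200, by norm_num, by norm_num, by norm_num, ?_⟩
  intro al hal c hc0 hc Z X F h _ hF t ht
  have hc' : c ≤ 1/100 := by linarith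
  refine ⟨Gx_bd_aux al hal c hc0 hc Z X F h hF t ht, ?_, ?_, (d02_ends hF ht).1, (d02_ends hF ht).2⟩
  · refine DifferentiableOn.div ((d02_diffx hal hc0 hc' h hF ht).mono (Metric.ball_subset_ball (by norm_num)))
      (by fun_prop) fun x hx => d02_ne hx
  · intro x hx
    rw [mem_ball_zero_iff] at hx
    exact d02_difft hal hc0 hc' h hF ht (by linarith)

/-! ### the square root -/

theorem d02_sq (u : ℂ) : (u ^ ((1 : ℂ) / 2)) ^ 2 = u := by
  rw [← Complex.cpow_nat_mul]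
  norm_num

theorem d02_sqrt {Q : ℂ} {S c : ℝ} (hS1 : 0.92 < S) (hS2 : S < 0.94) (hc0 : 0 ≤ c) (hc : c ≤ 1/50000)
    (hQ : ‖Q - (S:ℂ) ^ 2‖ ≤ 200 * c) :
    Q ∈ slitPlane ∧ ‖Q ^ ((1:ℂ)/2) - (S:ℂ)‖ ≤ 250 * c ∧ ‖Q ^ ((1:ℂ)/2)‖ ≤ 1 := by
  have hre : |(Q - (S:ℂ) ^ 2).re| ≤ 200 * c := (Complex.abs_re_le_norm _).trans hQ
  have e1 : (Q - (S:ℂ) ^ 2).re = Q.re - S ^ 2 := by
    rw [Complex.sub_re, ← Complex.ofReal_pow, Complex.ofReal_re]
  rw [e1, abs_le] at hre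
  have hQre : 0 < Q.re := by nlinarith [hre.1]
  have hslit : Q ∈ slitPlane := Or.inl hQre
  have hsq := d02_sq Q
  have hre0 : 0 ≤ (Q ^ ((1:ℂ)/2)).re := by
    have := Complex.abs_arg_le_pi_div_two_iff.2 hQre.le
    have hQ0 : Q ≠ 0 := Complex.slitPlane_ne_zero hslit
    rw [Complex.cpow_def_of_ne_zero hQ0, Complex.exp_re]
    refine mul_nonneg (Real.exp_pos _).le (Real.cos_nonneg_of_mem_Icc ?_)
    have e : (Complex.log Q * ((1:ℂ)/2)).im = Q.arg / 2 := by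
      rw [show (Complex.log Q * ((1:ℂ)/2)) = Complex.log Q / (2:ℝ) by push_cast; ring, Complex.div_ofReal_im, Complex.log_im]
    rw [e]
    rw [abs_le] at this
    constructor <;> linarith [this.1, this.2, Real.pi_pos]
  set q := Q ^ ((1:ℂ)/2) with hq
  have hf : (q - S) * (q + S) = Q - (S:ℂ) ^ 2 := by
    rw [← hsq]; ring
  have hlow : 0.92 ≤ ‖q + S‖ := by
    have : (q + S).re ≤ ‖q + S‖ := Complex.re_le_norm _
    rw [Complex.add_re, Complex.ofReal_re] at this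
    linarith
  have h1 : ‖q - S‖ * ‖q + S‖ ≤ 200 * c := by rw [← norm_mul, hf]; exact hQ
  have h2 : ‖q - S‖ ≤ 250 * c := by
    have := mul_le_mul_of_nonneg_left hlow (norm_nonneg (q - S))
    norm_num at this
    linarith
  refine ⟨hslit, h2, ?_⟩
  have := norm_add_le (q - S) S
  rw [sub_add_cancel, Complex.norm_real, Real.norm_eq_abs, abs_of_pos (by linarith)] at this
  linarith

theorem d02_ball {x : ℝ} (hx : x ∈ Ioo (-1:ℝ) 1) : (x:ℂ) ∈ Metric.ball (0:ℂ) 1 := by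
  rw [mem_ball_zero_iff, Complex.norm_real, Real.norm_eq_abs, abs_lt]
  exact hx

/-- the integrand -/
def d02_f (al : ℝ) (j : ℕ) (Z X F : ℂ → ℂ) (t : ℂ) (x : ℝ) : ℂ :=
  (x:ℂ) ^ j * ((Real.sqrt (1 - x ^ 2) : ℝ) : ℂ) * (Gx al Z X F t (x:ℂ) / (1 - (x:ℂ) ^ 2)) ^ ((1:ℂ)/2)

theorem d02_w {x : ℝ} (hx : x ∈ Icc (-1:ℝ) 1) (j : ℕ) : ‖(x:ℂ) ^ j * ((Real.sqrt (1 - x ^ 2) : ℝ) : ℂ)‖ ≤ 1 := by
  rw [norm_mul, norm_pow, Complex.norm_real, Complex.norm_real, Real.norm_eq_abs, Real.norm_eq_abs,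
    abs_of_nonneg (Real.sqrt_nonneg _)]
  have h1 : |x| ≤ 1 := abs_le.2 hx
  have h2 : |x| ^ j ≤ 1 := pow_le_one₀ (abs_nonneg _) h1
  have h3 : Real.sqrt (1 - x ^ 2) ≤ 1 := by
    rw [Real.sqrt_le_one]
    nlinarith [sq_nonneg x]
  exact mul_le_one₀ h2 (Real.sqrt_nonneg _) h3

theorem d02_f_bd {al : ℝ} (hal : al ∈ JJ) {c : ℝ} (hc0 : 0 ≤ c) (hc : c ≤ 1/50000) {Z X F : ℂ → ℂ}
    (h : NB c (-2) 2 Z X) (hF : FOk c Z X F) {t : ℂ} (ht : t ∈ strip (8/5)) {x : ℝ} (hx : x ∈ Ioo (-1:ℝ) 1) :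
    (Gx al Z X F t (x:ℂ) / (1 - (x:ℂ) ^ 2)) ∈ slitPlane ∧
    ‖(Gx al Z X F t (x:ℂ) / (1 - (x:ℂ) ^ 2)) ^ ((1:ℂ)/2) - (Real.sin al : ℂ)‖ ≤ 250 * c ∧
    ‖(Gx al Z X F t (x:ℂ) / (1 - (x:ℂ) ^ 2)) ^ ((1:ℂ)/2)‖ ≤ 1 := by
  obtain ⟨-, -, -, c1, c2, s1, s2⟩ := JJ_bounds hal
  exact d02_sqrt s1 s2 hc0 hc (Gx_bd_aux al hal c hc0 (by linarith) Z X F h hF t ht _ (d02_ball hx))

theorem d02_cont {al : ℝ} (hal : al ∈ JJ) {c : ℝ} (hc0 : 0 ≤ c) (hc : c ≤ 1/50000) {Z X F : ℂ → ℂ}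
    (h : NB c (-2) 2 Z X) (hF : FOk c Z X F) {t : ℂ} (ht : t ∈ strip (8/5)) (j : ℕ) :
    ContinuousOn (d02_f al j Z X F t) (Ioo (-1:ℝ) 1) := by
  have h1 : ContinuousOn (fun x : ℝ => Gx al Z X F t (x:ℂ) / (1 - (x:ℂ) ^ 2)) (Ioo (-1:ℝ) 1) := by
    have a := (DifferentiableOn.div ((d02_diffx hal hc0 (by linarith) h hF ht).mono (Metric.ball_subset_ball (by norm_num)))
      (by fun_prop : DifferentiableOn ℂ (fun x : ℂ => 1 - x ^ 2) (Metric.ball 0 1)) fun x hx => d02_ne hx).continuousOn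
    exact ContinuousOn.comp (t := Metric.ball (0:ℂ) 1) a continuous_ofReal.continuousOn fun x hx => d02_ball hx
  have h2 : ContinuousOn (fun x : ℝ => (Gx al Z X F t (x:ℂ) / (1 - (x:ℂ) ^ 2)) ^ ((1:ℂ)/2)) (Ioo (-1:ℝ) 1) :=
    ContinuousOn.cpow h1 continuousOn_const fun x hx => (d02_f_bd hal hc0 hc h hF ht hx).1
  have h3 : Continuous (fun x : ℝ => (x:ℂ) ^ j * ((Real.sqrt (1 - x ^ 2) : ℝ) : ℂ)) := by fun_prop
  exact h3.continuousOn.mul h2

theorem d02_fbd {al : ℝ} (hal : al ∈ JJ) {c : ℝ} (hc0 : 0 ≤ c) (hc : c ≤ 1/50000) {Z X F : ℂ → ℂ}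
    (h : NB c (-2) 2 Z X) (hF : FOk c Z X F) {t : ℂ} (ht : t ∈ strip (8/5)) (j : ℕ) {x : ℝ} (hx : x ∈ Ioo (-1:ℝ) 1) :
    ‖d02_f al j Z X F t x‖ ≤ 1 := by
  rw [d02_f, norm_mul]
  exact mul_le_one₀ (d02_w ⟨hx.1.le, hx.2.le⟩ j) (norm_nonneg _) (d02_f_bd hal hc0 hc h hF ht hx).2.2

theorem d02_int {al : ℝ} (hal : al ∈ JJ) {c : ℝ} (hc0 : 0 ≤ c) (hc : c ≤ 1/50000) {Z X F : ℂ → ℂ}
    (h : NB c (-2) 2 Z X) (hF : FOk c Z X F) {t : ℂ} (ht : t ∈ strip (8/5)) (j : ℕ) :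
    IntervalIntegrable (d02_f al j Z X F t) volume (-1) 1 := by
  rw [intervalIntegrable_iff_integrableOn_Ioo_of_le (by norm_num)]
  refine Integrable.of_bound
    ((d02_cont hal hc0 hc h hF ht j).aestronglyMeasurable measurableSet_Ioo) 1 ?_
  filter_upwards [ae_restrict_mem measurableSet_Ioo] with x hx
  exact d02_fbd hal hc0 hc h hF ht j hx

theorem d02_diff {al : ℝ} (hal : al ∈ JJ) {c : ℝ} (hc0 : 0 ≤ c) (hc : c ≤ 1/50000) {Z X F : ℂ → ℂ}
    (h : NB c (-2) 2 Z X) (hF : FOk c Z X F) (j : ℕ) : DifferentiableOn ℂ (hj al j Z X F) (strip (8/5)) := by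
  have := Fam.integral (a := -(8/5)) (b := 8/5) (al := 1) (M := 1) (by norm_num)
    (F := fun _ z s => d02_f al j Z X F z s) ?_ ?_ ?_
  · exact this.diff ⟨0, by constructor <;> norm_num⟩
  · intro s hs
    refine Fam.const ?_
    intro t ht
    apply DifferentiableAt.differentiableWithinAt
    have hn : ‖(s:ℂ)‖ ≤ 6/5 := by
      have := d02_ball hs
      rw [mem_ball_zero_iff] at this
      linarith
    have h1 := d02_difft hal hc0 (by linarith) h hF (t := t) ht hn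
    have h2 := (h1.div_const (1 - (s:ℂ) ^ 2)).cpow (differentiableAt_const ((1:ℂ)/2)) (d02_f_bd hal hc0 hc h hF ht hs).1
    exact h2.const_mul ((s:ℂ) ^ j * ((Real.sqrt (1 - s ^ 2) : ℝ) : ℂ))
  · intro _ z hz s hs
    exact d02_fbd hal hc0 hc h hF hz j hs
  · intro _ z hz
    exact d02_cont hal hc0 hc h hF hz j

theorem d02_neg {al : ℝ} {Z X F : ℂ → ℂ} (hS : Sym 2 Z X) {t : ℂ} (ht : t ∈ strip (8/5)) (x : ℂ) :
    Gx al Z X F (-t) x = Gx al Z X F t (-x) := by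
  obtain ⟨m1, m2⟩ := d02_mem ht al
  have z1 := hS.eZ _ m1
  have z2 := hS.eZ _ m2
  have x1 := hS.oX _ m1
  have x2 := hS.oX _ m2
  have e1 : -t + (al:ℂ) = -(t - (al:ℂ)) := by ring
  have e2 : -t - (al:ℂ) = -(t + (al:ℂ)) := by ring
  simp only [Gx, md, df]
  rw [e1, e2, z1, z2, x1, x2]
  have a1 : (Z (t - ↑al) + Z (t + ↑al)) / 2 + x * ((Z (t - ↑al) - Z (t + ↑al)) / 2) =
    (Z (t + ↑al) + Z (t - ↑al)) / 2 + -x * ((Z (t + ↑al) - Z (t - ↑al)) / 2) := by ring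
  rw [a1]
  ring

theorem d02_per {al : ℝ} {Z X F : ℂ → ℂ} (hS : Sym 2 Z X) {t : ℂ} (ht : t ∈ strip (8/5)) (x : ℂ) :
    Gx al Z X F (t + 2 * (Real.pi:ℂ)) x = Gx al Z X F t x := by
  obtain ⟨m1, m2⟩ := d02_mem ht al
  have p : ∀ w ∈ strip 2, Z (w + 2 * (Real.pi:ℂ)) = Z w ∧ X (w + 2 * (Real.pi:ℂ)) = X w := fun w hw => by
    have hw' : w + (Real.pi:ℂ) ∈ strip 2 := add_real_mem_band hw _
    have e : w + 2 * (Real.pi:ℂ) = (w + (Real.pi:ℂ)) + (Real.pi:ℂ) := by ring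
    rw [e, hS.aZ _ hw', hS.aX _ hw', hS.aZ _ hw, hS.aX _ hw]
    simp
  have e1 : t + 2 * (Real.pi:ℂ) + (al:ℂ) = (t + (al:ℂ)) + 2 * (Real.pi:ℂ) := by ring
  have e2 : t + 2 * (Real.pi:ℂ) - (al:ℂ) = (t - (al:ℂ)) + 2 * (Real.pi:ℂ) := by ring
  simp only [Gx, md, df]
  rw [e1, e2, (p _ m1).1, (p _ m2).1, (p _ m1).2, (p _ m2).2]

theorem d02_hneg {al : ℝ} {Z X F : ℂ → ℂ} (hS : Sym 2 Z X) {t : ℂ} (ht : t ∈ strip (8/5)) (j : ℕ) :
    hj al j Z X F (-t) = (-1) ^ j * hj al j Z X F t := by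
  have e : hj al j Z X F (-t) = ∫ x in (-1:ℝ)..1, (-1) ^ j * d02_f al j Z X F t (-x) := by
    refine intervalIntegral.integral_congr fun x _ => ?_
    simp only [d02_f]
    rw [d02_neg hS ht (x:ℂ)]
    have h1 : ((-1:ℂ) ^ j) * (-1) ^ j = 1 := by rw [← mul_pow]; norm_num
    push_cast
    rw [neg_pow (x:ℂ) j]
    simp only [even_two, Even.neg_pow]
    linear_combination (-((x:ℂ) ^ j * ((Real.sqrt (1 - x ^ 2) : ℝ) : ℂ) *
      (Gx al Z X F t (-(x:ℂ)) / (1 - (x:ℂ) ^ 2)) ^ ((1:ℂ)/2))) * h1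
  rw [e, intervalIntegral.integral_const_mul, intervalIntegral.integral_comp_neg (d02_f al j Z X F t), neg_neg]
  rfl

/-! ### the moments of the semicircle -/

theorem d02_m0 : ∫ x in (-1:ℝ)..1, ((Real.sqrt (1 - x ^ 2) : ℝ) : ℂ) = (Real.pi / 2 : ℂ) := by
  rw [intervalIntegral.integral_ofReal, integral_sqrt_one_sub_sq]
  push_cast
  ring

theorem d02_m1 : ∫ x in (-1:ℝ)..1, (x:ℂ) * ((Real.sqrt (1 - x ^ 2) : ℝ) : ℂ) = 0 := by
  have h := intervalIntegral.integral_comp_neg (a := -1) (b := 1) (fun x : ℝ => (x:ℂ) * ((Real.sqrt (1 - x ^ 2) : ℝ) : ℂ))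
  rw [neg_neg] at h
  have e : ∀ x : ℝ, ((-x : ℝ):ℂ) * ((Real.sqrt (1 - (-x) ^ 2) : ℝ) : ℂ) = - ((x:ℂ) * ((Real.sqrt (1 - x ^ 2) : ℝ) : ℂ)) := fun x => by
    push_cast
    rw [neg_sq]
    ring
  simp only [e] at h
  rw [intervalIntegral.integral_neg] at h
  have h2 : (2:ℂ) * ∫ x in (-1:ℝ)..1, (x:ℂ) * ((Real.sqrt (1 - x ^ 2) : ℝ) : ℂ) = 0 := by linear_combination -h
  exact (mul_eq_zero.1 h2).resolve_left (by norm_num)

theorem d02_m2r : ∫ x in (-1:ℝ)..1, x ^ 2 * Real.sqrt (1 - x ^ 2) = Real.pi / 8 := by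
  have key : ∫ x in (-1:ℝ)..1, (Real.sqrt (1 - x ^ 2) - 4 * (x ^ 2 * Real.sqrt (1 - x ^ 2))) = 0 := by
    have := intervalIntegral.integral_eq_sub_of_hasDerivAt_of_le (a := (-1:ℝ)) (b := 1)
      (f := fun x => x * (1 - x ^ 2) * Real.sqrt (1 - x ^ 2))
      (f' := fun x => Real.sqrt (1 - x ^ 2) - 4 * (x ^ 2 * Real.sqrt (1 - x ^ 2))) (by norm_num)
      (by fun_prop) (fun x hx => ?_) (by
        apply Continuous.intervalIntegrable
        fun_prop)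
    · rw [this]; norm_num
    · have hp : 0 < 1 - x ^ 2 := by nlinarith [hx.1, hx.2]
      have h1 : HasDerivAt (fun x : ℝ => 1 - x ^ 2) (-(2 * x)) x := by
        have := (hasDerivAt_pow 2 x).const_sub 1
        simpa using this
      have h2 := h1.sqrt hp.ne'
      have h3 := ((hasDerivAt_id' x).mul h1).mul h2
      refine HasDerivAt.congr_deriv h3 ?_
      show (1 * (1 - x ^ 2) + x * -(2 * x)) * Real.sqrt (1 - x ^ 2) +
        (x * (1 - x ^ 2)) * (-(2 * x) / (2 * Real.sqrt (1 - x ^ 2))) = Real.sqrt (1 - x ^ 2) - 4 * (x ^ 2 * Real.sqrt (1 - x ^ 2))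
      have hs := Real.sq_sqrt hp.le
      have hs0 : Real.sqrt (1 - x ^ 2) ≠ 0 := (Real.sqrt_pos.2 hp).ne'
      set r := Real.sqrt (1 - x ^ 2) with hr
      have e : x * (1 - x ^ 2) * (-(2 * x) / (2 * r)) = - x ^ 2 * r := by
        rw [← hs]
        field_simp
      rw [e]
      ring
  rw [intervalIntegral.integral_sub (by apply Continuous.intervalIntegrable; fun_prop)
    (by apply Continuous.intervalIntegrable; fun_prop), intervalIntegral.integral_const_mul, integral_sqrt_one_sub_sq] at key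
  linarith

theorem d02_m2 : ∫ x in (-1:ℝ)..1, (x:ℂ) ^ 2 * ((Real.sqrt (1 - x ^ 2) : ℝ) : ℂ) = (Real.pi / 8 : ℂ) := by
  have : ∀ x : ℝ, (x:ℂ) ^ 2 * ((Real.sqrt (1 - x ^ 2) : ℝ) : ℂ) = ((x ^ 2 * Real.sqrt (1 - x ^ 2) : ℝ) : ℂ) := fun x => by
    push_cast; ring
  simp only [this]
  rw [intervalIntegral.integral_ofReal, d02_m2r]
  push_cast
  ring

theorem d02_hbd {al : ℝ} (hal : al ∈ JJ) {c : ℝ} (hc0 : 0 ≤ c) (hc : c ≤ 1/50000) {Z X F : ℂ → ℂ}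
    (h : NB c (-2) 2 Z X) (hF : FOk c Z X F) {t : ℂ} (ht : t ∈ strip (8/5)) (j : ℕ) :
    ‖hj al j Z X F t - (∫ x in (-1:ℝ)..1, (x:ℂ) ^ j * ((Real.sqrt (1 - x ^ 2) : ℝ) : ℂ)) * (Real.sin al : ℂ)‖ ≤ 500 * c := by
  have i1 := d02_int hal hc0 hc h hF ht j
  have i2 : IntervalIntegrable (fun x : ℝ => (x:ℂ) ^ j * ((Real.sqrt (1 - x ^ 2) : ℝ) : ℂ) * (Real.sin al : ℂ)) volume (-1) 1 := by
    apply Continuous.intervalIntegrable
    fun_prop
  have e : hj al j Z X F t - (∫ x in (-1:ℝ)..1, (x:ℂ) ^ j * ((Real.sqrt (1 - x ^ 2) : ℝ) : ℂ)) * (Real.sin al : ℂ) =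
      ∫ x in (-1:ℝ)..1, (d02_f al j Z X F t x - (x:ℂ) ^ j * ((Real.sqrt (1 - x ^ 2) : ℝ) : ℂ) * (Real.sin al : ℂ)) := by
    rw [intervalIntegral.integral_sub i1 i2, intervalIntegral.integral_mul_const]
    rfl
  rw [e]
  have hb := intervalIntegral.norm_integral_le_of_norm_le_const_ae (a := (-1:ℝ)) (b := 1) (C := 250 * c)
    (f := fun x : ℝ => d02_f al j Z X F t x - (x:ℂ) ^ j * ((Real.sqrt (1 - x ^ 2) : ℝ) : ℂ) * (Real.sin al : ℂ)) (by
      have : ∀ᵐ x : ℝ, x ≠ 1 := by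
        rw [ae_iff]; simp
      filter_upwards [this] with x hx1 hx
      rw [uIoc_of_le (by norm_num)] at hx
      have hx' : x ∈ Ioo (-1:ℝ) 1 := ⟨hx.1, lt_of_le_of_ne hx.2 hx1⟩
      rw [d02_f, ← mul_sub, norm_mul]
      have a := d02_w ⟨hx.1.le, hx.2⟩ j
      have b := (d02_f_bd hal hc0 hc h hF ht hx').2.1
      calc _ ≤ 1 * (250 * c) := mul_le_mul a b (norm_nonneg _) (by norm_num)
        _ = 250 * c := by ring)
  refine hb.trans (le_of_eq ?_)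
  norm_num
  ring

/-- `hj` is analytic on the strip (parametric integral of bounded analytic functions), periodic, of parity `(-1)^j`:
`z_m` even, `z_d` odd, `x_m` odd, `x_d` even under `t → -t`, so `Gx (-t) x = Gx t (-x)`. -/
theorem hj_basic : ∃ c0 C : ℝ, 0 < c0 ∧ 1 ≤ C ∧ C * c0 ≤ 1/100 ∧ ∀ al ∈ JJ, ∀ c : ℝ, 0 ≤ c → c ≤ c0 → ∀ Z X F : ℂ → ℂ,
    NB c (-2) 2 Z X → Sym 2 Z X → FOk c Z X F → ∀ j : ℕ,
      DifferentiableOn ℂ (hj al j Z X F) (strip (8/5)) ∧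
      (∀ t ∈ strip (8/5), hj al j Z X F (-t) = (-1) ^ j * hj al j Z X F t ∧ hj al j Z X F (t + 2 * (Real.pi:ℂ)) = hj al j Z X F t) ∧
      (∀ t ∈ strip (8/5), ‖hj al 0 Z X F t - (Real.pi / 2 : ℂ) * (Real.sin al : ℂ)‖ ≤ C * c ∧ ‖hj al 1 Z X F t‖ ≤ C * c ∧
        ‖hj al 2 Z X F t - (Real.pi / 8 : ℂ) * (Real.sin al : ℂ)‖ ≤ C * c) := by
  refine ⟨1/50000, 500, by norm_num, by norm_num, by norm_num, ?_⟩
  intro al hal c hc0 hc Z X F h hS hF j
  refine ⟨d02_diff hal hc0 hc h hF j, fun t ht => ⟨d02_hneg hS ht j, ?_⟩, fun t ht => ⟨?_, ?_, ?_⟩⟩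
  · refine intervalIntegral.integral_congr fun x _ => ?_
    show (x:ℂ) ^ j * ((Real.sqrt (1 - x ^ 2) : ℝ) : ℂ) * (Gx al Z X F (t + 2 * (Real.pi:ℂ)) (x:ℂ) / (1 - (x:ℂ) ^ 2)) ^ ((1:ℂ)/2) = _
    rw [d02_per hS ht]
  · have := d02_hbd hal hc0 hc h hF ht 0
    simp only [pow_zero, one_mul] at this
    rwa [d02_m0] at this
  · have := d02_hbd hal hc0 hc h hF ht 1
    simp only [pow_one] at this
    rwa [d02_m1, zero_mul, sub_zero] at this
  · have := d02_hbd hal hc0 hc h hF ht 2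
    rwa [d02_m2] at this

/-- real data: for real `t` and `x ∈ (-1, 1)`, if `Z, X` are real on the real axis and `F` is real, then
`hj al j Z X F t = ∫ x^j sqrt (G x)` with the real square root. -/
theorem hj_real : ∃ c0 : ℝ, 0 < c0 ∧ ∀ al ∈ JJ, ∀ Z X F : ℂ → ℂ,
    NB c0 (-2) 2 Z X → Sym 2 Z X → RealC 2 Z X → FOk c0 Z X F →
    (∀ z ∈ Metric.ball (0:ℂ) 4, F ((starRingEnd ℂ) z) = (starRingEnd ℂ) (F z)) → ∀ j : ℕ, ∀ t : ℝ,
      hj al j Z X F t = ((∫ x in (-1:ℝ)..1, x ^ j * Real.sqrt ((Gx al Z X F t (x:ℂ)).re) : ℝ) : ℂ) ∧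
      ∀ x ∈ Icc (-1:ℝ) 1, (Gx al Z X F t (x:ℂ)).im = 0 := by
  refine ⟨1/50000, by norm_num, ?_⟩
  intro al hal Z X F h hS hR hF hFc j t
  have ht : (t:ℂ) ∈ strip (8/5) := by
    constructor <;> simp
  obtain ⟨m1, m2⟩ := d02_mem ht al
  have hre : ∀ x ∈ Icc (-1:ℝ) 1, (starRingEnd ℂ) (Gx al Z X F t (x:ℂ)) = Gx al Z X F t (x:ℂ) := by
    intro x hx
    have hn : ‖(x:ℂ)‖ ≤ 6/5 := by
      rw [Complex.norm_real, Real.norm_eq_abs]
      have : |x| ≤ 1 := abs_le.2 hx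
      linarith
    have hW := (d02_D hal (by norm_num) (by norm_num) h hF ht hn).1
    have c1 : (starRingEnd ℂ) ((t:ℂ) + (al:ℂ)) = (t:ℂ) + (al:ℂ) := by simp
    have c2 : (starRingEnd ℂ) ((t:ℂ) - (al:ℂ)) = (t:ℂ) - (al:ℂ) := by simp
    have z1 := hR.rZ _ m1
    have z2 := hR.rZ _ m2
    have x1 := hR.rX _ m1
    have x2 := hR.rX _ m2
    rw [c1] at z1 x1
    rw [c2] at z2 x2
    have w1 : (starRingEnd ℂ) (md al Z t + (x:ℂ) * df al Z t) = md al Z t + (x:ℂ) * df al Z t := by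
      simp only [md, df, map_add, map_mul, map_div₀, map_sub, Complex.conj_ofReal, ← z1, ← z2, map_ofNat]
    have w2 : (starRingEnd ℂ) (md al X t + (x:ℂ) * df al X t) = md al X t + (x:ℂ) * df al X t := by
      simp only [md, df, map_add, map_mul, map_div₀, map_sub, Complex.conj_ofReal, ← x1, ← x2, map_ofNat]
    rw [Gx, map_sub, map_pow, w2, ← hFc _ hW, w1]
  have him : ∀ x ∈ Icc (-1:ℝ) 1, (Gx al Z X F t (x:ℂ)).im = 0 := fun x hx => Complex.conj_eq_iff_im.1 (hre x hx)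
  refine ⟨?_, him⟩
  rw [← intervalIntegral.integral_ofReal]
  refine intervalIntegral.integral_congr fun x hx => ?_
  rw [uIcc_of_le (by norm_num)] at hx
  show (x:ℂ) ^ j * ((Real.sqrt (1 - x ^ 2) : ℝ) : ℂ) * (Gx al Z X F t (x:ℂ) / (1 - (x:ℂ) ^ 2)) ^ ((1:ℂ)/2) =
    ((x ^ j * Real.sqrt ((Gx al Z X F t (x:ℂ)).re) : ℝ) : ℂ)
  have hG : Gx al Z X F t (x:ℂ) = ((Gx al Z X F t (x:ℂ)).re : ℂ) := by
    apply Complex.ext <;> simp [him x hx]
  set g := (Gx al Z X F t (x:ℂ)).re with hg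
  rw [hG]
  rcases eq_or_lt_of_le hx.1 with h1 | h1
  · have : g = 0 := by
      rw [hg, ← h1]
      push_cast
      rw [(d02_ends hF ht).2]; simp
    rw [this, ← h1]; simp
  rcases eq_or_lt_of_le hx.2 with h2 | h2
  · have : g = 0 := by
      rw [hg, h2]
      push_cast
      rw [(d02_ends hF ht).1]; simp
    rw [this, h2]; simp
  · have hp : 0 < 1 - x ^ 2 := by nlinarith
    have hb := Gx_bd_aux al hal (1/50000) (by norm_num) (by norm_num) Z X F h hF t ht (x:ℂ) (d02_ball ⟨h1, h2⟩)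
    obtain ⟨-, -, -, c1, c2, s1, s2⟩ := JJ_bounds hal
    rw [hG] at hb
    have e1 : ((g:ℂ) / (1 - (x:ℂ) ^ 2)) = ((g / (1 - x ^ 2) : ℝ) : ℂ) := by push_cast; ring
    rw [e1] at hb ⊢
    rw [← Complex.ofReal_pow, ← Complex.ofReal_sub, Complex.norm_real, Real.norm_eq_abs, abs_le] at hb
    have hq : 0 ≤ g / (1 - x ^ 2) := by nlinarith [hb.1]
    rw [show ((1:ℂ)/2) = ((1/2 : ℝ) : ℂ) by push_cast; ring, ← Complex.ofReal_cpow hq, ← Real.sqrt_eq_rpow]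
    push_cast
    rw [mul_assoc, ← Complex.ofReal_mul, ← Real.sqrt_mul hp.le]
    congr 3
    field_simp

end FB
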