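import Pool.Agent.H48.FB.D02
import Pool.Agent.H48.FB.B04

/-! D03: the moments `aj` (upper band) and `hj` (near the real axis) agree on `band 1 (3/2)`. -/

open Complex Set MeasureTheory Filter Topology

noncomputable section

namespace FB

/-! ### the curve `tau` -/

theorem d03_sinh {y : ℝ} (hy : 1 ≤ y) : 1.38 ≤ Real.sinh y ^ 2 := by
  have h1 : 1.1752 ≤ Real.sinh 1 := by
    rw [Real.sinh_eq]
    have h6 := Real.exp_one_gt_d9
    have h7 : Real.exp (-1) < 0.3678795 := by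
      rw [Real.exp_neg, inv_lt_comm₀ (Real.exp_pos _) (by norm_num)]
      refine lt_trans ?_ h6
      norm_num
    linarith
  have h2 : Real.sinh 1 ≤ Real.sinh y := Real.sinh_le_sinh.2 hy
  nlinarith

theorem d03_cos_sub {al s : ℝ} (hal : al ∈ JJ) (hs : s ∈ Icc (-al) al) :
    0.2 * (al ^ 2 - s ^ 2) ≤ Real.cos s - Real.cos al := by
  obtain ⟨hj1, hj2, hj3, hj4, hj5, hs1, hs2⟩ := JJ_bounds hal
  have h1 : Real.cos s - Real.cos al = 2 * Real.sin ((al + s) / 2) * Real.sin ((al - s) / 2) := by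
    have := Real.cos_sub_cos s al
    rw [this]
    have e1 : (s + al) / 2 = (al + s) / 2 := by ring
    have e2 : (s - al) / 2 = - ((al - s) / 2) := by ring
    rw [e1, e2, Real.sin_neg]
    ring
  have hpi := Real.pi_pos
  have hpi2 := Real.pi_lt_d2
  have ha : 0 ≤ (al + s) / 2 := by linarith [hs.1]
  have hb : 0 ≤ (al - s) / 2 := by linarith [hs.2]
  have h2 := Real.mul_le_sin ha (by linarith [hs.2])
  have h3 := Real.mul_le_sin hb (by linarith [hs.1])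
  have h4 : (2 / Real.pi * ((al + s) / 2)) * (2 / Real.pi * ((al - s) / 2)) ≤
      Real.sin ((al + s) / 2) * Real.sin ((al - s) / 2) :=
    mul_le_mul h2 h3 (by positivity) (le_trans (by positivity) h2)
  have h5 : (2 / Real.pi * ((al + s) / 2)) * (2 / Real.pi * ((al - s) / 2)) =
      (al ^ 2 - s ^ 2) / Real.pi ^ 2 := by
    field_simp
    ring
  have h6 : 0 ≤ al ^ 2 - s ^ 2 := by nlinarith [hs.1, hs.2]
  have h7 : 0.1 * (al ^ 2 - s ^ 2) ≤ (al ^ 2 - s ^ 2) / Real.pi ^ 2 := by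
    rw [le_div_iff₀ (by positivity)]
    have : Real.pi ^ 2 ≤ 10 := by nlinarith
    nlinarith
  rw [h1]
  rw [h5] at h4
  linarith

/-- the curve `tau` of the circle -/
theorem d03_tau_circle (al : ℝ) {t : ℂ} (s : ℂ) (hal : (Real.sin al : ℂ) ≠ 0) (ht : sin t ≠ 0) :
    tau al cos t s = (sin s * sin t - cos t * (cos s - (Real.cos al : ℂ))) / ((Real.sin al : ℂ) * sin t) := by
  have e := b01_circle al t
  obtain ⟨-, e2, e3, -⟩ := e
  unfold tau md df
  rw [e2, e3, Complex.cos_add]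
  field_simp
  ring

theorem d03_tau_circle_norm {al s : ℝ} (hal : al ∈ JJ) (hs : s ∈ Icc (-al) al) {t : ℂ} (ht : 1 ≤ t.im) :
    ‖tau al cos t (s:ℂ)‖ ^ 2 ≤ 1 - 0.03 * (al ^ 2 - s ^ 2) := by
  obtain ⟨hj1, hj2, hj3, hj4, hj5, hs1, hs2⟩ := JJ_bounds hal
  have hsal : (Real.sin al : ℂ) ≠ 0 := by
    rw [Ne, ofReal_eq_zero]
    linarith
  have hst : sin t ≠ 0 := sin_ne_zero_of_im (by linarith)
  rw [d03_tau_circle al (s:ℂ) hsal hst, norm_div, div_pow, norm_mul, mul_pow, b01_sin_sq, norm_real,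
    Real.norm_of_nonneg (by linarith)]
  set x := t.re with hx
  set y := t.im with hy
  set D := Real.cos s - Real.cos al with hD
  have hsin : sin t = ((Real.sin x * Real.cosh y : ℝ) : ℂ) +
      ((Real.cos x * Real.sinh y : ℝ) : ℂ) * I := by
    rw [Complex.sin_eq t]
    push_cast
    ring
  have hcos : cos t = ((Real.cos x * Real.cosh y : ℝ) : ℂ) +
      ((- (Real.sin x * Real.sinh y) : ℝ) : ℂ) * I := by
    rw [Complex.cos_eq t]
    push_cast
    ring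
  have hN : sin (s:ℂ) * sin t - cos t * (cos (s:ℂ) - (Real.cos al : ℂ)) =
      ((Real.cosh y * (Real.sin s * Real.sin x - D * Real.cos x) : ℝ) : ℂ) +
      ((Real.sinh y * (Real.sin s * Real.cos x + D * Real.sin x) : ℝ) : ℂ) * I := by
    rw [hsin, hcos, hD]
    push_cast
    ring
  rw [hN, ← Complex.normSq_eq_norm_sq, Complex.normSq_add_mul_I]
  have hq := d03_sinh ht
  have hch := Real.cosh_sq y
  have hD0 := d03_cos_sub hal hs
  rw [← hD] at hD0
  have hw : 0 ≤ al ^ 2 - s ^ 2 := by nlinarith [hs.1, hs.2]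
  set w := al ^ 2 - s ^ 2 with hw'
  have hx1 := Real.sin_sq_add_cos_sq x
  have hs1' := Real.sin_sq_add_cos_sq s
  have ha1 := Real.sin_sq_add_cos_sq al
  rw [div_le_iff₀ (by
    have : 0 < Real.sin al ^ 2 := by nlinarith
    have : 0 < Real.sin x ^ 2 + Real.sinh y ^ 2 := by nlinarith [sq_nonneg (Real.sin x)]
    positivity)]
  have hid : Real.sin al ^ 2 * (Real.sin x ^ 2 + Real.sinh y ^ 2) -
      ((Real.cosh y * (Real.sin s * Real.sin x - D * Real.cos x)) ^ 2 +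
        (Real.sinh y * (Real.sin s * Real.cos x + D * Real.sin x)) ^ 2) =
      D * (Real.cos al * (1 + 2 * Real.sinh y ^ 2) - Real.cos (2 * x + s)) := by
    rw [mul_pow, hch, Real.cos_add, Real.cos_two_mul, Real.sin_two_mul, hD]
    have e1 : Real.sin al ^ 2 = 1 - Real.cos al ^ 2 := by linarith
    have e2 : Real.sin x ^ 2 = 1 - Real.cos x ^ 2 := by linarith
    have e3 : Real.sin s ^ 2 = 1 - Real.cos s ^ 2 := by linarith
    ring_nf
    simp only [e1, e2, e3]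
    ring
  have hc2 := Real.cos_le_one (2 * x + s)
  have hsx : Real.sin x ^ 2 ≤ 1 := by nlinarith [sq_nonneg (Real.cos x)]
  set q := Real.sinh y ^ 2 with hq'
  have hB : 0.72 * q - 0.64 ≤ Real.cos al * (1 + 2 * q) - Real.cos (2 * x + s) := by nlinarith
  have hD1 : (0.2 * w) * (0.72 * q - 0.64) ≤ D * (Real.cos al * (1 + 2 * q) - Real.cos (2 * x + s)) :=
    mul_le_mul hD0 hB (by nlinarith) (le_trans (by positivity) hD0)
  have hsa : Real.sin al ^ 2 ≤ 0.8836 := by nlinarith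
  have hlast : 0.03 * w * (Real.sin al ^ 2 * (Real.sin x ^ 2 + q)) ≤ 0.03 * w * (0.8836 * (1 + q)) := by
    have : Real.sin al ^ 2 * (Real.sin x ^ 2 + q) ≤ 0.8836 * (1 + q) :=
      mul_le_mul hsa (by linarith) (by positivity) (by norm_num)
    exact mul_le_mul_of_nonneg_left this (by positivity)
  have hfin : 0.03 * w * (0.8836 * (1 + q)) ≤ (0.2 * w) * (0.72 * q - 0.64) := by nlinarith
  nlinarith

theorem d03_tau_deriv {al a b : ℝ} {Z : ℂ → ℂ} (hZ : DifferentiableOn ℂ Z (band a b)) {t : ℂ} (ht : t ∈ band a b)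
    (s : ℝ) : HasDerivAt (fun s : ℝ => tau al Z t (s:ℂ)) (deriv Z (t + (s:ℂ)) / df al Z t) s := by
  have h1 : HasDerivAt Z (deriv Z (t + (s:ℂ))) (t + (s:ℂ)) :=
    (hZ.differentiableAt ((isOpen_band a b).mem_nhds (add_real_mem_band ht s))).hasDerivAt
  have h2 : HasDerivAt (fun s : ℂ => Z (t + s)) (deriv Z (t + (s:ℂ))) (s:ℂ) := h1.comp_const_add t (s:ℂ)
  exact (h2.comp_ofReal.sub_const _).div_const _

theorem d03_tau_al {al : ℝ} {Z : ℂ → ℂ} {t : ℂ} (h : df al Z t ≠ 0) :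
    tau al Z t (al:ℂ) = 1 ∧ tau al Z t ((-al : ℝ):ℂ) = -1 := by
  have h1 : Z (t + (al:ℂ)) = md al Z t + df al Z t := by simp only [md, df]; ring
  have h2 : Z (t - (al:ℂ)) = md al Z t - df al Z t := by simp only [md, df]; ring
  constructor
  · rw [tau, h1]
    field_simp
    ring
  · rw [tau, ofReal_neg, ← sub_eq_add_neg, h2]
    field_simp
    ring

theorem d03_sin_norm {t : ℂ} (h1 : 1 ≤ t.im) : 1.17 ≤ ‖sin t‖ := by
  have h2 := sin_im_ge h1
  have h3 := norm_nonneg (sin t)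
  nlinarith

theorem d03_sin_upper {t : ℂ} (h1 : 1 ≤ t.im) (h2 : t.im ≤ 3/2) : ‖sin t‖ ≤ 4.5 := by
  refine (b01_norm_sin t).trans ?_
  rw [abs_of_nonneg (by linarith)]
  refine (Real.exp_le_exp.2 h2).trans ?_
  have h3 := Real.exp_one_lt_d9
  have h4 : Real.exp (3/2) ^ 2 = Real.exp 1 ^ 3 := by
    rw [← Real.exp_nat_mul, ← Real.exp_nat_mul]
    norm_num
  have h5 := Real.exp_pos (3/2)
  have h7 := Real.exp_pos 1
  have h6 : Real.exp 1 ^ 3 ≤ 2.72 ^ 3 := pow_le_pow_left₀ h7.le (by linarith) 3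
  nlinarith

/-- `df` is close to the circle value, and not small -/
theorem d03_df {c a b al : ℝ} {Z X : ℂ → ℂ} (h : NB c a b Z X) (ha : 1 ≤ a) (hc : c ≤ 1/1800) (hal : al ∈ JJ)
    {t : ℂ} (ht : t ∈ band a b) : ‖df al Z t - df al cos t‖ ≤ c ∧ 1.07 ≤ ‖df al cos t‖ ∧ 1.06 ≤ ‖df al Z t‖ := by
  obtain ⟨hj1, hj2, hj3, hj4, hj5, hs1, hs2⟩ := JJ_bounds hal
  have h1 := (b01_half (h.z0 _ (add_real_mem_band ht al)) (h.z0 _ (sub_real_mem_band ht al))).1
  have h2 : 1.07 ≤ ‖df al cos t‖ := by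
    obtain ⟨-, e2, -, -⟩ := b01_circle al t
    have e : df al cos t = -((Real.sin al : ℂ) * sin t) := e2
    rw [e, norm_neg, norm_mul, norm_real, Real.norm_of_nonneg (by linarith)]
    have h3 := d03_sin_norm (show 1 ≤ t.im by linarith [ht.1])
    nlinarith
  refine ⟨h1, h2, ?_⟩
  have h3 := norm_sub_norm_le (df al cos t) (df al Z t)
  rw [norm_sub_rev] at h3
  have h1' : ‖df al Z t - df al cos t‖ ≤ c := h1
  linarith

/-- the curve `s ↦ tau` stays inside the unit disc. Circle: `tau = [sin s - cot t * D]/sin al`, `D = cos s - cos al ≥ 0`. With `t = x + i y`,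
`C = cosh 2y ≥ cosh 2 > 3.76`, `κ = cos 2x`: `|cot t|^2 = (C+κ)/(C-κ)`, `p = Re cot t = sin 2x/(C-κ)`, so
`|tau|^2 sin^2 al = sin^2 s - 2 p D sin s + |cot t|^2 D^2` and, as `sin^2 al - sin^2 s = D (cos s + cos al)`,
`(1 - |tau|^2) sin^2 al ≥ D * [cos s + cos al - 2 |p| |sin s| - |cot t|^2 (cos s - cos al)]`, where
`[..] * (C-κ)/2 = C cos al - κ cos s - |sin 2x| |sin s| ≥ C cos al - 1 ≥ 0.36 * 3.76 - 1 > 0.35` (Cauchy-Schwarz). Also
`D ≥ (sin al/(2 al)) (al^2 - s^2)`. For a curve near the circle: `tau - tau_circle` vanishes at `s = ± al` and has derivative `O(c)`, so it is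
`O(c) min(al - s, al + s) ≤ O(c) (al^2 - s^2)`. -/
theorem tau_in_disc : ∃ c0 c1 : ℝ, 0 < c0 ∧ 0 < c1 ∧ ∀ al ∈ JJ, ∀ Z X : ℂ → ℂ, NB c0 1 (3/2) Z X → ∀ t ∈ band 1 (3/2),
    ∀ s ∈ Icc (-al) al, ‖tau al Z t (s:ℂ)‖ ^ 2 ≤ 1 - c1 * (al ^ 2 - s ^ 2) := by
  refine ⟨1/1800, 0.02, by norm_num, by norm_num, fun al hal Z X hN t ht s hs => ?_⟩
  obtain ⟨hj1, hj2, hj3, hj4, hj5, hs1, hs2⟩ := JJ_bounds hal
  obtain ⟨hd1, hd2, hd3⟩ := d03_df hN le_rfl le_rfl hal ht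
  have hdZ : df al Z t ≠ 0 := by
    intro h0
    rw [h0, norm_zero] at hd3
    norm_num at hd3
  have hdc : df al cos t ≠ 0 := by
    intro h0
    rw [h0, norm_zero] at hd2
    norm_num at hd2
  have hder : ∀ x : ℝ, HasDerivAt (fun s : ℝ => tau al Z t (s:ℂ) - tau al cos t (s:ℂ))
      (deriv Z (t + (x:ℂ)) / df al Z t - deriv cos (t + (x:ℂ)) / df al cos t) x :=
    fun x => (d03_tau_deriv hN.dZ ht x).sub
      (d03_tau_deriv (a := 1) (b := 3/2) (differentiable_cos.differentiableOn) ht x)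
  have hbd : ∀ x : ℝ, ‖deriv Z (t + (x:ℂ)) / df al Z t - deriv cos (t + (x:ℂ)) / df al cos t‖ ≤ 6 * (1/1800) := by
    intro x
    have him : (t + (x:ℂ)).im = t.im := add_real_im t x
    have h1 := hN.z1 _ (add_real_mem_band ht x)
    have h2 := d03_sin_upper (t := t + (x:ℂ)) (by rw [him]; linarith [ht.1]) (by rw [him]; linarith [ht.2])
    rw [Complex.deriv_cos]
    have e : deriv Z (t + (x:ℂ)) / df al Z t - -sin (t + (x:ℂ)) / df al cos t =
        (deriv Z (t + (x:ℂ)) + sin (t + (x:ℂ))) / df al Z t +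
        (sin (t + (x:ℂ)) / df al Z t) * ((df al Z t - df al cos t) / df al cos t) := by
      field_simp
      ring
    rw [e]
    refine (norm_add_le _ _).trans ?_
    rw [norm_div, norm_mul, norm_div, norm_div]
    have h3 : ‖deriv Z (t + (x:ℂ)) + sin (t + (x:ℂ))‖ / ‖df al Z t‖ ≤ (1/1800) / 1.06 := by gcongr
    have h4 : ‖sin (t + (x:ℂ))‖ / ‖df al Z t‖ ≤ 4.5 / 1.06 := by gcongr
    have h5 : ‖df al Z t - df al cos t‖ / ‖df al cos t‖ ≤ (1/1800) / 1.07 := by gcongr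
    have h6 : ‖sin (t + (x:ℂ))‖ / ‖df al Z t‖ * (‖df al Z t - df al cos t‖ / ‖df al cos t‖) ≤
        4.5 / 1.06 * ((1/1800) / 1.07) :=
      mul_le_mul h4 h5 (by positivity) (by norm_num)
    norm_num at h3 h6 ⊢
    linarith
  have hmv : ∀ x y : ℝ, ‖(tau al Z t (y:ℂ) - tau al cos t (y:ℂ)) - (tau al Z t (x:ℂ) - tau al cos t (x:ℂ))‖ ≤
      6 * (1/1800) * ‖y - x‖ := by
    intro x y
    exact convex_univ.norm_image_sub_le_of_norm_hasDerivWithin_le
      (f := fun s : ℝ => tau al Z t (s:ℂ) - tau al cos t (s:ℂ))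
      (fun x _ => (hder x).hasDerivWithinAt) (fun x _ => hbd x) (mem_univ x) (mem_univ y)
  obtain ⟨hz1, hz2⟩ := d03_tau_al hdZ
  obtain ⟨hc1, hc2⟩ := d03_tau_al hdc
  have hδ1 : ‖tau al Z t (s:ℂ) - tau al cos t (s:ℂ)‖ ≤ 6 * (1/1800) * (al - s) := by
    have := hmv al s
    rw [hz1, hc1, sub_self, sub_zero] at this
    rwa [Real.norm_eq_abs, abs_sub_comm, abs_of_nonneg (by linarith [hs.2])] at this
  have hδ2 : ‖tau al Z t (s:ℂ) - tau al cos t (s:ℂ)‖ ≤ 6 * (1/1800) * (al + s) := by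
    have := hmv (-al) s
    rw [hz2, hc2, sub_self, sub_zero] at this
    rw [Real.norm_eq_abs, abs_of_nonneg (by linarith [hs.1])] at this
    have e : s - -al = al + s := by ring
    rwa [e] at this
  set δ := ‖tau al Z t (s:ℂ) - tau al cos t (s:ℂ)‖ with hδ
  have hδ0 : 0 ≤ δ := norm_nonneg _
  have hw : 0 ≤ al ^ 2 - s ^ 2 := by nlinarith [hs.1, hs.2]
  have hδw : δ ≤ 6 * (1/1800) * (al ^ 2 - s ^ 2) := by
    rcases le_total 0 s with h | h
    · have : (al - s) * 1 ≤ (al - s) * (al + s) := mul_le_mul_of_nonneg_left (by linarith) (by linarith [hs.2])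
      nlinarith
    · have : (al + s) * 1 ≤ (al + s) * (al - s) := mul_le_mul_of_nonneg_left (by linarith) (by linarith [hs.1])
      nlinarith
  have htc := d03_tau_circle_norm hal hs (show 1 ≤ t.im by linarith [ht.1])
  set T := ‖tau al cos t (s:ℂ)‖ with hT
  have hT0 : 0 ≤ T := norm_nonneg _
  have hT1 : T ≤ 1 := by nlinarith
  have hn : ‖tau al Z t (s:ℂ)‖ ≤ T + δ := by
    have := norm_add_le (tau al cos t (s:ℂ)) (tau al Z t (s:ℂ) - tau al cos t (s:ℂ))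
    rwa [add_sub_cancel] at this
  have hn0 := norm_nonneg (tau al Z t (s:ℂ))
  have hsq : ‖tau al Z t (s:ℂ)‖ ^ 2 ≤ (T + δ) ^ 2 := pow_le_pow_left₀ hn0 hn 2
  have hδs : δ ≤ 1 := by
    have : al ^ 2 - s ^ 2 ≤ 1.44 := by nlinarith [sq_nonneg s]
    nlinarith
  have h2 : T * δ ≤ 1 * δ := mul_le_mul_of_nonneg_right hT1 hδ0
  have h3 : δ * δ ≤ 1 * δ := mul_le_mul_of_nonneg_right hδs hδ0
  nlinarith

/-! ### the ordinate -/

theorem d03_chord {nzv nxv etv zm xm zd xd z x y2 : ℂ} (hnz : nzv = xd) (hnx : nxv = -zd) (hzd : zd ≠ 0)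
    (het : etv = nzv * zm + nxv * xm) (hy : y2 * (nxv * x) = nzv * z + nxv * x - etv) :
    x * (1 - y2) = xm + (z - zm) / zd * xd := by
  subst hnz hnx
  have h1 : zd * (x * (1 - y2)) = zd * (xm + (z - zm) / zd * nzv) := by
    have h2 : zd * (xm + (z - zm) / zd * nzv) = zd * xm + (z - zm) * nzv := by
      field_simp
    rw [h2]
    rw [het] at hy
    linear_combination hy
  exact mul_left_cancel₀ hzd h1

theorem d03_df_nx (al : ℝ) (Z : ℂ → ℂ) (t : ℂ) : df al Z t = - nx al Z t := by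
  unfold nx
  ring

/-- `(X U)^2 = X^2 - c^2 = G(tau)` where `c = X (1 - y^2) = x_m + tau x_d` is the chord ordinate at height `Z(t+s) = z_m + tau z_d`. -/
theorem XU_sq : ∃ c0 : ℝ, 0 < c0 ∧ ∀ al ∈ JJ, ∀ Z X F : ℂ → ℂ, NB c0 (-2) 2 Z X → Sym 2 Z X → FOk c0 Z X F → ∀ t ∈ band 1 (3/2),
    ∀ s ∈ Ioo (-al) al, (X (t + s) * Uf (yy al Z X t (s:ℂ))) ^ 2 = Gx al Z X F t (tau al Z t (s:ℂ)) := by
  obtain ⟨c1, hc1, H1⟩ := yy_basic (3/2) (by norm_num)
  refine ⟨c1, hc1, fun al hal Z X F hN hS hF t ht s hs => ?_⟩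
  obtain ⟨hy0, hy1, -, hnx, hX, heq, -⟩ := H1 al hal 1 (3/2) le_rfl le_rfl Z X
    (hN.mono le_rfl (by norm_num) (by norm_num)) t ht s hs
  have hzd : df al Z t ≠ 0 := by
    rw [d03_df_nx]
    exact neg_ne_zero.2 hnx
  have hch := d03_chord (nzv := nz al X t) (nxv := nx al Z t) (etv := et al Z X t) (zm := md al Z t)
      (xm := md al X t) (zd := df al Z t) (xd := df al X t) (z := Z (t + (s:ℂ))) (x := X (t + (s:ℂ)))
      (y2 := yy al Z X t (s:ℂ) ^ 2) rfl rfl hzd rfl ((eq_div_iff (mul_ne_zero hnx hX)).1 heq)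
  have hU := Uf_sq (y := yy al Z X t (s:ℂ)) (by linarith)
  have htau : (Z (t + (s:ℂ)) - md al Z t) / df al Z t = tau al Z t (s:ℂ) := rfl
  rw [htau] at hch
  have hZ : md al Z t + tau al Z t (s:ℂ) * df al Z t = Z (t + (s:ℂ)) := by
    rw [tau]
    field_simp
    ring
  have hv := (hF.v (t + (s:ℂ)) (by
    have := add_real_mem_band ht s
    exact band_subset (by norm_num) (by norm_num) this)).2
  rw [Gx, hZ, hv, ← hch, mul_pow, hU]
  ring

/-- continuity of the right hand side in `s` -/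
theorem d03_rhs {al : ℝ} {Z X F : ℂ → ℂ} {t : ℂ} {s : ℝ} (hτ : ‖tau al Z t (s:ℂ)‖ < 1)
    (hτc : ContinuousAt (fun s : ℝ => tau al Z t (s:ℂ)) s)
    (hG : DifferentiableOn ℂ (fun x => Gx al Z X F t x / (1 - x ^ 2)) (Metric.ball 0 1))
    (hsl : ∀ x ∈ Metric.ball (0:ℂ) 1, Gx al Z X F t x / (1 - x ^ 2) ∈ slitPlane) :
    ContinuousAt (fun s : ℝ => (1 - tau al Z t (s:ℂ) ^ 2) ^ ((1:ℂ)/2) *
      (Gx al Z X F t (tau al Z t (s:ℂ)) / (1 - tau al Z t (s:ℂ) ^ 2)) ^ ((1:ℂ)/2)) s := by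
  have hmem : tau al Z t (s:ℂ) ∈ Metric.ball (0:ℂ) 1 := by
    rw [mem_ball_zero_iff]
    exact hτ
  have h1 : ContinuousAt (fun x : ℂ => (1 - x ^ 2) ^ ((1:ℂ)/2) * (Gx al Z X F t x / (1 - x ^ 2)) ^ ((1:ℂ)/2))
      (tau al Z t (s:ℂ)) := by
    refine ContinuousAt.mul ?_ ?_
    · refine ContinuousAt.cpow (by fun_prop) continuousAt_const ?_
      rw [mem_slitPlane_iff]
      left
      have : (tau al Z t (s:ℂ) ^ 2).re ≤ ‖tau al Z t (s:ℂ) ^ 2‖ := Complex.re_le_norm _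
      rw [norm_pow] at this
      have h0 := norm_nonneg (tau al Z t (s:ℂ))
      rw [Complex.sub_re, Complex.one_re]
      nlinarith
    · exact ((hG.differentiableAt (Metric.isOpen_ball.mem_nhds hmem)).continuousAt).cpow continuousAt_const
        (hsl _ hmem)
  exact ContinuousAt.comp (f := fun s : ℝ => tau al Z t (s:ℂ)) h1 hτc

theorem d03_sqrt_ne {z : ℂ} (hz : z ≠ 0) : z ^ ((1:ℂ)/2) ≠ 0 := by
  rw [cpow_def_of_ne_zero hz]
  exact exp_ne_zero _

/-- `q0 t 0 = 1 / sin t` -/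
theorem d03_q0 {t : ℂ} (ht : 1 ≤ t.im) : q0 t 0 = 1 / sin t := by
  have h0 := norm_exp_two_lt ht
  have hq : q0 t 0 = -2 * I * exp (I * t) * ((1 - exp (2 * I * t)) ^ 2) ^ (-((1:ℂ)/2)) := by
    unfold q0
    rw [add_zero, zero_div, add_zero, sq]
  have hre : 0 < (1 - exp (2 * I * t)).re := by
    have := (Complex.re_le_norm (exp (2 * I * t)))
    rw [Complex.sub_re, Complex.one_re]
    linarith
  have hne : 1 - exp (2 * I * t) ≠ 0 := by
    intro h
    rw [h] at hre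
    simp at hre
  have hpow : ((1 - exp (2 * I * t)) ^ 2) ^ (-((1:ℂ)/2)) = (1 - exp (2 * I * t))⁻¹ := by
    have h1 : ((1 - exp (2 * I * t)) ^ 2) ^ ((1:ℂ)/2) = 1 - exp (2 * I * t) := by
      have h2 := Complex.sq_cpow_two_inv hre
      rw [one_div]
      exact h2
    rw [cpow_neg, h1]
  have hsin : sin t = I / 2 * exp (-(I * t)) * (1 - exp (2 * I * t)) := sin_eq_exp t
  have hs0 : sin t ≠ 0 := sin_ne_zero_of_im (by linarith)
  rw [hq, hpow, eq_div_iff hs0, hsin]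
  have he : exp (I * t) * exp (-(I * t)) = 1 := by
    rw [← Complex.exp_add, add_neg_cancel, Complex.exp_zero]
  have hI : I * I = -1 := Complex.I_mul_I
  field_simp
  linear_combination (-1:ℂ) * (exp (I * t) * exp (-(I * t))) * hI + he

/-- the sign at `s = 0` -/
theorem d03_sign {k : ℝ} (hk : 0 < k) {σ : ℝ} (hσ1 : 0.92 < σ) (hσ2 : σ < 0.94) {ξ ρ r g a : ℂ}
    (hξ : ‖ξ - 1‖ ≤ 1/100) (hρ : ‖ρ - 1‖ ≤ 4/100) (hr : ‖r - (Real.sqrt 2 : ℂ)‖ ≤ 4/10)
    (hg : ‖g - (σ : ℂ)‖ ≤ 2/100) (ha : 0 ≤ a.re) (h : (k:ℂ) * (ξ * ρ * r) = -(a * g)) : False := by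
  have hs2 : 1.414 < Real.sqrt 2 := by
    rw [show (1.414:ℝ) = Real.sqrt (1.414 ^ 2) by rw [Real.sqrt_sq (by norm_num)]]
    exact Real.sqrt_lt_sqrt (by norm_num) (by norm_num)
  have hs2' : Real.sqrt 2 < 1.4143 := by
    rw [Real.sqrt_lt' (by norm_num)]
    norm_num
  have hgn : 0.9 ≤ ‖g‖ := by
    have := norm_sub_norm_le (σ:ℂ) g
    rw [norm_sub_rev, norm_real, Real.norm_of_nonneg (by linarith)] at this
    linarith
  have hg0 : g ≠ 0 := by
    intro h0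
    rw [h0, norm_zero] at hgn
    norm_num at hgn
  -- a * ‖g‖^2 = - k ξ ρ r conj g
  have h1 : a * ((‖g‖ ^ 2 : ℝ) : ℂ) = -((k:ℂ) * (ξ * ρ * r * (starRingEnd ℂ) g)) := by
    have h2 : ((‖g‖ ^ 2 : ℝ) : ℂ) = g * (starRingEnd ℂ) g := by
      rw [Complex.mul_conj, Complex.normSq_eq_norm_sq]
    rw [h2]
    linear_combination ((starRingEnd ℂ) g) * h
  have hP : 0 < (ξ * ρ * r * (starRingEnd ℂ) g).re := by
    -- close to sqrt 2 * σ
    have e1 : ξ * ρ * r * (starRingEnd ℂ) g - ((Real.sqrt 2 * σ : ℝ) : ℂ) =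
        (ξ * ρ - 1) * (r * (starRingEnd ℂ) g) + (r - (Real.sqrt 2 : ℂ)) * (starRingEnd ℂ) g +
          (Real.sqrt 2 : ℂ) * ((starRingEnd ℂ) g - (σ:ℂ)) := by
      push_cast
      ring
    have hcg : ‖(starRingEnd ℂ) g‖ ≤ 0.96 := by
      rw [Complex.norm_conj]
      have := norm_sub_norm_le g (σ:ℂ)
      rw [norm_real, Real.norm_of_nonneg (by linarith)] at this
      linarith
    have hcg2 : ‖(starRingEnd ℂ) g - (σ:ℂ)‖ ≤ 2/100 := by
      have : (starRingEnd ℂ) g - (σ:ℂ) = (starRingEnd ℂ) (g - (σ:ℂ)) := by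
        rw [map_sub, Complex.conj_ofReal]
      rw [this, Complex.norm_conj]
      exact hg
    have hrn : ‖r‖ ≤ 1.82 := by
      have := norm_sub_norm_le r (Real.sqrt 2 : ℂ)
      rw [norm_real, Real.norm_of_nonneg (by positivity)] at this
      linarith
    have hxr : ‖ξ * ρ - 1‖ ≤ 0.051 := by
      have e2 : ξ * ρ - 1 = (ξ - 1) * (ρ - 1) + (ξ - 1) + (ρ - 1) := by ring
      rw [e2]
      refine (norm_add₃_le).trans ?_
      rw [norm_mul]
      have : ‖ξ - 1‖ * ‖ρ - 1‖ ≤ 1/100 * (4/100) := mul_le_mul hξ hρ (norm_nonneg _) (by norm_num)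
      linarith
    have h3 : ‖(ξ * ρ - 1) * (r * (starRingEnd ℂ) g)‖ ≤ 0.051 * (1.82 * 0.96) := by
      rw [norm_mul, norm_mul]
      gcongr
    have h4 : ‖(r - (Real.sqrt 2 : ℂ)) * (starRingEnd ℂ) g‖ ≤ 4/10 * 0.96 := by
      rw [norm_mul]
      gcongr
    have h5 : ‖(Real.sqrt 2 : ℂ) * ((starRingEnd ℂ) g - (σ:ℂ))‖ ≤ 1.4143 * (2/100) := by
      rw [norm_mul, norm_real, Real.norm_of_nonneg (by positivity)]
      gcongr
    have h6 : ‖ξ * ρ * r * (starRingEnd ℂ) g - ((Real.sqrt 2 * σ : ℝ) : ℂ)‖ ≤ 0.6 := by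
      rw [e1]
      refine (norm_add₃_le).trans ?_
      norm_num at h3 h4 h5 ⊢
      linarith
    have h7 := (abs_le.1 ((Complex.abs_re_le_norm _).trans h6)).1
    rw [Complex.sub_re, Complex.ofReal_re] at h7
    nlinarith
  have h2 := congrArg Complex.re h1
  rw [Complex.re_mul_ofReal, Complex.neg_re, Complex.re_ofReal_mul] at h2
  have h3 : 0 ≤ a.re * ‖g‖ ^ 2 := by positivity
  have h4 : 0 < k * (ξ * ρ * r * (starRingEnd ℂ) g).re := mul_pos hk hP
  linarith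

theorem d03_rho {x n u : ℂ} (hx : ‖x - 1‖ ≤ 1/100) (hn : ‖n - 1‖ ≤ 1/100) (hu : ‖u - 1‖ ≤ 1/100) :
    ‖x / (n * u) - 1‖ ≤ 4/100 := by
  have e1 : n * u - 1 = (n - 1) * (u - 1) + (n - 1) + (u - 1) := by ring
  have h1 : ‖n * u - 1‖ ≤ 0.0201 := by
    rw [e1]
    refine (norm_add₃_le).trans ?_
    rw [norm_mul]
    have : ‖n - 1‖ * ‖u - 1‖ ≤ 1/100 * (1/100) := mul_le_mul hn hu (norm_nonneg _) (by norm_num)
    linarith
  have h2 : 0.97 ≤ ‖n * u‖ := by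
    have := norm_sub_norm_le 1 (n * u)
    rw [norm_sub_rev, norm_one] at this
    linarith
  have h3 : n * u ≠ 0 := by
    intro h0
    rw [h0, norm_zero] at h2
    norm_num at h2
  have e2 : x / (n * u) - 1 = ((x - 1) - (n * u - 1)) / (n * u) := by
    rw [sub_sub_sub_cancel_right, sub_div, div_self h3]
  rw [e2, norm_div, div_le_iff₀ (by linarith)]
  refine (norm_sub_le _ _).trans ?_
  linarith

/-- the product of roots on the disc is bounded and analytic -/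
theorem d03_slit {z : ℂ} {σ : ℝ} (hσ : 0.92 < σ) (h : ‖z - (σ:ℂ) ^ 2‖ ≤ 1/100) : z ∈ slitPlane := by
  rw [mem_slitPlane_iff]
  left
  have h1 := (abs_le.1 ((Complex.abs_re_le_norm _).trans h)).1
  rw [Complex.sub_re, ← Complex.ofReal_pow, Complex.ofReal_re] at h1
  nlinarith

/-- Both sides squared agree (`XU_sq`, `Gx = (1 - x^2) * (Gx/(1-x^2))`), both are continuous and nonvanishing in `s ∈ (-al, al)`, so the quotient is
constantly `1` or `-1`; at `s = 0` both are close to the circle values: `X U = k sqrt(2 - k^2/sin^2 t)`, `k^2 = 1 - cos al` (positive real part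
bounded below), and `sqrt(1 - tau^2) sin al` (positive real part). -/
theorem XU_eq : ∃ c0 : ℝ, 0 < c0 ∧ ∀ al ∈ JJ, ∀ Z X F : ℂ → ℂ, NB c0 (-2) 2 Z X → Sym 2 Z X → FOk c0 Z X F → ∀ t ∈ band 1 (3/2),
    ∀ s ∈ Ioo (-al) al, X (t + s) * Uf (yy al Z X t (s:ℂ)) = (1 - tau al Z t (s:ℂ) ^ 2) ^ ((1:ℂ)/2) *
      (Gx al Z X F t (tau al Z t (s:ℂ)) / (1 - tau al Z t (s:ℂ) ^ 2)) ^ ((1:ℂ)/2) := by
  obtain ⟨c1, hc1, H1⟩ := yy_basic (3/2) (by norm_num)
  obtain ⟨c2, C2, hc2, hC2, hCc2, H2⟩ := chord_bd (3/2) (by norm_num)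
  obtain ⟨c3, e3, hc3, he3, H3⟩ := tau_in_disc
  obtain ⟨c4, hc4, H4⟩ := XU_sq
  obtain ⟨c5, C5, hc5, hC5, hCc5, H5⟩ := Gx_bd
  refine ⟨min (min (min c1 c2) (min c3 c4)) c5, by positivity, fun al hal Z X F hN hS hF t ht s hs => ?_⟩
  obtain ⟨hj1, hj2, hj3, hj4, hj5, hs1, hs2⟩ := JJ_bounds hal
  have hal0 : 0 < al := by linarith
  have l1 : min (min (min c1 c2) (min c3 c4)) c5 ≤ c1 :=
    (min_le_left _ _).trans ((min_le_left _ _).trans (min_le_left _ _))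
  have l2 : min (min (min c1 c2) (min c3 c4)) c5 ≤ c2 :=
    (min_le_left _ _).trans ((min_le_left _ _).trans (min_le_right _ _))
  have l3 : min (min (min c1 c2) (min c3 c4)) c5 ≤ c3 :=
    (min_le_left _ _).trans ((min_le_right _ _).trans (min_le_left _ _))
  have l4 : min (min (min c1 c2) (min c3 c4)) c5 ≤ c4 :=
    (min_le_left _ _).trans ((min_le_right _ _).trans (min_le_right _ _))
  have l5 : min (min (min c1 c2) (min c3 c4)) c5 ≤ c5 := min_le_right _ _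
  have hFm : ∀ {c c' : ℝ}, FOk c Z X F → c ≤ c' → FOk c' Z X F :=
    fun h hc => ⟨h.d, fun z hz => (h.n z hz).trans hc, h.e, h.v⟩
  have hNb : ∀ c, min (min (min c1 c2) (min c3 c4)) c5 ≤ c → NB c 1 (3/2) Z X :=
    fun c hc => hN.mono hc (by norm_num) (by norm_num)
  have hY := fun s hs => H1 al hal 1 (3/2) le_rfl le_rfl Z X (hNb c1 l1) t ht s hs
  have hT := fun s hs => H3 al hal Z X (hNb c3 l3) t ht s hs
  have hSq := fun s hs => H4 al hal Z X F (hN.mono l4 le_rfl le_rfl) hS (hFm hF l4) t ht s hs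
  obtain ⟨hG1, hG2, -, -, -⟩ := H5 al hal c5 hc5.le le_rfl Z X F (hN.mono l5 le_rfl le_rfl) hS (hFm hF l5) t
    (band_subset (by norm_num) (by norm_num) ht)
  have hτ : ∀ s ∈ Ioo (-al) al, ‖tau al Z t (s:ℂ)‖ < 1 := by
    intro s hs
    have h1 := hT s ⟨hs.1.le, hs.2.le⟩
    have h2 : 0 < al ^ 2 - s ^ 2 := by nlinarith [hs.1, hs.2]
    have h3 : ‖tau al Z t (s:ℂ)‖ ^ 2 < 1 := by nlinarith
    have h4 := norm_nonneg (tau al Z t (s:ℂ))
    nlinarith
  have hmem : ∀ s ∈ Ioo (-al) al, tau al Z t (s:ℂ) ∈ Metric.ball (0:ℂ) 1 := by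
    intro s hs
    rw [mem_ball_zero_iff]
    exact hτ s hs
  have h1ne : ∀ s ∈ Ioo (-al) al, (1 - tau al Z t (s:ℂ) ^ 2) ≠ 0 := by
    intro s hs h0
    have h1 : tau al Z t (s:ℂ) ^ 2 = 1 := (sub_eq_zero.1 h0).symm
    have h2 := congrArg norm h1
    rw [norm_pow, norm_one] at h2
    have h3 := hτ s hs
    have h4 := norm_nonneg (tau al Z t (s:ℂ))
    nlinarith
  have hsl : ∀ x ∈ Metric.ball (0:ℂ) 1, Gx al Z X F t x / (1 - x ^ 2) ∈ slitPlane :=
    fun x hx => d03_slit hs1 ((hG1 x hx).trans hCc5)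
  have hfc : ContinuousOn (fun s : ℝ => X (t + (s:ℂ)) * Uf (yy al Z X t (s:ℂ))) (Ioo (-al) al) := by
    intro s hs
    obtain ⟨hy0, hy1, -, -, -, -, -, hyc, -⟩ := hY s hs
    have h1 : ContinuousAt X (t + (s:ℂ)) := by
      have := (hNb c1 l1).dX.differentiableAt ((isOpen_band 1 (3/2)).mem_nhds (add_real_mem_band ht s))
      exact this.continuousAt
    have h2 : ContinuousAt (fun s : ℝ => X (t + (s:ℂ))) s :=
      ContinuousAt.comp (f := fun s : ℝ => t + (s:ℂ)) h1 (by fun_prop)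
    have h3 : ContinuousAt (fun s : ℝ => Uf (yy al Z X t (s:ℂ))) s :=
      ContinuousAt.comp (f := fun s : ℝ => yy al Z X t (s:ℂ)) (hasDerivAt_Uf (by linarith)).continuousAt hyc
    exact (h2.mul h3).continuousWithinAt
  have hgc : ContinuousOn (fun s : ℝ => (1 - tau al Z t (s:ℂ) ^ 2) ^ ((1:ℂ)/2) *
      (Gx al Z X F t (tau al Z t (s:ℂ)) / (1 - tau al Z t (s:ℂ) ^ 2)) ^ ((1:ℂ)/2)) (Ioo (-al) al) := by
    intro s hs
    exact (d03_rhs (hτ s hs) (d03_tau_deriv (hNb c1 l1).dZ ht s).continuousAt hG2 hsl).continuousWithinAt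
  have hsq : ∀ s ∈ Ioo (-al) al, (X (t + (s:ℂ)) * Uf (yy al Z X t (s:ℂ))) ^ 2 =
      ((1 - tau al Z t (s:ℂ) ^ 2) ^ ((1:ℂ)/2) *
      (Gx al Z X F t (tau al Z t (s:ℂ)) / (1 - tau al Z t (s:ℂ) ^ 2)) ^ ((1:ℂ)/2)) ^ 2 := by
    intro s hs
    rw [hSq s hs, mul_pow, b01_sqrt_sq, b01_sqrt_sq, mul_div_cancel₀]
    exact h1ne s hs
  have hgne : ∀ s ∈ Ioo (-al) al, (1 - tau al Z t (s:ℂ) ^ 2) ^ ((1:ℂ)/2) *
      (Gx al Z X F t (tau al Z t (s:ℂ)) / (1 - tau al Z t (s:ℂ) ^ 2)) ^ ((1:ℂ)/2) ≠ 0 := by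
    intro s hs
    exact mul_ne_zero (d03_sqrt_ne (h1ne s hs)) (d03_sqrt_ne (slitPlane_ne_zero (hsl _ (hmem s hs))))
  have h00 : (0:ℝ) ∈ Ioo (-al) al := ⟨by linarith, hal0⟩
  have key := isPreconnected_Ioo.eq_of_sq_eq (f := fun s : ℝ => X (t + (s:ℂ)) * Uf (yy al Z X t (s:ℂ)))
    (g := fun s : ℝ => (1 - tau al Z t (s:ℂ) ^ 2) ^ ((1:ℂ)/2) *
      (Gx al Z X F t (tau al Z t (s:ℂ)) / (1 - tau al Z t (s:ℂ) ^ 2)) ^ ((1:ℂ)/2)) hfc hgc
    (fun s hs => hsq s hs) (fun {s} hs => hgne s hs) h00 ?_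
  · exact key hs
  · -- the sign at `s = 0`
    rcases sq_eq_sq_iff_eq_or_eq_neg.1 (hsq 0 h00) with h | h
    · exact h
    · exfalso
      obtain ⟨hy0, hy1, -⟩ := hY 0 h00
      obtain ⟨hB, hxi, hchi⟩ := H2 al hal 1 (3/2) c2 le_rfl le_rfl hc2.le le_rfl Z X (hNb c2 l2) t ht
      have him : 1 ≤ t.im := by linarith [ht.1]
      have hst : sin t ≠ 0 := sin_ne_zero_of_im (by linarith)
      have hk0 : 0 < Real.sqrt (Real.cos 0 - Real.cos al) := by
        apply Real.sqrt_pos.2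
        rw [Real.cos_zero]
        linarith
      have hkk : kk al ((0:ℝ):ℂ) = ((Real.sqrt (Real.cos 0 - Real.cos al) : ℝ) : ℂ) :=
        kk_real (by rw [Real.cos_zero]; linarith)
      have hX : X (t + ((0:ℝ):ℂ)) = xi X (t + ((0:ℝ):ℂ)) * sin t := by
        rw [ofReal_zero, add_zero, xi_eq hst]
        field_simp
      have hlhs : X (t + ((0:ℝ):ℂ)) * Uf (yy al Z X t ((0:ℝ):ℂ)) =
          ((Real.sqrt (Real.cos 0 - Real.cos al) : ℝ) : ℂ) * (xi X (t + ((0:ℝ):ℂ)) *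
            (rho al Z X t ((0:ℝ):ℂ)) ^ ((1:ℂ)/2) * (2 - yy al Z X t ((0:ℝ):ℂ) ^ 2) ^ ((1:ℂ)/2)) := by
        have hq : q0 t ((0:ℝ):ℂ) = 1 / sin t := by rw [ofReal_zero]; exact d03_q0 him
        have hyv : yy al Z X t ((0:ℝ):ℂ) = kk al ((0:ℝ):ℂ) * (1 / sin t * rho al Z X t ((0:ℝ):ℂ) ^ ((1:ℂ)/2)) := by
          rw [yy_eq, hq]
        have hU : Uf (yy al Z X t ((0:ℝ):ℂ)) = kk al ((0:ℝ):ℂ) * (1 / sin t * rho al Z X t ((0:ℝ):ℂ) ^ ((1:ℂ)/2)) *
            (2 - yy al Z X t ((0:ℝ):ℂ) ^ 2) ^ ((1:ℂ)/2) := by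
          rw [Uf]
          congr 1
        rw [hU, hX, hkk]
        field_simp
      rw [hlhs] at h
      refine d03_sign hk0 hs1 hs2 ((hxi 0).trans hCc2) ?_ ?_ ?_ (b01_sqrt_re _) h
      · have h1 := d03_rho ((hchi 0 h00).trans hCc2) (hB.nu.trans hCc2) ((hxi 0).trans hCc2)
        have h2 := b01_sqrt_close (σ := 1) one_pos (z := rho al Z X t ((0:ℝ):ℂ)) (d := 4/100) (by
          rw [ofReal_one, one_pow]
          exact h1)
        rw [ofReal_one, div_one] at h2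
        exact h2
      · have hs2' : 1.25 < Real.sqrt 2 := by
          rw [show (1.25:ℝ) = Real.sqrt (1.25 ^ 2) by rw [Real.sqrt_sq (by norm_num)]]
          exact Real.sqrt_lt_sqrt (by norm_num) (by norm_num)
        have h2 := b01_sqrt_close (σ := Real.sqrt 2) (by positivity) (z := 2 - yy al Z X t ((0:ℝ):ℂ) ^ 2) (d := 1/2) (by
          have : ((Real.sqrt 2 : ℝ) : ℂ) ^ 2 = 2 := by
            rw [← ofReal_pow, Real.sq_sqrt (by norm_num)]
            norm_num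
          rw [this]
          have e : 2 - yy al Z X t ((0:ℝ):ℂ) ^ 2 - 2 = - yy al Z X t ((0:ℝ):ℂ) ^ 2 := by ring
          rw [e, norm_neg, norm_pow]
          exact hy1)
        refine h2.trans ?_
        rw [div_le_iff₀ (by linarith)]
        linarith
      · have h2 := b01_sqrt_close (σ := Real.sin al) (by linarith) (d := 1/100)
          ((hG1 _ (hmem 0 h00)).trans hCc5)
        refine h2.trans ?_
        rw [div_le_iff₀ (by linarith)]
        linarith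

theorem d03_ii {a b M : ℝ} {g : ℝ → ℂ} (hab : a ≤ b) (hc : ContinuousOn g (Ioo a b))
    (hM : ∀ s ∈ Ioo a b, ‖g s‖ ≤ M) : IntervalIntegrable g volume a b := by
  rw [intervalIntegrable_iff_integrableOn_Ioo_of_le hab]
  refine IntegrableOn.of_bound (C := M) ?_ (hc.aestronglyMeasurable measurableSet_Ioo) ?_
  · rw [Real.volume_Ioo]
    exact ENNReal.ofReal_lt_top
  · rw [ae_restrict_iff' measurableSet_Ioo]
    exact Filter.Eventually.of_forall hM

theorem d03_congr {a b : ℝ} (hab : a ≤ b) {f g : ℝ → ℂ} (h : ∀ s ∈ Ioo a b, f s = g s) :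
    ∫ s in a..b, f s = ∫ s in a..b, g s := by
  rw [intervalIntegral.integral_of_le hab, intervalIntegral.integral_of_le hab,
    integral_Ioc_eq_integral_Ioo, integral_Ioc_eq_integral_Ioo]
  exact setIntegral_congr_fun measurableSet_Ioo h

/-- the substitution `x = tau` for bounded analytic functions on the disc -/
theorem d03_subst {h : ℂ → ℂ} {K : ℝ} (hh : DifferentiableOn ℂ h (Metric.ball 0 1))
    (hK : ∀ x ∈ Metric.ball (0:ℂ) 1, ‖h x‖ ≤ K) :
    ∃ g : ℂ → ℂ, ∀ a b M : ℝ, a < b → ∀ τ τ' : ℝ → ℂ, (∀ s, HasDerivAt τ (τ' s) s) →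
      (∀ s ∈ Ioo a b, ‖τ s‖ < 1) → (∀ s, ‖τ' s‖ ≤ M) → Continuous τ' →
      ∫ s in a..b, h (τ s) * τ' s = g (τ b) - g (τ a) := by
  have hK0 : 0 ≤ K := (norm_nonneg _).trans (hK 0 (Metric.mem_ball_self one_pos))
  obtain ⟨H, hH⟩ := hh.isExactOn_ball
  have hL : LipschitzOnWith (Real.toNNReal K) H (Metric.ball 0 1) := by
    refine (convex_ball (0:ℂ) 1).lipschitzOnWith_of_nnnorm_hasDerivWithin_le (f' := h)
      (fun x hx => (hH x hx).hasDerivWithinAt) (fun x hx => ?_)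
    rw [← NNReal.coe_le_coe, coe_nnnorm, Real.coe_toNNReal _ hK0]
    exact hK x hx
  obtain ⟨g, hg, hgs⟩ := hL.extend_finite_dimension
  refine ⟨g, fun a b M hab τ τ' hτ hτ1 hM hc => ?_⟩
  have hτc : Continuous τ := continuous_iff_continuousAt.2 fun s => (hτ s).continuousAt
  have hmem : ∀ s ∈ Ioo a b, τ s ∈ Metric.ball (0:ℂ) 1 := by
    intro s hs
    rw [mem_ball_zero_iff]
    exact hτ1 s hs
  have hlim : ∀ s0 : ℝ, Tendsto (fun s => g (τ s)) (𝓝 s0) (𝓝 (g (τ s0))) := fun s0 =>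
    (hg.continuous.comp hτc).tendsto s0
  refine intervalIntegral.integral_eq_sub_of_hasDerivAt_of_tendsto (f := fun s => H (τ s)) hab ?_ ?_ ?_ ?_
  · intro s hs
    have := (hH _ (hmem s hs)).comp_of_eq s (hτ s) rfl
    exact this
  · refine d03_ii (M := K * M) hab.le ?_ ?_
    · refine ContinuousOn.mul ?_ hc.continuousOn
      exact hh.continuousOn.comp hτc.continuousOn hmem
    · intro s hs
      rw [norm_mul]
      exact mul_le_mul (hK _ (hmem s hs)) (hM s) (norm_nonneg _) hK0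
  · refine ((hlim a).mono_left nhdsWithin_le_nhds).congr' ?_
    filter_upwards [Ioo_mem_nhdsGT hab] with s hs
    exact (hgs (hmem s hs)).symm
  · refine ((hlim b).mono_left nhdsWithin_le_nhds).congr' ?_
    filter_upwards [Ioo_mem_nhdsLT hab] with s hs
    exact (hgs (hmem s hs)).symm

theorem d03_sqrt_real {x : ℝ} (hx : x ∈ Ioo (-1:ℝ) 1) :
    (1 - (x:ℂ) ^ 2) ^ ((1:ℂ)/2) = ((Real.sqrt (1 - x ^ 2) : ℝ) : ℂ) := by
  have h1 : 0 ≤ 1 - x ^ 2 := by nlinarith [hx.1, hx.2]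
  rw [Real.sqrt_eq_rpow, Complex.ofReal_cpow h1]
  push_cast
  rfl

/-- `aj = ∫ h(tau(s)) tau'(s) ds` with `h(x) = x^j (1 - x^2)^{1/2} (G/(1-x^2))^{1/2}` analytic and bounded on the unit disc,
`tau' = Z'(t+s)/z_d = - Z'(t+s)/nx`; `H` a primitive of `h` on the disc, Lipschitz; so
`∫_{-al+ε}^{al-ε} = H(tau(al-ε)) - H(tau(-al+ε))` and this differs from `H(1-δ) - H(-1+δ) = ∫_{-1+δ}^{1-δ} h` by an amount tending to `0`. -/
theorem aj_eq_hj : ∃ c0 : ℝ, 0 < c0 ∧ ∀ al ∈ JJ, ∀ Z X F : ℂ → ℂ, NB c0 (-2) 2 Z X → Sym 2 Z X → FOk c0 Z X F → ∀ j : ℕ,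
    EqOn (aj al j Z X) (hj al j Z X F) (band 1 (3/2)) := by
  obtain ⟨c1, hc1, H1⟩ := XU_eq
  obtain ⟨c2, C2, hc2, hC2, hCc2, H2⟩ := Gx_bd
  obtain ⟨c3, e3, hc3, he3, H3⟩ := tau_in_disc
  refine ⟨min (min c1 c2) (min c3 (1/1800)), by positivity, fun al hal Z X F hN hS hF j t ht => ?_⟩
  obtain ⟨hj1, hj2, hj3, hj4, hj5, hs1, hs2⟩ := JJ_bounds hal
  have hal0 : 0 < al := by linarith
  have l1 : min (min c1 c2) (min c3 (1/1800)) ≤ c1 := (min_le_left _ _).trans (min_le_left _ _)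
  have l2 : min (min c1 c2) (min c3 (1/1800)) ≤ c2 := (min_le_left _ _).trans (min_le_right _ _)
  have l3 : min (min c1 c2) (min c3 (1/1800)) ≤ c3 := (min_le_right _ _).trans (min_le_left _ _)
  have l4 : min (min c1 c2) (min c3 (1/1800)) ≤ 1/1800 := (min_le_right _ _).trans (min_le_right _ _)
  have hFm : ∀ {c c' : ℝ}, FOk c Z X F → c ≤ c' → FOk c' Z X F :=
    fun h hc => ⟨h.d, fun z hz => (h.n z hz).trans hc, h.e, h.v⟩
  have hNb : ∀ c, min (min c1 c2) (min c3 (1/1800)) ≤ c → NB c 1 (3/2) Z X :=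
    fun c hc => hN.mono hc (by norm_num) (by norm_num)
  have hXU := H1 al hal Z X F (hN.mono l1 le_rfl le_rfl) hS (hFm hF l1) t ht
  obtain ⟨hG1, hG2, -, -, -⟩ := H2 al hal c2 hc2.le le_rfl Z X F (hN.mono l2 le_rfl le_rfl) hS (hFm hF l2) t
    (band_subset (by norm_num) (by norm_num) ht)
  have hT := fun s hs => H3 al hal Z X (hNb c3 l3) t ht s hs
  obtain ⟨hd1, hd2, hd3⟩ := d03_df (hNb _ l4) le_rfl le_rfl hal ht
  have hdZ : df al Z t ≠ 0 := by
    intro h0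
    rw [h0, norm_zero] at hd3
    norm_num at hd3
  have hτ : ∀ s ∈ Ioo (-al) al, ‖tau al Z t (s:ℂ)‖ < 1 := by
    intro s hs
    have h1 := hT s ⟨hs.1.le, hs.2.le⟩
    have h2 : 0 < al ^ 2 - s ^ 2 := by nlinarith [hs.1, hs.2]
    have h3 : ‖tau al Z t (s:ℂ)‖ ^ 2 < 1 := by nlinarith
    have h4 := norm_nonneg (tau al Z t (s:ℂ))
    nlinarith
  have hsl : ∀ x ∈ Metric.ball (0:ℂ) 1, Gx al Z X F t x / (1 - x ^ 2) ∈ slitPlane :=
    fun x hx => d03_slit hs1 ((hG1 x hx).trans hCc2)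
  have hsq : ∀ x ∈ Metric.ball (0:ℂ) 1, (1 - x ^ 2) ∈ slitPlane ∧ ‖1 - x ^ 2‖ ≤ 2 ∧ ‖x‖ < 1 := by
    intro x hx
    rw [mem_ball_zero_iff] at hx
    have h0 := norm_nonneg x
    refine ⟨?_, ?_, hx⟩
    · rw [mem_slitPlane_iff]
      left
      have : (x ^ 2).re ≤ ‖x ^ 2‖ := Complex.re_le_norm _
      rw [norm_pow] at this
      rw [Complex.sub_re, Complex.one_re]
      nlinarith
    · refine (norm_sub_le _ _).trans ?_
      rw [norm_one, norm_pow]
      nlinarith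
  set h : ℂ → ℂ := fun x => x ^ j * ((1 - x ^ 2) ^ ((1:ℂ)/2) * (Gx al Z X F t x / (1 - x ^ 2)) ^ ((1:ℂ)/2)) with hh
  have hdiff : DifferentiableOn ℂ h (Metric.ball 0 1) := by
    intro x hx
    have h1 : DifferentiableAt ℂ (fun x : ℂ => (1 - x ^ 2) ^ ((1:ℂ)/2)) x := by
      refine DifferentiableAt.cpow_const (by fun_prop) ?_
      exact (hsq x hx).1
    have h2 : DifferentiableAt ℂ (fun x : ℂ => (Gx al Z X F t x / (1 - x ^ 2)) ^ ((1:ℂ)/2)) x :=
      (hG2.differentiableAt (Metric.isOpen_ball.mem_nhds hx)).cpow_const (hsl x hx)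
    exact ((differentiableAt_id.pow j).mul (h1.mul h2)).differentiableWithinAt
  have hbd : ∀ x ∈ Metric.ball (0:ℂ) 1, ‖h x‖ ≤ 2 := by
    intro x hx
    obtain ⟨-, hx2, hx1⟩ := hsq x hx
    have e1 : ‖(1 - x ^ 2) ^ ((1:ℂ)/2)‖ ≤ 1.5 := by
      have := congrArg norm (b01_sqrt_sq (1 - x ^ 2))
      rw [norm_pow] at this
      have h0 := norm_nonneg ((1 - x ^ 2) ^ ((1:ℂ)/2))
      nlinarith
    have e2 : ‖(Gx al Z X F t x / (1 - x ^ 2)) ^ ((1:ℂ)/2)‖ ≤ 1 := by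
      have e3 := congrArg norm (b01_sqrt_sq (Gx al Z X F t x / (1 - x ^ 2)))
      rw [norm_pow] at e3
      have h0 := norm_nonneg ((Gx al Z X F t x / (1 - x ^ 2)) ^ ((1:ℂ)/2))
      have e4 := norm_sub_norm_le (Gx al Z X F t x / (1 - x ^ 2)) ((Real.sin al : ℂ) ^ 2)
      have e5 := (hG1 x hx).trans hCc2
      rw [norm_pow, norm_real, Real.norm_of_nonneg (by linarith)] at e4
      nlinarith
    have e3 : ‖x ^ j‖ ≤ 1 := by
      rw [norm_pow]
      exact pow_le_one₀ (norm_nonneg _) hx1.le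
    rw [hh]
    simp only [norm_mul]
    calc ‖x ^ j‖ * (‖(1 - x ^ 2) ^ ((1:ℂ)/2)‖ * ‖(Gx al Z X F t x / (1 - x ^ 2)) ^ ((1:ℂ)/2)‖) ≤ 1 * (1.5 * 1) := by
          gcongr
      _ ≤ 2 := by norm_num
  obtain ⟨g, hg⟩ := d03_subst hdiff hbd
  have hA : aj al j Z X t = g (tau al Z t (al:ℂ)) - g (tau al Z t ((-al : ℝ):ℂ)) := by
    have hM : ∀ s : ℝ, ‖deriv Z (t + (s:ℂ)) / df al Z t‖ ≤ 5 := by
      intro s
      have him : (t + (s:ℂ)).im = t.im := add_real_im t s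
      have h1 := (hNb _ l4).z1 _ (add_real_mem_band ht s)
      have h2 := d03_sin_upper (t := t + (s:ℂ)) (by rw [him]; linarith [ht.1]) (by rw [him]; linarith [ht.2])
      have h3 := norm_sub_norm_le (deriv Z (t + (s:ℂ))) (-sin (t + (s:ℂ)))
      rw [sub_neg_eq_add, norm_neg] at h3
      rw [norm_div, div_le_iff₀ (by linarith)]
      linarith
    have hcont : Continuous (fun s : ℝ => deriv Z (t + (s:ℂ)) / df al Z t) := by
      refine Continuous.div_const ?_ _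
      rw [continuous_iff_continuousAt]
      intro s
      have h1 : ContinuousAt (deriv Z) (t + (s:ℂ)) :=
        (((hNb _ l4).dZ.deriv (isOpen_band 1 (3/2))).differentiableAt
          ((isOpen_band 1 (3/2)).mem_nhds (add_real_mem_band ht s))).continuousAt
      exact ContinuousAt.comp (f := fun s : ℝ => t + (s:ℂ)) h1 (by fun_prop)
    have key := hg (-al) al 5 (by linarith) (fun s => tau al Z t (s:ℂ)) (fun s => deriv Z (t + (s:ℂ)) / df al Z t)
      (fun s => d03_tau_deriv (hNb _ l4).dZ ht s) hτ hM hcont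
    rw [← key, aj]
    refine d03_congr (by linarith) fun s hs => ?_
    rw [hXU s hs, hh]
    simp only
    rw [d03_df_nx]
    have hnx : nx al Z t ≠ 0 := by
      rw [d03_df_nx] at hdZ
      exact neg_ne_zero.1 hdZ
    field_simp
  have hB : hj al j Z X F t = g 1 - g (-1) := by
    have key := hg (-1) 1 1 (by norm_num) (fun s => (s:ℂ)) (fun _ => 1)
      (fun s => (hasDerivAt_id (s:ℂ)).comp_ofReal) (fun s hs => by
        rw [norm_real, Real.norm_eq_abs, abs_lt]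
        exact hs) (fun s => by rw [norm_one]) continuous_const
    have e1 : g (((1:ℝ)):ℂ) - g (((-1:ℝ)):ℂ) = g 1 - g (-1) := by
      push_cast
      rfl
    rw [← e1, ← key, hj]
    refine d03_congr (by norm_num) fun x hx => ?_
    rw [hh]
    simp only
    rw [d03_sqrt_real hx]
    ring
  obtain ⟨hz1, hz2⟩ := d03_tau_al hdZ
  show aj al j Z X t = hj al j Z X F t
  rw [hA, hB, hz1, hz2]

end FB
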