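import Pool.Agent.H48.FB.E00
import Pool.Agent.H48.FB.C01

/-! E02: derivative of the functionals in `t`. -/

open Complex Set MeasureTheory Filter Topology

noncomputable section

namespace FB

/-- the chord relations -/
theorem e02_chord {al : ℝ} {Z X : ℂ → ℂ} {t : ℂ} :
    nz al X t * df al Z t + nx al Z t * df al X t = 0 ∧
    et al Z X t = nz al X t * md al Z t + nx al Z t * md al X t := by
  refine ⟨?_, rfl⟩
  unfold nz nx
  ring

theorem e02_hasDeriv_shift {f : ℂ → ℂ} {a b : ℝ} (hf : DifferentiableOn ℂ f (band a b)) {t : ℂ} (ht : t ∈ band a b)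
    (c : ℝ) : HasDerivAt (fun w : ℂ => f (w + (c:ℂ))) (deriv f (t + (c:ℂ))) t ∧
      HasDerivAt (fun w : ℂ => f (w - (c:ℂ))) (deriv f (t - (c:ℂ))) t := by
  have hop := isOpen_band a b
  have h1 : HasDerivAt f (deriv f (t + (c:ℂ))) (t + (c:ℂ)) :=
    (hf.differentiableAt (hop.mem_nhds (add_real_mem_band ht c))).hasDerivAt
  have h2 : HasDerivAt f (deriv f (t - (c:ℂ))) (t - (c:ℂ)) :=
    (hf.differentiableAt (hop.mem_nhds (sub_real_mem_band ht c))).hasDerivAt
  refine ⟨?_, ?_⟩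
  · simpa using HasDerivAt.comp_add_const t (c:ℂ) h1
  · simpa using HasDerivAt.comp_sub_const t (c:ℂ) h2

theorem e02_md {f : ℂ → ℂ} {a b : ℝ} (hf : DifferentiableOn ℂ f (band a b)) {t : ℂ} (ht : t ∈ band a b)
    (al : ℝ) : HasDerivAt (md al f) ((deriv f (t + (al:ℂ)) + deriv f (t - (al:ℂ))) / 2) t ∧
      HasDerivAt (df al f) ((deriv f (t + (al:ℂ)) - deriv f (t - (al:ℂ))) / 2) t := by
  obtain ⟨h1, h2⟩ := e02_hasDeriv_shift hf ht al
  exact ⟨(h1.add h2).div_const 2, (h1.sub h2).div_const 2⟩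

/-- derivatives of the plane -/
theorem e02_plane {Z X : ℂ → ℂ} {a b : ℝ} (hZ : DifferentiableOn ℂ Z (band a b)) (hX : DifferentiableOn ℂ X (band a b))
    {t : ℂ} (ht : t ∈ band a b) (al : ℝ) :
    HasDerivAt (nz al X) ((deriv X (t + (al:ℂ)) - deriv X (t - (al:ℂ))) / 2) t ∧
    HasDerivAt (nx al Z) (-((deriv Z (t + (al:ℂ)) - deriv Z (t - (al:ℂ))) / 2)) t ∧
    HasDerivAt (et al Z X) ((deriv X (t + (al:ℂ)) - deriv X (t - (al:ℂ))) / 2 * md al Z t +
      nz al X t * ((deriv Z (t + (al:ℂ)) + deriv Z (t - (al:ℂ))) / 2) +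
      (-((deriv Z (t + (al:ℂ)) - deriv Z (t - (al:ℂ))) / 2) * md al X t +
      nx al Z t * ((deriv X (t + (al:ℂ)) + deriv X (t - (al:ℂ))) / 2))) t := by
  obtain ⟨mZ, dZ⟩ := e02_md hZ ht al
  obtain ⟨mX, dX⟩ := e02_md hX ht al
  have h1 : HasDerivAt (nz al X) ((deriv X (t + (al:ℂ)) - deriv X (t - (al:ℂ))) / 2) t := dX
  have h2 : HasDerivAt (nx al Z) (-((deriv Z (t + (al:ℂ)) - deriv Z (t - (al:ℂ))) / 2)) t := dZ.neg
  exact ⟨h1, h2, (h1.mul mZ).add (h2.mul mX)⟩

/-- the plane is differentiable on the band -/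
theorem e02_plane_diff {Z X : ℂ → ℂ} {a b : ℝ} (hZ : DifferentiableOn ℂ Z (band a b))
    (hX : DifferentiableOn ℂ X (band a b)) (al : ℝ) :
    DifferentiableOn ℂ (nz al X) (band a b) ∧ DifferentiableOn ℂ (nx al Z) (band a b) ∧
    DifferentiableOn ℂ (et al Z X) (band a b) := by
  refine ⟨fun t ht => ?_, fun t ht => ?_, fun t ht => ?_⟩
  · exact (e02_plane hZ hX ht al).1.differentiableAt.differentiableWithinAt
  · exact (e02_plane hZ hX ht al).2.1.differentiableAt.differentiableWithinAt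
  · exact (e02_plane hZ hX ht al).2.2.differentiableAt.differentiableWithinAt

/-- the basic identity `n'.p - et' = - (1/2) ((1+τ) np + (1-τ) nm)` at the chord point -/
theorem e02_key {al : ℝ} {Z X : ℂ → ℂ} {t : ℂ} (τ z c : ℂ) (hz : z = md al Z t + τ * df al Z t)
    (hc : c = md al X t + τ * df al X t) :
    (deriv X (t + (al:ℂ)) - deriv X (t - (al:ℂ))) / 2 * z +
      (-((deriv Z (t + (al:ℂ)) - deriv Z (t - (al:ℂ))) / 2)) * c -
      ((deriv X (t + (al:ℂ)) - deriv X (t - (al:ℂ))) / 2 * md al Z t +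
      nz al X t * ((deriv Z (t + (al:ℂ)) + deriv Z (t - (al:ℂ))) / 2) +
      (-((deriv Z (t + (al:ℂ)) - deriv Z (t - (al:ℂ))) / 2) * md al X t +
      nx al Z t * ((deriv X (t + (al:ℂ)) + deriv X (t - (al:ℂ))) / 2))) =
    - (1/2) * ((1 + τ) * np al Z X t + (1 - τ) * nm al Z X t) := by
  rw [hz, hc]
  unfold np nm nz nx
  ring

/-- the chord point -/
theorem e02_point {al : ℝ} {Z X : ℂ → ℂ} {t s y : ℂ} (hnx : nx al Z t ≠ 0) (hX : X (t + s) ≠ 0)
    (hy : y ^ 2 = (nz al X t * Z (t + s) + nx al Z t * X (t + s) - et al Z X t) / (nx al Z t * X (t + s))) :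
    Z (t + s) = md al Z t + tau al Z t s * df al Z t ∧
    X (t + s) * (1 - y ^ 2) = md al X t + tau al Z t s * df al X t := by
  have hdf : df al Z t ≠ 0 := by
    intro h
    apply hnx
    unfold nx
    rw [h, neg_zero]
  have h1 : Z (t + s) = md al Z t + tau al Z t s * df al Z t := by
    unfold tau
    field_simp
    ring
  refine ⟨h1, ?_⟩
  have h2 : X (t + s) * (1 - y ^ 2) * nx al Z t = et al Z X t - nz al X t * Z (t + s) := by
    rw [hy]
    field_simp
    ring
  have h3 : (md al X t + tau al Z t s * df al X t) * nx al Z t = et al Z X t - nz al X t * Z (t + s) := by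
    rw [h1]
    obtain ⟨h4, h5⟩ := e02_chord (al := al) (Z := Z) (X := X) (t := t)
    rw [h5]
    linear_combination tau al Z t s * h4
  exact mul_right_cancel₀ hnx (h2.trans h3.symm)

/-- bounded and continuous on the open interval gives interval integrable -/
theorem e02_int {al M : ℝ} (hal : 0 ≤ al) {g : ℝ → ℂ} (hg : ContinuousOn g (Ioo (-al) al))
    (h : ∀ s ∈ Ioo (-al) al, ‖g s‖ ≤ M) : IntervalIntegrable g volume (-al) al := by
  rw [intervalIntegrable_iff, uIoc_of_le (by linarith), integrableOn_Ioc_iff_integrableOn_Ioo]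
  have _ : IsFiniteMeasure (volume.restrict (Ioo (-al) al)) :=
    ⟨by rw [Measure.restrict_apply_univ, Real.volume_Ioo]; exact ENNReal.ofReal_lt_top⟩
  exact Integrable.of_bound (hg.aestronglyMeasurable measurableSet_Ioo) M
    ((ae_restrict_iff' measurableSet_Ioo).2 (Eventually.of_forall h))

/-- `kk` tends to zero at the ends -/
theorem e02_kk (al : ℝ) :
    Tendsto (fun s : ℝ => 2 * Real.sqrt (Real.cos s - Real.cos al)) (𝓝[>] (-al)) (𝓝 0) ∧
    Tendsto (fun s : ℝ => 2 * Real.sqrt (Real.cos s - Real.cos al)) (𝓝[<] al) (𝓝 0) := by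
  have hc : Continuous (fun s : ℝ => 2 * Real.sqrt (Real.cos s - Real.cos al)) := by fun_prop
  refine ⟨?_, ?_⟩
  · have := (hc.tendsto (-al)).mono_left (nhdsWithin_le_nhds (s := Ioi (-al)))
    simpa using this
  · have := (hc.tendsto al).mono_left (nhdsWithin_le_nhds (s := Iio al))
    simpa using this

theorem e02_ty (R : ℝ) (hR : 1 < R) : ∃ c0 : ℝ, 0 < c0 ∧ ∀ al ∈ JJ, ∀ a b : ℝ, 1 ≤ a → b ≤ R →
    ∀ Z X : ℂ → ℂ, NB c0 a b Z X → ∀ t ∈ band a b,
      Tendsto (fun s : ℝ => yy al Z X t (s:ℂ)) (𝓝[>] (-al)) (𝓝 0) ∧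
      Tendsto (fun s : ℝ => yy al Z X t (s:ℂ)) (𝓝[<] al) (𝓝 0) := by
  obtain ⟨c0, hc0, H⟩ := yy_basic R hR
  refine ⟨c0, hc0, fun al hal a b ha hb Z X hN t ht => ?_⟩
  obtain ⟨hJ1, hJ2, -, -, -, -, -⟩ := JJ_bounds hal
  have hal0 : -al < al := by linarith
  have bd : ∀ s ∈ Ioo (-al) al, ‖yy al Z X t (s:ℂ)‖ ≤ 2 * Real.sqrt (Real.cos s - Real.cos al) := by
    intro s hs
    obtain ⟨-, -, h3, -⟩ := H al hal a b ha hb Z X hN t ht s hs
    have h1 : yy al Z X t (s:ℂ) = kk al s * om al Z X t (s:ℂ) := rfl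
    rw [h1, norm_mul, kk_real (cos_gt hal hs).le, Complex.norm_real, Real.norm_of_nonneg (Real.sqrt_nonneg _),
      mul_comm]
    exact mul_le_mul_of_nonneg_right h3 (Real.sqrt_nonneg _)
  obtain ⟨k1, k2⟩ := e02_kk al
  refine ⟨?_, ?_⟩
  · refine squeeze_zero_norm' ?_ k1
    filter_upwards [Ioo_mem_nhdsGT hal0] with s hs
    exact bd s hs
  · refine squeeze_zero_norm' ?_ k2
    filter_upwards [Ioo_mem_nhdsLT hal0] with s hs
    exact bd s hs

theorem e02_ball {a b : ℝ} {t : ℂ} (ht : t ∈ band a b) :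
    ∃ ε : ℝ, 0 < ε ∧ ∀ w ∈ Metric.ball (0:ℂ) ε, t + w ∈ band a b := by
  refine ⟨min (t.im - a) (b - t.im), lt_min (by linarith [ht.1]) (by linarith [ht.2]), fun w hw => ?_⟩
  rw [mem_ball_zero_iff] at hw
  have h1 := Complex.abs_im_le_norm w
  have h2 := hw.trans_le (min_le_left _ _)
  have h3 := hw.trans_le (min_le_right _ _)
  have h4 := abs_le.1 h1
  refine ⟨?_, ?_⟩
  · rw [add_im]; linarith [h4.1]
  · rw [add_im]; linarith [h4.2]

/-- derivatives of `f (t + w + s)` -/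
theorem e02_f {f : ℂ → ℂ} {a b : ℝ} (hf : DifferentiableOn ℂ f (band a b)) {t w : ℂ} (ht : t + w ∈ band a b)
    (s : ℝ) : HasDerivAt (fun w' : ℂ => f (t + w' + (s:ℂ))) (deriv f (t + w + (s:ℂ))) w ∧
      HasDerivAt (fun s' : ℝ => f (t + w + (s':ℂ))) (deriv f (t + w + (s:ℂ))) s := by
  have hop := isOpen_band a b
  have h1 : HasDerivAt f (deriv f (t + w + (s:ℂ))) (t + w + (s:ℂ)) :=
    (hf.differentiableAt (hop.mem_nhds (add_real_mem_band ht s))).hasDerivAt
  refine ⟨?_, ?_⟩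
  · have h2 : HasDerivAt (fun w' : ℂ => t + w' + (s:ℂ)) 1 w := ((hasDerivAt_id w).const_add t).add_const _
    have h3 := HasDerivAt.comp w h1 h2
    rw [mul_one] at h3
    exact h3
  · have h2 : HasDerivAt (fun v : ℂ => t + w + v) 1 (s:ℂ) := (hasDerivAt_id (s:ℂ)).const_add _
    have h3 : HasDerivAt (fun v : ℂ => f (t + w + v)) (deriv f (t + w + (s:ℂ))) (s:ℂ) := by
      have := HasDerivAt.comp (s:ℂ) h1 h2
      rw [mul_one] at this
      exact this
    exact h3.comp_ofReal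

theorem e02_core (R : ℝ) (hR : 1 < R) : ∃ c0 : ℝ, 0 < c0 ∧ ∀ al ∈ JJ, ∀ a b : ℝ, 1 ≤ a → b ≤ R →
    ∀ Z X : ℂ → ℂ, NB c0 a b Z X → ∀ t ∈ band a b, ∃ ε M : ℝ,
      CoreData al ε M (fun w s => Z (t + w + (s:ℂ))) (fun w s => X (t + w + (s:ℂ)))
        (fun w s => deriv Z (t + w + (s:ℂ))) (fun w s => deriv X (t + w + (s:ℂ)))
        (fun w s => yy al Z X (t + w) (s:ℂ)) (fun w => nz al X (t + w)) (fun w => nx al Z (t + w))
        (fun w => et al Z X (t + w)) := by
  obtain ⟨c1, hc1, H1⟩ := yy_basic R hR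
  obtain ⟨c2, K, hc2, hK, H2⟩ := c01_bounds R hR
  obtain ⟨c3, hc3, H3⟩ := e02_ty R hR
  refine ⟨min (min c1 c2) (min c3 (1/10)), by positivity, fun al hal a b ha hb Z X hN t ht => ?_⟩
  have hN1 := c01_NB_mono hN ((min_le_left _ _).trans (min_le_left _ _))
  have hN2 := c01_NB_mono hN ((min_le_left _ _).trans (min_le_right _ _))
  have hN3 := c01_NB_mono hN ((min_le_right _ _).trans (min_le_left _ _))
  have hN4 := c01_NB_mono hN ((min_le_right _ _).trans (min_le_right _ _))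
  obtain ⟨hJ1, hJ2, -, -, -, -, -⟩ := JJ_bounds hal
  obtain ⟨ε, hε, hball⟩ := e02_ball ht
  have hop := isOpen_band a b
  have hZ := hN.dZ
  have hX := hN.dX
  have hZ' := hZ.deriv hop
  have hX' := hX.deriv hop
  obtain ⟨dnz, dnx, det⟩ := e02_plane_diff hZ hX al
  set M : ℝ := max K (Real.exp R + 1) with hM
  have hM1 : 1 ≤ M := hK.trans (le_max_left _ _)
  have hMi : 1 / M ≤ 1 := by
    rw [div_le_one (by linarith)]
    exact hM1
  have hKM : K ≤ M := le_max_left _ _
  have h0 : t + 0 ∈ band a b := by simpa using ht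
  have hXlow : ∀ z ∈ band a b, 1 ≤ ‖X z‖ := by
    intro z hz
    have h1 := hN4.x0 z hz
    have h2 := c01_sin_ge (show 1 ≤ z.im by linarith [hz.1])
    have h3 := norm_sub_norm_le (sin z) (X z)
    rw [norm_sub_rev] at h3
    linarith
  have hX'up : ∀ z ∈ band a b, ‖deriv X z‖ ≤ M := by
    intro z hz
    have h1 := hN4.x1 z hz
    have h2 := c01_cos_le z
    have h3 := norm_sub_norm_le (deriv X z) (cos z)
    have h4 : Real.exp |z.im| ≤ Real.exp R := by
      rw [Real.exp_le_exp, abs_of_nonneg (by linarith [hz.1])]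
      linarith [hz.2]
    refine le_trans ?_ (le_max_right _ _)
    linarith
  have hcomp : ∀ {f : ℂ → ℂ}, DifferentiableOn ℂ f (band a b) →
      DifferentiableOn ℂ (fun w => f (t + w)) (Metric.ball 0 ε) := by
    intro f hf w hw
    have h1 : DifferentiableAt ℂ f (t + w) := hf.differentiableAt (hop.mem_nhds (hball w hw))
    exact (DifferentiableAt.comp w h1 (by fun_prop)).differentiableWithinAt
  refine ⟨ε, M, ?_⟩
  exact {
    hal := by linarith
    he := hε
    hM := hM1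
    dz := fun s _ w hw => (e02_f hZ (hball w hw) s).1.differentiableAt.differentiableWithinAt
    dx := fun s _ w hw => (e02_f hX (hball w hw) s).1.differentiableAt.differentiableWithinAt
    dzs := fun s _ w hw => (e02_f hZ' (hball w hw) s).1.differentiableAt.differentiableWithinAt
    dxs := fun s _ w hw => (e02_f hX' (hball w hw) s).1.differentiableAt.differentiableWithinAt
    sz := fun w hw s _ => (e02_f hZ (hball w hw) s).2
    sx := fun w hw s _ => (e02_f hX (hball w hw) s).2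
    cz := fun w hw s _ => (e02_f hZ' (hball w hw) s).2.continuousAt.continuousWithinAt
    cx := fun w hw s _ => (e02_f hX' (hball w hw) s).2.continuousAt.continuousWithinAt
    mz := fun s _ => by
      have h1 : (fun s' : ℝ => deriv (fun w => Z (t + w + (s':ℂ))) 0) = fun s' : ℝ => deriv Z (t + 0 + (s':ℂ)) :=
        funext fun s' => (e02_f hZ h0 s').1.deriv
      rw [h1, (e02_f hZ' h0 s).1.deriv]
      exact (e02_f hZ' h0 s).2
    mx := fun s _ => by
      have h1 : (fun s' : ℝ => deriv (fun w => X (t + w + (s':ℂ))) 0) = fun s' : ℝ => deriv X (t + 0 + (s':ℂ)) :=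
        funext fun s' => (e02_f hX h0 s').1.deriv
      rw [h1, (e02_f hX' h0 s).1.deriv]
      exact (e02_f hX' h0 s).2
    kz := by
      have h1 : (fun s' : ℝ => deriv (fun w => deriv Z (t + w + (s':ℂ))) 0) =
          fun s' : ℝ => deriv (deriv Z) (t + 0 + (s':ℂ)) := funext fun s' => (e02_f hZ' h0 s').1.deriv
      rw [h1]
      exact fun s _ => (e02_f (hZ'.deriv hop) h0 s).2.continuousAt.continuousWithinAt
    kx := by
      have h1 : (fun s' : ℝ => deriv (fun w => deriv X (t + w + (s':ℂ))) 0) =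
          fun s' : ℝ => deriv (deriv X) (t + 0 + (s':ℂ)) := funext fun s' => (e02_f hX' h0 s').1.deriv
      rw [h1]
      exact fun s _ => (e02_f (hX'.deriv hop) h0 s).2.continuousAt.continuousWithinAt
    bd := fun w hw s _ => by
      obtain ⟨h1, -⟩ := H2 al hal a b ha hb Z X hN2 (t + w) (hball w hw)
      obtain ⟨h2, h3, h4⟩ := h1 s
      have hm := add_real_mem_band (hball w hw) s
      exact ⟨h2.trans hKM, h3.trans hKM, h4.trans hKM, hX'up _ hm, hMi.trans (hXlow _ hm)⟩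
    dn := ⟨hcomp dnz, hcomp dnx, hcomp det⟩
    bn := fun w hw => by
      obtain ⟨-, h2, h3, h4, h5, -⟩ := H2 al hal a b ha hb Z X hN2 (t + w) (hball w hw)
      exact ⟨h2.trans hKM, h3.trans hKM, h5.trans hKM, hMi.trans h4⟩
    yN := fun w hw s hs => by
      obtain ⟨-, -, -, h4, h5, h6, -⟩ := H1 al hal a b ha hb Z X hN1 (t + w) (hball w hw) s hs
      show yy al Z X (t + w) (s:ℂ) ^ 2 * (nx al Z (t + w) * X (t + w + (s:ℂ))) = _
      rw [h6, div_mul_cancel₀ _ (mul_ne_zero h4 h5)]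
    y0 := fun w hw s hs => by
      obtain ⟨h1, h2, -⟩ := H1 al hal a b ha hb Z X hN1 (t + w) (hball w hw) s hs
      exact ⟨h1, h2⟩
    dy := fun s hs w hw => by
      obtain ⟨-, -, -, -, -, -, h7, -⟩ := H1 al hal a b ha hb Z X hN1 (t + w) (hball w hw) s hs
      exact (DifferentiableAt.comp (g := fun t => yy al Z X t (s:ℂ)) w h7 (by fun_prop)).differentiableWithinAt
    cy := fun w hw s hs => by
      obtain ⟨-, -, -, -, -, -, -, h8, -⟩ := H1 al hal a b ha hb Z X hN1 (t + w) (hball w hw) s hs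
      exact h8.continuousWithinAt
    sy := fun s hs => by
      obtain ⟨-, -, -, -, -, -, -, -, y', h9⟩ := H1 al hal a b ha hb Z X hN1 (t + 0) h0 s hs
      exact h9.differentiableAt
    ty := H3 al hal a b ha hb Z X hN3 (t + 0) h0 }

/-- linearity for the moments -/
theorem e02_lin {al M : ℝ} (hal : 0 ≤ al) {Z X : ℂ → ℂ} {t : ℂ}
    (hc : ∀ j : ℕ, ContinuousOn (c01a al j Z X t) (Ioo (-al) al))
    (hb : ∀ j ≤ 2, ∀ s ∈ Ioo (-al) al, ‖c01a al j Z X t s‖ ≤ M) (A B C : ℂ) {F : ℝ → ℂ}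
    (hF : ∀ s ∈ Ioo (-al) al, F s = A * c01a al 0 Z X t s + B * c01a al 1 Z X t s + C * c01a al 2 Z X t s) :
    ∫ s in (-al)..al, F s = A * aj al 0 Z X t + B * aj al 1 Z X t + C * aj al 2 Z X t := by
  have i0 : IntervalIntegrable (c01a al 0 Z X t) volume (-al) al := e02_int hal (hc 0) (hb 0 (by norm_num))
  have i1 : IntervalIntegrable (c01a al 1 Z X t) volume (-al) al := e02_int hal (hc 1) (hb 1 (by norm_num))
  have i2 : IntervalIntegrable (c01a al 2 Z X t) volume (-al) al := e02_int hal (hc 2) (hb 2 (by norm_num))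
  have h1 : ∫ s in (-al)..al, F s = ∫ s in (-al)..al,
      (A * c01a al 0 Z X t s + B * c01a al 1 Z X t s + C * c01a al 2 Z X t s) := by
    rw [intervalIntegral.integral_of_le (by linarith), intervalIntegral.integral_of_le (by linarith),
      integral_Ioc_eq_integral_Ioo, integral_Ioc_eq_integral_Ioo]
    exact setIntegral_congr_fun measurableSet_Ioo hF
  rw [h1, intervalIntegral.integral_add ((i0.const_mul A).add (i1.const_mul B)) (i2.const_mul C),
    intervalIntegral.integral_add (i0.const_mul A) (i1.const_mul B), intervalIntegral.integral_const_mul,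
    intervalIntegral.integral_const_mul, intervalIntegral.integral_const_mul]
  rfl

/-- from the derivative in `w` to the derivative in `t` -/
theorem e02_shift {f : ℂ → ℂ} {t D : ℂ} (h : HasDerivAt (fun w => f (t + w)) D 0) : HasDerivAt f D t := by
  have h1 : HasDerivAt (fun w => f (t + w)) D (t - t) := by
    rw [sub_self]
    exact h
  have h2 := HasDerivAt.comp_sub_const t t h1
  simpa using h2

theorem e02_shift' {f : ℂ → ℂ} {t D : ℂ} (h : HasDerivAt f D t) : deriv (fun w => f (t + w)) 0 = D := by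
  have h1 : HasDerivAt f D (t + 0) := by
    rw [add_zero]
    exact h
  exact (HasDerivAt.comp_const_add t 0 h1).deriv

/-- Apply `core_V` (`i = 0, 1`), `core_P` with `z w s = Z (t + w + s)`, `x w s = X (t + w + s)`, `y w s = yy al Z X (t + w) s`, plane
`(nz, nx, et)(t + w)`. Now `zw = zs`, `xw = xs` at `w = 0`, so the first integral vanishes, and as in E01
`n'.p - et' = - (1/2) ((1+τ) np + (1-τ) nm)`. -/
theorem trans_deriv (R : ℝ) (hR : 1 < R) : ∃ c0 : ℝ, 0 < c0 ∧ ∀ al ∈ JJ, ∀ a b : ℝ, 1 ≤ a → b ≤ R →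
    ∀ Z X : ℂ → ℂ, NB c0 a b Z X → ∀ t ∈ band a b,
      HasDerivAt (Vf al Z X) (- (aj al 0 Z X t + aj al 1 Z X t) * np al Z X t - (aj al 0 Z X t - aj al 1 Z X t) * nm al Z X t) t ∧
      HasDerivAt (Pzf al Z X) (- cfp al Z X Z t * np al Z X t - cfm al Z X Z t * nm al Z X t) t ∧
      HasDerivAt (Pxf al Z X) (- cfp al Z X X t * np al Z X t - cfm al Z X X t * nm al Z X t) t ∧
      HasDerivAt (Sf al Z X) (deriv (nz al X) t * Pzf al Z X t + deriv (nx al Z) t * Pxf al Z X t -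
        deriv (et al Z X) t * Vf al Z X t) t := by
  obtain ⟨c1, hc1, H1⟩ := yy_basic R hR
  obtain ⟨c2, K, hc2, hK, H2⟩ := c01_bounds R hR
  obtain ⟨c3, hc3, H3⟩ := e02_core R hR
  refine ⟨min c1 (min c2 c3), by positivity, fun al hal a b ha hb Z X hN t ht => ?_⟩
  have hN1 := c01_NB_mono hN (min_le_left _ _)
  have hN2 := c01_NB_mono hN ((min_le_right _ _).trans (min_le_left _ _))
  have hN3 := c01_NB_mono hN ((min_le_right _ _).trans (min_le_right _ _))
  obtain ⟨hJ1, hJ2, -, -, -, -, -⟩ := JJ_bounds hal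
  have hal0 : 0 ≤ al := by linarith
  have hZ := hN.dZ
  have hX := hN.dX
  obtain ⟨ε, M, hC⟩ := H3 al hal a b ha hb Z X hN3 t ht
  obtain ⟨pz, px, pe⟩ := e02_plane hZ hX ht al
  have h0 : t + 0 ∈ band a b := by simpa using ht
  -- bounds
  obtain ⟨b1, b2, b3, b4, b5, b6⟩ := H2 al hal a b ha hb Z X hN2 t ht
  have hcont : ∀ j : ℕ, ContinuousOn (c01a al j Z X t) (Ioo (-al) al) :=
    (c01_cont hZ hX ht (fun s hs => ⟨(b6 s hs).1, (b6 s hs).2.2.2.2⟩)).2.2.2
  have hbd : ∀ j ≤ 2, ∀ s ∈ Ioo (-al) al, ‖c01a al j Z X t s‖ ≤ K ^ 5 := by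
    intro j hj s hs
    obtain ⟨hZs, hXs, hZ's⟩ := b1 s
    obtain ⟨-, -, hU, htau, -⟩ := b6 s hs
    have e1 : ‖c01a al j Z X t s‖ ≤ K ^ j * (K * K) * K / 1 := by
      unfold c01a
      rw [norm_div, norm_mul, norm_mul, norm_mul, norm_neg, norm_pow]
      gcongr
    have e2 : K ^ j * (K * K) * K / 1 = K ^ (j + 3) := by
      rw [pow_add]
      ring
    rw [e2] at e1
    exact e1.trans (pow_le_pow_right₀ hK (by omega))
  -- derivative data at `w = 0`
  have dz0 : ∀ s : ℝ, deriv (fun w => Z (t + w + (s:ℂ))) 0 = deriv Z (t + (s:ℂ)) := fun s => by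
    have := (e02_f hZ h0 s).1.deriv
    rwa [add_zero] at this
  have dx0 : ∀ s : ℝ, deriv (fun w => X (t + w + (s:ℂ))) 0 = deriv X (t + (s:ℂ)) := fun s => by
    have := (e02_f hX h0 s).1.deriv
    rwa [add_zero] at this
  have ez := e02_shift' pz
  have ex := e02_shift' px
  have ee := e02_shift' pe
  -- the point on the chord
  have pt : ∀ s ∈ Ioo (-al) al, Z (t + (s:ℂ)) = md al Z t + tau al Z t (s:ℂ) * df al Z t ∧
      X (t + (s:ℂ)) * (1 - yy al Z X t (s:ℂ) ^ 2) = md al X t + tau al Z t (s:ℂ) * df al X t := by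
    intro s hs
    obtain ⟨-, -, -, h4, h5, h6, -⟩ := H1 al hal a b ha hb Z X hN1 t ht s hs
    exact e02_point h4 h5 h6
  have key : ∀ s ∈ Ioo (-al) al,
      (deriv X (t + (al:ℂ)) - deriv X (t - (al:ℂ))) / 2 * Z (t + (s:ℂ)) +
      (-((deriv Z (t + (al:ℂ)) - deriv Z (t - (al:ℂ))) / 2)) * (X (t + (s:ℂ)) * (1 - yy al Z X t (s:ℂ) ^ 2)) -
      ((deriv X (t + (al:ℂ)) - deriv X (t - (al:ℂ))) / 2 * md al Z t +
      nz al X t * ((deriv Z (t + (al:ℂ)) + deriv Z (t - (al:ℂ))) / 2) +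
      (-((deriv Z (t + (al:ℂ)) - deriv Z (t - (al:ℂ))) / 2) * md al X t +
      nx al Z t * ((deriv X (t + (al:ℂ)) + deriv X (t - (al:ℂ))) / 2))) =
    - (1/2) * ((1 + tau al Z t (s:ℂ)) * np al Z X t + (1 - tau al Z t (s:ℂ)) * nm al Z X t) := by
    intro s hs
    exact e02_key _ _ _ (pt s hs).1 (pt s hs).2
  -- the three derivatives
  have V := core_V hC 0
  have Pz := core_V hC 1
  have Px := core_P hC
  simp only [add_zero, dz0, dx0, ez, ex, ee, pow_zero, pow_one, mul_one] at V Pz Px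
  have z0 : ∀ g : ℝ → ℂ, (∫ s in (-al)..al, g s * (deriv X (t + (s:ℂ)) * deriv Z (t + (s:ℂ)) -
      deriv Z (t + (s:ℂ)) * deriv X (t + (s:ℂ)))) = 0 := by
    intro g
    have : ∀ s : ℝ, g s * (deriv X (t + (s:ℂ)) * deriv Z (t + (s:ℂ)) -
      deriv Z (t + (s:ℂ)) * deriv X (t + (s:ℂ))) = 0 := fun s => by ring
    simp only [this, intervalIntegral.integral_zero]
  rw [z0, zero_add] at V Pz Px
  have V2 := e02_shift (f := Vf al Z X) V
  have Pz2 := e02_shift (f := Pzf al Z X) Pz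
  have Px2 := e02_shift (f := Pxf al Z X) Px
  have hV : HasDerivAt (Vf al Z X) (- (aj al 0 Z X t + aj al 1 Z X t) * np al Z X t -
      (aj al 0 Z X t - aj al 1 Z X t) * nm al Z X t) t := by
    convert V2 using 1
    rw [e02_lin hal0 hcont hbd (-(1/2) * (np al Z X t + nm al Z X t)) (-(1/2) * (np al Z X t - nm al Z X t)) 0]
    · ring
    · intro s hs
      rw [key s hs]
      unfold c01a
      ring
  have hPz : HasDerivAt (Pzf al Z X) (- cfp al Z X Z t * np al Z X t - cfm al Z X Z t * nm al Z X t) t := by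
    convert Pz2 using 1
    rw [e02_lin hal0 hcont hbd (-(1/2) * (md al Z t * (np al Z X t + nm al Z X t)))
      (-(1/2) * (md al Z t * (np al Z X t - nm al Z X t) + df al Z t * (np al Z X t + nm al Z X t)))
      (-(1/2) * (df al Z t * (np al Z X t - nm al Z X t)))]
    · unfold cfp cfm
      ring
    · intro s hs
      rw [key s hs, (pt s hs).1]
      unfold c01a
      ring
  have hPx : HasDerivAt (Pxf al Z X) (- cfp al Z X X t * np al Z X t - cfm al Z X X t * nm al Z X t) t := by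
    convert Px2 using 1
    rw [e02_lin hal0 hcont hbd (-(1/2) * (md al X t * (np al Z X t + nm al Z X t)))
      (-(1/2) * (md al X t * (np al Z X t - nm al Z X t) + df al X t * (np al Z X t + nm al Z X t)))
      (-(1/2) * (df al X t * (np al Z X t - nm al Z X t)))]
    · unfold cfp cfm
      ring
    · intro s hs
      rw [key s hs, (pt s hs).2]
      unfold c01a
      ring
  refine ⟨hV, hPz, hPx, ?_⟩
  have hS := ((pz.mul hPz).add (px.mul hPx)).sub (pe.mul hV)
  rw [pz.deriv, px.deriv, pe.deriv]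
  refine hS.congr_deriv ?_
  obtain ⟨h4, h5⟩ := e02_chord (al := al) (Z := Z) (X := X) (t := t)
  unfold cfp cfm
  rw [h5]
  linear_combination -(np al Z X t * (aj al 1 Z X t + aj al 2 Z X t) +
    nm al Z X t * (aj al 1 Z X t - aj al 2 Z X t)) * h4

theorem np_eq (al : ℝ) (hal : Real.sin al ≠ 0) (Z X : ℂ → ℂ) (t : ℂ) :
    np al Z X t = - (Real.sin al : ℂ) ^ 2 * chip al Z X t ∧ nm al Z X t = (Real.sin al : ℂ) ^ 2 * chim al Z X t := by
  have h : (Real.sin al : ℂ) ≠ 0 := by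
    rw [Ne, ofReal_eq_zero]
    exact hal
  unfold np nm chip chim
  refine ⟨?_, ?_⟩
  · field_simp
  · field_simp

end FB
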