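import Pool.Agent.H48.FB.D03
import Pool.Agent.H48.FB.E02
import Pool.Agent.H48.FB.A06

/-! D04: the functionals extend from the upper band as even/odd functions. -/

open Complex Set MeasureTheory Filter Topology

noncomputable section

namespace FB

/-! ### auxiliary lemmas -/

theorem d04_FOk_mono {c c' : ℝ} {Z X F : ℂ → ℂ} (h : FOk c Z X F) (hc : c ≤ c') : FOk c' Z X F where
  d := h.d
  n := fun z hz => (h.n z hz).trans hc
  e := h.e
  v := h.v

theorem d04_FNB {c a b : ℝ} {Z X : ℂ → ℂ} (h : NB c a b Z X) :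
    FNB c a b (fun _ => Z) (fun _ => X) where
  fZ := Fam.const h.dZ
  fX := Fam.const h.dX
  nb := fun _ => h

def d04_e : EE := ⟨0, by norm_num, by norm_num⟩

theorem OddExt.sub' {f g : ℂ → ℂ} {a b : ℝ} (h : OddExt a b f) (h' : OddExt a b g) :
    OddExt a b (fun z => f z - g z) :=
  (h.add h'.neg).congr fun z _ => by ring

theorem OddExt.mul_even {f g : ℂ → ℂ} {a b : ℝ} (h : OddExt a b f) (h' : EvenExt a b g) :
    OddExt a b (fun z => f z * g z) :=
  (h'.mul_odd h).congr fun z _ => by ring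

theorem d04_two_pi {f : ℂ → ℂ} {a b : ℝ} (h : ∀ t ∈ band a b, f (t + (Real.pi : ℂ)) = f t) :
    ∀ t ∈ band a b, f (t + 2 * (Real.pi : ℂ)) = f t := by
  intro t ht
  have h1 : t + 2 * (Real.pi : ℂ) = (t + (Real.pi : ℂ)) + (Real.pi : ℂ) := by ring
  rw [h1, h _ (add_real_mem_band ht Real.pi), h t ht]

theorem d04_two_pi' {f : ℂ → ℂ} {a b : ℝ} (h : ∀ t ∈ band a b, f (t + (Real.pi : ℂ)) = - f t) :
    ∀ t ∈ band a b, f (t + 2 * (Real.pi : ℂ)) = f t := by
  intro t ht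
  have h1 : t + 2 * (Real.pi : ℂ) = (t + (Real.pi : ℂ)) + (Real.pi : ℂ) := by ring
  rw [h1, h _ (add_real_mem_band ht Real.pi), h t ht, neg_neg]

/-- the moments extend -/
theorem d04_aj (R : ℝ) (hR : 3 ≤ R) : ∃ c0 : ℝ, 0 < c0 ∧ ∀ al ∈ JJ, ∀ r : ℝ, 3 ≤ r → r ≤ R →
    ∀ Z X : ℂ → ℂ, NB c0 (-r) r Z X → Sym r Z X →
      EvenExt 1 r (aj al 0 Z X) ∧ OddExt 1 r (aj al 1 Z X) ∧ EvenExt 1 r (aj al 2 Z X) := by
  obtain ⟨c1, C1, hc1, hC1, -, H1⟩ := exists_F
  obtain ⟨c2, C2, hc2, hC2, -, H2⟩ := hj_basic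
  obtain ⟨c3, hc3, H3⟩ := aj_eq_hj
  obtain ⟨c4, C4, hc4, hC4, H4⟩ := fam_functionals R (by linarith)
  have hC10 : 0 < C1 := by linarith
  refine ⟨min c1 (min (c2 / C1) (min (c3 / C1) c4)), by positivity, ?_⟩
  intro al hal r hr3 hrR Z X hNB hS
  set c0 : ℝ := min c1 (min (c2 / C1) (min (c3 / C1) c4)) with hc0
  have hc00 : 0 ≤ c0 := by rw [hc0]; positivity
  have l1 : c0 ≤ c1 := min_le_left _ _
  have l2 : c0 ≤ c2 / C1 := (min_le_right _ _).trans (min_le_left _ _)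
  have l3 : c0 ≤ c3 / C1 := (min_le_right _ _).trans ((min_le_right _ _).trans (min_le_left _ _))
  have l4 : c0 ≤ c4 := (min_le_right _ _).trans ((min_le_right _ _).trans (min_le_right _ _))
  have m2 : C1 * c0 ≤ c2 := by
    have := (le_div_iff₀ hC10).1 l2
    linarith
  have m3 : C1 * c0 ≤ c3 := by
    have := (le_div_iff₀ hC10).1 l3
    linarith
  have m0 : c0 ≤ C1 * c0 := by nlinarith
  obtain ⟨hF, -⟩ := H1 c0 hc00 l1 Z X (hNB.mono le_rfl (by linarith) (by linarith)) (hS.mono hr3)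
  have hN2 : NB (C1 * c0) (-2) 2 Z X := hNB.mono m0 (by linarith) (by linarith)
  have hS2 : Sym 2 Z X := hS.mono (by linarith)
  have Hj := H2 al hal (C1 * c0) (by positivity) m2 Z X (Fint Z X) hN2 hS2 hF
  have He := H3 al hal Z X (Fint Z X) (hN2.mono m3 le_rfl le_rfl) hS2 (d04_FOk_mono hF m3)
  have hN1 : NB c4 1 r Z X := hNB.mono l4 (by linarith) le_rfl
  obtain ⟨-, -, -, Fa, -, -⟩ := H4 al hal 1 r le_rfl (by linarith) hrR (fun _ => Z) (fun _ => X)
    (d04_FNB hN1)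
  have hAP : APer 1 r Z X := hS.aper (by linarith) le_rfl
  have hper : ∀ j, ∀ t ∈ band 1 r, aj al j Z X (t + 2 * (Real.pi : ℂ)) = aj al j Z X t := fun j =>
    d04_two_pi fun t ht => (functionals_pi hAP (by norm_num) ht).2.2.2.1 j
  have hsub : strip (3/2) ⊆ strip (8/5) := band_subset (by norm_num) (by norm_num)
  refine ⟨?_, ?_, ?_⟩
  · refine evenExt_of_glue (h := hj al 0 Z X (Fint Z X)) (a' := 3/2) zero_le_one (by norm_num)
      (by linarith) ((Fa 0 (by norm_num)).diff d04_e) (hper 0) ((Hj 0).1.mono hsub) ?_ (He 0)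
    intro z hz
    rw [((Hj 0).2.1 z (hsub hz)).1, pow_zero, one_mul]
  · refine oddExt_of_glue (h := hj al 1 Z X (Fint Z X)) (a' := 3/2) zero_le_one (by norm_num)
      (by linarith) ((Fa 1 (by norm_num)).diff d04_e) (hper 1) ((Hj 1).1.mono hsub) ?_ (He 1)
    intro z hz
    rw [((Hj 1).2.1 z (hsub hz)).1, pow_one, neg_one_mul]
  · refine evenExt_of_glue (h := hj al 2 Z X (Fint Z X)) (a' := 3/2) zero_le_one (by norm_num)
      (by linarith) ((Fa 2 (by norm_num)).diff d04_e) (hper 2) ((Hj 2).1.mono hsub) ?_ (He 2)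
    intro z hz
    rw [((Hj 2).2.1 z (hsub hz)).1]
    norm_num

/-- `aj`: `evenExt_of_glue`, `oddExt_of_glue` with `a = 1`, `a' = 3/2`, `h = hj`. `V' = sin^2 al [(a0+a1) chip - (a0-a1) chim]` (`trans_deriv`, `np_eq`):
the extension of this function changes sign under `t → -t` (`a0` even, `a1` odd, `chip(-t) = chim t`), so `V'` is `OddExt`, `V` is `EvenExt`
(`EvenExt.of_deriv`). Write `V' = sin^2 al [a0 (chip - chim) + a1 (chip + chim)]` with `chip - chim` odd, `chip + chim` even on the strip.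
`Pz' = - cfp np - cfm nm`: with `z_m` even, `z_d` odd: odd, so `Pz` even. `Px'`: `x_m` odd, `x_d` even: even, so `Px` odd (`OddExt.of_deriv`,
antiperiodic by `functionals_pi`). `S = nz Pz + nx Px - et V`: even. Analyticity on `band 1 r`: C01 with constant families. -/
theorem ext_basic (R : ℝ) (hR : 3 ≤ R) : ∃ c0 : ℝ, 0 < c0 ∧ ∀ al ∈ JJ, ∀ r : ℝ, 3 ≤ r → r ≤ R → ∀ Z X : ℂ → ℂ,
    NB c0 (-r) r Z X → Sym r Z X →
      EvenExt 1 r (aj al 0 Z X) ∧ OddExt 1 r (aj al 1 Z X) ∧ EvenExt 1 r (aj al 2 Z X) ∧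
      EvenExt 1 r (Vf al Z X) ∧ EvenExt 1 r (Pzf al Z X) ∧ OddExt 1 r (Pxf al Z X) ∧ EvenExt 1 r (Sf al Z X) ∧
      EvenExt 1 r (Bt al Z X) := by
  obtain ⟨c1, hc1, H1⟩ := d04_aj R hR
  obtain ⟨c4, C4, hc4, hC4, H4⟩ := fam_functionals R (by linarith)
  obtain ⟨c5, hc5, H5⟩ := trans_deriv R (by linarith)
  refine ⟨min c1 (min c4 c5), by positivity, ?_⟩
  intro al hal r hr3 hrR Z X hNB hS
  have l1 : min c1 (min c4 c5) ≤ c1 := min_le_left _ _
  have l4 : min c1 (min c4 c5) ≤ c4 := (min_le_right _ _).trans (min_le_left _ _)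
  have l5 : min c1 (min c4 c5) ≤ c5 := (min_le_right _ _).trans (min_le_right _ _)
  obtain ⟨A0, A1, A2⟩ := H1 al hal r hr3 hrR Z X (hNB.mono l1 le_rfl le_rfl) hS
  have hr1 : (1:ℝ) < r := by linarith
  obtain ⟨FV, FPz, FPx, -, -, -⟩ := H4 al hal 1 r le_rfl hr1 hrR (fun _ => Z) (fun _ => X)
    (d04_FNB (hNB.mono l4 (by linarith) le_rfl))
  have hT := H5 al hal 1 r le_rfl hrR Z X (hNB.mono l5 (by linarith) le_rfl)
  have hAP : APer 1 r Z X := hS.aper (by linarith) le_rfl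
  have hpi := fun t (ht : t ∈ band 1 r) => functionals_pi (al := al) hAP (by norm_num) ht
  have hsin : Real.sin al ≠ 0 := by
    obtain ⟨-, -, -, -, -, h, -⟩ := JJ_bounds hal
    linarith
  obtain ⟨cev, cpe⟩ := cSym_of_sym (al := al) hS
  -- chord quantities on the strip
  obtain ⟨fmZ, fmX, fnz, fnx, fet, fcp, fcm⟩ := fam_chord (al := al) (a := -r) (b := r)
    (Z := fun _ => Z) (X := fun _ => X) (Fam.const hNB.dZ) (Fam.const hNB.dX)
  have dmZ := fmZ.diff d04_e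
  have dmX := fmX.diff d04_e
  have dnz := fnz.diff d04_e
  have dnx := fnx.diff d04_e
  have det := fet.diff d04_e
  have dcp := fcp.diff d04_e
  have dcm := fcm.diff d04_e
  have hneg : ∀ z ∈ strip r, -z ∈ strip r := fun z hz => neg_mem_strip hz
  have cme : ∀ z ∈ strip r, chim al Z X (-z) = chip al Z X z := by
    intro z hz
    have h1 := (cev (-z) (hneg z hz)).2.2.2.2.2.1
    rw [neg_neg] at h1
    exact h1.symm
  have hpp : ∀ z ∈ strip r, chip al Z X (z + 2 * (Real.pi:ℂ)) = chip al Z X z :=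
    d04_two_pi fun t ht => (cpe t ht).2.2.2.2.2.1
  have hpm : ∀ z ∈ strip r, chim al Z X (z + 2 * (Real.pi:ℂ)) = chim al Z X z :=
    d04_two_pi fun t ht => (cpe t ht).2.2.2.2.2.2
  have Esum : EvenExt 1 r (fun z => chip al Z X z + chim al Z X z) :=
    EvenExt.of_strip (by linarith) (dcp.add dcm)
      (fun z hz => by rw [hpp z hz, hpm z hz])
      (fun z hz => by rw [(cev z hz).2.2.2.2.2.1, cme z hz]; ring)
  have Odif : OddExt 1 r (fun z => chip al Z X z - chim al Z X z) :=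
    OddExt.of_strip (by linarith) (dcp.sub dcm)
      (fun z hz => by rw [hpp z hz, hpm z hz])
      (fun z hz => by rw [(cev z hz).2.2.2.2.2.1, cme z hz]; ring)
  have pZ : ∀ z ∈ strip r, Z (z + 2 * (Real.pi:ℂ)) = Z z := d04_two_pi' hS.aZ
  have pX : ∀ z ∈ strip r, X (z + 2 * (Real.pi:ℂ)) = X z := d04_two_pi' hS.aX
  have sh1 : ∀ z : ℂ, z + 2 * (Real.pi:ℂ) + (al:ℂ) = (z + (al:ℂ)) + 2 * (Real.pi:ℂ) := fun z => by ring
  have sh2 : ∀ z : ℂ, z + 2 * (Real.pi:ℂ) - (al:ℂ) = (z - (al:ℂ)) + 2 * (Real.pi:ℂ) := fun z => by ring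
  have EmZ : EvenExt 1 r (md al Z) := by
    refine EvenExt.of_strip (by linarith) dmZ (fun z hz => ?_) (fun z hz => ?_)
    · simp only [md, sh1, sh2]
      rw [pZ _ (add_real_mem_band hz al), pZ _ (sub_real_mem_band hz al)]
    · simp only [md, (shift_neg z al).1, (shift_neg z al).2]
      rw [hS.eZ _ (sub_real_mem_band hz al), hS.eZ _ (add_real_mem_band hz al)]
      ring
  have OmX : OddExt 1 r (md al X) := by
    refine OddExt.of_strip (by linarith) dmX (fun z hz => ?_) (fun z hz => ?_)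
    · simp only [md, sh1, sh2]
      rw [pX _ (add_real_mem_band hz al), pX _ (sub_real_mem_band hz al)]
    · simp only [md, (shift_neg z al).1, (shift_neg z al).2]
      rw [hS.oX _ (sub_real_mem_band hz al), hS.oX _ (add_real_mem_band hz al)]
      ring
  have Enz : EvenExt 1 r (nz al X) := by
    refine EvenExt.of_strip (by linarith) dnz (fun z hz => ?_) (fun z hz => (cev z hz).2.2.2.2.2.2.1)
    simp only [nz, df, sh1, sh2]
    rw [pX _ (add_real_mem_band hz al), pX _ (sub_real_mem_band hz al)]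
  have Onx : OddExt 1 r (nx al Z) := by
    refine OddExt.of_strip (by linarith) dnx (fun z hz => ?_) (fun z hz => (cev z hz).2.2.2.2.2.2.2)
    simp only [nx, df, sh1, sh2]
    rw [pZ _ (add_real_mem_band hz al), pZ _ (sub_real_mem_band hz al)]
  have Eet : EvenExt 1 r (et al Z X) :=
    EvenExt.of_strip (by linarith) det (d04_two_pi fun t ht => (cpe t ht).2.2.2.2.1)
      (fun z hz => (cev z hz).2.2.2.2.1)
  have Esin : EvenExt 1 r (fun _ => (Real.sin al : ℂ) ^ 2) := EvenExt.const _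
  -- the derivatives
  have hV : EvenExt 1 r (Vf al Z X) := by
    refine EvenExt.of_deriv zero_le_one hr1 (FV.diff d04_e) (d04_two_pi fun t ht => (hpi t ht).1) ?_
    have h1 := Esin.mul_odd ((A0.mul_odd Odif).add (A1.mul_even Esum))
    refine h1.congr fun z hz => ?_
    rw [(hT z hz).1.deriv, (np_eq al hsin Z X z).1, (np_eq al hsin Z X z).2]
    ring
  have hPz : EvenExt 1 r (Pzf al Z X) := by
    refine EvenExt.of_deriv zero_le_one hr1 (FPz.diff d04_e)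
      (d04_two_pi' fun t ht => (hpi t ht).2.1) ?_
    have h1 := Esin.mul_odd (((EmZ.mul A0).mul_odd Odif).add (((EmZ.mul_odd A1).mul_even Esum).sub'
      (((Onx.mul A1).mul_odd Odif).add ((Onx.mul_even A2).mul_even Esum))))
    refine h1.congr fun z hz => ?_
    rw [(hT z hz).2.1.deriv, (np_eq al hsin Z X z).1, (np_eq al hsin Z X z).2]
    simp only [cfp, cfm]
    rw [c01_df]
    ring
  have hPx : OddExt 1 r (Pxf al Z X) := by
    refine OddExt.of_deriv zero_le_one hr1 (FPx.diff d04_e) (fun t ht => (hpi t ht).2.2.1) ?_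
    have h1 := Esin.mul (((OmX.mul_even A0).mul Odif).add (((OmX.mul A1).mul Esum).add
      (((Enz.mul_odd A1).mul Odif).add ((Enz.mul A2).mul Esum))))
    refine h1.congr fun z hz => ?_
    rw [(hT z hz).2.2.1.deriv, (np_eq al hsin Z X z).1, (np_eq al hsin Z X z).2]
    simp only [cfp, cfm, nz]
    ring
  refine ⟨A0, A1, A2, hV, hPz, hPx, ?_, ?_⟩
  · exact ((Enz.mul hPz).add (Onx.mul hPx)).sub (Eet.mul hV)
  · have h1 := (EvenExt.const (a := 1) (b := r) ((Real.sin al : ℂ) ^ 2 / 2)).mul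
      ((A0.mul Esum).add (A1.mul Odif))
    refine h1.congr fun z hz => ?_
    simp only [Bt]
    ring

/-! ### closeness of products -/

/-- `a`, `a0` are bounded by `A` and `D`-close -/
structure Cl (A D : ℝ) (a a0 : ℂ) : Prop where
  l : ‖a‖ ≤ A
  r : ‖a0‖ ≤ A
  d : ‖a - a0‖ ≤ D

theorem Cl.mul {A B D E : ℝ} {a a0 b b0 : ℂ} (h : Cl A D a a0) (h' : Cl B E b b0) :
    Cl (A * B) (A * E + B * D) (a * b) (a0 * b0) := by
  have hA : 0 ≤ A := (norm_nonneg _).trans h.l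
  have hD : 0 ≤ D := (norm_nonneg _).trans h.d
  refine ⟨?_, ?_, ?_⟩
  · rw [norm_mul]
    exact mul_le_mul h.l h'.l (norm_nonneg _) hA
  · rw [norm_mul]
    exact mul_le_mul h.r h'.r (norm_nonneg _) hA
  · have e : a * b - a0 * b0 = a * (b - b0) + b0 * (a - a0) := by ring
    rw [e]
    refine (norm_add_le _ _).trans ?_
    rw [norm_mul, norm_mul]
    exact add_le_add (mul_le_mul h.l h'.d (norm_nonneg _) hA)
      (mul_le_mul h'.r h.d (norm_nonneg _) ((norm_nonneg _).trans h'.r))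

theorem Cl.mono {A B D E : ℝ} {a a0 : ℂ} (h : Cl A D a a0) (h1 : A ≤ B) (h2 : D ≤ E) :
    Cl B E a a0 := ⟨h.l.trans h1, h.r.trans h1, h.d.trans h2⟩

theorem Cl.neg {A D : ℝ} {a a0 : ℂ} (h : Cl A D a a0) : Cl A D (-a) (-a0) := by
  refine ⟨by rw [norm_neg]; exact h.l, by rw [norm_neg]; exact h.r, ?_⟩
  rw [← neg_sub', norm_neg]
  exact h.d

/-- `Uf` is Lipschitz -/
theorem d04_Uf_lip : ∃ L : ℝ, 0 ≤ L ∧ ∀ y y' : ℂ, ‖y‖ ^ 2 ≤ 1/2 → ‖y'‖ ^ 2 ≤ 1/2 →
    ‖Uf y - Uf y'‖ ≤ L * ‖y - y'‖ := by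
  have hopen : IsOpen {y : ℂ | ‖y‖ ^ 2 < 2} :=
    isOpen_lt (continuous_norm.pow 2) continuous_const
  have hsub : Metric.closedBall (0:ℂ) 1 ⊆ {y : ℂ | ‖y‖ ^ 2 < 2} := by
    intro y hy
    rw [mem_closedBall_zero_iff] at hy
    show ‖y‖ ^ 2 < 2
    have := norm_nonneg y
    nlinarith
  have hd : ContinuousOn (deriv Uf) (Metric.closedBall (0:ℂ) 1) :=
    ((c01_Uf_diff.deriv hopen).continuousOn).mono hsub
  obtain ⟨L, hL⟩ := (isCompact_closedBall (0:ℂ) 1).exists_bound_of_continuousOn hd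
  have hL0 : 0 ≤ L := (norm_nonneg _).trans (hL 0 (by simp))
  refine ⟨L, hL0, fun y y' hy hy' => ?_⟩
  have m : ∀ y : ℂ, ‖y‖ ^ 2 ≤ 1/2 → y ∈ Metric.closedBall (0:ℂ) 1 := by
    intro y hy
    rw [mem_closedBall_zero_iff]
    have := norm_nonneg y
    nlinarith
  exact (convex_closedBall (0:ℂ) 1).norm_image_sub_le_of_norm_deriv_le
    (fun z hz => (c01_Uf_diff.differentiableAt (hopen.mem_nhds (hsub hz)))) hL (m y' hy') (m y hy)

theorem d04_rho {x n u : ℂ} {δ : ℝ} (h1 : δ ≤ 1/100) (hx : ‖x - 1‖ ≤ δ) (hn : ‖n - 1‖ ≤ δ)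
    (hu : ‖u - 1‖ ≤ δ) : ‖x / (n * u) - 1‖ ≤ 5 * δ := by
  have hδ : 0 ≤ δ := (norm_nonneg _).trans hx
  have hn1 : 1 - δ ≤ ‖n‖ := by
    have := norm_sub_norm_le (1:ℂ) (1 - n)
    rw [norm_one, sub_sub_cancel, norm_sub_rev] at this
    linarith
  have hu1 : 1 - δ ≤ ‖u‖ := by
    have := norm_sub_norm_le (1:ℂ) (1 - u)
    rw [norm_one, sub_sub_cancel, norm_sub_rev] at this
    linarith
  have hn2 : ‖n‖ ≤ 1 + δ := by
    have := norm_add_le (n - 1) 1
    rw [sub_add_cancel, norm_one] at this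
    linarith
  have hnu : 0.98 ≤ ‖n * u‖ := by
    rw [norm_mul]
    nlinarith
  have hnu0 : n * u ≠ 0 := by
    intro h
    rw [h, norm_zero] at hnu
    norm_num at hnu
  have e : x / (n * u) - 1 = ((x - 1) - (n * (u - 1) + (n - 1))) / (n * u) := by
    rw [eq_div_iff hnu0, sub_mul, div_mul_cancel₀ _ hnu0]
    ring
  rw [e, norm_div, div_le_iff₀ (by linarith)]
  have e1 : ‖(x - 1) - (n * (u - 1) + (n - 1))‖ ≤ δ + ((1 + δ) * δ + δ) := by
    refine (norm_sub_le _ _).trans (add_le_add hx ((norm_add_le _ _).trans (add_le_add ?_ hn)))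
    rw [norm_mul]
    exact mul_le_mul hn2 hu (norm_nonneg _) (by linarith)
  nlinarith

/-- pointwise closeness of the integrands of the moments -/
theorem d04_pt (R : ℝ) (hR : 3 ≤ R) : ∃ c0 M : ℝ, 0 < c0 ∧ 1 ≤ M ∧ ∀ al ∈ JJ, ∀ r c : ℝ, 3 ≤ r → r ≤ R →
    0 ≤ c → c ≤ c0 → ∀ Z X : ℂ → ℂ, NB c 1 r Z X → ∀ t ∈ band 1 r, ∀ s ∈ Ioo (-al) al, ∀ j ≤ 1,
      Cl M (M * c) (c01a al j Z X t s) (c01a al j cos sin t s) := by
  obtain ⟨c1, C1, hc1, hC1, hCc1, H1⟩ := chord_bd R (by linarith)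
  obtain ⟨c2, K, hc2, hK, H2⟩ := c01_bounds R (by linarith)
  obtain ⟨L, hL, HL⟩ := d04_Uf_lip
  set Q : ℝ := 4 * K ^ 2 with hQ
  set m : ℝ := 4 * K + 2 + L * (5 * C1) with hm
  have hm0 : 0 ≤ m := by positivity
  refine ⟨min c1 c2, 16 * K ^ 4 * (m + 1), by positivity, ?_, ?_⟩
  · have h1 : 1 ≤ K ^ 4 := one_le_pow₀ hK
    nlinarith
  intro al hal r c hr3 hrR hc0 hc Z X hNB t ht s hs j hj
  have hcc1 : c ≤ c1 := hc.trans (min_le_left _ _)
  have hcc2 : c ≤ c2 := hc.trans (min_le_right _ _)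
  have hC0 : 0 ≤ C1 := by linarith
  obtain ⟨ch, hxi, hchi⟩ := H1 al hal 1 r c le_rfl hrR hc0 hcc1 Z X hNB t ht
  obtain ⟨ch', hxi', hchi'⟩ := H1 al hal 1 r 0 le_rfl hrR le_rfl hc1.le cos sin (NB_circle 1 r) t ht
  obtain ⟨b1, b2, b3, b4, b5, b6⟩ := H2 al hal 1 r le_rfl hrR Z X (c01_NB_mono hNB hcc2) t ht
  obtain ⟨b1', b2', b3', b4', b5', b6'⟩ := H2 al hal 1 r le_rfl hrR cos sin
    (c01_NB_mono (NB_circle 1 r) hc2.le) t ht
  obtain ⟨hZ, hX, hZ'⟩ := b1 s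
  obtain ⟨hZ0, hX0, hZ0'⟩ := b1' s
  obtain ⟨y1, -, y3, y4, -⟩ := b6 s hs
  obtain ⟨y1', -, y3', y4', -⟩ := b6' s hs
  have htp : ∀ s : ℝ, t + (s:ℂ) ∈ band 1 r := fun s => add_real_mem_band ht s
  have htm : ∀ s : ℝ, t - (s:ℂ) ∈ band 1 r := fun s => sub_real_mem_band ht s
  -- the variable yy
  have hCcle : C1 * c ≤ 1/100 := (mul_le_mul_of_nonneg_left hcc1 hC0).trans hCc1
  have hrho : ‖rho al Z X t (s:ℂ) - 1‖ ≤ 5 * (C1 * c) :=
    d04_rho hCcle (hchi s hs) ch.nu (hxi s)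
  have hrho0 : rho al cos sin t (s:ℂ) = 1 := by
    have h1 : ‖rho al cos sin t (s:ℂ) - 1‖ ≤ 5 * (C1 * 0) :=
      d04_rho (by norm_num) (hchi' s hs) ch'.nu (hxi' s)
    rw [mul_zero, mul_zero] at h1
    exact sub_eq_zero.1 (norm_le_zero_iff.1 h1)
  have hyy0 : yy al cos sin t (s:ℂ) = kk al s * q0 t s := by
    rw [yy_eq, hrho0, one_cpow, mul_one]
  have hyy : yy al Z X t (s:ℂ) - yy al cos sin t (s:ℂ) =
      yy al cos sin t (s:ℂ) * (rho al Z X t (s:ℂ) ^ ((1:ℂ)/2) - 1) := by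
    rw [hyy0, yy_eq]
    ring
  have hy0 : ‖yy al cos sin t (s:ℂ)‖ ≤ 1 := by
    have := norm_nonneg (yy al cos sin t (s:ℂ))
    nlinarith
  have hsq : ‖rho al Z X t (s:ℂ) ^ ((1:ℂ)/2) - 1‖ ≤ 5 * (C1 * c) := by
    have h1 := b01_sqrt_close (z := rho al Z X t (s:ℂ)) (σ := 1) (d := 5 * (C1 * c)) one_pos
      (by simpa using hrho)
    simpa using h1
  have hyd : ‖yy al Z X t (s:ℂ) - yy al cos sin t (s:ℂ)‖ ≤ 5 * C1 * c := by
    rw [hyy, norm_mul]
    calc _ ≤ 1 * (5 * (C1 * c)) := mul_le_mul hy0 hsq (norm_nonneg _) zero_le_one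
      _ = _ := by ring
  have cU : Cl K (L * (5 * C1) * c) (Uf (yy al Z X t (s:ℂ))) (Uf (yy al cos sin t (s:ℂ))) := by
    refine ⟨y3, y3', (HL _ _ y1 y1').trans ?_⟩
    calc _ ≤ L * (5 * C1 * c) := mul_le_mul_of_nonneg_left hyd hL
      _ = _ := by ring
  -- the other factors
  have cX : Cl K (1 * c) (X (t + s)) (sin (t + s)) := ⟨hX, hX0, by rw [one_mul]; exact hNB.x0 _ (htp s)⟩
  have cD : Cl K (1 * c) (- deriv Z (t + s)) (- deriv cos (t + s)) := by
    refine Cl.neg ⟨hZ', hZ0', ?_⟩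
    rw [one_mul, Complex.deriv_cos, sub_neg_eq_add]
    exact hNB.z1 _ (htp s)
  have hnd : ‖nx al Z t - nx al cos t‖ ≤ c := by
    have e : nx al Z t - nx al cos t = -((Z (t + al) - cos (t + al)) - (Z (t - al) - cos (t - al))) / 2 := by
      simp only [nx, df]
      ring
    have h1 := norm_sub_le (Z (t + al) - cos (t + al)) (Z (t - al) - cos (t - al))
    have h2 := hNB.z0 _ (htp al)
    have h3 := hNB.z0 _ (htm al)
    rw [e, norm_div, norm_neg]
    have h4 : ‖(2:ℂ)‖ = 2 := by norm_num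
    rw [h4]
    linarith
  have hmd : ‖md al Z t - md al cos t‖ ≤ c := by
    have e : md al Z t - md al cos t = ((Z (t + al) - cos (t + al)) + (Z (t - al) - cos (t - al))) / 2 := by
      simp only [md]
      ring
    have h1 := norm_add_le (Z (t + al) - cos (t + al)) (Z (t - al) - cos (t - al))
    have h2 := hNB.z0 _ (htp al)
    have h3 := hNB.z0 _ (htm al)
    rw [e, norm_div]
    have h4 : ‖(2:ℂ)‖ = 2 := by norm_num
    rw [h4]
    linarith
  have hmK : ∀ W : ℂ → ℂ, (∀ s : ℝ, ‖W (t + s)‖ ≤ K) → ‖md al W t‖ ≤ K := by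
    intro W hW
    have h1 := hW al
    have h2 := hW (-al)
    rw [Complex.ofReal_neg, ← sub_eq_add_neg] at h2
    have h3 := norm_add_le (W (t + al)) (W (t - al))
    simp only [md]
    rw [norm_div]
    have h4 : ‖(2:ℂ)‖ = 2 := by norm_num
    rw [h4]
    linarith
  have cP : Cl (2 * K) (2 * c) (Z (t + s) - md al Z t) (cos (t + s) - md al cos t) := by
    refine ⟨?_, ?_, ?_⟩
    · refine (norm_sub_le _ _).trans ?_
      have := hmK Z fun s => (b1 s).1
      linarith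
    · refine (norm_sub_le _ _).trans ?_
      have := hmK cos fun s => (b1' s).1
      linarith
    · have e : (Z (t + s) - md al Z t) - (cos (t + s) - md al cos t) =
        (Z (t + s) - cos (t + s)) - (md al Z t - md al cos t) := by ring
      rw [e]
      refine (norm_sub_le _ _).trans ?_
      have := hNB.z0 _ (htp s)
      linarith
  have hnx0 : nx al Z t ≠ 0 := by
    intro h
    rw [h, norm_zero] at b4
    linarith
  have hnx0' : nx al cos t ≠ 0 := by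
    intro h
    rw [h, norm_zero] at b4'
    linarith
  have cN : Cl 1 (1 * c) (nx al Z t)⁻¹ (nx al cos t)⁻¹ := by
    refine ⟨?_, ?_, ?_⟩
    · rw [norm_inv]
      exact inv_le_one_of_one_le₀ b4
    · rw [norm_inv]
      exact inv_le_one_of_one_le₀ b4'
    · have e : (nx al Z t)⁻¹ - (nx al cos t)⁻¹ =
        (nx al Z t)⁻¹ * (nx al cos t)⁻¹ * (nx al cos t - nx al Z t) := by
        field_simp
      rw [e, norm_mul, norm_mul, norm_inv, norm_inv, norm_sub_rev]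
      have i1 := inv_le_one_of_one_le₀ b4
      have i2 := inv_le_one_of_one_le₀ b4'
      have i3 : 0 ≤ ‖nx al Z t‖⁻¹ := by positivity
      have i4 : 0 ≤ ‖nx al cos t‖⁻¹ := by positivity
      have i5 : ‖nx al Z t‖⁻¹ * ‖nx al cos t‖⁻¹ ≤ 1 := by nlinarith
      exact mul_le_mul i5 hnd (norm_nonneg _) zero_le_one
  have cT : Cl (2 * K) ((2 * K + 2) * c) (tau al Z t (s:ℂ)) (tau al cos t (s:ℂ)) := by
    have h1 := (cP.mul cN).neg
    have e : ∀ W : ℂ → ℂ, -((W (t + s) - md al W t) * (nx al W t)⁻¹) = tau al W t (s:ℂ) := by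
      intro W
      unfold tau
      rw [c01_df, div_neg, div_eq_mul_inv]
    rw [e Z, e cos] at h1
    exact h1.mono (by linarith) (by nlinarith)
  have cTj : Cl (2 * K) ((2 * K + 2) * c) (tau al Z t (s:ℂ) ^ j) (tau al cos t (s:ℂ) ^ j) := by
    interval_cases j
    · rw [pow_zero, pow_zero]
      refine ⟨by rw [norm_one]; linarith, by rw [norm_one]; linarith, ?_⟩
      rw [sub_self, norm_zero]
      positivity
    · rw [pow_one, pow_one]
      exact cT
  have hall := ((cTj.mul (cX.mul cU)).mul cD).mul cN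
  have e : ∀ (W Y : ℂ → ℂ), tau al W t (s:ℂ) ^ j * (Y (t + s) * Uf (yy al W Y t (s:ℂ))) *
      (- deriv W (t + s)) * (nx al W t)⁻¹ = c01a al j W Y t s := by
    intro W Y
    unfold c01a
    rw [div_eq_mul_inv]
  rw [e Z X, e cos sin] at hall
  have hK2 : K ≤ K ^ 2 := by nlinarith
  have hK3 : K ^ 2 ≤ K ^ 3 := by nlinarith [sq_nonneg K]
  have hK4 : K ^ 3 ≤ K ^ 4 := by nlinarith [sq_nonneg K, pow_pos (by linarith : 0 < K) 3]
  have hK40 : 0 ≤ K ^ 4 := by positivity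
  refine hall.mono ?_ ?_
  · nlinarith [mul_nonneg hK40 hm0]
  · have hL5 : 0 ≤ L * (5 * C1) := by positivity
    have e1 : 2 * K * (K * K) * K * (1 * c) + 1 * (2 * K * (K * K) * (1 * c) + K * (2 * K * (K * (L * (5 * C1) * c) + K * (1 * c)) + K * K * ((2 * K + 2) * c))) =
        (2 * K ^ 4 + 2 * K ^ 3 + 2 * K ^ 3 * (L * (5 * C1)) + 2 * K ^ 3 + K ^ 3 * (2 * K + 2)) * c := by
      ring
    rw [e1]
    refine mul_le_mul_of_nonneg_right ?_ hc0
    have e2 : K ^ 3 * (L * (5 * C1)) ≤ K ^ 4 * (L * (5 * C1)) := mul_le_mul_of_nonneg_right hK4 hL5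
    have e3 : 0 ≤ K ^ 4 * (L * (5 * C1)) := by positivity
    have e4 : K ^ 3 * (2 * K + 2) = 2 * K ^ 4 + 2 * K ^ 3 := by ring
    have e5 : 16 * K ^ 4 * (m + 1) = 16 * K ^ 4 * (L * (5 * C1)) + 64 * K ^ 4 * K + 48 * K ^ 4 := by
      rw [hm]; ring
    have e6 : 0 ≤ K ^ 4 * K := by positivity
    rw [e4, e5]
    nlinarith

theorem d04_integrable {al M : ℝ} (hal : 0 < al) {g : ℝ → ℂ} (hc : ContinuousOn g (Ioo (-al) al))
    (hb : ∀ s ∈ Ioo (-al) al, ‖g s‖ ≤ M) : IntervalIntegrable g volume (-al) al := by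
  rw [intervalIntegrable_iff_integrableOn_Ioo_of_le (by linarith)]
  have hi : IntegrableOn (fun _ : ℝ => M) (Ioo (-al) al) volume := integrableOn_const (by simp)
  exact Integrable.mono' hi (hc.aestronglyMeasurable measurableSet_Ioo)
    ((ae_restrict_iff' measurableSet_Ioo).2 (Eventually.of_forall fun s hs => hb s hs))

/-- closeness of the moments to the moments of the circle -/
theorem d04_close (R : ℝ) (hR : 3 ≤ R) : ∃ c0 M : ℝ, 0 < c0 ∧ 1 ≤ M ∧ ∀ al ∈ JJ, ∀ r c : ℝ, 3 ≤ r → r ≤ R →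
    0 ≤ c → c ≤ c0 → ∀ Z X : ℂ → ℂ, NB c 1 r Z X → ∀ t ∈ band 1 r, ∀ j ≤ 1,
      ‖aj al j Z X t - aj al j cos sin t‖ ≤ M * c := by
  obtain ⟨c1, M, hc1, hM, H1⟩ := d04_pt R hR
  obtain ⟨c2, K, hc2, hK, H2⟩ := c01_bounds R (by linarith)
  refine ⟨min c1 c2, 3 * M, by positivity, by linarith, ?_⟩
  intro al hal r c hr3 hrR hc0 hc Z X hNB t ht j hj
  have hcc1 : c ≤ c1 := hc.trans (min_le_left _ _)
  have hcc2 : c ≤ c2 := hc.trans (min_le_right _ _)
  obtain ⟨hJ1, hJ2, -, -, -, -, -⟩ := JJ_bounds hal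
  have hal0 : 0 < al := by linarith
  obtain ⟨-, -, -, -, -, b6⟩ := H2 al hal 1 r le_rfl hrR Z X (c01_NB_mono hNB hcc2) t ht
  obtain ⟨-, -, -, -, -, b6'⟩ := H2 al hal 1 r le_rfl hrR cos sin
    (c01_NB_mono (NB_circle 1 r) hc2.le) t ht
  have cc := (c01_cont hNB.dZ hNB.dX ht (fun s hs => ⟨(b6 s hs).1, (b6 s hs).2.2.2.2⟩)).2.2.2 j
  have cc' := (c01_cont (NB_circle 1 r).dZ (NB_circle 1 r).dX ht
    (fun s hs => ⟨(b6' s hs).1, (b6' s hs).2.2.2.2⟩)).2.2.2 j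
  have P := fun s hs => H1 al hal r c hr3 hrR hc0 hcc1 Z X hNB t ht s hs j hj
  have i1 := d04_integrable hal0 cc (fun s hs => (P s hs).l)
  have i2 := d04_integrable hal0 cc' (fun s hs => (P s hs).r)
  have e : aj al j Z X t - aj al j cos sin t =
      ∫ s in (-al)..al, (c01a al j Z X t s - c01a al j cos sin t s) :=
    (intervalIntegral.integral_sub i1 i2).symm
  rw [e]
  refine (c01_int_bound hal0.le (by positivity) (fun s hs => (P s hs).d)).trans ?_
  have : 0 ≤ M * c := by positivity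
  nlinarith

/-- the moments of the circle -/
theorem d04_circle {al : ℝ} (hal : al ∈ JJ) {r : ℝ} (hr : 3 ≤ r) : ∀ t ∈ band 1 r,
    aj al 0 cos sin t = (Real.pi / 2 : ℂ) * (Real.sin al : ℂ) ∧ aj al 1 cos sin t = 0 := by
  obtain ⟨c1, C1, hc1, hC1, -, H1⟩ := exists_F
  obtain ⟨c2, C2, hc2, hC2, -, H2⟩ := hj_basic
  obtain ⟨c3, hc3, H3⟩ := aj_eq_hj
  obtain ⟨c4, C4, hc4, hC4, H4⟩ := fam_functionals r (by linarith)
  obtain ⟨hF, -⟩ := H1 0 le_rfl hc1.le cos sin (NB_circle _ _) (Sym_circle _)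
  rw [mul_zero] at hF
  have Hj := H2 al hal 0 le_rfl hc2.le cos sin (Fint cos sin) (NB_circle _ _) (Sym_circle _) hF
  have He := H3 al hal cos sin (Fint cos sin) ((NB_circle _ _).mono hc3.le le_rfl le_rfl) (Sym_circle _)
    (d04_FOk_mono hF hc3.le)
  obtain ⟨-, -, -, Fa, -, -⟩ := H4 al hal 1 r le_rfl (by linarith) le_rfl (fun _ => cos) (fun _ => sin)
    (d04_FNB ((NB_circle _ _).mono hc4.le le_rfl le_rfl))
  have hsub : band 1 (3/2) ⊆ strip (8/5) := band_subset (by norm_num) (by norm_num)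
  have v : ∀ t ∈ band 1 (3/2), aj al 0 cos sin t = (Real.pi / 2 : ℂ) * (Real.sin al : ℂ) ∧
      aj al 1 cos sin t = 0 := by
    intro t ht
    obtain ⟨h0, h1, -⟩ := (Hj 0).2.2 t (hsub ht)
    rw [mul_zero] at h0 h1
    rw [He 0 ht, He 1 ht]
    exact ⟨sub_eq_zero.1 (norm_le_zero_iff.1 h0), norm_le_zero_iff.1 h1⟩
  intro t ht
  constructor
  · exact eqOn_band (a' := 1) (b' := 3/2) le_rfl (by linarith) (by norm_num)
      ((Fa 0 (by norm_num)).diff d04_e) (differentiableOn_const _) (fun z hz => (v z hz).1) ht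
  · exact eqOn_band (g := fun _ => 0) (a' := 1) (b' := 3/2) le_rfl (by linarith) (by norm_num)
      ((Fa 1 (by norm_num)).diff d04_e) (differentiableOn_const _) (fun z hz => (v z hz).2) ht

/-- bounds for the moments on the whole band: direct Lipschitz estimate of the integrand (`d04_close`), and the value of the moments of the
circle (on `band 1 (3/2)` by `aj_eq_hj`, `hj_basic` with `c = 0`, then everywhere by the identity theorem). -/
theorem aj_bd (R : ℝ) (hR : 3 ≤ R) : ∃ c0 C : ℝ, 0 < c0 ∧ 1 ≤ C ∧ ∀ al ∈ JJ, ∀ r c : ℝ, 3 ≤ r → r ≤ R → 0 ≤ c → c ≤ c0 →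
    ∀ Z X : ℂ → ℂ, NB c (-r) r Z X → Sym r Z X → ∀ t ∈ band 1 r,
      ‖aj al 0 Z X t - (Real.pi / 2 : ℂ) * (Real.sin al : ℂ)‖ ≤ C * c ∧ ‖aj al 1 Z X t‖ ≤ C * c ∧
      ‖Bt al Z X t - (Real.pi / 2 : ℂ) * (Real.sin al : ℂ) ^ 3‖ ≤ C * c := by
  obtain ⟨c1, M, hc1, hM, H1⟩ := d04_close R hR
  obtain ⟨c2, C2, hc2, hC2, hCc2, H2⟩ := chord_bd R (by linarith)
  have hM0 : 0 ≤ M := by linarith
  have hC20 : 0 ≤ C2 := by linarith
  refine ⟨min (min c1 c2) (1 / (2 * M)), 4 * M + 4 * C2, by positivity, by linarith, ?_⟩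
  intro al hal r c hr3 hrR hc0 hc Z X hNB hS t ht
  have hcc1 : c ≤ c1 := hc.trans ((min_le_left _ _).trans (min_le_left _ _))
  have hcc2 : c ≤ c2 := hc.trans ((min_le_left _ _).trans (min_le_right _ _))
  have hcc3 : M * c ≤ 1/2 := by
    have h1 : c ≤ 1 / (2 * M) := hc.trans (min_le_right _ _)
    have h2 := (le_div_iff₀ (by linarith : 0 < 2 * M)).1 h1
    linarith
  have hNB1 : NB c 1 r Z X := hNB.mono le_rfl (by linarith) le_rfl
  obtain ⟨ch, -, -⟩ := H2 al hal 1 r c le_rfl hrR hc0 hcc2 Z X hNB1 t ht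
  obtain ⟨v0, v1⟩ := d04_circle hal hr3 t ht
  have a0 := H1 al hal r c hr3 hrR hc0 hcc1 Z X hNB1 t ht 0 (by norm_num)
  have a1 := H1 al hal r c hr3 hrR hc0 hcc1 Z X hNB1 t ht 1 le_rfl
  rw [v0] at a0
  rw [v1, sub_zero] at a1
  obtain ⟨-, -, -, -, -, hs1, hs2⟩ := JJ_bounds hal
  have hMc : 0 ≤ M * c := by positivity
  have hC2c : 0 ≤ C2 * c := by positivity
  refine ⟨a0.trans (by nlinarith), a1.trans (by nlinarith), ?_⟩
  set p : ℂ := (Real.pi / 2 : ℂ) * (Real.sin al : ℂ) with hp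
  have hpn : ‖p‖ ≤ 2 := by
    rw [hp, norm_mul, Complex.norm_real, Real.norm_of_nonneg (by linarith)]
    have h1 : ‖(Real.pi / 2 : ℂ)‖ = Real.pi / 2 := by
      rw [norm_div, Complex.norm_real, Real.norm_of_nonneg Real.pi_pos.le]
      norm_num
    rw [h1]
    have := Real.pi_lt_four
    nlinarith [Real.pi_pos]
  have key : ∀ x u : ℂ, ‖x - p‖ ≤ 2 * (M * c) → ‖u - 1‖ ≤ C2 * c →
      ‖x * u - p‖ ≤ 3 * (C2 * c) + 2 * (M * c) := by
    intro x u hx hu
    have e : x * u - p = x * (u - 1) + (x - p) := by ring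
    have hxn : ‖x‖ ≤ 3 := by
      have := norm_add_le (x - p) p
      rw [sub_add_cancel] at this
      linarith
    rw [e]
    refine (norm_add_le _ _).trans (add_le_add ?_ hx)
    rw [norm_mul]
    exact mul_le_mul hxn hu (norm_nonneg _) (by norm_num)
  have k1 : ‖(aj al 0 Z X t + aj al 1 Z X t) * chip al Z X t - p‖ ≤ 3 * (C2 * c) + 2 * (M * c) := by
    refine key _ _ ?_ ch.chip
    have e : aj al 0 Z X t + aj al 1 Z X t - p = (aj al 0 Z X t - p) + aj al 1 Z X t := by ring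
    rw [e]
    refine (norm_add_le _ _).trans ?_
    linarith
  have k2 : ‖(aj al 0 Z X t - aj al 1 Z X t) * chim al Z X t - p‖ ≤ 3 * (C2 * c) + 2 * (M * c) := by
    refine key _ _ ?_ ch.chim
    have e : aj al 0 Z X t - aj al 1 Z X t - p = (aj al 0 Z X t - p) - aj al 1 Z X t := by ring
    rw [e]
    refine (norm_sub_le _ _).trans ?_
    linarith
  have e : Bt al Z X t - (Real.pi / 2 : ℂ) * (Real.sin al : ℂ) ^ 3 =
      (Real.sin al : ℂ) ^ 2 / 2 * (((aj al 0 Z X t + aj al 1 Z X t) * chip al Z X t - p) +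
        ((aj al 0 Z X t - aj al 1 Z X t) * chim al Z X t - p)) := by
    rw [hp]
    simp only [Bt]
    ring
  have hsn : ‖(Real.sin al : ℂ) ^ 2 / 2‖ ≤ 1/2 := by
    rw [norm_div, norm_pow, Complex.norm_real, Real.norm_of_nonneg (by linarith)]
    have h4 : ‖(2:ℂ)‖ = 2 := by norm_num
    rw [h4]
    nlinarith
  rw [e, norm_mul]
  have k3 := (norm_add_le ((aj al 0 Z X t + aj al 1 Z X t) * chip al Z X t - p)
    ((aj al 0 Z X t - aj al 1 Z X t) * chim al Z X t - p)).trans (add_le_add k1 k2)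
  calc _ ≤ 1/2 * (3 * (C2 * c) + 2 * (M * c) + (3 * (C2 * c) + 2 * (M * c))) :=
        mul_le_mul hsn k3 (norm_nonneg _) (by norm_num)
    _ ≤ _ := by nlinarith

end FB
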