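import Pool.Agent.H48.FB.D04

/-! D05: values of the functionals at the circle. -/

open Complex Set MeasureTheory Filter Topology

noncomputable section

namespace FB

/-! ### auxiliary lemmas -/

theorem d05_PL2 (t : ℂ) : PL 2 t = (35 * cos t ^ 4 - 30 * cos t ^ 2 + 3) / 8 := by
  have c0 : cc 0 = 1 := by norm_num [cc]
  have c1 : cc 1 = 1/2 := by
    rw [cc, show Nat.centralBinom 1 = 2 by decide]; norm_num
  have c2 : cc 2 = 3/8 := by
    rw [cc, show Nat.centralBinom 2 = 6 by decide]; norm_num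
  have c3 : cc 3 = 5/16 := by
    rw [cc, show Nat.centralBinom 3 = 20 by decide]; norm_num
  have c4 : cc 4 = 35/128 := by
    rw [cc, show Nat.centralBinom 4 = 70 by decide]; norm_num
  have e4 : cos (4 * t) = 8 * cos t ^ 4 - 8 * cos t ^ 2 + 1 := by
    rw [show 4 * t = 2 * (2 * t) by ring, cos_two_mul, cos_two_mul]; ring
  unfold PL
  simp only [Finset.sum_range_succ, Finset.sum_range_zero, Nat.reduceMul, Nat.reduceAdd, Nat.reduceSub, c0, c1, c2, c3, c4]
  have f0 : (((2 * (2:ℕ) : ℤ) - 2 * ((0:ℕ) : ℤ) : ℤ) : ℂ) * t = 4 * t := by push_cast; ring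
  have f1 : (((2 * (2:ℕ) : ℤ) - 2 * ((1:ℕ) : ℤ) : ℤ) : ℂ) * t = 2 * t := by push_cast; ring
  have f2 : (((2 * (2:ℕ) : ℤ) - 2 * ((2:ℕ) : ℤ) : ℤ) : ℂ) * t = 0 := by push_cast; ring
  have f3 : (((2 * (2:ℕ) : ℤ) - 2 * ((3:ℕ) : ℤ) : ℤ) : ℂ) * t = -(2 * t) := by push_cast; ring
  have f4 : (((2 * (2:ℕ) : ℤ) - 2 * ((4:ℕ) : ℤ) : ℤ) : ℂ) * t = -(4 * t) := by push_cast; ring
  rw [f0, f1, f2, f3, f4, cos_neg, cos_neg, cos_zero, e4, cos_two_mul]
  push_cast
  ring

/-- elementary values -/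
theorem circle_chord (al : ℝ) (hal : 0 < Real.sin al) (t : ℂ) :
    nz al sin t = (Real.sin al : ℂ) * cos t ∧ nx al cos t = (Real.sin al : ℂ) * sin t ∧
    md al cos t = (Real.cos al : ℂ) * cos t ∧ md al sin t = (Real.cos al : ℂ) * sin t ∧
    df al cos t = - (Real.sin al : ℂ) * sin t ∧ df al sin t = (Real.sin al : ℂ) * cos t ∧
    et al cos sin t = (Real.sin al : ℂ) * (Real.cos al : ℂ) ∧ ell al cos sin t = (Real.sin al : ℂ) ∧
    nu al cos t = 1 ∧ xi sin t = 1 ∧ chip al cos sin t = 1 ∧ chim al cos sin t = 1 ∧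
    Yf al cos sin t = (Real.sin al : ℂ) * PL 2 t ∧
    (∀ s : ℂ, cos s ≠ (Real.cos al : ℂ) → chi al cos sin t s = 1) ∧
    (∀ s : ℂ, cos s ≠ (Real.cos al : ℂ) → om al cos sin t s = q0 t s) := by
  have hs0 : (Real.sin al : ℂ) ≠ 0 := by exact_mod_cast hal.ne'
  have hcs : sin t ^ 2 + cos t ^ 2 = 1 := sin_sq_add_cos_sq t
  have hcs' : (Real.sin al : ℂ) ^ 2 + (Real.cos al : ℂ) ^ 2 = 1 := by
    rw [ofReal_sin, ofReal_cos]; exact sin_sq_add_cos_sq _
  have hmc : md al cos t = (Real.cos al : ℂ) * cos t := by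
    unfold md
    rw [cos_add, cos_sub, ofReal_cos]; ring
  have hms : md al sin t = (Real.cos al : ℂ) * sin t := by
    unfold md
    rw [sin_add, sin_sub, ofReal_cos]; ring
  have hdc : ∀ t : ℂ, df al cos t = - (Real.sin al : ℂ) * sin t := by
    intro t
    unfold df
    rw [cos_add, cos_sub, ofReal_sin]; ring
  have hds : df al sin t = (Real.sin al : ℂ) * cos t := by
    unfold df
    rw [sin_add, sin_sub, ofReal_sin]; ring
  have hnz : nz al sin t = (Real.sin al : ℂ) * cos t := hds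
  have hnx : ∀ t : ℂ, nx al cos t = (Real.sin al : ℂ) * sin t := by
    intro t
    unfold nx
    rw [hdc]; ring
  have het : et al cos sin t = (Real.sin al : ℂ) * (Real.cos al : ℂ) := by
    unfold et
    rw [hnz, hnx, hmc, hms]
    linear_combination (Real.sin al : ℂ) * (Real.cos al : ℂ) * hcs
  have hell : ell al cos sin t = (Real.sin al : ℂ) := by
    unfold ell
    rw [hnz, hnx]
    have e : ((Real.sin al : ℂ) * cos t) ^ 2 + ((Real.sin al : ℂ) * sin t) ^ 2 =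
        ((Real.sin al ^ 2 : ℝ) : ℂ) := by
      rw [ofReal_pow]
      linear_combination (Real.sin al : ℂ) ^ 2 * hcs
    rw [e, show ((1:ℂ)/2) = (((1/2 : ℝ)) : ℂ) by push_cast; ring,
      ← ofReal_cpow (by positivity), ← Real.sqrt_eq_rpow, Real.sqrt_sq hal.le]
  have hnu : nu al cos t = 1 := by
    unfold nu
    split_ifs with h
    · have hc : cos t ≠ 0 := cos_ne_zero_of_sin h
      have : nx al cos = fun t => (Real.sin al : ℂ) * sin t := by
        funext t; exact hnx t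
      rw [this]
      have h2 : deriv (fun t => (Real.sin al : ℂ) * sin t) t = (Real.sin al : ℂ) * cos t :=
        ((hasDerivAt_sin t).const_mul _).deriv
      rw [h2, div_self (mul_ne_zero hs0 hc)]
    · rw [hnx, div_self (mul_ne_zero hs0 h)]
  have hxi : xi sin t = 1 := by
    unfold xi
    split_ifs with h
    · have hc : cos t ≠ 0 := cos_ne_zero_of_sin h
      rw [(hasDerivAt_sin t).deriv, div_self hc]
    · rw [div_self h]
  have hderc : ∀ z : ℂ, deriv cos z = - sin z := fun z => (hasDerivAt_cos z).deriv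
  have hders : ∀ z : ℂ, deriv sin z = cos z := fun z => (hasDerivAt_sin z).deriv
  have hchip : chip al cos sin t = 1 := by
    unfold chip
    rw [hnz, hnx, hderc, hders, div_eq_one_iff_eq (pow_ne_zero 2 hs0)]
    rw [sin_add, cos_add, ← ofReal_sin, ← ofReal_cos]
    linear_combination ((Real.sin al : ℂ) ^ 2) * hcs
  have hchim : chim al cos sin t = 1 := by
    unfold chim
    rw [hnz, hnx, hderc, hders, div_eq_one_iff_eq (pow_ne_zero 2 hs0)]
    rw [sin_sub, cos_sub, ← ofReal_sin, ← ofReal_cos]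
    linear_combination ((Real.sin al : ℂ) ^ 2) * hcs
  have hchi : ∀ t s : ℂ, cos s ≠ (Real.cos al : ℂ) →
      et al cos sin t = (Real.sin al : ℂ) * (Real.cos al : ℂ) → nz al sin t = (Real.sin al : ℂ) * cos t →
      chi al cos sin t s = 1 := by
    intro t s hs het hnz
    have hcs : sin t ^ 2 + cos t ^ 2 = 1 := sin_sq_add_cos_sq t
    unfold chi Hq
    rw [hnz, hnx, het, cos_add, sin_add]
    have h1 : cos s - (Real.cos al : ℂ) ≠ 0 := sub_ne_zero.mpr hs
    rw [div_div, div_eq_one_iff_eq (mul_ne_zero h1 hs0)]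
    linear_combination ((Real.sin al : ℂ) * cos s) * hcs
  refine ⟨hnz, hnx t, hmc, hms, hdc t, hds, het, hell, hnu, hxi, hchip, hchim, ?_,
    fun s hs => hchi t s hs het hnz, fun s hs => ?_⟩
  · unfold Yf
    rw [hell, hnz, mul_div_cancel_left₀ _ hs0, d05_PL2]
    ring
  · have hxi' : xi sin (t + s) = 1 := by
      unfold xi
      split_ifs with h
      · have hc : cos (t + s) ≠ 0 := cos_ne_zero_of_sin h
        rw [hders, div_self hc]
      · rw [div_self h]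
    unfold om
    rw [hchi t s hs het hnz, hnu, hxi']
    simp

theorem d05_deriv_cos (z : ℂ) : deriv cos z = - sin z := (hasDerivAt_cos z).deriv
theorem d05_deriv_sin (z : ℂ) : deriv sin z = cos z := (hasDerivAt_sin z).deriv

theorem d05_NB {c a b : ℝ} (hc : 0 ≤ c) : NB c a b cos sin where
  dZ := fun z _ => (hasDerivAt_cos z).differentiableAt.differentiableWithinAt
  dX := fun z _ => (hasDerivAt_sin z).differentiableAt.differentiableWithinAt
  z0 := fun z _ => by simpa using hc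
  x0 := fun z _ => by simpa using hc
  z1 := fun z _ => by rw [d05_deriv_cos]; simpa using hc
  x1 := fun z _ => by rw [d05_deriv_sin]; simpa using hc

theorem d05_Sym (r : ℝ) : Sym r cos sin where
  eZ := fun z _ => cos_neg z
  oX := fun z _ => sin_neg z
  aZ := fun z _ => cos_add_pi z
  aX := fun z _ => sin_add_pi z

theorem d05_FNB {c a b : ℝ} (hc : 0 ≤ c) : FNB c a b (fun _ => cos) (fun _ => sin) where
  fZ := Fam.const fun z _ => (hasDerivAt_cos z).differentiableAt.differentiableWithinAt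
  fX := Fam.const fun z _ => (hasDerivAt_sin z).differentiableAt.differentiableWithinAt
  nb := fun _ => d05_NB hc

theorem d05_UReal (a b : ℝ) : UReal a b cos sin where
  z := fun t _ => by rw [cos_neg, ← cos_conj]
  x := fun t _ => by rw [sin_neg, ← sin_conj]

theorem d05_APer (a b : ℝ) : APer a b cos sin where
  z := fun t _ => cos_add_pi t
  x := fun t _ => sin_add_pi t

theorem d05_norm_cos_sq (z : ℂ) : ‖cos z‖ ^ 2 = Real.cos z.re ^ 2 + Real.sinh z.im ^ 2 := by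
  have h2 : ‖cos z‖ ^ 2 = (cos z).re ^ 2 + (cos z).im ^ 2 := by
    rw [← normSq_eq_norm_sq, normSq_apply]
    ring
  have h : cos z = ((Real.cos z.re * Real.cosh z.im : ℝ) : ℂ) -
      ((Real.sin z.re * Real.sinh z.im : ℝ) : ℂ) * I := by
    rw [Complex.cos_eq]; push_cast; rfl
  have h3 : (cos z).re = Real.cos z.re * Real.cosh z.im := by
    rw [h]
    simp only [Complex.sub_re, Complex.ofReal_re, Complex.mul_re, Complex.I_re, Complex.I_im,
      Complex.ofReal_im]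
    ring
  have h4 : (cos z).im = - (Real.sin z.re * Real.sinh z.im) := by
    rw [h]
    simp only [Complex.sub_im, Complex.ofReal_re, Complex.mul_im, Complex.I_re, Complex.I_im,
      Complex.ofReal_im]
    ring
  rw [h2, h3, h4]
  have h5 := Real.sin_sq_add_cos_sq z.re
  have h6 := Real.cosh_sq z.im
  rw [mul_pow, h6, neg_sq, mul_pow]
  linear_combination (Real.sinh z.im ^ 2) * h5

theorem d05_sinh_two : Real.sinh 2 ^ 2 < 13.2 ∧ 13.1 < Real.sinh 2 ^ 2 := by
  have h1 := Real.exp_one_gt_d9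
  have h2 := Real.exp_one_lt_d9
  have e2 : Real.exp 2 = Real.exp 1 * Real.exp 1 := by rw [← Real.exp_add]; norm_num
  have e3 : Real.exp 2 * Real.exp (-2) = 1 := by rw [← Real.exp_add]; simp
  have h3 : 7.389 < Real.exp 2 := by rw [e2]; nlinarith
  have h4 : Real.exp 2 < 7.3891 := by rw [e2]; nlinarith
  have h5 : Real.exp (-2) < 0.13534 := by
    have hp := Real.exp_pos (-2)
    nlinarith
  have h6 : 0.1353 < Real.exp (-2) := by
    have hp := Real.exp_pos (-2)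
    nlinarith
  have h7 : Real.sinh 2 = (Real.exp 2 - Real.exp (-2)) / 2 := Real.sinh_eq 2
  have h8 : 3.6268 < Real.sinh 2 := by rw [h7]; linarith
  have h9 : Real.sinh 2 < 3.627 := by rw [h7]; linarith
  constructor
  · nlinarith
  · nlinarith

theorem d05_FOk {c : ℝ} (hc : 0 ≤ c) : FOk c cos sin (fun w => 1 - w ^ 2) where
  d := by fun_prop
  n := fun z _ => by simpa using hc
  e := fun z _ => by ring
  v := fun b hb => by
    refine ⟨?_, ?_⟩
    · rw [mem_ball_zero_iff]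
      have h1 := d05_norm_cos_sq b
      have h2 : Real.cos b.re ^ 2 ≤ 1 := by
        have := Real.sin_sq_add_cos_sq b.re
        nlinarith [sq_nonneg (Real.sin b.re)]
      have h3 : Real.sinh b.im ^ 2 ≤ Real.sinh 2 ^ 2 := by
        rw [sq_le_sq, Real.abs_sinh, Real.abs_sinh]
        refine Real.sinh_le_sinh.mpr ?_
        rw [abs_of_pos (show (0:ℝ) < 2 by norm_num)]
        exact abs_le.mpr ⟨hb.1.le, hb.2.le⟩
      have h4 := d05_sinh_two.1
      have h5 := norm_nonneg (cos b)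
      nlinarith
    · have := sin_sq_add_cos_sq b
      linear_combination -this

/-! ### the moments of the disc -/

theorem d05_int0 : ∫ x in (-1:ℝ)..1, (x:ℝ) ^ 0 * Real.sqrt (1 - x ^ 2) = Real.pi / 2 := by
  simpa using integral_sqrt_one_sub_sq

theorem d05_int1 : ∫ x in (-1:ℝ)..1, (x:ℝ) ^ 1 * Real.sqrt (1 - x ^ 2) = 0 := by
  have h := intervalIntegral.integral_comp_neg (a := -1) (b := 1)
    (fun x : ℝ => x ^ 1 * Real.sqrt (1 - x ^ 2))
  simp only [neg_neg] at h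
  have h2 : ∫ x in (-1:ℝ)..1, (-x) ^ 1 * Real.sqrt (1 - (-x) ^ 2) =
      - ∫ x in (-1:ℝ)..1, x ^ 1 * Real.sqrt (1 - x ^ 2) := by
    rw [← intervalIntegral.integral_neg]
    congr 1
    funext x
    rw [neg_sq]; ring
  linarith

theorem d05_int2 : ∫ x in (-1:ℝ)..1, (x:ℝ) ^ 2 * Real.sqrt (1 - x ^ 2) = Real.pi / 8 := by
  have hcont : Continuous fun x : ℝ => Real.sqrt (1 - x ^ 2) * (1 - 4 * x ^ 2) := by fun_prop
  have h : ∫ x in (-1:ℝ)..1, Real.sqrt (1 - x ^ 2) * (1 - 4 * x ^ 2) =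
      (1:ℝ) * ((1 - 1 ^ 2) * Real.sqrt (1 - 1 ^ 2)) -
        (-1:ℝ) * ((1 - (-1) ^ 2) * Real.sqrt (1 - (-1) ^ 2)) := by
    refine intervalIntegral.integral_eq_sub_of_hasDerivAt_of_le (by norm_num)
      (f := fun x : ℝ => x * ((1 - x ^ 2) * Real.sqrt (1 - x ^ 2))) ?_ ?_ ?_
    · fun_prop
    · intro x hx
      have hpos : 0 < 1 - x ^ 2 := by nlinarith [hx.1, hx.2]
      have hs := Real.sq_sqrt hpos.le
      have hs0 : Real.sqrt (1 - x ^ 2) ≠ 0 := (Real.sqrt_pos.mpr hpos).ne'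
      have h1 : HasDerivAt (fun x : ℝ => 1 - x ^ 2) (-(2 * x)) x := by
        have := (hasDerivAt_pow 2 x).const_sub (1:ℝ)
        simpa using this
      have h2 : HasDerivAt (fun x : ℝ => Real.sqrt (1 - x ^ 2))
          (-(2 * x) / (2 * Real.sqrt (1 - x ^ 2))) x := h1.sqrt hpos.ne'
      have h3 := (hasDerivAt_id x).mul (h1.mul h2)
      refine h3.congr_deriv ?_
      simp only [id, Pi.mul_apply]
      field_simp
      linear_combination (x ^ 2) * hs
    · exact hcont.intervalIntegrable _ _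
  have h0 : ∫ x in (-1:ℝ)..1, Real.sqrt (1 - x ^ 2) * (1 - 4 * x ^ 2) =
      (∫ x in (-1:ℝ)..1, Real.sqrt (1 - x ^ 2)) - 4 * ∫ x in (-1:ℝ)..1, (x:ℝ) ^ 2 * Real.sqrt (1 - x ^ 2) := by
    rw [← intervalIntegral.integral_const_mul, ← intervalIntegral.integral_sub]
    · congr 1
      funext x
      ring
    · exact (by fun_prop : Continuous fun x : ℝ => Real.sqrt (1 - x ^ 2)).intervalIntegrable _ _
    · exact (by fun_prop : Continuous fun x : ℝ => 4 * (x ^ 2 * Real.sqrt (1 - x ^ 2))).intervalIntegrable _ _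
  rw [h0, integral_sqrt_one_sub_sq] at h
  simp at h
  linarith

theorem d05_Gx (al : ℝ) (hal : 0 < Real.sin al) (t x : ℂ) :
    Gx al cos sin (fun w => 1 - w ^ 2) t x = (Real.sin al : ℂ) ^ 2 * (1 - x ^ 2) := by
  obtain ⟨-, -, h3, h4, h5, h6, -⟩ := circle_chord al hal t
  unfold Gx
  rw [h3, h4, h5, h6]
  have hcs : sin t ^ 2 + cos t ^ 2 = 1 := sin_sq_add_cos_sq t
  have hcs' : (Real.sin al : ℂ) ^ 2 + (Real.cos al : ℂ) ^ 2 = 1 := by
    rw [ofReal_sin, ofReal_cos]; exact sin_sq_add_cos_sq _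
  linear_combination (-(Real.cos al : ℂ) ^ 2 - x ^ 2 * (Real.sin al : ℂ) ^ 2) * hcs - hcs'

theorem d05_hj (al : ℝ) (hal : 0 < Real.sin al) (j : ℕ) (t : ℂ) :
    hj al j cos sin (fun w => 1 - w ^ 2) t =
      ((Real.sin al * ∫ x in (-1:ℝ)..1, (x:ℝ) ^ j * Real.sqrt (1 - x ^ 2) : ℝ) : ℂ) := by
  have h0 : hj al j cos sin (fun w => 1 - w ^ 2) t =
      ∫ x in (-1:ℝ)..1, ((Real.sin al * (x ^ j * Real.sqrt (1 - x ^ 2)) : ℝ) : ℂ) := by
    unfold hj
    rw [intervalIntegral.integral_of_le (by norm_num), intervalIntegral.integral_of_le (by norm_num),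
      integral_Ioc_eq_integral_Ioo, integral_Ioc_eq_integral_Ioo]
    refine setIntegral_congr_fun measurableSet_Ioo fun x hx => ?_
    have hpos : 0 < 1 - x ^ 2 := by nlinarith [hx.1, hx.2]
    have hne : (1 - (x:ℂ) ^ 2) ≠ 0 := by
      have : ((1 - x ^ 2 : ℝ) : ℂ) ≠ 0 := by exact_mod_cast hpos.ne'
      simpa using this
    show (x:ℂ) ^ j * ((Real.sqrt (1 - x ^ 2) : ℝ) : ℂ) *
      (Gx al cos sin (fun w => 1 - w ^ 2) t (x:ℂ) / (1 - (x:ℂ) ^ 2)) ^ ((1:ℂ)/2) = _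
    rw [d05_Gx al hal, mul_div_assoc, div_self hne, mul_one]
    have e : ((Real.sin al : ℂ) ^ 2) ^ ((1:ℂ)/2) = (Real.sin al : ℂ) := by
      rw [← ofReal_pow, show ((1:ℂ)/2) = (((1/2 : ℝ)) : ℂ) by push_cast; ring,
        ← ofReal_cpow (by positivity), ← Real.sqrt_eq_rpow, Real.sqrt_sq hal.le]
    rw [e]
    push_cast
    ring
  rw [h0, intervalIntegral.integral_ofReal, intervalIntegral.integral_const_mul]

theorem d05_const {a b : ℝ} {f : ℂ → ℂ} (h : ∀ z ∈ band a b, HasDerivAt f 0 z) {z w : ℂ}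
    (hz : z ∈ band a b) (hw : w ∈ band a b) : f z = f w := by
  refine (isOpen_band a b).is_const_of_deriv_eq_zero (isPreconnected_band a b)
    (fun z hz => (h z hz).differentiableAt.differentiableWithinAt) (fun z hz => (h z hz).deriv) hz hw

/-- the moments at the circle -/
theorem d05_aj {al : ℝ} (hal : al ∈ JJ) {t : ℂ} (ht : 1 < t.im) :
    aj al 0 cos sin t = (Real.pi / 2 : ℂ) * (Real.sin al : ℂ) ∧ aj al 1 cos sin t = 0 ∧
    aj al 2 cos sin t = (Real.pi / 8 : ℂ) * (Real.sin al : ℂ) := by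
  obtain ⟨-, -, -, -, -, hs1, hs2⟩ := JJ_bounds hal
  have hs : 0 < Real.sin al := by linarith
  set R : ℝ := max 3 (t.im + 1) with hR
  have hR3 : 3 ≤ R := le_max_left _ _
  have htR : t.im < R := lt_of_lt_of_le (by linarith) (le_max_right _ _)
  obtain ⟨c1, C1, hc1, -, H1⟩ := fam_functionals R (by linarith)
  obtain ⟨-, -, -, haj, -⟩ := H1 al hal 1 R le_rfl (by linarith) le_rfl (fun _ => cos) (fun _ => sin)
    (d05_FNB hc1.le)
  obtain ⟨c2, hc2, H2⟩ := aj_eq_hj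
  have e0 : (0:ℝ) ∈ Icc (0:ℝ) 1 := ⟨le_rfl, by norm_num⟩
  have key : ∀ j ≤ 2, aj al j cos sin t =
      ((Real.sin al * ∫ x in (-1:ℝ)..1, (x:ℝ) ^ j * Real.sqrt (1 - x ^ 2) : ℝ) : ℂ) := by
    intro j hj
    have hd : DifferentiableOn ℂ (aj al j cos sin) (band 1 R) := (haj j hj).diff ⟨0, e0⟩
    have hE : EqOn (aj al j cos sin) (fun _ =>
        ((Real.sin al * ∫ x in (-1:ℝ)..1, (x:ℝ) ^ j * Real.sqrt (1 - x ^ 2) : ℝ) : ℂ)) (band 1 (3/2)) := by
      intro z hz
      rw [H2 al hal cos sin (fun w => 1 - w ^ 2) (d05_NB hc2.le) (d05_Sym 2) (d05_FOk hc2.le) j hz]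
      exact d05_hj al hs j z
    exact eqOn_band le_rfl (by linarith) (by norm_num) hd (differentiableOn_const _) hE ⟨ht, htR⟩
  refine ⟨?_, ?_, ?_⟩
  · rw [key 0 (by norm_num), d05_int0]; push_cast; ring
  · rw [key 1 (by norm_num), d05_int1]; simp
  · rw [key 2 le_rfl, d05_int2]; push_cast; ring

/-- On `band 1 (3/2)`: `aj = hj` (`aj_eq_hj` with `F = 1 - w^2`), `Gx/(1-x^2) = sin^2 al`, `∫ x^j sqrt(1-x^2) = pi/2, 0, pi/8`; then on `band 1 r` for all `r` by
the identity theorem (`aj` is analytic there by C01). `chip = chim = 1`: `V' = 0`, so `V` is constant `= Vf (2 I)`, which is real by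
`functionals_conj` at `t = 2 I`. `Pz' = - (np cfp + nm cfm) = 2 sin^2 al z_d a2 = - M0 sin t`, so `Pz - M0 cos t` is constant, and antiperiodic, so `0`.
Same for `Px`. -/
theorem circle_values {al : ℝ} (hal : al ∈ JJ) {t : ℂ} (ht : 1 < t.im) :
    aj al 0 cos sin t = (Real.pi / 2 : ℂ) * (Real.sin al : ℂ) ∧ aj al 1 cos sin t = 0 ∧
    aj al 2 cos sin t = (Real.pi / 8 : ℂ) * (Real.sin al : ℂ) ∧
    Vf al cos sin t = (Vs al : ℂ) ∧ Pzf al cos sin t = (M0 al : ℂ) * cos t ∧ Pxf al cos sin t = (M0 al : ℂ) * sin t ∧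
    Sf al cos sin t = (Real.sin al : ℂ) * ((M0 al : ℂ) - (Real.cos al : ℂ) * (Vs al : ℂ)) := by
  obtain ⟨-, -, -, -, -, hs1, hs2⟩ := JJ_bounds hal
  have hs : 0 < Real.sin al := by linarith
  set R : ℝ := max 3 (t.im + 1) with hR
  have hR3 : 3 ≤ R := le_max_left _ _
  have htR : t.im < R := lt_of_lt_of_le (by linarith) (le_max_right _ _)
  have htb : t ∈ band 1 R := ⟨ht, htR⟩
  have h2I : (2 * I : ℂ) ∈ band 1 R := by
    rw [mem_band]
    have : (2 * I : ℂ).im = 2 := by simp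
    rw [this]
    constructor <;> linarith
  obtain ⟨c1, hc1, H1⟩ := trans_deriv R (by linarith)
  obtain ⟨c2, hc2, H2⟩ := functionals_conj R (by linarith)
  have hnpm : ∀ z : ℂ, np al cos sin z = - (Real.sin al : ℂ) ^ 2 ∧ nm al cos sin z = (Real.sin al : ℂ) ^ 2 := by
    intro z
    obtain ⟨h1, h2⟩ := np_eq al hs.ne' cos sin z
    obtain ⟨-, -, -, -, -, -, -, -, -, -, h3, h4, -⟩ := circle_chord al hs z
    rw [h1, h2, h3, h4]
    constructor <;> ring
  have hD : ∀ z ∈ band 1 R, HasDerivAt (Vf al cos sin) 0 z ∧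
      HasDerivAt (Pzf al cos sin) (-((M0 al : ℂ) * sin z)) z ∧
      HasDerivAt (Pxf al cos sin) ((M0 al : ℂ) * cos z) z := by
    intro z hz
    obtain ⟨d1, d2, d3, -⟩ := H1 al hal 1 R le_rfl le_rfl cos sin (d05_NB hc1.le) z hz
    obtain ⟨a0, a1, a2⟩ := d05_aj hal hz.1
    obtain ⟨n1, n2⟩ := hnpm z
    obtain ⟨-, -, h3, h4, h5, h6, -⟩ := circle_chord al hs z
    have hM : (M0 al : ℂ) = (Real.pi / 4 : ℂ) * (Real.sin al : ℂ) ^ 4 := by
      unfold M0; push_cast; ring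
    refine ⟨d1.congr_deriv ?_, d2.congr_deriv ?_, d3.congr_deriv ?_⟩
    · rw [a0, a1, n1, n2]; ring
    · unfold cfp cfm
      rw [a0, a1, a2, n1, n2, h3, h5, hM]; ring
    · unfold cfp cfm
      rw [a0, a1, a2, n1, n2, h4, h6, hM]; ring
  have hV : Vf al cos sin t = (Vs al : ℂ) := by
    rw [d05_const (fun z hz => (hD z hz).1) htb h2I]
    have h := (H2 al hal 1 R le_rfl le_rfl cos sin (d05_NB hc2.le) (d05_UReal 1 R) (2 * I) h2I).1
    have e : -(starRingEnd ℂ) (2 * I) = 2 * I := by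
      rw [map_mul, conj_I, conj_ofNat]; ring
    rw [e] at h
    unfold Vs
    exact (conj_eq_iff_re.mp h.symm).symm
  have hPz : Pzf al cos sin t = (M0 al : ℂ) * cos t := by
    have hd : ∀ z ∈ band 1 R, HasDerivAt (fun z => Pzf al cos sin z - (M0 al : ℂ) * cos z) 0 z := by
      intro z hz
      refine ((hD z hz).2.1.sub ((hasDerivAt_cos z).const_mul _)).congr_deriv ?_
      ring
    have h1 := d05_const hd (add_real_mem_band htb Real.pi) htb
    have h2 := (functionals_pi (al := al) (d05_APer 1 R) (by norm_num) htb).2.1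
    beta_reduce at h1
    rw [h2, cos_add_pi] at h1
    linear_combination (-1/2 : ℂ) * h1
  have hPx : Pxf al cos sin t = (M0 al : ℂ) * sin t := by
    have hd : ∀ z ∈ band 1 R, HasDerivAt (fun z => Pxf al cos sin z - (M0 al : ℂ) * sin z) 0 z := by
      intro z hz
      refine ((hD z hz).2.2.sub ((hasDerivAt_sin z).const_mul _)).congr_deriv ?_
      ring
    have h1 := d05_const hd (add_real_mem_band htb Real.pi) htb
    have h2 := (functionals_pi (al := al) (d05_APer 1 R) (by norm_num) htb).2.2.1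
    beta_reduce at h1
    rw [h2, sin_add_pi] at h1
    linear_combination (-1/2 : ℂ) * h1
  obtain ⟨a0, a1, a2⟩ := d05_aj hal ht
  refine ⟨a0, a1, a2, hV, hPz, hPx, ?_⟩
  obtain ⟨g1, g2, -, -, -, -, g7, -⟩ := circle_chord al hs t
  unfold Sf
  rw [hPz, hPx, hV, g1, g2, g7]
  have hcs : sin t ^ 2 + cos t ^ 2 = 1 := sin_sq_add_cos_sq t
  linear_combination ((Real.sin al : ℂ) * (M0 al : ℂ)) * hcs

/-! ### the bound of the volume -/

theorem d05_sqrt_norm (z : ℂ) : ‖z ^ ((1:ℂ)/2)‖ ^ 2 = ‖z‖ := by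
  rw [← norm_pow, cpow_half_sq]

theorem d05_Wf_bd {y : ℂ} (hy : ‖y‖ ^ 2 ≤ 1/10) : ‖Wf y‖ ≤ 2 * ‖y‖ ^ 3 := by
  have hb : ∀ x ∈ Icc (0:ℝ) 1, ‖(2 - ((x:ℂ) * y) ^ 2) ^ ((1:ℂ)/2)‖ ≤ 3/2 := by
    intro x hx
    have h1 := d05_sqrt_norm (2 - ((x:ℂ) * y) ^ 2)
    have h2 : ‖2 - ((x:ℂ) * y) ^ 2‖ ≤ 2 + 1/10 := by
      refine (norm_sub_le _ _).trans ?_
      rw [norm_pow, norm_mul, norm_real, Real.norm_of_nonneg hx.1, mul_pow]
      have h3 : x ^ 2 ≤ 1 := by nlinarith [hx.1, hx.2]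
      have h4 : x ^ 2 * ‖y‖ ^ 2 ≤ 1 * (1/10) := mul_le_mul h3 hy (sq_nonneg _) (by norm_num)
      have h5 : ‖(2:ℂ)‖ = 2 := by simp
      linarith
    have h6 := norm_nonneg ((2 - ((x:ℂ) * y) ^ 2) ^ ((1:ℂ)/2))
    nlinarith
  have hder : ∀ x ∈ Icc (0:ℝ) 1, HasDerivAt (fun x : ℝ => Wf ((x:ℂ) * y))
      (4 * ((x:ℂ) * y) ^ 2 * (2 - ((x:ℂ) * y) ^ 2) ^ ((1:ℂ)/2) * y) x := by
    intro x hx
    have h0 : ‖(x:ℂ) * y‖ ^ 2 < 2 := by
      rw [norm_mul, norm_real, Real.norm_of_nonneg hx.1, mul_pow]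
      have h3 : x ^ 2 ≤ 1 := by nlinarith [hx.1, hx.2]
      have h4 : x ^ 2 * ‖y‖ ^ 2 ≤ 1 * (1/10) := mul_le_mul h3 hy (sq_nonneg _) (by norm_num)
      linarith
    have h1 := hasDerivAt_Wf h0
    have h2 : HasDerivAt (fun x : ℝ => (x:ℂ) * y) y x := by
      have := (hasDerivAt_id x).ofReal_comp.mul_const y
      simpa using this
    exact h1.comp x h2
  have h := image_norm_le_of_norm_deriv_right_le_deriv_boundary (a := 0) (b := 1)
    (f := fun x : ℝ => Wf ((x:ℂ) * y))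
    (f' := fun x : ℝ => 4 * ((x:ℂ) * y) ^ 2 * (2 - ((x:ℂ) * y) ^ 2) ^ ((1:ℂ)/2) * y)
    (B := fun x => 2 * ‖y‖ ^ 3 * x ^ 3) (B' := fun x => 2 * ‖y‖ ^ 3 * (3 * x ^ 2))
    (fun x hx => (hder x hx).continuousAt.continuousWithinAt)
    (fun x hx => (hder x ⟨hx.1, hx.2.le⟩).hasDerivWithinAt)
    ?_ ?_ ?_ (show (1:ℝ) ∈ Icc (0:ℝ) 1 from ⟨by norm_num, le_rfl⟩)
  · simpa using h
  · have : Wf 0 = 0 := by simp [Wf, Af, Uf]
    simp [this]
  · intro x
    have := (hasDerivAt_pow 3 x).const_mul (2 * ‖y‖ ^ 3)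
    simpa using this
  · intro x hx
    have h1 := hb x ⟨hx.1, hx.2.le⟩
    rw [norm_mul, norm_mul, norm_mul, norm_pow, norm_mul, norm_real, Real.norm_of_nonneg hx.1]
    have h5 : ‖(4:ℂ)‖ = 4 := by simp
    rw [h5]
    have h6 : 0 ≤ 4 * (x * ‖y‖) ^ 2 := by positivity
    have h7 : 4 * (x * ‖y‖) ^ 2 * ‖(2 - ((x:ℂ) * y) ^ 2) ^ ((1:ℂ)/2)‖ * ‖y‖ ≤
        4 * (x * ‖y‖) ^ 2 * (3/2) * ‖y‖ := by
      refine mul_le_mul_of_nonneg_right (mul_le_mul_of_nonneg_left h1 h6) (norm_nonneg _)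
    refine h7.trans (le_of_eq ?_)
    ring

/-- `|Vs al| ≤ 5` -/
theorem Vs_bd {al : ℝ} (hal : al ∈ JJ) : |Vs al| ≤ 5 := by
  obtain ⟨j1, j2, j3, hc1, hc2, hs1, hs2⟩ := JJ_bounds hal
  have hs : 0 < Real.sin al := by linarith
  obtain ⟨sh1, sh2⟩ := d05_sinh_two
  unfold Vs
  refine (abs_re_le_norm _).trans ?_
  have hbd : ∀ s ∈ Ioo (-al) al, ‖(- deriv cos (2 * I + (s:ℂ))) * sin (2 * I + (s:ℂ)) ^ 2 *
      Wf (yy al cos sin (2 * I) (s:ℂ))‖ ≤ 2 := by
    intro s hsI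
    have hcos := cos_gt hal hsI
    have him1 : (1:ℝ) ≤ (2 * I : ℂ).im := by simp
    have him2 : (1:ℝ) ≤ (2 * I + (s:ℂ)).im := by simp
    have hne : cos (s:ℂ) ≠ (Real.cos al : ℂ) := by
      rw [← ofReal_cos]
      intro h
      have := ofReal_injective h
      linarith
    obtain ⟨-, -, -, -, -, -, -, -, -, -, -, -, -, -, hom⟩ := circle_chord al hs (2 * I)
    have hyy : yy al cos sin (2 * I) (s:ℂ) = kk al s * q0 (2 * I) s := by
      unfold yy
      rw [hom s hne]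
    set a : ℝ := ‖sin (2 * I : ℂ)‖ with ha
    set b : ℝ := ‖sin (2 * I + (s:ℂ))‖ with hb
    have ha2 : a ^ 2 = Real.sinh 2 ^ 2 := by
      have h1 : sin (2 * I : ℂ) = ((Real.sinh 2 : ℝ) : ℂ) * I := by
        rw [sin_mul_I]; push_cast; rfl
      rw [ha, h1, norm_mul, norm_I, mul_one, norm_real, Real.norm_eq_abs, sq_abs]
    have hb2 : b ^ 2 ≤ Real.sinh 2 ^ 2 + 1 := by
      have h0 : sin (2 * I + (s:ℂ)) = - cos (2 * I + (s:ℂ) + ((Real.pi/2 : ℝ) : ℂ)) := by
        rw [show (((Real.pi/2 : ℝ)) : ℂ) = (Real.pi:ℂ)/2 by push_cast; ring, cos_add_pi_div_two, neg_neg]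
      have h1 := d05_norm_cos_sq (2 * I + (s:ℂ) + ((Real.pi/2 : ℝ) : ℂ))
      have h2 : (2 * I + (s:ℂ) + ((Real.pi/2 : ℝ) : ℂ)).im = 2 := by simp
      rw [h2] at h1
      have h3 : Real.cos (2 * I + (s:ℂ) + ((Real.pi/2 : ℝ) : ℂ)).re ^ 2 ≤ 1 := by
        have := Real.sin_sq_add_cos_sq (2 * I + (s:ℂ) + ((Real.pi/2 : ℝ) : ℂ)).re
        nlinarith [sq_nonneg (Real.sin (2 * I + (s:ℂ) + ((Real.pi/2 : ℝ) : ℂ)).re)]
      rw [hb, h0, norm_neg, h1]
      linarith
    have hb1 : Real.sinh 2 ^ 2 ≤ b ^ 2 := by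
      have h0 : sin (2 * I + (s:ℂ)) = - cos (2 * I + (s:ℂ) + ((Real.pi/2 : ℝ) : ℂ)) := by
        rw [show (((Real.pi/2 : ℝ)) : ℂ) = (Real.pi:ℂ)/2 by push_cast; ring, cos_add_pi_div_two, neg_neg]
      have h1 := d05_norm_cos_sq (2 * I + (s:ℂ) + ((Real.pi/2 : ℝ) : ℂ))
      have h2 : (2 * I + (s:ℂ) + ((Real.pi/2 : ℝ) : ℂ)).im = 2 := by simp
      rw [h2] at h1
      rw [hb, h0, norm_neg, h1]
      linarith [sq_nonneg (Real.cos (2 * I + (s:ℂ) + ((Real.pi/2 : ℝ) : ℂ)).re)]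
    have ha0 : 0 ≤ a := norm_nonneg _
    have hb0 : 0 ≤ b := norm_nonneg _
    clear_value a b
    have ha3 : 3.6 < a := by
      by_contra h
      push Not at h
      nlinarith only [h, ha0, ha2, sh2]
    have hb3 : 3.6 < b := by
      by_contra h
      push Not at h
      nlinarith only [h, hb0, hb1, sh2]
    have hba : b ≤ 1.04 * a := by
      refine le_of_sq_le_sq ?_ (by linarith)
      rw [mul_pow, ha2]
      nlinarith only [hb2, sh2]
    set D : ℝ := Real.cos s - Real.cos al with hD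
    have hD0 : 0 < D := by linarith
    have hD1 : D ≤ 0.64 := by linarith [Real.cos_le_one s]
    have hy2 : ‖yy al cos sin (2 * I) (s:ℂ)‖ ^ 2 = D / (a * b) := by
      rw [hyy, norm_mul, mul_pow]
      have h1 : ‖kk al (s:ℂ)‖ ^ 2 = D := by
        rw [kk_real hcos.le, norm_real, Real.norm_eq_abs, sq_abs, Real.sq_sqrt hD0.le]
      have h2 : ‖q0 (2 * I) (s:ℂ)‖ ^ 2 = 1 / (a * b) := by
        rw [← norm_pow, (q0_sq him1 him2).1, norm_div, norm_one, norm_mul, ← ha, ← hb]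
      rw [h1, h2]
      ring
    set y : ℝ := ‖yy al cos sin (2 * I) (s:ℂ)‖ with hy
    have hy0 : 0 ≤ y := norm_nonneg _
    have hab : 0 < a * b := by positivity
    have hab2 : 12.9 < a * b := by nlinarith only [ha3, hb3]
    have hy3 : y ^ 2 ≤ 1/10 := by
      rw [hy2, div_le_iff₀ hab]
      linarith
    have hW := d05_Wf_bd hy3
    rw [norm_mul, norm_mul, norm_pow, norm_neg, d05_deriv_cos, norm_neg, ← hb]
    have h1 : b * b ^ 2 * ‖Wf (yy al cos sin (2 * I) (s:ℂ))‖ ≤ b * b ^ 2 * (2 * y ^ 3) :=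
      mul_le_mul_of_nonneg_left hW (by positivity)
    refine h1.trans ?_
    have h2 : b * y ≤ 0.9 := by
      have h3 : (b * y) ^ 2 ≤ 0.64 * 1.04 := by
        rw [mul_pow, hy2]
        have : b ^ 2 * (D / (a * b)) = D * (b / a) := by
          field_simp
        rw [this]
        have h4 : b / a ≤ 1.04 := by rw [div_le_iff₀ (by linarith)]; exact hba
        have h5 : 0 ≤ b / a := by positivity
        exact mul_le_mul hD1 h4 h5 (by norm_num)
      have h4 : 0 ≤ b * y := by positivity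
      by_contra h5
      push Not at h5
      nlinarith only [h3, h4, h5]
    have h3 : b * b ^ 2 * (2 * y ^ 3) = 2 * (b * y) ^ 3 := by ring
    rw [h3]
    have h4 : 0 ≤ b * y := by positivity
    have h5 : (b * y) ^ 3 ≤ 1 := by
      calc (b * y) ^ 3 ≤ 0.9 ^ 3 := pow_le_pow_left₀ h4 h2 3
        _ ≤ 1 := by norm_num
    linarith
  have h := c01_int_bound (al := al) (M := 2) (by linarith) (by norm_num) hbd
  refine h.trans ?_
  linarith

end FB
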