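import Pool.Agent.H48.FB.Defs

/-! Definitions for the real geometry part (Q modules). The body is `x^2 + y^2 ≤ f z`; the meridian curve is
`b ↦ (z, x) = (zf b, xf b)`; the water line chord of the orientation `t` joins the points with parameters `t - al` and `t + al`. -/

open Set MeasureTheory Filter Topology

noncomputable section

namespace FB

def rmd (al : ℝ) (g : ℝ → ℝ) (t : ℝ) : ℝ := (g (t + al) + g (t - al)) / 2
def rdf (al : ℝ) (g : ℝ → ℝ) (t : ℝ) : ℝ := (g (t + al) - g (t - al)) / 2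
def rnz (al : ℝ) (xf : ℝ → ℝ) (t : ℝ) : ℝ := rdf al xf t
def rnx (al : ℝ) (zf : ℝ → ℝ) (t : ℝ) : ℝ := - rdf al zf t
def ret (al : ℝ) (zf xf : ℝ → ℝ) (t : ℝ) : ℝ := rnz al xf t * rmd al zf t + rnx al zf t * rmd al xf t
def rell (al : ℝ) (zf xf : ℝ → ℝ) (t : ℝ) : ℝ := Real.sqrt ((rnz al xf t) ^ 2 + (rnx al zf t) ^ 2)
/-- `n . Gamma'_+` and `n . Gamma'_-` -/
def rnp (al : ℝ) (zf xf : ℝ → ℝ) (t : ℝ) : ℝ := rnz al xf t * deriv zf (t + al) + rnx al zf t * deriv xf (t + al)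
def rnm (al : ℝ) (zf xf : ℝ → ℝ) (t : ℝ) : ℝ := rnz al xf t * deriv zf (t - al) + rnx al zf t * deriv xf (t - al)
/-- `G(x) = f (z_m + x z_d) - (x_m + x x_d)^2` -/
def rG (al : ℝ) (zf xf f : ℝ → ℝ) (t x : ℝ) : ℝ :=
  f (rmd al zf t + x * rdf al zf t) - (rmd al xf t + x * rdf al xf t) ^ 2
/-- `int_{-1}^1 x^j sqrt (G x) dx` -/
def raj (al : ℝ) (j : ℕ) (zf xf f : ℝ → ℝ) (t : ℝ) : ℝ :=
  ∫ x in (-1:ℝ)..1, x ^ j * Real.sqrt (rG al zf xf f t x)

/-- real geometric data produced by the analytic part -/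
structure RG (al c : ℝ) (zf xf f : ℝ → ℝ) : Prop where
  cz : ContDiff ℝ 2 zf
  cx : ContDiff ℝ 2 xf
  cf : ContDiffOn ℝ 2 f (Ioo (-4) 4)
  ez : ∀ b, zf (-b) = zf b
  ox : ∀ b, xf (-b) = - xf b
  az : ∀ b, zf (b + Real.pi) = - zf b
  ax : ∀ b, xf (b + Real.pi) = - xf b
  z0 : ∀ b, |zf b - Real.cos b| ≤ c
  x0 : ∀ b, |xf b - Real.sin b| ≤ c
  z1 : ∀ b, |deriv zf b + Real.sin b| ≤ c
  x1 : ∀ b, |deriv xf b - Real.cos b| ≤ c
  f0 : ∀ z ∈ Icc (-3:ℝ) 3, |f z - (1 - z ^ 2)| ≤ c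
  f1 : ∀ z ∈ Icc (-3:ℝ) 3, |deriv f z + 2 * z| ≤ c
  f2 : ∀ z ∈ Icc (-3:ℝ) 3, |deriv (deriv f) z + 2| ≤ c
  fe : ∀ z ∈ Icc (-3:ℝ) 3, f (-z) = f z
  fz : ∀ b, f (zf b) = (xf b) ^ 2
  idV : ∀ t, (raj al 0 zf xf f t + raj al 1 zf xf f t) * rnp al zf xf t +
      (raj al 0 zf xf f t - raj al 1 zf xf f t) * rnm al zf xf t = 0
  idZ : ∀ t, - (rnp al zf xf t * (rmd al zf t * (raj al 0 zf xf f t + raj al 1 zf xf f t) +
        rdf al zf t * (raj al 1 zf xf f t + raj al 2 zf xf f t)) +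
      rnm al zf xf t * (rmd al zf t * (raj al 0 zf xf f t - raj al 1 zf xf f t) +
        rdf al zf t * (raj al 1 zf xf f t - raj al 2 zf xf f t))) =
      M0 al * deriv (fun s => rnz al xf s / rell al zf xf s) t
  idX : ∀ t, - (rnp al zf xf t * (rmd al xf t * (raj al 0 zf xf f t + raj al 1 zf xf f t) +
        rdf al xf t * (raj al 1 zf xf f t + raj al 2 zf xf f t)) +
      rnm al zf xf t * (rmd al xf t * (raj al 0 zf xf f t - raj al 1 zf xf f t) +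
        rdf al xf t * (raj al 1 zf xf f t - raj al 2 zf xf f t))) =
      M0 al * deriv (fun s => rnx al zf s / rell al zf xf s) t
  nonsph : ¬ ∃ R : ℝ, ∀ b, (zf b) ^ 2 + (xf b) ^ 2 = R

theorem RG.mono {al c c' : ℝ} {zf xf f : ℝ → ℝ} (h : RG al c zf xf f) (hc : c ≤ c') : RG al c' zf xf f :=
  { h with
    z0 := fun b => (h.z0 b).trans hc
    x0 := fun b => (h.x0 b).trans hc
    z1 := fun b => (h.z1 b).trans hc
    x1 := fun b => (h.x1 b).trans hc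
    f0 := fun z hz => (h.f0 z hz).trans hc
    f1 := fun z hz => (h.f1 z hz).trans hc
    f2 := fun z hz => (h.f2 z hz).trans hc }

/-- Euclidean 3-space -/
abbrev E3 : Type := EuclideanSpace ℝ (Fin 3)

/-- the body of revolution -/
def KK (f : ℝ → ℝ) : Set E3 := {p | (p 0) ^ 2 + (p 1) ^ 2 ≤ f (p 2) ∧ |p 2| ≤ 3}

/-- centroid (mass centre) of a set -/
def centroid3 (S : Set E3) : E3 := (volume S).toReal⁻¹ • ∫ x in S, x

/-- `K` floats in equilibrium in the orientation `u` at density `d`: the level `t` exists, and for every level `t` with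
`vol (K ∩ {x . u ≤ t}) = d vol K` the vector `g - b(u)` is parallel to `u` -/
def FloatsAt (K : Set E3) (d : ℝ) (u : E3) : Prop :=
  (∃ t : ℝ, (volume (K ∩ {x | inner ℝ x u ≤ t})).toReal = d * (volume K).toReal) ∧
  ∀ t : ℝ, (volume (K ∩ {x | inner ℝ x u ≤ t})).toReal = d * (volume K).toReal →
    ∃ a : ℝ, centroid3 K - centroid3 (K ∩ {x | inner ℝ x u ≤ t}) = a • u

/-- floats in every orientation at density `d` -/
def FloatsEvery (K : Set E3) (d : ℝ) : Prop := ∀ u : E3, ‖u‖ = 1 → FloatsAt K d u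

/-- The statement to be proved: the negated form of Q1. -/
def Goal : Prop := ∃ K : Set E3, IsCompact K ∧ Convex ℝ K ∧ (interior K).Nonempty ∧
  (¬ ∃ (p : E3) (r : ℝ), K = Metric.closedBall p r) ∧
  ∃ d1 d2 : ℝ, 0 < d1 ∧ d1 < 1 ∧ 0 < d2 ∧ d2 < 1 ∧ d1 ≠ d2 ∧ FloatsEvery K d1 ∧ FloatsEvery K d2

/-- density of the planar mass distribution: `2 sqrt (f z - x^2)` for `|z| ≤ 3` (`p = (z, x)`) -/
def omg (f : ℝ → ℝ) (p : ℝ × ℝ) : ℝ := if |p.1| ≤ 3 then 2 * Real.sqrt (f p.1 - p.2 ^ 2) else 0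

/-- planar integral over the half plane `a z + b x ≥ h` -/
def HI (f : ℝ → ℝ) (ph : ℝ × ℝ → ℝ) (a b h : ℝ) : ℝ :=
  ∫ p in {p : ℝ × ℝ | h ≤ a * p.1 + b * p.2}, omg f p * ph p

end FB
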