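import Pool.Agent.H48.FB.D05
import Pool.Agent.H48.FB.QDefs

/-! D06: from the analytic solution to the real geometric data. -/

open Complex Set MeasureTheory Filter Topology

noncomputable section

namespace FB

/-! ### restriction to the real axis -/

theorem d06_mem (b : ℝ) {a' b' : ℝ} (h1 : a' < 0) (h2 : 0 < b') : (b:ℂ) ∈ band a' b' := by
  rw [mem_band, ofReal_im]
  exact ⟨h1, h2⟩

theorem d06_real {r : ℝ} (hr : 0 < r) {g : ℂ → ℂ}
    (h : ∀ z ∈ strip r, g ((starRingEnd ℂ) z) = (starRingEnd ℂ) (g z)) (b : ℝ) :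
    g b = (((g b).re : ℝ) : ℂ) := by
  have h1 := h b (d06_mem b (by linarith) hr)
  rw [conj_ofReal] at h1
  exact (conj_eq_iff_re.1 h1.symm).symm

theorem d06_hasDeriv {g : ℂ → ℂ} {r : ℝ} (hr : 0 < r) (hg : DifferentiableOn ℂ g (band (-r) r))
    (b : ℝ) : HasDerivAt (fun x : ℝ => (g x).re) (deriv g b).re b :=
  ((hg.differentiableAt ((isOpen_band _ _).mem_nhds
    (d06_mem b (by linarith) hr))).hasDerivAt).real_of_complex

theorem d06_contDiff {g : ℂ → ℂ} {r : ℝ} (hr : 0 < r) (hg : DifferentiableOn ℂ g (band (-r) r)) :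
    ContDiff ℝ 2 (fun x : ℝ => (g x).re) := by
  rw [contDiff_iff_contDiffAt]
  intro b
  have h1 : ContDiffAt ℂ 2 g b := (hg.analyticAt ((isOpen_band _ _).mem_nhds
    (d06_mem b (by linarith) hr))).contDiffAt
  exact h1.real_of_complex

section chord
variable {al : ℝ} {g : ℂ → ℂ} {gr : ℝ → ℝ}

theorem d06_md (h : ∀ b : ℝ, g b = (gr b : ℂ)) (t : ℝ) : md al g (t:ℂ) = ((rmd al gr t : ℝ) : ℂ) := by
  unfold md rmd
  rw [← ofReal_add, ← ofReal_sub, h, h]
  push_cast
  rfl

theorem d06_df (h : ∀ b : ℝ, g b = (gr b : ℂ)) (t : ℝ) : df al g (t:ℂ) = ((rdf al gr t : ℝ) : ℂ) := by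
  unfold df rdf
  rw [← ofReal_add, ← ofReal_sub, h, h]
  push_cast
  rfl

end chord

section curve
variable {al : ℝ} {Z X F : ℂ → ℂ} {zf xf : ℝ → ℝ}

theorem d06_np (hZ : ∀ b : ℝ, Z b = (zf b : ℂ)) (hX : ∀ b : ℝ, X b = (xf b : ℂ))
    (hZ' : ∀ b : ℝ, deriv Z b = ((deriv zf b : ℝ) : ℂ))
    (hX' : ∀ b : ℝ, deriv X b = ((deriv xf b : ℝ) : ℂ))
    (t : ℝ) : np al Z X (t:ℂ) = ((rnp al zf xf t : ℝ) : ℂ) ∧
      nm al Z X (t:ℂ) = ((rnm al zf xf t : ℝ) : ℂ) := by
  unfold np nm rnp rnm nz nx rnz rnx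
  rw [d06_df hZ, d06_df hX, ← ofReal_add, ← ofReal_sub, hZ', hX', hZ', hX']
  constructor <;> push_cast <;> rfl

theorem d06_ell (hZ : ∀ b : ℝ, Z b = (zf b : ℂ)) (hX : ∀ b : ℝ, X b = (xf b : ℂ)) (t : ℝ) :
    ell al Z X (t:ℂ) = ((rell al zf xf t : ℝ) : ℂ) := by
  unfold ell rell nz nx rnz rnx
  rw [d06_df hZ, d06_df hX, Real.sqrt_eq_rpow, ofReal_cpow (by positivity)]
  push_cast
  rfl

theorem d06_Gx (hZ : ∀ b : ℝ, Z b = (zf b : ℂ)) (hX : ∀ b : ℝ, X b = (xf b : ℂ)) (t x : ℝ) :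
    (Gx al Z X F (t:ℂ) (x:ℂ)).re = rG al zf xf (fun z => (F (z:ℂ)).re) t x := by
  unfold Gx rG
  rw [d06_md hZ, d06_df hZ, d06_md hX, d06_df hX]
  have e1 : ((rmd al zf t : ℝ) : ℂ) + (x:ℂ) * ((rdf al zf t : ℝ) : ℂ) =
      ((rmd al zf t + x * rdf al zf t : ℝ) : ℂ) := by push_cast; rfl
  have e2 : (((rmd al xf t : ℝ) : ℂ) + (x:ℂ) * ((rdf al xf t : ℝ) : ℂ)) ^ 2 =
      (((rmd al xf t + x * rdf al xf t) ^ 2 : ℝ) : ℂ) := by push_cast; rfl
  rw [e1, e2, sub_re, ofReal_re]

end curve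

theorem FOk.mono {c c' : ℝ} {Z X F : ℂ → ℂ} (h : FOk c Z X F) (hc : c ≤ c') : FOk c' Z X F where
  d := h.d
  n := fun z hz => (h.n z hz).trans hc
  e := h.e
  v := h.v

/-! ### Cauchy estimates for the profile -/

theorem d06_cauchy {G : ℂ → ℂ} {ρ d : ℝ} (hG : DifferentiableOn ℂ G (Metric.ball 0 ρ))
    (hb : ∀ z ∈ Metric.ball (0:ℂ) ρ, ‖G z‖ ≤ d) (z : ℂ) (hz : ‖z‖ < ρ - 1/4) :
    ‖deriv G z‖ ≤ 4 * d := by
  have hsub : Metric.closedBall z (1/4) ⊆ Metric.ball 0 ρ := by
    intro w hw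
    rw [mem_ball_zero_iff]
    rw [Metric.mem_closedBall, dist_eq_norm] at hw
    have := norm_add_le (w - z) z
    rw [sub_add_cancel] at this
    linarith
  have h1 := Complex.norm_deriv_le_of_forall_mem_sphere_norm_le (f := G) (c := z) (R := 1/4)
    (C := d) (by norm_num) ((hG.mono (Metric.closure_ball_subset_closedBall.trans hsub)).diffContOnCl)
    fun w hw => hb w (hsub (Metric.sphere_subset_closedBall hw))
  refine h1.trans (le_of_eq ?_)
  ring

theorem d06_profile {F : ℂ → ℂ} {d : ℝ} (hF : DifferentiableOn ℂ F (Metric.ball 0 4))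
    (hn : ∀ z ∈ Metric.ball (0:ℂ) 4, ‖F z - (1 - z ^ 2)‖ ≤ d) :
    ContDiffOn ℝ 2 (fun x : ℝ => (F x).re) (Ioo (-4) 4) ∧
    ∀ x ∈ Icc (-3:ℝ) 3, |(F x).re - (1 - x ^ 2)| ≤ d ∧
      |deriv (fun x : ℝ => (F x).re) x + 2 * x| ≤ 4 * d ∧
      |deriv (deriv (fun x : ℝ => (F x).re)) x + 2| ≤ 16 * d := by
  have hop : IsOpen (Metric.ball (0:ℂ) 4) := Metric.isOpen_ball
  have hmem : ∀ x : ℝ, x ∈ Ioo (-4:ℝ) 4 → (x:ℂ) ∈ Metric.ball (0:ℂ) 4 := by
    intro x hx
    rw [mem_ball_zero_iff, norm_real, Real.norm_eq_abs, abs_lt]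
    exact ⟨hx.1, hx.2⟩
  have hd : ∀ x : ℝ, x ∈ Ioo (-4:ℝ) 4 →
      HasDerivAt (fun x : ℝ => (F x).re) (deriv F x).re x := fun x hx =>
    ((hF.differentiableAt (hop.mem_nhds (hmem x hx))).hasDerivAt).real_of_complex
  have hF' : DifferentiableOn ℂ (deriv F) (Metric.ball 0 4) := hF.deriv hop
  have hd2 : ∀ x : ℝ, x ∈ Ioo (-4:ℝ) 4 →
      HasDerivAt (fun x : ℝ => (deriv F x).re) (deriv (deriv F) x).re x := fun x hx =>
    ((hF'.differentiableAt (hop.mem_nhds (hmem x hx))).hasDerivAt).real_of_complex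
  refine ⟨?_, ?_⟩
  · intro x hx
    have h1 : ContDiffAt ℂ 2 F x := (hF.analyticAt (hop.mem_nhds (hmem x hx))).contDiffAt
    exact h1.real_of_complex.contDiffWithinAt
  · intro x hx
    have hx4 : x ∈ Ioo (-4:ℝ) 4 := ⟨by linarith [hx.1], by linarith [hx.2]⟩
    -- the difference
    set G : ℂ → ℂ := fun z => F z - (1 - z ^ 2) with hGdef
    have hG : DifferentiableOn ℂ G (Metric.ball 0 4) :=
      hF.sub ((differentiable_const _).sub (differentiable_id.pow 2)).differentiableOn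
    have hGd : ∀ z ∈ Metric.ball (0:ℂ) 4, deriv G z = deriv F z + 2 * z := by
      intro z hz
      have h1 := (hF.differentiableAt (hop.mem_nhds hz)).hasDerivAt
      have h2 : HasDerivAt (fun z : ℂ => 1 - z ^ 2) (-(2 * z)) z := by
        have := (hasDerivAt_const z (1:ℂ)).sub (hasDerivAt_pow 2 z)
        refine this.congr_deriv ?_
        push_cast
        ring
      have h3 := (h1.sub h2).deriv
      rw [hGdef]
      rw [show (fun z => F z - (1 - z ^ 2)) = F - fun z : ℂ => 1 - z ^ 2 from rfl, h3]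
      ring
    have hG' : DifferentiableOn ℂ (deriv G) (Metric.ball 0 4) := hG.deriv hop
    have hb1 : ∀ z : ℂ, ‖z‖ < 4 - 1/4 → ‖deriv G z‖ ≤ 4 * d := fun z hz =>
      d06_cauchy hG hn z hz
    have hb2 : ∀ z : ℂ, ‖z‖ < (4 - 1/4) - 1/4 → ‖deriv (deriv G) z‖ ≤ 4 * (4 * d) := fun z hz =>
      d06_cauchy (hG'.mono (Metric.ball_subset_ball (by norm_num)))
        (fun w hw => hb1 w (mem_ball_zero_iff.1 hw)) z hz
    have hGd2 : deriv (deriv G) x = deriv (deriv F) x + 2 := by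
      have h1 : deriv G =ᶠ[𝓝 (x:ℂ)] fun z => deriv F z + 2 * z := by
        filter_upwards [hop.mem_nhds (hmem x hx4)] with z hz using hGd z hz
      have h2 := (hF'.differentiableAt (hop.mem_nhds (hmem x hx4))).hasDerivAt
      have h3 : HasDerivAt (fun z : ℂ => 2 * z) 2 (x:ℂ) := by
        simpa using (hasDerivAt_id (x:ℂ)).const_mul (2:ℂ)
      rw [h1.deriv_eq]
      exact (h2.add h3).deriv
    have hxn : ‖(x:ℂ)‖ ≤ 3 := by
      rw [norm_real, Real.norm_eq_abs, abs_le]
      exact ⟨hx.1, hx.2⟩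
    refine ⟨?_, ?_, ?_⟩
    · have h1 := (abs_re_le_norm _).trans (hn x (hmem x hx4))
      have h2 : ((F x - (1 - (x:ℂ) ^ 2)) : ℂ).re = (F x).re - (1 - x ^ 2) := by
        rw [sub_re, sub_re, ← ofReal_pow, ofReal_re, one_re]
      rwa [h2] at h1
    · rw [(hd x hx4).deriv]
      have h1 := (abs_re_le_norm _).trans (hb1 x (by linarith))
      rw [hGd x (hmem x hx4)] at h1
      have h2 : (deriv F x + 2 * (x:ℂ)).re = (deriv F x).re + 2 * x := by simp
      rwa [h2] at h1
    · have h0 : deriv (fun x : ℝ => (F x).re) =ᶠ[𝓝 x] fun x : ℝ => (deriv F x).re := by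
        filter_upwards [isOpen_Ioo.mem_nhds hx4] with y hy using (hd y hy).deriv
      rw [h0.deriv_eq, (hd2 x hx4).deriv]
      have h1 := (abs_re_le_norm _).trans (hb2 x (by linarith))
      rw [hGd2] at h1
      have h2 : (deriv (deriv F) x + 2 : ℂ).re = (deriv (deriv F) x).re + 2 := by simp
      rw [h2] at h1
      linarith

/-! ### the identities on the strip -/

/-- analytic data on the strip `3/2` -/
theorem d06_identities {al : ℝ} {Z X F : ℂ → ℂ}
    (hZ : DifferentiableOn ℂ Z (band (-3) 3)) (hX : DifferentiableOn ℂ X (band (-3) 3))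
    (hell : DifferentiableOn ℂ (ell al Z X) (band (-3) 3))
    (hell0 : ∀ t ∈ band (-3) 3, ell al Z X t ≠ 0)
    (hh : ∀ j, DifferentiableOn ℂ (hj al j Z X F) (strip (8/5)))
    (haj : ∀ j, EqOn (aj al j Z X) (hj al j Z X F) (band 1 (3/2)))
    (hV : ∀ t ∈ band 1 3, HasDerivAt (Vf al Z X) (- (aj al 0 Z X t + aj al 1 Z X t) * np al Z X t -
      (aj al 0 Z X t - aj al 1 Z X t) * nm al Z X t) t)
    (hPz : ∀ t ∈ band 1 3, HasDerivAt (Pzf al Z X) (- cfp al Z X Z t * np al Z X t -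
      cfm al Z X Z t * nm al Z X t) t)
    (hPx : ∀ t ∈ band 1 3, HasDerivAt (Pxf al Z X) (- cfp al Z X X t * np al Z X t -
      cfm al Z X X t * nm al Z X t) t)
    (h0 : ∃ V0 : ℂ, ∀ t ∈ band 1 3, Vf al Z X t = V0)
    (h1 : ∀ t ∈ band 1 3, Pzf al Z X t * ell al Z X t = (M0 al : ℂ) * nz al X t)
    (h2 : ∀ t ∈ band 1 3, Pxf al Z X t * ell al Z X t = (M0 al : ℂ) * nx al Z t) :
    (∀ t ∈ strip (3/2), (hj al 0 Z X F t + hj al 1 Z X F t) * np al Z X t +
      (hj al 0 Z X F t - hj al 1 Z X F t) * nm al Z X t = 0) ∧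
    (∀ t ∈ strip (3/2), - (np al Z X t * (md al Z t * (hj al 0 Z X F t + hj al 1 Z X F t) +
        df al Z t * (hj al 1 Z X F t + hj al 2 Z X F t)) +
      nm al Z X t * (md al Z t * (hj al 0 Z X F t - hj al 1 Z X F t) +
        df al Z t * (hj al 1 Z X F t - hj al 2 Z X F t))) =
      (M0 al : ℂ) * deriv (fun s => nz al X s / ell al Z X s) t) ∧
    (∀ t ∈ strip (3/2), - (np al Z X t * (md al X t * (hj al 0 Z X F t + hj al 1 Z X F t) +
        df al X t * (hj al 1 Z X F t + hj al 2 Z X F t)) +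
      nm al Z X t * (md al X t * (hj al 0 Z X F t - hj al 1 Z X F t) +
        df al X t * (hj al 1 Z X F t - hj al 2 Z X F t))) =
      (M0 al : ℂ) * deriv (fun s => nx al Z s / ell al Z X s) t) ∧
    DifferentiableOn ℂ (fun s => nz al X s / ell al Z X s) (band (-3) 3) ∧
    DifferentiableOn ℂ (fun s => nx al Z s / ell al Z X s) (band (-3) 3) := by
  have e0 : EE := ⟨0, by norm_num⟩
  have fZ : Fam (band (-3) 3) (fun _ : EE => Z) := Fam.const hZ
  have fX : Fam (band (-3) 3) (fun _ : EE => X) := Fam.const hX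
  obtain ⟨f1, f2, f3, f4, -, -, -⟩ := fam_chord (al := al) fZ fX
  have f5 : Fam (band (-3) 3) (fun _ : EE => df al Z) := fam_df fZ
  have f6 : Fam (band (-3) 3) (fun _ : EE => df al X) := fam_df fX
  have f7 : Fam (band (-3) 3) (fun _ : EE => np al Z X) :=
    (f3.mul (fZ.deriv.shift al)).add (f4.mul (fX.deriv.shift al))
  have f8 : Fam (band (-3) 3) (fun _ : EE => nm al Z X) :=
    (f3.mul (fZ.deriv.shift_sub al)).add (f4.mul (fX.deriv.shift_sub al))
  have hsub : strip (3/2) ⊆ band (-3) 3 := band_subset (by norm_num) (by norm_num)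
  have hsub' : strip (3/2) ⊆ strip (8/5) := band_subset (by norm_num) (by norm_num)
  have hsub1 : band 1 (3/2) ⊆ band 1 3 := band_subset le_rfl (by norm_num)
  have dmZ : DifferentiableOn ℂ (md al Z) (strip (3/2)) := (f1.diff e0).mono hsub
  have dmX : DifferentiableOn ℂ (md al X) (strip (3/2)) := (f2.diff e0).mono hsub
  have ddZ : DifferentiableOn ℂ (df al Z) (strip (3/2)) := (f5.diff e0).mono hsub
  have ddX : DifferentiableOn ℂ (df al X) (strip (3/2)) := (f6.diff e0).mono hsub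
  have dnp : DifferentiableOn ℂ (np al Z X) (strip (3/2)) := (f7.diff e0).mono hsub
  have dnm : DifferentiableOn ℂ (nm al Z X) (strip (3/2)) := (f8.diff e0).mono hsub
  have dh := fun j => (hh j).mono hsub'
  have dQz : DifferentiableOn ℂ (fun s => nz al X s / ell al Z X s) (band (-3) 3) :=
    (f3.diff e0).div hell hell0
  have dQx : DifferentiableOn ℂ (fun s => nx al Z s / ell al Z X s) (band (-3) 3) :=
    (f4.diff e0).div hell hell0
  have hop := isOpen_band (-3) 3
  have dQz' : DifferentiableOn ℂ (deriv fun s => nz al X s / ell al Z X s) (strip (3/2)) :=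
    (dQz.deriv hop).mono hsub
  have dQx' : DifferentiableOn ℂ (deriv fun s => nx al Z s / ell al Z X s) (strip (3/2)) :=
    (dQx.deriv hop).mono hsub
  have hb : band 1 3 ⊆ band (-3) 3 := band_subset (by norm_num) le_rfl
  -- the derivative of the normal
  have key : ∀ (Q P : ℂ → ℂ) (t p : ℂ), t ∈ band 1 3 →
      DifferentiableOn ℂ (fun s => Q s / ell al Z X s) (band (-3) 3) →
      (∀ t ∈ band 1 3, P t * ell al Z X t = (M0 al : ℂ) * Q t) → HasDerivAt P p t →
      p = (M0 al : ℂ) * deriv (fun s => Q s / ell al Z X s) t := by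
    intro Q P t p ht hQ hP hp
    have h3 : P =ᶠ[𝓝 t] fun s => (M0 al : ℂ) * (Q s / ell al Z X s) := by
      filter_upwards [(isOpen_band 1 3).mem_nhds ht] with s hs
      rw [← mul_div_assoc, eq_div_iff (hell0 s (hb hs))]
      exact hP s hs
    have h4 : HasDerivAt (fun s => (M0 al : ℂ) * (Q s / ell al Z X s)) p t :=
      hp.congr_of_eventuallyEq h3.symm
    have h5 := ((hQ.differentiableAt (hop.mem_nhds (hb ht))).hasDerivAt).const_mul (M0 al : ℂ)
    exact h4.unique h5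
  refine ⟨?_, ?_, ?_, dQz, dQx⟩
  · have hd1 : DifferentiableOn ℂ (fun t => (hj al 0 Z X F t + hj al 1 Z X F t) * np al Z X t +
      (hj al 0 Z X F t - hj al 1 Z X F t) * nm al Z X t) (band (-(3/2)) (3/2)) :=
      (((dh 0).add (dh 1)).mul dnp).add (((dh 0).sub (dh 1)).mul dnm)
    have hd2 : DifferentiableOn ℂ (fun _ : ℂ => (0:ℂ)) (band (-(3/2)) (3/2)) :=
      differentiableOn_const _
    intro t ht
    refine eqOn_band (a' := 1) (b' := 3/2) (by norm_num) le_rfl (by norm_num) hd1 hd2 ?_ ht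
    intro s hs
    simp only
    rw [← haj 0 hs, ← haj 1 hs]
    obtain ⟨V0, hV0⟩ := h0
    have h3 : Vf al Z X =ᶠ[𝓝 s] fun _ => V0 := by
      filter_upwards [(isOpen_band 1 3).mem_nhds (hsub1 hs)] with s hs using hV0 s hs
    have h4 := (hV s (hsub1 hs)).congr_of_eventuallyEq h3.symm
    have h5 := h4.unique (hasDerivAt_const s V0)
    linear_combination -h5
  · have hd1 : DifferentiableOn ℂ (fun t => - (np al Z X t * (md al Z t * (hj al 0 Z X F t + hj al 1 Z X F t) +
        df al Z t * (hj al 1 Z X F t + hj al 2 Z X F t)) +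
      nm al Z X t * (md al Z t * (hj al 0 Z X F t - hj al 1 Z X F t) +
        df al Z t * (hj al 1 Z X F t - hj al 2 Z X F t)))) (band (-(3/2)) (3/2)) :=
      ((dnp.mul ((dmZ.mul ((dh 0).add (dh 1))).add (ddZ.mul ((dh 1).add (dh 2))))).add
        (dnm.mul ((dmZ.mul ((dh 0).sub (dh 1))).add (ddZ.mul ((dh 1).sub (dh 2)))))).neg
    have hd2 : DifferentiableOn ℂ (fun t => (M0 al : ℂ) * deriv (fun s => nz al X s / ell al Z X s) t)
      (band (-(3/2)) (3/2)) := dQz'.const_mul _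
    intro t ht
    refine eqOn_band (a' := 1) (b' := 3/2) (by norm_num) le_rfl (by norm_num) hd1 hd2 ?_ ht
    intro s hs
    simp only
    have h5 := key (nz al X) (Pzf al Z X) s _ (hsub1 hs) dQz h1 (hPz s (hsub1 hs))
    rw [← h5, ← haj 0 hs, ← haj 1 hs, ← haj 2 hs]
    unfold cfp cfm
    ring
  · have hd1 : DifferentiableOn ℂ (fun t => - (np al Z X t * (md al X t * (hj al 0 Z X F t + hj al 1 Z X F t) +
        df al X t * (hj al 1 Z X F t + hj al 2 Z X F t)) +
      nm al Z X t * (md al X t * (hj al 0 Z X F t - hj al 1 Z X F t) +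
        df al X t * (hj al 1 Z X F t - hj al 2 Z X F t)))) (band (-(3/2)) (3/2)) :=
      ((dnp.mul ((dmX.mul ((dh 0).add (dh 1))).add (ddX.mul ((dh 1).add (dh 2))))).add
        (dnm.mul ((dmX.mul ((dh 0).sub (dh 1))).add (ddX.mul ((dh 1).sub (dh 2)))))).neg
    have hd2 : DifferentiableOn ℂ (fun t => (M0 al : ℂ) * deriv (fun s => nx al Z s / ell al Z X s) t)
      (band (-(3/2)) (3/2)) := dQx'.const_mul _
    intro t ht
    refine eqOn_band (a' := 1) (b' := 3/2) (by norm_num) le_rfl (by norm_num) hd1 hd2 ?_ ht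
    intro s hs
    simp only
    have h5 := key (nx al Z) (Pxf al Z X) s _ (hsub1 hs) dQx h2 (hPx s (hsub1 hs))
    rw [← h5, ← haj 0 hs, ← haj 1 hs, ← haj 2 hs]
    unfold cfp cfm
    ring

/-- `zf b = (Z b).re`, `xf b = (X b).re`, `f z = (Fint Z X z).re`. Smoothness: real and imaginary parts of analytic functions.
`f0, f1, f2`: `‖F - (1 - z^2)‖ ≤ C c` on `ball 0 4`, Cauchy estimates for the derivatives at `|z| ≤ 3`.
`idV`: `V` constant on `band 1 3`, so `(a0 + a1) np + (a0 - a1) nm = 0` there (`trans_deriv`); with `aj = hj` on `band 1 (3/2)` this is an identity between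
analytic functions on `strip (3/2)`, so holds on the real axis, where `hj al j = raj al j` (`hj_real`), `np = rnp` etc.
`idZ`: `Pz = M0 nz/ell` on the band; differentiate: `- cfp np - cfm nm = M0 (nz/ell)'`, analytic on `strip (3/2)` (`ell` is analytic on the strip, near
`sin al`), go to the real axis; `ell = rell` there. Same for `idX`. -/
theorem nr (c1 : ℝ) (hc1 : 0 < c1) : ∃ c : ℝ, 0 < c ∧ ∀ al ∈ JJ, ∀ Z X : ℂ → ℂ, NB c (-3) 3 Z X → Sym 3 Z X → RealC 3 Z X →
    (∃ V0 : ℂ, ∀ t ∈ band 1 3, Vf al Z X t = V0) →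
    (∀ t ∈ band 1 3, Pzf al Z X t * ell al Z X t = (M0 al : ℂ) * nz al X t) →
    (∀ t ∈ band 1 3, Pxf al Z X t * ell al Z X t = (M0 al : ℂ) * nx al Z t) →
    (¬ ∃ ρ : ℝ, ∀ b : ℝ, Z b ^ 2 + X b ^ 2 = (ρ : ℂ)) →
    ∃ zf xf f : ℝ → ℝ, RG al c1 zf xf f := by
  obtain ⟨cF, CF, hcF, hCF, hCFc, HF⟩ := exists_F
  obtain ⟨ca, hca, Ha⟩ := aj_eq_hj
  obtain ⟨ch, Ch, hch, hCh, hChc, Hh⟩ := hj_basic
  obtain ⟨cr, hcr, Hr⟩ := hj_real
  obtain ⟨ct, hct, Ht⟩ := trans_deriv 3 (by norm_num)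
  obtain ⟨cs, Cs, hcs, hCs, hCsc, Hs⟩ := chord_bd_strip 3 (by norm_num)
  set m : ℝ := min c1 (min cF (min ca (min ch (min cr (min ct cs))))) with hm
  have hm0 : 0 < m := by
    rw [hm]
    simp only [lt_min_iff]
    exact ⟨hc1, hcF, hca, hch, hcr, hct, hcs⟩
  have m1 : m ≤ c1 := min_le_left _ _
  have m2 : m ≤ cF := (min_le_right _ _).trans (min_le_left _ _)
  have m3 : m ≤ ca := (min_le_right _ _).trans ((min_le_right _ _).trans (min_le_left _ _))
  have m4 : m ≤ ch := (min_le_right _ _).trans ((min_le_right _ _).trans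
    ((min_le_right _ _).trans (min_le_left _ _)))
  have m5 : m ≤ cr := (min_le_right _ _).trans ((min_le_right _ _).trans
    ((min_le_right _ _).trans ((min_le_right _ _).trans (min_le_left _ _))))
  have m6 : m ≤ ct := (min_le_right _ _).trans ((min_le_right _ _).trans
    ((min_le_right _ _).trans ((min_le_right _ _).trans ((min_le_right _ _).trans
      (min_le_left _ _)))))
  have m7 : m ≤ cs := (min_le_right _ _).trans ((min_le_right _ _).trans
    ((min_le_right _ _).trans ((min_le_right _ _).trans ((min_le_right _ _).trans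
      (min_le_right _ _)))))
  clear_value m
  set c : ℝ := m / (16 * CF) with hc
  have hCF0 : 0 < CF := by linarith
  have hc0 : 0 < c := by positivity
  have hc16 : 16 * (CF * c) = m := by
    rw [hc]
    field_simp
  have hCc : CF * c ≤ m := by nlinarith
  have hcC : c ≤ CF * c := by nlinarith
  have hcm : c ≤ m := hcC.trans hCc
  refine ⟨c, hc0, ?_⟩
  intro al hal Z X hN hS hR h0 h1 h2 h3
  obtain ⟨hFO, hFr⟩ := HF c hc0.le (hcm.trans m2) Z X hN hS
  set F := Fint Z X with hFdef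
  have hFr' := hFr hR
  have hS2 : Sym 2 Z X := hS.mono (by norm_num)
  have hR2 : RealC 2 Z X := hR.mono (by norm_num)
  have hN2 : NB (CF * c) (-2) 2 Z X := hN.mono hcC (by norm_num) (by norm_num)
  have hN2a : NB ca (-2) 2 Z X := hN.mono (hcm.trans m3) (by norm_num) (by norm_num)
  have hN2r : NB cr (-2) 2 Z X := hN.mono (hcm.trans m5) (by norm_num) (by norm_num)
  have haj := Ha al hal Z X F hN2a hS2 (hFO.mono (hCc.trans m3))
  have hjb := fun j => Hh al hal (CF * c) (by positivity) (hCc.trans m4) Z X F hN2 hS2 hFO j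
  have hjr := Hr al hal Z X F hN2r hS2 hR2 (hFO.mono (hCc.trans m5)) hFr'
  have htr := Ht al hal 1 3 le_rfl le_rfl Z X (hN.mono (hcm.trans m6) (by norm_num) le_rfl)
  have hch3 := Hs al hal 3 c (by norm_num) le_rfl hc0.le (hcm.trans m7) Z X hN hS
  -- the length
  obtain ⟨-, -, -, -, -, hs1, hs2⟩ := JJ_bounds hal
  have hCsc' : Cs * c ≤ 1/100 := (mul_le_mul_of_nonneg_left (hcm.trans m7) (by linarith)).trans hCsc
  have e0 : EE := ⟨0, by norm_num⟩
  have fell := (fam_ell (al := al) (a := -3) (b := 3) (D := Cs * c) (Z := fun _ => Z)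
    (X := fun _ => X) (Fam.const hN.dZ) (Fam.const hN.dX) hal hCsc'
    fun _ t ht => (hch3 t ht).1).1
  have dell : DifferentiableOn ℂ (ell al Z X) (band (-3) 3) := fell.diff e0
  have hell0 : ∀ t ∈ band (-3) 3, ell al Z X t ≠ 0 := by
    intro t ht h0
    have h := (hch3 t ht).1.ell
    rw [h0, zero_sub, norm_neg, norm_real, Real.norm_eq_abs, abs_of_pos (by linarith)] at h
    linarith
  obtain ⟨I0, I1, I2, dQz, dQx⟩ := d06_identities (F := F) hN.dZ hN.dX dell hell0
    (fun j => (hjb j).1) haj (fun t ht => (htr t ht).1) (fun t ht => (htr t ht).2.1)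
    (fun t ht => (htr t ht).2.2.1) h0 h1 h2
  -- real functions
  have hZr : ∀ b : ℝ, Z b = (((Z b).re : ℝ) : ℂ) := d06_real (by norm_num) hR.rZ
  have hXr : ∀ b : ℝ, X b = (((X b).re : ℝ) : ℂ) := d06_real (by norm_num) hR.rX
  have hZd : ∀ b : ℝ, HasDerivAt (fun x : ℝ => (Z x).re) (deriv Z b).re b :=
    d06_hasDeriv (by norm_num) hN.dZ
  have hXd : ∀ b : ℝ, HasDerivAt (fun x : ℝ => (X x).re) (deriv X b).re b :=
    d06_hasDeriv (by norm_num) hN.dX
  have hZ' : ∀ b : ℝ, deriv Z b = ((deriv (fun x : ℝ => (Z x).re) b : ℝ) : ℂ) := fun b => by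
    rw [(hZd b).deriv]
    exact d06_real (by norm_num) (fun z hz => deriv_of_conj hR.rZ hz) b
  have hX' : ∀ b : ℝ, deriv X b = ((deriv (fun x : ℝ => (X x).re) b : ℝ) : ℂ) := fun b => by
    rw [(hXd b).deriv]
    exact d06_real (by norm_num) (fun z hz => deriv_of_conj hR.rX hz) b
  have hraj : ∀ (j : ℕ) (t : ℝ), hj al j Z X F t =
      ((raj al j (fun x : ℝ => (Z x).re) (fun x : ℝ => (X x).re) (fun z : ℝ => (F z).re) t : ℝ) : ℂ) := by
    intro j t
    rw [(hjr j t).1]
    unfold raj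
    congr 1
    refine intervalIntegral.integral_congr fun x _ => ?_
    rw [d06_Gx hZr hXr]
  have hmem : ∀ b : ℝ, (b:ℂ) ∈ band (-3) 3 := fun b => d06_mem b (by norm_num) (by norm_num)
  have hmem32 : ∀ b : ℝ, (b:ℂ) ∈ strip (3/2) := fun b => d06_mem b (by norm_num) (by norm_num)
  obtain ⟨cfF, hprof⟩ := d06_profile hFO.d hFO.n
  refine ⟨fun b => (Z b).re, fun b => (X b).re, fun z => (F z).re, ?_⟩
  exact {
    cz := d06_contDiff (by norm_num) hN.dZ
    cx := d06_contDiff (by norm_num) hN.dX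
    cf := cfF
    ez := fun b => by
      rw [ofReal_neg, hS.eZ _ (hmem b)]
    ox := fun b => by
      rw [ofReal_neg, hS.oX _ (hmem b), neg_re]
    az := fun b => by
      rw [ofReal_add, hS.aZ _ (hmem b), neg_re]
    ax := fun b => by
      rw [ofReal_add, hS.aX _ (hmem b), neg_re]
    z0 := fun b => by
      have h := (abs_re_le_norm _).trans (hN.z0 b (hmem b))
      rw [sub_re, ← ofReal_cos, ofReal_re] at h
      exact h.trans (hcm.trans m1)
    x0 := fun b => by
      have h := (abs_re_le_norm _).trans (hN.x0 b (hmem b))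
      rw [sub_re, ← ofReal_sin, ofReal_re] at h
      exact h.trans (hcm.trans m1)
    z1 := fun b => by
      have h := (abs_re_le_norm _).trans (hN.z1 b (hmem b))
      rw [add_re, ← ofReal_sin, ofReal_re] at h
      rw [(hZd b).deriv]
      exact h.trans (hcm.trans m1)
    x1 := fun b => by
      have h := (abs_re_le_norm _).trans (hN.x1 b (hmem b))
      rw [sub_re, ← ofReal_cos, ofReal_re] at h
      rw [(hXd b).deriv]
      exact h.trans (hcm.trans m1)
    f0 := fun z hz => by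
      have := (hprof z hz).1
      exact this.trans (hCc.trans m1)
    f1 := fun z hz => by
      have := (hprof z hz).2.1
      refine this.trans ?_
      linarith
    f2 := fun z hz => by
      have := (hprof z hz).2.2
      refine this.trans ?_
      linarith
    fe := fun z hz => by
      rw [ofReal_neg, hFO.e]
      rw [mem_ball_zero_iff, norm_real, Real.norm_eq_abs, abs_lt]
      exact ⟨by linarith [hz.1], by linarith [hz.2]⟩
    fz := fun b => by
      rw [← hZr b, (hFO.v b (d06_mem b (by norm_num) (by norm_num))).2, hXr b, ← ofReal_pow,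
        ofReal_re, ofReal_re]
    idV := fun t => by
      have h := I0 t (hmem32 t)
      rw [hraj, hraj, (d06_np hZr hXr hZ' hX' t).1, (d06_np hZr hXr hZ' hX' t).2] at h
      exact_mod_cast h
    idZ := fun t => by
      have h := I1 t (hmem32 t)
      have hd := (d06_hasDeriv (by norm_num) dQz t).deriv
      have hf : (fun x : ℝ => (nz al X x / ell al Z X x).re) = fun s : ℝ =>
          rnz al (fun b : ℝ => (X b).re) s / rell al (fun b : ℝ => (Z b).re) (fun b : ℝ => (X b).re) s := by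
        funext s
        rw [d06_ell hZr hXr]
        unfold nz rnz
        rw [d06_df hXr, ← ofReal_div, ofReal_re]
      rw [hf] at hd
      rw [hraj, hraj, hraj, (d06_np hZr hXr hZ' hX' t).1, (d06_np hZr hXr hZ' hX' t).2,
        d06_md hZr, d06_df hZr] at h
      have h' := congrArg re h
      rw [re_ofReal_mul, ← hd] at h'
      rw [← h']
      norm_cast
    idX := fun t => by
      have h := I2 t (hmem32 t)
      have hd := (d06_hasDeriv (by norm_num) dQx t).deriv
      have hf : (fun x : ℝ => (nx al Z x / ell al Z X x).re) = fun s : ℝ =>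
          rnx al (fun b : ℝ => (Z b).re) s / rell al (fun b : ℝ => (Z b).re) (fun b : ℝ => (X b).re) s := by
        funext s
        rw [d06_ell hZr hXr]
        unfold nx rnx
        rw [d06_df hZr, ← ofReal_neg, ← ofReal_div, ofReal_re]
      rw [hf] at hd
      rw [hraj, hraj, hraj, (d06_np hZr hXr hZ' hX' t).1, (d06_np hZr hXr hZ' hX' t).2,
        d06_md hXr, d06_df hXr] at h
      have h' := congrArg re h
      rw [re_ofReal_mul, ← hd] at h'
      rw [← h']
      norm_cast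
    nonsph := by
      rintro ⟨ρ, hρ⟩
      apply h3
      refine ⟨ρ, fun b => ?_⟩
      rw [hZr b, hXr b, ← hρ b]
      push_cast
      rfl }

end FB
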