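import Mathlib

/-!
# MP_fa62fa_gt: definitions for the floating body project (helper48)
Plan: /team-store/fb_plan.md
-/

open Complex Set MeasureTheory Filter Topology

noncomputable section

namespace FB

/-! ### regions -/

/-- horizontal band `a < Im z < b` -/
def band (a b : ℝ) : Set ℂ := {z | a < z.im ∧ z.im < b}

/-- the strip `|Im z| < r` -/
def strip (r : ℝ) : Set ℂ := band (-r) r

/-- bifurcation angle, `cos al0 = 1/sqrt 7` -/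
def al0 : ℝ := Real.arccos (1 / Real.sqrt 7)

/-- the parameter interval for the half opening angle `al` -/
def JJ : Set ℝ := Icc (al0 - 1/100) (al0 + 1/100)

/-! ### Fourier coefficient on the horizontal line `Im z = y` -/

def fc (f : ℂ → ℂ) (y : ℝ) (k : ℤ) : ℂ :=
  (1 / (2 * (Real.pi : ℂ))) *
    ∫ x in (0:ℝ)..(2 * Real.pi), f ((x : ℂ) + (y : ℂ) * I) * exp (-(I * (k : ℂ) * ((x : ℂ) + (y : ℂ) * I)))

/-- `f` (given on `band a b`) extends to an even analytic `2 pi` periodic function on `strip b` -/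
def EvenExt (a b : ℝ) (f : ℂ → ℂ) : Prop :=
  ∃ g : ℂ → ℂ, DifferentiableOn ℂ g (strip b) ∧ (∀ z ∈ strip b, g (z + 2 * (Real.pi : ℂ)) = g z) ∧
    (∀ z ∈ strip b, g (-z) = g z) ∧ EqOn g f (band a b)

/-- `f` (given on `band a b`) extends to an odd analytic `2 pi` periodic function on `strip b` -/
def OddExt (a b : ℝ) (f : ℂ → ℂ) : Prop :=
  ∃ g : ℂ → ℂ, DifferentiableOn ℂ g (strip b) ∧ (∀ z ∈ strip b, g (z + 2 * (Real.pi : ℂ)) = g z) ∧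
    (∀ z ∈ strip b, g (-z) = - g z) ∧ EqOn g f (band a b)

/-! ### families depending continuously on a parameter -/

/-- the parameter space (amplitude of the perturbation is `e * const`) -/
abbrev EE : Type := ↥(Icc (0:ℝ) 1)

structure Fam (U : Set ℂ) (f : EE → ℂ → ℂ) : Prop where
  cont : ContinuousOn (fun p : EE × ℂ => f p.1 p.2) (univ ×ˢ U)
  diff : ∀ e, DifferentiableOn ℂ (f e) U

/-- `phi 0 + 2 sum_{m >= 1} phi m cos (2 m z)` -/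
def cosS (phi : ℕ → ℝ) (z : ℂ) : ℂ := (phi 0 : ℂ) + 2 * ∑' m : ℕ, (phi (m + 1) : ℂ) * cos (2 * ((m : ℂ) + 1) * z)
/-- `2 sum_{m >= 1} psi m sin (2 m z)` (`psi 0` is not used) -/
def sinS (psi : ℕ → ℝ) (z : ℂ) : ℂ := 2 * ∑' m : ℕ, (psi (m + 1) : ℂ) * sin (2 * ((m : ℂ) + 1) * z)

/-! ### curves -/

/-- closeness of `(Z, X)` to the circle `(cos, sin)` on the band, with first derivatives -/
structure NB (c a b : ℝ) (Z X : ℂ → ℂ) : Prop where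
  dZ : DifferentiableOn ℂ Z (band a b)
  dX : DifferentiableOn ℂ X (band a b)
  z0 : ∀ z ∈ band a b, ‖Z z - cos z‖ ≤ c
  x0 : ∀ z ∈ band a b, ‖X z - sin z‖ ≤ c
  z1 : ∀ z ∈ band a b, ‖deriv Z z + sin z‖ ≤ c
  x1 : ∀ z ∈ band a b, ‖deriv X z - cos z‖ ≤ c

/-- symmetries of a (complex) curve on the full strip -/
structure Sym (r : ℝ) (Z X : ℂ → ℂ) : Prop where
  eZ : ∀ z ∈ strip r, Z (-z) = Z z
  oX : ∀ z ∈ strip r, X (-z) = - X z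
  aZ : ∀ z ∈ strip r, Z (z + (Real.pi : ℂ)) = - Z z
  aX : ∀ z ∈ strip r, X (z + (Real.pi : ℂ)) = - X z

/-- reality: real on the real axis -/
structure RealC (r : ℝ) (Z X : ℂ → ℂ) : Prop where
  rZ : ∀ z ∈ strip r, Z ((starRingEnd ℂ) z) = (starRingEnd ℂ) (Z z)
  rX : ∀ z ∈ strip r, X ((starRingEnd ℂ) z) = (starRingEnd ℂ) (X z)

/-! ### chord quantities -/

/-- mean of the two end points -/
def md (al : ℝ) (f : ℂ → ℂ) (t : ℂ) : ℂ := (f (t + (al : ℂ)) + f (t - (al : ℂ))) / 2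
/-- half difference of the two end points -/
def df (al : ℝ) (f : ℂ → ℂ) (t : ℂ) : ℂ := (f (t + (al : ℂ)) - f (t - (al : ℂ))) / 2

def nz (al : ℝ) (X : ℂ → ℂ) (t : ℂ) : ℂ := df al X t
def nx (al : ℝ) (Z : ℂ → ℂ) (t : ℂ) : ℂ := - df al Z t
/-- `eta = n . Gamma_m` -/
def et (al : ℝ) (Z X : ℂ → ℂ) (t : ℂ) : ℂ := nz al X t * md al Z t + nx al Z t * md al X t
/-- `ell = |n|` -/
def ell (al : ℝ) (Z X : ℂ → ℂ) (t : ℂ) : ℂ := ((nz al X t) ^ 2 + (nx al Z t) ^ 2) ^ ((1:ℂ)/2)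
/-- `Hhat = (n . Gamma(t+s) - eta) / (cos s - cos al)` -/
def Hq (al : ℝ) (Z X : ℂ → ℂ) (t s : ℂ) : ℂ :=
  (nz al X t * Z (t + s) + nx al Z t * X (t + s) - et al Z X t) / (cos s - (Real.cos al : ℂ))
def chi (al : ℝ) (Z X : ℂ → ℂ) (t s : ℂ) : ℂ := Hq al Z X t s / (Real.sin al : ℂ)
/-- `nx / (sin al sin t)`, with the removable singularities removed -/
def nu (al : ℝ) (Z : ℂ → ℂ) (t : ℂ) : ℂ :=
  if sin t = 0 then deriv (nx al Z) t / ((Real.sin al : ℂ) * cos t) else nx al Z t / ((Real.sin al : ℂ) * sin t)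
/-- `X b / sin b`, with the removable singularities removed -/
def xi (X : ℂ → ℂ) (b : ℂ) : ℂ := if sin b = 0 then deriv X b / cos b else X b / sin b
/-- `chi` at the end points -/
def chip (al : ℝ) (Z X : ℂ → ℂ) (t : ℂ) : ℂ :=
  - (nz al X t * deriv Z (t + (al : ℂ)) + nx al Z t * deriv X (t + (al : ℂ))) / (Real.sin al : ℂ) ^ 2
def chim (al : ℝ) (Z X : ℂ → ℂ) (t : ℂ) : ℂ :=
  (nz al X t * deriv Z (t - (al : ℂ)) + nx al Z t * deriv X (t - (al : ℂ))) / (Real.sin al : ℂ) ^ 2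

/-- the branch of `(sin t sin (t+s))^(-1/2)` used on the upper half plane -/
def q0 (t s : ℂ) : ℂ :=
  -2 * I * exp (I * (t + s / 2)) * ((1 - exp (2 * I * t)) * (1 - exp (2 * I * (t + s)))) ^ (-((1:ℂ)/2))
def om (al : ℝ) (Z X : ℂ → ℂ) (t s : ℂ) : ℂ :=
  q0 t s * (chi al Z X t s / (nu al Z t * xi X (t + s))) ^ ((1:ℂ)/2)
/-- `k = sqrt (cos s - cos al)` -/
def kk (al : ℝ) (s : ℂ) : ℂ := (cos s - (Real.cos al : ℂ)) ^ ((1:ℂ)/2)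
def yy (al : ℝ) (Z X : ℂ → ℂ) (t s : ℂ) : ℂ := kk al s * om al Z X t s

/-! ### special functions -/

/-- `arccos (1 - y^2) = y * bf (y^2)` -/
def bf (w : ℂ) : ℂ := ∫ s in (0:ℝ)..1, 2 * (2 - (s : ℂ) ^ 2 * w) ^ (-((1:ℂ)/2))
def afn (w : ℂ) : ℂ := ∫ t in (0:ℝ)..1, 2 * (t : ℂ) ^ 2 * bf ((t : ℂ) ^ 2 * w)
def Af (y : ℂ) : ℂ := y * bf (y ^ 2)
def Uf (y : ℂ) : ℂ := y * (2 - y ^ 2) ^ ((1:ℂ)/2)
def Wf (y : ℂ) : ℂ := Af y - (1 - y ^ 2) * Uf y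
def Lf (y : ℂ) : ℂ := y ^ 3 * afn (y ^ 2)

/-! ### functionals on the upper region -/

/-- volume of the cap -/
def Vf (al : ℝ) (Z X : ℂ → ℂ) (t : ℂ) : ℂ :=
  ∫ s in (-al)..al, (- deriv Z (t + (s:ℂ))) * X (t + (s:ℂ)) ^ 2 * Wf (yy al Z X t (s:ℂ))
/-- `z` moment of the cap -/
def Pzf (al : ℝ) (Z X : ℂ → ℂ) (t : ℂ) : ℂ :=
  ∫ s in (-al)..al, (- deriv Z (t + (s:ℂ))) * Z (t + (s:ℂ)) * X (t + (s:ℂ)) ^ 2 * Wf (yy al Z X t (s:ℂ))
/-- `x` moment of the cap -/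
def Pxf (al : ℝ) (Z X : ℂ → ℂ) (t : ℂ) : ℂ :=
  ∫ s in (-al)..al, (2/3 : ℂ) * (- deriv Z (t + (s:ℂ))) * (X (t + (s:ℂ)) * Uf (yy al Z X t (s:ℂ))) ^ 3
/-- chord coordinate of the point of the meridian curve -/
def tau (al : ℝ) (Z : ℂ → ℂ) (t s : ℂ) : ℂ := (Z (t + s) - md al Z t) / df al Z t
/-- moments of the water line section -/
def aj (al : ℝ) (j : ℕ) (Z X : ℂ → ℂ) (t : ℂ) : ℂ :=
  ∫ s in (-al)..al, (tau al Z t (s:ℂ)) ^ j * (X (t + (s:ℂ)) * Uf (yy al Z X t (s:ℂ))) *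
    (- deriv Z (t + (s:ℂ))) / nx al Z t
def Sf (al : ℝ) (Z X : ℂ → ℂ) (t : ℂ) : ℂ :=
  nz al X t * Pzf al Z X t + nx al Z t * Pxf al Z X t - et al Z X t * Vf al Z X t

/-- the constant `M0` -/
def M0 (al : ℝ) : ℝ := Real.pi / 4 * (Real.sin al) ^ 4
/-- volume of the spherical cap (value of the constant function `Vf al cos sin`) -/
def Vs (al : ℝ) : ℝ := (Vf al cos sin (2 * I)).re

/-- `ell * P_4 (n_z / ell)` -/
def Yf (al : ℝ) (Z X : ℂ → ℂ) (t : ℂ) : ℂ :=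
  ell al Z X t * (35 * (nz al X t / ell al Z X t) ^ 4 - 30 * (nz al X t / ell al Z X t) ^ 2 + 3) / 8

/-- the first equation -/
def SS (al : ℝ) (V0 mu : ℂ) (Z X : ℂ → ℂ) (t : ℂ) : ℂ :=
  Sf al Z X t + V0 * et al Z X t - (M0 al : ℂ) * ell al Z X t + mu * Yf al Z X t

/-! ### variation formulas -/

/-- `n . delta Gamma_+` for the variation `(A, B)` -/
def ndp (al : ℝ) (Z X A B : ℂ → ℂ) (t : ℂ) : ℂ :=
  nz al X t * A (t + (al:ℂ)) + nx al Z t * B (t + (al:ℂ))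
def ndm (al : ℝ) (Z X A B : ℂ → ℂ) (t : ℂ) : ℂ :=
  nz al X t * A (t - (al:ℂ)) + nx al Z t * B (t - (al:ℂ))
/-- derivative of `Vf` in the direction `(A, B)` -/
def DV (al : ℝ) (Z X A B : ℂ → ℂ) (t : ℂ) : ℂ :=
  (∫ s in (-al)..al, Af (yy al Z X t (s:ℂ)) * (2 * X (t + (s:ℂ))) *
    (deriv X (t + (s:ℂ)) * A (t + (s:ℂ)) - deriv Z (t + (s:ℂ)) * B (t + (s:ℂ))))
  - (aj al 0 Z X t + aj al 1 Z X t) * ndp al Z X A B t
  - (aj al 0 Z X t - aj al 1 Z X t) * ndm al Z X A B t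
/-- the part of the derivative of `Sf` at fixed plane -/
def DS0 (al : ℝ) (Z X A B : ℂ → ℂ) (t : ℂ) : ℂ :=
  ∫ s in (-al)..al, Lf (yy al Z X t (s:ℂ)) * (nx al Z t * X (t + (s:ℂ))) * (2 * X (t + (s:ℂ))) *
    (deriv X (t + (s:ℂ)) * A (t + (s:ℂ)) - deriv Z (t + (s:ℂ)) * B (t + (s:ℂ)))
/-- derivative of `et` in the direction `(A, B)` -/
def Det (al : ℝ) (Z X A B : ℂ → ℂ) (t : ℂ) : ℂ :=
  df al B t * md al Z t - df al A t * md al X t + nz al X t * md al A t + nx al Z t * md al B t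
/-- derivative of `Sf` -/
def DS (al : ℝ) (Z X A B : ℂ → ℂ) (t : ℂ) : ℂ :=
  DS0 al Z X A B t + df al B t * Pzf al Z X t - df al A t * Pxf al Z X t - Det al Z X A B t * Vf al Z X t

/-! ### Legendre functions -/

def cc (j : ℕ) : ℝ := (Nat.centralBinom j : ℝ) / 4 ^ j
/-- `P_{2n}(cos z)` -/
def PL (n : ℕ) (z : ℂ) : ℂ :=
  ∑ j ∈ Finset.range (2 * n + 1), ((cc j * cc (2 * n - j) : ℝ) : ℂ) * cos (((2 * n : ℤ) - 2 * (j : ℤ) : ℤ) * z)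
/-- weights -/
def WW (n : ℕ) (r : ℝ) : ℝ := cc (2 * n) * Real.exp (2 * n * r)
/-- eigenvalues of the linearised operator at the sphere, `N = 2 n` -/
def lam (al : ℝ) (n : ℕ) : ℝ :=
  Real.sin al * (2 * Real.sqrt 2 / 3) *
    ∫ s in (-al)..al, (Real.sqrt (Real.cos s - Real.cos al)) ^ 3 * Real.cos ((2 * n + 1/2) * s)

/-! ### the operators -/

/-- sphere kernel (without `k^3`) -/
def K0 (al : ℝ) (t s : ℂ) : ℂ :=
  (Real.sin al : ℂ) * sin t * sin (t + s) ^ 2 * q0 t s ^ 3 * afn ((cos s - (Real.cos al : ℂ)) * q0 t s ^ 2)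
def L0 (al : ℝ) (f : ℂ → ℂ) (t : ℂ) : ℂ :=
  ∫ s in (-al)..al, kk al (s:ℂ) ^ 3 * K0 al t (s:ℂ) * f (t + (s:ℂ))
/-- the factor `exp u_1` -/
def u1 (al : ℝ) (Z X u : ℂ → ℂ) (t : ℂ) : ℂ :=
  (1/2) * ((3/2) * (log (chip al Z X t) + log (chim al Z X t)) - u (t + (al:ℂ)) - u (t - (al:ℂ)))
def m1 (al : ℝ) (Z X u : ℂ → ℂ) (t : ℂ) : ℂ := nu al Z t ^ (-((1:ℂ)/2)) * exp (u1 al Z X u t)
/-- kernel perturbation -/
def Th (al : ℝ) (Z X u : ℂ → ℂ) (t s : ℂ) : ℂ :=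
  chi al Z X t s ^ ((3:ℂ)/2) * exp (- u1 al Z X u t - u (t + s)) *
    afn ((cos s - (Real.cos al : ℂ)) * (om al Z X t s) ^ 2) /
    afn ((cos s - (Real.cos al : ℂ)) * (q0 t s) ^ 2) - 1
def Rop (al : ℝ) (Z X u f : ℂ → ℂ) (t : ℂ) : ℂ :=
  ∫ s in (-al)..al, kk al (s:ℂ) ^ 3 * (K0 al t (s:ℂ) * Th al Z X u t (s:ℂ)) * f (t + (s:ℂ))
/-- the normal variation attached to the even function `x` : `g = x xi^{-1/2} e^{-u} / (2 (Z'^2 + X'^2))`,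
variation `(g X', - g Z')` -/
def gN (Z X u x : ℂ → ℂ) (b : ℂ) : ℂ :=
  x b * xi X b ^ (-((1:ℂ)/2)) * exp (- u b) / (2 * (deriv Z b ^ 2 + deriv X b ^ 2))
def Top (al : ℝ) (Z X u f : ℂ → ℂ) (t : ℂ) : ℂ :=
  ∫ s in (-al)..al, Lf (yy al Z X t (s:ℂ)) * (nx al Z t * X (t + (s:ℂ))) * X (t + (s:ℂ)) *
    xi X (t + (s:ℂ)) ^ (-((1:ℂ)/2)) * exp (- u (t + (s:ℂ))) * f (t + (s:ℂ))

end FB
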