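import Pool.Agent.H48.FB.EDefs
import Pool.Agent.H48.FB.A07
import Pool.Agent.H48.FB.A12

open Complex Set MeasureTheory Filter Topology

noncomputable section

namespace FB

namespace E00

/-- continuous and bounded on the open interval -/
def BC (al : ℝ) (f : ℝ → ℂ) : Prop :=
  ContinuousOn f (Ioo (-al) al) ∧ ∃ C : ℝ, ∀ s ∈ Ioo (-al) al, ‖f s‖ ≤ C

theorem BC.const (al : ℝ) (c : ℂ) : BC al (fun _ => c) := ⟨continuousOn_const, ‖c‖, fun _ _ => le_rfl⟩

theorem BC.add {al : ℝ} {f g : ℝ → ℂ} (hf : BC al f) (hg : BC al g) : BC al (fun s => f s + g s) := by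
  obtain ⟨hf1, C, hf2⟩ := hf
  obtain ⟨hg1, D, hg2⟩ := hg
  exact ⟨hf1.add hg1, C + D, fun s hs => (norm_add_le _ _).trans (add_le_add (hf2 s hs) (hg2 s hs))⟩

theorem BC.neg {al : ℝ} {f : ℝ → ℂ} (hf : BC al f) : BC al (fun s => - f s) := by
  obtain ⟨hf1, C, hf2⟩ := hf
  exact ⟨hf1.neg, C, fun s hs => by rw [norm_neg]; exact hf2 s hs⟩

theorem BC.sub {al : ℝ} {f g : ℝ → ℂ} (hf : BC al f) (hg : BC al g) : BC al (fun s => f s - g s) := by
  simpa only [sub_eq_add_neg] using hf.add hg.neg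

theorem BC.mul {al : ℝ} {f g : ℝ → ℂ} (hf : BC al f) (hg : BC al g) : BC al (fun s => f s * g s) := by
  obtain ⟨hf1, C, hf2⟩ := hf
  obtain ⟨hg1, D, hg2⟩ := hg
  refine ⟨hf1.mul hg1, C * D, fun s hs => ?_⟩
  rw [norm_mul]
  exact mul_le_mul (hf2 s hs) (hg2 s hs) (norm_nonneg _) ((norm_nonneg _).trans (hf2 s hs))

theorem BC.pow {al : ℝ} {f : ℝ → ℂ} (hf : BC al f) (n : ℕ) : BC al (fun s => f s ^ n) := by
  induction n with
  | zero => simpa using BC.const al 1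
  | succ n ih => simpa only [pow_succ] using ih.mul hf

theorem BC.inv {al M : ℝ} (hM : 0 < M) {f : ℝ → ℂ} (hf : BC al f) (h : ∀ s ∈ Ioo (-al) al, 1 / M ≤ ‖f s‖) :
    BC al (fun s => (f s)⁻¹) := by
  refine ⟨hf.1.inv₀ fun s hs h0 => ?_, M, fun s hs => ?_⟩
  · have := h s hs
    rw [h0, norm_zero] at this
    exact absurd this (not_le.2 (by positivity))
  · rw [norm_inv]
    have h1 := h s hs
    have h2 : 0 < 1 / M := by positivity
    rw [inv_le_comm₀ (h2.trans_le h1) hM]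
    simpa using h1

theorem BC.div {al M : ℝ} (hM : 0 < M) {f g : ℝ → ℂ} (hf : BC al f) (hg : BC al g)
    (h : ∀ s ∈ Ioo (-al) al, 1 / M ≤ ‖g s‖) : BC al (fun s => f s / g s) := by
  simpa only [div_eq_mul_inv] using hf.mul (hg.inv hM h)

theorem BC.of_Icc {al : ℝ} {f : ℝ → ℂ} (hf : ContinuousOn f (Icc (-al) al)) : BC al f := by
  obtain ⟨C, hC⟩ := isCompact_Icc.exists_bound_of_continuousOn hf
  exact ⟨hf.mono Ioo_subset_Icc_self, C, fun s hs => hC s (Ioo_subset_Icc_self hs)⟩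

theorem BC.comp {al : ℝ} {f : ℝ → ℂ} {G : ℂ → ℂ} (hf : ContinuousOn f (Ioo (-al) al))
    (hb : ∀ s ∈ Ioo (-al) al, ‖f s‖ ^ 2 ≤ 1/2) (hG : ContinuousOn G (Metric.closedBall 0 1)) :
    BC al (fun s => G (f s)) := by
  have h1 : ∀ s ∈ Ioo (-al) al, f s ∈ Metric.closedBall (0:ℂ) 1 := by
    intro s hs
    rw [mem_closedBall_zero_iff]
    nlinarith [hb s hs, norm_nonneg (f s)]
  obtain ⟨C, hC⟩ := (isCompact_closedBall (0:ℂ) 1).exists_bound_of_continuousOn hG
  exact ⟨hG.comp hf h1, C, fun s hs => hC _ (h1 s hs)⟩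

theorem BC.intervalIntegrable {al : ℝ} (hal : 0 < al) {f : ℝ → ℂ} (hf : BC al f) :
    IntervalIntegrable f volume (-al) al := by
  obtain ⟨h1, C, h2⟩ := hf
  rw [intervalIntegrable_iff_integrableOn_Ioo_of_le (by linarith)]
  refine Integrable.mono' (g := fun _ => C) ?_ (h1.aestronglyMeasurable measurableSet_Ioo) ?_
  · exact integrableOn_const (by simp)
  · exact (ae_restrict_iff' measurableSet_Ioo).2 (ae_of_all _ fun s hs => h2 s hs)

theorem abs_core {al ε C : ℝ} (hal : 0 < al) (hε : 0 < ε) {F : ℂ → ℝ → ℂ} {F0 g g' : ℝ → ℂ}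
    (hFd : ∀ s ∈ Ioo (-al) al, DifferentiableOn ℂ (fun w => F w s) (Metric.ball 0 ε))
    (hFb : ∀ w ∈ Metric.ball (0:ℂ) ε, ∀ s ∈ Ioo (-al) al, ‖F w s‖ ≤ C)
    (hFc : ∀ w ∈ Metric.ball (0:ℂ) ε, ContinuousOn (F w) (Ioo (-al) al))
    (hF0 : ∀ s ∈ Ioo (-al) al, HasDerivAt (fun w => F w s) (F0 s) 0)
    (hF0c : ContinuousOn F0 (Ioo (-al) al))
    (hg : ∀ s ∈ Ioo (-al) al, HasDerivAt g (g' s) s) (hg' : BC al g')
    (hga : Tendsto g (𝓝[>] (-al)) (𝓝 0)) (hgb : Tendsto g (𝓝[<] al) (𝓝 0)) :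
    HasDerivAt (fun w => ∫ s in (-al)..al, F w s) (∫ s in (-al)..al, (F0 s + g' s)) 0 := by
  have hle : -al ≤ al := by linarith
  have hae : ∀ {P : ℝ → Prop}, (∀ s ∈ Ioo (-al) al, P s) → ∀ᵐ t ∂(volume : Measure ℝ), t ∈ Set.uIoc (-al) al → P t := by
    intro P hP
    have h1 : ∀ᵐ t ∂(volume : Measure ℝ), t ≠ al := by
      rw [ae_iff]; simp
    filter_upwards [h1] with t ht hm
    rw [uIoc_of_le hle] at hm
    exact hP t ⟨hm.1, lt_of_le_of_ne hm.2 ht⟩
  have hmeas : ∀ {f : ℝ → ℂ}, ContinuousOn f (Ioo (-al) al) →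
      AEStronglyMeasurable f (volume.restrict (Set.uIoc (-al) al)) := by
    intro f hf
    rw [uIoc_of_le hle, ← restrict_Ioo_eq_restrict_Ioc]
    exact hf.aestronglyMeasurable measurableSet_Ioo
  have key := intervalIntegral.hasDerivAt_integral_of_dominated_loc_of_deriv_le (μ := volume) (𝕜 := ℂ)
    (F := F) (F' := fun w s => deriv (fun w => F w s) w) (x₀ := (0:ℂ)) (a := -al) (b := al)
    (s := Metric.ball 0 (ε/2)) (bound := fun _ => C / (ε/4))
    (Metric.ball_mem_nhds 0 (by positivity))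
    (by
      filter_upwards [Metric.ball_mem_nhds (0:ℂ) hε] with w hw
      exact hmeas (hFc w hw))
    (BC.intervalIntegrable hal ⟨hFc 0 (Metric.mem_ball_self hε), C, hFb 0 (Metric.mem_ball_self hε)⟩)
    (hmeas (hF0c.congr fun s hs => (hF0 s hs).deriv))
    (by
      refine hae fun s hs w hw => ?_
      have hw' : ‖w‖ < ε / 2 := by simpa using hw
      have hsub : Metric.closedBall w (ε/4) ⊆ Metric.ball 0 ε := by
        intro v hv
        have hv' : ‖v - w‖ ≤ ε / 4 := by simpa [dist_eq_norm] using hv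
        have : ‖v‖ ≤ ‖v - w‖ + ‖w‖ := by simpa using norm_add_le (v - w) w
        simp only [Metric.mem_ball, dist_zero_right]
        linarith
      refine Complex.norm_deriv_le_of_forall_mem_sphere_norm_le (by positivity) ?_ ?_
      · refine DifferentiableOn.diffContOnCl ?_
        rw [closure_ball w (by positivity : ε/4 ≠ 0)]
        exact (hFd s hs).mono hsub
      · intro v hv
        exact hFb v (hsub (Metric.sphere_subset_closedBall hv)) s hs)
    intervalIntegrable_const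
    (by
      refine hae fun s hs w hw => ?_
      have hw' : w ∈ Metric.ball (0:ℂ) ε := Metric.ball_subset_ball (by linarith) hw
      exact ((hFd s hs).differentiableAt (Metric.isOpen_ball.mem_nhds hw')).hasDerivAt)
  obtain ⟨k1, k2⟩ := key
  have hc : ∀ᵐ t ∂(volume : Measure ℝ), t ∈ Set.uIoc (-al) al → deriv (fun w => F w t) 0 = F0 t :=
    hae fun s hs => (hF0 s hs).deriv
  have hint0 : IntervalIntegrable F0 volume (-al) al := by
    refine k1.congr_ae ?_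
    exact (ae_restrict_iff' measurableSet_uIoc).2 hc
  have hzero : ∫ s in (-al)..al, g' s = 0 := by
    rw [intervalIntegral.integral_eq_sub_of_hasDerivAt_of_tendsto (by linarith) hg
      (hg'.intervalIntegrable hal) hga hgb, sub_zero]
  rw [intervalIntegral.integral_add hint0 (hg'.intervalIntegrable hal), hzero, add_zero,
    ← intervalIntegral.integral_congr_ae hc]
  exact k2


theorem cont_of {G : ℂ → ℂ} {G' : ℂ → ℂ} (h : ∀ y : ℂ, ‖y‖ ^ 2 < 2 → HasDerivAt G (G' y) y) :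
    ContinuousOn G (Metric.closedBall 0 1) := by
  intro y hy
  have h1 : ‖y‖ ≤ 1 := by simpa using hy
  have h2 : ‖y‖ ^ 2 < 2 := by nlinarith [norm_nonneg y]
  exact (h y h2).continuousAt.continuousWithinAt

theorem Wf_cont : ContinuousOn Wf (Metric.closedBall 0 1) := cont_of fun _ h => hasDerivAt_Wf h
theorem Uf_cont : ContinuousOn Uf (Metric.closedBall 0 1) := cont_of fun _ h => hasDerivAt_Uf h
theorem Af_cont : ContinuousOn Af (Metric.closedBall 0 1) := cont_of fun _ h => hasDerivAt_Af h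

section
variable {al ε M : ℝ} {z x zs xs y : ℂ → ℝ → ℂ} {pz px pe : ℂ → ℂ}

theorem mem0 (h : CoreData al ε M z x zs xs y pz px pe) : (0:ℂ) ∈ Metric.ball (0:ℂ) ε :=
  Metric.mem_ball_self h.he

theorem bz (h : CoreData al ε M z x zs xs y pz px pe) {w : ℂ} (hw : w ∈ Metric.ball (0:ℂ) ε) : BC al (z w) :=
  ⟨fun s hs => (h.sz w hw s (Ioo_subset_Icc_self hs)).continuousAt.continuousWithinAt, M,
    fun s hs => (h.bd w hw s (Ioo_subset_Icc_self hs)).1⟩

theorem bx (h : CoreData al ε M z x zs xs y pz px pe) {w : ℂ} (hw : w ∈ Metric.ball (0:ℂ) ε) : BC al (x w) :=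
  ⟨fun s hs => (h.sx w hw s (Ioo_subset_Icc_self hs)).continuousAt.continuousWithinAt, M,
    fun s hs => (h.bd w hw s (Ioo_subset_Icc_self hs)).2.1⟩

theorem bzs (h : CoreData al ε M z x zs xs y pz px pe) {w : ℂ} (hw : w ∈ Metric.ball (0:ℂ) ε) : BC al (zs w) :=
  BC.of_Icc (h.cz w hw)

theorem bxs (h : CoreData al ε M z x zs xs y pz px pe) {w : ℂ} (hw : w ∈ Metric.ball (0:ℂ) ε) : BC al (xs w) :=
  BC.of_Icc (h.cx w hw)

theorem bzw (h : CoreData al ε M z x zs xs y pz px pe) : BC al (fun s => deriv (fun w => z w s) 0) :=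
  BC.of_Icc fun s hs => (h.mz s hs).continuousAt.continuousWithinAt

theorem bxw (h : CoreData al ε M z x zs xs y pz px pe) : BC al (fun s => deriv (fun w => x w s) 0) :=
  BC.of_Icc fun s hs => (h.mx s hs).continuousAt.continuousWithinAt

theorem bzw' (h : CoreData al ε M z x zs xs y pz px pe) : BC al (fun s => deriv (fun w => zs w s) 0) :=
  BC.of_Icc h.kz

theorem bG (h : CoreData al ε M z x zs xs y pz px pe) {w : ℂ} (hw : w ∈ Metric.ball (0:ℂ) ε) {G : ℂ → ℂ}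
    (hG : ContinuousOn G (Metric.closedBall 0 1)) : BC al (fun s => G (y w s)) :=
  BC.comp (h.cy w hw) (fun s hs => (h.y0 w hw s hs).2) hG

theorem lt2 (h : CoreData al ε M z x zs xs y pz px pe) {w : ℂ} (hw : w ∈ Metric.ball (0:ℂ) ε) {s : ℝ}
    (hs : s ∈ Ioo (-al) al) : ‖y w s‖ ^ 2 < 2 := lt_of_le_of_lt (h.y0 w hw s hs).2 (by norm_num)

theorem hM0 (h : CoreData al ε M z x zs xs y pz px pe) : 0 < M := lt_of_lt_of_le one_pos h.hM

theorem px_ne (h : CoreData al ε M z x zs xs y pz px pe) {w : ℂ} (hw : w ∈ Metric.ball (0:ℂ) ε) : px w ≠ 0 := by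
  intro h0
  have := (h.bn w hw).2.2.2
  rw [h0, norm_zero] at this
  have hM := hM0 h
  exact absurd this (not_le.2 (by positivity))

theorem x_ne (h : CoreData al ε M z x zs xs y pz px pe) {w : ℂ} (hw : w ∈ Metric.ball (0:ℂ) ε) {s : ℝ}
    (hs : s ∈ Ioo (-al) al) : x w s ≠ 0 := by
  intro h0
  have := (h.bd w hw s (Ioo_subset_Icc_self hs)).2.2.2.2
  rw [h0, norm_zero] at this
  have hM := hM0 h
  exact absurd this (not_le.2 (by positivity))

theorem dat {U : Set ℂ} (hU : IsOpen U) {f : ℂ → ℂ} (hf : DifferentiableOn ℂ f U) {w : ℂ} (hw : w ∈ U) :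
    HasDerivAt f (deriv f w) w := (hf.differentiableAt (hU.mem_nhds hw)).hasDerivAt

theorem dat0 (h : CoreData al ε M z x zs xs y pz px pe) {f : ℂ → ℂ} (hf : DifferentiableOn ℂ f (Metric.ball 0 ε)) :
    HasDerivAt f (deriv f 0) 0 := dat Metric.isOpen_ball hf (mem0 h)

/-- `∂_s (y^2)` -/
def Ds (_z x zs xs y : ℂ → ℝ → ℂ) (pz px : ℂ → ℂ) (s : ℝ) : ℂ :=
  (pz 0 * zs 0 s + px 0 * xs 0 s - y 0 s ^ 2 * (px 0 * xs 0 s)) / (px 0 * x 0 s)

/-- `∂_w (y^2)` -/
def Dw (z x y : ℂ → ℝ → ℂ) (pz px pe : ℂ → ℂ) (s : ℝ) : ℂ :=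
  (deriv pz 0 * z 0 s + pz 0 * deriv (fun w => z w s) 0 + deriv px 0 * x 0 s + px 0 * deriv (fun w => x w s) 0 - deriv pe 0 -
    y 0 s ^ 2 * (deriv px 0 * x 0 s + px 0 * deriv (fun w => x w s) 0)) / (px 0 * x 0 s)

theorem Ds_eq (h : CoreData al ε M z x zs xs y pz px pe) {s : ℝ} (hs : s ∈ Ioo (-al) al) :
    2 * y 0 s * deriv (y 0) s = Ds z x zs xs y pz px s := by
  have hsI := Ioo_subset_Icc_self hs
  have h1 : HasDerivAt (y 0) (deriv (y 0) s) s := (h.sy s hs).hasDerivAt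
  have h2 := (h1.pow 2).mul ((h.sx 0 (mem0 h) s hsI).const_mul (px 0))
  have h3 := (((h.sz 0 (mem0 h) s hsI).const_mul (pz 0)).add ((h.sx 0 (mem0 h) s hsI).const_mul (px 0))).sub_const (pe 0)
  have h4 : ((y 0) ^ 2 * fun s => px 0 * x 0 s) =ᶠ[𝓝 s] fun s => pz 0 * z 0 s + px 0 * x 0 s - pe 0 := by
    filter_upwards [isOpen_Ioo.mem_nhds hs] with s' hs'
    exact h.yN 0 (mem0 h) s' hs'
  have h5 := (h3.congr_of_eventuallyEq h4).unique h2
  have hx := x_ne h (mem0 h) hs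
  have hp := px_ne h (mem0 h)
  rw [Ds, eq_div_iff (mul_ne_zero hp hx)]
  simp only [Pi.pow_apply] at h5
  push_cast at h5
  linear_combination (-1 : ℂ) * h5

theorem Dw_eq (h : CoreData al ε M z x zs xs y pz px pe) {s : ℝ} (hs : s ∈ Ioo (-al) al) :
    2 * y 0 s * deriv (fun w => y w s) 0 = Dw z x y pz px pe s := by
  have hsI := Ioo_subset_Icc_self hs
  have h1 := dat0 h (h.dy s hs)
  have hz := dat0 h (h.dz s hsI)
  have hx := dat0 h (h.dx s hsI)
  have hpz := dat0 h h.dn.1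
  have hpx := dat0 h h.dn.2.1
  have hpe := dat0 h h.dn.2.2
  have h2 := (h1.pow 2).mul (hpx.mul hx)
  have h3 := ((hpz.mul hz).add (hpx.mul hx)).sub hpe
  have h4 : ((fun w => y w s) ^ 2 * (px * fun w => x w s)) =ᶠ[𝓝 0] (pz * (fun w => z w s) + px * (fun w => x w s) - pe) := by
    filter_upwards [Metric.ball_mem_nhds (0:ℂ) h.he] with w hw
    exact h.yN w hw s hs
  have h5 := (h3.congr_of_eventuallyEq h4).unique h2
  have hx' := x_ne h (mem0 h) hs
  have hp := px_ne h (mem0 h)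
  rw [Dw, eq_div_iff (mul_ne_zero hp hx')]
  simp only [Pi.pow_apply, Pi.mul_apply] at h5
  push_cast at h5
  linear_combination (-1 : ℂ) * h5

theorem bpxx (h : CoreData al ε M z x zs xs y pz px pe) : BC al (fun s => px 0 * x 0 s) :=
  (BC.const al _).mul (bx h (mem0 h))

theorem lpxx (h : CoreData al ε M z x zs xs y pz px pe) : ∀ s ∈ Ioo (-al) al, 1 / (M * M) ≤ ‖px 0 * x 0 s‖ := by
  intro s hs
  have h1 := (h.bn 0 (mem0 h)).2.2.2
  have h2 := (h.bd 0 (mem0 h) s (Ioo_subset_Icc_self hs)).2.2.2.2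
  have hM := hM0 h
  have e : 1 / (M * M) = 1 / M * (1 / M) := by field_simp
  rw [norm_mul, e]
  exact mul_le_mul h1 h2 (by positivity) (norm_nonneg _)

theorem by2 (h : CoreData al ε M z x zs xs y pz px pe) : BC al (fun s => y 0 s ^ 2) :=
  bG h (mem0 h) (G := fun y => y ^ 2) (by fun_prop)

theorem bDs (h : CoreData al ε M z x zs xs y pz px pe) : BC al (Ds z x zs xs y pz px) := by
  have hM := hM0 h
  have c := fun a => BC.const al a
  exact BC.div (M := M * M) (by positivity) ((((c _).mul (bzs h (mem0 h))).add ((c _).mul (bxs h (mem0 h)))).sub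
    ((by2 h).mul ((c _).mul (bxs h (mem0 h))))) (bpxx h) (lpxx h)

theorem bDw (h : CoreData al ε M z x zs xs y pz px pe) : BC al (Dw z x y pz px pe) := by
  have hM := hM0 h
  have c := fun a => BC.const al a
  exact BC.div (M := M * M) (by positivity) (((((((c _).mul (bz h (mem0 h))).add ((c _).mul (bzw h))).add
    ((c _).mul (bx h (mem0 h)))).add ((c _).mul (bxw h))).sub (c _)).sub
    ((by2 h).mul (((c _).mul (bx h (mem0 h))).add ((c _).mul (bxw h))))) (bpxx h) (lpxx h)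

theorem Ws (h : CoreData al ε M z x zs xs y pz px pe) {s : ℝ} (hs : s ∈ Ioo (-al) al) :
    HasDerivAt (fun s => Wf (y 0 s)) (2 * Uf (y 0 s) * Ds z x zs xs y pz px s) s := by
  have h1 := HasDerivAt.comp s (hasDerivAt_Wf (lt2 h (mem0 h) hs)) (h.sy s hs).hasDerivAt
  refine h1.congr_deriv ?_
  rw [← Ds_eq h hs, Uf]
  ring

theorem Ww (h : CoreData al ε M z x zs xs y pz px pe) {s : ℝ} (hs : s ∈ Ioo (-al) al) :
    HasDerivAt (fun w => Wf (y w s)) (2 * Uf (y 0 s) * Dw z x y pz px pe s) 0 := by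
  have h1 := HasDerivAt.comp (0:ℂ) (hasDerivAt_Wf (lt2 h (mem0 h) hs)) (dat0 h (h.dy s hs))
  refine h1.congr_deriv ?_
  rw [← Dw_eq h hs, Uf]
  ring

theorem dG (h : CoreData al ε M z x zs xs y pz px pe) {G G' : ℂ → ℂ} (hG : ∀ y : ℂ, ‖y‖ ^ 2 < 2 → HasDerivAt G (G' y) y)
    {s : ℝ} (hs : s ∈ Ioo (-al) al) : DifferentiableOn ℂ (fun w => G (y w s)) (Metric.ball 0 ε) := by
  intro w hw
  exact ((hG _ (lt2 h hw hs)).differentiableAt.comp w ((h.dy s hs).differentiableAt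
    (Metric.isOpen_ball.mem_nhds hw))).differentiableWithinAt

theorem tG (h : CoreData al ε M z x zs xs y pz px pe) {G : ℂ → ℂ} (hG : ContinuousOn G (Metric.closedBall 0 1))
    (h0 : G 0 = 0) : Tendsto (fun s => G (y 0 s)) (𝓝[>] (-al)) (𝓝 0) ∧ Tendsto (fun s => G (y 0 s)) (𝓝[<] al) (𝓝 0) := by
  have hc : ContinuousAt G 0 := hG.continuousAt (Metric.closedBall_mem_nhds 0 one_pos)
  have h1 : Tendsto G (𝓝 0) (𝓝 0) := by
    have := hc.tendsto
    rwa [h0] at this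
  exact ⟨h1.comp h.ty.1, h1.comp h.ty.2⟩

/-- half of `∂_s ((x U)^2)` -/
def Hs (x zs xs y : ℂ → ℝ → ℂ) (pz px : ℂ → ℂ) (s : ℝ) : ℂ :=
  x 0 s * xs 0 s + (x 0 s * (1 - y 0 s ^ 2)) * (pz 0 * zs 0 s / px 0)

/-- half of `∂_w ((x U)^2)` -/
def Hw (z x y : ℂ → ℝ → ℂ) (pz px pe : ℂ → ℂ) (s : ℝ) : ℂ :=
  x 0 s * deriv (fun w => x w s) 0 - (x 0 s * (1 - y 0 s ^ 2)) *
    ((deriv pe 0 - deriv pz 0 * z 0 s - pz 0 * deriv (fun w => z w s) 0) / px 0 -
      (x 0 s * (1 - y 0 s ^ 2)) * deriv px 0 / px 0)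

theorem bHs (h : CoreData al ε M z x zs xs y pz px pe) : BC al (Hs x zs xs y pz px) := by
  have c := fun a => BC.const al a
  have m0 := mem0 h
  exact ((bx h m0).mul (bxs h m0)).add (((bx h m0).mul ((c _).sub (by2 h))).mul
    (BC.div (hM0 h) ((c _).mul (bzs h m0)) (c _) (fun _ _ => (h.bn 0 m0).2.2.2)))

theorem bHw (h : CoreData al ε M z x zs xs y pz px pe) : BC al (Hw z x y pz px pe) := by
  have c := fun a => BC.const al a
  have m0 := mem0 h
  have bc := (bx h m0).mul ((c 1).sub (by2 h))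
  exact ((bx h m0).mul (bxw h)).sub (bc.mul ((BC.div (hM0 h) (((c _).sub ((c _).mul (bz h m0))).sub ((c _).mul (bzw h)))
    (c _) (fun _ _ => (h.bn 0 m0).2.2.2)).sub (BC.div (hM0 h) (bc.mul (c _)) (c _) (fun _ _ => (h.bn 0 m0).2.2.2))))

/-- `(x U)^2 = x^2 - c^2` with `c = (pe - pz z)/px` -/
theorem Q_sq (h : CoreData al ε M z x zs xs y pz px pe) {w : ℂ} (hw : w ∈ Metric.ball (0:ℂ) ε) {s : ℝ}
    (hs : s ∈ Ioo (-al) al) : (x w s * Uf (y w s)) ^ 2 = x w s ^ 2 - ((pe w - pz w * z w s) / px w) ^ 2 := by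
  have hp := px_ne h hw
  have h1 : (pe w - pz w * z w s) / px w = x w s * (1 - y w s ^ 2) := by
    rw [div_eq_iff hp]
    linear_combination h.yN w hw s hs
  rw [mul_pow, Uf_sq (lt2 h hw hs), h1]
  ring

theorem Qs (h : CoreData al ε M z x zs xs y pz px pe) {s : ℝ} (hs : s ∈ Ioo (-al) al) :
    HasDerivAt (fun s => (x 0 s * Uf (y 0 s)) ^ 3) (3 * (x 0 s * Uf (y 0 s)) * Hs x zs xs y pz px s) s := by
  have m0 := mem0 h
  have hsI := Ioo_subset_Icc_self hs
  have hp := px_ne h m0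
  have d1 := HasDerivAt.comp s (hasDerivAt_Uf (lt2 h m0 hs)) (h.sy s hs).hasDerivAt
  have dz := h.sz 0 m0 s hsI
  have dx := h.sx 0 m0 s hsI
  obtain ⟨Q', dQ⟩ : ∃ Q', HasDerivAt (fun s => x 0 s * Uf (y 0 s)) Q' s := ⟨_, dx.fun_mul d1⟩
  have e1 : HasDerivAt (fun s => (x 0 s * Uf (y 0 s)) ^ 2) (2 * (x 0 s * Uf (y 0 s)) * Q') s :=
    (dQ.fun_pow 2).congr_deriv (by push_cast; ring)
  have e2 : HasDerivAt (fun s => x 0 s ^ 2 - ((pe 0 - pz 0 * z 0 s) / px 0) ^ 2)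
      (2 * x 0 s * xs 0 s - 2 * ((pe 0 - pz 0 * z 0 s) / px 0) * (-(pz 0 * zs 0 s) / px 0)) s := by
    have a1 := dx.fun_pow 2
    have a2 := (((dz.const_mul (pz 0)).const_sub (pe 0)).div_const (px 0)).fun_pow 2
    refine (a1.fun_sub a2).congr_deriv ?_
    push_cast
    ring
  have e3 : (fun s => (x 0 s * Uf (y 0 s)) ^ 2) =ᶠ[𝓝 s] fun s => x 0 s ^ 2 - ((pe 0 - pz 0 * z 0 s) / px 0) ^ 2 := by
    filter_upwards [isOpen_Ioo.mem_nhds hs] with s' hs'
    exact Q_sq h m0 hs'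
  have e4 := (e2.congr_of_eventuallyEq e3).unique e1
  have h1 : (pe 0 - pz 0 * z 0 s) / px 0 = x 0 s * (1 - y 0 s ^ 2) := by
    rw [div_eq_iff hp]
    linear_combination h.yN 0 m0 s hs
  rw [h1] at e4
  refine (dQ.fun_pow 3).congr_deriv ?_
  rw [Hs]
  push_cast
  linear_combination (-(3/2) * (x 0 s * Uf (y 0 s)) : ℂ) * e4

theorem Qw (h : CoreData al ε M z x zs xs y pz px pe) {s : ℝ} (hs : s ∈ Ioo (-al) al) :
    HasDerivAt (fun w => (x w s * Uf (y w s)) ^ 3) (3 * (x 0 s * Uf (y 0 s)) * Hw z x y pz px pe s) 0 := by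
  have m0 := mem0 h
  have hsI := Ioo_subset_Icc_self hs
  have hp := px_ne h m0
  have d1 := HasDerivAt.comp (0:ℂ) (hasDerivAt_Uf (lt2 h m0 hs)) (dat0 h (h.dy s hs))
  have dz := dat0 h (h.dz s hsI)
  have dx := dat0 h (h.dx s hsI)
  have hpz := dat0 h h.dn.1
  have hpx := dat0 h h.dn.2.1
  have hpe := dat0 h h.dn.2.2
  obtain ⟨Q', hQ'⟩ : ∃ Q', HasDerivAt (fun w => x w s * Uf (y w s)) Q' 0 := ⟨_, dx.fun_mul d1⟩
  have e1 : HasDerivAt (fun w => (x w s * Uf (y w s)) ^ 2) (2 * (x 0 s * Uf (y 0 s)) * Q') 0 :=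
    (hQ'.fun_pow 2).congr_deriv (by push_cast; ring)
  have e2 : HasDerivAt (fun w => x w s ^ 2 - ((pe w - pz w * z w s) / px w) ^ 2)
      (2 * x 0 s * deriv (fun w => x w s) 0 - 2 * ((pe 0 - pz 0 * z 0 s) / px 0) *
        ((deriv pe 0 - deriv pz 0 * z 0 s - pz 0 * deriv (fun w => z w s) 0) / px 0 -
          ((pe 0 - pz 0 * z 0 s) / px 0) * deriv px 0 / px 0)) 0 := by
    have a1 := dx.fun_pow 2
    have a2 := ((hpe.fun_sub (hpz.fun_mul dz)).fun_div hpx hp).fun_pow 2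
    refine (a1.fun_sub a2).congr_deriv ?_
    push_cast
    field_simp
    ring
  have e3 : (fun w => (x w s * Uf (y w s)) ^ 2) =ᶠ[𝓝 0] fun w => x w s ^ 2 - ((pe w - pz w * z w s) / px w) ^ 2 := by
    filter_upwards [Metric.ball_mem_nhds (0:ℂ) h.he] with w hw
    exact Q_sq h hw hs
  have e4 := (e2.congr_of_eventuallyEq e3).unique e1
  have h1 : (pe 0 - pz 0 * z 0 s) / px 0 = x 0 s * (1 - y 0 s ^ 2) := by
    rw [div_eq_iff hp]
    linear_combination h.yN 0 m0 s hs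
  rw [h1] at e4
  refine (hQ'.fun_pow 3).congr_deriv ?_
  rw [Hw]
  push_cast
  linear_combination (-(3/2) * (x 0 s * Uf (y 0 s)) : ℂ) * e4

end

end E00

open E00

/-- Here `zw s = ∂z/∂w (0, s)` etc., `N = pz z + px x - pe`, `c = x (1 - y^2) = (pe - pz z)/px` (chord ordinate), so `N = px (x - c)`,
`(x U)^2 = x^2 y^2 (2 - y^2) = x^2 - c^2` (`Uf_sq`), `Wf' = 4 y Uf` (`hasDerivAt_Wf`), `Wf + (1 - y^2) Uf = Af`.
Proof. (1) Differentiation under the integral sign: the integrand `f(w, s)` is analytic in `w`, bounded by a constant (`‖y‖^2 ≤ 1/2` bounds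
`Wf, Uf`), so by Cauchy its `w`-derivative is bounded on `ball 0 (ε/2)`:
`hasDerivAt_integral_of_dominated_loc_of_deriv_le`; measurability in `s` from continuity on `Ioo`; the `w`-derivative is measurable as a
limit of difference quotients.
(2) Pointwise, with `2 y y_w = ∂_w (N/(px x))`:
`∂_w[(-zs) z^i x^2 W] = (-(zw)_s) z^i x^2 W + (-zs) i z^{i-1} zw x^2 W + (-zs) z^i [2 x xw W + x^2 * 2 U * ∂_w(y^2)]`.
(3) Integration by parts of the first term: `g(s) = zw z^i x^2 W(y)` is continuous on `[-al, al]` with value `0` at the ends (as `y → 0`,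
`Wf 0 = 0`), differentiable inside with bounded derivative
`(zw)_s z^i x^2 W + zw i z^{i-1} zs x^2 W + zw z^i (2 x xs W + x^2 * 2 U * ∂_s(y^2))`, so
`∫ (-(zw)_s) z^i x^2 W = ∫ zw (i z^{i-1} zs x^2 W + z^i 2 x xs W + z^i x^2 2 U ∂_s(y^2))`.
(4) `∂_s (y^2) = (pz zs + px xs)/(px x) - y^2 xs/x`, `∂_w(y^2) = (pz' z + pz zw + px' x + px xw - pe')/(px x) - y^2 (px'/px + xw/x)`.
Adding up, the total is `2 x (xs zw - zs xw) z^i [W - y^2 U + U] + z^i 2 U x (-zs)/px * (pz' z + px' x (1 - y^2) - pe')`. -/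
theorem core_V {al ε M : ℝ} {z x zs xs y : ℂ → ℝ → ℂ} {pz px pe : ℂ → ℂ} (h : CoreData al ε M z x zs xs y pz px pe) (i : ℕ) :
    HasDerivAt (fun w => ∫ s in (-al)..al, (- zs w s) * (z w s) ^ i * (x w s) ^ 2 * Wf (y w s))
      ((∫ s in (-al)..al, Af (y 0 s) * (z 0 s) ^ i * (2 * x 0 s) *
          (xs 0 s * deriv (fun w => z w s) 0 - zs 0 s * deriv (fun w => x w s) 0)) +
        2 * ∫ s in (-al)..al, (z 0 s) ^ i * (x 0 s * Uf (y 0 s)) * (- zs 0 s) / px 0 *
          (deriv pz 0 * z 0 s + deriv px 0 * (x 0 s * (1 - y 0 s ^ 2)) - deriv pe 0)) 0 := by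
  have hM := hM0 h
  have m0 := mem0 h
  have c := fun a => BC.const al a
  obtain ⟨CW, hCW⟩ := (isCompact_closedBall (0:ℂ) 1).exists_bound_of_continuousOn Wf_cont
  have hCW' : ∀ w ∈ Metric.ball (0:ℂ) ε, ∀ s ∈ Ioo (-al) al, ‖Wf (y w s)‖ ≤ CW := by
    intro w hw s hs
    refine hCW _ ?_
    rw [mem_closedBall_zero_iff]
    nlinarith [(h.y0 w hw s hs).2, norm_nonneg (y w s)]
  have key := abs_core (al := al) (ε := ε) (C := M * M ^ i * M ^ 2 * CW) h.hal h.he
    (F := fun w s => (- zs w s) * (z w s) ^ i * (x w s) ^ 2 * Wf (y w s))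
    (F0 := fun s => ((-(deriv (fun w => zs w s) 0) * z 0 s ^ i +
        (- zs 0 s) * ((i : ℂ) * z 0 s ^ (i - 1) * deriv (fun w => z w s) 0)) * x 0 s ^ 2 +
        (- zs 0 s) * z 0 s ^ i * (2 * x 0 s * deriv (fun w => x w s) 0)) * Wf (y 0 s) +
        (- zs 0 s) * z 0 s ^ i * x 0 s ^ 2 * (2 * Uf (y 0 s) * Dw z x y pz px pe s))
    (g := fun s => deriv (fun w => z w s) 0 * z 0 s ^ i * x 0 s ^ 2 * Wf (y 0 s))
    (g' := fun s => ((deriv (fun w => zs w s) 0 * z 0 s ^ i +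
        deriv (fun w => z w s) 0 * ((i : ℂ) * z 0 s ^ (i - 1) * zs 0 s)) * x 0 s ^ 2 +
        deriv (fun w => z w s) 0 * z 0 s ^ i * (2 * x 0 s * xs 0 s)) * Wf (y 0 s) +
        deriv (fun w => z w s) 0 * z 0 s ^ i * x 0 s ^ 2 * (2 * Uf (y 0 s) * Ds z x zs xs y pz px s))
    (by
      intro s hs
      have hsI := Ioo_subset_Icc_self hs
      exact (((h.dzs s hsI).neg.mul ((h.dz s hsI).pow i)).mul ((h.dx s hsI).pow 2)).mul
        (dG h (fun _ h => hasDerivAt_Wf h) hs))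
    (by
      intro w hw s hs
      obtain ⟨b1, b2, b3, b4, b5⟩ := h.bd w hw s (Ioo_subset_Icc_self hs)
      rw [norm_mul, norm_mul, norm_mul, norm_neg, norm_pow, norm_pow]
      have b6 := hCW' w hw s hs
      gcongr)
    (by
      intro w hw
      exact (((bzs h hw).neg.mul ((bz h hw).pow i)).mul ((bx h hw).pow 2)).mul (bG h hw Wf_cont) |>.1)
    (by
      intro s hs
      have hsI := Ioo_subset_Icc_self hs
      have d1 := dat0 h (h.dzs s hsI)
      have d2 := dat0 h (h.dz s hsI)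
      have d3 := dat0 h (h.dx s hsI)
      refine (((d1.fun_neg.fun_mul (d2.fun_pow i)).fun_mul (d3.fun_pow 2)).fun_mul (Ww h hs)).congr_deriv ?_
      simp)
    (by
      exact ((((((bzw' h).neg.mul ((bz h m0).pow i)).add ((bzs h m0).neg.mul (((c _).mul ((bz h m0).pow (i-1))).mul
        (bzw h)))).mul ((bx h m0).pow 2)).add (((bzs h m0).neg.mul ((bz h m0).pow i)).mul (((c _).mul (bx h m0)).mul
        (bxw h)))).mul (bG h m0 Wf_cont)).add ((((bzs h m0).neg.mul ((bz h m0).pow i)).mul ((bx h m0).pow 2)).mul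
        (((c _).mul (bG h m0 Uf_cont)).mul (bDw h))) |>.1)
    (by
      intro s hs
      have hsI := Ioo_subset_Icc_self hs
      have d1 := h.mz s hsI
      have d2 := h.sz 0 m0 s hsI
      have d3 := h.sx 0 m0 s hsI
      refine (((d1.fun_mul (d2.fun_pow i)).fun_mul (d3.fun_pow 2)).fun_mul (Ws h hs)).congr_deriv ?_
      simp)
    (by
      exact (((((bzw' h).mul ((bz h m0).pow i)).add ((bzw h).mul (((c _).mul ((bz h m0).pow (i-1))).mul
        (bzs h m0)))).mul ((bx h m0).pow 2)).add (((bzw h).mul ((bz h m0).pow i)).mul (((c _).mul (bx h m0)).mul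
        (bxs h m0)))).mul (bG h m0 Wf_cont) |>.add ((((bzw h).mul ((bz h m0).pow i)).mul ((bx h m0).pow 2)).mul
        (((c _).mul (bG h m0 Uf_cont)).mul (bDs h))))
    (by
      have e : -al ∈ Icc (-al) al := ⟨le_rfl, by linarith [h.hal]⟩
      have t1 := ((((h.mz _ e).continuousAt.mul ((h.sz 0 m0 _ e).continuousAt.pow i)).mul
        ((h.sx 0 m0 _ e).continuousAt.pow 2)).tendsto.mono_left (nhdsWithin_le_nhds (s := Ioi (-al)))).mul
        (tG h Wf_cont (by simp [Wf, Af, Uf])).1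
      simpa using t1)
    (by
      have e : al ∈ Icc (-al) al := ⟨by linarith [h.hal], le_rfl⟩
      have t1 := ((((h.mz _ e).continuousAt.mul ((h.sz 0 m0 _ e).continuousAt.pow i)).mul
        ((h.sx 0 m0 _ e).continuousAt.pow 2)).tendsto.mono_left (nhdsWithin_le_nhds (s := Iio al))).mul
        (tG h Wf_cont (by simp [Wf, Af, Uf])).2
      simpa using t1)
  refine key.congr_deriv ?_
  have i1 : BC al (fun s => Af (y 0 s) * (z 0 s) ^ i * (2 * x 0 s) *
          (xs 0 s * deriv (fun w => z w s) 0 - zs 0 s * deriv (fun w => x w s) 0)) :=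
    (((bG h m0 Af_cont).mul ((bz h m0).pow i)).mul ((c _).mul (bx h m0))).mul
      (((bxs h m0).mul (bzw h)).sub ((bzs h m0).mul (bxw h)))
  have i2 : BC al (fun s => (z 0 s) ^ i * (x 0 s * Uf (y 0 s)) * (- zs 0 s) / px 0 *
          (deriv pz 0 * z 0 s + deriv px 0 * (x 0 s * (1 - y 0 s ^ 2)) - deriv pe 0)) :=
    (BC.div hM ((((bz h m0).pow i).mul ((bx h m0).mul (bG h m0 Uf_cont))).mul (bzs h m0).neg) (c _)
      (fun _ _ => (h.bn 0 m0).2.2.2)).mul (((((c _).mul (bz h m0)).add ((c _).mul ((bx h m0).mul ((c _).sub (by2 h))))).sub (c _)))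
  rw [← intervalIntegral.integral_const_mul, ← intervalIntegral.integral_add (i1.intervalIntegrable h.hal)
    ((i2.intervalIntegrable h.hal).const_mul 2)]
  refine intervalIntegral.integral_congr_ae ?_
  have h1 : ∀ᵐ t ∂(volume : Measure ℝ), t ≠ al := by
    rw [ae_iff]; simp
  filter_upwards [h1] with s hs hm
  rw [uIoc_of_le (by linarith [h.hal])] at hm
  have hs : s ∈ Ioo (-al) al := ⟨hm.1, lt_of_le_of_ne hm.2 hs⟩
  have hx := x_ne h m0 hs
  have hp := px_ne h m0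
  have hW : Wf (y 0 s) = Af (y 0 s) - (1 - y 0 s ^ 2) * Uf (y 0 s) := rfl
  simp only [hW, Ds, Dw]
  field_simp
  ring

/-- Same method with `H = (x U)^2 = x^2 - c^2`, `(2/3) (xU)^3 = (2/3) H^{3/2}`, `∂ [(2/3) H^{3/2}] = (x U) ∂H` (here `(xU) * (xU)^2`; the
derivative of `(x U)^3` is `3 (xU)^2 ∂(xU) = (3/2) (xU) ∂(xU)^2`, valid since `y ≠ 0` makes `x U` differentiable);
`∂_s H = 2 x xs + 2 c pz zs/px`, `∂_w H = 2 x xw - 2 c [(pe' - pz' z - pz zw)/px - c px'/px]`. -/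
theorem core_P {al ε M : ℝ} {z x zs xs y : ℂ → ℝ → ℂ} {pz px pe : ℂ → ℂ} (h : CoreData al ε M z x zs xs y pz px pe) :
    HasDerivAt (fun w => ∫ s in (-al)..al, (2/3 : ℂ) * (- zs w s) * (x w s * Uf (y w s)) ^ 3)
      ((∫ s in (-al)..al, (x 0 s * Uf (y 0 s)) * (2 * x 0 s) *
          (xs 0 s * deriv (fun w => z w s) 0 - zs 0 s * deriv (fun w => x w s) 0)) +
        2 * ∫ s in (-al)..al, (x 0 s * (1 - y 0 s ^ 2)) * (x 0 s * Uf (y 0 s)) * (- zs 0 s) / px 0 *
          (deriv pz 0 * z 0 s + deriv px 0 * (x 0 s * (1 - y 0 s ^ 2)) - deriv pe 0)) 0 := by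
  have hM := hM0 h
  have m0 := mem0 h
  have c := fun a => BC.const al a
  obtain ⟨CU, hCU⟩ := (isCompact_closedBall (0:ℂ) 1).exists_bound_of_continuousOn Uf_cont
  have hCU' : ∀ w ∈ Metric.ball (0:ℂ) ε, ∀ s ∈ Ioo (-al) al, ‖Uf (y w s)‖ ≤ CU := by
    intro w hw s hs
    refine hCU _ ?_
    rw [mem_closedBall_zero_iff]
    nlinarith [(h.y0 w hw s hs).2, norm_nonneg (y w s)]
  have key := abs_core (al := al) (ε := ε) (C := (2/3) * M * (M * CU) ^ 3) h.hal h.he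
    (F := fun w s => (2/3 : ℂ) * (- zs w s) * (x w s * Uf (y w s)) ^ 3)
    (F0 := fun s => (2/3 : ℂ) * (-(deriv (fun w => zs w s) 0)) * (x 0 s * Uf (y 0 s)) ^ 3 +
        (2/3 : ℂ) * (- zs 0 s) * (3 * (x 0 s * Uf (y 0 s)) * Hw z x y pz px pe s))
    (g := fun s => (2/3 : ℂ) * deriv (fun w => z w s) 0 * (x 0 s * Uf (y 0 s)) ^ 3)
    (g' := fun s => (2/3 : ℂ) * deriv (fun w => zs w s) 0 * (x 0 s * Uf (y 0 s)) ^ 3 +
        (2/3 : ℂ) * deriv (fun w => z w s) 0 * (3 * (x 0 s * Uf (y 0 s)) * Hs x zs xs y pz px s))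
    (by
      intro s hs
      have hsI := Ioo_subset_Icc_self hs
      exact ((h.dzs s hsI).neg.const_mul _).mul (((h.dx s hsI).mul (dG h (fun _ h => hasDerivAt_Uf h) hs)).pow 3))
    (by
      intro w hw s hs
      obtain ⟨b1, b2, b3, b4, b5⟩ := h.bd w hw s (Ioo_subset_Icc_self hs)
      rw [norm_mul, norm_mul, norm_neg, norm_pow, norm_mul]
      have b6 := hCU' w hw s hs
      have b7 : ‖(2/3 : ℂ)‖ = 2/3 := by simp
      rw [b7]
      gcongr)
    (by
      intro w hw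
      exact (((c _).mul (bzs h hw).neg).mul (((bx h hw).mul (bG h hw Uf_cont)).pow 3)).1)
    (by
      intro s hs
      have hsI := Ioo_subset_Icc_self hs
      have d1 := dat0 h (h.dzs s hsI)
      refine ((d1.fun_neg.const_mul (2/3 : ℂ)).fun_mul (Qw h hs)).congr_deriv ?_
      ring)
    (by
      exact ((((c _).mul (bzw' h).neg).mul (((bx h m0).mul (bG h m0 Uf_cont)).pow 3)).add
        (((c _).mul (bzs h m0).neg).mul (((c _).mul ((bx h m0).mul (bG h m0 Uf_cont))).mul (bHw h)))).1)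
    (by
      intro s hs
      have hsI := Ioo_subset_Icc_self hs
      have d1 := h.mz s hsI
      refine ((d1.const_mul (2/3 : ℂ)).fun_mul (Qs h hs)).congr_deriv ?_
      ring)
    (by
      exact (((c _).mul (bzw' h)).mul (((bx h m0).mul (bG h m0 Uf_cont)).pow 3)).add
        (((c _).mul (bzw h)).mul (((c _).mul ((bx h m0).mul (bG h m0 Uf_cont))).mul (bHs h))))
    (by
      have e : -al ∈ Icc (-al) al := ⟨le_rfl, by linarith [h.hal]⟩
      have t1 := ((h.mz _ e).continuousAt.tendsto.mono_left (nhdsWithin_le_nhds (s := Ioi (-al)))).const_mul (2/3 : ℂ)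
      have t2 := ((h.sx 0 m0 _ e).continuousAt.tendsto.mono_left (nhdsWithin_le_nhds (s := Ioi (-al)))).mul
        (tG h Uf_cont (by simp [Uf])).1
      have t3 := t1.mul (t2.pow 3)
      simpa using t3)
    (by
      have e : al ∈ Icc (-al) al := ⟨by linarith [h.hal], le_rfl⟩
      have t1 := ((h.mz _ e).continuousAt.tendsto.mono_left (nhdsWithin_le_nhds (s := Iio al))).const_mul (2/3 : ℂ)
      have t2 := ((h.sx 0 m0 _ e).continuousAt.tendsto.mono_left (nhdsWithin_le_nhds (s := Iio al))).mul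
        (tG h Uf_cont (by simp [Uf])).2
      have t3 := t1.mul (t2.pow 3)
      simpa using t3)
  refine key.congr_deriv ?_
  have i1 : BC al (fun s => (x 0 s * Uf (y 0 s)) * (2 * x 0 s) *
          (xs 0 s * deriv (fun w => z w s) 0 - zs 0 s * deriv (fun w => x w s) 0)) :=
    (((bx h m0).mul (bG h m0 Uf_cont)).mul ((c _).mul (bx h m0))).mul
      (((bxs h m0).mul (bzw h)).sub ((bzs h m0).mul (bxw h)))
  have i2 : BC al (fun s => (x 0 s * (1 - y 0 s ^ 2)) * (x 0 s * Uf (y 0 s)) * (- zs 0 s) / px 0 *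
          (deriv pz 0 * z 0 s + deriv px 0 * (x 0 s * (1 - y 0 s ^ 2)) - deriv pe 0)) :=
    (BC.div hM ((((bx h m0).mul ((c _).sub (by2 h))).mul ((bx h m0).mul (bG h m0 Uf_cont))).mul (bzs h m0).neg) (c _)
      (fun _ _ => (h.bn 0 m0).2.2.2)).mul (((((c _).mul (bz h m0)).add ((c _).mul ((bx h m0).mul ((c _).sub (by2 h))))).sub (c _)))
  rw [← intervalIntegral.integral_const_mul, ← intervalIntegral.integral_add (i1.intervalIntegrable h.hal)
    ((i2.intervalIntegrable h.hal).const_mul 2)]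
  refine intervalIntegral.integral_congr_ae ?_
  have h1 : ∀ᵐ t ∂(volume : Measure ℝ), t ≠ al := by
    rw [ae_iff]; simp
  filter_upwards [h1] with s hs hm
  rw [uIoc_of_le (by linarith [h.hal])] at hm
  have hs : s ∈ Ioo (-al) al := ⟨hm.1, lt_of_le_of_ne hm.2 hs⟩
  have hp := px_ne h m0
  simp only [Hs, Hw]
  field_simp
  ring

end FB
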