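import Pool.Agent.H48.FB.E00
import Pool.Agent.H48.FB.C02

/-! E01: derivative of the functionals along a line of curves. -/

open Complex Set MeasureTheory Filter Topology

noncomputable section

namespace FB

/-! ### auxiliary facts -/

/-- integrability of bounded continuous functions on the open interval -/
theorem e01_ii {al M : ℝ} {g : ℝ → ℂ} (hal : 0 ≤ al) (hc : ContinuousOn g (Ioo (-al) al))
    (hM : ∀ s ∈ Ioo (-al) al, ‖g s‖ ≤ M) : IntervalIntegrable g volume (-al) al := by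
  rw [intervalIntegrable_iff_integrableOn_Ioo_of_le (by linarith)]
  refine IntegrableOn.of_bound (C := M) ?_ (hc.aestronglyMeasurable measurableSet_Ioo) ?_
  · rw [Real.volume_Ioo]
    exact ENNReal.ofReal_lt_top
  · rw [ae_restrict_iff' measurableSet_Ioo]
    exact Filter.Eventually.of_forall hM

theorem e01_congr {al : ℝ} (hal : 0 ≤ al) {f g : ℝ → ℂ} (h : ∀ s ∈ Ioo (-al) al, f s = g s) :
    ∫ s in (-al)..al, f s = ∫ s in (-al)..al, g s := by
  rw [intervalIntegral.integral_of_le (by linarith), intervalIntegral.integral_of_le (by linarith),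
    integral_Ioc_eq_integral_Ioo, integral_Ioc_eq_integral_Ioo]
  exact setIntegral_congr_fun measurableSet_Ioo h

/-- parametric integrals of bounded analytic functions -/
theorem e01_paramDiff {U : Set ℂ} (hU : IsOpen U) {al M : ℝ} (hal : 0 < al) {F : ℂ → ℝ → ℂ}
    (hF : ∀ s ∈ Ioo (-al) al, DifferentiableOn ℂ (fun w => F w s) U)
    (hM : ∀ w ∈ U, ∀ s ∈ Ioo (-al) al, ‖F w s‖ ≤ M)
    (hs : ∀ w ∈ U, ContinuousOn (F w) (Ioo (-al) al)) :
    DifferentiableOn ℂ (fun w => ∫ s in (-al)..al, F w s) U := by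
  have hal' : -al ≤ al := by linarith
  have hne : ∀ᵐ t ∂(volume : Measure ℝ), t ∈ uIoc (-al) al → t ∈ Ioo (-al) al := by
    have h0 : ∀ᵐ t ∂(volume : Measure ℝ), t ≠ al := by
      rw [ae_iff]; simp
    filter_upwards [h0] with t ht ht'
    rw [uIoc_of_le hal'] at ht'
    exact ⟨ht'.1, lt_of_le_of_ne ht'.2 ht⟩
  have hres : (volume : Measure ℝ).restrict (uIoc (-al) al) = (volume : Measure ℝ).restrict (Ioo (-al) al) := by
    rw [uIoc_of_le hal']
    exact (Measure.restrict_congr_set Ioo_ae_eq_Ioc).symm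
  have hmeas : ∀ z ∈ U, AEStronglyMeasurable (F z) ((volume : Measure ℝ).restrict (uIoc (-al) al)) := by
    intro z hz
    rw [hres]
    exact (hs z hz).aestronglyMeasurable measurableSet_Ioo
  intro z0 hz0
  apply DifferentiableAt.differentiableWithinAt
  obtain ⟨R, hR, hball⟩ := Metric.nhds_basis_closedBall.mem_iff.1 (hU.mem_nhds hz0)
  have hint : IntervalIntegrable (F z0) volume (-al) al := e01_ii hal.le (hs z0 hz0) (hM z0 hz0)
  have hmemn : ∀ n : ℕ, z0 + ((R / ((n:ℝ) + 1) : ℝ) : ℂ) ∈ U := by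
    intro n
    apply hball
    rw [Metric.mem_closedBall, dist_eq_norm, add_sub_cancel_left, norm_real,
      Real.norm_of_nonneg (by positivity)]
    rw [div_le_iff₀ (by positivity)]
    have : (0:ℝ) ≤ n := Nat.cast_nonneg n
    nlinarith
  have key := intervalIntegral.hasDerivAt_integral_of_dominated_loc_of_deriv_le
    (μ := (volume : Measure ℝ)) (a := -al) (b := al)
    (F := fun z s => F z s) (F' := fun z s => _root_.deriv (fun z => F z s) z) (x₀ := z0)
    (s := Metric.ball z0 (R / 2)) (bound := fun _ => M / (R / 2))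
    (Metric.ball_mem_nhds z0 (by positivity))
    (by
      filter_upwards [hU.mem_nhds hz0] with z hz
      exact hmeas z hz)
    hint
    (by
      refine aestronglyMeasurable_of_tendsto_ae (u := atTop)
        (f := fun (n : ℕ) t => (((R / ((n:ℝ) + 1) : ℝ) : ℂ))⁻¹ * (F (z0 + ((R / ((n:ℝ) + 1) : ℝ) : ℂ)) t - F z0 t)) ?_ ?_
      · intro n
        exact ((hmeas _ (hmemn n)).sub (hmeas z0 hz0)).const_mul _
      · rw [ae_restrict_iff' measurableSet_uIoc]
        filter_upwards [hne] with t ht ht'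
        have hd : HasDerivAt (fun z => F z t) (_root_.deriv (fun z => F z t) z0) z0 :=
          ((hF t (ht ht')).differentiableAt (hU.mem_nhds hz0)).hasDerivAt
        have hsl := hd.tendsto_slope_zero
        have hseq : Tendsto (fun n : ℕ => ((R / ((n:ℝ) + 1) : ℝ) : ℂ)) atTop (𝓝[≠] 0) := by
          rw [tendsto_nhdsWithin_iff]
          constructor
          · have h1 : Tendsto (fun n : ℕ => R * (1 / ((n:ℝ) + 1))) atTop (𝓝 (R * 0)) :=
              (tendsto_one_div_add_atTop_nhds_zero_nat (𝕜 := ℝ)).const_mul R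
            have h2 : Tendsto (fun n : ℕ => ((R / ((n:ℝ) + 1) : ℝ) : ℂ)) atTop (𝓝 ((0 : ℝ) : ℂ)) := by
              refine (continuous_ofReal.tendsto 0).comp ?_
              rw [mul_zero] at h1
              refine h1.congr fun n => ?_
              ring
            rw [ofReal_zero] at h2
            exact h2
          · filter_upwards with n
            have : (R / ((n:ℝ) + 1) : ℝ) ≠ 0 := by positivity
            exact ofReal_ne_zero.2 this
        exact hsl.comp hseq)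
    (by
      filter_upwards [hne] with t ht ht' z hz
      exact A08_cauchy hR ((hF t (ht ht')).mono hball) (fun y hy => hM y (hball hy) t (ht ht')) hz)
    intervalIntegrable_const
    (by
      filter_upwards [hne] with t ht ht' z hz
      have hzU : z ∈ U := hball (Metric.ball_subset_closedBall (Metric.ball_subset_ball (by linarith) hz))
      exact ((hF t (ht ht')).differentiableAt (hU.mem_nhds hzU)).hasDerivAt)
  exact key.2.differentiableAt

/-! ### perturbed curves -/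

/-- the perturbed function -/
def e01L (Z A : ℂ → ℂ) (w : ℂ) : ℂ → ℂ := fun z => Z z + w * A z

theorem e01L_zero (Z A : ℂ → ℂ) : e01L Z A 0 = Z := by
  funext z
  simp [e01L]

theorem e01L_apply (Z A : ℂ → ℂ) (w z : ℂ) : e01L Z A w z = Z z + w * A z := rfl

theorem e01L_diff {Z A : ℂ → ℂ} {a b : ℝ} (hZ : DifferentiableOn ℂ Z (band a b))
    (hA : DifferentiableOn ℂ A (band a b)) (w : ℂ) : DifferentiableOn ℂ (e01L Z A w) (band a b) :=
  hZ.add (hA.const_mul w)

theorem e01L_deriv {Z A : ℂ → ℂ} {a b : ℝ} (hZ : DifferentiableOn ℂ Z (band a b))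
    (hA : DifferentiableOn ℂ A (band a b)) (w : ℂ) {z : ℂ} (hz : z ∈ band a b) :
    deriv (e01L Z A w) z = deriv Z z + w * deriv A z := by
  have h1 := (hZ.differentiableAt ((isOpen_band a b).mem_nhds hz)).hasDerivAt
  have h2 := (hA.differentiableAt ((isOpen_band a b).mem_nhds hz)).hasDerivAt
  exact (h1.add (h2.const_mul w)).deriv

theorem e01L_nz (al : ℝ) (X B : ℂ → ℂ) (w t : ℂ) :
    nz al (e01L X B w) t = nz al X t + w * df al B t := by
  simp only [nz, df, e01L]
  ring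

theorem e01L_nx (al : ℝ) (Z A : ℂ → ℂ) (w t : ℂ) :
    nx al (e01L Z A w) t = nx al Z t - w * df al A t := by
  simp only [nx, df, e01L]
  ring

theorem e01L_md (al : ℝ) (Z A : ℂ → ℂ) (w t : ℂ) :
    md al (e01L Z A w) t = md al Z t + w * md al A t := by
  simp only [md, e01L]
  ring

theorem e01L_et (al : ℝ) (Z X A B : ℂ → ℂ) (w t : ℂ) :
    et al (e01L Z A w) (e01L X B w) t = (nz al X t + w * df al B t) * (md al Z t + w * md al A t) +
      (nx al Z t - w * df al A t) * (md al X t + w * md al B t) := by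
  rw [et, e01L_nz, e01L_nx, e01L_md, e01L_md]

theorem e01L_NB {c c' a b d : ℝ} {Z X A B : ℂ → ℂ} (h : NB c a b Z X) (hd : DirBd d a b A B) {w : ℂ}
    (hw : c + ‖w‖ * d ≤ c') : NB c' a b (e01L Z A w) (e01L X B w) where
  dZ := e01L_diff h.dZ hd.dA w
  dX := e01L_diff h.dX hd.dB w
  z0 := fun z hz => by
    have h1 : e01L Z A w z - cos z = (Z z - cos z) + w * A z := by rw [e01L_apply]; ring
    rw [h1]
    refine (norm_add_le _ _).trans (le_trans ?_ hw)
    rw [norm_mul]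
    exact add_le_add (h.z0 z hz) (mul_le_mul_of_nonneg_left (hd.a0 z hz) (norm_nonneg _))
  x0 := fun z hz => by
    have h1 : e01L X B w z - sin z = (X z - sin z) + w * B z := by rw [e01L_apply]; ring
    rw [h1]
    refine (norm_add_le _ _).trans (le_trans ?_ hw)
    rw [norm_mul]
    exact add_le_add (h.x0 z hz) (mul_le_mul_of_nonneg_left (hd.b0 z hz) (norm_nonneg _))
  z1 := fun z hz => by
    have h1 : deriv (e01L Z A w) z + sin z = (deriv Z z + sin z) + w * deriv A z := by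
      rw [e01L_deriv h.dZ hd.dA w hz]; ring
    rw [h1]
    refine (norm_add_le _ _).trans (le_trans ?_ hw)
    rw [norm_mul]
    exact add_le_add (h.z1 z hz) (mul_le_mul_of_nonneg_left (hd.a1 z hz) (norm_nonneg _))
  x1 := fun z hz => by
    have h1 : deriv (e01L X B w) z - cos z = (deriv X z - cos z) + w * deriv B z := by
      rw [e01L_deriv h.dX hd.dB w hz]; ring
    rw [h1]
    refine (norm_add_le _ _).trans (le_trans ?_ hw)
    rw [norm_mul]
    exact add_le_add (h.x1 z hz) (mul_le_mul_of_nonneg_left (hd.b1 z hz) (norm_nonneg _))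

theorem e01L_differentiable (Z A : ℂ → ℂ) (z : ℂ) : Differentiable ℂ (fun w => e01L Z A w z) := by
  unfold e01L
  fun_prop

theorem e01_nz_differentiable (al : ℝ) (X B : ℂ → ℂ) (t : ℂ) :
    Differentiable ℂ (fun w => nz al (e01L X B w) t) := by
  simp only [e01L_nz]
  fun_prop

theorem e01_nx_differentiable (al : ℝ) (Z A : ℂ → ℂ) (t : ℂ) :
    Differentiable ℂ (fun w => nx al (e01L Z A w) t) := by
  simp only [e01L_nx]
  fun_prop

theorem e01_et_differentiable (al : ℝ) (Z X A B : ℂ → ℂ) (t : ℂ) :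
    Differentiable ℂ (fun w => et al (e01L Z A w) (e01L X B w) t) := by
  simp only [e01L_et]
  fun_prop

/-- analyticity of `yy` in the curve -/
theorem e01_yy (R : ℝ) (hR : 1 < R) : ∃ c0 : ℝ, 0 < c0 ∧ ∀ al ∈ JJ, ∀ a b : ℝ, 1 ≤ a → b ≤ R →
    ∀ Z X A B : ℂ → ℂ, ∀ U : Set ℂ, (∀ w ∈ U, NB c0 a b (e01L Z A w) (e01L X B w)) → ∀ t ∈ band a b,
      ∀ s ∈ Ioo (-al) al, ∀ w ∈ U, DifferentiableAt ℂ (fun w => yy al (e01L Z A w) (e01L X B w) t (s:ℂ)) w := by
  obtain ⟨c0, C, hc0, hC, hCc, H⟩ := chord_bd R hR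
  refine ⟨c0, hc0, fun al hal a b ha hb Z X A B U hN t ht s hs w hw => ?_⟩
  obtain ⟨hB, hxi, hchi⟩ := H al hal a b c0 ha hb hc0.le le_rfl _ _ (hN w hw) t ht
  obtain ⟨-, h2, -, h4, h5⟩ := rho_bd ((hchi s hs).trans hCc) (hB.nu.trans hCc) ((hxi s).trans hCc)
  have him : 1 ≤ t.im := by
    have := ht.1
    linarith
  have hst : sin t ≠ 0 := sin_ne_zero_of_im (by linarith)
  have hsts : sin (t + (s:ℂ)) ≠ 0 := sin_ne_zero_of_im (by rw [add_real_im]; linarith)
  have hrho : DifferentiableAt ℂ (fun w => chi al (e01L Z A w) (e01L X B w) t (s:ℂ) /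
      (nu al (e01L Z A w) t * xi (e01L X B w) (t + (s:ℂ)))) w := by
    refine DifferentiableAt.div ?_ ?_ (mul_ne_zero h4 h5)
    · unfold chi Hq
      refine DifferentiableAt.div_const (DifferentiableAt.div_const ?_ _) _
      refine DifferentiableAt.sub (DifferentiableAt.add ?_ ?_) (e01_et_differentiable al Z X A B t w)
      · exact (e01_nz_differentiable al X B t w).mul (e01L_differentiable Z A _ w)
      · exact (e01_nx_differentiable al Z A t w).mul (e01L_differentiable X B _ w)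
    · refine DifferentiableAt.mul ?_ ?_
      · have : (fun w => nu al (e01L Z A w) t) = fun w => nx al (e01L Z A w) t / ((Real.sin al : ℂ) * sin t) := by
          funext w
          exact nu_eq hst
        rw [this]
        exact (e01_nx_differentiable al Z A t w).div_const _
      · have : (fun w => xi (e01L X B w) (t + (s:ℂ))) = fun w => e01L X B w (t + (s:ℂ)) / sin (t + (s:ℂ)) := by
          funext w
          exact xi_eq hsts
        rw [this]
        exact (e01L_differentiable X B _ w).div_const _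
  have h6 := (hrho.cpow_const (c := (1:ℂ)/2) h2).const_mul (kk al (s:ℂ) * q0 t (s:ℂ))
  refine h6.congr_of_eventuallyEq (Filter.Eventually.of_forall fun w => ?_)
  simp only [yy, om]
  ring

/-! ### the core data of a line of curves -/

theorem e01_kk_tendsto {al : ℝ} (hal : al ∈ JJ) :
    Tendsto (fun s : ℝ => ‖kk al (s:ℂ)‖) (𝓝[>] (-al)) (𝓝 0) ∧
    Tendsto (fun s : ℝ => ‖kk al (s:ℂ)‖) (𝓝[<] al) (𝓝 0) := by
  obtain ⟨hj1, hj2, hj3, hj4, hj5, hs1, hs2⟩ := JJ_bounds hal
  have hcont : Continuous (fun s : ℝ => Real.sqrt (Real.cos s - Real.cos al)) :=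
    Real.continuous_sqrt.comp (Real.continuous_cos.sub continuous_const)
  have hev : ∀ s ∈ Ioo (-al) al, ‖kk al (s:ℂ)‖ = Real.sqrt (Real.cos s - Real.cos al) := by
    intro s hs
    rw [kk_real (cos_gt hal hs).le, norm_real, Real.norm_of_nonneg (Real.sqrt_nonneg _)]
  constructor
  · have h1 : Tendsto (fun s : ℝ => Real.sqrt (Real.cos s - Real.cos al)) (𝓝[>] (-al)) (𝓝 0) := by
      have := (hcont.tendsto (-al)).mono_left (nhdsWithin_le_nhds (s := Ioi (-al)))
      rwa [Real.cos_neg, sub_self, Real.sqrt_zero] at this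
    refine h1.congr' ?_
    filter_upwards [Ioo_mem_nhdsGT (show -al < al by linarith)] with s hs
    exact (hev s hs).symm
  · have h1 : Tendsto (fun s : ℝ => Real.sqrt (Real.cos s - Real.cos al)) (𝓝[<] al) (𝓝 0) := by
      have := (hcont.tendsto al).mono_left (nhdsWithin_le_nhds (s := Iio al))
      rwa [sub_self, Real.sqrt_zero] at this
    refine h1.congr' ?_
    filter_upwards [Ioo_mem_nhdsLT (show -al < al by linarith)] with s hs
    exact (hev s hs).symm

theorem e01_shift_cont {a b : ℝ} {f : ℂ → ℂ} (hf : DifferentiableOn ℂ f (band a b)) {t : ℂ}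
    (ht : t ∈ band a b) : Continuous (fun s : ℝ => f (t + (s:ℂ))) := by
  rw [continuous_iff_continuousAt]
  intro s
  have h1 : ContinuousAt f (t + (s:ℂ)) :=
    (hf.differentiableAt ((isOpen_band a b).mem_nhds (add_real_mem_band ht s))).continuousAt
  exact ContinuousAt.comp (f := fun s : ℝ => t + (s:ℂ)) h1 (by fun_prop)

theorem e01_shift_deriv {a b : ℝ} {f : ℂ → ℂ} (hf : DifferentiableOn ℂ f (band a b)) {t : ℂ}
    (ht : t ∈ band a b) (s : ℝ) : HasDerivAt (fun s : ℝ => f (t + (s:ℂ))) (deriv f (t + (s:ℂ))) s := by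
  have h1 : HasDerivAt f (deriv f (t + (s:ℂ))) (t + (s:ℂ)) :=
    (hf.differentiableAt ((isOpen_band a b).mem_nhds (add_real_mem_band ht s))).hasDerivAt
  have h2 : HasDerivAt (fun s : ℂ => f (t + s)) (deriv f (t + (s:ℂ))) (s:ℂ) := by
    have := h1.comp_const_add t (s:ℂ)
    exact this
  exact h2.comp_ofReal

theorem e01_deriv_diff {a b : ℝ} {f : ℂ → ℂ} (hf : DifferentiableOn ℂ f (band a b)) :
    DifferentiableOn ℂ (deriv f) (band a b) := hf.deriv (isOpen_band a b)

theorem e01_deriv_affine (p q : ℂ) : deriv (fun w : ℂ => p + w * q) 0 = q := by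
  have h1 : HasDerivAt (fun w : ℂ => p + w * q) (1 * q) 0 :=
    ((hasDerivAt_id (0:ℂ)).mul_const q).const_add p
  rw [h1.deriv, one_mul]

theorem e01_core (R : ℝ) (hR : 1 < R) : ∃ c0 : ℝ, 0 < c0 ∧ ∀ al ∈ JJ, ∀ a b : ℝ, 1 ≤ a → b ≤ R →
    ∀ Z X : ℂ → ℂ, NB c0 a b Z X → ∀ A B : ℂ → ℂ, ∀ d : ℝ, DirBd d a b A B → ∀ t ∈ band a b,
      ∃ ε M : ℝ, CoreData al ε M (fun w s => Z (t + (s:ℂ)) + w * A (t + (s:ℂ))) (fun w s => X (t + (s:ℂ)) + w * B (t + (s:ℂ)))
        (fun w s => deriv Z (t + (s:ℂ)) + w * deriv A (t + (s:ℂ))) (fun w s => deriv X (t + (s:ℂ)) + w * deriv B (t + (s:ℂ)))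
        (fun w s => yy al (e01L Z A w) (e01L X B w) t (s:ℂ)) (fun w => nz al (e01L X B w) t) (fun w => nx al (e01L Z A w) t)
        (fun w => et al (e01L Z A w) (e01L X B w) t) := by
  obtain ⟨c1, K, hc1, hK, H1⟩ := c01_bounds R hR
  obtain ⟨c2, hc2, H2⟩ := yy_basic R hR
  obtain ⟨c3, hc3, H3⟩ := e01_yy R hR
  set cm : ℝ := min (1/10) (min c1 (min c2 c3)) with hcm
  have hcm0 : 0 < cm := by positivity
  have hm0 : cm ≤ 1/10 := min_le_left _ _
  have hm1 : cm ≤ c1 := (min_le_right _ _).trans (min_le_left _ _)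
  have hm2 : cm ≤ c2 := (min_le_right _ _).trans ((min_le_right _ _).trans (min_le_left _ _))
  have hm3 : cm ≤ c3 := (min_le_right _ _).trans ((min_le_right _ _).trans (min_le_right _ _))
  refine ⟨cm / 2, by positivity, fun al hal a b ha hb Z X hN A B d hd t ht => ?_⟩
  obtain ⟨hj1, hj2, hj3, hj4, hj5, hs1, hs2⟩ := JJ_bounds hal
  have hal0 : 0 < al := by linarith
  have hd0 : 0 ≤ d := (norm_nonneg _).trans (hd.a0 t ht)
  set ε : ℝ := cm / 2 / (d + 1) with hε
  have hε0 : 0 < ε := by positivity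
  have hNw : ∀ w ∈ Metric.ball (0:ℂ) ε, NB cm a b (e01L Z A w) (e01L X B w) := by
    intro w hw
    rw [mem_ball_zero_iff] at hw
    refine e01L_NB hN hd ?_
    have h1 : ‖w‖ * d ≤ cm / 2 := by
      calc ‖w‖ * d ≤ ε * d := mul_le_mul_of_nonneg_right hw.le hd0
        _ ≤ ε * (d + 1) := mul_le_mul_of_nonneg_left (by linarith) hε0.le
        _ = cm / 2 := by rw [hε]; field_simp
    linarith
  have hmb : ∀ s : ℝ, t + (s:ℂ) ∈ band a b := fun s => add_real_mem_band ht s
  have hE : Real.exp R ≥ 0 := (Real.exp_pos R).le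
  set M : ℝ := K + Real.exp R + 1 with hM
  have hM1 : 1 ≤ M := by linarith
  have hMinv : 1 / M ≤ 1 := by
    rw [div_le_one (by linarith)]
    exact hM1
  have hzero : (0:ℂ) ∈ Metric.ball (0:ℂ) ε := Metric.mem_ball_self hε0
  refine ⟨ε, M, ?_⟩
  refine { hal := hal0, he := hε0, hM := hM1, dz := ?_, dx := ?_, dzs := ?_, dxs := ?_, sz := ?_,
           sx := ?_, cz := ?_, cx := ?_, mz := ?_, mx := ?_, kz := ?_, kx := ?_, bd := ?_, dn := ?_,
           bn := ?_, yN := ?_, y0 := ?_, dy := ?_, cy := ?_, sy := ?_, ty := ?_ }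
  · intro s _
    fun_prop
  · intro s _
    fun_prop
  · intro s _
    fun_prop
  · intro s _
    fun_prop
  · intro w _ s _
    exact (e01_shift_deriv hN.dZ ht s).add ((e01_shift_deriv hd.dA ht s).const_mul w)
  · intro w _ s _
    exact (e01_shift_deriv hN.dX ht s).add ((e01_shift_deriv hd.dB ht s).const_mul w)
  · intro w _
    exact ((e01_shift_cont (e01_deriv_diff hN.dZ) ht).add
      ((e01_shift_cont (e01_deriv_diff hd.dA) ht).const_mul w)).continuousOn
  · intro w _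
    exact ((e01_shift_cont (e01_deriv_diff hN.dX) ht).add
      ((e01_shift_cont (e01_deriv_diff hd.dB) ht).const_mul w)).continuousOn
  · intro s _
    simp only [e01_deriv_affine]
    exact e01_shift_deriv hd.dA ht s
  · intro s _
    simp only [e01_deriv_affine]
    exact e01_shift_deriv hd.dB ht s
  · simp only [e01_deriv_affine]
    exact (e01_shift_cont (e01_deriv_diff hd.dA) ht).continuousOn
  · simp only [e01_deriv_affine]
    exact (e01_shift_cont (e01_deriv_diff hd.dB) ht).continuousOn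
  · intro w hw s _
    have hNB := hNw w hw
    obtain ⟨hb1, -⟩ := H1 al hal a b ha hb _ _ (c01_NB_mono hNB hm1) t ht
    obtain ⟨hz, hx, hz'⟩ := hb1 s
    rw [e01L_deriv hN.dZ hd.dA w (hmb s)] at hz'
    have hx' := hNB.x1 _ (hmb s)
    rw [e01L_deriv hN.dX hd.dB w (hmb s)] at hx'
    have hx0 := hNB.x0 _ (hmb s)
    have him : (t + (s:ℂ)).im = t.im := add_real_im t s
    have hc := c01_cos_le (t + (s:ℂ))
    rw [him] at hc
    have hexp : Real.exp |t.im| ≤ Real.exp R := by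
      rw [Real.exp_le_exp, abs_of_nonneg (by linarith [ht.1])]
      linarith [ht.2]
    have hsin := c01_sin_ge (show 1 ≤ (t + (s:ℂ)).im by rw [him]; linarith [ht.1])
    refine ⟨?_, ?_, ?_, ?_, ?_⟩
    · exact hz.trans (by linarith)
    · exact hx.trans (by linarith)
    · exact hz'.trans (by linarith)
    · have h3 := norm_sub_norm_le (deriv X (t + (s:ℂ)) + w * deriv B (t + (s:ℂ))) (cos (t + (s:ℂ)))
      linarith
    · refine hMinv.trans ?_
      have h3 := norm_sub_norm_le (sin (t + (s:ℂ))) (e01L X B w (t + (s:ℂ)))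
      rw [norm_sub_rev] at h3
      have h4 : ‖e01L X B w (t + (s:ℂ))‖ = ‖X (t + (s:ℂ)) + w * B (t + (s:ℂ))‖ := rfl
      rw [← h4]
      linarith
  · exact ⟨(e01_nz_differentiable al X B t).differentiableOn, (e01_nx_differentiable al Z A t).differentiableOn,
      (e01_et_differentiable al Z X A B t).differentiableOn⟩
  · intro w hw
    obtain ⟨-, hnz, hnx, hnx1, het, -⟩ := H1 al hal a b ha hb _ _ (c01_NB_mono (hNw w hw) hm1) t ht
    exact ⟨hnz.trans (by linarith), hnx.trans (by linarith), het.trans (by linarith), hMinv.trans hnx1⟩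
  · intro w hw s hs
    obtain ⟨-, -, -, hnx, hX, heq, -⟩ := H2 al hal a b ha hb _ _ (c01_NB_mono (hNw w hw) hm2) t ht s hs
    have h0 : nx al (e01L Z A w) t * e01L X B w (t + (s:ℂ)) ≠ 0 := mul_ne_zero hnx hX
    have := (eq_div_iff h0).1 heq
    exact this
  · intro w hw s hs
    obtain ⟨hy0, hy1, -⟩ := H2 al hal a b ha hb _ _ (c01_NB_mono (hNw w hw) hm2) t ht s hs
    exact ⟨hy0, hy1⟩
  · intro s hs w hw
    exact (H3 al hal a b ha hb Z X A B (Metric.ball (0:ℂ) ε) (fun w hw => c01_NB_mono (hNw w hw) hm3) t ht s hs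
      w hw).differentiableWithinAt
  · intro w hw s hs
    obtain ⟨-, -, -, -, -, -, -, hc, -⟩ := H2 al hal a b ha hb _ _ (c01_NB_mono (hNw w hw) hm2) t ht s hs
    exact hc.continuousWithinAt
  · intro s hs
    obtain ⟨-, -, -, -, -, -, -, -, y', hy'⟩ := H2 al hal a b ha hb _ _ (c01_NB_mono (hNw 0 hzero) hm2) t ht s hs
    exact hy'.differentiableAt
  · have hle : ∀ s ∈ Ioo (-al) al, ‖yy al (e01L Z A 0) (e01L X B 0) t (s:ℂ)‖ ≤ ‖kk al (s:ℂ)‖ * 2 := by
      intro s hs
      obtain ⟨-, -, hom, -⟩ := H2 al hal a b ha hb _ _ (c01_NB_mono (hNw 0 hzero) hm2) t ht s hs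
      rw [yy, norm_mul]
      exact mul_le_mul_of_nonneg_left hom (norm_nonneg _)
    obtain ⟨hk1, hk2⟩ := e01_kk_tendsto hal
    constructor
    · refine squeeze_zero_norm' (a := fun s : ℝ => ‖kk al (s:ℂ)‖ * 2) ?_ ?_
      · filter_upwards [Ioo_mem_nhdsGT (show -al < al by linarith)] with s hs
        exact hle s hs
      · simpa using hk1.mul_const 2
    · refine squeeze_zero_norm' (a := fun s : ℝ => ‖kk al (s:ℂ)‖ * 2) ?_ ?_
      · filter_upwards [Ioo_mem_nhdsLT (show -al < al by linarith)] with s hs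
        exact hle s hs
      · simpa using hk2.mul_const 2

/-! ### the plane parts -/

theorem e01_chord {nzv nxv etv zm xm zd xd z x y2 : ℂ} (hnz : nzv = xd) (hnx : nxv = -zd) (hzd : zd ≠ 0)
    (het : etv = nzv * zm + nxv * xm) (hy : y2 * (nxv * x) = nzv * z + nxv * x - etv) :
    x * (1 - y2) = xm + (z - zm) / zd * xd := by
  subst hnz hnx
  have h1 : zd * (x * (1 - y2)) = zd * (xm + (z - zm) / zd * nzv) := by
    have h2 : zd * (xm + (z - zm) / zd * nzv) = zd * xm + (z - zm) * nzv := by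
      field_simp
    rw [h2]
    rw [het] at hy
    linear_combination hy
  exact mul_left_cancel₀ hzd h1

theorem e01_planes (R : ℝ) (hR : 1 < R) : ∃ c0 : ℝ, 0 < c0 ∧ ∀ al ∈ JJ, ∀ a b : ℝ, 1 ≤ a → b ≤ R →
    ∀ Z X : ℂ → ℂ, NB c0 a b Z X → ∀ A B : ℂ → ℂ, ∀ t ∈ band a b, ∀ gm gd : ℂ, ∀ g : ℝ → ℂ,
      (∀ s ∈ Ioo (-al) al, g s = gm + tau al Z t (s:ℂ) * gd) →
      2 * ∫ s in (-al)..al, g s * (X (t + (s:ℂ)) * Uf (yy al Z X t (s:ℂ))) * (- deriv Z (t + (s:ℂ))) / nx al Z t *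
          (df al B t * Z (t + (s:ℂ)) + (- df al A t) * (X (t + (s:ℂ)) * (1 - yy al Z X t (s:ℂ) ^ 2)) - Det al Z X A B t) =
        - (gm * (aj al 0 Z X t + aj al 1 Z X t) + gd * (aj al 1 Z X t + aj al 2 Z X t)) * ndp al Z X A B t
        - (gm * (aj al 0 Z X t - aj al 1 Z X t) + gd * (aj al 1 Z X t - aj al 2 Z X t)) * ndm al Z X A B t := by
  obtain ⟨c1, K, hc1, hK, H1⟩ := c01_bounds R hR
  obtain ⟨c2, hc2, H2⟩ := yy_basic R hR
  refine ⟨min c1 c2, lt_min hc1 hc2, fun al hal a b ha hb Z X hN A B t ht gm gd g hg => ?_⟩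
  obtain ⟨hj1, hj2, hj3, hj4, hj5, hs1, hs2⟩ := JJ_bounds hal
  have hal0 : 0 < al := by linarith
  obtain ⟨hb1, hnz, hnx, hnx1, het, hb2⟩ := H1 al hal a b ha hb _ _ (c01_NB_mono hN (min_le_left _ _)) t ht
  have hcont := (c01_cont (al := al) hN.dZ hN.dX ht (fun s hs => ⟨(hb2 s hs).1, (hb2 s hs).2.2.2.2⟩)).2.2.2
  have hnx0 : nx al Z t ≠ 0 := by
    intro h0
    rw [h0, norm_zero] at hnx1
    linarith
  have hzd : df al Z t ≠ 0 := by
    rw [c01_df]
    exact neg_ne_zero.2 hnx0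
  have hii : ∀ j, IntervalIntegrable (c01a al j Z X t) volume (-al) al := by
    intro j
    refine e01_ii (M := K ^ j * (K * K) * K) hal0.le (hcont j) ?_
    intro s hs
    obtain ⟨hz, hx, hz'⟩ := hb1 s
    obtain ⟨hy, hW, hU, htau, -⟩ := hb2 s hs
    unfold c01a
    rw [norm_div, norm_mul, norm_mul, norm_mul, norm_pow, norm_neg]
    have h1 : ‖tau al Z t (s:ℂ)‖ ^ j * (‖X (t + (s:ℂ))‖ * ‖Uf (yy al Z X t (s:ℂ))‖) * ‖deriv Z (t + (s:ℂ))‖ ≤
        K ^ j * (K * K) * K := by gcongr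
    rw [div_le_iff₀ (by linarith)]
    refine h1.trans ?_
    have h2 : 0 ≤ K ^ j * (K * K) * K := by positivity
    nlinarith
  set p := ndp al Z X A B t with hp
  set m := ndm al Z X A B t with hm
  have hpt : ∀ s ∈ Ioo (-al) al, g s * (X (t + (s:ℂ)) * Uf (yy al Z X t (s:ℂ))) * (- deriv Z (t + (s:ℂ))) / nx al Z t *
          (df al B t * Z (t + (s:ℂ)) + (- df al A t) * (X (t + (s:ℂ)) * (1 - yy al Z X t (s:ℂ) ^ 2)) - Det al Z X A B t) =
      (-(1/2) * (gm * (p + m))) * c01a al 0 Z X t s + (-(1/2) * (gm * (p - m) + gd * (p + m))) * c01a al 1 Z X t s +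
        (-(1/2) * (gd * (p - m))) * c01a al 2 Z X t s := by
    intro s hs
    obtain ⟨-, -, -, -, hX, heq, -⟩ := H2 al hal a b ha hb _ _ (c01_NB_mono hN (min_le_right _ _)) t ht s hs
    have h0 : nx al Z t * X (t + (s:ℂ)) ≠ 0 := mul_ne_zero hnx0 hX
    have hch := e01_chord (nzv := nz al X t) (nxv := nx al Z t) (etv := et al Z X t) (zm := md al Z t)
      (xm := md al X t) (zd := df al Z t) (xd := df al X t) (z := Z (t + (s:ℂ))) (x := X (t + (s:ℂ)))
      (y2 := yy al Z X t (s:ℂ) ^ 2) rfl rfl hzd rfl ((eq_div_iff h0).1 heq)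
    have htau : (Z (t + (s:ℂ)) - md al Z t) / df al Z t = tau al Z t (s:ℂ) := rfl
    rw [htau] at hch
    have hZ : Z (t + (s:ℂ)) = md al Z t + tau al Z t (s:ℂ) * df al Z t := by
      rw [tau]
      field_simp
      ring
    have hbr : df al B t * Z (t + (s:ℂ)) + (- df al A t) * (X (t + (s:ℂ)) * (1 - yy al Z X t (s:ℂ) ^ 2)) -
        Det al Z X A B t = -(1/2) * ((1 + tau al Z t (s:ℂ)) * p + (1 - tau al Z t (s:ℂ)) * m) := by
      rw [hch, hZ, hp, hm]
      have hA1 : A (t + (al:ℂ)) = md al A t + df al A t := by simp only [md, df]; ring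
      have hA2 : A (t - (al:ℂ)) = md al A t - df al A t := by simp only [md, df]; ring
      have hB1 : B (t + (al:ℂ)) = md al B t + df al B t := by simp only [md, df]; ring
      have hB2 : B (t - (al:ℂ)) = md al B t - df al B t := by simp only [md, df]; ring
      simp only [ndp, ndm, Det, nz, nx]
      rw [hA1, hA2, hB1, hB2]
      ring
    rw [hbr, hg s hs]
    unfold c01a
    ring
  rw [e01_congr hal0.le hpt, intervalIntegral.integral_add, intervalIntegral.integral_add,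
    intervalIntegral.integral_const_mul, intervalIntegral.integral_const_mul, intervalIntegral.integral_const_mul]
  · have haj : ∀ j, ∫ s in (-al)..al, c01a al j Z X t s = aj al j Z X t := fun j => rfl
    rw [haj, haj, haj]
    ring
  · exact (hii 0).const_mul _
  · exact (hii 1).const_mul _
  · exact ((hii 0).const_mul _).add ((hii 1).const_mul _)
  · exact (hii 2).const_mul _

theorem e01_Af_bound : ∃ C : ℝ, 1 ≤ C ∧ ∀ y : ℂ, ‖y‖ ^ 2 ≤ 1/2 → ‖Af y‖ ≤ C := by
  obtain ⟨C, hC, H⟩ := c01_WU_bound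
  refine ⟨C + 2 * C, by linarith, fun y hy => ?_⟩
  obtain ⟨h1, h2⟩ := H y hy
  have h3 : Af y = Wf y + (1 - y ^ 2) * Uf y := by
    rw [Wf]; ring
  rw [h3]
  refine (norm_add_le _ _).trans (add_le_add h1 ?_)
  rw [norm_mul]
  have h4 : ‖1 - y ^ 2‖ ≤ 2 := by
    refine (norm_sub_le _ _).trans ?_
    rw [norm_one, norm_pow]
    linarith
  exact mul_le_mul h4 h2 (norm_nonneg _) (by norm_num)

theorem e01_Af_diff {y : ℂ} (hy : ‖y‖ ^ 2 ≤ 1/2) : ContinuousAt Af y :=
  (hasDerivAt_Af (by linarith)).continuousAt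

theorem e01_Uf_diff {y : ℂ} (hy : ‖y‖ ^ 2 ≤ 1/2) : ContinuousAt Uf y :=
  (hasDerivAt_Uf (by linarith)).continuousAt

/-- integrability of the integrands in the variation formulas -/
theorem e01_var_ii (R : ℝ) (hR : 1 < R) : ∃ c0 : ℝ, 0 < c0 ∧ ∀ al ∈ JJ, ∀ a b : ℝ, 1 ≤ a → b ≤ R →
    ∀ Z X : ℂ → ℂ, NB c0 a b Z X → ∀ A B : ℂ → ℂ, ∀ d : ℝ, DirBd d a b A B → ∀ t ∈ band a b,
      IntervalIntegrable (fun s : ℝ => Af (yy al Z X t (s:ℂ)) * (2 * X (t + (s:ℂ))) *
        (deriv X (t + (s:ℂ)) * A (t + (s:ℂ)) - deriv Z (t + (s:ℂ)) * B (t + (s:ℂ)))) volume (-al) al ∧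
      IntervalIntegrable (fun s : ℝ => Af (yy al Z X t (s:ℂ)) * Z (t + (s:ℂ)) * (2 * X (t + (s:ℂ))) *
        (deriv X (t + (s:ℂ)) * A (t + (s:ℂ)) - deriv Z (t + (s:ℂ)) * B (t + (s:ℂ)))) volume (-al) al ∧
      IntervalIntegrable (fun s : ℝ => (X (t + (s:ℂ)) * Uf (yy al Z X t (s:ℂ))) * (2 * X (t + (s:ℂ))) *
        (deriv X (t + (s:ℂ)) * A (t + (s:ℂ)) - deriv Z (t + (s:ℂ)) * B (t + (s:ℂ)))) volume (-al) al := by
  obtain ⟨c1, K, hc1, hK, H1⟩ := c01_bounds R hR
  obtain ⟨C, hC, HA⟩ := e01_Af_bound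
  refine ⟨min c1 1, lt_min hc1 one_pos, fun al hal a b ha hb Z X hN A B d hd t ht => ?_⟩
  obtain ⟨hj1, hj2, hj3, hj4, hj5, hs1, hs2⟩ := JJ_bounds hal
  have hal0 : 0 < al := by linarith
  obtain ⟨hb1, hnz, hnx, hnx1, het, hb2⟩ := H1 al hal a b ha hb _ _ (c01_NB_mono hN (min_le_left _ _)) t ht
  have hmb : ∀ s : ℝ, t + (s:ℂ) ∈ band a b := fun s => add_real_mem_band ht s
  have hd0 : 0 ≤ d := (norm_nonneg _).trans (hd.a0 t ht)
  have hX' : ∀ s : ℝ, ‖deriv X (t + (s:ℂ))‖ ≤ Real.exp R + 1 := by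
    intro s
    have hx' := (hN.x1 _ (hmb s)).trans (min_le_right _ _)
    have hc := c01_cos_le (t + (s:ℂ))
    rw [add_real_im] at hc
    have hexp : Real.exp |t.im| ≤ Real.exp R := by
      rw [Real.exp_le_exp, abs_of_nonneg (by linarith [ht.1])]
      linarith [ht.2]
    have h3 := norm_sub_norm_le (deriv X (t + (s:ℂ))) (cos (t + (s:ℂ)))
    linarith
  set L : ℝ := max C (max K (Real.exp R + 1)) with hL
  have hLC : C ≤ L := le_max_left _ _
  have hLK : K ≤ L := (le_max_left _ _).trans (le_max_right _ _)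
  have hLR : Real.exp R + 1 ≤ L := (le_max_right _ _).trans (le_max_right _ _)
  have hL1 : 1 ≤ L := hC.trans hLC
  have hGb : ∀ s : ℝ, ‖deriv X (t + (s:ℂ)) * A (t + (s:ℂ)) - deriv Z (t + (s:ℂ)) * B (t + (s:ℂ))‖ ≤ 2 * (L * d) := by
    intro s
    obtain ⟨-, -, hz'⟩ := hb1 s
    refine (norm_sub_le _ _).trans ?_
    rw [norm_mul, norm_mul]
    have h1 : ‖deriv X (t + (s:ℂ))‖ * ‖A (t + (s:ℂ))‖ ≤ L * d :=
      mul_le_mul ((hX' s).trans hLR) (hd.a0 _ (hmb s)) (norm_nonneg _) (by linarith)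
    have h2 : ‖deriv Z (t + (s:ℂ))‖ * ‖B (t + (s:ℂ))‖ ≤ L * d :=
      mul_le_mul (hz'.trans hLK) (hd.b0 _ (hmb s)) (norm_nonneg _) (by linarith)
    linarith
  have hG : Continuous (fun s : ℝ => deriv X (t + (s:ℂ)) * A (t + (s:ℂ)) - deriv Z (t + (s:ℂ)) * B (t + (s:ℂ))) :=
    ((e01_shift_cont (e01_deriv_diff hN.dX) ht).mul (e01_shift_cont hd.dA ht)).sub
      ((e01_shift_cont (e01_deriv_diff hN.dZ) ht).mul (e01_shift_cont hd.dB ht))
  have hXc := e01_shift_cont hN.dX ht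
  have hZc := e01_shift_cont hN.dZ ht
  have hA : ContinuousOn (fun s : ℝ => Af (yy al Z X t (s:ℂ))) (Ioo (-al) al) := by
    intro s hs
    obtain ⟨hy, -, -, -, hc⟩ := hb2 s hs
    exact (ContinuousAt.comp (f := fun s : ℝ => yy al Z X t (s:ℂ)) (e01_Af_diff hy) hc).continuousWithinAt
  have hU : ContinuousOn (fun s : ℝ => Uf (yy al Z X t (s:ℂ))) (Ioo (-al) al) := by
    intro s hs
    obtain ⟨hy, -, -, -, hc⟩ := hb2 s hs
    exact (ContinuousAt.comp (f := fun s : ℝ => yy al Z X t (s:ℂ)) (e01_Uf_diff hy) hc).continuousWithinAt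
  refine ⟨?_, ?_, ?_⟩
  · refine e01_ii (M := L * (2 * L) * (2 * (L * d))) hal0.le
      ((hA.mul (continuous_const.mul hXc).continuousOn).mul hG.continuousOn) ?_
    intro s hs
    rw [norm_mul, norm_mul, norm_mul, Complex.norm_ofNat]
    have h1 := (HA _ (hb2 s hs).1).trans hLC
    have h2 := (hb1 s).2.1.trans hLK
    have h3 := hGb s
    gcongr
  · refine e01_ii (M := L * L * (2 * L) * (2 * (L * d))) hal0.le
      (((hA.mul hZc.continuousOn).mul (continuous_const.mul hXc).continuousOn).mul hG.continuousOn) ?_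
    intro s hs
    rw [norm_mul, norm_mul, norm_mul, norm_mul, Complex.norm_ofNat]
    have h1 := (HA _ (hb2 s hs).1).trans hLC
    have h2 := (hb1 s).2.1.trans hLK
    have h2' := (hb1 s).1.trans hLK
    have h3 := hGb s
    gcongr
  · refine e01_ii (M := L * L * (2 * L) * (2 * (L * d))) hal0.le
      (((hXc.continuousOn.mul hU).mul (continuous_const.mul hXc).continuousOn).mul hG.continuousOn) ?_
    intro s hs
    rw [norm_mul, norm_mul, norm_mul, norm_mul, Complex.norm_ofNat]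
    have h1 := (hb2 s hs).2.2.1.trans hLK
    have h2 := (hb1 s).2.1.trans hLK
    have h3 := hGb s
    gcongr

theorem e01_deriv_nz (al : ℝ) (X B : ℂ → ℂ) (t : ℂ) :
    HasDerivAt (fun w => nz al (e01L X B w) t) (df al B t) 0 := by
  simp only [e01L_nz]
  have := ((hasDerivAt_id (0:ℂ)).mul_const (df al B t)).const_add (nz al X t)
  simpa using this

theorem e01_deriv_nx (al : ℝ) (Z A : ℂ → ℂ) (t : ℂ) :
    HasDerivAt (fun w => nx al (e01L Z A w) t) (- df al A t) 0 := by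
  simp only [e01L_nx]
  have := ((hasDerivAt_id (0:ℂ)).mul_const (df al A t)).const_sub (nx al Z t)
  simpa using this

theorem e01_deriv_md (al : ℝ) (Z A : ℂ → ℂ) (t : ℂ) :
    HasDerivAt (fun w => md al (e01L Z A w) t) (md al A t) 0 := by
  simp only [e01L_md]
  have := ((hasDerivAt_id (0:ℂ)).mul_const (md al A t)).const_add (md al Z t)
  simpa using this

theorem e01_deriv_et (al : ℝ) (Z X A B : ℂ → ℂ) (t : ℂ) :
    HasDerivAt (fun w => et al (e01L Z A w) (e01L X B w) t) (Det al Z X A B t) 0 := by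
  have h1 := ((e01_deriv_nz al X B t).mul (e01_deriv_md al Z A t)).add
    ((e01_deriv_nx al Z A t).mul (e01_deriv_md al X B t))
  refine h1.congr_deriv ?_
  simp only [e01L_zero]
  rw [Det]
  ring

/-- Apply `core_V` (`i = 0, 1`), `core_P` with `z w s = Z (t+s) + w A (t+s)`, `x w s = X (t+s) + w B (t+s)`,
`y w s = yy al (Z + w A) (X + w B) t s`, plane `(nz, nx, et)` of the curve `w` (`yy_basic`; the curves `w` satisfy `NB c0'` for
`‖w‖ < ε`; analyticity of `yy` in `w`: `om` is a product of powers of functions near `1` depending analytically on `w`).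
In the second integral: `deriv pz 0 = df B`, `deriv px 0 = - df A`, `deriv pe 0 = Det`. The chord point is
`(z, c) = (z_m + τ z_d, x_m + τ x_d)` with `τ = tau al Z t s` (for `c = x (1 - y^2) = (pe - pz z)/px` use `n . Γ_m = et`, `n . Γ_d = 0`), and
`δn . p - δet = - (1/2) ((1+τ) ndp + (1-τ) ndm)` (from `et = n . Γ_m`, `0 = n . Γ_d`: `δn.Γ_m - δet = - n.δΓ_m`, `δn.Γ_d = - n.δΓ_d`,
`δΓ_m ± δΓ_d = δΓ_±`). Hence `2 ∫ (xU)(-zs)/px * (..) = - (a0 + a1) ndp - (a0 - a1) ndm` etc.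
`Sf = nz Pz + nx Px - et V`: product rule; the plane parts of `DPz, DPx, DV` cancel (`nz z + nx c = et` on the chord) and
`nz Z Af + nx X Uf - et Af = nx X Lf` (since `nz Z - et = - nx X (1 - y^2)`, `Lf_eq`). -/
theorem line_deriv (R : ℝ) (hR : 1 < R) : ∃ c0 : ℝ, 0 < c0 ∧ ∀ al ∈ JJ, ∀ a b : ℝ, 1 ≤ a → b ≤ R →
    ∀ Z X : ℂ → ℂ, NB c0 a b Z X → ∀ A B : ℂ → ℂ, ∀ d : ℝ, DirBd d a b A B → ∀ t ∈ band a b,
      HasDerivAt (fun w : ℂ => Vf al (fun z => Z z + w * A z) (fun z => X z + w * B z) t) (DV al Z X A B t) 0 ∧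
      HasDerivAt (fun w : ℂ => Pzf al (fun z => Z z + w * A z) (fun z => X z + w * B z) t) (DPz al Z X A B t) 0 ∧
      HasDerivAt (fun w : ℂ => Pxf al (fun z => Z z + w * A z) (fun z => X z + w * B z) t) (DPx al Z X A B t) 0 ∧
      HasDerivAt (fun w : ℂ => Sf al (fun z => Z z + w * A z) (fun z => X z + w * B z) t) (DS al Z X A B t) 0 := by
  obtain ⟨c1, hc1, H1⟩ := e01_core R hR
  obtain ⟨c2, hc2, H2⟩ := e01_planes R hR
  obtain ⟨c3, hc3, H3⟩ := e01_var_ii R hR
  obtain ⟨c4, hc4, H4⟩ := yy_basic R hR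
  refine ⟨min (min c1 c2) (min c3 c4), by positivity, fun al hal a b ha hb Z X hN A B d hd t ht => ?_⟩
  obtain ⟨hj1, hj2, hj3, hj4, hj5, hs1, hs2⟩ := JJ_bounds hal
  have hal0 : 0 < al := by linarith
  have hN1 := c01_NB_mono hN ((min_le_left _ _).trans (min_le_left _ _))
  have hN2 := c01_NB_mono hN ((min_le_left _ _).trans (min_le_right _ _))
  have hN3 := c01_NB_mono hN ((min_le_right _ _).trans (min_le_left _ _))
  have hN4 := c01_NB_mono hN ((min_le_right _ _).trans (min_le_right _ _))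
  obtain ⟨ε, M, hcore⟩ := H1 al hal a b ha hb Z X hN1 A B d hd t ht
  have hpl := H2 al hal a b ha hb Z X hN2 A B t ht
  obtain ⟨hi1, hi2, hi3⟩ := H3 al hal a b ha hb Z X hN3 A B d hd t ht
  have hyb : ∀ s ∈ Ioo (-al) al, yy al Z X t (s:ℂ) ^ 2 * (nx al Z t * X (t + (s:ℂ))) =
      nz al X t * Z (t + s) + nx al Z t * X (t + s) - et al Z X t := by
    intro s hs
    obtain ⟨-, -, -, hnx, hX, heq, -⟩ := H4 al hal a b ha hb _ _ hN4 t ht s hs
    exact (eq_div_iff (mul_ne_zero hnx hX)).1 heq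
  have hy2 : ∀ s ∈ Ioo (-al) al, ‖yy al Z X t (s:ℂ)‖ ^ 2 ≤ 1/2 := by
    intro s hs
    obtain ⟨-, hy, -⟩ := H4 al hal a b ha hb _ _ hN4 t ht s hs
    exact hy
  have hnx0 : ∀ s ∈ Ioo (-al) al, nx al Z t ≠ 0 := by
    intro s hs
    obtain ⟨-, -, -, hnx, -⟩ := H4 al hal a b ha hb _ _ hN4 t ht s hs
    exact hnx
  have hnx : nx al Z t ≠ 0 := hnx0 0 ⟨by linarith, hal0⟩
  have hmb : ∀ s : ℝ, t + (s:ℂ) ∈ band a b := fun s => add_real_mem_band ht s
  have hdZ : ∀ w : ℂ, ∀ s : ℝ, deriv (e01L Z A w) (t + (s:ℂ)) = deriv Z (t + (s:ℂ)) + w * deriv A (t + (s:ℂ)) :=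
    fun w s => e01L_deriv hN.dZ hd.dA w (hmb s)
  have hpz := (e01_deriv_nz al X B t).deriv
  have hpx := (e01_deriv_nx al Z A t).deriv
  have hpe := (e01_deriv_et al Z X A B t).deriv
  -- the volume
  have hV : HasDerivAt (fun w : ℂ => Vf al (e01L Z A w) (e01L X B w) t) (DV al Z X A B t) 0 := by
    have h1 := core_V hcore 0
    simp only [hpz, hpx, hpe, e01_deriv_affine, e01L_zero, zero_mul, add_zero, pow_zero, mul_one] at h1
    have h2 := hpl 1 0 (fun _ => 1) (fun s hs => by ring)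
    simp only [one_mul] at h1 h2
    rw [h2] at h1
    refine (h1.congr_deriv ?_).congr_of_eventuallyEq (Filter.Eventually.of_forall fun w => ?_)
    · rw [DV]
      ring
    · simp only [Vf, hdZ, e01L_apply]
  have hPz : HasDerivAt (fun w : ℂ => Pzf al (e01L Z A w) (e01L X B w) t) (DPz al Z X A B t) 0 := by
    have h1 := core_V hcore 1
    simp only [hpz, hpx, hpe, e01_deriv_affine, e01L_zero, zero_mul, add_zero, pow_one] at h1
    have h2 := hpl (md al Z t) (df al Z t) (fun s => Z (t + (s:ℂ))) (fun s hs => by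
      rw [tau]
      have : df al Z t ≠ 0 := by
        rw [c01_df]
        exact neg_ne_zero.2 hnx
      field_simp
      ring)
    rw [h2] at h1
    refine (h1.congr_deriv ?_).congr_of_eventuallyEq (Filter.Eventually.of_forall fun w => ?_)
    · rw [DPz, cfp, cfm]
      ring
    · simp only [Pzf, hdZ, e01L_apply]
  have hPx : HasDerivAt (fun w : ℂ => Pxf al (e01L Z A w) (e01L X B w) t) (DPx al Z X A B t) 0 := by
    have h1 := core_P hcore
    simp only [hpz, hpx, hpe, e01_deriv_affine, e01L_zero, zero_mul, add_zero] at h1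
    have h2 := hpl (md al X t) (df al X t) (fun s => X (t + (s:ℂ)) * (1 - yy al Z X t (s:ℂ) ^ 2)) (fun s hs => by
      have hzd : df al Z t ≠ 0 := by
        rw [c01_df]
        exact neg_ne_zero.2 hnx
      exact e01_chord (nzv := nz al X t) (nxv := nx al Z t) (etv := et al Z X t) (zm := md al Z t)
        (xm := md al X t) (zd := df al Z t) (xd := df al X t) (z := Z (t + (s:ℂ))) (x := X (t + (s:ℂ)))
        (y2 := yy al Z X t (s:ℂ) ^ 2) rfl rfl hzd rfl (hyb s hs))
    rw [h2] at h1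
    refine (h1.congr_deriv ?_).congr_of_eventuallyEq (Filter.Eventually.of_forall fun w => ?_)
    · rw [DPx, cfp, cfm]
      ring
    · simp only [Pxf, hdZ, e01L_apply]
  refine ⟨hV, hPz, hPx, ?_⟩
  have hS := (((e01_deriv_nz al X B t).mul hPz).add ((e01_deriv_nx al Z A t).mul hPx)).sub
    ((e01_deriv_et al Z X A B t).mul hV)
  refine hS.congr_deriv ?_
  simp only [e01L_zero]
  have hint : nz al X t * (∫ s in (-al)..al, Af (yy al Z X t (s:ℂ)) * Z (t + (s:ℂ)) * (2 * X (t + (s:ℂ))) *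
        (deriv X (t + (s:ℂ)) * A (t + (s:ℂ)) - deriv Z (t + (s:ℂ)) * B (t + (s:ℂ)))) +
      nx al Z t * (∫ s in (-al)..al, (X (t + (s:ℂ)) * Uf (yy al Z X t (s:ℂ))) * (2 * X (t + (s:ℂ))) *
        (deriv X (t + (s:ℂ)) * A (t + (s:ℂ)) - deriv Z (t + (s:ℂ)) * B (t + (s:ℂ)))) -
      et al Z X t * (∫ s in (-al)..al, Af (yy al Z X t (s:ℂ)) * (2 * X (t + (s:ℂ))) *
        (deriv X (t + (s:ℂ)) * A (t + (s:ℂ)) - deriv Z (t + (s:ℂ)) * B (t + (s:ℂ)))) = DS0 al Z X A B t := by
    rw [← intervalIntegral.integral_const_mul, ← intervalIntegral.integral_const_mul,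
      ← intervalIntegral.integral_const_mul, ← intervalIntegral.integral_add (hi2.const_mul _) (hi3.const_mul _),
      ← intervalIntegral.integral_sub ((hi2.const_mul _).add (hi3.const_mul _)) (hi1.const_mul _), DS0]
    refine e01_congr hal0.le fun s hs => ?_
    have hL := Lf_eq (y := yy al Z X t (s:ℂ)) (by linarith [hy2 s hs])
    rw [hL]
    linear_combination (-(Af (yy al Z X t (s:ℂ)) * (2 * X (t + (s:ℂ))) *
        (deriv X (t + (s:ℂ)) * A (t + (s:ℂ)) - deriv Z (t + (s:ℂ)) * B (t + (s:ℂ))))) * hyb s hs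
  have het : et al Z X t = nz al X t * md al Z t + nx al Z t * md al X t := rfl
  have hn0 : nz al X t * df al Z t + nx al Z t * df al X t = 0 := by
    simp only [nz, nx]
    ring
  rw [DS, ← hint, DPz, DPx, DV, cfp, cfp, cfm, cfm]
  linear_combination (-(aj al 0 Z X t + aj al 1 Z X t) * ndp al Z X A B t -
      (aj al 0 Z X t - aj al 1 Z X t) * ndm al Z X A B t) * (- het) +
    (-(aj al 1 Z X t + aj al 2 Z X t) * ndp al Z X A B t -
      (aj al 1 Z X t - aj al 2 Z X t) * ndm al Z X A B t) * hn0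

/-- analyticity in `w` on the whole disc where the curve stays close to the circle (`Fam`-type argument: parametric integrals of bounded
analytic functions), needed for Cauchy estimates -/
theorem line_analytic (R : ℝ) (hR : 1 < R) : ∃ c0 C : ℝ, 0 < c0 ∧ 1 ≤ C ∧ ∀ al ∈ JJ, ∀ a b : ℝ, 1 ≤ a → b ≤ R →
    ∀ Z X A B : ℂ → ℂ, ∀ T d : ℝ, 0 < T → DirBd d a b A B →
      (∀ w ∈ Metric.ball (0:ℂ) T, NB c0 a b (fun z => Z z + w * A z) (fun z => X z + w * B z)) → ∀ t ∈ band a b,
      DifferentiableOn ℂ (fun w : ℂ => Vf al (fun z => Z z + w * A z) (fun z => X z + w * B z) t) (Metric.ball 0 T) ∧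
      DifferentiableOn ℂ (fun w : ℂ => Sf al (fun z => Z z + w * A z) (fun z => X z + w * B z) t) (Metric.ball 0 T) ∧
      DifferentiableOn ℂ (fun w : ℂ => ell al (fun z => Z z + w * A z) (fun z => X z + w * B z) t) (Metric.ball 0 T) ∧
      DifferentiableOn ℂ (fun w : ℂ => Yf al (fun z => Z z + w * A z) (fun z => X z + w * B z) t) (Metric.ball 0 T) ∧
      (∀ w ∈ Metric.ball (0:ℂ) T, ‖Vf al (fun z => Z z + w * A z) (fun z => X z + w * B z) t‖ ≤ C ∧
        ‖Sf al (fun z => Z z + w * A z) (fun z => X z + w * B z) t‖ ≤ C ∧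
        ‖ell al (fun z => Z z + w * A z) (fun z => X z + w * B z) t‖ ≤ C ∧
        ‖Yf al (fun z => Z z + w * A z) (fun z => X z + w * B z) t‖ ≤ C ∧
        ‖et al (fun z => Z z + w * A z) (fun z => X z + w * B z) t‖ ≤ C) := by
  obtain ⟨c1, K, hc1, hK, H1⟩ := c01_bounds R hR
  obtain ⟨c2, hc2, H2⟩ := e01_yy R hR
  obtain ⟨c3, C3, hc3, hC3, H3⟩ := fam_functionals R hR
  obtain ⟨c4, C4, hc4, hC4, hCc4, H4⟩ := chord_bd R hR
  have hK0 : 0 ≤ K := by linarith
  refine ⟨min (min c1 c2) (min c3 c4), C3 + K + 1 + (35 * (2 * K) ^ 4 + 30 * (2 * K) ^ 2 + 3), by positivity, ?_, ?_⟩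
  · have : 0 ≤ 35 * (2 * K) ^ 4 + 30 * (2 * K) ^ 2 + 3 := by positivity
    linarith
  intro al hal a b ha hb Z X A B T d hT hd hN t ht
  change ∀ w ∈ Metric.ball (0:ℂ) T, NB _ a b (e01L Z A w) (e01L X B w) at hN
  change DifferentiableOn ℂ (fun w : ℂ => Vf al (e01L Z A w) (e01L X B w) t) (Metric.ball 0 T) ∧
      DifferentiableOn ℂ (fun w : ℂ => Sf al (e01L Z A w) (e01L X B w) t) (Metric.ball 0 T) ∧
      DifferentiableOn ℂ (fun w : ℂ => ell al (e01L Z A w) (e01L X B w) t) (Metric.ball 0 T) ∧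
      DifferentiableOn ℂ (fun w : ℂ => Yf al (e01L Z A w) (e01L X B w) t) (Metric.ball 0 T) ∧
      (∀ w ∈ Metric.ball (0:ℂ) T, ‖Vf al (e01L Z A w) (e01L X B w) t‖ ≤ _ ∧
        ‖Sf al (e01L Z A w) (e01L X B w) t‖ ≤ _ ∧
        ‖ell al (e01L Z A w) (e01L X B w) t‖ ≤ _ ∧
        ‖Yf al (e01L Z A w) (e01L X B w) t‖ ≤ _ ∧
        ‖et al (e01L Z A w) (e01L X B w) t‖ ≤ _)
  obtain ⟨hj1, hj2, hj3, hj4, hj5, hs1, hs2⟩ := JJ_bounds hal
  have hal0 : 0 < al := by linarith
  have hab : a < b := lt_trans ht.1 ht.2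
  have hN1 : ∀ w ∈ Metric.ball (0:ℂ) T, NB c1 a b (e01L Z A w) (e01L X B w) :=
    fun w hw => c01_NB_mono (hN w hw) ((min_le_left _ _).trans (min_le_left _ _))
  have hN2 : ∀ w ∈ Metric.ball (0:ℂ) T, NB c2 a b (e01L Z A w) (e01L X B w) :=
    fun w hw => c01_NB_mono (hN w hw) ((min_le_left _ _).trans (min_le_right _ _))
  have hN3 : ∀ w ∈ Metric.ball (0:ℂ) T, NB c3 a b (e01L Z A w) (e01L X B w) :=
    fun w hw => c01_NB_mono (hN w hw) ((min_le_right _ _).trans (min_le_left _ _))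
  have hN4 : ∀ w ∈ Metric.ball (0:ℂ) T, NB c4 a b (e01L Z A w) (e01L X B w) :=
    fun w hw => c01_NB_mono (hN w hw) ((min_le_right _ _).trans (min_le_right _ _))
  have hzero : (0:ℂ) ∈ Metric.ball (0:ℂ) T := Metric.mem_ball_self hT
  have hZ : DifferentiableOn ℂ Z (band a b) := by
    have := (hN 0 hzero).dZ
    rwa [e01L_zero] at this
  have hX : DifferentiableOn ℂ X (band a b) := by
    have := (hN 0 hzero).dX
    rwa [e01L_zero] at this
  have hmb : ∀ s : ℝ, t + (s:ℂ) ∈ band a b := fun s => add_real_mem_band ht s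
  have B1 := fun w hw => H1 al hal a b ha hb (e01L Z A w) (e01L X B w) (hN1 w hw) t ht
  have hcont := fun w (hw : w ∈ Metric.ball (0:ℂ) T) =>
    c01_cont (al := al) (hN w hw).dZ (hN w hw).dX ht (fun s hs => ⟨((B1 w hw).2.2.2.2.2 s hs).1, ((B1 w hw).2.2.2.2.2 s hs).2.2.2.2⟩)
  have dZ' : ∀ s : ℝ, Differentiable ℂ (fun w => - deriv (e01L Z A w) (t + (s:ℂ))) := by
    intro s
    have : (fun w => - deriv (e01L Z A w) (t + (s:ℂ))) = fun w => -(deriv Z (t + (s:ℂ)) + w * deriv A (t + (s:ℂ))) := by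
      funext w
      rw [e01L_deriv hZ hd.dA w (hmb s)]
    rw [this]
    fun_prop
  have dyy : ∀ s ∈ Ioo (-al) al, ∀ w ∈ Metric.ball (0:ℂ) T,
      DifferentiableAt ℂ (fun w => yy al (e01L Z A w) (e01L X B w) t (s:ℂ)) w :=
    fun s hs w hw => H2 al hal a b ha hb Z X A B _ hN2 t ht s hs w hw
  have dW : ∀ s ∈ Ioo (-al) al, ∀ w ∈ Metric.ball (0:ℂ) T,
      DifferentiableAt ℂ (fun w => Wf (yy al (e01L Z A w) (e01L X B w) t (s:ℂ))) w := by
    intro s hs w hw
    have h1 := ((B1 w hw).2.2.2.2.2 s hs).1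
    exact (hasDerivAt_Wf (by linarith)).differentiableAt.comp w (dyy s hs w hw)
  have dU : ∀ s ∈ Ioo (-al) al, ∀ w ∈ Metric.ball (0:ℂ) T,
      DifferentiableAt ℂ (fun w => Uf (yy al (e01L Z A w) (e01L X B w) t (s:ℂ))) w := by
    intro s hs w hw
    have h1 := ((B1 w hw).2.2.2.2.2 s hs).1
    exact (hasDerivAt_Uf (by linarith)).differentiableAt.comp w (dyy s hs w hw)
  have hV : DifferentiableOn ℂ (fun w : ℂ => Vf al (e01L Z A w) (e01L X B w) t) (Metric.ball 0 T) := by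
    refine e01_paramDiff Metric.isOpen_ball hal0 (M := K * K ^ 2 * K)
      (F := fun w s => c01V al (e01L Z A w) (e01L X B w) t s) ?_ ?_ (fun w hw => (hcont w hw).1)
    · intro s hs w hw
      exact (((dZ' s w).mul ((e01L_differentiable X B _ w).pow 2)).mul (dW s hs w hw)).differentiableWithinAt
    · intro w hw s hs
      obtain ⟨hb1, -, -, -, -, hb2⟩ := B1 w hw
      obtain ⟨hz, hx, hz'⟩ := hb1 s
      obtain ⟨-, hW, -⟩ := hb2 s hs
      unfold c01V
      rw [norm_mul, norm_mul, norm_neg, norm_pow]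
      gcongr
  have hPz : DifferentiableOn ℂ (fun w : ℂ => Pzf al (e01L Z A w) (e01L X B w) t) (Metric.ball 0 T) := by
    refine e01_paramDiff Metric.isOpen_ball hal0 (M := K * K * K ^ 2 * K)
      (F := fun w s => c01Z al (e01L Z A w) (e01L X B w) t s) ?_ ?_ (fun w hw => (hcont w hw).2.1)
    · intro s hs w hw
      exact ((((dZ' s w).mul (e01L_differentiable Z A _ w)).mul ((e01L_differentiable X B _ w).pow 2)).mul
        (dW s hs w hw)).differentiableWithinAt
    · intro w hw s hs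
      obtain ⟨hb1, -, -, -, -, hb2⟩ := B1 w hw
      obtain ⟨hz, hx, hz'⟩ := hb1 s
      obtain ⟨-, hW, -⟩ := hb2 s hs
      unfold c01Z
      rw [norm_mul, norm_mul, norm_mul, norm_neg, norm_pow]
      gcongr
  have hPx : DifferentiableOn ℂ (fun w : ℂ => Pxf al (e01L Z A w) (e01L X B w) t) (Metric.ball 0 T) := by
    refine e01_paramDiff Metric.isOpen_ball hal0 (M := 1 * K * (K * K) ^ 3)
      (F := fun w s => c01X al (e01L Z A w) (e01L X B w) t s) ?_ ?_ (fun w hw => (hcont w hw).2.2.1)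
    · intro s hs w hw
      have h1 := ((differentiableAt_const (c := (2/3:ℂ))).mul (dZ' s w)).mul
        (((e01L_differentiable X B (t + (s:ℂ)) w).mul (dU s hs w hw)).pow 3)
      exact h1.differentiableWithinAt
    · intro w hw s hs
      obtain ⟨hb1, -, -, -, -, hb2⟩ := B1 w hw
      obtain ⟨hz, hx, hz'⟩ := hb1 s
      obtain ⟨-, -, hU, -⟩ := hb2 s hs
      unfold c01X
      rw [norm_mul, norm_mul, norm_neg, norm_pow, norm_mul]
      have h23 : ‖(2/3 : ℂ)‖ ≤ 1 := by
        rw [norm_div]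
        norm_num
      gcongr
  have hS : DifferentiableOn ℂ (fun w : ℂ => Sf al (e01L Z A w) (e01L X B w) t) (Metric.ball 0 T) :=
    (((e01_nz_differentiable al X B t).differentiableOn.mul hPz).add
      ((e01_nx_differentiable al Z A t).differentiableOn.mul hPx)).sub
      ((e01_et_differentiable al Z X A B t).differentiableOn.mul hV)
  -- the plane
  have hch : ∀ w ∈ Metric.ball (0:ℂ) T,
      (nz al (e01L X B w) t) ^ 2 + (nx al (e01L Z A w) t) ^ 2 ∈ slitPlane ∧
      ‖ell al (e01L Z A w) (e01L X B w) t‖ ≤ 1 ∧ 1/2 ≤ ‖ell al (e01L Z A w) (e01L X B w) t‖ := by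
    intro w hw
    obtain ⟨hB, -, -⟩ := H4 al hal a b c4 ha hb hc4.le le_rfl _ _ (hN4 w hw) t ht
    have hsn : ‖(Real.sin al : ℂ)‖ = Real.sin al := by
      rw [norm_real, Real.norm_of_nonneg (by linarith)]
    refine ⟨?_, ?_, ?_⟩
    · rw [mem_slitPlane_iff]
      left
      have h1 := hB.l2.trans hCc4
      have h2 := (abs_le.1 ((Complex.abs_re_le_norm _).trans h1)).1
      have h3 : ((nz al (e01L X B w) t) ^ 2 + (nx al (e01L Z A w) t) ^ 2 - (Real.sin al : ℂ) ^ 2).re =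
          ((nz al (e01L X B w) t) ^ 2 + (nx al (e01L Z A w) t) ^ 2).re - Real.sin al ^ 2 := by
        rw [Complex.sub_re, ← Complex.ofReal_pow, Complex.ofReal_re]
      rw [h3] at h2
      nlinarith
    · have h1 := hB.ell.trans hCc4
      have h2 := norm_sub_norm_le (ell al (e01L Z A w) (e01L X B w) t) (Real.sin al : ℂ)
      rw [hsn] at h2
      linarith
    · have h1 := hB.ell.trans hCc4
      rw [norm_sub_rev] at h1
      have h2 := norm_sub_norm_le (Real.sin al : ℂ) (ell al (e01L Z A w) (e01L X B w) t)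
      rw [hsn] at h2
      linarith
  have hell : DifferentiableOn ℂ (fun w : ℂ => ell al (e01L Z A w) (e01L X B w) t) (Metric.ball 0 T) := by
    intro w hw
    have h1 : DifferentiableAt ℂ (fun w => (nz al (e01L X B w) t) ^ 2 + (nx al (e01L Z A w) t) ^ 2) w :=
      ((e01_nz_differentiable al X B t w).pow 2).add ((e01_nx_differentiable al Z A t w).pow 2)
    exact (h1.cpow_const (c := (1:ℂ)/2) (hch w hw).1).differentiableWithinAt
  have hell0 : ∀ w ∈ Metric.ball (0:ℂ) T, ell al (e01L Z A w) (e01L X B w) t ≠ 0 := by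
    intro w hw h0
    have := (hch w hw).2.2
    rw [h0, norm_zero] at this
    norm_num at this
  have hq : DifferentiableOn ℂ (fun w : ℂ => nz al (e01L X B w) t / ell al (e01L Z A w) (e01L X B w) t)
      (Metric.ball 0 T) := (e01_nz_differentiable al X B t).differentiableOn.div hell hell0
  have hY : DifferentiableOn ℂ (fun w : ℂ => Yf al (e01L Z A w) (e01L X B w) t) (Metric.ball 0 T) := by
    unfold Yf
    exact (hell.mul ((((hq.pow 4).const_mul 35).sub ((hq.pow 2).const_mul 30)).add_const 3)).div_const 8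
  refine ⟨hV, hS, hell, hY, fun w hw => ?_⟩
  have hF : FNB c3 a b (fun _ => e01L Z A w) (fun _ => e01L X B w) :=
    ⟨Fam.const (hN w hw).dZ, Fam.const (hN w hw).dX, fun _ => hN3 w hw⟩
  obtain ⟨-, -, -, -, -, hbd⟩ := H3 al hal a b ha hab hb _ _ hF
  obtain ⟨hbV, -, -, -, hbS⟩ := hbd 0 t ht
  obtain ⟨-, hnz, -, -, het, -⟩ := B1 w hw
  obtain ⟨-, hl1, hl2⟩ := hch w hw
  have hpos : 0 ≤ 35 * (2 * K) ^ 4 + 30 * (2 * K) ^ 2 + 3 := by positivity
  refine ⟨by linarith, by linarith, by linarith, ?_, by linarith⟩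
  have hqb : ‖nz al (e01L X B w) t / ell al (e01L Z A w) (e01L X B w) t‖ ≤ 2 * K := by
    rw [norm_div, div_le_iff₀ (by linarith)]
    nlinarith
  have hYb : ‖Yf al (e01L Z A w) (e01L X B w) t‖ ≤ 1 * (35 * (2 * K) ^ 4 + 30 * (2 * K) ^ 2 + 3) / 8 := by
    unfold Yf
    rw [norm_div, norm_mul, Complex.norm_ofNat]
    have h1 : ‖35 * (nz al (e01L X B w) t / ell al (e01L Z A w) (e01L X B w) t) ^ 4 -
        30 * (nz al (e01L X B w) t / ell al (e01L Z A w) (e01L X B w) t) ^ 2 + 3‖ ≤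
        35 * (2 * K) ^ 4 + 30 * (2 * K) ^ 2 + 3 := by
      refine (norm_add_le _ _).trans (add_le_add ((norm_sub_le _ _).trans (add_le_add ?_ ?_)) ?_)
      · rw [norm_mul, norm_pow, Complex.norm_ofNat]
        gcongr
      · rw [norm_mul, norm_pow, Complex.norm_ofNat]
        gcongr
      · rw [Complex.norm_ofNat]
    gcongr
  linarith

end FB
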