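import Pool.Agent.H48.FB.BDefs

/-! Definitions for the E, D, F, G modules. -/

open Complex Set MeasureTheory Filter Topology

noncomputable section

namespace FB

/-- `n . Gamma'_+` -/
def np (al : ℝ) (Z X : ℂ → ℂ) (t : ℂ) : ℂ :=
  nz al X t * deriv Z (t + (al:ℂ)) + nx al Z t * deriv X (t + (al:ℂ))
/-- `n . Gamma'_-` -/
def nm (al : ℝ) (Z X : ℂ → ℂ) (t : ℂ) : ℂ :=
  nz al X t * deriv Z (t - (al:ℂ)) + nx al Z t * deriv X (t - (al:ℂ))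

/-- coefficients of the moment formulas: `f = md + x df` integrated against `(1 + x)` and `(1 - x)` -/
def cfp (al : ℝ) (Z X f : ℂ → ℂ) (t : ℂ) : ℂ :=
  md al f t * (aj al 0 Z X t + aj al 1 Z X t) + df al f t * (aj al 1 Z X t + aj al 2 Z X t)
def cfm (al : ℝ) (Z X f : ℂ → ℂ) (t : ℂ) : ℂ :=
  md al f t * (aj al 0 Z X t - aj al 1 Z X t) + df al f t * (aj al 1 Z X t - aj al 2 Z X t)

/-- derivative of `Pzf` in the direction `(A, B)` -/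
def DPz (al : ℝ) (Z X A B : ℂ → ℂ) (t : ℂ) : ℂ :=
  (∫ s in (-al)..al, Af (yy al Z X t (s:ℂ)) * Z (t + (s:ℂ)) * (2 * X (t + (s:ℂ))) *
    (deriv X (t + (s:ℂ)) * A (t + (s:ℂ)) - deriv Z (t + (s:ℂ)) * B (t + (s:ℂ))))
  - cfp al Z X Z t * ndp al Z X A B t - cfm al Z X Z t * ndm al Z X A B t
/-- derivative of `Pxf` in the direction `(A, B)` -/
def DPx (al : ℝ) (Z X A B : ℂ → ℂ) (t : ℂ) : ℂ :=
  (∫ s in (-al)..al, (X (t + (s:ℂ)) * Uf (yy al Z X t (s:ℂ))) * (2 * X (t + (s:ℂ))) *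
    (deriv X (t + (s:ℂ)) * A (t + (s:ℂ)) - deriv Z (t + (s:ℂ)) * B (t + (s:ℂ))))
  - cfp al Z X X t * ndp al Z X A B t - cfm al Z X X t * ndm al Z X A B t

/-- data of the core variation lemma: `z w s, x w s` depend analytically on the complex parameter `w` (near `0`) and smoothly on the real
`s ∈ [-al, al]`; `zs = ∂z/∂s`, `xs = ∂x/∂s`; `(nz, nx, et)` is the plane; `y^2 nx x = nz z + nx x - et`, `y → 0` at `s = ± al` -/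
structure CoreData (al ε M : ℝ) (z x zs xs y : ℂ → ℝ → ℂ) (pz px pe : ℂ → ℂ) : Prop where
  hal : 0 < al
  he : 0 < ε
  hM : 1 ≤ M
  dz : ∀ s ∈ Icc (-al) al, DifferentiableOn ℂ (fun w => z w s) (Metric.ball 0 ε)
  dx : ∀ s ∈ Icc (-al) al, DifferentiableOn ℂ (fun w => x w s) (Metric.ball 0 ε)
  dzs : ∀ s ∈ Icc (-al) al, DifferentiableOn ℂ (fun w => zs w s) (Metric.ball 0 ε)
  dxs : ∀ s ∈ Icc (-al) al, DifferentiableOn ℂ (fun w => xs w s) (Metric.ball 0 ε)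
  sz : ∀ w ∈ Metric.ball (0:ℂ) ε, ∀ s ∈ Icc (-al) al, HasDerivAt (z w) (zs w s) s
  sx : ∀ w ∈ Metric.ball (0:ℂ) ε, ∀ s ∈ Icc (-al) al, HasDerivAt (x w) (xs w s) s
  cz : ∀ w ∈ Metric.ball (0:ℂ) ε, ContinuousOn (zs w) (Icc (-al) al)
  cx : ∀ w ∈ Metric.ball (0:ℂ) ε, ContinuousOn (xs w) (Icc (-al) al)
  mz : ∀ s ∈ Icc (-al) al, HasDerivAt (fun s' : ℝ => deriv (fun w => z w s') 0) (deriv (fun w => zs w s) 0) s
  mx : ∀ s ∈ Icc (-al) al, HasDerivAt (fun s' : ℝ => deriv (fun w => x w s') 0) (deriv (fun w => xs w s) 0) s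
  kz : ContinuousOn (fun s : ℝ => deriv (fun w => zs w s) 0) (Icc (-al) al)
  kx : ContinuousOn (fun s : ℝ => deriv (fun w => xs w s) 0) (Icc (-al) al)
  bd : ∀ w ∈ Metric.ball (0:ℂ) ε, ∀ s ∈ Icc (-al) al, ‖z w s‖ ≤ M ∧ ‖x w s‖ ≤ M ∧ ‖zs w s‖ ≤ M ∧ ‖xs w s‖ ≤ M ∧ 1 / M ≤ ‖x w s‖
  dn : DifferentiableOn ℂ pz (Metric.ball 0 ε) ∧ DifferentiableOn ℂ px (Metric.ball 0 ε) ∧ DifferentiableOn ℂ pe (Metric.ball 0 ε)
  bn : ∀ w ∈ Metric.ball (0:ℂ) ε, ‖pz w‖ ≤ M ∧ ‖px w‖ ≤ M ∧ ‖pe w‖ ≤ M ∧ 1 / M ≤ ‖px w‖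
  yN : ∀ w ∈ Metric.ball (0:ℂ) ε, ∀ s ∈ Ioo (-al) al, y w s ^ 2 * (px w * x w s) = pz w * z w s + px w * x w s - pe w
  y0 : ∀ w ∈ Metric.ball (0:ℂ) ε, ∀ s ∈ Ioo (-al) al, y w s ≠ 0 ∧ ‖y w s‖ ^ 2 ≤ 1/2
  dy : ∀ s ∈ Ioo (-al) al, DifferentiableOn ℂ (fun w => y w s) (Metric.ball 0 ε)
  cy : ∀ w ∈ Metric.ball (0:ℂ) ε, ContinuousOn (y w) (Ioo (-al) al)
  sy : ∀ s ∈ Ioo (-al) al, DifferentiableAt ℝ (y 0) s
  ty : Tendsto (y 0) (𝓝[>] (-al)) (𝓝 0) ∧ Tendsto (y 0) (𝓝[<] al) (𝓝 0)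

/-! ### partial derivatives of `Y(n) = |n| P_4(n_z/|n|)` -/

def P4 (x : ℂ) : ℂ := (35 * x ^ 4 - 30 * x ^ 2 + 3) / 8
def P4d (x : ℂ) : ℂ := (35 * x ^ 3 - 15 * x) / 2
def Yz (al : ℝ) (Z X : ℂ → ℂ) (t : ℂ) : ℂ :=
  (nz al X t / ell al Z X t) * P4 (nz al X t / ell al Z X t) +
    (1 - (nz al X t / ell al Z X t) ^ 2) * P4d (nz al X t / ell al Z X t)
def Yx (al : ℝ) (Z X : ℂ → ℂ) (t : ℂ) : ℂ :=
  (nx al Z t / ell al Z X t) * (P4 (nz al X t / ell al Z X t) - (nz al X t / ell al Z X t) * P4d (nz al X t / ell al Z X t))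
/-- the components of `e = P - M0 n/ell + mu grad Y` -/
def ezf (al : ℝ) (mu : ℂ) (Z X : ℂ → ℂ) (t : ℂ) : ℂ :=
  Pzf al Z X t - (M0 al : ℂ) * nz al X t / ell al Z X t + mu * Yz al Z X t
def exf (al : ℝ) (mu : ℂ) (Z X : ℂ → ℂ) (t : ℂ) : ℂ :=
  Pxf al Z X t - (M0 al : ℂ) * nx al Z t / ell al Z X t + mu * Yx al Z X t

/-! ### near the real axis -/

/-- `G(t, x) = F(z_m + x z_d) - (x_m + x x_d)^2` -/
def Gx (al : ℝ) (Z X F : ℂ → ℂ) (t x : ℂ) : ℂ :=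
  F (md al Z t + x * df al Z t) - (md al X t + x * df al X t) ^ 2
/-- moments of the water line section, near the real axis -/
def hj (al : ℝ) (j : ℕ) (Z X F : ℂ → ℂ) (t : ℂ) : ℂ :=
  ∫ x in (-1:ℝ)..1, (x:ℂ) ^ j * ((Real.sqrt (1 - x ^ 2) : ℝ) : ℂ) * (Gx al Z X F t (x:ℂ) / (1 - (x:ℂ) ^ 2)) ^ ((1:ℂ)/2)
/-- the profile function `F`, `X^2 = F(Z)` -/
structure FOk (c : ℝ) (Z X F : ℂ → ℂ) : Prop where
  d : DifferentiableOn ℂ F (Metric.ball 0 4)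
  n : ∀ z ∈ Metric.ball (0:ℂ) 4, ‖F z - (1 - z ^ 2)‖ ≤ c
  e : ∀ z ∈ Metric.ball (0:ℂ) 4, F (-z) = F z
  v : ∀ b ∈ strip 2, Z b ∈ Metric.ball (0:ℂ) 4 ∧ F (Z b) = X b ^ 2

/-! ### operators used in the Newton step -/

/-- derivative of the volume in the normal direction attached to `x` -/
def DVN (al : ℝ) (Z X u x : ℂ → ℂ) (t : ℂ) : ℂ :=
  DV al Z X (fun z => gN Z X u x z * deriv X z) (fun z => - (gN Z X u x z * deriv Z z)) t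
/-- the factor `B` of `tau_+ - tau_-` -/
def Bt (al : ℝ) (Z X : ℂ → ℂ) (t : ℂ) : ℂ :=
  (Real.sin al : ℂ) ^ 2 / 2 * ((aj al 0 Z X t + aj al 1 Z X t) * chip al Z X t + (aj al 0 Z X t - aj al 1 Z X t) * chim al Z X t)
/-- `int 𝒜 sin(t+s) f(t+s) ds` at the circle -/
def S0 (al : ℝ) (f : ℂ → ℂ) (t : ℂ) : ℂ :=
  ∫ s in (-al)..al, Af (kk al (s:ℂ) * q0 t (s:ℂ)) * sin (t + (s:ℂ)) * f (t + (s:ℂ))

end FB
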