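import Pool.Agent.H48.FB.E01
import Pool.Agent.H48.FB.B00
import Pool.Agent.H48.FB.D05

/-! F01: quadratic remainders. -/

open Complex Set MeasureTheory Filter Topology

noncomputable section

namespace FB

private lemma f01_NB_line {c c1 a b d s : ℝ} {Z X A B : ℂ → ℂ} (h : NB c a b Z X) (hd : DirBd d a b A B)
    {w : ℂ} (hw : ‖w‖ ≤ s) (hcc : c + s * d ≤ c1) :
    NB c1 a b (fun z => Z z + w * A z) (fun z => X z + w * B z) := by
  have hs0 : 0 ≤ s := (norm_nonneg w).trans hw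
  have key : ∀ {p q r : ℂ}, ‖p - q‖ ≤ c → ‖r‖ ≤ d → ‖p + w * r - q‖ ≤ c1 := by
    intro p q r h1 h2
    have e : p + w * r - q = (p - q) + w * r := by ring
    rw [e]
    refine (norm_add_le _ _).trans ?_
    rw [norm_mul]
    have := mul_le_mul hw h2 (norm_nonneg r) hs0
    linarith
  have hderiv : ∀ {f g : ℂ → ℂ}, DifferentiableOn ℂ f (band a b) → DifferentiableOn ℂ g (band a b) →
      ∀ z ∈ band a b, deriv (fun z => f z + w * g z) z = deriv f z + w * deriv g z := by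
    intro f g hf hg z hz
    have h1 := (hf.differentiableAt ((isOpen_band a b).mem_nhds hz)).hasDerivAt
    have h2 := (hg.differentiableAt ((isOpen_band a b).mem_nhds hz)).hasDerivAt
    exact (h1.add (h2.const_mul w)).deriv
  refine ⟨h.dZ.add (hd.dA.const_mul w), h.dX.add (hd.dB.const_mul w), ?_, ?_, ?_, ?_⟩
  · exact fun z hz => key (h.z0 z hz) (hd.a0 z hz)
  · exact fun z hz => key (h.x0 z hz) (hd.b0 z hz)
  · intro z hz
    rw [hderiv h.dZ hd.dA z hz]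
    have := key (p := deriv Z z) (q := - sin z) (r := deriv A z) (by rw [sub_neg_eq_add]; exact h.z1 z hz) (hd.a1 z hz)
    rwa [sub_neg_eq_add] at this
  · intro z hz
    rw [hderiv h.dX hd.dB z hz]
    exact key (h.x1 z hz) (hd.b1 z hz)

private lemma f01_df_bd {d a b al : ℝ} {A : ℂ → ℂ} (h : ∀ z ∈ band a b, ‖A z‖ ≤ d) {t : ℂ} (ht : t ∈ band a b) :
    ‖df al A t‖ ≤ d ∧ ‖md al A t‖ ≤ d := by
  have h1 := h _ (add_real_mem_band ht al)
  have h2 := h _ (sub_real_mem_band ht al)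
  unfold df md
  rw [norm_div, norm_div]
  have h3 : ‖(2:ℂ)‖ = 2 := by norm_num
  rw [h3]
  have h4 := norm_sub_le (A (t + (al:ℂ))) (A (t - (al:ℂ)))
  have h5 := norm_add_le (A (t + (al:ℂ))) (A (t - (al:ℂ)))
  constructor <;> linarith

private lemma f01_et (al : ℝ) (Z X A B : ℂ → ℂ) (t : ℂ) :
    et al (fun z => Z z + A z) (fun z => X z + B z) t - et al Z X t - Det al Z X A B t =
      df al B t * md al A t - df al A t * md al B t := by
  unfold et Det nz nx df md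
  ring

private lemma f01_nz (al : ℝ) (X B : ℂ → ℂ) (w t : ℂ) :
    nz al (fun z => X z + w * B z) t = nz al X t + w * df al B t := by
  unfold nz df
  ring

private lemma f01_nx (al : ℝ) (Z A : ℂ → ℂ) (w t : ℂ) :
    nx al (fun z => Z z + w * A z) t = nx al Z t - w * df al A t := by
  unfold nx df
  ring

private lemma f01_slit {s p : ℂ} {σ : ℝ} (hs : s = (σ:ℂ) ^ 2) (hσ : 0.8 ≤ σ ^ 2) (h : ‖p - s‖ ≤ 1 / 100) :
    p ∈ slitPlane := by
  left
  have h1 := (abs_le.1 ((abs_re_le_norm (p - s)).trans h)).1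
  rw [sub_re, hs, ← ofReal_pow, ofReal_re] at h1
  linarith

private lemma f01_ell_deriv {al : ℝ} {Z X A B : ℂ → ℂ} {t : ℂ} (h : (nz al X t) ^ 2 + (nx al Z t) ^ 2 ∈ slitPlane) :
    HasDerivAt (fun w : ℂ => ell al (fun z => Z z + w * A z) (fun z => X z + w * B z) t)
      ((nz al X t * df al B t - nx al Z t * df al A t) / ell al Z X t) 0 := by
  have e : (fun w : ℂ => ell al (fun z => Z z + w * A z) (fun z => X z + w * B z) t) =
      fun w => ((nz al X t + w * df al B t) ^ 2 + (nx al Z t - w * df al A t) ^ 2) ^ ((1:ℂ)/2) := by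
    funext w
    unfold ell
    rw [f01_nz, f01_nx]
  rw [e]
  have h1 : HasDerivAt (fun w : ℂ => (nz al X t + w * df al B t) ^ 2 + (nx al Z t - w * df al A t) ^ 2)
      (2 * (nz al X t * df al B t - nx al Z t * df al A t)) 0 := by
    have ha : HasDerivAt (fun w : ℂ => nz al X t + w * df al B t) (df al B t) 0 := by
      simpa using ((hasDerivAt_id (0:ℂ)).mul_const (df al B t)).const_add (nz al X t)
    have hb : HasDerivAt (fun w : ℂ => nx al Z t - w * df al A t) (- df al A t) 0 := by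
      simpa using ((hasDerivAt_id (0:ℂ)).mul_const (df al A t)).const_sub (nx al Z t)
    refine ((ha.pow 2).add (hb.pow 2)).congr_deriv ?_
    simp
    ring
  have h2 := h1.cpow_const (c := (1:ℂ)/2) (by simpa using h)
  refine h2.congr_deriv ?_
  simp only [zero_mul, add_zero, sub_zero]
  have hne : (nz al X t) ^ 2 + (nx al Z t) ^ 2 ≠ 0 := slitPlane_ne_zero h
  have h3 : ((nz al X t) ^ 2 + (nx al Z t) ^ 2) ^ ((1:ℂ)/2 - 1) = (ell al Z X t)⁻¹ := by
    unfold ell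
    rw [← cpow_neg]
    norm_num
  rw [h3]
  field_simp

private lemma f01_Yf_deriv {al : ℝ} {Z X A B : ℂ → ℂ} {t : ℂ} (h : (nz al X t) ^ 2 + (nx al Z t) ^ 2 ∈ slitPlane)
    (hell : ell al Z X t ^ 2 = (nz al X t) ^ 2 + (nx al Z t) ^ 2) :
    HasDerivAt (fun w : ℂ => Yf al (fun z => Z z + w * A z) (fun z => X z + w * B z) t)
      (Yz al Z X t * df al B t - Yx al Z X t * df al A t) 0 := by
  have hne : (nz al X t) ^ 2 + (nx al Z t) ^ 2 ≠ 0 := slitPlane_ne_zero h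
  have hL : ell al Z X t ≠ 0 := by
    intro h0
    rw [h0] at hell
    exact hne (by rw [← hell]; ring)
  have h1 := f01_ell_deriv (A := A) (B := B) h
  have e0 : ell al (fun z => Z z + 0 * A z) (fun z => X z + 0 * B z) t = ell al Z X t := by
    simp only [zero_mul, add_zero]
  have ha : HasDerivAt (fun w : ℂ => nz al (fun z => X z + w * B z) t) (df al B t) 0 := by
    have e : (fun w : ℂ => nz al (fun z => X z + w * B z) t) = fun w => nz al X t + w * df al B t := by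
      funext w; rw [f01_nz]
    rw [e]
    simpa using ((hasDerivAt_id (0:ℂ)).mul_const (df al B t)).const_add (nz al X t)
  have hn0 : nz al (fun z => X z + 0 * B z) t = nz al X t := by
    simp only [zero_mul, add_zero]
  have hq := ha.div h1 (by rw [e0]; exact hL)
  have hfin := (h1.mul ((((hq.pow 4).const_mul 35).sub ((hq.pow 2).const_mul 30)).add_const 3)).div_const 8
  refine (hfin.congr_of_eventuallyEq (Eventually.of_forall fun w => ?_)).congr_deriv ?_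
  · simp only [Yf, Pi.div_apply, Pi.pow_apply, Pi.mul_apply, Pi.sub_apply]
  · simp only [Pi.div_apply, Pi.pow_apply, Pi.sub_apply, e0, hn0]
    unfold Yz Yx P4 P4d
    generalize ell al Z X t = L at *
    generalize nz al X t = n at *
    generalize nx al Z t = m at *
    generalize df al B t = p at *
    generalize df al A t = q at *
    simp only [show (4:ℕ) - 1 = 3 from rfl, show (2:ℕ) - 1 = 1 from rfl, Nat.cast_ofNat, pow_one]
    field_simp
    ring

private lemma f01_taylor {g : ℂ → ℂ} {T C d c1 : ℝ} {g0 g1 g' : ℂ} (hc1 : 0 < c1) (hd : 0 < d) (hdc : d ≤ c1 / 4)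
    (hT : T = c1 / (2 * d)) (hg : DifferentiableOn ℂ g (Metric.ball 0 T))
    (hC : ∀ z ∈ Metric.ball (0:ℂ) T, ‖g z‖ ≤ C) (h0 : g 0 = g0) (h1 : g 1 = g1) (h' : HasDerivAt g g' 0) :
    ‖g1 - g0 - g'‖ ≤ 64 * C / c1 ^ 2 * d ^ 2 := by
  have hT2 : 2 ≤ T := by
    rw [hT, le_div_iff₀ (by positivity)]
    linarith
  have := taylor_two hT2 hg hC
  rw [h0, h1, h'.deriv] at this
  refine this.trans (le_of_eq ?_)
  rw [hT]
  field_simp
  norm_num
  ring

private lemma f01_Y_bd {u v : ℂ} {G : ℝ} (hG : 1 ≤ G) (hu : ‖u‖ ≤ G) (hv : ‖v‖ ≤ G) :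
    ‖u * P4 u + (1 - u ^ 2) * P4d u‖ ≤ 59 * G ^ 5 ∧ ‖v * (P4 u - u * P4d u)‖ ≤ 59 * G ^ 5 := by
  have hu0 := norm_nonneg u
  have hu2 : ‖u ^ 2‖ ≤ G ^ 2 := by rw [norm_pow]; exact pow_le_pow_left₀ hu0 hu 2
  have hu3 : ‖u ^ 3‖ ≤ G ^ 3 := by rw [norm_pow]; exact pow_le_pow_left₀ hu0 hu 3
  have hu4 : ‖u ^ 4‖ ≤ G ^ 4 := by rw [norm_pow]; exact pow_le_pow_left₀ hu0 hu 4
  have g2 : G ≤ G ^ 2 := by nlinarith
  have g3 : G ^ 2 ≤ G ^ 3 := pow_le_pow_right₀ hG (by norm_num)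
  have g4 : G ^ 3 ≤ G ^ 4 := pow_le_pow_right₀ hG (by norm_num)
  have hP : ‖P4 u‖ ≤ 9 * G ^ 4 := by
    unfold P4
    rw [norm_div]
    have h8 : ‖(8:ℂ)‖ = 8 := by norm_num
    rw [h8, div_le_iff₀ (by norm_num)]
    have e : ‖35 * u ^ 4 - 30 * u ^ 2 + 3‖ ≤ 35 * ‖u ^ 4‖ + 30 * ‖u ^ 2‖ + 3 := by
      refine (norm_add_le _ _).trans ?_
      have e3 : ‖(3:ℂ)‖ = 3 := by norm_num
      rw [e3]
      refine add_le_add ((norm_sub_le _ _).trans (le_of_eq ?_)) le_rfl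
      rw [norm_mul, norm_mul]
      norm_num
    linarith
  have hPd : ‖P4d u‖ ≤ 25 * G ^ 3 := by
    unfold P4d
    rw [norm_div]
    have h8 : ‖(2:ℂ)‖ = 2 := by norm_num
    rw [h8, div_le_iff₀ (by norm_num)]
    have e : ‖35 * u ^ 3 - 15 * u‖ ≤ 35 * ‖u ^ 3‖ + 15 * ‖u‖ := by
      refine (norm_sub_le _ _).trans (le_of_eq ?_)
      rw [norm_mul, norm_mul]
      norm_num
    linarith
  have h1u : ‖1 - u ^ 2‖ ≤ 2 * G ^ 2 := by
    refine (norm_sub_le _ _).trans ?_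
    rw [norm_one]
    linarith
  constructor
  · refine (norm_add_le _ _).trans ?_
    rw [norm_mul, norm_mul]
    have e1 := mul_le_mul hu hP (norm_nonneg _) (by positivity)
    have e2 := mul_le_mul h1u hPd (norm_nonneg _) (by positivity)
    refine (add_le_add e1 e2).trans (le_of_eq ?_)
    ring
  · rw [norm_mul]
    have e3 : ‖P4 u - u * P4d u‖ ≤ 34 * G ^ 4 := by
      refine (norm_sub_le _ _).trans ?_
      rw [norm_mul]
      have e2 := mul_le_mul hu hPd (norm_nonneg _) (by positivity)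
      have e4 : G * (25 * G ^ 3) = 25 * G ^ 4 := by ring
      linarith
    have e1 := mul_le_mul hv e3 (norm_nonneg _) (by positivity)
    have e4 : G * (34 * G ^ 4) = 34 * G ^ 5 := by ring
    have e5 : (0:ℝ) ≤ G ^ 5 := by positivity
    linarith

private lemma f01_fam {U : Set ℂ} {f : ℂ → ℂ} (h : DifferentiableOn ℂ f U) : Fam U (fun _ => f) where
  cont := h.continuousOn.comp continuousOn_snd (fun _ hp => hp.2)
  diff := fun _ => h

private lemma f01_pos (R : ℝ) (hR : 1 < R) : ∃ c0 C : ℝ, 0 < c0 ∧ 1 ≤ C ∧ ∀ al ∈ JJ, ∀ a b : ℝ, 1 ≤ a → b ≤ R →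
    ∀ Z X : ℂ → ℂ, NB c0 a b Z X → ∀ d : ℝ, 0 < d → d ≤ c0 → ∀ A B : ℂ → ℂ, DirBd d a b A B → ∀ t ∈ band a b,
      ‖Vf al (fun z => Z z + A z) (fun z => X z + B z) t - Vf al Z X t - DV al Z X A B t‖ ≤ C * d ^ 2 ∧
      ‖Sf al (fun z => Z z + A z) (fun z => X z + B z) t - Sf al Z X t - DS al Z X A B t‖ ≤ C * d ^ 2 ∧
      ‖et al (fun z => Z z + A z) (fun z => X z + B z) t - et al Z X t - Det al Z X A B t‖ ≤ C * d ^ 2 ∧
      ‖ell al (fun z => Z z + A z) (fun z => X z + B z) t - ell al Z X t -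
        (nz al X t * df al B t - nx al Z t * df al A t) / ell al Z X t‖ ≤ C * d ^ 2 ∧
      ‖Yf al (fun z => Z z + A z) (fun z => X z + B z) t - Yf al Z X t -
        (Yz al Z X t * df al B t - Yx al Z X t * df al A t)‖ ≤ C * d ^ 2 ∧
      ‖DV al Z X A B t‖ ≤ C * d ∧ ‖DS al Z X A B t‖ ≤ C * d ∧ ‖DS0 al Z X A B t‖ ≤ C * d ∧ ‖Det al Z X A B t‖ ≤ C * d ∧
      ‖df al A t‖ ≤ C * d ∧ ‖df al B t‖ ≤ C * d ∧ ‖Yz al Z X t‖ ≤ C ∧ ‖Yx al Z X t‖ ≤ C ∧ ‖Yf al Z X t‖ ≤ C ∧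
      ‖et al Z X t‖ ≤ C := by
  obtain ⟨c1, C1, hc1, hC1, HA⟩ := line_analytic R hR
  obtain ⟨c2, hc2, HD⟩ := line_deriv R hR
  obtain ⟨c3, C3, hc3, hC3, HV⟩ := fam_variation R hR
  obtain ⟨c4, C4, hc4, hC4, hCc4, HB⟩ := chord_bd R hR
  set G := 2 * (Real.exp R + 1) with hG
  have hG1 : 1 ≤ G := by
    have := Real.exp_pos R
    linarith
  set C := 64 * C1 / c1 ^ 2 + C3 + C1 + 59 * G ^ 5 + 2 with hC
  have hq : 0 < 64 * C1 / c1 ^ 2 := by positivity
  have hG5 : 0 < 59 * G ^ 5 := by positivity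
  refine ⟨min (min (c1 / 4) c2) (min c3 c4), C, by positivity, by linarith, ?_⟩
  intro al hal a b ha hb Z X hNB d hd0 hdc A B hAB t ht
  have hab : a < b := ht.1.trans ht.2
  have hdc1 : d ≤ c1 / 4 := hdc.trans ((min_le_left _ _).trans (min_le_left _ _))
  have hm1 : min (min (c1 / 4) c2) (min c3 c4) ≤ c1 / 4 := (min_le_left _ _).trans (min_le_left _ _)
  have hNB2 : NB c2 a b Z X := hNB.mono ((min_le_left _ _).trans (min_le_right _ _)) le_rfl le_rfl
  have hNB3 : NB c3 a b Z X := hNB.mono ((min_le_right _ _).trans (min_le_left _ _)) le_rfl le_rfl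
  have hNB4 : NB c4 a b Z X := hNB.mono ((min_le_right _ _).trans (min_le_right _ _)) le_rfl le_rfl
  set T := c1 / (2 * d) with hT
  have hT0 : 0 < T := by positivity
  have hT2 : 2 ≤ T := by
    rw [hT, le_div_iff₀ (by positivity)]
    linarith
  have hTd : T * d = c1 / 2 := by rw [hT]; field_simp
  have hline : ∀ w ∈ Metric.ball (0:ℂ) T, NB c1 a b (fun z => Z z + w * A z) (fun z => X z + w * B z) := by
    intro w hw
    rw [Metric.mem_ball, dist_zero_right] at hw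
    exact f01_NB_line hNB hAB hw.le (by rw [hTd]; linarith)
  obtain ⟨hV, hS, hL, hY, hbd⟩ := HA al hal a b ha hb Z X A B T d hT0 hAB hline t ht
  obtain ⟨dV, -, -, dS⟩ := HD al hal a b ha hb Z X hNB2 A B d hAB t ht
  obtain ⟨-, -, -, hvar⟩ := HV al hal a b ha hab hb (fun _ => Z) (fun _ => X)
    ⟨f01_fam hNB3.dZ, f01_fam hNB3.dX, fun _ => hNB3⟩ (fun _ => A) (fun _ => B) (f01_fam hAB.dA) (f01_fam hAB.dB) d
    (fun _ z hz => ⟨hAB.a0 z hz, hAB.b0 z hz⟩)
  obtain ⟨v1, v2, v3, v4⟩ := hvar ⟨0, by norm_num, by norm_num⟩ t ht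
  have hch := (HB al hal a b c4 ha hb hc4.le le_rfl Z X hNB4 t ht).1
  obtain ⟨hJ1, hJ2, -, -, -, hJ5, hJ6⟩ := JJ_bounds hal
  have hp : (nz al X t) ^ 2 + (nx al Z t) ^ 2 ∈ slitPlane :=
    f01_slit (s := (Real.sin al : ℂ) ^ 2) rfl (by nlinarith) (hch.l2.trans hCc4)
  have hell2 : ell al Z X t ^ 2 = (nz al X t) ^ 2 + (nx al Z t) ^ 2 := by
    unfold ell
    exact b01_sqrt_sq _
  have hAd := f01_df_bd (al := al) hAB.a0 ht
  have hBd := f01_df_bd (al := al) hAB.b0 ht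
  have hz0 : (fun z => Z z + 0 * A z) = Z := by funext z; ring
  have hx0 : (fun z => X z + 0 * B z) = X := by funext z; ring
  have hz1 : (fun z => Z z + 1 * A z) = fun z => Z z + A z := by funext z; ring
  have hx1 : (fun z => X z + 1 * B z) = fun z => X z + B z := by funext z; ring
  have hCle : 64 * C1 / c1 ^ 2 ≤ C := by linarith
  have hCle3 : C3 ≤ C := by linarith
  have h0T : (0:ℂ) ∈ Metric.ball (0:ℂ) T := Metric.mem_ball_self hT0
  obtain ⟨b1, b2, b3, b4, b5⟩ := hbd 0 h0T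
  rw [hz0, hx0] at b4 b5
  -- chord bounds
  have hE := b01_bound_E (R := R) hR (a := a) (b := b) (by linarith) hb t ht
  have hnzb : ‖nz al X t‖ ≤ Real.exp R + 1 := by
    have e1 : nz al X t = (nz al X t - (Real.sin al : ℂ) * cos t) + (Real.sin al : ℂ) * cos t := by ring
    rw [e1]
    refine (norm_add_le _ _).trans ?_
    have e2 := hch.nz.trans hCc4
    have e3 := b01_real_mul (x := Real.sin al) (Real.abs_sin_le_one al) hE.1
    linarith
  have hnxb : ‖nx al Z t‖ ≤ Real.exp R + 1 := by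
    have e1 : nx al Z t = (nx al Z t - (Real.sin al : ℂ) * sin t) + (Real.sin al : ℂ) * sin t := by ring
    rw [e1]
    refine (norm_add_le _ _).trans ?_
    have e2 := hch.nx.trans hCc4
    have e3 := b01_real_mul (x := Real.sin al) (Real.abs_sin_le_one al) hE.2
    linarith
  have hellb : 1 / 2 ≤ ‖ell al Z X t‖ := by
    have e1 := hch.ell.trans hCc4
    have e2 := norm_sub_norm_le ((Real.sin al : ℂ)) (ell al Z X t)
    rw [norm_sub_rev] at e1
    have e3 : ‖(Real.sin al : ℂ)‖ = Real.sin al := by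
      rw [norm_real, Real.norm_eq_abs, abs_of_pos (by linarith)]
    rw [e3] at e2
    linarith
  have hel0 : 0 < ‖ell al Z X t‖ := by linarith
  have hub : ‖nz al X t / ell al Z X t‖ ≤ G := by
    rw [norm_div, div_le_iff₀ hel0, hG]
    have := Real.exp_pos R
    nlinarith
  have hvb : ‖nx al Z t / ell al Z X t‖ ≤ G := by
    rw [norm_div, div_le_iff₀ hel0, hG]
    have := Real.exp_pos R
    nlinarith
  obtain ⟨hY1, hY2⟩ := f01_Y_bd hG1 hub hvb
  refine ⟨?_, ?_, ?_, ?_, ?_, v1.trans ?_, v3.trans ?_, v2.trans ?_, v4.trans ?_, hAd.1.trans ?_, hBd.1.trans ?_,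
    ?_, ?_, ?_, ?_⟩
  · refine (f01_taylor hc1 hd0 hdc1 hT hV (fun w hw => (hbd w hw).1) (by simp only [hz0, hx0])
      (by simp only [hz1, hx1]) dV).trans ?_
    exact mul_le_mul_of_nonneg_right hCle (by positivity)
  · refine (f01_taylor hc1 hd0 hdc1 hT hS (fun w hw => (hbd w hw).2.1) (by simp only [hz0, hx0])
      (by simp only [hz1, hx1]) dS).trans ?_
    exact mul_le_mul_of_nonneg_right hCle (by positivity)
  · rw [f01_et]
    refine (norm_sub_le _ _).trans ?_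
    rw [norm_mul, norm_mul]
    have e1 := mul_le_mul hBd.1 hAd.2 (norm_nonneg _) hd0.le
    have e2 := mul_le_mul hAd.1 hBd.2 (norm_nonneg _) hd0.le
    have e3 : (2:ℝ) * d ^ 2 ≤ C * d ^ 2 := mul_le_mul_of_nonneg_right (by linarith) (by positivity)
    nlinarith
  · refine (f01_taylor hc1 hd0 hdc1 hT hL (fun w hw => (hbd w hw).2.2.1) (by simp only [hz0, hx0])
      (by simp only [hz1, hx1]) (f01_ell_deriv hp)).trans ?_
    exact mul_le_mul_of_nonneg_right hCle (by positivity)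
  · refine (f01_taylor hc1 hd0 hdc1 hT hY (fun w hw => (hbd w hw).2.2.2.1) (by simp only [hz0, hx0])
      (by simp only [hz1, hx1]) (f01_Yf_deriv hp hell2)).trans ?_
    exact mul_le_mul_of_nonneg_right hCle (by positivity)
  · exact mul_le_mul_of_nonneg_right hCle3 hd0.le
  · exact mul_le_mul_of_nonneg_right hCle3 hd0.le
  · exact mul_le_mul_of_nonneg_right hCle3 hd0.le
  · exact mul_le_mul_of_nonneg_right hCle3 hd0.le
  · nlinarith
  · nlinarith
  · exact hY1.trans (by linarith)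
  · exact hY2.trans (by linarith)
  · exact b4.trans (by linarith)
  · exact b5.trans (by linarith)

private lemma f01_lim {x C c0 : ℝ} (hc0 : 0 < c0) (h : ∀ d : ℝ, 0 < d → d ≤ c0 → x ≤ C * d) : x ≤ 0 := by
  have h1 : Tendsto (fun d : ℝ => C * d) (𝓝[>] 0) (𝓝 0) := by
    have : Tendsto (fun d : ℝ => C * d) (𝓝 0) (𝓝 (C * 0)) := (continuous_const.mul continuous_id).tendsto 0
    rw [mul_zero] at this
    exact this.mono_left nhdsWithin_le_nhds
  refine ge_of_tendsto h1 ?_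
  filter_upwards [Ioc_mem_nhdsGT hc0] with d hd
  exact h d hd.1 hd.2

private lemma f01_lim2 {x C c0 : ℝ} (hc0 : 0 < c0) (hC : 0 ≤ C) (h : ∀ d : ℝ, 0 < d → d ≤ c0 → x ≤ C * d ^ 2) : x ≤ 0 := by
  refine f01_lim (C := C * c0) hc0 ?_
  intro d hd hdc
  refine (h d hd hdc).trans ?_
  nlinarith [mul_nonneg hC hd.le, mul_nonneg (mul_nonneg hC hd.le) (sub_nonneg.2 hdc)]

/-- `taylor_two` in the variable `w` for `g(w) = Vf (Z + w A) (X + w B) t` on `|w| < T = c0/d` (`line_analytic`: bounded by `C`), `g' (0) = DV`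
(`line_deriv`): remainder `≤ 16 C/T^2 = C' d^2`. Same for the others (`ell = ((..)^2 + (..)^2)^{1/2}`, chain rule for its derivative;
`et` is quadratic). The case `d = 0` is trivial (`A = B = 0` on the band; note that `deriv A` etc. vanish there). -/
theorem quad (R : ℝ) (hR : 1 < R) : ∃ c0 C : ℝ, 0 < c0 ∧ 1 ≤ C ∧ ∀ al ∈ JJ, ∀ a b : ℝ, 1 ≤ a → b ≤ R →
    ∀ Z X : ℂ → ℂ, NB c0 a b Z X → ∀ d : ℝ, 0 ≤ d → d ≤ c0 → ∀ A B : ℂ → ℂ, DirBd d a b A B → ∀ t ∈ band a b,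
      ‖Vf al (fun z => Z z + A z) (fun z => X z + B z) t - Vf al Z X t - DV al Z X A B t‖ ≤ C * d ^ 2 ∧
      ‖Sf al (fun z => Z z + A z) (fun z => X z + B z) t - Sf al Z X t - DS al Z X A B t‖ ≤ C * d ^ 2 ∧
      ‖et al (fun z => Z z + A z) (fun z => X z + B z) t - et al Z X t - Det al Z X A B t‖ ≤ C * d ^ 2 ∧
      ‖ell al (fun z => Z z + A z) (fun z => X z + B z) t - ell al Z X t -
        (nz al X t * df al B t - nx al Z t * df al A t) / ell al Z X t‖ ≤ C * d ^ 2 ∧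
      ‖Yf al (fun z => Z z + A z) (fun z => X z + B z) t - Yf al Z X t -
        (Yz al Z X t * df al B t - Yx al Z X t * df al A t)‖ ≤ C * d ^ 2 ∧
      ‖DV al Z X A B t‖ ≤ C * d ∧ ‖DS al Z X A B t‖ ≤ C * d ∧ ‖DS0 al Z X A B t‖ ≤ C * d ∧ ‖Det al Z X A B t‖ ≤ C * d ∧
      ‖df al A t‖ ≤ C * d ∧ ‖df al B t‖ ≤ C * d ∧ ‖Yz al Z X t‖ ≤ C ∧ ‖Yx al Z X t‖ ≤ C ∧ ‖Yf al Z X t‖ ≤ C ∧
      ‖et al Z X t‖ ≤ C := by
  obtain ⟨c0, C, hc0, hC, H⟩ := f01_pos R hR
  refine ⟨c0, C, hc0, hC, ?_⟩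
  intro al hal a b ha hb Z X hNB d hd0 hdc A B hAB t ht
  rcases hd0.eq_or_lt with h0 | h0
  · subst h0
    have H' := fun (d : ℝ) (hd : 0 < d) (hdc : d ≤ c0) =>
      H al hal a b ha hb Z X hNB d hd hdc A B (hAB.mono hd.le le_rfl le_rfl) t ht
    have hC0 : 0 ≤ C := by linarith
    have e2 : C * (0:ℝ) ^ 2 = 0 := by ring
    have e1 : C * (0:ℝ) = 0 := mul_zero C
    rw [e2, e1]
    obtain ⟨-, -, -, -, -, -, -, -, -, -, -, k1, k2, k3, k4⟩ := H' c0 hc0 le_rfl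
    exact ⟨f01_lim2 hc0 hC0 fun d hd hdc => (H' d hd hdc).1,
      f01_lim2 hc0 hC0 fun d hd hdc => (H' d hd hdc).2.1,
      f01_lim2 hc0 hC0 fun d hd hdc => (H' d hd hdc).2.2.1,
      f01_lim2 hc0 hC0 fun d hd hdc => (H' d hd hdc).2.2.2.1,
      f01_lim2 hc0 hC0 fun d hd hdc => (H' d hd hdc).2.2.2.2.1,
      f01_lim hc0 fun d hd hdc => (H' d hd hdc).2.2.2.2.2.1,
      f01_lim hc0 fun d hd hdc => (H' d hd hdc).2.2.2.2.2.2.1,
      f01_lim hc0 fun d hd hdc => (H' d hd hdc).2.2.2.2.2.2.2.1,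
      f01_lim hc0 fun d hd hdc => (H' d hd hdc).2.2.2.2.2.2.2.2.1,
      f01_lim hc0 fun d hd hdc => (H' d hd hdc).2.2.2.2.2.2.2.2.2.1,
      f01_lim hc0 fun d hd hdc => (H' d hd hdc).2.2.2.2.2.2.2.2.2.2.1,
      k1, k2, k3, k4⟩
  · exact H al hal a b ha hb Z X hNB d h0 hdc A B hAB t ht

end FB
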