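import Pool.Agent.H48.FB.F01

/-! F02: linearisation of the first equation. -/

open Complex Set MeasureTheory Filter Topology

noncomputable section

namespace FB

theorem F02_M0 (al : ℝ) : ‖(M0 al : ℂ)‖ ≤ 1 := by
  rw [Complex.norm_real, Real.norm_eq_abs]
  unfold M0
  rw [abs_mul, abs_of_pos (by positivity : (0:ℝ) < Real.pi / 4), abs_pow]
  have h1 : |Real.sin al| ^ 4 ≤ 1 := pow_le_one₀ (abs_nonneg _) (Real.abs_sin_le_one al)
  have h2 : 0 ≤ |Real.sin al| ^ 4 := by positivity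
  have h3 := Real.pi_lt_four
  have h4 := Real.pi_pos
  nlinarith

/-- Add up `quad`: `DS = DS0 + df B Pz - df A Px - Det V`, and
`SS' - SS = DS0 + v et + m Y + [df B * ez - df A * ex - Det (V - V0)] + O((d+|v|+|m|)^2)`. -/
theorem SS_lin (R : ℝ) (hR : 1 < R) : ∃ c0 C : ℝ, 0 < c0 ∧ 1 ≤ C ∧ ∀ al ∈ JJ, ∀ a b : ℝ, 1 ≤ a → b ≤ R →
    ∀ Z X : ℂ → ℂ, NB c0 a b Z X → ∀ d : ℝ, 0 ≤ d → d ≤ c0 → ∀ A B : ℂ → ℂ, DirBd d a b A B →
    ∀ V0 mu v m : ℂ, ‖V0‖ ≤ 10 → ‖mu‖ ≤ 1 → ‖v‖ ≤ d → ‖m‖ ≤ d → ∀ t ∈ band a b,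
      ‖SS al (V0 + v) (mu + m) (fun z => Z z + A z) (fun z => X z + B z) t - SS al V0 mu Z X t -
        (DS0 al Z X A B t + v * et al Z X t + m * Yf al Z X t)‖ ≤
      C * d ^ 2 + C * d * (‖ezf al mu Z X t‖ + ‖exf al mu Z X t‖ + ‖Vf al Z X t - V0‖) := by
  obtain ⟨c0, C, hc0, hC, H⟩ := quad R hR
  refine ⟨min c0 1, 16 * C + 2 * C ^ 2, by positivity, by nlinarith, ?_⟩
  intro al hal a b ha hb Z X hN d hd hdc A B hAB V0 mu v m hV0 hmu hv hm t ht
  have hN' : NB c0 a b Z X := hN.mono (min_le_left _ _) le_rfl le_rfl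
  have hd1 : d ≤ 1 := hdc.trans (min_le_right _ _)
  obtain ⟨-, qS, qe, ql, qY, -, -, -, bD, bA, bB, bYz, bYx, -, -⟩ :=
    H al hal a b ha hb Z X hN' d hd (hdc.trans (min_le_left _ _)) A B hAB t ht
  have hM0 := F02_M0 al
  set rS := Sf al (fun z => Z z + A z) (fun z => X z + B z) t - Sf al Z X t - DS al Z X A B t with hrS
  set re := et al (fun z => Z z + A z) (fun z => X z + B z) t - et al Z X t - Det al Z X A B t with hre
  set rl := ell al (fun z => Z z + A z) (fun z => X z + B z) t - ell al Z X t -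
        (nz al X t * df al B t - nx al Z t * df al A t) / ell al Z X t with hrl
  set rY := Yf al (fun z => Z z + A z) (fun z => X z + B z) t - Yf al Z X t -
        (Yz al Z X t * df al B t - Yx al Z X t * df al A t) with hrY
  have key : SS al (V0 + v) (mu + m) (fun z => Z z + A z) (fun z => X z + B z) t - SS al V0 mu Z X t -
        (DS0 al Z X A B t + v * et al Z X t + m * Yf al Z X t) =
      (rS + V0 * re + (-(M0 al : ℂ)) * rl + mu * rY + v * (Det al Z X A B t + re) +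
        m * (Yz al Z X t * df al B t + (-(Yx al Z X t * df al A t)) + rY)) +
      (df al B t * ezf al mu Z X t + (-(df al A t * exf al mu Z X t)) +
        (-(Det al Z X A B t * (Vf al Z X t - V0)))) := by
    rw [hrS, hre, hrl, hrY]
    unfold SS ezf exf DS
    ring
  rw [key]
  refine (norm_add_le _ _).trans (add_le_add ?_ ?_)
  · have e1 : ‖V0 * re‖ ≤ 10 * (C * d ^ 2) := by
      rw [norm_mul]
      exact mul_le_mul hV0 qe (norm_nonneg _) (by norm_num)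
    have e2 : ‖(-(M0 al : ℂ)) * rl‖ ≤ 1 * (C * d ^ 2) := by
      rw [norm_mul, norm_neg]
      exact mul_le_mul hM0 ql (norm_nonneg _) (by norm_num)
    have e3 : ‖mu * rY‖ ≤ 1 * (C * d ^ 2) := by
      rw [norm_mul]
      exact mul_le_mul hmu qY (norm_nonneg _) (by norm_num)
    have hC0 : 0 ≤ C := by linarith
    have hd2 : d ^ 2 ≤ d := by nlinarith
    have e4 : ‖v * (Det al Z X A B t + re)‖ ≤ d * (2 * C * d) := by
      rw [norm_mul]
      apply mul_le_mul hv _ (norm_nonneg _) hd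
      refine (norm_add_le _ _).trans ?_
      have : C * d ^ 2 ≤ C * d := mul_le_mul_of_nonneg_left hd2 hC0
      linarith
    have e5 : ‖m * (Yz al Z X t * df al B t + (-(Yx al Z X t * df al A t)) + rY)‖ ≤
        d * ((2 * C ^ 2 + C) * d) := by
      rw [norm_mul]
      apply mul_le_mul hm _ (norm_nonneg _) hd
      have f1 : ‖Yz al Z X t * df al B t‖ ≤ C * (C * d) := by
        rw [norm_mul]
        exact mul_le_mul bYz bB (norm_nonneg _) hC0
      have f2 : ‖-(Yx al Z X t * df al A t)‖ ≤ C * (C * d) := by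
        rw [norm_neg, norm_mul]
        exact mul_le_mul bYx bA (norm_nonneg _) hC0
      refine (norm_add₃_le).trans ?_
      have : C * d ^ 2 ≤ C * d := mul_le_mul_of_nonneg_left hd2 hC0
      nlinarith
    have e6 : ‖rS + V0 * re + (-(M0 al : ℂ)) * rl + mu * rY + v * (Det al Z X A B t + re) +
        m * (Yz al Z X t * df al B t + (-(Yx al Z X t * df al A t)) + rY)‖ ≤
        ‖rS‖ + ‖V0 * re‖ + ‖(-(M0 al : ℂ)) * rl‖ + ‖mu * rY‖ + ‖v * (Det al Z X A B t + re)‖ +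
        ‖m * (Yz al Z X t * df al B t + (-(Yx al Z X t * df al A t)) + rY)‖ := by
      refine (norm_add_le _ _).trans (add_le_add ?_ le_rfl)
      refine (norm_add_le _ _).trans (add_le_add ?_ le_rfl)
      refine (norm_add_le _ _).trans (add_le_add ?_ le_rfl)
      refine (norm_add_le _ _).trans (add_le_add ?_ le_rfl)
      exact norm_add_le _ _
    refine e6.trans ?_
    have : 0 ≤ C * d ^ 2 := by positivity
    nlinarith
  · have hC0 : 0 ≤ C := by linarith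
    have f1 : ‖df al B t * ezf al mu Z X t‖ ≤ C * d * ‖ezf al mu Z X t‖ := by
      rw [norm_mul]
      exact mul_le_mul_of_nonneg_right bB (norm_nonneg _)
    have f2 : ‖-(df al A t * exf al mu Z X t)‖ ≤ C * d * ‖exf al mu Z X t‖ := by
      rw [norm_neg, norm_mul]
      exact mul_le_mul_of_nonneg_right bA (norm_nonneg _)
    have f3 : ‖-(Det al Z X A B t * (Vf al Z X t - V0))‖ ≤ C * d * ‖Vf al Z X t - V0‖ := by
      rw [norm_neg, norm_mul]
      exact mul_le_mul_of_nonneg_right bD (norm_nonneg _)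
    refine (norm_add₃_le).trans ?_
    have g1 : C * d ≤ (16 * C + 2 * C ^ 2) * d := by
      apply mul_le_mul_of_nonneg_right _ hd
      nlinarith
    have g2 : 0 ≤ ‖ezf al mu Z X t‖ + ‖exf al mu Z X t‖ + ‖Vf al Z X t - V0‖ := by positivity
    calc _ ≤ C * d * (‖ezf al mu Z X t‖ + ‖exf al mu Z X t‖ + ‖Vf al Z X t - V0‖) := by linarith
      _ ≤ _ := mul_le_mul_of_nonneg_right g1 g2

/-! ### the two identities -/

theorem F02_euler {al : ℝ} {Z X : ℂ → ℂ} {t : ℂ} (hl : ell al Z X t ≠ 0)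
    (h2 : ell al Z X t ^ 2 = nz al X t ^ 2 + nx al Z t ^ 2) :
    nz al X t * Yz al Z X t + nx al Z t * Yx al Z X t = Yf al Z X t := by
  unfold Yz Yx Yf P4 P4d
  set l := ell al Z X t
  set x := nz al X t
  set y := nx al Z t
  have hy : y ^ 2 = l ^ 2 - x ^ 2 := by rw [h2]; ring
  field_simp
  ring_nf
  rw [hy]
  ring

theorem F02_I1 {al : ℝ} {Z X : ℂ → ℂ} {t V0 mu : ℂ} (hl : ell al Z X t ≠ 0)
    (h2 : ell al Z X t ^ 2 = nz al X t ^ 2 + nx al Z t ^ 2) :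
    nz al X t * ezf al mu Z X t + nx al Z t * exf al mu Z X t - et al Z X t * (Vf al Z X t - V0) =
      SS al V0 mu Z X t := by
  have h3 := F02_euler hl h2
  have h4 : (M0 al : ℂ) * ell al Z X t = nz al X t * ((M0 al : ℂ) * nz al X t / ell al Z X t) +
      nx al Z t * ((M0 al : ℂ) * nx al Z t / ell al Z X t) := by
    field_simp
    linear_combination (M0 al : ℂ) * h2
  unfold SS ezf exf Sf
  linear_combination mu * h3 + h4


theorem F02_ell_sq (al : ℝ) (Z X : ℂ → ℂ) (t : ℂ) : ell al Z X t ^ 2 = nz al X t ^ 2 + nx al Z t ^ 2 :=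
  b01_sqrt_sq _

theorem F02_shift {a b : ℝ} {f : ℂ → ℂ} (hf : DifferentiableOn ℂ f (band a b)) {t : ℂ} (ht : t ∈ band a b)
    (s : ℝ) : HasDerivAt (fun z => f (z + (s:ℂ))) (deriv f (t + (s:ℂ))) t ∧
      HasDerivAt (fun z => f (z - (s:ℂ))) (deriv f (t - (s:ℂ))) t := by
  have h1 : HasDerivAt f (deriv f (t + (s:ℂ))) (t + (s:ℂ)) :=
    (hf.differentiableAt ((isOpen_band a b).mem_nhds (add_real_mem_band ht s))).hasDerivAt
  have h2 : HasDerivAt f (deriv f (t - (s:ℂ))) (t - (s:ℂ)) :=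
    (hf.differentiableAt ((isOpen_band a b).mem_nhds (sub_real_mem_band ht s))).hasDerivAt
  exact ⟨h1.comp_add_const t (s:ℂ), h2.comp_sub_const t (s:ℂ)⟩

/-- derivative of `Yf` from the chain rule -/
theorem F02_Y {al : ℝ} {Z X : ℂ → ℂ} {t n1 x1 : ℂ} (hn : HasDerivAt (nz al X) n1 t)
    (hl : ell al Z X t ≠ 0)
    (hll : HasDerivAt (ell al Z X) ((nz al X t * n1 + nx al Z t * x1) / ell al Z X t) t) :
    HasDerivAt (Yf al Z X) (Yz al Z X t * n1 + Yx al Z X t * x1) t := by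
  have hu := hn.div hll hl
  have h1 := ((hll.mul ((((hu.pow 4).const_mul (35:ℂ)).sub ((hu.pow 2).const_mul (30:ℂ))).add_const (3:ℂ))).div_const 8)
  refine HasDerivAt.congr_deriv (f := Yf al Z X) h1 ?_
  simp only [Pi.div_apply, Pi.pow_apply, Pi.sub_apply, Nat.cast_ofNat,
    show (4:ℕ) - 1 = 3 from rfl, show (2:ℕ) - 1 = 1 from rfl, pow_one]
  unfold Yz Yx P4 P4d
  set l := ell al Z X t
  set x := nz al X t
  set y := nx al Z t
  field_simp
  ring

theorem F02_base (R : ℝ) (hR : 1 < R) : ∃ c0 K : ℝ, 0 < c0 ∧ 1 ≤ K ∧ ∀ al ∈ JJ, ∀ a b : ℝ, 1 ≤ a → b ≤ R →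
    ∀ Z X : ℂ → ℂ, NB c0 a b Z X → ∀ t ∈ band a b, ∃ n1 x1 e1 : ℂ,
      ell al Z X t ≠ 0 ∧ ‖nz al X t‖ ≤ K ∧ ‖nx al Z t‖ ≤ K ∧ ‖et al Z X t‖ ≤ K ∧ ‖n1‖ ≤ K ∧ ‖x1‖ ≤ K ∧
      ‖e1‖ ≤ K ∧ 1/2 ≤ ‖nz al X t * x1 - nx al Z t * n1‖ ∧
      ∀ V0 mu : ℂ, HasDerivAt (SS al V0 mu Z X)
        (n1 * ezf al mu Z X t + x1 * exf al mu Z X t - e1 * (Vf al Z X t - V0)) t := by
  obtain ⟨c1, hc1, H1⟩ := trans_deriv R hR
  obtain ⟨c2, C2, hc2, hC2, hCc2, H2⟩ := chord_bd R hR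
  set E : ℝ := Real.exp R with hEdef
  have hE1 : 1 ≤ E := by
    rw [hEdef]
    exact Real.one_le_exp (by linarith)
  have hden : 0 < 8 * C2 * (2 * E + 1) := by positivity
  refine ⟨min (min c1 c2) (1 / (8 * C2 * (2 * E + 1))), 4 * (E + 1) ^ 2, by positivity, by nlinarith, ?_⟩
  intro al hal a b ha hb Z X hN t ht
  set c0 : ℝ := min (min c1 c2) (1 / (8 * C2 * (2 * E + 1))) with hc0
  have hc0pos : 0 < c0 := by positivity
  have hc01 : c0 ≤ c1 := (min_le_left _ _).trans (min_le_left _ _)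
  have hc02 : c0 ≤ c2 := (min_le_left _ _).trans (min_le_right _ _)
  have hc03 : C2 * c0 * (2 * E + 1) ≤ 1 / 8 := by
    have : c0 ≤ 1 / (8 * C2 * (2 * E + 1)) := min_le_right _ _
    rw [le_div_iff₀ hden] at this
    linarith
  have hδ0 : 0 ≤ C2 * c0 := by positivity
  have hδ1 : C2 * c0 ≤ 1 := by nlinarith
  have hcδ : c0 ≤ C2 * c0 := by nlinarith
  obtain ⟨hB, -, -⟩ := H2 al hal a b c0 ha hb hc0pos.le hc02 Z X hN t ht
  have hN1 : NB c1 a b Z X := hN.mono hc01 le_rfl le_rfl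
  obtain ⟨-, -, -, hS⟩ := H1 al hal a b ha hb Z X hN1 t ht
  have hbE := b01_bound_E hR (by linarith : -R ≤ a) hb
  obtain ⟨-, -, -, -, -, hs1, hs2⟩ := JJ_bounds hal
  have hP : t + (al:ℂ) ∈ band a b := add_real_mem_band ht al
  have hQ : t - (al:ℂ) ∈ band a b := sub_real_mem_band ht al
  obtain ⟨hZp, hZm⟩ := F02_shift hN.dZ ht al
  obtain ⟨hXp, hXm⟩ := F02_shift hN.dX ht al
  set n1 : ℂ := (deriv X (t + (al:ℂ)) - deriv X (t - (al:ℂ))) / 2 with hn1
  set x1 : ℂ := -((deriv Z (t + (al:ℂ)) - deriv Z (t - (al:ℂ))) / 2) with hx1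
  set mz : ℂ := (deriv Z (t + (al:ℂ)) + deriv Z (t - (al:ℂ))) / 2 with hmz
  set mx : ℂ := (deriv X (t + (al:ℂ)) + deriv X (t - (al:ℂ))) / 2 with hmx
  have dnz : HasDerivAt (nz al X) n1 t := (hXp.sub hXm).div_const 2
  have dnx : HasDerivAt (nx al Z) x1 t := ((hZp.sub hZm).div_const 2).neg
  have dmz : HasDerivAt (md al Z) mz t := (hZp.add hZm).div_const 2
  have dmx : HasDerivAt (md al X) mx t := (hXp.add hXm).div_const 2
  set e1 : ℂ := (n1 * md al Z t + nz al X t * mz) + (x1 * md al X t + nx al Z t * mx) with he1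
  have det : HasDerivAt (et al Z X) e1 t := (dnz.mul dmz).add (dnx.mul dmx)
  have hne : ell al Z X t ≠ 0 := by
    intro h0
    have h := hB.ell
    rw [h0, zero_sub, norm_neg, norm_real, Real.norm_eq_abs, abs_of_pos (by linarith)] at h
    nlinarith
  have hsl : (nz al X t) ^ 2 + (nx al Z t) ^ 2 ∈ slitPlane := by
    left
    have h := hB.l2
    have h' : |((nz al X t) ^ 2 + (nx al Z t) ^ 2 - (Real.sin al : ℂ) ^ 2).re| ≤ C2 * c0 :=
      (abs_re_le_norm _).trans h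
    have h2 : ((Real.sin al : ℂ) ^ 2).re = Real.sin al ^ 2 := by
      rw [← ofReal_pow, ofReal_re]
    rw [sub_re, h2] at h'
    have := (abs_le.1 h').1
    nlinarith
  have dw : HasDerivAt (fun z => nz al X z ^ 2 + nx al Z z ^ 2) (2 * (nz al X t * n1 + nx al Z t * x1)) t := by
    have := (dnz.pow 2).add (dnx.pow 2)
    refine HasDerivAt.congr_deriv (f := fun z => nz al X z ^ 2 + nx al Z z ^ 2) this ?_
    push_cast
    ring
  have hdl : DifferentiableAt ℂ (ell al Z X) t := by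
    have h1 : DifferentiableAt ℂ (fun z => (nz al X z ^ 2 + nx al Z z ^ 2) ^ ((1:ℂ)/2)) t :=
      dw.differentiableAt.cpow_const hsl
    exact h1
  have dl : HasDerivAt (ell al Z X) ((nz al X t * n1 + nx al Z t * x1) / ell al Z X t) t := by
    have h1 := hdl.hasDerivAt
    have h2 := h1.pow 2
    have h3 : HasDerivAt (fun z => nz al X z ^ 2 + nx al Z z ^ 2)
        (((2:ℕ):ℂ) * ell al Z X t ^ (2 - 1) * deriv (ell al Z X) t) t := by
      refine h2.congr_of_eventuallyEq (Eventually.of_forall fun z => ?_)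
      simp only [Pi.pow_apply]
      exact (F02_ell_sq al Z X z).symm
    have h4 := h3.unique dw
    have h5 : deriv (ell al Z X) t = (nz al X t * n1 + nx al Z t * x1) / ell al Z X t := by
      rw [eq_div_iff hne]
      push_cast at h4
      have h6 : (2:ℂ) * (deriv (ell al Z X) t * ell al Z X t) = 2 * (nz al X t * n1 + nx al Z t * x1) := by
        rw [← h4]
        ring
      exact mul_left_cancel₀ two_ne_zero h6
    rw [← h5]
    exact h1
  have dY := F02_Y dnz hne dl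
  rw [dnz.deriv, dnx.deriv, det.deriv] at hS
  -- bounds
  have bX := fun z (hz : z ∈ band a b) => (show ‖deriv X z‖ ≤ E + 1 from by
    have h1 := hN.x1 z hz
    have h2 := (hbE z hz).1
    have h3 : deriv X z = (deriv X z - cos z) + cos z := by ring
    rw [h3]
    refine (norm_add_le _ _).trans ?_
    linarith)
  have bZ := fun z (hz : z ∈ band a b) => (show ‖deriv Z z‖ ≤ E + 1 from by
    have h1 := hN.z1 z hz
    have h2 := (hbE z hz).2
    have h3 : deriv Z z = (deriv Z z + sin z) - sin z := by ring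
    rw [h3]
    refine (norm_sub_le _ _).trans ?_
    linarith)
  have hhalf : ∀ p q : ℂ, ‖p‖ ≤ E + 1 → ‖q‖ ≤ E + 1 → ‖(p - q) / 2‖ ≤ E + 1 ∧ ‖(p + q) / 2‖ ≤ E + 1 := by
    intro p q hp hq
    have h2 : ‖(2:ℂ)‖ = 2 := by simp
    constructor
    · rw [norm_div, h2]
      have := norm_sub_le p q
      linarith
    · rw [norm_div, h2]
      have := norm_add_le p q
      linarith
  have bn1 : ‖n1‖ ≤ E + 1 := (hhalf _ _ (bX _ hP) (bX _ hQ)).1
  have bx1 : ‖x1‖ ≤ E + 1 := by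
    rw [hx1, norm_neg]
    exact (hhalf _ _ (bZ _ hP) (bZ _ hQ)).1
  have bmz : ‖mz‖ ≤ E + 1 := (hhalf _ _ (bZ _ hP) (bZ _ hQ)).2
  have bmx : ‖mx‖ ≤ E + 1 := (hhalf _ _ (bX _ hP) (bX _ hQ)).2
  have hco := b01_core (al := al) hN hbE ht
  have hfar : ∀ p q : ℂ, ‖p - q‖ ≤ c0 → ‖q‖ ≤ E → ‖p‖ ≤ E + 1 := by
    intro p q h1 h2
    have h3 : p = (p - q) + q := by ring
    rw [h3]
    refine (norm_add_le _ _).trans ?_
    linarith
  have bnz := hfar _ _ hco.nz hco.nz0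
  have bnx := hfar _ _ hco.nx hco.nx0
  have bzm := hfar _ _ hco.zm hco.zm0
  have bxm := hfar _ _ hco.xm hco.xm0
  have hmul : ∀ p q : ℂ, ‖p‖ ≤ E + 1 → ‖q‖ ≤ E + 1 → ‖p * q‖ ≤ (E + 1) ^ 2 := by
    intro p q h1 h2
    rw [norm_mul, sq]
    exact mul_le_mul h1 h2 (norm_nonneg _) (by linarith)
  have hK : E + 1 ≤ 4 * (E + 1) ^ 2 := by nlinarith
  have bet : ‖et al Z X t‖ ≤ 4 * (E + 1) ^ 2 := by
    unfold et
    refine (norm_add_le _ _).trans ?_
    have h1 := hmul _ _ bnz bzm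
    have h2 := hmul _ _ bnx bxm
    nlinarith
  have be1 : ‖e1‖ ≤ 4 * (E + 1) ^ 2 := by
    rw [he1]
    have h1 := hmul _ _ bn1 bzm
    have h2 := hmul _ _ bnz bmz
    have h3 := hmul _ _ bx1 bxm
    have h4 := hmul _ _ bnx bmx
    have h5 := norm_add_le (n1 * md al Z t) (nz al X t * mz)
    have h6 := norm_add_le (x1 * md al X t) (nx al Z t * mx)
    refine (norm_add_le _ _).trans ?_
    linarith
  -- determinant
  obtain ⟨f1, f2, -, -⟩ := b01_circle al t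
  have cx1 : ‖x1 - (Real.sin al : ℂ) * cos t‖ ≤ C2 * c0 := by
    refine le_trans ?_ hcδ
    have h1 := hN.z1 _ hP
    have h2 := hN.z1 _ hQ
    have h3 := (b01_half (x := -deriv Z (t + (al:ℂ))) (y := -deriv Z (t - (al:ℂ))) (x0 := sin (t + (al:ℂ)))
      (y0 := sin (t - (al:ℂ))) (c := c0) (by rw [← neg_add', norm_neg]; exact h1)
      (by rw [← neg_add', norm_neg]; exact h2)).1
    rw [f1] at h3
    have h4 : x1 = (-deriv Z (t + (al:ℂ)) - -deriv Z (t - (al:ℂ))) / 2 := by rw [hx1]; ring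
    rw [h4]
    exact h3
  have cn1 : ‖n1 - -((Real.sin al : ℂ) * sin t)‖ ≤ C2 * c0 := by
    refine le_trans ?_ hcδ
    have h3 := (b01_half (hN.x1 _ hP) (hN.x1 _ hQ)).1
    rw [f2] at h3
    exact h3
  have d1 := b01_prod hB.nz cx1 hco.nz0 hco.nz0 hδ0 hδ1 (by linarith)
  have d2 := b01_prod hB.nx cn1 hco.nx0 (by rw [norm_neg]; exact hco.nx0) hδ0 hδ1 (by linarith)
  have hdet : 1/2 ≤ ‖nz al X t * x1 - nx al Z t * n1‖ := by
    have h1 : (Real.sin al : ℂ) ^ 2 = (nz al X t * x1 - nx al Z t * n1) -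
        ((nz al X t * x1 - (Real.sin al : ℂ) * cos t * ((Real.sin al : ℂ) * cos t)) -
          (nx al Z t * n1 - (Real.sin al : ℂ) * sin t * -((Real.sin al : ℂ) * sin t))) := by
      have := Complex.sin_sq_add_cos_sq t
      linear_combination (-(Real.sin al : ℂ) ^ 2) * this
    have h2 : ‖(Real.sin al : ℂ) ^ 2‖ = Real.sin al ^ 2 := by
      rw [norm_pow, norm_real, Real.norm_eq_abs, sq_abs]
    have h3 : Real.sin al ^ 2 ≤ ‖nz al X t * x1 - nx al Z t * n1‖ +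
        (C2 * c0 * (2 * E + 1) + C2 * c0 * (2 * E + 1)) := by
      rw [← h2, h1]
      refine (norm_sub_le _ _).trans (add_le_add le_rfl ?_)
      exact (norm_sub_le _ _).trans (add_le_add d1 d2)
    nlinarith
  refine ⟨n1, x1, e1, hne, bnz.trans hK, bnx.trans hK, bet, bn1.trans hK, bx1.trans hK, be1, hdet, ?_⟩
  intro V0 mu
  have h1 := ((hS.add (det.const_mul V0)).sub (dl.const_mul (M0 al : ℂ))).add (dY.const_mul mu)
  refine HasDerivAt.congr_deriv (f := SS al V0 mu Z X) h1 ?_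
  unfold ezf exf
  ring

/-- `nz ez + nx ex - et (V - V0) = SS` (Euler: `nz Yz + nx Yx = Y`, `nz^2 + nx^2 = ell^2`), and
`nz' ez + nx' ex - et' (V - V0) = SS'` (by `trans_deriv` for `Sf'`, `ell' = (nz nz' + nx nx')/ell`, `Y' = Yz nz' + Yx nx'`). The determinant
`nz nx' - nx nz'` is near `sin^2 al`, and `‖SS'‖ ≤ E/ρ` by Cauchy (A05 `norm_deriv_le_band`; `SS` is analytic by C01, B03). -/
theorem e_bound (R : ℝ) (hR : 1 < R) : ∃ c0 C : ℝ, 0 < c0 ∧ 1 ≤ C ∧ ∀ al ∈ JJ, ∀ a b : ℝ, 1 ≤ a → b ≤ R →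
    ∀ Z X : ℂ → ℂ, NB c0 a b Z X → ∀ V0 mu : ℂ, ∀ E ρ : ℝ, 0 < ρ → ρ ≤ 1 →
      (∀ t ∈ band a b, ‖SS al V0 mu Z X t‖ ≤ E ∧ ‖Vf al Z X t - V0‖ ≤ E) → ∀ t ∈ band (a + ρ) (b - ρ),
      ‖ezf al mu Z X t‖ ≤ C * E / ρ ∧ ‖exf al mu Z X t‖ ≤ C * E / ρ ∧
      ‖(aj al 0 Z X t + aj al 1 Z X t) * chip al Z X t - (aj al 0 Z X t - aj al 1 Z X t) * chim al Z X t‖ ≤ C * E / ρ := by
  obtain ⟨c1, K, hc1, hK, H1⟩ := F02_base R hR
  obtain ⟨c2, hc2, H2⟩ := trans_deriv R hR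
  refine ⟨min c1 c2, 8 * K ^ 2, by positivity, by nlinarith, ?_⟩
  intro al hal a b ha hb Z X hN V0 mu E ρ hρ hρ1 hE t ht
  have hN1 : NB c1 a b Z X := hN.mono (min_le_left _ _) le_rfl le_rfl
  have hN2 : NB c2 a b Z X := hN.mono (min_le_right _ _) le_rfl le_rfl
  have htb : t ∈ band a b := band_subset (by linarith) (by linarith) ht
  have hE0 : 0 ≤ E := (norm_nonneg _).trans (hE t htb).1
  have hEρ : E ≤ E / ρ := by
    rw [le_div_iff₀ hρ]
    nlinarith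
  have hEρ0 : 0 ≤ E / ρ := by positivity
  obtain ⟨n1, x1, e1, hne, bnz, bnx, bet, bn1, bx1, be1, hdet, hD⟩ := H1 al hal a b ha hb Z X hN1 t htb
  have dS : DifferentiableOn ℂ (SS al V0 mu Z X) (band a b) := by
    intro z hz
    obtain ⟨_, _, _, _, _, _, _, _, _, _, _, h⟩ := H1 al hal a b ha hb Z X hN1 z hz
    exact (h V0 mu).differentiableAt.differentiableWithinAt
  have bS := norm_deriv_le_band hρ dS (fun z hz => (hE z hz).1) t ht
  rw [(hD V0 mu).deriv] at bS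
  have dV : DifferentiableOn ℂ (fun z => Vf al Z X z - V0) (band a b) := by
    intro z hz
    exact ((H2 al hal a b ha hb Z X hN2 z hz).1.sub_const V0).differentiableAt.differentiableWithinAt
  have bV := norm_deriv_le_band hρ dV (fun z hz => (hE z hz).2) t ht
  rw [((H2 al hal a b ha hb Z X hN2 t htb).1.sub_const V0).deriv] at bV
  have hS1 := (hE t htb).1
  have hV1 := (hE t htb).2
  set ez := ezf al mu Z X t with hez
  set ex := exf al mu Z X t with hex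
  set V := Vf al Z X t - V0 with hV
  set S := SS al V0 mu Z X t with hS
  set p := nz al X t with hp
  set q := nx al Z t with hq
  have i1 : p * ez + q * ex - et al Z X t * V = S := F02_I1 hne (F02_ell_sq al Z X t)
  have r1 : ‖p * ez + q * ex‖ ≤ 2 * K * (E / ρ) := by
    have h1 : p * ez + q * ex = S + et al Z X t * V := by rw [← i1]; ring
    rw [h1]
    have h2 : ‖et al Z X t * V‖ ≤ K * E := by
      rw [norm_mul]
      exact mul_le_mul bet hV1 (norm_nonneg _) (by linarith)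
    refine (norm_add_le _ _).trans ?_
    nlinarith
  have r2 : ‖n1 * ez + x1 * ex‖ ≤ 2 * K * (E / ρ) := by
    have h1 : n1 * ez + x1 * ex = (n1 * ez + x1 * ex - e1 * V) + e1 * V := by ring
    rw [h1]
    have h2 : ‖e1 * V‖ ≤ K * E := by
      rw [norm_mul]
      exact mul_le_mul be1 hV1 (norm_nonneg _) (by linarith)
    refine (norm_add_le _ _).trans ?_
    nlinarith
  have hfin : ∀ w P Q : ℂ, w * (p * x1 - q * n1) = P - Q → ‖P‖ ≤ 2 * K ^ 2 * (E / ρ) → ‖Q‖ ≤ 2 * K ^ 2 * (E / ρ) →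
      ‖w‖ ≤ 8 * K ^ 2 * E / ρ := by
    intro w P Q h1 h2 h3
    have h4 : ‖w‖ * ‖p * x1 - q * n1‖ ≤ 4 * K ^ 2 * (E / ρ) := by
      rw [← norm_mul, h1]
      refine (norm_sub_le _ _).trans ?_
      linarith
    have h5 : ‖w‖ * (1 / 2) ≤ ‖w‖ * ‖p * x1 - q * n1‖ := mul_le_mul_of_nonneg_left hdet (norm_nonneg _)
    have h6 : 8 * K ^ 2 * E / ρ = 2 * (4 * K ^ 2 * (E / ρ)) := by ring
    rw [h6]
    linarith
  have hprod : ∀ P Q : ℂ, ‖P‖ ≤ 2 * K * (E / ρ) → ‖Q‖ ≤ K → ‖P * Q‖ ≤ 2 * K ^ 2 * (E / ρ) := by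
    intro P Q h1 h2
    rw [norm_mul]
    have := mul_le_mul h1 h2 (norm_nonneg _) (by positivity)
    refine this.trans (le_of_eq ?_)
    ring
  refine ⟨hfin ez _ _ (by ring : ez * (p * x1 - q * n1) = (p * ez + q * ex) * x1 - (n1 * ez + x1 * ex) * q)
      (hprod _ _ r1 bx1) (hprod _ _ r2 bnx),
    hfin ex _ _ (by ring : ex * (p * x1 - q * n1) = (n1 * ez + x1 * ex) * p - (p * ez + q * ex) * n1)
      (hprod _ _ r2 bnz) (hprod _ _ r1 bn1), ?_⟩
  obtain ⟨-, -, -, -, -, hs1, hs2⟩ := JJ_bounds hal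
  have hs0 : Real.sin al ≠ 0 := by linarith
  obtain ⟨hnp, hnm⟩ := np_eq al hs0 Z X t
  rw [hnp, hnm] at bV
  set B := (aj al 0 Z X t + aj al 1 Z X t) * chip al Z X t - (aj al 0 Z X t - aj al 1 Z X t) * chim al Z X t with hB
  have h1 : -(aj al 0 Z X t + aj al 1 Z X t) * (-(Real.sin al : ℂ) ^ 2 * chip al Z X t) -
      (aj al 0 Z X t - aj al 1 Z X t) * ((Real.sin al : ℂ) ^ 2 * chim al Z X t) =
      (Real.sin al : ℂ) ^ 2 * B := by rw [hB]; ring
  rw [h1, norm_mul, norm_pow, norm_real, Real.norm_eq_abs, sq_abs] at bV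
  have h2 : (1/2 : ℝ) * ‖B‖ ≤ Real.sin al ^ 2 * ‖B‖ := by
    apply mul_le_mul_of_nonneg_right _ (norm_nonneg _)
    nlinarith
  have h6 : 8 * K ^ 2 * E / ρ = 8 * K ^ 2 * (E / ρ) := by ring
  rw [h6]
  nlinarith [mul_nonneg (by nlinarith : (0:ℝ) ≤ K ^ 2 - 1) hEρ0]

/-- exactness: the equations imply floating -/
theorem exact_of_zero (R : ℝ) (hR : 1 < R) : ∃ c0 : ℝ, 0 < c0 ∧ ∀ al ∈ JJ, ∀ a b : ℝ, 1 ≤ a → b ≤ R →
    ∀ Z X : ℂ → ℂ, NB c0 a b Z X → ∀ V0 : ℂ,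
      (∀ t ∈ band a b, SS al V0 0 Z X t = 0 ∧ Vf al Z X t = V0) → ∀ t ∈ band a b,
      Pzf al Z X t * ell al Z X t = (M0 al : ℂ) * nz al X t ∧ Pxf al Z X t * ell al Z X t = (M0 al : ℂ) * nx al Z t := by
  obtain ⟨c1, C, hc1, hC, H1⟩ := e_bound R hR
  obtain ⟨c2, K, hc2, hK, H2⟩ := F02_base R hR
  refine ⟨min c1 c2, by positivity, ?_⟩
  intro al hal a b ha hb Z X hN V0 h0 t ht
  have hN1 : NB c1 a b Z X := hN.mono (min_le_left _ _) le_rfl le_rfl
  have hN2 : NB c2 a b Z X := hN.mono (min_le_right _ _) le_rfl le_rfl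
  obtain ⟨_, _, _, hne, -⟩ := H2 al hal a b ha hb Z X hN2 t ht
  have hta := ht.1
  have htb := ht.2
  set ρ : ℝ := min 1 (min ((t.im - a) / 2) ((b - t.im) / 2)) with hρ
  have hρ0 : 0 < ρ := by
    have h1 : 0 < (t.im - a) / 2 := by linarith
    have h2 : 0 < (b - t.im) / 2 := by linarith
    positivity
  have hρ1 : ρ ≤ 1 := min_le_left _ _
  have hρ2 : ρ ≤ (t.im - a) / 2 := (min_le_right _ _).trans (min_le_left _ _)
  have hρ3 : ρ ≤ (b - t.im) / 2 := (min_le_right _ _).trans (min_le_right _ _)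
  have ht' : t ∈ band (a + ρ) (b - ρ) := ⟨by linarith, by linarith⟩
  obtain ⟨g1, g2, -⟩ := H1 al hal a b ha hb Z X hN1 V0 0 0 ρ hρ0 hρ1
    (fun z hz => ⟨by rw [(h0 z hz).1]; simp, by rw [(h0 z hz).2]; simp⟩) t ht'
  have hz : C * 0 / ρ = 0 := by simp
  rw [hz] at g1 g2
  have k1 : ezf al 0 Z X t = 0 := norm_le_zero_iff.1 g1
  have k2 : exf al 0 Z X t = 0 := norm_le_zero_iff.1 g2
  unfold ezf at k1
  unfold exf at k2
  constructor
  · have h3 : Pzf al Z X t = (M0 al : ℂ) * nz al X t / ell al Z X t := by linear_combination k1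
    rw [h3]
    field_simp
  · have h3 : Pxf al Z X t = (M0 al : ℂ) * nx al Z t / ell al Z X t := by linear_combination k2
    rw [h3]
    field_simp

end FB
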