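import Pool.Agent.H48.FB.F01
import Pool.Agent.H48.FB.D04

/-! G01: evenness of the variation operators on symmetric directions; evenness of the equations. -/

open Complex Set MeasureTheory Filter Topology

noncomputable section

namespace FB

theorem G01_per {r : ℝ} {f : ℂ → ℂ} (ha : ∀ z ∈ strip r, f (z + (Real.pi : ℂ)) = - f z) :
    ∀ z ∈ strip r, f (z + 2 * (Real.pi : ℂ)) = f z := by
  intro z hz
  have h1 : z + 2 * (Real.pi : ℂ) = (z + (Real.pi : ℂ)) + (Real.pi : ℂ) := by ring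
  rw [h1, ha _ (add_real_mem_band hz Real.pi), ha z hz, neg_neg]

theorem G01_shift_diff {r : ℝ} {f : ℂ → ℂ} (hf : DifferentiableOn ℂ f (strip r)) (s : ℝ) :
    DifferentiableOn ℂ (fun t => f (t + (s : ℂ))) (strip r) :=
  hf.comp (differentiableOn_id.add_const _) (fun _ hz => add_real_mem_band hz s)

theorem G01_shift_diff' {r : ℝ} {f : ℂ → ℂ} (hf : DifferentiableOn ℂ f (strip r)) (s : ℝ) :
    DifferentiableOn ℂ (fun t => f (t - (s : ℂ))) (strip r) :=
  hf.comp (differentiableOn_id.sub_const _) (fun _ hz => sub_real_mem_band hz s)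

theorem G01_md_diff {al r : ℝ} {f : ℂ → ℂ} (hf : DifferentiableOn ℂ f (strip r)) :
    DifferentiableOn ℂ (md al f) (strip r) :=
  ((G01_shift_diff hf al).add (G01_shift_diff' hf al)).div_const 2

theorem G01_df_diff {al r : ℝ} {f : ℂ → ℂ} (hf : DifferentiableOn ℂ f (strip r)) :
    DifferentiableOn ℂ (df al f) (strip r) :=
  ((G01_shift_diff hf al).sub (G01_shift_diff' hf al)).div_const 2

theorem G01_md_per {al r : ℝ} {f : ℂ → ℂ} (hp : ∀ z ∈ strip r, f (z + 2 * (Real.pi : ℂ)) = f z) :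
    ∀ z ∈ strip r, md al f (z + 2 * (Real.pi : ℂ)) = md al f z := by
  intro z hz
  rw [md, md, show z + 2 * (Real.pi : ℂ) + (al : ℂ) = (z + (al : ℂ)) + 2 * (Real.pi : ℂ) by ring,
    show z + 2 * (Real.pi : ℂ) - (al : ℂ) = (z - (al : ℂ)) + 2 * (Real.pi : ℂ) by ring,
    hp _ (add_real_mem_band hz al), hp _ (sub_real_mem_band hz al)]

theorem G01_df_per {al r : ℝ} {f : ℂ → ℂ} (hp : ∀ z ∈ strip r, f (z + 2 * (Real.pi : ℂ)) = f z) :
    ∀ z ∈ strip r, df al f (z + 2 * (Real.pi : ℂ)) = df al f z := by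
  intro z hz
  rw [df, df, show z + 2 * (Real.pi : ℂ) + (al : ℂ) = (z + (al : ℂ)) + 2 * (Real.pi : ℂ) by ring,
    show z + 2 * (Real.pi : ℂ) - (al : ℂ) = (z - (al : ℂ)) + 2 * (Real.pi : ℂ) by ring,
    hp _ (add_real_mem_band hz al), hp _ (sub_real_mem_band hz al)]

theorem G01_even {al r : ℝ} {f : ℂ → ℂ} (he : ∀ z ∈ strip r, f (-z) = f z) {z : ℂ} (hz : z ∈ strip r) :
    md al f (-z) = md al f z ∧ df al f (-z) = - df al f z := by
  have h1 := he _ (add_real_mem_band hz al)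
  have h2 := he _ (sub_real_mem_band hz al)
  rw [md, md, df, df, show -z + (al : ℂ) = -(z - (al : ℂ)) by ring,
    show -z - (al : ℂ) = -(z + (al : ℂ)) by ring, h1, h2]
  constructor <;> ring

theorem G01_odd {al r : ℝ} {f : ℂ → ℂ} (he : ∀ z ∈ strip r, f (-z) = - f z) {z : ℂ} (hz : z ∈ strip r) :
    md al f (-z) = - md al f z ∧ df al f (-z) = df al f z := by
  have h1 := he _ (add_real_mem_band hz al)
  have h2 := he _ (sub_real_mem_band hz al)
  rw [md, md, df, df, show -z + (al : ℂ) = -(z - (al : ℂ)) by ring,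
    show -z - (al : ℂ) = -(z + (al : ℂ)) by ring, h1, h2]
  constructor <;> ring

/-- mean and half difference of the coordinates of a symmetric curve or direction -/
structure G01S (al r : ℝ) (Z X : ℂ → ℂ) : Prop where
  mZ : EvenExt 1 r (md al Z)
  dZ : OddExt 1 r (df al Z)
  mX : OddExt 1 r (md al X)
  dX : EvenExt 1 r (df al X)

theorem G01_S {al r : ℝ} (hr : 0 < r) {Z X : ℂ → ℂ} (hZ : DifferentiableOn ℂ Z (strip r))
    (hX : DifferentiableOn ℂ X (strip r)) (hS : Sym r Z X) : G01S al r Z X where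
  mZ := EvenExt.of_strip (by linarith) (G01_md_diff hZ) (G01_md_per (G01_per hS.aZ))
    (fun _ hz => (G01_even hS.eZ hz).1)
  dZ := OddExt.of_strip (by linarith) (G01_df_diff hZ) (G01_df_per (G01_per hS.aZ))
    (fun _ hz => (G01_even hS.eZ hz).2)
  mX := OddExt.of_strip (by linarith) (G01_md_diff hX) (G01_md_per (G01_per hS.aX))
    (fun _ hz => (G01_odd hS.oX hz).1)
  dX := EvenExt.of_strip (by linarith) (G01_df_diff hX) (G01_df_per (G01_per hS.aX))
    (fun _ hz => (G01_odd hS.oX hz).2)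

theorem G01_nx {al r : ℝ} {Z X : ℂ → ℂ} (h : G01S al r Z X) : OddExt 1 r (nx al Z) := h.dZ.neg

theorem G01_et {al r : ℝ} {Z X : ℂ → ℂ} (h : G01S al r Z X) : EvenExt 1 r (et al Z X) :=
  (h.dX.mul h.mZ).add ((G01_nx h).mul h.mX)

theorem G01_Det {al r : ℝ} {Z X A B : ℂ → ℂ} (h : G01S al r Z X) (h' : G01S al r A B) :
    EvenExt 1 r (Det al Z X A B) :=
  (((h'.dX.mul h.mZ).sub (h'.dZ.mul h.mX)).add (h.dX.mul h'.mZ)).add ((G01_nx h).mul h'.mX)

/-- limit of difference quotients -/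
theorem G01_lim {r K : ℝ} (hr : 1 < r) {f : ℂ → ℂ} (hf : DifferentiableOn ℂ f (band 1 r))
    {V : ℕ → ℂ → ℂ} {V0 : ℂ → ℂ} {h : ℕ → ℝ} (hh : ∀ n, 0 < h n) (hlim : Tendsto h atTop (𝓝 0))
    (hV : ∀ n, EvenExt 1 r (V n)) (hV0 : EvenExt 1 r V0)
    (hb : ∀ n, ∀ t ∈ band 1 r, ‖V n t - V0 t - (h n : ℂ) * f t‖ ≤ K * (h n) ^ 2) : EvenExt 1 r f := by
  refine EvenExt.limit zero_le_one hr hf
    (F := fun n t => ((h n : ℂ)⁻¹) * (V n t - V0 t)) (fun n => ?_) ?_
  · exact (EvenExt.const _).mul ((hV n).sub hV0)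
  · rw [Metric.tendstoUniformlyOn_iff]
    intro ε hε
    have h1 : Tendsto (fun n => K * h n) atTop (𝓝 (K * 0)) := hlim.const_mul K
    rw [mul_zero] at h1
    filter_upwards [h1.eventually (gt_mem_nhds hε)] with n hn t ht
    have hn0 : (h n : ℂ) ≠ 0 := Complex.ofReal_ne_zero.2 (hh n).ne'
    have e1 : f t - (h n : ℂ)⁻¹ * (V n t - V0 t) =
        -((h n : ℂ)⁻¹ * (V n t - V0 t - (h n : ℂ) * f t)) := by
      field_simp
      ring
    rw [dist_eq_norm, e1, norm_neg, norm_mul, norm_inv, Complex.norm_real,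
      Real.norm_of_nonneg (hh n).le]
    calc (h n)⁻¹ * ‖V n t - V0 t - (h n : ℂ) * f t‖ ≤ (h n)⁻¹ * (K * (h n) ^ 2) :=
          mul_le_mul_of_nonneg_left (hb n t ht) (inv_nonneg.2 (hh n).le)
      _ = K * h n := by
          have := (hh n).ne'
          field_simp
      _ < ε := hn

theorem G01_NB {c d h c' a b : ℝ} {Z X A B : ℂ → ℂ} (hN : NB c a b Z X) (hD : DirBd d a b A B)
    (hh : 0 ≤ h) (hc : c + h * d ≤ c') :
    NB c' a b (fun z => Z z + (h : ℂ) * A z) (fun z => X z + (h : ℂ) * B z) := by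
  have ho : IsOpen (band a b) := isOpen_band a b
  have hn : ‖(h : ℂ)‖ = h := by rw [Complex.norm_real, Real.norm_of_nonneg hh]
  have key : ∀ u v w : ℂ, ‖u - v‖ ≤ c → ‖w‖ ≤ d → ‖u + (h : ℂ) * w - v‖ ≤ c' := by
    intro u v w h1 h2
    calc ‖u + (h : ℂ) * w - v‖ = ‖(u - v) + (h : ℂ) * w‖ := by congr 1; ring
      _ ≤ ‖u - v‖ + ‖(h : ℂ) * w‖ := norm_add_le _ _
      _ ≤ c + h * d := by
          rw [norm_mul, hn]
          exact add_le_add h1 (mul_le_mul_of_nonneg_left h2 hh)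
      _ ≤ c' := hc
  have hdA : ∀ z ∈ band a b, deriv (fun z => Z z + (h : ℂ) * A z) z = deriv Z z + (h : ℂ) * deriv A z := by
    intro z hz
    have h1 := (hN.dZ z hz).differentiableAt (ho.mem_nhds hz)
    have h2 := (hD.dA z hz).differentiableAt (ho.mem_nhds hz)
    exact (h1.hasDerivAt.add (h2.hasDerivAt.const_mul _)).deriv
  have hdB : ∀ z ∈ band a b, deriv (fun z => X z + (h : ℂ) * B z) z = deriv X z + (h : ℂ) * deriv B z := by
    intro z hz
    have h1 := (hN.dX z hz).differentiableAt (ho.mem_nhds hz)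
    have h2 := (hD.dB z hz).differentiableAt (ho.mem_nhds hz)
    exact (h1.hasDerivAt.add (h2.hasDerivAt.const_mul _)).deriv
  refine ⟨hN.dZ.add (hD.dA.const_mul _), hN.dX.add (hD.dB.const_mul _), fun z hz => ?_, fun z hz => ?_,
    fun z hz => ?_, fun z hz => ?_⟩
  · exact key _ _ _ (hN.z0 z hz) (hD.a0 z hz)
  · exact key _ _ _ (hN.x0 z hz) (hD.b0 z hz)
  · rw [hdA z hz]
    have := key (deriv Z z) (- sin z) (deriv A z) (by rw [sub_neg_eq_add]; exact hN.z1 z hz) (hD.a1 z hz)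
    rwa [sub_neg_eq_add] at this
  · rw [hdB z hz]
    exact key _ _ _ (hN.x1 z hz) (hD.b1 z hz)

theorem G01_Dir {d h a b : ℝ} {A B : ℂ → ℂ} (hD : DirBd d a b A B) (hh : 0 ≤ h) :
    DirBd (h * d) a b (fun z => (h : ℂ) * A z) (fun z => (h : ℂ) * B z) := by
  have ho : IsOpen (band a b) := isOpen_band a b
  have hn : ‖(h : ℂ)‖ = h := by rw [Complex.norm_real, Real.norm_of_nonneg hh]
  have key : ∀ w : ℂ, ‖w‖ ≤ d → ‖(h : ℂ) * w‖ ≤ h * d := fun w hw => by
    rw [norm_mul, hn]; exact mul_le_mul_of_nonneg_left hw hh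
  have hdA : ∀ z ∈ band a b, deriv (fun z => (h : ℂ) * A z) z = (h : ℂ) * deriv A z := fun z hz =>
    (((hD.dA z hz).differentiableAt (ho.mem_nhds hz)).hasDerivAt.const_mul _).deriv
  have hdB : ∀ z ∈ band a b, deriv (fun z => (h : ℂ) * B z) z = (h : ℂ) * deriv B z := fun z hz =>
    (((hD.dB z hz).differentiableAt (ho.mem_nhds hz)).hasDerivAt.const_mul _).deriv
  refine ⟨hD.dA.const_mul _, hD.dB.const_mul _, fun z hz => key _ (hD.a0 z hz),
    fun z hz => key _ (hD.b0 z hz), fun z hz => ?_, fun z hz => ?_⟩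
  · rw [hdA z hz]; exact key _ (hD.a1 z hz)
  · rw [hdB z hz]; exact key _ (hD.b1 z hz)

theorem G01_DirMono {d a b a' b' : ℝ} {A B : ℂ → ℂ} (hD : DirBd d a b A B) (ha : a ≤ a') (hb : b' ≤ b) :
    DirBd d a' b' A B :=
  have hs := band_subset ha hb
  ⟨hD.dA.mono hs, hD.dB.mono hs, fun z hz => hD.a0 z (hs hz), fun z hz => hD.b0 z (hs hz),
    fun z hz => hD.a1 z (hs hz), fun z hz => hD.b1 z (hs hz)⟩

theorem G01_NBMono {c c' a b a' b' : ℝ} {Z X : ℂ → ℂ} (h : NB c a b Z X) (hc : c ≤ c') (ha : a ≤ a')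
    (hb : b' ≤ b) : NB c' a' b' Z X :=
  have hs := band_subset ha hb
  ⟨h.dZ.mono hs, h.dX.mono hs, fun z hz => (h.z0 z (hs hz)).trans hc,
    fun z hz => (h.x0 z (hs hz)).trans hc, fun z hz => (h.z1 z (hs hz)).trans hc,
    fun z hz => (h.x1 z (hs hz)).trans hc⟩

theorem G01_Sym {h r : ℝ} {Z X A B : ℂ → ℂ} (hS : Sym r Z X) (hS' : Sym r A B) :
    Sym r (fun z => Z z + (h : ℂ) * A z) (fun z => X z + (h : ℂ) * B z) := by
  refine ⟨fun z hz => ?_, fun z hz => ?_, fun z hz => ?_, fun z hz => ?_⟩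
  · simp only [hS.eZ z hz, hS'.eZ z hz]
  · simp only [hS.oX z hz, hS'.oX z hz]; ring
  · simp only [hS.aZ z hz, hS'.aZ z hz]; ring
  · simp only [hS.aX z hz, hS'.aX z hz]; ring

theorem G01_SymMono {r r' : ℝ} {Z X : ℂ → ℂ} (hS : Sym r Z X) (h : r' ≤ r) : Sym r' Z X :=
  have hs : strip r' ⊆ strip r := band_subset (by linarith) h
  ⟨fun z hz => hS.eZ z (hs hz), fun z hz => hS.oX z (hs hz), fun z hz => hS.aZ z (hs hz),
    fun z hz => hS.aX z (hs hz)⟩

/-- The curves `(Z + h A, X + h B)`, `h = h0/(k+1)` real, satisfy `Sym` and `NB c0'`; so the difference quotients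
`(Vf (Z + hA) (X + hB) - Vf Z X)/h` are `EvenExt` (D04) and converge uniformly to `DV` on the band (`quad`: error `C h d^2`);
`EvenExt.limit`. For `DS0 = DS - df B Pz + df A Px + Det V`: `df B` even, `df A` odd, `Pz` even, `Px` odd. -/
theorem DV_even (R : ℝ) (hR : 3 ≤ R) : ∃ c0 : ℝ, 0 < c0 ∧ ∀ al ∈ JJ, ∀ r : ℝ, 3 ≤ r → r ≤ R → ∀ Z X : ℂ → ℂ,
    NB c0 (-r) r Z X → Sym r Z X → ∀ A B : ℂ → ℂ, Sym r A B → ∀ d : ℝ, DirBd d (-r) r A B →
      EvenExt 1 r (DV al Z X A B) ∧ EvenExt 1 r (DS al Z X A B) ∧ EvenExt 1 r (DS0 al Z X A B) := by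
  obtain ⟨c1, hc1, H1⟩ := ext_basic R hR
  obtain ⟨c2, C2, hc2, hC2, H2⟩ := quad R (by linarith)
  obtain ⟨c3, hc3, H3⟩ := DV_add R (by linarith)
  obtain ⟨c4, C4, hc4, hC4, H4⟩ := fam_variation R (by linarith)
  set c : ℝ := min (min c1 c2) (min c3 c4) with hc
  have hcpos : 0 < c := lt_min (lt_min hc1 hc2) (lt_min hc3 hc4)
  have hcc1 : c ≤ c1 := (min_le_left _ _).trans (min_le_left _ _)
  have hcc2 : c ≤ c2 := (min_le_left _ _).trans (min_le_right _ _)
  have hcc3 : c ≤ c3 := (min_le_right _ _).trans (min_le_left _ _)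
  have hcc4 : c ≤ c4 := (min_le_right _ _).trans (min_le_right _ _)
  refine ⟨c / 2, by positivity, ?_⟩
  intro al hal r hr hrR Z X hN hS A B hS' d hD
  have hr0 : 0 < r := by linarith
  have hr1 : 1 < r := by linarith
  have hd0 : 0 ≤ d := by
    have : (0 : ℂ) ∈ band (-r) r := ⟨by simpa using hr0, by simpa using hr0⟩
    exact (norm_nonneg _).trans (hD.a0 0 this)
  -- restricted to the upper band
  have hNu : NB (c / 2) 1 r Z X := G01_NBMono hN le_rfl (by linarith) le_rfl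
  have hDu : DirBd d 1 r A B := G01_DirMono hD (by linarith) le_rfl
  -- differentiability
  have hF := H4 al hal 1 r le_rfl hr1 hrR (fun _ => Z) (fun _ => X)
    ⟨Fam.const hNu.dZ, Fam.const hNu.dX, fun _ => G01_NBMono hNu (by linarith) le_rfl le_rfl⟩
    (fun _ => A) (fun _ => B) (Fam.const hDu.dA) (Fam.const hDu.dB) d
    (fun _ z hz => ⟨hDu.a0 z hz, hDu.b0 z hz⟩)
  have e0 : EE := ⟨0, by constructor <;> norm_num⟩
  have hdV := hF.1.diff e0
  have hdS := hF.2.2.1.diff e0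
  -- the steps
  set δ : ℝ := c / (2 * (d + 1)) with hδ
  have hδ0 : 0 < δ := by positivity
  let h : ℕ → ℝ := fun n => δ / ((n : ℝ) + 1)
  have hh : ∀ n, 0 < h n := fun n => by positivity
  have hhd : ∀ n, h n * d ≤ c / 2 := by
    intro n
    have h1 : h n ≤ δ := div_le_self hδ0.le (by
      have : (0 : ℝ) ≤ n := Nat.cast_nonneg n
      linarith)
    have h2 : δ * (d + 1) = c / 2 := by
      rw [hδ]; field_simp
    calc h n * d ≤ δ * d := mul_le_mul_of_nonneg_right h1 hd0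
      _ ≤ δ * (d + 1) := by nlinarith
      _ = c / 2 := h2
  have hlim : Tendsto h atTop (𝓝 0) := by
    have h1 := tendsto_one_div_add_atTop_nhds_zero_nat (𝕜 := ℝ)
    have h2 := h1.const_mul δ
    rw [mul_zero] at h2
    refine h2.congr (fun n => ?_)
    simp only [h]
    ring
  have hE0 := H1 al hal r hr hrR Z X (G01_NBMono hN (by linarith) le_rfl le_rfl) hS
  obtain ⟨-, -, -, hV0, hPz, hPx, hS0, -⟩ := hE0
  have hEn : ∀ n, EvenExt 1 r (Vf al (fun z => Z z + (h n : ℂ) * A z) (fun z => X z + (h n : ℂ) * B z)) ∧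
      EvenExt 1 r (Sf al (fun z => Z z + (h n : ℂ) * A z) (fun z => X z + (h n : ℂ) * B z)) := by
    intro n
    have h1 := H1 al hal r hr hrR _ _ (G01_NB hN hD (hh n).le (c' := c1) (by
      have := hhd n
      linarith)) (G01_Sym (h := h n) hS hS')
    exact ⟨h1.2.2.2.1, h1.2.2.2.2.2.2.1⟩
  have hlin : ∀ n, ∀ t ∈ band 1 r,
      DV al Z X (fun z => (h n : ℂ) * A z) (fun z => (h n : ℂ) * B z) t = (h n : ℂ) * DV al Z X A B t ∧
      DS al Z X (fun z => (h n : ℂ) * A z) (fun z => (h n : ℂ) * B z) t = (h n : ℂ) * DS al Z X A B t := by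
    intro n t ht
    have h1 := H3 al hal 1 r le_rfl hrR Z X (G01_NBMono hNu (by linarith) le_rfl le_rfl) A B A B
      hDu.dA.continuousOn hDu.dB.continuousOn hDu.dA.continuousOn hDu.dB.continuousOn t ht (h n) 0
    have eA : (fun z => (h n : ℂ) * A z + 0 * A z) = fun z => (h n : ℂ) * A z := by
      funext z; ring
    have eB : (fun z => (h n : ℂ) * B z + 0 * B z) = fun z => (h n : ℂ) * B z := by
      funext z; ring
    rw [eA, eB] at h1
    refine ⟨h1.1.trans (by ring), h1.2.2.trans (by ring)⟩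
  have hq : ∀ n, ∀ t ∈ band 1 r,
      ‖Vf al (fun z => Z z + (h n : ℂ) * A z) (fun z => X z + (h n : ℂ) * B z) t - Vf al Z X t -
        (h n : ℂ) * DV al Z X A B t‖ ≤ C2 * d ^ 2 * (h n) ^ 2 ∧
      ‖Sf al (fun z => Z z + (h n : ℂ) * A z) (fun z => X z + (h n : ℂ) * B z) t - Sf al Z X t -
        (h n : ℂ) * DS al Z X A B t‖ ≤ C2 * d ^ 2 * (h n) ^ 2 := by
    intro n t ht
    have h1 := H2 al hal 1 r le_rfl hrR Z X (G01_NBMono hNu (by linarith) le_rfl le_rfl) (h n * d)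
      (mul_nonneg (hh n).le hd0) (by
        have := hhd n
        linarith) _ _ (G01_Dir hDu (hh n).le) t ht
    obtain ⟨h2, h3⟩ := hlin n t ht
    rw [h2, h3] at h1
    have e1 : C2 * (h n * d) ^ 2 = C2 * d ^ 2 * (h n) ^ 2 := by ring
    rw [e1] at h1
    exact ⟨h1.1, h1.2.1⟩
  have rV : EvenExt 1 r (DV al Z X A B) :=
    G01_lim hr1 hdV hh hlim (fun n => (hEn n).1) hV0 (fun n t ht => (hq n t ht).1)
  have rS : EvenExt 1 r (DS al Z X A B) :=
    G01_lim hr1 hdS hh hlim (fun n => (hEn n).2) hS0 (fun n t ht => (hq n t ht).2)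
  refine ⟨rV, rS, ?_⟩
  have s1 : G01S al r Z X := G01_S hr0 hN.dZ hN.dX hS
  have s2 : G01S al r A B := G01_S hr0 hD.dA hD.dB hS'
  have r1 : EvenExt 1 r (fun t => DS al Z X A B t - df al B t * Pzf al Z X t + df al A t * Pxf al Z X t +
      Det al Z X A B t * Vf al Z X t) :=
    ((rS.sub (s2.dX.mul hPz)).add (s2.dZ.mul hPx)).add ((G01_Det s1 s2).mul hV0)
  refine r1.congr (fun t _ => ?_)
  simp only [DS]
  ring

/-- extension from smaller bands -/
theorem G01_union {r : ℝ} (hr : 3 < r) {f : ℂ → ℂ} (h : ∀ r', 3 < r' → r' < r → EvenExt 1 r' f) :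
    EvenExt 1 r f := by
  have hf : DifferentiableOn ℂ f (band 1 r) := by
    intro z hz
    obtain ⟨r', h1, h2⟩ := exists_between (max_lt hr hz.2)
    obtain ⟨g, g1, g2, g3, g4⟩ := h r' ((le_max_left _ _).trans_lt h1) h2
    have hz' : z ∈ band 1 r' := ⟨hz.1, (le_max_right _ _).trans_lt h1⟩
    have hsub : band 1 r' ⊆ strip r' := band_subset (by
      have := (le_max_left 3 z.im).trans_lt h1
      linarith) le_rfl
    have h3 : DifferentiableOn ℂ f (band 1 r') := (g1.mono hsub).congr (fun w hw => (g4 hw).symm)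
    exact ((h3 z hz').differentiableAt ((isOpen_band 1 r').mem_nhds hz')).differentiableWithinAt
  have hp : ∀ z ∈ band 1 r, f (z + 2 * (Real.pi : ℂ)) = f z := by
    intro z hz
    obtain ⟨r', h1, h2⟩ := exists_between (max_lt hr hz.2)
    obtain ⟨g, g1, g2, g3, g4⟩ := h r' ((le_max_left _ _).trans_lt h1) h2
    have hz' : z ∈ band 1 r' := ⟨hz.1, (le_max_right _ _).trans_lt h1⟩
    have hsub : band 1 r' ⊆ strip r' := band_subset (by
      have := (le_max_left 3 z.im).trans_lt h1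
      linarith) le_rfl
    have hz2 : z + 2 * (Real.pi : ℂ) ∈ band 1 r' := by
      have := add_real_mem_band hz' (2 * Real.pi)
      simpa using this
    rw [← g4 hz2, ← g4 hz', g2 z (hsub hz')]
  have hy : (2 : ℝ) ∈ Ioo 1 r := ⟨by norm_num, by linarith⟩
  rw [evenExt_iff zero_le_one (by linarith) hf hp hy]
  obtain ⟨r', h1, h2⟩ := exists_between hr
  have hs : band 1 r' ⊆ band 1 r := band_subset le_rfl h2.le
  have := h r' h1 h2
  exact (evenExt_iff zero_le_one (by linarith) (hf.mono hs) (fun z hz => hp z (hs hz))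
    (y := 2) ⟨by norm_num, by linarith⟩).1 this

/-- the same with locally bounded directions: `DirBd` only on smaller strips (use `r' < r` arbitrary and `evenExt_iff`: the Fourier coefficients
do not depend on the line) -/
theorem DV_even' (R : ℝ) (hR : 3 ≤ R) : ∃ c0 : ℝ, 0 < c0 ∧ ∀ al ∈ JJ, ∀ r : ℝ, 3 < r → r ≤ R → ∀ Z X : ℂ → ℂ,
    NB c0 (-r) r Z X → Sym r Z X → ∀ A B : ℂ → ℂ, Sym r A B → DifferentiableOn ℂ A (strip r) → DifferentiableOn ℂ B (strip r) →
      EvenExt 1 r (DV al Z X A B) ∧ EvenExt 1 r (DS al Z X A B) ∧ EvenExt 1 r (DS0 al Z X A B) := by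
  obtain ⟨c0, hc0, H⟩ := DV_even R hR
  refine ⟨c0, hc0, ?_⟩
  intro al hal r hr hrR Z X hN hS A B hS' hA hB
  have key : ∀ r', 3 < r' → r' < r →
      EvenExt 1 r' (DV al Z X A B) ∧ EvenExt 1 r' (DS al Z X A B) ∧ EvenExt 1 r' (DS0 al Z X A B) := by
    intro r' h1 h2
    have ho : IsOpen (strip r) := isOpen_band _ _
    have hpA := G01_per hS'.aZ
    have hpB := G01_per hS'.aX
    obtain ⟨K1, hK1⟩ := bounded_strip h2 hA hpA
    obtain ⟨K2, hK2⟩ := bounded_strip h2 hB hpB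
    obtain ⟨K3, hK3⟩ := bounded_strip h2 (hA.deriv ho) (a06_deriv_periodic ho hpA)
    obtain ⟨K4, hK4⟩ := bounded_strip h2 (hB.deriv ho) (a06_deriv_periodic ho hpB)
    have hs : strip r' ⊆ strip r := band_subset (by linarith) h2.le
    refine H al hal r' h1.le (h2.le.trans hrR) Z X (G01_NBMono hN le_rfl (by linarith) h2.le)
      (G01_SymMono hS h2.le) A B (G01_SymMono hS' h2.le) (max (max K1 K2) (max K3 K4))
      ⟨hA.mono hs, hB.mono hs, fun z hz => ?_, fun z hz => ?_, fun z hz => ?_, fun z hz => ?_⟩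
    · exact (hK1 z hz.1.le hz.2.le).trans ((le_max_left _ _).trans (le_max_left _ _))
    · exact (hK2 z hz.1.le hz.2.le).trans ((le_max_right _ _).trans (le_max_left _ _))
    · exact (hK3 z hz.1.le hz.2.le).trans ((le_max_left _ _).trans (le_max_right _ _))
    · exact (hK4 z hz.1.le hz.2.le).trans ((le_max_right _ _).trans (le_max_right _ _))
  exact ⟨G01_union hr fun r' h1 h2 => (key r' h1 h2).1, G01_union hr fun r' h1 h2 => (key r' h1 h2).2.1,
    G01_union hr fun r' h1 h2 => (key r' h1 h2).2.2⟩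

theorem SS_even (R : ℝ) (hR : 3 ≤ R) : ∃ c0 : ℝ, 0 < c0 ∧ ∀ al ∈ JJ, ∀ r : ℝ, 3 ≤ r → r ≤ R → ∀ Z X : ℂ → ℂ,
    NB c0 (-r) r Z X → Sym r Z X → ∀ V0 mu : ℂ, EvenExt 1 r (SS al V0 mu Z X) ∧ EvenExt 1 r (fun t => Vf al Z X t - V0) := by
  obtain ⟨c1, hc1, H1⟩ := ext_basic R hR
  obtain ⟨c2, C2, hc2, hC2, hCc, H2⟩ := chord_bd_strip R (by linarith)
  refine ⟨min c1 c2, lt_min hc1 hc2, ?_⟩
  intro al hal r hr hrR Z X hN hS V0 mu
  have hr0 : 0 < r := by linarith
  have hr1 : 1 < r := by linarith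
  obtain ⟨-, -, -, hV, -, -, hSf, -⟩ :=
    H1 al hal r hr hrR Z X (G01_NBMono hN (min_le_left _ _) le_rfl le_rfl) hS
  have hCB := H2 al hal r c2 hr0 hrR hc2.le le_rfl Z X (G01_NBMono hN (min_le_right _ _) le_rfl le_rfl) hS
  have s1 : G01S al r Z X := G01_S hr0 hN.dZ hN.dX hS
  obtain ⟨-, -, -, -, -, hs92, hs94⟩ := JJ_bounds hal
  have hσ : 0 < Real.sin al := by linarith
  have hel : EvenExt 1 r (ell al Z X) := by
    refine EvenExt.of_strip (by linarith) ?_ ?_ ?_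
    · have h1 : DifferentiableOn ℂ (fun t => (nz al X t) ^ 2 + (nx al Z t) ^ 2) (strip r) :=
        ((G01_df_diff (al := al) hN.dX).pow 2).add ((G01_df_diff (al := al) hN.dZ).neg.pow 2)
      refine h1.cpow_const (fun t ht => ?_)
      have h2 := (hCB t ht).1.l2
      have h3 := (Complex.abs_re_le_norm _).trans (h2.trans hCc)
      left
      have h4 : ((nz al X t) ^ 2 + (nx al Z t) ^ 2 - (Real.sin al : ℂ) ^ 2).re =
          ((nz al X t) ^ 2 + (nx al Z t) ^ 2).re - Real.sin al ^ 2 := by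
        rw [sub_re, ← Complex.ofReal_pow, Complex.ofReal_re]
      rw [h4, abs_le] at h3
      have h5 : (0.92 : ℝ) ^ 2 ≤ Real.sin al ^ 2 := by
        apply pow_le_pow_left₀ (by norm_num)
        linarith
      norm_num at h5
      linarith [h3.1]
    · intro z hz
      have h1 := G01_df_per (al := al) (G01_per hS.aX) z hz
      have h2 := G01_df_per (al := al) (G01_per hS.aZ) z hz
      simp only [ell, nz, nx, h1, h2]
    · intro z hz
      have h1 := (G01_odd (al := al) hS.oX hz).2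
      have h2 := (G01_even (al := al) hS.eZ hz).2
      simp only [ell, nz, nx, h1, h2, neg_neg, neg_sq]
  have hsne : (Real.sin al : ℂ) ≠ 0 := Complex.ofReal_ne_zero.2 hσ.ne'
  have hinv : EvenExt 1 r (fun t => (ell al Z X t)⁻¹) := by
    refine EvenExt.inv zero_le_one hr1 hel hsne (fun z hz => ?_)
    have hz' : z ∈ strip r := band_subset (by linarith) le_rfl hz
    have h1 := (hCB z hz').1.ell
    rw [Complex.norm_real, Real.norm_of_nonneg hσ.le]
    linarith
  have hq : EvenExt 1 r (fun t => nz al X t * (ell al Z X t)⁻¹) := s1.dX.mul hinv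
  have hq2 := hq.mul hq
  have hq4 := hq2.mul hq2
  have hY : EvenExt 1 r (Yf al Z X) := by
    have h1 := (hel.mul ((((EvenExt.const 35).mul hq4).sub ((EvenExt.const 30).mul hq2)).add
      (EvenExt.const 3))).mul (EvenExt.const (8 : ℂ)⁻¹)
    refine h1.congr (fun t _ => ?_)
    simp only [Yf]
    ring
  constructor
  · have h1 := ((hSf.add ((EvenExt.const V0).mul (G01_et s1))).sub
      ((EvenExt.const (M0 al : ℂ)).mul hel)).add ((EvenExt.const mu).mul hY)
    exact h1.congr (fun t _ => rfl)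
  · exact hV.sub (EvenExt.const V0)

/-- `maxP` for functions given on the upper band -/
theorem EvenExt.bound {f : ℂ → ℂ} {a a' b M : ℝ} (ha : 0 ≤ a) (ha' : a ≤ a') (hab : a' < b) (h : EvenExt a b f)
    (hM : ∀ z ∈ band a' b, ‖f z‖ ≤ M) : ∀ z ∈ band a b, ‖f z‖ ≤ M := by
  obtain ⟨u, h1, h2, h3, h4⟩ := h
  have hsub : band a' b ⊆ band a b := band_subset ha' le_rfl
  have hs : band a b ⊆ strip b := band_subset (by linarith) le_rfl
  have h5 := maxP (ha.trans ha') hab h1 h2 (fun z hz => by rw [h3 z hz]) (M := M) (fun z hz => by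
    rw [h4 (hsub hz)]; exact hM z hz)
  intro z hz
  rw [← h4 hz]
  exact h5 z (hs hz)

end FB
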