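import Pool.Agent.H48.FB.G00
import Pool.Agent.H48.FB.G01
import Pool.Agent.H48.FB.A10

/-! G03: the sphere operator is diagonal in the Legendre functions. -/

open Complex Set MeasureTheory Filter Topology

noncomputable section

namespace FB

/-- the companion operator on functions of angular type `m = 1` -/
def L1op (al : ℝ) (f : ℂ → ℂ) (t : ℂ) : ℂ :=
  ∫ s in (-al)..al, (Real.sin al : ℂ) * sin t * sin (t + (s:ℂ)) ^ 2 / 2 * Wf (kk al (s:ℂ) * q0 t (s:ℂ)) * f (t + (s:ℂ))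

/-! ### the variable `y = kk q0` -/

/-- the real square root -/
def g3k (al s : ℝ) : ℝ := Real.sqrt (Real.cos s - Real.cos al)

def g3y (al : ℝ) (t : ℂ) (s : ℝ) : ℂ := ((g3k al s : ℝ) : ℂ) * q0 t (s:ℂ)

theorem g3_cos_le {al s : ℝ} (hal : al ∈ JJ) (hs : s ∈ Icc (-al) al) :
    Real.cos al ≤ Real.cos s := by
  obtain ⟨h1, h2, h3, -⟩ := JJ_bounds hal
  have hpi := Real.pi_pos
  have hs' : |s| ≤ al := abs_le.2 ⟨hs.1, hs.2⟩
  rw [← Real.cos_abs s]
  exact Real.cos_le_cos_of_nonneg_of_le_pi (abs_nonneg s) (by linarith) hs'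

theorem g3_kk {al s : ℝ} (hal : al ∈ JJ) (hs : s ∈ Icc (-al) al) :
    kk al (s:ℂ) = ((g3k al s : ℝ) : ℂ) := kk_real (g3_cos_le hal hs)

theorem g3k_sq {al s : ℝ} (hal : al ∈ JJ) (hs : s ∈ Icc (-al) al) :
    ((g3k al s : ℝ) : ℂ) ^ 2 = cos (s:ℂ) - (Real.cos al : ℂ) := by
  rw [← ofReal_pow, g3k, Real.sq_sqrt (by linarith [g3_cos_le hal hs]), ofReal_sub, ofReal_cos]

theorem g3k_sq_le {al : ℝ} (hal : al ∈ JJ) (s : ℝ) : (g3k al s) ^ 2 ≤ 0.64 := by
  obtain ⟨-, -, -, h1, -⟩ := JJ_bounds hal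
  rw [g3k]
  rcases le_total 0 (Real.cos s - Real.cos al) with h | h
  · rw [Real.sq_sqrt h]
    linarith [Real.cos_le_one s]
  · rw [Real.sqrt_eq_zero_of_nonpos h]
    norm_num

theorem g3k_continuous (al : ℝ) : Continuous (g3k al) := by
  unfold g3k; fun_prop

theorem g3k_end {al : ℝ} : g3k al al = 0 ∧ g3k al (-al) = 0 := by
  unfold g3k
  rw [Real.cos_neg, sub_self, Real.sqrt_zero]
  exact ⟨rfl, rfl⟩

theorem g3_im {t : ℂ} (s : ℝ) : (t + (s:ℂ)).im = t.im := by simp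

theorem g3_sin_ne {t : ℂ} (ht : 1 < t.im) (s : ℝ) : sin t ≠ 0 ∧ sin (t + (s:ℂ)) ≠ 0 := by
  refine ⟨sin_ne_zero_of_im (by linarith), sin_ne_zero_of_im ?_⟩
  rw [g3_im]
  linarith

theorem g3y_sq' {al s : ℝ} {t : ℂ} (ht : 1 < t.im) :
    g3y al t s ^ 2 = ((g3k al s : ℝ) : ℂ) ^ 2 / (sin t * sin (t + (s:ℂ))) := by
  have h := (q0_sq (t := t) (s := (s:ℂ)) ht.le (by rw [g3_im]; exact ht.le)).1
  rw [g3y, mul_pow, h]
  ring

theorem g3y_sq {al s : ℝ} (hal : al ∈ JJ) (hs : s ∈ Icc (-al) al) {t : ℂ} (ht : 1 < t.im) :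
    g3y al t s ^ 2 = (cos (s:ℂ) - (Real.cos al : ℂ)) / (sin t * sin (t + (s:ℂ))) := by
  rw [g3y_sq' ht, g3k_sq hal hs]

theorem g3_sin_prod {t : ℂ} (ht : 1 < t.im) (s : ℝ) : 1.38 ≤ ‖sin t * sin (t + (s:ℂ))‖ := by
  have h1 := sin_im_ge (t := t) ht.le
  have h2 := sin_im_ge (t := t + (s:ℂ)) (by rw [g3_im]; exact ht.le)
  rw [norm_mul]
  have h3 : (1.38 : ℝ) ^ 2 ≤ (‖sin t‖ * ‖sin (t + (s:ℂ))‖) ^ 2 := by
    rw [mul_pow, sq (1.38 : ℝ)]
    exact mul_le_mul h1 h2 (by norm_num) (by positivity)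
  exact (sq_le_sq₀ (by norm_num) (by positivity)).1 h3

theorem g3y_norm {al : ℝ} (hal : al ∈ JJ) (s : ℝ) {t : ℂ} (ht : 1 < t.im) :
    ‖g3y al t s‖ ^ 2 ≤ 1 / 2 := by
  rw [← norm_pow, g3y_sq' ht, norm_div]
  have h1 := g3_sin_prod ht s
  rw [div_le_iff₀ (by linarith)]
  have h2 : ‖((g3k al s : ℝ) : ℂ) ^ 2‖ = (g3k al s) ^ 2 := by
    rw [norm_pow, Complex.norm_real, Real.norm_eq_abs, sq_abs]
  rw [h2]
  have h3 := g3k_sq_le hal s
  linarith

theorem g3y_lt {al : ℝ} (hal : al ∈ JJ) (s : ℝ) {t : ℂ} (ht : 1 < t.im) :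
    ‖g3y al t s‖ ^ 2 < 2 := (g3y_norm hal s ht).trans_lt (by norm_num)

theorem g3y_cont {al : ℝ} : ContinuousOn (fun p : ℂ × ℝ => g3y al p.1 p.2) ({t : ℂ | 1 < t.im} ×ˢ univ) := by
  intro p hp
  obtain ⟨hp1, -⟩ := hp
  have h1 := (q0_diff (t := p.1) (s := (p.2 : ℂ)) (le_of_lt hp1)
    (by rw [g3_im]; exact le_of_lt hp1)).2.2
  have h2 : ContinuousAt (fun p : ℂ × ℝ => q0 p.1 (p.2:ℂ)) p :=
    ContinuousAt.comp (f := fun p : ℂ × ℝ => ((p.1, (p.2 : ℂ)) : ℂ × ℂ))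
      (g := fun p : ℂ × ℂ => q0 p.1 p.2) h1
      (Continuous.continuousAt (by fun_prop))
  have h3 : ContinuousAt (fun p : ℂ × ℝ => ((g3k al p.2 : ℝ) : ℂ)) p :=
    (continuous_ofReal.comp ((g3k_continuous al).comp continuous_snd)).continuousAt
  exact (h3.mul h2).continuousWithinAt

/-- `2 y ∂_t y` at fixed `s` -/
def g3Et (al : ℝ) (t : ℂ) (s : ℝ) : ℂ :=
  -((cos (s:ℂ) - (Real.cos al : ℂ)) * (cos t * sin (t + (s:ℂ)) + sin t * cos (t + (s:ℂ)))) /
    (sin t ^ 2 * sin (t + (s:ℂ)) ^ 2)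

/-- `2 y ∂_s y` -/
def g3Es (al : ℝ) (t : ℂ) (s : ℝ) : ℂ :=
  (-sin (s:ℂ) * sin (t + (s:ℂ)) - (cos (s:ℂ) - (Real.cos al : ℂ)) * cos (t + (s:ℂ))) /
    (sin t * sin (t + (s:ℂ)) ^ 2)

theorem g3y_dt {al : ℝ} (hal : al ∈ JJ) {s : ℝ} (hs : s ∈ Icc (-al) al) {t : ℂ} (ht : 1 < t.im) :
    ∃ y' : ℂ, HasDerivAt (fun t => g3y al t s) y' t ∧ 2 * g3y al t s * y' = g3Et al t s := by
  have h1 := (q0_diff (t := t) (s := (s : ℂ)) ht.le (by rw [g3_im]; exact ht.le)).1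
  have h2 : HasDerivAt (fun t => g3y al t s) (((g3k al s : ℝ) : ℂ) * deriv (fun t => q0 t (s:ℂ)) t) t :=
    h1.hasDerivAt.const_mul _
  refine ⟨_, h2, ?_⟩
  have h3 := h2.pow 2
  have h4 : (fun t => g3y al t s) ^ 2 =ᶠ[𝓝 t]
      fun t => (cos (s:ℂ) - (Real.cos al : ℂ)) / (sin t * sin (t + (s:ℂ))) := by
    have : {t : ℂ | 1 < t.im} ∈ 𝓝 t :=
      (isOpen_lt continuous_const continuous_im).mem_nhds ht
    filter_upwards [this] with z hz
    exact g3y_sq hal hs hz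
  obtain ⟨hs1, hs2⟩ := g3_sin_ne ht s
  have h5 : HasDerivAt (fun t : ℂ => sin t * sin (t + (s:ℂ)))
      (cos t * sin (t + (s:ℂ)) + sin t * cos (t + (s:ℂ))) t := by
    have h6 : HasDerivAt (fun t : ℂ => sin (t + (s:ℂ))) (cos (t + (s:ℂ))) t :=
      (Complex.hasDerivAt_sin _).comp_add_const t (s:ℂ)
    exact (Complex.hasDerivAt_sin t).mul h6
  have h7 := (hasDerivAt_const t (cos (s:ℂ) - (Real.cos al : ℂ))).div h5 (mul_ne_zero hs1 hs2)
  have h8 := (h3.congr_of_eventuallyEq h4.symm).unique h7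
  simp only [Nat.cast_ofNat, Nat.reduceSub, pow_one] at h8
  rw [h8, g3Et]
  field_simp
  ring

theorem g3y_ds {al : ℝ} (hal : al ∈ JJ) {s : ℝ} (hs : s ∈ Ioo (-al) al) {t : ℂ} (ht : 1 < t.im) :
    ∃ y' : ℂ, HasDerivAt (fun s : ℝ => g3y al t s) y' s ∧ 2 * g3y al t s * y' = g3Es al t s := by
  have h1 := (q0_diff (t := t) (s := (s : ℂ)) ht.le (by rw [g3_im]; exact ht.le)).2.1
  have h1' : HasDerivAt (fun s : ℝ => q0 t (s:ℂ)) (deriv (fun s => q0 t s) (s:ℂ)) s :=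
    h1.hasDerivAt.comp_ofReal
  have hpos : 0 < Real.cos s - Real.cos al := by linarith [cos_gt hal hs]
  have h0 : HasDerivAt (fun s : ℝ => Real.cos s - Real.cos al) (-Real.sin s) s :=
    (Real.hasDerivAt_cos s).sub_const _
  have hk : HasDerivAt (g3k al) (-Real.sin s / (2 * Real.sqrt (Real.cos s - Real.cos al))) s :=
    h0.sqrt hpos.ne'
  have h2 := (hk.ofReal_comp).mul h1'
  refine ⟨_, h2, ?_⟩
  have h3 := h2.pow 2
  have h4 : (fun s : ℝ => ((g3k al s : ℝ) : ℂ) * q0 t (s:ℂ)) ^ 2 =ᶠ[𝓝 s]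
      fun s : ℝ => (cos (s:ℂ) - (Real.cos al : ℂ)) / (sin t * sin (t + (s:ℂ))) := by
    filter_upwards [Ioo_mem_nhds hs.1 hs.2] with z hz
    exact g3y_sq hal ⟨hz.1.le, hz.2.le⟩ ht
  obtain ⟨hs1, hs2⟩ := g3_sin_ne ht s
  have h5 : HasDerivAt (fun s : ℝ => sin t * sin (t + (s:ℂ)))
      (sin t * cos (t + (s:ℂ))) s := by
    have h6 : HasDerivAt (fun s : ℂ => sin (t + s)) (cos (t + (s:ℂ))) (s:ℂ) :=
      (Complex.hasDerivAt_sin _).comp_const_add t (s:ℂ)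
    exact (h6.comp_ofReal).const_mul _
  have h5' : HasDerivAt (fun s : ℝ => cos (s:ℂ) - (Real.cos al : ℂ)) (-sin (s:ℂ)) s :=
    ((Complex.hasDerivAt_cos (s:ℂ)).comp_ofReal).sub_const _
  have h7 := h5'.div h5 (mul_ne_zero hs1 hs2)
  have h8 := (h3.congr_of_eventuallyEq h4.symm).unique h7
  simp only [Nat.cast_ofNat, Nat.reduceSub, pow_one] at h8
  rw [show g3y al t s = ((g3k al s : ℝ) : ℂ) * q0 t (s:ℂ) from rfl]
  rw [Pi.mul_apply] at h8
  rw [h8, g3Es]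
  field_simp

/-! ### the kernels -/

/-- kernel of `L0` -/
def g3K (al : ℝ) (t : ℂ) (s : ℝ) : ℂ :=
  (Real.sin al : ℂ) * sin t * sin (t + (s:ℂ)) ^ 2 * Lf (g3y al t s)

/-- kernel of `L1op` -/
def g3J (al : ℝ) (t : ℂ) (s : ℝ) : ℂ :=
  (Real.sin al : ℂ) * sin t * sin (t + (s:ℂ)) ^ 2 / 2 * Wf (g3y al t s)

theorem g3K_eq {al : ℝ} (hal : al ∈ JJ) {s : ℝ} (hs : s ∈ Icc (-al) al) (t : ℂ) :
    kk al (s:ℂ) ^ 3 * K0 al t (s:ℂ) = g3K al t s := by
  have h1 : (cos (s:ℂ) - (Real.cos al : ℂ)) * q0 t (s:ℂ) ^ 2 = g3y al t s ^ 2 := by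
    rw [g3y, mul_pow, g3k_sq hal hs]
  rw [g3K, K0, h1, g3_kk hal hs, Lf, show g3y al t s = ((g3k al s : ℝ) : ℂ) * q0 t (s:ℂ) from rfl]
  ring

theorem L0_eq {al : ℝ} (hal : al ∈ JJ) (f : ℂ → ℂ) (t : ℂ) :
    L0 al f t = ∫ s in (-al)..al, g3K al t s * f (t + (s:ℂ)) := by
  have hal0 : -al ≤ al := by linarith [(JJ_bounds hal).1]
  unfold L0
  refine intervalIntegral.integral_congr fun s hs => ?_
  rw [uIcc_of_le hal0] at hs
  show kk al (s:ℂ) ^ 3 * K0 al t (s:ℂ) * f (t + (s:ℂ)) = _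
  rw [g3K_eq hal hs]

theorem L1op_eq {al : ℝ} (hal : al ∈ JJ) (f : ℂ → ℂ) (t : ℂ) :
    L1op al f t = ∫ s in (-al)..al, g3J al t s * f (t + (s:ℂ)) := by
  have hal0 : -al ≤ al := by linarith [(JJ_bounds hal).1]
  unfold L1op
  refine intervalIntegral.integral_congr fun s hs => ?_
  rw [uIcc_of_le hal0] at hs
  show (Real.sin al : ℂ) * sin t * sin (t + (s:ℂ)) ^ 2 / 2 * Wf (kk al (s:ℂ) * q0 t (s:ℂ)) * f (t + (s:ℂ)) = _
  rw [g3_kk hal hs]
  rfl

theorem g3K_end {al : ℝ} (t : ℂ) : g3K al t al = 0 ∧ g3K al t (-al) = 0 := by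
  obtain ⟨h1, h2⟩ := g3k_end (al := al)
  have h0 : Lf 0 = 0 := by simp [Lf]
  constructor
  · rw [g3K, g3y, h1, ofReal_zero, zero_mul, h0, mul_zero]
  · rw [g3K, g3y, h2, ofReal_zero, zero_mul, h0, mul_zero]

theorem g3J_end {al : ℝ} (t : ℂ) : g3J al t al = 0 ∧ g3J al t (-al) = 0 := by
  obtain ⟨h1, h2⟩ := g3k_end (al := al)
  have h0 : Wf 0 = 0 := by simp [Wf, Af, Uf]
  constructor
  · rw [g3J, g3y, h1, ofReal_zero, zero_mul, h0, mul_zero]
  · rw [g3J, g3y, h2, ofReal_zero, zero_mul, h0, mul_zero]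

def g3Kt (al : ℝ) (t : ℂ) (s : ℝ) : ℂ :=
  (Real.sin al : ℂ) * ((cos t * sin (t + (s:ℂ)) ^ 2 + 2 * sin t * sin (t + (s:ℂ)) * cos (t + (s:ℂ))) *
    Lf (g3y al t s) + sin t * sin (t + (s:ℂ)) ^ 2 * (Af (g3y al t s) * g3Et al t s))

def g3Jt (al : ℝ) (t : ℂ) (s : ℝ) : ℂ :=
  (Real.sin al : ℂ) * ((cos t * sin (t + (s:ℂ)) ^ 2 + 2 * sin t * sin (t + (s:ℂ)) * cos (t + (s:ℂ))) / 2 *
    Wf (g3y al t s) + sin t * sin (t + (s:ℂ)) ^ 2 * (Uf (g3y al t s) * g3Et al t s))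

def g3Ks (al : ℝ) (t : ℂ) (s : ℝ) : ℂ :=
  (Real.sin al : ℂ) * (2 * sin t * sin (t + (s:ℂ)) * cos (t + (s:ℂ)) *
    Lf (g3y al t s) + sin t * sin (t + (s:ℂ)) ^ 2 * (Af (g3y al t s) * g3Es al t s))

def g3Js (al : ℝ) (t : ℂ) (s : ℝ) : ℂ :=
  (Real.sin al : ℂ) * (sin t * sin (t + (s:ℂ)) * cos (t + (s:ℂ)) *
    Wf (g3y al t s) + sin t * sin (t + (s:ℂ)) ^ 2 * (Uf (g3y al t s) * g3Es al t s))

theorem g3_Wf' {y : ℂ} (hy : ‖y‖ ^ 2 < 2) : HasDerivAt Wf (4 * y * Uf y) y := by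
  refine (hasDerivAt_Wf hy).congr_deriv ?_
  rw [Uf]; ring

theorem g3K_dt {al : ℝ} (hal : al ∈ JJ) {s : ℝ} (hs : s ∈ Icc (-al) al) {t : ℂ} (ht : 1 < t.im) :
    HasDerivAt (fun t => g3K al t s) (g3Kt al t s) t := by
  obtain ⟨y', h1, h2⟩ := g3y_dt hal hs ht
  have h3 : HasDerivAt (fun t => Lf (g3y al t s)) (2 * g3y al t s * Af (g3y al t s) * y') t :=
    HasDerivAt.comp (h₂ := Lf) t (hasDerivAt_Lf (g3y_lt hal s ht)) h1
  have h4 : HasDerivAt (fun t : ℂ => sin (t + (s:ℂ))) (cos (t + (s:ℂ))) t :=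
    (Complex.hasDerivAt_sin _).comp_add_const t (s:ℂ)
  have h5 := (((Complex.hasDerivAt_sin t).const_mul (Real.sin al : ℂ)).mul (h4.pow 2)).mul h3
  refine h5.congr_deriv ?_
  rw [g3Kt, ← h2]
  simp only [Pi.mul_apply, Pi.pow_apply]
  push_cast
  ring

theorem g3J_dt {al : ℝ} (hal : al ∈ JJ) {s : ℝ} (hs : s ∈ Icc (-al) al) {t : ℂ} (ht : 1 < t.im) :
    HasDerivAt (fun t => g3J al t s) (g3Jt al t s) t := by
  obtain ⟨y', h1, h2⟩ := g3y_dt hal hs ht
  have h3 : HasDerivAt (fun t => Wf (g3y al t s)) (4 * g3y al t s * Uf (g3y al t s) * y') t :=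
    HasDerivAt.comp (h₂ := Wf) t (g3_Wf' (g3y_lt hal s ht)) h1
  have h4 : HasDerivAt (fun t : ℂ => sin (t + (s:ℂ))) (cos (t + (s:ℂ))) t :=
    (Complex.hasDerivAt_sin _).comp_add_const t (s:ℂ)
  have h5 := ((((Complex.hasDerivAt_sin t).const_mul (Real.sin al : ℂ)).mul (h4.pow 2)).div_const 2).mul h3
  refine h5.congr_deriv ?_
  rw [g3Jt, ← h2]
  simp only [Pi.mul_apply, Pi.pow_apply]
  push_cast
  ring

theorem g3K_ds {al : ℝ} (hal : al ∈ JJ) {s : ℝ} (hs : s ∈ Ioo (-al) al) {t : ℂ} (ht : 1 < t.im) :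
    HasDerivAt (fun s : ℝ => g3K al t s) (g3Ks al t s) s := by
  obtain ⟨y', h1, h2⟩ := g3y_ds hal hs ht
  have h3 : HasDerivAt (fun s : ℝ => Lf (g3y al t s)) (2 * g3y al t s * Af (g3y al t s) * y') s :=
    (hasDerivAt_Lf (g3y_lt hal s ht)).comp_of_eq s h1 rfl
  have h4 : HasDerivAt (fun s : ℝ => sin (t + (s:ℂ))) (cos (t + (s:ℂ))) s := by
    have h6 : HasDerivAt (fun s : ℂ => sin (t + s)) (cos (t + (s:ℂ))) (s:ℂ) :=
      (Complex.hasDerivAt_sin _).comp_const_add t (s:ℂ)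
    exact h6.comp_ofReal
  have h5 := (((h4.pow 2)).const_mul ((Real.sin al : ℂ) * sin t)).mul h3
  refine h5.congr_deriv ?_
  rw [g3Ks, ← h2]
  simp only [Pi.pow_apply]
  push_cast
  ring

theorem g3J_ds {al : ℝ} (hal : al ∈ JJ) {s : ℝ} (hs : s ∈ Ioo (-al) al) {t : ℂ} (ht : 1 < t.im) :
    HasDerivAt (fun s : ℝ => g3J al t s) (g3Js al t s) s := by
  obtain ⟨y', h1, h2⟩ := g3y_ds hal hs ht
  have h3 : HasDerivAt (fun s : ℝ => Wf (g3y al t s)) (4 * g3y al t s * Uf (g3y al t s) * y') s :=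
    (g3_Wf' (g3y_lt hal s ht)).comp_of_eq s h1 rfl
  have h4 : HasDerivAt (fun s : ℝ => sin (t + (s:ℂ))) (cos (t + (s:ℂ))) s := by
    have h6 : HasDerivAt (fun s : ℂ => sin (t + s)) (cos (t + (s:ℂ))) (s:ℂ) :=
      (Complex.hasDerivAt_sin _).comp_const_add t (s:ℂ)
    exact h6.comp_ofReal
  have h5 := ((((h4.pow 2)).const_mul ((Real.sin al : ℂ) * sin t)).div_const 2).mul h3
  refine h5.congr_deriv ?_
  rw [g3Js, ← h2]
  simp only [Pi.pow_apply]
  push_cast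
  ring

/-- the two intertwining identities -/
theorem g3_ident {al : ℝ} (hal : al ∈ JJ) {s : ℝ} (hs : s ∈ Icc (-al) al) {t : ℂ} (ht : 1 < t.im) :
    g3Kt al t s = g3Ks al t s - g3Js al t s ∧
    g3Jt al t s = g3Js al t s - g3Ks al t s - cos t / sin t * g3J al t s +
      cos (t + (s:ℂ)) / sin (t + (s:ℂ)) * g3K al t s := by
  obtain ⟨hs1, hs2⟩ := g3_sin_ne ht s
  have hlt := g3y_lt hal s ht
  have hL := Lf_eq hlt
  have hW : Wf (g3y al t s) = Af (g3y al t s) - (1 - g3y al t s ^ 2) * Uf (g3y al t s) := rfl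
  have hsq := g3y_sq hal hs ht
  have hcs : cos (s:ℂ) = cos t * cos (t + (s:ℂ)) + sin t * sin (t + (s:ℂ)) := by
    rw [← Complex.cos_sub, ← Complex.cos_neg]; congr 1; ring
  have hss : sin (s:ℂ) = sin (t + (s:ℂ)) * cos t - cos (t + (s:ℂ)) * sin t := by
    rw [← Complex.sin_sub]; congr 1; ring
  have e1 := Complex.sin_sq_add_cos_sq t
  have e2 := Complex.sin_sq_add_cos_sq (t + (s:ℂ))
  unfold g3Kt g3Ks g3Js g3Jt g3J g3K g3Et g3Es
  rw [hL, hW, hsq, hcs, hss]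
  generalize Af (g3y al t s) = A
  generalize Uf (g3y al t s) = U
  generalize (Real.cos al : ℂ) = ca
  generalize (Real.sin al : ℂ) = sa
  generalize cos t = C at *
  generalize sin t = S at *
  generalize cos (t + (s:ℂ)) = D at *
  generalize sin (t + (s:ℂ)) = R at *
  constructor
  · field_simp
    clear hsq hcs hss hL hW hlt
    grind
  · field_simp
    clear hsq hcs hss hL hW hlt
    grind

/-! ### continuity -/

theorem g3_cont_comp {al : ℝ} (hal : al ∈ JJ) {G : ℂ → ℂ} {G' : ℂ → ℂ}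
    (hG : ∀ y : ℂ, ‖y‖ ^ 2 < 2 → HasDerivAt G (G' y) y) :
    ContinuousOn (fun p : ℂ × ℝ => G (g3y al p.1 p.2)) ({t : ℂ | 1 < t.im} ×ˢ univ) := by
  intro p hp
  have h1 := g3y_cont (al := al) p hp
  have h2 : ContinuousAt G (g3y al p.1 p.2) := (hG _ (g3y_lt hal p.2 hp.1)).continuousAt
  exact h2.comp_continuousWithinAt (f := fun p : ℂ × ℝ => g3y al p.1 p.2) h1

theorem g3_cont_Lf {al : ℝ} (hal : al ∈ JJ) :
    ContinuousOn (fun p : ℂ × ℝ => Lf (g3y al p.1 p.2)) ({t : ℂ | 1 < t.im} ×ˢ univ) :=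
  g3_cont_comp hal fun _ hy => hasDerivAt_Lf hy

theorem g3_cont_Wf {al : ℝ} (hal : al ∈ JJ) :
    ContinuousOn (fun p : ℂ × ℝ => Wf (g3y al p.1 p.2)) ({t : ℂ | 1 < t.im} ×ˢ univ) :=
  g3_cont_comp hal fun _ hy => hasDerivAt_Wf hy

theorem g3_cont_Af {al : ℝ} (hal : al ∈ JJ) :
    ContinuousOn (fun p : ℂ × ℝ => Af (g3y al p.1 p.2)) ({t : ℂ | 1 < t.im} ×ˢ univ) :=
  g3_cont_comp hal fun _ hy => hasDerivAt_Af hy

theorem g3_cont_Uf {al : ℝ} (hal : al ∈ JJ) :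
    ContinuousOn (fun p : ℂ × ℝ => Uf (g3y al p.1 p.2)) ({t : ℂ | 1 < t.im} ×ˢ univ) :=
  g3_cont_comp hal fun _ hy => hasDerivAt_Uf hy

theorem g3_cont_shift {f : ℂ → ℂ} (hf : Continuous f) (S : Set (ℂ × ℝ)) :
    ContinuousOn (fun p : ℂ × ℝ => f (p.1 + (p.2:ℂ))) S :=
  (hf.comp (by fun_prop : Continuous fun p : ℂ × ℝ => p.1 + (p.2 : ℂ))).continuousOn

theorem g3_cont_fst {f : ℂ → ℂ} (hf : Continuous f) (S : Set (ℂ × ℝ)) :
    ContinuousOn (fun p : ℂ × ℝ => f p.1) S := (hf.comp continuous_fst).continuousOn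

theorem g3_cont_Et {al : ℝ} :
    ContinuousOn (fun p : ℂ × ℝ => g3Et al p.1 p.2) ({t : ℂ | 1 < t.im} ×ˢ univ) := by
  unfold g3Et
  refine ContinuousOn.div ?_ ?_ fun p hp => ?_
  · exact (by fun_prop : Continuous fun p : ℂ × ℝ =>
      -((cos (p.2:ℂ) - (Real.cos al : ℂ)) * (cos p.1 * sin (p.1 + (p.2:ℂ)) +
        sin p.1 * cos (p.1 + (p.2:ℂ))))).continuousOn
  · exact (by fun_prop : Continuous fun p : ℂ × ℝ =>
      sin p.1 ^ 2 * sin (p.1 + (p.2:ℂ)) ^ 2).continuousOn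
  · obtain ⟨h1, h2⟩ := g3_sin_ne hp.1 p.2
    exact mul_ne_zero (pow_ne_zero 2 h1) (pow_ne_zero 2 h2)

theorem g3_cont_K {al : ℝ} (hal : al ∈ JJ) :
    ContinuousOn (fun p : ℂ × ℝ => g3K al p.1 p.2) ({t : ℂ | 1 < t.im} ×ˢ univ) := by
  unfold g3K
  refine ContinuousOn.mul ?_ (g3_cont_Lf hal)
  exact (by fun_prop : Continuous fun p : ℂ × ℝ =>
    (Real.sin al : ℂ) * sin p.1 * sin (p.1 + (p.2:ℂ)) ^ 2).continuousOn

theorem g3_cont_J {al : ℝ} (hal : al ∈ JJ) :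
    ContinuousOn (fun p : ℂ × ℝ => g3J al p.1 p.2) ({t : ℂ | 1 < t.im} ×ˢ univ) := by
  unfold g3J
  refine ContinuousOn.mul ?_ (g3_cont_Wf hal)
  exact (by fun_prop : Continuous fun p : ℂ × ℝ =>
    (Real.sin al : ℂ) * sin p.1 * sin (p.1 + (p.2:ℂ)) ^ 2 / 2).continuousOn

theorem g3_cont_Kt {al : ℝ} (hal : al ∈ JJ) :
    ContinuousOn (fun p : ℂ × ℝ => g3Kt al p.1 p.2) ({t : ℂ | 1 < t.im} ×ˢ univ) := by
  unfold g3Kt
  refine ContinuousOn.mul continuousOn_const (ContinuousOn.add ?_ ?_)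
  · refine ContinuousOn.mul ?_ (g3_cont_Lf hal)
    exact (by fun_prop : Continuous fun p : ℂ × ℝ =>
      cos p.1 * sin (p.1 + (p.2:ℂ)) ^ 2 +
        2 * sin p.1 * sin (p.1 + (p.2:ℂ)) * cos (p.1 + (p.2:ℂ))).continuousOn
  · refine ContinuousOn.mul ?_ ((g3_cont_Af hal).mul g3_cont_Et)
    exact (by fun_prop : Continuous fun p : ℂ × ℝ =>
      sin p.1 * sin (p.1 + (p.2:ℂ)) ^ 2).continuousOn

theorem g3_cont_Jt {al : ℝ} (hal : al ∈ JJ) :
    ContinuousOn (fun p : ℂ × ℝ => g3Jt al p.1 p.2) ({t : ℂ | 1 < t.im} ×ˢ univ) := by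
  unfold g3Jt
  refine ContinuousOn.mul continuousOn_const (ContinuousOn.add ?_ ?_)
  · refine ContinuousOn.mul ?_ (g3_cont_Wf hal)
    exact (by fun_prop : Continuous fun p : ℂ × ℝ =>
      (cos p.1 * sin (p.1 + (p.2:ℂ)) ^ 2 +
        2 * sin p.1 * sin (p.1 + (p.2:ℂ)) * cos (p.1 + (p.2:ℂ))) / 2).continuousOn
  · refine ContinuousOn.mul ?_ ((g3_cont_Uf hal).mul g3_cont_Et)
    exact (by fun_prop : Continuous fun p : ℂ × ℝ =>
      sin p.1 * sin (p.1 + (p.2:ℂ)) ^ 2).continuousOn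

/-- continuity in `s` at fixed `t` -/
theorem g3_slice {F : ℂ × ℝ → ℂ} (hF : ContinuousOn F ({t : ℂ | 1 < t.im} ×ˢ univ)) {t : ℂ}
    (ht : 1 < t.im) : Continuous fun s : ℝ => F (t, s) := by
  refine continuous_iff_continuousAt.2 fun s => ?_
  have h1 : ContinuousAt F (t, s) := by
    refine hF.continuousAt ?_
    have h2 : ({t : ℂ | 1 < t.im} ×ˢ (univ : Set ℝ)) ∈ 𝓝 (t, s) :=
      prod_mem_nhds ((isOpen_lt continuous_const continuous_im).mem_nhds ht) univ_mem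
    exact h2
  exact ContinuousAt.comp (f := fun s : ℝ => (t, s)) (g := F) h1
    (Continuous.continuousAt (by fun_prop))

/-- differentiation under the integral sign -/
theorem g3_param {al : ℝ} (hal0 : 0 < al) {F F' : ℂ → ℝ → ℂ}
    (hF : ∀ t : ℂ, 1 < t.im → Continuous (F t))
    (hF' : ContinuousOn (fun p : ℂ × ℝ => F' p.1 p.2) ({t : ℂ | 1 < t.im} ×ˢ univ))
    (hd : ∀ t : ℂ, 1 < t.im → ∀ s ∈ Icc (-al) al, HasDerivAt (fun t => F t s) (F' t s) t)
    {t : ℂ} (ht : 1 < t.im) :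
    HasDerivAt (fun t => ∫ s in (-al)..al, F t s) (∫ s in (-al)..al, F' t s) t := by
  set ε : ℝ := (t.im - 1) / 2 with hε
  have hεpos : 0 < ε := by rw [hε]; linarith
  have hball : ∀ z ∈ Metric.closedBall t ε, 1 < z.im := by
    intro z hz
    rw [Metric.mem_closedBall, dist_eq_norm] at hz
    have h1 := abs_le.1 ((abs_im_le_norm (z - t)).trans hz)
    rw [sub_im] at h1
    linarith [h1.1]
  have hcomp : IsCompact (Metric.closedBall t ε ×ˢ Icc (-al) al) :=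
    (isCompact_closedBall t ε).prod isCompact_Icc
  have hsub : (Metric.closedBall t ε ×ˢ Icc (-al) al) ⊆ ({t : ℂ | 1 < t.im} ×ˢ (univ : Set ℝ)) :=
    fun p hp => ⟨hball p.1 hp.1, mem_univ _⟩
  obtain ⟨M, hM⟩ := hcomp.exists_bound_of_continuousOn (hF'.mono hsub)
  have hIoc : uIoc (-al) al ⊆ Icc (-al) al := by
    rw [uIoc_of_le (by linarith)]
    exact Ioc_subset_Icc_self
  have hopen : {t : ℂ | 1 < t.im} ∈ 𝓝 t :=
    (isOpen_lt continuous_const continuous_im).mem_nhds ht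
  refine (intervalIntegral.hasDerivAt_integral_of_dominated_loc_of_deriv_le
    (s := Metric.closedBall t ε) (bound := fun _ => M) (F := F) (F' := F')
    (Metric.closedBall_mem_nhds t hεpos) ?_ ?_ ?_ ?_ ?_ ?_).2
  · filter_upwards [hopen] with z hz
    exact (hF z hz).aestronglyMeasurable
  · exact (hF t ht).intervalIntegrable _ _
  · exact (g3_slice hF' ht).aestronglyMeasurable
  · refine Filter.Eventually.of_forall fun s hs z hz => ?_
    exact hM (z, s) ⟨hz, hIoc hs⟩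
  · exact intervalIntegrable_const
  · refine Filter.Eventually.of_forall fun s hs z hz => ?_
    exact hd z (hball z hz) s (hIoc hs)

theorem g3_shift_dt {f : ℂ → ℂ} (hf : Differentiable ℂ f) (t : ℂ) (s : ℝ) :
    HasDerivAt (fun t : ℂ => f (t + (s:ℂ))) (deriv f (t + (s:ℂ))) t :=
  (hf _).hasDerivAt.comp_add_const t (s:ℂ)

theorem g3_shift_ds {f : ℂ → ℂ} (hf : Differentiable ℂ f) (t : ℂ) (s : ℝ) :
    HasDerivAt (fun s : ℝ => f (t + (s:ℂ))) (deriv f (t + (s:ℂ))) s := by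
  have h6 : HasDerivAt (fun s : ℂ => f (t + s)) (deriv f (t + (s:ℂ))) (s:ℂ) :=
    (hf _).hasDerivAt.comp_const_add t (s:ℂ)
  exact h6.comp_ofReal

theorem g3_cont_deriv {f : ℂ → ℂ} (hf : Differentiable ℂ f) : Continuous (deriv f) :=
  (hf.deriv).continuous

/-- First order intertwining. With `y = kk q0`, `y^2 = (cos s - cos al)/(sin t sin β)`, `β = t + s`, `κ0 = sin al sin t sin^2 β Lf y` (kernel of `L0`, since
`kk^3 K0 = κ0`), `κ1 = (1/2) sin al sin t sin^2 β Wf y`. Partial derivatives with `∂_t, ∂_β` at fixed `β, t`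
(`Lf' = 2 y Af`, `Wf' = 4 y Uf`, `1 - y^2 = (cos al - cos t cos β)/(sin t sin β)`):
`∂_t κ0 = sin al sin β [- sin t cos β Af + cos t sin β Uf] = - ∂_β κ1`. Hence, integrating by parts (`κ0, κ1 → 0` at the ends, bounded
derivatives inside), `(L0 f)' = ∫ ∂_t κ0 f = ∫ κ1 f' = L1op f'`. -/
theorem L0_deriv {al : ℝ} (hal : al ∈ JJ) {f : ℂ → ℂ} (hf : Differentiable ℂ f) {t : ℂ} (ht : 1 < t.im) :
    HasDerivAt (L0 al f) (L1op al (deriv f) t) t := by
  have hal0 : 0 < al := by linarith [(JJ_bounds hal).1]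
  have hK := g3_cont_K hal
  have hJ := g3_cont_J hal
  have hKt := g3_cont_Kt hal
  have hcf : Continuous f := hf.continuous
  have hcf' := g3_cont_deriv hf
  have hfun : L0 al f = fun t => ∫ s in (-al)..al, g3K al t s * f (t + (s:ℂ)) := by
    funext t; exact L0_eq hal f t
  have h1 := g3_param hal0 (F := fun t s => g3K al t s * f (t + (s:ℂ)))
    (F' := fun t s => g3Kt al t s * f (t + (s:ℂ)) + g3K al t s * deriv f (t + (s:ℂ)))
    (fun t ht => (g3_slice hK ht).mul (hcf.comp (by fun_prop)))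
    ((hKt.mul (g3_cont_shift hcf _)).add (hK.mul (g3_cont_shift hcf' _)))
    (fun t ht s hs => (g3K_dt hal hs ht).mul (g3_shift_dt hf t s)) ht
  rw [hfun, L1op_eq hal]
  refine h1.congr_deriv ?_
  -- integration by parts
  have hH : ∫ s in (-al)..al, ((g3Ks al t s - g3Js al t s) * f (t + (s:ℂ)) +
      (g3K al t s - g3J al t s) * deriv f (t + (s:ℂ))) = 0 := by
    have hcong : ∀ s ∈ Icc (-al) al, (g3Ks al t s - g3Js al t s) * f (t + (s:ℂ)) +
        (g3K al t s - g3J al t s) * deriv f (t + (s:ℂ)) = g3Kt al t s * f (t + (s:ℂ)) +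
        (g3K al t s - g3J al t s) * deriv f (t + (s:ℂ)) := by
      intro s hs
      rw [(g3_ident hal hs ht).1]
    have h2 := intervalIntegral.integral_eq_sub_of_hasDerivAt_of_le (a := -al) (b := al)
      (f := fun s : ℝ => (g3K al t s - g3J al t s) * f (t + (s:ℂ)))
      (f' := fun s : ℝ => (g3Ks al t s - g3Js al t s) * f (t + (s:ℂ)) +
        (g3K al t s - g3J al t s) * deriv f (t + (s:ℂ))) (by linarith)
      ((((g3_slice hK ht).sub (g3_slice hJ ht)).mul (hcf.comp (by fun_prop))).continuousOn)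
      (fun s hs => ((g3K_ds hal hs ht).sub (g3J_ds hal hs ht)).mul (g3_shift_ds hf t s)) ?_
    · rw [h2]
      simp only [(g3K_end t).1, (g3K_end t).2, (g3J_end t).1, (g3J_end t).2]
      simp
    · have h3 : Continuous (fun s : ℝ => g3Kt al t s * f (t + (s:ℂ)) +
          (g3K al t s - g3J al t s) * deriv f (t + (s:ℂ))) :=
        ((g3_slice hKt ht).mul (hcf.comp (by fun_prop))).add
          (((g3_slice hK ht).sub (g3_slice hJ ht)).mul (hcf'.comp (by fun_prop)))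
      refine (h3.intervalIntegrable (-al) al).congr ?_
      intro s hs
      rw [uIoc_of_le (by linarith)] at hs
      exact (hcong s ⟨hs.1.le, hs.2⟩).symm
  have h4 : ∫ s in (-al)..al, (g3Kt al t s * f (t + (s:ℂ)) + g3K al t s * deriv f (t + (s:ℂ))) =
      (∫ s in (-al)..al, ((g3Ks al t s - g3Js al t s) * f (t + (s:ℂ)) +
      (g3K al t s - g3J al t s) * deriv f (t + (s:ℂ)))) +
      ∫ s in (-al)..al, g3J al t s * deriv f (t + (s:ℂ)) := by
    rw [← intervalIntegral.integral_add]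
    · refine intervalIntegral.integral_congr fun s hs => ?_
      rw [uIcc_of_le (by linarith)] at hs
      rw [(g3_ident hal hs ht).1]
      ring
    · have h3 : Continuous (fun s : ℝ => g3Kt al t s * f (t + (s:ℂ)) +
          (g3K al t s - g3J al t s) * deriv f (t + (s:ℂ))) :=
        ((g3_slice hKt ht).mul (hcf.comp (by fun_prop))).add
          (((g3_slice hK ht).sub (g3_slice hJ ht)).mul (hcf'.comp (by fun_prop)))
      refine (h3.intervalIntegrable (-al) al).congr ?_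
      intro s hs
      rw [uIoc_of_le (by linarith)] at hs
      beta_reduce
      rw [(g3_ident hal ⟨hs.1.le, hs.2⟩ ht).1]
    · exact ((g3_slice hJ ht).mul (hcf'.comp (by fun_prop))).intervalIntegrable _ _
  rw [h4, hH, zero_add]

/-- `∂_t κ1 + cot t κ1 = - ∂_β κ0 + cot β κ0`, so `(L1op g)' + cot t L1op g = L0 (g' + cot β g)`.
(`∂_β κ0`: by the symmetry `κ0/sin β` of `(t, β)`: `∂_β(κ0/sin β) = sin al [- cos t sin β Af + sin t cos β Uf]`;
`κ1/sin β` is symmetric too: `∂_t (κ1/sin β) = - (1/sin t) ∂..`: verify by direct computation.) -/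
theorem L1_deriv {al : ℝ} (hal : al ∈ JJ) {g : ℂ → ℂ} (hg : Differentiable ℂ g) {t : ℂ} (ht : 1 < t.im) :
    HasDerivAt (L1op al g) (L0 al (fun b => deriv g b + cos b / sin b * g b) t - cos t / sin t * L1op al g t) t := by
  have hal0 : 0 < al := by linarith [(JJ_bounds hal).1]
  have hK := g3_cont_K hal
  have hJ := g3_cont_J hal
  have hJt := g3_cont_Jt hal
  have hcf : Continuous g := hg.continuous
  have hcf' := g3_cont_deriv hg
  have hfun : L1op al g = fun t => ∫ s in (-al)..al, g3J al t s * g (t + (s:ℂ)) := by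
    funext t; exact L1op_eq hal g t
  have h1 := g3_param hal0 (F := fun t s => g3J al t s * g (t + (s:ℂ)))
    (F' := fun t s => g3Jt al t s * g (t + (s:ℂ)) + g3J al t s * deriv g (t + (s:ℂ)))
    (fun t ht => (g3_slice hJ ht).mul (hcf.comp (by fun_prop)))
    ((hJt.mul (g3_cont_shift hcf _)).add (hJ.mul (g3_cont_shift hcf' _)))
    (fun t ht s hs => (g3J_dt hal hs ht).mul (g3_shift_dt hg t s)) ht
  have hcot : Continuous fun s : ℝ => cos (t + (s:ℂ)) / sin (t + (s:ℂ)) :=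
    Continuous.div (by fun_prop) (by fun_prop) fun s => (g3_sin_ne ht s).2
  rw [hfun, L0_eq hal]
  simp only
  refine h1.congr_deriv ?_
  have hcont1 : Continuous fun s : ℝ =>
      g3K al t s * (deriv g (t + (s:ℂ)) + cos (t + (s:ℂ)) / sin (t + (s:ℂ)) * g (t + (s:ℂ))) :=
    (g3_slice hK ht).mul ((hcf'.comp (by fun_prop)).add (hcot.mul (hcf.comp (by fun_prop))))
  have hcont2 : Continuous fun s : ℝ => cos t / sin t * (g3J al t s * g (t + (s:ℂ))) :=
    continuous_const.mul ((g3_slice hJ ht).mul (hcf.comp (by fun_prop)))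
  have hcont3 : Continuous (fun s : ℝ => g3Jt al t s * g (t + (s:ℂ)) +
      g3J al t s * deriv g (t + (s:ℂ)) -
      g3K al t s * (deriv g (t + (s:ℂ)) + cos (t + (s:ℂ)) / sin (t + (s:ℂ)) * g (t + (s:ℂ))) +
      cos t / sin t * (g3J al t s * g (t + (s:ℂ)))) :=
    ((((g3_slice hJt ht).mul (hcf.comp (by fun_prop))).add
      ((g3_slice hJ ht).mul (hcf'.comp (by fun_prop)))).sub hcont1).add hcont2
  have hcong : ∀ s ∈ Icc (-al) al, (g3Js al t s - g3Ks al t s) * g (t + (s:ℂ)) +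
      (g3J al t s - g3K al t s) * deriv g (t + (s:ℂ)) = g3Jt al t s * g (t + (s:ℂ)) +
      g3J al t s * deriv g (t + (s:ℂ)) -
      g3K al t s * (deriv g (t + (s:ℂ)) + cos (t + (s:ℂ)) / sin (t + (s:ℂ)) * g (t + (s:ℂ))) +
      cos t / sin t * (g3J al t s * g (t + (s:ℂ))) := by
    intro s hs
    rw [(g3_ident hal hs ht).2]
    ring
  have hint : IntervalIntegrable (fun s : ℝ => (g3Js al t s - g3Ks al t s) * g (t + (s:ℂ)) +
      (g3J al t s - g3K al t s) * deriv g (t + (s:ℂ))) volume (-al) al := by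
    refine (hcont3.intervalIntegrable (-al) al).congr ?_
    intro s hs
    rw [uIoc_of_le (by linarith)] at hs
    exact (hcong s ⟨hs.1.le, hs.2⟩).symm
  have hH : ∫ s in (-al)..al, ((g3Js al t s - g3Ks al t s) * g (t + (s:ℂ)) +
      (g3J al t s - g3K al t s) * deriv g (t + (s:ℂ))) = 0 := by
    have h2 := intervalIntegral.integral_eq_sub_of_hasDerivAt_of_le (a := -al) (b := al)
      (f := fun s : ℝ => (g3J al t s - g3K al t s) * g (t + (s:ℂ)))
      (f' := fun s : ℝ => (g3Js al t s - g3Ks al t s) * g (t + (s:ℂ)) +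
        (g3J al t s - g3K al t s) * deriv g (t + (s:ℂ))) (by linarith)
      ((((g3_slice hJ ht).sub (g3_slice hK ht)).mul (hcf.comp (by fun_prop))).continuousOn)
      (fun s hs => ((g3J_ds hal hs ht).sub (g3K_ds hal hs ht)).mul (g3_shift_ds hg t s)) hint
    rw [h2]
    simp only [(g3K_end t).1, (g3K_end t).2, (g3J_end t).1, (g3J_end t).2]
    simp
  rw [← intervalIntegral.integral_const_mul, ← intervalIntegral.integral_sub
    (hcont1.intervalIntegrable _ _) (hcont2.intervalIntegrable _ _)]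
  have h4 : ∫ s in (-al)..al, (g3Jt al t s * g (t + (s:ℂ)) + g3J al t s * deriv g (t + (s:ℂ))) =
      (∫ s in (-al)..al, ((g3Js al t s - g3Ks al t s) * g (t + (s:ℂ)) +
      (g3J al t s - g3K al t s) * deriv g (t + (s:ℂ)))) +
      ∫ s in (-al)..al, (g3K al t s * (deriv g (t + (s:ℂ)) +
        cos (t + (s:ℂ)) / sin (t + (s:ℂ)) * g (t + (s:ℂ))) -
        cos t / sin t * (g3J al t s * g (t + (s:ℂ)))) := by
    have hcont4 : Continuous fun s : ℝ => g3K al t s * (deriv g (t + (s:ℂ)) +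
        cos (t + (s:ℂ)) / sin (t + (s:ℂ)) * g (t + (s:ℂ))) -
        cos t / sin t * (g3J al t s * g (t + (s:ℂ))) := hcont1.sub hcont2
    rw [← intervalIntegral.integral_add hint (hcont4.intervalIntegrable _ _)]
    refine intervalIntegral.integral_congr fun s hs => ?_
    rw [uIcc_of_le (by linarith)] at hs
    rw [hcong s hs]
    ring
  rw [h4, hH, zero_add]

/-! ### bounds -/

theorem g3_ratio {t : ℂ} (ht : 1 < t.im) (s : ℝ) :
    ‖sin (t + (s:ℂ))‖ ^ 2 ≤ 2 * ‖sin t‖ ^ 2 := by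
  have h1 := b01_sin_sq t
  have h2 := b01_sin_sq (t + (s:ℂ))
  rw [g3_im] at h2
  have h3 := sin_im_ge (t := t) ht.le
  have h4 : Real.sin (t + (s:ℂ)).re ^ 2 ≤ 1 := Real.sin_sq_le_one _
  nlinarith [sq_nonneg (Real.sin t.re)]

theorem g3_sin_y {al : ℝ} (hal : al ∈ JJ) {t : ℂ} (ht : 1 < t.im) (s : ℝ) :
    ‖sin (t + (s:ℂ)) * g3y al t s‖ ≤ 1 := by
  obtain ⟨h1, h2⟩ := g3_sin_ne ht s
  have hp1 := norm_pos_iff.2 h1
  have hp2 := norm_pos_iff.2 h2
  have h3 : ‖sin (t + (s:ℂ)) * g3y al t s‖ ^ 2 = (g3k al s) ^ 2 * (‖sin (t + (s:ℂ))‖ / ‖sin t‖) := by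
    rw [← norm_pow, mul_pow, g3y_sq' ht, norm_mul, norm_div, norm_pow, norm_pow, norm_mul,
      Complex.norm_real, Real.norm_eq_abs, sq_abs]
    field_simp
  have h4 : ‖sin (t + (s:ℂ))‖ / ‖sin t‖ ≤ 3 / 2 := by
    rw [div_le_iff₀ hp1]
    refine le_of_sq_le_sq ?_ (by positivity)
    rw [mul_pow]
    have := g3_ratio ht s
    nlinarith [sq_nonneg ‖sin t‖]
  have h5 := g3k_sq_le hal s
  have h6 : ‖sin (t + (s:ℂ)) * g3y al t s‖ ^ 2 ≤ 1 := by
    rw [h3]
    have h7 : (g3k al s) ^ 2 * (‖sin (t + (s:ℂ))‖ / ‖sin t‖) ≤ 0.64 * (3 / 2) :=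
      mul_le_mul h5 h4 (by positivity) (by norm_num)
    exact h7.trans (by norm_num)
  exact (sq_le_one_iff₀ (norm_nonneg _)).1 h6

theorem g3_afn {al : ℝ} (hal : al ∈ JJ) {t : ℂ} (ht : 1 < t.im) (s : ℝ) :
    ‖afn (g3y al t s ^ 2)‖ ≤ 3 / 2 := by
  have h1 := g3y_norm hal s ht
  rw [← norm_pow] at h1
  have h2 := afn_bound (w := g3y al t s ^ 2) (by linarith)
  have h3 : ‖(2 * Real.sqrt 2 / 3 : ℂ)‖ ≤ 1 := by
    have h4 : (2 * Real.sqrt 2 / 3 : ℂ) = ((2 * Real.sqrt 2 / 3 : ℝ) : ℂ) := by push_cast; ring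
    rw [h4, Complex.norm_real, Real.norm_eq_abs, abs_of_nonneg (by positivity)]
    have h5 : Real.sqrt 2 ≤ 3 / 2 := by
      rw [Real.sqrt_le_left (by norm_num)]
      norm_num
    linarith
  have h6 : ‖afn (g3y al t s ^ 2)‖ ≤ ‖afn (g3y al t s ^ 2) - (2 * Real.sqrt 2 / 3 : ℂ)‖ +
      ‖(2 * Real.sqrt 2 / 3 : ℂ)‖ := by
    have := norm_add_le (afn (g3y al t s ^ 2) - (2 * Real.sqrt 2 / 3 : ℂ)) (2 * Real.sqrt 2 / 3 : ℂ)
    rwa [sub_add_cancel] at this
  linarith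

/-- the kernel as a product of bounded factors -/
theorem g3K_fac {al : ℝ} {t : ℂ} (ht : 1 < t.im) (s : ℝ) :
    g3K al t s = (Real.sin al : ℂ) * ((g3k al s : ℝ) : ℂ) ^ 2 * (sin (t + (s:ℂ)) * g3y al t s) *
      afn (g3y al t s ^ 2) := by
  obtain ⟨h1, h2⟩ := g3_sin_ne ht s
  have h3 := g3y_sq' (al := al) (s := s) ht
  have h4 : sin t * sin (t + (s:ℂ)) * g3y al t s ^ 2 = ((g3k al s : ℝ) : ℂ) ^ 2 := by
    rw [h3]; field_simp
  rw [g3K, Lf, ← h4]
  ring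

theorem g3K_bd {al : ℝ} (hal : al ∈ JJ) {t : ℂ} (ht : 1 < t.im) (s : ℝ) : ‖g3K al t s‖ ≤ 1 := by
  obtain ⟨-, -, -, -, -, h1, h2⟩ := JJ_bounds hal
  rw [g3K_fac ht, norm_mul, norm_mul, norm_mul, norm_pow, Complex.norm_real, Complex.norm_real,
    Real.norm_eq_abs, Real.norm_eq_abs, sq_abs, abs_of_pos (by linarith)]
  have h3 := g3k_sq_le hal s
  have h4 := g3_sin_y hal ht s
  have h5 := g3_afn hal ht s
  calc Real.sin al * (g3k al s) ^ 2 * ‖sin (t + (s:ℂ)) * g3y al t s‖ * ‖afn (g3y al t s ^ 2)‖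
      ≤ 0.94 * 0.64 * 1 * (3 / 2) := by
        refine mul_le_mul (mul_le_mul (mul_le_mul h2.le h3 (sq_nonneg _) (by norm_num)) h4
          (norm_nonneg _) (by norm_num)) h5 (norm_nonneg _) (by norm_num)
    _ ≤ 1 := by norm_num

/-- bounds, linearity and continuity of `L0` -/
theorem L0_bd : ∃ C : ℝ, 0 < C ∧ ∀ al ∈ JJ, ∀ t : ℂ, 1 < t.im → ∀ f : ℂ → ℂ, (∀ s : ℝ, ContinuousAt f (t + s)) → ∀ M : ℝ,
    (∀ s ∈ Icc (-al) al, ‖f (t + (s:ℂ))‖ ≤ M) → ‖L0 al f t‖ ≤ C * M := by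
  refine ⟨3, by norm_num, ?_⟩
  intro al hal t ht f _ M hM
  obtain ⟨h1, h2, -⟩ := JJ_bounds hal
  have hM0 : 0 ≤ M := (norm_nonneg _).trans (hM 0 ⟨by linarith, by linarith⟩)
  rw [L0_eq hal]
  have h3 : ‖∫ s in (-al)..al, g3K al t s * f (t + (s:ℂ))‖ ≤ M * |al - -al| := by
    refine intervalIntegral.norm_integral_le_of_norm_le_const fun s hs => ?_
    rw [uIoc_of_le (by linarith)] at hs
    rw [norm_mul]
    calc ‖g3K al t s‖ * ‖f (t + (s:ℂ))‖ ≤ 1 * M :=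
          mul_le_mul (g3K_bd hal ht s) (hM s ⟨hs.1.le, hs.2⟩) (norm_nonneg _) zero_le_one
      _ = M := one_mul M
  refine h3.trans ?_
  rw [abs_of_pos (by linarith)]
  nlinarith

/-! ### the eigenvalue equation -/

theorem g3_circle_NB (c a b : ℝ) (hc : 0 ≤ c) : NB c a b cos sin where
  dZ := Complex.differentiable_cos.differentiableOn
  dX := Complex.differentiable_sin.differentiableOn
  z0 := fun z _ => by simpa using hc
  x0 := fun z _ => by simpa using hc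
  z1 := fun z _ => by rw [Complex.deriv_cos, neg_add_cancel, norm_zero]; exact hc
  x1 := fun z _ => by rw [Complex.deriv_sin, sub_self, norm_zero]; exact hc

theorem g3_circle_Sym (r : ℝ) : Sym r cos sin where
  eZ := fun z _ => Complex.cos_neg z
  oX := fun z _ => Complex.sin_neg z
  aZ := fun z _ => Complex.cos_add_pi z
  aX := fun z _ => Complex.sin_add_pi z

theorem g3_PL_Sym (n : ℕ) (r : ℝ) :
    Sym r (fun z => PL n z / 2 * cos z) (fun z => PL n z / 2 * sin z) where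
  eZ := fun z _ => by simp only [PL_neg, Complex.cos_neg]
  oX := fun z _ => by simp only [PL_neg, Complex.sin_neg]; ring
  aZ := fun z _ => by simp only [PL_pi, Complex.cos_add_pi]; ring
  aX := fun z _ => by simp only [PL_pi, Complex.sin_add_pi]; ring

theorem g3_ext {al : ℝ} (hal : al ∈ JJ) (n : ℕ) :
    ∃ g : ℂ → ℂ, DifferentiableOn ℂ g (strip 4) ∧ EqOn g (L0 al (PL n)) (band 1 4) := by
  obtain ⟨c0, hc0, h⟩ := DV_even' 4 (by norm_num)
  have h1 := (h al hal 4 (by norm_num) le_rfl cos sin (g3_circle_NB c0 _ _ hc0.le)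
    (g3_circle_Sym 4) (fun z => PL n z / 2 * cos z) (fun z => PL n z / 2 * sin z)
    (g3_PL_Sym n 4) ?_ ?_).2.2
  · obtain ⟨g, h2, -, -, h3⟩ := h1
    refine ⟨g, h2, fun z hz => ?_⟩
    rw [h3 hz]
    exact (DS0_circle hal (f := PL n) (b := 4) (PL_diff n).continuous.continuousOn hz).1
  · exact (((PL_diff n).div_const 2).mul Complex.differentiable_cos).differentiableOn
  · exact (((PL_diff n).div_const 2).mul Complex.differentiable_sin).differentiableOn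

theorem g3_L0_congr {al : ℝ} (hal : al ∈ JJ) {f g : ℂ → ℂ} {t : ℂ}
    (h : ∀ s : ℝ, f (t + (s:ℂ)) = g (t + (s:ℂ))) : L0 al f t = L0 al g t := by
  rw [L0_eq hal, L0_eq hal]
  refine intervalIntegral.integral_congr fun s _ => ?_
  rw [h s]

theorem g3_L0_smul {al : ℝ} (hal : al ∈ JJ) (c : ℂ) (f : ℂ → ℂ) (t : ℂ) :
    L0 al (fun b => c * f b) t = c * L0 al f t := by
  rw [L0_eq hal, L0_eq hal, ← intervalIntegral.integral_const_mul]
  refine intervalIntegral.integral_congr fun s _ => ?_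
  ring

/-- the second order equation of `M = L0 (PL n)` -/
theorem g3_ode {al : ℝ} (hal : al ∈ JJ) (n : ℕ) {t : ℂ} (ht : 1 < t.im) :
    HasDerivAt (L0 al (PL n)) (L1op al (deriv (PL n)) t) t ∧
    HasDerivAt (L1op al (deriv (PL n))) (-(2 * n * (2 * n + 1)) * L0 al (PL n) t -
      cos t / sin t * L1op al (deriv (PL n)) t) t := by
  refine ⟨L0_deriv hal (PL_diff n) ht, ?_⟩
  refine (L1_deriv hal ((PL_diff n).deriv) ht).congr_deriv ?_
  congr 1
  rw [← g3_L0_smul hal]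
  refine g3_L0_congr hal fun s => ?_
  have h1 := PL_ode n (t + (s:ℂ))
  have h2 := (g3_sin_ne ht s).2
  field_simp
  linear_combination h1

theorem g3_const {al : ℝ} (hal : al ∈ JJ) (n : ℕ) :
    ∃ l : ℂ, ∀ t ∈ band 1 4, L0 al (PL n) t = l * PL n t := by
  obtain ⟨g, hg, hgM⟩ := g3_ext hal n
  have hopen : IsOpen (strip 4) := isOpen_band _ _
  have hopen' : IsOpen (band 1 4) := isOpen_band _ _
  have hsub : band 1 4 ⊆ strip 4 := band_subset (by norm_num) le_rfl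
  set P : ℂ → ℂ := PL n with hP
  have hPd : Differentiable ℂ P := PL_diff n
  have hPd' : Differentiable ℂ (deriv P) := hPd.deriv
  have hg' : DifferentiableOn ℂ (deriv g) (strip 4) := hg.deriv hopen
  have hg'' : DifferentiableOn ℂ (deriv (deriv g)) (strip 4) := hg'.deriv hopen
  have hgA : ∀ z ∈ strip 4, HasDerivAt g (deriv g z) z := fun z hz =>
    ((hg z hz).differentiableAt (hopen.mem_nhds hz)).hasDerivAt
  have hgB : ∀ z ∈ strip 4, HasDerivAt (deriv g) (deriv (deriv g) z) z := fun z hz =>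
    ((hg' z hz).differentiableAt (hopen.mem_nhds hz)).hasDerivAt
  -- derivatives on the band
  have h1 : ∀ z ∈ band 1 4, deriv g z = L1op al (deriv P) z := fun z hz => by
    have h2 : g =ᶠ[𝓝 z] L0 al P := hgM.eventuallyEq_of_mem (hopen'.mem_nhds hz)
    rw [h2.deriv_eq]
    exact (g3_ode hal n hz.1).1.deriv
  have h2 : ∀ z ∈ band 1 4, deriv (deriv g) z = -(2 * n * (2 * n + 1)) * g z -
      cos z / sin z * deriv g z := fun z hz => by
    have h3 : deriv g =ᶠ[𝓝 z] L1op al (deriv P) :=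
      Set.EqOn.eventuallyEq_of_mem h1 (hopen'.mem_nhds hz)
    rw [h3.deriv_eq, (g3_ode hal n hz.1).2.deriv, hgM hz, h1 z hz]
  -- the equation on the strip
  have hode : EqOn (fun z => sin z * deriv (deriv g) z + cos z * deriv g z +
      2 * n * (2 * n + 1) * sin z * g z) (fun _ => 0) (strip 4) := by
    refine eqOn_band (a := -4) (b := 4) (a' := 1) (b' := 4) (by norm_num) le_rfl (by norm_num)
      ?_ (differentiableOn_const _) ?_
    · exact ((Complex.differentiable_sin.differentiableOn.mul hg'').add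
        (Complex.differentiable_cos.differentiableOn.mul hg')).add
        ((Complex.differentiable_sin.differentiableOn.const_mul _).mul hg)
    · intro z hz
      have h3 : sin z ≠ 0 := sin_ne_zero_of_im (by linarith [hz.1])
      simp only
      rw [h2 z hz]
      field_simp
      ring
  -- the Wronskian
  have hw : ∀ z ∈ strip 4, HasDerivAt (fun z => sin z * (deriv g z * P z - g z * deriv P z)) 0 z := by
    intro z hz
    have h3 := (Complex.hasDerivAt_sin z).mul (((hgB z hz).mul (hPd z).hasDerivAt).sub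
      ((hgA z hz).mul (hPd' z).hasDerivAt))
    refine h3.congr_deriv ?_
    have h4 := hode hz
    have h5 := PL_ode n z
    simp only at h4
    rw [← hP] at h5
    simp only [Pi.mul_apply, Pi.sub_apply]
    linear_combination P z * h4 - g z * h5
  have h0s : (0:ℂ) ∈ strip 4 := ⟨by simp, by simp⟩
  have hw0 : ∀ z ∈ strip 4, sin z * (deriv g z * P z - g z * deriv P z) = 0 := by
    intro z hz
    have h3 := hopen.is_const_of_deriv_eq_zero (isPreconnected_band _ _)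
      (f := fun z => sin z * (deriv g z * P z - g z * deriv P z))
      (fun z hz => (hw z hz).differentiableAt.differentiableWithinAt)
      (fun z hz => (hw z hz).deriv) hz h0s
    simpa using h3
  have hD : ∀ z ∈ band 1 4, deriv g z * P z - g z * deriv P z = 0 := by
    intro z hz
    have h3 : sin z ≠ 0 := sin_ne_zero_of_im (by linarith [hz.1])
    exact (mul_eq_zero.1 (hw0 z (hsub hz))).resolve_left h3
  -- a point where `P` does not vanish
  obtain ⟨z1, hz1, hPz1⟩ : ∃ z1 ∈ band 1 4, P z1 ≠ 0 := by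
    by_contra hcon
    push Not at hcon
    have h3 : EqOn P (fun _ => 0) (band 1 4) := fun z hz => hcon z hz
    have h4 : ∀ y : ℝ, 1 < y → P (y * I) = 0 := by
      intro y hy
      have h5 : EqOn P (fun _ => 0) (band 1 (y + 4)) :=
        eqOn_band (a := 1) (b := y + 4) (a' := 1) (b' := 4) le_rfl (by linarith) (by norm_num)
          hPd.differentiableOn (differentiableOn_const _) h3
      refine h5 ⟨?_, ?_⟩
      · simpa using hy
      · simp
    have h5 := PL_lead n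
    have h6 : Tendsto (fun y : ℝ => exp (I * (2 * n : ℂ) * (y * I)) * PL n (y * I)) atTop (𝓝 0) := by
      refine tendsto_const_nhds.congr' ?_
      filter_upwards [eventually_gt_atTop (1:ℝ)] with y hy
      rw [show PL n (y * I) = 0 from h4 y hy, mul_zero]
    have h7 := tendsto_nhds_unique h5 h6
    have h8 := cc_pos (2 * n)
    rw [Complex.ofReal_eq_zero] at h7
    linarith
  -- the quotient is locally constant
  have hnear : ∀ᶠ z in 𝓝 z1, z ∈ band 1 4 ∧ P z ≠ 0 :=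
    (show ∀ᶠ z in 𝓝 z1, z ∈ band 1 4 from hopen'.mem_nhds hz1).and (hPd.continuous.continuousAt.eventually_ne hPz1)
  obtain ⟨ε, hε, hball⟩ := Metric.eventually_nhds_iff_ball.1 hnear
  have hq : ∀ z ∈ Metric.ball z1 ε, g z / P z = g z1 / P z1 := by
    intro z hz
    have hd : ∀ w ∈ Metric.ball z1 ε, HasDerivAt (fun w => g w / P w) 0 w := by
      intro w hw
      obtain ⟨hw1, hw2⟩ := hball w hw
      refine ((hgA w (hsub hw1)).div (hPd w).hasDerivAt hw2).congr_deriv ?_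
      rw [hD w hw1, zero_div]
    exact Metric.isOpen_ball.is_const_of_deriv_eq_zero (convex_ball z1 ε).isPreconnected
      (f := fun w => g w / P w)
      (fun w hw => (hd w hw).differentiableAt.differentiableWithinAt)
      (fun w hw => (hd w hw).deriv) hz (Metric.mem_ball_self hε)
  refine ⟨g z1 / P z1, fun t ht => ?_⟩
  rw [← hgM ht]
  have ha : AnalyticOnNhd ℂ g (band 1 4) := (hg.mono hsub).analyticOnNhd hopen'
  have hb : AnalyticOnNhd ℂ (fun z => g z1 / P z1 * P z) (band 1 4) :=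
    (hPd.const_mul _).differentiableOn.analyticOnNhd hopen'
  refine ha.eqOn_of_preconnected_of_eventuallyEq hb (isPreconnected_band _ _) hz1 ?_ ht
  filter_upwards [Metric.ball_mem_nhds z1 hε] with z hz
  have h3 := hq z hz
  have h4 := (hball z hz).2
  rw [← h3]
  field_simp

theorem g3_const' {al : ℝ} (hal : al ∈ JJ) (n : ℕ) :
    ∃ l : ℂ, ∀ t : ℂ, 1 < t.im → L0 al (PL n) t = l * PL n t := by
  obtain ⟨l, hl⟩ := g3_const hal n
  refine ⟨l, fun t ht => ?_⟩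
  have h1 : EqOn (L0 al (PL n)) (fun z => l * PL n z) (band 1 (max 4 (t.im + 1))) := by
    refine eqOn_band (a := 1) (b := max 4 (t.im + 1)) (a' := 1) (b' := 4) le_rfl
      (le_max_left _ _) (by norm_num) ?_ ?_ hl
    · intro z hz
      exact (g3_ode hal n hz.1).1.differentiableAt.differentiableWithinAt
    · exact ((PL_diff n).const_mul l).differentiableOn
  exact h1 ⟨ht, lt_of_lt_of_le (by linarith) (le_max_right _ _)⟩

/-! ### the constant -/

theorem g3_PL_shift (n : ℕ) (z : ℂ) : exp (I * (2 * n : ℂ) * z) * PL n z =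
    ∑ j ∈ Finset.range (2 * n + 1), ((cc j * cc (2 * n - j) : ℝ) : ℂ) * exp (2 * I * (j : ℂ) * z) := by
  rw [PL_exp, Finset.mul_sum]
  refine Finset.sum_congr rfl fun j _ => ?_
  rw [mul_left_comm, ← Complex.exp_add]
  congr 2
  push_cast
  ring

theorem g3_norm_exp (j : ℕ) {z : ℂ} : ‖exp (2 * I * (j : ℂ) * z)‖ = Real.exp (-(2 * j * z.im)) := by
  rw [Complex.norm_exp]
  congr 1
  have : 2 * I * (j : ℂ) * z = ((2 * j : ℝ) : ℂ) * (I * z) := by push_cast; ring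
  rw [this, Complex.re_ofReal_mul, Complex.I_mul_re]
  ring

theorem g3_PL_bd (n : ℕ) {z : ℂ} (hz : 0 ≤ z.im) : ‖exp (I * (2 * n : ℂ) * z) * PL n z‖ ≤ 2 * n + 1 := by
  rw [g3_PL_shift]
  refine (norm_sum_le _ _).trans ?_
  have h1 : ∀ j ∈ Finset.range (2 * n + 1),
      ‖((cc j * cc (2 * n - j) : ℝ) : ℂ) * exp (2 * I * (j : ℂ) * z)‖ ≤ 1 := by
    intro j _
    rw [norm_mul, g3_norm_exp, Complex.norm_real, Real.norm_eq_abs,
      abs_of_nonneg (mul_nonneg (cc_pos _).le (cc_pos _).le)]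
    have h2 : Real.exp (-(2 * j * z.im)) ≤ 1 := by
      rw [Real.exp_le_one_iff]
      have : 0 ≤ 2 * (j:ℝ) * z.im := by positivity
      linarith
    have h3 : cc j * cc (2 * n - j) ≤ 1 * 1 :=
      mul_le_mul (cc_le_one _) (cc_le_one _) (cc_pos _).le zero_le_one
    calc cc j * cc (2 * n - j) * Real.exp (-(2 * j * z.im)) ≤ (1 * 1) * 1 :=
          mul_le_mul h3 h2 (Real.exp_nonneg _) (by norm_num)
      _ = 1 := by norm_num
  refine (Finset.sum_le_card_nsmul _ _ 1 h1).trans ?_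
  rw [Finset.card_range, nsmul_eq_mul]
  push_cast
  linarith

theorem g3_exp_tendsto (s : ℝ) {j : ℕ} (hj : 1 ≤ j) :
    Tendsto (fun y : ℝ => exp (2 * I * (j : ℂ) * ((y:ℂ) * I + (s:ℂ)))) atTop (𝓝 0) := by
  rw [tendsto_zero_iff_norm_tendsto_zero]
  have h1 : (fun y : ℝ => ‖exp (2 * I * (j : ℂ) * ((y:ℂ) * I + (s:ℂ)))‖) =
      fun y : ℝ => Real.exp (-(2 * j * y)) := by
    funext y
    rw [g3_norm_exp]
    simp
  rw [h1]
  refine Real.tendsto_exp_atBot.comp ?_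
  refine tendsto_neg_atTop_atBot.comp ?_
  have h2 : (0:ℝ) < 2 * j := by
    have : (1:ℝ) ≤ j := by exact_mod_cast hj
    linarith
  exact tendsto_id.const_mul_atTop h2

theorem g3_PL_tendsto (n : ℕ) (s : ℝ) :
    Tendsto (fun y : ℝ => exp (I * (2 * n : ℂ) * ((y:ℂ) * I + (s:ℂ))) * PL n ((y:ℂ) * I + (s:ℂ)))
      atTop (𝓝 ((cc (2 * n) : ℝ) : ℂ)) := by
  simp only [g3_PL_shift]
  have h1 : ((cc (2 * n) : ℝ) : ℂ) = ∑ j ∈ Finset.range (2 * n + 1),
      (if j = 0 then ((cc (2 * n) : ℝ) : ℂ) else 0) := by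
    rw [Finset.sum_ite_eq' (Finset.range (2 * n + 1)) 0]
    simp
  rw [h1]
  refine tendsto_finsetSum _ fun j _ => ?_
  by_cases hj : j = 0
  · subst hj
    have h2 : cc 0 = 1 := by simp [cc]
    simp [h2]
  · rw [if_neg hj]
    have h2 := (g3_exp_tendsto s (Nat.one_le_iff_ne_zero.2 hj)).const_mul
      ((cc j * cc (2 * n - j) : ℝ) : ℂ)
    rw [mul_zero] at h2
    exact h2

/-- `sin β q0 = e^{-is/2} (1-v) ((1-u)(1-v))^{-1/2}` -/
theorem g3_sin_q0 (t s : ℂ) : sin (t + s) * q0 t s = exp (-(I * s / 2)) *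
    ((1 - exp (2 * I * (t + s))) * ((1 - exp (2 * I * t)) * (1 - exp (2 * I * (t + s)))) ^ (-((1:ℂ)/2))) := by
  rw [sin_eq_exp, q0]
  have h1 : exp (-(I * s / 2)) = exp (-(I * (t + s))) * exp (I * (t + s / 2)) := by
    rw [← Complex.exp_add]; congr 1; ring
  rw [h1]
  linear_combination (-(exp (-(I * (t + s))) * exp (I * (t + s / 2)) * (1 - exp (2 * I * (t + s))) *
    ((1 - exp (2 * I * t)) * (1 - exp (2 * I * (t + s)))) ^ (-((1:ℂ)/2)))) * Complex.I_sq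

theorem g3_u_tendsto (s : ℝ) :
    Tendsto (fun y : ℝ => exp (2 * I * ((y:ℂ) * I + (s:ℂ)))) atTop (𝓝 0) := by
  have := g3_exp_tendsto s (j := 1) le_rfl
  simpa using this

theorem g3_sin_q0_tendsto (s : ℝ) :
    Tendsto (fun y : ℝ => sin ((y:ℂ) * I + (s:ℂ)) * q0 ((y:ℂ) * I) (s:ℂ)) atTop
      (𝓝 (exp (-(I * (s:ℂ) / 2)))) := by
  simp only [g3_sin_q0]
  have h1 := g3_u_tendsto s
  have h2 := g3_u_tendsto 0
  simp only [ofReal_zero, add_zero] at h2
  have h3 : Tendsto (fun y : ℝ => ((1 - exp (2 * I * ((y:ℂ) * I))) *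
      (1 - exp (2 * I * ((y:ℂ) * I + (s:ℂ))))) ^ (-((1:ℂ)/2))) atTop (𝓝 1) := by
    have h4 : Tendsto (fun y : ℝ => ((1 - exp (2 * I * ((y:ℂ) * I))) *
      (1 - exp (2 * I * ((y:ℂ) * I + (s:ℂ)))))) atTop (𝓝 1) := by
      have := (h2.const_sub 1).mul (h1.const_sub 1)
      simpa using this
    have h5 : ContinuousAt (fun z : ℂ => z ^ (-((1:ℂ)/2))) 1 :=
      continuousAt_id.cpow continuousAt_const (by simp)
    have h6 := h5.tendsto.comp h4
    rw [one_cpow] at h6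
    exact h6
  have h7 := ((h1.const_sub 1).mul h3).const_mul (exp (-(I * (s:ℂ) / 2)))
  simpa using h7

theorem g3_sin_tendsto (s : ℝ) :
    Tendsto (fun y : ℝ => (sin ((y:ℂ) * I + (s:ℂ)))⁻¹) atTop (𝓝 0) := by
  rw [tendsto_zero_iff_norm_tendsto_zero]
  have h1 : Tendsto (fun y : ℝ => (y:ℝ)⁻¹) atTop (𝓝 0) := tendsto_inv_atTop_zero
  refine squeeze_zero' (Eventually.of_forall fun y => norm_nonneg _) ?_ h1
  filter_upwards [eventually_gt_atTop (1:ℝ)] with y hy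
  rw [norm_inv]
  refine inv_anti₀ (by linarith) ?_
  have h2 := b01_sin_lower ((y:ℂ) * I + (s:ℂ))
  have h3 : ((y:ℂ) * I + (s:ℂ)).im = y := by simp
  rw [h3, abs_of_pos (by linarith)] at h2
  exact h2

theorem g3K_tendsto {al : ℝ} (s : ℝ) :
    Tendsto (fun y : ℝ => g3K al ((y:ℂ) * I) s) atTop
      (𝓝 ((Real.sin al : ℂ) * ((g3k al s : ℝ) : ℂ) ^ 3 * exp (-(I * (s:ℂ) / 2)) *
        (2 * Real.sqrt 2 / 3 : ℂ))) := by
  have h1 := g3_sin_q0_tendsto s
  have h2 : Tendsto (fun y : ℝ => g3y al ((y:ℂ) * I) s ^ 2) atTop (𝓝 0) := by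
    have h3 := ((g3_sin_tendsto 0).mul (g3_sin_tendsto s)).const_mul (((g3k al s : ℝ) : ℂ) ^ 2)
    simp only [ofReal_zero, add_zero, mul_zero] at h3
    refine h3.congr' ?_
    filter_upwards [eventually_gt_atTop (1:ℝ)] with y hy
    rw [g3y_sq' (by simpa using hy)]
    rw [div_eq_mul_inv, mul_inv]
  have h4 : Tendsto (fun y : ℝ => afn (g3y al ((y:ℂ) * I) s ^ 2)) atTop
      (𝓝 (2 * Real.sqrt 2 / 3 : ℂ)) := by
    have h5 : ContinuousAt afn 0 := (afn_diff.differentiableAt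
      (Metric.ball_mem_nhds 0 (by norm_num))).continuousAt
    have h6 := h5.tendsto.comp h2
    rw [afn_zero] at h6
    exact h6
  have h7 := ((h1.const_mul ((Real.sin al : ℂ) * ((g3k al s : ℝ) : ℂ) ^ 3))).mul h4
  refine (h7.congr' ?_)
  filter_upwards [eventually_gt_atTop (1:ℝ)] with y hy
  rw [g3K_fac (by simpa using hy), show g3y al ((y:ℂ) * I) s =
    ((g3k al s : ℝ) : ℂ) * q0 ((y:ℂ) * I) (s:ℂ) from rfl]
  ring

theorem g3_int_real {al : ℝ} (n : ℕ) :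
    ∫ s in (-al)..al, ((g3k al s : ℝ) : ℂ) ^ 3 * exp (-(I * ((2 * n + 1/2 : ℝ) : ℂ) * (s:ℂ))) =
      ((∫ s in (-al)..al, (g3k al s) ^ 3 * Real.cos ((2 * n + 1/2) * s) : ℝ) : ℂ) := by
  have hk := g3k_continuous al
  have hc : Continuous fun s : ℝ => (g3k al s) ^ 3 * Real.cos ((2 * n + 1/2) * s) := by fun_prop
  have hs : Continuous fun s : ℝ => (g3k al s) ^ 3 * Real.sin ((2 * n + 1/2) * s) := by fun_prop
  have h1 : ∀ s : ℝ, ((g3k al s : ℝ) : ℂ) ^ 3 * exp (-(I * ((2 * n + 1/2 : ℝ) : ℂ) * (s:ℂ))) =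
      (((g3k al s) ^ 3 * Real.cos ((2 * n + 1/2) * s) : ℝ) : ℂ) -
      I * (((g3k al s) ^ 3 * Real.sin ((2 * n + 1/2) * s) : ℝ) : ℂ) := by
    intro s
    have h2 : -(I * ((2 * n + 1/2 : ℝ) : ℂ) * (s:ℂ)) = ((-((2 * n + 1/2) * s) : ℝ) : ℂ) * I := by
      push_cast; ring
    rw [h2, Complex.exp_mul_I, ← Complex.ofReal_cos, ← Complex.ofReal_sin, Real.cos_neg,
      Real.sin_neg]
    push_cast
    ring
  have hodd : ∫ s in (-al)..al, (g3k al s) ^ 3 * Real.sin ((2 * n + 1/2) * s) = 0 := by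
    have h2 := intervalIntegral.integral_comp_neg (a := -al) (b := al)
      (f := fun s : ℝ => (g3k al s) ^ 3 * Real.sin ((2 * n + 1/2) * s))
    have h3 : ∀ s : ℝ, (g3k al (-s)) ^ 3 * Real.sin ((2 * n + 1/2) * (-s)) =
        -((g3k al s) ^ 3 * Real.sin ((2 * n + 1/2) * s)) := by
      intro s
      rw [g3k, Real.cos_neg, mul_neg, Real.sin_neg, g3k]
      ring
    simp only [h3, intervalIntegral.integral_neg, neg_neg] at h2
    linarith
  simp only [h1]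
  rw [intervalIntegral.integral_sub, intervalIntegral.integral_const_mul,
    intervalIntegral.integral_ofReal, intervalIntegral.integral_ofReal, hodd]
  · simp
  · exact (continuous_ofReal.comp hc).intervalIntegrable _ _
  · exact (continuous_const.mul (continuous_ofReal.comp hs)).intervalIntegrable _ _

/-- `M = L0 (PL n)` satisfies the Legendre equation on `Im t > 1`; it is `EvenExt 1 r` for every `r` (`DV_even` (G01) for the circle and the
direction `(PL n/2) (cos, sin)`, with `DS0_circle` (G00)). The even extension `g` satisfies the equation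
`sin z g'' + cos z g' + 2n(2n+1) sin z g = 0` on the strip; so does `h = g - g 0 * PL n` (`PL n 0 = 1`), `h 0 = 0`, `h` even; if `h ≠ 0` near `0`,
`h = a z^k + ..`, `k ≥ 2`, the coefficient of `z^{k-1}` of the equation is `a (k(k-1) + k) = a k^2 ≠ 0`, contradiction. So `g = λ PL n`; the constant:
multiply by `e^{2 i n t}`, `t = i y`, `y → ∞`: `q0^3 sin t sin^2(t+s) → e^{- i s/2}`, `afn → 2 sqrt 2/3`, `e^{2int} PL n (t+s) → cc (2n) e^{-2 i n s}`
(dominated convergence), which gives `sin al (2 sqrt 2/3) ∫ kk^3 e^{-i(2n+1/2)s} ds = lam al n`. -/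
theorem L0_PL {al : ℝ} (hal : al ∈ JJ) (n : ℕ) {t : ℂ} (ht : 1 < t.im) : L0 al (PL n) t = (lam al n : ℂ) * PL n t := by
  obtain ⟨l, hl⟩ := g3_const' hal n
  suffices h : l = (lam al n : ℂ) by rw [hl t ht, h]
  have hal0 : 0 < al := by linarith [(JJ_bounds hal).1]
  have h1 : Tendsto (fun y : ℝ => exp (I * (2 * n : ℂ) * ((y:ℂ) * I)) * L0 al (PL n) ((y:ℂ) * I)) atTop
      (𝓝 (l * ((cc (2 * n) : ℝ) : ℂ))) := by
    refine ((PL_lead n).const_mul l).congr' ?_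
    filter_upwards [eventually_gt_atTop (1:ℝ)] with y hy
    rw [hl _ (by simpa using hy)]
    ring
  have h2 : Tendsto (fun y : ℝ => exp (I * (2 * n : ℂ) * ((y:ℂ) * I)) * L0 al (PL n) ((y:ℂ) * I)) atTop
      (𝓝 (∫ s in (-al)..al, ((Real.sin al : ℂ) * ((g3k al s : ℝ) : ℂ) ^ 3 * exp (-(I * (s:ℂ) / 2)) *
        (2 * Real.sqrt 2 / 3 : ℂ)) * (exp (-(I * (2 * n : ℂ) * (s:ℂ))) * ((cc (2 * n) : ℝ) : ℂ)))) := by
    have h3 : Tendsto (fun y : ℝ => ∫ s in (-al)..al, g3K al ((y:ℂ) * I) s *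
        (exp (-(I * (2 * n : ℂ) * (s:ℂ))) * (exp (I * (2 * n : ℂ) * ((y:ℂ) * I + (s:ℂ))) *
          PL n ((y:ℂ) * I + (s:ℂ))))) atTop
        (𝓝 (∫ s in (-al)..al, ((Real.sin al : ℂ) * ((g3k al s : ℝ) : ℂ) ^ 3 * exp (-(I * (s:ℂ) / 2)) *
        (2 * Real.sqrt 2 / 3 : ℂ)) * (exp (-(I * (2 * n : ℂ) * (s:ℂ))) * ((cc (2 * n) : ℝ) : ℂ)))) := by
      refine intervalIntegral.tendsto_integral_filter_of_dominated_convergence
        (fun _ => (2 * n + 1 : ℝ)) ?_ ?_ intervalIntegrable_const ?_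
      · filter_upwards [eventually_gt_atTop (1:ℝ)] with y hy
        have hy' : 1 < ((y:ℂ) * I).im := by simpa using hy
        refine Continuous.aestronglyMeasurable ?_
        exact (g3_slice (g3_cont_K hal) hy').mul ((by fun_prop : Continuous fun s : ℝ =>
          exp (-(I * (2 * n : ℂ) * (s:ℂ)))).mul ((by fun_prop : Continuous fun s : ℝ =>
          exp (I * (2 * n : ℂ) * ((y:ℂ) * I + (s:ℂ)))).mul
          ((PL_diff n).continuous.comp (by fun_prop))))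
      · filter_upwards [eventually_gt_atTop (1:ℝ)] with y hy
        refine Eventually.of_forall fun s _ => ?_
        have hy' : 1 < ((y:ℂ) * I).im := by simpa using hy
        rw [norm_mul, norm_mul]
        have h4 : ‖exp (-(I * (2 * n : ℂ) * (s:ℂ)))‖ = 1 := by
          rw [show -(I * (2 * n : ℂ) * (s:ℂ)) = ((-(2 * n * s) : ℝ) : ℂ) * I by push_cast; ring,
            Complex.norm_exp_ofReal_mul_I]
        have h5 := g3_PL_bd n (z := (y:ℂ) * I + (s:ℂ)) (by simp; linarith)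
        rw [h4, one_mul]
        calc ‖g3K al ((y:ℂ) * I) s‖ * ‖exp (I * (2 * n : ℂ) * ((y:ℂ) * I + (s:ℂ))) *
              PL n ((y:ℂ) * I + (s:ℂ))‖ ≤ 1 * (2 * n + 1) :=
              mul_le_mul (g3K_bd hal hy' s) h5 (norm_nonneg _) zero_le_one
          _ = 2 * n + 1 := one_mul _
      · refine Eventually.of_forall fun s _ => ?_
        exact (g3K_tendsto s).mul ((g3_PL_tendsto n s).const_mul _)
    refine h3.congr' ?_
    filter_upwards [eventually_gt_atTop (1:ℝ)] with y hy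
    rw [L0_eq hal, ← intervalIntegral.integral_const_mul]
    refine intervalIntegral.integral_congr fun s _ => ?_
    have h4 : exp (I * (2 * n : ℂ) * ((y:ℂ) * I)) =
        exp (-(I * (2 * n : ℂ) * (s:ℂ))) * exp (I * (2 * n : ℂ) * ((y:ℂ) * I + (s:ℂ))) := by
      rw [← Complex.exp_add]; congr 1; ring
    rw [h4]
    ring
  have h3 := tendsto_nhds_unique h1 h2
  have h4 : ∫ s in (-al)..al, ((Real.sin al : ℂ) * ((g3k al s : ℝ) : ℂ) ^ 3 * exp (-(I * (s:ℂ) / 2)) *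
        (2 * Real.sqrt 2 / 3 : ℂ)) * (exp (-(I * (2 * n : ℂ) * (s:ℂ))) * ((cc (2 * n) : ℝ) : ℂ)) =
      ((Real.sin al : ℂ) * (2 * Real.sqrt 2 / 3 : ℂ) * ((cc (2 * n) : ℝ) : ℂ)) *
      ∫ s in (-al)..al, ((g3k al s : ℝ) : ℂ) ^ 3 * exp (-(I * ((2 * n + 1/2 : ℝ) : ℂ) * (s:ℂ))) := by
    rw [← intervalIntegral.integral_const_mul]
    refine intervalIntegral.integral_congr fun s _ => ?_
    have h5 : exp (-(I * ((2 * n + 1/2 : ℝ) : ℂ) * (s:ℂ))) =
        exp (-(I * (s:ℂ) / 2)) * exp (-(I * (2 * n : ℂ) * (s:ℂ))) := by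
      rw [← Complex.exp_add]; congr 1; push_cast; ring
    rw [h5]
    ring
  rw [h4, g3_int_real] at h3
  have h5 : ((cc (2 * n) : ℝ) : ℂ) ≠ 0 := Complex.ofReal_ne_zero.2 (cc_pos _).ne'
  have h6 : l = (Real.sin al : ℂ) * (2 * Real.sqrt 2 / 3 : ℂ) *
      ((∫ s in (-al)..al, (g3k al s) ^ 3 * Real.cos ((2 * n + 1/2) * s) : ℝ) : ℂ) := by
    refine mul_right_cancel₀ h5 ?_
    rw [h3]
    ring
  rw [h6, lam]
  simp only [g3k]
  push_cast
  ring

end FB
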