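import Pool.Agent.H48.FB.HDefs

/-! H01: derivative of `ll` in the angle. -/

open Set MeasureTheory Filter Topology

namespace FB

private lemma h01_cube (x : ℝ) : (Real.sqrt x) ^ 3 = x * Real.sqrt x := by
  rcases le_total 0 x with h | h
  · calc (Real.sqrt x) ^ 3 = (Real.sqrt x) ^ 2 * Real.sqrt x := by ring
      _ = x * Real.sqrt x := by rw [Real.sq_sqrt h]
  · rw [Real.sqrt_eq_zero_of_nonpos h]; simp

private lemma h01_deriv (x : ℝ) :
    HasDerivAt (fun y : ℝ => (Real.sqrt y) ^ 3) (3 / 2 * Real.sqrt x) x := by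
  rcases lt_trichotomy x 0 with h | h | h
  · rw [Real.sqrt_eq_zero_of_nonpos h.le, mul_zero]
    refine (hasDerivAt_const x (0:ℝ)).congr_of_eventuallyEq ?_
    filter_upwards [gt_mem_nhds h] with y hy
    rw [Real.sqrt_eq_zero_of_nonpos hy.le]
    simp
  · subst h
    rw [Real.sqrt_zero, mul_zero, hasDerivAt_iff_tendsto_slope]
    have h1 : Tendsto (fun y : ℝ => Real.sqrt y) (𝓝[≠] 0) (𝓝 0) := by
      have := (Real.continuous_sqrt.tendsto 0)
      rw [Real.sqrt_zero] at this
      exact this.mono_left nhdsWithin_le_nhds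
    refine h1.congr' ?_
    filter_upwards [self_mem_nhdsWithin] with y hy
    rw [slope_def_field, h01_cube, h01_cube]
    have : y ≠ 0 := hy
    field_simp
    simp
  · have h2 := (Real.hasDerivAt_sqrt h.ne').pow 3
    refine h2.congr_deriv ?_
    have h3 : 0 < Real.sqrt x := Real.sqrt_pos.2 h
    field_simp
    norm_num
    ring

private lemma h01_zero {a s : ℝ} (h0 : 0 ≤ a) (has : a ≤ |s|) (hs : |s| ≤ Real.pi) :
    Real.sqrt (Real.cos s - Real.cos a) = 0 := by
  refine Real.sqrt_eq_zero_of_nonpos ?_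
  have : Real.cos |s| ≤ Real.cos a := Real.cos_le_cos_of_nonneg_of_le_pi h0 hs has
  rw [Real.cos_abs] at this
  linarith

private lemma h01_ext {a : ℝ} (h0 : 0 < a) (h1 : a < Real.pi) (f : ℝ → ℝ) (hf : Continuous f)
    (hz : ∀ s, a ≤ |s| → |s| ≤ Real.pi → f s = 0) :
    ∫ s in (-a)..a, f s = ∫ s in (-Real.pi)..Real.pi, f s := by
  have hi : ∀ x y : ℝ, IntervalIntegrable f volume x y := fun x y => hf.intervalIntegrable x y
  rw [← intervalIntegral.integral_add_adjacent_intervals (hi (-Real.pi) (-a)) (hi (-a) Real.pi),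
    ← intervalIntegral.integral_add_adjacent_intervals (hi (-a) a) (hi a Real.pi)]
  have e1 : ∫ s in (-Real.pi)..(-a), f s = 0 := by
    rw [intervalIntegral.integral_congr (g := fun _ => (0:ℝ))]
    · simp
    · intro s hs
      rw [uIcc_of_le (by linarith)] at hs
      have : |s| = -s := abs_of_nonpos (by linarith [hs.2])
      exact hz s (by rw [this]; linarith [hs.2]) (by rw [this]; linarith [hs.1])
  have e2 : ∫ s in a..Real.pi, f s = 0 := by
    rw [intervalIntegral.integral_congr (g := fun _ => (0:ℝ))]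
    · simp
    · intro s hs
      rw [uIcc_of_le (by linarith)] at hs
      have : |s| = s := abs_of_nonneg (by linarith [hs.1])
      exact hz s (by rw [this]; linarith [hs.1]) (by rw [this]; linarith [hs.2])
  rw [e1, e2]
  ring

private lemma h01_cont (a m : ℝ) :
    Continuous (fun s => (Real.sqrt (Real.cos s - Real.cos a)) ^ 3 * Real.cos (m * s)) := by
  fun_prop

private lemma h01_cont1 (a m : ℝ) :
    Continuous (fun s => Real.sqrt (Real.cos s - Real.cos a) * Real.cos (m * s)) := by
  fun_prop

private lemma h01_sqrt_le {a s : ℝ} : Real.sqrt (Real.cos s - Real.cos a) ≤ 2 := by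
  rw [Real.sqrt_le_left (by norm_num)]
  have h1 := Real.cos_le_one s
  have h2 := Real.neg_one_le_cos a
  linarith

/-- Proof: for `0 < al < pi` we have `ll al m = int_{-pi}^{pi} (max (cos s - cos al) 0)^{3/2} cos (m s) ds`
(`Real.sqrt` of a negative number is `0`, so the integrand `sqrt (cos s - cos al)^3 cos (m s)` itself works on
`[-pi, pi]`). The function `x ↦ (sqrt x)^3` is differentiable everywhere with derivative `3/2 sqrt x`. -/
theorem hasDerivAt_ll {al m : ℝ} (h0 : 0 < al) (h1 : al < Real.pi) :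
    HasDerivAt (fun a => ll a m) (3/2 * Real.sin al * l1 al m) al := by
  have hll : ∀ a, 0 < a → a < Real.pi → ll a m =
      ∫ s in (-Real.pi)..Real.pi, (Real.sqrt (Real.cos s - Real.cos a)) ^ 3 * Real.cos (m * s) := by
    intro a ha0 ha1
    refine h01_ext ha0 ha1 _ (h01_cont a m) ?_
    intro s hs1 hs2
    rw [h01_zero ha0.le hs1 hs2]
    simp
  have hl1 : l1 al m =
      ∫ s in (-Real.pi)..Real.pi, Real.sqrt (Real.cos s - Real.cos al) * Real.cos (m * s) := by
    refine h01_ext h0 h1 _ (h01_cont1 al m) ?_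
    intro s hs1 hs2
    rw [h01_zero h0.le hs1 hs2]
    simp
  have key := (intervalIntegral.hasDerivAt_integral_of_dominated_loc_of_deriv_le
    (F := fun (a s : ℝ) => (Real.sqrt (Real.cos s - Real.cos a)) ^ 3 * Real.cos (m * s))
    (F' := fun (a s : ℝ) => 3 / 2 * Real.sqrt (Real.cos s - Real.cos a) * Real.sin a * Real.cos (m * s))
    (x₀ := al) (s := univ) (a := -Real.pi) (b := Real.pi) (μ := volume) (bound := fun _ => (3:ℝ))
    univ_mem
    (Eventually.of_forall fun a => (h01_cont a m).aestronglyMeasurable)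
    ((h01_cont al m).intervalIntegrable _ _)
    (by
      refine Continuous.aestronglyMeasurable ?_
      fun_prop)
    (Eventually.of_forall fun s _ a _ => by
      rw [Real.norm_eq_abs, abs_mul, abs_mul, abs_mul]
      have e1 := h01_sqrt_le (a := a) (s := s)
      have e2 := Real.abs_sin_le_one a
      have e3 := Real.abs_cos_le_one (m * s)
      have e4 := Real.sqrt_nonneg (Real.cos s - Real.cos a)
      rw [abs_of_nonneg e4, abs_of_pos (by norm_num : (0:ℝ) < 3 / 2)]
      calc 3 / 2 * Real.sqrt (Real.cos s - Real.cos a) * |Real.sin a| * |Real.cos (m * s)|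
          ≤ (3 / 2 * 2) * 1 * 1 := by
            refine mul_le_mul (mul_le_mul (by linarith) e2 (abs_nonneg _) (by norm_num)) e3
              (abs_nonneg _) (by norm_num)
        _ = 3 := by norm_num)
    intervalIntegrable_const
    (Eventually.of_forall fun s _ a _ => by
      have e1 : HasDerivAt (fun a : ℝ => Real.cos s - Real.cos a) (Real.sin a) a := by
        have := (Real.hasDerivAt_cos a).const_sub (Real.cos s)
        rwa [neg_neg] at this
      have e2 := (h01_deriv (Real.cos s - Real.cos a)).comp a e1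
      exact e2.mul_const _)).2
  have heq : (fun a => ll a m) =ᶠ[𝓝 al] fun a => ∫ s in (-Real.pi)..Real.pi,
      (Real.sqrt (Real.cos s - Real.cos a)) ^ 3 * Real.cos (m * s) := by
    filter_upwards [Ioo_mem_nhds h0 h1] with a ha
    exact hll a ha.1 ha.2
  refine (key.congr_of_eventuallyEq heq).congr_deriv ?_
  rw [hl1, ← intervalIntegral.integral_const_mul]
  refine intervalIntegral.integral_congr ?_
  intro s _
  simp only
  ring

private lemma h01_unit {al s : ℝ} (h0 : 0 < al) (h1 : al < Real.pi / 2) :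
    Real.sqrt (Real.cos s - Real.cos al) ≤ 1 := by
  rw [Real.sqrt_le_left (by norm_num)]
  have e1 := Real.cos_le_one s
  have e2 := Real.cos_nonneg_of_neg_pi_div_two_le_of_le (by linarith) h1.le
  linarith

/-- crude bounds -/
theorem abs_ll_le {al m : ℝ} (h0 : 0 < al) (h1 : al < Real.pi / 2) : |ll al m| ≤ 2 * al := by
  have h := intervalIntegral.norm_integral_le_of_norm_le_const (a := -al) (b := al) (C := 1)
    (f := fun s => (Real.sqrt (Real.cos s - Real.cos al)) ^ 3 * Real.cos (m * s)) (by
      intro s _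
      rw [Real.norm_eq_abs, abs_mul]
      have e4 := Real.sqrt_nonneg (Real.cos s - Real.cos al)
      rw [abs_of_nonneg (by positivity)]
      have e1 : (Real.sqrt (Real.cos s - Real.cos al)) ^ 3 ≤ 1 := pow_le_one₀ e4 (h01_unit h0 h1)
      exact mul_le_one₀ e1 (abs_nonneg _) (Real.abs_cos_le_one _))
  rw [Real.norm_eq_abs, one_mul, abs_of_pos (by linarith : (0:ℝ) < al - -al)] at h
  unfold ll
  linarith
theorem abs_l1_le {al m : ℝ} (h0 : 0 < al) (h1 : al < Real.pi / 2) : |l1 al m| ≤ 2 * al := by
  have h := intervalIntegral.norm_integral_le_of_norm_le_const (a := -al) (b := al) (C := 1)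
    (f := fun s => Real.sqrt (Real.cos s - Real.cos al) * Real.cos (m * s)) (by
      intro s _
      rw [Real.norm_eq_abs, abs_mul]
      have e4 := Real.sqrt_nonneg (Real.cos s - Real.cos al)
      rw [abs_of_nonneg e4]
      exact mul_le_one₀ (h01_unit h0 h1) (abs_nonneg _) (Real.abs_cos_le_one _))
  rw [Real.norm_eq_abs, one_mul, abs_of_pos (by linarith : (0:ℝ) < al - -al)] at h
  unfold l1
  linarith
/-- positivity of the lowest eigenvalue -/
theorem ll_pos {al : ℝ} (h0 : 0 < al) (h1 : al < Real.pi / 2) : 0 < ll al (1/2) := by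
  unfold ll
  refine intervalIntegral.intervalIntegral_pos_of_pos_on ((h01_cont al (1/2)).intervalIntegrable _ _) ?_
    (by linarith)
  intro s hs
  have e1 : 0 < Real.cos (1 / 2 * s) :=
    Real.cos_pos_of_mem_Ioo ⟨by linarith [hs.1], by linarith [hs.2]⟩
  have e2 : Real.cos al < Real.cos s := by
    rw [← Real.cos_abs s]
    exact Real.cos_lt_cos_of_nonneg_of_le_pi (abs_nonneg _) (by linarith [Real.pi_pos])
      (abs_lt.2 ⟨hs.1, hs.2⟩)
  have e3 : 0 < Real.sqrt (Real.cos s - Real.cos al) := Real.sqrt_pos.2 (by linarith)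
  positivity

end FB
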