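import Pool.Agent.H48.FB.HDefs
import Pool.Agent.H48.FB.H00

/-! H02: asymptotics of `ll` and `l1` (Laplace method by a contour shift). -/

open Set MeasureTheory Filter Topology

namespace FB

open Complex in
theorem H02_base (al x y : ℝ) : Complex.cos ((x : ℂ) + (y : ℂ) * I) - (Real.cos al : ℂ) =
    ((Real.cos x * Real.cosh y - Real.cos al : ℝ) : ℂ) - ((Real.sin x * Real.sinh y : ℝ) : ℂ) * I := by
  rw [Complex.cos_add_mul_I]
  push_cast
  ring

open Complex in
theorem H02_base_re (al : ℝ) (z : ℂ) : (Complex.cos z - (Real.cos al : ℂ)).re =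
    Real.cos z.re * Real.cosh z.im - Real.cos al := by
  conv_lhs => rw [← Complex.re_add_im z]
  rw [H02_base]
  simp only [Complex.sub_re, Complex.ofReal_re, Complex.mul_re, Complex.I_re, mul_zero,
    Complex.ofReal_im, zero_mul, sub_zero]

open Complex in
theorem H02_base_im (al : ℝ) (z : ℂ) : (Complex.cos z - (Real.cos al : ℂ)).im =
    -(Real.sin z.re * Real.sinh z.im) := by
  conv_lhs => rw [← Complex.re_add_im z]
  rw [H02_base]
  simp only [Complex.sub_im, Complex.ofReal_re, Complex.mul_im, Complex.I_re, mul_zero,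
    Complex.ofReal_im, Complex.I_im, mul_one, add_zero, zero_sub]

theorem H02_cos_le {al x : ℝ} (h1 : al < Real.pi / 2) (hx : x ∈ Icc (-al) al) :
    Real.cos al ≤ Real.cos x := by
  have hpi := Real.pi_pos
  rw [← Real.cos_abs x]
  apply Real.cos_le_cos_of_nonneg_of_le_pi (abs_nonneg x)
  · linarith
  · rw [abs_le]
    exact hx

theorem H02_cos_lt {al x : ℝ} (h1 : al < Real.pi / 2) (hx : x ∈ Ioo (-al) al) :
    Real.cos al < Real.cos x := by
  have hpi := Real.pi_pos
  rw [← Real.cos_abs x]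
  apply Real.cos_lt_cos_of_nonneg_of_le_pi (abs_nonneg x)
  · linarith
  · rw [abs_lt]
    exact hx

theorem H02_re_nonneg {al : ℝ} (h0 : 0 < al) (h1 : al < Real.pi / 2) {z : ℂ}
    (hz : z.re ∈ Icc (-al) al) : 0 ≤ (Complex.cos z - (Real.cos al : ℂ)).re := by
  rw [H02_base_re]
  have h2 := H02_cos_le h1 hz
  have h3 := Real.one_le_cosh z.im
  have h4 : 0 < Real.cos al := Real.cos_pos_of_mem_Ioo ⟨by linarith, h1⟩
  nlinarith

theorem H02_re_pos {al : ℝ} (h0 : 0 < al) (h1 : al < Real.pi / 2) {z : ℂ}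
    (hz : z.re ∈ Ioo (-al) al) : 0 < (Complex.cos z - (Real.cos al : ℂ)).re := by
  rw [H02_base_re]
  have h2 := H02_cos_lt h1 hz
  have h3 := Real.one_le_cosh z.im
  have h4 : 0 < Real.cos al := Real.cos_pos_of_mem_Ioo ⟨by linarith, h1⟩
  nlinarith

/-- the integrand -/
noncomputable def H02_F (al m : ℝ) (n : ℕ) (z : ℂ) : ℂ :=
  kk al z ^ n * Complex.exp (Complex.I * (m : ℂ) * z)

theorem H02_kk_cont {al : ℝ} (h0 : 0 < al) (h1 : al < Real.pi / 2) {z : ℂ}
    (hz : z.re ∈ Icc (-al) al) : ContinuousAt (kk al) z := by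
  have h2 : ContinuousAt (fun p : ℂ × ℂ => p.1 ^ p.2)
      (Complex.cos z - (Real.cos al : ℂ), (1:ℂ)/2) :=
    Complex.continuousAt_cpow_of_re_pos (Or.inl (H02_re_nonneg h0 h1 hz)) (by norm_num)
  have h3 : ContinuousAt (fun z : ℂ => (Complex.cos z - (Real.cos al : ℂ), (1:ℂ)/2)) z := by
    apply Continuous.continuousAt
    have := Complex.continuous_cos
    fun_prop
  exact ContinuousAt.comp (g := fun p : ℂ × ℂ => p.1 ^ p.2)
    (f := fun z : ℂ => (Complex.cos z - (Real.cos al : ℂ), (1:ℂ)/2)) h2 h3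

theorem H02_kk_diff {al : ℝ} (h0 : 0 < al) (h1 : al < Real.pi / 2) {z : ℂ}
    (hz : z.re ∈ Ioo (-al) al) : DifferentiableAt ℂ (kk al) z := by
  have h2 : Complex.cos z - (Real.cos al : ℂ) ∈ Complex.slitPlane :=
    Or.inl (H02_re_pos h0 h1 hz)
  unfold kk
  exact (Complex.differentiable_cos.differentiableAt.sub_const _).cpow_const h2

theorem H02_F_cont {al : ℝ} (h0 : 0 < al) (h1 : al < Real.pi / 2) (m : ℝ) (n : ℕ) {z : ℂ}
    (hz : z.re ∈ Icc (-al) al) : ContinuousAt (H02_F al m n) z := by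
  unfold H02_F
  apply ContinuousAt.mul ((H02_kk_cont h0 h1 hz).pow n)
  apply Continuous.continuousAt
  fun_prop

theorem H02_F_diff {al : ℝ} (h0 : 0 < al) (h1 : al < Real.pi / 2) (m : ℝ) (n : ℕ) {z : ℂ}
    (hz : z.re ∈ Ioo (-al) al) : DifferentiableAt ℂ (H02_F al m n) z := by
  unfold H02_F
  apply DifferentiableAt.mul ((H02_kk_diff h0 h1 hz).pow n)
  fun_prop

/-- the vertical sides are conjugate -/
theorem H02_F_conj {al : ℝ} (h0 : 0 < al) (h1 : al < Real.pi / 2) (m : ℝ) (n : ℕ) (y : ℝ) :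
    H02_F al m n (((-al : ℝ) : ℂ) + (y : ℂ) * Complex.I) =
      (starRingEnd ℂ) (H02_F al m n ((al : ℂ) + (y : ℂ) * Complex.I)) := by
  have hk : kk al (((-al : ℝ) : ℂ) + (y : ℂ) * Complex.I) =
      (starRingEnd ℂ) (kk al ((al : ℂ) + (y : ℂ) * Complex.I)) := by
    unfold kk
    have h2 : Complex.cos (((-al : ℝ) : ℂ) + (y : ℂ) * Complex.I) - (Real.cos al : ℂ) =
        (starRingEnd ℂ) (Complex.cos ((al : ℂ) + (y : ℂ) * Complex.I) - (Real.cos al : ℂ)) := by
      rw [H02_base, H02_base]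
      simp only [map_sub, map_mul, Complex.conj_ofReal, Complex.conj_I, Real.cos_neg, Real.sin_neg]
      push_cast
      ring
    rw [h2, Complex.conj_cpow]
    · congr 2
      rw [map_div₀, map_one, map_ofNat]
    · intro h
      have h3 := Complex.arg_eq_pi_iff.mp h
      have h4 := H02_re_nonneg h0 h1 (z := (al : ℂ) + (y : ℂ) * Complex.I)
        (by simp only [Complex.add_re, Complex.ofReal_re, Complex.mul_re, Complex.I_re, mul_zero,
              Complex.ofReal_im, Complex.I_im, mul_one, sub_self, add_zero]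
            exact ⟨by linarith, le_rfl⟩)
      linarith [h3.1]
  unfold H02_F
  rw [map_mul, map_pow, hk, ← Complex.exp_conj]
  congr 2
  simp only [map_mul, map_add, Complex.conj_ofReal, Complex.conj_I]
  push_cast
  ring_nf

/-- on the real axis -/
theorem H02_F_real {al : ℝ} (h1 : al < Real.pi / 2) (m : ℝ) (n : ℕ) {x : ℝ}
    (hx : x ∈ Icc (-al) al) :
    (H02_F al m n (x : ℂ)).re = Real.sqrt (Real.cos x - Real.cos al) ^ n * Real.cos (m * x) := by
  have h2 := H02_cos_le h1 hx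
  have h3 : kk al (x : ℂ) = ((Real.sqrt (Real.cos x - Real.cos al) : ℝ) : ℂ) := by
    unfold kk
    rw [Real.sqrt_eq_rpow, Complex.ofReal_cpow (by linarith)]
    push_cast
    rfl
  unfold H02_F
  rw [h3, ← Complex.ofReal_pow, Complex.re_ofReal_mul,
    show Complex.I * (m : ℂ) * (x : ℂ) = ((m * x : ℝ) : ℂ) * Complex.I by push_cast; ring,
    Complex.exp_ofReal_mul_I_re]

/-- the rectangle -/
theorem H02_rect {al : ℝ} (h0 : 0 < al) (h1 : al < Real.pi / 2) (m : ℝ) (n : ℕ) {T : ℝ}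
    (hT : 0 ≤ T) :
    ∫ x in (-al)..al, Real.sqrt (Real.cos x - Real.cos al) ^ n * Real.cos (m * x) =
      2 * (∫ y in (0:ℝ)..T, H02_F al m n ((al : ℂ) + (y : ℂ) * Complex.I)).im +
      (∫ x in (-al)..al, H02_F al m n ((x : ℂ) + (T : ℂ) * Complex.I)).re := by
  have hR := Complex.integral_boundary_rect_eq_zero_of_continuousOn_of_differentiableOn
    (H02_F al m n) ((-al : ℝ) : ℂ) ((al : ℂ) + (T : ℂ) * Complex.I) (by
      intro z hz
      apply ContinuousAt.continuousWithinAt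
      apply H02_F_cont h0 h1
      have h2 := hz.1
      simp only [Complex.ofReal_re, Complex.add_re, Complex.mul_re, Complex.I_re, mul_zero,
        Complex.ofReal_im, Complex.I_im, mul_one, sub_self, add_zero, mem_preimage] at h2
      rwa [uIcc_of_le (by linarith)] at h2) (by
      intro z hz
      apply DifferentiableAt.differentiableWithinAt
      apply H02_F_diff h0 h1
      have h2 := hz.1
      simp only [Complex.ofReal_re, Complex.add_re, Complex.mul_re, Complex.I_re, mul_zero,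
        Complex.ofReal_im, Complex.I_im, mul_one, sub_self, add_zero, mem_preimage] at h2
      rwa [min_eq_left (by linarith), max_eq_right (by linarith)] at h2)
  simp only [Complex.ofReal_re, Complex.add_re, Complex.mul_re, Complex.I_re, mul_zero,
    Complex.ofReal_im, Complex.I_im, mul_one, sub_self, add_zero, Complex.add_im, Complex.mul_im,
    zero_add, Complex.ofReal_zero, zero_mul, add_zero, smul_eq_mul] at hR
  have hconj : ∫ y in (0:ℝ)..T, H02_F al m n (((-al : ℝ) : ℂ) + (y : ℂ) * Complex.I) =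
      (starRingEnd ℂ) (∫ y in (0:ℝ)..T, H02_F al m n ((al : ℂ) + (y : ℂ) * Complex.I)) := by
    rw [intervalIntegral.integral_of_le hT, intervalIntegral.integral_of_le hT, ← integral_conj]
    apply integral_congr_ae
    apply Eventually.of_forall
    intro y
    exact H02_F_conj h0 h1 m n y
  rw [hconj] at hR
  have hre : (∫ x in (-al)..al, H02_F al m n (x : ℂ)).re =
      ∫ x in (-al)..al, Real.sqrt (Real.cos x - Real.cos al) ^ n * Real.cos (m * x) := by
    have hii : IntervalIntegrable (fun x : ℝ => H02_F al m n (x : ℂ)) volume (-al) al := by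
      apply ContinuousOn.intervalIntegrable
      intro x hx
      rw [uIcc_of_le (by linarith)] at hx
      apply ContinuousAt.continuousWithinAt
      exact (H02_F_cont h0 h1 m n (z := (x : ℂ)) (by simpa using hx)).comp
        Complex.continuous_ofReal.continuousAt
    have h2 := Complex.reCLM.intervalIntegral_comp_comm hii
    simp only [Complex.reCLM_apply] at h2
    rw [← h2]
    apply intervalIntegral.integral_congr
    intro x hx
    rw [uIcc_of_le (by linarith)] at hx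
    exact H02_F_real h1 m n hx
  rw [← hre]
  set G := ∫ y in (0:ℝ)..T, H02_F al m n ((al : ℂ) + (y : ℂ) * Complex.I)
  have h3 := congrArg Complex.re hR
  simp only [Complex.add_re, Complex.sub_re, Complex.mul_re, Complex.I_re, zero_mul,
    Complex.I_im, one_mul, zero_sub, Complex.conj_im, neg_neg, Complex.zero_re, Complex.conj_re] at h3
  linarith

/-! ### estimates on the vertical side -/

/-- the base on the vertical side -/
noncomputable def H02_W (al y : ℝ) : ℂ :=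
  Complex.cos ((al : ℂ) + (y : ℂ) * Complex.I) - (Real.cos al : ℂ)

theorem H02_exp_bound {y : ℝ} (_hy : 0 ≤ y) : Real.exp y - 1 ≤ y * Real.exp y := by
  have h := Real.add_one_le_exp (-y)
  have h2 : Real.exp (-y) * Real.exp y = 1 := by rw [← Real.exp_add]; simp
  have h3 := Real.exp_pos y
  nlinarith

theorem H02_exp_bound2 {y : ℝ} (hy : 0 ≤ y) : Real.exp y - 1 - y ≤ y ^ 2 * Real.exp y := by
  have h1 := H02_exp_bound hy
  have h2 : 1 ≤ Real.exp y := Real.one_le_exp hy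
  nlinarith

theorem H02_cosh_sinh (y : ℝ) : Real.cosh y + Real.sinh y = Real.exp y := Real.cosh_add_sinh y

theorem H02_W_eq (al y : ℝ) : H02_W al y =
    ((Real.cos al * (Real.cosh y - 1) : ℝ) : ℂ) - ((Real.sin al * Real.sinh y : ℝ) : ℂ) * Complex.I := by
  unfold H02_W
  rw [H02_base]
  push_cast
  ring

theorem H02_norm_W {al y : ℝ} (hc : 0 ≤ Real.cos al) (hs : 0 ≤ Real.sin al) (hy : 0 ≤ y) :
    ‖H02_W al y‖ ≤ y * Real.exp y := by
  rw [H02_W_eq]
  refine (norm_sub_le _ _).trans ?_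
  rw [norm_mul, Complex.norm_I, mul_one, Complex.norm_real, Complex.norm_real, Real.norm_eq_abs,
    Real.norm_eq_abs]
  have h1 := Real.one_le_cosh y
  have h2 : 0 ≤ Real.sinh y := Real.sinh_nonneg_iff.mpr hy
  rw [abs_of_nonneg (mul_nonneg hc (by linarith)), abs_of_nonneg (mul_nonneg hs h2)]
  have h3 := Real.cos_le_one al
  have h4 := Real.sin_le_one al
  have h5 := H02_cosh_sinh y
  have h6 := H02_exp_bound hy
  nlinarith

theorem H02_norm_W_sub {al y : ℝ} (hc : 0 ≤ Real.cos al) (hs : 0 ≤ Real.sin al) (hy : 0 ≤ y) :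
    ‖H02_W al y - (-((y * Real.sin al : ℝ) : ℂ) * Complex.I)‖ ≤ y ^ 2 * Real.exp y := by
  have e : H02_W al y - (-((y * Real.sin al : ℝ) : ℂ) * Complex.I) =
      ((Real.cos al * (Real.cosh y - 1) : ℝ) : ℂ) -
        ((Real.sin al * (Real.sinh y - y) : ℝ) : ℂ) * Complex.I := by
    rw [H02_W_eq]
    push_cast
    ring
  rw [e]
  refine (norm_sub_le _ _).trans ?_
  rw [norm_mul, Complex.norm_I, mul_one, Complex.norm_real, Complex.norm_real, Real.norm_eq_abs,
    Real.norm_eq_abs]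
  have h1 := Real.one_le_cosh y
  have h2 : y ≤ Real.sinh y := Real.self_le_sinh_iff.mpr hy
  rw [abs_of_nonneg (mul_nonneg hc (by linarith)), abs_of_nonneg (mul_nonneg hs (by linarith))]
  have h3 := Real.cos_le_one al
  have h4 := Real.sin_le_one al
  have h5 := H02_cosh_sinh y
  have h6 := H02_exp_bound2 hy
  nlinarith

/-- the square root of the base -/
noncomputable def H02_K (al y : ℝ) : ℂ := kk al ((al : ℂ) + (y : ℂ) * Complex.I)

/-- the model square root -/
noncomputable def H02_K0 (al y : ℝ) : ℂ :=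
  ((Real.sqrt (y * Real.sin al) : ℝ) : ℂ) * Complex.exp (((-(Real.pi / 4) : ℝ) : ℂ) * Complex.I)

theorem H02_K_eq (al y : ℝ) : H02_K al y = (H02_W al y) ^ ((2 : ℂ)⁻¹) := by
  unfold H02_K kk H02_W
  rw [one_div]

theorem H02_K_sq (al y : ℝ) : H02_K al y ^ 2 = H02_W al y := by
  rw [H02_K_eq]
  exact Complex.cpow_nat_inv_pow _ (two_ne_zero)

theorem H02_norm_K_sq (al y : ℝ) : ‖H02_K al y‖ ^ 2 = ‖H02_W al y‖ := by
  rw [← norm_pow, H02_K_sq]

theorem H02_norm_K {al y : ℝ} (hc : 0 ≤ Real.cos al) (hs : 0 ≤ Real.sin al) (hy : 0 ≤ y) :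
    ‖H02_K al y‖ ≤ Real.sqrt (y * Real.exp y) := by
  apply Real.le_sqrt_of_sq_le
  rw [H02_norm_K_sq]
  exact H02_norm_W hc hs hy

theorem H02_norm_K0 (al y : ℝ) : ‖H02_K0 al y‖ = Real.sqrt (y * Real.sin al) := by
  unfold H02_K0
  rw [norm_mul, Complex.norm_exp_ofReal_mul_I, mul_one, Complex.norm_real, Real.norm_eq_abs,
    abs_of_nonneg (Real.sqrt_nonneg _)]

theorem H02_K0_sq {al y : ℝ} (hs : 0 ≤ Real.sin al) (hy : 0 ≤ y) :
    H02_K0 al y ^ 2 = -((y * Real.sin al : ℝ) : ℂ) * Complex.I := by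
  unfold H02_K0
  rw [mul_pow, ← Complex.exp_nat_mul, ← Complex.ofReal_pow, Real.sq_sqrt (mul_nonneg hy hs)]
  have h1 : ((2 : ℕ) : ℂ) * (((-(Real.pi / 4) : ℝ) : ℂ) * Complex.I) =
      -((Real.pi : ℂ) / 2 * Complex.I) := by
    push_cast
    ring
  rw [h1, Complex.exp_neg, Complex.exp_pi_div_two_mul_I, Complex.inv_I]
  ring

theorem H02_K_sign {al y : ℝ} (hc : 0 ≤ Real.cos al) (hs : 0 ≤ Real.sin al) (hy : 0 ≤ y) :
    0 ≤ (H02_K al y).re ∧ (H02_K al y).im ≤ 0 := by
  have hre : (H02_W al y).re = Real.cos al * (Real.cosh y - 1) := by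
    rw [H02_W_eq]
    simp only [Complex.sub_re, Complex.ofReal_re, Complex.mul_re, Complex.I_re, mul_zero,
      Complex.ofReal_im, zero_mul, sub_zero]
  have him : (H02_W al y).im = -(Real.sin al * Real.sinh y) := by
    rw [H02_W_eq]
    simp only [Complex.sub_im, Complex.ofReal_re, Complex.mul_im, Complex.I_re, mul_zero,
      Complex.ofReal_im, Complex.I_im, mul_one, add_zero, zero_sub]
  have h1 := Real.one_le_cosh y
  have h2 : 0 ≤ Real.sinh y := Real.sinh_nonneg_iff.mpr hy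
  have hre0 : 0 ≤ (H02_W al y).re := by
    rw [hre]
    exact mul_nonneg hc (by linarith)
  constructor
  · rw [H02_K_eq, Complex.cpow_inv_two_re]
    exact Real.sqrt_nonneg _
  · rw [H02_K_eq]
    rcases lt_or_ge (H02_W al y).im 0 with h | h
    · rw [Complex.cpow_inv_two_im_eq_neg_sqrt h]
      exact neg_nonpos.mpr (Real.sqrt_nonneg _)
    · have h3 : (H02_W al y).im = 0 := by
        apply le_antisymm _ h
        rw [him]
        exact neg_nonpos.mpr (mul_nonneg hs h2)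
      rw [Complex.cpow_inv_two_im_eq_sqrt h]
      have h4 : ‖H02_W al y‖ = (H02_W al y).re := by
        rw [Complex.norm_eq_sqrt_sq_add_sq, h3]
        simp [Real.sqrt_sq hre0]
      rw [h4, sub_self, zero_div, Real.sqrt_zero]

theorem H02_K_add {al y : ℝ} (hc : 0 ≤ Real.cos al) (hs : 0 ≤ Real.sin al) (hy : 0 ≤ y) :
    ‖H02_K0 al y‖ ≤ ‖H02_K al y + H02_K0 al y‖ := by
  obtain ⟨h1, h2⟩ := H02_K_sign (al := al) hc hs hy
  have h3 : (H02_K0 al y).re = Real.sqrt (y * Real.sin al) * Real.cos (Real.pi / 4) := by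
    unfold H02_K0
    rw [Complex.re_ofReal_mul, Complex.exp_ofReal_mul_I_re, Real.cos_neg]
  have h4 : (H02_K0 al y).im = -(Real.sqrt (y * Real.sin al) * Real.sin (Real.pi / 4)) := by
    unfold H02_K0
    rw [Complex.im_ofReal_mul, Complex.exp_ofReal_mul_I_im, Real.sin_neg]
    ring
  have h5 : 0 ≤ (H02_K0 al y).re := by
    rw [h3, Real.cos_pi_div_four]
    positivity
  have h6 : (H02_K0 al y).im ≤ 0 := by
    rw [h4, Real.sin_pi_div_four]
    exact neg_nonpos.mpr (by positivity)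
  apply le_of_sq_le_sq _ (norm_nonneg _)
  rw [← Complex.normSq_eq_norm_sq, ← Complex.normSq_eq_norm_sq, Complex.normSq_apply,
    Complex.normSq_apply, Complex.add_re, Complex.add_im]
  nlinarith [mul_nonneg h1 h5, mul_nonneg (neg_nonneg.mpr h2) (neg_nonneg.mpr h6),
    sq_nonneg (H02_K al y).re, sq_nonneg (H02_K al y).im]


theorem H02_sqrt_pow {y : ℝ} (hy : 0 ≤ y) (n : ℕ) : Real.sqrt y ^ n = y ^ ((n : ℝ) / 2) := by
  rw [Real.sqrt_eq_rpow, ← Real.rpow_natCast, ← Real.rpow_mul hy]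
  congr 1
  ring

theorem H02_K_sub {al y : ℝ} (hc : 0 ≤ Real.cos al) (hs : 1/4 ≤ Real.sin al) (hy : 0 < y) :
    ‖H02_K al y - H02_K0 al y‖ ≤ 2 * Real.sqrt y ^ 3 * Real.exp y := by
  have hs0 : 0 ≤ Real.sin al := by linarith
  have h1 : ‖H02_K al y - H02_K0 al y‖ * ‖H02_K al y + H02_K0 al y‖ ≤ y ^ 2 * Real.exp y := by
    rw [← norm_mul]
    have e : (H02_K al y - H02_K0 al y) * (H02_K al y + H02_K0 al y) =
        H02_W al y - (-((y * Real.sin al : ℝ) : ℂ) * Complex.I) := by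
      rw [← H02_K0_sq hs0 hy.le, ← H02_K_sq]
      ring
    rw [e]
    exact H02_norm_W_sub hc hs0 hy.le
  have h2 := H02_K_add (al := al) hc hs0 hy.le
  rw [H02_norm_K0] at h2
  have hr : 0 < Real.sqrt y := Real.sqrt_pos.mpr hy
  have hr2 : Real.sqrt y ^ 2 = y := Real.sq_sqrt hy.le
  have h3 : Real.sqrt y / 2 ≤ Real.sqrt (y * Real.sin al) := by
    apply Real.le_sqrt_of_sq_le
    rw [div_pow, hr2]
    nlinarith
  have h4 : ‖H02_K al y - H02_K0 al y‖ * (Real.sqrt y / 2) ≤ y ^ 2 * Real.exp y :=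
    (mul_le_mul_of_nonneg_left (h3.trans h2) (norm_nonneg _)).trans h1
  have h5 : y ^ 2 * Real.exp y = (2 * Real.sqrt y ^ 3 * Real.exp y) * (Real.sqrt y / 2) := by
    have : y ^ 2 = Real.sqrt y ^ 4 := by
      rw [show Real.sqrt y ^ 4 = (Real.sqrt y ^ 2) ^ 2 by ring, hr2]
    rw [this]
    ring
  rw [h5] at h4
  exact le_of_mul_le_mul_right h4 (by positivity)

theorem H02_Kn_sub {al y : ℝ} (hc : 0 ≤ Real.cos al) (hs : 1/4 ≤ Real.sin al) (hy : 0 < y)
    {n : ℕ} (hn : n = 1 ∨ n = 3) :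
    ‖H02_K al y ^ n - H02_K0 al y ^ n‖ ≤ 6 * Real.sqrt y ^ (n + 2) * Real.exp (2 * y) := by
  have hs0 : 0 ≤ Real.sin al := by linarith
  have h1 := H02_K_sub hc hs hy
  have hr : 0 < Real.sqrt y := Real.sqrt_pos.mpr hy
  have hr2 : Real.sqrt y ^ 2 = y := Real.sq_sqrt hy.le
  have he : Real.exp (2 * y) = Real.exp y * Real.exp y := by
    rw [← Real.exp_add]
    ring_nf
  have he1 : 1 ≤ Real.exp y := Real.one_le_exp hy.le
  rcases hn with rfl | rfl
  · rw [pow_one, pow_one, he]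
    calc ‖H02_K al y - H02_K0 al y‖ ≤ 2 * Real.sqrt y ^ 3 * Real.exp y := h1
      _ ≤ 6 * Real.sqrt y ^ (1 + 2) * (Real.exp y * Real.exp y) := by
          have h2 : 0 < Real.sqrt y ^ 3 := by positivity
          have h3 : Real.sqrt y ^ 3 * Real.exp y ≤ Real.sqrt y ^ 3 * (Real.exp y * Real.exp y) := by
            apply mul_le_mul_of_nonneg_left _ h2.le
            nlinarith
          have h4 : 0 ≤ Real.sqrt y ^ 3 * (Real.exp y * Real.exp y) := by positivity
          norm_num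
          nlinarith
  · have e : H02_K al y ^ 3 - H02_K0 al y ^ 3 = (H02_K al y - H02_K0 al y) *
        (H02_K al y ^ 2 + H02_K al y * H02_K0 al y + H02_K0 al y ^ 2) := by ring
    rw [e, norm_mul]
    have h2 : ‖H02_K al y‖ ^ 2 ≤ y * Real.exp y := by
      rw [H02_norm_K_sq]
      exact H02_norm_W hc hs0 hy.le
    have h3 : ‖H02_K0 al y‖ ^ 2 ≤ y * Real.exp y := by
      rw [H02_norm_K0, Real.sq_sqrt (mul_nonneg hy.le hs0)]
      have := Real.sin_le_one al
      nlinarith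
    have h4 : ‖H02_K al y ^ 2 + H02_K al y * H02_K0 al y + H02_K0 al y ^ 2‖ ≤
        3 * (y * Real.exp y) := by
      calc ‖H02_K al y ^ 2 + H02_K al y * H02_K0 al y + H02_K0 al y ^ 2‖
          ≤ ‖H02_K al y ^ 2‖ + ‖H02_K al y * H02_K0 al y‖ + ‖H02_K0 al y ^ 2‖ :=
            norm_add₃_le
        _ = ‖H02_K al y‖ ^ 2 + ‖H02_K al y‖ * ‖H02_K0 al y‖ + ‖H02_K0 al y‖ ^ 2 := by
            rw [norm_pow, norm_pow, norm_mul]
        _ ≤ 3 * (y * Real.exp y) := by nlinarith [sq_nonneg (‖H02_K al y‖ - ‖H02_K0 al y‖)]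
    calc ‖H02_K al y - H02_K0 al y‖ *
          ‖H02_K al y ^ 2 + H02_K al y * H02_K0 al y + H02_K0 al y ^ 2‖
        ≤ (2 * Real.sqrt y ^ 3 * Real.exp y) * (3 * (y * Real.exp y)) :=
          mul_le_mul h1 h4 (norm_nonneg _) (by positivity)
      _ = 6 * Real.sqrt y ^ (3 + 2) * Real.exp (2 * y) := by
          rw [he]
          have : y = Real.sqrt y ^ 2 := hr2.symm
          calc (2 * Real.sqrt y ^ 3 * Real.exp y) * (3 * (y * Real.exp y)) =
              6 * Real.sqrt y ^ 3 * y * (Real.exp y * Real.exp y) := by ring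
            _ = 6 * Real.sqrt y ^ 3 * (Real.sqrt y ^ 2) * (Real.exp y * Real.exp y) := by
                rw [hr2]
            _ = _ := by ring

/-! ### the Laplace integrals -/

theorem H02_gamma_int {a r : ℝ} (ha : 0 < a) (hr : 0 < r) :
    IntegrableOn (fun t : ℝ => t ^ (a - 1) * Real.exp (-(r * t))) (Ioi 0) := by
  have h := integrableOn_rpow_mul_exp_neg_mul_rpow (p := 1) (s := a - 1) (b := r) (by linarith)
    one_pos hr
  refine h.congr_fun ?_ measurableSet_Ioi
  intro t _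
  simp only [Real.rpow_one]
  congr 2
  ring

theorem H02_exp_side (al m y : ℝ) : Complex.exp (Complex.I * (m : ℂ) *
    ((al : ℂ) + (y : ℂ) * Complex.I)) =
    Complex.exp (((m * al : ℝ) : ℂ) * Complex.I) * ((Real.exp (-(m * y)) : ℝ) : ℂ) := by
  rw [Complex.ofReal_exp, ← Complex.exp_add]
  congr 1
  push_cast
  have := Complex.I_sq
  linear_combination (m * y : ℂ) * this

theorem H02_F_side (al m : ℝ) (n : ℕ) (y : ℝ) :
    H02_F al m n ((al : ℂ) + (y : ℂ) * Complex.I) = H02_K al y ^ n *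
      (Complex.exp (((m * al : ℝ) : ℂ) * Complex.I) * ((Real.exp (-(m * y)) : ℝ) : ℂ)) := by
  unfold H02_F H02_K
  rw [H02_exp_side]

/-- the model integrand -/
noncomputable def H02_M (al m : ℝ) (n : ℕ) (y : ℝ) : ℂ :=
  H02_K0 al y ^ n *
      (Complex.exp (((m * al : ℝ) : ℂ) * Complex.I) * ((Real.exp (-(m * y)) : ℝ) : ℂ))

theorem H02_F_norm {al : ℝ} (hc : 0 ≤ Real.cos al) (hs : 0 ≤ Real.sin al) (m : ℝ) {n : ℕ}
    (hn : n = 1 ∨ n = 3) {y : ℝ} (hy : 0 ≤ y) :
    ‖H02_F al m n ((al : ℂ) + (y : ℂ) * Complex.I)‖ ≤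
      y ^ (((n : ℝ) / 2 + 1) - 1) * Real.exp (-((m - 2) * y)) := by
  rw [H02_F_side, norm_mul, norm_mul, Complex.norm_exp_ofReal_mul_I, one_mul, Complex.norm_real,
    Real.norm_eq_abs, abs_of_pos (Real.exp_pos _), norm_pow, add_sub_cancel_right,
    ← H02_sqrt_pow hy]
  have h1 := H02_norm_K (al := al) hc hs hy
  have h2 : Real.sqrt (y * Real.exp y) = Real.sqrt y * Real.exp (y / 2) := by
    rw [Real.sqrt_mul hy, ← Real.exp_half]
  rw [h2] at h1
  have h3 : Real.exp (-((m - 2) * y)) = Real.exp (2 * y) * Real.exp (-(m * y)) := by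
    rw [← Real.exp_add]
    ring_nf
  rw [h3, ← mul_assoc]
  apply mul_le_mul_of_nonneg_right _ (Real.exp_pos _).le
  calc ‖H02_K al y‖ ^ n ≤ (Real.sqrt y * Real.exp (y / 2)) ^ n :=
        pow_le_pow_left₀ (norm_nonneg _) h1 n
    _ = Real.sqrt y ^ n * Real.exp (n * (y / 2)) := by
        rw [mul_pow, ← Real.exp_nat_mul]
    _ ≤ Real.sqrt y ^ n * Real.exp (2 * y) := by
        apply mul_le_mul_of_nonneg_left _ (by positivity)
        apply Real.exp_le_exp.mpr
        rcases hn with rfl | rfl <;> push_cast <;> linarith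

theorem H02_F_int {al : ℝ} (h0 : 0 < al) (h1 : al < Real.pi / 2) {m : ℝ} (hm : 5/2 ≤ m) {n : ℕ}
    (hn : n = 1 ∨ n = 3) :
    IntegrableOn (fun y : ℝ => H02_F al m n ((al : ℂ) + (y : ℂ) * Complex.I)) (Ioi 0) := by
  have hc : 0 ≤ Real.cos al := (Real.cos_pos_of_mem_Ioo ⟨by linarith, h1⟩).le
  have hs : 0 ≤ Real.sin al := (Real.sin_pos_of_pos_of_lt_pi h0 (by linarith)).le
  have hg := H02_gamma_int (a := (n : ℝ) / 2 + 1) (r := m - 2) (by positivity) (by linarith)
  refine Integrable.mono' hg ?_ ?_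
  · apply ContinuousOn.aestronglyMeasurable _ measurableSet_Ioi
    intro y _
    apply ContinuousAt.continuousWithinAt
    have h2 : ContinuousAt (H02_F al m n) ((al : ℂ) + (y : ℂ) * Complex.I) := by
      apply H02_F_cont h0 h1
      simp only [Complex.add_re, Complex.ofReal_re, Complex.mul_re, Complex.I_re, mul_zero,
              Complex.ofReal_im, Complex.I_im, mul_one, sub_self, add_zero]
      exact ⟨by linarith, le_rfl⟩
    exact ContinuousAt.comp (f := fun y : ℝ => (al : ℂ) + (y : ℂ) * Complex.I) h2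
      (by fun_prop)
  · rw [ae_restrict_iff' measurableSet_Ioi]
    apply Eventually.of_forall
    intro y hy
    exact H02_F_norm hc hs m hn (le_of_lt hy)

theorem H02_M_eq {al : ℝ} (hs : 0 ≤ Real.sin al) (m : ℝ) (n : ℕ) {y : ℝ} (hy : 0 ≤ y) :
    H02_M al m n y = (((Real.sin al ^ ((n : ℝ) / 2) : ℝ) : ℂ) *
      Complex.exp (((m * al - n * (Real.pi / 4) : ℝ) : ℂ) * Complex.I)) *
      ((y ^ (((n : ℝ) / 2 + 1) - 1) * Real.exp (-(m * y)) : ℝ) : ℂ) := by
  unfold H02_M H02_K0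
  rw [mul_pow, ← Complex.exp_nat_mul, ← Complex.ofReal_pow, H02_sqrt_pow (mul_nonneg hy hs),
    Real.mul_rpow hy hs, add_sub_cancel_right]
  have h1 : Complex.exp (((m * al - n * (Real.pi / 4) : ℝ) : ℂ) * Complex.I) =
      Complex.exp ((n : ℂ) * (((-(Real.pi / 4) : ℝ) : ℂ) * Complex.I)) *
      Complex.exp (((m * al : ℝ) : ℂ) * Complex.I) := by
    rw [← Complex.exp_add]
    congr 1
    push_cast
    ring
  rw [h1]
  push_cast
  ring

theorem H02_M_int {al : ℝ} (hs : 0 ≤ Real.sin al) {m : ℝ} (hm : 0 < m) (n : ℕ) :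
    IntegrableOn (H02_M al m n) (Ioi 0) ∧ ∫ y in Ioi (0:ℝ), H02_M al m n y =
      (((Real.sin al ^ ((n : ℝ) / 2) : ℝ) : ℂ) *
      Complex.exp (((m * al - n * (Real.pi / 4) : ℝ) : ℂ) * Complex.I)) *
      (((1 / m) ^ ((n : ℝ) / 2 + 1) * Real.Gamma ((n : ℝ) / 2 + 1) : ℝ) : ℂ) := by
  have hg := H02_gamma_int (a := (n : ℝ) / 2 + 1) (r := m) (by positivity) hm
  constructor
  · refine IntegrableOn.congr_fun (f := fun y => (((Real.sin al ^ ((n : ℝ) / 2) : ℝ) : ℂ) *
      Complex.exp (((m * al - n * (Real.pi / 4) : ℝ) : ℂ) * Complex.I)) *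
      ((y ^ (((n : ℝ) / 2 + 1) - 1) * Real.exp (-(m * y)) : ℝ) : ℂ)) ?_ ?_ measurableSet_Ioi
    · exact hg.ofReal.const_mul _
    · intro y hy
      exact (H02_M_eq hs m n (le_of_lt hy)).symm
  · rw [setIntegral_congr_fun measurableSet_Ioi
      (fun y hy => H02_M_eq hs m n (le_of_lt hy)), integral_const_mul]
    congr 1
    rw [← Real.integral_rpow_mul_exp_neg_mul_Ioi (show 0 < (n : ℝ) / 2 + 1 by positivity) hm]
    exact integral_ofReal (𝕜 := ℂ)

/-- the top side tends to zero -/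
theorem H02_top {al : ℝ} {m : ℝ} (hm : 5/2 ≤ m) {n : ℕ} (hn : n = 1 ∨ n = 3) :
    Tendsto (fun T : ℝ => ∫ x in (-al)..al, H02_F al m n ((x : ℂ) + (T : ℂ) * Complex.I)) atTop
      (𝓝 0) := by
  have hb : ∀ T : ℝ, 0 ≤ T → ∀ x : ℝ, ‖H02_F al m n ((x : ℂ) + (T : ℂ) * Complex.I)‖ ≤
      8 * Real.exp (-(T / 2)) := by
    intro T hT x
    unfold H02_F
    rw [H02_exp_side, norm_mul, norm_mul, Complex.norm_exp_ofReal_mul_I, one_mul, Complex.norm_real,
      Real.norm_eq_abs, abs_of_pos (Real.exp_pos _), norm_pow]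
    have h2 : ‖kk al ((x : ℂ) + (T : ℂ) * Complex.I)‖ ^ 2 ≤ 2 * Real.exp T := by
      have h3 : kk al ((x : ℂ) + (T : ℂ) * Complex.I) ^ 2 =
          Complex.cos ((x : ℂ) + (T : ℂ) * Complex.I) - (Real.cos al : ℂ) := by
        unfold kk
        rw [one_div]
        exact Complex.cpow_nat_inv_pow _ (two_ne_zero)
      rw [← norm_pow, h3, H02_base]
      refine (norm_sub_le _ _).trans ?_
      rw [norm_mul, Complex.norm_I, mul_one, Complex.norm_real, Complex.norm_real,
        Real.norm_eq_abs, Real.norm_eq_abs]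
      have h4 := Real.one_le_cosh T
      have h5 : 0 ≤ Real.sinh T := Real.sinh_nonneg_iff.mpr hT
      have h6 : |Real.cos x * Real.cosh T - Real.cos al| ≤ Real.cosh T + 1 := by
        refine (abs_sub _ _).trans ?_
        rw [abs_mul, abs_of_nonneg (show 0 ≤ Real.cosh T by linarith)]
        have h7 := Real.abs_cos_le_one x
        have h8 := Real.abs_cos_le_one al
        nlinarith
      have h9 : |Real.sin x * Real.sinh T| ≤ Real.sinh T := by
        rw [abs_mul, abs_of_nonneg h5]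
        have h7 := Real.abs_sin_le_one x
        nlinarith
      have h10 := H02_cosh_sinh T
      have h11 : 1 ≤ Real.exp T := Real.one_le_exp hT
      linarith
    have h3 : ‖kk al ((x : ℂ) + (T : ℂ) * Complex.I)‖ ≤ 2 * Real.exp (T / 2) := by
      apply abs_le_of_sq_le_sq' _ (by positivity) |>.2
      rw [mul_pow, ← Real.exp_nat_mul]
      have : Real.exp (((2 : ℕ) : ℝ) * (T / 2)) = Real.exp T := by
        congr 1
        push_cast
        ring
      rw [this]
      have := Real.exp_pos T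
      linarith
    have h4 : ‖kk al ((x : ℂ) + (T : ℂ) * Complex.I)‖ ^ n ≤ 8 * Real.exp (2 * T) := by
      calc ‖kk al ((x : ℂ) + (T : ℂ) * Complex.I)‖ ^ n ≤ (2 * Real.exp (T / 2)) ^ n :=
            pow_le_pow_left₀ (norm_nonneg _) h3 n
        _ = 2 ^ n * Real.exp (n * (T / 2)) := by rw [mul_pow, ← Real.exp_nat_mul]
        _ ≤ 8 * Real.exp (2 * T) := by
            apply mul_le_mul _ _ (Real.exp_pos _).le (by norm_num)
            · rcases hn with rfl | rfl <;> norm_num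
            · apply Real.exp_le_exp.mpr
              rcases hn with rfl | rfl <;> push_cast <;> linarith
    calc ‖kk al ((x : ℂ) + (T : ℂ) * Complex.I)‖ ^ n * Real.exp (-(m * T))
        ≤ 8 * Real.exp (2 * T) * Real.exp (-(m * T)) :=
          mul_le_mul_of_nonneg_right h4 (Real.exp_pos _).le
      _ = 8 * Real.exp (2 * T - m * T) := by
          rw [mul_assoc, ← Real.exp_add]
          ring_nf
      _ ≤ 8 * Real.exp (-(T / 2)) := by
          apply mul_le_mul_of_nonneg_left _ (by norm_num)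
          apply Real.exp_le_exp.mpr
          nlinarith
  have hlim : Tendsto (fun T : ℝ => 8 * Real.exp (-(T / 2)) * |al - (-al)|) atTop (𝓝 0) := by
    have h1 : Tendsto (fun T : ℝ => Real.exp (-(T / 2))) atTop (𝓝 0) := by
      apply Real.tendsto_exp_neg_atTop_nhds_zero.comp
      exact tendsto_id.atTop_div_const (by norm_num)
    have h2 := (h1.const_mul 8).mul_const |al - (-al)|
    simpa using h2
  rw [tendsto_zero_iff_norm_tendsto_zero]
  apply squeeze_zero' (Eventually.of_forall fun T => norm_nonneg _) _ hlim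
  filter_upwards [eventually_ge_atTop 0] with T hT
  apply intervalIntegral.norm_integral_le_of_norm_le_const
  intro x _
  exact hb T hT x

/-- the exact formula -/
theorem H02_exact {al : ℝ} (h0 : 0 < al) (h1 : al < Real.pi / 2) {m : ℝ} (hm : 5/2 ≤ m) {n : ℕ}
    (hn : n = 1 ∨ n = 3) :
    ∫ x in (-al)..al, Real.sqrt (Real.cos x - Real.cos al) ^ n * Real.cos (m * x) =
      2 * (∫ y in Ioi (0:ℝ), H02_F al m n ((al : ℂ) + (y : ℂ) * Complex.I)).im := by
  have h2 := intervalIntegral_tendsto_integral_Ioi 0 (H02_F_int h0 h1 hm hn) tendsto_id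
  have h3 := H02_top (al := al) hm hn
  have h4 := (((Complex.continuous_im.tendsto _).comp h2).const_mul 2).add
    ((Complex.continuous_re.tendsto _).comp h3)
  simp only [Complex.zero_re, add_zero] at h4
  refine tendsto_nhds_unique (tendsto_const_nhds.congr' ?_) h4
  filter_upwards [eventually_ge_atTop 0] with T hT
  exact H02_rect h0 h1 m n hT

/-- the asymptotics -/
theorem H02_main {al : ℝ} (h0 : 0 < al) (h1 : al < Real.pi / 2) (hs : 1/4 ≤ Real.sin al)
    {m : ℝ} (hm : 5/2 ≤ m) {n : ℕ} (hn : n = 1 ∨ n = 3) :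
    |(∫ x in (-al)..al, Real.sqrt (Real.cos x - Real.cos al) ^ n * Real.cos (m * x)) -
      2 * (Real.sin al ^ ((n : ℝ) / 2) * Real.sin (m * al - n * (Real.pi / 4)) *
        ((1 / m) ^ ((n : ℝ) / 2 + 1) * Real.Gamma ((n : ℝ) / 2 + 1)))| ≤
      12 * ((5 / m) ^ ((n : ℝ) / 2 + 2) * Real.Gamma ((n : ℝ) / 2 + 2)) := by
  have hc : 0 ≤ Real.cos al := (Real.cos_pos_of_mem_Ioo ⟨by linarith, h1⟩).le
  have hs0 : 0 ≤ Real.sin al := by linarith
  rw [H02_exact h0 h1 hm hn]
  obtain ⟨hMi, hMv⟩ := H02_M_int (al := al) hs0 (show 0 < m by linarith) n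
  have hFi := H02_F_int h0 h1 hm hn
  have h2 : (∫ y in Ioi (0:ℝ), H02_F al m n ((al : ℂ) + (y : ℂ) * Complex.I)) =
      (∫ y in Ioi (0:ℝ), H02_M al m n y) +
      ∫ y in Ioi (0:ℝ), (H02_F al m n ((al : ℂ) + (y : ℂ) * Complex.I) - H02_M al m n y) := by
    rw [integral_sub hFi hMi]
    ring
  have h3 : ‖∫ y in Ioi (0:ℝ), (H02_F al m n ((al : ℂ) + (y : ℂ) * Complex.I) -
      H02_M al m n y)‖ ≤ 6 * ((1 / (m - 2)) ^ ((n : ℝ) / 2 + 2) * Real.Gamma ((n : ℝ) / 2 + 2)) := by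
    have hg := H02_gamma_int (a := (n : ℝ) / 2 + 2) (r := m - 2) (by positivity) (by linarith)
    rw [← Real.integral_rpow_mul_exp_neg_mul_Ioi (show 0 < (n : ℝ) / 2 + 2 by positivity)
      (show 0 < m - 2 by linarith), ← integral_const_mul]
    apply norm_integral_le_of_norm_le (hg.const_mul 6)
    rw [ae_restrict_iff' measurableSet_Ioi]
    apply Eventually.of_forall
    intro y hy
    rw [mem_Ioi] at hy
    rw [H02_F_side, H02_M, ← sub_mul, norm_mul, norm_mul, Complex.norm_exp_ofReal_mul_I, one_mul,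
      Complex.norm_real, Real.norm_eq_abs, abs_of_pos (Real.exp_pos _)]
    have h4 := H02_Kn_sub hc hs hy hn
    have h5 : y ^ ((n : ℝ) / 2 + 2 - 1) = Real.sqrt y ^ (n + 2) := by
      rw [H02_sqrt_pow hy.le]
      congr 1
      push_cast
      ring
    have h6 : Real.exp (-((m - 2) * y)) = Real.exp (2 * y) * Real.exp (-(m * y)) := by
      rw [← Real.exp_add]
      ring_nf
    rw [h5, h6]
    calc ‖H02_K al y ^ n - H02_K0 al y ^ n‖ * Real.exp (-(m * y))
        ≤ 6 * Real.sqrt y ^ (n + 2) * Real.exp (2 * y) * Real.exp (-(m * y)) :=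
          mul_le_mul_of_nonneg_right h4 (Real.exp_pos _).le
      _ = 6 * (Real.sqrt y ^ (n + 2) * (Real.exp (2 * y) * Real.exp (-(m * y)))) := by ring
  have h4 : (∫ y in Ioi (0:ℝ), H02_M al m n y).im =
      Real.sin al ^ ((n : ℝ) / 2) * Real.sin (m * al - n * (Real.pi / 4)) *
        ((1 / m) ^ ((n : ℝ) / 2 + 1) * Real.Gamma ((n : ℝ) / 2 + 1)) := by
    rw [hMv, Complex.im_mul_ofReal, Complex.im_ofReal_mul, Complex.exp_ofReal_mul_I_im]
  rw [h2, Complex.add_im, h4]
  have h5 := (Complex.abs_im_le_norm (∫ y in Ioi (0:ℝ),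
    (H02_F al m n ((al : ℂ) + (y : ℂ) * Complex.I) - H02_M al m n y))).trans h3
  have h6 : (1 / (m - 2)) ^ ((n : ℝ) / 2 + 2) ≤ (5 / m) ^ ((n : ℝ) / 2 + 2) := by
    apply Real.rpow_le_rpow (by
      have : 0 < m - 2 := by linarith
      positivity) _ (by positivity)
    rw [div_le_div_iff₀ (by linarith) (by linarith)]
    linarith
  have h7 : 0 < Real.Gamma ((n : ℝ) / 2 + 2) := Real.Gamma_pos_of_pos (by positivity)
  have h8 : (1 / (m - 2)) ^ ((n : ℝ) / 2 + 2) * Real.Gamma ((n : ℝ) / 2 + 2) ≤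
      (5 / m) ^ ((n : ℝ) / 2 + 2) * Real.Gamma ((n : ℝ) / 2 + 2) :=
    mul_le_mul_of_nonneg_right h6 h7.le
  rw [abs_le] at h5 ⊢
  constructor <;> linarith [h5.1, h5.2]


theorem H02_JJ {al : ℝ} (h : al ∈ JJ) : 0 < al ∧ al < Real.pi / 2 ∧ 1/4 ≤ Real.sin al := by
  obtain ⟨h1, _, h3, _, _, h6, _⟩ := JJ_bounds h
  exact ⟨by linarith, h3, by linarith⟩

theorem H02_one_div_rpow {m : ℝ} (hm : 0 < m) (a : ℝ) : (1 / m) ^ a = m ^ (-a) := by
  rw [one_div, Real.inv_rpow hm.le, Real.rpow_neg hm.le]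

theorem H02_five_div_rpow {m : ℝ} (hm : 0 < m) (a : ℝ) : (5 / m) ^ a = 5 ^ a * m ^ (-a) := by
  rw [div_eq_mul_one_div, Real.mul_rpow (by norm_num) (by positivity), H02_one_div_rpow hm]

theorem ll_asymp : ∃ A : ℝ, 0 < A ∧ ∀ al ∈ JJ, ∀ m : ℝ, 5/2 ≤ m →
    |ll al m - 3 * Real.sqrt Real.pi / 2 * (Real.sin al) ^ ((3:ℝ)/2) * m ^ (-(5:ℝ)/2) * Real.cos (m * al - 5 * Real.pi / 4)|
      ≤ A * m ^ (-(7:ℝ)/2) := by
  refine ⟨12 * (5 ^ ((7:ℝ)/2) * Real.Gamma (7/2)), by
    have := Real.Gamma_pos_of_pos (show (0:ℝ) < 7/2 by norm_num)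
    positivity, ?_⟩
  intro al hal m hm
  obtain ⟨h0, h1, hs⟩ := H02_JJ hal
  have hm0 : 0 < m := by linarith
  have h := H02_main h0 h1 hs hm (n := 3) (Or.inr rfl)
  have hG : Real.Gamma (5/2) = 3/4 * Real.sqrt Real.pi := by
    rw [show (5/2 : ℝ) = 3/2 + 1 by norm_num, Real.Gamma_add_one (by norm_num),
      show (3/2 : ℝ) = 1/2 + 1 by norm_num, Real.Gamma_add_one (by norm_num),
      Real.Gamma_one_half_eq]
    ring
  have hcs : Real.cos (m * al - 5 * Real.pi / 4) = Real.sin (m * al - 3 * (Real.pi / 4)) := by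
    rw [show m * al - 5 * Real.pi / 4 = (m * al - 3 * (Real.pi / 4)) - Real.pi / 2 by ring,
      Real.cos_sub_pi_div_two]
  have e1 : ((3 : ℕ) : ℝ) / 2 + 1 = 5/2 := by norm_num
  have e2 : ((3 : ℕ) : ℝ) / 2 + 2 = 7/2 := by norm_num
  rw [e1, e2, hG, H02_one_div_rpow hm0, H02_five_div_rpow hm0] at h
  rw [hcs, show -(5:ℝ)/2 = -(5/2) by ring, show -(7:ℝ)/2 = -(7/2) by ring]
  push_cast at h
  have e3 : ll al m - 3 * Real.sqrt Real.pi / 2 * (Real.sin al) ^ ((3:ℝ)/2) * m ^ (-(5/2) : ℝ) *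
      Real.sin (m * al - 3 * (Real.pi / 4)) =
      (∫ x in (-al)..al, Real.sqrt (Real.cos x - Real.cos al) ^ 3 * Real.cos (m * x)) -
      2 * (Real.sin al ^ ((3 : ℝ) / 2) * Real.sin (m * al - 3 * (Real.pi / 4)) *
        (m ^ (-(5/2) : ℝ) * (3/4 * Real.sqrt Real.pi))) := by
    unfold ll
    ring
  rw [e3]
  refine h.trans (le_of_eq ?_)
  ring

/-- same with exponent `1/2` -/
theorem l1_asymp : ∃ A : ℝ, 0 < A ∧ ∀ al ∈ JJ, ∀ m : ℝ, 5/2 ≤ m →
    |l1 al m - Real.sqrt Real.pi * (Real.sin al) ^ ((1:ℝ)/2) * m ^ (-(3:ℝ)/2) * Real.cos (m * al - 3 * Real.pi / 4)|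
      ≤ A * m ^ (-(5:ℝ)/2) := by
  refine ⟨12 * (5 ^ ((5:ℝ)/2) * Real.Gamma (5/2)), by
    have := Real.Gamma_pos_of_pos (show (0:ℝ) < 5/2 by norm_num)
    positivity, ?_⟩
  intro al hal m hm
  obtain ⟨h0, h1, hs⟩ := H02_JJ hal
  have hm0 : 0 < m := by linarith
  have h := H02_main h0 h1 hs hm (n := 1) (Or.inl rfl)
  have hG : Real.Gamma (3/2) = 1/2 * Real.sqrt Real.pi := by
    rw [show (3/2 : ℝ) = 1/2 + 1 by norm_num, Real.Gamma_add_one (by norm_num),
      Real.Gamma_one_half_eq]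
  have hcs : Real.cos (m * al - 3 * Real.pi / 4) = Real.sin (m * al - Real.pi / 4) := by
    rw [show m * al - 3 * Real.pi / 4 = (m * al - Real.pi / 4) - Real.pi / 2 by ring,
      Real.cos_sub_pi_div_two]
  have e1 : ((1 : ℕ) : ℝ) / 2 + 1 = 3/2 := by norm_num
  have e2 : ((1 : ℕ) : ℝ) / 2 + 2 = 5/2 := by norm_num
  rw [e1, e2, hG, H02_one_div_rpow hm0, H02_five_div_rpow hm0] at h
  rw [hcs, show -(3:ℝ)/2 = -(3/2) by ring, show -(5:ℝ)/2 = -(5/2) by ring]
  push_cast at h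
  rw [one_mul] at h
  simp only [pow_one] at h
  have e3 : l1 al m - Real.sqrt Real.pi * (Real.sin al) ^ ((1:ℝ)/2) * m ^ (-(3/2) : ℝ) *
      Real.sin (m * al - Real.pi / 4) =
      (∫ x in (-al)..al, Real.sqrt (Real.cos x - Real.cos al) * Real.cos (m * x)) -
      2 * (Real.sin al ^ ((1 : ℝ) / 2) * Real.sin (m * al - Real.pi / 4) *
        (m ^ (-(3/2) : ℝ) * (1/2 * Real.sqrt Real.pi))) := by
    unfold l1
    ring
  rw [e3]
  refine h.trans (le_of_eq ?_)
  ring

end FB
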