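import Pool.Agent.H48.FB.HDefs

/-! H03: closed form of `ll al (2n+1/2)`, `n = k+1`. -/

open Set MeasureTheory Filter Topology

namespace FB

/-- derivative of `sqrt (cos s - cos al)` inside the interval -/
theorem H03_hasDerivAt_sqrt {al s : ℝ} (hs : Real.cos al < Real.cos s) :
    HasDerivAt (fun s => Real.sqrt (Real.cos s - Real.cos al))
      (-Real.sin s / (2 * Real.sqrt (Real.cos s - Real.cos al))) s := by
  have h1 : HasDerivAt (fun s => Real.cos s - Real.cos al) (-Real.sin s) s :=
    (Real.hasDerivAt_cos s).sub_const _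
  exact h1.sqrt (by linarith)

theorem H03_cos_lt {al s : ℝ} (h1 : al < Real.pi / 2) (hs : s ∈ Ioo (-al) al) :
    Real.cos al < Real.cos s := by
  rw [← Real.cos_abs s]
  apply Real.cos_lt_cos_of_nonneg_of_le_pi (abs_nonneg s)
  · have := Real.pi_pos
    linarith
  · rw [abs_lt]
    exact hs

theorem H03_cont_sqrt (al : ℝ) : Continuous fun s => Real.sqrt (Real.cos s - Real.cos al) :=
  (Real.continuous_cos.sub continuous_const).sqrt

theorem H03_int (al m : ℝ) (a b : ℝ) : IntervalIntegrable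
    (fun s => (Real.sqrt (Real.cos s - Real.cos al)) ^ 3 * Real.cos (m * s)) volume a b := by
  apply Continuous.intervalIntegrable
  have := H03_cont_sqrt al
  fun_prop

/-- the recurrence -/
theorem H03_rec {al : ℝ} (h0 : 0 < al) (h1 : al < Real.pi / 2) (m : ℝ) :
    (2 * m + 5) * ll al (m + 1) + (2 * m - 5) * ll al (m - 1) =
      4 * m * Real.cos al * ll al m := by
  have hc := H03_cont_sqrt al
  have hF : ∫ s in (-al)..al, (-(5/2) * Real.sqrt (Real.cos s - Real.cos al) ^ 3 * Real.sin s *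
      Real.sin (m * s) + Real.sqrt (Real.cos s - Real.cos al) ^ 5 * (m * Real.cos (m * s))) =
      Real.sqrt (Real.cos al - Real.cos al) ^ 5 * Real.sin (m * al) -
      Real.sqrt (Real.cos (-al) - Real.cos al) ^ 5 * Real.sin (m * (-al)) := by
    apply intervalIntegral.integral_eq_sub_of_hasDerivAt_of_le (by linarith)
      (f := fun s => Real.sqrt (Real.cos s - Real.cos al) ^ 5 * Real.sin (m * s))
    · apply Continuous.continuousOn
      fun_prop
    · intro s hs
      have hlt := H03_cos_lt h1 hs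
      have hw : 0 < Real.sqrt (Real.cos s - Real.cos al) := Real.sqrt_pos.mpr (by linarith)
      have h2 := (H03_hasDerivAt_sqrt hlt).pow 5
      have h3 : HasDerivAt (fun s => Real.sin (m * s)) (m * Real.cos (m * s)) s := by
        have h4 := ((hasDerivAt_id s).const_mul m).sin
        simp only [id, mul_one] at h4
        convert h4 using 1
        ring
      have h5 := h2.mul h3
      refine h5.congr_deriv ?_
      simp only [Pi.pow_apply]
      field_simp
      ring
    · apply Continuous.intervalIntegrable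
      fun_prop
  rw [Real.cos_neg, sub_self, Real.sqrt_zero, zero_pow (by norm_num), zero_mul, zero_mul,
    sub_zero] at hF
  have hI : ∫ s in (-al)..al, (-(5/2) * Real.sqrt (Real.cos s - Real.cos al) ^ 3 * Real.sin s *
      Real.sin (m * s) + Real.sqrt (Real.cos s - Real.cos al) ^ 5 * (m * Real.cos (m * s))) =
      ∫ s in (-al)..al, (((2 * m + 5) / 4) *
        ((Real.sqrt (Real.cos s - Real.cos al)) ^ 3 * Real.cos ((m + 1) * s)) +
        ((2 * m - 5) / 4) *
        ((Real.sqrt (Real.cos s - Real.cos al)) ^ 3 * Real.cos ((m - 1) * s)) -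
        (m * Real.cos al) * ((Real.sqrt (Real.cos s - Real.cos al)) ^ 3 * Real.cos (m * s))) := by
    apply intervalIntegral.integral_congr
    intro s hs
    rw [uIcc_of_le (by linarith)] at hs
    have hle : Real.cos al ≤ Real.cos s := by
      rw [← Real.cos_abs s]
      apply Real.cos_le_cos_of_nonneg_of_le_pi (abs_nonneg s)
      · have := Real.pi_pos
        linarith
      · rw [abs_le]
        exact hs
    have hsq : Real.sqrt (Real.cos s - Real.cos al) ^ 2 = Real.cos s - Real.cos al :=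
      Real.sq_sqrt (by linarith)
    have e1 : Real.cos ((m + 1) * s) = Real.cos (m * s) * Real.cos s - Real.sin (m * s) * Real.sin s := by
      rw [← Real.cos_add]
      ring_nf
    have e2 : Real.cos ((m - 1) * s) = Real.cos (m * s) * Real.cos s + Real.sin (m * s) * Real.sin s := by
      rw [← Real.cos_sub]
      ring_nf
    simp only
    rw [e1, e2]
    have e3 : Real.sqrt (Real.cos s - Real.cos al) ^ 5 =
        Real.sqrt (Real.cos s - Real.cos al) ^ 3 * (Real.cos s - Real.cos al) := by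
      rw [show Real.sqrt (Real.cos s - Real.cos al) ^ 5 = Real.sqrt (Real.cos s - Real.cos al) ^ 3 *
        Real.sqrt (Real.cos s - Real.cos al) ^ 2 by ring, hsq]
    rw [e3]
    ring
  have hI2 : ∫ s in (-al)..al, (((2 * m + 5) / 4) *
        ((Real.sqrt (Real.cos s - Real.cos al)) ^ 3 * Real.cos ((m + 1) * s)) +
        ((2 * m - 5) / 4) *
        ((Real.sqrt (Real.cos s - Real.cos al)) ^ 3 * Real.cos ((m - 1) * s)) -
        (m * Real.cos al) * ((Real.sqrt (Real.cos s - Real.cos al)) ^ 3 * Real.cos (m * s))) =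
      ((2 * m + 5) / 4) * ll al (m + 1) + ((2 * m - 5) / 4) * ll al (m - 1) -
        (m * Real.cos al) * ll al m := by
    unfold ll
    rw [intervalIntegral.integral_sub, intervalIntegral.integral_add,
      intervalIntegral.integral_const_mul, intervalIntegral.integral_const_mul,
      intervalIntegral.integral_const_mul]
    · exact (H03_int al (m + 1) _ _).const_mul _
    · exact (H03_int al (m - 1) _ _).const_mul _
    · exact ((H03_int al (m + 1) _ _).const_mul _).add ((H03_int al (m - 1) _ _).const_mul _)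
    · exact (H03_int al m _ _).const_mul _
  rw [hI2] at hI
  rw [hI] at hF
  linarith

/-- the lowest one: substitute `u = sin (s/2)`. -/
theorem ll_closed_zero {al : ℝ} (h0 : 0 < al) (h1 : al < Real.pi / 2) :
    ll al (1/2) = 3 / (2 * Real.sqrt 2) * (Real.pi / 2) * (1 - Real.cos al) ^ 2 := by
  have hpi := Real.pi_pos
  have hc := H03_cont_sqrt al
  set a : ℝ := Real.sin (al / 2) with ha
  have ha0 : 0 < a := Real.sin_pos_of_pos_of_lt_pi (by linarith) (by linarith)
  have hcosal : Real.cos al = 1 - 2 * a ^ 2 := by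
    have h2 := Real.cos_two_mul (al / 2)
    have h3 := Real.sin_sq_add_cos_sq (al / 2)
    rw [show 2 * (al / 2) = al by ring] at h2
    rw [h2, ha]
    linarith
  have hr2 : Real.sqrt 2 ^ 2 = 2 := Real.sq_sqrt (by norm_num)
  have hr0 : 0 < Real.sqrt 2 := Real.sqrt_pos.mpr (by norm_num)
  have hF := intervalIntegral.integral_eq_sub_of_hasDerivAt_of_le (a := -al) (b := al)
    (f := fun s => (1/2) * (Real.sin (s / 2) * (5 * a ^ 2 - 2 * Real.sin (s / 2) ^ 2) *
      Real.sqrt (Real.cos s - Real.cos al) + 3 * Real.sqrt 2 * a ^ 4 *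
      Real.arcsin (Real.sin (s / 2) / a)))
    (f' := fun s => (Real.sqrt (Real.cos s - Real.cos al)) ^ 3 * Real.cos ((1/2) * s))
    (by linarith)
    (by
      apply Continuous.continuousOn
      have := Real.continuous_arcsin
      fun_prop)
    (by
      intro s hs
      have hlt := H03_cos_lt h1 hs
      have hw : 0 < Real.sqrt (Real.cos s - Real.cos al) := Real.sqrt_pos.mpr (by linarith)
      set u : ℝ := Real.sin (s / 2) with hu
      have hcoss : Real.cos s = 1 - 2 * u ^ 2 := by
        have h2 := Real.cos_two_mul (s / 2)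
        have h3 := Real.sin_sq_add_cos_sq (s / 2)
        rw [show 2 * (s / 2) = s by ring] at h2
        rw [h2, hu]
        linarith
      have hsins : Real.sin s = 2 * u * Real.cos (s / 2) := by
        have h2 := Real.sin_two_mul (s / 2)
        rw [show 2 * (s / 2) = s by ring] at h2
        rw [h2, hu]
      have hsq : Real.sqrt (Real.cos s - Real.cos al) ^ 2 = 2 * (a ^ 2 - u ^ 2) := by
        rw [Real.sq_sqrt (by linarith), hcoss, hcosal]
        ring
      have hua : u ^ 2 < a ^ 2 := by nlinarith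
      have hu1 : HasDerivAt (fun s => Real.sin (s / 2)) (Real.cos (s / 2) * (1 / 2)) s :=
        ((hasDerivAt_id s).div_const 2).sin
      have hD := H03_hasDerivAt_sqrt hlt
      set w : ℝ := Real.sqrt (Real.cos s - Real.cos al) with hwdef
      -- the arcsine
      have hq1 : u / a ≠ -1 := by
        intro h
        rw [div_eq_iff ha0.ne'] at h
        rw [h] at hua
        nlinarith
      have hq2 : u / a ≠ 1 := by
        intro h
        rw [div_eq_iff ha0.ne'] at h
        rw [h] at hua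
        nlinarith
      have hA : HasDerivAt (fun s => Real.arcsin (Real.sin (s / 2) / a))
          (1 / Real.sqrt (1 - (u / a) ^ 2) * (Real.cos (s / 2) * (1 / 2) / a)) s :=
        HasDerivAt.comp (h₂ := Real.arcsin) (h := fun s => Real.sin (s / 2) / a) s
          (Real.hasDerivAt_arcsin hq1 hq2) (hu1.div_const a)
      have hsqrt : Real.sqrt (1 - (u / a) ^ 2) = w / (Real.sqrt 2 * a) := by
        rw [Real.sqrt_eq_iff_mul_self_eq_of_pos (by positivity)]
        rw [div_mul_div_comm, ← sq, hsq, show Real.sqrt 2 * a * (Real.sqrt 2 * a) =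
          Real.sqrt 2 ^ 2 * a ^ 2 by ring, hr2]
        field_simp
      rw [hsqrt] at hA
      have hB := ((hu1.mul (((hu1.pow 2).const_mul 2).const_sub (5 * a ^ 2))).mul hD)
      have hT := (hB.add (hA.const_mul (3 * Real.sqrt 2 * a ^ 4))).const_mul (1/2 : ℝ)
      refine hT.congr_deriv ?_
      simp only [Pi.pow_apply, Pi.mul_apply]
      rw [← hu, ← hwdef, hsins, show (1/2 : ℝ) * s = s / 2 by ring]
      field_simp
      have hw4 : w ^ 4 = 4 * (a ^ 2 - u ^ 2) ^ 2 := by
        rw [show w ^ 4 = (w ^ 2) ^ 2 by ring, hsq]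
        ring
      norm_num
      ring_nf
      ring_nf at hw4 hsq hr2
      rw [hw4, hsq]
      ring)
    (H03_int al _ _ _)
  have hll : ll al (1/2) = ∫ s in (-al)..al,
      (Real.sqrt (Real.cos s - Real.cos al)) ^ 3 * Real.cos ((1/2) * s) := rfl
  rw [hll, hF]
  simp only [Real.cos_neg, sub_self, Real.sqrt_zero, mul_zero, zero_add, neg_div, Real.sin_neg,
    ← ha, neg_div, div_self ha0.ne', Real.arcsin_neg, Real.arcsin_one, hcosal]
  field_simp
  rw [hr2]
  ring

/-! ### the polynomials -/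

/-- coefficients of the even polynomials -/
noncomputable def H03_w (j : ℕ) : ℝ := (-1 / 2) ^ j * 2 / ((j.factorial : ℝ) * ((j + 2).factorial : ℝ))

noncomputable def H03_A (k j : ℕ) : ℝ := ∏ i ∈ Finset.range j, ((k : ℝ) - i)
noncomputable def H03_B (k j : ℕ) : ℝ := ∏ i ∈ Finset.range j, (2 * (k : ℝ) + 2 * i + 5)

noncomputable def H03_E (M k : ℕ) (s : ℝ) : ℝ :=
  ∑ j ∈ Finset.range M, H03_w j * H03_A k j * H03_B k j * s ^ j
noncomputable def H03_O (M k : ℕ) (s : ℝ) : ℝ :=
  ∑ j ∈ Finset.range M, H03_w j * H03_A k j * H03_B (k + 1) j * s ^ j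

theorem H03_A_zero {k j : ℕ} (h : k < j) : H03_A k j = 0 := by
  unfold H03_A
  exact Finset.prod_eq_zero (Finset.mem_range.mpr h) (sub_self _)

theorem H03_hk (k M : ℕ) (hM : k + 1 ≤ M) (s : ℝ) : hk k s = H03_E M k s := by
  unfold hk H03_E
  rw [← Finset.sum_subset (Finset.range_subset_range.mpr hM)]
  · apply Finset.sum_congr rfl
    intro j _
    have h1 : ∏ i ∈ Finset.range j, ((k : ℝ) * (2 * k + 5) - (i : ℝ) * (2 * i + 5)) =
        H03_A k j * H03_B k j := by
      unfold H03_A H03_B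
      rw [← Finset.prod_mul_distrib]
      apply Finset.prod_congr rfl
      intro i _
      ring
    rw [h1]
    unfold H03_w
    rw [show -s / 2 = (-1/2) * s by ring, mul_pow]
    ring
  · intro j _ hj
    rw [H03_A_zero (by simpa using hj)]
    ring

theorem H03_O_succ (k M : ℕ) (hM : k + 1 ≤ M) (s : ℝ) : H03_O (M + 1) k s = H03_O M k s := by
  unfold H03_O
  rw [Finset.sum_range_succ, H03_A_zero (by omega)]
  ring

theorem H03_B_shift (k j : ℕ) : (2 * (k : ℝ) + 5) * H03_B (k + 1) j =
    H03_B k j * (2 * k + 2 * j + 5) := by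
  have h1 : H03_B k (j + 1) = H03_B k j * (2 * k + 2 * j + 5) := by
    unfold H03_B
    rw [Finset.prod_range_succ]
  have h2 : H03_B k (j + 1) = (2 * (k : ℝ) + 5) * H03_B (k + 1) j := by
    unfold H03_B
    rw [Finset.prod_range_succ']
    rw [mul_comm]
    congr 1
    · push_cast
      ring
    · apply Finset.prod_congr rfl
      intro i _
      push_cast
      ring
  rw [← h1, h2]

theorem H03_A_shift (k j : ℕ) : ((k : ℝ) + 1) * H03_A k j = H03_A (k + 1) j * (k + 1 - j) := by
  have h1 : H03_A (k + 1) (j + 1) = H03_A (k + 1) j * (k + 1 - j) := by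
    unfold H03_A
    rw [Finset.prod_range_succ]
    push_cast
    ring
  have h2 : H03_A (k + 1) (j + 1) = ((k : ℝ) + 1) * H03_A k j := by
    unfold H03_A
    rw [Finset.prod_range_succ', mul_comm]
    congr 1
    · push_cast
      ring
    · apply Finset.prod_congr rfl
      intro i _
      push_cast
      ring
  rw [← h1, h2]

/-- first contiguous relation -/
theorem H03_R1 (M k : ℕ) (s : ℝ) :
    (2 * (k : ℝ) + 7) * H03_O M (k + 1) s + (2 * k + 2) * H03_O M k s =
      (4 * k + 9) * H03_E M (k + 1) s := by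
  unfold H03_O H03_E
  rw [Finset.mul_sum, Finset.mul_sum, Finset.mul_sum, ← Finset.sum_add_distrib]
  apply Finset.sum_congr rfl
  intro j _
  have h1 := H03_B_shift (k + 1) j
  have h2 := H03_A_shift k j
  push_cast at h1
  have h3 : (2 * (k : ℝ) + 7) * H03_B (k + 1 + 1) j = H03_B (k + 1) j * (2 * k + 2 * j + 7) := by
    linear_combination h1
  linear_combination (H03_w j * H03_A (k + 1) j * s ^ j) * h3 +
    (2 * H03_w j * H03_B (k + 1) j * s ^ j) * h2

/-- second contiguous relation, coefficientwise -/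
theorem H03_R2_coeff (k j : ℕ) :
    (2 * (k : ℝ) + 6) * (H03_w (j + 1) * H03_A (k + 1) (j + 1) * H03_B (k + 1) (j + 1)) +
      (2 * k + 1) * (H03_w (j + 1) * H03_A k (j + 1) * H03_B k (j + 1)) =
      (4 * k + 7) * (H03_w (j + 1) * H03_A k (j + 1) * H03_B (k + 1) (j + 1) -
        H03_w j * H03_A k j * H03_B (k + 1) j) := by
  have hw : H03_w j = - 2 * (j + 1) * (j + 3) * H03_w (j + 1) := by
    unfold H03_w
    rw [show j + 1 + 2 = (j + 2) + 1 by ring, Nat.factorial_succ (j + 2), Nat.factorial_succ j,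
      pow_succ]
    push_cast
    have h1 : (j.factorial : ℝ) ≠ 0 := by exact_mod_cast j.factorial_ne_zero
    have h2 : ((j + 2).factorial : ℝ) ≠ 0 := by exact_mod_cast (j + 2).factorial_ne_zero
    have h3 : (j : ℝ) + 1 ≠ 0 := by positivity
    have h4 : (j : ℝ) + 2 + 1 ≠ 0 := by positivity
    field_simp
    ring
  have hA1 : H03_A k (j + 1) = H03_A k j * (k - j) := by
    unfold H03_A
    rw [Finset.prod_range_succ]
  have hA2 : H03_A (k + 1) (j + 1) = (k + 1) * H03_A k j := by
    have h1 : H03_A (k + 1) (j + 1) = H03_A (k + 1) j * (k + 1 - j) := by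
      unfold H03_A
      rw [Finset.prod_range_succ]
      push_cast
      ring
    rw [h1, H03_A_shift]
  have hB1 : H03_B (k + 1) (j + 1) = H03_B (k + 1) j * (2 * k + 2 * j + 7) := by
    unfold H03_B
    rw [Finset.prod_range_succ]
    push_cast
    ring
  have hB2 : H03_B k (j + 1) = (2 * k + 5) * H03_B (k + 1) j := by
    rw [H03_B_shift]
    unfold H03_B
    rw [Finset.prod_range_succ]
  rw [hw, hA1, hA2, hB1, hB2]
  ring

theorem H03_R2 (M k : ℕ) (hM : k + 2 ≤ M) (s : ℝ) :
    (2 * (k : ℝ) + 6) * H03_E M (k + 1) s + (2 * k + 1) * H03_E M k s =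
      (4 * k + 7) * (1 - s) * H03_O M k s := by
  obtain ⟨M, rfl⟩ : ∃ M', M = M' + 1 := ⟨M - 1, by omega⟩
  have hO : H03_O (M + 1) k s = H03_O M k s := H03_O_succ k M (by omega) s
  have h1 : (1 - s) * H03_O (M + 1) k s = H03_O (M + 1) k s - s * H03_O M k s := by
    rw [hO]
    ring
  rw [mul_assoc, h1]
  unfold H03_E H03_O
  rw [Finset.sum_range_succ' _ M, Finset.sum_range_succ' _ M, Finset.sum_range_succ' _ M]
  have h2 : ∀ j, s * (H03_w j * H03_A k j * H03_B (k + 1) j * s ^ j) =
      H03_w j * H03_A k j * H03_B (k + 1) j * s ^ (j + 1) := by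
    intro j
    ring
  rw [Finset.mul_sum (Finset.range M) _ s]
  simp only [h2]
  have h3 : ∑ j ∈ Finset.range M, ((2 * (k : ℝ) + 6) *
      (H03_w (j + 1) * H03_A (k + 1) (j + 1) * H03_B (k + 1) (j + 1) * s ^ (j + 1)) +
      (2 * k + 1) * (H03_w (j + 1) * H03_A k (j + 1) * H03_B k (j + 1) * s ^ (j + 1))) =
      ∑ j ∈ Finset.range M, (4 * (k : ℝ) + 7) *
      (H03_w (j + 1) * H03_A k (j + 1) * H03_B (k + 1) (j + 1) * s ^ (j + 1) -
        H03_w j * H03_A k j * H03_B (k + 1) j * s ^ (j + 1)) := by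
    apply Finset.sum_congr rfl
    intro j _
    linear_combination s ^ (j + 1) * H03_R2_coeff k j
  rw [Finset.sum_add_distrib, ← Finset.mul_sum, ← Finset.mul_sum, ← Finset.mul_sum,
    Finset.sum_sub_distrib] at h3
  have h4 : ∀ k', H03_w 0 * H03_A k' 0 * H03_B k' 0 * s ^ 0 = 1 := by
    intro k'
    simp [H03_w, H03_A, H03_B]
  have h5 : H03_w 0 * H03_A k 0 * H03_B (k + 1) 0 * s ^ 0 = 1 := by
    simp [H03_w, H03_A, H03_B]
  rw [h4, h4, h5]
  linear_combination h3

/-- both parities at once -/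
theorem H03_main {al : ℝ} (h0 : 0 < al) (h1 : al < Real.pi / 2) (k : ℕ) :
    ll al (2 * ((k + 1 : ℕ) : ℝ) + 1/2) =
      3 / (2 * Real.sqrt 2) * (Real.pi / 8) * (Real.sin al) ^ 4 *
        H03_E (k + 1) k ((Real.sin al) ^ 2) ∧
    ll al (2 * ((k + 1 : ℕ) : ℝ) + 3/2) =
      3 / (2 * Real.sqrt 2) * (Real.pi / 8) * (Real.sin al) ^ 4 * (Real.cos al *
        H03_O (k + 1) k ((Real.sin al) ^ 2)) := by
  have hsc := Real.sin_sq_add_cos_sq al
  induction k with
  | zero =>
    have e0 := ll_closed_zero h0 h1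
    have hr1 := H03_rec h0 h1 (1/2)
    have hr2 := H03_rec h0 h1 (3/2)
    have hr3 := H03_rec h0 h1 (5/2)
    have hneg : ll al (1/2 - 1) = ll al (1/2) := by
      unfold ll
      apply intervalIntegral.integral_congr
      intro s _
      simp only
      rw [show (1/2 - 1 : ℝ) * s = -(1/2 * s) by ring, Real.cos_neg]
    rw [hneg] at hr1
    norm_num at hr1 hr2 hr3 ⊢
    have hE : H03_E 1 0 (Real.sin al ^ 2) = 1 := by
      simp [H03_E, H03_w, H03_A, H03_B]
    have hO : H03_O 1 0 (Real.sin al ^ 2) = 1 := by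
      simp [H03_O, H03_w, H03_A, H03_B]
    have hs4 : Real.sin al ^ 4 = (1 - Real.cos al) ^ 2 * (1 + Real.cos al) ^ 2 := by
      have : Real.sin al ^ 2 = 1 - Real.cos al ^ 2 := by linarith
      rw [show Real.sin al ^ 4 = (Real.sin al ^ 2) ^ 2 by ring, this]
      ring
    have e2 : ll al (5/2) = 3 / (2 * Real.sqrt 2) * (Real.pi / 8) * (Real.sin al) ^ 4 := by
      have e1 : ll al (3/2) = (Real.cos al + 2) / 3 * ll al (1/2) := by linarith
      have e2 : ll al (5/2) = (1 + Real.cos al) ^ 2 / 4 * ll al (1/2) := by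
        rw [e1] at hr2
        linear_combination hr2 / 8
      rw [e2, e0, hs4]
      ring
    rw [hE, hO]
    constructor
    · rw [e2]
      ring
    · have e3 : ll al (7/2) = Real.cos al * ll al (5/2) := by linarith
      rw [e3, e2]
      ring
  | succ k ih =>
    obtain ⟨ih1, ih2⟩ := ih
    set C : ℝ := 3 / (2 * Real.sqrt 2) * (Real.pi / 8) * (Real.sin al) ^ 4 with hC
    set S : ℝ := (Real.sin al) ^ 2 with hS
    have hR1 := H03_R1 (k + 1 + 1) k S
    have hR2 := H03_R2 (k + 1 + 1) k (by omega) S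
    have hE1 : H03_E (k + 1 + 1) k S = H03_E (k + 1) k S := by
      rw [← H03_hk k (k + 1 + 1) (by omega), H03_hk k (k + 1) le_rfl]
    have hO1 : H03_O (k + 1 + 1) k S = H03_O (k + 1) k S := H03_O_succ k (k + 1) le_rfl S
    rw [hE1, hO1] at hR2
    rw [hO1] at hR1
    have hr1 := H03_rec h0 h1 (2 * ((k + 1 : ℕ) : ℝ) + 3/2)
    have hr2 := H03_rec h0 h1 (2 * ((k + 1 : ℕ) : ℝ) + 5/2)
    push_cast at ih1 ih2 hr1 hr2 ⊢
    rw [show 2 * ((k : ℝ) + 1) + 3 / 2 + 1 = 2 * ((k : ℝ) + 1 + 1) + 1/2 by ring,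
      show 2 * ((k : ℝ) + 1) + 3 / 2 - 1 = 2 * ((k : ℝ) + 1) + 1/2 by ring, ih1, ih2] at hr1
    have hx : Real.cos al ^ 2 = 1 - S := by
      rw [hS]
      linarith
    have hk6 : (2 * (k : ℝ) + 6) ≠ 0 := by positivity
    have hk7 : (2 * (k : ℝ) + 7) ≠ 0 := by positivity
    have e1 : ll al (2 * ((k : ℝ) + 1 + 1) + 1/2) = C * H03_E (k + 1 + 1) (k + 1) S := by
      have : (2 * (k : ℝ) + 6) * ll al (2 * ((k : ℝ) + 1 + 1) + 1/2) =
          (2 * (k : ℝ) + 6) * (C * H03_E (k + 1 + 1) (k + 1) S) := by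
        linear_combination hr1 / 2 - C * hR2 + (4 * k + 7) * C * H03_O (k + 1) k S * hx
      exact mul_left_cancel₀ hk6 this
    refine ⟨e1, ?_⟩
    rw [show 2 * ((k : ℝ) + 1) + 5 / 2 + 1 = 2 * ((k : ℝ) + 1 + 1) + 3/2 by ring,
      show 2 * ((k : ℝ) + 1) + 5 / 2 - 1 = 2 * ((k : ℝ) + 1) + 3/2 by ring,
      show 2 * ((k : ℝ) + 1) + 5 / 2 = 2 * ((k : ℝ) + 1 + 1) + 1/2 by ring, e1, ih2] at hr2
    have : (2 * (k : ℝ) + 7) * ll al (2 * ((k : ℝ) + 1 + 1) + 3/2) =
        (2 * (k : ℝ) + 7) * (C * (Real.cos al * H03_O (k + 1 + 1) (k + 1) S)) := by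
      linear_combination hr2 / 2 - C * Real.cos al * hR1
    exact mul_left_cancel₀ hk7 this

/-- closed form (proof by three term recurrences) -/
theorem ll_closed {al : ℝ} (h0 : 0 < al) (h1 : al < Real.pi / 2) (k : ℕ) :
    ll al (2 * ((k + 1 : ℕ) : ℝ) + 1/2) =
      3 / (2 * Real.sqrt 2) * (Real.pi / 8) * (Real.sin al) ^ 4 * hk k ((Real.sin al) ^ 2) := by
  rw [H03_hk k (k + 1) le_rfl]
  exact (H03_main h0 h1 k).1

end FB
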