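import Pool.Agent.H48.FB.HDefs

/-! H04: arithmetic of `hq k = hk k (6/7)`. -/

open Set

namespace FB

theorem hk_eq_hq (k : ℕ) : hk k (6/7) = (hq k : ℝ) := by
  unfold hk hq
  push_cast
  refine Finset.sum_congr rfl fun j _ => ?_
  have : (-(6/7:ℝ) / 2) = (-(3:ℝ)/7) := by norm_num
  rw [this]

theorem hq_one : hq 1 = 0 := by
  simp [hq, Finset.sum_range_succ, Nat.factorial]
  norm_num

/-- 3-adically small rational numbers -/
def Sm (x : ℚ) : Prop := ∃ a b : ℤ, ¬ (3 ∣ b) ∧ x = 3 * a / b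

theorem Sm.ne {b : ℤ} (h : ¬ (3 ∣ b)) : (b : ℚ) ≠ 0 := by
  intro hb
  apply h
  have : b = 0 := by exact_mod_cast hb
  rw [this]; exact dvd_zero _

theorem Sm.zero : Sm 0 := ⟨0, 1, by norm_num, by norm_num⟩

theorem Sm.add {x y : ℚ} (hx : Sm x) (hy : Sm y) : Sm (x + y) := by
  obtain ⟨a, b, hb, rfl⟩ := hx
  obtain ⟨c, d, hd, rfl⟩ := hy
  refine ⟨a * d + c * b, b * d, ?_, ?_⟩
  · intro h
    rcases (Int.prime_three.dvd_mul).1 h with h | h
    · exact hb h
    · exact hd h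
  · have h1 := Sm.ne hb
    have h2 := Sm.ne hd
    push_cast
    field_simp

theorem Sm.sum {s : Finset ℕ} {f : ℕ → ℚ} (h : ∀ i ∈ s, Sm (f i)) : Sm (∑ i ∈ s, f i) :=
  Finset.sum_induction f Sm (fun _ _ => Sm.add) Sm.zero h

theorem fact_split (n : ℕ) (hn : 1 ≤ n) : ∃ (al : ℕ) (u : ℤ), ¬ (3 ∣ u) ∧
    (n.factorial : ℤ) = 3 ^ al * u ∧ 2 * al + 1 ≤ n := by
  have h := sub_one_mul_padicValNat_factorial_lt_of_ne_zero 3 (n := n) (by omega)
  obtain ⟨e, m, hm, he⟩ := Nat.exists_eq_pow_mul_and_not_dvd (n := n.factorial)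
    (Nat.factorial_ne_zero n) 3 (by norm_num)
  have hv : padicValNat 3 n.factorial = e := by
    rw [he, padicValNat.mul (by positivity) (by rintro rfl; simp at hm),
      padicValNat.prime_pow, padicValNat.eq_zero_of_not_dvd hm]
    rfl
  refine ⟨e, m, by exact_mod_cast hm, by exact_mod_cast he, ?_⟩
  rw [hv] at h
  omega

theorem term_small (k j : ℕ) (hj : 2 ≤ j) :
    Sm ((-(3:ℚ)/7)^j * ((k : ℚ) * (2 * k + 5)) *
      (∏ i ∈ Finset.Ico 2 j, ((k : ℚ) * (2 * k + 5) - (i : ℚ) * (2 * i + 5)))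
        / ((j.factorial : ℚ) * ((j + 2).factorial : ℚ))) := by
  obtain ⟨al, u, hu, hju, hal⟩ := fact_split j (by omega)
  obtain ⟨be, v, hv, hjv, hbe⟩ := fact_split (j + 2) (by omega)
  set L : ℤ := (k : ℤ) * (2 * k + 5) with hL
  set R : ℤ := ∏ i ∈ Finset.Ico 2 j, (L - (i : ℤ) * (2 * i + 5)) with hR
  have hcast : ((k : ℚ) * (2 * k + 5)) *
      (∏ i ∈ Finset.Ico 2 j, ((k : ℚ) * (2 * k + 5) - (i : ℚ) * (2 * i + 5))) = ((L * R : ℤ) : ℚ) := by
    rw [hR, hL]; push_cast; rfl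
  have huv : ¬ (3 : ℤ) ∣ 7 ^ j * (u * v) := by
    intro h
    rcases (Int.prime_three.dvd_mul).1 h with h | h
    · have := Int.prime_three.dvd_of_dvd_pow h
      revert this; decide
    · rcases (Int.prime_three.dvd_mul).1 h with h | h
      · exact hu h
      · exact hv h
  have hu0 := Sm.ne hu
  have hv0 := Sm.ne hv
  -- the dichotomy
  have hd : al + be < j ∨ (3 : ℤ) ∣ L * R := by
    by_cases h3 : j = 3
    · subst h3
      left
      have h1 : be < 2 := by
        by_contra hb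
        have : (9 : ℤ) ∣ ((3 + 2).factorial : ℤ) := by
          rw [hjv]
          exact Dvd.dvd.mul_right (by
            have : (9 : ℤ) = 3 ^ 2 := by norm_num
            rw [this]; exact pow_dvd_pow _ (by omega)) _
        revert this; decide
      omega
    · by_cases h5 : j < 5
      · left; omega
      · right
        have hmod : (3 : ℤ) ∣ L ∨ (3 : ℤ) ∣ (L - 52) := by
          have hk3 : (k : ℤ) % 3 = 0 ∨ (k : ℤ) % 3 = 1 ∨ (k : ℤ) % 3 = 2 := by omega
          rcases hk3 with h | h | h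
          · left
            exact Dvd.dvd.mul_right (Int.dvd_of_emod_eq_zero h) _
          · right
            have : ((k : ℤ) * (2 * k + 5) - 52) % 3 = 0 := by
              rw [Int.sub_emod, Int.mul_emod, Int.add_emod, Int.mul_emod 2 (k:ℤ), h]; norm_num
            exact Int.dvd_of_emod_eq_zero this
          · left
            have : ((k : ℤ) * (2 * k + 5)) % 3 = 0 := by
              rw [Int.mul_emod, Int.add_emod, Int.mul_emod 2 (k:ℤ), h]; norm_num
            exact Int.dvd_of_emod_eq_zero this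
        rcases hmod with h | h
        · exact Dvd.dvd.mul_right h _
        · refine Dvd.dvd.mul_left ?_ _
          have h4 : (4 : ℕ) ∈ Finset.Ico 2 j := by rw [Finset.mem_Ico]; omega
          refine dvd_trans ?_ (Finset.dvd_prod_of_mem (fun i : ℕ => (L - (i : ℤ) * (2 * i + 5))) h4)
          simpa using h
  have hle : al + be ≤ j := by omega
  have h3j : ((3 : ℚ)) ^ j = 3 ^ al * 3 ^ be * 3 ^ (j - (al + be)) := by
    rw [← pow_add, ← pow_add]; congr 1; omega
  have hfj : ((j.factorial : ℕ) : ℚ) = 3 ^ al * u := by exact_mod_cast hju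
  have hfj2 : (((j + 2).factorial : ℕ) : ℚ) = 3 ^ be * v := by exact_mod_cast hjv
  have hmain : (-(3:ℚ)/7)^j * ((k : ℚ) * (2 * k + 5)) *
      (∏ i ∈ Finset.Ico 2 j, ((k : ℚ) * (2 * k + 5) - (i : ℚ) * (2 * i + 5)))
        / ((j.factorial : ℚ) * ((j + 2).factorial : ℚ))
      = (-1) ^ j * 3 ^ (j - (al + be)) * ((L * R : ℤ) : ℚ) / (7 ^ j * (u * v)) := by
    rw [mul_assoc, hcast, hfj, hfj2, div_pow, neg_pow, h3j]
    field_simp
  rw [hmain]
  rcases hd with hd | ⟨c, hc⟩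
  · refine ⟨(-1) ^ j * 3 ^ (j - (al + be) - 1) * (L * R), 7 ^ j * (u * v), huv, ?_⟩
    have : (3 : ℚ) ^ (j - (al + be)) = 3 * 3 ^ (j - (al + be) - 1) := by
      rw [← pow_succ']; congr 1; omega
    rw [this]
    push_cast
    ring
  · refine ⟨(-1) ^ j * 3 ^ (j - (al + be)) * c, 7 ^ j * (u * v), huv, ?_⟩
    rw [hc]
    push_cast
    ring

/-- the terms of `hq` -/
theorem hq_factor (k : ℕ) (hk2 : 2 ≤ k) : hq k = (7 - (k : ℚ) * (2 * k + 5)) / 7 *
    (1 - 14 * ∑ j ∈ Finset.Ico 2 (k + 1), ((-(3:ℚ)/7)^j * ((k : ℚ) * (2 * k + 5)) *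
      (∏ i ∈ Finset.Ico 2 j, ((k : ℚ) * (2 * k + 5) - (i : ℚ) * (2 * i + 5)))
        / ((j.factorial : ℚ) * ((j + 2).factorial : ℚ)))) := by
  unfold hq
  rw [← Finset.sum_range_add_sum_Ico _ (show 2 ≤ k + 1 by omega)]
  have h1 : ∑ j ∈ Finset.range 2, (-(3 : ℚ) / 7) ^ j * 2 *
    (∏ i ∈ Finset.range j, ((k : ℚ) * (2 * k + 5) - (i : ℚ) * (2 * i + 5)))
      / ((j.factorial : ℚ) * ((j + 2).factorial : ℚ)) = (7 - (k : ℚ) * (2 * k + 5)) / 7 := by
    simp [Finset.sum_range_succ, Nat.factorial]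
    ring
  rw [h1, mul_sub, mul_one, mul_left_comm, Finset.mul_sum, Finset.mul_sum,
    sub_eq_add_neg ((7 - (k : ℚ) * (2 * k + 5)) / 7) (∑ _ ∈ _, _), ← Finset.sum_neg_distrib]
  congr 1
  refine Finset.sum_congr rfl fun j hj => ?_
  rw [Finset.mem_Ico] at hj
  have : ∏ i ∈ Finset.range j, ((k : ℚ) * (2 * k + 5) - (i : ℚ) * (2 * i + 5))
      = ((k : ℚ) * (2 * k + 5)) * ((k : ℚ) * (2 * k + 5) - 7) *
        ∏ i ∈ Finset.Ico 2 j, ((k : ℚ) * (2 * k + 5) - (i : ℚ) * (2 * i + 5)) := by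
    rw [← Finset.prod_range_mul_prod_Ico _ hj.1]
    congr 1
    simp [Finset.prod_range_succ]
    left; norm_num
  rw [this]
  ring

theorem hq_ne_zero (k : ℕ) (hk1 : k ≠ 1) : hq k ≠ 0 := by
  by_cases h0 : k = 0
  · subst h0
    simp [hq]
  · have hk2 : 2 ≤ k := by omega
    rw [hq_factor k hk2]
    refine mul_ne_zero ?_ ?_
    · have : (7 - (k : ℚ) * (2 * k + 5)) = -(((k : ℚ) - 1) * (2 * k + 7)) := by ring
      rw [this]
      have h1 : (2 : ℚ) ≤ k := by exact_mod_cast hk2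
      have h2 : (k : ℚ) - 1 ≠ 0 := by linarith
      have h3 : (2 * (k : ℚ) + 7) ≠ 0 := by linarith
      exact div_ne_zero (neg_ne_zero.2 (mul_ne_zero h2 h3)) (by norm_num)
    · obtain ⟨a, b, hb, he⟩ := Sm.sum (s := Finset.Ico 2 (k + 1)) (f := fun j : ℕ =>
        ((-(3:ℚ)/7)^j * ((k : ℚ) * (2 * k + 5)) *
      (∏ i ∈ Finset.Ico 2 j, ((k : ℚ) * (2 * k + 5) - (i : ℚ) * (2 * i + 5)))
        / ((j.factorial : ℚ) * ((j + 2).factorial : ℚ))))
        (fun j hj => term_small k j (Finset.mem_Ico.1 hj).1)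
      have hb0 := Sm.ne hb
      rw [he]
      intro h
      have h2 : (b : ℚ) = 42 * a := by
        field_simp at h
        linarith
      have h3 : b = 42 * a := by exact_mod_cast h2
      apply hb
      rw [h3]
      exact Dvd.dvd.mul_right (by norm_num) _

theorem prod_closed (k j : ℕ) (hj : j ≤ k) :
    (∏ i ∈ Finset.range j, ((k : ℚ) * (2 * k + 5) - (i : ℚ) * (2 * i + 5))) *
      (((k - j).factorial : ℚ) * ((2 * k + 4).factorial : ℚ) * ((k + j + 2).factorial : ℚ) * 2 ^ j)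
      = (k.factorial : ℚ) * ((k + 2).factorial : ℚ) * ((2 * k + 2 * j + 4).factorial : ℚ) := by
  induction j with
  | zero => simp; ring
  | succ j ih =>
    have ih := ih (by omega)
    rw [Finset.prod_range_succ]
    have e1 : (k - j).factorial = (k - j) * (k - (j + 1)).factorial := by
      have : k - j = (k - (j + 1)) + 1 := by omega
      conv_lhs => rw [this, Nat.factorial_succ]
      rw [← this]
    have e2 : (k + (j + 1) + 2).factorial = (k + j + 3) * (k + j + 2).factorial := by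
      rw [show k + (j + 1) + 2 = (k + j + 2) + 1 by ring, Nat.factorial_succ]
    have e3 : (2 * k + 2 * (j + 1) + 4).factorial
        = (2 * k + 2 * j + 6) * ((2 * k + 2 * j + 5) * (2 * k + 2 * j + 4).factorial) := by
      rw [show 2 * k + 2 * (j + 1) + 4 = (2 * k + 2 * j + 5) + 1 by ring, Nat.factorial_succ,
        show 2 * k + 2 * j + 5 = (2 * k + 2 * j + 4) + 1 by ring, Nat.factorial_succ]
    have e1' : ((k - j).factorial : ℚ) = ((k : ℚ) - j) * ((k - (j + 1)).factorial : ℚ) := by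
      rw [e1]; push_cast
      rw [Nat.cast_sub (by omega : j ≤ k)]
    rw [e1'] at ih
    rw [e2, e3]
    push_cast
    have : (k : ℚ) * (2 * k + 5) - (j : ℚ) * (2 * j + 5) = ((k : ℚ) - j) * (2 * k + 2 * j + 5) := by
      ring
    rw [this]
    linear_combination (2 * (k + j + 3) * (2 * (k:ℚ) + 2 * j + 5)) * ih

theorem term_integral (k j : ℕ) (hj : j ≤ k) :
    ((-(3 : ℚ) / 7) ^ j * 2 *
    (∏ i ∈ Finset.range j, ((k : ℚ) * (2 * k + 5) - (i : ℚ) * (2 * i + 5)))
      / ((j.factorial : ℚ) * ((j + 2).factorial : ℚ)))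
      * 28 ^ k * (Nat.choose (2 * k + 4) (k + 2) : ℚ) * ((k : ℚ) + 1) * ((k : ℚ) + 2)
    = (-6) ^ j * 2 * 28 ^ (k - j) * (Nat.choose k j : ℚ)
      * (Nat.choose (2 * k + 2 * j + 4) (k + j + 2) : ℚ) * (Nat.choose (k + j + 2) k : ℚ) := by
  have hP := prod_closed k j hj
  have c1 : (Nat.choose (2 * k + 4) (k + 2) : ℚ) * ((k + 2).factorial * (k + 2).factorial)
      = (2 * k + 4).factorial := by
    have := Nat.choose_mul_factorial_mul_factorial (n := 2 * k + 4) (k := k + 2) (by omega)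
    rw [show 2 * k + 4 - (k + 2) = k + 2 by omega] at this
    rw [← mul_assoc]; exact_mod_cast this
  have c2 : (Nat.choose k j : ℚ) * (j.factorial * (k - j).factorial) = k.factorial := by
    have := Nat.choose_mul_factorial_mul_factorial hj
    rw [← mul_assoc]; exact_mod_cast this
  have c3 : (Nat.choose (2 * k + 2 * j + 4) (k + j + 2) : ℚ)
      * ((k + j + 2).factorial * (k + j + 2).factorial) = (2 * k + 2 * j + 4).factorial := by
    have := Nat.choose_mul_factorial_mul_factorial (n := 2 * k + 2 * j + 4) (k := k + j + 2)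
      (by omega)
    rw [show 2 * k + 2 * j + 4 - (k + j + 2) = k + j + 2 by omega] at this
    rw [← mul_assoc]; exact_mod_cast this
  have c4 : (Nat.choose (k + j + 2) k : ℚ) * (k.factorial * (j + 2).factorial)
      = (k + j + 2).factorial := by
    have := Nat.choose_mul_factorial_mul_factorial (n := k + j + 2) (k := k) (by omega)
    rw [show k + j + 2 - k = j + 2 by omega] at this
    rw [← mul_assoc]; exact_mod_cast this
  have c5 : ((k + 2).factorial : ℚ) = (k + 2) * ((k + 1) * k.factorial) := by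
    rw [Nat.factorial_succ, Nat.factorial_succ]; push_cast; ring
  have f1 : (k.factorial : ℚ) ≠ 0 := by exact_mod_cast Nat.factorial_ne_zero k
  have f2 : (j.factorial : ℚ) ≠ 0 := by exact_mod_cast Nat.factorial_ne_zero j
  have f3 : ((k - j).factorial : ℚ) ≠ 0 := by exact_mod_cast Nat.factorial_ne_zero _
  have f4 : ((j + 2).factorial : ℚ) ≠ 0 := by exact_mod_cast Nat.factorial_ne_zero _
  have f5 : ((2 * k + 4).factorial : ℚ) ≠ 0 := by exact_mod_cast Nat.factorial_ne_zero _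
  have f6 : ((k + j + 2).factorial : ℚ) ≠ 0 := by exact_mod_cast Nat.factorial_ne_zero _
  have f7 : ((k + 2).factorial : ℚ) ≠ 0 := by exact_mod_cast Nat.factorial_ne_zero _
  have f8 : ((2 * k + 2 * j + 4).factorial : ℚ) ≠ 0 := by exact_mod_cast Nat.factorial_ne_zero _
  have hk1 : ((k : ℚ) + 1) ≠ 0 := by positivity
  have hk2 : ((k : ℚ) + 2) ≠ 0 := by positivity
  have d1 : (Nat.choose (2 * k + 4) (k + 2) : ℚ)
      = (2 * k + 4).factorial / ((k + 2).factorial * (k + 2).factorial) := by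
    rw [eq_div_iff (by positivity)]; exact c1
  have d2 : (Nat.choose k j : ℚ) = k.factorial / (j.factorial * (k - j).factorial) := by
    rw [eq_div_iff (by positivity)]; exact c2
  have d3 : (Nat.choose (2 * k + 2 * j + 4) (k + j + 2) : ℚ)
      = (2 * k + 2 * j + 4).factorial / ((k + j + 2).factorial * (k + j + 2).factorial) := by
    rw [eq_div_iff (by positivity)]; exact c3
  have d4 : (Nat.choose (k + j + 2) k : ℚ)
      = (k + j + 2).factorial / (k.factorial * (j + 2).factorial) := by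
    rw [eq_div_iff (by positivity)]; exact c4
  have dP : (∏ i ∈ Finset.range j, ((k : ℚ) * (2 * k + 5) - (i : ℚ) * (2 * i + 5)))
      = (k.factorial : ℚ) * ((k + 2).factorial : ℚ) * ((2 * k + 2 * j + 4).factorial : ℚ)
        / (((k - j).factorial : ℚ) * ((2 * k + 4).factorial : ℚ) * ((k + j + 2).factorial : ℚ) * 2 ^ j) := by
    rw [eq_div_iff (by positivity)]; exact hP
  have p28 : (28 : ℚ) ^ k = 28 ^ (k - j) * 28 ^ j := by rw [← pow_add]; congr 1; omega
  have pp : (-(3 : ℚ) / 7) ^ j * 28 ^ j = (-6) ^ j * 2 ^ j := by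
    rw [← mul_pow, ← mul_pow]; norm_num
  rw [dP, d1, d2, d3, d4, p28]
  calc _ = ((-(3 : ℚ) / 7) ^ j * 28 ^ j) * (2 * 28 ^ (k - j) *
        ((k.factorial : ℚ) * ((k + 2).factorial : ℚ) * ((2 * k + 2 * j + 4).factorial : ℚ)
        / (((k - j).factorial : ℚ) * ((2 * k + 4).factorial : ℚ) * ((k + j + 2).factorial : ℚ) * 2 ^ j))
        / ((j.factorial : ℚ) * ((j + 2).factorial : ℚ)) *
        ((2 * k + 4).factorial / ((k + 2).factorial * (k + 2).factorial)) * ((k : ℚ) + 1) * ((k : ℚ) + 2)) := by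
        ring
    _ = _ := by
        rw [pp, c5]
        field_simp

theorem hq_integral (k : ℕ) : ∃ z : ℤ,
    hq k * 28 ^ k * (Nat.choose (2 * k + 4) (k + 2) : ℚ) * ((k : ℚ) + 1) * ((k : ℚ) + 2) = z := by
  refine ⟨∑ j ∈ Finset.range (k + 1), (-6) ^ j * 2 * 28 ^ (k - j) * (Nat.choose k j : ℤ)
      * (Nat.choose (2 * k + 2 * j + 4) (k + j + 2) : ℤ) * (Nat.choose (k + j + 2) k : ℤ), ?_⟩
  unfold hq
  rw [Finset.sum_mul, Finset.sum_mul, Finset.sum_mul, Finset.sum_mul]
  push_cast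
  refine Finset.sum_congr rfl fun j hj => ?_
  rw [Finset.mem_range] at hj
  exact term_integral k j (by omega)

/-- consequence: exponential lower bound, e.g. using `C(2k+4,k+2) ≤ 4^(k+2)`, `(k+1)(k+2) ≤ 4^(k+1)`. -/
theorem hq_lower (k : ℕ) (hk1 : k ≠ 1) : (1:ℚ) / (64 * 448 ^ k) ≤ |hq k| := by
  obtain ⟨z, hz⟩ := hq_integral k
  have hne := hq_ne_zero k hk1
  have hC0 : (0 : ℚ) < (Nat.choose (2 * k + 4) (k + 2) : ℚ) := by
    exact_mod_cast Nat.choose_pos (by omega)
  have hpos : (0 : ℚ) < 28 ^ k * (Nat.choose (2 * k + 4) (k + 2) : ℚ) * ((k : ℚ) + 1) * ((k : ℚ) + 2) := by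
    positivity
  have hz0 : z ≠ 0 := by
    rintro rfl
    have : hq k * (28 ^ k * (Nat.choose (2 * k + 4) (k + 2) : ℚ) * ((k : ℚ) + 1) * ((k : ℚ) + 2)) = 0 := by
      rw [← mul_assoc, ← mul_assoc, ← mul_assoc]; simpa using hz
    rcases mul_eq_zero.1 this with h | h
    · exact hne h
    · exact hpos.ne' h
  have hz1 : (1 : ℚ) ≤ |(z : ℚ)| := by
    have : (1 : ℤ) ≤ |z| := Int.one_le_abs hz0
    exact_mod_cast this
  have hle : 28 ^ k * (Nat.choose (2 * k + 4) (k + 2) : ℚ) * ((k : ℚ) + 1) * ((k : ℚ) + 2)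
      ≤ 64 * 448 ^ k := by
    have h1 : (Nat.choose (2 * k + 4) (k + 2) : ℚ) ≤ 16 * 4 ^ k := by
      have h := Nat.choose_le_two_pow (2 * k + 4) (k + 2)
      have h' : (Nat.choose (2 * k + 4) (k + 2) : ℚ) ≤ 2 ^ (2 * k + 4) := by exact_mod_cast h
      have : (2 : ℚ) ^ (2 * k + 4) = 16 * 4 ^ k := by
        rw [pow_add, pow_mul]; norm_num; ring
      linarith
    have h2 : ((k : ℚ) + 1) * ((k : ℚ) + 2) ≤ 4 * 4 ^ k := by
      have : (k + 1) * (k + 2) ≤ 4 * 4 ^ k := by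
        clear * -
        induction k with
        | zero => norm_num
        | succ k ih => rw [pow_succ]; nlinarith
      exact_mod_cast this
    have e : (64 : ℚ) * 448 ^ k = 28 ^ k * (16 * 4 ^ k) * (4 * 4 ^ k) := by
      have : (448 : ℚ) = 28 * 4 * 4 := by norm_num
      rw [this, mul_pow, mul_pow]; ring
    rw [e, mul_assoc (28 ^ k * _)]
    refine mul_le_mul (mul_le_mul_of_nonneg_left h1 (by positivity)) h2 (by positivity) (by positivity)
  have habs : |hq k| * (28 ^ k * (Nat.choose (2 * k + 4) (k + 2) : ℚ) * ((k : ℚ) + 1) * ((k : ℚ) + 2))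
      = |(z : ℚ)| := by
    rw [← hz, mul_assoc (hq k), mul_assoc (hq k), mul_assoc (hq k), abs_mul, abs_of_pos hpos]
  rw [div_le_iff₀ (by positivity)]
  have h2 : |hq k| * (28 ^ k * (Nat.choose (2 * k + 4) (k + 2) : ℚ) * ((k : ℚ) + 1) * ((k : ℚ) + 2))
      ≤ |hq k| * (64 * 448 ^ k) := mul_le_mul_of_nonneg_left hle (abs_nonneg _)
  linarith

end FB
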