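import Pool.Agent.H48.FB.IDefs

/-! I01: elementary facts on the distance to the nearest integer; record denominators. -/

open Set

namespace FB

theorem nn_nonneg (y : ℝ) : 0 ≤ nn y := abs_nonneg _
theorem nn_le_half (y : ℝ) : nn y ≤ 1/2 := abs_sub_round y
theorem nn_le_abs_sub_int (y : ℝ) (k : ℤ) : nn y ≤ |y - k| := round_le y k
theorem nn_add_le (x y : ℝ) : nn (x + y) ≤ nn x + |y| := by
  have h := nn_le_abs_sub_int (x + y) (round x)
  have h2 : x + y - (round x : ℝ) = (x - round x) + y := by ring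
  rw [h2] at h
  exact h.trans (abs_add_le _ _)
theorem nn_neg (y : ℝ) : nn (-y) = nn y := by
  have key : ∀ z : ℝ, nn (-z) ≤ nn z := by
    intro z
    have h := nn_le_abs_sub_int (-z) (-(round z))
    have h2 : -z - ((-(round z) : ℤ) : ℝ) = -(z - (round z : ℝ)) := by push_cast; ring
    rw [h2, abs_neg] at h
    exact h
  refine le_antisymm (key y) ?_
  have := key (-y)
  rwa [neg_neg] at this

private theorem sin_abs_nn (y : ℝ) : |Real.sin (Real.pi * y)| = Real.sin (Real.pi * nn y) := by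
  have h1 : Real.pi * y = Real.pi * (y - round y) + (round y : ℤ) * Real.pi := by ring
  have h2 : |Real.sin (Real.pi * y)| = |Real.sin (Real.pi * (y - round y))| := by
    rw [h1, Real.sin_add_int_mul_pi, abs_mul, abs_zpow, abs_neg, abs_one, one_zpow, one_mul]
  rw [h2]
  have hh := nn_le_half y
  have hn := nn_nonneg y
  have hpi := Real.pi_pos
  have h4 : 0 ≤ Real.sin (Real.pi * nn y) :=
    Real.sin_nonneg_of_nonneg_of_le_pi (by positivity) (by nlinarith)
  unfold nn at *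
  rcases le_total 0 (y - round y) with h | h
  · rw [abs_of_nonneg h] at *
    exact abs_of_nonneg h4
  · rw [abs_of_nonpos h] at *
    have h5 : Real.sin (Real.pi * (y - round y)) = - Real.sin (Real.pi * -(y - round y)) := by
      rw [← Real.sin_neg]; congr 1; ring
    rw [h5, abs_neg]
    exact abs_of_nonneg h4

/-- `2 nn y ≤ |sin (pi y)| ≤ pi nn y` -/
theorem two_nn_le_sin (y : ℝ) : 2 * nn y ≤ |Real.sin (Real.pi * y)| := by
  rw [sin_abs_nn]
  have hpi := Real.pi_pos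
  have h := Real.mul_le_sin (x := Real.pi * nn y) (mul_nonneg hpi.le (nn_nonneg y)) (by nlinarith [nn_le_half y])
  calc 2 * nn y = 2 / Real.pi * (Real.pi * nn y) := by field_simp
    _ ≤ _ := h
theorem sin_le_pi_nn (y : ℝ) : |Real.sin (Real.pi * y)| ≤ Real.pi * nn y := by
  rw [sin_abs_nn]
  exact Real.sin_le (mul_nonneg Real.pi_pos.le (nn_nonneg y))

/-- Record denominators. Let `mQ = min_{1 ≤ k ≤ Q} nn (k xi) > 0`. By Dirichlet there is `q ≥ 1` with
`nn (q xi) < mQ`; take the least one. Then `q > Q`, `min_{1 ≤ k < q} nn (k xi) = mQ = nn (k0 xi)` for some `k0 ≤ Q`.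
If `nn (k0 xi) < 1/(2q)` let `p = round (q xi)`, `p0 = round (k0 xi)`:
`|q p0 - k0 p| ≤ q nn (k0 xi) + k0 nn (q xi) < 1/2 + 1/2`, so `q p0 = k0 p`, so `q xi - p = (q/k0) (k0 xi - p0)`,
`nn (q xi) = (q/k0) nn (k0 xi) > nn (k0 xi)`, contradiction. -/
theorem exists_record {xi : ℝ} (hxi : ∀ k : ℕ, 1 ≤ k → nn (k * xi) ≠ 0) (Q : ℕ) :
    ∃ q : ℕ, Q ≤ q ∧ 2 ≤ q ∧ ∀ k : ℕ, 1 ≤ k → k < q → 1 / (2 * (q:ℝ)) ≤ nn (k * xi) := by
  classical
  -- minimum over 1..Q+1
  obtain ⟨k0, hk0mem, hk0min⟩ := Finset.exists_min_image (Finset.Icc 1 (Q + 1)) (fun k : ℕ => nn (k * xi))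
    ⟨1, by simp⟩
  have hk0 := Finset.mem_Icc.mp hk0mem
  have hpos : 0 < nn (k0 * xi) := lt_of_le_of_ne (nn_nonneg _) (Ne.symm (hxi k0 hk0.1))
  -- Dirichlet
  have hex : ∃ q : ℕ, 1 ≤ q ∧ nn (q * xi) < nn (k0 * xi) := by
    obtain ⟨n, hn⟩ := exists_nat_gt (1 / nn (k0 * xi))
    have hn0 : 0 < n := by
      rcases Nat.eq_zero_or_pos n with h | h
      · subst h
        have : (0:ℝ) < 1 / nn (k0 * xi) := by positivity
        simp at hn; linarith
      · exact h
    obtain ⟨k, hk1, hk2, hk3⟩ := Real.exists_nat_abs_mul_sub_round_le xi hn0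
    refine ⟨k, hk1, ?_⟩
    have h1 : nn (k * xi) ≤ 1 / (n + 1) := by
      unfold nn; exact hk3
    have hn' : (0:ℝ) < n := by exact_mod_cast hn0
    have h2 : 1 / ((n:ℝ) + 1) < nn (k0 * xi) := by
      rw [div_lt_iff₀ (by positivity)]
      rw [div_lt_iff₀ hpos] at hn
      nlinarith
    linarith
  set q := Nat.find hex with hq
  obtain ⟨hq1, hq2⟩ := Nat.find_spec hex
  rw [← hq] at hq1 hq2
  have hmin : ∀ k : ℕ, 1 ≤ k → k < q → nn (k0 * xi) ≤ nn (k * xi) := by
    intro k hk hkq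
    have := Nat.find_min hex hkq
    push Not at this
    exact this hk
  have hqQ : Q + 1 < q := by
    by_contra hcon
    push Not at hcon
    have := hk0min q (Finset.mem_Icc.mpr ⟨hq1, hcon⟩)
    linarith
  refine ⟨q, by omega, by omega, ?_⟩
  intro k hk hkq
  refine le_trans ?_ (hmin k hk hkq)
  by_contra hcon
  push Not at hcon
  have hqpos : (0:ℝ) < q := by exact_mod_cast (by omega : 0 < q)
  have hk0pos : (0:ℝ) < k0 := by exact_mod_cast hk0.1
  have hk0q : (k0:ℝ) < q := by exact_mod_cast (by omega : k0 < q)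
  set p := round ((q:ℝ) * xi) with hp
  set p0 := round ((k0:ℝ) * xi) with hp0
  have e1 : nn (q * xi) = |(q:ℝ) * xi - p| := rfl
  have e0 : nn (k0 * xi) = |(k0:ℝ) * xi - p0| := rfl
  have key : |((q:ℝ) * p0 - k0 * p)| < 1 := by
    have h1 : (q:ℝ) * p0 - k0 * p = k0 * ((q:ℝ) * xi - p) - q * ((k0:ℝ) * xi - p0) := by ring
    rw [h1]
    have h2 : |k0 * ((q:ℝ) * xi - p) - q * ((k0:ℝ) * xi - p0)| ≤ k0 * nn (q * xi) + q * nn (k0 * xi) := by
      refine (abs_sub _ _).trans ?_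
      rw [abs_mul, abs_mul, abs_of_pos hk0pos, abs_of_pos hqpos, e1, e0]
    have h3 : q * nn (k0 * xi) < 1/2 := by
      rw [lt_div_iff₀ (by positivity)] at hcon
      nlinarith
    have h4 : k0 * nn (q * xi) ≤ q * nn (k0 * xi) := by
      have := nn_nonneg ((q:ℝ) * xi)
      nlinarith
    linarith
  have hint : (q:ℤ) * p0 - k0 * p = 0 := by
    have : |(((q:ℤ) * p0 - k0 * p : ℤ) : ℝ)| < 1 := by push_cast; exact key
    rw [← Int.cast_abs] at this
    have h5 : |(q:ℤ) * p0 - k0 * p| < 1 := by exact_mod_cast this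
    exact Int.abs_lt_one_iff.mp h5
  have hreal : (q:ℝ) * p0 = k0 * p := by
    have : (((q:ℤ) * p0 - k0 * p : ℤ) : ℝ) = 0 := by rw [hint]; simp
    push_cast at this
    linarith
  have h6 : (k0:ℝ) * ((q:ℝ) * xi - p) = q * ((k0:ℝ) * xi - p0) := by
    rw [mul_sub, mul_sub, ← hreal]; ring
  have h7 : (k0:ℝ) * nn (q * xi) = q * nn (k0 * xi) := by
    rw [e1, e0]
    have := congrArg abs h6
    rwa [abs_mul, abs_mul, abs_of_pos hk0pos, abs_of_pos hqpos] at this
  nlinarith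

end FB
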