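import Pool.Agent.H48.FB.IDefs

/-! I02: free piece lemma. -/

open Set

namespace FB

open Classical in
/-- A closed interval of length `len` meets at most `len / h + 2` of the closed pieces `[a + j h, a + (j+1) h]`. -/
theorem card_pieces_le {a h : ℝ} (hh : 0 < h) (S : ℕ) (lo len : ℝ) (hlen : 0 ≤ len) :
    (((Finset.range S).filter (fun j : ℕ =>
      (Icc (a + j * h) (a + (j + 1) * h) ∩ Icc lo (lo + len)).Nonempty)).card : ℝ) ≤ len / h + 2 := by
  set T := (Finset.range S).filter (fun j : ℕ =>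
      (Icc (a + j * h) (a + (j + 1) * h) ∩ Icc lo (lo + len)).Nonempty) with hT
  set X : ℝ := (lo - a) / h with hX
  have hXh : X * h = lo - a := div_mul_cancel₀ _ hh.ne'
  have hlh : len / h * h = len := div_mul_cancel₀ _ hh.ne'
  have hl0 : 0 ≤ len / h := div_nonneg hlen hh.le
  have hsub : T.image (fun j : ℕ => (j : ℤ)) ⊆ Finset.Icc ⌈X - 1⌉ ⌊X + len / h⌋ := by
    intro z hz
    obtain ⟨j, hj, rfl⟩ := Finset.mem_image.1 hz
    obtain ⟨-, y, ⟨h1, h2⟩, h3, h4⟩ := Finset.mem_filter.1 hj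
    rw [Finset.mem_Icc, Int.ceil_le, Int.le_floor, Int.cast_natCast]
    constructor
    · refine le_of_mul_le_mul_right ?_ hh
      nlinarith
    · refine le_of_mul_le_mul_right ?_ hh
      nlinarith
  have hcard : (T.card : ℤ) ≤ (⌊X + len / h⌋ + 1 - ⌈X - 1⌉).toNat := by
    have h1 := Finset.card_le_card hsub
    rw [Finset.card_image_of_injective _ Nat.cast_injective, Int.card_Icc] at h1
    exact_mod_cast h1
  rcases le_total 0 (⌊X + len / h⌋ + 1 - ⌈X - 1⌉) with h0 | h0
  · rw [Int.toNat_of_nonneg h0] at hcard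
    have h1 : (T.card : ℝ) ≤ (⌊X + len / h⌋ : ℝ) + 1 - (⌈X - 1⌉ : ℝ) := by exact_mod_cast hcard
    have h2 := Int.floor_le (X + len / h)
    have h3 := Int.le_ceil (X - 1)
    linarith
  · rw [Int.toNat_of_nonpos h0] at hcard
    have h1 : (T.card : ℝ) ≤ 0 := by exact_mod_cast hcard
    linarith

/-- If the total number of killed pieces is `< S`, some piece is free. -/
theorem exists_free_piece {a h : ℝ} (hh : 0 < h) (S : ℕ) {ι : Type} (s : Finset ι) (lo len : ι → ℝ)
    (hlen : ∀ i ∈ s, 0 ≤ len i) (hs : ∑ i ∈ s, (len i / h + 2) < S) :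
    ∃ j : ℕ, j < S ∧ ∀ i ∈ s, ¬ (Icc (a + j * h) (a + (j + 1) * h) ∩ Icc (lo i) (lo i + len i)).Nonempty := by
  classical
  by_contra hcon
  push Not at hcon
  have h1 : Finset.range S ⊆ s.biUnion fun i => (Finset.range S).filter (fun j : ℕ =>
      (Icc (a + j * h) (a + (j + 1) * h) ∩ Icc (lo i) (lo i + len i)).Nonempty) := by
    intro j hj
    obtain ⟨i, hi, hne⟩ := hcon j (Finset.mem_range.1 hj)
    exact Finset.mem_biUnion.2 ⟨i, hi, Finset.mem_filter.2 ⟨hj, hne⟩⟩
  have h2 : (S : ℝ) ≤ ∑ i ∈ s, (((Finset.range S).filter (fun j : ℕ =>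
      (Icc (a + j * h) (a + (j + 1) * h) ∩ Icc (lo i) (lo i + len i)).Nonempty)).card : ℝ) := by
    have h3 := (Finset.card_le_card h1).trans Finset.card_biUnion_le
    rw [Finset.card_range] at h3
    exact_mod_cast h3
  have h4 := Finset.sum_le_sum fun i hi => card_pieces_le (a := a) hh S (lo i) (len i) (hlen i hi)
  linarith

end FB
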