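import Pool.Agent.H48.FB.IDefs
import Pool.Agent.H48.FB.I01

/-! I03: the bad set of one oscillating function on a short interval. -/

open Set

namespace FB

/-- a function with derivative at least `c` on `[x, y]` grows with slope `c` -/
theorem slope_le {x y c : ℝ} {f f' : ℝ → ℝ}
    (hd : ∀ z ∈ Icc x y, HasDerivWithinAt f (f' z) (Icc x y) z) (hc : ∀ z ∈ Icc x y, c ≤ f' z)
    {a b : ℝ} (ha : a ∈ Icc x y) (hb : b ∈ Icc x y) (hab : a ≤ b) : c * (b - a) ≤ f b - f a := by
  have hmono : MonotoneOn (fun z => f z - c * z) (Icc x y) := by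
    refine monotoneOn_of_hasDerivWithinAt_nonneg (f' := fun z => f' z - c) (convex_Icc x y) ?_ ?_ ?_
    · exact fun z hz => ((hd z hz).continuousWithinAt).sub (by fun_prop)
    · intro z hz
      have hz' := interior_subset hz
      have h1 : HasDerivWithinAt (fun z => c * z) c (interior (Icc x y)) z := by
        simpa using (hasDerivWithinAt_id z (interior (Icc x y))).const_mul c
      exact ((hd z hz').mono interior_subset).sub h1
    · intro z hz
      have := hc z (interior_subset hz)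
      linarith
  have := hmono ha hb hab
  simp only at this
  linarith

/-- the set where a function with slope at least `c` is smaller than `d` -/
theorem bad_of_slope {x y c d : ℝ} (hc0 : 0 < c) {f f' : ℝ → ℝ}
    (hd : ∀ z ∈ Icc x y, HasDerivWithinAt f (f' z) (Icc x y) z)
    (hc : (∀ z ∈ Icc x y, c ≤ f' z) ∨ ∀ z ∈ Icc x y, f' z ≤ -c) :
    ∃ l : ℝ, ∀ z ∈ Icc x y, |f z| < d → z ∈ Icc l (l + 2 * d / c) := by
  -- the difference of two bad points
  have key : ∀ a ∈ Icc x y, ∀ b ∈ Icc x y, a ≤ b → |f a| < d → |f b| < d → b - a ≤ 2 * d / c := by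
    intro a ha b hb hab h1 h2
    rw [le_div_iff₀ hc0]
    have h3 := abs_lt.1 h1
    have h4 := abs_lt.1 h2
    rcases hc with hc | hc
    · have := slope_le hd hc ha hb hab
      linarith
    · have := slope_le (f := fun z => -f z) (f' := fun z => -f' z) (c := c)
        (fun z hz => (hd z hz).neg) (fun z hz => by have := hc z hz; linarith) ha hb hab
      linarith
  by_cases hne : ∃ z ∈ Icc x y, |f z| < d
  · set S : Set ℝ := {z | z ∈ Icc x y ∧ |f z| < d} with hS
    have hSne : S.Nonempty := by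
      obtain ⟨z, h1, h2⟩ := hne
      exact ⟨z, h1, h2⟩
    have hbdd : BddBelow S := ⟨x, fun z hz => hz.1.1⟩
    refine ⟨sInf S, fun z hz hfz => ⟨csInf_le hbdd ⟨hz, hfz⟩, ?_⟩⟩
    have h1 : z - 2 * d / c ≤ sInf S := by
      refine le_csInf hSne fun a ha => ?_
      have hd0 : 0 ≤ 2 * d / c := by
        have : 0 < d := lt_of_le_of_lt (abs_nonneg _) hfz
        positivity
      rcases le_total a z with h | h
      · have := key a ha.1 z hz h ha.2 hfz
        linarith
      · linarith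
    linarith
  · refine ⟨0, fun z hz hfz => absurd ⟨z, hz, hfz⟩ hne⟩

/-- On an interval `[x, y]` with `(2n+1/2)(y-x) ≤ 1/8` and `n ≥ 16 A`, `ka ≤ A`, the set `{|F n| < ka/n}` is contained in a closed
interval of length `2 ka / n^2`: if it is nonempty, then `|cos ((2n+1/2) z - ga)| ≤ 2A/n ≤ 1/8` at one point, so
`≤ 1/4` and `|sin| ≥ 0.9` with constant sign on `[x, y]`, hence `F'` has constant sign and `|F'| ≥ 0.9 (2n+1/2) - A ≥ n`;
`F n` is strictly monotone with slope `≥ n` in absolute value. -/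
theorem bad_interval {A ga : ℝ} {Na : ℕ} {lo hi : ℝ} {F F' : ℕ → ℝ → ℝ} (h : Osc A ga Na lo hi F F')
    {x y : ℝ} (hxy : x ≤ y) (hsub : Icc x y ⊆ Icc lo hi) {n : ℕ} (hn : Na ≤ n) (hnA : 16 * A ≤ n)
    (hlen : (2 * n + 1/2) * (y - x) ≤ 1/8) {ka : ℝ} (hka : 0 < ka) (hkA : ka ≤ A) :
    ∃ l : ℝ, ∀ z ∈ Icc x y, |F n z| < ka / n → z ∈ Icc l (l + 2 * ka / (n:ℝ) ^ 2) := by
  have hA := h.hA
  have hn16 : (16 : ℝ) ≤ n := by linarith
  have hn0 : (0 : ℝ) < n := by linarith
  by_cases hne : ∃ z ∈ Icc x y, |F n z| < ka / n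
  swap
  · exact ⟨0, fun z hz hfz => absurd ⟨z, hz, hfz⟩ hne⟩
  obtain ⟨z₀, hz₀, hb⟩ := hne
  set m : ℝ := 2 * n + 1/2 with hm
  have hm0 : 0 < m := by positivity
  -- cosine small at `z₀`
  have hcos : |Real.cos (m * z₀ - ga)| ≤ 1 / 8 := by
    have h1 := h.f0 n hn z₀ (hsub hz₀)
    have h2 : |Real.cos (m * z₀ - ga)| ≤ |F n z₀| + A / n := by
      have h3 : Real.cos (m * z₀ - ga) = F n z₀ - (F n z₀ - Real.cos (m * z₀ - ga)) := by ring
      rw [h3]
      exact (abs_sub _ _).trans (add_le_add le_rfl h1)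
    have h4 : ka / n ≤ 1 / 16 := by
      rw [div_le_iff₀ hn0]; linarith
    have h5 : A / n ≤ 1 / 16 := by
      rw [div_le_iff₀ hn0]; linarith
    linarith
  have hsin0 : (7 / 8 : ℝ) + 1/10 ≤ |Real.sin (m * z₀ - ga)| ∨ (9/10 : ℝ) + 1/8 - 1/20 ≤ |Real.sin (m * z₀ - ga)| := by
    right
    have h1 := Real.sin_sq_add_cos_sq (m * z₀ - ga)
    have h2 : Real.cos (m * z₀ - ga) ^ 2 ≤ 1 / 64 := by
      rw [← sq_abs]
      have := abs_nonneg (Real.cos (m * z₀ - ga))
      nlinarith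
    have h3 : (63 / 64 : ℝ) ≤ |Real.sin (m * z₀ - ga)| ^ 2 := by
      rw [sq_abs]; linarith
    have h4 := abs_nonneg (Real.sin (m * z₀ - ga))
    nlinarith
  have hs0 : (39/40 : ℝ) ≤ |Real.sin (m * z₀ - ga)| := by
    rcases hsin0 with h1 | h1 <;> linarith
  -- the phase varies by at most `1 / 8`
  have hph : ∀ z ∈ Icc x y, |(m * z - ga) - (m * z₀ - ga)| ≤ 1 / 8 := by
    intro z hz
    have h1 : (m * z - ga) - (m * z₀ - ga) = m * (z - z₀) := by ring
    rw [h1, abs_mul, abs_of_pos hm0]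
    have h2 : |z - z₀| ≤ y - x := by
      rw [abs_le]
      constructor
      · linarith [hz.1, hz₀.2]
      · linarith [hz.2, hz₀.1]
    calc m * |z - z₀| ≤ m * (y - x) := mul_le_mul_of_nonneg_left h2 hm0.le
      _ ≤ 1 / 8 := hlen
  have hsd : ∀ z ∈ Icc x y, |Real.sin (m * z - ga) - Real.sin (m * z₀ - ga)| ≤ 1 / 8 := by
    intro z hz
    refine le_trans ?_ (hph z hz)
    exact Real.abs_sin_sub_sin_le _ _
  have hder : ∀ z ∈ Icc x y, HasDerivWithinAt (F n) (F' n z) (Icc x y) z :=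
    fun z hz => (h.hd n hn z (hsub hz)).mono hsub
  have hF' : ∀ z ∈ Icc x y, |F' n z + m * Real.sin (m * z - ga)| ≤ A :=
    fun z hz => h.f1 n hn z (hsub hz)
  have hslope : (∀ z ∈ Icc x y, (n : ℝ) ≤ F' n z) ∨ ∀ z ∈ Icc x y, F' n z ≤ -(n : ℝ) := by
    have hAn : A ≤ n / 16 := by linarith
    rcases le_total 0 (Real.sin (m * z₀ - ga)) with h0 | h0
    · right
      intro z hz
      rw [abs_of_nonneg h0] at hs0
      have h1 := abs_le.1 (hsd z hz)
      have h2 := abs_le.1 (hF' z hz)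
      have h3 : (17/20 : ℝ) ≤ Real.sin (m * z - ga) := by linarith [h1.1]
      have h4 : m * (17/20) ≤ m * Real.sin (m * z - ga) := mul_le_mul_of_nonneg_left h3 hm0.le
      have h5 := h2.2
      rw [hm] at h4 h5
      linarith
    · left
      intro z hz
      rw [abs_of_nonpos h0] at hs0
      have h1 := abs_le.1 (hsd z hz)
      have h2 := abs_le.1 (hF' z hz)
      have h3 : Real.sin (m * z - ga) ≤ -(17/20 : ℝ) := by linarith [h1.2]
      have h4 : m * Real.sin (m * z - ga) ≤ m * -(17/20) := mul_le_mul_of_nonneg_left h3 hm0.le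
      have h5 := h2.1
      rw [hm] at h4 h5
      linarith
  obtain ⟨l, hl⟩ := bad_of_slope (d := ka / n) hn0 hder hslope
  refine ⟨l, fun z hz hfz => ?_⟩
  have h1 := hl z hz hfz
  have h2 : 2 * (ka / n) / (n : ℝ) = 2 * ka / (n : ℝ) ^ 2 := by
    field_simp
  rwa [h2] at h1

/-- At a bad point the phase is near a half integer multiple of `pi`. -/
theorem bad_phase {A ga : ℝ} {Na : ℕ} {lo hi : ℝ} {F F' : ℕ → ℝ → ℝ} (h : Osc A ga Na lo hi F F')
    {n : ℕ} (hn : Na ≤ n) {ka : ℝ} (hkA : ka ≤ A) {z : ℝ} (hz : z ∈ Icc lo hi) (hb : |F n z| < ka / n) :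
    nn (n * (2 * z / Real.pi) + ((z / 2 - ga) / Real.pi - 1/2)) ≤ A / n := by
  have hA := h.hA
  have hn0 : (0 : ℝ) < n := by
    have h1 : 1 ≤ n := h.hN.trans hn
    exact_mod_cast h1
  set w := n * (2 * z / Real.pi) + ((z / 2 - ga) / Real.pi - 1/2) with hw
  have h1 := two_nn_le_sin w
  have h2 : Real.pi * w = ((2 * n + 1/2) * z - ga) - Real.pi / 2 := by
    rw [hw]
    field_simp
    ring
  rw [h2, Real.sin_sub_pi_div_two, abs_neg] at h1
  have h3 := h.f0 n hn z hz
  have h4 : |Real.cos ((2 * n + 1/2) * z - ga)| ≤ |F n z| + A / n := by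
    have h3' : Real.cos ((2 * n + 1/2) * z - ga) =
      F n z - (F n z - Real.cos ((2 * n + 1/2) * z - ga)) := by ring
    rw [h3']
    exact (abs_sub _ _).trans (add_le_add le_rfl h3)
  have h5 : ka / n ≤ A / n := div_le_div_of_nonneg_right hkA hn0.le
  linarith

end FB
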