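import Pool.Agent.H48.FB.IDefs
import Pool.Agent.H48.FB.I01

/-! I04: counting the indices with phase in a short arc. -/

open Set

namespace FB

/-- points of `[-la, la]` at mutual distance at least `rho` -/
theorem card_spread_le {rho la : ℝ} (hrho : 0 < rho) (hla : 0 ≤ la) (s : Finset ℕ) (g : ℕ → ℝ)
    (hg : ∀ n ∈ s, |g n| ≤ la) (hd : ∀ n ∈ s, ∀ m ∈ s, n ≠ m → rho ≤ |g n - g m|) :
    (s.card : ℝ) ≤ 2 * la / rho + 1 := by
  -- map `n` to `⌊(g n + la) / rho⌋ ∈ [0, 2 la / rho]`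
  have hinj : Set.InjOn (fun n => ⌊(g n + la) / rho⌋) (s : Set ℕ) := by
    intro n hn m hm hnm
    by_contra hne
    have h1 := hd n hn m hm hne
    have h2 : |(g n + la) / rho - (g m + la) / rho| < 1 := Int.abs_sub_lt_one_of_floor_eq_floor hnm
    rw [← sub_div, abs_div, abs_of_pos hrho, div_lt_one hrho] at h2
    have h3 : g n + la - (g m + la) = g n - g m := by ring
    rw [h3] at h2
    linarith
  have hsub : s.image (fun n => ⌊(g n + la) / rho⌋) ⊆ Finset.Icc 0 ⌊2 * la / rho⌋ := by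
    intro z hz
    obtain ⟨n, hn, rfl⟩ := Finset.mem_image.1 hz
    have h1 := abs_le.1 (hg n hn)
    rw [Finset.mem_Icc]
    constructor
    · exact Int.floor_nonneg.2 (div_nonneg (by linarith) hrho.le)
    · exact Int.floor_le_floor (div_le_div_of_nonneg_right (by linarith) hrho.le)
  have h1 := Finset.card_le_card hsub
  rw [Finset.card_image_of_injOn hinj, Int.card_Icc] at h1
  have h0 : 0 ≤ ⌊2 * la / rho⌋ := Int.floor_nonneg.2 (by positivity)
  have h2 : (s.card : ℤ) ≤ ⌊2 * la / rho⌋ + 1 := by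
    have h3 : ((⌊2 * la / rho⌋ + 1 - 0).toNat : ℤ) = ⌊2 * la / rho⌋ + 1 - 0 :=
      Int.toNat_of_nonneg (by omega)
    omega
  have h3 : (s.card : ℝ) ≤ (⌊2 * la / rho⌋ : ℝ) + 1 := by exact_mod_cast h2
  have h4 := Int.floor_le (2 * la / rho)
  linarith

/-- If `nn (D xi) ≥ rho` for `1 ≤ D < M` then a set of integers in `[M, 2M)` (or in any interval of length `M`)
with `nn (n xi + c) ≤ la < 1/4` has at most `2 la / rho + 1` elements: the numbers
`n xi + c - round (n xi + c) ∈ [-la, la]` are pairwise at distance `≥ nn ((n-n') xi) ≥ rho`. -/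
theorem card_arc_le {xi c la rho : ℝ} (hrho : 0 < rho) (hla : 0 ≤ la) (hla4 : la < 1/4) {M a : ℕ}
    (hD : ∀ D : ℕ, 1 ≤ D → D < M → rho ≤ nn (D * xi)) (s : Finset ℕ) (hs : ∀ n ∈ s, a ≤ n ∧ n < a + M)
    (hsa : ∀ n ∈ s, nn (n * xi + c) ≤ la) : (s.card : ℝ) ≤ 2 * la / rho + 1 := by
  have key : ∀ n ∈ s, ∀ m ∈ s, m < n → rho ≤
      |((n : ℝ) * xi + c - round ((n : ℝ) * xi + c)) - ((m : ℝ) * xi + c - round ((m : ℝ) * xi + c))| := by
    intro n hn m hm hmn
    obtain ⟨h1, h2⟩ := hs n hn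
    obtain ⟨h3, h4⟩ := hs m hm
    have h5 := hD (n - m) (by omega) (by omega)
    refine h5.trans ?_
    have h6 : (((n - m : ℕ) : ℝ)) = (n : ℝ) - m := Nat.cast_sub hmn.le
    have h7 := nn_le_abs_sub_int (((n - m : ℕ) : ℝ) * xi)
      (round ((n : ℝ) * xi + c) - round ((m : ℝ) * xi + c))
    refine h7.trans (le_of_eq ?_)
    rw [h6]
    push_cast
    congr 1
    ring
  refine card_spread_le hrho hla s (fun n => (n : ℝ) * xi + c - round ((n : ℝ) * xi + c))
    (fun n hn => hsa n hn) ?_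
  intro n hn m hm hne
  rcases lt_or_gt_of_ne hne with h | h
  · rw [abs_sub_comm]
    exact key m hm n hn h
  · exact key n hn m hm h

end FB
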