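import Pool.Agent.H48.FB.IDefs
import Pool.Agent.H48.FB.I01

/-! I05: neighbourhoods of the fractions `pi p/(2k)`. -/

open Set

namespace FB

private theorem card_sep {Φ : Finset ℝ} {a b δ : ℝ} (hδ : 0 < δ) (hab : a ≤ b)
    (hin : ∀ s ∈ Φ, a ≤ s ∧ s ≤ b) (hsep : ∀ s ∈ Φ, ∀ t ∈ Φ, s ≠ t → δ ≤ |s - t|) :
    (Φ.card : ℝ) ≤ (b - a) / δ + 1 := by
  have h0 : 0 ≤ (b - a) / δ := div_nonneg (by linarith) hδ.le
  have hc : Φ.card ≤ (Finset.range (⌊(b - a) / δ⌋₊ + 1)).card := by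
    refine Finset.card_le_card_of_injOn (fun s => ⌊(s - a) / δ⌋₊) ?_ ?_
    · intro s hs
      have hs' := hin s hs
      simp only [Finset.coe_range, mem_Iio]
      have : ⌊(s - a) / δ⌋₊ ≤ ⌊(b - a) / δ⌋₊ :=
        Nat.floor_le_floor (div_le_div_of_nonneg_right (by linarith [hs'.2]) hδ.le)
      omega
    · intro s hs t ht hst
      by_contra hne
      have hd := hsep s hs t ht hne
      have hs' := hin s hs
      have ht' := hin t ht
      have e : ⌊(s - a) / δ⌋₊ = ⌊(t - a) / δ⌋₊ := hst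
      have s0 : 0 ≤ (s - a) / δ := div_nonneg (by linarith [hs'.1]) hδ.le
      have t0 : 0 ≤ (t - a) / δ := div_nonneg (by linarith [ht'.1]) hδ.le
      have s1 := Nat.floor_le s0
      have s2 := Nat.lt_floor_add_one ((s - a) / δ)
      have t1 := Nat.floor_le t0
      have t2 := Nat.lt_floor_add_one ((t - a) / δ)
      rw [e] at s1 s2
      have h1 : |(s - a) / δ - (t - a) / δ| < 1 := by
        rw [abs_lt]
        constructor <;> linarith
      have h2 : (s - a) / δ - (t - a) / δ = (s - t) / δ := by ring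
      rw [h2, abs_div, abs_of_pos hδ, div_lt_one hδ] at h1
      linarith
  rw [Finset.card_range] at hc
  have hc' : (Φ.card : ℝ) ≤ (⌊(b - a) / δ⌋₊ : ℝ) + 1 := by exact_mod_cast hc
  have := Nat.floor_le h0
  linarith

/-- `|sin (2 k y)| < k2/k` forces `|y - pi p/(2k)| ≤ pi k2/(4 k^2)` for some integer `p`; distinct values
`pi p/(2k)`, `k ∈ [M, 2M)`, have mutual distance `≥ pi/(8 M^2)`. -/
theorem fractions {x ell k2 : ℝ} (hell : 0 ≤ ell) (hk2 : 0 < k2) {M : ℕ} (hM : 1 ≤ M) :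
    ∃ Φ : Finset ℝ, (Φ.card : ℝ) ≤ (ell + Real.pi * k2 / (2 * (M:ℝ) ^ 2)) * (8 * (M:ℝ) ^ 2) / Real.pi + 1 ∧
      ∀ k : ℕ, M ≤ k → k < 2 * M → ∀ y ∈ Icc x (x + ell), |Real.sin (2 * k * y)| < k2 / k →
        ∃ f ∈ Φ, |y - f| ≤ Real.pi * k2 / (4 * (M:ℝ) ^ 2) := by
  classical
  have hpi := Real.pi_pos
  have hM0 : (0 : ℝ) < M := by exact_mod_cast hM
  obtain ⟨w, hw⟩ : ∃ w : ℝ, w = Real.pi * k2 / (4 * (M:ℝ) ^ 2) := ⟨_, rfl⟩
  have hw0 : 0 < w := by rw [hw]; positivity
  obtain ⟨B, hB⟩ : ∃ B : ℕ, (|x - w| + |x + ell + w|) * (4 * M) / Real.pi ≤ B := exists_nat_ge _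
  obtain ⟨Φ, hΦ⟩ : ∃ Φ : Finset ℝ, Φ = (((Finset.Ico M (2 * M)) ×ˢ (Finset.Icc (-(B : ℤ)) B)).image
      (fun kp : ℕ × ℤ => Real.pi * (kp.2 : ℝ) / (2 * (kp.1 : ℝ)))).filter
      (fun f => x - w ≤ f ∧ f ≤ x + ell + w) := ⟨_, rfl⟩
  refine ⟨Φ, ?_, ?_⟩
  · have key := card_sep (Φ := Φ) (a := x - w) (b := x + ell + w) (δ := Real.pi / (8 * (M:ℝ) ^ 2))
      (by positivity) (by linarith) ?_ ?_
    · refine key.trans (le_of_eq ?_)
      rw [hw]
      field_simp
      ring
    · intro s hs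
      rw [hΦ, Finset.mem_filter] at hs
      exact hs.2
    · intro s hs t ht hne
      rw [hΦ, Finset.mem_filter, Finset.mem_image] at hs ht
      obtain ⟨⟨⟨k, p⟩, hkp, rfl⟩, -⟩ := hs
      obtain ⟨⟨⟨l, r⟩, hlr, rfl⟩, -⟩ := ht
      rw [Finset.mem_product, Finset.mem_Ico] at hkp hlr
      simp only at hkp hlr hne ⊢
      have hk1 : (M : ℝ) ≤ k := by exact_mod_cast hkp.1.1
      have hk2' : (k : ℝ) ≤ 2 * M := by exact_mod_cast hkp.1.2.le
      have hl1 : (M : ℝ) ≤ l := by exact_mod_cast hlr.1.1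
      have hl2 : (l : ℝ) ≤ 2 * M := by exact_mod_cast hlr.1.2.le
      have hk0 : (0 : ℝ) < k := by linarith
      have hl0 : (0 : ℝ) < l := by linarith
      have e : Real.pi * (p : ℝ) / (2 * (k : ℝ)) - Real.pi * (r : ℝ) / (2 * (l : ℝ)) =
          Real.pi * ((p * l - r * k : ℤ) : ℝ) / (2 * (k * l)) := by
        push_cast
        field_simp
      have hz : (p * l - r * k : ℤ) ≠ 0 := by
        intro h
        apply hne
        rw [← sub_eq_zero, e, h]
        simp
      have h1 : (1 : ℝ) ≤ |((p * l - r * k : ℤ) : ℝ)| := by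
        rw [← Int.cast_abs]
        exact_mod_cast Int.one_le_abs hz
      rw [e, abs_div, abs_mul, abs_of_pos hpi, abs_of_pos (by positivity : (0:ℝ) < 2 * (k * l)),
        div_le_div_iff₀ (by positivity) (by positivity)]
      have h2 : (k : ℝ) * l ≤ (2 * M) * (2 * M) := mul_le_mul hk2' hl2 hl0.le (by positivity)
      have h3 : 2 * ((k : ℝ) * l) ≤ 8 * (M : ℝ) ^ 2 := by nlinarith
      calc Real.pi * (2 * ((k : ℝ) * l)) ≤ Real.pi * (8 * (M : ℝ) ^ 2) :=
            mul_le_mul_of_nonneg_left h3 hpi.le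
        _ ≤ Real.pi * |((p * l - r * k : ℤ) : ℝ)| * (8 * (M : ℝ) ^ 2) := by
            rw [mul_assoc]
            apply mul_le_mul_of_nonneg_left _ hpi.le
            have : (0 : ℝ) < 8 * (M : ℝ) ^ 2 := by positivity
            nlinarith
  · intro k hk hk' y hy hs
    have hkM : (M : ℝ) ≤ k := by exact_mod_cast hk
    have hk2M : (k : ℝ) ≤ 2 * M := by exact_mod_cast hk'.le
    have hk0 : (0 : ℝ) < k := by linarith
    have h1 := two_nn_le_sin (2 * k * y / Real.pi)
    rw [mul_div_cancel₀ _ hpi.ne'] at h1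
    unfold nn at h1
    obtain ⟨p, hp⟩ : ∃ p : ℤ, p = round (2 * k * y / Real.pi) := ⟨_, rfl⟩
    rw [← hp] at h1
    have h2 : |2 * k * y / Real.pi - p| < k2 / (2 * k) := by
      have : 2 * |2 * k * y / Real.pi - p| < k2 / k := lt_of_le_of_lt h1 hs
      have e : k2 / (2 * k) = (k2 / k) / 2 := by ring
      rw [e]
      linarith
    have e3 : y - Real.pi * p / (2 * k) = (Real.pi / (2 * k)) * (2 * k * y / Real.pi - p) := by
      field_simp
    have h3 : |y - Real.pi * p / (2 * k)| ≤ w := by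
      rw [e3, abs_mul, abs_of_pos (by positivity)]
      calc Real.pi / (2 * k) * |2 * k * y / Real.pi - p| ≤ Real.pi / (2 * k) * (k2 / (2 * k)) :=
            mul_le_mul_of_nonneg_left h2.le (by positivity)
        _ = Real.pi * k2 / (4 * (k : ℝ) ^ 2) := by
            field_simp
            ring
        _ ≤ w := by
            rw [hw]
            apply div_le_div_of_nonneg_left (by positivity) (by positivity)
            have : (M : ℝ) ^ 2 ≤ (k : ℝ) ^ 2 := pow_le_pow_left₀ hM0.le hkM 2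
            linarith
    have h4 := abs_le.1 h3
    have hf1 : x - w ≤ Real.pi * p / (2 * k) := by linarith [hy.1, h4.2]
    have hf2 : Real.pi * p / (2 * k) ≤ x + ell + w := by linarith [hy.2, h4.1]
    refine ⟨Real.pi * p / (2 * k), ?_, hw ▸ h3⟩
    rw [hΦ, Finset.mem_filter]
    refine ⟨Finset.mem_image.2 ⟨(k, p), ?_, rfl⟩, hf1, hf2⟩
    rw [Finset.mem_product, Finset.mem_Ico]
    refine ⟨⟨hk, hk'⟩, ?_⟩
    have h5 : |Real.pi * p / (2 * k)| ≤ |x - w| + |x + ell + w| := by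
      rw [abs_le]
      have a1 := neg_abs_le (x - w)
      have a2 := le_abs_self (x + ell + w)
      have a3 := abs_nonneg (x - w)
      have a4 := abs_nonneg (x + ell + w)
      constructor <;> linarith
    have h6 : |(p : ℝ)| ≤ B := by
      refine le_trans ?_ hB
      rw [abs_div, abs_mul, abs_of_pos hpi, abs_of_pos (by positivity : (0:ℝ) < 2 * k),
        div_le_iff₀ (by positivity)] at h5
      rw [le_div_iff₀ hpi]
      have a5 : (0 : ℝ) ≤ |x - w| + |x + ell + w| := by positivity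
      calc |(p : ℝ)| * Real.pi = Real.pi * |(p : ℝ)| := mul_comm _ _
        _ ≤ (|x - w| + |x + ell + w|) * (2 * k) := h5
        _ ≤ (|x - w| + |x + ell + w|) * (4 * M) := by
            apply mul_le_mul_of_nonneg_left _ a5
            linarith
    rw [Finset.mem_Icc]
    have h7 := abs_le.1 h6
    constructor
    · exact_mod_cast h7.1
    · exact_mod_cast h7.2

end FB
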