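import Pool.Agent.H48.FB.IDefs
import Pool.Agent.H48.FB.I01
import Pool.Agent.H48.FB.I02
import Pool.Agent.H48.FB.I03
import Pool.Agent.H48.FB.I04
import Pool.Agent.H48.FB.I05

/-! I06: the stage of the nested interval construction. -/

open Set

namespace FB

theorem I06_dyadic {B k : ℕ} (s : ℕ) (h1 : B ≤ k) (h2 : k < 2 ^ s * B) :
    ∃ i, i < s ∧ 2 ^ i * B ≤ k ∧ k < 2 * (2 ^ i * B) := by
  induction s with
  | zero => simp at h2; omega
  | succ s ih =>
    by_cases h : k < 2 ^ s * B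
    · obtain ⟨i, hi, h3, h4⟩ := ih h
      exact ⟨i, by omega, h3, h4⟩
    · push Not at h
      refine ⟨s, by omega, h, ?_⟩
      rw [pow_succ] at h2
      linarith

theorem I06_geom4 (s : ℕ) : ∑ i ∈ Finset.range s, (4 : ℝ) ^ i ≤ 4 ^ s / 3 := by
  induction s with
  | zero => simp
  | succ s ih => rw [Finset.sum_range_succ, pow_succ]; linarith

theorem I06_geom4inv (s : ℕ) : ∑ i ∈ Finset.range s, 1 / (4 : ℝ) ^ i ≤ 4 / 3 := by
  have key : ∀ s : ℕ, ∑ i ∈ Finset.range s, 1 / (4 : ℝ) ^ i ≤ 4 / 3 - (4 / 3) / 4 ^ s := by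
    intro s
    induction s with
    | zero => simp
    | succ s ih =>
      rw [Finset.sum_range_succ, pow_succ]
      have h4 : (0 : ℝ) < 4 ^ s := by positivity
      have e : (4 / 3 : ℝ) / (4 ^ s * 4) = (1 / 3) / 4 ^ s := by
        field_simp
      have e2 : (4 / 3 : ℝ) / 4 ^ s = (1 / 3) / 4 ^ s + 1 / 4 ^ s := by
        field_simp; norm_num
      rw [e]
      linarith
  have h := key s
  have : (0 : ℝ) ≤ (4 / 3) / 4 ^ s := by positivity
  linarith

theorem I06_sum {a b c : ℝ} (ha : 0 ≤ a) (hb : 0 ≤ b) (hc : 0 ≤ c) (s : ℕ) :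
    ∑ i ∈ Finset.range s, (a * 4 ^ i + b) * (c / 4 ^ i + 2) ≤
      s * (a * c) + 2 * a * (4 ^ s / 3) + b * c * (4 / 3) + 2 * b * s := by
  have e : ∀ i ∈ Finset.range s, (a * 4 ^ i + b) * (c / 4 ^ i + 2) =
      a * c + 2 * a * (4 : ℝ) ^ i + b * c * (1 / (4 : ℝ) ^ i) + 2 * b := by
    intro i _
    have h4 : (0 : ℝ) < 4 ^ i := by positivity
    field_simp
    ring
  rw [Finset.sum_congr rfl e, Finset.sum_add_distrib, Finset.sum_add_distrib,
    Finset.sum_add_distrib]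
  have s1 : ∑ _i ∈ Finset.range s, a * c = s * (a * c) := by
    simp only [Finset.sum_const, Finset.card_range, nsmul_eq_mul]
  have s2 : ∑ i ∈ Finset.range s, 2 * a * (4 : ℝ) ^ i =
      2 * a * ∑ i ∈ Finset.range s, (4 : ℝ) ^ i := by rw [Finset.mul_sum]
  have s3 : ∑ i ∈ Finset.range s, b * c * (1 / (4 : ℝ) ^ i) =
      b * c * ∑ i ∈ Finset.range s, 1 / (4 : ℝ) ^ i := by rw [Finset.mul_sum]
  have s4 : ∑ _i ∈ Finset.range s, 2 * b = s * (2 * b) := by
    simp only [Finset.sum_const, Finset.card_range, nsmul_eq_mul]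
  rw [s1, s2, s3, s4]
  have h1 := mul_le_mul_of_nonneg_left (I06_geom4 s) (by positivity : 0 ≤ 2 * a)
  have h2 := mul_le_mul_of_nonneg_left (I06_geom4inv s) (by positivity : 0 ≤ b * c)
  linarith

theorem I06_sq_le (s : ℕ) : ((s : ℝ)) ^ 2 ≤ 2 * 2 ^ s := by
  have h : s ^ 2 ≤ 2 * 2 ^ s := by
    induction s with
    | zero => norm_num
    | succ s ih =>
      rcases Nat.lt_or_ge s 3 with h | h
      · interval_cases s <;> norm_num
      · have : 2 * s + 1 ≤ s ^ 2 := by nlinarith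
        calc (s + 1) ^ 2 = s ^ 2 + (2 * s + 1) := by ring
          _ ≤ s ^ 2 + s ^ 2 := by omega
          _ ≤ 2 * 2 ^ (s + 1) := by
            have : 2 ^ (s + 1) = 2 ^ s * 2 := pow_succ 2 s
            omega
  exact_mod_cast h

/-- the numerical inequality -/
theorem I06_num {A C k2 ka : ℝ} {s : ℕ} (hA : 1 ≤ A) (hC : C = 64 * (2 * Real.pi * A + 1))
    (hk2 : 0 < k2) (hk20 : k2 ≤ 1 / (65536 * C)) (h1 : C / k2 ≤ 2 ^ s) (h2 : 2 ^ s ≤ 2 * (C / k2))
    (hka : 0 < ka) (hkaC : ka ≤ k2 ^ 2 / (400 * C)) :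
    (∑ i ∈ Finset.range s, ((8 / Real.pi * (k2 / 300) * 512 ^ 2) * 4 ^ i + (4 * k2 + 1)) *
        ((150 * Real.pi / 512 ^ 2 * 4 ^ s) / 4 ^ i + 2)) +
      (∑ i ∈ Finset.range s, ((4 * Real.pi / 300) * 4 ^ i + (2 * Real.pi * A / k2 + 1)) *
        ((600 * ka / k2 * 4 ^ s) / 4 ^ i + 2)) < 4 ^ s := by
  have hpi := Real.pi_gt_three
  have hpi4 : Real.pi < 3.15 := Real.pi_lt_d2
  have hC0 : 448 ≤ C := by rw [hC]; nlinarith
  have hCpos : 0 < C := by linarith
  set R2 : ℝ := 4 ^ s with hR2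
  have hRR : R2 = (2 ^ s) ^ 2 := by
    rw [hR2, ← pow_mul, mul_comm, pow_mul]; norm_num
  set R : ℝ := 2 ^ s with hR
  have hR0 : 0 < R := by positivity
  have hR20 : 0 < R2 := by positivity
  have hk2small : 65536 * C * k2 ≤ 1 := by
    rw [le_div_iff₀ (by positivity)] at hk20
    linarith
  have hk2a : k2 ≤ 1 / 10000000 := by nlinarith
  have hCR : C ≤ R * k2 := by
    rw [div_le_iff₀ hk2] at h1; exact h1
  have hRC : R * k2 ≤ 2 * C := by
    have : 2 * (C / k2) = (2 * C) / k2 := by ring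
    rw [this, le_div_iff₀ hk2] at h2; exact h2
  have hRbig : 10000 ≤ R := by nlinarith
  have hsR : (s : ℝ) ≤ R := by
    rw [hR]; exact_mod_cast Nat.lt_two_pow_self.le
  have hs0 : (0 : ℝ) ≤ s := Nat.cast_nonneg s
  have hsk : s * k2 ≤ 1 / 128 := by
    have h3 : (s * k2) ^ 2 ≤ (1 / 128) ^ 2 := by
      have h4 := I06_sq_le s
      rw [← hR] at h4
      calc (s * k2) ^ 2 = (s : ℝ) ^ 2 * k2 ^ 2 := by ring
        _ ≤ 2 * R * k2 ^ 2 := by nlinarith [sq_nonneg k2]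
        _ = 2 * (R * k2) * k2 := by ring
        _ ≤ 2 * (2 * C) * k2 := by nlinarith
        _ ≤ (1 / 128) ^ 2 := by nlinarith
    exact le_of_sq_le_sq h3 (by norm_num)
  have hka1 : ka * (400 * C) ≤ k2 ^ 2 := by
    rw [le_div_iff₀ (by positivity)] at hkaC; exact hkaC
  have S1 := I06_sum (a := 8 / Real.pi * (k2 / 300) * 512 ^ 2) (b := 4 * k2 + 1)
    (c := 150 * Real.pi / 512 ^ 2 * R2) (by positivity) (by positivity) (by positivity) s
  have S2 := I06_sum (a := 4 * Real.pi / 300) (b := 2 * Real.pi * A / k2 + 1)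
    (c := 600 * ka / k2 * R2) (by positivity) (by positivity) (by positivity) s
  have t1 : s * (8 / Real.pi * (k2 / 300) * 512 ^ 2 * (150 * Real.pi / 512 ^ 2 * R2)) ≤
      R2 / 32 := by
    have e : s * (8 / Real.pi * (k2 / 300) * 512 ^ 2 * (150 * Real.pi / 512 ^ 2 * R2)) =
        4 * (s * k2) * R2 := by
      field_simp; ring
    rw [e]; nlinarith
  have t2 : 2 * (8 / Real.pi * (k2 / 300) * 512 ^ 2) * (R2 / 3) ≤ R2 / 32 := by
    have e1 : 8 / Real.pi ≤ 3 := by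
      rw [div_le_iff₀ (by positivity)]; linarith
    have e2 : 8 / Real.pi * (k2 / 300) * 512 ^ 2 ≤ 3 * (k2 / 300) * 512 ^ 2 := by
      apply mul_le_mul_of_nonneg_right _ (by norm_num)
      exact mul_le_mul_of_nonneg_right e1 (by positivity)
    have e3 : 3 * (k2 / 300) * 512 ^ 2 ≤ 1 / 100 := by linarith
    nlinarith
  have t3 : (4 * k2 + 1) * (150 * Real.pi / 512 ^ 2 * R2) * (4 / 3) ≤ R2 / 32 := by
    have e1 : (4 * k2 + 1) ≤ 2 := by linarith
    have e2 : 150 * Real.pi / 512 ^ 2 ≤ 1 / 500 := by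
      rw [div_le_div_iff₀ (by norm_num) (by norm_num)]; linarith
    have e3 : 150 * Real.pi / 512 ^ 2 * R2 ≤ 1 / 500 * R2 :=
      mul_le_mul_of_nonneg_right e2 hR20.le
    have e4 : (4 * k2 + 1) * (150 * Real.pi / 512 ^ 2 * R2) ≤ 2 * (1 / 500 * R2) :=
      mul_le_mul e1 e3 (by positivity) (by norm_num)
    linarith
  have t4 : 2 * (4 * k2 + 1) * s ≤ R2 / 32 := by
    have e1 : 2 * (4 * k2 + 1) * s ≤ 4 * R := by nlinarith
    have e2 : 4 * R ≤ R2 / 32 := by rw [hRR]; nlinarith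
    linarith
  have t5 : s * (4 * Real.pi / 300 * (600 * ka / k2 * R2)) ≤ R2 / 32 := by
    have e : s * (4 * Real.pi / 300 * (600 * ka / k2 * R2)) = 8 * Real.pi * (s * (ka / k2)) * R2 := by
      ring
    have e1 : ka / k2 ≤ k2 / (400 * C) := by
      rw [div_le_div_iff₀ hk2 (by positivity)]
      nlinarith
    have e2 : k2 / (400 * C) ≤ k2 / 400 := by
      apply div_le_div_of_nonneg_left hk2.le (by norm_num) (by linarith)
    have e3 : s * (ka / k2) ≤ s * (k2 / 400) := mul_le_mul_of_nonneg_left (e1.trans e2) hs0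
    have e4 : s * (k2 / 400) ≤ 1 / 51200 := by
      have : s * (k2 / 400) = (s * k2) / 400 := by ring
      rw [this]; linarith
    have e5 : 8 * Real.pi * (s * (ka / k2)) ≤ 1 / 32 := by
      have e6 : s * (ka / k2) ≤ 1 / 51200 := e3.trans e4
      have e7 : 0 ≤ s * (ka / k2) := by positivity
      nlinarith
    rw [e]
    nlinarith
  have t6 : 2 * (4 * Real.pi / 300) * (R2 / 3) ≤ R2 / 32 := by nlinarith
  have t7 : (2 * Real.pi * A / k2 + 1) * (600 * ka / k2 * R2) * (4 / 3) ≤ R2 / 32 := by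
    have e : (2 * Real.pi * A / k2 + 1) * (600 * ka / k2 * R2) * (4 / 3) =
        800 * ((2 * Real.pi * A + k2) * (ka / k2 ^ 2)) * R2 := by
      field_simp
      ring
    have e1 : ka / k2 ^ 2 ≤ 1 / (400 * C) := by
      rw [div_le_div_iff₀ (by positivity) (by positivity)]
      linarith
    have e2 : (2 * Real.pi * A + k2) ≤ C / 64 := by rw [hC]; linarith
    have e3 : (2 * Real.pi * A + k2) * (ka / k2 ^ 2) ≤ C / 64 * (1 / (400 * C)) :=
      mul_le_mul e2 e1 (by positivity) (by positivity)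
    have e4 : C / 64 * (1 / (400 * C)) = 1 / 25600 := by
      field_simp; norm_num
    rw [e]
    nlinarith
  have t8 : 2 * (2 * Real.pi * A / k2 + 1) * s ≤ R2 / 32 := by
    have e1 : 2 * Real.pi * A / k2 + 1 ≤ (C / 64) / k2 := by
      have : (C / 64) / k2 - (2 * Real.pi * A / k2 + 1) = (1 - k2) / k2 := by
        rw [hC]; field_simp; ring
      have h3 : 0 ≤ (1 - k2) / k2 := div_nonneg (by linarith) hk2.le
      linarith
    have e2 : (C / 64) / k2 ≤ R / 64 := by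
      rw [div_le_iff₀ hk2]; linarith
    have e3 : 2 * Real.pi * A / k2 + 1 ≤ R / 64 := e1.trans e2
    calc 2 * (2 * Real.pi * A / k2 + 1) * s ≤ 2 * (R / 64) * R := by
          apply mul_le_mul _ hsR hs0 (by positivity)
          linarith
      _ = R2 / 32 := by rw [hRR]; ring
  linarith

/-- Proof. Put `c1 = k2/300`, `L = 512`, `R = 2^s` with `s` the least integer such that `R ≥ C/k2` (`C = C(A)` large), so `R ≤ 2C/k2`.
`I = [x, x + c1/Q^2]`, pieces of length `h = c1/(R Q)^2`, `S = R^2` of them.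
1. Fractions with `k ∈ [L Q, L R Q)`: dyadic blocks `M = 2^i L Q`, `i < s`. By I05 each block is covered by at most
`(8/pi) c1 L^2 4^i + 4 k2 + 1` intervals of length `pi k2/(2 M^2)`, which kill (I02) at most
`sum_i ((8/pi) c1 L^2 4^i + 5) (pi k2 R^2/(2 4^i L^2 c1) + 2) ≤ 4 k2 s R^2 + (10 pi/3) (k2/c1) R^2/L^2 + (16/(3 pi)) c1 L^2 R^2 + 10 s`
pieces; with `c1 = k2/300`, `L = 512`: `(10 pi/3) 300/L^2 ≤ 1/80`, `(16/(3 pi)) L^2/300 k2 ≤ 1500 k2 ≤ 1/32`,
`4 k2 s ≤ 1/32`, `10 s ≤ R^2/32`: altogether `≤ R^2/8`.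
2. On the surviving pieces every `k < L R Q` satisfies `|sin 2 k y| ≥ k2/k`. For a block `M = 2^i Q`, `i < s`, let `N_M` be the set of
`n ∈ [M, 2M)` such that some point `y_n` of a surviving piece has `|F n y_n| < ka/n`. If it is nonempty fix `y* = y_{n*}`, `xi = 2 y*/pi`. By
I03 `nn (n xi + c) ≤ A/M + 2 M c1/Q^2 =: la` for `n ∈ N_M` (`(2n+1/2)/pi ≤ n`), and
`nn (D xi) ≥ |sin (2 D y*)|/pi ≥ k2/(pi M)` for `1 ≤ D < M` (I01); so (I04) `#N_M ≤ 2 pi (A + 2 c1 4^i)/k2 + 1`.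
(`la < 1/4` since `A/Q ≤ 1/16`, `2 R c1/Q ≤ 1/16` for `Q ≥ Qm(A)`, as `R c1 ≤ 2C/300`.)
By I03 each `n ∈ N_M` is bad inside an interval of length `2 ka/M^2` (needs `5 R c1/Q ≤ 1/8`), killing at most
`sum_i (2 pi (A + 2 c1 4^i)/k2 + 1) (2 ka R^2/(4^i c1) + 2)
 ≤ (2 ka R^2/c1) ((4/3)(2 pi A/k2 + 1) + 4 pi c1 s/k2) + 2 s (2 pi A/k2 + 1) + (8 pi/3) (c1/k2) R^2` pieces.
With `ka ≤ k2^2/CD A`, `CD A = 25600 (2 pi A + 1)`: first term `≤ R^2/30 + ..`; `(8 pi/3)/300 ≤ 1/32`; the others are small since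
`R ≥ C/k2`, `s ≤ log_2 (2C/k2)`, `k2 ≤ k20(A)`. Total `< R^2`. So a piece is free: take it. -/
theorem stage (A : ℝ) (hA : 1 ≤ A) : ∃ k20 : ℝ, 0 < k20 ∧ ∃ Qm : ℕ, 1 ≤ Qm ∧ ∀ k2 : ℝ, 0 < k2 → k2 ≤ k20 →
    ∃ R : ℕ, 2 ≤ R ∧ ∀ (ga : ℝ) (Na : ℕ) (lo hi : ℝ) (F F' : ℕ → ℝ → ℝ), Osc A ga Na lo hi F F' →
      ∀ (ka : ℝ), 0 < ka → ka ≤ k2 ^ 2 / CD A → ∀ N0 : ℕ, Na ≤ N0 → ∀ Q : ℕ, Qm ≤ Q → N0 ≤ Q → ∀ x : ℝ,
        Icc x (x + k2 / 300 / (Q:ℝ) ^ 2) ⊆ Icc lo hi → Inv F N0 ka k2 Q x →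
        ∃ x' : ℝ, Icc x' (x' + k2 / 300 / ((R * Q : ℕ):ℝ) ^ 2) ⊆ Icc x (x + k2 / 300 / (Q:ℝ) ^ 2) ∧
          Inv F N0 ka k2 (R * Q) x' := by
  classical
  have hpi := Real.pi_gt_three
  have hpi4 : Real.pi < 3.15 := Real.pi_lt_d2
  have hpi0 := Real.pi_pos
  obtain ⟨C, hC⟩ : ∃ C : ℝ, C = 64 * (2 * Real.pi * A + 1) := ⟨_, rfl⟩
  have hC0 : 448 ≤ C := by rw [hC]; nlinarith
  have hCpos : 0 < C := by linarith
  have hCD : CD A = 400 * C := by rw [hC]; unfold CD; ring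
  refine ⟨1 / (65536 * C), by positivity, ⌈16 * A + C⌉₊, ?_, ?_⟩
  · exact Nat.ceil_pos.mpr (by linarith)
  intro k2 hk2 hk20
  have hk2small : 65536 * C * k2 ≤ 1 := by
    rw [le_div_iff₀ (by positivity)] at hk20
    linarith
  have hk2a : k2 ≤ 1 / 10000000 := by nlinarith
  have hCk : 1 ≤ C / k2 := by
    rw [le_div_iff₀ hk2]; linarith
  obtain ⟨s0, hs1, hs2⟩ := exists_nat_pow_near hCk (by norm_num : (1 : ℝ) < 2)
  obtain ⟨s, hs⟩ : ∃ s : ℕ, s = s0 + 1 := ⟨_, rfl⟩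
  have h1 : C / k2 ≤ 2 ^ s := by rw [hs]; exact hs2.le
  have h2 : (2 : ℝ) ^ s ≤ 2 * (C / k2) := by rw [hs, pow_succ]; linarith
  refine ⟨2 ^ s, ?_, ?_⟩
  · calc 2 = 2 ^ 1 := by norm_num
      _ ≤ 2 ^ s := Nat.pow_le_pow_right (by norm_num) (by omega)
  intro ga Na lo hi F F' hO ka hka hkaC N0 hNa Q hQm hQN x hsub hInv
  rw [hCD] at hkaC
  have hQr : 16 * A + C ≤ (Q : ℝ) := by
    have : ((⌈16 * A + C⌉₊ : ℕ) : ℝ) ≤ Q := by exact_mod_cast hQm
    exact (Nat.le_ceil _).trans this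
  have hQpos : 0 < (Q : ℝ) := by linarith
  have hQ1 : 1 ≤ Q := by exact_mod_cast (show (0 : ℝ) < Q from hQpos)
  obtain ⟨R, hR⟩ : ∃ R : ℝ, R = 2 ^ s := ⟨_, rfl⟩
  have hRnat : ((2 ^ s : ℕ) : ℝ) = R := by rw [hR]; push_cast; rfl
  have hR0 : 0 < R := by rw [hR]; positivity
  have hR1 : 1 ≤ R := by rw [hR]; exact one_le_pow₀ (by norm_num)
  have hRR : R ^ 2 = 4 ^ s := by
    rw [hR, ← pow_mul, mul_comm, pow_mul]; norm_num
  have hRC : R * k2 ≤ 2 * C := by
    have : 2 * (C / k2) = (2 * C) / k2 := by ring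
    rw [this, le_div_iff₀ hk2, ← hR] at h2; exact h2
  obtain ⟨c1, hc1⟩ : ∃ c1 : ℝ, c1 = k2 / 300 := ⟨_, rfl⟩
  have hc10 : 0 < c1 := by rw [hc1]; positivity
  have hRc1 : R * c1 ≤ C / 150 := by rw [hc1]; linarith
  rw [← hc1] at hsub ⊢
  have hQ2 : 0 < (Q : ℝ) ^ 2 := by positivity
  obtain ⟨ell, hell⟩ : ∃ ell : ℝ, ell = c1 / (Q : ℝ) ^ 2 := ⟨_, rfl⟩
  have hell0 : 0 < ell := by rw [hell]; positivity
  rw [← hell] at hsub ⊢
  have hInva : ∀ n, N0 ≤ n → n < Q → ∀ y ∈ Icc x (x + ell), ka / n ≤ |F n y| := by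
    rw [hell, hc1]; exact hInv.a
  have hInvb : ∀ k, 1 ≤ k → k < 512 * Q → ∀ y ∈ Icc x (x + ell),
      k2 / k ≤ |Real.sin (2 * k * y)| := by
    rw [hell, hc1]; exact hInv.b
  obtain ⟨h, hh⟩ : ∃ h : ℝ, h = c1 / (R * Q) ^ 2 := ⟨_, rfl⟩
  have hh0 : 0 < h := by rw [hh]; positivity
  have hRh : R ^ 2 * h = ell := by
    rw [hh, hell]; field_simp
  have hpiece : c1 / (((2 ^ s * Q : ℕ)) : ℝ) ^ 2 = h := by
    rw [hh, Nat.cast_mul, hRnat]
  rw [hpiece]
  -- the blocks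
  set M1 : ℕ → ℕ := fun i => 2 ^ i * (512 * Q) with hM1
  set M2 : ℕ → ℕ := fun i => 2 ^ i * Q with hM2
  have hM1pos : ∀ i, 1 ≤ M1 i := fun i => by
    rw [hM1]; exact Nat.one_le_iff_ne_zero.mpr (by positivity)
  have hM2pos : ∀ i, 1 ≤ M2 i := fun i => by
    rw [hM2]; exact Nat.one_le_iff_ne_zero.mpr (by positivity)
  have hM1r : ∀ i, ((M1 i : ℕ) : ℝ) = 2 ^ i * (512 * Q) := fun i => by
    rw [hM1]; push_cast; rfl
  have hM2r : ∀ i, ((M2 i : ℕ) : ℝ) = 2 ^ i * Q := fun i => by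
    rw [hM2]; push_cast; rfl
  have h24 : ∀ i : ℕ, ((2 : ℝ) ^ i) ^ 2 = 4 ^ i := fun i => by
    rw [← pow_mul, mul_comm, pow_mul]; norm_num
  choose Φ hΦ1 hΦ2 using fun i : ℕ => fractions (x := x) (ell := ell) (k2 := k2) hell0.le hk2
    (M := M1 i) (hM1pos i)
  -- surviving points
  set Surv : ℝ → Prop := fun y => y ∈ Icc x (x + ell) ∧
    ∀ i, i < s → ∀ f ∈ Φ i, Real.pi * k2 / (4 * ((M1 i : ℕ) : ℝ) ^ 2) < |y - f| with hSurv
  have hsurv_sin : ∀ y, Surv y → ∀ k : ℕ, 1 ≤ k → k < 512 * (2 ^ s * Q) →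
      k2 / k ≤ |Real.sin (2 * k * y)| := by
    intro y hy k hk1 hk2'
    by_cases hlt : k < 512 * Q
    · exact hInvb k hk1 hlt y hy.1
    · push Not at hlt
      obtain ⟨i, hi, h3, h4⟩ := I06_dyadic s hlt (by
        calc k < 512 * (2 ^ s * Q) := hk2'
          _ = 2 ^ s * (512 * Q) := by ring)
      by_contra hcon
      push Not at hcon
      obtain ⟨f, hf, hyf⟩ := hΦ2 i k h3 h4 y hy.1 hcon
      exact absurd (hy.2 i hi f hf) (not_lt.mpr hyf)
  -- the bad indices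
  set N : ℕ → Finset ℕ := fun i => (Finset.Ico (M2 i) (2 * M2 i)).filter
    (fun n => ∃ y, Surv y ∧ |F n y| < ka / n) with hN
  have hM2le : ∀ i, i < s → 2 * M2 i ≤ 2 ^ s * Q := by
    intro i hi
    rw [hM2]
    calc 2 * (2 ^ i * Q) = 2 ^ (i + 1) * Q := by rw [pow_succ]; ring
      _ ≤ 2 ^ s * Q := Nat.mul_le_mul_right _ (Nat.pow_le_pow_right (by norm_num) (by omega))
  have hM2geQ : ∀ i, Q ≤ M2 i := by
    intro i
    rw [hM2]
    exact Nat.le_mul_of_pos_left _ (by positivity)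
  have hbase : ∀ n : ℕ, Q ≤ n → n < 2 ^ s * Q →
      Na ≤ n ∧ 16 * A ≤ (n : ℝ) ∧ (2 * n + 1/2) * ell ≤ 1/8 ∧ (n : ℝ) * ell ≤ 1/16 := by
    intro n hn1 hn2
    have hnr : (Q : ℝ) ≤ n := by exact_mod_cast hn1
    have hn2r : (n : ℝ) ≤ R * Q := by
      have : (n : ℝ) ≤ ((2 ^ s * Q : ℕ) : ℝ) := by exact_mod_cast hn2.le
      rw [Nat.cast_mul, hRnat] at this
      exact this
    have hRQell : R * Q * ell ≤ 1 / 20 := by
      have e : R * Q * ell = R * c1 / Q := by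
        rw [hell]; field_simp
      rw [e, div_le_div_iff₀ hQpos (by norm_num)]
      linarith
    have e1 : (n : ℝ) * ell ≤ R * Q * ell := mul_le_mul_of_nonneg_right hn2r hell0.le
    have hn1' : (1 : ℝ) ≤ n := le_trans (by exact_mod_cast hQ1) hnr
    refine ⟨by omega, by linarith, ?_, by linarith⟩
    have e2 : (2 * n + 1/2) * ell ≤ (5 / 2) * (n * ell) := by nlinarith
    linarith
  have hka1 : ka ≤ 1 := by
    have : k2 ^ 2 / (400 * C) ≤ 1 := by
      rw [div_le_one (by positivity)]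
      nlinarith
    linarith
  have hkaA : ka ≤ A := by linarith
  -- count
  have hNcard : ∀ i, i < s → ((N i).card : ℝ) ≤
      (4 * Real.pi / 300) * 4 ^ i + (2 * Real.pi * A / k2 + 1) := by
    intro i hi
    rcases (N i).eq_empty_or_nonempty with he | ⟨n0, hn0⟩
    · rw [he]
      simp only [Finset.card_empty, Nat.cast_zero]
      positivity
    · rw [hN] at hn0
      obtain ⟨hn0a, ystar, hys, -⟩ := Finset.mem_filter.1 hn0
      have hMpos : (0 : ℝ) < ((M2 i : ℕ) : ℝ) := by exact_mod_cast hM2pos i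
      have hMQ : (Q : ℝ) ≤ ((M2 i : ℕ) : ℝ) := by exact_mod_cast hM2geQ i
      have hM2lt : ∀ n : ℕ, n < 2 * M2 i → n < 2 ^ s * Q := fun n hn =>
        lt_of_lt_of_le hn (hM2le i hi)
      have hMell : 2 * ((M2 i : ℕ) : ℝ) * ell ≤ 1 / 16 + 0 := by
        -- from the bound R Q ell
        have e0 : 2 * ((M2 i : ℕ) : ℝ) ≤ R * Q := by
          have h3 : ((2 * M2 i : ℕ) : ℝ) ≤ ((2 ^ s * Q : ℕ) : ℝ) := Nat.cast_le.mpr (hM2le i hi)
          have h4 : ((2 ^ s * Q : ℕ) : ℝ) = R * Q := by rw [Nat.cast_mul, hRnat]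
          have h5 : ((2 * M2 i : ℕ) : ℝ) = 2 * ((M2 i : ℕ) : ℝ) := by push_cast; rfl
          rw [h4, h5] at h3
          exact h3
        have e : R * Q * ell = R * c1 / Q := by
          rw [hell]; field_simp
        have e2 : R * c1 / Q ≤ 1 / 20 := by
          rw [div_le_div_iff₀ hQpos (by norm_num)]
          linarith
        have e3 : 2 * ((M2 i : ℕ) : ℝ) * ell ≤ R * Q * ell :=
          mul_le_mul_of_nonneg_right e0 hell0.le
        linarith
      set la : ℝ := A / ((M2 i : ℕ) : ℝ) + 2 * ((M2 i : ℕ) : ℝ) * ell with hla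
      have hAM : A / ((M2 i : ℕ) : ℝ) ≤ 1 / 16 := by
        rw [div_le_div_iff₀ hMpos (by norm_num)]
        linarith
      have hla0 : 0 ≤ la := by positivity
      have hla4 : la < 1 / 4 := by linarith
      have hrho : 0 < k2 / (Real.pi * ((M2 i : ℕ) : ℝ)) := by positivity
      have key := card_arc_le (xi := 2 * ystar / Real.pi)
        (c := (ystar / 2 - ga) / Real.pi - 1 / 2) (la := la)
        (rho := k2 / (Real.pi * ((M2 i : ℕ) : ℝ))) hrho hla0 hla4 (M := M2 i) (a := M2 i)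
        (fun D hD1 hD2 => by
          have e1 : k2 / (D : ℝ) ≤ |Real.sin (2 * D * ystar)| := by
            apply hsurv_sin ystar hys D hD1
            have := hM2le i hi
            omega
          have e2 := sin_le_pi_nn (D * (2 * ystar / Real.pi))
          have e3 : Real.pi * ((D : ℝ) * (2 * ystar / Real.pi)) = 2 * D * ystar := by
            field_simp
          rw [e3] at e2
          have hDpos : (0 : ℝ) < D := by exact_mod_cast hD1
          have hDM : (D : ℝ) ≤ ((M2 i : ℕ) : ℝ) := by exact_mod_cast hD2.le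
          have e4 : k2 / ((M2 i : ℕ) : ℝ) ≤ k2 / D := div_le_div_of_nonneg_left hk2.le hDpos hDM
          have e5 : k2 / ((M2 i : ℕ) : ℝ) ≤ Real.pi * nn (D * (2 * ystar / Real.pi)) :=
            e4.trans (e1.trans e2)
          have e6 : k2 / (Real.pi * ((M2 i : ℕ) : ℝ)) = (k2 / ((M2 i : ℕ) : ℝ)) / Real.pi := by
            rw [div_div, mul_comm]
          rw [e6, div_le_iff₀ hpi0]
          linarith)
        (N i) (fun n hn => by
          rw [hN] at hn
          have := (Finset.mem_filter.1 hn).1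
          rw [Finset.mem_Ico] at this
          omega)
        (fun n hn => by
          rw [hN] at hn
          obtain ⟨hn1, y, hy, hbad⟩ := Finset.mem_filter.1 hn
          rw [Finset.mem_Ico] at hn1
          obtain ⟨b1, b2, b3, b4⟩ := hbase n ((hM2geQ i).trans hn1.1) (hM2lt n hn1.2)
          have hnpos : (0 : ℝ) < n := by linarith
          have hph := bad_phase hO b1 hkaA (hsub hy.1) hbad
          have e : (n : ℝ) * (2 * ystar / Real.pi) + ((ystar / 2 - ga) / Real.pi - 1 / 2) =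
              (n * (2 * y / Real.pi) + ((y / 2 - ga) / Real.pi - 1/2)) +
                ((2 * n + 1 / 2) / Real.pi * (ystar - y)) := by
            field_simp; ring
          rw [e]
          refine (nn_add_le _ _).trans ?_
          have hyy : |ystar - y| ≤ ell := by
            have a1 := hys.1.1
            have a2 := hys.1.2
            have a3 := hy.1.1
            have a4 := hy.1.2
            rw [abs_le]; constructor <;> linarith
          have e2 : |(2 * (n : ℝ) + 1 / 2) / Real.pi * (ystar - y)| ≤ n * ell := by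
            rw [abs_mul, abs_of_pos (by positivity)]
            have e3 : (2 * (n : ℝ) + 1 / 2) / Real.pi ≤ n := by
              rw [div_le_iff₀ hpi0]; nlinarith
            exact mul_le_mul e3 hyy (abs_nonneg _) hnpos.le
          have hMn : ((M2 i : ℕ) : ℝ) ≤ n := by exact_mod_cast hn1.1
          have hn2M : (n : ℝ) ≤ 2 * ((M2 i : ℕ) : ℝ) := by exact_mod_cast hn1.2.le
          have e4 : A / n ≤ A / ((M2 i : ℕ) : ℝ) :=
            div_le_div_of_nonneg_left (by linarith) hMpos hMn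
          have e5 : (n : ℝ) * ell ≤ 2 * ((M2 i : ℕ) : ℝ) * ell :=
            mul_le_mul_of_nonneg_right hn2M hell0.le
          rw [hla]
          linarith)
      refine key.trans (le_of_eq ?_)
      rw [hla, hell, hc1, hM2r]
      have hQne : (Q : ℝ) ≠ 0 := hQpos.ne'
      rw [← h24 i]
      have h2i : (2 : ℝ) ^ i ≠ 0 := by positivity
      field_simp
      ring
  -- intervals of the bad indices
  have hbadint : ∀ n : ℕ, ∃ l : ℝ, Q ≤ n → n < 2 ^ s * Q →
      ∀ z ∈ Icc x (x + ell), |F n z| < ka / n → z ∈ Icc l (l + 2 * ka / (n:ℝ) ^ 2) := by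
    intro n
    by_cases hn1 : Q ≤ n
    · by_cases hn2 : n < 2 ^ s * Q
      · obtain ⟨b1, b2, b3, b4⟩ := hbase n hn1 hn2
        obtain ⟨l, hl⟩ := bad_interval hO (x := x) (y := x + ell) (by linarith) hsub b1 b2
          (by rw [add_sub_cancel_left]; exact b3) hka hkaA
        exact ⟨l, fun _ _ => hl⟩
      · exact ⟨0, fun _ h => absurd h hn2⟩
    · exact ⟨0, fun h => absurd h hn1⟩
  choose l hl using hbadint
  -- the family of intervals
  let T : Finset (Σ _ : ℕ, ℝ ⊕ ℕ) := (Finset.range s).sigma (fun i => (Φ i).disjSum (N i))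
  let lo' : (Σ _ : ℕ, ℝ ⊕ ℕ) → ℝ := fun p =>
    Sum.elim (fun f => f - Real.pi * k2 / (4 * ((M1 p.1 : ℕ) : ℝ) ^ 2)) (fun n => l n) p.2
  let len' : (Σ _ : ℕ, ℝ ⊕ ℕ) → ℝ := fun p =>
    Sum.elim (fun _ => 2 * (Real.pi * k2 / (4 * ((M1 p.1 : ℕ) : ℝ) ^ 2)))
      (fun n => 2 * ka / (n : ℝ) ^ 2) p.2
  have hlen0 : ∀ p ∈ T, 0 ≤ len' p := by
    rintro ⟨i, f | n⟩ _
    · show 0 ≤ 2 * (Real.pi * k2 / (4 * ((M1 i : ℕ) : ℝ) ^ 2))
      positivity
    · show 0 ≤ 2 * ka / (n : ℝ) ^ 2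
      positivity
  have hsum : ∑ p ∈ T, (len' p / h + 2) < ((2 ^ s * 2 ^ s : ℕ) : ℝ) := by
    have e1 : ∑ p ∈ T, (len' p / h + 2) = ∑ i ∈ Finset.range s,
        ((∑ f ∈ Φ i, (2 * (Real.pi * k2 / (4 * ((M1 i : ℕ) : ℝ) ^ 2)) / h + 2)) +
          ∑ n ∈ N i, (2 * ka / (n : ℝ) ^ 2 / h + 2)) := by
      show ∑ p ∈ (Finset.range s).sigma (fun i => (Φ i).disjSum (N i)), (len' p / h + 2) = _
      rw [Finset.sum_sigma]
      apply Finset.sum_congr rfl
      intro i _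
      rw [Finset.sum_disjSum]
      rfl
    rw [e1]
    have e2 : ∀ i ∈ Finset.range s,
        ((∑ f ∈ Φ i, (2 * (Real.pi * k2 / (4 * ((M1 i : ℕ) : ℝ) ^ 2)) / h + 2)) +
          ∑ n ∈ N i, (2 * ka / (n : ℝ) ^ 2 / h + 2)) ≤
        ((8 / Real.pi * (k2 / 300) * 512 ^ 2) * 4 ^ i + (4 * k2 + 1)) *
          ((150 * Real.pi / 512 ^ 2 * 4 ^ s) / 4 ^ i + 2) +
        ((4 * Real.pi / 300) * 4 ^ i + (2 * Real.pi * A / k2 + 1)) *
          ((600 * ka / k2 * 4 ^ s) / 4 ^ i + 2) := by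
      intro i hi
      rw [Finset.mem_range] at hi
      have h2i : (2 : ℝ) ^ i ≠ 0 := by positivity
      have hQne : (Q : ℝ) ≠ 0 := hQpos.ne'
      apply add_le_add
      · rw [Finset.sum_const, nsmul_eq_mul]
        have a1 : 2 * (Real.pi * k2 / (4 * ((M1 i : ℕ) : ℝ) ^ 2)) / h + 2 =
            (150 * Real.pi / 512 ^ 2 * 4 ^ s) / 4 ^ i + 2 := by
          rw [hh, hc1, hM1r, ← hRR, ← h24 i]
          have hRne : R ≠ 0 := hR0.ne'
          field_simp
          ring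
        have a2 : ((Φ i).card : ℝ) ≤
            (8 / Real.pi * (k2 / 300) * 512 ^ 2) * 4 ^ i + (4 * k2 + 1) := by
          refine (hΦ1 i).trans (le_of_eq ?_)
          rw [hell, hc1, hM1r, ← h24 i]
          field_simp
          ring
        rw [a1]
        exact mul_le_mul_of_nonneg_right a2 (by positivity)
      · have a1 : ∀ n ∈ N i, 2 * ka / (n : ℝ) ^ 2 / h + 2 ≤
            (600 * ka / k2 * 4 ^ s) / 4 ^ i + 2 := by
          intro n hn
          rw [hN] at hn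
          have hn1 := (Finset.mem_filter.1 hn).1
          rw [Finset.mem_Ico] at hn1
          have hMn : ((M2 i : ℕ) : ℝ) ≤ n := by exact_mod_cast hn1.1
          have hMpos : (0 : ℝ) < ((M2 i : ℕ) : ℝ) := by exact_mod_cast hM2pos i
          have b1 : 2 * ka / (n : ℝ) ^ 2 / h ≤ 2 * ka / ((M2 i : ℕ) : ℝ) ^ 2 / h := by
            apply div_le_div_of_nonneg_right _ hh0.le
            apply div_le_div_of_nonneg_left (by positivity) (by positivity)
            exact pow_le_pow_left₀ hMpos.le hMn 2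
          have b2 : 2 * ka / ((M2 i : ℕ) : ℝ) ^ 2 / h = (600 * ka / k2 * 4 ^ s) / 4 ^ i := by
            rw [hh, hc1, hM2r, ← hRR, ← h24 i]
            have hRne : R ≠ 0 := hR0.ne'
            field_simp
            norm_num
          linarith
        calc ∑ n ∈ N i, (2 * ka / (n : ℝ) ^ 2 / h + 2) ≤
            ∑ n ∈ N i, ((600 * ka / k2 * 4 ^ s) / 4 ^ i + 2) := Finset.sum_le_sum a1
          _ = ((N i).card : ℝ) * ((600 * ka / k2 * 4 ^ s) / 4 ^ i + 2) := by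
              rw [Finset.sum_const, nsmul_eq_mul]
          _ ≤ _ := mul_le_mul_of_nonneg_right (hNcard i hi) (by positivity)
    have e3 : ((2 ^ s * 2 ^ s : ℕ) : ℝ) = 4 ^ s := by
      rw [Nat.cast_mul, hRnat, ← hRR]; ring
    rw [e3]
    refine lt_of_le_of_lt (Finset.sum_le_sum e2) ?_
    rw [Finset.sum_add_distrib]
    exact I06_num hA hC hk2 hk20 h1 h2 hka hkaC
  obtain ⟨j, hj, hfree⟩ := exists_free_piece (a := x) hh0 (2 ^ s * 2 ^ s) T lo' len' hlen0 hsum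
  have hjle : ((j : ℝ) + 1) * h ≤ ell := by
    rw [← hRh]
    apply mul_le_mul_of_nonneg_right _ hh0.le
    have : ((j + 1 : ℕ) : ℝ) ≤ ((2 ^ s * 2 ^ s : ℕ) : ℝ) := by exact_mod_cast hj
    rw [Nat.cast_mul, hRnat] at this
    push_cast at this
    nlinarith
  have hj0 : 0 ≤ (j : ℝ) * h := by positivity
  have hpe : x + (j : ℝ) * h + h = x + ((j : ℝ) + 1) * h := by ring
  have hsubp : Icc (x + j * h) (x + j * h + h) ⊆ Icc x (x + ell) := by
    apply Icc_subset_Icc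
    · linarith
    · linarith
  have hpsurv : ∀ y ∈ Icc (x + j * h) (x + j * h + h), Surv y := by
    intro y hy
    refine ⟨hsubp hy, fun i hi f hf => ?_⟩
    by_contra hcon
    push Not at hcon
    have hmem : (⟨i, Sum.inl f⟩ : Σ _ : ℕ, ℝ ⊕ ℕ) ∈ T := by
      show _ ∈ (Finset.range s).sigma (fun i => (Φ i).disjSum (N i))
      rw [Finset.mem_sigma]
      exact ⟨Finset.mem_range.mpr hi, Finset.inl_mem_disjSum.mpr hf⟩
    apply hfree _ hmem
    refine ⟨y, ?_, ?_⟩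
    · rw [← hpe]; exact hy
    · show y ∈ Icc (f - Real.pi * k2 / (4 * ((M1 i : ℕ) : ℝ) ^ 2))
        (f - Real.pi * k2 / (4 * ((M1 i : ℕ) : ℝ) ^ 2) +
          2 * (Real.pi * k2 / (4 * ((M1 i : ℕ) : ℝ) ^ 2)))
      rw [abs_le] at hcon
      constructor <;> linarith [hcon.1, hcon.2]
  refine ⟨x + j * h, hsubp, ?_, ?_⟩
  · intro n hn1 hn2 y hy
    rw [← hc1, hpiece] at hy
    by_cases hnQ : n < Q
    · exact hInva n hn1 hnQ y (hsubp hy)
    · push Not at hnQ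
      obtain ⟨i, hi, h3, h4⟩ := I06_dyadic s hnQ hn2
      by_contra hcon
      push Not at hcon
      have hmemN : n ∈ N i := by
        rw [hN]
        refine Finset.mem_filter.2 ⟨?_, y, hpsurv y hy, hcon⟩
        rw [Finset.mem_Ico]
        exact ⟨h3, h4⟩
      have hmem : (⟨i, Sum.inr n⟩ : Σ _ : ℕ, ℝ ⊕ ℕ) ∈ T := by
        show _ ∈ (Finset.range s).sigma (fun i => (Φ i).disjSum (N i))
        rw [Finset.mem_sigma]
        exact ⟨Finset.mem_range.mpr hi, Finset.inr_mem_disjSum.mpr hmemN⟩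
      apply hfree _ hmem
      refine ⟨y, ?_, ?_⟩
      · rw [← hpe]; exact hy
      · exact hl n hnQ hn2 y (hsubp hy) hcon
  · intro k hk1 hk3 y hy
    rw [← hc1, hpiece] at hy
    exact hsurv_sin y (hpsurv y hy) k hk1 hk3

end FB
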