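import Pool.Agent.H48.FB.IDefs
import Pool.Agent.H48.FB.I01
import Pool.Agent.H48.FB.I02
import Pool.Agent.H48.FB.I03
import Pool.Agent.H48.FB.I04
import Pool.Agent.H48.FB.I05

/-! I07: the start of the nested interval construction. -/

open Set

namespace FB

private lemma i07_pow {q r : ℝ} (hq : 0 < q) (hr : r = q ^ ((1:ℝ)/4)) :
    0 < r ∧ r ^ 4 = q ∧ q ^ (-(5:ℝ)/2) = (r ^ 10)⁻¹ := by
  have h0 : 0 < r := by rw [hr]; exact Real.rpow_pos_of_pos hq _
  refine ⟨h0, ?_, ?_⟩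
  · rw [hr, ← Real.rpow_natCast, ← Real.rpow_mul hq.le]
    norm_num
  · rw [hr, ← Real.rpow_natCast, ← Real.rpow_mul hq.le, ← Real.rpow_neg hq.le]
    norm_num

private lemma i07_sqrt {c r : ℝ} (hc : 0 ≤ c) (hr : 0 < r) :
    Real.sqrt (c * (r ^ 10)⁻¹) = Real.sqrt c * (r ^ 5)⁻¹ := by
  rw [Real.sqrt_mul hc]
  congr 1
  rw [show (r ^ 10)⁻¹ = ((r ^ 5)⁻¹) ^ 2 by rw [← inv_pow]; ring]
  exact Real.sqrt_sq (by positivity)

/-- sum of inverse squares over a finite set of integers `≥ N` -/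
private lemma i07_sum (B : Finset ℕ) (N : ℕ) (hN : 1 ≤ N) (hB : ∀ n ∈ B, N ≤ n) :
    ∑ n ∈ B, 1 / (n:ℝ) ^ 2 ≤ 2 / (N:ℝ) := by
  have h1 : B ⊆ Finset.Ico N (N + (B.sup id + 1)) := by
    intro n hn
    rw [Finset.mem_Ico]
    refine ⟨hB n hn, ?_⟩
    have := Finset.le_sup (f := id) hn
    simp only [id] at this
    omega
  refine (Finset.sum_le_sum_of_subset_of_nonneg h1 (fun _ _ _ => by positivity)).trans ?_
  have h2 : ∀ m : ℕ, ∑ n ∈ Finset.Ico N (N + m), 1 / (n:ℝ) ^ 2 ≤ 2 / (N:ℝ) - 2 / ((N:ℝ) + m) := by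
    intro m
    have hN' : (1:ℝ) ≤ N := by exact_mod_cast hN
    induction m with
    | zero => simp
    | succ m ih =>
      rw [← add_assoc, Finset.sum_Ico_succ_top (by omega)]
      have h4 : (0:ℝ) < (N:ℝ) + m := by positivity
      have h3 : (1:ℝ) / ((N:ℝ) + m) ^ 2 ≤ 2 / ((N:ℝ) + m) - 2 / ((N:ℝ) + (m + 1)) := by
        rw [div_sub_div _ _ h4.ne' (by positivity), div_le_div_iff₀ (by positivity) (by positivity)]
        have h5 : (1:ℝ) ≤ (N:ℝ) + m := by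
          have : (0:ℝ) ≤ m := Nat.cast_nonneg _
          linarith
        nlinarith [mul_nonneg h4.le h4.le, mul_nonneg (mul_nonneg h4.le h4.le) (sub_nonneg.2 h5)]
      push_cast at ih ⊢
      linarith
  refine (h2 _).trans ?_
  have : (0:ℝ) ≤ 2 / ((N:ℝ) + (B.sup id + 1 : ℕ)) := by positivity
  linarith

private lemma le_of_mul_self_le_mul_self_aux {a b : ℝ} (hb : 0 ≤ b) (h : a * a ≤ b * b) : a ≤ b := by
  by_contra hc
  push Not at hc
  nlinarith

/-- the number of bad indices -/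
private lemma i07_count {A ga a0 r K : ℝ} {Na NK q : ℕ} {F F' : ℕ → ℝ → ℝ} {lo hi : ℝ} (hA : 1 ≤ A)
    (h : Osc A ga Na lo hi F F') (hsub : Icc (a0 + (r ^ 10)⁻¹ / 2) (a0 + (r ^ 10)⁻¹) ⊆ Icc lo hi)
    (hr : 300 ≤ r) (hrA : 8 * A ≤ r) (hq : r ^ 4 = q) (hK : 1 ≤ K) (hKr : K ≤ r)
    (hNa : Na ≤ NK) (hNK : 1 ≤ NK)
    (hrec : ∀ k : ℕ, 1 ≤ k → k < q → 1 / (2 * (q:ℝ)) ≤ nn (k * (2 * a0 / Real.pi)))
    (B : Finset ℕ) (hB : ∀ n ∈ B, n < q ∧ NK ≤ n ∧
      ∃ y ∈ Icc (a0 + (r ^ 10)⁻¹ / 2) (a0 + (r ^ 10)⁻¹), |F n y| < K * (r ^ 10)⁻¹ / n) :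
    (B.card : ℝ) ≤ (4 * A + 5) * r ^ 2 := by
  classical
  have hr0 : 0 < r := by linarith
  have hpi := Real.pi_gt_three
  set s := Nat.sqrt q with hs
  have h1 : (B.filter (fun n => n ≤ s)).card ≤ s + 1 := by
    have : B.filter (fun n => n ≤ s) ⊆ Finset.range (s + 1) := by
      intro n hn
      rw [Finset.mem_filter] at hn
      rw [Finset.mem_range]
      omega
    simpa using Finset.card_le_card this
  have hsr : (s:ℝ) ≤ r ^ 2 := by
    have h2 : s * s ≤ q := Nat.sqrt_le q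
    have h3 : (s:ℝ) * s ≤ r ^ 2 * r ^ 2 := by
      rw [show r ^ 2 * r ^ 2 = r ^ 4 by ring, hq]
      exact_mod_cast h2
    exact le_of_mul_self_le_mul_self_aux (by positivity) h3
  set u := r⁻¹ with hu
  have hu0 : 0 < u := by positivity
  have hru : r * u = 1 := mul_inv_cancel₀ hr0.ne'
  have hu1 : u ≤ 1 / 300 := by
    rw [hu, one_div]
    exact inv_anti₀ (by norm_num) hr
  have hde : (r ^ 10)⁻¹ = u ^ 10 := by rw [hu, inv_pow]
  have hqu : (q:ℝ) * u ^ 4 = 1 := by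
    rw [← hq, ← mul_pow, hru, one_pow]
  have hq0 : (0:ℝ) < q := by rw [← hq]; positivity
  have hAu : A * u ≤ 1 / 8 := by
    have : 8 * A * u ≤ r * u := by nlinarith
    rw [hru] at this
    linarith
  have hu2 : u ^ 2 ≤ 1 / 90000 := by nlinarith
  have hu6 : u ^ 6 ≤ 1 / 90000 := by
    have : u ^ 6 = u ^ 2 * (u ^ 2) ^ 2 := by ring
    rw [this]
    have h5 : (u ^ 2) ^ 2 ≤ 1 := by
      have : (0:ℝ) ≤ u ^ 2 := by positivity
      nlinarith
    have : (0:ℝ) ≤ u ^ 2 := by positivity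
    nlinarith
  have h2 : ((B.filter (fun n => ¬ n ≤ s)).card : ℝ) ≤
      2 * (A * u ^ 2 + u ^ 6) / (1 / (2 * (q:ℝ))) + 1 := by
    refine card_arc_le (xi := 2 * a0 / Real.pi) (c := (a0 / 2 - ga) / Real.pi - 1 / 2)
      (by positivity) (by positivity) ?_ (M := q) (a := 0) hrec _ ?_ ?_
    · nlinarith
    · intro n hn
      rw [Finset.mem_filter] at hn
      have := (hB n hn.1).1
      omega
    · intro n hn
      rw [Finset.mem_filter] at hn
      obtain ⟨hnq, hnN, y, hy, hb⟩ := hB n hn.1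
      have hn1 : 1 ≤ n := hNK.trans hnN
      have hn1' : (1:ℝ) ≤ n := by exact_mod_cast hn1
      have hkA : K * (r ^ 10)⁻¹ ≤ A := by
        rw [hde]
        have h5 : K * u ≤ 1 := by
          have : K * u ≤ r * u := by nlinarith
          rwa [hru] at this
        have h6 : K * u ^ 10 = (K * u) * u ^ 9 := by ring
        have h7 : u ^ 9 ≤ 1 := pow_le_one₀ hu0.le (by linarith)
        have h8 : 0 ≤ u ^ 9 := by positivity
        rw [h6]
        nlinarith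
      have h3 := bad_phase h (hNa.trans hnN) hkA (hsub hy) hb
      have h4 : (n:ℝ) * (2 * a0 / Real.pi) + ((a0 / 2 - ga) / Real.pi - 1 / 2) =
          (n * (2 * y / Real.pi) + ((y / 2 - ga) / Real.pi - 1/2)) +
            (-((2 * n + 1 / 2) * (y - a0) / Real.pi)) := by
        field_simp
        ring
      rw [h4]
      refine (nn_add_le _ _).trans ?_
      have h5 : |-((2 * (n:ℝ) + 1 / 2) * (y - a0) / Real.pi)| ≤ u ^ 6 := by
        rw [hde] at hy
        have hy1 : 0 ≤ y - a0 := by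
          have : (0:ℝ) ≤ u ^ 10 := by positivity
          linarith [hy.1]
        rw [abs_neg, abs_of_nonneg (by positivity), div_le_iff₀ (by positivity)]
        have h6 : 2 * (n:ℝ) + 1 / 2 ≤ Real.pi * q := by
          have : (n:ℝ) ≤ q := by exact_mod_cast hnq.le
          nlinarith
        calc (2 * (n:ℝ) + 1 / 2) * (y - a0) ≤ (Real.pi * q) * u ^ 10 := by
              refine mul_le_mul h6 (by linarith [hy.2]) hy1 (by positivity)
          _ = (q * u ^ 4) * u ^ 6 * Real.pi := by ring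
          _ = u ^ 6 * Real.pi := by rw [hqu, one_mul]
      have h6 : A / n ≤ A * u ^ 2 := by
        rw [div_le_iff₀ (by linarith)]
        have h7 : r ^ 2 ≤ n := by
          have h8 : q < (s + 1) * (s + 1) := Nat.lt_succ_sqrt q
          have h9 : s + 1 ≤ n := by omega
          have h10 : q ≤ n * n := by nlinarith
          have h11 : r ^ 2 * r ^ 2 ≤ (n:ℝ) * n := by
            rw [show r ^ 2 * r ^ 2 = r ^ 4 by ring, hq]
            exact_mod_cast h10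
          exact le_of_mul_self_le_mul_self_aux (by positivity) h11
        have h8 : (r * u) ^ 2 = 1 := by rw [hru, one_pow]
        calc A = A * (r * u) ^ 2 := by rw [h8, mul_one]
          _ = A * u ^ 2 * r ^ 2 := by ring
          _ ≤ A * u ^ 2 * n := by
            refine mul_le_mul_of_nonneg_left h7 (by positivity)
      linarith
  have h3 : B.card = (B.filter (fun n => n ≤ s)).card + (B.filter (fun n => ¬ n ≤ s)).card := by
    rw [← Finset.card_filter_add_card_filter_not (fun n => n ≤ s)]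
  have h4 : 2 * (A * u ^ 2 + u ^ 6) / (1 / (2 * (q:ℝ))) = 4 * A * r ^ 2 + 4 * u ^ 2 := by
    rw [← hq]
    have : u = 1 / r := by rw [hu, one_div]
    rw [this]
    field_simp
    norm_num
  rw [h4] at h2
  rw [h3]
  push_cast
  have h5 : (((B.filter (fun n => n ≤ s)).card : ℕ) : ℝ) ≤ s + 1 := by exact_mod_cast h1
  nlinarith

private lemma i07_dyadic {q k : ℕ} (h1 : q ≤ k) (h2 : k < 512 * q) :
    ∃ i < 9, 2 ^ i * q ≤ k ∧ k < 2 * (2 ^ i * q) := by
  by_contra hc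
  push Not at hc
  have h3 : ∀ i ≤ 9, 2 ^ i * q ≤ k := by
    intro i
    induction i with
    | zero => intro _; simpa using h1
    | succ i ih =>
      intro hi
      have := hc i (by omega) (ih (by omega))
      rw [pow_succ]
      linarith
  have := h3 9 le_rfl
  norm_num at this
  omega

/-- the core of the start -/
private lemma i07_core {A ga a0 r K E et0 : ℝ} {Na NK q : ℕ} {F F' : ℕ → ℝ → ℝ} (hA : 1 ≤ A)
    (h : Osc A ga Na (a0 - et0) (a0 + et0) F F') (het0 : 0 < et0)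
    (hr : 300 ≤ r) (hrA : 8 * A ≤ r) (hq : r ^ 4 = q) (hK : 1 ≤ K) (hKr : K ≤ r)
    (hE : 0 < E) (hEr : 2 * E ≤ r) (hetr : 1 / et0 ≤ r) (hCr : (4 * A + 5) * E ≤ r)
    (hNa : Na ≤ NK) (hNK : 1 ≤ NK) (hNK1 : 64 * K ≤ NK) (hNK2 : 16 * A ≤ NK)
    (hrec : ∀ k : ℕ, 1 ≤ k → k < q → 1 / (2 * (q:ℝ)) ≤ nn (k * (2 * a0 / Real.pi))) :
    ∃ x : ℝ, Icc x (x + E * (r ^ 5)⁻¹ / 300 / (q:ℝ) ^ 2) ⊆
          Icc (a0 + (r ^ 10)⁻¹ / 2) (a0 + (r ^ 10)⁻¹) ∧
        Inv F NK (K * (r ^ 10)⁻¹) (E * (r ^ 5)⁻¹) q x := by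
  classical
  have hr0 : 0 < r := by linarith
  have hpi := Real.pi_gt_three
  have hpi4 := Real.pi_lt_d2
  set u := r⁻¹ with hu
  have hu0 : 0 < u := by positivity
  have hru : r * u = 1 := mul_inv_cancel₀ hr0.ne'
  have hu1 : u ≤ 1 / 300 := by
    rw [hu, one_div]
    exact inv_anti₀ (by norm_num) hr
  have hde : (r ^ 10)⁻¹ = u ^ 10 := by rw [hu, inv_pow]
  have hde5 : (r ^ 5)⁻¹ = u ^ 5 := by rw [hu, inv_pow]
  have hqu : (q:ℝ) * u ^ 4 = 1 := by
    rw [← hq, ← mul_pow, hru, one_pow]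
  have hq0 : (0:ℝ) < q := by rw [← hq]; positivity
  have hq1 : 1 ≤ q := by
    have : 0 < q := by exact_mod_cast hq0
    omega
  have hqq : (q:ℝ) = 1 / u ^ 4 := by
    rw [eq_div_iff (by positivity), hqu]
  have hu2 : u ^ 2 ≤ 1 / 90000 := by nlinarith
  have hEu : E * u ≤ 1 / 2 := by
    have : 2 * E * u ≤ r * u := by nlinarith
    rw [hru] at this
    linarith
  have hKu : K * u ≤ 1 := by
    have : K * u ≤ r * u := by nlinarith
    rwa [hru] at this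
  have hCu : (4 * A + 5) * E * u ≤ 1 := by
    have : (4 * A + 5) * E * u ≤ r * u := by nlinarith
    rwa [hru] at this
  have huet : u ≤ et0 := by
    have h1 : 1 ≤ r * et0 := by rwa [div_le_iff₀ het0] at hetr
    have h2 : u * 1 ≤ u * (r * et0) := mul_le_mul_of_nonneg_left h1 hu0.le
    rw [mul_one, ← mul_assoc, mul_comm u r, hru, one_mul] at h2
    exact h2
  have hupow : ∀ k : ℕ, u ^ (k + 1) ≤ u := by
    intro k
    rw [pow_succ]
    have h7 : u ^ k ≤ 1 := pow_le_one₀ hu0.le (by linarith)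
    nlinarith [pow_nonneg hu0.le k]
  have hde0 : 0 < (r ^ 10)⁻¹ := by positivity
  have hsub : Icc (a0 + (r ^ 10)⁻¹ / 2) (a0 + (r ^ 10)⁻¹) ⊆ Icc (a0 - et0) (a0 + et0) := by
    refine Icc_subset_Icc (by linarith) ?_
    rw [hde]
    have h1 : u ^ 10 ≤ u := hupow 9
    linarith
  have hCr2 : (4 * A + 5) * r ^ 2 ≥ 9 * 90000 := by nlinarith
  -- bad indices
  set B := (Finset.range q).filter (fun n => NK ≤ n ∧
      ∃ y ∈ Icc (a0 + (r ^ 10)⁻¹ / 2) (a0 + (r ^ 10)⁻¹), |F n y| < K * (r ^ 10)⁻¹ / n) with hBdef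
  have hB : ∀ n ∈ B, n < q ∧ NK ≤ n ∧
      ∃ y ∈ Icc (a0 + (r ^ 10)⁻¹ / 2) (a0 + (r ^ 10)⁻¹), |F n y| < K * (r ^ 10)⁻¹ / n := by
    intro n hn
    rw [hBdef, Finset.mem_filter, Finset.mem_range] at hn
    exact ⟨hn.1, hn.2.1, hn.2.2⟩
  have hBc := i07_count hA h hsub hr hrA hq hK hKr hNa hNK hrec B hB
  have hkA : K * (r ^ 10)⁻¹ ≤ A := by
    rw [hde]
    have h6 : K * u ^ 10 = (K * u) * u ^ 9 := by ring
    have h7 : u ^ 9 ≤ 1 := pow_le_one₀ hu0.le (by linarith)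
    have h8 : 0 ≤ u ^ 9 := by positivity
    rw [h6]
    calc K * u * u ^ 9 ≤ 1 * 1 := mul_le_mul hKu h7 h8 zero_le_one
      _ ≤ A := by linarith
  have hbad : ∀ n : ℕ, ∃ l : ℝ, NK ≤ n → n < q →
      ∀ z ∈ Icc (a0 + (r ^ 10)⁻¹ / 2) (a0 + (r ^ 10)⁻¹), |F n z| < K * (r ^ 10)⁻¹ / n →
        z ∈ Icc l (l + 2 * (K * (r ^ 10)⁻¹) / (n:ℝ) ^ 2) := by
    intro n
    by_cases hn : NK ≤ n ∧ n < q
    · have hnR : (NK:ℝ) ≤ n := by exact_mod_cast hn.1
      have hnq : (n:ℝ) ≤ q := by exact_mod_cast hn.2.le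
      obtain ⟨l, hl⟩ := bad_interval h (x := a0 + (r ^ 10)⁻¹ / 2) (y := a0 + (r ^ 10)⁻¹) (by linarith)
        hsub (hNa.trans hn.1) (by linarith) (by
          have h1 : a0 + (r ^ 10)⁻¹ - (a0 + (r ^ 10)⁻¹ / 2) = u ^ 10 / 2 := by rw [hde]; ring
          rw [h1]
          have h2 : 2 * (n:ℝ) + 1 / 2 ≤ 3 * q := by
            have : (1:ℝ) ≤ q := by exact_mod_cast hq1
            linarith
          calc (2 * (n:ℝ) + 1 / 2) * (u ^ 10 / 2) ≤ (3 * q) * (u ^ 10 / 2) := by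
                exact mul_le_mul_of_nonneg_right h2 (by positivity)
            _ = (q * u ^ 4) * (3 / 2 * u ^ 6) := by ring
            _ = 3 / 2 * u ^ 6 := by rw [hqu, one_mul]
            _ ≤ 3 / 2 * u := by
              have h1 : u ^ 6 ≤ u := hupow 5
              linarith
            _ ≤ 1 / 8 := by linarith) (by positivity) hkA
      exact ⟨l, fun _ _ => hl⟩
    · exact ⟨0, fun h1 h2 => absurd ⟨h1, h2⟩ hn⟩
  choose lb hlb using hbad
  -- fractions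
  have hfr : ∀ i : ℕ, ∃ Φ : Finset ℝ, i < 9 → Φ.card ≤ 3 ∧
      ∀ k : ℕ, 2 ^ i * q ≤ k → k < 2 * (2 ^ i * q) →
        ∀ y ∈ Icc (a0 + (r ^ 10)⁻¹ / 2) (a0 + (r ^ 10)⁻¹),
        |Real.sin (2 * k * y)| < E * (r ^ 5)⁻¹ / k →
        ∃ f ∈ Φ, |y - f| ≤ Real.pi * (E * (r ^ 5)⁻¹) / (4 * (q:ℝ) ^ 2) := by
    intro i
    obtain ⟨Φ, hΦ1, hΦ2⟩ := fractions (x := a0 + (r ^ 10)⁻¹ / 2) (ell := (r ^ 10)⁻¹ / 2)
      (k2 := E * (r ^ 5)⁻¹) (by positivity) (by positivity) (M := 2 ^ i * q)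
      (Nat.one_le_iff_ne_zero.2 (by positivity))
    refine ⟨Φ, fun hi => ⟨?_, ?_⟩⟩
    · have h1 : ((2:ℝ) ^ i) ≤ 256 := by
        have : (2:ℝ) ^ i ≤ 2 ^ 8 := pow_le_pow_right₀ (by norm_num) (by omega)
        linarith
      have h1' : (0:ℝ) < 2 ^ i := by positivity
      have hM : ((2 ^ i * q : ℕ) : ℝ) = 2 ^ i * q := by push_cast; ring
      rw [hM] at hΦ1
      have h2 : ((r ^ 10)⁻¹ / 2 + Real.pi * (E * (r ^ 5)⁻¹) / (2 * (2 ^ i * (q:ℝ)) ^ 2)) *
          (8 * (2 ^ i * (q:ℝ)) ^ 2) / Real.pi + 1 =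
          4 * (2 ^ i) ^ 2 * ((q:ℝ) ^ 2 * (r ^ 10)⁻¹) / Real.pi + 4 * (E * (r ^ 5)⁻¹) + 1 := by
        field_simp
        ring
      rw [h2] at hΦ1
      have h3 : (q:ℝ) ^ 2 * (r ^ 10)⁻¹ = u ^ 2 := by
        rw [hde]
        calc (q:ℝ) ^ 2 * u ^ 10 = (q * u ^ 4) ^ 2 * u ^ 2 := by ring
          _ = u ^ 2 := by rw [hqu]; ring
      rw [h3, hde5] at hΦ1
      have h4 : 4 * ((2:ℝ) ^ i) ^ 2 * u ^ 2 / Real.pi ≤ 0.98 := by
        rw [div_le_iff₀ (by positivity)]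
        have h5 : ((2:ℝ) ^ i) ^ 2 ≤ 65536 := by nlinarith
        have h6 : (0:ℝ) ≤ u ^ 2 := by positivity
        have h7 : ((2:ℝ) ^ i) ^ 2 * u ^ 2 ≤ 65536 * (1 / 90000) :=
          mul_le_mul h5 hu2 h6 (by norm_num)
        have h8 := Real.pi_gt_d2
        linarith
      have h5 : 4 * (E * u ^ 5) ≤ 0.02 := by
        have : 4 * (E * u ^ 5) = 4 * (E * u) * u ^ 4 := by ring
        rw [this]
        have h7 : u ^ 4 ≤ u := hupow 3
        have h8 : 0 ≤ u ^ 4 := by positivity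
        nlinarith
      have h6 : (Φ.card : ℝ) < 4 := by linarith
      have h7 : Φ.card < 4 := by exact_mod_cast h6
      omega
    · intro k hk1 hk2 y hy hs
      obtain ⟨f, hf, hf2⟩ := hΦ2 k hk1 hk2 y (by
        refine ⟨hy.1, hy.2.trans (le_of_eq (by ring))⟩) hs
      refine ⟨f, hf, hf2.trans ?_⟩
      have h1 : (q:ℝ) ≤ ((2 ^ i * q : ℕ) : ℝ) := by
        exact_mod_cast Nat.le_mul_of_pos_left q (by positivity)
      exact div_le_div_of_nonneg_left (by positivity) (by positivity)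
        (mul_le_mul_of_nonneg_left (pow_le_pow_left₀ hq0.le h1 2) (by norm_num))
  choose Φ hΦ using hfr
  set Φt := (Finset.range 9).biUnion Φ with hΦt
  have hΦc : Φt.card ≤ 27 := by
    refine Finset.card_biUnion_le.trans ?_
    refine (Finset.sum_le_card_nsmul _ _ 3 ?_).trans (by simp)
    intro i hi
    exact ((hΦ i) (Finset.mem_range.1 hi)).1
  -- pieces
  set S := ⌈16 * ((4 * A + 5) * r ^ 2)⌉₊ with hS
  have hS1 : 16 * ((4 * A + 5) * r ^ 2) ≤ S := Nat.le_ceil _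
  have hS2 : (S:ℝ) ≤ 17 * ((4 * A + 5) * r ^ 2) := by
    have := Nat.ceil_lt_add_one (a := 16 * ((4 * A + 5) * r ^ 2)) (by positivity)
    rw [← hS] at this
    linarith
  have hS0 : (0:ℝ) < S := by linarith
  set hh := (r ^ 10)⁻¹ / (2 * S) with hhh
  have hh0 : 0 < hh := by positivity
  have hSh : (S:ℝ) * hh = (r ^ 10)⁻¹ / 2 := by rw [hhh]; field_simp
  have hNKR : (1:ℝ) ≤ NK := by exact_mod_cast hNK
  obtain ⟨j, hjS, hj⟩ := exists_free_piece (a := a0 + (r ^ 10)⁻¹ / 2) hh0 S (B.disjSum Φt)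
    (Sum.elim lb (fun f => f - Real.pi * (E * (r ^ 5)⁻¹) / (4 * (q:ℝ) ^ 2)))
    (Sum.elim (fun n => 2 * (K * (r ^ 10)⁻¹) / (n:ℝ) ^ 2)
      (fun _ => Real.pi * (E * (r ^ 5)⁻¹) / (2 * (q:ℝ) ^ 2)))
    (by
      intro i _
      rcases i with n | f
      · simp only [Sum.elim_inl]; positivity
      · simp only [Sum.elim_inr]; positivity)
    (by
      rw [Finset.sum_disjSum]
      simp only [Sum.elim_inl, Sum.elim_inr, Finset.sum_add_distrib, Finset.sum_const, nsmul_eq_mul]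
      have h1 : ∑ n ∈ B, 2 * (K * (r ^ 10)⁻¹) / (n:ℝ) ^ 2 / hh = 4 * K * S * ∑ n ∈ B, 1 / (n:ℝ) ^ 2 := by
        rw [Finset.mul_sum]
        refine Finset.sum_congr rfl ?_
        intro n hn
        have hn1 : (0:ℝ) < n := by
          have := (hB n hn).2.1
          have : 0 < n := by omega
          exact_mod_cast this
        rw [hhh]
        field_simp
        norm_num
      have h2 : 4 * K * S * ∑ n ∈ B, 1 / (n:ℝ) ^ 2 ≤ S / 8 := by
        have h3 := i07_sum B NK hNK (fun n hn => (hB n hn).2.1)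
        have h4 : 4 * K * S * ∑ n ∈ B, 1 / (n:ℝ) ^ 2 ≤ 4 * K * S * (2 / (NK:ℝ)) :=
          mul_le_mul_of_nonneg_left h3 (by positivity)
        refine h4.trans ?_
        rw [mul_div_assoc', div_le_div_iff₀ (by linarith) (by norm_num)]
        nlinarith
      have h5 : Real.pi * (E * (r ^ 5)⁻¹) / (2 * (q:ℝ) ^ 2) / hh = Real.pi * (E * u) * u ^ 2 * S := by
        rw [hhh, ← hq, hu]
        field_simp
      have h6 : (Φt.card : ℝ) ≤ 27 := by exact_mod_cast hΦc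
      have h7 : (0:ℝ) ≤ Φt.card := Nat.cast_nonneg _
      rw [h1, h5]
      have h8 : Real.pi * (E * u) * u ^ 2 * S ≤ 1 / 50000 * S := by
        refine mul_le_mul_of_nonneg_right ?_ hS0.le
        calc Real.pi * (E * u) * u ^ 2 ≤ 3.15 * (1 / 2) * (1 / 90000) := by
              refine mul_le_mul (mul_le_mul hpi4.le hEu (by positivity) (by norm_num)) hu2
                (by positivity) (by norm_num)
          _ ≤ 1 / 50000 := by norm_num
      have h8' : 0 ≤ Real.pi * (E * u) * u ^ 2 * S := by positivity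
      have h9 : (Φt.card : ℝ) * (Real.pi * (E * u) * u ^ 2 * S) ≤ 27 * (1 / 50000 * S) :=
        mul_le_mul h6 h8 h8' (by norm_num)
      have h10 : (B.card : ℝ) * 2 ≤ S / 8 := by linarith
      have h11 : (Φt.card : ℝ) * 2 ≤ S / 8 := by linarith
      linarith)
  have hjR : (j:ℝ) + 1 ≤ S := by exact_mod_cast hjS
  have hj0 : (0:ℝ) ≤ j := Nat.cast_nonneg _
  have hlenle : E * (r ^ 5)⁻¹ / 300 / (q:ℝ) ^ 2 ≤ hh := by
    have h1 : E * (r ^ 5)⁻¹ / 300 / (q:ℝ) ^ 2 = E * u * u ^ 12 / 300 := by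
      rw [← hq, hu]
      field_simp
    have h2 : u ^ 12 / (34 * (4 * A + 5)) ≤ hh := by
      have h3 : u ^ 12 / (34 * (4 * A + 5)) = (r ^ 10)⁻¹ / (2 * (17 * ((4 * A + 5) * r ^ 2))) := by
        rw [hu]
        field_simp
        norm_num
      rw [h3, hhh]
      exact div_le_div_of_nonneg_left hde0.le (by positivity) (by linarith)
    rw [h1]
    refine le_trans ?_ h2
    rw [div_le_div_iff₀ (by norm_num) (by positivity)]
    have h4 : 0 < u ^ 12 := by positivity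
    calc E * u * u ^ 12 * (34 * (4 * A + 5)) = u ^ 12 * (34 * ((4 * A + 5) * E * u)) := by ring
      _ ≤ u ^ 12 * 300 := mul_le_mul_of_nonneg_left (by linarith) h4.le
  have hpiece : Icc (a0 + (r ^ 10)⁻¹ / 2 + j * hh)
      (a0 + (r ^ 10)⁻¹ / 2 + j * hh + E * (r ^ 5)⁻¹ / 300 / (q:ℝ) ^ 2) ⊆
      Icc (a0 + (r ^ 10)⁻¹ / 2 + j * hh) (a0 + (r ^ 10)⁻¹ / 2 + (j + 1) * hh) :=
    Icc_subset_Icc le_rfl (by linarith)
  have hpiece2 : Icc (a0 + (r ^ 10)⁻¹ / 2 + j * hh) (a0 + (r ^ 10)⁻¹ / 2 + (j + 1) * hh) ⊆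
      Icc (a0 + (r ^ 10)⁻¹ / 2) (a0 + (r ^ 10)⁻¹) := by
    refine Icc_subset_Icc (by nlinarith) ?_
    have h1 : ((j:ℝ) + 1) * hh ≤ S * hh := mul_le_mul_of_nonneg_right hjR hh0.le
    rw [hSh] at h1
    linarith
  refine ⟨a0 + (r ^ 10)⁻¹ / 2 + j * hh, hpiece.trans hpiece2, ⟨?_, ?_⟩⟩
  · intro n hn1 hn2 y hy
    by_contra hc
    push Not at hc
    have hy2 := hpiece2 (hpiece hy)
    have hnB : n ∈ B := by
      rw [hBdef, Finset.mem_filter, Finset.mem_range]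
      exact ⟨hn2, hn1, y, hy2, hc⟩
    refine hj (Sum.inl n) (Finset.inl_mem_disjSum.2 hnB) ⟨y, hpiece hy, ?_⟩
    simp only [Sum.elim_inl]
    exact hlb n hn1 hn2 y hy2 hc
  · intro k hk1 hk2 y hy
    have hy2 := hpiece2 (hpiece hy)
    rcases lt_or_ge k q with hkq | hkq
    · have hk0 : (1:ℝ) ≤ k := by exact_mod_cast hk1
      have hkqR : (k:ℝ) ≤ q := by exact_mod_cast hkq.le
      have h1 := two_nn_le_sin (k * (2 * y / Real.pi))
      have h2 : Real.pi * (k * (2 * y / Real.pi)) = 2 * k * y := by field_simp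
      rw [h2] at h1
      have h3 : nn (k * (2 * a0 / Real.pi)) ≤ nn (k * (2 * y / Real.pi)) + u ^ 6 := by
        have h4 : (k:ℝ) * (2 * a0 / Real.pi) = k * (2 * y / Real.pi) + (-(2 * k * (y - a0) / Real.pi)) := by
          field_simp
          ring
        rw [h4]
        refine (nn_add_le _ _).trans ?_
        have h5 : |-(2 * (k:ℝ) * (y - a0) / Real.pi)| ≤ u ^ 6 := by
          rw [hde] at hy2
          have hy1 : 0 ≤ y - a0 := by
            have : (0:ℝ) ≤ u ^ 10 := by positivity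
            linarith [hy2.1]
          rw [abs_neg, abs_of_nonneg (by positivity), div_le_iff₀ (by positivity)]
          calc 2 * (k:ℝ) * (y - a0) ≤ (Real.pi * q) * u ^ 10 := by
                refine mul_le_mul (by nlinarith) (by linarith [hy2.2]) hy1 (by positivity)
            _ = (q * u ^ 4) * u ^ 6 * Real.pi := by ring
            _ = u ^ 6 * Real.pi := by rw [hqu, one_mul]
        linarith
      have h4 := hrec k hk1 hkq
      have h5 : 1 / (2 * (q:ℝ)) = u ^ 4 / 2 := by rw [hqq]; field_simp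
      rw [h5] at h4
      have h6 : E * (r ^ 5)⁻¹ / k ≤ u ^ 4 / 2 := by
        rw [hde5]
        calc E * u ^ 5 / k ≤ E * u ^ 5 := div_le_self (by positivity) hk0
          _ = (E * u) * u ^ 4 := by ring
          _ ≤ 1 / 2 * u ^ 4 := mul_le_mul_of_nonneg_right hEu (by positivity)
          _ = u ^ 4 / 2 := by ring
      have h7 : u ^ 6 ≤ u ^ 4 / 4 := by
        have h8 : u ^ 6 = u ^ 2 * u ^ 4 := by ring
        rw [h8]
        have h9 : (0:ℝ) ≤ u ^ 4 := by positivity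
        nlinarith
      linarith
    · by_contra hc
      push Not at hc
      obtain ⟨i, hi, h1, h2⟩ := i07_dyadic hkq hk2
      obtain ⟨f, hf, hf2⟩ := ((hΦ i) hi).2 k h1 h2 y hy2 hc
      have hft : f ∈ Φt := Finset.mem_biUnion.2 ⟨i, Finset.mem_range.2 hi, hf⟩
      refine hj (Sum.inr f) (Finset.inr_mem_disjSum.2 hft) ⟨y, hpiece hy, ?_⟩
      simp only [Sum.elim_inr]
      rw [abs_le] at hf2
      have h3 : Real.pi * (E * (r ^ 5)⁻¹) / (2 * (q:ℝ) ^ 2) =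
          Real.pi * (E * (r ^ 5)⁻¹) / (4 * (q:ℝ) ^ 2) + Real.pi * (E * (r ^ 5)⁻¹) / (4 * (q:ℝ) ^ 2) := by
        field_simp
        norm_num
      constructor
      · linarith [hf2.1]
      · rw [h3]; linarith [hf2.2]

/-- Start. `q` is a record denominator for `xi0 = 2 a0/pi` (I01), large; `de = q^(-5/2)`, `ka = K de`, `k2 = sqrt (CD A * ka)`.
`I0 = [a0 + de/2, a0 + de]`. -/
theorem start (A : ℝ) (hA : 1 ≤ A) (ga : ℝ) (Na : ℕ) (F F' : ℕ → ℝ → ℝ) (a0 et0 : ℝ) (het0 : 0 < et0)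
    (h : Osc A ga Na (a0 - et0) (a0 + et0) F F') (hirr : ∀ k : ℕ, 1 ≤ k → Real.sin (2 * k * a0) ≠ 0)
    (K : ℝ) (hK : 1 ≤ K) : ∃ NK : ℕ, Na ≤ NK ∧ ∀ (q0 : ℕ), ∃ q : ℕ, q0 ≤ q ∧ NK ≤ q ∧ 2 ≤ q ∧
      ∃ x : ℝ, Icc x (x + Real.sqrt (CD A * (K * (q:ℝ) ^ (-(5:ℝ)/2))) / 300 / (q:ℝ) ^ 2) ⊆
          Icc (a0 + (q:ℝ) ^ (-(5:ℝ)/2) / 2) (a0 + (q:ℝ) ^ (-(5:ℝ)/2)) ∧
        Inv F NK (K * (q:ℝ) ^ (-(5:ℝ)/2)) (Real.sqrt (CD A * (K * (q:ℝ) ^ (-(5:ℝ)/2)))) q x := by
  have hirr' : ∀ k : ℕ, 1 ≤ k → nn (k * (2 * a0 / Real.pi)) ≠ 0 := by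
    intro k hk h0
    have h1 := sin_le_pi_nn (k * (2 * a0 / Real.pi))
    rw [h0, mul_zero] at h1
    have h2 : Real.pi * (k * (2 * a0 / Real.pi)) = 2 * k * a0 := by field_simp
    rw [h2] at h1
    exact hirr k hk (abs_nonpos_iff.1 h1)
  have hCD : 0 < CD A * K := by
    have : 0 < CD A := by unfold CD; positivity
    positivity
  set E := Real.sqrt (CD A * K) with hE
  have hE0 : 0 < E := Real.sqrt_pos.2 hCD
  set R0 := 300 + 2 * E + 8 * A + K + 1 / et0 + (4 * A + 5) * E with hR0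
  have het1 : 0 < 1 / et0 := by positivity
  have hCE : 0 < (4 * A + 5) * E := by positivity
  have hR0p : 0 < R0 := by positivity
  set NK := max Na (max (⌈64 * K⌉₊) (⌈16 * A⌉₊)) with hNK
  have hNa : Na ≤ NK := le_max_left _ _
  have h64 : 64 * K ≤ NK := (Nat.le_ceil _).trans
    (by exact_mod_cast (le_max_left _ _).trans (le_max_right Na (max (⌈64 * K⌉₊) (⌈16 * A⌉₊))))
  have h16 : 16 * A ≤ NK := (Nat.le_ceil _).trans
    (by exact_mod_cast (le_max_right _ _).trans (le_max_right Na (max (⌈64 * K⌉₊) (⌈16 * A⌉₊))))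
  refine ⟨NK, hNa, ?_⟩
  intro q0
  obtain ⟨q, hqQ, hq2, hrec⟩ := exists_record hirr' (max q0 (max NK (⌈R0 ^ 4⌉₊)))
  have hq0 : q0 ≤ q := (le_max_left _ _).trans hqQ
  have hqNK : NK ≤ q := ((le_max_left _ _).trans (le_max_right _ _)).trans hqQ
  have hqR : R0 ^ 4 ≤ q := (Nat.le_ceil _).trans
    (by exact_mod_cast ((le_max_right _ _).trans (le_max_right _ _)).trans hqQ)
  refine ⟨q, hq0, hqNK, hq2, ?_⟩
  have hqp : (0:ℝ) < q := by
    have : 0 < q := by omega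
    exact_mod_cast this
  obtain ⟨hr0, hr4, hde⟩ := i07_pow hqp rfl
  set r : ℝ := (q:ℝ) ^ ((1:ℝ)/4) with hr
  have hRr : R0 ≤ r := by
    by_contra hc
    push Not at hc
    have := pow_lt_pow_left₀ hc hr0.le (n := 4) (by norm_num)
    linarith
  have hs : Real.sqrt (CD A * (K * (r ^ 10)⁻¹)) = E * (r ^ 5)⁻¹ := by
    rw [← mul_assoc, i07_sqrt hCD.le hr0]
  rw [hde, hs]
  exact i07_core hA h het0 (by linarith) (by linarith) hr4 hK (by linarith) hE0 (by linarith)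
    (by linarith) (by linarith) hNa (by
      have : (1:ℝ) ≤ NK := by linarith
      exact_mod_cast this) h64 h16 hrec

end FB
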