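import Pool.Agent.H48.FB.IDefs
import Pool.Agent.H48.FB.I06
import Pool.Agent.H48.FB.I07

/-! I08: the diophantine lemma. -/

open Set

namespace FB

/-- iteration of a step on nested intervals -/
theorem dio_iter (F : ℕ → ℝ → ℝ) (NK : ℕ) (ka k2 : ℝ) (hk2 : 0 < k2) (R q : ℕ) (hR : 2 ≤ R) (hq : 2 ≤ q) (lo hi : ℝ)
    (hst : ∀ Q : ℕ, q ≤ Q → ∀ x : ℝ, Icc x (x + k2 / 300 / (Q:ℝ) ^ 2) ⊆ Icc lo hi → Inv F NK ka k2 Q x →
        ∃ x' : ℝ, Icc x' (x' + k2 / 300 / ((R * Q : ℕ):ℝ) ^ 2) ⊆ Icc x (x + k2 / 300 / (Q:ℝ) ^ 2) ∧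
          Inv F NK ka k2 (R * Q) x')
    (x0 : ℝ) (hx0 : Icc x0 (x0 + k2 / 300 / (q:ℝ) ^ 2) ⊆ Icc lo hi) (hI : Inv F NK ka k2 q x0) :
    ∃ y ∈ Icc x0 (x0 + k2 / 300 / (q:ℝ) ^ 2), (∀ n, 1 ≤ n → NK ≤ n → ka / n ≤ |F n y|) ∧
      (∀ k : ℕ, 1 ≤ k → k2 / k ≤ |Real.sin (2 * k * y)|) := by
  classical
  -- the property at stage j
  let P : ℕ → ℝ → Prop := fun j x =>
    Icc x (x + k2 / 300 / ((R ^ j * q : ℕ):ℝ) ^ 2) ⊆ Icc lo hi ∧ Inv F NK ka k2 (R ^ j * q) x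
  have hqle : ∀ j : ℕ, q ≤ R ^ j * q := fun j => Nat.le_mul_of_pos_left q (Nat.pos_of_ne_zero (by positivity))
  have hstep : ∀ (j : ℕ) (x : ℝ), P j x → ∃ x', P (j + 1) x' ∧
      Icc x' (x' + k2 / 300 / ((R ^ (j + 1) * q : ℕ):ℝ) ^ 2) ⊆ Icc x (x + k2 / 300 / ((R ^ j * q : ℕ):ℝ) ^ 2) := by
    intro j x hx
    obtain ⟨x', h1, h2⟩ := hst (R ^ j * q) (hqle j) x hx.1 hx.2
    have e : R * (R ^ j * q) = R ^ (j + 1) * q := by ring
    rw [e] at h1 h2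
    exact ⟨x', ⟨h1.trans hx.1, h2⟩, h1⟩
  have hP0 : P 0 x0 := by
    have e : R ^ 0 * q = q := by simp
    refine ⟨?_, ?_⟩
    · rw [e]; exact hx0
    · rw [e]; exact hI
  let seq : (j : ℕ) → {x : ℝ // P j x} := fun j =>
    Nat.rec (motive := fun j => {x : ℝ // P j x}) ⟨x0, hP0⟩
      (fun j x => ⟨(hstep j x.1 x.2).choose, (hstep j x.1 x.2).choose_spec.1⟩) j
  have hnest : ∀ j, Icc (seq (j + 1)).1 ((seq (j + 1)).1 + k2 / 300 / ((R ^ (j + 1) * q : ℕ):ℝ) ^ 2) ⊆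
      Icc (seq j).1 ((seq j).1 + k2 / 300 / ((R ^ j * q : ℕ):ℝ) ^ 2) :=
    fun j => (hstep j (seq j).1 (seq j).2).choose_spec.2
  have hne : (⋂ j, Icc (seq j).1 ((seq j).1 + k2 / 300 / ((R ^ j * q : ℕ):ℝ) ^ 2)).Nonempty := by
    apply IsCompact.nonempty_iInter_of_sequence_nonempty_isCompact_isClosed
    · exact hnest
    · intro j
      refine ⟨(seq j).1, left_mem_Icc.2 ?_⟩
      have : (0:ℝ) ≤ k2 / 300 / ((R ^ j * q : ℕ):ℝ) ^ 2 := by positivity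
      linarith
    · exact isCompact_Icc
    · intro j; exact isClosed_Icc
  obtain ⟨y, hy⟩ := hne
  rw [mem_iInter] at hy
  have hlt : ∀ n : ℕ, n < R ^ n * q := by
    intro n
    calc n < 2 ^ n := Nat.lt_two_pow_self
      _ ≤ R ^ n := Nat.pow_le_pow_left hR n
      _ ≤ R ^ n * q := Nat.le_mul_of_pos_right _ (by omega)
  refine ⟨y, ?_, ?_, ?_⟩
  · have := hy 0
    have e : R ^ 0 * q = q := by simp
    rw [e] at this
    exact this
  · intro n hn1 hn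
    exact (seq n).2.2.a n hn (hlt n) y (hy n)
  · intro k hk
    refine (seq k).2.2.b k hk ?_ y (hy k)
    have := hlt k
    omega

/-- Nested closed intervals: start (I07) with `q` so large that `k2 ≤ k20`, `q ≥ Qm`, `[a0+de/2, a0+de] ⊆ [a0-et0, a0+et0]`,
`k2 ≥ de`, `de < de0`, then iterate `stage` (I06) with the fixed `R`; `Q_j = R^j q → ∞`. The common point `y` of the intervals satisfies all
inequalities. -/
theorem dio (A : ℝ) (hA : 1 ≤ A) (ga : ℝ) (Na : ℕ) (F F' : ℕ → ℝ → ℝ) (a0 et0 : ℝ) (het0 : 0 < et0)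
    (h : Osc A ga Na (a0 - et0) (a0 + et0) F F') (hirr : ∀ k : ℕ, 1 ≤ k → Real.sin (2 * k * a0) ≠ 0)
    (K : ℝ) (hK : 1 ≤ K) : ∃ NK : ℕ, Na ≤ NK ∧ ∀ de0 : ℝ, 0 < de0 → ∃ de : ℝ, 0 < de ∧ de < de0 ∧
      ∃ y ∈ Icc (a0 + de / 2) (a0 + de), (∀ n, NK ≤ n → K * de / n ≤ |F n y|) ∧
        (∀ k : ℕ, 1 ≤ k → de / k ≤ |Real.sin (2 * k * y)|) := by
  obtain ⟨k20, hk20, Qm, hQm, hstage⟩ := stage A hA
  obtain ⟨NK, hNK, hstart⟩ := start A hA ga Na F F' a0 et0 het0 h hirr K hK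
  refine ⟨NK, hNK, fun de0 hde0 => ?_⟩
  have hCD : 1 ≤ CD A := by
    unfold CD
    have : 0 < Real.pi := Real.pi_pos
    nlinarith [mul_pos this (lt_of_lt_of_le one_pos hA)]
  have hCDK : 1 ≤ CD A * K := by nlinarith
  -- `q^(-5/2) → 0`
  have hlim : Filter.Tendsto (fun q : ℕ => ((q:ℝ) ^ (-(5:ℝ)/2))) Filter.atTop (nhds 0) := by
    have h1 : Filter.Tendsto (fun x : ℝ => x ^ (-(5/2:ℝ))) Filter.atTop (nhds 0) :=
      tendsto_rpow_neg_atTop (by norm_num)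
    have h2 := h1.comp (tendsto_natCast_atTop_atTop (R := ℝ))
    refine h2.congr (fun q => ?_)
    simp only [Function.comp]
    norm_num
  have hlim2 : Filter.Tendsto (fun q : ℕ => Real.sqrt (CD A * (K * (q:ℝ) ^ (-(5:ℝ)/2)))) Filter.atTop (nhds 0) := by
    have h3 := (Real.continuous_sqrt.tendsto _).comp ((hlim.const_mul K).const_mul (CD A))
    simpa [Function.comp_def] using h3
  have ev1 : ∀ᶠ q : ℕ in Filter.atTop, (q:ℝ) ^ (-(5:ℝ)/2) < de0 := hlim.eventually (gt_mem_nhds hde0)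
  have ev2 : ∀ᶠ q : ℕ in Filter.atTop, (q:ℝ) ^ (-(5:ℝ)/2) < et0 := hlim.eventually (gt_mem_nhds het0)
  have ev3 : ∀ᶠ q : ℕ in Filter.atTop, Real.sqrt (CD A * (K * (q:ℝ) ^ (-(5:ℝ)/2))) < k20 :=
    hlim2.eventually (gt_mem_nhds hk20)
  obtain ⟨q1, hq1⟩ := Filter.eventually_atTop.1 (ev1.and (ev2.and ev3))
  obtain ⟨q, hq0, hqN, hq2, x, hsub, hinv⟩ := hstart (max q1 Qm)
  have hq1' : q1 ≤ q := le_trans (le_max_left _ _) hq0
  have hQm' : Qm ≤ q := le_trans (le_max_right _ _) hq0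
  obtain ⟨e1, e2, e3⟩ := hq1 q hq1'
  have hqpos : (0:ℝ) < q := by exact_mod_cast (by omega : 0 < q)
  set de : ℝ := (q:ℝ) ^ (-(5:ℝ)/2) with hde
  have hdepos : 0 < de := Real.rpow_pos_of_pos hqpos _
  have hde1 : de ≤ 1 := by
    rw [hde]
    apply Real.rpow_le_one_of_one_le_of_nonpos
    · exact_mod_cast (by omega : 1 ≤ q)
    · norm_num
  set k2 : ℝ := Real.sqrt (CD A * (K * de)) with hk2
  have hkap : 0 < K * de := by positivity
  have hk2pos : 0 < k2 := Real.sqrt_pos.2 (by positivity)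
  have hk2de : de ≤ k2 := by
    rw [hk2]
    apply Real.le_sqrt_of_sq_le
    nlinarith
  have hkasq : K * de ≤ k2 ^ 2 / CD A := by
    rw [hk2, Real.sq_sqrt (by positivity)]
    rw [le_div_iff₀ (by linarith)]
    linarith
  obtain ⟨R, hR, hstR⟩ := hstage k2 hk2pos e3.le
  have hsub2 : Icc (a0 + de / 2) (a0 + de) ⊆ Icc (a0 - et0) (a0 + et0) :=
    Icc_subset_Icc (by linarith) (by linarith)
  obtain ⟨y, hy, hya, hyb⟩ := dio_iter F NK (K * de) k2 hk2pos R q hR hq2 (a0 - et0) (a0 + et0)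
    (fun Q hQ x hx hi => hstR ga Na (a0 - et0) (a0 + et0) F F' h (K * de) hkap hkasq NK hNK Q
      (hQm'.trans hQ) (hqN.trans hQ) x hx hi) x (hsub.trans hsub2) hinv
  refine ⟨de, hdepos, e1, y, hsub hy, ?_, ?_⟩
  · intro n hn
    have hn1 : 1 ≤ n := le_trans h.hN (le_trans hNK hn)
    exact hya n hn1 hn
  · intro k hk
    refine le_trans ?_ (hyb k hk)
    exact div_le_div_of_nonneg_right hk2de (by positivity)

end FB
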