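import Pool.Agent.H48.FB.H00
import Pool.Agent.H48.FB.H01
import Pool.Agent.H48.FB.H02
import Pool.Agent.H48.FB.H03
import Pool.Agent.H48.FB.H04
import Pool.Agent.H48.FB.I08

/-! H05: final statements on the eigenvalues `lam al n` and the choice of a good angle. -/

open Set

noncomputable section

namespace FB

theorem H05_lam (al : ℝ) (n : ℕ) : lam al n =
    Real.sin al * (2 * Real.sqrt 2 / 3) * ll al (2 * n + 1/2) := rfl

theorem H05_hk_one (s : ℝ) : hk 1 s = 1 - 7 * s / 6 := by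
  unfold hk
  rw [Finset.sum_range_succ, Finset.sum_range_succ, Finset.sum_range_zero]
  simp only [Finset.prod_range_zero, Finset.prod_range_one, Nat.factorial]
  norm_num
  ring

/-- `lam al n` vanishes at `al0` exactly for `n = 2`. -/
theorem lam_al0_two : lam al0 2 = 0 := by
  obtain ⟨h1, h2, h3, h4, h5, h6⟩ := al0_bounds
  have h := ll_closed (al := al0) (by linarith) h6 1
  rw [H05_lam]
  have e : (((1 + 1 : ℕ) : ℝ)) = ((2 : ℕ) : ℝ) := by norm_num
  rw [e] at h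
  rw [h, h4, H05_hk_one]
  norm_num

/-- `lam al 2 = sin al * pi/8 * s^2 * (1 - 7 s/6)`, `s = sin^2 al`. -/
theorem lam_two {al : ℝ} (h0 : 0 < al) (h1 : al < Real.pi / 2) :
    lam al 2 = Real.sin al * (Real.pi / 8) * (Real.sin al) ^ 4 * (1 - 7 * (Real.sin al) ^ 2 / 6) := by
  have h := ll_closed (al := al) h0 h1 1
  rw [H05_lam]
  have e : (((1 + 1 : ℕ) : ℝ)) = ((2 : ℕ) : ℝ) := by norm_num
  rw [e] at h
  rw [h, H05_hk_one]
  have h2 : Real.sqrt 2 ≠ 0 := by positivity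
  field_simp

theorem lam_zero {al : ℝ} (h0 : 0 < al) (h1 : al < Real.pi / 2) :
    lam al 0 = Real.sin al * (Real.pi / 2) * (1 - Real.cos al) ^ 2 := by
  have h := ll_closed_zero h0 h1
  rw [H05_lam]
  have e : (2 * ((0 : ℕ) : ℝ) + 1 / 2) = 1 / 2 := by norm_num
  rw [e, h]
  have h2 : Real.sqrt 2 ≠ 0 := by positivity
  field_simp

theorem lam_lower_al0 : ∃ c b : ℝ, 0 < c ∧ 1 ≤ b ∧ ∀ n : ℕ, n ≠ 2 → c * Real.exp (-(b * n)) ≤ |lam al0 n| := by
  obtain ⟨h1, h2, h3, h4, h5, h6⟩ := al0_bounds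
  have h0 : 0 < al0 := by linarith
  have hpi := Real.pi_pos
  have hlamk : ∀ k : ℕ, lam al0 (k + 1) =
      Real.sin al0 * (Real.pi / 8) * (Real.sin al0) ^ 4 * (hq k : ℝ) := by
    intro k
    have h := ll_closed (al := al0) h0 h6 k
    rw [H05_lam, h, h4, hk_eq_hq]
    have h2 : Real.sqrt 2 ≠ 0 := by positivity
    field_simp
  have hcos : Real.cos al0 < 1 := by
    rw [h3, div_lt_one (by positivity)]
    apply Real.lt_sqrt_of_sq_lt
    norm_num
  set c1 : ℝ := Real.sin al0 * (Real.pi / 2) * (1 - Real.cos al0) ^ 2 with hc1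
  have hc1pos : 0 < c1 := by
    have : 0 < 1 - Real.cos al0 := by linarith
    positivity
  set c2 : ℝ := Real.sin al0 * (Real.pi / 8) * (Real.sin al0) ^ 4 * (1 / 64) with hc2
  have hc2pos : 0 < c2 := by positivity
  have hlog : 1 ≤ Real.log 448 := by
    rw [Real.le_log_iff_exp_le (by norm_num)]
    have := Real.exp_one_lt_d9
    linarith
  refine ⟨min c1 c2, Real.log 448, lt_min hc1pos hc2pos, hlog, ?_⟩
  intro n hn
  have hexp : ∀ k : ℕ, Real.exp (-(Real.log 448 * k)) = 1 / 448 ^ k := by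
    intro k
    rw [Real.exp_neg, ← one_div, mul_comm, Real.exp_nat_mul, Real.exp_log (by norm_num)]
  rcases n with _ | k
  · rw [lam_zero h0 h6, ← hc1, abs_of_pos hc1pos]
    simp only [Nat.cast_zero, mul_zero, neg_zero, Real.exp_zero, mul_one]
    exact min_le_left _ _
  · have hk1 : k ≠ 1 := by omega
    have hl := hq_lower k hk1
    have hl' : (1 : ℝ) / (64 * 448 ^ k) ≤ |(hq k : ℝ)| := by
      have : (((1 : ℚ) / (64 * 448 ^ k) : ℚ) : ℝ) ≤ ((|hq k| : ℚ) : ℝ) := by exact_mod_cast hl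
      push_cast at this
      exact this
    rw [hlamk k, abs_mul, abs_of_pos (by positivity :
      0 < Real.sin al0 * (Real.pi / 8) * (Real.sin al0) ^ 4)]
    have hexp2 : Real.exp (-(Real.log 448 * ((k + 1 : ℕ) : ℝ))) ≤ 1 / 448 ^ k := by
      rw [← hexp k]
      apply Real.exp_le_exp.mpr
      push_cast
      nlinarith
    calc min c1 c2 * Real.exp (-(Real.log 448 * ((k + 1 : ℕ) : ℝ)))
        ≤ c2 * (1 / 448 ^ k) := mul_le_mul (min_le_right _ _) hexp2 (Real.exp_pos _).le hc2pos.le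
      _ = Real.sin al0 * (Real.pi / 8) * (Real.sin al0) ^ 4 * (1 / (64 * 448 ^ k)) := by
          rw [hc2]; field_simp
      _ ≤ _ := mul_le_mul_of_nonneg_left hl' (by positivity)

theorem H05_sqrt2 : 2 * Real.sqrt 2 / 3 ≤ 1 ∧ 9 / 10 ≤ 2 * Real.sqrt 2 / 3 := by
  have h1 : Real.sqrt 2 ≤ 1.5 := by
    rw [Real.sqrt_le_left (by norm_num)]; norm_num
  have h2 : 1.4 ≤ Real.sqrt 2 := by
    apply Real.le_sqrt_of_sq_le; norm_num
  constructor <;> linarith

/-- uniform Lipschitz bound in the angle -/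
theorem lam_lip : ∃ C : ℝ, 0 < C ∧ ∀ al ∈ JJ, ∀ be ∈ JJ, ∀ n : ℕ, |lam al n - lam be n| ≤ C * |al - be| := by
  refine ⟨8, by norm_num, fun al hal be hbe n => ?_⟩
  obtain ⟨s1, s2⟩ := H05_sqrt2
  have hder : ∀ x ∈ JJ, HasDerivWithinAt (fun a => lam a n)
      (Real.cos x * (2 * Real.sqrt 2 / 3) * ll x (2 * n + 1/2) +
        Real.sin x * (2 * Real.sqrt 2 / 3) * (3/2 * Real.sin x * l1 x (2 * n + 1/2))) JJ x := by
    intro x hx
    obtain ⟨j1, j2, j3, j4, j5, j6, j7⟩ := JJ_bounds hx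
    have hpi : x < Real.pi := by linarith [Real.pi_pos]
    have h1 := ((Real.hasDerivAt_sin x).mul_const (2 * Real.sqrt 2 / 3)).mul
      (hasDerivAt_ll (al := x) (m := 2 * n + 1/2) (by linarith) hpi)
    exact h1.hasDerivWithinAt
  have hbound : ∀ x ∈ JJ, ‖(Real.cos x * (2 * Real.sqrt 2 / 3) * ll x (2 * n + 1/2) +
        Real.sin x * (2 * Real.sqrt 2 / 3) * (3/2 * Real.sin x * l1 x (2 * n + 1/2)))‖ ≤ 8 := by
    intro x hx
    obtain ⟨j1, j2, j3, j4, j5, j6, j7⟩ := JJ_bounds hx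
    have hll := abs_ll_le (al := x) (m := 2 * n + 1/2) (by linarith) j3
    have hl1 := abs_l1_le (al := x) (m := 2 * n + 1/2) (by linarith) j3
    have hc := Real.abs_cos_le_one x
    have hs := Real.abs_sin_le_one x
    have b1 : |Real.cos x * (2 * Real.sqrt 2 / 3) * ll x (2 * n + 1/2)| ≤ 1 * 1 * (2 * x) := by
      rw [abs_mul, abs_mul, abs_of_nonneg (by positivity : 0 ≤ 2 * Real.sqrt 2 / 3)]
      gcongr
    have b2 : |Real.sin x * (2 * Real.sqrt 2 / 3) * (3/2 * Real.sin x * l1 x (2 * n + 1/2))| ≤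
        1 * 1 * (3 / 2 * 1 * (2 * x)) := by
      rw [abs_mul, abs_mul, abs_mul, abs_mul, abs_of_nonneg (by positivity : 0 ≤ 2 * Real.sqrt 2 / 3),
        abs_of_nonneg (by norm_num : (0 : ℝ) ≤ 3 / 2)]
      gcongr
    rw [Real.norm_eq_abs]
    refine (abs_add_le _ _).trans ?_
    linarith
  have hconv : Convex ℝ JJ := convex_Icc _ _
  have := Convex.norm_image_sub_le_of_norm_hasDerivWithin_le hder hbound hconv hbe hal
  rw [Real.norm_eq_abs, Real.norm_eq_abs] at this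
  exact this

theorem lam_bound : ∃ C : ℝ, 0 < C ∧ ∀ al ∈ JJ, ∀ n : ℕ, |lam al n| ≤ C := by
  refine ⟨3, by norm_num, fun x hx n => ?_⟩
  obtain ⟨s1, s2⟩ := H05_sqrt2
  obtain ⟨j1, j2, j3, j4, j5, j6, j7⟩ := JJ_bounds hx
  have hll := abs_ll_le (al := x) (m := 2 * n + 1/2) (by linarith) j3
  have hs := Real.abs_sin_le_one x
  rw [H05_lam]
  have b1 : |Real.sin x * (2 * Real.sqrt 2 / 3) * ll x (2 * n + 1/2)| ≤ 1 * 1 * (2 * x) := by
    rw [abs_mul, abs_mul, abs_of_nonneg (by positivity : 0 ≤ 2 * Real.sqrt 2 / 3)]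
    gcongr
  linarith

theorem H05_alg0 {S u m v κ ll cos5 A2 n : ℝ} (hu : 0.9 ≤ u) (hS : 0.9 ≤ S)
    (hn : 0 < n) (hnm : n ≤ m) (hv : 0 < v) (hκ : 2 ≤ κ) (hA2 : 0 ≤ A2)
    (h2 : |ll - κ * (S * u) * (1 / (m ^ 2 * v)) * cos5| ≤ A2 * (1 / (m ^ 3 * v))) :
    |ll * (m ^ 2 * v) / (κ * (S * u)) - cos5| ≤ A2 / n := by
  have hm : 0 < m := by linarith
  have hu0 : 0 < u := by linarith
  have hS0 : 0 < S := by linarith
  have hκ0 : 0 < κ := by linarith
  have e : ll * (m ^ 2 * v) / (κ * (S * u)) - cos5 =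
      (ll - κ * (S * u) * (1 / (m ^ 2 * v)) * cos5) * ((m ^ 2 * v) / (κ * (S * u))) := by
    field_simp
  rw [e, abs_mul, abs_of_pos (by positivity : 0 < (m ^ 2 * v) / (κ * (S * u)))]
  calc _ ≤ A2 * (1 / (m ^ 3 * v)) * ((m ^ 2 * v) / (κ * (S * u))) :=
        mul_le_mul_of_nonneg_right h2 (by positivity)
    _ = (A2 / m) * (1 / (κ * (S * u))) := by field_simp
    _ ≤ (A2 / m) * 1 := by
        apply mul_le_mul_of_nonneg_left _ (by positivity)
        rw [div_le_one (by positivity)]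
        have : 0.81 ≤ S * u := by nlinarith
        nlinarith
    _ = A2 / m := mul_one _
    _ ≤ A2 / n := div_le_div_of_nonneg_left hA2 hn hnm

theorem H05_alg1 {S u c m v κ sp l1 ll cos3 cos5 sin5 A1 A2 : ℝ} (hu : 0.9 ≤ u)
    (hS : 0.9 ≤ S) (hc : |c| ≤ 1) (hm : 1 ≤ m) (hv : 0 < v) (hκ : κ = 3 * sp / 2)
    (hκ2 : 2 ≤ κ) (hA1 : 0 ≤ A1) (hA2 : 0 ≤ A2) (hcs : cos3 = - sin5) (hc5 : |cos5| ≤ 1)
    (h1 : |l1 - sp * u * (1 / (m * v)) * cos3| ≤ A1 * (1 / (m ^ 2 * v)))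
    (h2 : |ll - κ * (S * u) * (1 / (m ^ 2 * v)) * cos5| ≤ A2 * (1 / (m ^ 3 * v))) :
    |(3 / 2 * S * l1 * (m ^ 2 * v) * (κ * (S * u)) -
      ll * (m ^ 2 * v) * (κ * (c * (3 / 2) * u))) / (κ * (S * u)) ^ 2 + m * sin5| ≤
      A1 + 2 * A2 + 2 := by
  have hm0 : 0 < m := by linarith
  have hu0 : 0 < u := by linarith
  have hS0 : 0 < S := by linarith
  have hκ0 : 0 < κ := by linarith
  have hsp : sp = 2 * κ / 3 := by rw [hκ]; ring
  have e : (3 / 2 * S * l1 * (m ^ 2 * v) * (κ * (S * u)) -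
      ll * (m ^ 2 * v) * (κ * (c * (3 / 2) * u))) / (κ * (S * u)) ^ 2 + m * sin5 =
      (l1 - sp * u * (1 / (m * v)) * cos3) * (3 / 2 * (m ^ 2 * v) / (κ * u)) -
        (ll - κ * (S * u) * (1 / (m ^ 2 * v)) * cos5) *
          (3 / 2 * (m ^ 2 * v) * c / (κ * (S ^ 2 * u))) -
        3 / 2 * cos5 * c / S := by
    rw [hcs, hsp]
    field_simp
    ring
  rw [e]
  have b1 : |(l1 - sp * u * (1 / (m * v)) * cos3) * (3 / 2 * (m ^ 2 * v) / (κ * u))| ≤ A1 := by
    rw [abs_mul, abs_of_pos (by positivity : 0 < 3 / 2 * (m ^ 2 * v) / (κ * u))]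
    calc _ ≤ A1 * (1 / (m ^ 2 * v)) * (3 / 2 * (m ^ 2 * v) / (κ * u)) :=
          mul_le_mul_of_nonneg_right h1 (by positivity)
      _ = A1 * (3 / 2 / (κ * u)) := by field_simp
      _ ≤ A1 * 1 := by
          apply mul_le_mul_of_nonneg_left _ hA1
          rw [div_le_one (by positivity)]
          nlinarith
      _ = A1 := mul_one _
  have b2 : |(ll - κ * (S * u) * (1 / (m ^ 2 * v)) * cos5) *
          (3 / 2 * (m ^ 2 * v) * c / (κ * (S ^ 2 * u)))| ≤ 2 * A2 := by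
    have e2 : 3 / 2 * (m ^ 2 * v) * c / (κ * (S ^ 2 * u)) =
        (3 / 2 * (m ^ 2 * v) / (κ * (S ^ 2 * u))) * c := by ring
    rw [e2, abs_mul, abs_mul, abs_of_pos (by positivity :
      0 < 3 / 2 * (m ^ 2 * v) / (κ * (S ^ 2 * u)))]
    have b3 : (3 / 2 * (m ^ 2 * v) / (κ * (S ^ 2 * u))) * |c| ≤
        3 / 2 * (m ^ 2 * v) / (κ * (S ^ 2 * u)) := by
      calc _ ≤ (3 / 2 * (m ^ 2 * v) / (κ * (S ^ 2 * u))) * 1 :=
            mul_le_mul_of_nonneg_left hc (by positivity)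
        _ = _ := mul_one _
    calc _ ≤ A2 * (1 / (m ^ 3 * v)) * (3 / 2 * (m ^ 2 * v) / (κ * (S ^ 2 * u))) :=
          mul_le_mul h2 b3 (by positivity) (by positivity)
      _ = A2 * (3 / 2 / (m * (κ * (S ^ 2 * u)))) := by field_simp
      _ ≤ A2 * 2 := by
          apply mul_le_mul_of_nonneg_left _ hA2
          rw [div_le_iff₀ (by positivity)]
          have f1 : 0.81 ≤ S ^ 2 := by nlinarith
          have f2 : 0.7 ≤ S ^ 2 * u := by nlinarith
          have f3 : 1.4 ≤ κ * (S ^ 2 * u) := by nlinarith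
          nlinarith
      _ = 2 * A2 := mul_comm _ _
  have b4 : |3 / 2 * cos5 * c / S| ≤ 2 := by
    rw [abs_div, abs_mul, abs_mul, abs_of_pos hS0, abs_of_pos (by norm_num : (0:ℝ) < 3 / 2),
      div_le_iff₀ hS0]
    have : |cos5| * |c| ≤ 1 := by
      calc _ ≤ 1 * 1 := mul_le_mul hc5 hc (abs_nonneg _) (by norm_num)
        _ = 1 := one_mul _
    nlinarith
  refine (abs_sub _ _).trans ?_
  have := abs_sub ((l1 - sp * u * (1 / (m * v)) * cos3) * (3 / 2 * (m ^ 2 * v) / (κ * u)))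
    ((ll - κ * (S * u) * (1 / (m ^ 2 * v)) * cos5) *
          (3 / 2 * (m ^ 2 * v) * c / (κ * (S ^ 2 * u))))
  linarith

theorem H05_rpow52 {x : ℝ} (hx : 0 < x) : x ^ ((5:ℝ)/2) = x ^ 2 * Real.sqrt x := by
  rw [Real.sqrt_eq_rpow, ← Real.rpow_natCast, ← Real.rpow_add hx]; norm_num

theorem H05_rpow32 {x : ℝ} (hx : 0 < x) : x ^ ((3:ℝ)/2) = x * Real.sqrt x := by
  rw [Real.sqrt_eq_rpow]
  nth_rewrite 2 [← Real.rpow_one x]
  rw [← Real.rpow_add hx]; norm_num

theorem H05_rpowm32 {x : ℝ} (hx : 0 < x) : x ^ (-(3:ℝ)/2) = 1 / (x * Real.sqrt x) := by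
  rw [← H05_rpow32 hx, neg_div, Real.rpow_neg hx.le, one_div]

theorem H05_rpowm52 {x : ℝ} (hx : 0 < x) : x ^ (-(5:ℝ)/2) = 1 / (x ^ 2 * Real.sqrt x) := by
  rw [← H05_rpow52 hx, neg_div, Real.rpow_neg hx.le, one_div]

theorem H05_rpowm72 {x : ℝ} (hx : 0 < x) : x ^ (-(7:ℝ)/2) = 1 / (x ^ 3 * Real.sqrt x) := by
  have : x ^ 3 * Real.sqrt x = x ^ ((7:ℝ)/2) := by
    rw [Real.sqrt_eq_rpow, ← Real.rpow_natCast, ← Real.rpow_add hx]; norm_num
  rw [this, neg_div, Real.rpow_neg hx.le, one_div]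

/-- the derivative of `Fn` -/
def H05_Fn' (n : ℕ) (al : ℝ) : ℝ :=
  (3 / 2 * Real.sin al * l1 al (2 * n + 1/2) * (2 * n + 1/2 : ℝ) ^ ((5:ℝ)/2) *
      (3 * Real.sqrt Real.pi / 2 * (Real.sin al) ^ ((3:ℝ)/2)) -
    ll al (2 * n + 1/2) * (2 * n + 1/2 : ℝ) ^ ((5:ℝ)/2) *
      (3 * Real.sqrt Real.pi / 2 * (Real.cos al * ((3:ℝ)/2) * (Real.sin al) ^ ((3:ℝ)/2 - 1)))) /
    (3 * Real.sqrt Real.pi / 2 * (Real.sin al) ^ ((3:ℝ)/2)) ^ 2

theorem H05_hasDerivAt (n : ℕ) {al : ℝ} (hal : al ∈ JJ) : HasDerivAt (Fn n) (H05_Fn' n al) al := by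
  obtain ⟨j1, j2, j3, j4, j5, j6, j7⟩ := JJ_bounds hal
  have hpi : al < Real.pi := by linarith [Real.pi_pos]
  have hpi0 := Real.pi_pos
  have hS : 0 < Real.sin al := by linarith
  have h1 := (hasDerivAt_ll (al := al) (m := 2 * n + 1/2) (by linarith) hpi).mul_const
    ((2 * n + 1/2 : ℝ) ^ ((5:ℝ)/2))
  have h2 := ((Real.hasDerivAt_sin al).rpow_const (p := (3:ℝ)/2) (Or.inl hS.ne')).const_mul
    (3 * Real.sqrt Real.pi / 2)
  have hne : 3 * Real.sqrt Real.pi / 2 * (Real.sin al) ^ ((3:ℝ)/2) ≠ 0 := by positivity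
  exact h1.div h2 hne

theorem H05_Osc : ∃ A : ℝ, 1 ≤ A ∧
    Osc A (5 * Real.pi / 4) 1 (al0 - 1/100) (al0 + 1/100) Fn H05_Fn' := by
  obtain ⟨A2, hA2, hll⟩ := ll_asymp
  obtain ⟨A1, hA1, hl1⟩ := l1_asymp
  have hpi0 := Real.pi_pos
  have hsp : 1.7 ≤ Real.sqrt Real.pi := by
    apply Real.le_sqrt_of_sq_le
    have := Real.pi_gt_three
    linarith
  refine ⟨A1 + 2 * A2 + 2, by linarith, by linarith, le_rfl, ?_, ?_, ?_⟩
  · intro n hn x hx
    obtain ⟨j1, j2, j3, j4, j5, j6, j7⟩ := JJ_bounds (al := x) hx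
    have hnr : (1 : ℝ) ≤ n := by exact_mod_cast hn
    have hS : 0 < Real.sin x := by linarith
    have hm : 0 < (2 * (n : ℝ) + 1/2) := by positivity
    have hu : 0.9 ≤ Real.sqrt (Real.sin x) := by
      apply Real.le_sqrt_of_sq_le; nlinarith
    have h2 := hll x hx (2 * n + 1/2) (by linarith)
    rw [H05_rpow32 hS, H05_rpowm52 hm, H05_rpowm72 hm] at h2
    unfold Fn
    rw [H05_rpow52 hm, H05_rpow32 hS]
    have key := H05_alg0 (n := n) hu (by linarith : 0.9 ≤ Real.sin x) (by linarith)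
      (by linarith : (n : ℝ) ≤ 2 * n + 1/2) (Real.sqrt_pos.mpr hm)
      (by linarith : 2 ≤ 3 * Real.sqrt Real.pi / 2) hA2.le h2
    refine key.trans ?_
    apply div_le_div_of_nonneg_right _ (by linarith)
    linarith
  · intro n hn x hx
    exact (H05_hasDerivAt n hx).hasDerivWithinAt
  · intro n hn x hx
    obtain ⟨j1, j2, j3, j4, j5, j6, j7⟩ := JJ_bounds (al := x) hx
    have hnr : (1 : ℝ) ≤ n := by exact_mod_cast hn
    have hS : 0 < Real.sin x := by linarith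
    have hm : 0 < (2 * (n : ℝ) + 1/2) := by positivity
    have hu : 0.9 ≤ Real.sqrt (Real.sin x) := by
      apply Real.le_sqrt_of_sq_le; nlinarith
    have h2 := hll x hx (2 * n + 1/2) (by linarith)
    have h1 := hl1 x hx (2 * n + 1/2) (by linarith)
    rw [H05_rpow32 hS, H05_rpowm52 hm, H05_rpowm72 hm] at h2
    rw [← Real.sqrt_eq_rpow, H05_rpowm32 hm, H05_rpowm52 hm] at h1
    unfold H05_Fn'
    have e12 : (3:ℝ)/2 - 1 = 1 / 2 := by norm_num
    rw [e12, ← Real.sqrt_eq_rpow, H05_rpow52 hm, H05_rpow32 hS]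
    refine H05_alg1 hu (by linarith : 0.9 ≤ Real.sin x) (Real.abs_cos_le_one x)
      (by linarith : 1 ≤ 2 * (n : ℝ) + 1/2) (Real.sqrt_pos.mpr hm)
      rfl (by linarith : 2 ≤ 3 * Real.sqrt Real.pi / 2) hA1.le hA2.le ?_
      (Real.abs_cos_le_one _) h1 h2
    have : (2 * (n : ℝ) + 1/2) * x - 3 * Real.pi / 4 =
        ((2 * (n : ℝ) + 1/2) * x - 5 * Real.pi / 4) + Real.pi / 2 := by ring
    rw [this, Real.cos_add_pi_div_two]

/-- The choice of the angle. Apply `dio` with `F = Fn` (Osc by H02 and H01: `Fn' ` is computed from `hasDerivAt_ll`,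
`A` large), `K' = C * K` where `C` converts `Fn` into `lam` (`lam al n = sin al * (2 sqrt 2/3) * (3 sqrt pi/2 (sin al)^{3/2}) (2n+1/2)^{-5/2} Fn n al`).
For `n < NK`, `n ≠ 2`: `|lam al n| ≥ |lam al0 n| - C de ≥ half` for small `de`, which is `≥ K de`. Exponential bounds: with `b0, c` from
`lam_lower_al0`: if `C de ≤ (c/2) exp (-b0 n)` then `|lam al n| ≥ (c/2) exp (-b0 n)`; otherwise `de ≥ (c/(2C)) exp (-b0 n)` and
`|lam al n| ≥ K de (1+2n)^{-7/2} ≥ c' exp (-2 b0 n)` (the constants `c', 2 b0` do not depend on `K ≥ 1`). Same for the sines with `sin_al0_lower`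
and `de/k ≤ |sin 2 k al|`. -/
theorem good_angle : ∃ c b : ℝ, 0 < c ∧ 1 ≤ b ∧ ∀ K : ℝ, 1 ≤ K → ∀ de0 : ℝ, 0 < de0 → ∃ de : ℝ, 0 < de ∧ de < de0 ∧
    ∃ al ∈ Icc (al0 + de / 2) (al0 + de), al ∈ JJ ∧
      (∀ n : ℕ, n ≠ 2 → K * de * (1 + 2 * (n:ℝ)) ^ (-(7:ℝ)/2) ≤ |lam al n|) ∧
      (∀ n : ℕ, n ≠ 2 → c * Real.exp (-(b * n)) ≤ |lam al n|) ∧
      (∀ k : ℕ, 1 ≤ k → de / k ≤ |Real.sin (2 * k * al)|) ∧
      (∀ k : ℕ, 1 ≤ k → c * Real.exp (-(b * k)) ≤ |Real.sin (2 * k * al)|) := by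
  obtain ⟨A, hA, hOsc⟩ := H05_Osc
  obtain ⟨c0, b0, hc0, hb0, hlow⟩ := lam_lower_al0
  obtain ⟨C, hC, hlip⟩ := lam_lip
  obtain ⟨s1, s2⟩ := H05_sqrt2
  have hpi0 := Real.pi_pos
  have hsp : 1.7 ≤ Real.sqrt Real.pi := by
    apply Real.le_sqrt_of_sq_le
    have := Real.pi_gt_three
    linarith
  have hal0J : al0 ∈ JJ := by
    constructor <;> norm_num
  refine ⟨min (min (c0 / 2) (c0 / (2 * C))) (1 / 2), b0 + 7, by positivity, by linarith, ?_⟩
  intro K hK de0 hde0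
  have hirr : ∀ k : ℕ, 1 ≤ k → Real.sin (2 * k * al0) ≠ 0 := by
    intro k hk h
    have := sin_al0_lower k hk
    rw [h, abs_zero] at this
    have h7 : (0 : ℝ) < 2 / 7 ^ k := by positivity
    linarith
  obtain ⟨NK, hNK, hdio⟩ := dio A hA (5 * Real.pi / 4) 1 Fn H05_Fn' al0 (1/100) (by norm_num)
    hOsc hirr K hK
  set β : ℝ := c0 * Real.exp (-(b0 * NK)) with hβ
  have hβ0 : 0 < β := by positivity
  obtain ⟨de, hde, hdelt, y, hy, hyF, hys⟩ := hdio (min (min de0 (1/100)) (min (β / (2 * C)) (β / (2 * K))))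
    (by positivity)
  have d1 : de < de0 := lt_of_lt_of_le hdelt ((min_le_left _ _).trans (min_le_left _ _))
  have d2 : de < 1 / 100 := lt_of_lt_of_le hdelt ((min_le_left _ _).trans (min_le_right _ _))
  have d3 : de < β / (2 * C) := lt_of_lt_of_le hdelt ((min_le_right _ _).trans (min_le_left _ _))
  have d4 : de < β / (2 * K) := lt_of_lt_of_le hdelt ((min_le_right _ _).trans (min_le_right _ _))
  have d3' : C * de ≤ β / 2 := by
    rw [lt_div_iff₀ (by positivity)] at d3; linarith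
  have d4' : K * de ≤ β / 2 := by
    rw [lt_div_iff₀ (by positivity)] at d4; linarith
  have hyJ : y ∈ JJ := by
    constructor
    · linarith [hy.1]
    · linarith [hy.2]
  have hyal : |y - al0| ≤ de := by
    rw [abs_le]; constructor <;> linarith [hy.1, hy.2]
  obtain ⟨j1, j2, j3, j4, j5, j6, j7⟩ := JJ_bounds hyJ
  have hS : 0 < Real.sin y := by linarith
  have hlamdiff : ∀ n : ℕ, |lam al0 n| - C * de ≤ |lam y n| := by
    intro n
    have h1 := hlip al0 hal0J y hyJ n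
    have h2 : |al0 - y| ≤ de := by rw [abs_sub_comm]; exact hyal
    have h3 : |lam al0 n| - |lam y n| ≤ |lam al0 n - lam y n| := abs_sub_abs_le_abs_sub _ _
    nlinarith
  have hP1 : ∀ n : ℕ, n ≠ 2 → K * de * (1 + 2 * (n:ℝ)) ^ (-(7:ℝ)/2) ≤ |lam y n| := by
    intro n hn
    have hn12 : (0 : ℝ) < 1 + 2 * n := by positivity
    by_cases hnN : n < NK
    · have h1 : (1 + 2 * (n:ℝ)) ^ (-(7:ℝ)/2) ≤ 1 := by
        apply Real.rpow_le_one_of_one_le_of_nonpos
        · have : (0 : ℝ) ≤ n := Nat.cast_nonneg n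
          linarith
        · norm_num
      have h2 : β ≤ |lam al0 n| := by
        refine le_trans ?_ (hlow n hn)
        rw [hβ]
        apply mul_le_mul_of_nonneg_left _ hc0.le
        apply Real.exp_le_exp.mpr
        have : (n : ℝ) ≤ NK := by exact_mod_cast hnN.le
        nlinarith
      have h3 := hlamdiff n
      have h4 : K * de * (1 + 2 * (n:ℝ)) ^ (-(7:ℝ)/2) ≤ K * de * 1 :=
        mul_le_mul_of_nonneg_left h1 (by positivity)
      linarith
    · push Not at hnN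
      have hn1 : 1 ≤ n := le_trans hNK hnN
      have hnr : (1 : ℝ) ≤ n := by exact_mod_cast hn1
      have hm : 0 < (2 * (n : ℝ) + 1/2) := by positivity
      have hF := hyF n hnN
      have hFn : ll y (2 * n + 1/2) = Fn n y * (3 * Real.sqrt Real.pi / 2 *
          (Real.sin y * Real.sqrt (Real.sin y))) *
            (1 / ((2 * (n : ℝ) + 1/2) ^ 2 * Real.sqrt (2 * (n : ℝ) + 1/2))) := by
        unfold Fn
        rw [H05_rpow52 hm, H05_rpow32 hS]
        have h1 : 0 < Real.sqrt (2 * (n : ℝ) + 1/2) := Real.sqrt_pos.mpr hm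
        have h2 : 0 < Real.sqrt (Real.sin y) := Real.sqrt_pos.mpr hS
        field_simp
      have hu : 0.9 ≤ Real.sqrt (Real.sin y) := by
        apply Real.le_sqrt_of_sq_le; nlinarith
      rw [H05_lam, hFn, H05_rpowm72 hn12]
      have hvm : Real.sqrt (2 * (n : ℝ) + 1/2) ≤ Real.sqrt (1 + 2 * n) :=
        Real.sqrt_le_sqrt (by linarith)
      have hv0 : 0 < Real.sqrt (2 * (n : ℝ) + 1/2) := Real.sqrt_pos.mpr hm
      have hv1 : 0 < Real.sqrt (1 + 2 * (n : ℝ)) := Real.sqrt_pos.mpr hn12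
      have e1 : Real.sin y * (2 * Real.sqrt 2 / 3) * (Fn n y * (3 * Real.sqrt Real.pi / 2 *
          (Real.sin y * Real.sqrt (Real.sin y))) *
            (1 / ((2 * (n : ℝ) + 1/2) ^ 2 * Real.sqrt (2 * (n : ℝ) + 1/2)))) =
          Fn n y * ((Real.sin y * (2 * Real.sqrt 2 / 3) * (3 * Real.sqrt Real.pi / 2 *
          (Real.sin y * Real.sqrt (Real.sin y)))) *
            (1 / ((2 * (n : ℝ) + 1/2) ^ 2 * Real.sqrt (2 * (n : ℝ) + 1/2)))) := by ring
      have hc4 : 1 ≤ Real.sin y * (2 * Real.sqrt 2 / 3) * (3 * Real.sqrt Real.pi / 2 *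
          (Real.sin y * Real.sqrt (Real.sin y))) := by
        have f1 : 0.81 ≤ Real.sin y * (2 * Real.sqrt 2 / 3) := by nlinarith
        have f2 : 0.81 ≤ Real.sin y * Real.sqrt (Real.sin y) := by nlinarith
        have f3 : 2.5 ≤ 3 * Real.sqrt Real.pi / 2 := by linarith
        have f4 : 2 ≤ 3 * Real.sqrt Real.pi / 2 * (Real.sin y * Real.sqrt (Real.sin y)) := by
          nlinarith
        nlinarith
      have hden : (2 * (n : ℝ) + 1/2) ^ 2 * Real.sqrt (2 * (n : ℝ) + 1/2) ≤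
          (1 + 2 * (n : ℝ)) ^ 2 * Real.sqrt (1 + 2 * n) := by
        apply mul_le_mul _ hvm hv0.le (by positivity)
        exact pow_le_pow_left₀ hm.le (by linarith) 2
      have hden2 : 1 / ((1 + 2 * (n : ℝ)) ^ 2 * Real.sqrt (1 + 2 * n)) ≤
          1 / ((2 * (n : ℝ) + 1/2) ^ 2 * Real.sqrt (2 * (n : ℝ) + 1/2)) :=
        one_div_le_one_div_of_le (by positivity) hden
      have hprod : 1 / ((1 + 2 * (n : ℝ)) ^ 2 * Real.sqrt (1 + 2 * n)) ≤
          (Real.sin y * (2 * Real.sqrt 2 / 3) * (3 * Real.sqrt Real.pi / 2 *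
          (Real.sin y * Real.sqrt (Real.sin y)))) *
            (1 / ((2 * (n : ℝ) + 1/2) ^ 2 * Real.sqrt (2 * (n : ℝ) + 1/2))) := by
        calc _ = 1 * (1 / ((1 + 2 * (n : ℝ)) ^ 2 * Real.sqrt (1 + 2 * n))) := (one_mul _).symm
          _ ≤ _ := mul_le_mul hc4 hden2 (by positivity) (by positivity)
      have hKn : K * de / (1 + 2 * n) ≤ |Fn n y| := by
        refine le_trans ?_ hF
        apply div_le_div_of_nonneg_left (by positivity) (by linarith) (by linarith)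
      rw [e1, abs_mul, abs_of_pos (a := (Real.sin y * (2 * Real.sqrt 2 / 3) *
        (3 * Real.sqrt Real.pi / 2 * (Real.sin y * Real.sqrt (Real.sin y)))) *
            (1 / ((2 * (n : ℝ) + 1/2) ^ 2 * Real.sqrt (2 * (n : ℝ) + 1/2)))) (by positivity)]
      calc K * de * (1 / ((1 + 2 * (n : ℝ)) ^ 3 * Real.sqrt (1 + 2 * n))) =
            (K * de / (1 + 2 * n)) * (1 / ((1 + 2 * (n : ℝ)) ^ 2 * Real.sqrt (1 + 2 * n))) := by
            field_simp
        _ ≤ _ := mul_le_mul hKn hprod (by positivity) (abs_nonneg _)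
  have hexp7 : ∀ n : ℕ, Real.exp (-(7 * (n : ℝ))) ≤ (1 + 2 * (n:ℝ)) ^ (-(7:ℝ)/2) := by
    intro n
    have hn12 : (0 : ℝ) < 1 + 2 * n := by positivity
    have h1 : 1 + 2 * (n : ℝ) ≤ Real.exp (2 * n) := by
      have := Real.add_one_le_exp (2 * (n : ℝ)); linarith
    calc Real.exp (-(7 * (n : ℝ))) = (Real.exp (2 * n)) ^ (-(7:ℝ)/2) := by
          rw [← Real.exp_mul]; congr 1; ring
      _ ≤ _ := by
          apply Real.rpow_le_rpow_of_nonpos hn12 h1 (by norm_num)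
  have hcmin1 : min (min (c0 / 2) (c0 / (2 * C))) (1 / 2) ≤ c0 / 2 :=
    (min_le_left _ _).trans (min_le_left _ _)
  have hcmin2 : min (min (c0 / 2) (c0 / (2 * C))) (1 / 2) ≤ c0 / (2 * C) :=
    (min_le_left _ _).trans (min_le_right _ _)
  have hcmin3 : min (min (c0 / 2) (c0 / (2 * C))) (1 / 2) ≤ 1 / 2 := min_le_right _ _
  refine ⟨de, hde, d1, y, hy, hyJ, hP1, ?_, hys, ?_⟩
  · intro n hn
    have hn0 : (0 : ℝ) ≤ n := Nat.cast_nonneg n
    by_cases hcase : C * de ≤ c0 / 2 * Real.exp (-(b0 * n))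
    · have h1 := hlow n hn
      have h2 := hlamdiff n
      have h3 : Real.exp (-((b0 + 7) * n)) ≤ Real.exp (-(b0 * n)) := by
        apply Real.exp_le_exp.mpr; nlinarith
      calc _ ≤ c0 / 2 * Real.exp (-(b0 * n)) :=
            mul_le_mul hcmin1 h3 (Real.exp_pos _).le (by positivity)
        _ ≤ |lam y n| := by linarith
    · push Not at hcase
      have h1 : c0 / (2 * C) * Real.exp (-(b0 * n)) ≤ de := by
        have e : c0 / (2 * C) * Real.exp (-(b0 * n)) = (c0 / 2 * Real.exp (-(b0 * n))) / C := by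
          field_simp
        rw [e, div_le_iff₀ hC]
        linarith
      calc _ ≤ c0 / (2 * C) * Real.exp (-((b0 + 7) * n)) :=
            mul_le_mul_of_nonneg_right hcmin2 (Real.exp_pos _).le
        _ = (c0 / (2 * C) * Real.exp (-(b0 * n))) * Real.exp (-(7 * (n : ℝ))) := by
            rw [mul_assoc, ← Real.exp_add]; congr 2; ring
        _ ≤ (K * de) * (1 + 2 * (n:ℝ)) ^ (-(7:ℝ)/2) := by
            apply mul_le_mul _ (hexp7 n) (Real.exp_pos _).le (by positivity)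
            nlinarith
        _ ≤ |lam y n| := hP1 n hn
  · intro k hk
    have hkr : (1 : ℝ) ≤ k := by exact_mod_cast hk
    have h7 : (7 : ℝ) ≤ Real.exp 2 := by
      have e : Real.exp 2 = Real.exp 1 * Real.exp 1 := by rw [← Real.exp_add]; norm_num
      have := Real.exp_one_gt_d9
      rw [e]; nlinarith
    have h7k : Real.exp (-(2 * (k : ℝ))) ≤ 1 / 7 ^ k := by
      have e : Real.exp (-(2 * (k : ℝ))) = 1 / (Real.exp 2) ^ k := by
        rw [← Real.exp_nat_mul, Real.exp_neg, one_div, mul_comm]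
      rw [e]
      apply one_div_le_one_div_of_le (by positivity)
      exact pow_le_pow_left₀ (by norm_num) h7 k
    have hsin : |Real.sin (2 * k * al0)| - 2 * k * de ≤ |Real.sin (2 * k * y)| := by
      have e1 : |Real.sin (2 * k * al0) - Real.sin (2 * k * y)| ≤ 2 * k * de := by
        have e2 : |Real.sin (2 * k * al0) - Real.sin (2 * k * y)| ≤
            |2 * k * al0 - 2 * k * y| := by
          have := Real.abs_sin_sub_sin_le (2 * k * al0) (2 * k * y)
          exact this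
        have e3 : |2 * (k : ℝ) * al0 - 2 * k * y| = 2 * k * |y - al0| := by
          rw [← mul_sub, abs_mul, abs_of_nonneg (by positivity : 0 ≤ 2 * (k : ℝ)), abs_sub_comm]
        rw [e3] at e2
        refine e2.trans ?_
        exact mul_le_mul_of_nonneg_left hyal (by positivity)
      have e4 := abs_sub_abs_le_abs_sub (Real.sin (2 * k * al0)) (Real.sin (2 * k * y))
      linarith
    by_cases hcase : 2 * k * de ≤ 1 / 7 ^ k
    · have h1 := sin_al0_lower k hk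
      have h2 : Real.exp (-((b0 + 7) * k)) ≤ Real.exp (-(2 * (k : ℝ))) := by
        apply Real.exp_le_exp.mpr; nlinarith
      have e : (2 : ℝ) / 7 ^ k = 2 * (1 / 7 ^ k) := by ring
      rw [e] at h1
      calc _ ≤ 1 / 2 * Real.exp (-(2 * (k : ℝ))) :=
            mul_le_mul hcmin3 h2 (Real.exp_pos _).le (by norm_num)
        _ ≤ 1 / 7 ^ k := by
            have := Real.exp_pos (-(2 * (k : ℝ)))
            linarith
        _ ≤ _ := by linarith
    · push Not at hcase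
      have hke : (k : ℝ) ≤ Real.exp k := by
        have := Real.add_one_le_exp (k : ℝ); linarith
      have h1 : 1 / 7 ^ k / (2 * k) ≤ de := by
        rw [div_le_iff₀ (by positivity)]
        linarith
      have h2 : Real.exp (-(2 * (k : ℝ))) / (2 * k) ≤ de :=
        le_trans (div_le_div_of_nonneg_right h7k (by positivity)) h1
      have h3 : 1 / 2 * Real.exp (-(4 * (k : ℝ))) ≤ de / k := by
        rw [le_div_iff₀ (by positivity)]
        have e1 : Real.exp (-(4 * (k : ℝ))) * (Real.exp k * Real.exp k) =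
            Real.exp (-(2 * (k : ℝ))) := by
          rw [← Real.exp_add, ← Real.exp_add]; congr 1; ring
        have e2 : (k : ℝ) * k ≤ Real.exp k * Real.exp k :=
          mul_le_mul hke hke (by positivity) (Real.exp_pos _).le
        have e3 : Real.exp (-(4 * (k : ℝ))) * (k * k) ≤ Real.exp (-(2 * (k : ℝ))) := by
          rw [← e1]
          exact mul_le_mul_of_nonneg_left e2 (Real.exp_pos _).le
        rw [div_le_iff₀ (by positivity)] at h2
        have hk0 : (0 : ℝ) < k := by linarith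
        have e4 : Real.exp (-(4 * (k : ℝ))) * (k * k) ≤ de * (2 * k) := e3.trans h2
        have e5 : (1 / 2 * Real.exp (-(4 * (k : ℝ))) * k) * (2 * k) ≤ de * (2 * k) := by
          calc _ = Real.exp (-(4 * (k : ℝ))) * (k * k) := by ring
            _ ≤ _ := e4
        exact le_of_mul_le_mul_right e5 (by positivity)
      have h4 : Real.exp (-((b0 + 7) * k)) ≤ Real.exp (-(4 * (k : ℝ))) := by
        apply Real.exp_le_exp.mpr; nlinarith
      calc _ ≤ 1 / 2 * Real.exp (-(4 * (k : ℝ))) :=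
            mul_le_mul hcmin3 h4 (Real.exp_pos _).le (by norm_num)
        _ ≤ de / k := h3
        _ ≤ _ := hys k hk

end FB
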