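import Pool.Agent.H48.FB.E01
import Pool.Agent.H48.FB.D05
import Pool.Agent.H48.FB.G03
import Pool.Agent.H48.FB.H05

/-! G04: scaling relations at the circle. -/

open Complex Set MeasureTheory Filter Topology

noncomputable section

namespace FB

private lemma g04_sin {t : ℂ} (ht : 1 < t.im) (s : ℝ) : sin (t + (s:ℂ)) ≠ 0 :=
  sin_ne_zero_of_im (by simp; linarith)

private lemma g04_sin0 {t : ℂ} (ht : 1 < t.im) : sin t ≠ 0 := sin_ne_zero_of_im (by linarith)

private lemma g04_yy {al : ℝ} {Z X : ℂ → ℂ} {h t : ℂ} (hh : h ≠ 0) (ht : 1 < t.im) (s : ℝ) :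
    yy al (fun z => h * Z z) (fun z => h * X z) t (s:ℂ) = yy al Z X t (s:ℂ) := by
  have h1 : chi al (fun z => h * Z z) (fun z => h * X z) t (s:ℂ) = h ^ 2 * chi al Z X t (s:ℂ) := by
    unfold chi Hq nz nx et nz nx df md
    ring
  have h2 : nu al (fun z => h * Z z) t = h * nu al Z t := by
    unfold nu
    rw [if_neg (g04_sin0 ht), if_neg (g04_sin0 ht)]
    unfold nx df
    ring
  have h3 : xi (fun z => h * X z) (t + (s:ℂ)) = h * xi X (t + (s:ℂ)) := by
    unfold xi
    rw [if_neg (g04_sin ht s), if_neg (g04_sin ht s)]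
    ring
  unfold yy om
  rw [h1, h2, h3]
  congr 3
  rw [show h * nu al Z t * (h * xi X (t + (s:ℂ))) = h ^ 2 * (nu al Z t * xi X (t + (s:ℂ))) by ring]
  exact mul_div_mul_left _ _ (pow_ne_zero 2 hh)

private lemma g04_deriv (Z : ℂ → ℂ) (h b : ℂ) : deriv (fun z => h * Z z) b = h * deriv Z b := by
  exact deriv_const_mul_field h

private lemma g04_V {al : ℝ} {Z X : ℂ → ℂ} {h t : ℂ} (hh : h ≠ 0) (ht : 1 < t.im) :
    Vf al (fun z => h * Z z) (fun z => h * X z) t = h ^ 3 * Vf al Z X t := by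
  unfold Vf
  rw [← intervalIntegral.integral_const_mul]
  congr 1
  funext s
  rw [g04_yy hh ht, g04_deriv]
  ring

private lemma g04_Pz {al : ℝ} {Z X : ℂ → ℂ} {h t : ℂ} (hh : h ≠ 0) (ht : 1 < t.im) :
    Pzf al (fun z => h * Z z) (fun z => h * X z) t = h ^ 4 * Pzf al Z X t := by
  unfold Pzf
  rw [← intervalIntegral.integral_const_mul]
  congr 1
  funext s
  rw [g04_yy hh ht, g04_deriv]
  ring

private lemma g04_Px {al : ℝ} {Z X : ℂ → ℂ} {h t : ℂ} (hh : h ≠ 0) (ht : 1 < t.im) :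
    Pxf al (fun z => h * Z z) (fun z => h * X z) t = h ^ 4 * Pxf al Z X t := by
  unfold Pxf
  rw [← intervalIntegral.integral_const_mul]
  congr 1
  funext s
  rw [g04_yy hh ht, g04_deriv]
  ring

private lemma g04_S {al : ℝ} {Z X : ℂ → ℂ} {h t : ℂ} (hh : h ≠ 0) (ht : 1 < t.im) :
    Sf al (fun z => h * Z z) (fun z => h * X z) t = h ^ 5 * Sf al Z X t := by
  have h1 : nz al (fun z => h * X z) t = h * nz al X t := by unfold nz df; ring
  have h2 : nx al (fun z => h * Z z) t = h * nx al Z t := by unfold nx df; ring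
  have h3 : et al (fun z => h * Z z) (fun z => h * X z) t = h ^ 2 * et al Z X t := by
    unfold et nz nx df md
    ring
  unfold Sf
  rw [h1, h2, h3, g04_V hh ht, g04_Pz hh ht, g04_Px hh ht]
  ring

/-- Scaling: `Vf al (h cos) (h sin) = h^3 Vf al cos sin`, `Sf` scales with `h^5` (`yy` is invariant for `h` near `1`: `chi -> h^2 chi`, `nu -> h nu`,
`xi -> h xi`, and the principal powers multiply near `1`). Differentiate at `h = 1` (`line_deriv` with `(A, B) = (cos, sin)`, `h = 1 + w`). -/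
theorem DV_scaling {al : ℝ} (hal : al ∈ JJ) {t : ℂ} (ht : 1 < t.im) :
    DV al cos sin cos sin t = 3 * (Vs al : ℂ) ∧
    DS al cos sin cos sin t = 5 * ((Real.sin al : ℂ) * ((M0 al : ℂ) - (Real.cos al : ℂ) * (Vs al : ℂ))) := by
  obtain ⟨-, -, -, hV, -, -, hS⟩ := circle_values hal ht
  set R := t.im + 1 with hR
  have hR1 : 1 < R := by linarith
  obtain ⟨c0, hc0, H⟩ := line_deriv R hR1
  have hb := b01_bound_E (R := R) hR1 (a := 1) (b := R) (by linarith) le_rfl
  have hdir : DirBd (Real.exp R) 1 R cos sin :=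
    ⟨differentiable_cos.differentiableOn, differentiable_sin.differentiableOn, fun z hz => (hb z hz).1,
      fun z hz => (hb z hz).2, fun z hz => by rw [Complex.deriv_cos, norm_neg]; exact (hb z hz).2,
      fun z hz => by rw [Complex.deriv_sin]; exact (hb z hz).1⟩
  obtain ⟨d1, -, -, d4⟩ := H al hal 1 R le_rfl le_rfl cos sin ((NB_circle 1 R).mono hc0.le le_rfl le_rfl)
    cos sin (Real.exp R) hdir t ⟨ht, by rw [hR]; linarith⟩
  have hne : ∀ᶠ w : ℂ in 𝓝 0, (1:ℂ) + w ≠ 0 := by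
    have : Tendsto (fun w : ℂ => (1:ℂ) + w) (𝓝 0) (𝓝 (1 + 0)) := (continuous_const.add continuous_id).tendsto 0
    rw [add_zero] at this
    exact this.eventually_ne one_ne_zero
  have hfc : ∀ w : ℂ, (fun z => cos z + w * cos z) = fun z => (1 + w) * cos z := by
    intro w; funext z; ring
  have hfs : ∀ w : ℂ, (fun z => sin z + w * sin z) = fun z => (1 + w) * sin z := by
    intro w; funext z; ring
  have hpow : ∀ (n : ℕ) (v : ℂ), HasDerivAt (fun w : ℂ => (1 + w) ^ n * v) (n * v) 0 := by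
    intro n v
    have h1 : HasDerivAt (fun w : ℂ => (1:ℂ) + w) 1 0 := (hasDerivAt_id (0:ℂ)).const_add 1
    have h2 := (h1.pow n).mul_const v
    refine h2.congr_deriv ?_
    simp
  constructor
  · have e1 : (fun w : ℂ => Vf al (fun z => cos z + w * cos z) (fun z => sin z + w * sin z) t) =ᶠ[𝓝 0]
        fun w => (1 + w) ^ 3 * Vf al cos sin t := by
      filter_upwards [hne] with w hw
      rw [hfc, hfs, g04_V hw ht]
    have e2 := (d1.congr_of_eventuallyEq e1.symm).unique (hpow 3 _)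
    rw [e2, hV]
    norm_num
  · have e1 : (fun w : ℂ => Sf al (fun z => cos z + w * cos z) (fun z => sin z + w * sin z) t) =ᶠ[𝓝 0]
        fun w => (1 + w) ^ 5 * Sf al cos sin t := by
      filter_upwards [hne] with w hw
      rw [hfc, hfs, g04_S hw ht]
    have e2 := (d4.congr_of_eventuallyEq e1.symm).unique (hpow 5 _)
    rw [e2, hS]
    norm_num

private lemma g04_PL0 : PL 0 = fun _ => (1:ℂ) := by
  funext z
  unfold PL cc
  simp

/-- `DS = DS0 + n.P - 2 et V` (direction `(cos, sin)`: `df B = nz`, `- df A = nx`, `Det = 2 et`), `DS0 (cos, sin) = Top 2 = 2 lam al 0`. -/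
theorem lam0_rel {al : ℝ} (hal : al ∈ JJ) :
    2 * lam al 0 = 4 * M0 al * Real.sin al - 3 * Real.sin al * Real.cos al * Vs al := by
  obtain ⟨hJ1, hJ2, -, -, -, hJ5, hJ6⟩ := JJ_bounds hal
  set t : ℂ := 2 * I with htd
  have ht : 1 < t.im := by rw [htd]; simp
  have ht3 : t ∈ band 1 3 := by
    rw [mem_band, htd]
    norm_num
  obtain ⟨-, -, -, hV, hPz, hPx, -⟩ := circle_values hal ht
  obtain ⟨-, hDS⟩ := DV_scaling hal ht
  obtain ⟨k1, k2, k3, k4, k5, k6, -⟩ := circle_chord al (by linarith) t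
  have hL := (DS0_circle (f := fun _ => (2:ℂ)) (b := 3) hal continuousOn_const ht3).1
  have hfc : (fun z : ℂ => (2:ℂ) / 2 * cos z) = cos := by funext z; ring
  have hfs : (fun z : ℂ => (2:ℂ) / 2 * sin z) = sin := by funext z; ring
  rw [hfc, hfs] at hL
  have hL2 : L0 al (fun _ => (2:ℂ)) t = 2 * L0 al (PL 0) t := by
    rw [g04_PL0]
    unfold L0
    rw [← intervalIntegral.integral_const_mul]
    congr 1
    funext s
    ring
  rw [hL2, L0_PL hal 0 ht, g04_PL0] at hL
  unfold DS at hDS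
  rw [hL, hPz, hPx, hV] at hDS
  unfold Det at hDS
  rw [k1, k2, k3, k4, k5, k6] at hDS
  have hsc : cos t ^ 2 = 1 - sin t ^ 2 := by
    rw [← Complex.sin_sq_add_cos_sq t]; ring
  have key : (2:ℂ) * (lam al 0 : ℂ) = 4 * (M0 al : ℂ) * (Real.sin al : ℂ) -
      3 * (Real.sin al : ℂ) * (Real.cos al : ℂ) * (Vs al : ℂ) := by
    linear_combination hDS - ((Real.sin al : ℂ) * (M0 al : ℂ) - 2 * (Real.sin al : ℂ) * (Real.cos al : ℂ) * (Vs al : ℂ)) * hsc
  exact_mod_cast key

/-- `D0 > 0`, `1 + (3/2) Vs sin cos/lam_0 = 2 M0 sin al/lam_0` -/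
theorem D0_rel {al : ℝ} (hal : al ∈ JJ) : 0 < lam al 0 ∧
    1 + 3 / 2 * Vs al * (Real.sin al * Real.cos al / lam al 0) = 2 * M0 al * Real.sin al / lam al 0 := by
  obtain ⟨hJ1, hJ2, hJ3, -, hJ4, hJ5, hJ6⟩ := JJ_bounds hal
  have h0 : 0 < lam al 0 := by
    rw [lam_zero (by linarith) hJ3]
    have : 0 < 1 - Real.cos al := by linarith
    have : 0 < Real.sin al := by linarith
    positivity
  refine ⟨h0, ?_⟩
  have h1 := lam0_rel hal
  field_simp
  linarith

end FB
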