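import Pool.Agent.H48.FB.F01
import Pool.Agent.H48.FB.G04

/-! F03: comparison with the linearisation at the circle. -/

open Complex Set MeasureTheory Filter Topology

noncomputable section

namespace FB

theorem f03_hasDeriv {f : ℂ → ℂ} {a b : ℝ} (hf : DifferentiableOn ℂ f (band a b)) {z : ℂ} (hz : z ∈ band a b) :
    HasDerivAt f (deriv f z) z := (hf.differentiableAt ((isOpen_band _ _).mem_nhds hz)).hasDerivAt

theorem f03_nb {c0 c d a b : ℝ} {Z X A B : ℂ → ℂ} (h : NB c a b Z X) (h' : DirBd d a b A B) {p q : ℂ}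
    (hpq : ‖p‖ * c + ‖q‖ * d ≤ c0) :
    NB c0 a b (fun z => cos z + p * (Z z - cos z) + q * A z) (fun z => sin z + p * (X z - sin z) + q * B z) := by
  have key : ∀ u v : ℂ, ‖u‖ ≤ c → ‖v‖ ≤ d → ‖p * u + q * v‖ ≤ c0 := fun u v hu hv => by
    refine (norm_add_le _ _).trans (le_trans ?_ hpq)
    rw [norm_mul, norm_mul]
    exact add_le_add (mul_le_mul_of_nonneg_left hu (norm_nonneg _)) (mul_le_mul_of_nonneg_left hv (norm_nonneg _))
  have d1 : ∀ z ∈ band a b, HasDerivAt (fun z => cos z + p * (Z z - cos z) + q * A z)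
      (-sin z + p * (deriv Z z - (-sin z)) + q * deriv A z) z := fun z hz =>
    ((Complex.hasDerivAt_cos z).add (((f03_hasDeriv h.dZ hz).sub (Complex.hasDerivAt_cos z)).const_mul p)).add
      ((f03_hasDeriv h'.dA hz).const_mul q)
  have d2 : ∀ z ∈ band a b, HasDerivAt (fun z => sin z + p * (X z - sin z) + q * B z)
      (cos z + p * (deriv X z - cos z) + q * deriv B z) z := fun z hz =>
    ((Complex.hasDerivAt_sin z).add (((f03_hasDeriv h.dX hz).sub (Complex.hasDerivAt_sin z)).const_mul p)).add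
      ((f03_hasDeriv h'.dB hz).const_mul q)
  constructor
  · exact fun z hz => (d1 z hz).differentiableAt.differentiableWithinAt
  · exact fun z hz => (d2 z hz).differentiableAt.differentiableWithinAt
  · intro z hz
    rw [show cos z + p * (Z z - cos z) + q * A z - cos z = p * (Z z - cos z) + q * A z by ring]
    exact key _ _ (h.z0 z hz) (h'.a0 z hz)
  · intro z hz
    rw [show sin z + p * (X z - sin z) + q * B z - sin z = p * (X z - sin z) + q * B z by ring]
    exact key _ _ (h.x0 z hz) (h'.b0 z hz)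
  · intro z hz
    rw [(d1 z hz).deriv]
    rw [show -sin z + p * (deriv Z z - -sin z) + q * deriv A z + sin z = p * (deriv Z z + sin z) + q * deriv A z by ring]
    exact key _ _ (h.z1 z hz) (h'.a1 z hz)
  · intro z hz
    rw [(d2 z hz).deriv]
    rw [show cos z + p * (deriv X z - cos z) + q * deriv B z - cos z = p * (deriv X z - cos z) + q * deriv B z by ring]
    exact key _ _ (h.x1 z hz) (h'.b1 z hz)

theorem f03_dir {c a b : ℝ} {Z X : ℂ → ℂ} (h : NB c a b Z X) :
    DirBd c a b (fun z => Z z - cos z) (fun z => X z - sin z) := by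
  have d1 : ∀ z ∈ band a b, HasDerivAt (fun z => Z z - cos z) (deriv Z z - (-sin z)) z := fun z hz =>
    (f03_hasDeriv h.dZ hz).sub (Complex.hasDerivAt_cos z)
  have d2 : ∀ z ∈ band a b, HasDerivAt (fun z => X z - sin z) (deriv X z - cos z) z := fun z hz =>
    (f03_hasDeriv h.dX hz).sub (Complex.hasDerivAt_sin z)
  constructor
  · exact fun z hz => (d1 z hz).differentiableAt.differentiableWithinAt
  · exact fun z hz => (d2 z hz).differentiableAt.differentiableWithinAt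
  · exact h.z0
  · exact h.x0
  · intro z hz
    rw [(d1 z hz).deriv, sub_neg_eq_add]
    exact h.z1 z hz
  · intro z hz
    rw [(d2 z hz).deriv]
    exact h.x1 z hz

theorem f03_dir_add {c d a b : ℝ} {A B A' B' : ℂ → ℂ} (h : DirBd c a b A B) (h' : DirBd d a b A' B') :
    DirBd (c + d) a b (fun z => A z + A' z) (fun z => B z + B' z) := by
  have d1 : ∀ z ∈ band a b, HasDerivAt (fun z => A z + A' z) (deriv A z + deriv A' z) z := fun z hz =>
    (f03_hasDeriv h.dA hz).add (f03_hasDeriv h'.dA hz)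
  have d2 : ∀ z ∈ band a b, HasDerivAt (fun z => B z + B' z) (deriv B z + deriv B' z) z := fun z hz =>
    (f03_hasDeriv h.dB hz).add (f03_hasDeriv h'.dB hz)
  constructor
  · exact fun z hz => (d1 z hz).differentiableAt.differentiableWithinAt
  · exact fun z hz => (d2 z hz).differentiableAt.differentiableWithinAt
  · exact fun z hz => (norm_add_le _ _).trans (add_le_add (h.a0 z hz) (h'.a0 z hz))
  · exact fun z hz => (norm_add_le _ _).trans (add_le_add (h.b0 z hz) (h'.b0 z hz))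
  · intro z hz
    rw [(d1 z hz).deriv]
    exact (norm_add_le _ _).trans (add_le_add (h.a1 z hz) (h'.a1 z hz))
  · intro z hz
    rw [(d2 z hz).deriv]
    exact (norm_add_le _ _).trans (add_le_add (h.b1 z hz) (h'.b1 z hz))

theorem f03_dir_mul {d a b : ℝ} {A B : ℂ → ℂ} (h : DirBd d a b A B) (w : ℂ) :
    DirBd (‖w‖ * d) a b (fun z => w * A z) (fun z => w * B z) := by
  have d1 : ∀ z ∈ band a b, HasDerivAt (fun z => w * A z) (w * deriv A z) z := fun z hz =>
    (f03_hasDeriv h.dA hz).const_mul w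
  have d2 : ∀ z ∈ band a b, HasDerivAt (fun z => w * B z) (w * deriv B z) z := fun z hz =>
    (f03_hasDeriv h.dB hz).const_mul w
  constructor
  · exact fun z hz => (d1 z hz).differentiableAt.differentiableWithinAt
  · exact fun z hz => (d2 z hz).differentiableAt.differentiableWithinAt
  · intro z hz; rw [norm_mul]; exact mul_le_mul_of_nonneg_left (h.a0 z hz) (norm_nonneg _)
  · intro z hz; rw [norm_mul]; exact mul_le_mul_of_nonneg_left (h.b0 z hz) (norm_nonneg _)
  · intro z hz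
    rw [(d1 z hz).deriv, norm_mul]
    exact mul_le_mul_of_nonneg_left (h.a1 z hz) (norm_nonneg _)
  · intro z hz
    rw [(d2 z hz).deriv, norm_mul]
    exact mul_le_mul_of_nonneg_left (h.b1 z hz) (norm_nonneg _)

/-- good functionals: analytic along lines of curves, and bounded -/
def F03Good (c0 C a b : ℝ) (Φ : (ℂ → ℂ) → (ℂ → ℂ) → ℂ) : Prop :=
  ∀ Z X A B : ℂ → ℂ, ∀ T d : ℝ, 0 < T → DirBd d a b A B →
      (∀ w ∈ Metric.ball (0:ℂ) T, NB c0 a b (fun z => Z z + w * A z) (fun z => X z + w * B z)) →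
      DifferentiableOn ℂ (fun w : ℂ => Φ (fun z => Z z + w * A z) (fun z => X z + w * B z)) (Metric.ball 0 T) ∧
      ∀ w ∈ Metric.ball (0:ℂ) T, ‖Φ (fun z => Z z + w * A z) (fun z => X z + w * B z)‖ ≤ C

/-- the mixed difference -/
theorem f03_core {Φ : (ℂ → ℂ) → (ℂ → ℂ) → ℂ} {c0 C a b : ℝ} (hc0 : 0 < c0) (hΦ : F03Good c0 C a b Φ)
    {c d : ℝ} (hc : 0 ≤ c) (hc' : c ≤ c0/8) (hd : 0 ≤ d) (hd' : d ≤ c0/8) {Z X A B : ℂ → ℂ} (h : NB c a b Z X)
    (h' : DirBd d a b A B) :
    ‖Φ (fun z => Z z + A z) (fun z => X z + B z) - Φ Z X -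
      (Φ (fun z => cos z + A z) (fun z => sin z + B z) - Φ cos sin)‖ ≤ 256 * C / c0 ^ 2 * c * d := by
  set L := ‖Φ (fun z => Z z + A z) (fun z => X z + B z) - Φ Z X -
      (Φ (fun z => cos z + A z) (fun z => sin z + B z) - Φ cos sin)‖ with hL
  have key : ∀ ε ∈ Ioc (0:ℝ) (c0/8), L ≤ 256 * C / c0 ^ 2 * (c + ε) * (d + ε) := by
    intro ε hε
    obtain ⟨e0, e1⟩ := hε
    have hcε : 0 < c + ε := by linarith
    have hdε : 0 < d + ε := by linarith
    set T1 := c0 / (2 * (c + ε)) with hT1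
    set T2 := c0 / (2 * (d + ε)) with hT2
    have t1 : 2 ≤ T1 := by
      rw [hT1, le_div_iff₀ (by positivity)]; linarith
    have t2 : 2 ≤ T2 := by
      rw [hT2, le_div_iff₀ (by positivity)]; linarith
    have t1c : T1 * c ≤ c0 / 2 := by
      rw [hT1, div_mul_eq_mul_div, div_le_div_iff₀ (by positivity) (by norm_num)]
      nlinarith
    have t2d : T2 * d ≤ c0 / 2 := by
      rw [hT2, div_mul_eq_mul_div, div_le_div_iff₀ (by positivity) (by norm_num)]
      nlinarith
    have nb : ∀ s ∈ Metric.ball (0:ℂ) T1, ∀ w ∈ Metric.ball (0:ℂ) T2,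
        NB c0 a b (fun z => cos z + s * (Z z - cos z) + w * A z) (fun z => sin z + s * (X z - sin z) + w * B z) := by
      intro s hs w hw
      rw [mem_ball_zero_iff] at hs hw
      refine f03_nb h h' ?_
      have m1 : ‖s‖ * c ≤ T1 * c := mul_le_mul_of_nonneg_right hs.le hc
      have m2 : ‖w‖ * d ≤ T2 * d := mul_le_mul_of_nonneg_right hw.le hd
      linarith
    have fe : ∀ s w : ℂ, ∀ f g k : ℂ → ℂ, (fun z => f z + s * (g z - f z) + w * k z) =
        (fun z => (f z + w * k z) + s * (g z - f z)) := fun s w f g k => by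
      funext z; ring
    have l1 := fun w (hw : w ∈ Metric.ball (0:ℂ) T2) => hΦ (fun z => cos z + w * A z) (fun z => sin z + w * B z)
      (fun z => Z z - cos z) (fun z => X z - sin z) T1 c (by linarith) (f03_dir h) (fun s hs => by
        have := nb s hs w hw
        rw [fe s w cos Z A, fe s w sin X B] at this
        exact this)
    have l2 := fun s (hs : s ∈ Metric.ball (0:ℂ) T1) => hΦ (fun z => cos z + s * (Z z - cos z)) (fun z => sin z + s * (X z - sin z))
      A B T2 d (by linarith) h' (fun w hw => nb s hs w hw)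
    have tm := taylor_mixed (G := fun s w => Φ (fun z => cos z + s * (Z z - cos z) + w * A z)
      (fun z => sin z + s * (X z - sin z) + w * B z)) (C := C) t1 t2
      (fun w hw => by
        have := (l1 w hw).1
        simp only [← fe] at this
        exact this)
      (fun s hs => (l2 s hs).1)
      (fun s hs w hw => (l2 s hs).2 w hw)
    have a1 : (fun z => cos z + 1 * (Z z - cos z) + 1 * A z) = (fun z => Z z + A z) := by funext z; ring
    have a2 : (fun z => sin z + 1 * (X z - sin z) + 1 * B z) = (fun z => X z + B z) := by funext z; ring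
    have a3 : (fun z => cos z + 1 * (Z z - cos z) + 0 * A z) = Z := by funext z; ring
    have a4 : (fun z => sin z + 1 * (X z - sin z) + 0 * B z) = X := by funext z; ring
    have a5 : (fun z => cos z + 0 * (Z z - cos z) + 1 * A z) = (fun z => cos z + A z) := by funext z; ring
    have a6 : (fun z => sin z + 0 * (X z - sin z) + 1 * B z) = (fun z => sin z + B z) := by funext z; ring
    have a7 : (fun z => cos z + 0 * (Z z - cos z) + 0 * A z) = cos := by funext z; ring
    have a8 : (fun z => sin z + 0 * (X z - sin z) + 0 * B z) = sin := by funext z; ring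
    simp only [a1, a2, a3, a4, a5, a6, a7, a8] at tm
    have e : L = ‖Φ (fun z => Z z + A z) (fun z => X z + B z) - Φ Z X -
      Φ (fun z => cos z + A z) (fun z => sin z + B z) + Φ cos sin‖ := by
      rw [hL]; congr 1; ring
    rw [e]
    refine tm.trans (le_of_eq ?_)
    rw [hT1, hT2]
    field_simp
    ring
  have lim : Tendsto (fun ε : ℝ => 256 * C / c0 ^ 2 * (c + ε) * (d + ε)) (𝓝[>] 0) (𝓝 (256 * C / c0 ^ 2 * c * d)) := by
    have : Continuous (fun ε : ℝ => 256 * C / c0 ^ 2 * (c + ε) * (d + ε)) := by fun_prop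
    have h0 := this.tendsto 0
    simp only [add_zero] at h0
    exact h0.mono_left nhdsWithin_le_nhds
  refine ge_of_tendsto lim ?_
  filter_upwards [Ioc_mem_nhdsGT (show (0:ℝ) < c0/8 by positivity)] with ε hε using key ε hε

/-- Lipschitz bound -/
theorem f03_lip {Φ : (ℂ → ℂ) → (ℂ → ℂ) → ℂ} {c0 C a b : ℝ} (hc0 : 0 < c0) (hΦ : F03Good c0 C a b Φ)
    {c : ℝ} (hc : 0 ≤ c) (hc' : c ≤ c0/8) {Z X : ℂ → ℂ} (h : NB c a b Z X) :
    ‖Φ Z X - Φ cos sin‖ ≤ 16 * C / c0 * c := by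
  have key : ∀ ε ∈ Ioc (0:ℝ) (c0/8), ‖Φ Z X - Φ cos sin‖ ≤ 16 * C / c0 * (c + ε) := by
    intro ε hε
    obtain ⟨e0, e1⟩ := hε
    have hcε : 0 < c + ε := by linarith
    set T1 := c0 / (2 * (c + ε)) with hT1
    have t1 : 2 ≤ T1 := by
      rw [hT1, le_div_iff₀ (by positivity)]; linarith
    have t1c : T1 * c ≤ c0 := by
      rw [hT1, div_mul_eq_mul_div, div_le_iff₀ (by positivity)]
      nlinarith
    have l := hΦ cos sin (fun z => Z z - cos z) (fun z => X z - sin z) T1 c (by linarith) (f03_dir h) (fun s hs => by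
      rw [mem_ball_zero_iff] at hs
      have := f03_nb (c0 := c0) (p := s) (q := 0) h (f03_dir h) (by
        rw [norm_zero, zero_mul, add_zero]
        exact (mul_le_mul_of_nonneg_right hs.le hc).trans t1c)
      simpa using this)
    have tm := (taylor_one t1 l.1 l.2).1
    have a3 : (fun z => cos z + 1 * (Z z - cos z)) = Z := by funext z; ring
    have a4 : (fun z => sin z + 1 * (X z - sin z)) = X := by funext z; ring
    have a7 : (fun z => cos z + 0 * (Z z - cos z)) = cos := by funext z; ring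
    have a8 : (fun z => sin z + 0 * (X z - sin z)) = sin := by funext z; ring
    simp only [a3, a4, a7, a8] at tm
    refine tm.trans (le_of_eq ?_)
    rw [hT1]
    field_simp
    ring
  have lim : Tendsto (fun ε : ℝ => 16 * C / c0 * (c + ε)) (𝓝[>] 0) (𝓝 (16 * C / c0 * c)) := by
    have : Continuous (fun ε : ℝ => 16 * C / c0 * (c + ε)) := by fun_prop
    have h0 := this.tendsto 0
    simp only [add_zero] at h0
    exact h0.mono_left nhdsWithin_le_nhds
  refine ge_of_tendsto lim ?_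
  filter_upwards [Ioc_mem_nhdsGT (show (0:ℝ) < c0/8 by positivity)] with ε hε using key ε hε


theorem f03_bd {Φ : (ℂ → ℂ) → (ℂ → ℂ) → ℂ} {c0 C a b : ℝ} (hΦ : F03Good c0 C a b Φ) {Z X : ℂ → ℂ} (h : NB c0 a b Z X) :
    ‖Φ Z X‖ ≤ C := by
  have hd : DirBd 0 a b (fun _ => 0) (fun _ => 0) := by
    constructor
    · exact differentiableOn_const _
    · exact differentiableOn_const _
    all_goals intro z _; simp
  have := (hΦ Z X (fun _ => 0) (fun _ => 0) 1 0 one_pos hd (fun w _ => by simpa using h)).2 0 (by simp)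
  simpa using this

theorem f03_fnb {c0 a b : ℝ} {Z X : ℂ → ℂ} (h : NB c0 a b Z X) : FNB c0 a b (fun _ => Z) (fun _ => X) :=
  ⟨Fam.const h.dZ, Fam.const h.dX, fun _ => h⟩

theorem f03_good (R : ℝ) (hR : 1 < R) : ∃ c0 C : ℝ, 0 < c0 ∧ 1 ≤ C ∧ ∀ al ∈ JJ, ∀ a b : ℝ, 1 ≤ a → b ≤ R → ∀ t ∈ band a b,
    F03Good c0 C a b (fun Z X => Vf al Z X t) ∧ F03Good c0 C a b (fun Z X => Sf al Z X t) ∧
    F03Good c0 C a b (fun Z X => ell al Z X t) ∧ F03Good c0 C a b (fun Z X => Yf al Z X t) ∧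
    F03Good c0 C a b (fun Z X => et al Z X t) ∧ F03Good c0 C a b (fun Z X => Pzf al Z X t) ∧
    F03Good c0 C a b (fun Z X => Pxf al Z X t) := by
  obtain ⟨c1, C1, hc1, hC1, h1⟩ := line_analytic R hR
  obtain ⟨c2, hc2, h2⟩ := line_deriv R hR
  obtain ⟨c3, C3, hc3, hC3, h3⟩ := fam_functionals R hR
  have m1 : min c1 (min c2 c3) ≤ c1 := min_le_left _ _
  have m2 : min c1 (min c2 c3) ≤ c2 := (min_le_right _ _).trans (min_le_left _ _)
  have m3 : min c1 (min c2 c3) ≤ c3 := (min_le_right _ _).trans (min_le_right _ _)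
  refine ⟨min c1 (min c2 c3), max C1 C3, lt_min hc1 (lt_min hc2 hc3), hC1.trans (le_max_left _ _), ?_⟩
  intro al hal a b ha hb t ht
  have hab : a < b := ht.1.trans ht.2
  have L : ∀ Z X A B : ℂ → ℂ, ∀ T d : ℝ, 0 < T → DirBd d a b A B →
      (∀ w ∈ Metric.ball (0:ℂ) T, NB (min c1 (min c2 c3)) a b (fun z => Z z + w * A z) (fun z => X z + w * B z)) →
      _ := fun Z X A B T d hT hd hn => h1 al hal a b ha hb Z X A B T d hT hd
        (fun w hw => (hn w hw).mono m1 le_rfl le_rfl) t ht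
  have D : ∀ Z X A B : ℂ → ℂ, ∀ T d : ℝ, 0 < T → DirBd d a b A B →
      (∀ w ∈ Metric.ball (0:ℂ) T, NB (min c1 (min c2 c3)) a b (fun z => Z z + w * A z) (fun z => X z + w * B z)) →
      (DifferentiableOn ℂ (fun w : ℂ => Pzf al (fun z => Z z + w * A z) (fun z => X z + w * B z) t) (Metric.ball 0 T) ∧
       DifferentiableOn ℂ (fun w : ℂ => Pxf al (fun z => Z z + w * A z) (fun z => X z + w * B z) t) (Metric.ball 0 T)) ∧
      ∀ w ∈ Metric.ball (0:ℂ) T, ‖Pzf al (fun z => Z z + w * A z) (fun z => X z + w * B z) t‖ ≤ C3 ∧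
        ‖Pxf al (fun z => Z z + w * A z) (fun z => X z + w * B z) t‖ ≤ C3 := by
    intro Z X A B T d hT hd hn
    have hD : ∀ w0 ∈ Metric.ball (0:ℂ) T,
        DifferentiableAt ℂ (fun w : ℂ => Pzf al (fun z => Z z + w * A z) (fun z => X z + w * B z) t) w0 ∧
        DifferentiableAt ℂ (fun w : ℂ => Pxf al (fun z => Z z + w * A z) (fun z => X z + w * B z) t) w0 := by
      intro w0 hw0
      have hh := h2 al hal a b ha hb (fun z => Z z + w0 * A z) (fun z => X z + w0 * B z) ((hn w0 hw0).mono m2 le_rfl le_rfl) A B d hd t ht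
      have e1 := hh.2.1
      have e2 := hh.2.2.1
      rw [show (0:ℂ) = w0 - w0 by ring] at e1 e2
      have f1 := HasDerivAt.comp_sub_const w0 w0 e1
      have f2 := HasDerivAt.comp_sub_const w0 w0 e2
      have fe : ∀ w : ℂ, ∀ f g : ℂ → ℂ, (fun z => f z + w0 * g z + (w - w0) * g z) = (fun z => f z + w * g z) := fun w f g => by
        funext z; ring
      simp only [fe] at f1 f2
      exact ⟨f1.differentiableAt, f2.differentiableAt⟩
    refine ⟨⟨fun w hw => (hD w hw).1.differentiableWithinAt, fun w hw => (hD w hw).2.differentiableWithinAt⟩, fun w hw => ?_⟩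
    have hh := (h3 al hal a b ha hab hb _ _ (f03_fnb ((hn w hw).mono m3 le_rfl le_rfl))).2.2.2.2.2 ⟨0, by simp⟩ t ht
    exact ⟨hh.2.1, hh.2.2.1⟩
  refine ⟨?_, ?_, ?_, ?_, ?_, ?_, ?_⟩
  · exact fun Z X A B T d hT hd hn => ⟨(L Z X A B T d hT hd hn).1, fun w hw =>
      ((L Z X A B T d hT hd hn).2.2.2.2 w hw).1.trans (le_max_left _ _)⟩
  · exact fun Z X A B T d hT hd hn => ⟨(L Z X A B T d hT hd hn).2.1, fun w hw =>
      ((L Z X A B T d hT hd hn).2.2.2.2 w hw).2.1.trans (le_max_left _ _)⟩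
  · exact fun Z X A B T d hT hd hn => ⟨(L Z X A B T d hT hd hn).2.2.1, fun w hw =>
      ((L Z X A B T d hT hd hn).2.2.2.2 w hw).2.2.1.trans (le_max_left _ _)⟩
  · exact fun Z X A B T d hT hd hn => ⟨(L Z X A B T d hT hd hn).2.2.2.1, fun w hw =>
      ((L Z X A B T d hT hd hn).2.2.2.2 w hw).2.2.2.1.trans (le_max_left _ _)⟩
  · intro Z X A B T d hT hd hn
    refine ⟨?_, fun w hw => ((L Z X A B T d hT hd hn).2.2.2.2 w hw).2.2.2.2.trans (le_max_left _ _)⟩
    simp only [et, nz, nx, md, df]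
    fun_prop
  · exact fun Z X A B T d hT hd hn => ⟨(D Z X A B T d hT hd hn).1.1, fun w hw =>
      ((D Z X A B T d hT hd hn).2 w hw).1.trans (le_max_right _ _)⟩
  · exact fun Z X A B T d hT hd hn => ⟨(D Z X A B T d hT hd hn).1.2, fun w hw =>
      ((D Z X A B T d hT hd hn).2 w hw).2.trans (le_max_right _ _)⟩

theorem f03_tri {x y z : ℂ} {K C c d : ℝ} (hK : 0 ≤ K) (hC : 0 ≤ C) (hc : 0 ≤ c) (hd : 0 ≤ d) (h1 : ‖x - y‖ ≤ K * c * d)
    (h2 : ‖y - z‖ ≤ C * d ^ 2) : ‖x - z‖ ≤ (K + C) * (c + d) * d := by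
  have h := norm_add_le (x - y) (y - z)
  rw [sub_add_sub_cancel] at h
  have e : K * c * d + C * d ^ 2 ≤ (K + C) * (c + d) * d := by
    have : (K + C) * (c + d) * d - (K * c * d + C * d ^ 2) = K * d * d + C * c * d := by ring
    have : 0 ≤ K * d * d + C * c * d := by positivity
    linarith
  linarith

theorem f03_fin {P C2 c d : ℝ} (hP0 : 0 ≤ P) (hC20 : 0 ≤ C2) (hc : 0 ≤ c) (a3 : c ≤ 1) (hd : 0 ≤ d) (b3 : d ≤ 1) :
    P * (c + d) * d + 6 * (P * (c + d) * d) + c * (C2 * d) + 1 * (P * (c + d) * d) +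
      c * (P * (c + d) * d + (C2 * (C2 * d) + C2 * (C2 * d))) + d * (C2 * (c + d) ^ 2 + C2 * (c + d)) +
      d * (C2 * (c + d) ^ 2 + (C2 * (C2 * (c + d)) + C2 * (C2 * (c + d)))) ≤ (9 * P + 6 * C2 + 4 * C2 ^ 2) * (c + d) * d := by
  have i1 : 0 ≤ C2 * d * d := by positivity
  have i2 : 0 ≤ (1 - c) * (P * (c + d) * d) := mul_nonneg (by linarith) (by positivity)
  have i3 : 0 ≤ C2 ^ 2 * d * d := by positivity
  have i4 : 0 ≤ (2 - (c + d)) * (C2 * (c + d) * d) := mul_nonneg (by linarith) (by positivity)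
  have e : (9 * P + 6 * C2 + 4 * C2 ^ 2) * (c + d) * d - (P * (c + d) * d + 6 * (P * (c + d) * d) + c * (C2 * d) + 1 * (P * (c + d) * d) +
      c * (P * (c + d) * d + (C2 * (C2 * d) + C2 * (C2 * d))) + d * (C2 * (c + d) ^ 2 + C2 * (c + d)) +
      d * (C2 * (c + d) ^ 2 + (C2 * (C2 * (c + d)) + C2 * (C2 * (c + d))))) =
      (1 - c) * (P * (c + d) * d) + 2 * ((2 - (c + d)) * (C2 * (c + d) * d)) + C2 * d * d + 2 * (C2 ^ 2 * d * d) := by ring
  linarith

/-- `taylor_mixed` for `G(s, w) = Vf (circle + s (Γ - circle) + w (A, B)) t`, `|s| < c0/(2c)`, `|w| < c0/(2d)`, bounded by `C`; together with `quad` at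
the circle. For `SS`: the same for `Sf, et, ell, Yf`; at the circle `e = 0` (`circle_values`), `V = Vs`, so by `SS_lin` with `E = 0` (in fact directly from
`quad`) the linearisation is `DS0 + v sin al cos al + m sin al PL 2`; the remaining mixed terms (`(V0 - Vs) Det`, `v Det`, `mu DY`, ...) are
`O((c + d) d)`. If `c = 0` or `d = 0` use arbitrarily small positive values instead (the hypotheses are monotone). -/
theorem mixed (R : ℝ) (hR : 1 < R) : ∃ c0 C : ℝ, 0 < c0 ∧ 1 ≤ C ∧ ∀ al ∈ JJ, ∀ a b : ℝ, 1 ≤ a → b ≤ R →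
    ∀ c d : ℝ, 0 ≤ c → c ≤ c0 → 0 ≤ d → d ≤ c0 → ∀ Z X : ℂ → ℂ, NB c a b Z X → ∀ A B : ℂ → ℂ, DirBd d a b A B →
    ∀ V0 mu v m : ℂ, ‖V0 - (Vs al : ℂ)‖ ≤ c → ‖mu‖ ≤ c → ‖v‖ ≤ d → ‖m‖ ≤ d → ∀ t ∈ band a b,
      ‖SS al (V0 + v) (mu + m) (fun z => Z z + A z) (fun z => X z + B z) t - SS al V0 mu Z X t -
        (DS0 al cos sin A B t + v * ((Real.sin al : ℂ) * (Real.cos al : ℂ)) + m * ((Real.sin al : ℂ) * PL 2 t))‖ ≤ C * (c + d) * d ∧
      ‖Vf al (fun z => Z z + A z) (fun z => X z + B z) t - Vf al Z X t - DV al cos sin A B t‖ ≤ C * (c + d) * d := by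
  obtain ⟨c1, C1, hc1, hC1, hG⟩ := f03_good R hR
  obtain ⟨c2, C2, hc2, hC2, hQ⟩ := quad R hR
  have hK0 : 0 ≤ 256 * C1 / c1 ^ 2 := by positivity
  have hC20 : 0 ≤ C2 := by linarith
  set K := 256 * C1 / c1 ^ 2 with hK
  set P := K + C2 with hP
  have hP0 : 0 ≤ P := by positivity
  refine ⟨min (min (c1/8) (c2/2)) 1, 9 * P + 6 * C2 + 4 * C2 ^ 2, by positivity, by nlinarith, ?_⟩
  intro al hal a b ha hb c d hc hc' hd hd' Z X h A B h' V0 mu v m hV0 hmu hv hm t ht
  have a1 : c ≤ c1/8 := hc'.trans ((min_le_left _ _).trans (min_le_left _ _))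
  have a2 : c ≤ c2/2 := hc'.trans ((min_le_left _ _).trans (min_le_right _ _))
  have a3 : c ≤ 1 := hc'.trans (min_le_right _ _)
  have b1 : d ≤ c1/8 := hd'.trans ((min_le_left _ _).trans (min_le_left _ _))
  have b2 : d ≤ c2/2 := hd'.trans ((min_le_left _ _).trans (min_le_right _ _))
  have b3 : d ≤ 1 := hd'.trans (min_le_right _ _)
  obtain ⟨gV, gS, gL, gY, gE, -, -⟩ := hG al hal a b ha hb t ht
  have nb0 : NB c2 a b cos sin := (NB_circle a b).mono hc2.le le_rfl le_rfl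
  obtain ⟨qV, qS, qE, qL, qY, -, -, -, qDet, qdA, qdB, qYz, qYx, -, -⟩ := hQ al hal a b ha hb cos sin nb0 d hd (by linarith) A B h' t ht
  have fe : ∀ f g k : ℂ → ℂ, (fun z => f z + ((g z - f z) + k z)) = (fun z => g z + k z) := fun f g k => by
    funext z; ring
  obtain ⟨-, -, rE, -, rY, -, -, -, rDet, rdA, rdB, -, -, -, -⟩ := hQ al hal a b ha hb cos sin nb0 (c + d) (by linarith) (by linarith)
    _ _ (f03_dir_add (f03_dir h) h') t ht
  simp only [fe] at rE rY
  have mV := f03_tri hK0 hC20 hc hd (f03_core hc1 gV hc a1 hd b1 h h') qV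
  have mS := f03_tri hK0 hC20 hc hd (f03_core hc1 gS hc a1 hd b1 h h') qS
  have mE := f03_tri hK0 hC20 hc hd (f03_core hc1 gE hc a1 hd b1 h h') qE
  have mL := f03_tri hK0 hC20 hc hd (f03_core hc1 gL hc a1 hd b1 h h') qL
  have mY := f03_tri hK0 hC20 hc hd (f03_core hc1 gY hc a1 hd b1 h h') qY
  rw [← hP] at mV mS mE mL mY
  have him : 1 < t.im := lt_of_le_of_lt ha ht.1
  obtain ⟨-, -, -, -, -, s1, s2⟩ := JJ_bounds hal
  have hs : 0 < Real.sin al := by linarith
  have hsne : (Real.sin al : ℂ) ≠ 0 := by exact_mod_cast hs.ne'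
  obtain ⟨-, -, -, cV, cPz, cPx, -⟩ := circle_values hal him
  obtain ⟨e1, e2, -, -, -, -, e7, e8, -, -, -, -, e13, -, -⟩ := circle_chord al hs t
  have hcd : 0 ≤ (c + d) * d := by positivity
  constructor
  swap
  · refine mV.trans ?_
    have e0 : (9 * P + 6 * C2 + 4 * C2 ^ 2) * (c + d) * d - P * (c + d) * d = (8 * P + 6 * C2 + 4 * C2 ^ 2) * ((c + d) * d) := by ring
    have : 0 ≤ (8 * P + 6 * C2 + 4 * C2 ^ 2) * ((c + d) * d) := by positivity
    linarith
  -- abbreviations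
  set S1 := Sf al (fun z => Z z + A z) (fun z => X z + B z) t
  set S0' := Sf al Z X t
  set E1 := et al (fun z => Z z + A z) (fun z => X z + B z) t
  set E0 := et al Z X t
  set L1 := ell al (fun z => Z z + A z) (fun z => X z + B z) t
  set L0' := ell al Z X t
  set Y1 := Yf al (fun z => Z z + A z) (fun z => X z + B z) t
  set Y0 := Yf al Z X t
  set Dt := Det al cos sin A B t
  rw [e1, e2, e8] at mL
  have eL : ((Real.sin al : ℂ) * cos t * df al B t - (Real.sin al : ℂ) * sin t * df al A t) / (Real.sin al : ℂ) =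
    cos t * df al B t - sin t * df al A t := by
    field_simp
  rw [eL] at mL
  rw [e7] at rE
  rw [e13] at rY
  have eDS : DS al cos sin A B t = DS0 al cos sin A B t + df al B t * ((M0 al : ℂ) * cos t) - df al A t * ((M0 al : ℂ) * sin t) -
    Dt * (Vs al : ℂ) := by
    simp only [DS, cV, cPz, cPx, Dt]
  rw [eDS] at mS
  have hM0 : ‖(M0 al : ℂ)‖ ≤ 1 := by
    rw [Complex.norm_real, Real.norm_eq_abs, M0, abs_of_nonneg (by positivity)]
    have h4 : Real.sin al ^ 4 ≤ 1 := pow_le_one₀ hs.le (Real.sin_le_one al)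
    have h5 : Real.pi / 4 ≤ 1 := by linarith [Real.pi_lt_four]
    exact mul_le_one₀ h5 (by positivity) h4
  have hVs : ‖(Vs al : ℂ)‖ ≤ 5 := by
    rw [Complex.norm_real, Real.norm_eq_abs]; exact Vs_bd hal
  have hV6 : ‖V0‖ ≤ 6 := by
    have := norm_add_le (V0 - (Vs al : ℂ)) (Vs al : ℂ)
    rw [sub_add_cancel] at this
    linarith
  have total : SS al (V0 + v) (mu + m) (fun z => Z z + A z) (fun z => X z + B z) t - SS al V0 mu Z X t -
        (DS0 al cos sin A B t + v * ((Real.sin al : ℂ) * (Real.cos al : ℂ)) + m * ((Real.sin al : ℂ) * PL 2 t)) =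
      (S1 - S0' - (DS0 al cos sin A B t + df al B t * ((M0 al : ℂ) * cos t) - df al A t * ((M0 al : ℂ) * sin t) - Dt * (Vs al : ℂ)))
      + V0 * (E1 - E0 - Dt) + (V0 - (Vs al : ℂ)) * Dt - (M0 al : ℂ) * (L1 - L0' - (cos t * df al B t - sin t * df al A t))
      + mu * (Y1 - Y0) + v * (E1 - (Real.sin al : ℂ) * (Real.cos al : ℂ)) + m * (Y1 - (Real.sin al : ℂ) * PL 2 t) := by
    simp only [SS]
    ring
  rw [total]
  have t2 : ‖V0 * (E1 - E0 - Dt)‖ ≤ 6 * (P * (c + d) * d) := by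
    rw [norm_mul]; exact mul_le_mul hV6 mE (norm_nonneg _) (by norm_num)
  have t3 : ‖(V0 - (Vs al : ℂ)) * Dt‖ ≤ c * (C2 * d) := by
    rw [norm_mul]; exact mul_le_mul hV0 qDet (norm_nonneg _) hc
  have t4 : ‖(M0 al : ℂ) * (L1 - L0' - (cos t * df al B t - sin t * df al A t))‖ ≤ 1 * (P * (c + d) * d) := by
    rw [norm_mul]; exact mul_le_mul hM0 mL (norm_nonneg _) (by norm_num)
  have y1 : ‖Yz al cos sin t * df al B t - Yx al cos sin t * df al A t‖ ≤ C2 * (C2 * d) + C2 * (C2 * d) := by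
    refine (norm_sub_le _ _).trans ?_
    rw [norm_mul, norm_mul]
    exact add_le_add (mul_le_mul qYz qdB (norm_nonneg _) hC20) (mul_le_mul qYx qdA (norm_nonneg _) hC20)
  have t5 : ‖mu * (Y1 - Y0)‖ ≤ c * (P * (c + d) * d + (C2 * (C2 * d) + C2 * (C2 * d))) := by
    rw [norm_mul]
    refine mul_le_mul hmu ?_ (norm_nonneg _) hc
    have := norm_add_le (Y1 - Y0 - (Yz al cos sin t * df al B t - Yx al cos sin t * df al A t))
      (Yz al cos sin t * df al B t - Yx al cos sin t * df al A t)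
    rw [sub_add_cancel] at this
    linarith
  have t6 : ‖v * (E1 - (Real.sin al : ℂ) * (Real.cos al : ℂ))‖ ≤ d * (C2 * (c + d) ^ 2 + C2 * (c + d)) := by
    rw [norm_mul]
    refine mul_le_mul hv ?_ (norm_nonneg _) hd
    have := norm_add_le (E1 - (Real.sin al : ℂ) * (Real.cos al : ℂ) - Det al cos sin (fun z => (Z z - cos z) + A z)
      (fun z => (X z - sin z) + B z) t) (Det al cos sin (fun z => (Z z - cos z) + A z) (fun z => (X z - sin z) + B z) t)
    rw [sub_add_cancel] at this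
    linarith
  have t7 : ‖m * (Y1 - (Real.sin al : ℂ) * PL 2 t)‖ ≤ d * (C2 * (c + d) ^ 2 + (C2 * (C2 * (c + d)) + C2 * (C2 * (c + d)))) := by
    rw [norm_mul]
    refine mul_le_mul hm ?_ (norm_nonneg _) hd
    set W := Yz al cos sin t * df al (fun z => (X z - sin z) + B z) t - Yx al cos sin t * df al (fun z => (Z z - cos z) + A z) t with hW
    have hWn : ‖W‖ ≤ C2 * (C2 * (c + d)) + C2 * (C2 * (c + d)) := by
      refine (norm_sub_le _ _).trans ?_
      rw [norm_mul, norm_mul]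
      exact add_le_add (mul_le_mul qYz rdB (norm_nonneg _) hC20) (mul_le_mul qYx rdA (norm_nonneg _) hC20)
    have := norm_add_le (Y1 - (Real.sin al : ℂ) * PL 2 t - W) W
    rw [sub_add_cancel] at this
    linarith
  have n1 := norm_add_le
    ((S1 - S0' - (DS0 al cos sin A B t + df al B t * ((M0 al : ℂ) * cos t) - df al A t * ((M0 al : ℂ) * sin t) - Dt * (Vs al : ℂ)))
      + V0 * (E1 - E0 - Dt) + (V0 - (Vs al : ℂ)) * Dt - (M0 al : ℂ) * (L1 - L0' - (cos t * df al B t - sin t * df al A t))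
      + mu * (Y1 - Y0) + v * (E1 - (Real.sin al : ℂ) * (Real.cos al : ℂ))) (m * (Y1 - (Real.sin al : ℂ) * PL 2 t))
  have n2 := norm_add_le
    ((S1 - S0' - (DS0 al cos sin A B t + df al B t * ((M0 al : ℂ) * cos t) - df al A t * ((M0 al : ℂ) * sin t) - Dt * (Vs al : ℂ)))
      + V0 * (E1 - E0 - Dt) + (V0 - (Vs al : ℂ)) * Dt - (M0 al : ℂ) * (L1 - L0' - (cos t * df al B t - sin t * df al A t))
      + mu * (Y1 - Y0)) (v * (E1 - (Real.sin al : ℂ) * (Real.cos al : ℂ)))
  have n3 := norm_add_le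
    ((S1 - S0' - (DS0 al cos sin A B t + df al B t * ((M0 al : ℂ) * cos t) - df al A t * ((M0 al : ℂ) * sin t) - Dt * (Vs al : ℂ)))
      + V0 * (E1 - E0 - Dt) + (V0 - (Vs al : ℂ)) * Dt - (M0 al : ℂ) * (L1 - L0' - (cos t * df al B t - sin t * df al A t)))
      (mu * (Y1 - Y0))
  have n4 := norm_sub_le
    ((S1 - S0' - (DS0 al cos sin A B t + df al B t * ((M0 al : ℂ) * cos t) - df al A t * ((M0 al : ℂ) * sin t) - Dt * (Vs al : ℂ)))
      + V0 * (E1 - E0 - Dt) + (V0 - (Vs al : ℂ)) * Dt) ((M0 al : ℂ) * (L1 - L0' - (cos t * df al B t - sin t * df al A t)))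
  have n5 := norm_add_le
    ((S1 - S0' - (DS0 al cos sin A B t + df al B t * ((M0 al : ℂ) * cos t) - df al A t * ((M0 al : ℂ) * sin t) - Dt * (Vs al : ℂ)))
      + V0 * (E1 - E0 - Dt)) ((V0 - (Vs al : ℂ)) * Dt)
  have n6 := norm_add_le
    (S1 - S0' - (DS0 al cos sin A B t + df al B t * ((M0 al : ℂ) * cos t) - df al A t * ((M0 al : ℂ) * sin t) - Dt * (Vs al : ℂ)))
      (V0 * (E1 - E0 - Dt))
  have fin := f03_fin (P := P) (C2 := C2) hP0 hC20 hc a3 hd b3
  linarith

theorem f03_md {al M : ℝ} {f : ℂ → ℂ} {t : ℂ} (h1 : ‖f (t + (al:ℂ))‖ ≤ M) (h2 : ‖f (t - (al:ℂ))‖ ≤ M) :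
    ‖md al f t‖ ≤ M ∧ ‖df al f t‖ ≤ M := by
  constructor
  · rw [md, norm_div, show ‖(2:ℂ)‖ = 2 by simp]
    have := norm_add_le (f (t + (al:ℂ))) (f (t - (al:ℂ)))
    linarith
  · rw [df, norm_div, show ‖(2:ℂ)‖ = 2 by simp]
    have := norm_sub_le (f (t + (al:ℂ))) (f (t - (al:ℂ)))
    linarith

/-- difference of derivatives at the curve and at the circle -/
theorem f03_dd {Φ : (ℂ → ℂ) → (ℂ → ℂ) → ℂ} {c0 C a b : ℝ} (hc0 : 0 < c0) (hC : 0 ≤ C) (hΦ : F03Good c0 C a b Φ)
    {c d : ℝ} (hc : 0 ≤ c) (hc' : c ≤ c0/8) (hd : 0 ≤ d) {Z X A B : ℂ → ℂ} (h : NB c a b Z X)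
    (h' : DirBd d a b A B) {D1 D0 : ℂ} (h1 : HasDerivAt (fun w : ℂ => Φ (fun z => Z z + w * A z) (fun z => X z + w * B z)) D1 0)
    (h0 : HasDerivAt (fun w : ℂ => Φ (fun z => cos z + w * A z) (fun z => sin z + w * B z)) D0 0) :
    ‖D1 - D0‖ ≤ 256 * C / c0 ^ 2 * c * d := by
  refine HasDerivAt.le_of_lip' (h1.sub h0) (by positivity) ?_
  have ev : ∀ᶠ w : ℂ in 𝓝 0, ‖w‖ * d ≤ c0 / 8 := by
    have : Continuous (fun w : ℂ => ‖w‖ * d) := by fun_prop
    have h2 := this.tendsto 0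
    rw [norm_zero, zero_mul] at h2
    exact (h2.eventually (gt_mem_nhds (show (0:ℝ) < c0/8 by positivity))).mono fun w hw => le_of_lt hw
  filter_upwards [ev] with w hw
  have := f03_core hc0 hΦ hc hc' (by positivity) hw h (f03_dir_mul h' w)
  simp only [Pi.sub_apply, zero_mul, add_zero]
  rw [sub_zero]
  refine le_trans (le_of_eq ?_) (this.trans (le_of_eq (by ring)))
  congr 1
  ring

theorem f03_E {R : ℝ} {a b : ℝ} (ha : 1 ≤ a) (hb : b ≤ R) {z : ℂ} (hz : z ∈ band a b) :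
    ‖cos z‖ ≤ Real.exp R ∧ ‖sin z‖ ≤ Real.exp R := by
  have h1 : |z.im| ≤ R := by
    rw [abs_of_pos (by linarith [hz.1])]
    linarith [hz.2]
  exact ⟨(b01_norm_cos z).trans (Real.exp_le_exp.2 h1), (b01_norm_sin z).trans (Real.exp_le_exp.2 h1)⟩

/-- `‖DV_Γ[A,B] - DV_circle[A,B]‖ ≤ C c d`: apply the mixed difference estimate with `(hA, hB)`, divide by `h`, `h → 0`. -/
theorem DV_diff (R : ℝ) (hR : 1 < R) : ∃ c0 C : ℝ, 0 < c0 ∧ 1 ≤ C ∧ ∀ al ∈ JJ, ∀ a b : ℝ, 1 ≤ a → b ≤ R →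
    ∀ c d : ℝ, 0 ≤ c → c ≤ c0 → 0 ≤ d → ∀ Z X : ℂ → ℂ, NB c a b Z X → ∀ A B : ℂ → ℂ, DirBd d a b A B → ∀ t ∈ band a b,
      ‖DV al Z X A B t - DV al cos sin A B t‖ ≤ C * c * d ∧ ‖DS0 al Z X A B t - DS0 al cos sin A B t‖ ≤ C * c * d := by
  obtain ⟨c1, C1, hc1, hC1, hG⟩ := f03_good R hR
  obtain ⟨c2, hc2, hL⟩ := line_deriv R hR
  have hC10 : 0 ≤ C1 := by linarith
  have hK0 : 0 ≤ 256 * C1 / c1 ^ 2 := by positivity
  have hK10 : 0 ≤ 16 * C1 / c1 := by positivity
  set K := 256 * C1 / c1 ^ 2 with hK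
  set K1 := 16 * C1 / c1 with hK1
  set E := Real.exp R with hE
  have hE0 : 0 < E := Real.exp_pos R
  have hEK : 0 ≤ E * K1 := by positivity
  refine ⟨min (c1/8) c2, 1 + K + 2 * K1 + 4 * C1 + 4 * (E * K1), by positivity, by linarith, ?_⟩
  intro al hal a b ha hb c d hc hc' hd Z X h A B h' t ht
  have a1 : c ≤ c1/8 := hc'.trans (min_le_left _ _)
  have a2 : c ≤ c2 := hc'.trans (min_le_right _ _)
  obtain ⟨gV, gS, gL, gY, gE, gPz, gPx⟩ := hG al hal a b ha hb t ht
  obtain ⟨dV, -, -, dS⟩ := hL al hal a b ha hb Z X (h.mono a2 le_rfl le_rfl) A B d h' t ht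
  obtain ⟨dV0, -, -, dS0⟩ := hL al hal a b ha hb cos sin ((NB_circle a b).mono hc2.le le_rfl le_rfl) A B d h' t ht
  have r1 := f03_dd hc1 hC10 gV hc a1 hd h h' dV dV0
  have r2 := f03_dd hc1 hC10 gS hc a1 hd h h' dS dS0
  rw [← hK] at r1 r2
  have hcd : 0 ≤ c * d := by positivity
  constructor
  · refine r1.trans ?_
    have e0 : (1 + K + 2 * K1 + 4 * C1 + 4 * (E * K1)) * c * d - K * c * d = (1 + 2 * K1 + 4 * C1 + 4 * (E * K1)) * (c * d) := by ring
    have : 0 ≤ (1 + 2 * K1 + 4 * C1 + 4 * (E * K1)) * (c * d) := by positivity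
    linarith
  have lP := f03_lip hc1 gPz hc a1 h
  have lX := f03_lip hc1 gPx hc a1 h
  have lV := f03_lip hc1 gV hc a1 h
  have bV := f03_bd gV (h.mono (a1.trans (by linarith)) le_rfl le_rfl)
  rw [← hK1] at lP lX lV
  have p1 := add_real_mem_band ht al
  have p2 := sub_real_mem_band ht al
  obtain ⟨mA, dA⟩ := f03_md (al := al) (h'.a0 _ p1) (h'.a0 _ p2)
  obtain ⟨mB, dB⟩ := f03_md (al := al) (h'.b0 _ p1) (h'.b0 _ p2)
  obtain ⟨mZ, dZ⟩ := f03_md (al := al) (f := fun z => Z z - cos z) (h.z0 _ p1) (h.z0 _ p2)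
  obtain ⟨mX, dX⟩ := f03_md (al := al) (f := fun z => X z - sin z) (h.x0 _ p1) (h.x0 _ p2)
  obtain ⟨mc, dc⟩ := f03_md (al := al) (f := cos) (f03_E ha hb p1).1 (f03_E ha hb p2).1
  obtain ⟨ms, ds⟩ := f03_md (al := al) (f := sin) (f03_E ha hb p1).2 (f03_E ha hb p2).2
  have eDet : Det al Z X A B t - Det al cos sin A B t =
      df al B t * md al (fun z => Z z - cos z) t - df al A t * md al (fun z => X z - sin z) t +
      df al (fun z => X z - sin z) t * md al A t - df al (fun z => Z z - cos z) t * md al B t := by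
    simp only [Det, nz, nx, md, df]
    ring
  have bDet : ‖Det al Z X A B t - Det al cos sin A B t‖ ≤ 4 * (c * d) := by
    rw [eDet]
    have k1 : ‖df al B t * md al (fun z => Z z - cos z) t‖ ≤ d * c := by
      rw [norm_mul]; exact mul_le_mul dB mZ (norm_nonneg _) hd
    have k2 : ‖df al A t * md al (fun z => X z - sin z) t‖ ≤ d * c := by
      rw [norm_mul]; exact mul_le_mul dA mX (norm_nonneg _) hd
    have k3 : ‖df al (fun z => X z - sin z) t * md al A t‖ ≤ c * d := by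
      rw [norm_mul]; exact mul_le_mul dX mA (norm_nonneg _) hc
    have k4 : ‖df al (fun z => Z z - cos z) t * md al B t‖ ≤ c * d := by
      rw [norm_mul]; exact mul_le_mul dZ mB (norm_nonneg _) hc
    have n1 := norm_sub_le (df al B t * md al (fun z => Z z - cos z) t - df al A t * md al (fun z => X z - sin z) t +
      df al (fun z => X z - sin z) t * md al A t) (df al (fun z => Z z - cos z) t * md al B t)
    have n2 := norm_add_le (df al B t * md al (fun z => Z z - cos z) t - df al A t * md al (fun z => X z - sin z) t)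
      (df al (fun z => X z - sin z) t * md al A t)
    have n3 := norm_sub_le (df al B t * md al (fun z => Z z - cos z) t) (df al A t * md al (fun z => X z - sin z) t)
    linarith
  have bDet0 : ‖Det al cos sin A B t‖ ≤ 4 * (E * d) := by
    have k1 : ‖df al B t * md al cos t‖ ≤ d * E := by
      rw [norm_mul]; exact mul_le_mul dB mc (norm_nonneg _) hd
    have k2 : ‖df al A t * md al sin t‖ ≤ d * E := by
      rw [norm_mul]; exact mul_le_mul dA ms (norm_nonneg _) hd
    have k3 : ‖nz al sin t * md al A t‖ ≤ E * d := by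
      rw [norm_mul]; exact mul_le_mul ds mA (norm_nonneg _) hE0.le
    have k4 : ‖nx al cos t * md al B t‖ ≤ E * d := by
      rw [norm_mul, nx, norm_neg]; exact mul_le_mul dc mB (norm_nonneg _) hE0.le
    rw [Det]
    have n1 := norm_add_le (df al B t * md al cos t - df al A t * md al sin t + nz al sin t * md al A t) (nx al cos t * md al B t)
    have n2 := norm_add_le (df al B t * md al cos t - df al A t * md al sin t) (nz al sin t * md al A t)
    have n3 := norm_sub_le (df al B t * md al cos t) (df al A t * md al sin t)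
    linarith
  have total : DS0 al Z X A B t - DS0 al cos sin A B t = (DS al Z X A B t - DS al cos sin A B t) -
      df al B t * (Pzf al Z X t - Pzf al cos sin t) + df al A t * (Pxf al Z X t - Pxf al cos sin t) +
      (Det al Z X A B t - Det al cos sin A B t) * Vf al Z X t + Det al cos sin A B t * (Vf al Z X t - Vf al cos sin t) := by
    simp only [DS]
    ring
  rw [total]
  have k1 : ‖df al B t * (Pzf al Z X t - Pzf al cos sin t)‖ ≤ d * (K1 * c) := by
    rw [norm_mul]; exact mul_le_mul dB lP (norm_nonneg _) hd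
  have k2 : ‖df al A t * (Pxf al Z X t - Pxf al cos sin t)‖ ≤ d * (K1 * c) := by
    rw [norm_mul]; exact mul_le_mul dA lX (norm_nonneg _) hd
  have k3 : ‖(Det al Z X A B t - Det al cos sin A B t) * Vf al Z X t‖ ≤ 4 * (c * d) * C1 := by
    rw [norm_mul]; exact mul_le_mul bDet bV (norm_nonneg _) (by positivity)
  have k4 : ‖Det al cos sin A B t * (Vf al Z X t - Vf al cos sin t)‖ ≤ 4 * (E * d) * (K1 * c) := by
    rw [norm_mul]; exact mul_le_mul bDet0 lV (norm_nonneg _) (by positivity)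
  have n1 := norm_add_le ((DS al Z X A B t - DS al cos sin A B t) -
      df al B t * (Pzf al Z X t - Pzf al cos sin t) + df al A t * (Pxf al Z X t - Pxf al cos sin t) +
      (Det al Z X A B t - Det al cos sin A B t) * Vf al Z X t) (Det al cos sin A B t * (Vf al Z X t - Vf al cos sin t))
  have n2 := norm_add_le ((DS al Z X A B t - DS al cos sin A B t) -
      df al B t * (Pzf al Z X t - Pzf al cos sin t) + df al A t * (Pxf al Z X t - Pxf al cos sin t))
      ((Det al Z X A B t - Det al cos sin A B t) * Vf al Z X t)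
  have n3 := norm_add_le ((DS al Z X A B t - DS al cos sin A B t) -
      df al B t * (Pzf al Z X t - Pzf al cos sin t)) (df al A t * (Pxf al Z X t - Pxf al cos sin t))
  have n4 := norm_sub_le (DS al Z X A B t - DS al cos sin A B t) (df al B t * (Pzf al Z X t - Pzf al cos sin t))
  have fin : K * c * d + d * (K1 * c) + d * (K1 * c) + 4 * (c * d) * C1 + 4 * (E * d) * (K1 * c) ≤
    (1 + K + 2 * K1 + 4 * C1 + 4 * (E * K1)) * c * d := by
    have e0 : (1 + K + 2 * K1 + 4 * C1 + 4 * (E * K1)) * c * d - (K * c * d + d * (K1 * c) + d * (K1 * c) + 4 * (c * d) * C1 +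
      4 * (E * d) * (K1 * c)) = c * d := by ring
    linarith
  linarith


theorem f03_inv_half {p : ℂ} {ε : ℝ} (h : ‖p - 1‖ ≤ ε) (hε : ε ≤ 1/100) :
    ‖p ^ ((1:ℂ)/2) - 1‖ ≤ ε ∧ p ^ (-((1:ℂ)/2)) = (p ^ ((1:ℂ)/2))⁻¹ ∧ p ∈ slitPlane := by
  have h1 := b01_sqrt_close (z := p) (σ := 1) (d := ε) one_pos (by simpa using h)
  refine ⟨by simpa using h1, Complex.cpow_neg _ _, ?_⟩
  refine Or.inl ?_
  have := (Complex.abs_re_le_norm (p - 1)).trans h
  rw [Complex.sub_re, Complex.one_re, abs_le] at this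
  linarith [this.1]

theorem f03_quot {r e D : ℂ} {ε η δ : ℝ} (h1 : ‖r - 1‖ ≤ ε) (h2 : ‖e - 1‖ ≤ η) (h3 : ‖D - 1‖ ≤ δ) (hε : ε ≤ 1/10)
    (hδ : δ ≤ 1/10) : r ≠ 0 ∧ D ≠ 0 ∧ ‖r⁻¹ * e / (2 * D) - 1/2‖ ≤ η + 2 * ε + 2 * δ := by
  have hε0 : 0 ≤ ε := (norm_nonneg _).trans h1
  have hη0 : 0 ≤ η := (norm_nonneg _).trans h2
  have hδ0 : 0 ≤ δ := (norm_nonneg _).trans h3
  have hD : ‖D‖ ≤ 11/10 := by
    have := norm_add_le (D - 1) 1
    rw [sub_add_cancel, norm_one] at this
    linarith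
  have hrD : ‖r * D - 1‖ ≤ 11/10 * ε + δ := by
    have e1 : r * D - 1 = (r - 1) * D + (D - 1) := by ring
    rw [e1]
    refine (norm_add_le _ _).trans (add_le_add ?_ h3)
    rw [norm_mul, mul_comm]
    exact mul_le_mul hD h1 (norm_nonneg _) (by norm_num)
  have hlow : 1/2 ≤ ‖r * D‖ := by
    have := norm_sub_norm_le (1:ℂ) (1 - r * D)
    rw [norm_one, sub_sub_cancel, norm_sub_rev] at this
    linarith
  have hne : r * D ≠ 0 := by
    intro h0
    rw [h0, norm_zero] at hlow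
    norm_num at hlow
  obtain ⟨hr0, hD0⟩ := mul_ne_zero_iff.1 hne
  refine ⟨hr0, hD0, ?_⟩
  have e2 : r⁻¹ * e / (2 * D) - 1/2 = ((e - 1) - (r * D - 1)) / (2 * (r * D)) := by
    field_simp
    ring
  rw [e2, norm_div, norm_mul, show ‖(2:ℂ)‖ = 2 by simp, div_le_iff₀ (by linarith)]
  have e3 := norm_sub_le (e - 1) (r * D - 1)
  have : (η + 2 * ε + 2 * δ) * 1 ≤ (η + 2 * ε + 2 * δ) * (2 * ‖r * D‖) :=
    mul_le_mul_of_nonneg_left (by linarith) (by positivity)
  linarith

/-- The normal variation of a function `x` close to a constant `x0`: `DVN` is close to `(3/2) x0 Vs`. The direction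
`(g X', - g Z')`, `g = gN Z X u x`, is within `C (‖x - x0‖ + c)` of `(x0/2) (cos, sin)` on the band, and `DV cos sin cos sin = 3 Vs` (G04);
use `DV_diff` and `quad` bounds. -/
theorem DVN_near_const (R : ℝ) (hR : 1 < R) : ∃ c0 C : ℝ, 0 < c0 ∧ 1 ≤ C ∧ ∀ al ∈ JJ, ∀ a b : ℝ, 1 ≤ a → b ≤ R →
    ∀ c d : ℝ, 0 ≤ c → c ≤ c0 → 0 ≤ d → ∀ Z X u x : ℂ → ℂ, NB c a b Z X → DifferentiableOn ℂ u (band a b) →
      (∀ z ∈ band a b, ‖u z‖ ≤ c) → DifferentiableOn ℂ x (band a b) → ∀ x0 : ℂ, ‖x0‖ ≤ 10 →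
      (∀ z ∈ band a b, ‖x z - x0‖ ≤ d) → ∀ ρ : ℝ, 0 < ρ → ρ ≤ 1 → ∀ t ∈ band (a + ρ) (b - ρ),
      ‖DVN al Z X u x t - 3 / 2 * x0 * (Vs al : ℂ)‖ ≤ C * (c + d) / ρ := by
  obtain ⟨c1, C1, hc1, hC1, hCc, hB⟩ := chord_bd R hR
  obtain ⟨c2, C2, hc2, hC2, hD⟩ := DV_diff R hR
  obtain ⟨c3, hc3, hA⟩ := DV_add R hR
  obtain ⟨c4, C4, hc4, hC4, hV⟩ := fam_variation R hR
  obtain ⟨c5, hc5, hF⟩ := fam_chord' R hR
  set E := Real.exp R with hE
  have hE1 : 1 ≤ E := Real.one_le_exp (by linarith)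
  set K := 2 + 2 * C1 + 12 * E with hK
  have hK0 : 0 ≤ K := by positivity
  set M := 10 * K * (E + 1) + 5 + (E + 1) with hM
  have hM0 : 0 ≤ M := by positivity
  set c0 := min (min (min c1 c2) (min c3 c4)) (min c5 (1 / (60 * E))) with hc0
  have m1 : c0 ≤ c1 := (min_le_left _ _).trans ((min_le_left _ _).trans (min_le_left _ _))
  have m2 : c0 ≤ c2 := (min_le_left _ _).trans ((min_le_left _ _).trans (min_le_right _ _))
  have m3 : c0 ≤ c3 := (min_le_left _ _).trans ((min_le_right _ _).trans (min_le_left _ _))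
  have m4 : c0 ≤ c4 := (min_le_left _ _).trans ((min_le_right _ _).trans (min_le_right _ _))
  have m5 : c0 ≤ c5 := (min_le_right _ _).trans (min_le_left _ _)
  have m6 : c0 ≤ 1 / (60 * E) := (min_le_right _ _).trans (min_le_right _ _)
  refine ⟨c0, 1 + C4 * M + 5 * C2 * E, by positivity, by
    have : 0 ≤ C4 * M := by positivity
    have : 0 ≤ 5 * C2 * E := by positivity
    linarith, ?_⟩
  intro al hal a b ha hb c d hc hc' hd Z X u x h hu hun hx x0 hx0 hxx ρ hρ hρ1 t ht'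
  have ht : t ∈ band a b := band_subset (by linarith) (by linarith) ht'
  have hab : a < b := ht.1.trans ht.2
  have hcE : c * E ≤ 1/60 := by
    have := hc'.trans m6
    rw [le_div_iff₀ (by positivity)] at this
    linarith
  have hc1' : c ≤ 1/60 := (le_mul_of_one_le_right hc hE1).trans hcE
  have him : 1 < t.im := lt_of_le_of_lt ha ht.1
  -- pointwise estimates
  have hxi : ∀ z ∈ band a b, ‖xi X z - 1‖ ≤ C1 * c := fun z hz => by
    have := (hB al hal a b c ha hb hc (hc'.trans m1) Z X h z hz).2.1 0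
    simpa using this
  have hxi' : C1 * c ≤ 1/100 := (mul_le_mul_of_nonneg_left (hc'.trans m1) (by linarith)).trans hCc
  have hZn : ∀ z ∈ band a b, ‖deriv Z z‖ ≤ E + 1 ∧ ‖deriv X z‖ ≤ E + 1 := fun z hz => by
    obtain ⟨e1, e2⟩ := f03_E ha hb hz
    have h1 := norm_sub_le (deriv Z z + sin z) (sin z)
    rw [add_sub_cancel_right] at h1
    have h2 := norm_add_le (deriv X z - cos z) (cos z)
    rw [sub_add_cancel] at h2
    have := h.z1 z hz
    have := h.x1 z hz
    exact ⟨by linarith, by linarith⟩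
  have hDD : ∀ z ∈ band a b, ‖deriv Z z ^ 2 + deriv X z ^ 2 - 1‖ ≤ 6 * E * c := fun z hz => by
    obtain ⟨e1, e2⟩ := f03_E ha hb hz
    have id : deriv Z z ^ 2 + deriv X z ^ 2 - 1 = (deriv Z z + sin z) * ((deriv Z z + sin z) - 2 * sin z) +
        (deriv X z - cos z) * ((deriv X z - cos z) + 2 * cos z) := by
      linear_combination (Complex.sin_sq_add_cos_sq z)
    rw [id]
    have k1 : ‖(deriv Z z + sin z) * ((deriv Z z + sin z) - 2 * sin z)‖ ≤ c * (3 * E) := by
      rw [norm_mul]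
      refine mul_le_mul (h.z1 z hz) ?_ (norm_nonneg _) hc
      have := norm_sub_le (deriv Z z + sin z) (2 * sin z)
      rw [norm_mul, show ‖(2:ℂ)‖ = 2 by simp] at this
      have := h.z1 z hz
      linarith
    have k2 : ‖(deriv X z - cos z) * ((deriv X z - cos z) + 2 * cos z)‖ ≤ c * (3 * E) := by
      rw [norm_mul]
      refine mul_le_mul (h.x1 z hz) ?_ (norm_nonneg _) hc
      have := norm_add_le (deriv X z - cos z) (2 * cos z)
      rw [norm_mul, show ‖(2:ℂ)‖ = 2 by simp] at this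
      have := h.x1 z hz
      linarith
    have := norm_add_le ((deriv Z z + sin z) * ((deriv Z z + sin z) - 2 * sin z))
      ((deriv X z - cos z) * ((deriv X z - cos z) + 2 * cos z))
    linarith
  have hq : ∀ z ∈ band a b, (deriv Z z ^ 2 + deriv X z ^ 2 ≠ 0) ∧
      ‖gN Z X u x z - x0 / 2‖ ≤ d + 10 * (K * c) := fun z hz => by
    obtain ⟨r1, r2, -⟩ := f03_inv_half (hxi z hz) hxi'
    have he : ‖exp (- u z) - 1‖ ≤ 2 * c := by
      have h1 : ‖-u z‖ ≤ 1 := by rw [norm_neg]; exact (hun z hz).trans (by linarith)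
      have := Complex.norm_exp_sub_one_le h1
      rw [norm_neg] at this
      have := hun z hz
      linarith
    obtain ⟨-, hD0, hqq⟩ := f03_quot r1 he (hDD z hz) (by linarith) (by linarith)
    refine ⟨hD0, ?_⟩
    have hqq' : ‖((xi X z) ^ ((1:ℂ)/2))⁻¹ * exp (- u z) / (2 * (deriv Z z ^ 2 + deriv X z ^ 2)) - 1/2‖ ≤ K * c := by
      refine hqq.trans (le_of_eq ?_)
      rw [hK]; ring
    set q := ((xi X z) ^ ((1:ℂ)/2))⁻¹ * exp (- u z) / (2 * (deriv Z z ^ 2 + deriv X z ^ 2)) with hqdef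
    have eg : gN Z X u x z - x0 / 2 = (x z - x0) * q + x0 * (q - 1/2) := by
      rw [gN, r2, hqdef]
      ring
    have qn : ‖q‖ ≤ 1 := by
      have h1 := norm_add_le (q - 1/2) (1/2)
      rw [sub_add_cancel] at h1
      have h2 : ‖(1/2:ℂ)‖ = 1/2 := by simp
      rw [h2] at h1
      linarith
    rw [eg]
    have k1 : ‖(x z - x0) * q‖ ≤ d * 1 := by
      rw [norm_mul]; exact mul_le_mul (hxx z hz) qn (norm_nonneg _) hd
    have k2 : ‖x0 * (q - 1/2)‖ ≤ 10 * (K * c) := by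
      rw [norm_mul]; exact mul_le_mul hx0 hqq' (norm_nonneg _) (by norm_num)
    have := norm_add_le ((x z - x0) * q) (x0 * (q - 1/2))
    linarith
  set A1 : ℂ → ℂ := fun z => gN Z X u x z * deriv X z - x0 / 2 * cos z with hA1
  set B1 : ℂ → ℂ := fun z => - (gN Z X u x z * deriv Z z) - x0 / 2 * sin z with hB1
  have hx02 : ‖x0 / 2‖ ≤ 5 := by
    rw [norm_div, show ‖(2:ℂ)‖ = 2 by simp]; linarith
  have nA : ∀ z ∈ band a b, ‖A1 z‖ ≤ M * (c + d) ∧ ‖B1 z‖ ≤ M * (c + d) := fun z hz => by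
    obtain ⟨-, hg⟩ := hq z hz
    obtain ⟨z1, z2⟩ := hZn z hz
    have fin : (d + 10 * (K * c)) * (E + 1) + 5 * c ≤ M * (c + d) := by
      have e0 : M * (c + d) - ((d + 10 * (K * c)) * (E + 1) + 5 * c) = (10 * K * (E + 1) + 5) * d + (E + 1) * c := by
        rw [hM]; ring
      have : 0 ≤ (10 * K * (E + 1) + 5) * d + (E + 1) * c := by positivity
      linarith
    have hg0 : 0 ≤ d + 10 * (K * c) := by positivity
    constructor
    · have e : A1 z = (gN Z X u x z - x0 / 2) * deriv X z + x0 / 2 * (deriv X z - cos z) := by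
        rw [hA1]; ring
      rw [e]
      have k1 : ‖(gN Z X u x z - x0 / 2) * deriv X z‖ ≤ (d + 10 * (K * c)) * (E + 1) := by
        rw [norm_mul]; exact mul_le_mul hg z2 (norm_nonneg _) hg0
      have k2 : ‖x0 / 2 * (deriv X z - cos z)‖ ≤ 5 * c := by
        rw [norm_mul]; exact mul_le_mul hx02 (h.x1 z hz) (norm_nonneg _) (by norm_num)
      exact (norm_add_le _ _).trans (by linarith)
    · have e : B1 z = -((gN Z X u x z - x0 / 2) * deriv Z z) - x0 / 2 * (deriv Z z + sin z) := by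
        rw [hB1]; ring
      rw [e]
      have k1 : ‖(gN Z X u x z - x0 / 2) * deriv Z z‖ ≤ (d + 10 * (K * c)) * (E + 1) := by
        rw [norm_mul]; exact mul_le_mul hg z1 (norm_nonneg _) hg0
      have k2 : ‖x0 / 2 * (deriv Z z + sin z)‖ ≤ 5 * c := by
        rw [norm_mul]; exact mul_le_mul hx02 (h.z1 z hz) (norm_nonneg _) (by norm_num)
      refine (norm_sub_le _ _).trans ?_
      rw [norm_neg]
      linarith
  -- regularity
  have hop := isOpen_band a b
  have dXi : DifferentiableOn ℂ (xi X) (band a b) :=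
    (hF al hal a b ha hb _ _ (f03_fnb (h.mono (hc'.trans m5) le_rfl le_rfl))).2.2.1.diff ⟨0, by simp⟩
  have dZ' := h.dZ.deriv hop
  have dX' := h.dX.deriv hop
  have dG : DifferentiableOn ℂ (gN Z X u x) (band a b) := by
    have k1 : DifferentiableOn ℂ (fun z => xi X z ^ (-((1:ℂ)/2))) (band a b) := fun z hz =>
      DifferentiableWithinAt.cpow (dXi z hz) (differentiableWithinAt_const _) (f03_inv_half (hxi z hz) hxi').2.2
    have k2 : DifferentiableOn ℂ (fun z => exp (- u z)) (band a b) := hu.neg.cexp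
    have k3 : DifferentiableOn ℂ (fun z => 2 * (deriv Z z ^ 2 + deriv X z ^ 2)) (band a b) :=
      ((dZ'.pow 2).add (dX'.pow 2)).const_mul 2
    exact ((hx.mul k1).mul k2).div k3 fun z hz => mul_ne_zero two_ne_zero (hq z hz).1
  have dA : DifferentiableOn ℂ A1 (band a b) := (dG.mul dX').sub (by fun_prop)
  have dB : DifferentiableOn ℂ B1 (band a b) := ((dG.mul dZ').neg).sub (by fun_prop)
  have hadd := (hA al hal a b ha hb Z X (h.mono (hc'.trans m3) le_rfl le_rfl) A1 B1 cos sin dA.continuousOn dB.continuousOn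
    Complex.continuous_cos.continuousOn Complex.continuous_sin.continuousOn t ht 1 (x0 / 2)).1
  have f1 : (fun z => 1 * A1 z + x0 / 2 * cos z) = (fun z => gN Z X u x z * deriv X z) := by
    funext z; rw [hA1]; ring
  have f2 : (fun z => 1 * B1 z + x0 / 2 * sin z) = (fun z => - (gN Z X u x z * deriv Z z)) := by
    funext z; rw [hB1]; ring
  rw [f1, f2, one_mul] at hadd
  have hDVN : DVN al Z X u x t = DV al Z X A1 B1 t + x0 / 2 * DV al Z X cos sin t := hadd
  have b1 : ‖DV al Z X A1 B1 t‖ ≤ C4 * (M * (c + d)) :=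
    ((hV al hal a b ha hab hb _ _ (f03_fnb (h.mono (hc'.trans m4) le_rfl le_rfl)) (fun _ => A1) (fun _ => B1)
      (Fam.const dA) (Fam.const dB) (M * (c + d)) (fun _ z hz => nA z hz)).2.2.2 ⟨0, by simp⟩ t ht).1
  have dcs : DirBd E a b cos sin := by
    constructor
    · exact Complex.differentiable_cos.differentiableOn
    · exact Complex.differentiable_sin.differentiableOn
    · exact fun z hz => (f03_E ha hb hz).1
    · exact fun z hz => (f03_E ha hb hz).2
    · intro z hz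
      rw [Complex.deriv_cos, norm_neg]
      exact (f03_E ha hb hz).2
    · intro z hz
      rw [Complex.deriv_sin]
      exact (f03_E ha hb hz).1
  have b2 := (hD al hal a b ha hb c E hc (hc'.trans m2) (by positivity) Z X h cos sin dcs t ht).1
  rw [(DV_scaling hal him).1] at b2
  have e : DVN al Z X u x t - 3 / 2 * x0 * (Vs al : ℂ) = DV al Z X A1 B1 t + x0 / 2 * (DV al Z X cos sin t - 3 * (Vs al : ℂ)) := by
    rw [hDVN]; ring
  rw [e]
  have b3 : ‖x0 / 2 * (DV al Z X cos sin t - 3 * (Vs al : ℂ))‖ ≤ 5 * (C2 * c * E) := by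
    rw [norm_mul]; exact mul_le_mul hx02 b2 (norm_nonneg _) (by norm_num)
  have b4 := norm_add_le (DV al Z X A1 B1 t) (x0 / 2 * (DV al Z X cos sin t - 3 * (Vs al : ℂ)))
  have b5 : C4 * (M * (c + d)) + 5 * (C2 * c * E) ≤ (1 + C4 * M + 5 * C2 * E) * (c + d) := by
    have e0 : (1 + C4 * M + 5 * C2 * E) * (c + d) - (C4 * (M * (c + d)) + 5 * (C2 * c * E)) = (1 + 5 * C2 * E) * d + c := by
      ring
    have : 0 ≤ (1 + 5 * C2 * E) * d + c := by positivity
    linarith
  have b6 : (1 + C4 * M + 5 * C2 * E) * (c + d) ≤ (1 + C4 * M + 5 * C2 * E) * (c + d) / ρ := by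
    rw [le_div_iff₀ hρ]
    have h0 : 0 ≤ (1 + C4 * M + 5 * C2 * E) * (c + d) := by positivity
    exact mul_le_of_le_one_right h0 hρ1
  linarith

end FB
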