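import Pool.Agent.H48.FB.D05
import Pool.Agent.H48.FB.C02

/-! G00: variation operators at the circle in the normal direction. -/

open Complex Set MeasureTheory Filter Topology

noncomputable section

namespace FB

theorem G00_sin_pos {al : ℝ} (hal : al ∈ JJ) : 0 < Real.sin al := by
  have h := (JJ_bounds hal).2.2.2.2.2.1
  linarith

theorem G00_kk_sq (al : ℝ) (s : ℂ) : kk al s ^ 2 = cos s - (Real.cos al : ℂ) := by
  have h : ((2 : ℕ) : ℂ) ≠ 0 := by norm_num
  have := Complex.cpow_nat_inv_pow (cos s - (Real.cos al : ℂ)) (n := 2) two_ne_zero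
  rw [kk]
  rw [show ((1 : ℂ) / 2) = ((2 : ℕ) : ℂ)⁻¹ by norm_num]
  exact this

theorem G00_yy {al : ℝ} (hsin : 0 < Real.sin al) (t s : ℂ) :
    yy al cos sin t s = kk al s * q0 t s := by
  by_cases h : cos s = (Real.cos al : ℂ)
  · have : kk al s = 0 := by
      have h2 := G00_kk_sq al s
      rw [h, sub_self] at h2
      exact pow_eq_zero_iff two_ne_zero |>.1 h2
    rw [yy, this, zero_mul, zero_mul]
  · rw [yy]
    have := (circle_chord al hsin t).2.2.2.2.2.2.2.2.2.2.2.2.2.2 s h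
    rw [this]

/-- Direct computation with `circle_chord`, `circle_values` (`aj 0 = (pi/2) sin al`, `aj 1 = 0`): for `A = (f/2) cos`, `B = (f/2) sin` one has
`X' A - Z' B = f/2`, `ndp = (f(t+al)/2) sin al cos al`, `ndm = (f(t-al)/2) sin al cos al`, `yy = kk q0`, `kk^3 K0 = sin al sin t sin^2(t+s) Lf (kk q0)`. -/
theorem DS0_circle {al : ℝ} (hal : al ∈ JJ) {f : ℂ → ℂ} {b : ℝ} (hf : ContinuousOn f (band 1 b)) {t : ℂ} (ht : t ∈ band 1 b) :
    DS0 al cos sin (fun z => f z / 2 * cos z) (fun z => f z / 2 * sin z) t = L0 al f t ∧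
    DV al cos sin (fun z => f z / 2 * cos z) (fun z => f z / 2 * sin z) t =
      S0 al f t - (Real.pi / 4 : ℂ) * (Real.sin al : ℂ) ^ 2 * (Real.cos al : ℂ) * (f (t + al) + f (t - al)) := by
  have hsin := G00_sin_pos hal
  obtain ⟨cnz, cnx, cmz, cmx, cdz, cdx, cet, cell, cnu, cxi, cchip, cchim, cY, cchi, com⟩ :=
    circle_chord al hsin t
  obtain ⟨v0, v1, -, -, -, -, -⟩ := circle_values hal ht.1
  have hcs : ∀ z : ℂ, cos z ^ 2 + sin z ^ 2 = 1 := fun z => by
    have := Complex.sin_sq_add_cos_sq z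
    linear_combination this
  have hdc : ∀ z : ℂ, deriv cos z = - sin z := fun z => by simp
  have hds : ∀ z : ℂ, deriv sin z = cos z := fun z => by simp
  constructor
  · unfold DS0 L0
    apply intervalIntegral.integral_congr
    intro s _
    simp only
    rw [G00_yy hsin, cnx, hdc, hds, Lf, K0]
    have hk := G00_kk_sq al (s : ℂ)
    have e1 : (kk al (s:ℂ) * q0 t (s:ℂ)) ^ 2 = (cos (s:ℂ) - (Real.cos al : ℂ)) * q0 t (s:ℂ) ^ 2 := by
      rw [mul_pow, hk]
    rw [e1]
    have e2 := hcs (t + s)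
    linear_combination ((kk al (s:ℂ) * q0 t (s:ℂ)) ^ 3 *
      afn ((cos (s:ℂ) - (Real.cos al : ℂ)) * q0 t (s:ℂ) ^ 2) * ((Real.sin al : ℂ) * sin t * sin (t + s)) *
      sin (t + s) * f (t + s)) * e2
  · unfold DV S0
    rw [v0, v1]
    have e1 : ndp al cos sin (fun z => f z / 2 * cos z) (fun z => f z / 2 * sin z) t =
        (Real.sin al : ℂ) * (Real.cos al : ℂ) * (f (t + al) / 2) := by
      rw [ndp, cnz, cnx]
      have : (Real.cos al : ℂ) = cos t * cos (t + al) + sin t * sin (t + al) := by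
        rw [← Complex.cos_sub]
        rw [show t - (t + (al : ℂ)) = -(al : ℂ) by ring, Complex.cos_neg, Complex.ofReal_cos]
      rw [this]; ring
    have e2 : ndm al cos sin (fun z => f z / 2 * cos z) (fun z => f z / 2 * sin z) t =
        (Real.sin al : ℂ) * (Real.cos al : ℂ) * (f (t - al) / 2) := by
      rw [ndm, cnz, cnx]
      have : (Real.cos al : ℂ) = cos t * cos (t - al) + sin t * sin (t - al) := by
        rw [← Complex.cos_sub]
        rw [show t - (t - (al : ℂ)) = (al : ℂ) by ring, Complex.ofReal_cos]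
      rw [this]; ring
    rw [e1, e2]
    have e3 : (∫ s in (-al)..al, Af (yy al cos sin t (s:ℂ)) * (2 * sin (t + (s:ℂ))) *
        (deriv sin (t + (s:ℂ)) * (fun z => f z / 2 * cos z) (t + (s:ℂ)) -
          deriv cos (t + (s:ℂ)) * (fun z => f z / 2 * sin z) (t + (s:ℂ)))) =
        ∫ s in (-al)..al, Af (kk al (s:ℂ) * q0 t (s:ℂ)) * sin (t + (s:ℂ)) * f (t + (s:ℂ)) := by
      apply intervalIntegral.integral_congr
      intro s _
      simp only
      rw [G00_yy hsin, hdc, hds]
      have e2 := hcs (t + s)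
      linear_combination (Af (kk al (s:ℂ) * q0 t (s:ℂ)) * sin (t + (s:ℂ)) * f (t + (s:ℂ))) * e2
    rw [e3]
    ring

/-- tangential directions at the circle: `(- τ sin, τ cos)` -/
theorem DS0_circle_tan {al : ℝ} (hal : al ∈ JJ) {τ : ℂ → ℂ} {b : ℝ} {t : ℂ} (ht : t ∈ band 1 b) :
    DS0 al cos sin (fun z => τ z * (- sin z)) (fun z => τ z * cos z) t = 0 ∧
    DV al cos sin (fun z => τ z * (- sin z)) (fun z => τ z * cos z) t =
      (Real.pi / 2 : ℂ) * (Real.sin al : ℂ) ^ 3 * (τ (t + al) - τ (t - al)) := by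
  have hsin := G00_sin_pos hal
  obtain ⟨cnz, cnx, cmz, cmx, cdz, cdx, cet, cell, cnu, cxi, cchip, cchim, cY, cchi, com⟩ :=
    circle_chord al hsin t
  obtain ⟨v0, v1, -, -, -, -, -⟩ := circle_values hal ht.1
  have h := DV_tangential hal cos sin τ t
  have hdc : ∀ z : ℂ, deriv cos z = - sin z := fun z => by simp
  have hds : ∀ z : ℂ, deriv sin z = cos z := fun z => by simp
  simp only [hdc, hds] at h
  refine ⟨h.1, ?_⟩
  rw [h.2, v0, v1, cchip, cchim]
  ring

end FB
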