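import Pool.Agent.H48.FB.G01
import Pool.Agent.H48.FB.B02

/-! G02: the operator `Top` : decomposition `Top = m1 (L0 + Rop)`, relation to `DS0`, evenness. -/

open Complex Set MeasureTheory Filter Topology

noncomputable section

namespace FB

/-! ### powers near `1` -/

theorem G02_log {w : ℂ} (hw : ‖w - 1‖ ≤ 1/100) : w ≠ 0 ∧ w ∈ slitPlane ∧ ‖log w‖ ≤ 1/50 ∧ exp (log w) = w := by
  have h0 : w ≠ 0 := by
    rintro rfl
    rw [zero_sub, norm_neg, norm_one] at hw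
    norm_num at hw
  have hsl : w ∈ slitPlane := by
    left
    have h1 := (abs_le.1 ((abs_re_le_norm _).trans hw)).1
    rw [sub_re, one_re] at h1
    linarith
  refine ⟨h0, hsl, ?_, exp_log h0⟩
  have h2 := Complex.norm_log_one_add_half_le_self (z := w - 1) (by linarith)
  have h3 : 1 + (w - 1) = w := by ring
  rw [h3] at h2
  linarith

theorem G02_cpow {w : ℂ} (hw : ‖w - 1‖ ≤ 1/100) (c : ℂ) : w ^ c = exp (log w * c) :=
  cpow_def_of_ne_zero (G02_log hw).1 c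

theorem G02_rho {x n u : ℂ} (hx : ‖x - 1‖ ≤ 1/100) (hn : ‖n - 1‖ ≤ 1/100) (hu : ‖u - 1‖ ≤ 1/100) :
    (x / (n * u)) ^ ((1:ℂ)/2) = exp ((log x - log n - log u) / 2) := by
  obtain ⟨hx0, -, bx, ex⟩ := G02_log hx
  obtain ⟨hn0, -, bn, en⟩ := G02_log hn
  obtain ⟨hu0, -, bu, eu⟩ := G02_log hu
  have h1 : x / (n * u) = exp (log x - log n - log u) := by
    rw [exp_sub, exp_sub, ex, en, eu]
    field_simp
  have h2 : ‖log x - log n - log u‖ ≤ 3 / 50 := by
    have h3 := norm_sub_le (log x - log n) (log u)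
    have h4 := norm_sub_le (log x) (log n)
    linarith
  have h5 := abs_le.1 ((abs_im_le_norm _).trans h2)
  have hpi := Real.pi_gt_three
  rw [h1, cpow_def_of_ne_zero (exp_ne_zero _), log_exp (by linarith [h5.1]) (by linarith [h5.2])]
  congr 1
  ring

/-- the algebra of the powers -/
theorem G02_powers {x n u : ℂ} (hx : ‖x - 1‖ ≤ 1/100) (hn : ‖n - 1‖ ≤ 1/100) (hu : ‖u - 1‖ ≤ 1/100) :
    ((x / (n * u)) ^ ((1:ℂ)/2)) ^ 3 * n * u ^ 2 * u ^ (-((1:ℂ)/2)) = n ^ (-((1:ℂ)/2)) * x ^ ((3:ℂ)/2) := by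
  obtain ⟨-, -, -, en⟩ := G02_log hn
  obtain ⟨-, -, -, eu⟩ := G02_log hu
  rw [G02_rho hx hn hu, G02_cpow hu, G02_cpow hn, G02_cpow hx]
  have h1 : exp ((log x - log n - log u) / 2) ^ 3 * exp (log n) * exp (log u) ^ 2 * exp (log u * -(1/2)) =
      exp (log n * -(1/2)) * exp (log x * (3/2)) := by
    rw [← exp_nat_mul, ← exp_nat_mul, ← exp_add, ← exp_add, ← exp_add, ← exp_add]
    congr 1
    push_cast
    ring
  rw [en, eu] at h1
  exact h1

theorem G02_afn {w : ℂ} (hw : ‖w‖ ≤ 1/2) : 0.8 ≤ ‖afn w‖ ∧ ‖afn w‖ ≤ 1.1 := by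
  have h1 := afn_bound (w := w) (by linarith)
  have h2 : ‖(2 * Real.sqrt 2 / 3 : ℂ)‖ = 2 * Real.sqrt 2 / 3 := by
    have : (2 * Real.sqrt 2 / 3 : ℂ) = ((2 * Real.sqrt 2 / 3 : ℝ) : ℂ) := by push_cast; ring
    rw [this, norm_real, Real.norm_eq_abs, abs_of_nonneg (by positivity)]
  have h3 : 1.414 ≤ Real.sqrt 2 := Real.le_sqrt_of_sq_le (by norm_num)
  have h4 : Real.sqrt 2 ≤ 1.415 := Real.sqrt_le_iff.2 ⟨by norm_num, by norm_num⟩
  constructor
  · have h5 := norm_sub_norm_le (2 * Real.sqrt 2 / 3 : ℂ) ((2 * Real.sqrt 2 / 3 : ℂ) - afn w)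
    rw [sub_sub_cancel, h2, norm_sub_rev] at h5
    linarith
  · have h5 := norm_add_le (afn w - (2 * Real.sqrt 2 / 3 : ℂ)) (2 * Real.sqrt 2 / 3 : ℂ)
    rw [sub_add_cancel, h2] at h5
    linarith

theorem G02_ii {al M : ℝ} (hal : 0 < al) {g : ℝ → ℂ} (hc : ContinuousOn g (Ioo (-al) al))
    (hM : ∀ s ∈ Ioo (-al) al, ‖g s‖ ≤ M) : IntervalIntegrable g volume (-al) al := by
  rw [intervalIntegrable_iff_integrableOn_Ioo_of_le (by linarith)]
  have hfin : volume (Ioo (-al) al) < ⊤ := by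
    rw [Real.volume_Ioo]
    exact ENNReal.ofReal_lt_top
  haveI : IsFiniteMeasure (volume.restrict (Ioo (-al) al)) := ⟨by rwa [Measure.restrict_apply_univ]⟩
  refine Integrable.of_bound (hc.aestronglyMeasurable measurableSet_Ioo) M ?_
  rw [ae_restrict_iff' measurableSet_Ioo]
  exact Eventually.of_forall hM

theorem G02_line {a b : ℝ} {t : ℂ} (ht : t ∈ band a b) {f : ℂ → ℂ} (hf : ContinuousOn f (band a b)) (S : Set ℝ) :
    ContinuousOn (fun s : ℝ => f (t + (s:ℂ))) S := by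
  refine hf.comp (f := fun s : ℝ => t + (s:ℂ)) (by fun_prop) (fun s _ => add_real_mem_band ht s)

/-- Pointwise identity of the integrands for real `s ∈ (-al, al)`:
`yy = kk * q0 * (chi/(nu xi))^{1/2}`, `Lf y = y^3 afn (y^2)`, `nx = sin al sin t nu`, `X(t+s) = sin(t+s) xi(t+s)`; all of `chi, nu, xi, chip, chim` are
within `1/10` of `1`, so the principal powers multiply. `exp(u1)` cancels. The sum of the two integrals needs integrability (continuity and
boundedness in `s`). -/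
theorem Top_eq (R : ℝ) (hR : 1 < R) : ∃ c0 : ℝ, 0 < c0 ∧ ∀ al ∈ JJ, ∀ a b : ℝ, 1 ≤ a → b ≤ R →
    ∀ Z X u : ℂ → ℂ, NB c0 a b Z X → ContinuousOn u (band a b) → ∀ f : ℂ → ℂ, ContinuousOn f (band a b) → ∀ t ∈ band a b,
      Top al Z X u f t = m1 al Z X u t * (L0 al f t + Rop al Z X u f t) := by
  obtain ⟨c1, C, hc1, hC, hCc, H⟩ := chord_bd R hR
  obtain ⟨c2, hc2, H2⟩ := yy_basic R hR
  refine ⟨min c1 c2, by positivity, ?_⟩
  intro al hal a b ha hb Z X u hN hu f hf t ht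
  have hN1 : NB c1 a b Z X := hN.mono (min_le_left _ _) le_rfl le_rfl
  have hN2 : NB c2 a b Z X := hN.mono (min_le_right _ _) le_rfl le_rfl
  obtain ⟨hB, hxi, hchi⟩ := H al hal a b c1 ha hb hc1.le le_rfl Z X hN1 t ht
  obtain ⟨hj1, hj2, hj3, hj4, hj5, hs1, hs2⟩ := JJ_bounds hal
  have him : 1 ≤ t.im := by
    have := ht.1
    linarith
  have hal0 : 0 < al := by linarith
  have him' : ∀ s : ℝ, 1 ≤ (t + (s:ℂ)).im := fun s => by
    rw [add_real_im]
    exact him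
  have hnu := hB.nu.trans hCc
  have hst : sin t ≠ 0 := sin_ne_zero_of_im (by linarith)
  have hsts : ∀ s : ℝ, sin (t + (s:ℂ)) ≠ 0 := fun s => sin_ne_zero_of_im (by linarith [him' s])
  have hsal : (Real.sin al : ℂ) ≠ 0 := by
    rw [Ne, ofReal_eq_zero]
    linarith
  have hcle : ∀ s ∈ Icc (-al) al, Real.cos al ≤ Real.cos s := by
    intro s hs
    rw [← Real.cos_abs s]
    exact Real.cos_le_cos_of_nonneg_of_le_pi (abs_nonneg _) (by linarith [Real.pi_pos]) (abs_le.2 hs)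
  have hkk2 : ∀ s : ℝ, kk al (s:ℂ) ^ 2 = cos (s:ℂ) - (Real.cos al : ℂ) := fun s => cpow_half_sq _
  -- the argument of `afn` at the circle
  have hw0 : ∀ s ∈ Icc (-al) al, ‖(cos (s:ℂ) - (Real.cos al : ℂ)) * q0 t (s:ℂ) ^ 2‖ ≤ 1/2 := by
    intro s hs
    rw [(q0_sq him (him' s)).1, norm_mul, norm_div, norm_one, norm_mul]
    have h4 := sin_im_ge him
    have h5 := sin_im_ge (him' s)
    have h6 : 1.38 ≤ ‖sin t‖ * ‖sin (t + (s:ℂ))‖ := by
      have h7 : (1.38 : ℝ) ^ 2 ≤ (‖sin t‖ * ‖sin (t + (s:ℂ))‖) ^ 2 := by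
        rw [mul_pow]
        nlinarith
      exact le_of_sq_le_sq h7 (by positivity)
    have h8 : 1 / (‖sin t‖ * ‖sin (t + (s:ℂ))‖) ≤ 1 / 1.38 :=
      one_div_le_one_div_of_le (by norm_num) h6
    have h9 : ‖cos (s:ℂ) - (Real.cos al : ℂ)‖ ≤ 0.64 := by
      rw [← ofReal_cos, ← ofReal_sub, norm_real, Real.norm_eq_abs, abs_of_nonneg (by linarith [hcle s hs])]
      linarith [Real.cos_le_one s]
    calc ‖cos (s:ℂ) - (Real.cos al : ℂ)‖ * (1 / (‖sin t‖ * ‖sin (t + (s:ℂ))‖)) ≤ 0.64 * (1 / 1.38) :=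
          mul_le_mul h9 h8 (by positivity) (by norm_num)
      _ ≤ 1/2 := by norm_num
  have haf0 : ∀ s ∈ Icc (-al) al, afn ((cos (s:ℂ) - (Real.cos al : ℂ)) * q0 t (s:ℂ) ^ 2) ≠ 0 := by
    intro s hs h0
    have := (G02_afn (hw0 s hs)).1
    rw [h0, norm_zero] at this
    norm_num at this
  -- continuity
  have cq0 : Continuous (fun s : ℝ => q0 t (s:ℂ)) := by
    rw [continuous_iff_continuousAt]
    intro s
    have h1 := (q0_diff him (him' s)).2.1.continuousAt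
    exact h1.comp_of_eq continuous_ofReal.continuousAt rfl
  have ckk : ContinuousOn (fun s : ℝ => kk al (s:ℂ)) (Icc (-al) al) := by
    have h1 : ContinuousOn (fun s : ℝ => ((Real.sqrt (Real.cos s - Real.cos al) : ℝ) : ℂ)) (Icc (-al) al) := by
      fun_prop
    exact h1.congr fun s hs => kk_real (hcle s hs)
  have caf0 : ContinuousOn (fun s : ℝ => afn ((cos (s:ℂ) - (Real.cos al : ℂ)) * q0 t (s:ℂ) ^ 2)) (Icc (-al) al) := by
    refine afn_diff.continuousOn.comp (f := fun s : ℝ => (cos (s:ℂ) - (Real.cos al : ℂ)) * q0 t (s:ℂ) ^ 2) ?_ ?_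
    · exact Continuous.continuousOn (by fun_prop)
    · intro s hs
      rw [Metric.mem_ball, dist_zero_right]
      linarith [hw0 s hs]
  have cfl := G02_line ht hf (Icc (-al) al)
  have cul := G02_line ht hu (Icc (-al) al)
  set g1 : ℝ → ℂ := fun s => kk al (s:ℂ) ^ 3 * K0 al t (s:ℂ) * f (t + (s:ℂ)) with hg1
  set g2 : ℝ → ℂ := fun s => kk al (s:ℂ) ^ 3 * (K0 al t (s:ℂ) * Th al Z X u t (s:ℂ)) * f (t + (s:ℂ)) with hg2
  have cK : ContinuousOn (fun s : ℝ => (Real.sin al : ℂ) * sin t * sin (t + (s:ℂ)) ^ 2 * q0 t (s:ℂ) ^ 3) (Icc (-al) al) :=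
    Continuous.continuousOn (by fun_prop)
  have cg1 : ContinuousOn g1 (Icc (-al) al) :=
    ((ckk.pow 3).mul (cK.mul caf0)).mul cfl
  set G1 : ℝ → ℂ := fun s => kk al (s:ℂ) ^ 3 * ((Real.sin al : ℂ) * sin t * sin (t + (s:ℂ)) ^ 2 * q0 t (s:ℂ) ^ 3) *
    exp (- u1 al Z X u t - u (t + (s:ℂ))) * f (t + (s:ℂ)) with hG1
  set G2 : ℝ → ℂ := fun s => chi al Z X t (s:ℂ) ^ ((3:ℂ)/2) * afn (yy al Z X t (s:ℂ) ^ 2) with hG2
  have cH1 : ContinuousOn G1 (Icc (-al) al) :=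
    (((ckk.pow 3).mul cK).mul ((continuousOn_const.sub cul).cexp)).mul cfl
  have hyy : ∀ s ∈ Ioo (-al) al, ‖yy al Z X t (s:ℂ) ^ 2‖ ≤ 1/2 ∧ ContinuousAt (fun s : ℝ => yy al Z X t (s:ℂ)) s := by
    intro s hs
    obtain ⟨-, h1, -, -, -, -, -, h2, -⟩ := H2 al hal a b ha hb Z X hN2 t ht s hs
    exact ⟨by rw [norm_pow]; exact h1, h2⟩
  have hch : ∀ s ∈ Ioo (-al) al, ‖chi al Z X t (s:ℂ) - 1‖ ≤ 1/100 := fun s hs => (hchi s hs).trans hCc
  have cchi : ∀ s ∈ Ioo (-al) al, ContinuousAt (fun s : ℝ => chi al Z X t (s:ℂ)) s := by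
    intro s hs
    have h1 : ContinuousAt (fun s : ℝ => Z (t + (s:ℂ))) s :=
      ((hN.dZ.differentiableAt ((isOpen_band a b).mem_nhds (add_real_mem_band ht s))).continuousAt).comp_of_eq
        (f := fun s : ℝ => t + (s:ℂ)) (by fun_prop) rfl
    have h2 : ContinuousAt (fun s : ℝ => X (t + (s:ℂ))) s :=
      ((hN.dX.differentiableAt ((isOpen_band a b).mem_nhds (add_real_mem_band ht s))).continuousAt).comp_of_eq
        (f := fun s : ℝ => t + (s:ℂ)) (by fun_prop) rfl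
    have h3 : cos (s:ℂ) - (Real.cos al : ℂ) ≠ 0 := by
      rw [← ofReal_cos, ← ofReal_sub, Ne, ofReal_eq_zero]
      have := cos_gt hal hs
      linarith
    have h4 : ContinuousAt (fun s : ℝ => cos (s:ℂ) - (Real.cos al : ℂ)) s := by fun_prop
    unfold chi Hq
    exact ((((continuousAt_const.mul h1).add (continuousAt_const.mul h2)).sub continuousAt_const).div h4 h3).div_const _
  have cH2 : ContinuousOn G2 (Ioo (-al) al) := by
    intro s hs
    refine ContinuousAt.continuousWithinAt ?_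
    have h1 : ContinuousAt (fun s : ℝ => chi al Z X t (s:ℂ) ^ ((3:ℂ)/2)) s :=
      (cchi s hs).cpow continuousAt_const (G02_log (hch s hs)).2.1
    have h2 : ContinuousAt (fun s : ℝ => afn (yy al Z X t (s:ℂ) ^ 2)) s := by
      have h3 : ContinuousAt afn (yy al Z X t (s:ℂ) ^ 2) := by
        refine (afn_diff.differentiableAt (Metric.isOpen_ball.mem_nhds ?_)).continuousAt
        rw [Metric.mem_ball, dist_zero_right]
        linarith [(hyy s hs).1]
      exact h3.comp_of_eq ((hyy s hs).2.pow 2) rfl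
    exact h1.mul h2
  have bH2 : ∀ s ∈ Ioo (-al) al, ‖G2 s‖ ≤ Real.exp 1 * 1.1 := by
    intro s hs
    obtain ⟨-, -, h1, -⟩ := G02_log (hch s hs)
    rw [hG2]
    simp only
    rw [norm_mul, G02_cpow (hch s hs)]
    refine mul_le_mul ?_ (G02_afn (hyy s hs).1).2 (norm_nonneg _) (Real.exp_pos _).le
    refine (norm_exp_le_exp_norm _).trans (Real.exp_le_exp.2 ?_)
    rw [norm_mul]
    have h2 : ‖(3/2 : ℂ)‖ = 3/2 := by simp
    rw [h2]
    linarith
  -- `kk2 om^2 = yy^2`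
  have hom : ∀ s : ℝ, (cos (s:ℂ) - (Real.cos al : ℂ)) * om al Z X t (s:ℂ) ^ 2 = yy al Z X t (s:ℂ) ^ 2 := by
    intro s
    rw [← hkk2 s, yy, mul_pow]
  have key2 : ∀ s ∈ Ioo (-al) al, g2 s = G1 s * G2 s - g1 s := by
    intro s hs
    have h1 := haf0 s (Ioo_subset_Icc_self hs)
    rw [hg2, hg1, hG1, hG2]
    simp only
    unfold Th K0
    rw [hom s]
    generalize afn ((cos (s:ℂ) - (Real.cos al : ℂ)) * q0 t (s:ℂ) ^ 2) = W at h1 ⊢
    field_simp
  obtain ⟨M1, hM1⟩ := isCompact_Icc.exists_bound_of_continuousOn cH1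
  obtain ⟨M2, hM2⟩ := isCompact_Icc.exists_bound_of_continuousOn cg1
  have i1 : IntervalIntegrable g1 volume (-al) al := cg1.intervalIntegrable_of_Icc (by linarith)
  have i2 : IntervalIntegrable g2 volume (-al) al := by
    refine G02_ii (M := M1 * (Real.exp 1 * 1.1) + M2) hal0 ?_ ?_
    · exact (((cH1.mono Ioo_subset_Icc_self).mul cH2).sub (cg1.mono Ioo_subset_Icc_self)).congr key2
    · intro s hs
      rw [key2 s hs]
      have h1 := hM1 s (Ioo_subset_Icc_self hs)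
      have h2 := bH2 s hs
      have h3 := hM2 s (Ioo_subset_Icc_self hs)
      have h4 : 0 ≤ M1 := (norm_nonneg _).trans h1
      refine (norm_sub_le _ _).trans (add_le_add ?_ h3)
      rw [norm_mul]
      exact mul_le_mul h1 h2 (norm_nonneg _) h4
  have hsum : L0 al f t + Rop al Z X u f t = ∫ s in (-al)..al, (g1 s + g2 s) :=
    (intervalIntegral.integral_add i1 i2).symm
  rw [hsum, ← intervalIntegral.integral_const_mul, Top]
  rw [intervalIntegral.integral_of_le (by linarith), intervalIntegral.integral_of_le (by linarith),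
    integral_Ioc_eq_integral_Ioo, integral_Ioc_eq_integral_Ioo]
  refine setIntegral_congr_fun measurableSet_Ioo fun s hs => ?_
  beta_reduce
  rw [key2 s hs]
  have hpw := G02_powers (hch s hs) hnu ((hxi s).trans hCc)
  have hxs : X (t + (s:ℂ)) = sin (t + (s:ℂ)) * xi X (t + (s:ℂ)) := by
    rw [xi_eq (hsts s)]
    field_simp [hsts s]
  have hnx : nx al Z t = (Real.sin al : ℂ) * sin t * nu al Z t := by
    rw [nu_eq hst]
    field_simp
  have hLf : Lf (yy al Z X t (s:ℂ)) = kk al (s:ℂ) ^ 3 * q0 t (s:ℂ) ^ 3 *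
      ((chi al Z X t (s:ℂ) / (nu al Z t * xi X (t + (s:ℂ)))) ^ ((1:ℂ)/2)) ^ 3 * afn (yy al Z X t (s:ℂ) ^ 2) := by
    rw [Lf]
    congr 1
    rw [yy, om]
    ring
  have hexp : exp (u1 al Z X u t) * exp (- u1 al Z X u t - u (t + (s:ℂ))) = exp (- u (t + (s:ℂ))) := by
    rw [← exp_add]
    congr 1
    ring
  rw [hLf, hnx, m1]
  have e1 : kk al (s:ℂ) ^ 3 * q0 t (s:ℂ) ^ 3 *
      ((chi al Z X t (s:ℂ) / (nu al Z t * xi X (t + (s:ℂ)))) ^ ((1:ℂ)/2)) ^ 3 * afn (yy al Z X t (s:ℂ) ^ 2) *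
      ((Real.sin al : ℂ) * sin t * nu al Z t * X (t + (s:ℂ))) * X (t + (s:ℂ)) *
      xi X (t + (s:ℂ)) ^ (-((1:ℂ)/2)) * exp (- u (t + (s:ℂ))) * f (t + (s:ℂ)) =
      kk al (s:ℂ) ^ 3 * q0 t (s:ℂ) ^ 3 * afn (yy al Z X t (s:ℂ) ^ 2) * (Real.sin al : ℂ) * sin t *
        sin (t + (s:ℂ)) ^ 2 * exp (- u (t + (s:ℂ))) * f (t + (s:ℂ)) *
      (((chi al Z X t (s:ℂ) / (nu al Z t * xi X (t + (s:ℂ)))) ^ ((1:ℂ)/2)) ^ 3 * nu al Z t *
        xi X (t + (s:ℂ)) ^ 2 * xi X (t + (s:ℂ)) ^ (-((1:ℂ)/2))) := by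
    rw [hxs]
    ring
  rw [e1, hpw, ← hexp, hG1, hG2]
  simp only
  ring

theorem G02_speed {c E a b : ℝ} {Z X : ℂ → ℂ} (h : NB c a b Z X)
    (hE : ∀ z ∈ band a b, ‖cos z‖ ≤ E ∧ ‖sin z‖ ≤ E) (hc : 0 ≤ c) (hE0 : 0 ≤ E) (hc1 : c ≤ 1)
    (hcE : c * (2 * E + 1) ≤ 1/8) : ∀ z ∈ band a b, 1/2 ≤ ‖deriv Z z ^ 2 + deriv X z ^ 2‖ := by
  intro z hz
  have h1 := h.z1 z hz
  have h2 := h.x1 z hz
  have d1 := b01_prod (x := deriv Z z) (y := deriv Z z) (x0 := -sin z) (y0 := -sin z) (c := c) (E := E)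
    (by rw [sub_neg_eq_add]; exact h1) (by rw [sub_neg_eq_add]; exact h1)
    (by rw [norm_neg]; exact (hE z hz).2) (by rw [norm_neg]; exact (hE z hz).2) hc hc1 hE0
  have d2 := b01_prod (x := deriv X z) (y := deriv X z) (x0 := cos z) (y0 := cos z) (c := c) (E := E)
    h2 h2 (hE z hz).1 (hE z hz).1 hc hc1 hE0
  have h3 : (1:ℂ) = (deriv Z z ^ 2 + deriv X z ^ 2) -
      ((deriv Z z * deriv Z z - -sin z * -sin z) + (deriv X z * deriv X z - cos z * cos z)) := by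
    have := Complex.sin_sq_add_cos_sq z
    linear_combination -this
  have h4 : (1:ℝ) ≤ ‖deriv Z z ^ 2 + deriv X z ^ 2‖ + (c * (2 * E + 1) + c * (2 * E + 1)) := by
    have h5 : ‖(1:ℂ)‖ ≤ ‖deriv Z z ^ 2 + deriv X z ^ 2‖ + (c * (2 * E + 1) + c * (2 * E + 1)) := by
      rw [h3]
      refine (norm_sub_le _ _).trans (add_le_add le_rfl ?_)
      exact (norm_add_le _ _).trans (add_le_add d1 d2)
    rwa [norm_one] at h5
  linarith

/-- `DS0` of the normal variation is `Top`: pointwise, `X' (g X') - Z' (-g Z') = g (X'^2 + Z'^2)`, `Z'^2 + X'^2` is near `1`. -/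
theorem DS0_normal (R : ℝ) (hR : 1 < R) : ∃ c0 : ℝ, 0 < c0 ∧ ∀ al ∈ JJ, ∀ a b : ℝ, 1 ≤ a → b ≤ R →
    ∀ Z X u : ℂ → ℂ, NB c0 a b Z X → ∀ f : ℂ → ℂ, ∀ t ∈ band a b,
      DS0 al Z X (fun z => gN Z X u f z * deriv X z) (fun z => - (gN Z X u f z * deriv Z z)) t = Top al Z X u f t := by
  set E : ℝ := Real.exp R with hEdef
  have hE1 : 1 ≤ E := by
    rw [hEdef]
    exact Real.one_le_exp (by linarith)
  have hden : 0 < 8 * (2 * E + 1) := by positivity
  refine ⟨1 / (8 * (2 * E + 1)), by positivity, ?_⟩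
  intro al hal a b ha hb Z X u hN f t ht
  have hc0 : 0 ≤ 1 / (8 * (2 * E + 1)) := by positivity
  have hc1 : 1 / (8 * (2 * E + 1)) ≤ 1 := by
    rw [div_le_one hden]
    linarith
  have hcE : 1 / (8 * (2 * E + 1)) * (2 * E + 1) ≤ 1 / 8 := by
    apply le_of_eq
    field_simp
  have hsp := G02_speed hN (b01_bound_E hR (by linarith : -R ≤ a) hb) hc0 (by linarith) hc1 hcE
  rw [DS0, Top]
  refine intervalIntegral.integral_congr fun s _ => ?_
  have hmem : t + (s:ℂ) ∈ band a b := add_real_mem_band ht s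
  have h0 : deriv Z (t + (s:ℂ)) ^ 2 + deriv X (t + (s:ℂ)) ^ 2 ≠ 0 := by
    intro h
    have := hsp _ hmem
    rw [h, norm_zero] at this
    norm_num at this
  have h1 : 2 * (deriv X (t + (s:ℂ)) * (gN Z X u f (t + (s:ℂ)) * deriv X (t + (s:ℂ))) -
      deriv Z (t + (s:ℂ)) * -(gN Z X u f (t + (s:ℂ)) * deriv Z (t + (s:ℂ)))) =
      f (t + (s:ℂ)) * xi X (t + (s:ℂ)) ^ (-((1:ℂ)/2)) * exp (- u (t + (s:ℂ))) := by
    unfold gN
    field_simp
    ring
  calc _ = Lf (yy al Z X t (s:ℂ)) * (nx al Z t * X (t + (s:ℂ))) * X (t + (s:ℂ)) *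
      (2 * (deriv X (t + (s:ℂ)) * (gN Z X u f (t + (s:ℂ)) * deriv X (t + (s:ℂ))) -
      deriv Z (t + (s:ℂ)) * -(gN Z X u f (t + (s:ℂ)) * deriv Z (t + (s:ℂ))))) := by ring
    _ = _ := by
      rw [h1]
      ring

/-- properties of the normal direction on the strip: parity, reality, analyticity, bounds.
`g = gN Z X u f` is even, `pi`-periodic; `X'` even, `Z'` odd, both antiperiodic. -/
theorem normal_dir (R : ℝ) (hR : 3 ≤ R) : ∃ c0 C : ℝ, 0 < c0 ∧ 1 ≤ C ∧ ∀ al ∈ JJ, ∀ r : ℝ, 0 < r → r ≤ R → ∀ Z X u f : EE → ℂ → ℂ,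
    FC c0 r Z X → Fam (strip r) u → (∀ e, ∀ z ∈ strip r, ‖u e z‖ ≤ 1 ∧ u e (-z) = u e z ∧ u e (z + (Real.pi:ℂ)) = u e z) →
    Fam (strip r) f → (∀ e, ∀ z ∈ strip r, f e (-z) = f e z ∧ f e (z + (Real.pi:ℂ)) = f e z) →
      Fam (strip r) (fun e z => gN (Z e) (X e) (u e) (f e) z * deriv (X e) z) ∧
      Fam (strip r) (fun e z => - (gN (Z e) (X e) (u e) (f e) z * deriv (Z e) z)) ∧
      (∀ e, Sym r (fun z => gN (Z e) (X e) (u e) (f e) z * deriv (X e) z) (fun z => - (gN (Z e) (X e) (u e) (f e) z * deriv (Z e) z))) ∧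
      ((∀ e, ∀ z ∈ strip r, u e ((starRingEnd ℂ) z) = (starRingEnd ℂ) (u e z)) →
       (∀ e, ∀ z ∈ strip r, f e ((starRingEnd ℂ) z) = (starRingEnd ℂ) (f e z)) →
       ∀ e, RealC r (fun z => gN (Z e) (X e) (u e) (f e) z * deriv (X e) z) (fun z => - (gN (Z e) (X e) (u e) (f e) z * deriv (Z e) z))) ∧
      (∀ r' d : ℝ, 0 < r' → r' < r → r - r' ≤ 1 → (∀ e, ∀ z ∈ strip r, ‖f e z‖ ≤ d) → ∀ e, DirBd (C * d / (r - r')) (-r') r'
        (fun z => gN (Z e) (X e) (u e) (f e) z * deriv (X e) z) (fun z => - (gN (Z e) (X e) (u e) (f e) z * deriv (Z e) z))) := by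
  obtain ⟨c1, hc1, H1⟩ := fam_strip R (by linarith)
  obtain ⟨c2, C2, hc2, hC2, hCc2, H2⟩ := chord_bd_strip R (by linarith)
  set E : ℝ := Real.exp R with hEdef
  have hE1 : 1 ≤ E := by
    rw [hEdef]
    exact Real.one_le_exp (by linarith)
  have hden : 0 < 8 * (2 * E + 1) := by positivity
  have hR1 : 1 < R := by linarith
  refine ⟨min (min c1 c2) (1 / (8 * (2 * E + 1))), 2 * Real.exp 1 * (E + 1), by positivity, ?_, ?_⟩
  · have h1 : (1:ℝ) ≤ Real.exp 1 := Real.one_le_exp (by norm_num)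
    nlinarith
  intro al hal r hr hrR Z X u f hF hu hus hf hfs
  set c0 : ℝ := min (min c1 c2) (1 / (8 * (2 * E + 1))) with hc0def
  have hc0pos : 0 < c0 := by positivity
  have hc01 : c0 ≤ c1 := (min_le_left _ _).trans (min_le_left _ _)
  have hc02 : c0 ≤ c2 := (min_le_left _ _).trans (min_le_right _ _)
  have hc03 : c0 * (2 * E + 1) ≤ 1 / 8 := by
    have : c0 ≤ 1 / (8 * (2 * E + 1)) := min_le_right _ _
    rw [le_div_iff₀ hden] at this
    linarith
  have hc0one : c0 ≤ 1 := by nlinarith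
  have hF1 : FC c1 r Z X := ⟨hF.fZ, hF.fX, fun e => (hF.nb e).mono hc01 le_rfl le_rfl, hF.sy, hF.re⟩
  obtain ⟨-, -, fxi, -, fev, fpe, fre⟩ := H1 al hal r hr hrR Z X hF1
  have hxi1 : ∀ e, ∀ z ∈ strip r, ‖xi (X e) z - 1‖ ≤ 1/100 := by
    intro e z hz
    have h1 := (H2 al hal r c0 hr hrR hc0pos.le hc02 (Z e) (X e) (hF.nb e) (hF.sy e) z hz).2
    have h2 : C2 * c0 ≤ C2 * c2 := mul_le_mul_of_nonneg_left hc02 (by linarith)
    linarith
  have hbEr : ∀ z ∈ strip r, ‖cos z‖ ≤ E ∧ ‖sin z‖ ≤ E := b01_bound_E hR1 (by linarith) hrR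
  have hsp : ∀ e, ∀ z ∈ strip r, 1/2 ≤ ‖deriv (Z e) z ^ 2 + deriv (X e) z ^ 2‖ := fun e =>
    G02_speed (hF.nb e) hbEr hc0pos.le (by linarith) hc0one hc03
  have hsp0 : ∀ e, ∀ z ∈ strip r, deriv (Z e) z ^ 2 + deriv (X e) z ^ 2 ≠ 0 := by
    intro e z hz h
    have := hsp e z hz
    rw [h, norm_zero] at this
    norm_num at this
  have fdX : Fam (strip r) (fun e => deriv (X e)) := hF.fX.deriv
  have fdZ : Fam (strip r) (fun e => deriv (Z e)) := hF.fZ.deriv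
  have fp : Fam (strip r) (fun e z => xi (X e) z ^ (-((1:ℂ)/2))) := by
    refine fxi.comp (Φ := fun w => w ^ (-((1:ℂ)/2))) (V := slitPlane) ?_ (fun e z hz => (G02_log (hxi1 e z hz)).2.1)
    intro w hw
    exact (differentiableAt_id.cpow_const hw).differentiableWithinAt
  have fe : Fam (strip r) (fun e z => exp (- u e z)) :=
    hu.neg.comp (Φ := exp) (V := univ) differentiable_exp.differentiableOn (fun _ _ _ => mem_univ _)
  have fs : Fam (strip r) (fun e z => 2 * (deriv (Z e) z ^ 2 + deriv (X e) z ^ 2)) :=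
    ((fdZ.pow 2).add (fdX.pow 2)).smulc 2
  have fg : Fam (strip r) (fun e z => gN (Z e) (X e) (u e) (f e) z) :=
    ((hf.mul fp).mul fe).div fs (fun e z hz => mul_ne_zero two_ne_zero (hsp0 e z hz))
  have fA := fg.mul fdX
  have fB := (fg.mul fdZ).neg
  -- symmetries
  have dXe : ∀ e, ∀ z ∈ strip r, deriv (X e) (-z) = deriv (X e) z := fun e z hz => deriv_of_odd (hF.sy e).oX hz
  have dZe : ∀ e, ∀ z ∈ strip r, deriv (Z e) (-z) = - deriv (Z e) z := fun e z hz => deriv_of_even (hF.sy e).eZ hz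
  have dXa : ∀ e, ∀ z ∈ strip r, deriv (X e) (z + (Real.pi:ℂ)) = - deriv (X e) z :=
    fun e z hz => deriv_of_anti (hF.sy e).aX hz
  have dZa : ∀ e, ∀ z ∈ strip r, deriv (Z e) (z + (Real.pi:ℂ)) = - deriv (Z e) z :=
    fun e z hz => deriv_of_anti (hF.sy e).aZ hz
  have ge : ∀ e, ∀ z ∈ strip r, gN (Z e) (X e) (u e) (f e) (-z) = gN (Z e) (X e) (u e) (f e) z := by
    intro e z hz
    unfold gN
    rw [(hfs e z hz).1, (fev e z hz).1, (hus e z hz).2.1, dXe e z hz, dZe e z hz, neg_sq]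
  have ga : ∀ e, ∀ z ∈ strip r, gN (Z e) (X e) (u e) (f e) (z + (Real.pi:ℂ)) = gN (Z e) (X e) (u e) (f e) z := by
    intro e z hz
    unfold gN
    rw [(hfs e z hz).2, (fpe e z hz).1, (hus e z hz).2.2, dXa e z hz, dZa e z hz, neg_sq, neg_sq]
  refine ⟨fA, fB, ?_, ?_, ?_⟩
  · intro e
    refine ⟨?_, ?_, ?_, ?_⟩
    · intro z hz
      rw [ge e z hz, dXe e z hz]
    · intro z hz
      rw [ge e z hz, dZe e z hz]
      ring
    · intro z hz
      rw [ga e z hz, dXa e z hz]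
      ring
    · intro z hz
      rw [ga e z hz, dZa e z hz]
      ring
  · intro hur hfr e
    have dXc : ∀ z ∈ strip r, deriv (X e) ((starRingEnd ℂ) z) = (starRingEnd ℂ) (deriv (X e) z) :=
      fun z hz => deriv_of_conj (hF.re e).rX hz
    have dZc : ∀ z ∈ strip r, deriv (Z e) ((starRingEnd ℂ) z) = (starRingEnd ℂ) (deriv (Z e) z) :=
      fun z hz => deriv_of_conj (hF.re e).rZ hz
    have gc : ∀ z ∈ strip r, gN (Z e) (X e) (u e) (f e) ((starRingEnd ℂ) z) =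
        (starRingEnd ℂ) (gN (Z e) (X e) (u e) (f e) z) := by
      intro z hz
      have hp : xi (X e) ((starRingEnd ℂ) z) ^ (-((1:ℂ)/2)) = (starRingEnd ℂ) (xi (X e) z ^ (-((1:ℂ)/2))) := by
        rw [(fre e z hz).1, conj_cpow _ _ (mem_slitPlane_iff_arg.1 (G02_log (hxi1 e z hz)).2.1).1]
        congr 2
        simp [conj_ofNat]
      unfold gN
      rw [hfr e z hz, hp, hur e z hz, dXc z hz, dZc z hz]
      simp only [map_div₀, map_mul, map_add, map_pow, conj_ofNat, exp_conj, map_neg]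
      rw [← map_neg, exp_conj]
    refine ⟨?_, ?_⟩
    · intro z hz
      rw [gc z hz, dXc z hz, map_mul]
    · intro z hz
      rw [gc z hz, dZc z hz, map_neg, map_mul]
  · intro r' d hr' hr'r hrr hd e
    have hz0 : (0:ℂ) ∈ strip r := by
      constructor <;> simp [hr]
    have hd0 : 0 ≤ d := (norm_nonneg _).trans (hd e 0 hz0)
    have hρ : 0 < r - r' := by linarith
    have hexp1 : (1:ℝ) ≤ Real.exp 1 := Real.one_le_exp (by norm_num)
    have hsub : strip r' ⊆ strip r := band_subset (by linarith) (by linarith)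
    have bg : ∀ z ∈ strip r, ‖gN (Z e) (X e) (u e) (f e) z‖ ≤ d * (2 * Real.exp 1) := by
      intro z hz
      have h1 : ‖xi (X e) z ^ (-((1:ℂ)/2))‖ ≤ 2 := by
        rw [G02_cpow (hxi1 e z hz)]
        refine (norm_exp_le_exp_norm _).trans ?_
        have h2 : ‖log (xi (X e) z) * -(1/2)‖ ≤ 1/2 := by
          rw [norm_mul, norm_neg]
          have h3 : ‖(1/2 : ℂ)‖ = 1/2 := by simp
          rw [h3]
          linarith [(G02_log (hxi1 e z hz)).2.2.1]
        refine (Real.exp_le_exp.2 h2).trans ?_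
        have h4 : Real.exp (1/2) ^ 2 = Real.exp 1 := by
          rw [← Real.exp_nat_mul]
          congr 1
          norm_num
        have h5 := Real.exp_one_lt_d9
        have h6 := Real.exp_pos (1/2)
        nlinarith
      have h2 : ‖exp (- u e z)‖ ≤ Real.exp 1 := by
        refine (norm_exp_le_exp_norm _).trans (Real.exp_le_exp.2 ?_)
        rw [norm_neg]
        exact (hus e z hz).1
      have h3 := hsp e z hz
      have h4 := hd e z hz
      unfold gN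
      rw [norm_div, norm_mul, norm_mul, norm_mul]
      have h5 : ‖(2:ℂ)‖ = 2 := by simp
      rw [h5, div_le_iff₀ (by linarith)]
      have h6 : ‖f e z‖ * ‖xi (X e) z ^ (-((1:ℂ)/2))‖ * ‖exp (- u e z)‖ ≤ d * 2 * Real.exp 1 :=
        mul_le_mul (mul_le_mul h4 h1 (norm_nonneg _) hd0) h2 (norm_nonneg _) (by positivity)
      have h7 : 0 ≤ d * (2 * Real.exp 1) := by positivity
      nlinarith
    have bdX : ∀ z ∈ strip r, ‖deriv (X e) z‖ ≤ E + 1 := by
      intro z hz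
      have h1 := (hF.nb e).x1 z hz
      have h2 := (hbEr z hz).1
      have h3 : deriv (X e) z = (deriv (X e) z - cos z) + cos z := by ring
      rw [h3]
      refine (norm_add_le _ _).trans ?_
      linarith
    have bdZ : ∀ z ∈ strip r, ‖deriv (Z e) z‖ ≤ E + 1 := by
      intro z hz
      have h1 := (hF.nb e).z1 z hz
      have h2 := (hbEr z hz).2
      have h3 : deriv (Z e) z = (deriv (Z e) z + sin z) - sin z := by ring
      rw [h3]
      refine (norm_sub_le _ _).trans ?_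
      linarith
    have bA : ∀ z ∈ strip r, ‖gN (Z e) (X e) (u e) (f e) z * deriv (X e) z‖ ≤ 2 * Real.exp 1 * (E + 1) * d := by
      intro z hz
      rw [norm_mul]
      have := mul_le_mul (bg z hz) (bdX z hz) (norm_nonneg _) (by positivity)
      refine this.trans (le_of_eq ?_)
      ring
    have bB : ∀ z ∈ strip r, ‖- (gN (Z e) (X e) (u e) (f e) z * deriv (Z e) z)‖ ≤ 2 * Real.exp 1 * (E + 1) * d := by
      intro z hz
      rw [norm_neg, norm_mul]
      have := mul_le_mul (bg z hz) (bdZ z hz) (norm_nonneg _) (by positivity)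
      refine this.trans (le_of_eq ?_)
      ring
    have hbig : 2 * Real.exp 1 * (E + 1) * d ≤ 2 * Real.exp 1 * (E + 1) * d / (r - r') := by
      rw [le_div_iff₀ hρ]
      have : 0 ≤ 2 * Real.exp 1 * (E + 1) * d := by positivity
      nlinarith
    have hshr : strip r' = band (-r + (r - r')) (r - (r - r')) := by
      unfold strip
      congr 1 <;> ring
    have dA := norm_deriv_le_band hρ (fA.diff e) bA
    have dB := norm_deriv_le_band hρ (fB.diff e) bB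
    rw [← hshr] at dA dB
    exact ⟨(fA.diff e).mono hsub, (fB.diff e).mono hsub, fun z hz => (bA z (hsub hz)).trans hbig,
      fun z hz => (bB z (hsub hz)).trans hbig, dA, dB⟩

end FB
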