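import Pool.Agent.H48.FB.G02
import Pool.Agent.H48.FB.G03

/-! G05: the operators `Top`, `Rop`, `L0` on families: analyticity, evenness, periodicity, reality. -/

open Complex Set MeasureTheory Filter Topology

noncomputable section

namespace FB

/-! ### auxiliary lemmas -/

theorem g05_FC_mono {c c' r : ℝ} {Z X : EE → ℂ → ℂ} (h : FC c r Z X) (hc : c ≤ c') : FC c' r Z X :=
  { fZ := h.fZ
    fX := h.fX
    nb := fun e => (h.nb e).mono hc le_rfl le_rfl
    sy := h.sy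
    re := h.re }

theorem g05_FNB {c r b : ℝ} (hr : -r ≤ 1) (hb : b ≤ r) {Z X : EE → ℂ → ℂ} (h : FC c r Z X) : FNB c 1 b Z X :=
  { fZ := h.fZ.mono (band_subset hr hb)
    fX := h.fX.mono (band_subset hr hb)
    nb := fun e => (h.nb e).mono le_rfl hr hb }

theorem g05_one_slit {w : ℂ} (hw : ‖w - 1‖ ≤ 1/100) : w ∈ slitPlane := by
  have h := mem_slitPlane_of_norm_lt_one (z := w - 1) (by linarith)
  simpa using h

theorem g05_log_le {w : ℂ} {D : ℝ} (hw : ‖w - 1‖ ≤ D) (hD : D ≤ 1/100) : ‖log w‖ ≤ 2 * D := by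
  have h1 : ‖w - 1‖ ≤ 1/2 := by linarith
  have h2 := norm_log_one_add_half_le_self h1
  rw [add_sub_cancel] at h2
  have h3 := norm_nonneg (w - 1)
  linarith

/-- `m1` as an exponential -/
def w1 (al : ℝ) (Z X u : ℂ → ℂ) (t : ℂ) : ℂ := -(1/2) * log (nu al Z t) + u1 al Z X u t

theorem g05_m1_eq {al : ℝ} {Z X u : ℂ → ℂ} {t : ℂ} (h : nu al Z t ≠ 0) :
    m1 al Z X u t = exp (w1 al Z X u t) := by
  unfold m1 w1
  rw [exp_add, cpow_def_of_ne_zero h]
  congr 2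
  ring

theorem g05_w1_bd {al D c : ℝ} {Z X u : ℂ → ℂ} {t : ℂ} (hb : ChordBd D al Z X t) (hD : D ≤ 1/100)
    (hu1 : ‖u (t + (al:ℂ))‖ ≤ c) (hu2 : ‖u (t - (al:ℂ))‖ ≤ c) :
    ‖w1 al Z X u t‖ ≤ 4 * D + c := by
  unfold w1 u1
  have h1 := g05_log_le hb.nu hD
  have h2 := g05_log_le hb.chip hD
  have h3 := g05_log_le hb.chim hD
  have e1 : ‖-(1/2) * log (nu al Z t)‖ ≤ D := by
    rw [norm_mul]
    have : ‖(-(1/2) : ℂ)‖ = 1/2 := by rw [norm_neg]; norm_num
    rw [this]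
    linarith
  have e2 : ‖(1/2 : ℂ) * ((3/2) * (log (chip al Z X t) + log (chim al Z X t)) - u (t + (al:ℂ)) - u (t - (al:ℂ)))‖ ≤
      1/2 * (3/2 * (2 * D + 2 * D) + c + c) := by
    rw [norm_mul]
    have h5 : ‖(1/2 : ℂ)‖ = 1/2 := by norm_num
    have h6 : ‖(3/2 : ℂ)‖ = 3/2 := by norm_num
    rw [h5]
    apply mul_le_mul_of_nonneg_left _ (by norm_num)
    refine (norm_sub_le _ _).trans (add_le_add ((norm_sub_le _ _).trans (add_le_add ?_ hu1)) hu2)
    rw [norm_mul, h6]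
    apply mul_le_mul_of_nonneg_left _ (by norm_num)
    exact (norm_add_le _ _).trans (add_le_add h2 h3)
  refine (norm_add_le _ _).trans ?_
  linarith

theorem g05_arg {w : ℂ} (hw : w ∈ slitPlane) : w.arg ≠ Real.pi :=
  (mem_slitPlane_iff_arg.mp hw).1

/-- the factor `m1` on the full strip -/
theorem m1_fam (R : ℝ) (hR : 3 ≤ R) : ∃ c0 C : ℝ, 0 < c0 ∧ 1 ≤ C ∧ C * c0 ≤ 1/10 ∧ ∀ al ∈ JJ, ∀ r c : ℝ, 0 < r → r ≤ R → 0 ≤ c → c ≤ c0 →
    ∀ Z X u : EE → ℂ → ℂ, FC c r Z X → Fam (strip r) u → (∀ e, ∀ z ∈ strip r, ‖u e z‖ ≤ c ∧ u e (-z) = u e z ∧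
      u e (z + (Real.pi:ℂ)) = u e z ∧ u e ((starRingEnd ℂ) z) = (starRingEnd ℂ) (u e z)) →
      Fam (strip r) (fun e => m1 al (Z e) (X e) (u e)) ∧
      ∀ e, ∀ z ∈ strip r, ‖m1 al (Z e) (X e) (u e) z - 1‖ ≤ C * c ∧ m1 al (Z e) (X e) (u e) (-z) = m1 al (Z e) (X e) (u e) z ∧
        m1 al (Z e) (X e) (u e) (z + (Real.pi:ℂ)) = m1 al (Z e) (X e) (u e) z ∧
        m1 al (Z e) (X e) (u e) ((starRingEnd ℂ) z) = (starRingEnd ℂ) (m1 al (Z e) (X e) (u e) z) := by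
  obtain ⟨c1, hc1, H1⟩ := fam_strip R (by linarith)
  obtain ⟨c2, C2, hc2, hC2, hCc2, H2⟩ := chord_bd_strip R (by linarith)
  set C : ℝ := 8 * C2 + 2 with hC
  have hC0 : 0 < C := by linarith
  refine ⟨min c1 (min c2 (1 / (10 * C))), C, by positivity, by linarith, ?_, ?_⟩
  · have h : min c1 (min c2 (1 / (10 * C))) ≤ 1 / (10 * C) :=
      (min_le_right _ _).trans (min_le_right _ _)
    calc C * min c1 (min c2 (1 / (10 * C))) ≤ C * (1 / (10 * C)) :=
          mul_le_mul_of_nonneg_left h hC0.le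
      _ = 1/10 := by field_simp
  intro al hal r c hr0 hrR hc0 hcc Z X u hF hu hus
  have hc1' : c ≤ c1 := hcc.trans (min_le_left _ _)
  have hc2' : c ≤ c2 := hcc.trans ((min_le_right _ _).trans (min_le_left _ _))
  have hc3' : C * c ≤ 1/10 := by
    have h : c ≤ 1 / (10 * C) := hcc.trans ((min_le_right _ _).trans (min_le_right _ _))
    calc C * c ≤ C * (1 / (10 * C)) := mul_le_mul_of_nonneg_left h hC0.le
      _ = 1/10 := by field_simp
  obtain ⟨-, fnu, -, -, hev, hpi, hconj⟩ := H1 al hal r hr0 hrR Z X (g05_FC_mono hF hc1')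
  have hD : C2 * c ≤ 1/100 := (mul_le_mul_of_nonneg_left hc2' (by linarith)).trans hCc2
  have hch : ∀ e, ∀ t ∈ strip r, ChordBd (C2 * c) al (Z e) (X e) t := fun e t ht =>
    (H2 al hal r c hr0 hrR hc0 hc2' (Z e) (X e) (hF.nb e) (hF.sy e) t ht).1
  have hnu : ∀ e, ∀ t ∈ strip r, nu al (Z e) t ∈ slitPlane := fun e t ht =>
    g05_one_slit ((hch e t ht).nu.trans hD)
  have hchip : ∀ e, ∀ t ∈ strip r, chip al (Z e) (X e) t ∈ slitPlane := fun e t ht =>
    g05_one_slit ((hch e t ht).chip.trans hD)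
  have hchim : ∀ e, ∀ t ∈ strip r, chim al (Z e) (X e) t ∈ slitPlane := fun e t ht =>
    g05_one_slit ((hch e t ht).chim.trans hD)
  have hne : ∀ e, ∀ t ∈ strip r, nu al (Z e) t ≠ 0 := fun e t ht => slitPlane_ne_zero (hnu e t ht)
  have hm : ∀ e, ∀ t ∈ strip r, m1 al (Z e) (X e) (u e) t = exp (w1 al (Z e) (X e) (u e) t) :=
    fun e t ht => g05_m1_eq (hne e t ht)
  have hp : ∀ {t : ℂ}, t ∈ strip r → t + (al:ℂ) ∈ strip r := fun ht => add_real_mem_band ht al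
  have hmn : ∀ {t : ℂ}, t ∈ strip r → t - (al:ℂ) ∈ strip r := fun ht => sub_real_mem_band ht al
  have hpip : ∀ {t : ℂ}, t ∈ strip r → t + (Real.pi:ℂ) ∈ strip r := fun ht => add_real_mem_band ht Real.pi
  obtain ⟨-, -, -, -, -, fchip, fchim⟩ := fam_chord (al := al) (a := -r) (b := r) hF.fZ hF.fX
  have flog : DifferentiableOn ℂ log slitPlane := fun w hw => (differentiableAt_log hw).differentiableWithinAt
  have fexp : DifferentiableOn ℂ exp univ := differentiable_exp.differentiableOn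
  have fw : Fam (strip r) (fun e t => w1 al (Z e) (X e) (u e) t) := by
    have g1 : Fam (strip r) (fun e t => log (nu al (Z e) t)) := fnu.comp flog hnu
    have g2 : Fam (strip r) (fun e t => log (chip al (Z e) (X e) t)) := Fam.comp fchip flog hchip
    have g3 : Fam (strip r) (fun e t => log (chim al (Z e) (X e) t)) := Fam.comp fchim flog hchim
    have g4 : Fam (strip r) (fun e t => u e (t + (al:ℂ))) := Fam.shift hu al
    have g5 : Fam (strip r) (fun e t => u e (t - (al:ℂ))) := Fam.shift_sub hu al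
    exact (g1.smulc (-(1/2))).add ((((((g2.add g3).smulc (3/2))).sub g4).sub g5).smulc (1/2))
  refine ⟨?_, ?_⟩
  · have g : Fam (strip r) (fun e t => exp (w1 al (Z e) (X e) (u e) t)) := fw.comp fexp (fun _ _ _ => mem_univ _)
    exact g.congr (fun e t ht => (hm e t ht).symm)
  intro e z hz
  have hnz : -z ∈ strip r := neg_mem_strip hz
  have hcz : (starRingEnd ℂ) z ∈ strip r := conj_mem_strip hz
  refine ⟨?_, ?_, ?_, ?_⟩
  · rw [hm e z hz]
    have h1 : ‖w1 al (Z e) (X e) (u e) z‖ ≤ 4 * (C2 * c) + c :=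
      g05_w1_bd (hch e z hz) hD (hus e _ (hp hz)).1 (hus e _ (hmn hz)).1
    have h2 : 4 * (C2 * c) + c ≤ C * c := by rw [hC]; nlinarith
    have h3 := norm_exp_sub_one_le (x := w1 al (Z e) (X e) (u e) z) (by linarith)
    have h4 : 2 * (4 * (C2 * c) + c) = C * c := by rw [hC]; ring
    linarith
  · rw [hm e z hz, hm e _ hnz]
    congr 1
    unfold w1 u1
    obtain ⟨-, h1, -, -, -, h2, -, -⟩ := hev e z hz
    obtain ⟨-, -, -, -, -, h3, -, -⟩ := hev e (-z) hnz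
    rw [neg_neg] at h3
    have h4 : u e (-z + (al:ℂ)) = u e (z - (al:ℂ)) := by
      rw [(shift_neg z al).1, (hus e _ (hmn hz)).2.1]
    have h5 : u e (-z - (al:ℂ)) = u e (z + (al:ℂ)) := by
      rw [(shift_neg z al).2, (hus e _ (hp hz)).2.1]
    rw [h1, h2, ← h3, h4, h5]
    ring
  · rw [hm e z hz, hm e _ (hpip hz)]
    congr 1
    unfold w1 u1
    obtain ⟨-, h1, -, -, -, h2, h3⟩ := hpi e z hz
    have h4 : u e (z + (Real.pi:ℂ) + (al:ℂ)) = u e (z + (al:ℂ)) := by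
      rw [add_right_comm, (hus e _ (hp hz)).2.2.1]
    have h5 : u e (z + (Real.pi:ℂ) - (al:ℂ)) = u e (z - (al:ℂ)) := by
      rw [add_sub_right_comm, (hus e _ (hmn hz)).2.2.1]
    rw [h1, h2, h3, h4, h5]
  · rw [hm e z hz, hm e _ hcz, ← exp_conj]
    congr 1
    unfold w1 u1
    obtain ⟨-, h1, -, -, -, h2, h3⟩ := hconj e z hz
    have h4 : u e ((starRingEnd ℂ) z + (al:ℂ)) = (starRingEnd ℂ) (u e (z + (al:ℂ))) := by
      rw [← (hus e _ (hp hz)).2.2.2, map_add, conj_real]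
    have h5 : u e ((starRingEnd ℂ) z - (al:ℂ)) = (starRingEnd ℂ) (u e (z - (al:ℂ))) := by
      rw [← (hus e _ (hmn hz)).2.2.2, map_sub, conj_real]
    rw [h1, h2, h3, h4, h5, log_conj _ (g05_arg (hnu e z hz)), log_conj _ (g05_arg (hchip e z hz)),
      log_conj _ (g05_arg (hchim e z hz))]
    simp only [map_add, map_sub, map_mul, map_neg, map_div₀, map_one, map_ofNat]

/-- families are determined locally -/
theorem g05_local {a r : ℝ} {F : EE → ℂ → ℂ} (h : ∀ r', a < r' → r' < r → Fam (band a r') F) :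
    Fam (band a r) F where
  cont := by
    rintro ⟨e, z⟩ ⟨-, hz⟩
    have hz1 : a < z.im := hz.1
    have hz2 : z.im < r := hz.2
    have hz' : z ∈ band a ((z.im + r) / 2) := ⟨hz1, by linarith⟩
    have h1 := (h ((z.im + r) / 2) (by linarith) (by linarith)).cont (e, z) ⟨mem_univ _, hz'⟩
    exact (h1.continuousAt ((isOpen_univ.prod (isOpen_band a ((z.im + r) / 2))).mem_nhds
      ⟨mem_univ _, hz'⟩)).continuousWithinAt
  diff := by
    intro e z hz
    have hz1 : a < z.im := hz.1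
    have hz2 : z.im < r := hz.2
    have hz' : z ∈ band a ((z.im + r) / 2) := ⟨hz1, by linarith⟩
    have h1 := (h ((z.im + r) / 2) (by linarith) (by linarith)).diff e
    exact (h1.differentiableAt ((isOpen_band a ((z.im + r) / 2)).mem_nhds hz')).differentiableWithinAt

/-- periodic families are bounded on closed substrips -/
theorem g05_bdd {r r' : ℝ} (hr : r' < r) (hr0 : -r < 1) {f : EE → ℂ → ℂ} (hf : Fam (strip r) f)
    (hp : ∀ e, ∀ z ∈ strip r, ‖f e (z + (Real.pi:ℂ))‖ = ‖f e z‖) :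
    ∃ C : ℝ, 0 ≤ C ∧ ∀ e, ∀ z ∈ band 1 r', ‖f e z‖ ≤ C := by
  have hK : IsCompact ((univ : Set EE) ×ˢ (Icc (0:ℝ) (2 * Real.pi) ×ℂ Icc (1:ℝ) r')) :=
    isCompact_univ.prod (isCompact_Icc.reProdIm isCompact_Icc)
  have hsub : ((univ : Set EE) ×ˢ (Icc (0:ℝ) (2 * Real.pi) ×ℂ Icc (1:ℝ) r')) ⊆ univ ×ˢ strip r := by
    rintro ⟨e, z⟩ ⟨-, hz⟩
    obtain ⟨-, hz2⟩ := hz
    refine ⟨mem_univ _, ?_, ?_⟩
    · exact lt_of_lt_of_le hr0 hz2.1
    · exact lt_of_le_of_lt hz2.2 hr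
  obtain ⟨C, hC⟩ := hK.exists_bound_of_continuousOn (hf.cont.mono hsub)
  refine ⟨max C 0, le_max_right _ _, ?_⟩
  intro e z hz
  have hz' : z ∈ strip r := ⟨lt_trans hr0 hz.1, lt_trans hz.2 hr⟩
  have hper : ∀ z ∈ strip r, ((‖f e (z + 2 * (Real.pi : ℂ))‖ : ℝ) : ℂ) = ((‖f e z‖ : ℝ) : ℂ) := by
    intro z hz
    have h1 : z + (Real.pi:ℂ) ∈ strip r := add_real_mem_band hz Real.pi
    have h2 : z + 2 * (Real.pi : ℂ) = z + (Real.pi:ℂ) + (Real.pi:ℂ) := by ring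
    rw [h2, hp e _ h1, hp e _ hz]
  have hper2 := per_int (g := fun z => ((‖f e z‖ : ℝ) : ℂ)) (b := r) hper (-⌊z.re / (2 * Real.pi)⌋) z hz'
  have hper3 : ‖f e (z + ((-⌊z.re / (2 * Real.pi)⌋ : ℤ) : ℂ) * (2 * (Real.pi : ℂ)))‖ = ‖f e z‖ := by
    exact_mod_cast hper2
  rw [← hper3]
  refine (hC (e, z + ((-⌊z.re / (2 * Real.pi)⌋ : ℤ) : ℂ) * (2 * (Real.pi : ℂ))) ⟨mem_univ _, ?_⟩).trans (le_max_left _ _)
  have hpi : 0 < 2 * Real.pi := by positivity
  have e1 : (z + ((-⌊z.re / (2 * Real.pi)⌋ : ℤ) : ℂ) * (2 * (Real.pi : ℂ))) =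
      z + (((-⌊z.re / (2 * Real.pi)⌋ : ℤ) * (2 * Real.pi) : ℝ) : ℂ) := by
    push_cast
    ring
  rw [e1]
  have hfr0 := Int.fract_nonneg (z.re / (2 * Real.pi))
  have hfr1 := (Int.fract_lt_one (z.re / (2 * Real.pi))).le
  have hfr : z.re + (((-⌊z.re / (2 * Real.pi)⌋ : ℤ) : ℝ) * (2 * Real.pi)) = Int.fract (z.re / (2 * Real.pi)) * (2 * Real.pi) := by
    unfold Int.fract
    push_cast
    field_simp
    ring
  constructor
  · show (z + (((-⌊z.re / (2 * Real.pi)⌋ : ℤ) * (2 * Real.pi) : ℝ) : ℂ)).re ∈ Icc (0:ℝ) (2 * Real.pi)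
    rw [add_re, ofReal_re, hfr]
    exact ⟨by positivity, by nlinarith⟩
  · show (z + (((-⌊z.re / (2 * Real.pi)⌋ : ℤ) * (2 * Real.pi) : ℝ) : ℂ)).im ∈ Icc (1:ℝ) r'
    rw [add_im, ofReal_im, add_zero]
    exact ⟨hz.1.le, hz.2.le⟩

/-- the common part: `DS0` of symmetric real directions -/
theorem g05_DS0 (R : ℝ) (hR : 3 ≤ R) : ∃ c0 : ℝ, 0 < c0 ∧ ∀ al ∈ JJ, ∀ r : ℝ, 3 < r → r ≤ R →
    ∀ Z X A B : EE → ℂ → ℂ, FC c0 r Z X → Fam (strip r) A → Fam (strip r) B → (∀ e, Sym r (A e) (B e)) →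
      (∀ e, RealC r (A e) (B e)) →
      Fam (band 1 r) (fun e => DS0 al (Z e) (X e) (A e) (B e)) ∧
      ∀ e, EvenExt 1 r (DS0 al (Z e) (X e) (A e) (B e)) ∧
        ∀ t ∈ band 1 r, DS0 al (Z e) (X e) (A e) (B e) (t + (Real.pi:ℂ)) = DS0 al (Z e) (X e) (A e) (B e) t ∧
          DS0 al (Z e) (X e) (A e) (B e) (-(starRingEnd ℂ) t) =
            (starRingEnd ℂ) (DS0 al (Z e) (X e) (A e) (B e) t) := by
  obtain ⟨c1, C1, hc1, -, H1⟩ := fam_variation R (by linarith)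
  obtain ⟨c2, hc2, H2⟩ := DV_even' R hR
  obtain ⟨c3, hc3, H3⟩ := variation_conj R (by linarith)
  refine ⟨min c1 (min c2 c3), by positivity, ?_⟩
  intro al hal r hr hrR Z X A B hF fA fB hsy hre
  have hF1 := g05_FC_mono hF (min_le_left c1 (min c2 c3))
  have hF2 := g05_FC_mono hF ((min_le_right c1 (min c2 c3)).trans (min_le_left c2 c3))
  have hF3 := g05_FC_mono hF ((min_le_right c1 (min c2 c3)).trans (min_le_right c2 c3))
  refine ⟨?_, fun e => ⟨?_, fun t ht => ⟨?_, ?_⟩⟩⟩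
  · apply g05_local
    intro r' h1 h2
    obtain ⟨dA, hdA0, hdA⟩ := g05_bdd h2 (by linarith) fA (fun e z hz => by rw [(hsy e).aZ z hz, norm_neg])
    obtain ⟨dB, hdB0, hdB⟩ := g05_bdd h2 (by linarith) fB (fun e z hz => by rw [(hsy e).aX z hz, norm_neg])
    have hsub : band 1 r' ⊆ strip r := band_subset (by linarith) h2.le
    exact (H1 al hal 1 r' le_rfl h1 (by linarith) Z X (g05_FNB (by linarith) h2.le hF1) A B (fA.mono hsub)
      (fB.mono hsub) (max dA dB) (fun e z hz => ⟨(hdA e z hz).trans (le_max_left _ _),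
        (hdB e z hz).trans (le_max_right _ _)⟩)).2.1
  · exact (H2 al hal r hr hrR (Z e) (X e) (hF2.nb e) (hF2.sy e) (A e) (B e) (hsy e) (fA.diff e) (fB.diff e)).2.2
  · exact (variation_pi ((hF.sy e).aper (by linarith) le_rfl) ((hsy e).aper (by linarith) le_rfl)
      one_pos ht).2.1
  · exact (H3 al hal 1 r le_rfl hrR (Z e) (X e) (A e) (B e) ((hF3.nb e).mono le_rfl (by linarith) le_rfl)
      (ureal_of (hF.sy e) (hF.re e) (by linarith) le_rfl) (ureal_of (hsy e) (hre e) (by linarith) le_rfl) t ht).2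

theorem g05_circle (c r : ℝ) (hc : 0 ≤ c) : FC c r (fun _ => cos) (fun _ => sin) :=
  { fZ := Fam.const differentiable_cos.differentiableOn
    fX := Fam.const differentiable_sin.differentiableOn
    nb := fun _ => (NB_circle (-r) r).mono hc le_rfl le_rfl
    sy := fun _ => Sym_circle r
    re := fun _ => RealC_circle r }

/-- `Top`, `L0`, `Rop` are parametric integrals of bounded families (`Fam.integral`). Evenness: `Top f = DS0 (normal direction)` (`DS0_normal`, `normal_dir`,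
`DV_even'`), `L0 f = DS0` at the circle (`DS0_circle`), and `Rop f = Top f/m1 - L0 f` (`Top_eq`) with `m1` even (on the strip `nu, chip chim` symmetric,
`u1(-t) = u1(t)`) and close to `1` (`EvenExt.inv`). Periodicity: `q0 (t + pi) = - q0 t`, `K0 (t+pi) = ..`: `K0` contains
`sin t sin^2(t+s) q0^3`, which is invariant; `Th` is invariant. Reality: `t → - conj t`, `s → - s`. -/
theorem Rop_fam (R : ℝ) (hR : 3 ≤ R) : ∃ c0 : ℝ, 0 < c0 ∧ ∀ al ∈ JJ, ∀ r : ℝ, 3 < r → r ≤ R → ∀ Z X u f : EE → ℂ → ℂ,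
    FC c0 r Z X → Fam (strip r) u → (∀ e, ∀ z ∈ strip r, ‖u e z‖ ≤ c0 ∧ u e (-z) = u e z ∧ u e (z + (Real.pi:ℂ)) = u e z ∧
      u e ((starRingEnd ℂ) z) = (starRingEnd ℂ) (u e z)) →
    Fam (strip r) f → (∀ e, ∀ z ∈ strip r, f e (-z) = f e z ∧ f e (z + (Real.pi:ℂ)) = f e z ∧
      f e ((starRingEnd ℂ) z) = (starRingEnd ℂ) (f e z)) →
      Fam (band 1 r) (fun e t => Rop al (Z e) (X e) (u e) (f e) t) ∧
      Fam (band 1 r) (fun e t => Top al (Z e) (X e) (u e) (f e) t) ∧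
      Fam (band 1 r) (fun e t => L0 al (f e) t) ∧
      (∀ e, EvenExt 1 r (Rop al (Z e) (X e) (u e) (f e)) ∧ EvenExt 1 r (Top al (Z e) (X e) (u e) (f e)) ∧ EvenExt 1 r (L0 al (f e))) ∧
      (∀ e, ∀ t ∈ band 1 r, Rop al (Z e) (X e) (u e) (f e) (t + (Real.pi:ℂ)) = Rop al (Z e) (X e) (u e) (f e) t ∧
        Top al (Z e) (X e) (u e) (f e) (t + (Real.pi:ℂ)) = Top al (Z e) (X e) (u e) (f e) t) ∧
      (∀ e, ∀ t ∈ band 1 r, Rop al (Z e) (X e) (u e) (f e) (-(starRingEnd ℂ) t) = (starRingEnd ℂ) (Rop al (Z e) (X e) (u e) (f e) t) ∧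
        Top al (Z e) (X e) (u e) (f e) (-(starRingEnd ℂ) t) = (starRingEnd ℂ) (Top al (Z e) (X e) (u e) (f e) t)) := by
  obtain ⟨c1, hc1, H1⟩ := g05_DS0 R hR
  obtain ⟨c2, hc2, H2⟩ := Top_eq R (by linarith)
  obtain ⟨c3, hc3, H3⟩ := DS0_normal R (by linarith)
  obtain ⟨c4, C4, hc4, -, H4⟩ := normal_dir R hR
  obtain ⟨c5, C5, hc5, hC5, hCc5, H5⟩ := m1_fam R hR
  set c0 : ℝ := min 1 (min c1 (min c2 (min c3 (min c4 c5)))) with hc0
  have l1 : c0 ≤ 1 := min_le_left _ _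
  have l1' : c0 ≤ c1 := (min_le_right _ _).trans (min_le_left _ _)
  have l2 : c0 ≤ c2 := (min_le_right _ _).trans ((min_le_right _ _).trans (min_le_left _ _))
  have l3 : c0 ≤ c3 := (min_le_right _ _).trans ((min_le_right _ _).trans ((min_le_right _ _).trans (min_le_left _ _)))
  have l4 : c0 ≤ c4 := (min_le_right _ _).trans ((min_le_right _ _).trans ((min_le_right _ _).trans
    ((min_le_right _ _).trans (min_le_left _ _))))
  have l5 : c0 ≤ c5 := (min_le_right _ _).trans ((min_le_right _ _).trans ((min_le_right _ _).trans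
    ((min_le_right _ _).trans (min_le_right _ _))))
  have hc00 : 0 < c0 := by positivity
  refine ⟨c0, hc00, ?_⟩
  intro al hal r hr hrR Z X u f hF hu hus hf hfs
  have hb : ∀ {t : ℂ}, t ∈ band 1 r → t ∈ strip r := fun ht => band_subset (by linarith) le_rfl ht
  -- the normal direction
  obtain ⟨fA, fB, hsy, hre, -⟩ := H4 al hal r (by linarith) hrR Z X u f (g05_FC_mono hF l4) hu
    (fun e z hz => ⟨(hus e z hz).1.trans l1, (hus e z hz).2.1, (hus e z hz).2.2.1⟩) hf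
    (fun e z hz => ⟨(hfs e z hz).1, (hfs e z hz).2.1⟩)
  have hre' := hre (fun e z hz => (hus e z hz).2.2.2) (fun e z hz => (hfs e z hz).2.2)
  obtain ⟨FT, PT⟩ := H1 al hal r hr hrR Z X _ _ (g05_FC_mono hF l1') fA fB hsy hre'
  have eT : ∀ e, ∀ t ∈ band 1 r, DS0 al (Z e) (X e) (fun z => gN (Z e) (X e) (u e) (f e) z * deriv (X e) z)
      (fun z => - (gN (Z e) (X e) (u e) (f e) z * deriv (Z e) z)) t = Top al (Z e) (X e) (u e) (f e) t :=
    fun e t ht => H3 al hal 1 r le_rfl hrR (Z e) (X e) (u e)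
      (((g05_FC_mono hF l3).nb e).mono le_rfl (by linarith) le_rfl) (f e) t ht
  -- the circle
  have fA' : Fam (strip r) (fun e z => f e z / 2 * cos z) :=
    (hf.divc 2).mul (Fam.const differentiable_cos.differentiableOn)
  have fB' : Fam (strip r) (fun e z => f e z / 2 * sin z) :=
    (hf.divc 2).mul (Fam.const differentiable_sin.differentiableOn)
  have hsy' : ∀ e, Sym r (fun z => f e z / 2 * cos z) (fun z => f e z / 2 * sin z) := fun e =>
    { eZ := fun z hz => by rw [(hfs e z hz).1, cos_neg]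
      oX := fun z hz => by rw [(hfs e z hz).1, sin_neg, mul_neg]
      aZ := fun z hz => by rw [(hfs e z hz).2.1, cos_add_pi, mul_neg]
      aX := fun z hz => by rw [(hfs e z hz).2.1, sin_add_pi, mul_neg] }
  have hre2 : ∀ e, RealC r (fun z => f e z / 2 * cos z) (fun z => f e z / 2 * sin z) := fun e =>
    { rZ := fun z hz => by rw [(hfs e z hz).2.2, cos_conj, map_mul, map_div₀, map_ofNat]
      rX := fun z hz => by rw [(hfs e z hz).2.2, sin_conj, map_mul, map_div₀, map_ofNat] }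
  obtain ⟨FL, PL'⟩ := H1 al hal r hr hrR _ _ _ _ (g05_circle c1 r hc1.le) fA' fB' hsy' hre2
  have cf : ∀ e, ContinuousOn (f e) (band 1 r) := fun e => (hf.diff e).continuousOn.mono (fun t ht => hb ht)
  have cu : ∀ e, ContinuousOn (u e) (band 1 r) := fun e => (hu.diff e).continuousOn.mono (fun t ht => hb ht)
  have eL : ∀ e, ∀ t ∈ band 1 r, DS0 al cos sin (fun z => f e z / 2 * cos z) (fun z => f e z / 2 * sin z) t =
      L0 al (f e) t := fun e t ht => (DS0_circle hal (cf e) ht).1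
  -- the factor
  obtain ⟨Fm, Pm⟩ := H5 al hal r c0 (by linarith) hrR hc00.le l5 Z X u hF hu hus
  have hm0 : ∀ e, ∀ z ∈ strip r, m1 al (Z e) (X e) (u e) z ≠ 0 := by
    intro e z hz h0
    have h1 := (Pm e z hz).1
    rw [h0, zero_sub, norm_neg, norm_one] at h1
    have h2 : C5 * c0 ≤ C5 * c5 := mul_le_mul_of_nonneg_left l5 (by linarith)
    linarith
  have eR : ∀ e, ∀ t ∈ band 1 r, Top al (Z e) (X e) (u e) (f e) t * (m1 al (Z e) (X e) (u e) t)⁻¹ - L0 al (f e) t =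
      Rop al (Z e) (X e) (u e) (f e) t := by
    intro e t ht
    have h1 := H2 al hal 1 r le_rfl hrR (Z e) (X e) (u e) (((g05_FC_mono hF l2).nb e).mono le_rfl (by linarith) le_rfl)
      (cu e) (f e) (cf e) t ht
    have h2 := hm0 e t (hb ht)
    rw [h1]
    field_simp
    ring
  have tpi : ∀ {t : ℂ}, t ∈ band 1 r → t + (Real.pi:ℂ) ∈ band 1 r := fun ht => add_real_mem_band ht Real.pi
  have tcj : ∀ {t : ℂ}, t ∈ band 1 r → -(starRingEnd ℂ) t ∈ band 1 r := by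
    intro t ht
    have : (-(starRingEnd ℂ) t).im = t.im := by simp
    refine ⟨?_, ?_⟩
    · show 1 < (-(starRingEnd ℂ) t).im
      rw [this]; exact ht.1
    · show (-(starRingEnd ℂ) t).im < r
      rw [this]; exact ht.2
  have FT' : Fam (band 1 r) (fun e t => Top al (Z e) (X e) (u e) (f e) t) := FT.congr eT
  have FL' : Fam (band 1 r) (fun e t => L0 al (f e) t) := FL.congr eL
  have ET : ∀ e, EvenExt 1 r (Top al (Z e) (X e) (u e) (f e)) := fun e => (PT e).1.congr (eT e)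
  have EL : ∀ e, EvenExt 1 r (L0 al (f e)) := fun e => (PL' e).1.congr (eL e)
  have Tpi : ∀ e, ∀ t ∈ band 1 r, Top al (Z e) (X e) (u e) (f e) (t + (Real.pi:ℂ)) = Top al (Z e) (X e) (u e) (f e) t := by
    intro e t ht
    rw [← eT e t ht, ← eT e _ (tpi ht)]
    exact ((PT e).2 t ht).1
  have Tcj : ∀ e, ∀ t ∈ band 1 r, Top al (Z e) (X e) (u e) (f e) (-(starRingEnd ℂ) t) =
      (starRingEnd ℂ) (Top al (Z e) (X e) (u e) (f e) t) := by
    intro e t ht
    rw [← eT e t ht, ← eT e _ (tcj ht)]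
    exact ((PT e).2 t ht).2
  have Lpi : ∀ e, ∀ t ∈ band 1 r, L0 al (f e) (t + (Real.pi:ℂ)) = L0 al (f e) t := by
    intro e t ht
    rw [← eL e t ht, ← eL e _ (tpi ht)]
    exact ((PL' e).2 t ht).1
  have Lcj : ∀ e, ∀ t ∈ band 1 r, L0 al (f e) (-(starRingEnd ℂ) t) = (starRingEnd ℂ) (L0 al (f e) t) := by
    intro e t ht
    rw [← eL e t ht, ← eL e _ (tcj ht)]
    exact ((PL' e).2 t ht).2
  have mcj : ∀ e, ∀ t ∈ band 1 r, m1 al (Z e) (X e) (u e) (-(starRingEnd ℂ) t) =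
      (starRingEnd ℂ) (m1 al (Z e) (X e) (u e) t) := by
    intro e t ht
    rw [(Pm e _ (conj_mem_strip (hb ht))).2.1, (Pm e t (hb ht)).2.2.2]
  have Em : ∀ e, EvenExt 1 r (fun t => (m1 al (Z e) (X e) (u e) t)⁻¹) := by
    intro e
    refine EvenExt.of_strip (by linarith) ((Fm.inv hm0).diff e) ?_ ?_
    · intro z hz
      have h1 : z + (Real.pi:ℂ) ∈ strip r := add_real_mem_band hz Real.pi
      have h2 : z + 2 * (Real.pi : ℂ) = z + (Real.pi:ℂ) + (Real.pi:ℂ) := by ring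
      rw [h2, (Pm e _ h1).2.2.1, (Pm e z hz).2.2.1]
    · intro z hz
      rw [(Pm e z hz).2.1]
  refine ⟨?_, FT', FL', fun e => ⟨?_, ET e, EL e⟩, fun e t ht => ⟨?_, Tpi e t ht⟩, fun e t ht => ⟨?_, Tcj e t ht⟩⟩
  · exact ((FT'.mul ((Fm.inv hm0).mono (fun t ht => hb ht))).sub FL').congr eR
  · exact (((ET e).mul (Em e)).sub (EL e)).congr (eR e)
  · rw [← eR e t ht, ← eR e _ (tpi ht), Tpi e t ht, Lpi e t ht, (Pm e t (hb ht)).2.2.1]
  · rw [← eR e t ht, ← eR e _ (tcj ht), Tcj e t ht, Lcj e t ht, mcj e t ht, map_sub, map_mul, map_inv₀]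

end FB
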