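import Pool.Agent.H48.FB.Defs

/-! Definitions for the eigenvalue / diophantine part (H, I modules). -/

open Set MeasureTheory Filter Topology

noncomputable section

namespace FB

/-- `int_{-al}^{al} (cos s - cos al)^{3/2} cos (m s) ds` -/
def ll (al m : ℝ) : ℝ :=
  ∫ s in (-al)..al, (Real.sqrt (Real.cos s - Real.cos al)) ^ 3 * Real.cos (m * s)
/-- `int_{-al}^{al} (cos s - cos al)^{1/2} cos (m s) ds` -/
def l1 (al m : ℝ) : ℝ :=
  ∫ s in (-al)..al, Real.sqrt (Real.cos s - Real.cos al) * Real.cos (m * s)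
/-- the hypergeometric polynomial `2F1(-k, k+5/2; 3; s)` -/
def hk (k : ℕ) (s : ℝ) : ℝ :=
  ∑ j ∈ Finset.range (k + 1), (-s / 2) ^ j * 2 *
    (∏ i ∈ Finset.range j, ((k : ℝ) * (2 * k + 5) - (i : ℝ) * (2 * i + 5))) / ((j.factorial : ℝ) * ((j + 2).factorial : ℝ))
/-- the same over `ℚ` at `s = 6/7` -/
def hq (k : ℕ) : ℚ :=
  ∑ j ∈ Finset.range (k + 1), (-(3 : ℚ) / 7) ^ j * 2 *
    (∏ i ∈ Finset.range j, ((k : ℚ) * (2 * k + 5) - (i : ℚ) * (2 * i + 5))) / ((j.factorial : ℚ) * ((j + 2).factorial : ℚ))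
/-- normalised eigenvalue, `Fn n al = cos ((2n+1/2) al - 5 pi/4) + O(1/n)` -/
def Fn (n : ℕ) (al : ℝ) : ℝ :=
  ll al (2 * n + 1/2) * (2 * n + 1/2 : ℝ) ^ ((5:ℝ)/2) / (3 * Real.sqrt Real.pi / 2 * (Real.sin al) ^ ((3:ℝ)/2))

end FB
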