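import Pool.Agent.H48.FB.HDefs

/-! Definitions for the diophantine part (I modules). -/

open Set

noncomputable section

namespace FB

/-- distance to the nearest integer -/
def nn (y : ℝ) : ℝ := |y - (round y : ℝ)|

/-- oscillating functions `F n al = cos ((2n+1/2) al - ga) + O(1/n)` with derivative -/
structure Osc (A ga : ℝ) (Na : ℕ) (lo hi : ℝ) (F F' : ℕ → ℝ → ℝ) : Prop where
  hA : 1 ≤ A
  hN : 1 ≤ Na
  f0 : ∀ n, Na ≤ n → ∀ x ∈ Icc lo hi, |F n x - Real.cos ((2 * n + 1/2) * x - ga)| ≤ A / n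
  hd : ∀ n, Na ≤ n → ∀ x ∈ Icc lo hi, HasDerivWithinAt (F n) (F' n x) (Icc lo hi) x
  f1 : ∀ n, Na ≤ n → ∀ x ∈ Icc lo hi, |F' n x + (2 * n + 1/2) * Real.sin ((2 * n + 1/2) * x - ga)| ≤ A

/-- the constant `25600 (2 pi A + 1)` -/
def CD (A : ℝ) : ℝ := 25600 * (2 * Real.pi * A + 1)

/-- invariant of the nested interval construction on `[x, x + k2/300/Q^2]` -/
structure Inv (F : ℕ → ℝ → ℝ) (N0 : ℕ) (ka k2 : ℝ) (Q : ℕ) (x : ℝ) : Prop where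
  a : ∀ n, N0 ≤ n → n < Q → ∀ y ∈ Icc x (x + k2 / 300 / (Q:ℝ) ^ 2), ka / n ≤ |F n y|
  b : ∀ k, 1 ≤ k → k < 512 * Q → ∀ y ∈ Icc x (x + k2 / 300 / (Q:ℝ) ^ 2), k2 / k ≤ |Real.sin (2 * k * y)|

end FB
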