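import Pool.Agent.H48.FB.A11

/-! J01: the cohomological equation `τ(z+al) - τ(z-al) = g(z)`. -/

open Complex Set MeasureTheory Filter Topology

noncomputable section

namespace FB

private theorem norm_sin_le_exp (w : ℂ) : ‖sin w‖ ≤ Real.exp |w.im| := by
  have h1 : sin w = (exp (-w * I) - exp (w * I)) * I / 2 := rfl
  rw [h1, norm_div, norm_mul, norm_I, mul_one]
  have h2 : ‖exp (-w * I) - exp (w * I)‖ ≤ Real.exp |w.im| + Real.exp |w.im| := by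
    refine (norm_sub_le _ _).trans ?_
    rw [norm_exp, norm_exp]
    refine add_le_add (Real.exp_le_exp.mpr ?_) (Real.exp_le_exp.mpr ?_)
    · simp; exact le_abs_self _
    · simp; exact neg_le_abs _
  have h3 : ‖(2:ℂ)‖ = 2 := by simp
  rw [h3]
  linarith

private theorem J01_norm_cos_le_exp (w : ℂ) : ‖cos w‖ ≤ Real.exp |w.im| := by
  have h1 : cos w = (exp (w * I) + exp (-w * I)) / 2 := rfl
  rw [h1, norm_div]
  have h2 : ‖exp (w * I) + exp (-w * I)‖ ≤ Real.exp |w.im| + Real.exp |w.im| := by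
    refine (norm_add_le _ _).trans ?_
    rw [norm_exp, norm_exp]
    refine add_le_add (Real.exp_le_exp.mpr ?_) (Real.exp_le_exp.mpr ?_)
    · simp; exact neg_le_abs _
    · simp; exact le_abs_self _
  have h3 : ‖(2:ℂ)‖ = 2 := by simp
  rw [h3]
  linarith

private theorem exp_im_le (m : ℕ) {z : ℂ} {r : ℝ} (hz : |z.im| ≤ r) :
    Real.exp |(2 * ((m:ℂ) + 1) * z).im| ≤ Real.exp (2 * ((m:ℝ) + 1) * r) := by
  apply Real.exp_le_exp.mpr
  have h1 : (2 * ((m:ℂ) + 1) * z).im = 2 * ((m:ℝ) + 1) * z.im := by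
    have : (2 * ((m:ℂ) + 1)) = ((2 * ((m:ℝ) + 1) : ℝ) : ℂ) := by push_cast; ring
    rw [this, im_ofReal_mul]
  rw [h1, abs_mul, abs_of_pos (by positivity)]
  exact mul_le_mul_of_nonneg_left hz (by positivity)

/-- general facts for a trigonometric series with kernel `T` (sine or cosine) -/
private theorem ser_gen {T : ℂ → ℂ} (hT : ∀ w, ‖T w‖ ≤ Real.exp |w.im|) (hTd : Differentiable ℂ T)
    (hTp : ∀ w (n : ℕ), T (w + n * (2 * (Real.pi:ℂ))) = T w)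
    (hTc : ∀ w, T ((starRingEnd ℂ) w) = (starRingEnd ℂ) (T w))
    {b : ℝ} (hb : 0 < b) {c : EE → ℕ → ℝ} {G : ℕ → ℝ} (hc : ∀ m, Continuous (fun e => c e m))
    (hcG : ∀ e m, |c e m| ≤ G m)
    (hG : ∀ r : ℝ, 0 ≤ r → r < b → Summable (fun m : ℕ => G m * Real.exp (2 * ((m:ℝ) + 1) * r))) :
    Fam (strip b) (fun e z => ∑' m : ℕ, (c e m : ℂ) * T (2 * ((m:ℂ) + 1) * z)) ∧
    (∀ e, ∀ z : ℂ, (∑' m : ℕ, (c e m : ℂ) * T (2 * ((m:ℂ) + 1) * (z + (Real.pi : ℂ)))) =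
      ∑' m : ℕ, (c e m : ℂ) * T (2 * ((m:ℂ) + 1) * z)) ∧
    (∀ e, ∀ z : ℂ, (∑' m : ℕ, (c e m : ℂ) * T (2 * ((m:ℂ) + 1) * ((starRingEnd ℂ) z))) =
      (starRingEnd ℂ) (∑' m : ℕ, (c e m : ℂ) * T (2 * ((m:ℂ) + 1) * z))) ∧
    (∀ e, ∀ z ∈ strip b, Summable (fun m : ℕ => (c e m : ℂ) * T (2 * ((m:ℂ) + 1) * z))) ∧
    ∀ r : ℝ, 0 ≤ r → r < b → ∀ e, ∀ z : ℂ, |z.im| ≤ r →
        ‖∑' m : ℕ, (c e m : ℂ) * T (2 * ((m:ℂ) + 1) * z)‖ ≤ ∑' m : ℕ, G m * Real.exp (2 * ((m:ℝ) + 1) * r) := by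
  have hbd : ∀ (r : ℝ) (m : ℕ) (e : EE) (z : ℂ), |z.im| ≤ r →
      ‖(c e m : ℂ) * T (2 * ((m:ℂ) + 1) * z)‖ ≤ G m * Real.exp (2 * ((m:ℝ) + 1) * r) := by
    intro r m e z hz
    rw [norm_mul, norm_real, Real.norm_eq_abs]
    exact mul_le_mul (hcG e m) ((hT _).trans (exp_im_le m hz)) (norm_nonneg _) ((abs_nonneg _).trans (hcG e m))
  have hzr : ∀ z ∈ strip b, |z.im| < b := by
    intro z hz
    exact abs_lt.mpr ⟨hz.1, hz.2⟩
  refine ⟨?_, ?_, ?_, ?_, ?_⟩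
  · refine Fam.tsum (a := -b) (b := b) (F := fun (m : ℕ) e z => (c e m : ℂ) * T (2 * ((m:ℂ) + 1) * z)) ?_ ?_
    · intro m
      refine Fam.mul (f := fun e _ => (c e m : ℂ)) (Fam.param ?_) (Fam.const ?_)
      · exact continuous_ofReal.comp (hc m)
      · exact (hTd.comp (by fun_prop)).differentiableOn
    · intro a' b' ha' hb'
      refine ⟨fun m => G m * Real.exp (2 * ((m:ℝ) + 1) * max (max (-a') b') 0), hG _ (le_max_right _ _) ?_, ?_⟩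
      · exact max_lt (max_lt (by linarith) hb') hb
      · intro m e z hz
        apply hbd
        refine le_trans ?_ (le_max_left _ _)
        rw [abs_le]
        constructor
        · have := le_max_left (-a') b'
          have := hz.1
          linarith
        · have := le_max_right (-a') b'
          have := hz.2
          linarith
  · intro e z
    refine tsum_congr fun m => ?_
    congr 1
    have : 2 * ((m:ℂ) + 1) * (z + (Real.pi : ℂ)) = 2 * ((m:ℂ) + 1) * z + ((m + 1 : ℕ) : ℂ) * (2 * (Real.pi:ℂ)) := by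
      push_cast; ring
    rw [this, hTp]
  · intro e z
    rw [conj_tsum]
    refine tsum_congr fun m => ?_
    rw [map_mul, conj_ofReal, ← hTc]
    congr 2
    have h2 : (2 * ((m:ℂ) + 1)) = ((2 * ((m:ℝ) + 1) : ℝ) : ℂ) := by push_cast; ring
    rw [map_mul, h2, conj_ofReal]
  · intro e z hz
    exact Summable.of_norm_bounded (hG _ (abs_nonneg _) (hzr z hz)) (fun m => hbd |z.im| m e z le_rfl)
  · intro r hr hrb e z hz
    exact tsum_of_norm_bounded (hG r hr hrb).hasSum (fun m => hbd r m e z hz)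

private theorem strip_shift {b : ℝ} {z : ℂ} (hz : z ∈ strip b) (s : ℝ) : z + (s:ℂ) ∈ strip b := by
  unfold strip band at *
  simpa using hz
private theorem strip_shift' {b : ℝ} {z : ℂ} (hz : z ∈ strip b) (s : ℝ) : z - (s:ℂ) ∈ strip b := by
  unfold strip band at *
  simpa using hz

private theorem coef_bound {al : ℝ} {s : ℕ → ℝ} (hs : ∀ m, 1 ≤ m → 0 < s m ∧ s m ≤ |Real.sin (2 * m * al)|)
    {x B : ℝ} (hx : |x| ≤ B) (m : ℕ) : |x / Real.sin (2 * ((m:ℝ) + 1) * al)| ≤ B / s (m + 1) := by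
  obtain ⟨h1, h2⟩ := hs (m + 1) (by omega)
  push_cast at h2
  rw [abs_div]
  exact div_le_div₀ ((abs_nonneg _).trans hx) hx h1 h2

private theorem sin_ne {al : ℝ} {s : ℕ → ℝ} (hs : ∀ m, 1 ≤ m → 0 < s m ∧ s m ≤ |Real.sin (2 * m * al)|)
    (m : ℕ) : sin (2 * ((m:ℂ) + 1) * (al:ℂ)) ≠ 0 := by
  obtain ⟨h1, h2⟩ := hs (m + 1) (by omega)
  push_cast at h2
  have h3 : Real.sin (2 * ((m:ℝ) + 1) * al) ≠ 0 := by
    intro h
    rw [h, abs_zero] at h2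
    linarith
  have : sin (2 * ((m:ℂ) + 1) * (al:ℂ)) = ((Real.sin (2 * ((m:ℝ) + 1) * al) : ℝ) : ℂ) := by
    push_cast; rfl
  rw [this]
  exact_mod_cast h3

/-- `τ e z = ∑_{m ≥ 1} φ_m / sin (2 m al) * sin (2 m z)` -/
theorem coh_odd {b : ℝ} (hb : 0 < b) {al : ℝ} {s : ℕ → ℝ} (hs : ∀ m, 1 ≤ m → 0 < s m ∧ s m ≤ |Real.sin (2 * m * al)|)
    {φ : EE → ℕ → ℝ} {F : ℕ → ℝ} (hc : ∀ m, Continuous (fun e => φ e m)) (h0 : ∀ e, φ e 0 = 0)
    (hφ : ∀ e m, |φ e m| ≤ F m)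
    (hF : ∀ r : ℝ, 0 ≤ r → r < b → Summable (fun m : ℕ => F (m + 1) / s (m + 1) * Real.exp (2 * ((m:ℝ) + 1) * r))) :
    ∃ τ : EE → ℂ → ℂ, Fam (strip b) τ ∧ (∀ e, ∀ z ∈ strip b, τ e (-z) = - τ e z) ∧
      (∀ e, ∀ z ∈ strip b, τ e (z + (Real.pi : ℂ)) = τ e z) ∧
      (∀ e, ∀ z ∈ strip b, τ e ((starRingEnd ℂ) z) = (starRingEnd ℂ) (τ e z)) ∧
      (∀ e, ∀ z ∈ strip b, τ e (z + (al:ℂ)) - τ e (z - (al:ℂ)) = cosS (φ e) z) ∧
      ∀ r : ℝ, 0 ≤ r → r < b → ∀ e, ∀ z : ℂ, |z.im| ≤ r →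
        ‖τ e z‖ ≤ ∑' m : ℕ, F (m + 1) / s (m + 1) * Real.exp (2 * ((m:ℝ) + 1) * r) := by
  obtain ⟨k1, k2, k3, k4, k5⟩ := ser_gen (T := sin) norm_sin_le_exp differentiable_sin
    (fun w n => sin_add_nat_mul_two_pi w n) (fun w => sin_conj w) hb
    (c := fun e m => φ e (m + 1) / Real.sin (2 * ((m:ℝ) + 1) * al)) (G := fun m => F (m + 1) / s (m + 1))
    (fun m => (hc (m + 1)).div_const _) (fun e m => coef_bound hs (hφ e (m + 1)) m) hF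
  refine ⟨_, k1, ?_, fun e z _ => k2 e z, fun e z _ => k3 e z, ?_, k5⟩
  · intro e z _
    rw [← tsum_neg]
    refine tsum_congr fun m => ?_
    rw [mul_neg, sin_neg, mul_neg]
  · intro e z hz
    rw [← (k4 e _ (strip_shift hz al)).tsum_sub (k4 e _ (strip_shift' hz al))]
    unfold cosS
    rw [h0 e, ofReal_zero, zero_add, ← tsum_mul_left]
    refine tsum_congr fun m => ?_
    have hne := sin_ne hs m
    have e1 : 2 * ((m:ℂ) + 1) * (z + (al:ℂ)) = 2 * ((m:ℂ) + 1) * z + 2 * ((m:ℂ) + 1) * (al:ℂ) := by ring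
    have e2 : 2 * ((m:ℂ) + 1) * (z - (al:ℂ)) = 2 * ((m:ℂ) + 1) * z - 2 * ((m:ℂ) + 1) * (al:ℂ) := by ring
    rw [e1, e2, sin_add, sin_sub]
    push_cast
    field_simp
    ring

/-- `u e z = - ∑_{m ≥ 1} ψ_m / sin (2 m al) * cos (2 m z)` -/
theorem coh_even {b : ℝ} (hb : 0 < b) {al : ℝ} {s : ℕ → ℝ} (hs : ∀ m, 1 ≤ m → 0 < s m ∧ s m ≤ |Real.sin (2 * m * al)|)
    {ψ : EE → ℕ → ℝ} {F : ℕ → ℝ} (hc : ∀ m, Continuous (fun e => ψ e m)) (hψ : ∀ e m, |ψ e m| ≤ F m)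
    (hF : ∀ r : ℝ, 0 ≤ r → r < b → Summable (fun m : ℕ => F (m + 1) / s (m + 1) * Real.exp (2 * ((m:ℝ) + 1) * r))) :
    ∃ u : EE → ℂ → ℂ, Fam (strip b) u ∧ (∀ e, ∀ z ∈ strip b, u e (-z) = u e z) ∧
      (∀ e, ∀ z ∈ strip b, u e (z + (Real.pi : ℂ)) = u e z) ∧
      (∀ e, ∀ z ∈ strip b, u e ((starRingEnd ℂ) z) = (starRingEnd ℂ) (u e z)) ∧
      (∀ e, ∀ z ∈ strip b, u e (z + (al:ℂ)) - u e (z - (al:ℂ)) = sinS (ψ e) z) ∧
      ∀ r : ℝ, 0 ≤ r → r < b → ∀ e, ∀ z : ℂ, |z.im| ≤ r →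
        ‖u e z‖ ≤ ∑' m : ℕ, F (m + 1) / s (m + 1) * Real.exp (2 * ((m:ℝ) + 1) * r) := by
  obtain ⟨k1, k2, k3, k4, k5⟩ := ser_gen (T := cos) J01_norm_cos_le_exp differentiable_cos
    (fun w n => cos_add_nat_mul_two_pi w n) (fun w => cos_conj w) hb
    (c := fun e m => (- ψ e (m + 1)) / Real.sin (2 * ((m:ℝ) + 1) * al)) (G := fun m => F (m + 1) / s (m + 1))
    (fun m => ((hc (m + 1)).neg).div_const _)
    (fun e m => coef_bound hs (by rw [abs_neg]; exact hψ e (m + 1)) m) hF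
  refine ⟨_, k1, ?_, fun e z _ => k2 e z, fun e z _ => k3 e z, ?_, k5⟩
  · intro e z _
    refine tsum_congr fun m => ?_
    rw [mul_neg, cos_neg]
  · intro e z hz
    rw [← (k4 e _ (strip_shift hz al)).tsum_sub (k4 e _ (strip_shift' hz al))]
    unfold sinS
    rw [← tsum_mul_left]
    refine tsum_congr fun m => ?_
    have hne := sin_ne hs m
    have e1 : 2 * ((m:ℂ) + 1) * (z + (al:ℂ)) = 2 * ((m:ℂ) + 1) * z + 2 * ((m:ℂ) + 1) * (al:ℂ) := by ring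
    have e2 : 2 * ((m:ℂ) + 1) * (z - (al:ℂ)) = 2 * ((m:ℂ) + 1) * z - 2 * ((m:ℂ) + 1) * (al:ℂ) := by ring
    rw [e1, e2, cos_add, cos_sub]
    push_cast
    field_simp
    ring

end FB
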