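import Pool.Agent.H48.FB.B02
import Pool.Agent.H48.FB.A10

/-! K01: oscillatory integrals with the weight `kk^3`. -/

open Complex Set MeasureTheory Filter Topology

noncomputable section

namespace FB

namespace K01

theorem kk_norm (al : ℝ) (s : ℂ) : ‖kk al s‖ = Real.sqrt ‖cos s - (Real.cos al : ℂ)‖ := by
  rw [kk, Real.sqrt_eq_rpow]
  have : ((1:ℂ)/2) = ((1/2 : ℝ) : ℂ) := by push_cast; ring
  rw [this, Complex.norm_cpow_real]

theorem kk_zero {al : ℝ} {s : ℂ} (h : s = al ∨ s = -(al:ℂ)) : kk al s = 0 := by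
  rw [← norm_eq_zero, kk_norm]
  have : cos s - (Real.cos al : ℂ) = 0 := by
    rcases h with rfl | rfl
    · rw [Complex.ofReal_cos, sub_self]
    · rw [Complex.ofReal_cos, Complex.cos_neg, sub_self]
  rw [this, norm_zero, Real.sqrt_zero]

/-- the hypothesis on the kernel -/
def KerOk (al B : ℝ) (Ker : ℂ → ℂ) : Prop :=
  ∀ s : ℂ, |s.re| ≤ al → -(1/2) ≤ s.im → s.im ≤ 0 → s ≠ (al:ℂ) → s ≠ -(al:ℂ) →
      DifferentiableAt ℂ Ker s ∧ ‖Ker s‖ ≤ B * ‖cos s - (Real.cos al : ℂ)‖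

/-- bound of the integrand -/
theorem f_bd {al B : ℝ} {Ker : ℂ → ℂ} (hK : KerOk al B Ker) (hB : 0 ≤ B) {s : ℂ} (h1 : |s.re| ≤ al)
    (h2 : -(1/2) ≤ s.im) (h3 : s.im ≤ 0) :
    ‖kk al s ^ 3 * Ker s‖ ≤ B * Real.sqrt ‖cos s - (Real.cos al : ℂ)‖ ^ 5 := by
  by_cases h : s = al ∨ s = -(al:ℂ)
  · rw [kk_zero h]
    simp only [ne_eq, OfNat.ofNat_ne_zero, not_false_eq_true, zero_pow, zero_mul, norm_zero]
    positivity
  · rw [not_or] at h
    obtain ⟨-, h4⟩ := hK s h1 h2 h3 h.1 h.2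
    rw [norm_mul, norm_pow, kk_norm]
    have h5 : Real.sqrt ‖cos s - (Real.cos al : ℂ)‖ ^ 2 = ‖cos s - (Real.cos al : ℂ)‖ := Real.sq_sqrt (norm_nonneg _)
    have h6 : B * Real.sqrt ‖cos s - (Real.cos al : ℂ)‖ ^ 5 =
        Real.sqrt ‖cos s - (Real.cos al : ℂ)‖ ^ 3 * (B * ‖cos s - (Real.cos al : ℂ)‖) := by
      rw [← h5]
      simp only [Real.sqrt_sq (Real.sqrt_nonneg _)]
      ring
    rw [h6]
    exact mul_le_mul_of_nonneg_left h4 (by positivity)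

theorem kk_diff {al : ℝ} (hal : al ∈ JJ) {s : ℂ} (h1 : |s.re| ≤ al) (h2 : -(1/2) ≤ s.im) (h3 : s.im ≤ 0)
    (h4 : s ≠ (al:ℂ)) (h5 : s ≠ -(al:ℂ)) : DifferentiableAt ℂ (kk al) s := by
  have h6 : |s.re| < al ∨ s.im < 0 := by
    by_contra hc
    rw [not_or, not_lt, not_lt] at hc
    have e1 : s.im = 0 := le_antisymm h3 hc.2
    have e2 : |s.re| = al := le_antisymm h1 hc.1
    rcases abs_choice s.re with h | h
    · exact h4 (Complex.ext (by simp; linarith) (by simp [e1]))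
    · exact h5 (Complex.ext (by simp; linarith) (by simp [e1]))
  have h7 := (cos_sub_re hal h1 h2 h3).2 h6
  have h8 : DifferentiableAt ℂ (fun s => cos s - (Real.cos al : ℂ)) s :=
    ((Complex.hasDerivAt_cos s).sub_const _).differentiableAt
  exact h8.cpow_const (Or.inl h7)

/-- continuity of the integrand on the closed rectangle -/
theorem f_cont {al B : ℝ} (hal : al ∈ JJ) {Ker : ℂ → ℂ} (hK : KerOk al B Ker) (hB : 0 ≤ B) {g : ℂ → ℂ} (hg : Continuous g) :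
    ContinuousOn (fun s => kk al s ^ 3 * Ker s * g s) {s : ℂ | |s.re| ≤ al ∧ -(1/2) ≤ s.im ∧ s.im ≤ 0} := by
  intro s hs
  obtain ⟨h1, h2, h3⟩ := hs
  by_cases h : s = al ∨ s = -(al:ℂ)
  · have h0 : kk al s ^ 3 * Ker s * g s = 0 := by rw [kk_zero h]; simp
    unfold ContinuousWithinAt
    beta_reduce
    rw [h0]
    refine squeeze_zero_norm' (a := fun s => B * Real.sqrt ‖cos s - (Real.cos al : ℂ)‖ ^ 5 * ‖g s‖) ?_ ?_
    · filter_upwards [self_mem_nhdsWithin] with v hv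
      rw [norm_mul]
      exact mul_le_mul_of_nonneg_right (f_bd hK hB hv.1 hv.2.1 hv.2.2) (norm_nonneg _)
    · have hc : Continuous (fun s : ℂ => B * Real.sqrt ‖cos s - (Real.cos al : ℂ)‖ ^ 5 * ‖g s‖) := by
        fun_prop
      have h4 := hc.tendsto s
      have h5 : B * Real.sqrt ‖cos s - (Real.cos al : ℂ)‖ ^ 5 * ‖g s‖ = 0 := by
        rw [← kk_norm, kk_zero h]; simp
      rw [h5] at h4
      exact h4.mono_left nhdsWithin_le_nhds
  · rw [not_or] at h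
    exact ((((kk_diff hal h1 h2 h3 h.1 h.2).continuousAt.pow 3).mul
      (hK s h1 h2 h3 h.1 h.2).1.continuousAt).mul hg.continuousAt).continuousWithinAt

theorem cosh_sub_one {y : ℝ} (h0 : 0 ≤ y) (h1 : y ≤ 1/2) : Real.exp y - 1 ≤ 2 * y := by
  have h2 : Real.exp y ≤ 1 / (1 - y) := by
    have := Real.one_sub_le_exp_neg y
    rw [Real.exp_neg] at this
    rw [le_div_iff₀ (by linarith)]
    have h3 := Real.exp_pos y
    calc Real.exp y * (1 - y) ≤ Real.exp y * (Real.exp y)⁻¹ := by gcongr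
      _ = 1 := by field_simp
  have h4 : 1 / (1 - y) ≤ 1 + 2 * y := by
    rw [div_le_iff₀ (by linarith)]
    nlinarith
  linarith

/-- on the vertical sides -/
theorem vert {al : ℝ} {s : ℂ} (hs : s.re = al ∨ s.re = -al) (h2 : -(1/2) ≤ s.im) (h3 : s.im ≤ 0) :
    ‖cos s - (Real.cos al : ℂ)‖ ≤ 2 * (-s.im) := by
  have e : cos s = ((Real.cos s.re * Real.cosh s.im : ℝ) : ℂ) - ((Real.sin s.re * Real.sinh s.im : ℝ) : ℂ) * I := by
    rw [Complex.cos_eq]; push_cast; rfl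
  have hc : Real.cos s.re = Real.cos al := by
    rcases hs with h | h <;> rw [h]
    exact Real.cos_neg al
  rw [e, hc]
  have e2 : ((Real.cos al * Real.cosh s.im : ℝ) : ℂ) - ((Real.sin s.re * Real.sinh s.im : ℝ) : ℂ) * I - (Real.cos al : ℂ) =
      ((Real.cos al * (Real.cosh s.im - 1) : ℝ) : ℂ) - ((Real.sin s.re * Real.sinh s.im : ℝ) : ℂ) * I := by
    push_cast; ring
  rw [e2]
  refine (norm_sub_le _ _).trans ?_
  rw [norm_mul, Complex.norm_I, mul_one, Complex.norm_real, Complex.norm_real, Real.norm_eq_abs, Real.norm_eq_abs,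
    abs_mul, abs_mul]
  have h4 : |Real.cos al| ≤ 1 := Real.abs_cos_le_one _
  have h5 : |Real.sin s.re| ≤ 1 := Real.abs_sin_le_one _
  have h6 : |Real.cosh s.im - 1| = Real.cosh (-s.im) - 1 := by
    rw [Real.cosh_neg, abs_of_nonneg]; linarith [Real.one_le_cosh s.im]
  have h7 : |Real.sinh s.im| = Real.sinh (-s.im) := by
    rw [← abs_neg, ← Real.sinh_neg, abs_of_nonneg (Real.sinh_nonneg_iff.2 (by linarith))]
  rw [h6, h7]
  have h8 : Real.cosh (-s.im) - 1 + Real.sinh (-s.im) = Real.exp (-s.im) - 1 := by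
    rw [← Real.cosh_add_sinh]; ring
  have h9 := cosh_sub_one (y := -s.im) (by linarith) (by linarith)
  have h10 : 0 ≤ Real.cosh (-s.im) - 1 := by linarith [Real.one_le_cosh (-s.im)]
  have h11 : 0 ≤ Real.sinh (-s.im) := Real.sinh_nonneg_iff.2 (by linarith)
  nlinarith [mul_le_mul_of_nonneg_right h4 h10, mul_le_mul_of_nonneg_right h5 h11]

/-- everywhere on the rectangle -/
theorem crude {al : ℝ} {s : ℂ} (h2 : -(1/2) ≤ s.im) (h3 : s.im ≤ 0) :
    ‖cos s - (Real.cos al : ℂ)‖ ≤ 4 := by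
  have e : cos s = ((Real.cos s.re * Real.cosh s.im : ℝ) : ℂ) - ((Real.sin s.re * Real.sinh s.im : ℝ) : ℂ) * I := by
    rw [Complex.cos_eq]; push_cast; rfl
  have h1 : ‖cos s‖ ≤ 2 := by
    rw [e]
    refine (norm_sub_le _ _).trans ?_
    rw [norm_mul, Complex.norm_I, mul_one, Complex.norm_real, Complex.norm_real, Real.norm_eq_abs, Real.norm_eq_abs,
      abs_mul, abs_mul]
    have h4 : |Real.cos s.re| ≤ 1 := Real.abs_cos_le_one _
    have h5 : |Real.sin s.re| ≤ 1 := Real.abs_sin_le_one _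
    have h6 : |Real.cosh s.im| = Real.cosh (-s.im) := by
      rw [Real.cosh_neg, abs_of_pos (Real.cosh_pos _)]
    have h7 : |Real.sinh s.im| = Real.sinh (-s.im) := by
      rw [← abs_neg, ← Real.sinh_neg, abs_of_nonneg (Real.sinh_nonneg_iff.2 (by linarith))]
    rw [h6, h7]
    have h8 : Real.cosh (-s.im) + Real.sinh (-s.im) = Real.exp (-s.im) := Real.cosh_add_sinh _
    have h9 := cosh_sub_one (y := -s.im) (by linarith) (by linarith)
    have h10 : 0 ≤ Real.cosh (-s.im) := (Real.cosh_pos _).le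
    have h11 : 0 ≤ Real.sinh (-s.im) := Real.sinh_nonneg_iff.2 (by linarith)
    nlinarith [mul_le_mul_of_nonneg_right h4 h10, mul_le_mul_of_nonneg_right h5 h11]
  refine (norm_sub_le _ _).trans ?_
  have h12 : ‖(Real.cos al : ℂ)‖ ≤ 1 := by
    rw [Complex.norm_real]; exact Real.abs_cos_le_one _
  linarith

theorem exp_norm (m : ℝ) (s : ℂ) : ‖exp (-(I * (m:ℂ) * s))‖ = Real.exp (m * s.im) := by
  rw [Complex.norm_exp]
  congr 1
  simp [mul_assoc]

/-- `(1 + x)^a ≤ c^(-a) e^(c a x)` -/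
theorem rpow_le_exp {x a c : ℝ} (hx : 0 ≤ x) (ha : 0 ≤ a) (hc : 0 < c) (hc1 : c ≤ 1) :
    (1 + x) ^ a ≤ c⁻¹ ^ a * Real.exp (c * a * x) := by
  have h1 : 1 + x ≤ c⁻¹ * Real.exp (c * x) := by
    have h2 := Real.add_one_le_exp (c * x)
    have h3 : 1 + x ≤ c⁻¹ * (c * x + 1) := by
      rw [mul_add, ← mul_assoc, inv_mul_cancel₀ hc.ne', one_mul, mul_one]
      have : 1 ≤ c⁻¹ := (one_le_inv₀ hc).2 hc1
      linarith
    exact h3.trans (mul_le_mul_of_nonneg_left h2 (by positivity))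
  calc (1 + x) ^ a ≤ (c⁻¹ * Real.exp (c * x)) ^ a := Real.rpow_le_rpow (by linarith) h1 ha
    _ = c⁻¹ ^ a * Real.exp (c * a * x) := by
      rw [Real.mul_rpow (by positivity) (Real.exp_pos _).le, ← Real.exp_mul]
      ring_nf

theorem G_int (r : ℝ) (hr : 0 < r) : IntegrableOn (fun u : ℝ => u ^ ((7/2 : ℝ) - 1) * Real.exp (-(r * u))) (Ioi 0) ∧
    ∫ u in Ioi (0:ℝ), u ^ ((7/2 : ℝ) - 1) * Real.exp (-(r * u)) = (1 / r) ^ (7/2 : ℝ) * Real.Gamma (7/2) := by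
  have h := Real.integral_rpow_mul_exp_neg_mul_Ioi (a := 7/2) (r := r) (by norm_num) hr
  refine ⟨?_, h⟩
  refine MeasureTheory.Integrable.of_integral_ne_zero ?_
  rw [h]
  have := Real.Gamma_pos_of_pos (show (0:ℝ) < 7/2 by norm_num)
  positivity

/-- bound of one vertical side -/
theorem side {al B : ℝ} {Ker : ℂ → ℂ} (hK : KerOk al B Ker) (hB : 0 ≤ B) (hal0 : 0 ≤ al) (m : ℕ) {σ : ℝ} (hσ : σ = al ∨ σ = -al) :
    ‖∫ y in (-(1/2):ℝ)..0, kk al (σ + y * I) ^ 3 * Ker (σ + y * I) * exp (-(I * (m:ℂ) * (σ + y * I)))‖ ≤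
      12 * B * ((1 + (m:ℝ)) ^ (-(7:ℝ)/2) * Real.Gamma (7/2)) := by
  obtain ⟨g1, g2⟩ := G_int (1 + m) (by positivity)
  have hi : IntervalIntegrable (fun u : ℝ => u ^ ((7/2 : ℝ) - 1) * Real.exp (-((1 + (m:ℝ)) * u))) volume 0 (1/2) := by
    rw [intervalIntegrable_iff_integrableOn_Ioo_of_le (by norm_num)]
    exact g1.mono_set (fun u hu => hu.1)
  have hi' : IntervalIntegrable (fun y : ℝ => 12 * B * ((-y) ^ ((7/2 : ℝ) - 1) * Real.exp (-((1 + (m:ℝ)) * (-y))))) volume (-(1/2)) 0 := by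
    have h0 := ((IntervalIntegrable.iff_comp_neg (by finiteness)).1 hi).symm
    rw [neg_zero] at h0
    exact h0.const_mul (12 * B)
  have h1 := intervalIntegral.norm_integral_le_of_norm_le (μ := volume) (a := -(1/2)) (b := 0)
    (f := fun y : ℝ => kk al (σ + y * I) ^ 3 * Ker (σ + y * I) * exp (-(I * (m:ℂ) * (σ + y * I))))
    (g := fun y : ℝ => 12 * B * ((-y) ^ ((7/2 : ℝ) - 1) * Real.exp (-((1 + (m:ℝ)) * (-y))))) (by norm_num)
    (ae_of_all _ (by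
      intro y hy
      have e1 : ((σ:ℂ) + y * I).re = σ := by simp
      have e2 : ((σ:ℂ) + y * I).im = y := by simp
      have h2 : |((σ:ℂ) + y * I).re| ≤ al := by
        rw [e1]
        rcases hσ with h | h <;> rw [h]
        · rw [abs_of_nonneg hal0]
        · rw [abs_neg, abs_of_nonneg hal0]
      have h3 := f_bd hK hB h2 (by rw [e2]; exact hy.1.le) (by rw [e2]; exact hy.2)
      have h4 := vert (al := al) (s := (σ:ℂ) + y * I) (by rw [e1]; exact hσ) (by rw [e2]; exact hy.1.le) (by rw [e2]; exact hy.2)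
      rw [e2] at h4
      have hy0 : 0 ≤ -y := by linarith [hy.2]
      rw [norm_mul]
      have h5 := exp_norm m ((σ:ℂ) + y * I)
      rw [e2] at h5
      have h5' : ‖exp (-(I * (m:ℂ) * ((σ:ℂ) + y * I)))‖ = Real.exp (m * y) := by simpa using h5
      rw [h5']
      have h6 : Real.sqrt ‖cos ((σ:ℂ) + y * I) - (Real.cos al : ℂ)‖ ^ 5 ≤ Real.sqrt (2 * (-y)) ^ 5 := by
        gcongr
      have h7 : Real.sqrt (2 * (-y)) ^ 5 = 2 ^ (5/2 : ℝ) * (-y) ^ ((7/2 : ℝ) - 1) := by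
        rw [Real.sqrt_eq_rpow, ← Real.rpow_natCast, ← Real.rpow_mul (by positivity), Real.mul_rpow (by norm_num) hy0]
        norm_num
      have h8 : (2:ℝ) ^ (5/2 : ℝ) ≤ 6 := by
        have : (2:ℝ) ^ (5/2 : ℝ) = Real.sqrt 32 := by
          rw [Real.sqrt_eq_rpow, show (32:ℝ) = 2 ^ (5:ℝ) by norm_num, ← Real.rpow_mul (by norm_num)]
          norm_num
        rw [this]
        rw [Real.sqrt_le_left (by norm_num)]
        norm_num
      have h9 : Real.exp (m * y) ≤ 2 * Real.exp (-((1 + (m:ℝ)) * (-y))) := by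
        have : Real.exp (m * y) = Real.exp (-y) * Real.exp (-((1 + (m:ℝ)) * (-y))) := by
          rw [← Real.exp_add]; ring_nf
        rw [this]
        have h10 := cosh_sub_one (y := -y) hy0 (by linarith [hy.1])
        have h11 : Real.exp (-y) ≤ 2 := by linarith [hy.1]
        exact mul_le_mul_of_nonneg_right h11 (Real.exp_pos _).le
      have h12 : 0 ≤ (-y) ^ ((7/2 : ℝ) - 1) := Real.rpow_nonneg hy0 _
      calc ‖kk al (↑σ + ↑y * I) ^ 3 * Ker (↑σ + ↑y * I)‖ * Real.exp (m * y)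
          ≤ (B * (6 * (-y) ^ ((7/2 : ℝ) - 1))) * (2 * Real.exp (-((1 + (m:ℝ)) * (-y)))) := by
            refine mul_le_mul (h3.trans ?_) h9 (Real.exp_pos _).le (by positivity)
            refine mul_le_mul_of_nonneg_left ?_ hB
            rw [h7] at h6
            exact h6.trans (mul_le_mul_of_nonneg_right h8 h12)
        _ = 12 * B * ((-y) ^ ((7/2 : ℝ) - 1) * Real.exp (-((1 + (m:ℝ)) * (-y)))) := by ring))
    hi'
  refine h1.trans ?_
  rw [intervalIntegral.integral_const_mul]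
  refine mul_le_mul_of_nonneg_left ?_ (by positivity)
  have h13 := intervalIntegral.integral_comp_neg (a := -(1/2)) (b := 0)
    (fun u : ℝ => u ^ ((7/2 : ℝ) - 1) * Real.exp (-((1 + (m:ℝ)) * u)))
  rw [h13]
  simp only [neg_zero, neg_neg]
  rw [intervalIntegral.integral_of_le (by norm_num)]
  have h14 : (1 / (1 + (m:ℝ))) ^ (7/2 : ℝ) = (1 + (m:ℝ)) ^ (-(7:ℝ)/2) := by
    rw [one_div, Real.inv_rpow (by positivity), ← Real.rpow_neg (by positivity)]
    norm_num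
  rw [← h14, ← g2]
  refine setIntegral_mono_set g1 ?_ ?_
  · refine (ae_restrict_iff' measurableSet_Ioi).2 (ae_of_all _ fun u hu => ?_)
    have : (0:ℝ) < u := hu
    simp only [Pi.zero_apply]
    positivity
  · exact Filter.Eventually.of_forall fun u (hu : u ∈ Ioc (0:ℝ) (1/2)) => hu.1

end K01

open K01

/-- Contour shift: on the closed rectangle `[-al, al] × [-1/2, 0]` the function `kk^3 𝒦 e^{-ims}` is continuous (at `± al` it tends to `0`, its value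
there is `0` because `kk al (± al) = 0`; elsewhere `Re (cos s - cos al) > 0` or the point is on the real segment, `cos_sub_re`) and holomorphic inside:
`Complex.integral_boundary_rect_eq_zero_of_continuousOn_of_differentiableOn`. Bottom side: `≤ C B e^{-m/2}`; vertical sides:
`‖cos s - cos al‖ ≤ C y` at `s = ± al - i y`, so `≤ C B ∫_0^{1/2} y^{5/2} e^{-m y} dy ≤ C' B (1+m)^{-7/2}`. -/
theorem kernel_exp : ∃ C : ℝ, 0 < C ∧ ∀ al ∈ JJ, ∀ B : ℝ, 0 ≤ B → ∀ Ker : ℂ → ℂ,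
    (∀ s : ℂ, |s.re| ≤ al → -(1/2) ≤ s.im → s.im ≤ 0 → s ≠ (al:ℂ) → s ≠ -(al:ℂ) →
      DifferentiableAt ℂ Ker s ∧ ‖Ker s‖ ≤ B * ‖cos s - (Real.cos al : ℂ)‖) → ∀ m : ℕ,
      ‖∫ s in (-al)..al, kk al (s:ℂ) ^ 3 * Ker (s:ℂ) * exp (-(I * (m:ℂ) * (s:ℂ)))‖ ≤ C * B * (1 + (m:ℝ)) ^ (-(7:ℝ)/2) := by
  refine ⟨96 * 7 ^ (7/2 : ℝ) + 24 * Real.Gamma (7/2), ?_, ?_⟩
  · have := Real.Gamma_pos_of_pos (show (0:ℝ) < 7/2 by norm_num)
    positivity
  intro al hal B hB Ker hK m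
  obtain ⟨a1, a2, a3, a4, a5, a6, a7⟩ := JJ_bounds hal
  have hal0 : 0 < al := by linarith
  have hle : -al ≤ al := by linarith
  set f : ℂ → ℂ := fun s => kk al s ^ 3 * Ker s * exp (-(I * (m:ℂ) * s)) with hf
  have hc := f_cont hal hK hB (g := fun s => exp (-(I * (m:ℂ) * s))) (by fun_prop)
  have hrect := Complex.integral_boundary_rect_eq_zero_of_continuousOn_of_differentiableOn f
    (((-al : ℝ):ℂ) + ((-(1/2) : ℝ) : ℂ) * I) (((al : ℝ):ℂ) + ((0:ℝ):ℂ) * I)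
    (by
      refine hc.mono ?_
      intro s hs
      rw [mem_reProdIm] at hs
      obtain ⟨h1, h2⟩ := hs
      simp only [Complex.add_re, Complex.ofReal_re, Complex.mul_re, Complex.I_re, Complex.I_im, Complex.ofReal_im,
        Complex.add_im, Complex.mul_im] at h1 h2
      norm_num at h1 h2
      rw [uIcc_of_le hle] at h1
      exact ⟨abs_le.2 h1, by linarith [h2.1], h2.2⟩)
    (by
      intro s hs
      rw [mem_reProdIm] at hs
      obtain ⟨h1, h2⟩ := hs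
      simp only [Complex.add_re, Complex.ofReal_re, Complex.mul_re, Complex.I_re, Complex.I_im, Complex.ofReal_im,
        Complex.add_im, Complex.mul_im] at h1 h2
      norm_num at h1 h2
      obtain ⟨⟨p1, p2⟩, q1, q2⟩ := And.intro h1 h2
      have p3 : |s.re| < al := by
        rw [abs_lt]
        constructor
        · rcases p1 with p1 | p1 <;> linarith
        · rcases p2 with p2 | p2 <;> linarith
      have n1 : s ≠ (al:ℂ) := by
        intro h
        rw [h, Complex.ofReal_re, abs_of_pos hal0] at p3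
        exact lt_irrefl _ p3
      have n2 : s ≠ -(al:ℂ) := by
        intro h
        rw [h, Complex.neg_re, Complex.ofReal_re, abs_neg, abs_of_pos hal0] at p3
        exact lt_irrefl _ p3
      have q1' : -(1/2) ≤ s.im := by
        have := q1
        linarith
      refine DifferentiableAt.differentiableWithinAt ?_
      exact (((kk_diff hal p3.le q1' q2.le n1 n2).pow 3).mul (hK s p3.le q1' q2.le n1 n2).1).mul (by fun_prop))
  simp only [Complex.add_re, Complex.ofReal_re, Complex.mul_re, Complex.I_re, Complex.I_im, Complex.ofReal_im,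
        Complex.add_im, Complex.mul_im] at hrect
  norm_num at hrect
  have S1 := side hK hB hal0.le m (σ := al) (Or.inl rfl)
  have S2 := side hK hB hal0.le m (σ := -al) (Or.inr rfl)
  rw [Complex.ofReal_neg] at S2
  have A : ‖∫ x in (-al)..al, f ((x:ℂ) + -(1 / 2 * I))‖ ≤ 96 * B * (7 ^ (7/2 : ℝ) * (1 + (m:ℝ)) ^ (-(7:ℝ)/2)) := by
    have h1 := intervalIntegral.norm_integral_le_of_norm_le_const (a := -al) (b := al)
      (f := fun x : ℝ => f ((x:ℂ) + -(1 / 2 * I))) (C := 32 * B * Real.exp (-(m / 2))) (by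
        intro x hx
        rw [uIoc_of_le hle] at hx
        have e1 : ((x:ℂ) + -(1 / 2 * I)).re = x := by simp
        have e2 : ((x:ℂ) + -(1 / 2 * I)).im = -(1/2) := by simp
        have h2 : |((x:ℂ) + -(1 / 2 * I)).re| ≤ al := by
          rw [e1, abs_le]; exact ⟨hx.1.le, hx.2⟩
        have h3 := f_bd hK hB h2 (by rw [e2]) (by rw [e2]; norm_num)
        have h4 := crude (al := al) (s := (x:ℂ) + -(1 / 2 * I)) (by rw [e2]) (by rw [e2]; norm_num)
        have h5 := exp_norm m ((x:ℂ) + -(1 / 2 * I))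
        rw [e2] at h5
        have h5' : ‖exp (-(I * (m:ℂ) * ((x:ℂ) + -(1 / 2 * I))))‖ = Real.exp (-(m / 2)) := by
          have : (m:ℝ) * -(1/2) = -(m/2) := by ring
          rw [this] at h5
          simpa using h5
        simp only [hf]
        rw [norm_mul, h5']
        have h6 : Real.sqrt ‖cos ((x:ℂ) + -(1 / 2 * I)) - (Real.cos al : ℂ)‖ ^ 5 ≤ 32 := by
          have : Real.sqrt ‖cos ((x:ℂ) + -(1 / 2 * I)) - (Real.cos al : ℂ)‖ ≤ 2 := by
            rw [Real.sqrt_le_left (by norm_num)]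
            linarith
          calc Real.sqrt ‖cos ((x:ℂ) + -(1 / 2 * I)) - (Real.cos al : ℂ)‖ ^ 5 ≤ 2 ^ 5 := by gcongr
            _ = 32 := by norm_num
        refine mul_le_mul_of_nonneg_right (h3.trans ?_) (Real.exp_pos _).le
        nlinarith)
    refine h1.trans ?_
    have h7 : |al - -al| ≤ 3 := by
      rw [abs_of_nonneg (by linarith)]; linarith
    have h8 : Real.exp (-(m / 2)) ≤ 7 ^ (7/2 : ℝ) * (1 + (m:ℝ)) ^ (-(7:ℝ)/2) := by
      have h9 := rpow_le_exp (x := m) (a := 7/2) (c := 1/7) (by positivity) (by norm_num) (by norm_num) (by norm_num)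
      have h10 : (1/7 : ℝ)⁻¹ = 7 := by norm_num
      rw [h10] at h9
      have h11 : (1/7 : ℝ) * (7/2) * m = m / 2 := by ring
      rw [h11] at h9
      have h12 : (1 + (m:ℝ)) ^ (-(7:ℝ)/2) = ((1 + (m:ℝ)) ^ (7/2 : ℝ))⁻¹ := by
        rw [← Real.rpow_neg (by positivity)]; norm_num
      rw [h12, Real.exp_neg, ← div_eq_mul_inv, le_div_iff₀ (by positivity), inv_mul_le_iff₀ (Real.exp_pos _)]
      linarith
    have h13 : 0 ≤ 7 ^ (7/2 : ℝ) * (1 + (m:ℝ)) ^ (-(7:ℝ)/2) := by positivity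
    calc 32 * B * Real.exp (-(m / 2)) * |al - -al| ≤ 32 * B * (7 ^ (7/2 : ℝ) * (1 + (m:ℝ)) ^ (-(7:ℝ)/2)) * 3 := by
          gcongr
      _ = _ := by ring
  have hmain : (∫ s in (-al)..al, kk al (s:ℂ) ^ 3 * Ker (s:ℂ) * exp (-(I * (m:ℂ) * (s:ℂ)))) =
      (∫ x in (-al)..al, f ((x:ℂ) + -(1 / 2 * I))) + I * (∫ y in (-(1/2):ℝ)..0, f ((al:ℂ) + y * I)) -
        I * (∫ y in (-(1/2):ℝ)..0, f (-(al:ℂ) + y * I)) := by
    have : (∫ s in (-al)..al, kk al (s:ℂ) ^ 3 * Ker (s:ℂ) * exp (-(I * (m:ℂ) * (s:ℂ)))) = ∫ x in (-al)..al, f (x:ℂ) := rfl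
    rw [this]
    linear_combination (-1 : ℂ) * hrect
  rw [hmain]
  refine (norm_sub_le _ _).trans ?_
  refine (add_le_add (norm_add_le _ _) le_rfl).trans ?_
  rw [norm_mul, norm_mul, Complex.norm_I, one_mul, one_mul]
  calc _ ≤ 96 * B * (7 ^ (7/2 : ℝ) * (1 + (m:ℝ)) ^ (-(7:ℝ)/2)) +
        12 * B * ((1 + (m:ℝ)) ^ (-(7:ℝ)/2) * Real.Gamma (7/2)) +
        12 * B * ((1 + (m:ℝ)) ^ (-(7:ℝ)/2) * Real.Gamma (7/2)) := add_le_add (add_le_add A S1) S2
    _ = _ := by ring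

namespace K01

theorem rp_le {p q r : ℝ} (hp : 0 < p) (hq : 0 < q) (hr : 0 < r) (h : p ≤ q * r) :
    q ^ (-(7:ℝ)/2) ≤ p ^ (-(7:ℝ)/2) * r ^ (7/2 : ℝ) := by
  have e : ∀ x : ℝ, 0 < x → x ^ (-(7:ℝ)/2) = (x ^ (7/2 : ℝ))⁻¹ := by
    intro x hx
    rw [← Real.rpow_neg hx.le]; norm_num
  have h1 : p ^ (7/2 : ℝ) ≤ q ^ (7/2 : ℝ) * r ^ (7/2 : ℝ) := by
    rw [← Real.mul_rpow hq.le hr.le]
    exact Real.rpow_le_rpow hp.le h (by norm_num)
  rw [e p hp, e q hq]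
  have hp' : 0 < p ^ (7/2 : ℝ) := by positivity
  have hq' : 0 < q ^ (7/2 : ℝ) := by positivity
  rw [inv_mul_eq_div, le_div_iff₀ hp', inv_mul_le_iff₀ hq']
  exact h1

/-- numerical bound of the terms with nonnegative frequency -/
theorem termA {m j : ℕ} (hj : j ≤ m) {y C B : ℝ} (hy : 2 ≤ y) (hC : 0 ≤ C) (hB : 0 ≤ B) :
    cc j * cc (2 * m - j) * (Real.exp (((2 * (m - j) : ℕ) : ℝ) * y) * (C * B * (1 + ((2 * (m - j) : ℕ) : ℝ)) ^ (-(7:ℝ)/2))) ≤
      2 * (7/2 : ℝ) ^ (7/2 : ℝ) * C * B * (WW m y * (1 + 2 * (m:ℝ)) ^ (-(7:ℝ)/2)) * (1/2) ^ j := by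
  have h1 := cc_le_one j
  have h2 := cc_pos j
  have h3 := cc_ratio (N := 2 * m) (j := j) (by omega)
  have h4 := cc_pos (2 * m - j)
  have h5 := cc_pos (2 * m)
  have hs : Real.sqrt 2 ≤ 2 := by
    rw [Real.sqrt_le_left (by norm_num)]; norm_num
  have hcast : ((2 * (m - j) : ℕ) : ℝ) = 2 * m - 2 * j := by
    rw [Nat.cast_mul, Nat.cast_sub hj]; push_cast; ring
  have h6 : cc j * cc (2 * m - j) ≤ 2 * cc (2 * m) := by
    have h61 : cc (2 * m - j) ≤ 2 * cc (2 * m) := h3.trans (mul_le_mul_of_nonneg_right hs h5.le)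
    calc cc j * cc (2 * m - j) ≤ 1 * cc (2 * m - j) := by gcongr
      _ ≤ 2 * cc (2 * m) := by linarith
  have h7 : (1 + ((2 * (m - j) : ℕ) : ℝ)) ^ (-(7:ℝ)/2) ≤ (1 + 2 * (m:ℝ)) ^ (-(7:ℝ)/2) * (1 + 2 * (j:ℝ)) ^ (7/2 : ℝ) := by
    refine rp_le (by positivity) (by positivity) (by positivity) ?_
    have : (0:ℝ) ≤ ((2 * (m - j) : ℕ) : ℝ) * (2 * j) := by positivity
    rw [hcast] at this ⊢
    nlinarith
  have h8 : Real.exp (((2 * (m - j) : ℕ) : ℝ) * y) = Real.exp (2 * m * y) * Real.exp (-(2 * j * y)) := by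
    rw [← Real.exp_add, hcast]; ring_nf
  have h9 : (1 + 2 * (j:ℝ)) ^ (7/2 : ℝ) ≤ (7/2 : ℝ) ^ (7/2 : ℝ) * Real.exp (2 * j) := by
    have := rpow_le_exp (x := 2 * (j:ℝ)) (a := 7/2) (c := 2/7) (by positivity) (by norm_num) (by norm_num) (by norm_num)
    have e1 : (2/7 : ℝ)⁻¹ = 7/2 := by norm_num
    have e2 : (2/7 : ℝ) * (7/2) * (2 * j) = 2 * j := by ring
    rwa [e1, e2] at this
  have h10 : Real.exp (-(2 * j * y)) ≤ Real.exp (-(4 * j)) := by
    apply Real.exp_le_exp.2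
    have : (0:ℝ) ≤ j := by positivity
    nlinarith
  have h11 : Real.exp (-(4 * (j:ℝ))) * Real.exp (2 * j) ≤ (1/2) ^ j := by
    rw [← Real.exp_add]
    have e3 : -(4 * (j:ℝ)) + 2 * j = j * (-2) := by ring
    rw [e3, Real.exp_nat_mul]
    have e4 : Real.exp (-2) ≤ 1/2 := by
      have h := Real.add_one_le_exp (2:ℝ)
      rw [Real.exp_neg, inv_le_comm₀ (Real.exp_pos _) (by norm_num)]
      norm_num at h ⊢
      linarith
    exact pow_le_pow_left₀ (Real.exp_pos _).le e4 _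
  have h12 : Real.exp (-(2 * j * y)) * (1 + 2 * (j:ℝ)) ^ (7/2 : ℝ) ≤ (7/2 : ℝ) ^ (7/2 : ℝ) * (1/2) ^ j := by
    calc Real.exp (-(2 * j * y)) * (1 + 2 * (j:ℝ)) ^ (7/2 : ℝ)
        ≤ Real.exp (-(4 * j)) * ((7/2 : ℝ) ^ (7/2 : ℝ) * Real.exp (2 * j)) := by gcongr
      _ = (7/2 : ℝ) ^ (7/2 : ℝ) * (Real.exp (-(4 * j)) * Real.exp (2 * j)) := by ring
      _ ≤ _ := by gcongr
  have h13 : 0 < (1 + 2 * (m:ℝ)) ^ (-(7:ℝ)/2) := by positivity
  have h14 : 0 < Real.exp (2 * m * y) := Real.exp_pos _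
  rw [h8]
  calc cc j * cc (2 * m - j) * (Real.exp (2 * m * y) * Real.exp (-(2 * j * y)) *
        (C * B * (1 + ((2 * (m - j) : ℕ) : ℝ)) ^ (-(7:ℝ)/2)))
      ≤ (2 * cc (2 * m)) * (Real.exp (2 * m * y) * Real.exp (-(2 * j * y)) *
        (C * B * ((1 + 2 * (m:ℝ)) ^ (-(7:ℝ)/2) * (1 + 2 * (j:ℝ)) ^ (7/2 : ℝ)))) := by gcongr
    _ = 2 * cc (2 * m) * Real.exp (2 * m * y) * C * B * (1 + 2 * (m:ℝ)) ^ (-(7:ℝ)/2) *
        (Real.exp (-(2 * j * y)) * (1 + 2 * (j:ℝ)) ^ (7/2 : ℝ)) := by ring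
    _ ≤ 2 * cc (2 * m) * Real.exp (2 * m * y) * C * B * (1 + 2 * (m:ℝ)) ^ (-(7:ℝ)/2) *
        ((7/2 : ℝ) ^ (7/2 : ℝ) * (1/2) ^ j) := by gcongr
    _ = _ := by rw [WW]; ring

theorem countB (m : ℕ) {y : ℝ} (hy : 2 ≤ y) : 2 * (m:ℝ) + 1 ≤ 200 * (WW m y * (1 + 2 * (m:ℝ)) ^ (-(7:ℝ)/2)) := by
  have h1 := cc_lower (2 * m)
  have h2 := rpow_le_exp (x := 2 * (m:ℝ)) (a := 5) (c := 2/5) (by positivity) (by norm_num) (by norm_num) (by norm_num)
  have e1 : (2/5 : ℝ)⁻¹ ^ (5:ℝ) ≤ 100 := by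
    rw [show (5:ℝ) = ((5:ℕ):ℝ) by norm_num, Real.rpow_natCast]; norm_num
  have e2 : (2/5 : ℝ) * 5 * (2 * m) = 4 * m := by ring
  rw [e2] at h2
  have h3 : Real.exp (4 * m) ≤ Real.exp (2 * m * y) := by
    apply Real.exp_le_exp.2
    have : (0:ℝ) ≤ m := by positivity
    nlinarith
  set X : ℝ := 1 + 2 * (m:ℝ) with hX
  have hX0 : 0 < X := by positivity
  have h4 : X ^ (5:ℝ) ≤ 100 * Real.exp (2 * m * y) := h2.trans (mul_le_mul e1 h3 (Real.exp_pos _).le (by norm_num))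
  have h5 : 1 / (2 * X ^ (1/2 : ℝ)) ≤ cc (2 * m) := by
    rw [← Real.sqrt_eq_rpow]
    refine le_of_eq_of_le ?_ h1
    congr 3
    rw [hX]; push_cast; ring
  have h6 : X ^ (5:ℝ) = X * X ^ (1/2 : ℝ) * X ^ (7/2 : ℝ) := by
    rw [← Real.rpow_one_add' hX0.le (by norm_num), ← Real.rpow_add hX0]; norm_num
  have h7 : X ^ (-(7:ℝ)/2) = (X ^ (7/2 : ℝ))⁻¹ := by
    rw [← Real.rpow_neg hX0.le]; norm_num
  have h8 : 0 < X ^ (1/2 : ℝ) := by positivity
  have h9 : 0 < X ^ (7/2 : ℝ) := by positivity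
  rw [WW, h7]
  have h10 : 2 * (m:ℝ) + 1 = X := by rw [hX]; ring
  rw [h10]
  have h11 : X ≤ 100 * Real.exp (2 * m * y) / (X ^ (1/2 : ℝ) * X ^ (7/2 : ℝ)) := by
    rw [le_div_iff₀ (by positivity)]
    calc X * (X ^ (1/2 : ℝ) * X ^ (7/2 : ℝ)) = X ^ (5:ℝ) := by rw [h6]; ring
      _ ≤ _ := h4
  refine h11.trans ?_
  calc 100 * Real.exp (2 * m * y) / (X ^ (1/2 : ℝ) * X ^ (7/2 : ℝ)) =
        200 * (1 / (2 * X ^ (1/2 : ℝ)) * Real.exp (2 * m * y) * (X ^ (7/2 : ℝ))⁻¹) := by field_simp; norm_num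
    _ ≤ _ := by gcongr

end K01

/-- Legendre functions: `PL m (t+s) = ∑_j cc_j cc_{2m-j} e^{-i(2m-2j)(t+s)}` (`PL_exp`), frequencies `k = 2m - 2j ≥ 0` by `kernel_exp`
(factor `e^{k Im t}`), negative ones trivially (`‖e^{i|k|(t+s)}‖ = e^{-|k| Im t} ≤ 1`, and `∑ cc cc ≤ C m` while
`cc (2m) e^{4m} (1+2m)^{-7/2} ≥ c`..). Sum: `∑_{j ≤ m} cc_j cc_{2m-j} e^{(2m-2j) Im t} (1+2m-2j)^{-7/2} ≤ C cc_{2m} e^{2m Im t} (1+2m)^{-7/2}` by
`cc_ratio` and `((1+2m)/(1+2m-2j))^{7/2} ≤ (1+2j)^{7/2}`, `∑_j (1+2j)^{7/2} e^{-4j} < ∞`. -/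
theorem kernel_PL : ∃ C : ℝ, 0 < C ∧ ∀ al ∈ JJ, ∀ B : ℝ, 0 ≤ B → ∀ Ker : ℂ → ℂ,
    (∀ s : ℂ, |s.re| ≤ al → -(1/2) ≤ s.im → s.im ≤ 0 → s ≠ (al:ℂ) → s ≠ -(al:ℂ) →
      DifferentiableAt ℂ Ker s ∧ ‖Ker s‖ ≤ B * ‖cos s - (Real.cos al : ℂ)‖) → ∀ m : ℕ, ∀ t : ℂ, 2 ≤ t.im →
      ‖∫ s in (-al)..al, kk al (s:ℂ) ^ 3 * Ker (s:ℂ) * PL m (t + (s:ℂ))‖ ≤ C * B * (WW m t.im * (1 + 2 * (m:ℝ)) ^ (-(7:ℝ)/2)) := by
  obtain ⟨C1, hC1, hexp⟩ := kernel_exp
  refine ⟨4 * (7/2 : ℝ) ^ (7/2 : ℝ) * C1 + 19200, by positivity, ?_⟩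
  intro al hal B hB Ker hK m t ht
  obtain ⟨a1, a2, a3, a4, a5, a6, a7⟩ := JJ_bounds hal
  have hal0 : 0 < al := by linarith
  have hle : -al ≤ al := by linarith
  set W : ℝ := WW m t.im * (1 + 2 * (m:ℝ)) ^ (-(7:ℝ)/2) with hW
  have hW0 : 0 ≤ W := by
    have := cc_pos (2 * m)
    rw [hW, WW]; positivity
  -- the terms
  set k : ℕ → ℤ := fun j => (2 * m : ℤ) - 2 * (j : ℤ) with hk
  set J : ℕ → ℂ := fun j => ∫ s in (-al)..al, kk al (s:ℂ) ^ 3 * Ker (s:ℂ) * exp (-(I * (k j : ℂ) * (s:ℂ))) with hJ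
  have hint : ∀ j, IntervalIntegrable (fun s : ℝ => kk al (s:ℂ) ^ 3 * Ker (s:ℂ) * exp (-(I * (k j : ℂ) * (s:ℂ)))) volume (-al) al := by
    intro j
    have h1 := f_cont hal hK hB (g := fun s => exp (-(I * (k j : ℂ) * s))) (by fun_prop)
    refine ContinuousOn.intervalIntegrable_of_Icc hle ?_
    refine h1.comp Complex.continuous_ofReal.continuousOn ?_
    intro s hs
    refine ⟨?_, ?_, ?_⟩
    · rw [Complex.ofReal_re, abs_le]; exact hs
    · rw [Complex.ofReal_im]; norm_num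
    · rw [Complex.ofReal_im]
  have hsum : (∫ s in (-al)..al, kk al (s:ℂ) ^ 3 * Ker (s:ℂ) * PL m (t + (s:ℂ))) =
      ∑ j ∈ Finset.range (2 * m + 1), ((cc j * cc (2 * m - j) : ℝ) : ℂ) * exp (-(I * (k j : ℂ) * t)) * J j := by
    have h1 : ∀ s : ℝ, kk al (s:ℂ) ^ 3 * Ker (s:ℂ) * PL m (t + (s:ℂ)) =
        ∑ j ∈ Finset.range (2 * m + 1), ((cc j * cc (2 * m - j) : ℝ) : ℂ) * exp (-(I * (k j : ℂ) * t)) *
          (kk al (s:ℂ) ^ 3 * Ker (s:ℂ) * exp (-(I * (k j : ℂ) * (s:ℂ)))) := by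
      intro s
      rw [PL_exp, Finset.mul_sum]
      refine Finset.sum_congr rfl fun j _ => ?_
      have h2 : exp (-(I * ((((2 * m : ℤ) - 2 * (j : ℤ) : ℤ)) : ℂ) * (t + (s:ℂ)))) =
          exp (-(I * (k j : ℂ) * t)) * exp (-(I * (k j : ℂ) * (s:ℂ))) := by
        rw [← Complex.exp_add]
        simp only [hk]
        ring_nf
      rw [h2]
      ring
    simp only [h1]
    rw [intervalIntegral.integral_finsetSum]
    · refine Finset.sum_congr rfl fun j _ => ?_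
      rw [intervalIntegral.integral_const_mul]
    · intro j _
      exact (hint j).const_mul _
  rw [hsum]
  have hterm : ∀ j ∈ Finset.range (2 * m + 1),
      ‖((cc j * cc (2 * m - j) : ℝ) : ℂ) * exp (-(I * (k j : ℂ) * t)) * J j‖ ≤
        2 * (7/2 : ℝ) ^ (7/2 : ℝ) * C1 * B * W * (1/2) ^ j + 96 * B := by
    intro j hj
    rw [Finset.mem_range] at hj
    have c0 := cc_pos j
    have c1 := cc_pos (2 * m - j)
    rw [norm_mul, norm_mul, Complex.norm_real, Real.norm_eq_abs, abs_of_nonneg (by positivity)]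
    by_cases hjm : j ≤ m
    · have e1 : (k j : ℂ) = (((2 * (m - j) : ℕ) : ℝ) : ℂ) := by
        have : k j = ((2 * (m - j) : ℕ) : ℤ) := by simp only [hk]; omega
        rw [this]; push_cast; rfl
      have h1 : ‖exp (-(I * (k j : ℂ) * t))‖ = Real.exp (((2 * (m - j) : ℕ) : ℝ) * t.im) := by
        rw [e1]; exact exp_norm _ t
      have h2 : ‖J j‖ ≤ C1 * B * (1 + ((2 * (m - j) : ℕ) : ℝ)) ^ (-(7:ℝ)/2) := by
        have := hexp al hal B hB Ker hK (2 * (m - j))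
        simp only [hJ, e1]
        simpa using this
      rw [h1]
      have h3 := termA hjm ht hC1.le hB
      calc _ ≤ cc j * cc (2 * m - j) * Real.exp (((2 * (m - j) : ℕ) : ℝ) * t.im) *
            (C1 * B * (1 + ((2 * (m - j) : ℕ) : ℝ)) ^ (-(7:ℝ)/2)) := by gcongr
        _ ≤ 2 * (7/2 : ℝ) ^ (7/2 : ℝ) * C1 * B * W * (1/2) ^ j := by
          rw [mul_assoc (cc j * cc (2 * m - j))]; exact h3
        _ ≤ _ := by
          have : 0 ≤ 96 * B := by positivity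
          linarith
    · push Not at hjm
      have h1 : ‖exp (-(I * (k j : ℂ) * t))‖ ≤ 1 := by
        have e1 : (k j : ℂ) = (((k j : ℤ) : ℝ) : ℂ) := by push_cast; rfl
        rw [e1, exp_norm]
        rw [Real.exp_le_one_iff]
        have : ((k j : ℤ) : ℝ) ≤ 0 := by
          have : k j ≤ 0 := by simp only [hk]; omega
          exact_mod_cast this
        nlinarith
      have h2 : ‖J j‖ ≤ 96 * B := by
        have h3 := intervalIntegral.norm_integral_le_of_norm_le_const (a := -al) (b := al)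
          (f := fun s : ℝ => kk al (s:ℂ) ^ 3 * Ker (s:ℂ) * exp (-(I * (k j : ℂ) * (s:ℂ)))) (C := 32 * B) (by
            intro x hx
            rw [uIoc_of_le hle] at hx
            have h4 := f_bd hK hB (s := (x:ℂ)) (by rw [Complex.ofReal_re, abs_le]; exact ⟨hx.1.le, hx.2⟩)
              (by rw [Complex.ofReal_im]; norm_num) (by rw [Complex.ofReal_im])
            have h5 := crude (al := al) (s := (x:ℂ)) (by rw [Complex.ofReal_im]; norm_num) (by rw [Complex.ofReal_im])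
            have e1 : (k j : ℂ) = (((k j : ℤ) : ℝ) : ℂ) := by push_cast; rfl
            rw [norm_mul, e1, exp_norm, Complex.ofReal_im, mul_zero, Real.exp_zero, mul_one]
            have h6 : Real.sqrt ‖cos (x:ℂ) - (Real.cos al : ℂ)‖ ^ 5 ≤ 32 := by
              have : Real.sqrt ‖cos (x:ℂ) - (Real.cos al : ℂ)‖ ≤ 2 := by
                rw [Real.sqrt_le_left (by norm_num)]
                linarith
              calc Real.sqrt ‖cos (x:ℂ) - (Real.cos al : ℂ)‖ ^ 5 ≤ 2 ^ 5 := by gcongr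
                _ = 32 := by norm_num
            nlinarith)
        refine h3.trans ?_
        have h7 : |al - -al| ≤ 3 := by
          rw [abs_of_nonneg (by linarith)]; linarith
        have : 0 ≤ 32 * B := by positivity
        nlinarith
      have h8 : cc j * cc (2 * m - j) ≤ 1 := by
        have := cc_le_one j
        have := cc_le_one (2 * m - j)
        nlinarith
      calc _ ≤ 1 * 1 * (96 * B) := by gcongr
        _ ≤ _ := by
          have : 0 ≤ 2 * (7/2 : ℝ) ^ (7/2 : ℝ) * C1 * B * W * (1/2) ^ j := by positivity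
          linarith
  refine (norm_sum_le _ _).trans ((Finset.sum_le_sum hterm).trans ?_)
  rw [Finset.sum_add_distrib, ← Finset.mul_sum, Finset.sum_const, Finset.card_range, nsmul_eq_mul]
  have hg : ∑ i ∈ Finset.range (2 * m + 1), (1/2 : ℝ) ^ i ≤ 2 := by
    have := sum_geometric_two_le (2 * m + 1)
    simpa using this
  have hcount := countB m ht
  have e5 : ((2 * m + 1 : ℕ) : ℝ) = 2 * (m:ℝ) + 1 := by push_cast; ring
  rw [e5]
  have h20 : 0 ≤ 2 * (7/2 : ℝ) ^ (7/2 : ℝ) * C1 * B * W := by positivity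
  calc _ ≤ 2 * (7/2 : ℝ) ^ (7/2 : ℝ) * C1 * B * W * 2 + 200 * W * (96 * B) := by
        refine add_le_add (mul_le_mul_of_nonneg_left hg h20) ?_
        exact mul_le_mul_of_nonneg_right hcount (by positivity)
    _ = _ := by ring

end FB
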