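import Pool.Agent.H48.FB.B02
import Pool.Agent.H48.FB.B04
import Pool.Agent.H48.FB.A07
import Pool.Agent.H48.FB.B00

/-! K02: the kernel perturbation `Th`. -/

open Complex Set MeasureTheory Filter Topology

noncomputable section

namespace FB

/-- cohomological equation for `u` at the point `t` -/
def CohEq (al : ℝ) (Z X u : ℂ → ℂ) (t : ℂ) : Prop :=
  u (t + (al:ℂ)) - u (t - (al:ℂ)) = 3/2 * (log (chip al Z X t) - log (chim al Z X t))

/-! ### `Th` as a function of finitely many numbers -/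

/-- `Th` in terms of the values of the quantities it is built from -/
def k02F (k q c n x cp cm up um us : ℂ) : ℂ :=
  c ^ ((3:ℂ)/2) * exp (-((1/2) * ((3/2) * (log cp + log cm) - up - um)) - us) *
    afn (k * (q * (c / (n * x)))) / afn (k * q) - 1

theorem k02_Th (al : ℝ) (Z X u : ℂ → ℂ) (t s : ℂ) :
    Th al Z X u t s = k02F (cos s - (Real.cos al : ℂ)) (q0 t s ^ 2) (chi al Z X t s) (nu al Z t) (xi X (t + s))
      (chip al Z X t) (chim al Z X t) (u (t + (al:ℂ))) (u (t - (al:ℂ))) (u (t + s)) := by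
  unfold Th k02F u1 om
  rw [mul_pow, cpow_half_sq]

theorem k02_slit {c : ℂ} (h : ‖c - 1‖ ≤ 1/100) : c ∈ slitPlane := by
  left
  have h5 := (abs_le.1 ((abs_re_le_norm _).trans h)).1
  rw [sub_re, one_re] at h5
  linarith

theorem k02_ne {c : ℂ} (h : ‖c - 1‖ ≤ 1/100) : c ≠ 0 := slitPlane_ne_zero (k02_slit h)

theorem k02_log {c : ℂ} {d : ℝ} (hd : d ≤ 1/100) (h : ‖c - 1‖ ≤ d) : ‖log c‖ ≤ 2 * d := by
  have h1 := Complex.norm_log_one_add_half_le_self (z := c - 1) (by linarith)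
  rw [add_sub_cancel] at h1
  have h2 := norm_nonneg (c - 1)
  linarith

theorem k02_afn_lb {w : ℂ} (hw : ‖w‖ ≤ 1) : 4/5 ≤ ‖afn w‖ ∧ ‖afn w‖ ≤ 6/5 ∧ afn w ≠ 0 := by
  have h := afn_bound hw
  have hs1 : (1.41 : ℝ) < Real.sqrt 2 := Real.lt_sqrt_of_sq_lt (by norm_num)
  have hs2 : Real.sqrt 2 < (1.42 : ℝ) := (Real.sqrt_lt' (by norm_num)).2 (by norm_num)
  have e : (2 * Real.sqrt 2 / 3 : ℂ) = ((2 * Real.sqrt 2 / 3 : ℝ) : ℂ) := by push_cast; ring
  have hn : ‖(2 * Real.sqrt 2 / 3 : ℂ)‖ = 2 * Real.sqrt 2 / 3 := by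
    rw [e, Complex.norm_real, Real.norm_eq_abs, abs_of_pos (by positivity)]
  have h1 := norm_sub_norm_le (2 * Real.sqrt 2 / 3 : ℂ) (afn w)
  rw [norm_sub_rev, hn] at h1
  have h2 := norm_sub_norm_le (afn w) (2 * Real.sqrt 2 / 3 : ℂ)
  rw [hn] at h2
  have h3 : 4/5 ≤ ‖afn w‖ := by linarith
  refine ⟨h3, by linarith, ?_⟩
  intro h0
  rw [h0, norm_zero] at h3
  linarith

theorem k02_afn_lip : ∃ L : ℝ, 0 ≤ L ∧ ∀ w w' : ℂ, ‖w‖ ≤ 1 → ‖w'‖ ≤ 1 → ‖afn w - afn w'‖ ≤ L * ‖w - w'‖ := by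
  have hcont : ContinuousOn (deriv afn) (Metric.closedBall 0 1) :=
    ((afn_diff.analyticOnNhd Metric.isOpen_ball).deriv.continuousOn).mono
      (Metric.closedBall_subset_ball (by norm_num))
  obtain ⟨L, hL⟩ := (isCompact_closedBall (0:ℂ) 1).exists_bound_of_continuousOn hcont
  refine ⟨L, (norm_nonneg _).trans (hL 0 (by simp)), fun w w' hw hw' => ?_⟩
  refine (convex_closedBall (0:ℂ) 1).norm_image_sub_le_of_norm_deriv_le ?_ hL
    (mem_closedBall_zero_iff.2 hw') (mem_closedBall_zero_iff.2 hw)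
  intro x hx
  exact afn_diff.differentiableAt (Metric.isOpen_ball.mem_nhds
    (Metric.closedBall_subset_ball (by norm_num) hx))

/-- the quotient `c / (n x)` is close to `1` -/
theorem k02_quot {c n x : ℂ} {d : ℝ} (hd : d ≤ 1/100) (hc : ‖c - 1‖ ≤ d) (hn : ‖n - 1‖ ≤ d) (hx : ‖x - 1‖ ≤ d) :
    ‖c / (n * x) - 1‖ ≤ 4 * d ∧ ‖c / (n * x)‖ ≤ 1.04 := by
  have hd0 : 0 ≤ d := (norm_nonneg _).trans hc
  obtain ⟨h1, -, h2, h3, h4⟩ := rho_bd (hc.trans hd) (hn.trans hd) (hx.trans hd)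
  refine ⟨?_, h1⟩
  have lower : ∀ w : ℂ, ‖w - 1‖ ≤ 1/100 → 0.99 ≤ ‖w‖ := by
    intro w hw
    have := norm_sub_norm_le (1:ℂ) (1 - w)
    rw [sub_sub_cancel, norm_one, ← norm_neg (1 - w), neg_sub] at this
    linarith
  have hnl := lower n (hn.trans hd)
  have hxl := lower x (hx.trans hd)
  have hnx : 0.98 ≤ ‖n * x‖ := by
    rw [norm_mul]
    nlinarith
  have hpos : 0 < ‖n * x‖ := by linarith
  have e : c / (n * x) - 1 = ((c - 1) - (n - 1) * (x - 1) - (n - 1) - (x - 1)) / (n * x) := by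
    field_simp
    ring
  rw [e, norm_div, div_le_iff₀ hpos]
  have h5 : ‖(c - 1) - (n - 1) * (x - 1) - (n - 1) - (x - 1)‖ ≤
      ‖c - 1‖ + ‖n - 1‖ * ‖x - 1‖ + ‖n - 1‖ + ‖x - 1‖ := by
    refine (norm_sub_le _ _).trans (add_le_add ?_ le_rfl)
    refine (norm_sub_le _ _).trans (add_le_add ?_ le_rfl)
    refine (norm_sub_le _ _).trans (add_le_add le_rfl ?_)
    rw [norm_mul]
  have h6 : ‖n - 1‖ * ‖x - 1‖ ≤ d * (1/100) :=
    mul_le_mul hn (hx.trans hd) (norm_nonneg _) hd0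
  nlinarith

theorem k02_F_bd : ∃ K : ℝ, 1 ≤ K ∧ ∀ k q c n x cp cm up um us : ℂ, ∀ d : ℝ, d ≤ 1/100 → ‖k * q‖ ≤ 0.6 →
    ‖c - 1‖ ≤ d → ‖n - 1‖ ≤ d → ‖x - 1‖ ≤ d → ‖cp - 1‖ ≤ d → ‖cm - 1‖ ≤ d → ‖up‖ ≤ d → ‖um‖ ≤ d → ‖us‖ ≤ d →
    ‖k02F k q c n x cp cm up um us‖ ≤ K * d := by
  obtain ⟨L, hL0, hL⟩ := k02_afn_lip
  refine ⟨32 + 3 * L, by linarith, ?_⟩
  intro k q c n x cp cm up um us d hd hkq hc hn hx hcp hcm hup hum hus
  have hd0 : 0 ≤ d := (norm_nonneg _).trans hc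
  set w : ℂ := 3/2 * log c - (1/2) * ((3/2) * (log cp + log cm) - up - um) - us with hw
  have hwn : ‖w‖ ≤ 8 * d := by
    have l1 := k02_log hd hc
    have l2 := k02_log hd hcp
    have l3 := k02_log hd hcm
    have e : w = 3/2 * log c + (-(3/4)) * log cp + (-(3/4)) * log cm + 1/2 * up + 1/2 * um + (-1) * us := by
      rw [hw]; ring
    rw [e]
    refine (norm_add_le _ _).trans ?_
    refine (add_le_add (norm_add_le _ _) le_rfl).trans ?_
    refine (add_le_add (add_le_add (norm_add_le _ _) le_rfl) le_rfl).trans ?_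
    refine (add_le_add (add_le_add (add_le_add (norm_add_le _ _) le_rfl) le_rfl) le_rfl).trans ?_
    refine (add_le_add (add_le_add (add_le_add (add_le_add (norm_add_le _ _) le_rfl) le_rfl) le_rfl) le_rfl).trans ?_
    rw [norm_mul, norm_mul, norm_mul, norm_mul, norm_mul, norm_mul]
    have n1 : ‖(3/2 : ℂ)‖ = 3/2 := by norm_num
    have n2 : ‖(-(3/4) : ℂ)‖ = 3/4 := by norm_num
    have n3 : ‖(1/2 : ℂ)‖ = 1/2 := by norm_num
    have n4 : ‖(-1 : ℂ)‖ = 1 := by norm_num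
    rw [n1, n2, n3, n4]
    linarith
  obtain ⟨hq1, hq2⟩ := k02_quot hd hc hn hx
  have hz1 : ‖k * (q * (c / (n * x)))‖ ≤ 1 := by
    rw [← mul_assoc, norm_mul]
    nlinarith [norm_nonneg (k * q), norm_nonneg (c / (n * x))]
  have hz0 : ‖k * q‖ ≤ 1 := by linarith
  obtain ⟨a1, a2, a3⟩ := k02_afn_lb hz1
  obtain ⟨b1, b2, b3⟩ := k02_afn_lb hz0
  have hexp : c ^ ((3:ℂ)/2) * exp (-((1/2) * ((3/2) * (log cp + log cm) - up - um)) - us) = exp w := by
    rw [cpow_def_of_ne_zero (k02_ne (hc.trans hd)), ← exp_add]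
    congr 1
    rw [hw]; ring
  have hE : ‖exp w - 1‖ ≤ 16 * d := by
    have := Complex.norm_exp_sub_one_le (x := w) (by linarith)
    linarith
  have e : k02F k q c n x cp cm up um us =
      (exp w - 1) * (afn (k * (q * (c / (n * x)))) / afn (k * q)) +
        (afn (k * (q * (c / (n * x)))) - afn (k * q)) / afn (k * q) := by
    rw [k02F, hexp]
    field_simp
    ring
  rw [e]
  refine (norm_add_le _ _).trans ?_
  rw [norm_mul, norm_div, norm_div]
  have h1 : ‖afn (k * (q * (c / (n * x))))‖ / ‖afn (k * q)‖ ≤ 2 := by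
    rw [div_le_iff₀ (by linarith)]
    linarith
  have h2 : ‖afn (k * (q * (c / (n * x)))) - afn (k * q)‖ / ‖afn (k * q)‖ ≤ 3 * L * d := by
    rw [div_le_iff₀ (by linarith)]
    have h3 := hL _ _ hz1 hz0
    have h4 : ‖k * (q * (c / (n * x))) - k * q‖ ≤ 0.6 * (4 * d) := by
      rw [show k * (q * (c / (n * x))) - k * q = (k * q) * (c / (n * x) - 1) by ring, norm_mul]
      exact mul_le_mul hkq hq1 (norm_nonneg _) (by norm_num)
    calc ‖afn (k * (q * (c / (n * x)))) - afn (k * q)‖ ≤ L * (0.6 * (4 * d)) :=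
          h3.trans (mul_le_mul_of_nonneg_left h4 hL0)
      _ = 3 * L * d * (4/5) := by ring
      _ ≤ 3 * L * d * ‖afn (k * q)‖ := mul_le_mul_of_nonneg_left b1 (by positivity)
  have h5 : ‖exp w - 1‖ * (‖afn (k * (q * (c / (n * x))))‖ / ‖afn (k * q)‖) ≤ 16 * d * 2 :=
    mul_le_mul hE h1 (by positivity) (by positivity)
  linarith

theorem k02_afn_at {w : ℂ} (hw : ‖w‖ ≤ 1) : DifferentiableAt ℂ afn w :=
  afn_diff.differentiableAt (Metric.isOpen_ball.mem_nhds (mem_ball_zero_iff.2 (by linarith)))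

theorem k02_F_diff {k q c n x cp cm up um us : ℂ → ℂ} {z : ℂ} (hk : DifferentiableAt ℂ k z)
    (hq : DifferentiableAt ℂ q z) (hc : DifferentiableAt ℂ c z) (hn : DifferentiableAt ℂ n z)
    (hx : DifferentiableAt ℂ x z) (hcp : DifferentiableAt ℂ cp z) (hcm : DifferentiableAt ℂ cm z)
    (hup : DifferentiableAt ℂ up z) (hum : DifferentiableAt ℂ um z) (hus : DifferentiableAt ℂ us z)
    (hkq : ‖k z * q z‖ ≤ 0.6) (hc' : ‖c z - 1‖ ≤ 1/100) (hn' : ‖n z - 1‖ ≤ 1/100) (hx' : ‖x z - 1‖ ≤ 1/100)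
    (hcp' : ‖cp z - 1‖ ≤ 1/100) (hcm' : ‖cm z - 1‖ ≤ 1/100) :
    DifferentiableAt ℂ (fun z => k02F (k z) (q z) (c z) (n z) (x z) (cp z) (cm z) (up z) (um z) (us z)) z := by
  obtain ⟨hq1, hq2⟩ := k02_quot le_rfl hc' hn' hx'
  have hz1 : ‖k z * (q z * (c z / (n z * x z)))‖ ≤ 1 := by
    rw [← mul_assoc, norm_mul]
    nlinarith [norm_nonneg (k z * q z), norm_nonneg (c z / (n z * x z))]
  have hz0 : ‖k z * q z‖ ≤ 1 := by linarith
  have hnx : n z * x z ≠ 0 := mul_ne_zero (k02_ne hn') (k02_ne hx')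
  have d1 : DifferentiableAt ℂ (fun z => c z ^ ((3:ℂ)/2)) z := hc.cpow_const (k02_slit hc')
  have d2 : DifferentiableAt ℂ (fun z => exp (-((1/2) * ((3/2) * (log (cp z) + log (cm z)) - up z - um z)) - us z)) z := by
    have l1 : DifferentiableAt ℂ (fun z => log (cp z)) z := hcp.clog (k02_slit hcp')
    have l2 : DifferentiableAt ℂ (fun z => log (cm z)) z := hcm.clog (k02_slit hcm')
    exact (((((l1.add l2).const_mul (3/2)).sub hup).sub hum).const_mul (1/2)).neg.sub hus |>.cexp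
  have d3 : DifferentiableAt ℂ (fun z => afn (k z * (q z * (c z / (n z * x z))))) z :=
    DifferentiableAt.comp z (k02_afn_at hz1) (hk.mul (hq.mul (hc.div (hn.mul hx) hnx)))
  have d4 : DifferentiableAt ℂ (fun z => afn (k z * q z)) z :=
    DifferentiableAt.comp z (k02_afn_at hz0) (hk.mul hq)
  unfold k02F
  exact (((d1.mul d2).mul d3).div d4 (k02_afn_lb hz0).2.2).sub_const 1

theorem k02_F_tendsto {l : Filter ℂ} {k q c x us : ℂ → ℂ} {n cp cm up um q1 c1 x1 us1 : ℂ}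
    (hk : Tendsto k l (𝓝 0)) (hq : Tendsto q l (𝓝 q1)) (hc : Tendsto c l (𝓝 c1)) (hc1 : ‖c1 - 1‖ ≤ 1/100)
    (hx : Tendsto x l (𝓝 x1)) (hn : n ≠ 0) (hx1 : x1 ≠ 0) (hus : Tendsto us l (𝓝 us1))
    (h0 : 3/2 * log c1 - (1/2) * ((3/2) * (log cp + log cm) - up - um) - us1 = 0) :
    Tendsto (fun s => k02F (k s) (q s) (c s) n (x s) cp cm up um (us s)) l (𝓝 0) := by
  have t1 : Tendsto (fun s => c s ^ ((3:ℂ)/2)) l (𝓝 (c1 ^ ((3:ℂ)/2))) :=
    ((continuousAt_id.cpow continuousAt_const (k02_slit hc1)).tendsto).comp hc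
  have t2 : Tendsto (fun s => exp (-((1/2) * ((3/2) * (log cp + log cm) - up - um)) - us s)) l
      (𝓝 (exp (-((1/2) * ((3/2) * (log cp + log cm) - up - um)) - us1))) :=
    (continuous_exp.tendsto _).comp (hus.const_sub _)
  have a0 : ContinuousAt afn 0 := (k02_afn_at (w := 0) (by simp)).continuousAt
  have z1 : Tendsto (fun s => k s * (q s * (c s / (n * x s)))) l (𝓝 0) := by
    have := hk.mul (hq.mul (hc.div (hx.const_mul n) (mul_ne_zero hn hx1)))
    rwa [zero_mul] at this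
  have z0 : Tendsto (fun s => k s * q s) l (𝓝 0) := by
    have := hk.mul hq
    rwa [zero_mul] at this
  have t3 : Tendsto (fun s => afn (k s * (q s * (c s / (n * x s))))) l (𝓝 (afn 0)) := a0.tendsto.comp z1
  have t4 : Tendsto (fun s => afn (k s * q s)) l (𝓝 (afn 0)) := a0.tendsto.comp z0
  have ha0 : afn 0 ≠ 0 := (k02_afn_lb (w := 0) (by simp)).2.2
  have t5 := (((t1.mul t2).mul t3).div t4 ha0).sub_const 1
  unfold k02F
  refine t5.trans (le_of_eq ?_)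
  congr 1
  rw [mul_div_assoc, div_self ha0, mul_one, cpow_def_of_ne_zero (k02_ne hc1), ← exp_add]
  rw [show log c1 * (3/2) + (-((1/2) * ((3/2) * (log cp + log cm) - up - um)) - us1) =
    3/2 * log c1 - (1/2) * ((3/2) * (log cp + log cm) - up - um) - us1 by ring, h0, exp_zero, sub_self]

/-! ### the region -/

theorem k02_mem {r ρ al : ℝ} (hρ4 : ρ ≤ 1/4) {t s : ℂ} (ht : t ∈ band 2 (r - ρ)) (hs : s ∈ RR al ρ) :
    t + s ∈ band (5/4) r := by
  obtain ⟨h1, h2⟩ := ht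
  obtain ⟨h3, h4, h5⟩ := hs
  constructor <;> rw [add_im] <;> linarith

theorem k02_kappa {al ρ : ℝ} (hal : al ∈ JJ) (hρ4 : ρ ≤ 1/4) {s : ℂ} (hs : s ∈ RR al ρ) :
    ‖cos s - (Real.cos al : ℂ)‖ ≤ 1.4 := by
  obtain ⟨a1, a2, a3, a4, a5, a6, a7⟩ := JJ_bounds hal
  obtain ⟨h3, h4, h5⟩ := hs
  have hpi := Real.pi_gt_three
  rw [abs_lt] at h3
  have hcx : 0 ≤ Real.cos s.re := Real.cos_nonneg_of_neg_pi_div_two_le_of_le (by linarith) (by linarith)
  have e3 : Real.exp (3/4) ≤ 2.12 := by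
    have h6 : Real.exp (3/4) ^ 4 ≤ 2.12 ^ 4 := by
      rw [← Real.exp_nat_mul]
      have h7 : Real.exp ((4:ℕ) * (3/4)) = Real.exp 1 ^ 3 := by
        rw [← Real.exp_nat_mul]; norm_num
      rw [h7]
      have h8 : Real.exp 1 < 2.7182818286 := Real.exp_one_lt_d9
      calc Real.exp 1 ^ 3 ≤ 2.7182818286 ^ 3 := by gcongr
        _ ≤ 2.12 ^ 4 := by norm_num
    exact le_of_pow_le_pow_left₀ (by norm_num) (by norm_num) h6
  have hy : |s.im| ≤ 3/4 := by
    rw [abs_le]; constructor <;> linarith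
  have hsh : |Real.sinh s.im| ≤ 0.83 := by
    rw [Real.abs_sinh]
    have h6 : Real.sinh |s.im| ≤ Real.sinh (3/4) := Real.sinh_le_sinh.2 hy
    have h7 : Real.sinh (3/4) ≤ 0.83 := by
      rw [Real.sinh_eq]
      have h8 : (2.12 : ℝ)⁻¹ ≤ Real.exp (-(3/4)) := by
        rw [Real.exp_neg]
        exact inv_anti₀ (Real.exp_pos _) e3
      have h9 : (0.47 : ℝ) ≤ (2.12 : ℝ)⁻¹ := by norm_num
      linarith
    linarith
  have hsh2 : Real.sinh s.im ^ 2 ≤ 0.69 := by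
    have := abs_le.1 hsh
    nlinarith
  have e : cos s - (Real.cos al : ℂ) = ((Real.cos s.re * Real.cosh s.im - Real.cos al : ℝ) : ℂ)
      + ((-(Real.sin s.re * Real.sinh s.im) : ℝ) : ℂ) * I := by
    rw [Complex.cos_eq]; push_cast; ring
  have hsq : ‖cos s - (Real.cos al : ℂ)‖ ^ 2 ≤ 1.4 ^ 2 := by
    rw [e, ← normSq_eq_norm_sq, normSq_add_mul_I]
    have c1 := Real.cosh_sq s.im
    have c2 := Real.sin_sq_add_cos_sq s.re
    have c3 : 0 ≤ Real.cos al * Real.cos s.re * Real.cosh s.im := by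
      have := Real.cosh_pos s.im
      positivity
    have c4 : Real.cos s.re ^ 2 ≤ 1 := by nlinarith [sq_nonneg (Real.sin s.re)]
    have c5 : (Real.cos s.re * Real.cosh s.im - Real.cos al) ^ 2 + (-(Real.sin s.re * Real.sinh s.im)) ^ 2 =
        Real.cos s.re ^ 2 + Real.sinh s.im ^ 2 - 2 * (Real.cos al * Real.cos s.re * Real.cosh s.im) + Real.cos al ^ 2 := by
      have c6 : Real.sin s.re ^ 2 = 1 - Real.cos s.re ^ 2 := by linarith
      calc _ = Real.cos s.re ^ 2 * Real.cosh s.im ^ 2 - 2 * (Real.cos al * Real.cos s.re * Real.cosh s.im) +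
            Real.cos al ^ 2 + Real.sin s.re ^ 2 * Real.sinh s.im ^ 2 := by ring
        _ = _ := by rw [c1, c6]; ring
    rw [c5]
    nlinarith
  exact le_of_sq_le_sq hsq (by norm_num)

theorem k02_q0 {t s : ℂ} (ht : 2 < t.im) (hs : 5/4 < (t + s).im) : ‖q0 t s ^ 2‖ ≤ 0.4 := by
  rw [(q0_sq (by linarith) (by linarith)).1, norm_div, norm_one, norm_mul]
  have h1 : 2 ≤ ‖sin t‖ := by
    refine le_trans ?_ (b01_sin_lower t)
    rw [abs_of_pos (by linarith)]; exact ht.le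
  have h2 : 5/4 ≤ ‖sin (t + s)‖ := by
    refine le_trans ?_ (b01_sin_lower (t + s))
    rw [abs_of_pos (by linarith)]; exact hs.le
  have h3 : 2 * (5/4) ≤ ‖sin t‖ * ‖sin (t + s)‖ := mul_le_mul h1 h2 (by norm_num) (by linarith)
  rw [div_le_iff₀ (by linarith)]
  linarith

theorem k02_kq {r ρ al : ℝ} (hal : al ∈ JJ) (hρ4 : ρ ≤ 1/4) {t s : ℂ} (ht : t ∈ band 2 (r - ρ)) (hs : s ∈ RR al ρ) :
    ‖(cos s - (Real.cos al : ℂ)) * q0 t s ^ 2‖ ≤ 0.6 := by
  rw [norm_mul]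
  have h1 := k02_kappa hal hρ4 hs
  have h2 := k02_q0 ht.1 (k02_mem hρ4 ht hs).1
  nlinarith [norm_nonneg (cos s - (Real.cos al : ℂ)), norm_nonneg (q0 t s ^ 2)]

/-- the data at a point -/
structure k02Pt (d al : ℝ) (Z X : ℂ → ℂ) (t s : ℂ) : Prop where
  nu : ‖nu al Z t - 1‖ ≤ d
  chip : ‖chip al Z X t - 1‖ ≤ d
  chim : ‖chim al Z X t - 1‖ ≤ d
  chi : ‖chi al Z X t s - 1‖ ≤ d
  xi : ‖xi X (t + s) - 1‖ ≤ d

theorem k02_data (R : ℝ) (hR : 3 ≤ R) : ∃ c0 C : ℝ, 0 < c0 ∧ 1 ≤ C ∧ C * c0 ≤ 1/100 ∧ ∀ al ∈ JJ, ∀ r c ρ : ℝ, 3 ≤ r → r ≤ R →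
    0 ≤ c → c ≤ c0 → 0 < ρ → ρ ≤ 1/4 → ∀ Z X : ℂ → ℂ, NB c 1 r Z X → ∀ t ∈ band 2 (r - ρ),
      (∀ s ∈ RR al ρ, s ≠ (al:ℂ) → s ≠ -(al:ℂ) → k02Pt (C * c) al Z X t s) ∧
      ‖nu al Z t - 1‖ ≤ C * c ∧ ‖chip al Z X t - 1‖ ≤ C * c ∧ ‖chim al Z X t - 1‖ ≤ C * c ∧
      ∀ s : ℝ, ‖xi X (t + s) - 1‖ ≤ C * c := by
  obtain ⟨c1, C1, hc1, hC1, hCc1, H1⟩ := chord_bd R (by linarith)
  obtain ⟨c2, C2, hc2, hC2, hCc2, H2⟩ := chi_bd R hR
  refine ⟨min (min c1 c2) (1 / (100 * (C1 + C2))), C1 + C2, by positivity, by linarith, ?_, ?_⟩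
  · calc (C1 + C2) * min (min c1 c2) (1 / (100 * (C1 + C2))) ≤ (C1 + C2) * (1 / (100 * (C1 + C2))) := by
          gcongr; exact min_le_right _ _
      _ = 1/100 := by field_simp
  · intro al hal r c ρ hr hrR hc hcc hρ hρ4 Z X hN t ht
    have hcc1 : c ≤ c1 := hcc.trans ((min_le_left _ _).trans (min_le_left _ _))
    have hcc2 : c ≤ c2 := hcc.trans ((min_le_left _ _).trans (min_le_right _ _))
    have ht1 : t ∈ band 1 r := ⟨by linarith [ht.1], by linarith [ht.2]⟩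
    have e1 : C1 * c ≤ (C1 + C2) * c := by nlinarith
    have e2 : C2 * c ≤ (C1 + C2) * c := by nlinarith
    obtain ⟨hB, hxi, -⟩ := H1 al hal 1 r c le_rfl hrR hc hcc1 Z X hN t ht1
    refine ⟨fun s hs hs1 hs2 => ?_, hB.nu.trans e1, hB.chip.trans e1, hB.chim.trans e1,
      fun s => (hxi s).trans e1⟩
    have hts : t + s ∈ band 1 r := band_subset (by norm_num) le_rfl (k02_mem hρ4 ht hs)
    obtain ⟨-, hxi', -⟩ := H1 al hal 1 r c le_rfl hrR hc hcc1 Z X hN (t + s) hts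
    have hx0 := hxi' 0
    rw [ofReal_zero, add_zero] at hx0
    exact ⟨hB.nu.trans e1, hB.chip.trans e1, hB.chim.trans e1,
      (H2 al hal r c ρ (by linarith) hrR hρ hρ4 hc hcc2 Z X hN t ht s hs hs1 hs2).trans e2, hx0.trans e1⟩

theorem k02_xi_diff {r : ℝ} {X : ℂ → ℂ} (hX : DifferentiableOn ℂ X (band 1 r)) {b : ℂ} (hb : b ∈ band 1 r) :
    DifferentiableAt ℂ (xi X) b := by
  have hev : xi X =ᶠ[𝓝 b] fun b => X b / sin b := by
    filter_upwards [(isOpen_band 1 r).mem_nhds hb] with z hz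
    exact xi_eq (sin_ne_zero_of_im (by linarith [hz.1]))
  refine DifferentiableAt.congr_of_eventuallyEq ?_ hev
  exact (hX.differentiableAt ((isOpen_band 1 r).mem_nhds hb)).div Complex.differentiableAt_sin
    (sin_ne_zero_of_im (by linarith [hb.1]))

theorem k02_add_at {f : ℂ → ℂ} {t s : ℂ} (h : DifferentiableAt ℂ f (t + s)) :
    DifferentiableAt ℂ (fun s => f (t + s)) s :=
  DifferentiableAt.comp s h (by fun_prop)

/-- the value of the limit vanishes by the cohomological equation -/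
theorem k02_coh1 {al : ℝ} {Z X u : ℂ → ℂ} {t : ℂ} (h : CohEq al Z X u t) :
    3/2 * log (chip al Z X t) - (1/2) * ((3/2) * (log (chip al Z X t) + log (chim al Z X t)) - u (t + (al:ℂ)) - u (t - (al:ℂ)))
      - u (t + (al:ℂ)) = 0 := by
  unfold CohEq at h
  linear_combination (-1/2 : ℂ) * h

theorem k02_coh2 {al : ℝ} {Z X u : ℂ → ℂ} {t : ℂ} (h : CohEq al Z X u t) :
    3/2 * log (chim al Z X t) - (1/2) * ((3/2) * (log (chip al Z X t) + log (chim al Z X t)) - u (t + (al:ℂ)) - u (t - (al:ℂ)))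
      - u (t - (al:ℂ)) = 0 := by
  unfold CohEq at h
  linear_combination (1/2 : ℂ) * h

/-- `Th` is built from `chi` (B02, within `1/10` of `1`), `nu`, `xi`, `u`, `q0`, `afn` (argument of modulus `≤ 1`:
`‖cos s - cos al‖ ‖q0‖^2 ≤ 1` on the region since `‖cos s - cos al‖ ≤ 1.4` and `‖q0 t s‖^2 = 1/‖sin t sin(t+s)‖ ≤ 1/(sinh 2 sinh 1.25)`), `t ∈ band 2`:
analytic in `s`, `O(c)`. The limit at `s → al`: `chi → chip`, `cos s - cos al → 0`, so
`Th → chip^{3/2} exp(-u1 t - u(t+al)) - 1 = exp((3/4)(log chip - log chim) - (1/2)(u(t+al) - u(t-al))) - 1 = 0`. -/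
theorem Th_basic (R : ℝ) (hR : 3 ≤ R) : ∃ c0 C : ℝ, 0 < c0 ∧ 1 ≤ C ∧ ∀ al ∈ JJ, ∀ r c ρ : ℝ, 3 ≤ r → r ≤ R → 0 ≤ c → c ≤ c0 →
    0 < ρ → ρ ≤ 1/4 → ∀ Z X u : ℂ → ℂ, NB c 1 r Z X → DifferentiableOn ℂ u (band 1 r) → (∀ z ∈ band 1 r, ‖u z‖ ≤ c) →
    ∀ t ∈ band 2 (r - ρ),
      (∀ s ∈ RR al ρ, s ≠ (al:ℂ) → s ≠ -(al:ℂ) → DifferentiableAt ℂ (Th al Z X u t) s ∧ ‖Th al Z X u t s‖ ≤ C * c ∧
        ‖(cos s - (Real.cos al : ℂ)) * (om al Z X t s) ^ 2‖ ≤ 1 ∧ DifferentiableAt ℂ (K0 al t) s ∧ ‖K0 al t s‖ ≤ C) ∧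
      (CohEq al Z X u t → Tendsto (Th al Z X u t) (𝓝[≠] (al:ℂ)) (𝓝 0) ∧ Tendsto (Th al Z X u t) (𝓝[≠] (-(al:ℂ))) (𝓝 0)) := by
  obtain ⟨c0, C, hc0, hC, hCc, H⟩ := k02_data R hR
  obtain ⟨K, hK, HK⟩ := k02_F_bd
  have hE1 : 1 ≤ Real.exp R := Real.one_le_exp (by linarith)
  refine ⟨c0, K * C + 2 * Real.exp R ^ 3, hc0, by nlinarith [pow_le_pow_left₀ (by norm_num : (0:ℝ) ≤ 1) hE1 3], ?_⟩
  intro al hal r c ρ hr hrR hc hcc hρ hρ4 Z X u hN hu hub t ht
  obtain ⟨a1, a2, a3, a4, a5, a6, a7⟩ := JJ_bounds hal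
  obtain ⟨HP, Hnu, Hchip, Hchim, Hxi⟩ := H al hal r c ρ hr hrR hc hcc hρ hρ4 Z X hN t ht
  have ht1 : t ∈ band 1 r := ⟨by linarith [ht.1], by linarith [ht.2]⟩
  have hd : C * c ≤ 1/100 := (mul_le_mul_of_nonneg_left hcc (by linarith)).trans hCc
  have hcd : c ≤ C * c := by nlinarith
  have hup : ‖u (t + (al:ℂ))‖ ≤ C * c := (hub _ (add_real_mem_band ht1 al)).trans hcd
  have hum : ‖u (t - (al:ℂ))‖ ≤ C * c := (hub _ (sub_real_mem_band ht1 al)).trans hcd
  have hfun : Th al Z X u t = fun s => k02F (cos s - (Real.cos al : ℂ)) (q0 t s ^ 2) (chi al Z X t s) (nu al Z t)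
      (xi X (t + s)) (chip al Z X t) (chim al Z X t) (u (t + (al:ℂ))) (u (t - (al:ℂ))) (u (t + s)) :=
    funext fun s => k02_Th al Z X u t s
  refine ⟨fun s hs hs1 hs2 => ?_, fun hcoh => ?_⟩
  · have hP := HP s hs hs1 hs2
    have hts : t + s ∈ band (5/4) r := k02_mem hρ4 ht hs
    have hts1 : t + s ∈ band 1 r := band_subset (by norm_num) le_rfl hts
    have hkq := k02_kq hal hρ4 ht hs
    have dk : DifferentiableAt ℂ (fun s => cos s - (Real.cos al : ℂ)) s := by fun_prop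
    have dq0 : DifferentiableAt ℂ (fun s => q0 t s) s :=
      (q0_diff (by linarith [ht.1]) (by linarith [hts.1])).2.1
    have hq2 := k02_q0 ht.1 hts.1
    refine ⟨?_, ?_, ?_, ?_, ?_⟩
    · rw [hfun]
      refine k02_F_diff dk (dq0.pow 2) (chi_diff_s hal hN.dZ hN.dX ht1 hts1 ?_ hs1 hs2)
        (differentiableAt_const _) (k02_add_at (k02_xi_diff hN.dX hts1)) (differentiableAt_const _)
        (differentiableAt_const _) (differentiableAt_const _) (differentiableAt_const _)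
        (k02_add_at (hu.differentiableAt ((isOpen_band 1 r).mem_nhds hts1))) hkq
        (hP.chi.trans hd) (hP.nu.trans hd) (hP.xi.trans hd) (hP.chip.trans hd) (hP.chim.trans hd)
      linarith [hs.1]
    · rw [k02_Th]
      have h1 := HK _ _ _ _ _ _ _ _ _ _ (C * c) hd hkq hP.chi hP.nu hP.xi hP.chip hP.chim hup hum
        ((hub _ hts1).trans hcd)
      refine h1.trans ?_
      have : 0 ≤ 2 * Real.exp R ^ 3 * c := by positivity
      nlinarith
    · rw [om, mul_pow, cpow_half_sq, ← mul_assoc, norm_mul]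
      have h2 := (k02_quot hd hP.chi hP.nu hP.xi).2
      nlinarith [norm_nonneg ((cos s - (Real.cos al : ℂ)) * q0 t s ^ 2),
        norm_nonneg (chi al Z X t s / (nu al Z t * xi X (t + s)))]
    · unfold K0
      have d1 : DifferentiableAt ℂ (fun s => afn ((cos s - (Real.cos al : ℂ)) * q0 t s ^ 2)) s :=
        DifferentiableAt.comp s (k02_afn_at (by linarith)) (dk.mul (dq0.pow 2))
      have d2 : DifferentiableAt ℂ (fun s => sin (t + s) ^ 2) s := by fun_prop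
      exact ((d2.const_mul ((Real.sin al : ℂ) * sin t)).mul (dq0.pow 3)).mul d1
    · unfold K0
      rw [norm_mul, norm_mul, norm_mul, norm_mul, norm_pow, norm_pow, Complex.norm_real, Real.norm_eq_abs,
        abs_of_pos (by linarith)]
      have b1 : ‖sin t‖ ≤ Real.exp R := by
        refine (b01_norm_sin t).trans (Real.exp_le_exp.2 ?_)
        rw [abs_of_pos (by linarith [ht.1])]; linarith [ht.2]
      have b2 : ‖sin (t + s)‖ ≤ Real.exp R := by
        refine (b01_norm_sin (t + s)).trans (Real.exp_le_exp.2 ?_)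
        rw [abs_of_pos (by linarith [hts.1])]; linarith [hts.2]
      have b3 : ‖q0 t s‖ ≤ 1 := by
        rw [norm_pow] at hq2
        nlinarith [norm_nonneg (q0 t s)]
      have b4 := (k02_afn_lb (w := (cos s - (Real.cos al : ℂ)) * q0 t s ^ 2) (by linarith)).2.1
      have b5 : ‖q0 t s‖ ^ 3 ≤ 1 := pow_le_one₀ (norm_nonneg _) b3
      calc Real.sin al * ‖sin t‖ * ‖sin (t + s)‖ ^ 2 * ‖q0 t s‖ ^ 3 *
            ‖afn ((cos s - (Real.cos al : ℂ)) * q0 t s ^ 2)‖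
          ≤ 1 * Real.exp R * Real.exp R ^ 2 * 1 * (6/5) := by
            gcongr
            linarith
        _ ≤ K * C + 2 * Real.exp R ^ 3 := by
            have : 0 ≤ K * C := by positivity
            have : 0 ≤ Real.exp R ^ 3 := by positivity
            nlinarith
  · have hkt : ∀ p : ℂ, cos p = (Real.cos al : ℂ) →
        Tendsto (fun s => cos s - (Real.cos al : ℂ)) (𝓝[≠] p) (𝓝 0) := by
      intro p hp
      have h1 : Continuous (fun s : ℂ => cos s - (Real.cos al : ℂ)) := by fun_prop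
      have h2 := h1.tendsto p
      rw [hp, sub_self] at h2
      exact h2.mono_left nhdsWithin_le_nhds
    obtain ⟨l1, l2⟩ := chi_tendsto hal hN.dZ hN.dX ht1
    have hn0 : nu al Z t ≠ 0 := k02_ne (Hnu.trans hd)
    have hp1 : t + (al:ℂ) ∈ band 1 r := add_real_mem_band ht1 al
    have hm1 : t + -(al:ℂ) ∈ band 1 r := by
      rw [← sub_eq_add_neg]; exact sub_real_mem_band ht1 al
    have key : ∀ p : ℂ, t + p ∈ band 1 r → Tendsto (fun s => q0 t s ^ 2) (𝓝[≠] p) (𝓝 (q0 t p ^ 2)) ∧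
        Tendsto (fun s => xi X (t + s)) (𝓝[≠] p) (𝓝 (xi X (t + p))) ∧
        Tendsto (fun s => u (t + s)) (𝓝[≠] p) (𝓝 (u (t + p))) := by
      intro p hp
      refine ⟨?_, ?_, ?_⟩
      · exact (((q0_diff (t := t) (s := p) (by linarith [ht.1]) (by linarith [hp.1])).2.1.pow 2).continuousAt.tendsto).mono_left
          nhdsWithin_le_nhds
      · exact ((k02_add_at (k02_xi_diff hN.dX hp)).continuousAt.tendsto).mono_left nhdsWithin_le_nhds
      · exact ((k02_add_at (hu.differentiableAt ((isOpen_band 1 r).mem_nhds hp))).continuousAt.tendsto).mono_left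
          nhdsWithin_le_nhds
    rw [hfun]
    constructor
    · obtain ⟨k1, k2, k3⟩ := key al hp1
      exact k02_F_tendsto (hkt al (by rw [Complex.ofReal_cos])) k1 l1 (Hchip.trans hd) k2 hn0
        (k02_ne ((Hxi al).trans hd)) k3 (k02_coh1 hcoh)
    · obtain ⟨k1, k2, k3⟩ := key (-(al:ℂ)) hm1
      have hx' : ‖xi X (t + -(al:ℂ)) - 1‖ ≤ 1/100 := by
        have := (Hxi (-al)).trans hd
        rwa [ofReal_neg] at this
      refine k02_F_tendsto (hkt (-(al:ℂ)) (by rw [Complex.cos_neg, Complex.ofReal_cos])) k1 l2 (Hchim.trans hd) k2 hn0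
        (k02_ne hx') k3 ?_
      rw [← sub_eq_add_neg]
      exact k02_coh2 hcoh

/-! ### the edge bound -/

theorem k02_norm_sin_ge {w : ℂ} (h : |w.re| ≤ Real.pi / 2) : 2 / Real.pi * ‖w‖ ≤ ‖sin w‖ := b01_sin_lower' h

theorem k02_cos_sub_lower {al : ℝ} (hal : al ∈ JJ) {s : ℂ} (h1 : |s.re| < al + 1/4) :
    (1/5) * min ‖s - al‖ ‖s + al‖ ≤ ‖cos s - (Real.cos al : ℂ)‖ := by
  obtain ⟨a1, a2, a3, _, _, _, _⟩ := JJ_bounds hal
  have hpi := Real.pi_gt_three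
  have hpi2 := Real.pi_lt_d2
  have hpi0 := Real.pi_pos
  rw [abs_lt] at h1
  have w1 : |((s + al) / 2 : ℂ).re| ≤ Real.pi / 2 := by
    have : ((s + al) / 2 : ℂ).re = (s.re + al) / 2 := by simp
    rw [this, abs_le]
    constructor <;> linarith
  have w2 : |((s - al) / 2 : ℂ).re| ≤ Real.pi / 2 := by
    have : ((s - al) / 2 : ℂ).re = (s.re - al) / 2 := by simp
    rw [this, abs_le]
    constructor <;> linarith
  have g1 := k02_norm_sin_ge w1
  have g2 := k02_norm_sin_ge w2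
  rw [norm_div, Complex.norm_ofNat] at g1 g2
  have hcs : cos s - (Real.cos al : ℂ) = -2 * sin ((s + al) / 2) * sin ((s - al) / 2) := by
    rw [Complex.ofReal_cos, Complex.cos_sub_cos]
  rw [hcs, norm_mul, norm_mul, norm_neg, Complex.norm_ofNat]
  have hmax : al ≤ max ‖s - al‖ ‖s + al‖ := by
    have : 2 * al ≤ ‖s - al‖ + ‖s + al‖ := by
      have e : ((2 * al : ℝ) : ℂ) = (s + al) - (s - al) := by push_cast; ring
      have : ‖((2 * al : ℝ) : ℂ)‖ ≤ ‖s + al‖ + ‖s - al‖ := by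
        rw [e]; exact norm_sub_le _ _
      rw [Complex.norm_real, Real.norm_eq_abs, abs_of_pos (by linarith)] at this
      linarith
    have h5 := le_max_left ‖s - (al:ℂ)‖ ‖s + al‖
    have h6 := le_max_right ‖s - (al:ℂ)‖ ‖s + al‖
    linarith
  have hprod : ‖s - al‖ * ‖s + al‖ = min ‖s - al‖ ‖s + al‖ * max ‖s - al‖ ‖s + al‖ := (min_mul_max _ _).symm
  have hmin : 0 ≤ min ‖s - (al:ℂ)‖ ‖s + al‖ := le_min (norm_nonneg _) (norm_nonneg _)
  have h7 : (2 / Real.pi * (‖s + al‖ / 2)) * (2 / Real.pi * (‖s - al‖ / 2)) ≤ ‖sin ((s + al) / 2)‖ * ‖sin ((s - al) / 2)‖ := by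
    gcongr
  have h8 : (2 / Real.pi * (‖s + (al:ℂ)‖ / 2)) * (2 / Real.pi * (‖s - al‖ / 2)) = (1 / Real.pi ^ 2) * (‖s - al‖ * ‖s + al‖) := by
    field_simp
  have h9 : (1/10 : ℝ) ≤ 1 / Real.pi ^ 2 * al := by
    rw [one_div_mul_eq_div, le_div_iff₀ (by positivity)]
    nlinarith
  calc (1/5) * min ‖s - al‖ ‖s + al‖ = 2 * (min ‖s - al‖ ‖s + al‖ * (1/10)) := by ring
    _ ≤ 2 * (min ‖s - al‖ ‖s + al‖ * (1 / Real.pi ^ 2 * al)) := by gcongr
    _ ≤ 2 * (min ‖s - al‖ ‖s + al‖ * (1 / Real.pi ^ 2 * max ‖s - al‖ ‖s + al‖)) := by gcongr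
    _ = 2 * ((1 / Real.pi ^ 2) * (‖s - al‖ * ‖s + al‖)) := by rw [hprod]; ring
    _ ≤ 2 * (‖sin ((s + al) / 2)‖ * ‖sin ((s - al) / 2)‖) := by rw [← h8]; gcongr
    _ = _ := by ring

theorem k02_ball {al ρ : ℝ} (hal : al ∈ JJ) (hρ : 0 < ρ) {s : ℂ} :
    (s ∈ Metric.ball (al:ℂ) ρ → s ∈ RR al ρ) ∧ (s ∈ Metric.ball (-(al:ℂ)) ρ → s ∈ RR al ρ) := by
  obtain ⟨a1, a2, a3, _, _, _, _⟩ := JJ_bounds hal
  constructor
  · intro h
    rw [mem_ball_iff_norm] at h
    have h1 := (abs_re_le_norm _).trans_lt h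
    have h2 := (abs_im_le_norm _).trans_lt h
    rw [sub_re, ofReal_re, abs_lt] at h1
    rw [sub_im, ofReal_im, abs_lt] at h2
    refine ⟨?_, by linarith, by linarith⟩
    rw [abs_lt]; constructor <;> linarith
  · intro h
    rw [mem_ball_iff_norm, sub_neg_eq_add] at h
    have h1 := (abs_re_le_norm _).trans_lt h
    have h2 := (abs_im_le_norm _).trans_lt h
    rw [add_re, ofReal_re, abs_lt] at h1
    rw [add_im, ofReal_im, abs_lt] at h2
    refine ⟨?_, by linarith, by linarith⟩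
    rw [abs_lt]; constructor <;> linarith

/-- general form of the last step: a function on `RR al ρ \ {± al}`, bounded by `M`, tending to `0` at `± al`, is
`≤ C M/ρ * ‖cos s - cos al‖` on the closed rectangle: near `± al` (distance `< ρ`) by `schwarz_punctured` (A07) on the ball of radius `ρ`
(contained in `RR al ρ`, the two balls are disjoint) and `cos_sub_bd`; at distance `≥ ρ` from both since `‖cos s - cos al‖ ≥ c ρ`. -/
theorem edge_bound : ∃ C : ℝ, 1 ≤ C ∧ ∀ al ∈ JJ, ∀ ρ M : ℝ, 0 < ρ → ρ ≤ 1/4 → 0 ≤ M → ∀ h : ℂ → ℂ,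
    (∀ s ∈ RR al ρ, s ≠ (al:ℂ) → s ≠ -(al:ℂ) → DifferentiableAt ℂ h s ∧ ‖h s‖ ≤ M) →
    Tendsto h (𝓝[≠] (al:ℂ)) (𝓝 0) → Tendsto h (𝓝[≠] (-(al:ℂ))) (𝓝 0) →
    ∀ s : ℂ, |s.re| ≤ al → -(1/2) ≤ s.im → s.im ≤ 0 → s ≠ (al:ℂ) → s ≠ -(al:ℂ) → ‖h s‖ ≤ C * M / ρ * ‖cos s - (Real.cos al : ℂ)‖ := by
  refine ⟨5, by norm_num, ?_⟩
  intro al hal ρ M hρ hρ4 hM h hh hl1 hl2 s s1 s2 s3 s4 s5
  obtain ⟨a1, a2, a3, _, _, _, _⟩ := JJ_bounds hal
  have hsR : s ∈ RR al ρ := ⟨by linarith, by linarith, by linarith⟩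
  have hlow := k02_cos_sub_lower hal (s := s) (by linarith)
  have hdist : 2 * al ≤ ‖s - al‖ + ‖s + al‖ := by
    have e : ((2 * al : ℝ) : ℂ) = (s + al) - (s - al) := by push_cast; ring
    have : ‖((2 * al : ℝ) : ℂ)‖ ≤ ‖s + al‖ + ‖s - al‖ := by
      rw [e]; exact norm_sub_le _ _
    rw [Complex.norm_real, Real.norm_eq_abs, abs_of_pos (by linarith)] at this
    linarith
  have hfin : ∀ m : ℝ, ‖h s‖ ≤ M / ρ * m → m ≤ min ‖s - al‖ ‖s + al‖ →
      ‖h s‖ ≤ 5 * M / ρ * ‖cos s - (Real.cos al : ℂ)‖ := by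
    intro m h1 h2
    refine h1.trans ?_
    have h3 : m ≤ 5 * ‖cos s - (Real.cos al : ℂ)‖ := by linarith
    calc M / ρ * m ≤ M / ρ * (5 * ‖cos s - (Real.cos al : ℂ)‖) := mul_le_mul_of_nonneg_left h3 (by positivity)
      _ = 5 * M / ρ * ‖cos s - (Real.cos al : ℂ)‖ := by ring
  have hdisj : ∀ z : ℂ, z ∈ Metric.ball (al:ℂ) ρ → z ≠ -(al:ℂ) := by
    intro z hz h0
    rw [h0, mem_ball_iff_norm] at hz
    have : ‖-(al:ℂ) - al‖ = 2 * al := by
      rw [show -(al:ℂ) - al = ((-(2 * al) : ℝ) : ℂ) by push_cast; ring, Complex.norm_real, Real.norm_eq_abs,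
        abs_neg, abs_of_pos (by linarith)]
    linarith
  have hdisj' : ∀ z : ℂ, z ∈ Metric.ball (-(al:ℂ)) ρ → z ≠ (al:ℂ) := by
    intro z hz h0
    rw [h0, mem_ball_iff_norm] at hz
    have : ‖(al:ℂ) - -(al:ℂ)‖ = 2 * al := by
      rw [show (al:ℂ) - -(al:ℂ) = ((2 * al : ℝ) : ℂ) by push_cast; ring, Complex.norm_real, Real.norm_eq_abs,
        abs_of_pos (by linarith)]
    linarith
  by_cases c1 : ‖s - al‖ < ρ
  · have h1 := schwarz_punctured (f := h) (c := (al:ℂ)) (M := M) hρ (fun z hz =>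
        ((hh z ((k02_ball hal hρ).1 hz.1) hz.2 (hdisj z hz.1)).1).differentiableWithinAt) hl1
      (fun z hz => (hh z ((k02_ball hal hρ).1 hz.1) hz.2 (hdisj z hz.1)).2) s
      ⟨mem_ball_iff_norm.2 c1, s4⟩
    refine hfin _ h1 (le_min le_rfl ?_)
    linarith
  · by_cases c2 : ‖s + al‖ < ρ
    · have h1 := schwarz_punctured (f := h) (c := -(al:ℂ)) (M := M) hρ (fun z hz =>
          ((hh z ((k02_ball hal hρ).2 hz.1) (hdisj' z hz.1) hz.2).1).differentiableWithinAt) hl2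
        (fun z hz => (hh z ((k02_ball hal hρ).2 hz.1) (hdisj' z hz.1) hz.2).2) s
        ⟨mem_ball_iff_norm.2 (by rw [sub_neg_eq_add]; exact c2), s5⟩
      rw [sub_neg_eq_add] at h1
      refine hfin _ h1 (le_min ?_ le_rfl)
      linarith
    · refine hfin ρ ?_ (le_min (not_lt.1 c1) (not_lt.1 c2))
      rw [div_mul_cancel₀ _ hρ.ne']
      exact (hh s hsR s4 s5).2

/-! ### difference of two kernels -/

theorem k02_NB_line {c D r : ℝ} {Z X A B : ℂ → ℂ} (hN : NB c 1 r Z X) (hD : DirBd D 1 r A B) {w : ℂ} {c' : ℝ}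
    (hw : c + ‖w‖ * D ≤ c') : NB c' 1 r (fun z => Z z + w * A z) (fun z => X z + w * B z) := by
  have key : ∀ a b d : ℂ, ‖a - d‖ ≤ c → ‖b‖ ≤ D → ‖a + w * b - d‖ ≤ c' := by
    intro a b d h1 h2
    rw [show a + w * b - d = (a - d) + w * b by ring]
    refine (norm_add_le _ _).trans (le_trans ?_ hw)
    rw [norm_mul]
    exact add_le_add h1 (mul_le_mul_of_nonneg_left h2 (norm_nonneg _))
  have hdiff : ∀ {f : ℂ → ℂ} {z : ℂ}, DifferentiableOn ℂ f (band 1 r) → z ∈ band 1 r → DifferentiableAt ℂ f z :=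
    fun hf hz => hf.differentiableAt ((isOpen_band 1 r).mem_nhds hz)
  have hder : ∀ {f g : ℂ → ℂ} {z : ℂ}, DifferentiableOn ℂ f (band 1 r) → DifferentiableOn ℂ g (band 1 r) → z ∈ band 1 r →
      deriv (fun z => f z + w * g z) z = deriv f z + w * deriv g z := by
    intro f g z hf hg hz
    exact ((hdiff hf hz).hasDerivAt.add ((hdiff hg hz).hasDerivAt.const_mul w)).deriv
  refine ⟨hN.dZ.add (hD.dA.const_mul w), hN.dX.add (hD.dB.const_mul w), ?_, ?_, ?_, ?_⟩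
  · exact fun z hz => key _ _ _ (hN.z0 z hz) (hD.a0 z hz)
  · exact fun z hz => key _ _ _ (hN.x0 z hz) (hD.b0 z hz)
  · intro z hz
    rw [hder hN.dZ hD.dA hz]
    have h1 := hN.z1 z hz
    rw [← sub_neg_eq_add] at h1
    have := key _ _ _ h1 (hD.a1 z hz)
    rwa [sub_neg_eq_add] at this
  · intro z hz
    rw [hder hN.dX hD.dB hz]
    exact key _ _ _ (hN.x1 z hz) (hD.b1 z hz)

/-- analyticity in the line parameter -/
theorem k02_line_diff {r ρ al : ℝ} (hal : al ∈ JJ) (hρ : 0 < ρ) (hρ4 : ρ ≤ 1/4) {Z X u A B v : ℂ → ℂ}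
    (hZ : DifferentiableOn ℂ Z (band 1 r)) (hX : DifferentiableOn ℂ X (band 1 r))
    (hA : DifferentiableOn ℂ A (band 1 r)) (hB : DifferentiableOn ℂ B (band 1 r)) {t s : ℂ}
    (ht : t ∈ band 2 (r - ρ)) (hs : s ∈ RR al ρ) {w : ℂ}
    (hP : k02Pt (1/100) al (fun z => Z z + w * A z) (fun z => X z + w * B z) t s) :
    DifferentiableAt ℂ (fun w => Th al (fun z => Z z + w * A z) (fun z => X z + w * B z) (fun z => u z + w * v z) t s) w := by
  have hts : t + s ∈ band (5/4) r := k02_mem hρ4 ht hs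
  have ht1 : t ∈ band 1 r := ⟨by linarith [ht.1], by linarith [ht.2]⟩
  have hs0 : sin t ≠ 0 := sin_ne_zero_of_im (by linarith [ht.1])
  have hs1 : sin (t + s) ≠ 0 := sin_ne_zero_of_im (by linarith [hts.1])
  have hdiff : ∀ {f : ℂ → ℂ} {z : ℂ}, DifferentiableOn ℂ f (band 1 r) → z ∈ band 1 r → DifferentiableAt ℂ f z :=
    fun hf hz => hf.differentiableAt ((isOpen_band 1 r).mem_nhds hz)
  have hder : ∀ {f g : ℂ → ℂ} {z : ℂ}, DifferentiableOn ℂ f (band 1 r) → DifferentiableOn ℂ g (band 1 r) → z ∈ band 1 r →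
      ∀ w : ℂ, deriv (fun z => f z + w * g z) z = deriv f z + w * deriv g z := by
    intro f g z hf hg hz w
    exact ((hdiff hf hz).hasDerivAt.add ((hdiff hg hz).hasDerivAt.const_mul w)).deriv
  have hp1 : t + (al:ℂ) ∈ band 1 r := add_real_mem_band ht1 al
  have hm1 : t - (al:ℂ) ∈ band 1 r := sub_real_mem_band ht1 al
  have e1 : (fun w => Th al (fun z => Z z + w * A z) (fun z => X z + w * B z) (fun z => u z + w * v z) t s) =
      fun w => k02F (cos s - (Real.cos al : ℂ)) (q0 t s ^ 2) (chi al (fun z => Z z + w * A z) (fun z => X z + w * B z) t s)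
        (nu al (fun z => Z z + w * A z) t) (xi (fun z => X z + w * B z) (t + s))
        (chip al (fun z => Z z + w * A z) (fun z => X z + w * B z) t)
        (chim al (fun z => Z z + w * A z) (fun z => X z + w * B z) t) (u (t + (al:ℂ)) + w * v (t + (al:ℂ)))
        (u (t - (al:ℂ)) + w * v (t - (al:ℂ))) (u (t + s) + w * v (t + s)) :=
    funext fun w => k02_Th al _ _ _ t s
  rw [e1]
  refine k02_F_diff (differentiableAt_const _) (differentiableAt_const _) ?_ ?_ ?_ ?_ ?_ (by fun_prop) (by fun_prop)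
    (by fun_prop) (k02_kq hal hρ4 ht hs) hP.chi hP.nu hP.xi hP.chip hP.chim
  · unfold chi Hq et nz nx md df
    fun_prop
  · have e2 : (fun w => nu al (fun z => Z z + w * A z) t) =
        fun w => nx al (fun z => Z z + w * A z) t / ((Real.sin al : ℂ) * sin t) := funext fun w => nu_eq hs0
    rw [e2]
    unfold nx df
    fun_prop
  · have e2 : (fun w => xi (fun z => X z + w * B z) (t + s)) = fun w => (X (t + s) + w * B (t + s)) / sin (t + s) :=
      funext fun w => xi_eq hs1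
    rw [e2]
    fun_prop
  · have e2 : (fun w => chip al (fun z => Z z + w * A z) (fun z => X z + w * B z) t) = fun w =>
        - (nz al (fun z => X z + w * B z) t * (deriv Z (t + (al : ℂ)) + w * deriv A (t + (al:ℂ))) +
          nx al (fun z => Z z + w * A z) t * (deriv X (t + (al : ℂ)) + w * deriv B (t + (al:ℂ)))) / (Real.sin al : ℂ) ^ 2 := by
      funext w
      rw [chip, hder hZ hA hp1, hder hX hB hp1]
    rw [e2]
    unfold nz nx df
    fun_prop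
  · have e2 : (fun w => chim al (fun z => Z z + w * A z) (fun z => X z + w * B z) t) = fun w =>
        (nz al (fun z => X z + w * B z) t * (deriv Z (t - (al : ℂ)) + w * deriv A (t - (al:ℂ))) +
          nx al (fun z => Z z + w * A z) t * (deriv X (t - (al : ℂ)) + w * deriv B (t - (al:ℂ)))) / (Real.sin al : ℂ) ^ 2 := by
      funext w
      rw [chim, hder hZ hA hm1, hder hX hB hm1]
    rw [e2]
    unfold nz nx df
    fun_prop

/-- difference of two kernels: along the line `(Z + w A, X + w B, u + w v)`, `|w| < c0/D`, `Th` is analytic in `w` and bounded, so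
`‖Th' - Th‖ ≤ 8 C/(c0/D)` (`taylor_one`) -/
theorem Th_diff (R : ℝ) (hR : 3 ≤ R) : ∃ c0 C : ℝ, 0 < c0 ∧ 1 ≤ C ∧ ∀ al ∈ JJ, ∀ r D ρ : ℝ, 3 ≤ r → r ≤ R → 0 ≤ D → D ≤ c0 →
    0 < ρ → ρ ≤ 1/4 → ∀ Z X u A B v : ℂ → ℂ, NB c0 1 r Z X → DifferentiableOn ℂ u (band 1 r) → (∀ z ∈ band 1 r, ‖u z‖ ≤ c0) →
    DirBd D 1 r A B → DifferentiableOn ℂ v (band 1 r) → (∀ z ∈ band 1 r, ‖v z‖ ≤ D) → ∀ t ∈ band 2 (r - ρ),
      ∀ s ∈ RR al ρ, s ≠ (al:ℂ) → s ≠ -(al:ℂ) →
        ‖Th al (fun z => Z z + A z) (fun z => X z + B z) (fun z => u z + v z) t s - Th al Z X u t s‖ ≤ C * D := by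
  obtain ⟨c1, C1, hc1, hC1, hCc, H⟩ := k02_data R hR
  obtain ⟨c2, C2, hc2, hC2, H2⟩ := Th_basic R hR
  set m : ℝ := min c1 c2 with hm
  have hm0 : 0 < m := lt_min hc1 hc2
  refine ⟨m / 4, 16 * C2, by positivity, by linarith, ?_⟩
  intro al hal r D ρ hr hrR hD hDc hρ hρ4 Z X u A B v hN hu hub hAB hv hvb t ht s hs hs1 hs2
  -- the case of positive bounds
  have main : ∀ D' : ℝ, 0 < D' → D ≤ D' → D' ≤ m / 4 →
      ‖Th al (fun z => Z z + A z) (fun z => X z + B z) (fun z => u z + v z) t s - Th al Z X u t s‖ ≤ 16 * C2 * D' := by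
    intro D' hD' hDD hDm
    have hAB' : DirBd D' 1 r A B := hAB.mono hDD le_rfl le_rfl
    have hNw : ∀ w : ℂ, w ∈ Metric.ball (0:ℂ) (m / (2 * D')) →
        NB m 1 r (fun z => Z z + w * A z) (fun z => X z + w * B z) ∧
        (∀ z ∈ band 1 r, ‖u z + w * v z‖ ≤ m) := by
      intro w hw
      rw [mem_ball_zero_iff, lt_div_iff₀ (by positivity)] at hw
      refine ⟨k02_NB_line hN hAB' (by linarith), fun z hz => ?_⟩
      refine (norm_add_le _ _).trans ?_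
      rw [norm_mul]
      have h1 := hub z hz
      have h2 : ‖w‖ * ‖v z‖ ≤ ‖w‖ * D' := mul_le_mul_of_nonneg_left ((hvb z hz).trans hDD) (norm_nonneg _)
      linarith
    have hT : 2 ≤ m / (2 * D') := by
      rw [le_div_iff₀ (by positivity)]
      linarith
    set g : ℂ → ℂ := fun w => Th al (fun z => Z z + w * A z) (fun z => X z + w * B z) (fun z => u z + w * v z) t s with hg
    have hgd : DifferentiableOn ℂ g (Metric.ball 0 (m / (2 * D'))) := by
      intro w hw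
      obtain ⟨n1, n2⟩ := hNw w hw
      have hP := (H al hal r m ρ hr hrR hm0.le (min_le_left _ _) hρ hρ4 _ _ n1 t ht).1 s hs hs1 hs2
      have hle : C1 * m ≤ 1/100 := (mul_le_mul_of_nonneg_left (min_le_left _ _) (by linarith)).trans hCc
      exact (k02_line_diff hal hρ hρ4 hN.dZ hN.dX hAB.dA hAB.dB ht hs
        ⟨hP.nu.trans hle, hP.chip.trans hle, hP.chim.trans hle, hP.chi.trans hle, hP.xi.trans hle⟩).differentiableWithinAt
    have hgb : ∀ w ∈ Metric.ball (0:ℂ) (m / (2 * D')), ‖g w‖ ≤ C2 * m := by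
      intro w hw
      obtain ⟨n1, n2⟩ := hNw w hw
      exact ((H2 al hal r m ρ hr hrR hm0.le (min_le_right _ _) hρ hρ4 _ _ _ n1 (hu.add (hv.const_mul w)) n2 t ht).1
        s hs hs1 hs2).2.1
    have h1 := (taylor_one hT hgd hgb).1
    have e1 : g 1 = Th al (fun z => Z z + A z) (fun z => X z + B z) (fun z => u z + v z) t s := by
      rw [hg]; simp only [one_mul]
    have e0 : g 0 = Th al Z X u t s := by
      rw [hg]; simp only [zero_mul, add_zero]
    rw [e1, e0] at h1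
    refine h1.trans (le_of_eq ?_)
    field_simp
    ring
  rcases hD.lt_or_eq with h | h
  · exact main D h le_rfl hDc
  · rw [← h, mul_zero]
    by_contra hcon
    push Not at hcon
    set N := ‖Th al (fun z => Z z + A z) (fun z => X z + B z) (fun z => u z + v z) t s - Th al Z X u t s‖ with hNdef
    have hpos : 0 < min (m / 4) (N / (32 * C2)) := lt_min (by positivity) (by positivity)
    have h2 := main _ hpos (by rw [← h]; exact hpos.le) (min_le_left _ _)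
    have h3 : 16 * C2 * min (m / 4) (N / (32 * C2)) ≤ 16 * C2 * (N / (32 * C2)) :=
      mul_le_mul_of_nonneg_left (min_le_right _ _) (by positivity)
    have h4 : 16 * C2 * (N / (32 * C2)) = N / 2 := by field_simp; norm_num
    linarith

end FB
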