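import Pool.Agent.H48.FB.K01
import Pool.Agent.H48.FB.A11

/-! K03: the Legendre matrix of an operator with a good kernel. -/

open Complex Set MeasureTheory Filter Topology

noncomputable section

namespace FB

/-- `x^{7/2} ≤ 385 e^{x/2}` -/
theorem k03_rpow_le {x : ℝ} (hx : 0 ≤ x) : x ^ ((7:ℝ)/2) ≤ 385 * Real.exp (x / 2) := by
  have h1 : 1 ≤ Real.exp (x / 2) := Real.one_le_exp (by linarith)
  have h2 := Real.pow_div_factorial_le_exp (x / 2) (by linarith) 4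
  have h3 : x ^ 4 ≤ 384 * Real.exp (x / 2) := by
    have : (x / 2) ^ 4 / ((Nat.factorial 4 : ℕ) : ℝ) = x ^ 4 / 384 := by
      norm_num [Nat.factorial]; ring
    rw [this] at h2
    linarith [(div_le_iff₀ (by norm_num : (0:ℝ) < 384)).1 h2]
  rcases le_total x 1 with h | h
  · have : x ^ ((7:ℝ)/2) ≤ 1 := Real.rpow_le_one hx h (by norm_num)
    linarith
  · have : x ^ ((7:ℝ)/2) ≤ x ^ (4:ℝ) := Real.rpow_le_rpow_of_exponent_le h (by norm_num)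
    have e : x ^ (4:ℝ) = x ^ 4 := by
      rw [show (4:ℝ) = ((4:ℕ):ℝ) by norm_num, Real.rpow_natCast]
    rw [e] at this
    linarith

/-- the comparison sequence -/
def k03g (ρ : ℝ) (k : ℕ) : ℝ := (1 + 2 * (k:ℝ)) ^ ((7:ℝ)/2) * Real.exp (-(2 * k * ρ))

theorem k03g_nonneg (ρ : ℝ) (k : ℕ) : 0 ≤ k03g ρ k := by
  unfold k03g
  positivity

theorem k03g_le {ρ : ℝ} (hρ : 0 < ρ) (k : ℕ) :
    k03g ρ k ≤ 385 * ρ ^ (-(7:ℝ)/2) * Real.exp (ρ / 2) * (Real.exp (-ρ)) ^ k := by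
  have h0 : (0:ℝ) ≤ 1 + 2 * (k:ℝ) := by positivity
  have h1 := k03_rpow_le (mul_nonneg h0 hρ.le)
  rw [Real.mul_rpow h0 hρ.le] at h1
  have hp : 0 < ρ ^ ((7:ℝ)/2) := Real.rpow_pos_of_pos hρ _
  have h2 : (1 + 2 * (k:ℝ)) ^ ((7:ℝ)/2) ≤ 385 * ρ ^ (-(7:ℝ)/2) * Real.exp ((1 + 2 * (k:ℝ)) * ρ / 2) := by
    have e : ρ ^ (-(7:ℝ)/2) = (ρ ^ ((7:ℝ)/2))⁻¹ := by
      rw [show (-(7:ℝ)/2) = -((7:ℝ)/2) by ring, Real.rpow_neg hρ.le]
    rw [e]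
    rw [show 385 * (ρ ^ ((7:ℝ)/2))⁻¹ * Real.exp ((1 + 2 * (k:ℝ)) * ρ / 2) =
      (385 * Real.exp ((1 + 2 * (k:ℝ)) * ρ / 2)) / ρ ^ ((7:ℝ)/2) by field_simp]
    rw [le_div_iff₀ hp]
    exact h1
  unfold k03g
  calc (1 + 2 * (k:ℝ)) ^ ((7:ℝ)/2) * Real.exp (-(2 * k * ρ))
      ≤ (385 * ρ ^ (-(7:ℝ)/2) * Real.exp ((1 + 2 * (k:ℝ)) * ρ / 2)) * Real.exp (-(2 * k * ρ)) :=
        mul_le_mul_of_nonneg_right h2 (Real.exp_pos _).le
    _ = 385 * ρ ^ (-(7:ℝ)/2) * Real.exp (ρ / 2) * (Real.exp (-ρ)) ^ k := by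
        rw [← Real.exp_nat_mul, mul_assoc, mul_assoc (385 * ρ ^ (-(7:ℝ)/2)), ← Real.exp_add, ← Real.exp_add]
        congr 2
        ring

theorem k03g_summable {ρ : ℝ} (hρ : 0 < ρ) : Summable (k03g ρ) := by
  have hg : Summable (fun k : ℕ => (Real.exp (-ρ)) ^ k) :=
    summable_geometric_of_lt_one (Real.exp_pos _).le (by rw [Real.exp_lt_one_iff]; linarith)
  exact Summable.of_nonneg_of_le (k03g_nonneg ρ) (k03g_le hρ) (hg.mul_left _)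

theorem k03g_tsum {ρ : ℝ} (hρ : 0 < ρ) (hρ1 : ρ ≤ 1/4) : ∑' k, k03g ρ k ≤ 1540 * ρ ^ (-(9:ℝ)/2) := by
  have hlt : Real.exp (-ρ) < 1 := by rw [Real.exp_lt_one_iff]; linarith
  have hg : HasSum (fun k : ℕ => (Real.exp (-ρ)) ^ k) (1 - Real.exp (-ρ))⁻¹ :=
    hasSum_geometric_of_lt_one (Real.exp_pos _).le hlt
  have hg2 := hg.mul_left (385 * ρ ^ (-(7:ℝ)/2) * Real.exp (ρ / 2))
  have h1 : ∑' k, k03g ρ k ≤ 385 * ρ ^ (-(7:ℝ)/2) * Real.exp (ρ / 2) * (1 - Real.exp (-ρ))⁻¹ := by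
    rw [← hg2.tsum_eq]
    exact (k03g_summable hρ).tsum_le_tsum (k03g_le hρ) hg2.summable
  have h2 : Real.exp (ρ / 2) ≤ 2 := by
    have : Real.exp (ρ / 2) ≤ Real.exp (1/2) := Real.exp_le_exp.2 (by linarith)
    have h3 : Real.exp (1/2) ≤ 2 := by
      have h4 : Real.exp (1/2) * Real.exp (1/2) = Real.exp 1 := by rw [← Real.exp_add]; norm_num
      nlinarith [Real.exp_one_lt_d9, Real.exp_pos (1/2)]
    linarith
  have h3 : (1 - Real.exp (-ρ))⁻¹ ≤ 2 / ρ := by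
    rw [inv_le_comm₀ (by linarith) (by positivity)]
    have : Real.exp (-ρ) ≤ 1 - ρ / 2 := by
      have h5 : 1 + ρ ≤ Real.exp ρ := by linarith [Real.add_one_le_exp ρ]
      rw [Real.exp_neg]
      rw [inv_le_comm₀ (Real.exp_pos _) (by linarith)]
      calc (1 - ρ / 2)⁻¹ ≤ 1 + ρ := by
            rw [inv_le_iff_one_le_mul₀ (by linarith)]
            nlinarith
        _ ≤ Real.exp ρ := h5
    rw [show (2 / ρ)⁻¹ = ρ / 2 by field_simp]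
    linarith
  have hp : 0 < ρ ^ (-(7:ℝ)/2) := Real.rpow_pos_of_pos hρ _
  have h4 : ρ ^ (-(9:ℝ)/2) = ρ ^ (-(7:ℝ)/2) / ρ := by
    rw [show (-(9:ℝ)/2) = (-(7:ℝ)/2) - 1 by ring, Real.rpow_sub_one hρ.ne']
  calc ∑' k, k03g ρ k ≤ 385 * ρ ^ (-(7:ℝ)/2) * Real.exp (ρ / 2) * (1 - Real.exp (-ρ))⁻¹ := h1
    _ ≤ 385 * ρ ^ (-(7:ℝ)/2) * 2 * (2 / ρ) := by
        apply mul_le_mul _ h3 (inv_nonneg.2 (by linarith)) (by positivity)
        exact mul_le_mul_of_nonneg_left h2 (by positivity)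
    _ = 1540 * ρ ^ (-(9:ℝ)/2) := by
        rw [h4]
        ring

/-- summation of a sequence dominated by `K * g |j - m|` -/
theorem k03_sum {a : ℕ → ℝ} {K ρ : ℝ} (hρ : 0 < ρ) (hK : 0 ≤ K) (m : ℕ) (ha : ∀ j, 0 ≤ a j)
    (h1 : ∀ k, a (k + m) ≤ K * k03g ρ k) (h2 : ∀ j < m, a j ≤ K * k03g ρ (m - j)) :
    Summable a ∧ ∑' j, a j ≤ K * (2 * ∑' k, k03g ρ k) := by
  have hs := k03g_summable hρ
  have hsm : Summable (fun k => a (k + m)) :=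
    Summable.of_nonneg_of_le (fun k => ha _) h1 (hs.mul_left K)
  have hsa : Summable a := (summable_nat_add_iff m).1 hsm
  refine ⟨hsa, ?_⟩
  rw [← hsa.sum_add_tsum_nat_add m]
  have e1 : ∑' k, a (k + m) ≤ K * ∑' k, k03g ρ k := by
    rw [← tsum_mul_left]
    exact hsm.tsum_le_tsum h1 (hs.mul_left K)
  have e2 : ∑ j ∈ Finset.range m, a j ≤ K * ∑' k, k03g ρ k := by
    calc ∑ j ∈ Finset.range m, a j ≤ ∑ j ∈ Finset.range m, K * k03g ρ (m - 1 - j + 1) := by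
          apply Finset.sum_le_sum
          intro j hj
          have hj' := Finset.mem_range.1 hj
          have := h2 j hj'
          rwa [show m - 1 - j + 1 = m - j by omega]
      _ = ∑ j ∈ Finset.range m, K * k03g ρ (j + 1) :=
          Finset.sum_range_reflect (fun j => K * k03g ρ (j + 1)) m
      _ = K * ∑ j ∈ Finset.range m, k03g ρ (j + 1) := by rw [Finset.mul_sum]
      _ ≤ K * ∑' k, k03g ρ k := by
          apply mul_le_mul_of_nonneg_left _ hK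
          calc ∑ j ∈ Finset.range m, k03g ρ (j + 1) ≤ ∑ j ∈ Finset.range (m + 1), k03g ρ j := by
                rw [Finset.sum_range_succ']
                linarith [k03g_nonneg ρ 0]
            _ ≤ ∑' k, k03g ρ k := hs.sum_le_tsum _ (fun k _ => k03g_nonneg ρ k)
  linarith

/-- the majorant of the cosine coefficients -/
def k03F (K r : ℝ) (m j : ℕ) : ℝ :=
  if m ≤ j then K * Real.exp (2 * ((m:ℝ) - j) * r) else K * Real.exp (4 * ((m:ℝ) - j))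

theorem k03F_nonneg {K : ℝ} (hK : 0 ≤ K) (r : ℝ) (m j : ℕ) : 0 ≤ k03F K r m j := by
  unfold k03F
  split_ifs <;> positivity

/-- limit in `y` of the Fourier bound -/
theorem k03_lim {x K r : ℝ} (hr : 2 < r) {m j : ℕ} (h : ∀ y ∈ Ioo (2:ℝ) r, x ≤ K * Real.exp (2 * ((m:ℝ) - j) * y)) :
    x ≤ k03F K r m j := by
  have hc : Continuous (fun y : ℝ => K * Real.exp (2 * ((m:ℝ) - j) * y)) := by fun_prop
  unfold k03F
  split_ifs with hm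
  · have hT : Tendsto (fun y : ℝ => K * Real.exp (2 * ((m:ℝ) - j) * y)) (𝓝[<] r) (𝓝 (K * Real.exp (2 * ((m:ℝ) - j) * r))) :=
      (hc.tendsto r).mono_left nhdsWithin_le_nhds
    refine ge_of_tendsto hT ?_
    filter_upwards [Ioo_mem_nhdsLT hr] with y hy
    exact h y hy
  · have hT : Tendsto (fun y : ℝ => K * Real.exp (2 * ((m:ℝ) - j) * y)) (𝓝[>] 2) (𝓝 (K * Real.exp (2 * ((m:ℝ) - j) * 2))) :=
      (hc.tendsto 2).mono_left nhdsWithin_le_nhds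
    have h2 : x ≤ K * Real.exp (2 * ((m:ℝ) - j) * 2) := by
      refine ge_of_tendsto hT ?_
      filter_upwards [Ioo_mem_nhdsGT hr] with y hy
      exact h y hy
    rwa [show 2 * ((m:ℝ) - j) * 2 = 4 * ((m:ℝ) - j) by ring] at h2

theorem k03_weight {m k : ℕ} : (1 + 2 * (((k + m : ℕ)) : ℝ)) ^ ((7:ℝ)/2) ≤
    (1 + 2 * (m:ℝ)) ^ ((7:ℝ)/2) * (1 + 2 * (k:ℝ)) ^ ((7:ℝ)/2) := by
  rw [← Real.mul_rpow (by positivity) (by positivity)]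
  apply Real.rpow_le_rpow (by positivity) _ (by norm_num)
  push_cast
  nlinarith [mul_nonneg (Nat.cast_nonneg (α := ℝ) m) (Nat.cast_nonneg (α := ℝ) k)]

/-- the sum of the majorants, upper part -/
theorem k03_up {K r r' ρ : ℝ} (hK : 0 ≤ K) (h : ρ ≤ r - r') (m k : ℕ) :
    (1 + 2 * (((k + m : ℕ)) : ℝ)) ^ ((7:ℝ)/2) * (k03F K r m (k + m) * Real.exp (2 * ((k + m : ℕ) : ℝ) * r')) ≤
      (K * (1 + 2 * (m:ℝ)) ^ ((7:ℝ)/2) * Real.exp (2 * m * r')) * k03g ρ k := by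
  unfold k03F k03g
  rw [if_pos (Nat.le_add_left m k)]
  have e1 : Real.exp (2 * ((m:ℝ) - ((k + m : ℕ) : ℝ)) * r) * Real.exp (2 * ((k + m : ℕ) : ℝ) * r') ≤
      Real.exp (2 * m * r') * Real.exp (-(2 * k * ρ)) := by
    rw [← Real.exp_add, ← Real.exp_add, Real.exp_le_exp]
    push_cast
    nlinarith [mul_le_mul_of_nonneg_left h (Nat.cast_nonneg (α := ℝ) k)]
  calc (1 + 2 * (((k + m : ℕ)) : ℝ)) ^ ((7:ℝ)/2) * ((K * Real.exp (2 * ((m:ℝ) - ((k + m : ℕ) : ℝ)) * r)) * Real.exp (2 * ((k + m : ℕ) : ℝ) * r'))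
      = (K * (1 + 2 * (((k + m : ℕ)) : ℝ)) ^ ((7:ℝ)/2)) * (Real.exp (2 * ((m:ℝ) - ((k + m : ℕ) : ℝ)) * r) * Real.exp (2 * ((k + m : ℕ) : ℝ) * r')) := by ring
    _ ≤ (K * ((1 + 2 * (m:ℝ)) ^ ((7:ℝ)/2) * (1 + 2 * (k:ℝ)) ^ ((7:ℝ)/2))) * (Real.exp (2 * m * r') * Real.exp (-(2 * k * ρ))) := by
        apply mul_le_mul _ e1 (by positivity) (by positivity)
        exact mul_le_mul_of_nonneg_left k03_weight hK
    _ = _ := by ring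

/-- the sum of the majorants, lower part -/
theorem k03_low {K r r' ρ : ℝ} (hK : 0 ≤ K) (hr' : 2 + ρ ≤ r') {m j : ℕ} (hj : j < m) :
    (1 + 2 * (j : ℝ)) ^ ((7:ℝ)/2) * (k03F K r m j * Real.exp (2 * (j : ℝ) * r')) ≤
      (K * (1 + 2 * (m:ℝ)) ^ ((7:ℝ)/2) * Real.exp (2 * m * r')) * k03g ρ (m - j) := by
  unfold k03F k03g
  rw [if_neg (by omega)]
  obtain ⟨k, rfl⟩ : ∃ k, m = j + k := ⟨m - j, by omega⟩
  have e0 : j + k - j = k := by omega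
  rw [e0]
  have e1 : Real.exp (4 * (((j + k : ℕ) : ℝ) - (j:ℝ))) * Real.exp (2 * (j : ℝ) * r') ≤
      Real.exp (2 * ((j + k : ℕ) : ℝ) * r') * Real.exp (-(2 * k * ρ)) := by
    rw [← Real.exp_add, ← Real.exp_add, Real.exp_le_exp]
    push_cast
    nlinarith [mul_le_mul_of_nonneg_left hr' (Nat.cast_nonneg (α := ℝ) k)]
  have e2 : (1 + 2 * (j : ℝ)) ^ ((7:ℝ)/2) ≤ (1 + 2 * ((j + k : ℕ) : ℝ)) ^ ((7:ℝ)/2) * (1 + 2 * (k:ℝ)) ^ ((7:ℝ)/2) := by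
    have h1 : (1 + 2 * (j : ℝ)) ^ ((7:ℝ)/2) ≤ (1 + 2 * ((j + k : ℕ) : ℝ)) ^ ((7:ℝ)/2) := by
      apply Real.rpow_le_rpow (by positivity) _ (by norm_num)
      push_cast
      linarith [Nat.cast_nonneg (α := ℝ) k]
    have h2 : 1 ≤ (1 + 2 * (k:ℝ)) ^ ((7:ℝ)/2) :=
      Real.one_le_rpow (by linarith [Nat.cast_nonneg (α := ℝ) k]) (by norm_num)
    calc (1 + 2 * (j : ℝ)) ^ ((7:ℝ)/2) ≤ (1 + 2 * ((j + k : ℕ) : ℝ)) ^ ((7:ℝ)/2) := h1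
      _ ≤ _ := le_mul_of_one_le_right (by positivity) h2
  calc (1 + 2 * (j : ℝ)) ^ ((7:ℝ)/2) * ((K * Real.exp (4 * (((j + k : ℕ) : ℝ) - (j:ℝ)))) * Real.exp (2 * (j : ℝ) * r'))
      = (K * (1 + 2 * (j : ℝ)) ^ ((7:ℝ)/2)) * (Real.exp (4 * (((j + k : ℕ) : ℝ) - (j:ℝ))) * Real.exp (2 * (j : ℝ) * r')) := by ring
    _ ≤ (K * ((1 + 2 * ((j + k : ℕ) : ℝ)) ^ ((7:ℝ)/2) * (1 + 2 * (k:ℝ)) ^ ((7:ℝ)/2))) * (Real.exp (2 * ((j + k : ℕ) : ℝ) * r') * Real.exp (-(2 * k * ρ))) := by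
        apply mul_le_mul _ e1 (by positivity) (by positivity)
        exact mul_le_mul_of_nonneg_left e2 hK
    _ = _ := by ring

/-- Fix `m`; `f e t = ∫ kk^3 Ker PL m (t+s)` satisfies `‖f e t‖ ≤ C B cc_{2m} e^{2m Im t} (1+2m)^{-7/2}` on `band 2 r` (`kernel_PL`, `WW m y = cc (2m) e^{2my}`).
`fourierEven` (A11) on `band 2 r`: real coefficients `φ e j`, continuous in `e`, `|φ e j| ≤ C B cc_{2m} (1+2m)^{-7/2} e^{2(m-j)y}` for every `y ∈ (2, r)`, so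
`≤ F j` with `F j = const * e^{2(m-j) r}` for `j ≥ m`, `const * e^{4(m-j)}` for `j < m`. For `5/2 ≤ r' < r - ρ`:
`∑_{j ≥ m} (1+2j)^{7/2} F j e^{2jr'} ≤ const e^{2mr'} ∑ (1+2j)^{7/2} e^{-2(j-m)ρ} ≤ const' (1+2m)^{7/2} e^{2mr'} ρ^{-9/2}`
(`(1+2j) ≤ (1+2m)(1+2(j-m))`, `∑_k (1+2k)^{7/2} e^{-2kρ} ≤ C ρ^{-9/2}`), and
`∑_{j<m} (1+2j)^{7/2} F j e^{2jr'} ≤ const e^{2mr'} (1+2m)^{7/2} ∑_k e^{-k}`. Then `legConv` (A10) with `b = r`. -/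
theorem kernel_matrix : ∃ C : ℝ, 0 < C ∧ ∀ al ∈ JJ, ∀ r ρ B : ℝ, 3 ≤ r → r ≤ 5 → 0 < ρ → ρ ≤ 1/4 → 0 ≤ B → ∀ Ker : EE → ℂ → ℂ → ℂ,
    (∀ e, ∀ t ∈ band 2 r, ∀ s : ℂ, |s.re| ≤ al → -(1/2) ≤ s.im → s.im ≤ 0 → s ≠ (al:ℂ) → s ≠ -(al:ℂ) →
      DifferentiableAt ℂ (Ker e t) s ∧ ‖Ker e t s‖ ≤ B * ‖cos s - (Real.cos al : ℂ)‖) →
    (∀ m : ℕ, Fam (band 2 r) (fun e t => ∫ s in (-al)..al, kk al (s:ℂ) ^ 3 * Ker e t (s:ℂ) * PL m (t + (s:ℂ)))) →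
    (∀ e (m : ℕ), EvenExt 2 r (fun t => ∫ s in (-al)..al, kk al (s:ℂ) ^ 3 * Ker e t (s:ℂ) * PL m (t + (s:ℂ)))) →
    (∀ e (m : ℕ), ∀ t ∈ band 2 r, (∫ s in (-al)..al, kk al (s:ℂ) ^ 3 * Ker e (t + (Real.pi:ℂ)) (s:ℂ) * PL m (t + (Real.pi:ℂ) + (s:ℂ))) =
      ∫ s in (-al)..al, kk al (s:ℂ) ^ 3 * Ker e t (s:ℂ) * PL m (t + (s:ℂ))) →
    (∀ e (m : ℕ), ∀ t ∈ band 2 r, (∫ s in (-al)..al, kk al (s:ℂ) ^ 3 * Ker e (-(starRingEnd ℂ) t) (s:ℂ) * PL m (-(starRingEnd ℂ) t + (s:ℂ))) =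
      (starRingEnd ℂ) (∫ s in (-al)..al, kk al (s:ℂ) ^ 3 * Ker e t (s:ℂ) * PL m (t + (s:ℂ)))) →
    ∃ Rd : EE → ℕ → ℕ → ℝ, ∃ RD : ℕ → ℕ → ℝ, (∀ n m, Continuous (fun e => Rd e n m)) ∧ (∀ e n m, |Rd e n m| ≤ RD n m) ∧
      (∀ r' : ℝ, 5/2 ≤ r' → r' < r - ρ → ∀ m : ℕ, Summable (fun n : ℕ => (1 + 2 * (n:ℝ)) ^ ((7:ℝ)/2) * RD n m * WW n r') ∧
        ∑' n : ℕ, (1 + 2 * (n:ℝ)) ^ ((7:ℝ)/2) * RD n m * WW n r' ≤ C * B * ρ ^ (-(9:ℝ)/2) * WW m r') ∧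
      ∀ e (m : ℕ), ∀ t ∈ band 2 r, HasSum (fun n => ((Rd e n m : ℝ) : ℂ) * PL n t)
        (∫ s in (-al)..al, kk al (s:ℂ) ^ 3 * Ker e t (s:ℂ) * PL m (t + (s:ℂ))) := by
  obtain ⟨C0, hC0, hk⟩ := kernel_PL
  refine ⟨6160 * C0, by positivity, ?_⟩
  intro al hal r ρ B hr3 hr5 hρ hρ4 hB Ker hKer hFam hEven hpi hconj
  -- one `m` at a time
  have key : ∀ m : ℕ, ∃ l : EE → ℕ → ℝ, ∃ L : ℕ → ℝ, (∀ n, Continuous (fun e => l e n)) ∧ (∀ e n, |l e n| ≤ L n) ∧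
      (∀ r' : ℝ, 5/2 ≤ r' → r' < r - ρ → Summable (fun n : ℕ => (1 + 2 * (n:ℝ)) ^ ((7:ℝ)/2) * L n * WW n r') ∧
        ∑' n : ℕ, (1 + 2 * (n:ℝ)) ^ ((7:ℝ)/2) * L n * WW n r' ≤ 6160 * C0 * B * ρ ^ (-(9:ℝ)/2) * WW m r') ∧
      ∀ e, ∀ t ∈ band 2 r, HasSum (fun n => ((l e n : ℝ) : ℂ) * PL n t)
        (∫ s in (-al)..al, kk al (s:ℂ) ^ 3 * Ker e t (s:ℂ) * PL m (t + (s:ℂ))) := by
    intro m
    obtain ⟨φ, hφc, hφ, hφb, -⟩ := fourierEven (a := 2) (b := r) (by norm_num) (by linarith) (hFam m)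
      (fun e z hz => hpi e m z hz) (fun e => hEven e m) (fun e z hz => hconj e m z hz)
    have hpos : (0:ℝ) < 1 + 2 * (m:ℝ) := by positivity
    set K : ℝ := C0 * B * (cc (2 * m) * (1 + 2 * (m:ℝ)) ^ (-(7:ℝ)/2)) with hKdef
    have hcc : 0 < cc (2 * m) := cc_pos _
    have hK0 : 0 ≤ K := by positivity
    have hbd : ∀ e j, |φ e j| ≤ k03F K r m j := by
      intro e j
      apply k03_lim (by linarith)
      intro y hy
      have hyb := hφb e j y hy (C0 * B * (WW m y * (1 + 2 * (m:ℝ)) ^ (-(7:ℝ)/2))) (fun x => by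
        have him : ((x:ℂ) + (y:ℂ) * I).im = y := by simp
        have hmem : ((x:ℂ) + (y:ℂ) * I) ∈ band 2 r := ⟨by rw [him]; exact hy.1, by rw [him]; exact hy.2⟩
        have := hk al hal B hB (Ker e ((x:ℂ) + (y:ℂ) * I)) (hKer e _ hmem) m ((x:ℂ) + (y:ℂ) * I) hmem.1.le
        rw [him] at this
        exact this)
      refine hyb.trans (le_of_eq ?_)
      rw [hKdef]
      unfold WW
      have : Real.exp (2 * ((m:ℝ) - j) * y) = Real.exp (2 * (m:ℝ) * y) * Real.exp (-(2 * (j:ℝ) * y)) := by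
        rw [← Real.exp_add]; congr 1; ring
      rw [this]
      ring
    have hF : ∀ r1 : ℝ, 1 ≤ r1 → r1 < r →
        Summable (fun j : ℕ => (1 + 2 * (j:ℝ)) ^ ((7:ℝ)/2) * (k03F K r m j * Real.exp (2 * j * r1))) := by
      intro r1 h1 h2
      have hsm : Summable (fun k : ℕ => (1 + 2 * (((k + m : ℕ)) : ℝ)) ^ ((7:ℝ)/2) *
          (k03F K r m (k + m) * Real.exp (2 * ((k + m : ℕ) : ℝ) * r1))) := by
        refine Summable.of_nonneg_of_le (fun k => ?_) (fun k => k03_up hK0 le_rfl m k)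
          ((k03g_summable (show 0 < r - r1 by linarith)).mul_left _)
        have := k03F_nonneg hK0 r m (k + m)
        positivity
      exact (summable_nat_add_iff m).1 hsm
    obtain ⟨l, L, hlc, hlL, hsum, hhas⟩ := legConv (b := r) (by linarith) hφc hbd hF
    refine ⟨l, L, hlc, hlL, ?_, ?_⟩
    · intro r' h1 h2
      obtain ⟨hs, ht⟩ := hsum r' (by linarith) (by linarith)
      have heq : (fun n : ℕ => (1 + 2 * (n:ℝ)) ^ ((7:ℝ)/2) * L n * WW n r') =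
          (fun n : ℕ => (1 + 2 * (n:ℝ)) ^ ((7:ℝ)/2) * (L n * WW n r')) := by
        funext n; ring
      rw [heq]
      refine ⟨hs, ht.trans ?_⟩
      have hnn : 0 ≤ K * (1 + 2 * (m:ℝ)) ^ ((7:ℝ)/2) * Real.exp (2 * m * r') := by positivity
      have hS := k03_sum (a := fun j : ℕ => (1 + 2 * (j:ℝ)) ^ ((7:ℝ)/2) * (k03F K r m j * Real.exp (2 * j * r')))
        hρ hnn m (fun j => by
          have := k03F_nonneg hK0 r m j
          positivity)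
        (fun k => k03_up hK0 (by linarith) m k) (fun j hj => k03_low hK0 (by linarith) hj)
      have hg := k03g_tsum hρ hρ4
      have hKe : K * (1 + 2 * (m:ℝ)) ^ ((7:ℝ)/2) = C0 * B * cc (2 * m) := by
        rw [hKdef]
        have : (1 + 2 * (m:ℝ)) ^ (-(7:ℝ)/2) * (1 + 2 * (m:ℝ)) ^ ((7:ℝ)/2) = 1 := by
          rw [← Real.rpow_add hpos]
          norm_num
        calc C0 * B * (cc (2 * m) * (1 + 2 * (m:ℝ)) ^ (-(7:ℝ)/2)) * (1 + 2 * (m:ℝ)) ^ ((7:ℝ)/2)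
            = C0 * B * cc (2 * m) * ((1 + 2 * (m:ℝ)) ^ (-(7:ℝ)/2) * (1 + 2 * (m:ℝ)) ^ ((7:ℝ)/2)) := by ring
          _ = _ := by rw [this, mul_one]
      calc 2 * ∑' j : ℕ, (1 + 2 * (j:ℝ)) ^ ((7:ℝ)/2) * (k03F K r m j * Real.exp (2 * j * r'))
          ≤ 2 * ((K * (1 + 2 * (m:ℝ)) ^ ((7:ℝ)/2) * Real.exp (2 * m * r')) * (2 * ∑' k, k03g ρ k)) :=
            mul_le_mul_of_nonneg_left hS.2 (by norm_num)
        _ ≤ 2 * ((K * (1 + 2 * (m:ℝ)) ^ ((7:ℝ)/2) * Real.exp (2 * m * r')) * (2 * (1540 * ρ ^ (-(9:ℝ)/2)))) := by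
            apply mul_le_mul_of_nonneg_left _ (by norm_num)
            apply mul_le_mul_of_nonneg_left _ hnn
            linarith
        _ = 6160 * C0 * B * ρ ^ (-(9:ℝ)/2) * WW m r' := by
            rw [hKe]
            unfold WW
            ring
    · intro e t ht
      have h1 := hhas e t ⟨by linarith [ht.1], ht.2⟩
      have h2 := hφ e t ht
      rw [← h2] at h1
      exact h1
  choose l L h1 h2 h3 h4 using key
  exact ⟨fun e n m => l m e n, fun n m => L m n, fun n m => h1 m n, fun e n m => h2 m e n,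
    fun r' a b m => h3 m r' a b, fun e m t ht => h4 m e t ht⟩

end FB
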