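import Pool.Agent.H48.FB.A09
import Pool.Agent.H48.FB.A10

/-! L01: inversion of the linearised operator in Legendre coefficients. -/

open Complex Set MeasureTheory Filter Topology

noncomputable section

namespace FB

/-- `neumann` (A09) with `T e n m = if n = 2 then 0 else Rm e n m / lam al n`, `TM n m = (1+2n)^{7/2}/κ * RM n m` (`0` for `n = 2`),
`g/lam`, weight `w n = WW n r'`, `5/2 ≤ r' < r`: `∑_n w n TM n m ≤ cR/κ w m ≤ w m/2`. -/
theorem linInv {al κ cR r : ℝ} (hκ : 0 < κ) (hr : 3 ≤ r) (hcR : 0 ≤ cR) (hcR2 : cR ≤ κ / 2)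
    (hlam : ∀ n : ℕ, n ≠ 2 → κ * (1 + 2 * (n:ℝ)) ^ (-(7:ℝ)/2) ≤ |lam al n|)
    {Rm : EE → ℕ → ℕ → ℝ} {RM : ℕ → ℕ → ℝ} (hRc : ∀ n m, Continuous (fun e => Rm e n m)) (hRM : ∀ e n m, |Rm e n m| ≤ RM n m)
    (hRn : ∀ r' : ℝ, 5/2 ≤ r' → r' < r → ∀ m : ℕ, Summable (fun n : ℕ => (1 + 2 * (n:ℝ)) ^ ((7:ℝ)/2) * RM n m * WW n r') ∧
        ∑' n : ℕ, (1 + 2 * (n:ℝ)) ^ ((7:ℝ)/2) * RM n m * WW n r' ≤ cR * WW m r')
    {g : EE → ℕ → ℝ} {G : ℕ → ℝ} (hgc : ∀ n, Continuous (fun e => g e n)) (hgG : ∀ e n, |g e n| ≤ G n)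
    (hGs : ∀ r' : ℝ, 5/2 ≤ r' → r' < r → Summable (fun n : ℕ => (1 + 2 * (n:ℝ)) ^ ((7:ℝ)/2) * (G n * WW n r'))) :
    ∃ x : EE → ℕ → ℝ, ∃ XM : ℕ → ℝ, (∀ n, Continuous (fun e => x e n)) ∧ (∀ e n, |x e n| ≤ XM n) ∧ (∀ e, x e 2 = 0) ∧
      (∀ e n, Summable (fun m => Rm e n m * x e m)) ∧
      (∀ e n, n ≠ 2 → lam al n * x e n + ∑' m, Rm e n m * x e m = g e n) ∧
      (∀ r' : ℝ, 5/2 ≤ r' → r' < r → Summable (fun n : ℕ => XM n * WW n r') ∧
        ∑' n : ℕ, XM n * WW n r' ≤ 2 / κ * ∑' n : ℕ, (1 + 2 * (n:ℝ)) ^ ((7:ℝ)/2) * (G n * WW n r')) ∧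
      (∀ n, Continuous (fun e => ∑' m, Rm e n m * x e m)) := by
  have e0 : EE := ⟨0, by simp⟩
  have hRM0 : ∀ n m, 0 ≤ RM n m := fun n m => (abs_nonneg _).trans (hRM e0 n m)
  have hG0 : ∀ n, 0 ≤ G n := fun n => (abs_nonneg _).trans (hgG e0 n)
  have hWW : ∀ (n : ℕ) (r' : ℝ), 0 < WW n r' := fun n r' => by
    unfold WW; exact mul_pos (cc_pos _) (Real.exp_pos _)
  have hq : ∀ n : ℕ, 0 < (1 + 2 * (n:ℝ)) ^ ((7:ℝ)/2) := fun n =>
    Real.rpow_pos_of_pos (by positivity) _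
  have hqi : ∀ n : ℕ, (1 + 2 * (n:ℝ)) ^ (-(7:ℝ)/2) = ((1 + 2 * (n:ℝ)) ^ ((7:ℝ)/2))⁻¹ := fun n => by
    rw [neg_div, Real.rpow_neg (by positivity)]
  have hlam0 : ∀ n : ℕ, n ≠ 2 → 0 < |lam al n| := fun n hn =>
    lt_of_lt_of_le (mul_pos hκ (Real.rpow_pos_of_pos (by positivity) _)) (hlam n hn)
  have hdiv : ∀ n : ℕ, n ≠ 2 → ∀ a A : ℝ, |a| ≤ A →
      |a / lam al n| ≤ (1 + 2 * (n:ℝ)) ^ ((7:ℝ)/2) / κ * A := by
    intro n hn a A ha
    have hA : 0 ≤ A := (abs_nonneg _).trans ha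
    rw [abs_div, div_le_iff₀ (hlam0 n hn)]
    have h1 := hlam n hn
    rw [hqi] at h1
    calc |a| ≤ A := ha
      _ = (1 + 2 * (n:ℝ)) ^ ((7:ℝ)/2) / κ * A * (κ * ((1 + 2 * (n:ℝ)) ^ ((7:ℝ)/2))⁻¹) := by
          have := (hq n).ne'
          field_simp
      _ ≤ (1 + 2 * (n:ℝ)) ^ ((7:ℝ)/2) / κ * A * |lam al n| := by
          apply mul_le_mul_of_nonneg_left h1
          have := (hq n).le
          positivity
  set T : EE → ℕ → ℕ → ℝ := fun e n m => if n = 2 then 0 else Rm e n m / lam al n with hTdef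
  set TM : ℕ → ℕ → ℝ := fun n m =>
    if n = 2 then 0 else (1 + 2 * (n:ℝ)) ^ ((7:ℝ)/2) / κ * RM n m with hTMdef
  set g' : EE → ℕ → ℝ := fun e n => if n = 2 then 0 else g e n / lam al n with hg'def
  set G' : ℕ → ℝ := fun n => if n = 2 then 0 else (1 + 2 * (n:ℝ)) ^ ((7:ℝ)/2) / κ * G n with hG'def
  have hT : ∀ e n m, |T e n m| ≤ TM n m := by
    intro e n m
    by_cases hn : n = 2
    · simp [hTdef, hTMdef, hn]
    · simp only [hTdef, hTMdef, hn, if_false]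
      exact hdiv n hn _ _ (hRM e n m)
  have hTc : ∀ n m, Continuous (fun e => T e n m) := by
    intro n m
    by_cases hn : n = 2
    · simp only [hTdef, hn, if_true]; exact continuous_const
    · simp only [hTdef, hn, if_false]; exact (hRc n m).div_const _
  have hg' : ∀ e n, |g' e n| ≤ G' n := by
    intro e n
    by_cases hn : n = 2
    · simp [hg'def, hG'def, hn]
    · simp only [hg'def, hG'def, hn, if_false]
      exact hdiv n hn _ _ (hgG e n)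
  have hg'c : ∀ n, Continuous (fun e => g' e n) := by
    intro n
    by_cases hn : n = 2
    · simp only [hg'def, hn, if_true]; exact continuous_const
    · simp only [hg'def, hn, if_false]; exact (hgc n).div_const _
  have hTM0 : ∀ n m, 0 ≤ TM n m := fun n m => (abs_nonneg _).trans (hT e0 n m)
  have hG'0 : ∀ n, 0 ≤ G' n := fun n => (abs_nonneg _).trans (hg' e0 n)
  have hTMle : ∀ n m (r' : ℝ), WW n r' * TM n m ≤
      1 / κ * ((1 + 2 * (n:ℝ)) ^ ((7:ℝ)/2) * RM n m * WW n r') := by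
    intro n m r'
    by_cases hn : n = 2
    · simp only [hTMdef, hn, if_true, mul_zero]
      have h1 := (hq 2).le
      have h2 := hRM0 2 m
      have h3 := (hWW 2 r').le
      positivity
    · simp only [hTMdef, hn, if_false]
      apply le_of_eq; ring
  have hG'le : ∀ n (r' : ℝ), WW n r' * G' n ≤
      1 / κ * ((1 + 2 * (n:ℝ)) ^ ((7:ℝ)/2) * (G n * WW n r')) := by
    intro n r'
    by_cases hn : n = 2
    · simp only [hG'def, hn, if_true, mul_zero]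
      have h1 := (hq 2).le
      have h2 := hG0 2
      have h3 := (hWW 2 r').le
      positivity
    · simp only [hG'def, hn, if_false]
      apply le_of_eq; ring
  have hwT : ∀ r' : ℝ, 5/2 ≤ r' → r' < r → ∀ m, Summable (fun n => WW n r' * TM n m) ∧
      ∑' n, WW n r' * TM n m ≤ WW m r' / 2 := by
    intro r' h1 h2 m
    obtain ⟨hs, hb⟩ := hRn r' h1 h2 m
    have hs' : Summable (fun n : ℕ => 1 / κ * ((1 + 2 * (n:ℝ)) ^ ((7:ℝ)/2) * RM n m * WW n r')) :=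
      hs.mul_left _
    have hs2 : Summable (fun n => WW n r' * TM n m) :=
      Summable.of_nonneg_of_le (fun n => mul_nonneg (hWW n r').le (hTM0 n m))
        (fun n => hTMle n m r') hs'
    refine ⟨hs2, ?_⟩
    calc ∑' n, WW n r' * TM n m
        ≤ ∑' n : ℕ, 1 / κ * ((1 + 2 * (n:ℝ)) ^ ((7:ℝ)/2) * RM n m * WW n r') :=
          hs2.tsum_le_tsum (fun n => hTMle n m r') hs'
      _ = 1 / κ * ∑' n : ℕ, ((1 + 2 * (n:ℝ)) ^ ((7:ℝ)/2) * RM n m * WW n r') := tsum_mul_left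
      _ ≤ 1 / κ * (cR * WW m r') := by
          apply mul_le_mul_of_nonneg_left hb (by positivity)
      _ ≤ 1 / κ * (κ / 2 * WW m r') := by
          apply mul_le_mul_of_nonneg_left _ (by positivity)
          exact mul_le_mul_of_nonneg_right hcR2 (hWW m r').le
      _ = WW m r' / 2 := by field_simp
  have hwG : ∀ r' : ℝ, 5/2 ≤ r' → r' < r → Summable (fun n => WW n r' * G' n) := by
    intro r' h1 h2
    exact Summable.of_nonneg_of_le (fun n => mul_nonneg (hWW n r').le (hG'0 n))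
      (fun n => hG'le n r') ((hGs r' h1 h2).mul_left (1 / κ))
  have hr52 : (5:ℝ)/2 < r := by linarith
  obtain ⟨x, XM, hxc, hxM, hx, hxw⟩ := neumann hT hTc hg' hg'c (w0 := fun n => WW n (5/2))
    (fun n => hWW n _) (hwT (5/2) le_rfl hr52) (hwG (5/2) le_rfl hr52)
  have hXM0 : ∀ n, 0 ≤ XM n := fun n => (abs_nonneg _).trans (hxM e0 n)
  have hxw' : ∀ r' : ℝ, 5/2 ≤ r' → r' < r → Summable (fun n : ℕ => XM n * WW n r') ∧
        ∑' n : ℕ, XM n * WW n r' ≤ 2 / κ * ∑' n : ℕ, (1 + 2 * (n:ℝ)) ^ ((7:ℝ)/2) * (G n * WW n r') := by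
    intro r' h1 h2
    obtain ⟨hs, hb⟩ := hxw (fun n => WW n r') (fun n => (hWW n r').le) (hwT r' h1 h2) (hwG r' h1 h2)
    have hcomm : (fun n : ℕ => XM n * WW n r') = fun n => WW n r' * XM n := by
      funext n; ring
    refine ⟨by rw [hcomm]; exact hs, ?_⟩
    rw [hcomm]
    refine hb.trans ?_
    have h3 : ∑' n, WW n r' * G' n ≤ 1 / κ * ∑' n : ℕ, (1 + 2 * (n:ℝ)) ^ ((7:ℝ)/2) * (G n * WW n r') := by
      rw [← tsum_mul_left]
      exact (hwG r' h1 h2).tsum_le_tsum (fun n => hG'le n r') ((hGs r' h1 h2).mul_left (1 / κ))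
    calc 2 * ∑' n, WW n r' * G' n
        ≤ 2 * (1 / κ * ∑' n : ℕ, (1 + 2 * (n:ℝ)) ^ ((7:ℝ)/2) * (G n * WW n r')) := by
          apply mul_le_mul_of_nonneg_left h3 (by norm_num)
      _ = _ := by ring
  have hRXs : ∀ n, Summable (fun m => RM n m * XM m) := by
    intro n
    have hc : 0 < (1 + 2 * (n:ℝ)) ^ ((7:ℝ)/2) * WW n (5/2) := mul_pos (hq n) (hWW n _)
    have hle : ∀ m, RM n m * XM m ≤
        cR / ((1 + 2 * (n:ℝ)) ^ ((7:ℝ)/2) * WW n (5/2)) * (XM m * WW m (5/2)) := by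
      intro m
      obtain ⟨hs, hb⟩ := hRn (5/2) le_rfl hr52 m
      have h1 : (1 + 2 * (n:ℝ)) ^ ((7:ℝ)/2) * RM n m * WW n (5/2) ≤ cR * WW m (5/2) := by
        refine le_trans ?_ hb
        exact hs.le_tsum n (fun j _ =>
          mul_nonneg (mul_nonneg (hq j).le (hRM0 j m)) (hWW j _).le)
      have h2 : RM n m ≤ cR * WW m (5/2) / ((1 + 2 * (n:ℝ)) ^ ((7:ℝ)/2) * WW n (5/2)) := by
        rw [le_div_iff₀ hc]
        calc RM n m * ((1 + 2 * (n:ℝ)) ^ ((7:ℝ)/2) * WW n (5/2))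
            = (1 + 2 * (n:ℝ)) ^ ((7:ℝ)/2) * RM n m * WW n (5/2) := by ring
          _ ≤ _ := h1
      calc RM n m * XM m ≤ cR * WW m (5/2) / ((1 + 2 * (n:ℝ)) ^ ((7:ℝ)/2) * WW n (5/2)) * XM m :=
            mul_le_mul_of_nonneg_right h2 (hXM0 m)
        _ = _ := by ring
    exact Summable.of_nonneg_of_le (fun m => mul_nonneg (hRM0 n m) (hXM0 m)) hle
      ((hxw' (5/2) le_rfl hr52).1.mul_left _)
  have hRb : ∀ (n m : ℕ) (e : EE), ‖Rm e n m * x e m‖ ≤ RM n m * XM m := by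
    intro n m e
    rw [norm_mul]
    exact mul_le_mul (hRM e n m) (hxM e m) (norm_nonneg _) (hRM0 n m)
  refine ⟨x, XM, hxc, hxM, ?_, ?_, ?_, hxw', ?_⟩
  · intro e
    have h := (hx e 2).2
    simp only [hTdef, hg'def, if_true, zero_mul, tsum_zero, sub_zero] at h
    exact h
  · intro e n
    exact Summable.of_norm_bounded (hRXs n) (fun m => hRb n m e)
  · intro e n hn
    have h := (hx e n).2
    have hl : lam al n ≠ 0 := by
      have := hlam0 n hn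
      exact abs_pos.mp this
    simp only [hTdef, hg'def, hn, if_false] at h
    have h1 : ∑' m, Rm e n m / lam al n * x e m = (∑' m, Rm e n m * x e m) / lam al n := by
      rw [← tsum_div_const]
      exact tsum_congr fun m => by ring
    rw [h1] at h
    rw [h]
    have h2 : ∑' m, Rm e n m * x e m = ∑' m, Rm e n m * x e m := rfl
    rw [mul_sub, mul_div_cancel₀ _ hl, mul_div_cancel₀ _ hl]
    ring
  · intro n
    exact continuous_tsum (fun m => (hRc n m).mul (hxc m)) (hRXs n) (fun m e => hRb n m e)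

end FB
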