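import Pool.Agent.H48.FB.A10
import Pool.Agent.H48.FB.A11

/-! M01: Legendre coefficients of families of even functions, and synthesis. -/

open Complex Set MeasureTheory Filter Topology

noncomputable section

namespace FB

theorem M01_pow_le {u : ℝ} (hu : 0 ≤ u) : u ^ ((7:ℝ)/2) ≤ 25 * Real.exp u := by
  have h4 : u ^ 4 / 24 ≤ Real.exp u := by
    have := Real.pow_div_factorial_le_exp u hu 4
    norm_num [Nat.factorial] at this
    exact this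
  have h1 : 1 ≤ Real.exp u := Real.one_le_exp hu
  rcases le_total u 1 with h | h
  · have : u ^ ((7:ℝ)/2) ≤ 1 := Real.rpow_le_one hu h (by norm_num)
    linarith
  · have h2 : u ^ ((7:ℝ)/2) ≤ u ^ ((4:ℕ):ℝ) := Real.rpow_le_rpow_of_exponent_le h (by norm_num)
    rw [Real.rpow_natCast] at h2
    linarith

theorem M01_term {ρ : ℝ} (hρ : 0 < ρ) (hρ1 : ρ ≤ 1) (m : ℕ) :
    (1 + 2 * (m:ℝ)) ^ ((7:ℝ)/2) * Real.exp (-(2 * m * ρ)) ≤
      800 * ρ ^ (-(7:ℝ)/2) * Real.exp (-ρ) ^ m := by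
  set u : ℝ := (1 + 2 * (m:ℝ)) * ρ / 2 with hu
  have hu0 : 0 ≤ u := by positivity
  have h1 : (1 + 2 * (m:ℝ)) = (2 / ρ) * u := by rw [hu]; field_simp
  have h2 : (1 + 2 * (m:ℝ)) ^ ((7:ℝ)/2) = (2 / ρ) ^ ((7:ℝ)/2) * u ^ ((7:ℝ)/2) := by
    rw [h1, Real.mul_rpow (by positivity) hu0]
  have h3 : (2 / ρ) ^ ((7:ℝ)/2) = 2 ^ ((7:ℝ)/2) * ρ ^ (-(7:ℝ)/2) := by
    rw [Real.div_rpow (by norm_num) hρ.le, neg_div, Real.rpow_neg hρ.le]
    rfl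
  have h4 : (2:ℝ) ^ ((7:ℝ)/2) ≤ 16 := by
    calc (2:ℝ) ^ ((7:ℝ)/2) ≤ (2:ℝ) ^ ((4:ℕ):ℝ) :=
          Real.rpow_le_rpow_of_exponent_le (by norm_num) (by norm_num)
      _ = 16 := by rw [Real.rpow_natCast]; norm_num
  have h5 := M01_pow_le hu0
  have hp : 0 < ρ ^ (-(7:ℝ)/2) := Real.rpow_pos_of_pos hρ _
  have h6 : Real.exp u * Real.exp (-(2 * m * ρ)) ≤ 2 * Real.exp (-ρ) ^ m := by
    rw [← Real.exp_add, ← Real.exp_nat_mul]
    have e1 : u + -(2 * m * ρ) = ρ / 2 + (m:ℝ) * (-ρ) := by rw [hu]; ring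
    rw [e1, Real.exp_add]
    have e2 : Real.exp (ρ / 2) ≤ 2 := by
      have h7 : Real.exp (ρ / 2) ≤ Real.exp (1 / 2) := Real.exp_le_exp.2 (by linarith)
      have h8 : Real.exp (1 / 2) ≤ 2 := by
        have h9 : Real.exp (1 / 2) * Real.exp (1 / 2) = Real.exp 1 := by
          rw [← Real.exp_add]; norm_num
        have h10 := Real.exp_one_lt_d9
        have h11 := Real.exp_pos (1 / 2)
        nlinarith
      exact h7.trans h8
    exact mul_le_mul_of_nonneg_right e2 (Real.exp_pos _).le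
  calc (1 + 2 * (m:ℝ)) ^ ((7:ℝ)/2) * Real.exp (-(2 * m * ρ))
      = 2 ^ ((7:ℝ)/2) * ρ ^ (-(7:ℝ)/2) * (u ^ ((7:ℝ)/2)) * Real.exp (-(2 * m * ρ)) := by
        rw [h2, h3]
    _ ≤ 16 * ρ ^ (-(7:ℝ)/2) * (25 * Real.exp u) * Real.exp (-(2 * m * ρ)) := by
        gcongr
    _ = 400 * ρ ^ (-(7:ℝ)/2) * (Real.exp u * Real.exp (-(2 * m * ρ))) := by ring
    _ ≤ 400 * ρ ^ (-(7:ℝ)/2) * (2 * Real.exp (-ρ) ^ m) := by
        gcongr
    _ = _ := by ring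

theorem M01_sum {ρ : ℝ} (hρ : 0 < ρ) (hρ1 : ρ ≤ 1) :
    Summable (fun m : ℕ => (1 + 2 * (m:ℝ)) ^ ((7:ℝ)/2) * Real.exp (-(2 * m * ρ))) ∧
      ∑' m : ℕ, (1 + 2 * (m:ℝ)) ^ ((7:ℝ)/2) * Real.exp (-(2 * m * ρ)) ≤ 1600 * ρ ^ (-(9:ℝ)/2) := by
  have hq0 : 0 ≤ Real.exp (-ρ) := (Real.exp_pos _).le
  have hq1 : Real.exp (-ρ) < 1 := by rw [Real.exp_lt_one_iff]; linarith
  have hg := (summable_geometric_of_lt_one hq0 hq1).mul_left (800 * ρ ^ (-(7:ℝ)/2))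
  have hs : Summable (fun m : ℕ => (1 + 2 * (m:ℝ)) ^ ((7:ℝ)/2) * Real.exp (-(2 * m * ρ))) :=
    Summable.of_nonneg_of_le (fun m => by positivity) (fun m => M01_term hρ hρ1 m) hg
  refine ⟨hs, (hs.tsum_le_tsum (fun m => M01_term hρ hρ1 m) hg).trans ?_⟩
  rw [tsum_mul_left, tsum_geometric_of_lt_one hq0 hq1]
  have h1 : ρ / 2 ≤ 1 - Real.exp (-ρ) := by
    have h2 : 1 + ρ ≤ Real.exp ρ := by linarith [Real.add_one_le_exp ρ]
    have h3 : Real.exp (-ρ) * Real.exp ρ = 1 := by rw [← Real.exp_add]; simp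
    have h4 : Real.exp (-ρ) * (1 + ρ) ≤ 1 := by
      calc Real.exp (-ρ) * (1 + ρ) ≤ Real.exp (-ρ) * Real.exp ρ :=
            mul_le_mul_of_nonneg_left h2 hq0
        _ = 1 := h3
    nlinarith
  have h2 : (1 - Real.exp (-ρ))⁻¹ ≤ (ρ / 2)⁻¹ := inv_anti₀ (by linarith) h1
  have hp : 0 < ρ ^ (-(7:ℝ)/2) := Real.rpow_pos_of_pos hρ _
  have h3 : ρ ^ (-(9:ℝ)/2) = ρ ^ (-(7:ℝ)/2) * ρ⁻¹ := by
    rw [← Real.rpow_neg_one ρ, ← Real.rpow_add hρ]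
    norm_num
  calc 800 * ρ ^ (-(7:ℝ)/2) * (1 - Real.exp (-ρ))⁻¹ ≤ 800 * ρ ^ (-(7:ℝ)/2) * (ρ / 2)⁻¹ := by
        gcongr
    _ = 1600 * ρ ^ (-(9:ℝ)/2) := by
        rw [h3, inv_div]; ring

/-- `fourierEven` on `band 1 r`: `|φ e m| ≤ B e^{-2my}` for all `y < r`, so `≤ F m = B e^{-2mr}`;
`∑ (1+2m)^{7/2} F m e^{2mr'} ≤ B ∑ (1+2m)^{7/2} e^{-2mρ} ≤ C B ρ^{-9/2}`; `legConv` with `b = r`. -/
theorem legOf : ∃ C : ℝ, 0 < C ∧ ∀ r B : ℝ, 2 < r → 0 ≤ B → ∀ f : EE → ℂ → ℂ, Fam (band 1 r) f →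
    (∀ e, ∀ z ∈ band 1 r, f e (z + (Real.pi : ℂ)) = f e z) → (∀ e, EvenExt 1 r (f e)) →
    (∀ e, ∀ z ∈ band 1 r, f e (-(starRingEnd ℂ) z) = (starRingEnd ℂ) (f e z)) → (∀ e, ∀ z ∈ band 1 r, ‖f e z‖ ≤ B) →
    ∃ l : EE → ℕ → ℝ, ∃ L : ℕ → ℝ, (∀ n, Continuous (fun e => l e n)) ∧ (∀ e n, |l e n| ≤ L n) ∧
      (∀ ρ r' : ℝ, 0 < ρ → ρ ≤ 1 → 1 ≤ r' → r' ≤ r - ρ → Summable (fun n : ℕ => (1 + 2 * (n:ℝ)) ^ ((7:ℝ)/2) * (L n * WW n r')) ∧
        ∑' n : ℕ, (1 + 2 * (n:ℝ)) ^ ((7:ℝ)/2) * (L n * WW n r') ≤ C * B * ρ ^ (-(9:ℝ)/2)) ∧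
      ∀ e, ∀ z ∈ band 1 r, HasSum (fun n => ((l e n : ℝ) : ℂ) * PL n z) (f e z) := by
  refine ⟨3200, by norm_num, ?_⟩
  intro r B hr hB f hf hp he hcj hfB
  have h1r : (1:ℝ) < r := by linarith
  obtain ⟨φ, hφc, hφf, hφb, -⟩ := fourierEven (zero_le_one) h1r hf hp he hcj
  have hφ : ∀ e m, |φ e m| ≤ B * Real.exp (-(2 * m * r)) := by
    intro e m
    have hy : ∀ y ∈ Ioo 1 r, |φ e m| ≤ B * Real.exp (-(2 * m * y)) := fun y hy =>
      hφb e m y hy B (fun x => hfB e _ ⟨by simpa using hy.1, by simpa using hy.2⟩)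
    have hc : Continuous (fun y : ℝ => B * Real.exp (-(2 * m * y))) := by fun_prop
    have ht : Tendsto (fun y : ℝ => B * Real.exp (-(2 * m * y))) (𝓝[<] r)
        (𝓝 (B * Real.exp (-(2 * m * r)))) := (hc.tendsto r).mono_left nhdsWithin_le_nhds
    refine ge_of_tendsto ht ?_
    filter_upwards [Ioo_mem_nhdsLT h1r] with y hy' using hy y hy'
  have hterm : ∀ (r' : ℝ) (m : ℕ), (1 + 2 * (m:ℝ)) ^ ((7:ℝ)/2) *
      (B * Real.exp (-(2 * m * r)) * Real.exp (2 * m * r')) =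
      B * ((1 + 2 * (m:ℝ)) ^ ((7:ℝ)/2) * Real.exp (-(2 * m * (r - r')))) := by
    intro r' m
    have : Real.exp (-(2 * m * (r - r'))) = Real.exp (-(2 * m * r)) * Real.exp (2 * m * r') := by
      rw [← Real.exp_add]; congr 1; ring
    rw [this]; ring
  have hsum : ∀ ρ r' : ℝ, 0 < ρ → ρ ≤ 1 → r' ≤ r - ρ →
      Summable (fun m : ℕ => (1 + 2 * (m:ℝ)) ^ ((7:ℝ)/2) *
        (B * Real.exp (-(2 * m * r)) * Real.exp (2 * m * r'))) ∧
      ∑' m : ℕ, (1 + 2 * (m:ℝ)) ^ ((7:ℝ)/2) *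
        (B * Real.exp (-(2 * m * r)) * Real.exp (2 * m * r')) ≤ B * (1600 * ρ ^ (-(9:ℝ)/2)) := by
    intro ρ r' hρ hρ1 hr'
    obtain ⟨hs, hb⟩ := M01_sum hρ hρ1
    have hle : ∀ m : ℕ, (1 + 2 * (m:ℝ)) ^ ((7:ℝ)/2) *
        (B * Real.exp (-(2 * m * r)) * Real.exp (2 * m * r')) ≤
        B * ((1 + 2 * (m:ℝ)) ^ ((7:ℝ)/2) * Real.exp (-(2 * m * ρ))) := by
      intro m
      rw [hterm]
      apply mul_le_mul_of_nonneg_left _ hB
      apply mul_le_mul_of_nonneg_left _ (by positivity)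
      apply Real.exp_le_exp.2
      have : (2 * (m:ℝ)) * ρ ≤ (2 * m) * (r - r') :=
        mul_le_mul_of_nonneg_left (by linarith) (by positivity)
      linarith
    have hs2 := hs.mul_left B
    have hs3 : Summable (fun m : ℕ => (1 + 2 * (m:ℝ)) ^ ((7:ℝ)/2) *
        (B * Real.exp (-(2 * m * r)) * Real.exp (2 * m * r'))) :=
      Summable.of_nonneg_of_le (fun m => by positivity) hle hs2
    refine ⟨hs3, (hs3.tsum_le_tsum hle hs2).trans ?_⟩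
    rw [tsum_mul_left]
    exact mul_le_mul_of_nonneg_left hb hB
  obtain ⟨l, L, hlc, hlL, hLs, hls⟩ := legConv (b := r) h1r (φ := φ)
    (F := fun m => B * Real.exp (-(2 * m * r))) hφc hφ (by
      intro r' h1 h2
      have hm : 0 < min 1 (r - r') := lt_min one_pos (by linarith)
      exact (hsum (min 1 (r - r')) r' hm (min_le_left _ _)
        (by have := min_le_right 1 (r - r'); linarith)).1)
  refine ⟨l, L, hlc, hlL, ?_, ?_⟩
  · intro ρ r' hρ hρ1 hr1 hr'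
    obtain ⟨hs, hb⟩ := hLs r' hr1 (by linarith)
    refine ⟨hs, hb.trans ?_⟩
    have := (hsum ρ r' hρ hρ1 hr').2
    calc _ ≤ 2 * (B * (1600 * ρ ^ (-(9:ℝ)/2))) :=
          mul_le_mul_of_nonneg_left this (by norm_num)
      _ = _ := by ring
  · intro e z hz
    rw [hφf e z hz]
    exact hls e z ⟨by have := hz.1; linarith, hz.2⟩

/-- synthesis: `PL_bound`, `Fam.tsum` -/
theorem synthLeg {r : ℝ} (hr : 3 ≤ r) {x : EE → ℕ → ℝ} {XM : ℕ → ℝ} (hc : ∀ n, Continuous (fun e => x e n)) (hx : ∀ e n, |x e n| ≤ XM n)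
    (hs : ∀ r' : ℝ, 5/2 ≤ r' → r' < r → Summable (fun n : ℕ => XM n * WW n r')) :
    Fam (strip r) (fun e z => ∑' n, ((x e n : ℝ) : ℂ) * PL n z) ∧
    (∀ e, ∀ z ∈ strip r, HasSum (fun n => ((x e n : ℝ) : ℂ) * PL n z) (∑' n, ((x e n : ℝ) : ℂ) * PL n z)) ∧
    (∀ e, ∀ z ∈ strip r, (∑' n, ((x e n : ℝ) : ℂ) * PL n (-z)) = ∑' n, ((x e n : ℝ) : ℂ) * PL n z ∧
      (∑' n, ((x e n : ℝ) : ℂ) * PL n (z + (Real.pi:ℂ))) = ∑' n, ((x e n : ℝ) : ℂ) * PL n z ∧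
      (∑' n, ((x e n : ℝ) : ℂ) * PL n ((starRingEnd ℂ) z)) = (starRingEnd ℂ) (∑' n, ((x e n : ℝ) : ℂ) * PL n z)) ∧
    ∀ r' : ℝ, 5/2 ≤ r' → r' < r → ∀ e, ∀ z : ℂ, |z.im| ≤ r' → ‖∑' n, ((x e n : ℝ) : ℂ) * PL n z‖ ≤ 4 * ∑' n, XM n * WW n r' := by
  have hterm : ∀ r' : ℝ, 5/2 ≤ r' → ∀ (n : ℕ) (e : EE) (z : ℂ), |z.im| ≤ r' →
      ‖((x e n : ℝ) : ℂ) * PL n z‖ ≤ 4 * (XM n * WW n r') := by
    intro r' h1 n e z hz
    rw [norm_mul, Complex.norm_real, Real.norm_eq_abs]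
    have h2 := PL_bound n (by linarith : (1:ℝ) ≤ r') hz
    calc |x e n| * ‖PL n z‖ ≤ XM n * (4 * WW n r') :=
          mul_le_mul (hx e n) h2 (norm_nonneg _) ((abs_nonneg _).trans (hx e n))
      _ = _ := by ring
  have hsm : ∀ e, ∀ z ∈ strip r, Summable (fun n => ((x e n : ℝ) : ℂ) * PL n z) := by
    intro e z hz
    have hz' : |z.im| < r := abs_lt.2 ⟨hz.1, hz.2⟩
    have h1 : max (5/2) |z.im| < r := max_lt (by linarith) hz'
    exact Summable.of_norm_bounded ((hs (max (5/2) |z.im|) (le_max_left _ _) h1).mul_left 4)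
      (fun n => hterm _ (le_max_left _ _) n e z (le_max_right _ _))
  refine ⟨?_, fun e z hz => (hsm e z hz).hasSum, ?_, ?_⟩
  · refine Fam.tsum (a := -r) (b := r) (F := fun n e z => ((x e n : ℝ) : ℂ) * PL n z) ?_ ?_
    · intro n
      exact (Fam.param (Complex.continuous_ofReal.comp (hc n))).mul
        (Fam.const (PL_diff n).differentiableOn)
    · intro a' b' ha' hb'
      set r' : ℝ := max (5/2) (max (-a') b') with hr'
      have h1 : r' < r := max_lt (by linarith) (max_lt (by linarith) hb')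
      refine ⟨fun n => 4 * (XM n * WW n r'), (hs r' (le_max_left _ _) h1).mul_left 4, ?_⟩
      intro n e z hz
      refine hterm r' (le_max_left _ _) n e z (abs_le.2 ⟨?_, ?_⟩)
      · have h2 : -a' ≤ r' := (le_max_left _ _).trans (le_max_right _ _)
        have := hz.1
        linarith
      · have h2 : b' ≤ r' := (le_max_right _ _).trans (le_max_right _ _)
        have := hz.2
        linarith
  · intro e z hz
    refine ⟨tsum_congr fun n => by rw [PL_neg], tsum_congr fun n => by rw [PL_pi], ?_⟩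
    rw [Complex.conj_tsum]
    exact tsum_congr fun n => by rw [PL_conj, map_mul, Complex.conj_ofReal]
  · intro r' h1 h2 e z hz
    have := tsum_of_norm_bounded ((hs r' h1 h2).mul_left 4).hasSum
      (fun n => hterm r' h1 n e z hz)
    rw [tsum_mul_left] at this
    exact this

end FB
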