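import Pool.Agent.H48.FB.MDefs
import Pool.Agent.H48.FB.M01
import Pool.Agent.H48.FB.G05

/-! M02: `Top` of a synthesised function. -/

open Complex Set MeasureTheory Filter Topology

noncomputable section

namespace FB

/-- integral of a series against a bounded kernel -/
theorem M02_integral {al M : ℝ} (hal : 0 < al) (hM : 0 ≤ M) {Ker : ℝ → ℂ} (hK : ContinuousOn Ker (Ioo (-al) al))
    (hKM : ∀ s ∈ Ioo (-al) al, ‖Ker s‖ ≤ M) {F : ℕ → ℝ → ℂ} {f : ℝ → ℂ} {b : ℕ → ℝ} (hF : ∀ n, Continuous (F n))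
    (hb : ∀ n, ∀ s ∈ Ioo (-al) al, ‖F n s‖ ≤ b n) (hbs : Summable b)
    (hf : ∀ s ∈ Ioo (-al) al, HasSum (fun n => F n s) (f s)) :
    HasSum (fun n => ∫ s in (-al)..al, Ker s * F n s) (∫ s in (-al)..al, Ker s * f s) := by
  have hle : -al ≤ al := by linarith
  have hIoo : ∀ᵐ s : ℝ, s ∈ Set.uIoc (-al) al → s ∈ Ioo (-al) al := by
    have h1 : ∀ᵐ s : ℝ, s ≠ al := by
      rw [ae_iff]
      simp
    filter_upwards [h1] with s hs hs'
    rw [uIoc_of_le hle] at hs'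
    exact ⟨hs'.1, lt_of_le_of_ne hs'.2 hs⟩
  refine intervalIntegral.hasSum_integral_of_dominated_convergence (fun n _ => M * b n) ?_ ?_ ?_ ?_ ?_
  · intro n
    rw [uIoc_of_le hle, ← restrict_Ioo_eq_restrict_Ioc]
    exact (hK.mul (hF n).continuousOn).aestronglyMeasurable measurableSet_Ioo
  · intro n
    filter_upwards [hIoo] with s hs hs'
    rw [norm_mul]
    exact mul_le_mul (hKM s (hs hs')) (hb n s (hs hs')) (norm_nonneg _) hM
  · filter_upwards with s _
    exact hbs.mul_left M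
  · exact intervalIntegrable_const
  · filter_upwards [hIoo] with s hs hs'
    exact (hf s (hs hs')).mul_left (Ker s)

/-- rearrangement of the double series -/
theorem M02_rearrange {R : ℕ → ℕ → ℝ} {RM : ℕ → ℕ → ℝ} {x XM W : ℕ → ℝ} {P : ℕ → ℂ} {Q : ℕ → ℂ} {c : ℝ} {S : ℂ}
    (hR : ∀ n m, |R n m| ≤ RM n m) (hx : ∀ m, |x m| ≤ XM m) (hW : ∀ n, 0 < W n) (hP : ∀ n, ‖P n‖ ≤ 4 * W n)
    (hs : ∀ m, Summable fun n => RM n m * W n) (hc : ∀ m, ∑' n, RM n m * W n ≤ c * W m)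
    (hX : Summable fun m => XM m * W m)
    (hQ : ∀ m, HasSum (fun n => ((R n m : ℝ) : ℂ) * P n) (Q m))
    (hS : HasSum (fun m => ((x m : ℝ) : ℂ) * Q m) S) :
    HasSum (fun n => ((∑' m, R n m * x m : ℝ) : ℂ) * P n) S := by
  have hRM : ∀ n m, 0 ≤ RM n m := fun n m => (abs_nonneg _).trans (hR n m)
  have hXM : ∀ m, 0 ≤ XM m := fun m => (abs_nonneg _).trans (hx m)
  set a : ℕ × ℕ → ℂ := fun p => ((x p.1 : ℝ) : ℂ) * (((R p.2 p.1 : ℝ) : ℂ) * P p.2) with ha
  set g : ℕ × ℕ → ℝ := fun p => 4 * (XM p.1 * (RM p.2 p.1 * W p.2)) with hg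
  have hg0 : ∀ p, 0 ≤ g p := fun p =>
    mul_nonneg (by norm_num) (mul_nonneg (hXM _) (mul_nonneg (hRM _ _) (hW _).le))
  have hgs : Summable g := by
    rw [summable_prod_of_nonneg hg0]
    constructor
    · intro m
      exact ((hs m).mul_left (XM m)).mul_left 4
    · have h1 : Summable fun m => 4 * (|c| * (XM m * W m)) := (hX.mul_left |c|).mul_left 4
      refine Summable.of_nonneg_of_le (fun m => tsum_nonneg fun n => hg0 (m, n)) (fun m => ?_) h1
      show ∑' n, 4 * (XM m * (RM n m * W n)) ≤ _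
      rw [tsum_mul_left, tsum_mul_left]
      have h2 := hc m
      have h3 : c * W m ≤ |c| * W m := mul_le_mul_of_nonneg_right (le_abs_self c) (hW m).le
      have h4 : XM m * ∑' n, RM n m * W n ≤ XM m * (|c| * W m) :=
        mul_le_mul_of_nonneg_left (h2.trans h3) (hXM m)
      linarith
  have has : Summable a := by
    refine Summable.of_norm_bounded hgs fun p => ?_
    show ‖((x p.1 : ℝ) : ℂ) * (((R p.2 p.1 : ℝ) : ℂ) * P p.2)‖ ≤ _
    rw [norm_mul, norm_mul, Complex.norm_real, Complex.norm_real, Real.norm_eq_abs, Real.norm_eq_abs]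
    have h1 : |R p.2 p.1| * ‖P p.2‖ ≤ RM p.2 p.1 * (4 * W p.2) :=
      mul_le_mul (hR _ _) (hP _) (norm_nonneg _) (hRM _ _)
    have h2 : |x p.1| * (|R p.2 p.1| * ‖P p.2‖) ≤ XM p.1 * (RM p.2 p.1 * (4 * W p.2)) :=
      mul_le_mul (hx _) h1 (by positivity) (hXM _)
    refine h2.trans (le_of_eq ?_)
    simp only [hg]
    ring
  obtain ⟨T, hT⟩ := has
  have hTS : T = S := by
    have h1 := hT.prod_fiberwise (fun m => (hQ m).mul_left ((x m : ℝ) : ℂ))
    exact h1.unique hS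
  rw [hTS] at hT
  have hsw : HasSum (fun p : ℕ × ℕ => a p.swap) S := (Equiv.prodComm ℕ ℕ).hasSum_iff.2 hT
  refine hsw.prod_fiberwise fun n => ?_
  show HasSum (fun m => ((x m : ℝ) : ℂ) * (((R n m : ℝ) : ℂ) * P n)) _
  have hsum : Summable fun m => R n m * x m := by
    have h1 : Summable fun m => (|c| / W n) * (XM m * W m) := hX.mul_left _
    refine Summable.of_norm_bounded h1 fun m => ?_
    rw [Real.norm_eq_abs, abs_mul]
    have h2 : RM n m * W n ≤ |c| * W m := by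
      have h3 := (hs m).le_tsum n (fun k _ => mul_nonneg (hRM k m) (hW k).le)
      have h4 : c * W m ≤ |c| * W m := mul_le_mul_of_nonneg_right (le_abs_self c) (hW m).le
      linarith [hc m]
    have h3 : RM n m ≤ |c| / W n * W m := by
      rw [div_mul_eq_mul_div, le_div_iff₀ (hW n)]
      exact h2
    have h5 : |R n m| * |x m| ≤ RM n m * XM m := mul_le_mul (hR _ _) (hx _) (abs_nonneg _) (hRM _ _)
    have h6 : RM n m * XM m ≤ |c| / W n * W m * XM m := mul_le_mul_of_nonneg_right h3 (hXM m)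
    linarith
  have h1 : HasSum (fun m => ((R n m * x m : ℝ) : ℂ)) ((∑' m, R n m * x m : ℝ) : ℂ) := by
    exact_mod_cast (Complex.hasSum_ofReal (x := ∑' m, R n m * x m)).2 hsum.hasSum
  refine (h1.mul_right (P n)).congr_fun ?_
  intro m
  push_cast
  ring

/-- Fix `e`. `Top x = m1 (L0 x + Rop x)` (`Top_eq`). The series `x = ∑ x_m PL m` converges uniformly on the segment `t + [-al, al]`
(`Im` constant `< r`), the kernels are bounded, so `L0 x t = ∑ x_m L0 (PL m) t = ∑ x_m lam_m PL m t` (`L0_PL`, needs `Im t > 1`) and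
`Rop x t = ∑ x_m Rop (PL m) t = ∑_m x_m ∑_n Rm n m PL n t = ∑_n (∑_m Rm n m x_m) PL n t` (absolutely convergent double series:
`∑_m |x_m| ∑_n RM n m 4 WW n r' ≤ 4 cR ∑_m |x_m| WW m r'` for `|Im t| ≤ r'`, `5/2 ≤ r' < r`). -/
theorem Top_synth : ∃ c0 : ℝ, 0 < c0 ∧ ∀ al ∈ JJ, ∀ r cR : ℝ, 3 < r → r ≤ 5 → 0 ≤ cR → ∀ Z X u : EE → ℂ → ℂ, FC c0 r Z X → US c0 r u →
    ∀ (Rm : EE → ℕ → ℕ → ℝ) (RM : ℕ → ℕ → ℝ), RS al r cR Z X u Rm RM → ∀ (x : EE → ℕ → ℝ) (XM : ℕ → ℝ),
    (∀ n, Continuous (fun e => x e n)) → (∀ e n, |x e n| ≤ XM n) → (∀ r' : ℝ, 5/2 ≤ r' → r' < r → Summable (fun n : ℕ => XM n * WW n r')) →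
    ∀ e, ∀ t ∈ band 2 r, HasSum (fun n => ((lam al n * x e n + ∑' m, Rm e n m * x e m : ℝ) : ℂ) * PL n t)
      (Top al (Z e) (X e) (u e) (fun z => ∑' n, ((x e n : ℝ) : ℂ) * PL n z) t / m1 al (Z e) (X e) (u e) t) := by
  obtain ⟨c1, hc1, hTop⟩ := Top_eq 5 (by norm_num)
  obtain ⟨c2, C2, hc2, hC2, hCc2, hm1⟩ := m1_fam 5 (by norm_num)
  obtain ⟨c3, C3, hc3, hC3, hTh⟩ := Th_basic 5 (by norm_num)
  refine ⟨min c1 (min c2 c3), lt_min hc1 (lt_min hc2 hc3), ?_⟩
  intro al hal r cR hr hr5 hcR Z X u hFC hUS Rm RM hRS x XM hxc hxX hs e t ht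
  set c0 : ℝ := min c1 (min c2 c3) with hc0
  have hc0p : 0 < c0 := lt_min hc1 (lt_min hc2 hc3)
  have hc01 : c0 ≤ c1 := min_le_left _ _
  have hc02 : c0 ≤ c2 := (min_le_right _ _).trans (min_le_left _ _)
  have hc03 : c0 ≤ c3 := (min_le_right _ _).trans (min_le_right _ _)
  have hsub1 : band 1 r ⊆ strip r := band_subset (by linarith) le_rfl
  have ht1 : t ∈ band 1 r := band_subset (by norm_num) le_rfl ht
  have htim1 : 2 < t.im := ht.1
  have htim2 : t.im < r := ht.2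
  have halp : 0 < al := by
    obtain ⟨h1, -⟩ := JJ_bounds hal
    linarith
  obtain ⟨hfam, hfsum, -, -⟩ := synthLeg hr.le hxc hxX hs
  set f : ℂ → ℂ := fun z => ∑' n, ((x e n : ℝ) : ℂ) * PL n z with hf
  have hXM : ∀ m, 0 ≤ XM m := fun m => (abs_nonneg _).trans (hxX e m)
  -- `Top = m1 (L0 + Rop)`
  have hNB1 : NB c1 1 r (Z e) (X e) := (hFC.nb e).mono hc01 (by linarith) le_rfl
  have hucont : ContinuousOn (u e) (band 1 r) := (hUS.fu.diff e).continuousOn.mono hsub1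
  have hfcont : ContinuousOn f (band 1 r) := (hfam.diff e).continuousOn.mono hsub1
  have h1 := hTop al hal 1 r le_rfl hr5 (Z e) (X e) (u e) hNB1 hucont f hfcont t ht1
  have hm : m1 al (Z e) (X e) (u e) t ≠ 0 := by
    have h2 := ((hm1 al hal r c0 (by linarith) hr5 hc0p.le hc02 Z X u hFC hUS.fu
      (fun e z hz => ⟨hUS.u0 e z hz, hUS.ue e z hz, hUS.up e z hz, hUS.ur e z hz⟩)).2 e t
      (hsub1 ht1)).1
    intro h3
    rw [h3, zero_sub, norm_neg, norm_one] at h2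
    have h4 : C2 * c0 ≤ C2 * c2 := mul_le_mul_of_nonneg_left hc02 (by linarith)
    linarith
  rw [h1, mul_div_cancel_left₀ _ hm]
  -- the kernels
  set ρ : ℝ := min (1/4) ((r - t.im) / 2) with hρ
  have hρ0 : 0 < ρ := lt_min (by norm_num) (by linarith)
  have hρ4 : ρ ≤ 1/4 := min_le_left _ _
  have hρ2 : ρ ≤ (r - t.im) / 2 := min_le_right _ _
  have htρ : t ∈ band 2 (r - ρ) := ⟨htim1, by linarith⟩
  have hker := (hTh al hal r c0 ρ hr.le hr5 hc0p.le hc03 hρ0 hρ4 (Z e) (X e) (u e)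
    ((hFC.nb e).mono le_rfl (by linarith) le_rfl) ((hUS.fu.diff e).mono hsub1)
    (fun z hz => hUS.u0 e z (hsub1 hz)) t htρ).1
  have hRR : ∀ s ∈ Ioo (-al) al, (s : ℂ) ∈ RR al ρ ∧ (s : ℂ) ≠ (al : ℂ) ∧ (s : ℂ) ≠ -(al : ℂ) := by
    intro s hs
    refine ⟨⟨?_, ?_, ?_⟩, ?_, ?_⟩
    · rw [Complex.ofReal_re]
      have := abs_lt.2 hs
      linarith
    · rw [Complex.ofReal_im]
      linarith
    · rw [Complex.ofReal_im]
      exact hρ0
    · intro h
      exact hs.2.ne (Complex.ofReal_injective h)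
    · intro h
      have h' : s = -al := by exact_mod_cast h
      exact hs.1.ne' h'
  have hkk : ContinuousOn (fun s : ℝ => kk al (s : ℂ)) (Ioo (-al) al) := by
    have h2 : ContinuousOn (fun s : ℝ => ((Real.sqrt (Real.cos s - Real.cos al) : ℝ) : ℂ)) (Ioo (-al) al) := by
      apply Continuous.continuousOn
      exact Complex.continuous_ofReal.comp (Real.continuous_sqrt.comp (Real.continuous_cos.sub continuous_const))
    exact h2.congr fun s hs => kk_real (cos_gt hal hs).le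
  have hkkb : ∀ s ∈ Ioo (-al) al, ‖kk al (s : ℂ) ^ 3‖ ≤ 8 := by
    intro s hs
    rw [norm_pow, kk_real (cos_gt hal hs).le, Complex.norm_real, Real.norm_eq_abs, abs_of_nonneg (Real.sqrt_nonneg _)]
    have h2 : Real.sqrt (Real.cos s - Real.cos al) ≤ 2 := by
      rw [Real.sqrt_le_left (by norm_num)]
      have h3 := Real.cos_le_one s
      have h4 := Real.neg_one_le_cos al
      linarith
    calc Real.sqrt (Real.cos s - Real.cos al) ^ 3 ≤ 2 ^ 3 := pow_le_pow_left₀ (Real.sqrt_nonneg _) h2 3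
      _ = 8 := by norm_num
  have hK0c : ContinuousOn (fun s : ℝ => K0 al t (s : ℂ)) (Ioo (-al) al) := by
    intro s hs
    obtain ⟨g1, g2, g3⟩ := hRR s hs
    obtain ⟨-, -, -, g4, -⟩ := hker s g1 g2 g3
    exact (ContinuousAt.comp (f := fun s : ℝ => (s : ℂ)) g4.continuousAt
      Complex.continuous_ofReal.continuousAt).continuousWithinAt
  have hThc : ContinuousOn (fun s : ℝ => Th al (Z e) (X e) (u e) t (s : ℂ)) (Ioo (-al) al) := by
    intro s hs
    obtain ⟨g1, g2, g3⟩ := hRR s hs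
    obtain ⟨g4, -, -, -, -⟩ := hker s g1 g2 g3
    exact (ContinuousAt.comp (f := fun s : ℝ => (s : ℂ)) g4.continuousAt
      Complex.continuous_ofReal.continuousAt).continuousWithinAt
  -- the Legendre functions on the segment
  set r' : ℝ := max (5/2) t.im with hr'
  have hr'1 : 5/2 ≤ r' := le_max_left _ _
  have hr'2 : r' < r := max_lt (by linarith) htim2
  have hr'3 : |t.im| ≤ r' := by
    rw [abs_of_pos (by linarith)]
    exact le_max_right _ _
  have him : ∀ s : ℝ, (t + (s : ℂ)).im = t.im := fun s => by simp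
  have hFc : ∀ n, Continuous fun s : ℝ => ((x e n : ℝ) : ℂ) * PL n (t + (s : ℂ)) := by
    intro n
    exact continuous_const.mul ((PL_diff n).continuous.comp (continuous_const.add Complex.continuous_ofReal))
  have hWp : ∀ n, 0 < WW n r' := fun n => mul_pos (cc_pos _) (Real.exp_pos _)
  have hPb : ∀ n, ∀ s : ℝ, ‖PL n (t + (s : ℂ))‖ ≤ 4 * WW n r' := by
    intro n s
    refine PL_bound n (by linarith) ?_
    rw [him]
    exact hr'3
  have hFb : ∀ n, ∀ s ∈ Ioo (-al) al, ‖((x e n : ℝ) : ℂ) * PL n (t + (s : ℂ))‖ ≤ 4 * (XM n * WW n r') := by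
    intro n s _
    rw [norm_mul, Complex.norm_real, Real.norm_eq_abs]
    have h2 := mul_le_mul (hxX e n) (hPb n s) (norm_nonneg _) (hXM n)
    linarith
  have hFs : ∀ s ∈ Ioo (-al) al, HasSum (fun n => ((x e n : ℝ) : ℂ) * PL n (t + (s : ℂ))) (f (t + (s : ℂ))) := by
    intro s _
    refine hfsum e (t + (s : ℂ)) ?_
    rw [mem_strip, him]
    constructor <;> linarith
  have hL : HasSum (fun n => ((x e n : ℝ) : ℂ) * ((lam al n : ℂ) * PL n t)) (L0 al f t) := by
    have h2 := M02_integral halp (M := 8 * C3) (by positivity)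
      (Ker := fun s : ℝ => kk al (s : ℂ) ^ 3 * K0 al t (s : ℂ)) ((hkk.pow 3).mul hK0c)
      (fun s hs => by
        obtain ⟨g1, g2, g3⟩ := hRR s hs
        obtain ⟨-, -, -, -, g5⟩ := hker s g1 g2 g3
        rw [norm_mul]
        exact mul_le_mul (hkkb s hs) g5 (norm_nonneg _) (by norm_num))
      hFc hFb ((hs r' hr'1 hr'2).mul_left 4) hFs
    refine h2.congr_fun fun n => ?_
    rw [← L0_PL hal n (by linarith : 1 < t.im), L0, ← intervalIntegral.integral_const_mul]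
    refine intervalIntegral.integral_congr fun s _ => ?_
    show ((x e n : ℝ) : ℂ) * (kk al (s : ℂ) ^ 3 * K0 al t (s : ℂ) * PL n (t + (s : ℂ))) = _
    ring
  have hRop : HasSum (fun m => ((x e m : ℝ) : ℂ) * Rop al (Z e) (X e) (u e) (PL m) t)
      (Rop al (Z e) (X e) (u e) f t) := by
    have h2 := M02_integral halp (M := 8 * (C3 * (C3 * c0))) (by positivity)
      (Ker := fun s : ℝ => kk al (s : ℂ) ^ 3 * (K0 al t (s : ℂ) * Th al (Z e) (X e) (u e) t (s : ℂ)))
      ((hkk.pow 3).mul (hK0c.mul hThc))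
      (fun s hs => by
        obtain ⟨g1, g2, g3⟩ := hRR s hs
        obtain ⟨-, g4, -, -, g5⟩ := hker s g1 g2 g3
        rw [norm_mul, norm_mul]
        refine mul_le_mul (hkkb s hs) ?_ (by positivity) (by norm_num)
        exact mul_le_mul g5 g4 (norm_nonneg _) (by linarith))
      hFc hFb ((hs r' hr'1 hr'2).mul_left 4) hFs
    refine h2.congr_fun fun n => ?_
    rw [Rop, ← intervalIntegral.integral_const_mul]
    refine intervalIntegral.integral_congr fun s _ => ?_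
    show ((x e n : ℝ) : ℂ) * (kk al (s : ℂ) ^ 3 * (K0 al t (s : ℂ) * Th al (Z e) (X e) (u e) t (s : ℂ)) *
      PL n (t + (s : ℂ))) = _
    ring
  have hw1 : ∀ n : ℕ, 1 ≤ (1 + 2 * (n:ℝ)) ^ ((7:ℝ)/2) := fun n =>
    Real.one_le_rpow (by have : (0:ℝ) ≤ n := Nat.cast_nonneg n; linarith) (by norm_num)
  have hRM0 : ∀ n m, 0 ≤ RM n m := fun n m => (abs_nonneg _).trans (hRS.m e n m)
  have hle : ∀ m n : ℕ, RM n m * WW n r' ≤ (1 + 2 * (n:ℝ)) ^ ((7:ℝ)/2) * RM n m * WW n r' := by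
    intro m n
    have h2 : 0 ≤ RM n m * WW n r' := mul_nonneg (hRM0 n m) (hWp n).le
    nlinarith [hw1 n]
  have hRs : ∀ m, Summable fun n => RM n m * WW n r' := fun m =>
    Summable.of_nonneg_of_le (fun n => mul_nonneg (hRM0 n m) (hWp n).le) (hle m) (hRS.n r' hr'1 hr'2 m).1
  have hRt : ∀ m, ∑' n, RM n m * WW n r' ≤ cR * WW m r' := fun m =>
    ((hRs m).tsum_le_tsum (hle m) (hRS.n r' hr'1 hr'2 m).1).trans (hRS.n r' hr'1 hr'2 m).2
  have hRfin := M02_rearrange (R := fun n m => Rm e n m) (P := fun n => PL n t) (W := fun n => WW n r')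
    (hRS.m e) (hxX e) hWp (fun n => PL_bound n (by linarith) hr'3) hRs hRt (hs r' hr'1 hr'2)
    (fun m => hRS.h e m t ht) hRop
  refine (hL.add hRfin).congr_fun fun n => ?_
  push_cast
  ring

end FB
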