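import Pool.Agent.H48.FB.M02
import Pool.Agent.H48.FB.L01
import Pool.Agent.H48.FB.H05
import Pool.Agent.H48.FB.A06

/-! M03: solving `Top x = - f` up to a multiple of `m1 PL 2`. -/

open Complex Set MeasureTheory Filter Topology

noncomputable section

namespace FB

theorem M03_lam_zero {al : ℝ} (hal : al ∈ JJ) : 1/3 ≤ lam al 0 := by
  obtain ⟨h1, h2, h3, h4, h5, h6, h7⟩ := JJ_bounds hal
  rw [lam_zero (by linarith) h3]
  have hpi := Real.pi_gt_three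
  have e1 : 0.61 ≤ 1 - Real.cos al := by linarith
  have e2 : 0.37 ≤ (1 - Real.cos al) ^ 2 := by nlinarith
  have e3 : 1.38 ≤ Real.sin al * (Real.pi / 2) := by nlinarith
  nlinarith

theorem M03_FC {c c' r : ℝ} (hc : c ≤ c') {Z X : EE → ℂ → ℂ} (h : FC c r Z X) : FC c' r Z X :=
  ⟨h.fZ, h.fX, fun e => (h.nb e).mono hc le_rfl le_rfl, h.sy, h.re⟩

theorem M03_US {c c' r : ℝ} (hc : c ≤ c') {u : EE → ℂ → ℂ} (h : US c r u) : US c' r u :=
  ⟨h.fu, fun e z hz => (h.u0 e z hz).trans hc, h.ue, h.up, h.ur⟩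

theorem M03_w (n : ℕ) : 1 ≤ (1 + 2 * (n:ℝ)) ^ ((7:ℝ)/2) :=
  Real.one_le_rpow (by have : (0:ℝ) ≤ n := Nat.cast_nonneg n; linarith) (by norm_num)

theorem M03_WW_zero (r : ℝ) : WW 0 r = 1 := by
  simp [WW, cc]

theorem M03_WW_pos (n : ℕ) (r : ℝ) : 0 < WW n r := mul_pos (cc_pos _) (Real.exp_pos _)

theorem M03_WW_two {r : ℝ} (hr : 5/2 ≤ r) : 1 ≤ WW 2 r := by
  have h5 : (1:ℝ)/5 ≤ cc 4 := by
    refine le_trans ?_ (cc_lower 4)
    generalize hq : Real.sqrt (((4:ℕ):ℝ) + 1) = q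
    have h2 : q ≤ 5/2 := by
      rw [← hq, Real.sqrt_le_left (by norm_num)]
      norm_num
    have h3 : 0 < q := by
      rw [← hq]
      exact Real.sqrt_pos.2 (by norm_num)
    exact one_div_le_one_div_of_le (by positivity) (by linarith)
  have h6 : 11 ≤ Real.exp (2 * ((2:ℕ):ℝ) * r) := by
    have := Real.add_one_le_exp (2 * ((2:ℕ):ℝ) * r)
    push_cast at this ⊢
    linarith
  have h7 : WW 2 r = cc 4 * Real.exp (2 * ((2:ℕ):ℝ) * r) := rfl
  rw [h7]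
  nlinarith

/-- a sum with one additional term -/
theorem M03_single (k : ℕ) (q : ℝ) (P : ℕ → ℂ) :
    HasSum (fun n => (((if n = k then q else 0 : ℝ)) : ℂ) * P n) ((q : ℂ) * P k) := by
  have h := hasSum_single (f := fun n => (((if n = k then q else 0 : ℝ)) : ℂ) * P n) k (by
    intro n hn
    rw [if_neg hn, Complex.ofReal_zero, zero_mul])
  rw [if_pos rfl] at h
  exact h

/-- Write `f/m1 = p0 + p2 PL 2 + h` on `band 1 r`, `‖h‖ ≤ D`; `h` is `EvenExt` (m1 even on the strip, `m1_fam`), real, periodic; Legendre coefficients `l n` of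
`h` by `legOf` (norm `≤ C D ρ^{-9/2}` at `r - ρ`). Solve by `linInv` the system `lam_n y_n + ∑ Rm n m y_m = g_n` (`n ≠ 2`, `y_2 = 0`) with
`g_n = - l_n + (p0/lam_0) Rm n 0` (norm at `r' = r - ρ`: `≤ C D ρ^{-9/2} + C cR |p0|`), and put `x_n = y_n - (p0/lam_0) δ_{n0}`, `xf = ∑ x_n PL n`
(`synthLeg`). Then `lam_n x_n + ∑_m Rm n m x_m = - l_n - p0 δ_{n0}` for `n ≠ 2` and by `Top_synth`
`Top xf/m1 = - f/m1 + s PL 2` with `s = ∑_m Rm 2 m x_m + l_2 + p2`. `|s - p2| ≤ |l_2| + ∑_m RM 2 m |x_m|`, where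
`RM 2 m ≤ cR WW m r'/WW 2 r'` at `r' = r - 1/2 > 5/2`. (`lam al 0 ≥ c > 0` on `JJ` by `lam_zero`.) -/
theorem solve : ∃ c0 C : ℝ, 0 < c0 ∧ 1 ≤ C ∧ ∀ al ∈ JJ, ∀ κ κ2 : ℝ, LB al κ κ2 → ∀ r cA cR : ℝ, 3 < r → r ≤ 5 → 0 ≤ cR → cR ≤ κ / 2 → cA ≤ c0 →
    ∀ Z X u : EE → ℂ → ℂ, FC cA r Z X → US cA r u → ∀ (Rm : EE → ℕ → ℕ → ℝ) (RM : ℕ → ℕ → ℝ), RS al r cR Z X u Rm RM →
    ∀ p0 p2 D : ℝ, |p0| ≤ 1 → |p2| ≤ 1 → 0 ≤ D → ∀ f : EE → ℂ → ℂ, Fam (band 1 r) f →
      (∀ e, ∀ z ∈ band 1 r, f e (z + (Real.pi : ℂ)) = f e z) → (∀ e, EvenExt 1 r (f e)) →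
      (∀ e, ∀ z ∈ band 1 r, f e (-(starRingEnd ℂ) z) = (starRingEnd ℂ) (f e z)) →
      (∀ e, ∀ z ∈ band 1 r, ‖f e z / m1 al (Z e) (X e) (u e) z - ((p0 : ℂ) + (p2 : ℂ) * PL 2 z)‖ ≤ D) →
    ∃ (xf : EE → ℂ → ℂ) (s : EE → ℝ), Fam (strip r) xf ∧
      (∀ e, ∀ z ∈ strip r, xf e (-z) = xf e z ∧ xf e (z + (Real.pi:ℂ)) = xf e z ∧ xf e ((starRingEnd ℂ) z) = (starRingEnd ℂ) (xf e z)) ∧
      Continuous s ∧
      (∀ e, ∀ t ∈ band 2 r, Top al (Z e) (X e) (u e) (xf e) t = - f e t + m1 al (Z e) (X e) (u e) t * (s e : ℂ) * PL 2 t) ∧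
      (∀ ρ : ℝ, 0 < ρ → ρ ≤ 1/2 → ∀ e, ∀ z ∈ strip (r - ρ), ‖xf e z + (p0 / lam al 0 : ℝ)‖ ≤ C / κ * (D + cR * |p0|) * ρ ^ (-(9:ℝ)/2)) ∧
      (∀ e, |s e - p2| ≤ C / κ * (D + cR * |p0|)) := by
  obtain ⟨c1, hc1, hTop⟩ := Top_synth
  obtain ⟨c2, C2, hc2, hC2, hCc2, hm1⟩ := m1_fam 5 (by norm_num)
  obtain ⟨C1, hC1, hleg⟩ := legOf
  refine ⟨min c1 c2, 64 * C1 + 32, lt_min hc1 hc2, by linarith, ?_⟩
  intro al hal κ κ2 hLB r cA cR hr hr5 hcR hcRκ hcA Z X u hFC hUS Rm RM hRS p0 p2 D hp0 hp2 hD f hf hfp hfe hfr hfD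
  have hcA1 : cA ≤ c1 := hcA.trans (min_le_left _ _)
  have hcA2 : cA ≤ c2 := hcA.trans (min_le_right _ _)
  have hsub1 : band 1 r ⊆ strip r := band_subset (by linarith) le_rfl
  have hκ : 0 < κ := hLB.k0
  have hκ1 : κ ≤ 1 := hLB.k1
  have hcA0 : 0 ≤ cA := by
    have e0 : EE := ⟨0, by constructor <;> norm_num⟩
    refine (norm_nonneg _).trans ((hFC.nb e0).z0 0 ?_)
    rw [mem_band, Complex.zero_im]
    constructor <;> linarith
  -- the factor `m1`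
  obtain ⟨hmF, hmP⟩ := hm1 al hal r cA (by linarith) hr5 hcA0 hcA2 Z X u hFC hUS.fu
    (fun e z hz => ⟨hUS.u0 e z hz, hUS.ue e z hz, hUS.up e z hz, hUS.ur e z hz⟩)
  have hm0 : ∀ e, ∀ z ∈ strip r, m1 al (Z e) (X e) (u e) z ≠ 0 := by
    intro e z hz h3
    have h2 := (hmP e z hz).1
    rw [h3, zero_sub, norm_neg, norm_one] at h2
    have h4 : C2 * cA ≤ C2 * c2 := mul_le_mul_of_nonneg_left hcA2 (by linarith)
    linarith
  -- the function `h`
  set h : EE → ℂ → ℂ := fun e z => f e z * (m1 al (Z e) (X e) (u e) z)⁻¹ - ((p0 : ℂ) + (p2 : ℂ) * PL 2 z) with hh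
  have hpd : Differentiable ℂ fun z : ℂ => (p0 : ℂ) + (p2 : ℂ) * PL 2 z :=
    (differentiable_const _).add ((differentiable_const _).mul (PL_diff 2))
  have hhF : Fam (band 1 r) h := (hf.mul ((hmF.mono hsub1).inv fun e z hz => hm0 e z (hsub1 hz))).sub
    (Fam.const hpd.differentiableOn)
  have hhp : ∀ e, ∀ z ∈ band 1 r, h e (z + (Real.pi : ℂ)) = h e z := by
    intro e z hz
    simp only [hh]
    rw [hfp e z hz, (hmP e z (hsub1 hz)).2.2.1, PL_pi]
  have hpi_strip : ∀ z ∈ strip r, z + (Real.pi : ℂ) ∈ strip r := fun z hz => add_real_mem_band hz _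
  have hhe : ∀ e, EvenExt 1 r (h e) := by
    intro e
    refine EvenExt.sub (EvenExt.mul (hfe e) (EvenExt.of_strip (by linarith) ((hmF.diff e).inv (hm0 e)) ?_ ?_))
      (EvenExt.of_strip (by linarith) hpd.differentiableOn ?_ ?_)
    · intro z hz
      show (m1 al (Z e) (X e) (u e) (z + 2 * (Real.pi : ℂ)))⁻¹ = (m1 al (Z e) (X e) (u e) z)⁻¹
      rw [two_mul, ← add_assoc, (hmP e _ (hpi_strip z hz)).2.2.1, (hmP e z hz).2.2.1]
    · intro z hz
      show (m1 al (Z e) (X e) (u e) (-z))⁻¹ = (m1 al (Z e) (X e) (u e) z)⁻¹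
      rw [(hmP e z hz).2.1]
    · intro z _
      show (p0 : ℂ) + (p2 : ℂ) * PL 2 (z + 2 * (Real.pi : ℂ)) = _
      rw [two_mul, ← add_assoc, PL_pi, PL_pi]
    · intro z _
      show (p0 : ℂ) + (p2 : ℂ) * PL 2 (-z) = _
      rw [PL_neg]
  have hhr : ∀ e, ∀ z ∈ band 1 r, h e (-(starRingEnd ℂ) z) = (starRingEnd ℂ) (h e z) := by
    intro e z hz
    have hc : (starRingEnd ℂ) z ∈ strip r := conj_mem_strip (hsub1 hz)
    simp only [hh]
    rw [hfr e z hz, (hmP e _ hc).2.1, (hmP e z (hsub1 hz)).2.2.2, PL_neg, PL_conj, map_sub, map_mul, map_inv₀,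
      map_add, map_mul, Complex.conj_ofReal, Complex.conj_ofReal]
  have hhD : ∀ e, ∀ z ∈ band 1 r, ‖h e z‖ ≤ D := by
    intro e z hz
    have := hfD e z hz
    rwa [div_eq_mul_inv] at this
  obtain ⟨l, L, hlc, hlL, hlS, hlsum⟩ := hleg r D (by linarith) hD h hhF hhp hhe hhr hhD
  -- the constant term
  have hl0 := M03_lam_zero hal
  have hl0p : 0 < lam al 0 := by linarith
  set qq : ℝ := p0 / lam al 0 with hqq
  have hqq1 : lam al 0 * qq = p0 := by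
    rw [hqq]
    field_simp
  have hqqb : |qq| ≤ 3 * |p0| := by
    rw [hqq, abs_div, abs_of_pos hl0p, div_le_iff₀ hl0p]
    nlinarith [abs_nonneg p0]
  have e0 : EE := ⟨0, by constructor <;> norm_num⟩
  have hRM0 : ∀ n m, 0 ≤ RM n m := fun n m => (abs_nonneg _).trans (hRS.m e0 n m)
  have hL0 : ∀ n, 0 ≤ L n := fun n => (abs_nonneg _).trans (hlL e0 n)
  set G : ℕ → ℝ := fun n => L n + |qq| * RM n 0 with hG
  have hGsplit : ∀ (r' : ℝ) (n : ℕ), (1 + 2 * (n:ℝ)) ^ ((7:ℝ)/2) * (G n * WW n r') =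
      (1 + 2 * (n:ℝ)) ^ ((7:ℝ)/2) * (L n * WW n r') + |qq| * ((1 + 2 * (n:ℝ)) ^ ((7:ℝ)/2) * RM n 0 * WW n r') := by
    intro r' n
    simp only [hG]
    ring
  have hGs : ∀ r' : ℝ, 5/2 ≤ r' → r' < r → Summable (fun n : ℕ => (1 + 2 * (n:ℝ)) ^ ((7:ℝ)/2) * (G n * WW n r')) := by
    intro r' h1 h2
    have h3 := (hlS (min 1 (r - r')) r' (lt_min one_pos (by linarith)) (min_le_left _ _) (by linarith)
      (by have := min_le_right 1 (r - r'); linarith)).1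
    simp only [hGsplit]
    exact h3.add ((hRS.n r' h1 h2 0).1.mul_left _)
  have hGb : ∀ ρ : ℝ, 0 < ρ → ρ ≤ 1/2 → ∑' n : ℕ, (1 + 2 * (n:ℝ)) ^ ((7:ℝ)/2) * (G n * WW n (r - ρ)) ≤
      C1 * D * ρ ^ (-(9:ℝ)/2) + 3 * |p0| * cR := by
    intro ρ h1 h2
    have h3 := hlS ρ (r - ρ) h1 (by linarith) (by linarith) le_rfl
    have h4 := hRS.n (r - ρ) (by linarith) (by linarith) 0
    simp only [hGsplit]
    rw [h3.1.tsum_add (h4.1.mul_left _), tsum_mul_left]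
    have h5 := h4.2
    rw [M03_WW_zero, mul_one] at h5
    have h6 : |qq| * ∑' n : ℕ, (1 + 2 * (n:ℝ)) ^ ((7:ℝ)/2) * RM n 0 * WW n (r - ρ) ≤ 3 * |p0| * cR :=
      mul_le_mul hqqb h5 (tsum_nonneg fun n => mul_nonneg (mul_nonneg (zero_le_one.trans (M03_w n)) (hRM0 _ _))
        (M03_WW_pos _ _).le) (by positivity)
    linarith [h3.2]
  obtain ⟨y, YM, hyc, hyY, hy2, hyS, hyeq, hYs, hyt⟩ := linInv hκ hr.le hcR hcRκ hLB.hl hRS.c hRS.m hRS.n
    (g := fun e n => - l e n + qq * Rm e n 0) (G := G)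
    (fun n => (hlc n).neg.add (continuous_const.mul (hRS.c n 0)))
    (fun e n => by
      refine (abs_add_le _ _).trans ?_
      rw [abs_neg, abs_mul]
      exact add_le_add (hlL e n) (mul_le_mul_of_nonneg_left (hRS.m e n 0) (abs_nonneg _))) hGs
  have hYM0 : ∀ n, 0 ≤ YM n := fun n => (abs_nonneg _).trans (hyY e0 n)
  -- the solution
  set x : EE → ℕ → ℝ := fun e n => y e n - (if n = 0 then qq else 0) with hx
  set XM : ℕ → ℝ := fun n => YM n + (if n = 0 then |qq| else 0) with hXM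
  have hxc : ∀ n, Continuous fun e => x e n := fun n => (hyc n).sub continuous_const
  have hxX : ∀ e n, |x e n| ≤ XM n := by
    intro e n
    simp only [hx, hXM]
    refine (abs_sub _ _).trans (add_le_add (hyY e n) ?_)
    split_ifs
    · exact le_rfl
    · rw [abs_zero]
  have hXs : ∀ r' : ℝ, 5/2 ≤ r' → r' < r → Summable (fun n : ℕ => XM n * WW n r') := by
    intro r' h1 h2
    have h3 := (hYs r' h1 h2).1
    have h4 : Summable fun n : ℕ => (if n = 0 then |qq| else 0) * WW n r' :=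
      summable_of_ne_finset_zero (s := {0}) (by
        intro n hn
        rw [Finset.mem_singleton] at hn
        rw [if_neg hn, zero_mul])
    have h5 : (fun n : ℕ => XM n * WW n r') = fun n => YM n * WW n r' + (if n = 0 then |qq| else 0) * WW n r' := by
      funext n
      simp only [hXM]
      ring
    rw [h5]
    exact h3.add h4
  obtain ⟨hxF, hxsum, hxsym, -⟩ := synthLeg hr.le hxc hxX hXs
  obtain ⟨-, hysum, -, hybd⟩ := synthLeg hr.le hyc hyY (fun r' h1 h2 => (hYs r' h1 h2).1)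
  set xf : EE → ℂ → ℂ := fun e z => ∑' n, ((x e n : ℝ) : ℂ) * PL n z with hxf
  have hxy : ∀ e, ∀ z ∈ strip r, xf e z + (qq : ℂ) = ∑' n, ((y e n : ℝ) : ℂ) * PL n z := by
    intro e z hz
    have h1 := (hysum e z hz).sub (M03_single 0 qq (fun n => PL n z))
    have h2 := hxsum e z hz
    have h3 : (fun n => ((x e n : ℝ) : ℂ) * PL n z) = fun n => ((y e n : ℝ) : ℂ) * PL n z -
        (((if n = 0 then qq else 0 : ℝ)) : ℂ) * PL n z := by
      funext n
      simp only [hx]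
      push_cast
      ring
    rw [← h3] at h1
    have h4 := h2.unique h1
    show (∑' n, ((x e n : ℝ) : ℂ) * PL n z) + (qq : ℂ) = _
    rw [h4, PL_zero, mul_one, sub_add_cancel]
  -- the sums over the matrix
  have hRx : ∀ e n, ∑' m, Rm e n m * x e m = ∑' m, Rm e n m * y e m - qq * Rm e n 0 := by
    intro e n
    have h1 := (hyS e n).hasSum.sub (hasSum_single (f := fun m => Rm e n m * (if m = 0 then qq else 0)) 0 (by
      intro m hm
      rw [if_neg hm, mul_zero]))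
    have h2 : (fun m => Rm e n m * x e m) = fun m => Rm e n m * y e m - Rm e n m * (if m = 0 then qq else 0) := by
      funext m
      simp only [hx]
      ring
    rw [h2, h1.tsum_eq, if_pos rfl, mul_comm qq]
  set s : EE → ℝ := fun e => p2 + l e 2 + (∑' m, Rm e 2 m * y e m - qq * Rm e 2 0) with hs
  have hcoef : ∀ e n, lam al n * x e n + ∑' m, Rm e n m * x e m =
      -(l e n) - (if n = 0 then p0 else 0) + (if n = 2 then s e - p2 else 0) := by
    intro e n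
    rw [hRx]
    by_cases hn : n = 2
    · subst hn
      rw [if_neg (by norm_num), if_pos rfl]
      have h1 : x e 2 = 0 := by
        simp only [hx]
        rw [hy2 e, if_neg (by norm_num), sub_zero]
      rw [h1]
      simp only [hs]
      ring
    · rw [if_neg hn]
      have h1 := hyeq e n hn
      simp only [hx]
      by_cases hn0 : n = 0
      · subst hn0
        rw [if_pos rfl, if_pos rfl]
        linear_combination h1 - hqq1
      · rw [if_neg hn0, if_neg hn0]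
        linear_combination h1
  refine ⟨xf, s, hxF, fun e z hz => hxsym e z hz, ?_, ?_, ?_, ?_⟩
  · exact (continuous_const.add (hlc 2)).add ((hyt 2).sub (continuous_const.mul (hRS.c 2 0)))
  · intro e t ht
    have ht1 : t ∈ band 1 r := band_subset (by norm_num) le_rfl ht
    have h1 := hTop al hal r cR hr hr5 hcR Z X u (M03_FC hcA1 hFC) (M03_US hcA1 hUS) Rm RM hRS x XM hxc hxX hXs e t ht
    have h2 := (((hlsum e t ht1).neg).sub (M03_single 0 p0 (fun n => PL n t))).add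
      (M03_single 2 (s e - p2) (fun n => PL n t))
    have h3 : (fun n => ((lam al n * x e n + ∑' m, Rm e n m * x e m : ℝ) : ℂ) * PL n t) = fun n =>
        -(((l e n : ℝ) : ℂ) * PL n t) - (((if n = 0 then p0 else 0 : ℝ)) : ℂ) * PL n t +
          (((if n = 2 then s e - p2 else 0 : ℝ)) : ℂ) * PL n t := by
      funext n
      rw [hcoef]
      push_cast
      ring
    rw [← h3] at h2
    have h4 := h1.unique h2
    have hm := hm0 e t (hsub1 ht1)
    rw [div_eq_iff hm] at h4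
    show Top al (Z e) (X e) (u e) (fun z => ∑' n, ((x e n : ℝ) : ℂ) * PL n z) t = _
    rw [h4, PL_zero]
    simp only [hh]
    push_cast
    field_simp
    ring
  · intro ρ hρ hρ2 e z hz
    have hz' : z ∈ strip r := by
      rw [mem_strip] at hz ⊢
      constructor <;> linarith [hz.1, hz.2]
    have hz3 : |z.im| ≤ r - ρ := by
      rw [mem_strip] at hz
      exact (abs_lt.2 hz).le
    have hρ1 : 1 ≤ ρ ^ (-(9:ℝ)/2) :=
      Real.one_le_rpow_of_pos_of_le_one_of_nonpos hρ (by linarith) (by norm_num)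
    rw [hxy e z hz']
    have h1 := hybd (r - ρ) (by linarith) (by linarith) e z hz3
    have h2 := (hYs (r - ρ) (by linarith) (by linarith)).2
    have h3 := hGb ρ hρ hρ2
    have h4 : 2 / κ * ∑' n : ℕ, (1 + 2 * (n:ℝ)) ^ ((7:ℝ)/2) * (G n * WW n (r - ρ)) ≤
        2 / κ * (C1 * D * ρ ^ (-(9:ℝ)/2) + 3 * |p0| * cR) := mul_le_mul_of_nonneg_left h3 (by positivity)
    refine h1.trans ?_
    have h5 : 4 * ∑' n : ℕ, YM n * WW n (r - ρ) ≤ 4 * (2 / κ * (C1 * D * ρ ^ (-(9:ℝ)/2) + 3 * |p0| * cR)) := by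
      linarith
    refine h5.trans ?_
    have h6 : 0 ≤ cR * |p0| := mul_nonneg hcR (abs_nonneg _)
    have h7 : cR * |p0| ≤ cR * |p0| * ρ ^ (-(9:ℝ)/2) := le_mul_of_one_le_right h6 hρ1
    have h8 : 0 ≤ D * ρ ^ (-(9:ℝ)/2) := by positivity
    have h9 : 8 * (C1 * D * ρ ^ (-(9:ℝ)/2) + 3 * |p0| * cR) ≤
        (64 * C1 + 32) * (D + cR * |p0|) * ρ ^ (-(9:ℝ)/2) := by
      have g1 : 0 ≤ C1 * (D * ρ ^ (-(9:ℝ)/2)) := by positivity
      have g2 : 0 ≤ C1 * (cR * |p0| * ρ ^ (-(9:ℝ)/2)) := by positivity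
      nlinarith
    have h10 : 4 * (2 / κ * (C1 * D * ρ ^ (-(9:ℝ)/2) + 3 * |p0| * cR)) =
        (8 * (C1 * D * ρ ^ (-(9:ℝ)/2) + 3 * |p0| * cR)) / κ := by ring
    have h11 : (64 * C1 + 32) / κ * (D + cR * |p0|) * ρ ^ (-(9:ℝ)/2) =
        ((64 * C1 + 32) * (D + cR * |p0|) * ρ ^ (-(9:ℝ)/2)) / κ := by ring
    rw [h10, h11]
    exact div_le_div_of_nonneg_right h9 hκ.le
  · intro e
    have hρ : ((1:ℝ)/2) ^ (-(9:ℝ)/2) ≤ 32 := by
      have h1 : ((1:ℝ)/2) ^ (-(9:ℝ)/2) ≤ ((1:ℝ)/2) ^ (-(5:ℝ)) :=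
        Real.rpow_le_rpow_of_exponent_ge (by norm_num) (by norm_num) (by norm_num)
      have h2 : ((1:ℝ)/2) ^ (-(5:ℝ)) = 32 := by
        rw [Real.rpow_neg (by norm_num)]
        norm_num
      linarith
    set r1 : ℝ := r - 1/2 with hr1
    have hW2 : 1 ≤ WW 2 r1 := M03_WW_two (by rw [hr1]; linarith)
    have hw2 := M03_w 2
    -- the coefficient `l 2`
    have hL2 : L 2 ≤ 32 * (C1 * D) := by
      have h1 := hlS (1/2) r1 (by norm_num) (by norm_num) (by rw [hr1]; linarith) le_rfl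
      have h2 := h1.1.le_tsum 2 (fun n _ => mul_nonneg (zero_le_one.trans (M03_w n))
        (mul_nonneg (hL0 n) (M03_WW_pos _ _).le))
      have h3 : L 2 ≤ (1 + 2 * ((2:ℕ):ℝ)) ^ ((7:ℝ)/2) * (L 2 * WW 2 r1) := by
        have g1 : L 2 ≤ L 2 * WW 2 r1 := le_mul_of_one_le_right (hL0 2) hW2
        have g2 : L 2 * WW 2 r1 ≤ (1 + 2 * ((2:ℕ):ℝ)) ^ ((7:ℝ)/2) * (L 2 * WW 2 r1) :=
          le_mul_of_one_le_left (mul_nonneg (hL0 2) (M03_WW_pos _ _).le) hw2
        linarith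
      have h4 : C1 * D * ((1:ℝ)/2) ^ (-(9:ℝ)/2) ≤ C1 * D * 32 := mul_le_mul_of_nonneg_left hρ (by positivity)
      linarith [h1.2]
    have hRM2 : ∀ m, RM 2 m ≤ cR * WW m r1 := by
      intro m
      have h1 := hRS.n r1 (by rw [hr1]; linarith) (by rw [hr1]; linarith) m
      have h2 := h1.1.le_tsum 2 (fun n _ => mul_nonneg (mul_nonneg (zero_le_one.trans (M03_w n)) (hRM0 _ _))
        (M03_WW_pos _ _).le)
      have g1 : RM 2 m ≤ (1 + 2 * ((2:ℕ):ℝ)) ^ ((7:ℝ)/2) * RM 2 m := le_mul_of_one_le_left (hRM0 _ _) hw2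
      have g2 : (1 + 2 * ((2:ℕ):ℝ)) ^ ((7:ℝ)/2) * RM 2 m ≤ (1 + 2 * ((2:ℕ):ℝ)) ^ ((7:ℝ)/2) * RM 2 m * WW 2 r1 :=
        le_mul_of_one_le_right (mul_nonneg (zero_le_one.trans hw2) (hRM0 _ _)) hW2
      linarith [h1.2]
    have hS1 : ∑' n : ℕ, YM n * WW n r1 ≤ 2 / κ * (32 * (C1 * D) + 3 * |p0| * cR) := by
      have h1 := (hYs r1 (by rw [hr1]; linarith) (by rw [hr1]; linarith)).2
      have h2 := hGb (1/2) (by norm_num) le_rfl
      have h4 : C1 * D * ((1:ℝ)/2) ^ (-(9:ℝ)/2) ≤ C1 * D * 32 := mul_le_mul_of_nonneg_left hρ (by positivity)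
      have h5 : ∑' n : ℕ, (1 + 2 * (n:ℝ)) ^ ((7:ℝ)/2) * (G n * WW n r1) ≤ 32 * (C1 * D) + 3 * |p0| * cR := by
        linarith
      exact h1.trans (mul_le_mul_of_nonneg_left h5 (by positivity))
    have hσ1 : |∑' m, Rm e 2 m * y e m| ≤ cR * ∑' n : ℕ, YM n * WW n r1 := by
      have hsm : Summable fun m : ℕ => cR * (YM m * WW m r1) :=
        (hYs r1 (by rw [hr1]; linarith) (by rw [hr1]; linarith)).1.mul_left cR
      rw [← tsum_mul_left, ← Real.norm_eq_abs]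
      refine tsum_of_norm_bounded hsm.hasSum fun m => ?_
      rw [Real.norm_eq_abs, abs_mul]
      have g1 : |Rm e 2 m| * |y e m| ≤ (cR * WW m r1) * YM m :=
        mul_le_mul ((hRS.m e 2 m).trans (hRM2 m)) (hyY e m) (abs_nonneg _) (mul_nonneg hcR (M03_WW_pos _ _).le)
      linarith
    have hσ2 : |qq * Rm e 2 0| ≤ 3 * |p0| * cR := by
      rw [abs_mul]
      have g1 := hRM2 0
      rw [M03_WW_zero, mul_one] at g1
      exact mul_le_mul hqqb ((hRS.m e 2 0).trans g1) (abs_nonneg _) (by positivity)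
    have hcS : cR * ∑' n : ℕ, YM n * WW n r1 ≤ 32 * (C1 * D) + 3 * |p0| * cR := by
      have g1 : cR * ∑' n : ℕ, YM n * WW n r1 ≤ cR * (2 / κ * (32 * (C1 * D) + 3 * |p0| * cR)) :=
        mul_le_mul_of_nonneg_left hS1 hcR
      have g2 : cR * (2 / κ * (32 * (C1 * D) + 3 * |p0| * cR)) = (cR * 2 / κ) * (32 * (C1 * D) + 3 * |p0| * cR) := by
        ring
      have g3 : cR * 2 / κ ≤ 1 := by
        rw [div_le_one hκ]
        linarith
      have g4 : 0 ≤ 32 * (C1 * D) + 3 * |p0| * cR := by positivity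
      have g5 : (cR * 2 / κ) * (32 * (C1 * D) + 3 * |p0| * cR) ≤ 1 * (32 * (C1 * D) + 3 * |p0| * cR) :=
        mul_le_mul_of_nonneg_right g3 g4
      linarith
    have h1 : |s e - p2| ≤ |l e 2| + (|∑' m, Rm e 2 m * y e m| + |qq * Rm e 2 0|) := by
      have e1 : s e - p2 = l e 2 + (∑' m, Rm e 2 m * y e m - qq * Rm e 2 0) := by
        simp only [hs]
        ring
      rw [e1]
      exact (abs_add_le _ _).trans (add_le_add le_rfl (abs_sub _ _))
    have h2 := hlL e 2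
    have h3 : |s e - p2| ≤ (64 * C1 + 32) * (D + cR * |p0|) := by
      have g1 : 0 ≤ C1 * (cR * |p0|) := by positivity
      have g2 : 0 ≤ cR * |p0| := by positivity
      nlinarith
    refine h3.trans ?_
    have h4 : 0 ≤ (64 * C1 + 32) * (D + cR * |p0|) := by positivity
    have h5 : (64 * C1 + 32) / κ * (D + cR * |p0|) = ((64 * C1 + 32) * (D + cR * |p0|)) / κ := by ring
    rw [h5, le_div_iff₀ hκ]
    nlinarith

end FB
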