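import Pool.Agent.H48.FB.NDefs
import Pool.Agent.H48.FB.M03
import Pool.Agent.H48.FB.G01
import Pool.Agent.H48.FB.G05

/-! M04: the three basic solutions. -/

open Complex Set MeasureTheory Filter Topology

noncomputable section

namespace FB

theorem m04_FC_mono {c c' r : ℝ} {Z X : EE → ℂ → ℂ} (h : FC c r Z X) (hc : c ≤ c') : FC c' r Z X where
  fZ := h.fZ
  fX := h.fX
  nb := fun e => (h.nb e).mono hc le_rfl le_rfl
  sy := h.sy
  re := h.re

theorem m04_two_pi {f : ℂ → ℂ} {a b : ℝ} (h : ∀ t ∈ band a b, f (t + (Real.pi : ℂ)) = f t) :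
    ∀ t ∈ band a b, f (t + 2 * (Real.pi : ℂ)) = f t := by
  intro t ht
  have h1 : t + 2 * (Real.pi : ℂ) = (t + (Real.pi : ℂ)) + (Real.pi : ℂ) := by ring
  rw [h1, h _ (add_real_mem_band ht Real.pi), h t ht]

/-- quotient by `m1` -/
theorem m04_quot {f p m : ℂ} {a b K : ℝ} (hm : ‖m - 1‖ ≤ b) (hb : b ≤ 1/10) (hf : ‖f - p‖ ≤ a) (hp : ‖p‖ ≤ K) :
    ‖f / m - p‖ ≤ 2 * (a + K * b) := by
  have hb0 : 0 ≤ b := (norm_nonneg _).trans hm
  have ha0 : 0 ≤ a := (norm_nonneg _).trans hf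
  have hK0 : 0 ≤ K := (norm_nonneg _).trans hp
  have hm1 : 1/2 ≤ ‖m‖ := by
    have := norm_sub_norm_le (1:ℂ) m
    rw [norm_one, norm_sub_rev] at this
    linarith
  have hm0 : m ≠ 0 := by
    intro h
    rw [h, norm_zero] at hm1
    linarith
  have e : f / m - p = ((f - p) - p * (m - 1)) / m := by
    field_simp
    ring
  rw [e, norm_div, div_le_iff₀ (by linarith)]
  have h1 : ‖(f - p) - p * (m - 1)‖ ≤ a + K * b := by
    refine (norm_sub_le _ _).trans (add_le_add hf ?_)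
    rw [norm_mul]
    exact mul_le_mul hp hm (norm_nonneg _) hK0
  have h2 : 0 ≤ a + K * b := by positivity
  nlinarith

/-- closeness of `Yf` -/
theorem m04_Y {al D K : ℝ} (hal : al ∈ JJ) (hD : D ≤ 1/100) (hK : 1 ≤ K) {Z X : ℂ → ℂ} {t : ℂ} (h : ChordBd D al Z X t)
    (hc : ‖cos t‖ ≤ K) : ‖Yf al Z X t - (Real.sin al : ℂ) * PL 2 t‖ ≤ 1000 * K ^ 4 * D := by
  obtain ⟨-, -, -, -, -, hs1, hs2⟩ := JJ_bounds hal
  have hD0 : 0 ≤ D := (norm_nonneg _).trans h.nz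
  set l := ell al Z X t with hl
  set n := nz al X t with hn
  set c := cos t with hcdef
  set σ : ℂ := (Real.sin al : ℂ) with hσ
  have hσn : ‖σ‖ = Real.sin al := by
    rw [hσ, Complex.norm_real, Real.norm_of_nonneg (by linarith)]
  have hle := h.ell
  have hnz := h.nz
  rw [← hl, ← hσ] at hle
  rw [← hn, ← hσ] at hnz
  have hl1 : 1/2 ≤ ‖l‖ := by
    have := norm_sub_norm_le σ l
    rw [norm_sub_rev, hσn] at this
    linarith
  have hl2 : ‖l‖ ≤ 1 := by
    have := norm_le_norm_add_norm_sub' l σ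
    rw [hσn] at this
    linarith
  have hl0 : l ≠ 0 := by
    intro h0
    rw [h0, norm_zero] at hl1
    linarith
  have e1 : n / l - c = ((n - σ * c) - (l - σ) * c) / l := by
    field_simp
    ring
  have q1 : ‖n / l - c‖ ≤ 4 * K * D := by
    rw [e1, norm_div, div_le_iff₀ (by linarith)]
    have h1 : ‖(n - σ * c) - (l - σ) * c‖ ≤ D + D * K := by
      refine (norm_sub_le _ _).trans (add_le_add hnz ?_)
      rw [norm_mul]
      exact mul_le_mul hle hc (norm_nonneg _) hD0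
    have h2 : 0 ≤ K * D := by positivity
    nlinarith
  have q2 : ‖n / l‖ ≤ 2 * K := by
    have := norm_le_norm_add_norm_sub' (n / l) c
    have h2 : 0 ≤ K * D := by positivity
    nlinarith
  set q := n / l with hq
  have hK0 : 0 ≤ K := by linarith
  have c2 : ‖c‖ ≤ 2 * K := by linarith
  have hY : Yf al Z X t = l * (35 * q ^ 4 - 30 * q ^ 2 + 3) / 8 := rfl
  have e2 : Yf al Z X t - σ * PL 2 t =
      l * ((q - c) * (35 * (q ^ 3 + q ^ 2 * c + q * c ^ 2 + c ^ 3) - 30 * (q + c))) / 8 +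
        (l - σ) * (35 * c ^ 4 - 30 * c ^ 2 + 3) / 8 := by
    rw [hY, PL_two]
    ring
  have b1 : ‖35 * (q ^ 3 + q ^ 2 * c + q * c ^ 2 + c ^ 3) - 30 * (q + c)‖ ≤ 35 * (4 * (2 * K) ^ 3) + 30 * (4 * K) := by
    refine (norm_sub_le _ _).trans (add_le_add ?_ ?_)
    · rw [norm_mul]
      have h35 : ‖(35:ℂ)‖ = 35 := by norm_num
      rw [h35]
      refine mul_le_mul_of_nonneg_left ?_ (by norm_num)
      have t1 : ‖q ^ 3‖ ≤ (2 * K) ^ 3 := by
        rw [norm_pow]; exact pow_le_pow_left₀ (norm_nonneg _) q2 3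
      have t2 : ‖q ^ 2 * c‖ ≤ (2 * K) ^ 3 := by
        rw [norm_mul, norm_pow, pow_succ (2 * K) 2]
        exact mul_le_mul (pow_le_pow_left₀ (norm_nonneg _) q2 2) c2 (norm_nonneg _) (by positivity)
      have t3 : ‖q * c ^ 2‖ ≤ (2 * K) ^ 3 := by
        rw [norm_mul, norm_pow, pow_succ' (2 * K) 2]
        exact mul_le_mul q2 (pow_le_pow_left₀ (norm_nonneg _) c2 2) (by positivity) (by positivity)
      have t4 : ‖c ^ 3‖ ≤ (2 * K) ^ 3 := by
        rw [norm_pow]; exact pow_le_pow_left₀ (norm_nonneg _) c2 3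
      have := norm_add_le (q ^ 3 + q ^ 2 * c + q * c ^ 2) (c ^ 3)
      have := norm_add_le (q ^ 3 + q ^ 2 * c) (q * c ^ 2)
      have := norm_add_le (q ^ 3) (q ^ 2 * c)
      linarith
    · rw [norm_mul]
      have h30 : ‖(30:ℂ)‖ = 30 := by norm_num
      rw [h30]
      have := norm_add_le q c
      linarith
  have b2 : ‖35 * c ^ 4 - 30 * c ^ 2 + 3‖ ≤ 35 * K ^ 4 + 30 * K ^ 2 + 3 := by
    have t1 : ‖35 * c ^ 4‖ ≤ 35 * K ^ 4 := by
      rw [norm_mul, norm_pow]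
      have h35 : ‖(35:ℂ)‖ = 35 := by norm_num
      rw [h35]
      exact mul_le_mul_of_nonneg_left (pow_le_pow_left₀ (norm_nonneg _) hc 4) (by norm_num)
    have t2 : ‖30 * c ^ 2‖ ≤ 30 * K ^ 2 := by
      rw [norm_mul, norm_pow]
      have h30 : ‖(30:ℂ)‖ = 30 := by norm_num
      rw [h30]
      exact mul_le_mul_of_nonneg_left (pow_le_pow_left₀ (norm_nonneg _) hc 2) (by norm_num)
    have t3 : ‖(3:ℂ)‖ = 3 := by norm_num
    have := norm_add_le (35 * c ^ 4 - 30 * c ^ 2) 3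
    have := norm_sub_le (35 * c ^ 4) (30 * c ^ 2)
    linarith
  have hK2 : K ≤ K ^ 2 := by nlinarith
  have hK24 : K ^ 2 ≤ K ^ 4 := by nlinarith [sq_nonneg K]
  have hK34 : K ^ 3 * K = K ^ 4 := by ring
  rw [e2]
  refine (norm_add_le _ _).trans ?_
  have s1 : ‖l * ((q - c) * (35 * (q ^ 3 + q ^ 2 * c + q * c ^ 2 + c ^ 3) - 30 * (q + c))) / 8‖ ≤
      1 * ((4 * K * D) * (35 * (4 * (2 * K) ^ 3) + 30 * (4 * K))) / 8 := by
    rw [norm_div, norm_mul, norm_mul]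
    have h8 : ‖(8:ℂ)‖ = 8 := by norm_num
    rw [h8]
    refine div_le_div_of_nonneg_right ?_ (by norm_num)
    exact mul_le_mul hl2 (mul_le_mul q1 b1 (norm_nonneg _) (by positivity)) (by positivity) (by norm_num)
  have s2 : ‖(l - σ) * (35 * c ^ 4 - 30 * c ^ 2 + 3) / 8‖ ≤ D * (35 * K ^ 4 + 30 * K ^ 2 + 3) / 8 := by
    rw [norm_div, norm_mul]
    have h8 : ‖(8:ℂ)‖ = 8 := by norm_num
    rw [h8]
    refine div_le_div_of_nonneg_right ?_ (by norm_num)
    exact mul_le_mul hle b2 (norm_nonneg _) hD0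
  have u1 : D * K ≤ D * K ^ 4 := mul_le_mul_of_nonneg_left (hK2.trans hK24) hD0
  have u2 : D * K ^ 2 ≤ D * K ^ 4 := mul_le_mul_of_nonneg_left hK24 hD0
  have u3 : D * 1 ≤ D * K := mul_le_mul_of_nonneg_left hK hD0
  have e3 : 1 * ((4 * K * D) * (35 * (4 * (2 * K) ^ 3) + 30 * (4 * K))) / 8 = 560 * (D * K ^ 4) + 60 * (D * K ^ 2) := by ring
  have e4 : D * (35 * K ^ 4 + 30 * K ^ 2 + 3) / 8 = (35 * (D * K ^ 4) + 30 * (D * K ^ 2) + 3 * (D * 1)) / 8 := by ring
  rw [e3] at s1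
  rw [e4] at s2
  linarith

/-- `solve` (M03) with `f = SS` (`p0 = p2 = 0`, `D = 2E`), `f = et` (`p0 = sin al cos al`, `p2 = 0`, `D = C cA`), `f = Yf` (`p0 = 0`, `p2 = sin al`,
`D = C cA`). Hypotheses on `f`: families by C01, B03 (`fam_functionals`, `fam_strip`), evenness by `SS_even` (G01) and by `fam_strip` (parity on the
full strip, `EvenExt.of_strip`), periodicity and reality by C01 (`functionals_pi`, `functionals_conj`, `ureal_of`). Closeness: `chord_bd_strip`, `m1_fam`;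
`Yf` at the circle is `sin al PL 2`. -/
theorem three : ∃ c1 C : ℝ, 0 < c1 ∧ 1 ≤ C ∧ ∀ al ∈ JJ, ∀ κ κ2 : ℝ, LB al κ κ2 → ∀ r cA cR E : ℝ, 3 < r → r ≤ 4 → 0 ≤ cA → cA ≤ c1 →
    0 ≤ cR → cR ≤ κ / 2 → 0 ≤ E → ∀ (Z X u : EE → ℂ → ℂ) (Rm : EE → ℕ → ℕ → ℝ) (RM : ℕ → ℕ → ℝ) (V0 mu : EE → ℝ),
    St al r cA cR E Z X u Rm RM V0 mu →
    ∃ (x0 x1 x2 : EE → ℂ → ℂ) (s0 s1 s2 : EE → ℝ), Basic3 al r (C / κ) (C / κ * (cA + cR)) E Z X u V0 mu x0 x1 x2 s0 s1 s2 := by
  obtain ⟨ca, Ca, hca, hCa, Hsolve⟩ := solve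
  obtain ⟨cb, Cb, hcb, hCb, hCcb, Hm1⟩ := m1_fam 4 (by norm_num)
  obtain ⟨cc', hcc, Hstrip⟩ := fam_strip 4 (by norm_num)
  obtain ⟨cd, Cd, hcd, hCd, Hfun⟩ := fam_functionals 4 (by norm_num)
  obtain ⟨ce, hce, Hconj⟩ := functionals_conj 4 (by norm_num)
  obtain ⟨cf, hcf, Heven⟩ := SS_even 4 (by norm_num)
  obtain ⟨cg, Cg, hcg, hCg, hCcg, Hchord⟩ := chord_bd_strip 4 (by norm_num)
  set K : ℝ := Real.exp 4 with hK
  have hK1 : 1 ≤ K := Real.one_le_exp (by norm_num)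
  have hK0 : 0 ≤ K := by linarith
  have hCa0 : 0 ≤ Ca := by linarith
  have hCb0 : 0 ≤ Cb := by linarith
  have hCg0 : 0 ≤ Cg := by linarith
  -- bound of `PL 2`
  have hcos : ∀ z ∈ band 1 4, ‖cos z‖ ≤ K := by
    intro z hz
    refine (b01_norm_cos z).trans (Real.exp_le_exp.2 ?_)
    rw [abs_of_pos (by linarith [hz.1])]
    exact hz.2.le
  have hPL : ∀ z ∈ band 1 4, ‖PL 2 z‖ ≤ 9 * K ^ 4 := by
    intro z hz
    have hc := hcos z hz
    have t1 : ‖35 * cos z ^ 4‖ ≤ 35 * K ^ 4 := by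
      rw [norm_mul, norm_pow]
      have h35 : ‖(35:ℂ)‖ = 35 := by norm_num
      rw [h35]
      exact mul_le_mul_of_nonneg_left (pow_le_pow_left₀ (norm_nonneg _) hc 4) (by norm_num)
    have t2 : ‖30 * cos z ^ 2‖ ≤ 30 * K ^ 2 := by
      rw [norm_mul, norm_pow]
      have h30 : ‖(30:ℂ)‖ = 30 := by norm_num
      rw [h30]
      exact mul_le_mul_of_nonneg_left (pow_le_pow_left₀ (norm_nonneg _) hc 2) (by norm_num)
    have t3 : ‖(3:ℂ)‖ = 3 := by norm_num
    have h8 : ‖(8:ℂ)‖ = 8 := by norm_num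
    have e1 := norm_add_le (35 * cos z ^ 4 - 30 * cos z ^ 2) 3
    have e2 := norm_sub_le (35 * cos z ^ 4) (30 * cos z ^ 2)
    rw [PL_two, norm_div, h8, div_le_iff₀ (by norm_num)]
    have h1 : (1:ℝ) ≤ K ^ 4 := one_le_pow₀ hK1
    have h2 : K ^ 2 ≤ K ^ 4 := pow_le_pow_right₀ hK1 (by norm_num)
    linarith
  set D1 : ℝ := 2 * (Cg + 1 * Cb) with hD1
  set D2 : ℝ := 2 * (1000 * K ^ 4 * Cg + 9 * K ^ 4 * Cb) with hD2
  have hK4 : 0 ≤ K ^ 4 := by positivity
  have hD10 : 0 ≤ D1 := by positivity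
  have hD20 : 0 ≤ D2 := by positivity
  refine ⟨min (min (min ca cb) (min cc' cd)) (min (min ce cf) cg), Ca * (2 + D1 + D2), by positivity, by nlinarith, ?_⟩
  intro al hal κ κ2 hLB r cA cR E hr3 hr4 hcA0 hcA hcR0 hcR hE Z X u Rm RM V0 mu hSt
  have la : cA ≤ ca := hcA.trans ((min_le_left _ _).trans ((min_le_left _ _).trans (min_le_left _ _)))
  have lb : cA ≤ cb := hcA.trans ((min_le_left _ _).trans ((min_le_left _ _).trans (min_le_right _ _)))
  have lc : cA ≤ cc' := hcA.trans ((min_le_left _ _).trans ((min_le_right _ _).trans (min_le_left _ _)))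
  have ld : cA ≤ cd := hcA.trans ((min_le_left _ _).trans ((min_le_right _ _).trans (min_le_right _ _)))
  have le' : cA ≤ ce := hcA.trans ((min_le_right _ _).trans ((min_le_left _ _).trans (min_le_left _ _)))
  have lf : cA ≤ cf := hcA.trans ((min_le_right _ _).trans ((min_le_left _ _).trans (min_le_right _ _)))
  have lg : cA ≤ cg := hcA.trans ((min_le_right _ _).trans (min_le_right _ _))
  have hκ := hLB.k0
  have hr0 : 0 < r := by linarith
  obtain ⟨-, -, -, hcos1, hcos2, hs1, hs2⟩ := JJ_bounds hal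
  have hap := hSt.ap
  have hfc := hap.fc
  have hus := hSt.us
  obtain ⟨fell, fnu, fxi, fY, hpar, hper, hcj⟩ := Hstrip al hal r hr0 hr4 Z X (m04_FC_mono hfc lc)
  obtain ⟨fm1, hm1⟩ := Hm1 al hal r cA hr0 hr4 hcA0 lb Z X u hfc hus.fu
    (fun e z hz => ⟨hus.u0 e z hz, hus.ue e z hz, hus.up e z hz, hus.ur e z hz⟩)
  have hFNB : ∀ {c : ℝ}, cA ≤ c → FNB c 1 r Z X := fun {c} hc =>
    { fZ := hfc.fZ.mono (band_subset (by linarith) le_rfl)
      fX := hfc.fX.mono (band_subset (by linarith) le_rfl)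
      nb := fun e => (hfc.nb e).mono hc (by linarith) le_rfl }
  obtain ⟨fV, fPz, fPx, faj, fS, -⟩ := Hfun al hal 1 r le_rfl (by linarith) hr4 Z X (hFNB ld)
  obtain ⟨fmZ, fmX, fnz, fnx, fet, -, -⟩ := fam_chord (al := al) hfc.fZ hfc.fX
  have hsub : band 1 r ⊆ strip r := band_subset (by linarith) le_rfl
  have hsub4 : band 1 r ⊆ band 1 4 := band_subset le_rfl hr4
  have hCmb : Cb * cA ≤ 1/10 := (mul_le_mul_of_nonneg_left lb hCb0).trans hCcb
  have hCgb : Cg * cA ≤ 1/100 := (mul_le_mul_of_nonneg_left lg hCg0).trans hCcg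
  have hCD : ∀ e, ∀ z ∈ band 1 r, ChordBd (Cg * cA) al (Z e) (X e) z := fun e z hz =>
    (Hchord al hal r cA hr0 hr4 hcA0 lg (Z e) (X e) (hfc.nb e) (hfc.sy e) z (hsub hz)).1
  have hper' := fun e (z : ℂ) (hz : z ∈ band 1 r) =>
    functionals_pi (al := al) ((hfc.sy e).aper (a := 1) (b := r) (by linarith) le_rfl) (by norm_num) hz
  have hconj' := fun e (z : ℂ) (hz : z ∈ band 1 r) =>
    Hconj al hal 1 r le_rfl hr4 (Z e) (X e) ((hfc.nb e).mono le' (by linarith) le_rfl)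
      (ureal_of (hfc.sy e) (hfc.re e) (by linarith) le_rfl) z hz
  -- first function
  have F0 : Fam (band 1 r) (fun e => SS al (V0 e) (mu e) (Z e) (X e)) := by
    have hV : Continuous fun e : EE => ((V0 e : ℝ) : ℂ) := continuous_ofReal.comp hap.vc
    have hM : Continuous fun e : EE => ((mu e : ℝ) : ℂ) := continuous_ofReal.comp hap.mc
    exact ((fS.add ((Fam.param hV).mul (fet.mono hsub))).sub ((fell.mono hsub).smulc _)).add
      ((Fam.param hM).mul (fY.mono hsub))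
  have hq0 : ∀ e, ∀ z ∈ band 1 r, ‖SS al (V0 e) (mu e) (Z e) (X e) z / m1 al (Z e) (X e) (u e) z -
      (((0:ℝ) : ℂ) + ((0:ℝ) : ℂ) * PL 2 z)‖ ≤ 2 * E := by
    intro e z hz
    have h := m04_quot (p := 0) (a := E) (K := 0) (hm1 e z (hsub hz)).1 hCmb
      (by rw [sub_zero]; exact hap.eS e z hz) (by rw [norm_zero])
    simp only [Complex.ofReal_zero, zero_mul, add_zero]
    refine h.trans (le_of_eq ?_)
    ring
  obtain ⟨x0, s0, fx0, hx0, hs0, ht0, hb0, hd0⟩ := Hsolve al hal κ κ2 hLB r cA cR hr3 (by linarith) hcR0 hcR la Z X u hfc hus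
    Rm RM hSt.rs 0 0 (2 * E) (by norm_num) (by norm_num) (by positivity) _ F0 (fun e z hz => by
      obtain ⟨-, -, -, -, p5, -, -, p8, p9, p10⟩ := hper' e z hz
      simp only [SS, p5, p8, p9, p10])
    (fun e => (Heven al hal r hr3.le hr4 (Z e) (X e) ((hfc.nb e).mono lf le_rfl le_rfl) (hfc.sy e) _ _).1)
    (fun e z hz => by
      obtain ⟨-, -, -, -, p5, p6, p7, p8⟩ := hconj' e z hz
      simp only [SS, p5, p6, p7, p8, map_add, map_sub, map_mul, conj_ofReal])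
    hq0
  -- second function
  have hq1 : ∀ e, ∀ z ∈ band 1 r, ‖et al (Z e) (X e) z / m1 al (Z e) (X e) (u e) z -
      (((Real.sin al * Real.cos al : ℝ) : ℂ) + ((0:ℝ) : ℂ) * PL 2 z)‖ ≤ D1 * cA := by
    intro e z hz
    have h := m04_quot (p := ((Real.sin al * Real.cos al : ℝ) : ℂ)) (a := Cg * cA) (K := 1) (hm1 e z (hsub hz)).1 hCmb
      (by rw [Complex.ofReal_mul]; exact (hCD e z hz).et)
      (by rw [Complex.norm_real, Real.norm_of_nonneg (by positivity)]; nlinarith)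
    simp only [Complex.ofReal_zero, zero_mul, add_zero]
    refine h.trans (le_of_eq ?_)
    rw [hD1]
    ring
  have hpr : |Real.sin al * Real.cos al| ≤ 1 := by
    rw [abs_of_nonneg (by positivity)]
    nlinarith
  obtain ⟨x1, s1, fx1, hx1, hs1', ht1, hb1, hd1⟩ := Hsolve al hal κ κ2 hLB r cA cR hr3 (by linarith) hcR0 hcR la Z X u hfc hus
    Rm RM hSt.rs (Real.sin al * Real.cos al) 0 (D1 * cA) hpr (by norm_num) (by positivity) (fun e => et al (Z e) (X e))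
    (fet.mono hsub) (fun e z hz => (hper' e z hz).2.2.2.2.2.2.2.1)
    (fun e => EvenExt.of_strip (by linarith) (fet.diff e)
      (m04_two_pi fun t ht => (hper e t ht).2.2.2.2.1) (fun z hz => (hpar e z hz).2.2.2.2.1))
    (fun e z hz => (hconj' e z hz).2.2.2.2.2.1)
    hq1
  -- third function
  have hq2 : ∀ e, ∀ z ∈ band 1 r, ‖Yf al (Z e) (X e) z / m1 al (Z e) (X e) (u e) z -
      (((0:ℝ) : ℂ) + ((Real.sin al : ℝ) : ℂ) * PL 2 z)‖ ≤ D2 * cA := by
    intro e z hz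
    have h := m04_quot (p := ((Real.sin al : ℝ) : ℂ) * PL 2 z) (a := 1000 * K ^ 4 * (Cg * cA)) (K := 9 * K ^ 4)
      (hm1 e z (hsub hz)).1 hCmb (m04_Y hal hCgb hK1 (hCD e z hz) (hcos z (hsub4 hz)))
      (by
        rw [norm_mul, Complex.norm_real, Real.norm_of_nonneg (by linarith)]
        have := hPL z (hsub4 hz)
        nlinarith [norm_nonneg (PL 2 z)])
    simp only [Complex.ofReal_zero, zero_add]
    refine h.trans (le_of_eq ?_)
    rw [hD2]
    ring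
  obtain ⟨x2, s2, fx2, hx2, hs2', ht2, hb2, hd2⟩ := Hsolve al hal κ κ2 hLB r cA cR hr3 (by linarith) hcR0 hcR la Z X u hfc hus
    Rm RM hSt.rs 0 (Real.sin al) (D2 * cA) (by norm_num) (by rw [abs_of_pos (by linarith)]; linarith) (by positivity)
    (fun e => Yf al (Z e) (X e))
    (fY.mono hsub) (fun e z hz => (hper' e z hz).2.2.2.2.2.2.2.2.2)
    (fun e => EvenExt.of_strip (by linarith) (fY.diff e)
      (m04_two_pi fun t ht => (hper e t ht).2.2.2.1) (fun z hz => (hpar e z hz).2.2.2.1))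
    (fun e z hz => (hconj' e z hz).2.2.2.2.2.2.2)
    hq2
  -- constants
  have hCκ : 0 ≤ Ca / κ := by positivity
  have k0 : Ca / κ * (2 * E + cR * |(0:ℝ)|) ≤ Ca * (2 + D1 + D2) / κ * E := by
    rw [abs_zero, mul_zero, add_zero]
    have e1 : Ca * (2 + D1 + D2) / κ * E = Ca / κ * ((2 + D1 + D2) * E) := by ring
    rw [e1]
    refine mul_le_mul_of_nonneg_left ?_ hCκ
    nlinarith [mul_nonneg hD10 hE, mul_nonneg hD20 hE]
  have k1 : Ca / κ * (D1 * cA + cR * |Real.sin al * Real.cos al|) ≤ Ca * (2 + D1 + D2) / κ * (cA + cR) := by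
    have e1 : Ca * (2 + D1 + D2) / κ * (cA + cR) = Ca / κ * ((2 + D1 + D2) * (cA + cR)) := by ring
    rw [e1]
    refine mul_le_mul_of_nonneg_left ?_ hCκ
    have h1 : cR * |Real.sin al * Real.cos al| ≤ cR * 1 := mul_le_mul_of_nonneg_left hpr hcR0
    nlinarith [mul_nonneg hD10 hcA0, mul_nonneg hD20 hcA0, mul_nonneg hD10 hcR0, mul_nonneg hD20 hcR0]
  have k2 : Ca / κ * (D2 * cA + cR * |(0:ℝ)|) ≤ Ca * (2 + D1 + D2) / κ * (cA + cR) := by
    rw [abs_zero, mul_zero, add_zero]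
    have e1 : Ca * (2 + D1 + D2) / κ * (cA + cR) = Ca / κ * ((2 + D1 + D2) * (cA + cR)) := by ring
    rw [e1]
    refine mul_le_mul_of_nonneg_left ?_ hCκ
    nlinarith [mul_nonneg hD10 hcA0, mul_nonneg hD20 hcA0, mul_nonneg hD10 hcR0, mul_nonneg hD20 hcR0]
  refine ⟨x0, x1, x2, s0, s1, s2, ?_⟩
  exact
    { h0 := ⟨fx0, fun e z hz => (hx0 e z hz).1, fun e z hz => (hx0 e z hz).2.1, fun e z hz => (hx0 e z hz).2.2⟩
      h1 := ⟨fx1, fun e z hz => (hx1 e z hz).1, fun e z hz => (hx1 e z hz).2.1, fun e z hz => (hx1 e z hz).2.2⟩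
      h2 := ⟨fx2, fun e z hz => (hx2 e z hz).1, fun e z hz => (hx2 e z hz).2.1, fun e z hz => (hx2 e z hz).2.2⟩
      c0 := hs0
      c1 := hs1'
      c2 := hs2'
      t0 := ht0
      t1 := ht1
      t2 := ht2
      b0 := fun ρ hρ hρ2 e z hz => by
        have h := hb0 ρ hρ hρ2 e z hz
        rw [zero_div, Complex.ofReal_zero, add_zero] at h
        exact h.trans (mul_le_mul_of_nonneg_right k0 (Real.rpow_nonneg hρ.le _))
      b1 := fun ρ hρ hρ2 e z hz =>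
        (hb1 ρ hρ hρ2 e z hz).trans (mul_le_mul_of_nonneg_right k1 (Real.rpow_nonneg hρ.le _))
      b2 := fun ρ hρ hρ2 e z hz => by
        have h := hb2 ρ hρ hρ2 e z hz
        rw [zero_div, Complex.ofReal_zero, add_zero] at h
        exact h.trans (mul_le_mul_of_nonneg_right k2 (Real.rpow_nonneg hρ.le _))
      d0 := fun e => by
        have h := hd0 e
        rw [sub_zero] at h
        exact h.trans k0
      d1 := fun e => by
        have h := hd1 e
        rw [sub_zero] at h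
        exact h.trans k1
      d2 := fun e => (hd2 e).trans k2 }

end FB
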