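import Pool.Agent.H48.FB.NDefs
import Pool.Agent.H48.FB.F03
import Pool.Agent.H48.FB.G05

/-! M05: the mean values in the second scalar equation. -/

open Complex Set MeasureTheory Filter Topology

noncomputable section

namespace FB

/-! ### auxiliary lemmas -/

/-- `DV` of symmetric real directions -/
theorem M05_DV (R : ℝ) (hR : 3 ≤ R) : ∃ c0 : ℝ, 0 < c0 ∧ ∀ al ∈ JJ, ∀ r : ℝ, 3 < r → r ≤ R →
    ∀ Z X A B : EE → ℂ → ℂ, FC c0 r Z X → Fam (strip r) A → Fam (strip r) B → (∀ e, Sym r (A e) (B e)) →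
      (∀ e, RealC r (A e) (B e)) →
      Fam (band 1 r) (fun e => DV al (Z e) (X e) (A e) (B e)) ∧
      ∀ e, EvenExt 1 r (DV al (Z e) (X e) (A e) (B e)) ∧
        ∀ t ∈ band 1 r, DV al (Z e) (X e) (A e) (B e) (t + (Real.pi:ℂ)) = DV al (Z e) (X e) (A e) (B e) t ∧
          DV al (Z e) (X e) (A e) (B e) (-(starRingEnd ℂ) t) =
            (starRingEnd ℂ) (DV al (Z e) (X e) (A e) (B e) t) := by
  obtain ⟨c1, C1, hc1, -, H1⟩ := fam_variation R (by linarith)
  obtain ⟨c2, hc2, H2⟩ := DV_even' R hR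
  obtain ⟨c3, hc3, H3⟩ := variation_conj R (by linarith)
  refine ⟨min c1 (min c2 c3), by positivity, ?_⟩
  intro al hal r hr hrR Z X A B hF fA fB hsy hre
  have hF1 := g05_FC_mono hF (min_le_left c1 (min c2 c3))
  have hF2 := g05_FC_mono hF ((min_le_right c1 (min c2 c3)).trans (min_le_left c2 c3))
  have hF3 := g05_FC_mono hF ((min_le_right c1 (min c2 c3)).trans (min_le_right c2 c3))
  refine ⟨?_, fun e => ⟨?_, fun t ht => ⟨?_, ?_⟩⟩⟩
  · apply g05_local
    intro r' h1 h2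
    obtain ⟨dA, hdA0, hdA⟩ := g05_bdd h2 (by linarith) fA (fun e z hz => by rw [(hsy e).aZ z hz, norm_neg])
    obtain ⟨dB, hdB0, hdB⟩ := g05_bdd h2 (by linarith) fB (fun e z hz => by rw [(hsy e).aX z hz, norm_neg])
    have hsub : band 1 r' ⊆ strip r := band_subset (by linarith) h2.le
    exact (H1 al hal 1 r' le_rfl h1 (by linarith) Z X (g05_FNB (by linarith) h2.le hF1) A B (fA.mono hsub)
      (fB.mono hsub) (max dA dB) (fun e z hz => ⟨(hdA e z hz).trans (le_max_left _ _),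
        (hdB e z hz).trans (le_max_right _ _)⟩)).1
  · exact (H2 al hal r hr hrR (Z e) (X e) (hF2.nb e) (hF2.sy e) (A e) (B e) (hsy e) (fA.diff e) (fB.diff e)).1
  · exact (variation_pi ((hF.sy e).aper (by linarith) le_rfl) ((hsy e).aper (by linarith) le_rfl)
      one_pos ht).1
  · exact (H3 al hal 1 r le_rfl hrR (Z e) (X e) (A e) (B e) ((hF3.nb e).mono le_rfl (by linarith) le_rfl)
      (ureal_of (hF.sy e) (hF.re e) (by linarith) le_rfl) (ureal_of (hsy e) (hre e) (by linarith) le_rfl) t ht).1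

/-- the value of `Bt` at the circle -/
theorem M05_beta {al : ℝ} (hal : al ∈ JJ) : 1.2 ≤ Real.pi / 2 * (Real.sin al) ^ 3 ∧
    Real.pi / 2 * (Real.sin al) ^ 3 ≤ 1.6 := by
  obtain ⟨-, -, -, -, -, h1, h2⟩ := JJ_bounds hal
  have p1 := Real.pi_gt_d2
  have p2 := Real.pi_lt_d2
  have h3 : (0.92:ℝ) ^ 3 ≤ (Real.sin al) ^ 3 := pow_le_pow_left₀ (by norm_num) h1.le 3
  have h4 : (Real.sin al) ^ 3 ≤ (0.94:ℝ) ^ 3 := pow_le_pow_left₀ (by linarith) h2.le 3
  constructor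
  · nlinarith
  · nlinarith

theorem M05_conj_band {a b : ℝ} {t : ℂ} (ht : t ∈ band a b) : -(starRingEnd ℂ) t ∈ band a b := by
  have h1 : (-(starRingEnd ℂ) t).im = t.im := by simp
  refine ⟨?_, ?_⟩
  · show a < (-(starRingEnd ℂ) t).im
    rw [h1]; exact ht.1
  · show (-(starRingEnd ℂ) t).im < b
    rw [h1]; exact ht.2

/-- properties of `Bt` -/
theorem M05_Bt (R : ℝ) (hR : 3 ≤ R) : ∃ c0 : ℝ, 0 < c0 ∧ ∀ al ∈ JJ, ∀ r : ℝ, 3 ≤ r → r ≤ R →
    ∀ Z X : EE → ℂ → ℂ, FC c0 r Z X →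
      Fam (band 1 r) (fun e => Bt al (Z e) (X e)) ∧
      ∀ e, EvenExt 1 r (fun t => (Bt al (Z e) (X e) t)⁻¹) ∧
        ∀ t ∈ band 1 r, (1 ≤ ‖Bt al (Z e) (X e) t‖ ∧ ‖Bt al (Z e) (X e) t‖ ≤ 2) ∧
          Bt al (Z e) (X e) (t + (Real.pi:ℂ)) = Bt al (Z e) (X e) t ∧
          Bt al (Z e) (X e) (-(starRingEnd ℂ) t) = (starRingEnd ℂ) (Bt al (Z e) (X e) t) := by
  obtain ⟨c1, C1, hc1, hC1, H1⟩ := aj_bd R hR
  obtain ⟨c2, hc2, H2⟩ := ext_basic R hR
  obtain ⟨c3, C3, hc3, -, H3⟩ := fam_functionals R (by linarith)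
  obtain ⟨c4, hc4, H4⟩ := fam_strip R (by linarith)
  obtain ⟨c5, hc5, H5⟩ := functionals_conj R (by linarith)
  set c0 : ℝ := min (1 / (10 * C1)) (min c1 (min c2 (min c3 (min c4 c5)))) with hc0
  have l0 : c0 ≤ 1 / (10 * C1) := min_le_left _ _
  have l1 : c0 ≤ c1 := (min_le_right _ _).trans (min_le_left _ _)
  have l2 : c0 ≤ c2 := (min_le_right _ _).trans ((min_le_right _ _).trans (min_le_left _ _))
  have l3 : c0 ≤ c3 := (min_le_right _ _).trans ((min_le_right _ _).trans ((min_le_right _ _).trans (min_le_left _ _)))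
  have l4 : c0 ≤ c4 := (min_le_right _ _).trans ((min_le_right _ _).trans ((min_le_right _ _).trans
    ((min_le_right _ _).trans (min_le_left _ _))))
  have l5 : c0 ≤ c5 := (min_le_right _ _).trans ((min_le_right _ _).trans ((min_le_right _ _).trans
    ((min_le_right _ _).trans (min_le_right _ _))))
  have hc00 : 0 < c0 := by positivity
  refine ⟨c0, hc00, ?_⟩
  intro al hal r hr hrR Z X hF
  obtain ⟨b1, b2⟩ := M05_beta hal
  have hb : ∀ {t : ℂ}, t ∈ band 1 r → t ∈ strip r := fun ht => band_subset (by linarith) le_rfl ht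
  obtain ⟨-, -, -, F3, -, -⟩ := H3 al hal 1 r le_rfl (by linarith) hrR Z X (g05_FNB (by linarith) le_rfl (g05_FC_mono hF l3))
  obtain ⟨-, -, -, -, -, fchip, fchim⟩ := fam_chord (al := al) (a := 1) (b := r)
    (hF.fZ.mono (fun t ht => hb ht)) (hF.fX.mono (fun t ht => hb ht))
  have f0 := F3 0 (by norm_num)
  have f1 := F3 1 (by norm_num)
  have FB : Fam (band 1 r) (fun e => Bt al (Z e) (X e)) :=
    (((f0.add f1).mul fchip).add ((f0.sub f1).mul fchim)).smulc ((Real.sin al : ℂ) ^ 2 / 2)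
  have hclose : ∀ e, ∀ t ∈ band 1 r, ‖Bt al (Z e) (X e) t - ((Real.pi / 2 * (Real.sin al) ^ 3 : ℝ) : ℂ)‖ ≤ 1/10 := by
    intro e t ht
    have h1 := (H1 al hal r c0 hr hrR hc00.le l1 (Z e) (X e) (hF.nb e) (hF.sy e) t ht).2.2
    have h2 : C1 * c0 ≤ 1/10 := by
      calc C1 * c0 ≤ C1 * (1 / (10 * C1)) := mul_le_mul_of_nonneg_left l0 (by linarith)
        _ = 1/10 := by field_simp
    have h3 : ((Real.pi / 2 * (Real.sin al) ^ 3 : ℝ) : ℂ) = (Real.pi / 2 : ℂ) * (Real.sin al : ℂ) ^ 3 := by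
      push_cast; ring
    rw [h3]
    exact h1.trans h2
  have hnb : ‖((Real.pi / 2 * (Real.sin al) ^ 3 : ℝ) : ℂ)‖ = Real.pi / 2 * (Real.sin al) ^ 3 := by
    rw [norm_real, Real.norm_of_nonneg (by linarith)]
  obtain ⟨-, -, -, -, hev, hpi, hconj⟩ := H4 al hal r (by linarith) hrR Z X (g05_FC_mono hF l4)
  refine ⟨FB, fun e => ⟨?_, fun t ht => ⟨⟨?_, ?_⟩, ?_, ?_⟩⟩⟩
  · have hE := (H2 al hal r hr hrR (Z e) (X e) ((g05_FC_mono hF l2).nb e) (hF.sy e)).2.2.2.2.2.2.2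
    refine hE.inv (by norm_num) (by linarith) (c := ((Real.pi / 2 * (Real.sin al) ^ 3 : ℝ) : ℂ)) ?_ ?_
    · intro h0
      rw [h0, norm_zero] at hnb
      linarith
    · intro z hz
      rw [hnb]
      exact (hclose e z hz).trans (by linarith)
  · have h1 := hclose e t ht
    have h2 := norm_sub_norm_le ((Real.pi / 2 * (Real.sin al) ^ 3 : ℝ) : ℂ) (Bt al (Z e) (X e) t)
    rw [norm_sub_rev] at h1
    rw [hnb] at h2
    linarith
  · have h1 := hclose e t ht
    have h2 := norm_sub_norm_le (Bt al (Z e) (X e) t) ((Real.pi / 2 * (Real.sin al) ^ 3 : ℝ) : ℂ)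
    rw [hnb] at h2
    linarith
  · obtain ⟨-, -, -, h1, -⟩ := functionals_pi (al := al) ((hF.sy e).aper (a := 1) (b := r) (by linarith) le_rfl) one_pos ht
    obtain ⟨-, -, -, -, -, h2, h3⟩ := hpi e t (hb ht)
    unfold Bt
    rw [h1 0, h1 1, h2, h3]
  · obtain ⟨-, -, -, h1, -⟩ := H5 al hal 1 r le_rfl hrR (Z e) (X e) (((g05_FC_mono hF l5).nb e).mono le_rfl (by linarith) le_rfl)
      (ureal_of (hF.sy e) (hF.re e) (by linarith) le_rfl) t ht
    have hct : (starRingEnd ℂ) t ∈ strip r := conj_mem_strip (hb ht)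
    have hnct : -(starRingEnd ℂ) t ∈ strip r := neg_mem_strip hct
    have h2 : chip al (Z e) (X e) (-(starRingEnd ℂ) t) = (starRingEnd ℂ) (chim al (Z e) (X e) t) := by
      rw [(hev e _ hct).2.2.2.2.2.1, (hconj e t (hb ht)).2.2.2.2.2.2]
    have h3 : chim al (Z e) (X e) (-(starRingEnd ℂ) t) = (starRingEnd ℂ) (chip al (Z e) (X e) t) := by
      have h4 := (hev e _ hnct).2.2.2.2.2.1
      rw [neg_neg] at h4
      rw [← h4, (hconj e t (hb ht)).2.2.2.2.2.1]
    unfold Bt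
    rw [h1 0, h1 1, h2, h3]
    simp only [map_add, map_sub, map_mul, map_div₀, map_pow, map_ofNat, conj_ofReal]
    ring

/-- pointwise bounds of the normal direction -/
theorem M05_gN (R : ℝ) (hR : 1 < R) : ∃ c0 K : ℝ, 0 < c0 ∧ 1 ≤ K ∧ ∀ al ∈ JJ, ∀ a b : ℝ, 1 ≤ a → b ≤ R →
    ∀ Z X : ℂ → ℂ, NB c0 a b Z X → ∀ z ∈ band a b, xi X z ∈ slitPlane ∧ deriv Z z ^ 2 + deriv X z ^ 2 ≠ 0 ∧
      ∀ u x : ℂ → ℂ, ‖u z‖ ≤ 1 → ‖gN Z X u x z * deriv X z‖ ≤ K * ‖x z‖ ∧ ‖-(gN Z X u x z * deriv Z z)‖ ≤ K * ‖x z‖ := by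
  obtain ⟨c1, C1, hc1, hC1, hCc1, H1⟩ := chord_bd R hR
  set E : ℝ := Real.exp R with hE
  have hE1 : 1 ≤ E := Real.one_le_exp (by linarith)
  set c0 : ℝ := min c1 (1 / (20 * E)) with hc0
  have l1 : c0 ≤ c1 := min_le_left _ _
  have l2 : c0 ≤ 1 / (20 * E) := min_le_right _ _
  have hc00 : 0 < c0 := by positivity
  have l3 : c0 * E ≤ 1/20 := by
    calc c0 * E ≤ 1 / (20 * E) * E := mul_le_mul_of_nonneg_right l2 (by linarith)
      _ = 1/20 := by field_simp
  have l4 : c0 ≤ 1/20 := by nlinarith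
  refine ⟨c0, 2 * 3 * (2 * E), hc00, by nlinarith, ?_⟩
  intro al hal a b ha hb Z X hN z hz
  obtain ⟨-, hxi, -⟩ := H1 al hal a b c0 ha hb hc00.le l1 Z X hN z hz
  have h1 := hxi 0
  rw [ofReal_zero, add_zero] at h1
  have h2 : ‖xi X z - 1‖ ≤ 1/100 := h1.trans ((mul_le_mul_of_nonneg_left l1 (by linarith)).trans hCc1)
  have h3 : xi X z ∈ slitPlane := g05_one_slit h2
  obtain ⟨hcz, hsz⟩ := b01_bound_E hR (a := a) (b := b) (by linarith) hb z hz
  have d1 := hN.z1 z hz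
  have d2 := hN.x1 z hz
  have n1 : ‖deriv Z z‖ ≤ 2 * E := by
    have : deriv Z z = (deriv Z z + sin z) - sin z := by ring
    rw [this]
    exact (norm_sub_le _ _).trans (by linarith)
  have n2 : ‖deriv X z‖ ≤ 2 * E := by
    have : deriv X z = (deriv X z - cos z) + cos z := by ring
    rw [this]
    exact (norm_add_le _ _).trans (by linarith)
  have e1 : deriv Z z ^ 2 + deriv X z ^ 2 - 1 = (deriv Z z + sin z) * (deriv Z z - sin z) +
      (deriv X z - cos z) * (deriv X z + cos z) := by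
    have := sin_sq_add_cos_sq z
    linear_combination this
  have m1 : ‖deriv Z z - sin z‖ ≤ 3 * E := (norm_sub_le _ _).trans (by linarith)
  have m2 : ‖deriv X z + cos z‖ ≤ 3 * E := (norm_add_le _ _).trans (by linarith)
  have e2 : ‖deriv Z z ^ 2 + deriv X z ^ 2 - 1‖ ≤ 1/2 := by
    rw [e1]
    refine (norm_add_le _ _).trans ?_
    rw [norm_mul, norm_mul]
    have g1 : ‖deriv Z z + sin z‖ * ‖deriv Z z - sin z‖ ≤ c0 * (3 * E) := mul_le_mul d1 m1 (norm_nonneg _) hc00.le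
    have g2 : ‖deriv X z - cos z‖ * ‖deriv X z + cos z‖ ≤ c0 * (3 * E) := mul_le_mul d2 m2 (norm_nonneg _) hc00.le
    nlinarith
  have e3 : 1/2 ≤ ‖deriv Z z ^ 2 + deriv X z ^ 2‖ := by
    have h5 := norm_sub_norm_le (1:ℂ) (deriv Z z ^ 2 + deriv X z ^ 2)
    rw [norm_sub_rev, norm_one] at h5
    linarith
  have e4 : deriv Z z ^ 2 + deriv X z ^ 2 ≠ 0 := by
    intro h0
    rw [h0, norm_zero] at e3
    linarith
  refine ⟨h3, e4, ?_⟩
  intro u x hu
  have p1 : ‖xi X z ^ (-((1:ℂ)/2))‖ ≤ 2 := by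
    rw [cpow_def_of_ne_zero (slitPlane_ne_zero h3), norm_exp]
    have h5 := g05_log_le h2 le_rfl
    have h6 : (log (xi X z) * -((1:ℂ)/2)).re ≤ 1/100 := by
      refine (re_le_norm _).trans ?_
      rw [norm_mul, norm_neg]
      have : ‖(1:ℂ)/2‖ = 1/2 := by norm_num
      rw [this]
      linarith
    have h7 := Real.exp_one_lt_d9
    have h8 : Real.exp (1/100 : ℝ) ≤ 2 := by
      have h9 := Real.exp_bound_div_one_sub_of_interval (x := 1/100) (by norm_num) (by norm_num)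
      exact h9.trans (by norm_num)
    exact (Real.exp_le_exp.mpr h6).trans h8
  have p2 : ‖exp (- u z)‖ ≤ 3 := by
    rw [norm_exp]
    have h6 : (- u z).re ≤ 1 := (re_le_norm _).trans (by rw [norm_neg]; exact hu)
    have h7 := Real.exp_one_lt_d9
    exact (Real.exp_le_exp.mpr h6).trans (by linarith)
  have p3 : ‖gN Z X u x z‖ ≤ 2 * 3 * ‖x z‖ := by
    unfold gN
    rw [norm_div, norm_mul, norm_mul, norm_mul, norm_ofNat]
    rw [div_le_iff₀ (by positivity)]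
    have q0 := norm_nonneg (x z)
    have q1 := norm_nonneg (xi X z ^ (-((1:ℂ)/2)))
    have q2 := norm_nonneg (exp (- u z))
    calc ‖x z‖ * ‖xi X z ^ (-((1:ℂ)/2))‖ * ‖exp (- u z)‖ ≤ ‖x z‖ * 2 * 3 := by gcongr
      _ = 2 * 3 * ‖x z‖ * (2 * (1/2)) := by ring
      _ ≤ 2 * 3 * ‖x z‖ * (2 * ‖deriv Z z ^ 2 + deriv X z ^ 2‖) := by gcongr
  have q0 := norm_nonneg (x z)
  constructor
  · rw [norm_mul]
    calc ‖gN Z X u x z‖ * ‖deriv X z‖ ≤ (2 * 3 * ‖x z‖) * (2 * E) := by gcongr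
      _ = 2 * 3 * (2 * E) * ‖x z‖ := by ring
  · rw [norm_neg, norm_mul]
    calc ‖gN Z X u x z‖ * ‖deriv Z z‖ ≤ (2 * 3 * ‖x z‖) * (2 * E) := by gcongr
      _ = 2 * 3 * (2 * E) * ‖x z‖ := by ring

/-- properties of `(DVN x)` and of the functions `rh0, rh1, rh2` on `band 1 r`: families (`normal_dir` (G02), `fam_variation` (C02) on smaller bands, `Bt` is a
family near `(pi/2) sin^3 al` by `aj_bd` (D04)), `EvenExt` (`DV_even'` (G01), `ext_basic` (D04), `EvenExt.inv`), periodic and real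
(`variation_pi`, `variation_conj`, `functionals_conj`). -/
theorem rh_props : ∃ c1 C : ℝ, 0 < c1 ∧ 1 ≤ C ∧ ∀ al ∈ JJ, ∀ r : ℝ, 3 < r → r ≤ 5 → ∀ Z X u x : EE → ℂ → ℂ, FC c1 r Z X → US c1 r u → EPR r x →
    ∀ V0 : EE → ℝ, Continuous V0 → ∀ p q : EE → ℝ, Continuous p → Continuous q →
      Fam (band 1 r) (fun e t => ((p e : ℂ) + (q e : ℂ) * Vf al (Z e) (X e) t - DVN al (Z e) (X e) (u e) (x e) t) / Bt al (Z e) (X e) t) ∧
      (∀ e, EvenExt 1 r (fun t => ((p e : ℂ) + (q e : ℂ) * Vf al (Z e) (X e) t - DVN al (Z e) (X e) (u e) (x e) t) / Bt al (Z e) (X e) t)) ∧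
      (∀ e, ∀ t ∈ band 1 r,
        ((p e : ℂ) + (q e : ℂ) * Vf al (Z e) (X e) (t + (Real.pi:ℂ)) - DVN al (Z e) (X e) (u e) (x e) (t + (Real.pi:ℂ))) / Bt al (Z e) (X e) (t + (Real.pi:ℂ)) =
        ((p e : ℂ) + (q e : ℂ) * Vf al (Z e) (X e) t - DVN al (Z e) (X e) (u e) (x e) t) / Bt al (Z e) (X e) t) ∧
      (∀ e, ∀ t ∈ band 1 r,
        ((p e : ℂ) + (q e : ℂ) * Vf al (Z e) (X e) (-(starRingEnd ℂ) t) - DVN al (Z e) (X e) (u e) (x e) (-(starRingEnd ℂ) t)) /
          Bt al (Z e) (X e) (-(starRingEnd ℂ) t) =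
        (starRingEnd ℂ) (((p e : ℂ) + (q e : ℂ) * Vf al (Z e) (X e) t - DVN al (Z e) (X e) (u e) (x e) t) / Bt al (Z e) (X e) t)) ∧
      (∀ M : ℝ, ∀ r' : ℝ, 0 < r' → r' ≤ r → (∀ e, ∀ z ∈ strip r', ‖x e z‖ ≤ M) → ∀ e, ∀ t ∈ band 1 r', ‖DVN al (Z e) (X e) (u e) (x e) t‖ ≤ C * M) ∧
      (∀ e, ∀ t ∈ band 1 r, 1 ≤ ‖Bt al (Z e) (X e) t‖ ∧ ‖Bt al (Z e) (X e) t‖ ≤ C) := by
  obtain ⟨c1, hc1, H1⟩ := M05_DV 5 (by norm_num)
  obtain ⟨c2, hc2, H2⟩ := M05_Bt 5 (by norm_num)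
  obtain ⟨c3, C3, hc3, hC3, H3⟩ := fam_variation 5 (by norm_num)
  obtain ⟨c4, C4, hc4, -, H4⟩ := normal_dir 5 (by norm_num)
  obtain ⟨c5, K, hc5, hK, H5⟩ := M05_gN 5 (by norm_num)
  obtain ⟨c6, C6, hc6, -, H6⟩ := fam_functionals 5 (by norm_num)
  obtain ⟨c7, hc7, H7⟩ := functionals_conj 5 (by norm_num)
  obtain ⟨c8, hc8, H8⟩ := ext_basic 5 (by norm_num)
  set c0 : ℝ := min 1 (min (min c1 c2) (min (min c3 c4) (min (min c5 c6) (min c7 c8)))) with hc0
  have l0 : c0 ≤ 1 := min_le_left _ _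
  have l1 : c0 ≤ c1 := (min_le_right _ _).trans ((min_le_left _ _).trans (min_le_left _ _))
  have l2 : c0 ≤ c2 := (min_le_right _ _).trans ((min_le_left _ _).trans (min_le_right _ _))
  have l3 : c0 ≤ c3 := (min_le_right _ _).trans ((min_le_right _ _).trans ((min_le_left _ _).trans (min_le_left _ _)))
  have l4 : c0 ≤ c4 := (min_le_right _ _).trans ((min_le_right _ _).trans ((min_le_left _ _).trans (min_le_right _ _)))
  have l5 : c0 ≤ c5 := (min_le_right _ _).trans ((min_le_right _ _).trans ((min_le_right _ _).trans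
    ((min_le_left _ _).trans (min_le_left _ _))))
  have l6 : c0 ≤ c6 := (min_le_right _ _).trans ((min_le_right _ _).trans ((min_le_right _ _).trans
    ((min_le_left _ _).trans (min_le_right _ _))))
  have l7 : c0 ≤ c7 := (min_le_right _ _).trans ((min_le_right _ _).trans ((min_le_right _ _).trans
    ((min_le_right _ _).trans (min_le_left _ _))))
  have l8 : c0 ≤ c8 := (min_le_right _ _).trans ((min_le_right _ _).trans ((min_le_right _ _).trans
    ((min_le_right _ _).trans (min_le_right _ _))))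
  have hc00 : 0 < c0 := by positivity
  refine ⟨c0, max 2 (C3 * K), hc00, le_trans (by norm_num) (le_max_left _ _), ?_⟩
  intro al hal r hr hr5 Z X u x hF hU hx V0 hV0 p q hp hq
  have hb : ∀ {t : ℂ}, t ∈ band 1 r → t ∈ strip r := fun ht => band_subset (by linarith) le_rfl ht
  obtain ⟨fA, fB, hsy, hre, -⟩ := H4 al hal r (by linarith) hr5 Z X u x (g05_FC_mono hF l4) hU.fu
    (fun e z hz => ⟨(hU.u0 e z hz).trans l0, hU.ue e z hz, hU.up e z hz⟩) hx.f
    (fun e z hz => ⟨hx.e e z hz, hx.p e z hz⟩)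
  have hre' := hre hU.ur hx.r
  obtain ⟨FD, PD⟩ := H1 al hal r hr hr5 Z X _ _ (g05_FC_mono hF l1) fA fB hsy hre'
  have FD' : Fam (band 1 r) (fun e t => DVN al (Z e) (X e) (u e) (x e) t) := FD
  obtain ⟨FBt, PB⟩ := H2 al hal r hr.le hr5 Z X (g05_FC_mono hF l2)
  obtain ⟨FV, -⟩ := H6 al hal 1 r le_rfl (by linarith) hr5 Z X (g05_FNB (by linarith) le_rfl (g05_FC_mono hF l6))
  have hB0 : ∀ e, ∀ t ∈ band 1 r, Bt al (Z e) (X e) t ≠ 0 := by
    intro e t ht h0
    have := ((PB e).2 t ht).1.1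
    rw [h0, norm_zero] at this
    linarith
  have hpc : Continuous (fun e => (p e : ℂ)) := continuous_ofReal.comp hp
  have hqc : Continuous (fun e => (q e : ℂ)) := continuous_ofReal.comp hq
  have FN : Fam (band 1 r) (fun e t => (p e : ℂ) + (q e : ℂ) * Vf al (Z e) (X e) t - DVN al (Z e) (X e) (u e) (x e) t) :=
    ((Fam.param hpc).add ((Fam.param hqc).mul FV)).sub FD'
  refine ⟨FN.div FBt hB0, ?_, ?_, ?_, ?_, ?_⟩
  · intro e
    have h1 := (H8 al hal r hr.le hr5 (Z e) (X e) ((g05_FC_mono hF l8).nb e) (hF.sy e)).2.2.2.1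
    have h2 : EvenExt 1 r (fun t => DVN al (Z e) (X e) (u e) (x e) t) := (PD e).1
    have h3 := (((EvenExt.const (a := 1) (b := r) (p e : ℂ)).add ((EvenExt.const (a := 1) (b := r) (q e : ℂ)).mul h1)).sub h2).mul (PB e).1
    exact h3.congr (fun t _ => by simp only [div_eq_mul_inv])
  · intro e t ht
    have h1 := (functionals_pi (al := al) ((hF.sy e).aper (a := 1) (b := r) (by linarith) le_rfl) one_pos ht).1
    have h2 : DVN al (Z e) (X e) (u e) (x e) (t + (Real.pi:ℂ)) = DVN al (Z e) (X e) (u e) (x e) t := ((PD e).2 t ht).1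
    rw [h1, h2, ((PB e).2 t ht).2.1]
  · intro e t ht
    have h1 := (H7 al hal 1 r le_rfl hr5 (Z e) (X e) (((g05_FC_mono hF l7).nb e).mono le_rfl (by linarith) le_rfl)
      (ureal_of (hF.sy e) (hF.re e) (by linarith) le_rfl) t ht).1
    have h2 : DVN al (Z e) (X e) (u e) (x e) (-(starRingEnd ℂ) t) = (starRingEnd ℂ) (DVN al (Z e) (X e) (u e) (x e) t) :=
      ((PD e).2 t ht).2
    rw [h1, h2, ((PB e).2 t ht).2.2]
    simp only [map_add, map_sub, map_mul, map_div₀, conj_ofReal]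
  · intro M r' hr'0 hr'r hM e t ht
    have h1r : 1 < r' := lt_trans ht.1 ht.2
    have hM0 : 0 ≤ M := (norm_nonneg _).trans (hM e 0 ⟨by simpa using hr'0, by simpa using hr'0⟩)
    have hsub : band 1 r' ⊆ strip r := band_subset (by linarith) hr'r
    have hsub' : band 1 r' ⊆ strip r' := band_subset (by linarith) le_rfl
    have h1 := (H3 al hal 1 r' le_rfl h1r (by linarith) Z X (g05_FNB (by linarith) hr'r (g05_FC_mono hF l3)) _ _
      (fA.mono hsub) (fB.mono hsub) (K * M) ?_).2.2.2 e t ht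
    · have h2 : ‖DVN al (Z e) (X e) (u e) (x e) t‖ ≤ C3 * (K * M) := h1.1
      refine h2.trans ?_
      rw [← mul_assoc]
      exact mul_le_mul_of_nonneg_right (le_max_right _ _) hM0
    · intro e z hz
      have g1 := (H5 al hal 1 r' le_rfl (by linarith) (Z e) (X e)
        (((g05_FC_mono hF l5).nb e).mono le_rfl (by linarith) hr'r) z hz).2.2 (u e) (x e)
        ((hU.u0 e z (hsub hz)).trans l0)
      have g2 := mul_le_mul_of_nonneg_left (hM e z (hsub' hz)) (by linarith : 0 ≤ K)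
      exact ⟨g1.1.trans g2, g1.2.trans g2⟩
  · intro e t ht
    exact ⟨((PB e).2 t ht).1.1, ((PB e).2 t ht).1.2.trans (le_max_left _ _)⟩

/-- linearity of `DVN` in `x` -/
theorem DVN_add : ∃ c1 : ℝ, 0 < c1 ∧ ∀ al ∈ JJ, ∀ a b : ℝ, 1 ≤ a → b ≤ 5 → ∀ Z X u x y : ℂ → ℂ, NB c1 a b Z X → ContinuousOn u (band a b) →
    ContinuousOn x (band a b) → ContinuousOn y (band a b) → ∀ t ∈ band a b, ∀ p q : ℂ,
      DVN al Z X u (fun z => p * x z + q * y z) t = p * DVN al Z X u x t + q * DVN al Z X u y t := by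
  obtain ⟨c1, hc1, H1⟩ := DV_add 5 (by norm_num)
  obtain ⟨c2, K, hc2, -, H2⟩ := M05_gN 5 (by norm_num)
  obtain ⟨c3, hc3, H3⟩ := fam_chord' 5 (by norm_num)
  refine ⟨min c1 (min c2 c3), by positivity, ?_⟩
  intro al hal a b ha hb Z X u x y hN hu hx hy t ht p q
  have hN1 := hN.mono (min_le_left c1 (min c2 c3)) le_rfl le_rfl
  have hN2 := hN.mono ((min_le_right c1 (min c2 c3)).trans (min_le_left c2 c3)) le_rfl le_rfl
  have hN3 := hN.mono ((min_le_right c1 (min c2 c3)).trans (min_le_right c2 c3)) le_rfl le_rfl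
  have hF : FNB c3 a b (fun _ => Z) (fun _ => X) :=
    { fZ := Fam.const hN.dZ
      fX := Fam.const hN.dX
      nb := fun _ => hN3 }
  obtain ⟨-, -, fxi, -⟩ := H3 al hal a b ha hb _ _ hF
  have e0 : EE := ⟨0, by norm_num⟩
  have cxi : ContinuousOn (xi X) (band a b) := (fxi.diff e0).continuousOn
  have cdZ : ContinuousOn (deriv Z) (band a b) := (hN.dZ.deriv (isOpen_band a b)).continuousOn
  have cdX : ContinuousOn (deriv X) (band a b) := (hN.dX.deriv (isOpen_band a b)).continuousOn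
  have cg : ∀ f : ℂ → ℂ, ContinuousOn f (band a b) → ContinuousOn (fun z => gN Z X u f z) (band a b) := by
    intro f hf
    unfold gN
    refine ((hf.mul (cxi.cpow_const ?_)).mul (hu.neg.cexp)).div (continuousOn_const.mul ((cdZ.pow 2).add (cdX.pow 2))) ?_
    · intro z hz
      exact (H2 al hal a b ha hb Z X hN2 z hz).1
    · intro z hz
      exact mul_ne_zero two_ne_zero (H2 al hal a b ha hb Z X hN2 z hz).2.1
  have h1 := (H1 al hal a b ha hb Z X hN1 (fun z => gN Z X u x z * deriv X z) (fun z => -(gN Z X u x z * deriv Z z))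
    (fun z => gN Z X u y z * deriv X z) (fun z => -(gN Z X u y z * deriv Z z))
    ((cg x hx).mul cdX) (((cg x hx).mul cdZ).neg) ((cg y hy).mul cdX) (((cg y hy).mul cdZ).neg) t ht p q).1
  unfold DVN
  rw [← h1]
  congr 1
  · funext z
    simp only [gN, div_eq_mul_inv]
    ring
  · funext z
    simp only [gN, div_eq_mul_inv]
    ring

/-- mean values of families -/
theorem M05_mean {r : ℝ} (hr : 3 < r) {F : EE → ℂ → ℂ} (hF : Fam (band 1 r) F)
    (hp : ∀ e, ∀ t ∈ band 1 r, F e (t + (Real.pi:ℂ)) = F e t)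
    (hc : ∀ e, ∀ t ∈ band 1 r, F e (-(starRingEnd ℂ) t) = (starRingEnd ℂ) (F e t)) :
    ∃ b : EE → ℝ, Continuous b ∧ (∀ e, ∀ y ∈ Ioo (1:ℝ) r, fc (F e) y 0 = (b e : ℂ)) ∧
      ∀ e, ∀ c D : ℝ, (∀ t ∈ band (9/8) (19/8), ‖F e t - (c:ℂ)‖ ≤ D) → |b e - c| ≤ D := by
  have hy : (9/4 : ℝ) ∈ Ioo (1:ℝ) r := ⟨by norm_num, by linarith⟩
  have hp2 : ∀ e, ∀ t ∈ band 1 r, F e (t + 2 * (Real.pi:ℂ)) = F e t := by
    intro e t ht
    have h1 : t + (Real.pi:ℂ) ∈ band 1 r := add_real_mem_band ht Real.pi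
    have h2 : t + 2 * (Real.pi : ℂ) = t + (Real.pi:ℂ) + (Real.pi:ℂ) := by ring
    rw [h2, hp e _ h1, hp e t ht]
  have hval : ∀ e, fc (F e) (9/4) 0 = ((fc (F e) (9/4) 0).re : ℂ) := by
    intro e
    have h1 := fc_real (hF.diff e).continuousOn (hp2 e) (hc e) hy 0
    apply Complex.ext
    · rw [ofReal_re]
    · rw [ofReal_im, h1]
  refine ⟨fun e => (fc (F e) (9/4) 0).re, continuous_re.comp (hF.fc_cont hy 0), ?_, ?_⟩
  · intro e y hy'
    rw [← hval e]
    exact fc_indep (hF.diff e) (hp2 e) hy' hy 0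
  · intro e c D hD
    have h0 : fc (fun _ => -(c:ℂ)) (9/4) 0 = -(c:ℂ) := by
      unfold fc
      simp only [Int.cast_zero, mul_zero, zero_mul, neg_zero, exp_zero, mul_one]
      rw [intervalIntegral.integral_const]
      have hpi : (Real.pi : ℂ) ≠ 0 := ofReal_ne_zero.mpr Real.pi_ne_zero
      rw [sub_zero, real_smul]
      push_cast
      field_simp
    have h1 := fc_add (f := F e) (g := fun _ => -(c:ℂ)) (hF.diff e).continuousOn continuousOn_const hy 0
    rw [h0] at h1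
    have h2 := fc_norm_le (f := fun z => F e z + -(c:ℂ)) (y := 9/4) (B := D) (fun x => by
      rw [← sub_eq_add_neg]
      refine hD _ ⟨?_, ?_⟩ <;> norm_num) 0
    rw [h1, Int.cast_zero, zero_mul, Real.exp_zero, mul_one, hval e, ← ofReal_neg, ← ofReal_add, norm_real,
      Real.norm_eq_abs, ← sub_eq_add_neg] at h2
    exact h2

theorem M05_pow : (1/2 : ℝ) ^ (-(9:ℝ)/2) ≤ 32 := by
  have h1 : (1/2 : ℝ) ^ (-(9:ℝ)/2) = (2:ℝ) ^ ((9:ℝ)/2) := by
    rw [show (1/2:ℝ) = (2:ℝ)⁻¹ by norm_num, Real.inv_rpow (by norm_num), ← Real.rpow_neg (by norm_num)]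
    congr 1; ring
  rw [h1]
  have h2 : (2:ℝ) ^ ((9:ℝ)/2) ≤ (2:ℝ) ^ ((5:ℕ):ℝ) :=
    Real.rpow_le_rpow_of_exponent_le (by norm_num) (by norm_num)
  rw [Real.rpow_natCast] at h2
  exact h2.trans (by norm_num)

theorem M05_x0 {al : ℝ} (hal : al ∈ JJ) : |Real.sin al * Real.cos al / lam al 0| ≤ 1 := by
  obtain ⟨h1, h2, h3, h4, h5, h6, h7⟩ := JJ_bounds hal
  rw [lam_zero (by linarith) h3]
  have p1 := Real.pi_gt_d2
  have h8 : 0.37 ≤ (1 - Real.cos al) ^ 2 := by nlinarith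
  have h9 : 0 < Real.sin al := by linarith
  have h10 : Real.sin al * Real.cos al / (Real.sin al * (Real.pi / 2) * (1 - Real.cos al) ^ 2) =
      Real.cos al / (Real.pi / 2 * (1 - Real.cos al) ^ 2) := by
    have h11 : Real.pi / 2 * (1 - Real.cos al) ^ 2 ≠ 0 := by positivity
    rw [mul_assoc, mul_div_mul_left _ _ h9.ne']
  rw [h10, abs_of_nonneg (by positivity), div_le_one (by positivity)]
  nlinarith

/-- The means: Fourier coefficient `0` on the line `Im t = 9/4` (it does not depend on the line). `b_1` is close to `be1`: on `band (9/8) (19/8)` the function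
`DVN x1` is within `C (cA + e2)` of `- (3/2) (sin cos/lam_0) Vs` (`DVN_near_const` with `ρ = 1/8`, base band `1 (5/2)`), `Bt` is within `C cA` of
`(pi/2) sin^3 al` (`aj_bd`). `b_2`, `b_0` similarly. Continuity: `Fam.fc_cont`; reality: `fc_real`. -/
theorem means : ∃ c1 C : ℝ, 0 < c1 ∧ 1 ≤ C ∧ ∀ al ∈ JJ, ∀ r cA e1 e2 E : ℝ, 3 < r → r ≤ 4 → 0 ≤ cA → cA ≤ c1 → 1 ≤ e1 → 0 ≤ e2 → e2 ≤ 1 → 0 ≤ E →
    ∀ (Z X u : EE → ℂ → ℂ) (V0 mu : EE → ℝ) (x0 x1 x2 : EE → ℂ → ℂ) (s0 s1 s2 : EE → ℝ), Ap al r cA E Z X V0 mu → US cA r u →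
    Basic3 al r e1 e2 E Z X u V0 mu x0 x1 x2 s0 s1 s2 →
    ∃ b0 b1 b2 : EE → ℝ, Continuous b0 ∧ Continuous b1 ∧ Continuous b2 ∧
      (∀ e, ∀ y ∈ Ioo (1:ℝ) r, fc (rh0 al (V0 e) (Z e) (X e) (u e) (x0 e)) y 0 = (b0 e : ℂ) ∧ fc (rh1 al (Z e) (X e) (u e) (x1 e)) y 0 = (b1 e : ℂ) ∧
        fc (rh2 al (Z e) (X e) (u e) (x2 e)) y 0 = (b2 e : ℂ)) ∧
      (∀ e, |b0 e| ≤ C * e1 * E ∧ |b1 e - be1 al| ≤ C * (cA + e2) ∧ |b2 e| ≤ C * (cA + e2)) := by
  obtain ⟨c2, C2, hc2, hC2, H2⟩ := rh_props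
  obtain ⟨c3, C3, hc3, hC3, H3⟩ := DVN_near_const 5 (by norm_num)
  obtain ⟨c4, C4, hc4, hC4, H4⟩ := aj_bd 5 (by norm_num)
  refine ⟨min c2 (min c3 c4), 1 + 32 * C2 + 256 * C3 + 76 * C4, by positivity, by linarith, ?_⟩
  intro al hal r cA e1 e2 E hr hr4 hcA0 hcA he1 he20 he21 hE Z X u V0 mu x0 x1 x2 s0 s1 s2 hAp hU hB
  have l2 : cA ≤ c2 := hcA.trans (min_le_left _ _)
  have l3 : cA ≤ c3 := hcA.trans ((min_le_right _ _).trans (min_le_left _ _))
  have l4 : cA ≤ c4 := hcA.trans ((min_le_right _ _).trans (min_le_right _ _))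
  have hF2 : FC c2 r Z X := g05_FC_mono hAp.fc l2
  have hU2 : US c2 r u :=
    { fu := hU.fu
      u0 := fun e z hz => (hU.u0 e z hz).trans l2
      ue := hU.ue
      up := hU.up
      ur := hU.ur }
  have P0 := H2 al hal r hr (by linarith) Z X u x0 hF2 hU2 hB.h0 V0 hAp.vc V0 (fun _ => -1) hAp.vc continuous_const
  have P1 := H2 al hal r hr (by linarith) Z X u x1 hF2 hU2 hB.h1 V0 hAp.vc (fun _ => 1) (fun _ => 0) continuous_const
    continuous_const
  have P2 := H2 al hal r hr (by linarith) Z X u x2 hF2 hU2 hB.h2 V0 hAp.vc (fun _ => 0) (fun _ => 0) continuous_const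
    continuous_const
  have q0 : ∀ e t, (((V0 e : ℝ) : ℂ) + ((-1 : ℝ) : ℂ) * Vf al (Z e) (X e) t - DVN al (Z e) (X e) (u e) (x0 e) t) /
      Bt al (Z e) (X e) t = rh0 al (V0 e) (Z e) (X e) (u e) (x0 e) t := by
    intro e t
    unfold rh0
    congr 1
    push_cast
    ring
  have q1 : ∀ e t, (((1 : ℝ) : ℂ) + ((0 : ℝ) : ℂ) * Vf al (Z e) (X e) t - DVN al (Z e) (X e) (u e) (x1 e) t) /
      Bt al (Z e) (X e) t = rh1 al (Z e) (X e) (u e) (x1 e) t := by
    intro e t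
    unfold rh1
    congr 1
    push_cast
    ring
  have q2 : ∀ e t, (((0 : ℝ) : ℂ) + ((0 : ℝ) : ℂ) * Vf al (Z e) (X e) t - DVN al (Z e) (X e) (u e) (x2 e) t) /
      Bt al (Z e) (X e) t = rh2 al (Z e) (X e) (u e) (x2 e) t := by
    intro e t
    unfold rh2
    congr 1
    push_cast
    ring
  simp only [q0] at P0
  simp only [q1] at P1
  simp only [q2] at P2
  obtain ⟨F0, -, p0, k0, D0, B0⟩ := P0
  obtain ⟨F1, -, p1, k1, D1, B1⟩ := P1
  obtain ⟨F2, -, p2, k2, D2, B2⟩ := P2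
  obtain ⟨b0, cb0, v0, w0⟩ := M05_mean hr F0 p0 k0
  obtain ⟨b1, cb1, v1, w1⟩ := M05_mean hr F1 p1 k1
  obtain ⟨b2, cb2, v2, w2⟩ := M05_mean hr F2 p2 k2
  have hpow := M05_pow
  have hsub : ∀ {t : ℂ}, t ∈ band (9/8) (19/8) → t ∈ band 1 r := fun ht =>
    band_subset (by norm_num) (by linarith) ht
  have hsub' : ∀ {t : ℂ}, t ∈ band (9/8) (19/8) → t ∈ band 1 (r - 1/2) := fun ht =>
    band_subset (by norm_num) (by linarith) ht
  refine ⟨b0, b1, b2, cb0, cb1, cb2, fun e y hy => ⟨v0 e y hy, v1 e y hy, v2 e y hy⟩, fun e => ⟨?_, ?_, ?_⟩⟩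
  · have h1 := w0 e 0 (E + C2 * (32 * (e1 * E))) ?_
    · rw [sub_zero] at h1
      refine h1.trans ?_
      have h2 : E ≤ e1 * E := by nlinarith
      have h3 : 0 ≤ e1 * E := by positivity
      nlinarith
    · intro t ht
      rw [ofReal_zero, sub_zero]
      unfold rh0
      rw [norm_div]
      have hB1 := (B0 e t (hsub ht)).1
      rw [div_le_iff₀ (by linarith)]
      have h4 := D0 (32 * (e1 * E)) (r - 1/2) (by linarith) (by linarith) (fun e z hz => by
        refine (hB.b0 (1/2) (by norm_num) le_rfl e z hz).trans ?_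
        have h5 : 0 ≤ e1 * E := by positivity
        nlinarith) e t (hsub' ht)
      have h6 := hAp.eV e t (hsub ht)
      have h7 : ‖-(Vf al (Z e) (X e) t - (V0 e : ℂ)) - DVN al (Z e) (X e) (u e) (x0 e) t‖ ≤ E + C2 * (32 * (e1 * E)) := by
        refine (norm_sub_le _ _).trans ?_
        rw [norm_neg]
        linarith
      have h8 : 0 ≤ E + C2 * (32 * (e1 * E)) := by positivity
      nlinarith
  · have hx0 := M05_x0 hal
    have hVs := Vs_bd hal
    obtain ⟨β1, β2⟩ := M05_beta hal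
    have h1 := w1 e (be1 al) (8 * C3 * (cA + 32 * e2) + 76 * (C4 * cA)) ?_
    · refine h1.trans ?_
      nlinarith [mul_nonneg (by linarith : 0 ≤ C3) hcA0, mul_nonneg (by linarith : 0 ≤ C4) he20,
        mul_nonneg (by linarith : 0 ≤ C2) (by linarith : 0 ≤ cA + e2), mul_nonneg (by linarith : 0 ≤ C3) he20,
        mul_nonneg (by linarith : 0 ≤ C4) hcA0]
    · intro t ht
      set κ : ℝ := Real.sin al * Real.cos al / lam al 0 with hκ
      have h2 := H3 al hal 1 (5/2) le_rfl (by norm_num) cA (32 * e2) hcA0 l3 (by positivity) (Z e) (X e) (u e) (x1 e)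
        ((hAp.fc.nb e).mono le_rfl (by linarith) (by linarith))
        ((hU.fu.diff e).mono (band_subset (by linarith) (by linarith)))
        (fun z hz => hU.u0 e z (band_subset (by linarith) (by linarith) hz))
        ((hB.h1.f.diff e).mono (band_subset (by linarith) (by linarith)))
        (-(κ : ℂ)) (by
          rw [norm_neg, norm_real, Real.norm_eq_abs]
          linarith)
        (fun z hz => by
          rw [sub_neg_eq_add]
          refine (hB.b1 (1/2) (by norm_num) le_rfl e z (band_subset (by linarith) (by linarith) hz)).trans ?_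
          nlinarith)
        (1/8) (by norm_num) (by norm_num) t (band_subset (by norm_num) (by norm_num) ht)
      have h3 : ‖DVN al (Z e) (X e) (u e) (x1 e) t - 3 / 2 * -(κ : ℂ) * (Vs al : ℂ)‖ ≤ 8 * C3 * (cA + 32 * e2) := by
        refine h2.trans (le_of_eq ?_)
        ring
      have h4 := (H4 al hal r cA (by linarith) (by linarith) hcA0 l4 (Z e) (X e) (hAp.fc.nb e) (hAp.fc.sy e) t (hsub ht)).2.2
      have hB1 := (B1 e t (hsub ht)).1
      set Bv : ℂ := Bt al (Z e) (X e) t with hBv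
      set Dv : ℂ := DVN al (Z e) (X e) (u e) (x1 e) t with hDv
      set β : ℝ := Real.pi / 2 * (Real.sin al) ^ 3 with hβ
      have hβc : (Real.pi / 2 : ℂ) * (Real.sin al : ℂ) ^ 3 = (β : ℂ) := by
        rw [hβ]; push_cast; ring
      rw [hβc] at h4
      set N0 : ℝ := 1 + 3 / 2 * Vs al * κ with hN0
      have hN0b : |N0| ≤ 17/2 := by
        have h5 : |Vs al * κ| ≤ 5 * 1 := by
          rw [abs_mul]
          exact mul_le_mul hVs hx0 (abs_nonneg _) (by norm_num)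
        rw [hN0]
        have h6 : |1 + 3 / 2 * Vs al * κ| ≤ |(1:ℝ)| + |3 / 2 * Vs al * κ| := abs_add_le _ _
        have h7 : |3 / 2 * Vs al * κ| = 3/2 * |Vs al * κ| := by
          rw [mul_assoc, abs_mul, abs_of_pos (by norm_num : (0:ℝ) < 3/2)]
        rw [h7, abs_one] at h6
        linarith
      have hBv0 : Bv ≠ 0 := by
        intro h0
        rw [h0, norm_zero] at hB1
        linarith
      have hβ0 : (β : ℂ) ≠ 0 := by
        rw [Ne, ofReal_eq_zero]
        linarith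
      have e1' : rh1 al (Z e) (X e) (u e) (x1 e) t - (be1 al : ℂ) =
          ((3 / 2 * -(κ : ℂ) * (Vs al : ℂ)) - Dv) / Bv + (N0 : ℂ) * ((β : ℂ) - Bv) / (Bv * (β : ℂ)) := by
        have h8 : (be1 al : ℂ) = (N0 : ℂ) / (β : ℂ) := by
          unfold be1
          rw [← hβ, ← hκ, ← hN0, ofReal_div]
        have h9 : (N0 : ℂ) = 1 + 3 / 2 * (Vs al : ℂ) * (κ : ℂ) := by
          rw [hN0]; push_cast; ring
        rw [h8]
        unfold rh1
        rw [← hDv, ← hBv]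
        have h10 : (N0 : ℂ) * ((β : ℂ) - Bv) / (Bv * (β : ℂ)) = (N0 : ℂ) / Bv - (N0 : ℂ) / (β : ℂ) := by
          field_simp
        rw [h10]
        have h11 : (1 - Dv) / Bv = ((3 / 2 * -(κ : ℂ) * (Vs al : ℂ)) - Dv) / Bv + (N0 : ℂ) / Bv := by
          rw [← add_div, h9]
          congr 1
          ring
        rw [h11]
        ring
      rw [e1']
      refine (norm_add_le _ _).trans (add_le_add ?_ ?_)
      · rw [norm_div, div_le_iff₀ (by linarith), norm_sub_rev]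
        have h12 : 0 ≤ 8 * C3 * (cA + 32 * e2) := (norm_nonneg _).trans h3
        nlinarith
      · rw [norm_div, norm_mul, norm_mul, norm_real, norm_real, Real.norm_eq_abs, Real.norm_eq_abs,
          abs_of_pos (by linarith : 0 < β), norm_sub_rev]
        rw [div_le_iff₀ (by positivity)]
        have h13 : |N0| * ‖Bv - (β : ℂ)‖ ≤ 17/2 * (C4 * cA) := mul_le_mul hN0b h4 (norm_nonneg _) (by norm_num)
        have h14 : 0 ≤ C4 * cA := mul_nonneg (by linarith) hcA0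
        have h15 : 1 ≤ ‖Bv‖ * β := by nlinarith
        nlinarith
  · have h1 := w2 e 0 (C2 * (32 * e2)) ?_
    · rw [sub_zero] at h1
      refine h1.trans ?_
      nlinarith [mul_nonneg (by linarith : 0 ≤ C2) hcA0, mul_nonneg (by linarith : 0 ≤ C3) (by linarith : 0 ≤ cA + e2),
        mul_nonneg (by linarith : 0 ≤ C4) (by linarith : 0 ≤ cA + e2)]
    · intro t ht
      rw [ofReal_zero, sub_zero]
      unfold rh2
      rw [norm_div]
      have hB1 := (B2 e t (hsub ht)).1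
      rw [div_le_iff₀ (by linarith)]
      have h4 := D2 (32 * e2) (r - 1/2) (by linarith) (by linarith) (fun e z hz => by
        refine (hB.b2 (1/2) (by norm_num) le_rfl e z hz).trans ?_
        nlinarith) e t (hsub' ht)
      have h7 : ‖-DVN al (Z e) (X e) (u e) (x2 e) t‖ ≤ C2 * (32 * e2) := by
        rw [norm_neg]
        exact h4
      have h8 : 0 ≤ C2 * (32 * e2) := by positivity
      nlinarith

end FB
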