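import Pool.Agent.H48.FB.NDefs
import Pool.Agent.H48.FB.G04

/-! M06: the 2x2 system. -/

open Set Filter Topology

noncomputable section

namespace FB

theorem M06_be1_eq {al : ℝ} (hal : al ∈ JJ) :
    be1 al = Real.sin al / (Real.pi / 2 * (1 - Real.cos al) ^ 2) := by
  obtain ⟨_, _, _, h1, h2, h3, h4⟩ := JJ_bounds hal
  obtain ⟨hl, hD⟩ := D0_rel hal
  have hpi := Real.pi_pos
  have hs : Real.sin al ≠ 0 := by linarith
  have hc : 1 - Real.cos al ≠ 0 := by linarith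
  unfold be1
  rw [hD, lam_zero (by linarith) (by linarith)]
  unfold M0
  field_simp
  ring

theorem M06_be1_bounds {al : ℝ} (hal : al ∈ JJ) : 1 ≤ be1 al ∧ be1 al ≤ 2 := by
  obtain ⟨_, _, _, h1, h2, h3, h4⟩ := JJ_bounds hal
  have hpi := Real.pi_gt_three
  have hpi2 := Real.pi_lt_d2
  have hc : 0 < (1 - Real.cos al) ^ 2 := by
    have : 0 < 1 - Real.cos al := by linarith
    positivity
  have hc1 : (1 - Real.cos al) ^ 2 ≤ 0.41 := by nlinarith
  have hc2 : 0.37 ≤ (1 - Real.cos al) ^ 2 := by nlinarith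
  rw [M06_be1_eq hal]
  constructor
  · rw [le_div_iff₀ (by positivity)]
    nlinarith
  · rw [div_le_iff₀ (by positivity)]
    nlinarith

/-- `be1 = 2 M0 sin al/(lam_0 (pi/2) sin^3 al)` (`D0_rel`), bounded below on `JJ` (`M0 = (pi/4) sin^4 al`, `lam_0 ≤ 1`). -/
theorem be1_lower : ∃ c : ℝ, 0 < c ∧ ∀ al ∈ JJ, c ≤ be1 al :=
  ⟨1, one_pos, fun _ hal => (M06_be1_bounds hal).1⟩

/-- Cramer's rule: the determinant `s1 b2 - s2 b1` is within `C η` of `- sin al * be1`. -/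
theorem two_by_two : ∃ η C : ℝ, 0 < η ∧ 1 ≤ C ∧ ∀ al ∈ JJ, ∀ s0 s1 s2 b0 b1 b2 : EE → ℝ, ∀ M : ℝ, Continuous s0 → Continuous s1 → Continuous s2 →
    Continuous b0 → Continuous b1 → Continuous b2 → (∀ e, |s0 e| ≤ M ∧ |b0 e| ≤ M) →
    (∀ e, |s1 e| ≤ η ∧ |s2 e - Real.sin al| ≤ η ∧ |b1 e - be1 al| ≤ η ∧ |b2 e| ≤ η) →
    ∃ dV dm : EE → ℝ, Continuous dV ∧ Continuous dm ∧ (∀ e, |dV e| ≤ C * M ∧ |dm e| ≤ C * M) ∧
      (∀ e, s0 e + dV e * s1 e + dm e * s2 e = 0) ∧ (∀ e, b0 e + dV e * b1 e + dm e * b2 e = 0) := by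
  refine ⟨1/100, 3, by norm_num, by norm_num, ?_⟩
  intro al hal s0 s1 s2 b0 b1 b2 M cs0 cs1 cs2 cb0 cb1 cb2 hM hη
  obtain ⟨_, _, _, _, _, h3, h4⟩ := JJ_bounds hal
  obtain ⟨g1, g2⟩ := M06_be1_bounds hal
  have hD : ∀ e, s1 e * b2 e - s2 e * b1 e ≤ -(4/5) := by
    intro e
    obtain ⟨e1, e2, e3, e4⟩ := hη e
    rw [abs_le] at e2 e3
    have k1 : |s1 e * b2 e| ≤ 1/100 * (1/100) := by
      rw [abs_mul]
      exact mul_le_mul e1 e4 (abs_nonneg _) (by norm_num)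
    rw [abs_le] at k1
    have k2 : 0.91 * 0.99 ≤ s2 e * b1 e :=
      mul_le_mul (by linarith) (by linarith) (by norm_num) (by linarith)
    norm_num at k1 k2 ⊢
    linarith
  have hD0 : ∀ e, s1 e * b2 e - s2 e * b1 e ≠ 0 := fun e => by
    have := hD e
    linarith
  have hDa : ∀ e, 4/5 ≤ |s1 e * b2 e - s2 e * b1 e| := fun e => by
    have := hD e
    rw [abs_of_neg (by linarith)]
    linarith
  refine ⟨fun e => (s2 e * b0 e - s0 e * b2 e) / (s1 e * b2 e - s2 e * b1 e),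
    fun e => (b1 e * s0 e - s1 e * b0 e) / (s1 e * b2 e - s2 e * b1 e),
    ((cs2.mul cb0).sub (cs0.mul cb2)).div ((cs1.mul cb2).sub (cs2.mul cb1)) hD0,
    ((cb1.mul cs0).sub (cs1.mul cb0)).div ((cs1.mul cb2).sub (cs2.mul cb1)) hD0, ?_, ?_, ?_⟩
  · intro e
    obtain ⟨e1, e2, e3, e4⟩ := hη e
    obtain ⟨m1, m2⟩ := hM e
    have hM0 : 0 ≤ M := (abs_nonneg _).trans m1
    have a2 : |s2 e| ≤ 1 := by
      rw [abs_le] at e2 ⊢
      constructor <;> linarith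
    have a3 : |b1 e| ≤ 2.01 := by
      rw [abs_le] at e3 ⊢
      constructor <;> linarith
    have p1 : |s2 e * b0 e| ≤ 1 * M := by
      rw [abs_mul]; exact mul_le_mul a2 m2 (abs_nonneg _) (by norm_num)
    have p2 : |s0 e * b2 e| ≤ M * (1/100) := by
      rw [abs_mul]; exact mul_le_mul m1 e4 (abs_nonneg _) hM0
    have p3 : |b1 e * s0 e| ≤ 2.01 * M := by
      rw [abs_mul]; exact mul_le_mul a3 m1 (abs_nonneg _) (by norm_num)
    have p4 : |s1 e * b0 e| ≤ 1/100 * M := by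
      rw [abs_mul]; exact mul_le_mul e1 m2 (abs_nonneg _) (by norm_num)
    have q1 := abs_sub (s2 e * b0 e) (s0 e * b2 e)
    have q2 := abs_sub (b1 e * s0 e) (s1 e * b0 e)
    have hd := hDa e
    constructor
    · rw [abs_div, div_le_iff₀ (by linarith)]
      nlinarith
    · rw [abs_div, div_le_iff₀ (by linarith)]
      nlinarith
  · intro e
    have h := hD0 e
    show s0 e + (s2 e * b0 e - s0 e * b2 e) / (s1 e * b2 e - s2 e * b1 e) * s1 e +
      (b1 e * s0 e - s1 e * b0 e) / (s1 e * b2 e - s2 e * b1 e) * s2 e = 0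
    have k : (s2 e * b0 e - s0 e * b2 e) * s1 e + (b1 e * s0 e - s1 e * b0 e) * s2 e =
        -s0 e * (s1 e * b2 e - s2 e * b1 e) := by ring
    rw [div_mul_eq_mul_div, div_mul_eq_mul_div, add_assoc, ← add_div, k, mul_div_cancel_right₀ _ h]
    ring
  · intro e
    have h := hD0 e
    show b0 e + (s2 e * b0 e - s0 e * b2 e) / (s1 e * b2 e - s2 e * b1 e) * b1 e +
      (b1 e * s0 e - s1 e * b0 e) / (s1 e * b2 e - s2 e * b1 e) * b2 e = 0
    have k : (s2 e * b0 e - s0 e * b2 e) * b1 e + (b1 e * s0 e - s1 e * b0 e) * b2 e =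
        -b0 e * (s1 e * b2 e - s2 e * b1 e) := by ring
    rw [div_mul_eq_mul_div, div_mul_eq_mul_div, add_assoc, ← add_div, k, mul_div_cancel_right₀ _ h]
    ring

end FB
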