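import Pool.Agent.H48.FB.M04
import Pool.Agent.H48.FB.M05
import Pool.Agent.H48.FB.M06
import Pool.Agent.H48.FB.J01
import Pool.Agent.H48.FB.F02

/-! M07: solution of the linearised equations. -/

open Complex Set MeasureTheory Filter Topology

noncomputable section

namespace FB

theorem m07_strip {r r' : ℝ} (h : r' ≤ r) : strip r' ⊆ strip r := band_subset (by linarith) h

theorem m07_bs {a r r' : ℝ} (h : -r ≤ a) (h' : r' ≤ r) : band a r' ⊆ strip r := band_subset h h'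

theorem m07_FC {c c' r r' : ℝ} {Z X : EE → ℂ → ℂ} (h : FC c r Z X) (hc : c ≤ c') (hr : r' ≤ r) : FC c' r' Z X where
  fZ := h.fZ.mono (m07_strip hr)
  fX := h.fX.mono (m07_strip hr)
  nb := fun e => (h.nb e).mono hc (by linarith) hr
  sy := fun e => (h.sy e).mono hr
  re := fun e => (h.re e).mono hr

theorem m07_US {c c' r r' : ℝ} {u : EE → ℂ → ℂ} (h : US c r u) (hc : c ≤ c') (hr : r' ≤ r) : US c' r' u where
  fu := h.fu.mono (m07_strip hr)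
  u0 := fun e z hz => (h.u0 e z (m07_strip hr hz)).trans hc
  ue := fun e z hz => h.ue e z (m07_strip hr hz)
  up := fun e z hz => h.up e z (m07_strip hr hz)
  ur := fun e z hz => h.ur e z (m07_strip hr hz)

theorem m07_EPR {r r' : ℝ} {x : EE → ℂ → ℂ} (h : EPR r x) (hr : r' ≤ r) : EPR r' x where
  f := h.f.mono (m07_strip hr)
  e := fun e z hz => h.e e z (m07_strip hr hz)
  p := fun e z hz => h.p e z (m07_strip hr hz)
  r := fun e z hz => h.r e z (m07_strip hr hz)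

/-- the geometric sum -/
theorem m07_sum {x : ℝ} (hx : 0 < x) : Summable (fun m : ℕ => ((m:ℝ) + 1) * Real.exp (-(((m:ℝ) + 1) * x))) ∧
    (x ≤ 1 → ∑' m : ℕ, ((m:ℝ) + 1) * Real.exp (-(((m:ℝ) + 1) * x)) ≤ 4 / x ^ 2) := by
  obtain ⟨q, hq⟩ : ∃ q : ℝ, q = Real.exp (-x) := ⟨_, rfl⟩
  have hq0 : 0 < q := hq ▸ Real.exp_pos _
  have hq1 : q < 1 := by rw [hq]; exact Real.exp_lt_one_iff.2 (by linarith)
  have hn : ‖q‖ < 1 := by rw [Real.norm_of_nonneg hq0.le]; exact hq1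
  have hs := hasSum_coe_mul_geometric_of_norm_lt_one hn
  have e : (fun m : ℕ => ((m:ℝ) + 1) * Real.exp (-(((m:ℝ) + 1) * x))) = fun m : ℕ => ((m + 1 : ℕ) : ℝ) * q ^ (m + 1) := by
    funext m
    rw [hq, ← Real.exp_nat_mul]
    push_cast
    ring_nf
  have hs' : HasSum (fun m : ℕ => ((m + 1 : ℕ) : ℝ) * q ^ (m + 1)) (q / (1 - q) ^ 2) := by
    have := (hasSum_nat_add_iff' 1).2 hs
    simpa using this
  rw [e]
  refine ⟨hs'.summable, fun hx1 => ?_⟩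
  rw [hs'.tsum_eq]
  have h1 : x / 2 ≤ 1 - q := by
    have h2 : q * Real.exp x = 1 := by rw [hq, ← Real.exp_add]; simp
    have h3 := Real.add_one_le_exp x
    by_cases h4 : q ≤ 1/2
    · linarith
    · have h4 := not_le.1 h4
      nlinarith
  have h2 : (x / 2) ^ 2 ≤ (1 - q) ^ 2 := by gcongr
  have h3 : 0 < (1 - q) ^ 2 := by
    have : 0 < 1 - q := by linarith
    positivity
  rw [div_le_div_iff₀ h3 (by positivity)]
  nlinarith [mul_nonneg (by linarith : 0 ≤ 1 - q) (sq_nonneg x)]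

theorem m07_coh {al κ κ2 b Bd : ℝ} (hL : LB al κ κ2) (hb : 0 < b) (hB : 0 ≤ Bd) {φ : EE → ℕ → ℝ}
    (hc : ∀ m, Continuous (fun e => φ e m)) (h0 : ∀ e, φ e 0 = 0)
    (hφ : ∀ e m, |φ e m| ≤ Bd * Real.exp (-(2 * m * b))) :
    ∃ τ : EE → ℂ → ℂ, Fam (strip b) τ ∧ (∀ e, ∀ z ∈ strip b, τ e (-z) = - τ e z) ∧
      (∀ e, ∀ z ∈ strip b, τ e (z + (Real.pi : ℂ)) = τ e z) ∧
      (∀ e, ∀ z ∈ strip b, τ e ((starRingEnd ℂ) z) = (starRingEnd ℂ) (τ e z)) ∧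
      (∀ e, ∀ z ∈ strip b, τ e (z + (al:ℂ)) - τ e (z - (al:ℂ)) = cosS (φ e) z) ∧
      ∀ δ : ℝ, 0 < δ → δ ≤ 1/2 → δ < b → ∀ e, ∀ z ∈ strip (b - δ), ‖τ e z‖ ≤ Bd / κ2 * (1 / δ ^ 2) := by
  have hk2 := hL.l0
  have key : ∀ r : ℝ, (fun m : ℕ => (Bd * Real.exp (-(2 * ((m + 1 : ℕ) : ℝ) * b))) / (κ2 / ((m + 1 : ℕ) : ℝ)) * Real.exp (2 * ((m:ℝ) + 1) * r)) =
      fun m : ℕ => Bd / κ2 * (((m:ℝ) + 1) * Real.exp (-(((m:ℝ) + 1) * (2 * (b - r))))) := by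
    intro r
    funext m
    have e1 : Real.exp (-(((m:ℝ) + 1) * (2 * (b - r)))) = Real.exp (-(2 * ((m + 1 : ℕ) : ℝ) * b)) * Real.exp (2 * ((m:ℝ) + 1) * r) := by
      rw [← Real.exp_add]
      push_cast
      ring_nf
    rw [e1]
    push_cast
    have : (0:ℝ) < (m:ℝ) + 1 := by positivity
    field_simp
  obtain ⟨τ, t1, t2, t3, t4, t5, t6⟩ := coh_odd (b := b) hb (al := al) (s := fun m : ℕ => κ2 / (m:ℝ))
    (φ := φ) (F := fun m : ℕ => Bd * Real.exp (-(2 * (m:ℝ) * b)))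
    (fun m hm => ⟨div_pos hk2 (by exact_mod_cast hm), hL.hs m hm⟩) hc h0 hφ (by
      intro r hr0 hrb
      rw [key r]
      exact (m07_sum (by linarith : 0 < 2 * (b - r))).1.mul_left _)
  refine ⟨τ, t1, t2, t3, t4, t5, ?_⟩
  intro δ hδ hδ1 hδb e z hz
  have h := t6 (b - δ) (by linarith) (by linarith) e z (abs_le.2 ⟨by linarith [hz.1], by linarith [hz.2]⟩)
  rw [key (b - δ), tsum_mul_left] at h
  refine h.trans ?_
  have h1 := (m07_sum (by linarith : 0 < 2 * (b - (b - δ)))).2 (by linarith)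
  have h2 : 4 / (2 * (b - (b - δ))) ^ 2 = 1 / δ ^ 2 := by
    rw [show b - (b - δ) = δ by ring]
    field_simp
    norm_num
  rw [h2] at h1
  gcongr

/-- linearity of `Top` and `DVN` -/
theorem m07_lin : ∃ c1 : ℝ, 0 < c1 ∧ ∀ al ∈ JJ, ∀ r : ℝ, 3 < r → r ≤ 5 → ∀ Z X u x0 x1 x2 : EE → ℂ → ℂ, FC c1 r Z X → US c1 r u →
    EPR r x0 → EPR r x1 → EPR r x2 → ∀ e, ∀ t ∈ band 1 r, ∀ p q : ℂ,
      Top al (Z e) (X e) (u e) (fun z => x0 e z + p * x1 e z + q * x2 e z) t =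
        Top al (Z e) (X e) (u e) (x0 e) t + p * Top al (Z e) (X e) (u e) (x1 e) t + q * Top al (Z e) (X e) (u e) (x2 e) t ∧
      DVN al (Z e) (X e) (u e) (fun z => x0 e z + p * x1 e z + q * x2 e z) t =
        DVN al (Z e) (X e) (u e) (x0 e) t + p * DVN al (Z e) (X e) (u e) (x1 e) t + q * DVN al (Z e) (X e) (u e) (x2 e) t := by
  obtain ⟨c1, h1, H1⟩ := DS0_normal 5 (by norm_num)
  obtain ⟨c2, C2, h2, -, H2⟩ := normal_dir 5 (by norm_num)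
  obtain ⟨c3, h3, H3⟩ := DV_add 5 (by norm_num)
  refine ⟨min (min c1 c2) (min c3 1), by positivity, ?_⟩
  intro al hal r hr hr5 Z X u x0 x1 x2 hF hU e0 e1 e2 e t ht p q
  have k1 : min (min c1 c2) (min c3 1) ≤ c1 := (min_le_left _ _).trans (min_le_left _ _)
  have k2 : min (min c1 c2) (min c3 1) ≤ c2 := (min_le_left _ _).trans (min_le_right _ _)
  have k3 : min (min c1 c2) (min c3 1) ≤ c3 := (min_le_right _ _).trans (min_le_left _ _)
  have k4 : min (min c1 c2) (min c3 1) ≤ 1 := (min_le_right _ _).trans (min_le_right _ _)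
  have hbs : band 1 r ⊆ strip r := m07_bs (by linarith) le_rfl
  have N : ∀ x : EE → ℂ → ℂ, EPR r x → ContinuousOn (fun z => gN (Z e) (X e) (u e) (x e) z * deriv (X e) z) (band 1 r) ∧
      ContinuousOn (fun z => -(gN (Z e) (X e) (u e) (x e) z * deriv (Z e) z)) (band 1 r) := by
    intro x hx
    obtain ⟨a1, a2, -⟩ := H2 al hal r (by linarith) hr5 Z X u x (m07_FC hF k2 le_rfl) hU.fu
      (fun e z hz => ⟨(hU.u0 e z hz).trans k4, hU.ue e z hz, hU.up e z hz⟩) hx.f (fun e z hz => ⟨hx.e e z hz, hx.p e z hz⟩)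
    exact ⟨(a1.diff e).continuousOn.mono hbs, (a2.diff e).continuousOn.mono hbs⟩
  obtain ⟨a0, b0⟩ := N x0 e0
  obtain ⟨a1, b1⟩ := N x1 e1
  obtain ⟨a2, b2⟩ := N x2 e2
  have hNB : NB (min (min c1 c2) (min c3 1)) 1 r (Z e) (X e) := (hF.nb e).mono le_rfl (by linarith) le_rfl
  have hNB1 : NB c1 1 r (Z e) (X e) := hNB.mono k1 le_rfl le_rfl
  have hNB3 : NB c3 1 r (Z e) (X e) := hNB.mono k3 le_rfl le_rfl
  have eA : (fun z => gN (Z e) (X e) (u e) (fun z => x0 e z + p * x1 e z + q * x2 e z) z * deriv (X e) z) =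
      fun z => 1 * (gN (Z e) (X e) (u e) (x0 e) z * deriv (X e) z) + 1 * (p * (gN (Z e) (X e) (u e) (x1 e) z * deriv (X e) z) +
        q * (gN (Z e) (X e) (u e) (x2 e) z * deriv (X e) z)) := by
    funext z
    simp only [gN]
    ring
  have eB : (fun z => -(gN (Z e) (X e) (u e) (fun z => x0 e z + p * x1 e z + q * x2 e z) z * deriv (Z e) z)) =
      fun z => 1 * (-(gN (Z e) (X e) (u e) (x0 e) z * deriv (Z e) z)) + 1 * (p * (-(gN (Z e) (X e) (u e) (x1 e) z * deriv (Z e) z)) +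
        q * (-(gN (Z e) (X e) (u e) (x2 e) z * deriv (Z e) z))) := by
    funext z
    simp only [gN]
    ring
  have L1 := H3 al hal 1 r le_rfl hr5 (Z e) (X e) hNB3 _ _ _ _ a1 b1 a2 b2 t ht p q
  have a3 : ContinuousOn (fun z => p * (gN (Z e) (X e) (u e) (x1 e) z * deriv (X e) z) +
        q * (gN (Z e) (X e) (u e) (x2 e) z * deriv (X e) z)) (band 1 r) := (continuousOn_const.mul a1).add (continuousOn_const.mul a2)
  have b3 : ContinuousOn (fun z => p * (-(gN (Z e) (X e) (u e) (x1 e) z * deriv (Z e) z)) +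
        q * (-(gN (Z e) (X e) (u e) (x2 e) z * deriv (Z e) z))) (band 1 r) := (continuousOn_const.mul b1).add (continuousOn_const.mul b2)
  have L2 := H3 al hal 1 r le_rfl hr5 (Z e) (X e) hNB3 _ _ _ _ a0 b0 a3 b3 t ht 1 1
  constructor
  · rw [← H1 al hal 1 r le_rfl hr5 (Z e) (X e) (u e) hNB1 _ t ht, ← H1 al hal 1 r le_rfl hr5 (Z e) (X e) (u e) hNB1 (x0 e) t ht,
      ← H1 al hal 1 r le_rfl hr5 (Z e) (X e) (u e) hNB1 (x1 e) t ht, ← H1 al hal 1 r le_rfl hr5 (Z e) (X e) (u e) hNB1 (x2 e) t ht,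
      eA, eB, L2.2.1, L1.2.1]
    ring
  · unfold DVN
    rw [eA, eB, L2.1, L1.1]
    ring

theorem m07_rpow {ρ : ℝ} (h0 : 0 < ρ) (h1 : ρ ≤ 1/2) : (ρ / 4) ^ (-(9:ℝ)/2) ≤ 1024 / ρ ^ 5 := by
  have hp : 0 < ρ / 4 := by linarith
  have h2 : (ρ / 4) ^ (-(9:ℝ)/2) ≤ (ρ / 4) ^ (-(5:ℝ)) :=
    Real.rpow_le_rpow_of_exponent_ge hp (by linarith) (by norm_num)
  refine h2.trans (le_of_eq ?_)
  rw [Real.rpow_neg hp.le, show (5:ℝ) = ((5:ℕ):ℝ) by norm_num, Real.rpow_natCast]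
  field_simp
  norm_num

/-- `1/(κ^i κ2^j ρ^k) ≤ 1/(κ κ2 ρ)^8` -/
theorem m07_pow {κ κ2 ρ : ℝ} (a0 : 0 < κ) (a1 : κ ≤ 1) (b0 : 0 < κ2) (b1 : κ2 ≤ 1) (c0 : 0 < ρ) (c1 : ρ ≤ 1) {i j k : ℕ}
    (hi : i ≤ 8) (hj : j ≤ 8) (hk : k ≤ 8) {x : ℝ} (hx : 0 ≤ x) : x / (κ ^ i * κ2 ^ j * ρ ^ k) ≤ x / (κ * κ2 * ρ) ^ 8 := by
  have h1 : κ ^ 8 ≤ κ ^ i := pow_le_pow_of_le_one a0.le a1 hi
  have h2 : κ2 ^ 8 ≤ κ2 ^ j := pow_le_pow_of_le_one b0.le b1 hj
  have h3 : ρ ^ 8 ≤ ρ ^ k := pow_le_pow_of_le_one c0.le c1 hk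
  rw [mul_pow, mul_pow]
  gcongr

theorem m07_consts {a : Fin 8 → ℝ} (h : ∀ i, 0 < a i) {y : ℝ} (hy : 0 < y) :
    ∃ c1 : ℝ, 0 < c1 ∧ (∀ i, c1 ≤ a i) ∧ c1 ≤ 1/2 ∧ c1 ≤ y := by
  refine ⟨min (min (min (min (a 0) (a 1)) (min (a 2) (a 3))) (min (min (a 4) (a 5)) (min (a 6) (a 7)))) (min (1/2) y), ?_, ?_, ?_, ?_⟩
  · have := h 0; have := h 1; have := h 2; have := h 3; have := h 4; have := h 5; have := h 6; have := h 7
    positivity
  · intro i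
    fin_cases i <;> simp
  · exact (min_le_right _ _).trans (min_le_left _ _)
  · exact (min_le_right _ _).trans (min_le_right _ _)

theorem m07_small {Cm Ct c1 m κ cA cR : ℝ} (hCm : 1 ≤ Cm) (hCt : 1 ≤ Ct) (hc1 : 0 < c1) (h : 3 * Cm * Ct * c1 ≤ m) (hκ : 0 < κ) (hκ1 : κ ≤ 1)
    (hA : 0 ≤ cA) (hA1 : cA ≤ c1 * κ) (hR : 0 ≤ cR) (hR1 : cR ≤ c1 * κ) :
    cA ≤ c1 ∧ cR ≤ c1 ∧ 1 ≤ Ct / κ ∧ 0 ≤ Ct / κ * (cA + cR) ∧ Ct / κ * (cA + cR) ≤ m ∧ Cm * (cA + Ct / κ * (cA + cR)) ≤ m := by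
  have hcc : c1 * κ ≤ c1 := mul_le_of_le_one_right hc1.le hκ1
  have he2b : Ct / κ * (cA + cR) ≤ 2 * (Ct * c1) := by
    rw [div_mul_eq_mul_div, div_le_iff₀ hκ]
    calc Ct * (cA + cR) ≤ Ct * (c1 * κ + c1 * κ) := by gcongr
      _ = 2 * (Ct * c1) * κ := by ring
  have h0 : c1 ≤ Ct * c1 := le_mul_of_one_le_left hc1.le hCt
  have h1 : 0 < Ct * c1 := by positivity
  have h2 : Ct * c1 ≤ Cm * (Ct * c1) := le_mul_of_one_le_left h1.le hCm
  have h3 : 3 * Cm * Ct * c1 = 3 * (Cm * (Ct * c1)) := by ring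
  refine ⟨hA1.trans hcc, hR1.trans hcc, ?_, by positivity, by linarith, ?_⟩
  · rw [le_div_iff₀ hκ]
    linarith
  · calc Cm * (cA + Ct / κ * (cA + cR)) ≤ Cm * (Ct * c1 + 2 * (Ct * c1)) := by
          have : cA ≤ Ct * c1 := by linarith
          gcongr
      _ = 3 * Cm * Ct * c1 := by ring
      _ ≤ m := h

theorem m07_x {al r e1 e2 E P ρ R9 : ℝ} {Z X u : EE → ℂ → ℂ} {V0 mu : EE → ℝ} {x0 x1 x2 : EE → ℂ → ℂ} {s0 s1 s2 dV dm : EE → ℝ}
    (hal : al ∈ JJ) (hB : Basic3 al r e1 e2 E Z X u V0 mu x0 x1 x2 s0 s1 s2) (cV : Continuous dV) (cdm : Continuous dm)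
    (hP : 0 ≤ P) (hdV : ∀ e, |dV e| ≤ P) (hdm : ∀ e, |dm e| ≤ P) (he1 : e1 * E ≤ P) (he2 : e2 ≤ 1) (hρ : 0 < ρ) (hρ1 : ρ ≤ 1/2)
    (hR9 : R9 = 1024 / ρ ^ 5) :
    EPR r (fun e z => x0 e z + (dV e : ℂ) * x1 e z + (dm e : ℂ) * x2 e z) ∧ 1 ≤ R9 ∧
      ∀ e, ∀ z ∈ strip (r - ρ/4), ‖x0 e z + (dV e : ℂ) * x1 e z + (dm e : ℂ) * x2 e z‖ ≤ 6 * P * R9 := by
  have hρ5 : ρ ^ 5 ≤ 1 := pow_le_one₀ hρ.le (by linarith)
  have hR91 : 1 ≤ R9 := by
    rw [hR9, le_div_iff₀ (by positivity)]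
    linarith
  refine ⟨?_, hR91, ?_⟩
  · refine ⟨(hB.h0.f.add ((Fam.param (Complex.continuous_ofReal.comp cV)).mul hB.h1.f)).add ((Fam.param (Complex.continuous_ofReal.comp cdm)).mul hB.h2.f), ?_, ?_, ?_⟩
    · intro e z hz
      simp only [hB.h0.e e z hz, hB.h1.e e z hz, hB.h2.e e z hz]
    · intro e z hz
      simp only [hB.h0.p e z hz, hB.h1.p e z hz, hB.h2.p e z hz]
    · intro e z hz
      simp only [hB.h0.r e z hz, hB.h1.r e z hz, hB.h2.r e z hz, map_add, map_mul, Complex.conj_ofReal]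
  have hrp := m07_rpow hρ hρ1
  rw [← hR9] at hrp
  have hrp0 : 0 ≤ (ρ / 4) ^ (-(9:ℝ)/2) := Real.rpow_nonneg (by linarith) _
  have hlam : ‖((Real.sin al * Real.cos al / lam al 0 : ℝ) : ℂ)‖ ≤ 3 := by
    have h1 := M03_lam_zero hal
    rw [Complex.norm_real, Real.norm_eq_abs, abs_div, abs_mul]
    rw [div_le_iff₀ (by rw [abs_of_pos (by linarith)]; linarith), abs_of_pos (by linarith : 0 < lam al 0)]
    have h2 := Real.abs_sin_le_one al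
    have h3 := Real.abs_cos_le_one al
    have h4 : |Real.sin al| * |Real.cos al| ≤ 1 := mul_le_one₀ h2 (abs_nonneg _) h3
    linarith
  intro e z hz
  have g0 := hB.b0 (ρ/4) (by linarith) (by linarith) e z hz
  have g1 := hB.b1 (ρ/4) (by linarith) (by linarith) e z hz
  have g2 := hB.b2 (ρ/4) (by linarith) (by linarith) e z hz
  have g0' : ‖x0 e z‖ ≤ P * R9 := by
    calc ‖x0 e z‖ ≤ e1 * E * (ρ / 4) ^ (-(9:ℝ)/2) := g0
      _ ≤ P * R9 := by gcongr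
  have h2 : e2 * (ρ / 4) ^ (-(9:ℝ)/2) ≤ 1 * R9 := by gcongr
  have g1' : ‖x1 e z‖ ≤ 4 * R9 := by
    have h1 : ‖x1 e z‖ ≤ ‖x1 e z + ((Real.sin al * Real.cos al / lam al 0 : ℝ) : ℂ)‖ + ‖((Real.sin al * Real.cos al / lam al 0 : ℝ) : ℂ)‖ := by
      have := norm_sub_le (x1 e z + ((Real.sin al * Real.cos al / lam al 0 : ℝ) : ℂ)) ((Real.sin al * Real.cos al / lam al 0 : ℝ) : ℂ)
      rwa [add_sub_cancel_right] at this
    linarith
  have g2' : ‖x2 e z‖ ≤ R9 := by linarith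
  have h3 : ‖x0 e z + (dV e : ℂ) * x1 e z + (dm e : ℂ) * x2 e z‖ ≤ ‖x0 e z‖ + |dV e| * ‖x1 e z‖ + |dm e| * ‖x2 e z‖ := by
    refine (norm_add₃_le).trans ?_
    rw [norm_mul, norm_mul, Complex.norm_real, Complex.norm_real, Real.norm_eq_abs, Real.norm_eq_abs]
  refine h3.trans ?_
  have h4 : |dV e| * ‖x1 e z‖ ≤ P * (4 * R9) := by
    have := hdV e
    gcongr
  have h5 : |dm e| * ‖x2 e z‖ ≤ P * R9 := by
    have := hdm e
    gcongr
  linarith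


theorem m07_tau : ∃ c1 C : ℝ, 0 < c1 ∧ 1 ≤ C ∧ ∀ al ∈ JJ, ∀ κ κ2 : ℝ, LB al κ κ2 → ∀ r ρ : ℝ, 3 < r → r ≤ 4 → 0 < ρ → ρ ≤ 1/2 →
    ∀ Z X u x0 x1 x2 : EE → ℂ → ℂ, FC c1 r Z X → US c1 r u → EPR r x0 → EPR r x1 → EPR r x2 →
    ∀ V0 dV dm b0 b1 b2 : EE → ℝ, Continuous V0 → Continuous dV → Continuous dm →
    EPR r (fun e z => x0 e z + (dV e : ℂ) * x1 e z + (dm e : ℂ) * x2 e z) →
    (∀ e, ∀ y ∈ Ioo (1:ℝ) r, fc (rh0 al (V0 e) (Z e) (X e) (u e) (x0 e)) y 0 = (b0 e : ℂ) ∧ fc (rh1 al (Z e) (X e) (u e) (x1 e)) y 0 = (b1 e : ℂ) ∧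
        fc (rh2 al (Z e) (X e) (u e) (x2 e)) y 0 = (b2 e : ℂ)) →
    (∀ e, b0 e + dV e * b1 e + dm e * b2 e = 0) → ∀ Mx E P : ℝ, 0 ≤ Mx → 0 ≤ E → 0 ≤ P → (∀ e, |dV e| ≤ P) →
    (∀ e, ∀ t ∈ band 1 r, ‖Vf al (Z e) (X e) t - (V0 e : ℂ)‖ ≤ E) →
    (∀ e, ∀ z ∈ strip (r - ρ/4), ‖x0 e z + (dV e : ℂ) * x1 e z + (dm e : ℂ) * x2 e z‖ ≤ Mx) →
    ∃ τ : EE → ℂ → ℂ, Fam (strip (r - ρ/2)) τ ∧ (∀ e, ∀ z ∈ strip (r - ρ/2), τ e (-z) = - τ e z) ∧
      (∀ e, ∀ z ∈ strip (r - ρ/2), τ e (z + (Real.pi : ℂ)) = τ e z) ∧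
      (∀ e, ∀ z ∈ strip (r - ρ/2), τ e ((starRingEnd ℂ) z) = (starRingEnd ℂ) (τ e z)) ∧
      (∀ e, ∀ t ∈ band 1 (r - ρ/2), Bt al (Z e) (X e) t * (τ e (t + (al:ℂ)) - τ e (t - (al:ℂ))) =
        (dV e : ℂ) - (Vf al (Z e) (X e) t - (V0 e : ℂ)) - DVN al (Z e) (X e) (u e) (fun z => x0 e z + (dV e : ℂ) * x1 e z + (dm e : ℂ) * x2 e z) t) ∧
      (∀ e, ∀ z ∈ strip (r - 3 * ρ / 4), ‖τ e z‖ ≤ (P + E + C * Mx) / κ2 * (16 / ρ ^ 2)) := by
  obtain ⟨cl, hcl, HL⟩ := m07_lin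
  obtain ⟨cr, Cr, hcr, hCr, HR⟩ := rh_props
  refine ⟨min cl cr, Cr, lt_min hcl hcr, hCr, ?_⟩
  intro al hal κ κ2 hLB r ρ hr3 hr4 hρ hρ1 Z X u x0 x1 x2 hFC hUS h0 h1 h2 V0 dV dm b0 b1 b2 cV0 cV cdm hxE hmean hb Mx E P hMx hE hP hdV hVf hxb
  have hl : min cl cr ≤ cl := min_le_left _ _
  have hr : min cl cr ≤ cr := min_le_right _ _
  have hFr := m07_FC hFC hr le_rfl
  have hUr := m07_US hUS hr le_rfl
  obtain ⟨g1, g2, g3, g4, g5, g6⟩ := HR al hal r hr3 (by linarith) Z X u _ hFr hUr hxE V0 cV0 (fun e => dV e + V0 e) (fun _ => -1)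
    (cV.add cV0) continuous_const
  have hy : r - ρ/2 ∈ Ioo (1:ℝ) r := ⟨by linarith, by linarith⟩
  -- continuity of the three functions
  have k0 : ∀ e, ContinuousOn (rh0 al (V0 e) (Z e) (X e) (u e) (x0 e)) (band 1 r) := by
    intro e
    have := ((HR al hal r hr3 (by linarith) Z X u _ hFr hUr h0 V0 cV0 V0 (fun _ => -1) cV0 continuous_const).1.diff e).continuousOn
    refine this.congr fun t _ => ?_
    simp only [rh0]
    push_cast
    ring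
  have k1 : ∀ e, ContinuousOn (rh1 al (Z e) (X e) (u e) (x1 e)) (band 1 r) := by
    intro e
    have := ((HR al hal r hr3 (by linarith) Z X u _ hFr hUr h1 V0 cV0 (fun _ => 1) (fun _ => 0) continuous_const continuous_const).1.diff e).continuousOn
    refine this.congr fun t _ => ?_
    simp only [rh1]
    push_cast
    ring
  have k2 : ∀ e, ContinuousOn (rh2 al (Z e) (X e) (u e) (x2 e)) (band 1 r) := by
    intro e
    have := ((HR al hal r hr3 (by linarith) Z X u _ hFr hUr h2 V0 cV0 (fun _ => 0) (fun _ => 0) continuous_const continuous_const).1.diff e).continuousOn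
    refine this.congr fun t _ => ?_
    simp only [rh2]
    push_cast
    ring
  obtain ⟨φ, f1, f2, f3, f4⟩ := fourierEven (a := 1) (b := r) zero_le_one (by linarith) g1 g3 g2 g4
  have hmean0 : ∀ e, φ e 0 = 0 := by
    intro e
    have h3 := f4 e 0 _ hy
    have h4 : fc (fun t => (((dV e + V0 e : ℝ) : ℂ) + ((-1 : ℝ) : ℂ) * Vf al (Z e) (X e) t -
        DVN al (Z e) (X e) (u e) (fun z => x0 e z + (dV e : ℂ) * x1 e z + (dm e : ℂ) * x2 e z) t) / Bt al (Z e) (X e) t) (r - ρ/2) 0 =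
        fc (fun t => rh0 al (V0 e) (Z e) (X e) (u e) (x0 e) t + ((dV e : ℂ) * rh1 al (Z e) (X e) (u e) (x1 e) t +
          (dm e : ℂ) * rh2 al (Z e) (X e) (u e) (x2 e) t)) (r - ρ/2) 0 := by
      refine A03_congr (a := 1) (b := r) (fun t ht => ?_) hy 0
      have := (HL al hal r hr3 (by linarith) Z X u x0 x1 x2 (m07_FC hFC hl le_rfl) (m07_US hUS hl le_rfl) h0 h1 h2 e t ht (dV e) (dm e)).2
      simp only [rh0, rh1, rh2]
      rw [this]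
      push_cast
      ring
    have c1 : ContinuousOn (fun t => (dV e : ℂ) * rh1 al (Z e) (X e) (u e) (x1 e) t) (band 1 r) := continuousOn_const.mul (k1 e)
    have c2 : ContinuousOn (fun t => (dm e : ℂ) * rh2 al (Z e) (X e) (u e) (x2 e) t) (band 1 r) := continuousOn_const.mul (k2 e)
    have c3 : ContinuousOn (fun t => (dV e : ℂ) * rh1 al (Z e) (X e) (u e) (x1 e) t +
        (dm e : ℂ) * rh2 al (Z e) (X e) (u e) (x2 e) t) (band 1 r) := c1.add c2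
    rw [fc_add (k0 e) c3 hy, fc_add c1 c2 hy, fc_const_mul, fc_const_mul,
      (hmean e _ hy).1, (hmean e _ hy).2.1, (hmean e _ hy).2.2] at h4
    have h5 : ((b0 e : ℝ) : ℂ) + ((dV e : ℂ) * (b1 e : ℂ) + (dm e : ℂ) * (b2 e : ℂ)) = 0 := by
      have := hb e
      have h6 : ((b0 e + dV e * b1 e + dm e * b2 e : ℝ) : ℂ) = 0 := by rw [this]; norm_num
      rw [← h6]
      push_cast
      ring
    rw [h5] at h4
    have h7 : (-(2 * ((0:ℕ):ℤ))) = 0 := by norm_num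
    rw [h7, h4] at h3
    exact_mod_cast h3.symm
  have hBd : ∀ e, ∀ t ∈ band 1 (r - ρ/4), ‖(((dV e + V0 e : ℝ) : ℂ) + ((-1 : ℝ) : ℂ) * Vf al (Z e) (X e) t -
        DVN al (Z e) (X e) (u e) (fun z => x0 e z + (dV e : ℂ) * x1 e z + (dm e : ℂ) * x2 e z) t) / Bt al (Z e) (X e) t‖ ≤ P + E + Cr * Mx := by
    intro e t ht
    have ht' : t ∈ band 1 r := band_subset le_rfl (by linarith) ht
    have h3 := g5 Mx (r - ρ/4) (by linarith) (by linarith) hxb e t ht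
    have h4 := (g6 e t ht').1
    have h5 := hVf e t ht'
    rw [norm_div]
    have hnum : ‖((dV e + V0 e : ℝ) : ℂ) + ((-1 : ℝ) : ℂ) * Vf al (Z e) (X e) t -
        DVN al (Z e) (X e) (u e) (fun z => x0 e z + (dV e : ℂ) * x1 e z + (dm e : ℂ) * x2 e z) t‖ ≤ P + E + Cr * Mx := by
      have h6 : ((dV e + V0 e : ℝ) : ℂ) + ((-1 : ℝ) : ℂ) * Vf al (Z e) (X e) t -
        DVN al (Z e) (X e) (u e) (fun z => x0 e z + (dV e : ℂ) * x1 e z + (dm e : ℂ) * x2 e z) t =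
          (dV e : ℂ) - (Vf al (Z e) (X e) t - (V0 e : ℂ)) - DVN al (Z e) (X e) (u e) (fun z => x0 e z + (dV e : ℂ) * x1 e z + (dm e : ℂ) * x2 e z) t := by
        push_cast
        ring
      rw [h6]
      refine (norm_sub_le _ _).trans (add_le_add ((norm_sub_le _ _).trans (add_le_add ?_ h5)) h3)
      rw [Complex.norm_real, Real.norm_eq_abs]
      exact hdV e
    rw [div_le_iff₀ (by linarith)]
    have h8 : 0 ≤ P + E + Cr * Mx := by positivity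
    nlinarith
  have hφ : ∀ e m, |φ e m| ≤ (P + E + Cr * Mx) * Real.exp (-(2 * m * (r - ρ/2))) := by
    intro e m
    refine f3 e m _ hy _ fun s => hBd e _ ⟨?_, ?_⟩
    · simp
      linarith
    · simp
      linarith
  obtain ⟨τ, t1, t2, t3, t4, t5, t6⟩ := m07_coh hLB (b := r - ρ/2) (by linarith) (by positivity) f1 hmean0 hφ
  refine ⟨τ, t1, t2, t3, t4, ?_, ?_⟩
  · intro e t ht
    have ht' : t ∈ band 1 r := band_subset le_rfl (by linarith) ht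
    have hts : t ∈ strip (r - ρ/2) := band_subset (by linarith) le_rfl ht
    rw [t5 e t hts, ← f2 e t ht']
    have h4 : Bt al (Z e) (X e) t ≠ 0 := by
      intro h
      have := (g6 e t ht').1
      rw [h, norm_zero] at this
      linarith
    rw [mul_div_cancel₀ _ h4]
    push_cast
    ring
  · intro e z hz
    have := t6 (ρ/4) (by linarith) (by linarith) (by linarith) e z (by
      refine band_subset ?_ ?_ hz <;> linarith)
    refine this.trans (le_of_eq ?_)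
    congr 1
    field_simp
    norm_num

/-- the tangential direction -/
theorem m07_tan {c r ρ T KZ : ℝ} {Z X τ : EE → ℂ → ℂ} (hFC : FC c r Z X) (hc : c ≤ 1) (hr : r ≤ 4) (hρ : 0 < ρ) (hρ1 : ρ ≤ 4)
    (hKZ : KZ = Real.exp 4 + 1) (hT : 0 ≤ T) (hτ : Fam (strip (r - ρ/2)) τ) (ho : ∀ e, ∀ z ∈ strip (r - ρ/2), τ e (-z) = - τ e z)
    (hp : ∀ e, ∀ z ∈ strip (r - ρ/2), τ e (z + (Real.pi : ℂ)) = τ e z)
    (hre : ∀ e, ∀ z ∈ strip (r - ρ/2), τ e ((starRingEnd ℂ) z) = (starRingEnd ℂ) (τ e z))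
    (hb : ∀ e, ∀ z ∈ strip (r - 3 * ρ / 4), ‖τ e z‖ ≤ T) :
    Fam (strip (r - ρ/2)) (fun e z => τ e z * deriv (Z e) z) ∧ Fam (strip (r - ρ/2)) (fun e z => τ e z * deriv (X e) z) ∧
    (∀ e, Sym (r - ρ/2) (fun z => τ e z * deriv (Z e) z) (fun z => τ e z * deriv (X e) z)) ∧
    (∀ e, RealC (r - ρ/2) (fun z => τ e z * deriv (Z e) z) (fun z => τ e z * deriv (X e) z)) ∧
    (∀ e, DirBd (4 * T * KZ / ρ) (-(r - ρ)) (r - ρ) (fun z => τ e z * deriv (Z e) z) (fun z => τ e z * deriv (X e) z)) := by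
  have hs : strip (r - ρ/2) ⊆ strip r := m07_strip (by linarith)
  have hs2 : strip (r - 3 * ρ / 4) ⊆ strip (r - ρ/2) := m07_strip (by linarith)
  have hs3 : strip (r - ρ) ⊆ strip (r - 3 * ρ / 4) := m07_strip (by linarith)
  have fZ : Fam (strip (r - ρ/2)) (fun e z => τ e z * deriv (Z e) z) := hτ.mul (hFC.fZ.deriv.mono hs)
  have fX : Fam (strip (r - ρ/2)) (fun e z => τ e z * deriv (X e) z) := hτ.mul (hFC.fX.deriv.mono hs)
  refine ⟨fZ, fX, ?_, ?_, ?_⟩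
  · intro e
    have hS := hFC.sy e
    refine ⟨?_, ?_, ?_, ?_⟩
    · intro z hz
      rw [ho e z hz, deriv_of_even hS.eZ (hs hz)]
      ring
    · intro z hz
      rw [ho e z hz, deriv_of_odd hS.oX (hs hz)]
      ring
    · intro z hz
      rw [hp e z hz, deriv_of_anti hS.aZ (hs hz)]
      ring
    · intro z hz
      rw [hp e z hz, deriv_of_anti hS.aX (hs hz)]
      ring
  · intro e
    have hR := hFC.re e
    refine ⟨?_, ?_⟩
    · intro z hz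
      rw [hre e z hz, deriv_of_conj hR.rZ (hs hz), map_mul]
    · intro z hz
      rw [hre e z hz, deriv_of_conj hR.rX (hs hz), map_mul]
  · intro e
    have hN := hFC.nb e
    have hKZ0 : 0 < KZ := by rw [hKZ]; positivity
    have bZ : ∀ z ∈ strip r, ‖deriv (Z e) z‖ ≤ KZ := by
      intro z hz
      have h1 := hN.z1 z hz
      have h2 := c01_sin_le z
      have h3 : Real.exp |z.im| ≤ Real.exp 4 := Real.exp_le_exp.2 (abs_le.2 ⟨by linarith [hz.1], by linarith [hz.2]⟩)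
      have h4 : ‖deriv (Z e) z‖ ≤ ‖deriv (Z e) z + sin z‖ + ‖sin z‖ := by
        have := norm_sub_le (deriv (Z e) z + sin z) (sin z)
        rwa [add_sub_cancel_right] at this
      rw [hKZ]
      linarith
    have bX : ∀ z ∈ strip r, ‖deriv (X e) z‖ ≤ KZ := by
      intro z hz
      have h1 := hN.x1 z hz
      have h2 := c01_cos_le z
      have h3 : Real.exp |z.im| ≤ Real.exp 4 := Real.exp_le_exp.2 (abs_le.2 ⟨by linarith [hz.1], by linarith [hz.2]⟩)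
      have h4 : ‖deriv (X e) z‖ ≤ ‖deriv (X e) z - cos z‖ + ‖cos z‖ := by
        have := norm_add_le (deriv (X e) z - cos z) (cos z)
        rwa [sub_add_cancel] at this
      rw [hKZ]
      linarith
    have vZ : ∀ z ∈ strip (r - 3 * ρ / 4), ‖τ e z * deriv (Z e) z‖ ≤ T * KZ := by
      intro z hz
      rw [norm_mul]
      exact mul_le_mul (hb e z hz) (bZ z (hs (hs2 hz))) (norm_nonneg _) hT
    have vX : ∀ z ∈ strip (r - 3 * ρ / 4), ‖τ e z * deriv (X e) z‖ ≤ T * KZ := by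
      intro z hz
      rw [norm_mul]
      exact mul_le_mul (hb e z hz) (bX z (hs (hs2 hz))) (norm_nonneg _) hT
    have hle : T * KZ ≤ 4 * T * KZ / ρ := by
      rw [le_div_iff₀ hρ]
      have : 0 ≤ T * KZ := by positivity
      nlinarith
    have hmem : ∀ z ∈ band (-(r - ρ)) (r - ρ), z ∈ band (-(r - 3 * ρ / 4) + ρ/4) ((r - 3 * ρ / 4) - ρ/4) := by
      intro z hz
      refine band_subset ?_ ?_ hz <;> linarith
    have hTK : T * KZ / (ρ / 4) = 4 * T * KZ / ρ := by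
      field_simp
    refine ⟨(fZ.diff e).mono (m07_strip (by linarith)), (fX.diff e).mono (m07_strip (by linarith)), ?_, ?_, ?_, ?_⟩
    · exact fun z hz => (vZ z (hs3 hz)).trans hle
    · exact fun z hz => (vX z (hs3 hz)).trans hle
    · intro z hz
      have := norm_deriv_le_band (ρ := ρ/4) (by linarith) ((fZ.diff e).mono hs2) vZ z (hmem z hz)
      rwa [hTK] at this
    · intro z hz
      have := norm_deriv_le_band (ρ := ρ/4) (by linarith) ((fX.diff e).mono hs2) vX z (hmem z hz)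
      rwa [hTK] at this

theorem m07_DirBd_add {d d' a b : ℝ} {A B A' B' : ℂ → ℂ} (h : DirBd d a b A B) (h' : DirBd d' a b A' B') :
    DirBd (d + d') a b (fun z => A z + A' z) (fun z => B z + B' z) := by
  have dat : ∀ {f : ℂ → ℂ}, DifferentiableOn ℂ f (band a b) → ∀ z ∈ band a b, DifferentiableAt ℂ f z :=
    fun hf z hz => hf.differentiableAt ((isOpen_band a b).mem_nhds hz)
  refine ⟨h.dA.add h'.dA, h.dB.add h'.dB, ?_, ?_, ?_, ?_⟩
  · exact fun z hz => (norm_add_le _ _).trans (add_le_add (h.a0 z hz) (h'.a0 z hz))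
  · exact fun z hz => (norm_add_le _ _).trans (add_le_add (h.b0 z hz) (h'.b0 z hz))
  · intro z hz
    rw [deriv_fun_add (dat h.dA z hz) (dat h'.dA z hz)]
    exact (norm_add_le _ _).trans (add_le_add (h.a1 z hz) (h'.a1 z hz))
  · intro z hz
    rw [deriv_fun_add (dat h.dB z hz) (dat h'.dB z hz)]
    exact (norm_add_le _ _).trans (add_le_add (h.b1 z hz) (h'.b1 z hz))

theorem m07_Sym_add {r : ℝ} {A B A' B' : ℂ → ℂ} (h : Sym r A B) (h' : Sym r A' B') :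
    Sym r (fun z => A z + A' z) (fun z => B z + B' z) := by
  refine ⟨?_, ?_, ?_, ?_⟩
  · intro z hz
    rw [h.eZ z hz, h'.eZ z hz]
  · intro z hz
    rw [h.oX z hz, h'.oX z hz]
    ring
  · intro z hz
    rw [h.aZ z hz, h'.aZ z hz]
    ring
  · intro z hz
    rw [h.aX z hz, h'.aX z hz]
    ring

theorem m07_Real_add {r : ℝ} {A B A' B' : ℂ → ℂ} (h : RealC r A B) (h' : RealC r A' B') :
    RealC r (fun z => A z + A' z) (fun z => B z + B' z) := by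
  refine ⟨?_, ?_⟩
  · intro z hz
    rw [h.rZ z hz, h'.rZ z hz, map_add]
  · intro z hz
    rw [h.rX z hz, h'.rX z hz, map_add]

/-- the estimate of the numbers -/
theorem m07_num {P0 K1 K2 KZ Cn Cr Ce E κ κ2 ρ R9 P Mx T : ℝ} (hP0 : 1 ≤ P0) (hK1 : K1 = 6144 * P0) (hK2 : K2 = P0 + 1 + Cr * K1) (hKZ : 1 ≤ KZ)
    (hCn : 1 ≤ Cn) (hCr : 1 ≤ Cr) (hCe : 1 ≤ Ce) (hE : 0 ≤ E) (hκ : 0 < κ) (hκ1 : κ ≤ 1) (hκ2 : 0 < κ2) (hκ21 : κ2 ≤ 1) (hρ : 0 < ρ) (hρ1 : ρ ≤ 1)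
    (hR9 : R9 = 1024 / ρ ^ 5) (hP : P = P0 * (E / κ)) (hMx : Mx = 6 * P * R9) (hT : T = (P + E + Cr * Mx) / κ2 * (16 / ρ ^ 2)) :
    P ≤ (4 * Cn * K1 + 64 * K2 * KZ + 16 * Ce * K2) * E / (κ * κ2 * ρ) ^ 8 ∧
    Cn * Mx / (ρ / 4) + 4 * T * KZ / ρ ≤ (4 * Cn * K1 + 64 * K2 * KZ + 16 * Ce * K2) * E / (κ * κ2 * ρ) ^ 8 ∧
    Ce * E / ρ * T ≤ (4 * Cn * K1 + 64 * K2 * KZ + 16 * Ce * K2) * E ^ 2 / (κ * κ2 * ρ) ^ 8 := by
  have hK10 : 0 ≤ K1 := by linarith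
  have hK20 : 0 ≤ K2 := by
    have : 0 ≤ Cr * K1 := by positivity
    linarith
  have q1 : 0 ≤ 4 * Cn * K1 := by positivity
  have q2 : 0 ≤ 64 * K2 * KZ := by positivity
  have q3 : 0 ≤ 16 * Ce * K2 := by positivity
  have hEκ : 0 ≤ E / κ := by positivity
  have hEκ' : E ≤ E / κ := by
    rw [le_div_iff₀ hκ]
    exact mul_le_of_le_one_right hE hκ1
  obtain ⟨Q, hQ⟩ : ∃ Q : ℝ, Q = E / (κ * ρ ^ 5) := ⟨_, rfl⟩
  obtain ⟨Q8, hQ8⟩ : ∃ Q8 : ℝ, Q8 = E / (κ * κ2 * ρ) ^ 8 := ⟨_, rfl⟩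
  have hQ80 : 0 ≤ Q8 := by rw [hQ8]; positivity
  have hEQ : E / κ ≤ Q := by
    rw [hQ]
    have h1 : ρ ^ 5 ≤ 1 := pow_le_one₀ hρ.le hρ1
    have h2 : κ * ρ ^ 5 ≤ κ := mul_le_of_le_one_right hκ.le h1
    gcongr
  have eMx : Mx = K1 * Q := by
    rw [hMx, hP, hR9, hK1, hQ]
    field_simp
    ring
  have eB : P + E + Cr * Mx ≤ K2 * Q := by
    have h1 : P ≤ P0 * Q := by
      rw [hP]
      gcongr
    have h2 : E ≤ Q := hEκ'.trans hEQ
    rw [eMx, hK2]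
    calc P + E + Cr * (K1 * Q) ≤ P0 * Q + Q + Cr * (K1 * Q) := by linarith
      _ = (P0 + 1 + Cr * K1) * Q := by ring
  have eT : T ≤ 16 * K2 * (E / (κ * κ2 * ρ ^ 7)) := by
    calc T ≤ K2 * Q / κ2 * (16 / ρ ^ 2) := by
          rw [hT]
          gcongr
      _ = 16 * K2 * (E / (κ * κ2 * ρ ^ 7)) := by
          rw [hQ]
          field_simp
  have p1 : E / κ ≤ Q8 := by
    have := m07_pow hκ hκ1 hκ2 hκ21 hρ hρ1 (i := 1) (j := 0) (k := 0) (by norm_num) (by norm_num) (by norm_num) hE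
    rw [hQ8]
    simpa using this
  have p2 : E / (κ * ρ ^ 6) ≤ Q8 := by
    have := m07_pow hκ hκ1 hκ2 hκ21 hρ hρ1 (i := 1) (j := 0) (k := 6) (by norm_num) (by norm_num) (by norm_num) hE
    rw [hQ8]
    simpa using this
  have p3 : E / (κ * κ2 * ρ ^ 8) ≤ Q8 := by
    have := m07_pow hκ hκ1 hκ2 hκ21 hρ hρ1 (i := 1) (j := 1) (k := 8) (by norm_num) (by norm_num) (by norm_num) hE
    rw [hQ8]
    simpa using this
  have e1 : (4 * Cn * K1 + 64 * K2 * KZ + 16 * Ce * K2) * E / (κ * κ2 * ρ) ^ 8 = (4 * Cn * K1 + 64 * K2 * KZ + 16 * Ce * K2) * Q8 := by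
    rw [hQ8]
    ring
  have e2 : (4 * Cn * K1 + 64 * K2 * KZ + 16 * Ce * K2) * E ^ 2 / (κ * κ2 * ρ) ^ 8 = (4 * Cn * K1 + 64 * K2 * KZ + 16 * Ce * K2) * (E * Q8) := by
    rw [hQ8]
    ring
  rw [e1, e2]
  refine ⟨?_, ?_, ?_⟩
  · have h1 : P ≤ P0 * Q8 := by
      rw [hP]
      gcongr
    have h2 : P0 ≤ 4 * Cn * K1 := by
      have : 1 ≤ Cn * K1 := one_le_mul_of_one_le_of_one_le hCn (by linarith)
      have h3 : K1 ≤ Cn * K1 := le_mul_of_one_le_left hK10 hCn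
      linarith
    refine h1.trans ?_
    gcongr
    linarith
  · have h1 : Cn * Mx / (ρ / 4) ≤ 4 * Cn * K1 * Q8 := by
      calc Cn * Mx / (ρ / 4) = 4 * Cn * K1 * (E / (κ * ρ ^ 6)) := by
            rw [eMx, hQ]
            field_simp
        _ ≤ 4 * Cn * K1 * Q8 := by gcongr
    have h2 : 4 * T * KZ / ρ ≤ 64 * K2 * KZ * Q8 := by
      calc 4 * T * KZ / ρ ≤ 4 * (16 * K2 * (E / (κ * κ2 * ρ ^ 7))) * KZ / ρ := by gcongr
        _ = 64 * K2 * KZ * (E / (κ * κ2 * ρ ^ 8)) := by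
            field_simp
            ring
        _ ≤ 64 * K2 * KZ * Q8 := by gcongr
    have h3 : 0 ≤ 16 * Ce * K2 * Q8 := by positivity
    calc _ ≤ 4 * Cn * K1 * Q8 + 64 * K2 * KZ * Q8 := add_le_add h1 h2
      _ ≤ (4 * Cn * K1 + 64 * K2 * KZ + 16 * Ce * K2) * Q8 := by
        rw [add_mul, add_mul]
        linarith
  · have h1 : Ce * E / ρ * T ≤ 16 * Ce * K2 * (E * Q8) := by
      calc Ce * E / ρ * T ≤ Ce * E / ρ * (16 * K2 * (E / (κ * κ2 * ρ ^ 7))) := by gcongr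
        _ = 16 * Ce * K2 * (E * (E / (κ * κ2 * ρ ^ 8))) := by
            field_simp
        _ ≤ 16 * Ce * K2 * (E * Q8) := by gcongr
    refine h1.trans ?_
    gcongr
    linarith

/-- M04, M05, M06 (with `e1 = C/κ`, `e2 = C/κ (cA + cR) ≤ 2 C c1` small): `x = x0 + dV x1 + dm x2`, bounded on `strip (r - ρ/4)` by
`C (E/κ) ρ^{-9/2}` times a constant. `Top x = - SS - dV et - dm Yf` on `band 2 r` by `s0 + dV s1 + dm s2 = 0` (linearity of `Top`).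
Normal direction `(A_N, B_N)` of `x`, on `strip (r - ρ/2)` with `DirBd` (`normal_dir`), `DS0 = Top x` (`DS0_normal`).
`g = (dV - (Vf - V0) - DVN x)/Bt = rh0 + dV rh1 + dm rh2` on `band 1 r`: even, periodic, real (`rh_props`), of mean `0`
(`b0 + dV b1 + dm b2 = 0`), bounded on `band 1 (r - ρ/2)` by `B`. `fourierEven` there: coefficients `φ` with `φ 0 = 0`
(last clause, `k = 0`), `|φ m| ≤ B e^{-2m(r-ρ/2)}`. `coh_odd` with `s m = κ2/m` on `strip (r - 3ρ/4)`: `τ` odd, `τ(t+al) - τ(t-al) = g` on the band,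
`‖τ‖ ≤ (B/κ2) ∑ (m+1) e^{-2(m+1)ρ/4} ≤ C B/(κ2 ρ^2)`. Direction `A = A_N + τ Z'`, `B = B_N + τ X'` on `strip (r - ρ)` (Cauchy for the derivatives).
`DV_tangential`: `DS0` of the tangential part is `0`; its `DV` is
`sin^2 [(a0+a1) chip τ_+ - (a0-a1) chim τ_-] = Bt (τ_+ - τ_-) + (sin^2/2) [(a0+a1) chip - (a0-a1) chim] (τ_+ + τ_-)`, the last bracket being
`≤ C E/ρ` by `e_bound`. Sum up (`DV_add`). -/
theorem direction : ∃ c1 C : ℝ, ∃ b : ℕ, 0 < c1 ∧ 1 ≤ C ∧ ∀ al ∈ JJ, ∀ κ κ2 : ℝ, LB al κ κ2 → ∀ r cA cR E ρ : ℝ, 3 < r → r ≤ 4 →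
    0 < ρ → ρ ≤ 1/2 → 3 ≤ r - ρ → 0 ≤ cA → cA ≤ c1 * κ → 0 ≤ cR → cR ≤ c1 * κ → 0 ≤ E → E ≤ 1 →
    ∀ (Z X u : EE → ℂ → ℂ) (Rm : EE → ℕ → ℕ → ℝ) (RM : ℕ → ℕ → ℝ) (V0 mu : EE → ℝ), St al r cA cR E Z X u Rm RM V0 mu →
    ∃ (A B : EE → ℂ → ℂ) (dV dm : EE → ℝ),
      DirSol al (r - ρ) (C * E / (κ * κ2 * ρ) ^ b) (C * E ^ 2 / (κ * κ2 * ρ) ^ b) Z X A B V0 mu dV dm := by
  obtain ⟨ct, Ct, hct, hCt, HT⟩ := three
  obtain ⟨cm, Cm, hcm, hCm, HM⟩ := means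
  obtain ⟨η, C6, hη, hC6, H6⟩ := two_by_two
  obtain ⟨cl, hcl, HL⟩ := m07_lin
  obtain ⟨cr, Cr, hcr, hCr, HR⟩ := m07_tau
  obtain ⟨cn, Cn, hcn, hCn, HN⟩ := normal_dir 5 (by norm_num)
  obtain ⟨cd, hcd, HD⟩ := DS0_normal 5 (by norm_num)
  obtain ⟨ca, hca, HA⟩ := DV_add 5 (by norm_num)
  obtain ⟨ce, Ce, hce, hCe, HE⟩ := e_bound 5 (by norm_num)
  have hy0 : 0 < min η 1 / (3 * Cm * Ct) := by
    have : 0 < min η 1 := lt_min hη one_pos
    positivity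
  obtain ⟨c1, hc1, hall, hc12, hcy⟩ := m07_consts (a := ![ct, cm, cl, cr, cn, cd, ca, ce])
    (by intro i; fin_cases i <;> assumption) hy0
  have l0 : c1 ≤ ct := hall 0
  have l1 : c1 ≤ cm := hall 1
  have l2 : c1 ≤ cl := hall 2
  have l3 : c1 ≤ cr := hall 3
  have l4 : c1 ≤ cn := hall 4
  have l5 : c1 ≤ cd := hall 5
  have l6 : c1 ≤ ca := hall 6
  have l7 : c1 ≤ ce := hall 7
  clear hall
  have hsm : 3 * Cm * Ct * c1 ≤ min η 1 := by
    have := (le_div_iff₀ (by positivity : 0 < 3 * Cm * Ct)).1 hcy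
    linarith
  have hm1 : min η 1 ≤ η := min_le_left _ _
  have hm2 : min η 1 ≤ 1 := min_le_right _ _
  -- constants
  obtain ⟨P0, hP0⟩ : ∃ P0 : ℝ, P0 = C6 * Cm * Ct := ⟨_, rfl⟩
  have hP01 : 1 ≤ P0 := by
    rw [hP0]
    exact one_le_mul_of_one_le_of_one_le (one_le_mul_of_one_le_of_one_le hC6 hCm) hCt
  have hCtP : Ct ≤ P0 := by
    rw [hP0]
    exact le_mul_of_one_le_left (by linarith) (one_le_mul_of_one_le_of_one_le hC6 hCm)
  obtain ⟨K1, hK1⟩ : ∃ K1 : ℝ, K1 = 6144 * P0 := ⟨_, rfl⟩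
  obtain ⟨K2, hK2⟩ : ∃ K2 : ℝ, K2 = P0 + 1 + Cr * K1 := ⟨_, rfl⟩
  obtain ⟨KZ, hKZ⟩ : ∃ KZ : ℝ, KZ = Real.exp 4 + 1 := ⟨_, rfl⟩
  have hK10 : 1 ≤ K1 := by linarith
  have hK20 : 1 ≤ K2 := by
    have : 0 ≤ Cr * K1 := by positivity
    linarith
  have hKZ0 : 1 ≤ KZ := by
    have := Real.exp_pos 4
    linarith
  refine ⟨c1, 4 * Cn * K1 + 64 * K2 * KZ + 16 * Ce * K2, 8, hc1, ?_, ?_⟩
  · have h1 : 1 ≤ Cn * K1 := one_le_mul_of_one_le_of_one_le hCn hK10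
    have h2 : 0 ≤ 64 * K2 * KZ := by positivity
    have h3 : 0 ≤ 16 * Ce * K2 := by positivity
    linarith
  intro al hal κ κ2 hLB r cA cR E ρ hr3 hr4 hρ hρ1 hrρ hcA hcA1 hcR hcR1 hE hE1 Z X u Rm RM V0 mu hSt
  have hκ := hLB.k0
  have hκ1 := hLB.k1
  have hκ2 := hLB.l0
  have hκ21 := hLB.l1
  obtain ⟨hcAc, hcRc, he11, he20, he2m, hsum⟩ := m07_small hCm hCt hc1 hsm hκ hκ1 hcA hcA1 hcR hcR1
  have hcRk : cR ≤ κ / 2 := by
    have : c1 * κ ≤ 1/2 * κ := by gcongr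
    linarith
  have hcA12 : cA ≤ 1/2 := hcAc.trans hc12
  -- three basic solutions
  obtain ⟨x0, x1, x2, s0, s1, s2, hB⟩ := HT al hal κ κ2 hLB r cA cR E hr3 hr4 hcA (hcAc.trans l0) hcR hcRk hE Z X u Rm RM V0 mu hSt
  have hAp := hSt.ap
  have hUS := hSt.us
  have hFC := hAp.fc
  obtain ⟨e1, he1⟩ : ∃ e1 : ℝ, e1 = Ct / κ := ⟨_, rfl⟩
  obtain ⟨e2, he2⟩ : ∃ e2 : ℝ, e2 = Ct / κ * (cA + cR) := ⟨_, rfl⟩
  rw [← he2] at hsum he2m he20
  rw [← he1] at he11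
  rw [← he2, ← he1] at hB
  obtain ⟨b0, b1, b2, cb0, cb1, cb2, hmean, hbb⟩ := HM al hal r cA e1 e2 E hr3 hr4 hcA (hcAc.trans l1) he11 he20 (he2m.trans hm2) hE
    Z X u V0 mu x0 x1 x2 s0 s1 s2 hAp hUS hB
  have he1E : 0 ≤ e1 * E := by positivity
  have he1E' : e1 * E ≤ Cm * e1 * E := by
    rw [mul_assoc]
    exact le_mul_of_one_le_left he1E hCm
  obtain ⟨dV, dm, cV, cdm, hdb, heq1, heq2⟩ := H6 al hal s0 s1 s2 b0 b1 b2 (Cm * e1 * E) hB.c0 hB.c1 hB.c2 cb0 cb1 cb2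
    (fun e => ⟨(hB.d0 e).trans he1E', (hbb e).1⟩)
    (fun e => ⟨(hB.d1 e).trans (he2m.trans hm1), (hB.d2 e).trans (he2m.trans hm1), (hbb e).2.1.trans (hsum.trans hm1), (hbb e).2.2.trans (hsum.trans hm1)⟩)
  obtain ⟨P, hP⟩ : ∃ P : ℝ, P = P0 * (E / κ) := ⟨_, rfl⟩
  have hP' : C6 * (Cm * e1 * E) = P := by
    rw [hP, hP0, he1]
    ring
  rw [hP'] at hdb
  have hP00 : 0 ≤ P := by rw [hP]; positivity
  have hPe : e1 * E ≤ P := by
    rw [hP, he1]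
    calc Ct / κ * E = Ct * (E / κ) := by ring
      _ ≤ P0 * (E / κ) := by gcongr
  obtain ⟨R9, hR9⟩ : ∃ R9 : ℝ, R9 = 1024 / ρ ^ 5 := ⟨_, rfl⟩
  obtain ⟨hxE, hR91, hxb⟩ := m07_x hal hB cV cdm hP00 (fun e => (hdb e).1) (fun e => (hdb e).2) hPe (he2m.trans hm2) hρ hρ1 hR9
  obtain ⟨Mx, hMx⟩ : ∃ Mx : ℝ, Mx = 6 * P * R9 := ⟨_, rfl⟩
  rw [← hMx] at hxb
  have hMx0 : 0 ≤ Mx := by rw [hMx]; positivity
  obtain ⟨τ, t1, t2, t3, t4, t5, t6⟩ := HR al hal κ κ2 hLB r ρ hr3 hr4 hρ hρ1 Z X u x0 x1 x2 (m07_FC hFC (hcAc.trans l3) le_rfl)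
    (m07_US hUS (hcAc.trans l3) le_rfl) hB.h0 hB.h1 hB.h2 V0 dV dm b0 b1 b2 hAp.vc cV cdm hxE hmean
    heq2 Mx E P hMx0 hE hP00 (fun e => (hdb e).1) hAp.eV hxb
  obtain ⟨T, hT⟩ : ∃ T : ℝ, T = (P + E + Cr * Mx) / κ2 * (16 / ρ ^ 2) := ⟨_, rfl⟩
  rw [← hT] at t6
  have hT0 : 0 ≤ T := by rw [hT]; positivity
  obtain ⟨N1, N2, N3⟩ := m07_num hP01 hK1 hK2 hKZ0 hCn hCr hCe hE hκ hκ1 hκ2 hκ21 hρ (by linarith) hR9 hP hMx hT
  obtain ⟨fZ, fX, sS, rR, dD⟩ := m07_tan hFC (hcA12.trans (by norm_num)) hr4 hρ (by linarith) hKZ hT0 t1 t2 t3 t4 t6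
  -- the normal direction
  obtain ⟨x, hx⟩ : ∃ x : EE → ℂ → ℂ, x = fun e z => x0 e z + (dV e : ℂ) * x1 e z + (dm e : ℂ) * x2 e z := ⟨_, rfl⟩
  have hxE' : EPR r x := by rw [hx]; exact hxE
  have hxb' : ∀ e, ∀ z ∈ strip (r - ρ/4), ‖x e z‖ ≤ Mx := by rw [hx]; exact hxb
  have sub1 : strip (r - ρ/4) ⊆ strip r := m07_strip (by linarith)
  have sub2 : strip (r - ρ) ⊆ strip (r - ρ/2) := m07_strip (by linarith)
  have sub3 : strip (r - ρ) ⊆ strip (r - ρ/4) := m07_strip (by linarith)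
  obtain ⟨n1, n2, n3, n4, n5⟩ := HN al hal (r - ρ/4) (by linarith) (by linarith) Z X u x (m07_FC hFC (hcAc.trans l4) (by linarith))
    (hUS.fu.mono sub1)
    (fun e z hz => ⟨(hUS.u0 e z (sub1 hz)).trans (by linarith), hUS.ue e z (sub1 hz), hUS.up e z (sub1 hz)⟩)
    (hxE'.f.mono sub1) (fun e z hz => ⟨hxE'.e e z (sub1 hz), hxE'.p e z (sub1 hz)⟩)
  have n4' := n4 (fun e z hz => hUS.ur e z (sub1 hz)) (fun e z hz => hxE'.r e z (sub1 hz))
  have n5' := n5 (r - ρ/2) Mx (by linarith) (by linarith) (by linarith) hxb'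
  rw [show r - ρ/4 - (r - ρ/2) = ρ/4 by ring] at n5'
  have hbs : band 1 (r - ρ) ⊆ strip (r - ρ) := m07_bs (by linarith) le_rfl
  have L : ∀ e, ∀ t ∈ band 1 (r - ρ),
      DV al (Z e) (X e) (fun z => gN (Z e) (X e) (u e) (x e) z * deriv (X e) z + τ e z * deriv (Z e) z)
        (fun z => -(gN (Z e) (X e) (u e) (x e) z * deriv (Z e) z) + τ e z * deriv (X e) z) t =
        DVN al (Z e) (X e) (u e) (x e) t + DV al (Z e) (X e) (fun z => τ e z * deriv (Z e) z) (fun z => τ e z * deriv (X e) z) t ∧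
      DS0 al (Z e) (X e) (fun z => gN (Z e) (X e) (u e) (x e) z * deriv (X e) z + τ e z * deriv (Z e) z)
        (fun z => -(gN (Z e) (X e) (u e) (x e) z * deriv (Z e) z) + τ e z * deriv (X e) z) t =
        Top al (Z e) (X e) (u e) (x e) t := by
    intro e t ht
    have hN6 : NB ca 1 (r - ρ) (Z e) (X e) := (hFC.nb e).mono (hcAc.trans l6) (by linarith) (by linarith)
    have hN5 : NB cd 1 (r - ρ) (Z e) (X e) := (hFC.nb e).mono (hcAc.trans l5) (by linarith) (by linarith)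
    have h := HA al hal 1 (r - ρ) le_rfl (by linarith) (Z e) (X e) hN6 _ _ _ _
      ((n1.diff e).continuousOn.mono (hbs.trans sub3)) ((n2.diff e).continuousOn.mono (hbs.trans sub3))
      ((fZ.diff e).continuousOn.mono (hbs.trans sub2)) ((fX.diff e).continuousOn.mono (hbs.trans sub2)) t ht 1 1
    simp only [one_mul] at h
    refine ⟨h.1, ?_⟩
    rw [h.2.1, (DV_tangential hal (Z e) (X e) (τ e) t).1, add_zero, HD al hal 1 (r - ρ) le_rfl (by linarith) (Z e) (X e) (u e) hN5 (x e) t ht]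
  have hb2 : band 2 (r - ρ) ⊆ band 1 (r - ρ) := band_subset (by norm_num) le_rfl
  refine ⟨fun e z => gN (Z e) (X e) (u e) (x e) z * deriv (X e) z + τ e z * deriv (Z e) z,
    fun e z => -(gN (Z e) (X e) (u e) (x e) z * deriv (Z e) z) + τ e z * deriv (X e) z, dV, dm, ?_⟩
  refine ⟨(n1.mono sub3).add (fZ.mono sub2), (n2.mono sub3).add (fX.mono sub2), fun e => m07_Sym_add ((n3 e).mono (by linarith)) ((sS e).mono (by linarith)),
    fun e => m07_Real_add ((n4' e).mono (by linarith)) ((rR e).mono (by linarith)), ?_, cV, cdm, fun e => (hdb e).1.trans N1, fun e => (hdb e).2.trans N1, ?_, ?_⟩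
  · intro e
    exact (m07_DirBd_add ((n5' e).mono le_rfl (by linarith) (by linarith)) (dD e)).mono N2 le_rfl le_rfl
  · intro e t ht
    have ht1 := hb2 ht
    have htr : t ∈ band 1 r := band_subset le_rfl (by linarith) ht1
    have ht2 : t ∈ band 2 r := band_subset le_rfl (by linarith) ht
    rw [(L e t ht1).2, hx, (HL al hal r hr3 (by linarith) Z X u x0 x1 x2 (m07_FC hFC (hcAc.trans l2) le_rfl) (m07_US hUS (hcAc.trans l2) le_rfl)
      hB.h0 hB.h1 hB.h2 e t htr (dV e) (dm e)).1, hB.t0 e t ht2, hB.t1 e t ht2, hB.t2 e t ht2]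
    have h1 : ((s0 e : ℝ) : ℂ) + (dV e : ℂ) * (s1 e : ℂ) + (dm e : ℂ) * (s2 e : ℂ) = 0 := by
      have := heq1 e
      have h6 : ((s0 e + dV e * s1 e + dm e * s2 e : ℝ) : ℂ) = 0 := by rw [this]; norm_num
      rw [← h6]
      push_cast
      ring
    linear_combination (m1 al (Z e) (X e) (u e) t * PL 2 t) * h1
  · intro e t ht
    have ht1 := hb2 ht
    have htr : t ∈ band 1 r := band_subset le_rfl (by linarith) ht1
    have ht3 : t ∈ band 1 (r - ρ/2) := band_subset le_rfl (by linarith) ht1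
    have hN7 : NB ce 1 r (Z e) (X e) := (hFC.nb e).mono (hcAc.trans l7) (by linarith) le_rfl
    have hE3 := (HE al hal 1 r le_rfl (by linarith) (Z e) (X e) hN7 (V0 e) (mu e) E ρ hρ (by linarith)
      (fun t ht => ⟨hAp.eS e t ht, hAp.eV e t ht⟩) t (band_subset (by linarith) le_rfl ht)).2.2
    have h5 := t5 e t ht3
    have hxe : (fun z => x0 e z + (dV e : ℂ) * x1 e z + (dm e : ℂ) * x2 e z) = x e := by rw [hx]
    rw [hxe] at h5
    rw [(L e t ht1).1, (DV_tangential hal (Z e) (X e) (τ e) t).2]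
    have key : DVN al (Z e) (X e) (u e) (x e) t + (Real.sin al : ℂ) ^ 2 * ((aj al 0 (Z e) (X e) t + aj al 1 (Z e) (X e) t) * chip al (Z e) (X e) t * τ e (t + al) -
        (aj al 0 (Z e) (X e) t - aj al 1 (Z e) (X e) t) * chim al (Z e) (X e) t * τ e (t - al)) - ((dV e : ℂ) - (Vf al (Z e) (X e) t - (V0 e : ℂ))) =
        (Real.sin al : ℂ) ^ 2 / 2 * ((aj al 0 (Z e) (X e) t + aj al 1 (Z e) (X e) t) * chip al (Z e) (X e) t -
          (aj al 0 (Z e) (X e) t - aj al 1 (Z e) (X e) t) * chim al (Z e) (X e) t) * (τ e (t + al) + τ e (t - al)) := by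
      simp only [Bt] at h5
      linear_combination h5
    rw [key]
    have hst : ∀ w ∈ band 2 (r - ρ), ‖τ e w‖ ≤ T := fun w hw => t6 e w (by
      refine band_subset ?_ ?_ hw <;> linarith)
    have hp1 := hst _ (add_real_mem_band ht al)
    have hp2 := hst _ (sub_real_mem_band ht al)
    have hsin : ‖(Real.sin al : ℂ) ^ 2 / 2‖ ≤ 1/2 := by
      rw [norm_div, norm_pow, Complex.norm_real, Real.norm_eq_abs]
      have h1 := Real.abs_sin_le_one al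
      have h2 : |Real.sin al| ^ 2 ≤ 1 := pow_le_one₀ (abs_nonneg _) h1
      have h3 : ‖(2:ℂ)‖ = 2 := by norm_num
      rw [h3]
      linarith
    have hsumτ : ‖τ e (t + al) + τ e (t - al)‖ ≤ 2 * T := by
      refine (norm_add_le _ _).trans ?_
      linarith
    have hCE : 0 ≤ Ce * E / ρ := by positivity
    refine le_trans ?_ N3
    rw [norm_mul, norm_mul]
    calc _ ≤ 1/2 * (Ce * E / ρ) * (2 * T) := by gcongr
      _ = Ce * E / ρ * T := by ring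

end FB
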