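import Pool.Agent.H48.FB.NDefs
import Pool.Agent.H48.FB.F02
import Pool.Agent.H48.FB.G01

/-! M08: the new errors. -/

open Complex Set MeasureTheory Filter Topology

noncomputable section

namespace FB

theorem M08_deriv {U : Set ℂ} (hU : IsOpen U) {f g : ℂ → ℂ} (hf : DifferentiableOn ℂ f U)
    (hg : DifferentiableOn ℂ g U) {z : ℂ} (hz : z ∈ U) :
    deriv (fun w => f w + g w) z = deriv f z + deriv g z :=
  (((hf z hz).differentiableAt (hU.mem_nhds hz)).hasDerivAt.add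
    ((hg z hz).differentiableAt (hU.mem_nhds hz)).hasDerivAt).deriv

theorem M08_NB {c d a b : ℝ} {Z X A B : ℂ → ℂ} (hN : NB c a b Z X) (hD : DirBd d a b A B) :
    NB (c + d) a b (fun z => Z z + A z) (fun z => X z + B z) := by
  have ho : IsOpen (band a b) := isOpen_band a b
  have key : ∀ u v w : ℂ, ‖u - v‖ ≤ c → ‖w‖ ≤ d → ‖u + w - v‖ ≤ c + d := by
    intro u v w h1 h2
    calc ‖u + w - v‖ = ‖(u - v) + w‖ := by congr 1; ring
      _ ≤ ‖u - v‖ + ‖w‖ := norm_add_le _ _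
      _ ≤ c + d := add_le_add h1 h2
  refine ⟨hN.dZ.add hD.dA, hN.dX.add hD.dB, fun z hz => ?_, fun z hz => ?_,
    fun z hz => ?_, fun z hz => ?_⟩
  · exact key _ _ _ (hN.z0 z hz) (hD.a0 z hz)
  · exact key _ _ _ (hN.x0 z hz) (hD.b0 z hz)
  · rw [M08_deriv ho hN.dZ hD.dA hz]
    have := key (deriv Z z) (- sin z) (deriv A z) (by rw [sub_neg_eq_add]; exact hN.z1 z hz) (hD.a1 z hz)
    rwa [sub_neg_eq_add] at this
  · rw [M08_deriv ho hN.dX hD.dB hz]
    exact key _ _ _ (hN.x1 z hz) (hD.b1 z hz)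

theorem M08_Sym {r : ℝ} {Z X A B : ℂ → ℂ} (hS : Sym r Z X) (hS' : Sym r A B) :
    Sym r (fun z => Z z + A z) (fun z => X z + B z) := by
  refine ⟨fun z hz => ?_, fun z hz => ?_, fun z hz => ?_, fun z hz => ?_⟩
  · simp only [hS.eZ z hz, hS'.eZ z hz]
  · simp only [hS.oX z hz, hS'.oX z hz]; ring
  · simp only [hS.aZ z hz, hS'.aZ z hz]; ring
  · simp only [hS.aX z hz, hS'.aX z hz]; ring

/-- On `band 2 (r - ρ) ⊆ band (1 + ρ) (r - ρ)`: `SS_lin` with `d = D` and `e_bound`: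
`‖SS'‖ ≤ C D^2 + C D (E/ρ)`; `Vf' - (V0 + dV) = (Vf - V0) + DV + O(D^2) - dV = O(E2 + D^2)` (`quad`). Both are `EvenExt 1 (r - ρ)` (`SS_even`), so the
bounds hold on `band 1 (r - ρ)` (`EvenExt.bound`). -/
theorem newErr : ∃ c1 C : ℝ, 0 < c1 ∧ 1 ≤ C ∧ ∀ al ∈ JJ, ∀ r cA E ρ D E2 : ℝ, 3 < r → r ≤ 5 → 0 < ρ → ρ ≤ 1/2 → 3 ≤ r - ρ → 0 ≤ cA → cA ≤ c1 →
    0 ≤ E → E ≤ 1 → 0 ≤ D → D ≤ c1 → 0 ≤ E2 → ∀ (Z X A B : EE → ℂ → ℂ) (V0 mu dV dm : EE → ℝ), Ap al r cA E Z X V0 mu →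
    DirSol al (r - ρ) D E2 Z X A B V0 mu dV dm →
      Ap al (r - ρ) (cA + D) (C * (D ^ 2 + D * E / ρ + E2)) (fun e z => Z e z + A e z) (fun e z => X e z + B e z)
        (fun e => V0 e + dV e) (fun e => mu e + dm e) := by
  obtain ⟨q0, Cq, hq0, hCq, Hq⟩ := quad 5 (by norm_num)
  obtain ⟨s0, Cs, hs0, hCs, Hs⟩ := SS_lin 5 (by norm_num)
  obtain ⟨p0, Ce, hp0, hCe, He⟩ := e_bound 5 (by norm_num)
  obtain ⟨v0, hv0, Hv⟩ := SS_even 5 (by norm_num)
  set m : ℝ := min (min q0 s0) (min (min p0 v0) 1) with hm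
  have hm0 : 0 < m := lt_min (lt_min hq0 hs0) (lt_min (lt_min hp0 hv0) one_pos)
  have mq : m ≤ q0 := (min_le_left _ _).trans (min_le_left _ _)
  have ms : m ≤ s0 := (min_le_left _ _).trans (min_le_right _ _)
  have mp : m ≤ p0 := (min_le_right _ _).trans ((min_le_left _ _).trans (min_le_left _ _))
  have mv : m ≤ v0 := (min_le_right _ _).trans ((min_le_left _ _).trans (min_le_right _ _))
  have m1 : m ≤ 1 := (min_le_right _ _).trans (min_le_right _ _)
  refine ⟨m / 2, Cs * (2 * Ce + 1) + Cq, by positivity, by nlinarith, ?_⟩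
  intro al hal r cA E ρ D E2 hr hr5 hρ hρ2 hrρ hcA hcA1 hE hE1 hD hD1 hE2 Z X A B V0 mu dV dm hAp hDS
  have hs : strip (r - ρ) ⊆ strip r := band_subset (by linarith) (by linarith)
  have hNB : ∀ e, NB (cA + D) (-(r - ρ)) (r - ρ) (fun z => Z e z + A e z) (fun z => X e z + B e z) := fun e =>
    M08_NB ((hAp.fc.nb e).mono le_rfl (by linarith) (by linarith)) (hDS.bd e)
  have hSy : ∀ e, Sym (r - ρ) (fun z => Z e z + A e z) (fun z => X e z + B e z) := fun e =>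
    M08_Sym (G01_SymMono (hAp.fc.sy e) (by linarith)) (hDS.sy e)
  have hEE : E ≤ E / ρ := by
    rw [le_div_iff₀ hρ]
    nlinarith
  have hEρ : 0 ≤ E / ρ := by positivity
  have hev := fun e => Hv al hal (r - ρ) hrρ (by linarith) _ _ ((hNB e).mono (c' := v0) (by linarith) le_rfl le_rfl)
    (hSy e) ((V0 e : ℂ) + (dV e : ℂ)) ((mu e : ℂ) + (dm e : ℂ))
  have hDE : 0 ≤ D * E / ρ := by positivity
  -- bounds on the upper part
  have hup : ∀ e, ∀ t ∈ band 2 (r - ρ),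
      ‖SS al ((V0 e : ℂ) + (dV e : ℂ)) ((mu e : ℂ) + (dm e : ℂ)) (fun z => Z e z + A e z) (fun z => X e z + B e z) t‖ ≤
        (Cs * (2 * Ce + 1) + Cq) * (D ^ 2 + D * E / ρ + E2) ∧
      ‖Vf al (fun z => Z e z + A e z) (fun z => X e z + B e z) t - ((V0 e : ℂ) + (dV e : ℂ))‖ ≤
        (Cs * (2 * Ce + 1) + Cq) * (D ^ 2 + D * E / ρ + E2) := by
    intro e t ht
    have hN2 : NB m 2 (r - ρ) (Z e) (X e) := (hAp.fc.nb e).mono (by linarith) (by linarith) (by linarith)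
    have hD2 : DirBd D 2 (r - ρ) (A e) (B e) := G01_DirMono (hDS.bd e) (by linarith) le_rfl
    have hNr : NB m 1 r (Z e) (X e) := (hAp.fc.nb e).mono (by linarith) (by linarith) le_rfl
    have ht1 : t ∈ band (1 + ρ) (r - ρ) := band_subset (by linarith) le_rfl ht
    have htr : t ∈ band 1 r := band_subset (by linarith) (by linarith) ht
    have hV0 : ‖(V0 e : ℂ)‖ ≤ 10 := by
      rw [Complex.norm_real, Real.norm_eq_abs]
      have h1 := hAp.vb e
      have h2 := Vs_bd hal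
      have h3 : |V0 e| ≤ |V0 e - Vs al| + |Vs al| := by
        calc |V0 e| = |(V0 e - Vs al) + Vs al| := by ring_nf
          _ ≤ _ := abs_add_le _ _
      linarith
    have hmu : ‖(mu e : ℂ)‖ ≤ 1 := by
      rw [Complex.norm_real, Real.norm_eq_abs]
      have h1 := hAp.mb e
      linarith
    have hdV : ‖(dV e : ℂ)‖ ≤ D := by
      rw [Complex.norm_real, Real.norm_eq_abs]; exact hDS.bV e
    have hdm : ‖(dm e : ℂ)‖ ≤ D := by
      rw [Complex.norm_real, Real.norm_eq_abs]; exact hDS.bm e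
    have h1 := Hs al hal 2 (r - ρ) (by norm_num) (by linarith) (Z e) (X e) (hN2.mono ms le_rfl le_rfl) D hD
      (by linarith) (A e) (B e) hD2 (V0 e) (mu e) (dV e) (dm e) hV0 hmu hdV hdm t ht
    obtain ⟨e1, e2, -⟩ := He al hal 1 r le_rfl hr5 (Z e) (X e) (hNr.mono mp le_rfl le_rfl) (V0 e) (mu e) E ρ hρ
      (by linarith) (fun t ht => ⟨hAp.eS e t ht, hAp.eV e t ht⟩) t ht1
    have e3 := hAp.eV e t htr
    rw [hDS.e1 e t ht] at h1
    obtain ⟨q1, -⟩ := Hq al hal 2 (r - ρ) (by norm_num) (by linarith) (Z e) (X e) (hN2.mono mq le_rfl le_rfl) D hD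
      (by linarith) (A e) (B e) hD2 t ht
    have e4 := hDS.e2 e t ht
    have hbase : 0 ≤ D ^ 2 + D * E / ρ + E2 := by positivity
    constructor
    · have h2 : ‖SS al ((V0 e : ℂ) + (dV e : ℂ)) ((mu e : ℂ) + (dm e : ℂ)) (fun z => Z e z + A e z)
          (fun z => X e z + B e z) t‖ ≤
          Cs * D ^ 2 + Cs * D * (‖ezf al (mu e) (Z e) (X e) t‖ + ‖exf al (mu e) (Z e) (X e) t‖ +
            ‖Vf al (Z e) (X e) t - (V0 e : ℂ)‖) := by
        refine le_trans (le_of_eq ?_) h1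
        congr 1
        ring
      refine h2.trans ?_
      have h3 : ‖ezf al (mu e) (Z e) (X e) t‖ + ‖exf al (mu e) (Z e) (X e) t‖ +
            ‖Vf al (Z e) (X e) t - (V0 e : ℂ)‖ ≤ (2 * Ce + 1) * (E / ρ) := by
        have e1' : ‖ezf al (mu e) (Z e) (X e) t‖ ≤ Ce * (E / ρ) := by rw [← mul_div_assoc]; exact e1
        have e2' : ‖exf al (mu e) (Z e) (X e) t‖ ≤ Ce * (E / ρ) := by rw [← mul_div_assoc]; exact e2
        linarith
      have h4 : Cs * D * (‖ezf al (mu e) (Z e) (X e) t‖ + ‖exf al (mu e) (Z e) (X e) t‖ +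
            ‖Vf al (Z e) (X e) t - (V0 e : ℂ)‖) ≤ Cs * D * ((2 * Ce + 1) * (E / ρ)) :=
        mul_le_mul_of_nonneg_left h3 (by positivity)
      have h5 : Cs * D * ((2 * Ce + 1) * (E / ρ)) = Cs * (2 * Ce + 1) * (D * E / ρ) := by
        field_simp
      have h6 : Cs * D ^ 2 ≤ Cs * (2 * Ce + 1) * D ^ 2 := by
        apply mul_le_mul_of_nonneg_right _ (by positivity)
        nlinarith
      have h7 : 0 ≤ Cs * (2 * Ce + 1) * E2 := by positivity
      have h8 : 0 ≤ Cq * (D ^ 2 + D * E / ρ + E2) := by positivity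
      calc _ ≤ Cs * D ^ 2 + Cs * D * ((2 * Ce + 1) * (E / ρ)) := by linarith
        _ ≤ (Cs * (2 * Ce + 1)) * (D ^ 2 + D * E / ρ + E2) := by rw [h5]; linarith
        _ ≤ _ := by linarith
    · have h2 : Vf al (fun z => Z e z + A e z) (fun z => X e z + B e z) t - ((V0 e : ℂ) + (dV e : ℂ)) =
          (Vf al (fun z => Z e z + A e z) (fun z => X e z + B e z) t - Vf al (Z e) (X e) t -
            DV al (Z e) (X e) (A e) (B e) t) +
          (DV al (Z e) (X e) (A e) (B e) t - ((dV e : ℂ) - (Vf al (Z e) (X e) t - (V0 e : ℂ)))) := by ring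
      rw [h2]
      refine (norm_add_le _ _).trans ?_
      have h3 : 0 ≤ Cq * (D * E / ρ) := by positivity
      have h4 : E2 ≤ Cq * E2 := by nlinarith
      have h5 : 0 ≤ Cs * (2 * Ce + 1) * (D ^ 2 + D * E / ρ + E2) := by positivity
      calc _ ≤ Cq * D ^ 2 + E2 := add_le_add q1 e4
        _ ≤ Cq * (D ^ 2 + D * E / ρ + E2) := by linarith
        _ ≤ _ := by linarith
  refine ⟨⟨?_, ?_, hNB, hSy, fun e => ?_⟩, hAp.vc.add hDS.cV, hAp.mc.add hDS.cm, fun e => ?_, fun e => ?_,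
    fun e => ?_, fun e => ?_⟩
  · exact (hAp.fc.fZ.mono hs).add hDS.fA
  · exact (hAp.fc.fX.mono hs).add hDS.fB
  · refine ⟨fun z hz => ?_, fun z hz => ?_⟩
    · simp only [(hAp.fc.re e).rZ z (hs hz), (hDS.re e).rZ z hz, map_add]
    · simp only [(hAp.fc.re e).rX z (hs hz), (hDS.re e).rX z hz, map_add]
  · have h1 := hAp.vb e
    have h2 := hDS.bV e
    calc |V0 e + dV e - Vs al| = |(V0 e - Vs al) + dV e| := by ring_nf
      _ ≤ |V0 e - Vs al| + |dV e| := abs_add_le _ _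
      _ ≤ _ := add_le_add h1 h2
  · exact (abs_add_le _ _).trans (add_le_add (hAp.mb e) (hDS.bm e))
  · intro t ht
    have h1 := EvenExt.bound (a := 1) (a' := 2) zero_le_one (by norm_num) (by linarith) (hev e).1
      (fun z hz => (hup e z hz).1) t ht
    simpa only [ofReal_add] using h1
  · intro t ht
    have h1 := EvenExt.bound (a := 1) (a' := 2) zero_le_one (by norm_num) (by linarith) (hev e).2
      (fun z hz => (hup e z hz).2) t ht
    simpa only [ofReal_add] using h1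

end FB
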