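import Pool.Agent.H48.FB.NDefs
import Pool.Agent.H48.FB.B03
import Pool.Agent.H48.FB.J01

/-! M09: the new `u`. -/

open Complex Set MeasureTheory Filter Topology

noncomputable section

namespace FB

/-! ### auxiliary lemmas -/

theorem M09_slit {w : ℂ} (hw : ‖w - 1‖ ≤ 1/100) : w ∈ slitPlane := by
  have h := mem_slitPlane_of_norm_lt_one (z := w - 1) (by linarith)
  simpa using h

theorem M09_log {w w' : ℂ} (hw : ‖w - 1‖ ≤ 1/100) (hw' : ‖w' - 1‖ ≤ 1/100) :
    ‖log w' - log w‖ ≤ 2 * ‖w' - w‖ := by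
  have hconv : Convex ℝ (Metric.closedBall (1:ℂ) (1/100)) := convex_closedBall _ _
  have hm : ∀ {z : ℂ}, ‖z - 1‖ ≤ 1/100 → z ∈ Metric.closedBall (1:ℂ) (1/100) := by
    intro z hz
    rw [Metric.mem_closedBall, dist_eq_norm]
    exact hz
  refine Convex.norm_image_sub_le_of_norm_hasDerivWithin_le (f := log) (f' := fun z => z⁻¹)
    (s := Metric.closedBall (1:ℂ) (1/100)) ?_ ?_ hconv (hm hw) (hm hw')
  · intro z hz
    rw [Metric.mem_closedBall, dist_eq_norm] at hz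
    exact (hasDerivAt_log (M09_slit hz)).hasDerivWithinAt
  · intro z hz
    rw [Metric.mem_closedBall, dist_eq_norm] at hz
    rw [norm_inv]
    have h1 := norm_sub_norm_le (1:ℂ) z
    rw [norm_sub_rev, norm_one] at h1
    have h2 : 1/2 ≤ ‖z‖ := by linarith
    calc ‖z‖⁻¹ ≤ (1/2 : ℝ)⁻¹ := inv_anti₀ (by norm_num) h2
      _ = 2 := by norm_num

theorem M09_mul {a a' b b' : ℂ} {K D : ℝ} (h1 : ‖a' - a‖ ≤ D) (h2 : ‖b' - b‖ ≤ D) (h3 : ‖a‖ ≤ K) (h4 : ‖b'‖ ≤ K) :
    ‖a' * b' - a * b‖ ≤ 2 * K * D := by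
  have e1 : a' * b' - a * b = (a' - a) * b' + a * (b' - b) := by ring
  rw [e1]
  refine (norm_add_le _ _).trans ?_
  rw [norm_mul, norm_mul]
  have hD : 0 ≤ D := (norm_nonneg _).trans h1
  have hK : 0 ≤ K := (norm_nonneg _).trans h3
  have g1 : ‖a' - a‖ * ‖b'‖ ≤ D * K := mul_le_mul h1 h4 (norm_nonneg _) hD
  have g2 : ‖a‖ * ‖b' - b‖ ≤ K * D := mul_le_mul h3 h2 (norm_nonneg _) hK
  linarith

/-- difference of `chip`, `chim` for two curves -/
theorem M09_chip {al : ℝ} (hal : al ∈ JJ) {a b c D E : ℝ} (hc : c ≤ 1) (hE1 : 1 ≤ E)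
    (hE : ∀ z ∈ band a b, ‖cos z‖ ≤ E ∧ ‖sin z‖ ≤ E) {Z X A B : ℂ → ℂ}
    (hN : NB c a b Z X) (hN' : NB c a b (fun z => Z z + A z) (fun z => X z + B z)) (hD : DirBd D a b A B)
    {t : ℂ} (ht : t ∈ band a b) :
    ‖chip al (fun z => Z z + A z) (fun z => X z + B z) t - chip al Z X t‖ ≤ 16 * E * D ∧
    ‖chim al (fun z => Z z + A z) (fun z => X z + B z) t - chim al Z X t‖ ≤ 16 * E * D := by
  obtain ⟨-, -, -, -, -, hs, -⟩ := JJ_bounds hal
  have hp : t + (al:ℂ) ∈ band a b := add_real_mem_band ht al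
  have hm : t - (al:ℂ) ∈ band a b := sub_real_mem_band ht al
  have hD0 : 0 ≤ D := (norm_nonneg _).trans (hD.a0 t ht)
  have hop := isOpen_band a b
  have dZ : ∀ {z : ℂ}, z ∈ band a b → deriv (fun z => Z z + A z) z = deriv Z z + deriv A z := fun hz =>
    deriv_fun_add (hN.dZ.differentiableAt (hop.mem_nhds hz)) (hD.dA.differentiableAt (hop.mem_nhds hz))
  have dX : ∀ {z : ℂ}, z ∈ band a b → deriv (fun z => X z + B z) z = deriv X z + deriv B z := fun hz =>
    deriv_fun_add (hN.dX.differentiableAt (hop.mem_nhds hz)) (hD.dB.differentiableAt (hop.mem_nhds hz))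
  have nZ : ∀ {z : ℂ}, z ∈ band a b → ‖Z z‖ ≤ 2 * E := by
    intro z hz
    have h1 : Z z = (Z z - cos z) + cos z := by ring
    rw [h1]
    exact (norm_add_le _ _).trans (by linarith [hN.z0 z hz, (hE z hz).1])
  have nX : ∀ {z : ℂ}, z ∈ band a b → ‖X z‖ ≤ 2 * E := by
    intro z hz
    have h1 : X z = (X z - sin z) + sin z := by ring
    rw [h1]
    exact (norm_add_le _ _).trans (by linarith [hN.x0 z hz, (hE z hz).2])
  have nZ' : ∀ {z : ℂ}, z ∈ band a b → ‖deriv (fun z => Z z + A z) z‖ ≤ 2 * E := by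
    intro z hz
    have h1 : deriv (fun z => Z z + A z) z = (deriv (fun z => Z z + A z) z + sin z) - sin z := by ring
    rw [h1]
    exact (norm_sub_le _ _).trans (by linarith [hN'.z1 z hz, (hE z hz).2])
  have nX' : ∀ {z : ℂ}, z ∈ band a b → ‖deriv (fun z => X z + B z) z‖ ≤ 2 * E := by
    intro z hz
    have h1 : deriv (fun z => X z + B z) z = (deriv (fun z => X z + B z) z - cos z) + cos z := by ring
    rw [h1]
    exact (norm_add_le _ _).trans (by linarith [hN'.x1 z hz, (hE z hz).1])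
  have hnz : ‖nz al X t‖ ≤ 2 * E := by
    unfold nz df
    rw [norm_div, norm_ofNat]
    have := norm_sub_le (X (t + (al:ℂ))) (X (t - (al:ℂ)))
    linarith [nX hp, nX hm]
  have hnx : ‖nx al Z t‖ ≤ 2 * E := by
    unfold nx df
    rw [norm_neg, norm_div, norm_ofNat]
    have := norm_sub_le (Z (t + (al:ℂ))) (Z (t - (al:ℂ)))
    linarith [nZ hp, nZ hm]
  have dnz : ‖nz al (fun z => X z + B z) t - nz al X t‖ ≤ D := by
    have e1 : nz al (fun z => X z + B z) t - nz al X t = (B (t + (al:ℂ)) - B (t - (al:ℂ))) / 2 := by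
      unfold nz df; ring
    rw [e1, norm_div, norm_ofNat]
    have := norm_sub_le (B (t + (al:ℂ))) (B (t - (al:ℂ)))
    linarith [hD.b0 _ hp, hD.b0 _ hm]
  have dnx : ‖nx al (fun z => Z z + A z) t - nx al Z t‖ ≤ D := by
    have e1 : nx al (fun z => Z z + A z) t - nx al Z t = -((A (t + (al:ℂ)) - A (t - (al:ℂ))) / 2) := by
      unfold nx df; ring
    rw [e1, norm_neg, norm_div, norm_ofNat]
    have := norm_sub_le (A (t + (al:ℂ))) (A (t - (al:ℂ)))
    linarith [hD.a0 _ hp, hD.a0 _ hm]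
  have main : ∀ {z : ℂ}, z ∈ band a b →
      ‖(nz al (fun z => X z + B z) t * deriv (fun z => Z z + A z) z + nx al (fun z => Z z + A z) t * deriv (fun z => X z + B z) z) -
        (nz al X t * deriv Z z + nx al Z t * deriv X z)‖ ≤ 8 * E * D := by
    intro z hz
    have g1 : ‖nz al (fun z => X z + B z) t * deriv (fun z => Z z + A z) z - nz al X t * deriv Z z‖ ≤ 2 * (2 * E) * D := by
      refine M09_mul dnz ?_ hnz (nZ' hz)
      rw [dZ hz, add_sub_cancel_left]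
      exact hD.a1 z hz
    have g2 : ‖nx al (fun z => Z z + A z) t * deriv (fun z => X z + B z) z - nx al Z t * deriv X z‖ ≤ 2 * (2 * E) * D := by
      refine M09_mul dnx ?_ hnx (nX' hz)
      rw [dX hz, add_sub_cancel_left]
      exact hD.b1 z hz
    have e1 : (nz al (fun z => X z + B z) t * deriv (fun z => Z z + A z) z + nx al (fun z => Z z + A z) t * deriv (fun z => X z + B z) z) -
        (nz al X t * deriv Z z + nx al Z t * deriv X z) =
        (nz al (fun z => X z + B z) t * deriv (fun z => Z z + A z) z - nz al X t * deriv Z z) +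
        (nx al (fun z => Z z + A z) t * deriv (fun z => X z + B z) z - nx al Z t * deriv X z) := by ring
    rw [e1]
    refine (norm_add_le _ _).trans ?_
    linarith
  have hsn : 1/2 ≤ ‖(Real.sin al : ℂ) ^ 2‖ := by
    rw [norm_pow, norm_real, Real.norm_of_nonneg (by linarith)]
    nlinarith
  have hED : 0 ≤ E * D := by positivity
  constructor
  · unfold chip
    rw [← sub_div, norm_div, div_le_iff₀ (by linarith)]
    have h1 := main hp
    rw [neg_sub_neg, norm_sub_rev]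
    nlinarith
  · unfold chim
    rw [← sub_div, norm_div, div_le_iff₀ (by linarith)]
    have h1 := main hm
    nlinarith

/-- the right hand side for one curve -/
def M09g (al : ℝ) (Z X : ℂ → ℂ) (t : ℂ) : ℂ := log (chip al Z X t) - log (chim al Z X t)

theorem M09_g (R : ℝ) (hR : 1 < R) : ∃ c0 : ℝ, 0 < c0 ∧ ∀ al ∈ JJ, ∀ r : ℝ, 0 < r → r ≤ R → ∀ Z X : EE → ℂ → ℂ, FC c0 r Z X →
    Fam (strip r) (fun e => M09g al (Z e) (X e)) ∧
    ∀ e, ∀ z ∈ strip r, (‖chip al (Z e) (X e) z - 1‖ ≤ 1/100 ∧ ‖chim al (Z e) (X e) z - 1‖ ≤ 1/100) ∧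
      M09g al (Z e) (X e) (-z) = - M09g al (Z e) (X e) z ∧
      M09g al (Z e) (X e) (z + (Real.pi:ℂ)) = M09g al (Z e) (X e) z ∧
      M09g al (Z e) (X e) ((starRingEnd ℂ) z) = (starRingEnd ℂ) (M09g al (Z e) (X e) z) := by
  obtain ⟨c1, hc1, H1⟩ := fam_strip R hR
  obtain ⟨c2, C2, hc2, hC2, hCc2, H2⟩ := chord_bd_strip R hR
  refine ⟨min c1 c2, by positivity, ?_⟩
  intro al hal r hr0 hrR Z X hF
  have hF1 : FC c1 r Z X :=
    { fZ := hF.fZ
      fX := hF.fX
      nb := fun e =>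
        { dZ := (hF.nb e).dZ
          dX := (hF.nb e).dX
          z0 := fun z hz => ((hF.nb e).z0 z hz).trans (min_le_left _ _)
          x0 := fun z hz => ((hF.nb e).x0 z hz).trans (min_le_left _ _)
          z1 := fun z hz => ((hF.nb e).z1 z hz).trans (min_le_left _ _)
          x1 := fun z hz => ((hF.nb e).x1 z hz).trans (min_le_left _ _) }
      sy := hF.sy
      re := hF.re }
  have hN2 : ∀ e, NB c2 (-r) r (Z e) (X e) := fun e =>
    { dZ := (hF.nb e).dZ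
      dX := (hF.nb e).dX
      z0 := fun z hz => ((hF.nb e).z0 z hz).trans (min_le_right _ _)
      x0 := fun z hz => ((hF.nb e).x0 z hz).trans (min_le_right _ _)
      z1 := fun z hz => ((hF.nb e).z1 z hz).trans (min_le_right _ _)
      x1 := fun z hz => ((hF.nb e).x1 z hz).trans (min_le_right _ _) }
  obtain ⟨-, -, -, -, hev, hpi, hconj⟩ := H1 al hal r hr0 hrR Z X hF1
  have hch : ∀ e, ∀ t ∈ strip r, ChordBd (C2 * c2) al (Z e) (X e) t := fun e t ht =>
    (H2 al hal r c2 hr0 hrR hc2.le le_rfl (Z e) (X e) (hN2 e) (hF.sy e) t ht).1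
  have hchip : ∀ e, ∀ t ∈ strip r, chip al (Z e) (X e) t ∈ slitPlane := fun e t ht =>
    M09_slit ((hch e t ht).chip.trans hCc2)
  have hchim : ∀ e, ∀ t ∈ strip r, chim al (Z e) (X e) t ∈ slitPlane := fun e t ht =>
    M09_slit ((hch e t ht).chim.trans hCc2)
  obtain ⟨-, -, -, -, -, fchip, fchim⟩ := fam_chord (al := al) (a := -r) (b := r) hF.fZ hF.fX
  have flog : DifferentiableOn ℂ log slitPlane := fun w hw => (differentiableAt_log hw).differentiableWithinAt
  have g2 : Fam (strip r) (fun e t => log (chip al (Z e) (X e) t)) := Fam.comp fchip flog hchip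
  have g3 : Fam (strip r) (fun e t => log (chim al (Z e) (X e) t)) := Fam.comp fchim flog hchim
  have harg : ∀ {w : ℂ}, w ∈ slitPlane → w.arg ≠ Real.pi := fun hw => (mem_slitPlane_iff_arg.mp hw).1
  refine ⟨g2.sub g3, fun e z hz => ⟨⟨(hch e z hz).chip.trans hCc2, (hch e z hz).chim.trans hCc2⟩, ?_, ?_, ?_⟩⟩
  · have h1 := (hev e z hz).2.2.2.2.2.1
    have h2 := (hev e (-z) (neg_mem_strip hz)).2.2.2.2.2.1
    rw [neg_neg] at h2
    unfold M09g
    rw [h1, ← h2]
    ring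
  · obtain ⟨-, -, -, -, -, h2, h3⟩ := hpi e z hz
    unfold M09g
    rw [h2, h3]
  · obtain ⟨-, -, -, -, -, h2, h3⟩ := hconj e z hz
    unfold M09g
    rw [h2, h3, log_conj _ (harg (hchip e z hz)), log_conj _ (harg (hchim e z hz)), map_sub]

/-- `Δ = (3/2) [(log chip' - log chim') - (log chip - log chim)]` on `strip r` is odd (`chip(-t) = chim t`), `pi`-periodic, real, `‖Δ‖ ≤ C D`
(`chip' - chip = O(D)`, both near `1`). `fourierOdd`: `|ψ m| ≤ C D e^{-2my}` for all `y < r`, so `≤ F m = C D e^{-2mr}`. `coh_even` with `b = r'`: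
`∑ F (m+1)/s(m+1) e^{2(m+1) r'} = C D W`. -/
theorem cohU (R : ℝ) (hR : 3 ≤ R) : ∃ c0 C : ℝ, 0 < c0 ∧ 1 ≤ C ∧ ∀ al ∈ JJ, ∀ s : ℕ → ℝ, (∀ m, 1 ≤ m → 0 < s m ∧ s m ≤ |Real.sin (2 * m * al)|) →
    ∀ r r' D W : ℝ, 0 < r' → r' < r → r ≤ R → 0 ≤ D → D ≤ c0 →
    Summable (fun m : ℕ => Real.exp (-(2 * ((m:ℝ) + 1) * (r - r'))) / s (m + 1)) → ∑' m : ℕ, Real.exp (-(2 * ((m:ℝ) + 1) * (r - r'))) / s (m + 1) ≤ W →
    ∀ Z X A B : EE → ℂ → ℂ, FC c0 r Z X → FC c0 r (fun e z => Z e z + A e z) (fun e z => X e z + B e z) → (∀ e, DirBd D (-r) r (A e) (B e)) →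
    ∃ v : EE → ℂ → ℂ, US (C * D * W) r' v ∧ ∀ e, ∀ z ∈ strip r', v e (z + (al:ℂ)) - v e (z - (al:ℂ)) =
      3/2 * ((log (chip al (fun z => Z e z + A e z) (fun z => X e z + B e z) z) - log (chim al (fun z => Z e z + A e z) (fun z => X e z + B e z) z)) -
        (log (chip al (Z e) (X e) z) - log (chim al (Z e) (X e) z))) := by
  obtain ⟨c1, hc1, H1⟩ := M09_g R (by linarith)
  set E : ℝ := Real.exp R with hE
  have hE1 : 1 ≤ E := Real.one_le_exp (by linarith)
  refine ⟨min c1 1, 96 * E, by positivity, by linarith, ?_⟩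
  intro al hal s hs r r' D W hr'0 hr'r hrR hD0 hDc hsum hW Z X A B hF hF' hDir
  have mono : ∀ {Z X : EE → ℂ → ℂ}, FC (min c1 1) r Z X → FC c1 r Z X := fun h =>
    { fZ := h.fZ
      fX := h.fX
      nb := fun e =>
        { dZ := (h.nb e).dZ
          dX := (h.nb e).dX
          z0 := fun z hz => ((h.nb e).z0 z hz).trans (min_le_left _ _)
          x0 := fun z hz => ((h.nb e).x0 z hz).trans (min_le_left _ _)
          z1 := fun z hz => ((h.nb e).z1 z hz).trans (min_le_left _ _)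
          x1 := fun z hz => ((h.nb e).x1 z hz).trans (min_le_left _ _) }
      sy := h.sy
      re := h.re }
  have hr0 : 0 < r := by linarith
  obtain ⟨F1, P1⟩ := H1 al hal r hr0 hrR Z X (mono hF)
  obtain ⟨F2, P2⟩ := H1 al hal r hr0 hrR _ _ (mono hF')
  have hbE : ∀ z ∈ band (-r) r, ‖cos z‖ ≤ E ∧ ‖sin z‖ ≤ E := b01_bound_E (by linarith) (by linarith) hrR
  set Δ : EE → ℂ → ℂ := fun e z => 3/2 * (M09g al (fun z => Z e z + A e z) (fun z => X e z + B e z) z -
    M09g al (Z e) (X e) z) with hΔ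
  have FΔ : Fam (strip r) Δ := (F2.sub F1).smulc (3/2)
  have hΔp : ∀ e, ∀ z ∈ strip r, Δ e (z + (Real.pi : ℂ)) = Δ e z := by
    intro e z hz
    simp only [hΔ]
    rw [(P1 e z hz).2.2.1, (P2 e z hz).2.2.1]
  have hΔo : ∀ e, ∀ z ∈ strip r, Δ e (-z) = - Δ e z := by
    intro e z hz
    simp only [hΔ]
    rw [(P1 e z hz).2.1, (P2 e z hz).2.1]
    ring
  have hΔr : ∀ e, ∀ z ∈ strip r, Δ e ((starRingEnd ℂ) z) = (starRingEnd ℂ) (Δ e z) := by
    intro e z hz
    simp only [hΔ]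
    rw [(P1 e z hz).2.2.2, (P2 e z hz).2.2.2, map_mul, map_sub, map_div₀, map_ofNat, map_ofNat]
  have hΔb : ∀ e, ∀ z ∈ strip r, ‖Δ e z‖ ≤ 96 * E * D := by
    intro e z hz
    obtain ⟨g1, g2⟩ := M09_chip hal (a := -r) (b := r) (c := min c1 1) (min_le_right _ _) hE1 hbE (hF.nb e) (hF'.nb e) (hDir e) hz
    have h1 := M09_log (P1 e z hz).1.1 (P2 e z hz).1.1
    have h2 := M09_log (P1 e z hz).1.2 (P2 e z hz).1.2
    have e1 : Δ e z = 3/2 * ((log (chip al (fun z => Z e z + A e z) (fun z => X e z + B e z) z) - log (chip al (Z e) (X e) z)) -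
        (log (chim al (fun z => Z e z + A e z) (fun z => X e z + B e z) z) - log (chim al (Z e) (X e) z))) := by
      simp only [hΔ, M09g]
      ring
    rw [e1, norm_mul]
    have h3 : ‖(3/2 : ℂ)‖ = 3/2 := by norm_num
    rw [h3]
    have h4 := norm_sub_le (log (chip al (fun z => Z e z + A e z) (fun z => X e z + B e z) z) - log (chip al (Z e) (X e) z))
      (log (chim al (fun z => Z e z + A e z) (fun z => X e z + B e z) z) - log (chim al (Z e) (X e) z))
    linarith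
  obtain ⟨ψ, hψc, hψs, hψb⟩ := fourierOdd hr0 FΔ hΔp hΔo hΔr
  set F : ℕ → ℝ := fun m => 96 * E * D * Real.exp (-(2 * (m:ℝ) * r)) with hFd
  have hψF : ∀ e m, |ψ e m| ≤ F m := by
    intro e m
    have h1 : ∀ y ∈ Ioo (0:ℝ) r, |ψ e m| ≤ 96 * E * D * Real.exp (-(2 * (m:ℝ) * y)) := by
      intro y hy
      refine hψb e m y hy _ fun x => hΔb e _ ⟨?_, ?_⟩
      · have : ((x:ℂ) + (y:ℂ) * I).im = y := by simp
        rw [this]
        linarith [hy.1]
      · have : ((x:ℂ) + (y:ℂ) * I).im = y := by simp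
        rw [this]
        exact hy.2
    have h2 : Tendsto (fun y : ℝ => 96 * E * D * Real.exp (-(2 * (m:ℝ) * y))) (𝓝[<] r)
        (𝓝 (96 * E * D * Real.exp (-(2 * (m:ℝ) * r)))) := by
      have h3 : Continuous (fun y : ℝ => 96 * E * D * Real.exp (-(2 * (m:ℝ) * y))) := by fun_prop
      exact (h3.tendsto r).mono_left nhdsWithin_le_nhds
    refine ge_of_tendsto h2 ?_
    filter_upwards [Ioo_mem_nhdsLT hr0] with y hy using h1 y hy
  have hED : 0 ≤ 96 * E * D := by positivity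
  have hcmp : ∀ ρ : ℝ, ρ ≤ r' → ∀ m : ℕ, F (m + 1) / s (m + 1) * Real.exp (2 * ((m:ℝ) + 1) * ρ) ≤
      96 * E * D * (Real.exp (-(2 * ((m:ℝ) + 1) * (r - r'))) / s (m + 1)) := by
    intro ρ hρ m
    have hsp := (hs (m + 1) (by omega)).1
    have e1 : F (m + 1) / s (m + 1) * Real.exp (2 * ((m:ℝ) + 1) * ρ) =
        96 * E * D * ((Real.exp (-(2 * ((m:ℝ) + 1) * r)) * Real.exp (2 * ((m:ℝ) + 1) * ρ)) / s (m + 1)) := by
      simp only [hFd]
      push_cast
      ring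
    rw [e1, ← Real.exp_add]
    refine mul_le_mul_of_nonneg_left ?_ hED
    refine div_le_div_of_nonneg_right ?_ hsp.le
    apply Real.exp_le_exp.mpr
    have h1 : 2 * ((m:ℝ) + 1) * ρ ≤ 2 * ((m:ℝ) + 1) * r' := mul_le_mul_of_nonneg_left hρ (by positivity)
    nlinarith
  have hnn : ∀ ρ : ℝ, ∀ m : ℕ, 0 ≤ F (m + 1) / s (m + 1) * Real.exp (2 * ((m:ℝ) + 1) * ρ) := by
    intro ρ m
    have hsp := (hs (m + 1) (by omega)).1
    have : 0 ≤ F (m + 1) := by
      simp only [hFd]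
      positivity
    positivity
  have hsum2 : Summable (fun m : ℕ => 96 * E * D * (Real.exp (-(2 * ((m:ℝ) + 1) * (r - r'))) / s (m + 1))) :=
    hsum.mul_left _
  have hS : ∀ ρ : ℝ, ρ ≤ r' → Summable (fun m : ℕ => F (m + 1) / s (m + 1) * Real.exp (2 * ((m:ℝ) + 1) * ρ)) :=
    fun ρ hρ => Summable.of_nonneg_of_le (hnn ρ) (hcmp ρ hρ) hsum2
  obtain ⟨v, v1, v2, v3, v4, v5, v6⟩ := coh_even hr'0 hs hψc hψF (fun ρ _ h2 => hS ρ h2.le)
  have hsub : strip r' ⊆ strip r := band_subset (by linarith) hr'r.le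
  refine ⟨v, { fu := v1, u0 := ?_, ue := v2, up := v3, ur := v4 }, ?_⟩
  · intro e z hz
    have hz' : |z.im| < r' := abs_lt.mpr hz
    refine (v6 |z.im| (abs_nonneg _) hz' e z le_rfl).trans ?_
    refine ((hS _ hz'.le).tsum_le_tsum (hcmp _ hz'.le) hsum2).trans ?_
    rw [tsum_mul_left]
    exact mul_le_mul_of_nonneg_left hW hED
  · intro e z hz
    rw [v5 e z hz, ← hψs e z (hsub hz)]
    rfl

end FB
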