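import Pool.Agent.H48.FB.NDefs
import Pool.Agent.H48.FB.K03
import Pool.Agent.H48.FB.G05

/-! M10: the new Legendre matrix. -/

open Complex Set MeasureTheory Filter Topology

noncomputable section

namespace FB

theorem m10_mem {al ρ : ℝ} (hρ : 0 < ρ) {s : ℝ} (hs : s ∈ Ioo (-al) al) :
    (s:ℂ) ∈ RR al ρ ∧ (s:ℂ) ≠ (al:ℂ) ∧ (s:ℂ) ≠ -(al:ℂ) := by
  refine ⟨⟨?_, ?_, ?_⟩, ?_, ?_⟩
  · rw [ofReal_re, abs_lt]
    constructor <;> linarith [hs.1, hs.2]
  · rw [ofReal_im]; linarith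
  · rw [ofReal_im]; exact hρ
  · intro h
    have := ofReal_injective h
    linarith [hs.2]
  · intro h
    rw [← ofReal_neg] at h
    have := ofReal_injective h
    linarith [hs.1]

theorem m10_kk {al : ℝ} (hal : al ∈ JJ) : ContinuousOn (fun s : ℝ => kk al (s:ℂ)) (Ioo (-al) al) ∧
    ∀ s ∈ Ioo (-al) al, ‖kk al (s:ℂ)‖ ≤ 1 := by
  obtain ⟨-, -, -, hc1, -, -, -⟩ := JJ_bounds hal
  constructor
  · refine ContinuousOn.congr (f := fun s : ℝ => ((Real.sqrt (Real.cos s - Real.cos al) : ℝ) : ℂ)) ?_ ?_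
    · fun_prop
    · intro s hs
      exact kk_real (cos_gt hal hs).le
  · intro s hs
    rw [kk_real (cos_gt hal hs).le, norm_real, Real.norm_of_nonneg (Real.sqrt_nonneg _)]
    exact Real.sqrt_le_one.mpr (by linarith [Real.cos_le_one s])

/-- integrability of the integrands of `Rop` -/
theorem m10_ii {al : ℝ} (hal : al ∈ JJ) {ρ M M' : ℝ} (hρ : 0 < ρ) {T K : ℂ → ℂ}
    (hT : ∀ s ∈ RR al ρ, s ≠ (al:ℂ) → s ≠ -(al:ℂ) → DifferentiableAt ℂ T s ∧ ‖T s‖ ≤ M ∧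
      DifferentiableAt ℂ K s ∧ ‖K s‖ ≤ M') {f : ℂ → ℂ} (hf : Continuous f) (t : ℂ) :
    IntervalIntegrable (fun s : ℝ => kk al (s:ℂ) ^ 3 * (K (s:ℂ) * T (s:ℂ)) * f (t + (s:ℂ))) volume (-al) al := by
  obtain ⟨ha, -, -, -, -, -, -⟩ := JJ_bounds hal
  have hal0 : 0 < al := by linarith
  obtain ⟨hk1, hk2⟩ := m10_kk hal
  have hfc : Continuous fun s : ℝ => f (t + (s:ℂ)) := hf.comp (by fun_prop)
  obtain ⟨Cf, hCf⟩ := (isCompact_Icc (a := -al) (b := al)).exists_bound_of_continuousOn hfc.continuousOn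
  have h0 : (0:ℝ) ∈ Ioo (-al) al := ⟨by linarith, hal0⟩
  obtain ⟨m1, m2, m3⟩ := m10_mem hρ h0
  obtain ⟨-, q1, -, q2⟩ := hT _ m1 m2 m3
  have hM : 0 ≤ M := (norm_nonneg _).trans q1
  have hM' : 0 ≤ M' := (norm_nonneg _).trans q2
  refine c02_integrable hal0.le (M := 1 * (M' * M) * Cf) ?_ ?_
  · refine ContinuousOn.mul (ContinuousOn.mul (hk1.pow 3) ?_) hfc.continuousOn
    refine ContinuousOn.mul ?_ ?_
    · intro s hs
      obtain ⟨m1, m2, m3⟩ := m10_mem hρ hs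
      obtain ⟨-, -, d2, -⟩ := hT _ m1 m2 m3
      exact (ContinuousAt.comp (g := K) (f := fun s : ℝ => (s:ℂ)) d2.continuousAt
        (by fun_prop)).continuousWithinAt
    · intro s hs
      obtain ⟨m1, m2, m3⟩ := m10_mem hρ hs
      obtain ⟨d1, -, -, -⟩ := hT _ m1 m2 m3
      exact (ContinuousAt.comp (g := T) (f := fun s : ℝ => (s:ℂ)) d1.continuousAt
        (by fun_prop)).continuousWithinAt
  · intro s hs
    obtain ⟨m1, m2, m3⟩ := m10_mem hρ hs
    obtain ⟨-, b1, -, b2⟩ := hT _ m1 m2 m3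
    rw [norm_mul, norm_mul, norm_mul, norm_pow]
    have e1 : ‖kk al (s:ℂ)‖ ^ 3 ≤ 1 := pow_le_one₀ (norm_nonneg _) (hk2 s hs)
    have e2 := hCf s ⟨hs.1.le, hs.2.le⟩
    have e3 : ‖K (s:ℂ)‖ * ‖T (s:ℂ)‖ ≤ M' * M := mul_le_mul b2 b1 (norm_nonneg _) hM'
    refine mul_le_mul (mul_le_mul e1 e3 (by positivity) (by norm_num)) e2 (norm_nonneg _) (by positivity)

theorem m10_WW (m : ℕ) (r : ℝ) : 0 ≤ WW m r := by
  have := cc_pos (2 * m)
  rw [WW]; positivity

theorem m10_rpow {ρ : ℝ} (hρ : 0 < ρ) (h1 : ρ ≤ 1) : ρ ^ (-(9:ℝ)/2) / ρ ≤ 1 / ρ ^ 6 := by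
  have h2 : ρ ^ (-(9:ℝ)/2) ≤ ρ ^ (-(5:ℝ)) := Real.rpow_le_rpow_of_exponent_ge hρ h1 (by norm_num)
  have h3 : ρ ^ (-(5:ℝ)) = 1 / ρ ^ 5 := by
    rw [Real.rpow_neg hρ.le, show (5:ℝ) = ((5:ℕ):ℝ) by norm_num, Real.rpow_natCast, one_div]
  rw [h3] at h2
  calc ρ ^ (-(9:ℝ)/2) / ρ ≤ (1 / ρ ^ 5) / ρ := by gcongr
    _ = 1 / ρ ^ 6 := by field_simp

/-- Kernel `Ker e t s = K0 al t s * (Th' - Th)` for `t ∈ band 2 (r - ρ)`: on `RR al ρ \ {± al}` bounded by `C D` (`Th_diff`, `Th_basic`), tends to `0` at `± al`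
(both `Th', Th` do, by the cohomological equations), so `edge_bound`: `‖Ker‖ ≤ (C D/ρ) ‖cos s - cos al‖`. `kernel_matrix` on `strip (r - ρ)`:
coefficients `Rd` with constant `C (D/ρ) ρ^{-9/2} ≤ C D/ρ^6` for `r' < r - 2ρ`; the hypotheses on `∫ kk^3 Ker PL m = Rop' (PL m) - Rop (PL m)` by `Rop_fam`
(`f = PL m`). `Rm' = Rm + Rd`, `RM' = RM + RD`. -/
theorem newR : ∃ c1 C : ℝ, 0 < c1 ∧ 1 ≤ C ∧ ∀ al ∈ JJ, ∀ r cR D ρ : ℝ, 3 < r → r ≤ 5 → 0 < ρ → ρ ≤ 1/4 → 3 < r - 2 * ρ → 0 ≤ cR → 0 ≤ D → D ≤ c1 →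
    ∀ (Z X A B u v : EE → ℂ → ℂ) (Rm : EE → ℕ → ℕ → ℝ) (RM : ℕ → ℕ → ℝ), FC c1 r Z X →
    FC c1 r (fun e z => Z e z + A e z) (fun e z => X e z + B e z) → (∀ e, DirBd D (-r) r (A e) (B e)) → US c1 r u → US D r v →
    (∀ e, ∀ z ∈ strip r, CohEq al (Z e) (X e) (u e) z) →
    (∀ e, ∀ z ∈ strip r, CohEq al (fun z => Z e z + A e z) (fun z => X e z + B e z) (fun z => u e z + v e z) z) →
    RS al r cR Z X u Rm RM →
    ∃ (Rm' : EE → ℕ → ℕ → ℝ) (RM' : ℕ → ℕ → ℝ), RS al (r - 2 * ρ) (cR + C * D / ρ ^ 6) (fun e z => Z e z + A e z) (fun e z => X e z + B e z)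
      (fun e z => u e z + v e z) Rm' RM' := by
  obtain ⟨ca, Ca, hca, hCa, HA⟩ := Th_diff 5 (by norm_num)
  obtain ⟨cb, Cb, hcb, hCb, HB⟩ := Th_basic 5 (by norm_num)
  obtain ⟨Ce, hCe, HE⟩ := edge_bound
  obtain ⟨Ck, hCk, HK⟩ := kernel_matrix
  obtain ⟨cf, hcf, HF⟩ := Rop_fam 5 (by norm_num)
  set c1 : ℝ := min ca (min cb cf) / 2 with hc1
  have hmpos : 0 < min ca (min cb cf) := by positivity
  have hc10 : 0 < c1 := by positivity
  have l0 : 2 * c1 = min ca (min cb cf) := by rw [hc1]; ring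
  have l1 : 2 * c1 ≤ ca := l0.le.trans (min_le_left _ _)
  have l2 : 2 * c1 ≤ cb := l0.le.trans ((min_le_right _ _).trans (min_le_left _ _))
  have l3 : 2 * c1 ≤ cf := l0.le.trans ((min_le_right _ _).trans (min_le_right _ _))
  refine ⟨c1, max 1 (Ck * (Ce * (Cb * Ca))), hc10, le_max_left _ _, ?_⟩
  intro al hal r cR D ρ hr hr5 hρ hρ4 hrρ hcR hD hDc Z X A B u v Rm RM hF hF' hAB hu hv hco hco' hRS
  obtain ⟨ha, -, -, -, -, -, -⟩ := JJ_bounds hal
  have hal0 : 0 < al := by linarith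
  have hb1s : ∀ {t : ℂ}, t ∈ band 1 r → t ∈ strip r := fun ht => band_subset (by linarith) le_rfl ht
  have hbs : ∀ {t : ℂ}, t ∈ band 2 (r - ρ) → t ∈ strip r := fun ht => band_subset (by linarith) (by linarith) ht
  have hb1 : ∀ {t : ℂ}, t ∈ band 2 (r - ρ) → t ∈ band 1 r := fun ht => band_subset (by linarith) (by linarith) ht
  -- the data
  have hN : ∀ e, NB (2 * c1) 1 r (Z e) (X e) := fun e => (hF.nb e).mono (by linarith) (by linarith) le_rfl
  have hN' : ∀ e, NB (2 * c1) 1 r (fun z => Z e z + A e z) (fun z => X e z + B e z) := fun e =>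
    (hF'.nb e).mono (by linarith) (by linarith) le_rfl
  have hud : ∀ e, DifferentiableOn ℂ (u e) (band 1 r) := fun e => (hu.fu.diff e).mono fun z hz => hb1s hz
  have hvd : ∀ e, DifferentiableOn ℂ (v e) (band 1 r) := fun e => (hv.fu.diff e).mono fun z hz => hb1s hz
  have hud' : ∀ e, DifferentiableOn ℂ (fun z => u e z + v e z) (band 1 r) := fun e => (hud e).add (hvd e)
  have hub : ∀ e, ∀ z ∈ strip r, ‖u e z‖ ≤ 2 * c1 := fun e z hz => (hu.u0 e z hz).trans (by linarith)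
  have hub' : ∀ e, ∀ z ∈ strip r, ‖u e z + v e z‖ ≤ 2 * c1 := fun e z hz => by
    refine (norm_add_le _ _).trans ?_
    linarith [hu.u0 e z hz, hv.u0 e z hz]
  have TB := fun e t (ht : t ∈ band 2 (r - ρ)) => HB al hal r (2 * c1) ρ hr.le hr5 (by linarith) l2 hρ hρ4 (Z e) (X e) (u e)
    (hN e) (hud e) (fun z hz => hub e z (hb1s hz)) t ht
  have TB' := fun e t (ht : t ∈ band 2 (r - ρ)) => HB al hal r (2 * c1) ρ hr.le hr5 (by linarith) l2 hρ hρ4
    (fun z => Z e z + A e z) (fun z => X e z + B e z) (fun z => u e z + v e z)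
    (hN' e) (hud' e) (fun z hz => hub' e z (hb1s hz)) t ht
  have TD := fun e t (ht : t ∈ band 2 (r - ρ)) => HA al hal r D ρ hr.le hr5 hD (by linarith) hρ hρ4 (Z e) (X e) (u e) (A e) (B e) (v e)
    ((hN e).mono l1 le_rfl le_rfl) (hud e) (fun z hz => (hub e z (hb1s hz)).trans l1)
    ((hAB e).mono le_rfl (by linarith) le_rfl) (hvd e) (fun z hz => hv.u0 e z (hb1s hz)) t ht
  set Ker : EE → ℂ → ℂ → ℂ := fun e t s => K0 al t s *
    (Th al (fun z => Z e z + A e z) (fun z => X e z + B e z) (fun z => u e z + v e z) t s - Th al (Z e) (X e) (u e) t s) with hKer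
  set M : ℝ := Cb * (Ca * D) with hM
  have hM0 : 0 ≤ M := by positivity
  have hnhds : ∀ p : ℂ, (p = (al:ℂ) ∨ p = -(al:ℂ)) → ∀ᶠ s in 𝓝[≠] p, s ∈ RR al ρ ∧ s ≠ (al:ℂ) ∧ s ≠ -(al:ℂ) := by
    intro p hp
    have hopen : IsOpen (RR al ρ) := by
      have : RR al ρ = {s : ℂ | |s.re| < al + ρ} ∩ ({s : ℂ | -(1/2) - ρ < s.im} ∩ {s : ℂ | s.im < ρ}) := by
        ext s; rfl
      rw [this]
      exact (isOpen_lt (by fun_prop) continuous_const).inter
        ((isOpen_lt continuous_const continuous_im).inter (isOpen_lt continuous_im continuous_const))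
    have hmem : p ∈ RR al ρ := by
      rcases hp with rfl | rfl
      · refine ⟨?_, ?_, ?_⟩
        · rw [ofReal_re, abs_of_pos hal0]; linarith
        · rw [ofReal_im]; linarith
        · rw [ofReal_im]; linarith
      · refine ⟨?_, ?_, ?_⟩
        · rw [neg_re, ofReal_re, abs_neg, abs_of_pos hal0]; linarith
        · rw [neg_im, ofReal_im]; linarith
        · rw [neg_im, ofReal_im]; linarith
    have hne : (al:ℂ) ≠ -(al:ℂ) := by
      rw [← ofReal_neg]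
      intro h
      have := ofReal_injective h
      linarith
    have h1 : ∀ᶠ s in 𝓝[≠] p, s ∈ RR al ρ := mem_nhdsWithin_of_mem_nhds (hopen.mem_nhds hmem)
    have h2 : ∀ᶠ s in 𝓝[≠] p, s ≠ p := self_mem_nhdsWithin
    have h3 : ∀ q : ℂ, p ≠ q → ∀ᶠ s in 𝓝[≠] p, s ≠ q := fun q hq =>
      mem_nhdsWithin_of_mem_nhds (isOpen_ne.mem_nhds hq)
    rcases hp with rfl | rfl
    · filter_upwards [h1, h2, h3 _ hne] with s a b c using ⟨a, b, c⟩
    · filter_upwards [h1, h2, h3 _ hne.symm] with s a b c using ⟨a, c, b⟩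
  have hKd : ∀ e, ∀ t ∈ band 2 (r - ρ), ∀ s ∈ RR al ρ, s ≠ (al:ℂ) → s ≠ -(al:ℂ) →
      DifferentiableAt ℂ (Ker e t) s ∧ ‖Ker e t s‖ ≤ M := by
    intro e t ht s hs s1 s2
    obtain ⟨p1, -, -, p4, p5⟩ := (TB e t ht).1 s hs s1 s2
    obtain ⟨q1, -, -, -, -⟩ := (TB' e t ht).1 s hs s1 s2
    refine ⟨p4.mul (q1.sub p1), ?_⟩
    have h := TD e t ht s hs s1 s2
    simp only [hKer]
    rw [norm_mul]
    exact mul_le_mul p5 h (norm_nonneg _) (by linarith)
  have hKt : ∀ e, ∀ t ∈ band 2 (r - ρ), Tendsto (Ker e t) (𝓝[≠] (al:ℂ)) (𝓝 0) ∧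
      Tendsto (Ker e t) (𝓝[≠] (-(al:ℂ))) (𝓝 0) := by
    intro e t ht
    obtain ⟨p1, p2⟩ := (TB e t ht).2 (hco e t (hbs ht))
    obtain ⟨q1, q2⟩ := (TB' e t ht).2 (hco' e t (hbs ht))
    have key : ∀ p : ℂ, (p = (al:ℂ) ∨ p = -(al:ℂ)) →
        Tendsto (Th al (Z e) (X e) (u e) t) (𝓝[≠] p) (𝓝 0) →
        Tendsto (Th al (fun z => Z e z + A e z) (fun z => X e z + B e z) (fun z => u e z + v e z) t) (𝓝[≠] p) (𝓝 0) →
        Tendsto (Ker e t) (𝓝[≠] p) (𝓝 0) := by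
      intro p hp h1 h2
      have h3 := (h2.sub h1).norm.const_mul Cb
      rw [sub_zero, norm_zero, mul_zero] at h3
      refine squeeze_zero_norm' ?_ h3
      filter_upwards [hnhds p hp] with s hs
      obtain ⟨-, -, -, -, p5⟩ := (TB e t ht).1 s hs.1 hs.2.1 hs.2.2
      simp only [hKer]
      rw [norm_mul]
      exact mul_le_mul_of_nonneg_right p5 (norm_nonneg _)
    exact ⟨key _ (Or.inl rfl) p1 q1, key _ (Or.inr rfl) p2 q2⟩
  have hKb : ∀ e, ∀ t ∈ band 2 (r - ρ), ∀ s : ℂ, |s.re| ≤ al → -(1/2) ≤ s.im → s.im ≤ 0 → s ≠ (al:ℂ) → s ≠ -(al:ℂ) →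
      DifferentiableAt ℂ (Ker e t) s ∧ ‖Ker e t s‖ ≤ Ce * M / ρ * ‖cos s - (Real.cos al : ℂ)‖ := by
    intro e t ht s s1 s2 s3 s4 s5
    refine ⟨(hKd e t ht s ⟨by linarith, by linarith, by linarith⟩ s4 s5).1, ?_⟩
    exact HE al hal ρ M hρ hρ4 hM0 (Ker e t) (hKd e t ht) (hKt e t ht).1 (hKt e t ht).2 s s1 s2 s3 s4 s5
  -- the integrals
  have hKint : ∀ e (m : ℕ), ∀ t ∈ band 2 (r - ρ),
      (∫ s in (-al)..al, kk al (s:ℂ) ^ 3 * Ker e t (s:ℂ) * PL m (t + (s:ℂ))) =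
      Rop al (fun z => Z e z + A e z) (fun z => X e z + B e z) (fun z => u e z + v e z) (PL m) t -
        Rop al (Z e) (X e) (u e) (PL m) t := by
    intro e m t ht
    have i1 := m10_ii hal hρ (T := Th al (fun z => Z e z + A e z) (fun z => X e z + B e z) (fun z => u e z + v e z) t)
      (K := K0 al t) (M := Cb * (2 * c1)) (M' := Cb) (fun s hs s1 s2 => by
        obtain ⟨p1, p2, -, p4, p5⟩ := (TB' e t ht).1 s hs s1 s2
        exact ⟨p1, p2, p4, p5⟩) (PL_diff m).continuous t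
    have i2 := m10_ii hal hρ (T := Th al (Z e) (X e) (u e) t)
      (K := K0 al t) (M := Cb * (2 * c1)) (M' := Cb) (fun s hs s1 s2 => by
        obtain ⟨p1, p2, -, p4, p5⟩ := (TB e t ht).1 s hs s1 s2
        exact ⟨p1, p2, p4, p5⟩) (PL_diff m).continuous t
    unfold Rop
    rw [← intervalIntegral.integral_sub i1 i2]
    congr 1
    funext s
    simp only [hKer]
    ring
  have FF := fun m : ℕ => HF al hal r hr hr5 Z X u (fun _ => PL m)
    { fZ := hF.fZ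
      fX := hF.fX
      nb := fun e => (hF.nb e).mono (by linarith) le_rfl le_rfl
      sy := hF.sy
      re := hF.re } hu.fu (fun e z hz => ⟨(hub e z hz).trans l3, hu.ue e z hz, hu.up e z hz, hu.ur e z hz⟩)
    (Fam.const (PL_diff m).differentiableOn) (fun e z _ => ⟨PL_neg m z, PL_pi m z, PL_conj m z⟩)
  have FF' := fun m : ℕ => HF al hal r hr hr5 (fun e z => Z e z + A e z) (fun e z => X e z + B e z)
    (fun e z => u e z + v e z) (fun _ => PL m)
    { fZ := hF'.fZ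
      fX := hF'.fX
      nb := fun e => (hF'.nb e).mono (by linarith) le_rfl le_rfl
      sy := hF'.sy
      re := hF'.re } (hu.fu.add hv.fu) (fun e z hz => ⟨(hub' e z hz).trans l3,
        by rw [hu.ue e z hz, hv.ue e z hz], by rw [hu.up e z hz, hv.up e z hz],
        by rw [hu.ur e z hz, hv.ur e z hz, map_add]⟩)
    (Fam.const (PL_diff m).differentiableOn) (fun e z _ => ⟨PL_neg m z, PL_pi m z, PL_conj m z⟩)
  have hsub : band 2 (r - ρ) ⊆ band 1 r := fun t ht => hb1 ht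
  have hadd : ∀ t ∈ band 2 (r - ρ), t + (Real.pi:ℂ) ∈ band 2 (r - ρ) := fun t ht => add_real_mem_band ht _
  have hconj : ∀ t ∈ band 2 (r - ρ), -(starRingEnd ℂ) t ∈ band 2 (r - ρ) := by
    intro t ht
    rw [mem_band] at ht ⊢
    rw [neg_im, conj_im, neg_neg]
    exact ht
  have P1 : ∀ m : ℕ, Fam (band 2 (r - ρ)) (fun e t => ∫ s in (-al)..al, kk al (s:ℂ) ^ 3 * Ker e t (s:ℂ) * PL m (t + (s:ℂ))) := by
    intro m
    refine (((FF' m).1.mono hsub).sub ((FF m).1.mono hsub)).congr ?_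
    intro e t ht
    exact (hKint e m t ht).symm
  have P2 : ∀ e (m : ℕ), EvenExt 2 (r - ρ) (fun t => ∫ s in (-al)..al, kk al (s:ℂ) ^ 3 * Ker e t (s:ℂ) * PL m (t + (s:ℂ))) := by
    intro e m
    have h := (((FF' m).2.2.2.1 e).1.sub ((FF m).2.2.2.1 e).1).mono (a' := 2) (b' := r - ρ) (by norm_num) (by linarith)
    exact h.congr fun t ht => (hKint e m t ht).symm
  have P3 : ∀ e (m : ℕ), ∀ t ∈ band 2 (r - ρ), (∫ s in (-al)..al, kk al (s:ℂ) ^ 3 * Ker e (t + (Real.pi:ℂ)) (s:ℂ) * PL m (t + (Real.pi:ℂ) + (s:ℂ))) =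
      ∫ s in (-al)..al, kk al (s:ℂ) ^ 3 * Ker e t (s:ℂ) * PL m (t + (s:ℂ)) := by
    intro e m t ht
    rw [hKint e m t ht, hKint e m _ (hadd t ht), ((FF' m).2.2.2.2.1 e t (hb1 ht)).1, ((FF m).2.2.2.2.1 e t (hb1 ht)).1]
  have P4 : ∀ e (m : ℕ), ∀ t ∈ band 2 (r - ρ), (∫ s in (-al)..al, kk al (s:ℂ) ^ 3 * Ker e (-(starRingEnd ℂ) t) (s:ℂ) * PL m (-(starRingEnd ℂ) t + (s:ℂ))) =
      (starRingEnd ℂ) (∫ s in (-al)..al, kk al (s:ℂ) ^ 3 * Ker e t (s:ℂ) * PL m (t + (s:ℂ))) := by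
    intro e m t ht
    rw [hKint e m t ht, hKint e m _ (hconj t ht), ((FF' m).2.2.2.2.2 e t (hb1 ht)).1, ((FF m).2.2.2.2.2 e t (hb1 ht)).1, map_sub]
  obtain ⟨Rd, RD, k1, k2, k3, k4⟩ := HK al hal (r - ρ) ρ (Ce * M / ρ) (by linarith) (by linarith) hρ hρ4 (by positivity) Ker hKb P1 P2 P3 P4
  refine ⟨fun e n m => Rm e n m + Rd e n m, fun n m => RM n m + RD n m, ?_⟩
  refine ⟨fun n m => (hRS.c n m).add (k1 n m), fun e n m => ?_, fun r' hr1 hr2 m => ?_, fun e m t ht => ?_⟩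
  · exact (abs_add_le _ _).trans (add_le_add (hRS.m e n m) (k2 e n m))
  · obtain ⟨s1, s2⟩ := hRS.n r' hr1 (by linarith) m
    obtain ⟨s3, s4⟩ := k3 r' hr1 (by linarith) m
    have e : (fun n : ℕ => (1 + 2 * (n:ℝ)) ^ ((7:ℝ)/2) * (RM n m + RD n m) * WW n r') =
        fun n : ℕ => (1 + 2 * (n:ℝ)) ^ ((7:ℝ)/2) * RM n m * WW n r' + (1 + 2 * (n:ℝ)) ^ ((7:ℝ)/2) * RD n m * WW n r' := by
      funext n; ring
    rw [e]
    refine ⟨s1.add s3, ?_⟩
    rw [Summable.tsum_add s1 s3]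
    have hW := m10_WW m r'
    have h5 : Ck * (Ce * M / ρ) * ρ ^ (-(9:ℝ)/2) ≤ max 1 (Ck * (Ce * (Cb * Ca))) * D / ρ ^ 6 := by
      calc Ck * (Ce * M / ρ) * ρ ^ (-(9:ℝ)/2) = (Ck * (Ce * (Cb * Ca))) * D * (ρ ^ (-(9:ℝ)/2) / ρ) := by
            rw [hM]; ring
        _ ≤ (max 1 (Ck * (Ce * (Cb * Ca)))) * D * (1 / ρ ^ 6) := by
            refine mul_le_mul (mul_le_mul_of_nonneg_right (le_max_right _ _) hD) (m10_rpow hρ (by linarith))
              (by positivity) (by positivity)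
        _ = _ := by ring
    calc _ ≤ cR * WW m r' + Ck * (Ce * M / ρ) * ρ ^ (-(9:ℝ)/2) * WW m r' := add_le_add s2 s4
      _ ≤ cR * WW m r' + max 1 (Ck * (Ce * (Cb * Ca))) * D / ρ ^ 6 * WW m r' := by
          gcongr
      _ = _ := by ring
  · have ht' : t ∈ band 2 (r - ρ) := band_subset le_rfl (by linarith) ht
    have h1 := hRS.h e m t (band_subset le_rfl (by linarith) ht)
    have h2 := k4 e m t ht'
    rw [hKint e m t ht'] at h2
    have h3 := h1.add h2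
    have e1 : Rop al (Z e) (X e) (u e) (PL m) t + (Rop al (fun z => Z e z + A e z) (fun z => X e z + B e z)
        (fun z => u e z + v e z) (PL m) t - Rop al (Z e) (X e) (u e) (PL m) t) =
        Rop al (fun z => Z e z + A e z) (fun z => X e z + B e z) (fun z => u e z + v e z) (PL m) t := by ring
    rw [e1] at h3
    refine h3.congr_fun ?_
    intro n
    push_cast
    ring

/-- the same starting from the circle (`Rop = 0`) -/
theorem startR : ∃ c1 C : ℝ, 0 < c1 ∧ 1 ≤ C ∧ ∀ al ∈ JJ, ∀ r c ρ : ℝ, 3 < r → r ≤ 5 → 0 < ρ → ρ ≤ 1/4 → 3 < r - 2 * ρ → 0 ≤ c → c ≤ c1 →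
    ∀ (Z X u : EE → ℂ → ℂ), FC c r Z X → US c r u → (∀ e, ∀ z ∈ strip r, CohEq al (Z e) (X e) (u e) z) →
    ∃ (Rm : EE → ℕ → ℕ → ℝ) (RM : ℕ → ℕ → ℝ), RS al (r - 2 * ρ) (C * c / ρ ^ 6) Z X u Rm RM := by
  obtain ⟨c1, C, hc1, hC, H⟩ := newR
  obtain ⟨cb, Cb, hcb, hCb, HB⟩ := Th_basic 6 (by norm_num)
  refine ⟨c1, C, hc1, hC, ?_⟩
  intro al hal r c ρ hr hr5 hρ hρ4 hrρ hc hcc Z X u hF hu hco
  obtain ⟨ha, -, -, -, -, hs, -⟩ := JJ_bounds hal
  have hal0 : 0 < al := by linarith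
  have hderc : ∀ z : ℂ, deriv cos z = - sin z := fun z => (hasDerivAt_cos z).deriv
  have hders : ∀ z : ℂ, deriv sin z = cos z := fun z => (hasDerivAt_sin z).deriv
  have hZd : ∀ e, ∀ z ∈ strip r, DifferentiableAt ℂ (Z e) z := fun e z hz =>
    ((hF.nb e).dZ.differentiableAt ((isOpen_band (-r) r).mem_nhds hz))
  have hXd : ∀ e, ∀ z ∈ strip r, DifferentiableAt ℂ (X e) z := fun e z hz =>
    ((hF.nb e).dX.differentiableAt ((isOpen_band (-r) r).mem_nhds hz))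
  have eZ : (fun (e : EE) z => cos z + (Z e z - cos z)) = Z := by funext e z; ring
  have eX : (fun (e : EE) z => sin z + (X e z - sin z)) = X := by funext e z; ring
  have eu : (fun (e : EE) z => (0:ℂ) + u e z) = u := by funext e z; ring
  have hcirc : ∀ (e : EE) (m : ℕ), ∀ t ∈ band 2 r, Rop al cos sin (fun _ => 0) (PL m) t = 0 := by
    intro e m t ht
    have hz : ∀ s ∈ Ioo (-al) al, Th al cos sin (fun _ => 0) t (s:ℂ) = 0 := by
      intro s hs
      obtain ⟨m1, m2, m3⟩ := m10_mem (ρ := 1/4) (by norm_num) hs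
      have h := ((HB al hal (r + 1) 0 (1/4) (by linarith) (by linarith) le_rfl hcb.le (by norm_num) le_rfl cos sin (fun _ => 0)
        (NB_circle 1 (r + 1)) (differentiableOn_const _) (fun z _ => by simp) t
        (band_subset le_rfl (by linarith) ht)).1 s m1 m2 m3).2.1
      rw [mul_zero] at h
      exact norm_le_zero_iff.1 h
    unfold Rop
    rw [intervalIntegral.integral_of_le (by linarith), integral_Ioc_eq_integral_Ioo,
      setIntegral_congr_fun (g := fun _ => (0:ℂ)) measurableSet_Ioo]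
    · simp
    · intro s hs
      show kk al (s:ℂ) ^ 3 * (K0 al t (s:ℂ) * Th al cos sin (fun _ => 0) t (s:ℂ)) * PL m (t + (s:ℂ)) = 0
      rw [hz s hs]
      ring
  have h := H al hal r 0 c ρ hr hr5 hρ hρ4 hrρ le_rfl hc hcc (fun _ => cos) (fun _ => sin)
    (fun e z => Z e z - cos z) (fun e z => X e z - sin z) (fun _ _ => 0) u (fun _ _ _ => 0) (fun _ _ => 0)
    (g05_circle c1 r hc1.le)
    (by rw [eZ, eX]
        exact { fZ := hF.fZ
                fX := hF.fX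
                nb := fun e => (hF.nb e).mono hcc le_rfl le_rfl
                sy := hF.sy
                re := hF.re })
    (fun e =>
      { dA := (hF.nb e).dZ.sub differentiable_cos.differentiableOn
        dB := (hF.nb e).dX.sub differentiable_sin.differentiableOn
        a0 := fun z hz => (hF.nb e).z0 z hz
        b0 := fun z hz => (hF.nb e).x0 z hz
        a1 := fun z hz => by
          have h1 : deriv (fun z => Z e z - cos z) z = deriv (Z e) z + sin z := by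
            have h2 : HasDerivAt (fun z => Z e z - cos z) (deriv (Z e) z - -sin z) z :=
              (hZd e z hz).hasDerivAt.sub (hasDerivAt_cos z)
            rw [h2.deriv]; ring
          rw [h1]
          exact (hF.nb e).z1 z hz
        b1 := fun z hz => by
          have h1 : deriv (fun z => X e z - sin z) z = deriv (X e) z - cos z :=
            ((hXd e z hz).hasDerivAt.sub (hasDerivAt_sin z)).deriv
          rw [h1]
          exact (hF.nb e).x1 z hz })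
    { fu := Fam.const (differentiableOn_const _)
      u0 := fun _ _ _ => by simpa using hc1.le
      ue := fun _ _ _ => rfl
      up := fun _ _ _ => rfl
      ur := fun _ _ _ => by simp }
    hu
    (fun e z _ => by
      obtain ⟨-, -, -, -, -, -, -, -, -, -, h1, h2, -⟩ := circle_chord al (by linarith) z
      show (0:ℂ) - 0 = 3/2 * (log (chip al cos sin z) - log (chim al cos sin z))
      rw [h1, h2]; ring)
    (fun e z hz => by
      have e1 : (fun z => cos z + (Z e z - cos z)) = Z e := by funext z; ring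
      have e2 : (fun z => sin z + (X e z - sin z)) = X e := by funext z; ring
      have e3 : (fun z => (0:ℂ) + u e z) = u e := by funext z; ring
      rw [e1, e2, e3]
      exact hco e z hz)
    { c := fun _ _ => continuous_const
      m := fun _ _ _ => by simp
      n := fun r' _ _ m => by
        have e1 : (fun n : ℕ => (1 + 2 * (n:ℝ)) ^ ((7:ℝ)/2) * 0 * WW n r') = fun _ => 0 := by
          funext n; ring
        rw [e1]
        refine ⟨summable_zero, ?_⟩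
        simp
      h := fun e m t ht => by
        rw [hcirc e m t ht]
        have e1 : (fun n : ℕ => (((0:ℝ)) : ℂ) * PL n t) = fun _ => 0 := by
          funext n; simp
        rw [e1]
        exact hasSum_zero }
  rw [eZ, eX, eu, zero_add] at h
  exact h

end FB
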