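import Pool.Agent.H48.FB.M07
import Pool.Agent.H48.FB.M08
import Pool.Agent.H48.FB.M09
import Pool.Agent.H48.FB.M10

/-! M11: the Newton step. -/

open Complex Set MeasureTheory Filter Topology

noncomputable section

namespace FB

/-! ### restriction lemmas -/

theorem m11_strip {r r' : ℝ} (h : r' ≤ r) : strip r' ⊆ strip r := band_subset (by linarith) h

theorem m11_FC {c c' r r' : ℝ} {Z X : EE → ℂ → ℂ} (h : FC c r Z X) (hc : c ≤ c') (hr : r' ≤ r) : FC c' r' Z X where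
  fZ := h.fZ.mono (m11_strip hr)
  fX := h.fX.mono (m11_strip hr)
  nb := fun e => (h.nb e).mono hc (by linarith) hr
  sy := fun e => (h.sy e).mono hr
  re := fun e => (h.re e).mono hr

theorem m11_US {c c' r r' : ℝ} {u : EE → ℂ → ℂ} (h : US c r u) (hc : c ≤ c') (hr : r' ≤ r) : US c' r' u where
  fu := h.fu.mono (m11_strip hr)
  u0 := fun e z hz => (h.u0 e z (m11_strip hr hz)).trans hc
  ue := fun e z hz => h.ue e z (m11_strip hr hz)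
  up := fun e z hz => h.up e z (m11_strip hr hz)
  ur := fun e z hz => h.ur e z (m11_strip hr hz)

theorem m11_US_add {c d r : ℝ} {u v : EE → ℂ → ℂ} (h : US c r u) (h' : US d r v) :
    US (c + d) r (fun e z => u e z + v e z) where
  fu := ⟨h.fu.cont.add h'.fu.cont, fun e => (h.fu.diff e).add (h'.fu.diff e)⟩
  u0 := fun e z hz => (norm_add_le _ _).trans (add_le_add (h.u0 e z hz) (h'.u0 e z hz))
  ue := fun e z hz => by simp only [h.ue e z hz, h'.ue e z hz]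
  up := fun e z hz => by simp only [h.up e z hz, h'.up e z hz]
  ur := fun e z hz => by simp only [h.ur e z hz, h'.ur e z hz, map_add]

theorem m11_RS {al c r r' : ℝ} {Z X u : EE → ℂ → ℂ} {Rm : EE → ℕ → ℕ → ℝ} {RM : ℕ → ℕ → ℝ} (h : RS al r c Z X u Rm RM)
    (hr : r' ≤ r) : RS al r' c Z X u Rm RM where
  c := h.c
  m := h.m
  n := fun s hs hs' => h.n s hs (by linarith)
  h := fun e m t ht => h.h e m t (band_subset le_rfl hr ht)

theorem m11_RS_mono {al c c' r : ℝ} {Z X u : EE → ℂ → ℂ} {Rm : EE → ℕ → ℕ → ℝ} {RM : ℕ → ℕ → ℝ} (h : RS al r c Z X u Rm RM)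
    (hc : c ≤ c') (hW : ∀ m : ℕ, ∀ r' : ℝ, 0 ≤ WW m r') : RS al r c' Z X u Rm RM where
  c := h.c
  m := h.m
  n := fun s hs hs' m => ⟨(h.n s hs hs' m).1, (h.n s hs hs' m).2.trans (mul_le_mul_of_nonneg_right hc (hW m s))⟩
  h := h.h

theorem m11_Ap {al c c' r r' E E' : ℝ} {Z X : EE → ℂ → ℂ} {V0 mu : EE → ℝ} (h : Ap al r c E Z X V0 mu)
    (hc : c ≤ c') (hE : E ≤ E') (hr : r' ≤ r) : Ap al r' c' E' Z X V0 mu where
  fc := m11_FC h.fc hc hr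
  vc := h.vc
  mc := h.mc
  vb := fun e => (h.vb e).trans hc
  mb := fun e => (h.mb e).trans hc
  eS := fun e t ht => (h.eS e t (band_subset le_rfl hr ht)).trans hE
  eV := fun e t ht => (h.eV e t (band_subset le_rfl hr ht)).trans hE

theorem m11_WW (m : ℕ) (r : ℝ) : 0 ≤ WW m r := by
  unfold WW cc
  positivity

/-! ### the sum -/

/-- `∑ (m+1) e^{-(m+1) x} ≤ 4/x^2` for `0 < x ≤ 1/2` -/
theorem m11_sum {x : ℝ} (h0 : 0 < x) (h1 : x ≤ 1/2) :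
    Summable (fun m : ℕ => ((m:ℝ) + 1) * Real.exp (-(((m:ℝ) + 1) * x))) ∧
      ∑' m : ℕ, ((m:ℝ) + 1) * Real.exp (-(((m:ℝ) + 1) * x)) ≤ 4 / x ^ 2 := by
  set q : ℝ := Real.exp (-x) with hq
  have hq0 : 0 < q := Real.exp_pos _
  have hq1 : q < 1 := by rw [hq, ← Real.exp_zero]; exact Real.exp_lt_exp.2 (by linarith)
  have hqx : q ≤ 1 - x / 2 := by
    have h := Real.abs_exp_sub_one_sub_id_le (x := -x) (by rw [abs_neg, abs_of_pos h0]; linarith)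
    have h2 := (abs_le.1 h).2
    nlinarith
  have hs : HasSum (fun n : ℕ => (n:ℝ) * q ^ n) (q / (1 - q) ^ 2) :=
    hasSum_coe_mul_geometric_of_norm_lt_one (by rw [Real.norm_eq_abs, abs_of_pos hq0]; exact hq1)
  have hs' : HasSum (fun m : ℕ => ((m + 1 : ℕ):ℝ) * q ^ (m + 1)) (q / (1 - q) ^ 2) := by
    have := (hasSum_nat_add_iff' (f := fun n : ℕ => (n:ℝ) * q ^ n) 1).2 hs
    simpa using this
  have e : (fun m : ℕ => ((m:ℝ) + 1) * Real.exp (-(((m:ℝ) + 1) * x))) = fun m : ℕ => ((m + 1 : ℕ):ℝ) * q ^ (m + 1) := by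
    funext m
    rw [hq, ← Real.exp_nat_mul]
    push_cast
    congr 2
    ring
  rw [e]
  refine ⟨hs'.summable, ?_⟩
  rw [hs'.tsum_eq]
  have h3 : x / 2 ≤ 1 - q := by linarith
  have h4 : (x / 2) ^ 2 ≤ (1 - q) ^ 2 := pow_le_pow_left₀ (by positivity) h3 2
  rw [div_le_div_iff₀ (by nlinarith) (by positivity)]
  nlinarith

/-! ### numerical bounds -/

theorem m11_one {a b : ℝ} (ha : 1 ≤ a) (hb : 1 ≤ b) : 1 ≤ a * b := one_le_mul_of_one_le_of_one_le ha hb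

theorem m11_num {bd : ℕ} {Cd Cr Cu Ce κ κ2 ρ E : ℝ} (hCd : 1 ≤ Cd) (hCr : 1 ≤ Cr) (hCu : 1 ≤ Cu) (hCe : 1 ≤ Ce)
    (k0 : 0 < κ) (k1 : κ ≤ 1) (l0 : 0 < κ2) (l1 : κ2 ≤ 1) (r0 : 0 < ρ) (r1 : ρ ≤ 1/2) (hE : 0 ≤ E) (C D W Q : ℝ)
    (hC : C = 17 * 8 ^ 6 * Cr * Cu * Ce * (Cd * 2 ^ bd) ^ 2)
    (hD : D = Cd * E / (κ * κ2 * (ρ / 2)) ^ bd)
    (hW : W = 16 / (κ2 * ρ ^ 2))
    (hQ : Q = C * E / (κ * κ2 * ρ) ^ (2 * bd + 8)) :
    1 ≤ C ∧ 0 ≤ D ∧ E ≤ Q ∧ D ≤ Q ∧ D + Cu * D * W ≤ Q ∧ Cr * (D + Cu * D * W) / (ρ / 8) ^ 6 ≤ Q ∧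
    Ce * (D ^ 2 + D * E / (ρ / 2) + Cd * E ^ 2 / (κ * κ2 * (ρ / 2)) ^ bd) ≤ C * E ^ 2 / (κ * κ2 * ρ) ^ (2 * bd + 8) := by
  obtain ⟨x, hx⟩ : ∃ x, x = κ * κ2 * ρ := ⟨_, rfl⟩
  obtain ⟨K, hK⟩ : ∃ K, K = Cd * 2 ^ bd := ⟨_, rfl⟩
  have h2 : (1:ℝ) ≤ 2 ^ bd := one_le_pow₀ (by norm_num)
  have hK1 : 1 ≤ K := by rw [hK]; exact m11_one hCd h2
  have kk0 : 0 < κ * κ2 := mul_pos k0 l0
  have kk1 : κ * κ2 ≤ 1 := mul_le_one₀ k1 l0.le l1
  have hx0 : 0 < x := by rw [hx]; positivity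
  have hxr : x ≤ ρ := by rw [hx]; exact mul_le_of_le_one_left r0.le kk1
  have hx1 : x ≤ 1 := by linarith
  obtain ⟨p, hp⟩ : ∃ p, p = x⁻¹ := ⟨_, rfl⟩
  have hp0 : 0 < p := by rw [hp]; positivity
  have hp1 : 1 ≤ p := by rw [hp]; exact (one_le_inv₀ hx0).2 hx1
  have hrp : ρ⁻¹ ≤ p := by rw [hp]; exact inv_anti₀ hx0 hxr
  have hr0 : 0 < ρ⁻¹ := by positivity
  have e1 : (κ * κ2 * (ρ / 2)) ^ bd = x ^ bd / 2 ^ bd := by
    rw [← div_pow, hx]; congr 1; ring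
  have eD : D = K * E * p ^ bd := by
    rw [hD, e1, hK, hp, inv_pow]
    field_simp
  have eE2 : Cd * E ^ 2 / (κ * κ2 * (ρ / 2)) ^ bd = K * E ^ 2 * p ^ bd := by
    rw [e1, hK, hp, inv_pow]
    field_simp
  have eQ : Q = C * E * p ^ (2 * bd + 8) := by
    rw [hQ, ← hx, hp, inv_pow, div_eq_mul_inv]
  have eQ2 : C * E ^ 2 / (κ * κ2 * ρ) ^ (2 * bd + 8) = C * E ^ 2 * p ^ (2 * bd + 8) := by
    rw [← hx, hp, inv_pow, div_eq_mul_inv]
  have hW1 : W ≤ 16 * p ^ 2 := by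
    rw [hW, div_eq_mul_inv]
    have : (κ2 * ρ ^ 2)⁻¹ ≤ p ^ 2 := by
      rw [hp]
      have h : x ^ 2 ≤ κ2 * ρ ^ 2 := by
        rw [hx]
        have h3 : κ ^ 2 * κ2 ≤ 1 := mul_le_one₀ (pow_le_one₀ k0.le k1) l0.le l1
        have h4 := mul_le_mul_of_nonneg_right h3 (show (0:ℝ) ≤ κ2 * ρ ^ 2 by positivity)
        linarith
      rw [inv_pow]
      exact inv_anti₀ (by positivity) h
    linarith
  have hW0 : 0 ≤ W := by rw [hW]; positivity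
  have hpm : ∀ {i j : ℕ}, i ≤ j → p ^ i ≤ p ^ j := fun h => pow_le_pow_right₀ hp1 h
  have hCC : C = 17 * 8 ^ 6 * (Cr * Cu * (Ce * K ^ 2)) := by rw [hC, hK]; ring
  have hK2 : 1 ≤ K ^ 2 := one_le_pow₀ hK1
  have hrr : 1 ≤ Cr * Cu := m11_one hCr hCu
  have hee : 1 ≤ Ce * K ^ 2 := m11_one hCe hK2
  have hC1 : 1 ≤ C := by
    rw [hCC]
    exact m11_one (by norm_num) (m11_one hrr hee)
  have hD0 : 0 ≤ D := by rw [eD]; positivity
  -- main bounds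
  have hS : D + Cu * D * W ≤ 17 * Cu * K * E * p ^ (bd + 2) := by
    have h3 : D ≤ Cu * (K * E * p ^ (bd + 2)) := by
      rw [eD]
      have h4 := hpm (i := bd) (j := bd + 2) (by omega)
      have h5 : K * E * p ^ bd ≤ K * E * p ^ (bd + 2) := mul_le_mul_of_nonneg_left h4 (by positivity)
      have h6 : 0 ≤ K * E * p ^ (bd + 2) := by positivity
      have h7 := le_mul_of_one_le_left h6 hCu
      linarith
    have h7 : Cu * D * W ≤ Cu * D * (16 * p ^ 2) := mul_le_mul_of_nonneg_left hW1 (by positivity)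
    have h8 : Cu * D * (16 * p ^ 2) = 16 * (Cu * (K * E * p ^ (bd + 2))) := by
      rw [eD, pow_add]; ring
    linarith
  have hS0 : 0 ≤ D + Cu * D * W := by positivity
  have hR : Cr * (D + Cu * D * W) / (ρ / 8) ^ 6 ≤ Q := by
    have h3 : Cr * (D + Cu * D * W) / (ρ / 8) ^ 6 = Cr * (D + Cu * D * W) * 8 ^ 6 * (ρ⁻¹) ^ 6 := by
      rw [inv_pow, div_pow]; field_simp
    have h4 : (ρ⁻¹) ^ 6 ≤ p ^ 6 := pow_le_pow_left₀ hr0.le hrp 6
    have h5 : Cr * (D + Cu * D * W) * 8 ^ 6 * (ρ⁻¹) ^ 6 ≤ Cr * (D + Cu * D * W) * 8 ^ 6 * p ^ 6 :=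
      mul_le_mul_of_nonneg_left h4 (by positivity)
    have h6 : Cr * 8 ^ 6 * p ^ 6 * (D + Cu * D * W) ≤ Cr * 8 ^ 6 * p ^ 6 * (17 * Cu * K * E * p ^ (bd + 2)) :=
      mul_le_mul_of_nonneg_left hS (show (0:ℝ) ≤ Cr * 8 ^ 6 * p ^ 6 by positivity)
    have h7 : Cr * 8 ^ 6 * p ^ 6 * (17 * Cu * K * E * p ^ (bd + 2)) = (17 * 8 ^ 6 * (Cr * Cu * K)) * (E * p ^ (bd + 8)) := by
      rw [pow_add, pow_add]; ring
    have h8 : E * p ^ (bd + 8) ≤ E * p ^ (2 * bd + 8) :=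
      mul_le_mul_of_nonneg_left (hpm (by omega)) (by positivity)
    have h9 : (17 * 8 ^ 6 * (Cr * Cu * K)) ≤ C := by
      rw [hCC]
      have h10 : K ≤ Ce * K ^ 2 := by
        have := m11_one hCe hK1
        have h11 := mul_le_mul_of_nonneg_right this (show (0:ℝ) ≤ K by linarith)
        linarith
      have h12 := mul_le_mul_of_nonneg_left h10 (show (0:ℝ) ≤ Cr * Cu by linarith)
      linarith
    have h10 : (17 * 8 ^ 6 * (Cr * Cu * K)) * (E * p ^ (bd + 8)) ≤ C * (E * p ^ (2 * bd + 8)) :=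
      mul_le_mul h9 h8 (by positivity) (by linarith)
    rw [h3, eQ]
    linarith
  have hSQ : D + Cu * D * W ≤ Q := by
    refine le_trans ?_ hR
    rw [le_div_iff₀ (by positivity)]
    have h3 : (ρ / 8) ^ 6 ≤ 1 := pow_le_one₀ (by positivity) (by linarith)
    have h4 := mul_le_mul_of_nonneg_left h3 hS0
    have h5 := le_mul_of_one_le_left hS0 hCr
    linarith
  have hDQ : D ≤ Q := by
    refine le_trans ?_ hSQ
    have : 0 ≤ Cu * D * W := by positivity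
    linarith
  have hEQ : E ≤ Q := by
    rw [eQ]
    have h3 : 1 ≤ p ^ (2 * bd + 8) := one_le_pow₀ hp1
    have h4 : 1 ≤ C * p ^ (2 * bd + 8) := m11_one hC1 h3
    have h5 := le_mul_of_one_le_left hE h4
    linarith
  refine ⟨hC1, hD0, hEQ, hDQ, hSQ, hR, ?_⟩
  rw [eE2, eQ2, eD]
  have h3 : K * E * p ^ bd * E / (ρ / 2) = 2 * K * E ^ 2 * p ^ bd * ρ⁻¹ := by field_simp
  rw [h3]
  have h4 : 2 * K * E ^ 2 * p ^ bd * ρ⁻¹ ≤ 2 * K * E ^ 2 * p ^ bd * p := mul_le_mul_of_nonneg_left hrp (by positivity)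
  have h5 : 2 * K * E ^ 2 * p ^ bd * p = 2 * K * E ^ 2 * p ^ (bd + 1) := by rw [pow_succ]; ring
  have h6 : 2 * K * E ^ 2 * p ^ (bd + 1) ≤ 2 * K * E ^ 2 * p ^ (2 * bd + 8) := mul_le_mul_of_nonneg_left (hpm (by omega)) (by positivity)
  have h7 : K * E ^ 2 * p ^ bd ≤ K * E ^ 2 * p ^ (2 * bd + 8) := mul_le_mul_of_nonneg_left (hpm (by omega)) (by positivity)
  have h8 : (K * E * p ^ bd) ^ 2 = K ^ 2 * E ^ 2 * p ^ (2 * bd) := by rw [mul_pow, mul_pow, ← pow_mul, mul_comm bd 2]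
  have h9 : K ^ 2 * E ^ 2 * p ^ (2 * bd) ≤ K ^ 2 * E ^ 2 * p ^ (2 * bd + 8) := mul_le_mul_of_nonneg_left (hpm (by omega)) (by positivity)
  have h10 : (K * E * p ^ bd) ^ 2 + 2 * K * E ^ 2 * p ^ bd * ρ⁻¹ + K * E ^ 2 * p ^ bd ≤ (K ^ 2 + 3 * K) * (E ^ 2 * p ^ (2 * bd + 8)) := by
    rw [h8]; linarith
  have hKK : K ≤ K ^ 2 := by
    have := le_mul_of_one_le_left (show (0:ℝ) ≤ K by linarith) hK1
    linarith
  have h11 : (K ^ 2 + 3 * K) ≤ 4 * K ^ 2 := by linarith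
  have h12 : 0 ≤ E ^ 2 * p ^ (2 * bd + 8) := by positivity
  have h13 : Ce * ((K * E * p ^ bd) ^ 2 + 2 * K * E ^ 2 * p ^ bd * ρ⁻¹ + K * E ^ 2 * p ^ bd) ≤ Ce * (4 * K ^ 2 * (E ^ 2 * p ^ (2 * bd + 8))) := by
    apply mul_le_mul_of_nonneg_left _ (by linarith)
    exact h10.trans (mul_le_mul_of_nonneg_right h11 h12)
  refine h13.trans ?_
  have h14 : Ce * (4 * K ^ 2) ≤ C := by
    rw [hCC]
    have a3 : Ce * K ^ 2 ≤ Cr * Cu * (Ce * K ^ 2) := le_mul_of_one_le_left (by linarith) hrr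
    linarith
  have := mul_le_mul_of_nonneg_right h14 h12
  linarith

/-- `direction` with `ρ/2`, `newErr` (giving `Ap` on `strip (r - ρ/2)`), `cohU` from `strip (r - ρ/2)` to `strip (r - 3ρ/4)` with `s m = κ2/m`
(`W = (1/κ2) ∑ (m+1) e^{-(m+1)ρ/2} ≤ C/(κ2 ρ^2)`), `newR` on `strip (r - 3ρ/4)` with `ρ/8`. All pieces restricted to `strip (r - ρ)`. The exponent `b` and the
constant are enlarged. (`3 < r - ρ` is needed for `newR`; the conclusion is on `strip (r - ρ)`.) -/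
theorem step : ∃ c1 C : ℝ, ∃ b : ℕ, 0 < c1 ∧ 1 ≤ C ∧ ∀ al ∈ JJ, ∀ κ κ2 : ℝ, LB al κ κ2 → ∀ r cA cR E ρ : ℝ, r ≤ 4 →
    0 < ρ → ρ ≤ 1/2 → 3 < r - ρ → 0 ≤ cA → cA ≤ c1 * κ → 0 ≤ cR → cR ≤ c1 * κ → 0 ≤ E → C * E / (κ * κ2 * ρ) ^ b ≤ c1 * κ →
    ∀ (Z X u : EE → ℂ → ℂ) (Rm : EE → ℕ → ℕ → ℝ) (RM : ℕ → ℕ → ℝ) (V0 mu : EE → ℝ), St al r cA cR E Z X u Rm RM V0 mu →
    ∃ (Z' X' u' : EE → ℂ → ℂ) (Rm' : EE → ℕ → ℕ → ℝ) (RM' : ℕ → ℕ → ℝ) (V0' mu' : EE → ℝ),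
      St al (r - ρ) (cA + C * E / (κ * κ2 * ρ) ^ b) (cR + C * E / (κ * κ2 * ρ) ^ b) (C * E ^ 2 / (κ * κ2 * ρ) ^ b) Z' X' u' Rm' RM' V0' mu' ∧
      (∀ e, ∀ z ∈ strip (r - ρ), ‖Z' e z - Z e z‖ ≤ C * E / (κ * κ2 * ρ) ^ b ∧ ‖X' e z - X e z‖ ≤ C * E / (κ * κ2 * ρ) ^ b) ∧
      (∀ e, |V0' e - V0 e| ≤ C * E / (κ * κ2 * ρ) ^ b ∧ |mu' e - mu e| ≤ C * E / (κ * κ2 * ρ) ^ b) := by
  obtain ⟨c1d, Cd, bd, hc1d, hCd, hdir⟩ := direction
  obtain ⟨c1e, Ce, hc1e, hCe, herr⟩ := newErr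
  obtain ⟨c0, Cu, hc0, hCu, hcoh⟩ := cohU 4 (by norm_num)
  obtain ⟨c1r, Cr, hc1r, hCr, hnew⟩ := newR
  obtain ⟨c1, hc1, h1d, h1e, h10, h1r, h11⟩ : ∃ c1 : ℝ, 0 < c1 ∧ c1 ≤ c1d ∧ c1 ≤ c1e ∧ 2 * c1 ≤ c0 ∧ 2 * c1 ≤ c1r ∧ c1 ≤ 1 := by
    refine ⟨min (min c1d c1e) (min (min (c0 / 2) (c1r / 2)) 1), by positivity, ?_, ?_, ?_, ?_, ?_⟩
    · exact (min_le_left _ _).trans (min_le_left _ _)
    · exact (min_le_left _ _).trans (min_le_right _ _)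
    · have := ((min_le_right (min c1d c1e) (min (min (c0 / 2) (c1r / 2)) 1)).trans (min_le_left _ _)).trans (min_le_left _ _)
      linarith
    · have := ((min_le_right (min c1d c1e) (min (min (c0 / 2) (c1r / 2)) 1)).trans (min_le_left _ _)).trans (min_le_right _ _)
      linarith
    · exact (min_le_right _ _).trans (min_le_right _ _)
  obtain ⟨C, hC⟩ : ∃ C, C = 17 * 8 ^ 6 * Cr * Cu * Ce * (Cd * 2 ^ bd) ^ 2 := ⟨_, rfl⟩
  have hC1 : 1 ≤ C := (m11_num (bd := bd) hCd hCr hCu hCe (κ := 1) (κ2 := 1) (ρ := 1/2) (E := 0) (by norm_num) le_rfl (by norm_num) le_rfl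
    (by norm_num) le_rfl le_rfl C _ _ _ hC rfl rfl rfl).1
  refine ⟨c1, C, 2 * bd + 8, hc1, hC1, ?_⟩
  intro al hal κ κ2 hLB r cA cR E ρ hr4 hρ0 hρ1 hr3 hcA0 hcA hcR0 hcR hE0 hsm Z X u Rm RM V0 mu hSt
  obtain ⟨D, hD⟩ : ∃ D, D = Cd * E / (κ * κ2 * (ρ / 2)) ^ bd := ⟨_, rfl⟩
  obtain ⟨E2, hE2⟩ : ∃ E2, E2 = Cd * E ^ 2 / (κ * κ2 * (ρ / 2)) ^ bd := ⟨_, rfl⟩
  obtain ⟨W, hW⟩ : ∃ W, W = 16 / (κ2 * ρ ^ 2) := ⟨_, rfl⟩
  obtain ⟨Q, hQ⟩ : ∃ Q, Q = C * E / (κ * κ2 * ρ) ^ (2 * bd + 8) := ⟨_, rfl⟩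
  have k0 := hLB.k0
  have k1 := hLB.k1
  have l0 := hLB.l0
  have l1 := hLB.l1
  obtain ⟨-, hD0, hEQ, hDQ, hSQ, hRQ, hErr⟩ := m11_num (bd := bd) hCd hCr hCu hCe k0 k1 l0 l1 hρ0 hρ1 hE0 C D W Q hC hD hW hQ
  rw [← hE2] at hErr
  rw [← hQ] at hsm ⊢
  have hκc : c1 * κ ≤ c1 := mul_le_of_le_one_right hc1.le k1
  have hcA1 : cA ≤ c1 := hcA.trans hκc
  have hcR1 : cR ≤ c1 := hcR.trans hκc
  have hQc : Q ≤ c1 := hsm.trans hκc
  have hW0 : 0 ≤ W := by rw [hW]; positivity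
  have hS0 : 0 ≤ D + Cu * D * W := by positivity
  have hE20 : 0 ≤ E2 := by rw [hE2]; positivity
  -- direction
  obtain ⟨A, B, dV, dm, hdS⟩ := hdir al hal κ κ2 hLB r cA cR E (ρ / 2) (by linarith) hr4 (by linarith) (by linarith) (by linarith) hcA0
    (hcA.trans (mul_le_mul_of_nonneg_right h1d k0.le)) hcR0 (hcR.trans (mul_le_mul_of_nonneg_right h1d k0.le)) hE0 (by linarith)
    Z X u Rm RM V0 mu hSt
  rw [← hD, ← hE2] at hdS
  -- new errors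
  have hAp := herr al hal r cA E (ρ / 2) D E2 (by linarith) (by linarith) (by linarith) (by linarith) (by linarith) hcA0 (by linarith) hE0
    (by linarith) hD0 (by linarith) hE20 Z X A B V0 mu dV dm hSt.ap hdS
  -- the new u
  have hsin : ∀ m : ℕ, 1 ≤ m → 0 < κ2 / m ∧ κ2 / m ≤ |Real.sin (2 * m * al)| := by
    intro m hm
    refine ⟨div_pos l0 (by exact_mod_cast hm), hLB.hs m hm⟩
  have hsum := m11_sum (x := ρ / 2) (by linarith) (by linarith)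
  have eterm : ∀ m : ℕ, Real.exp (-(2 * ((m:ℝ) + 1) * ((r - ρ / 2) - (r - 3 * ρ / 4)))) / (κ2 / ((m + 1 : ℕ) : ℝ)) =
      κ2⁻¹ * (((m:ℝ) + 1) * Real.exp (-(((m:ℝ) + 1) * (ρ / 2)))) := by
    intro m
    have e1 : 2 * ((m:ℝ) + 1) * ((r - ρ / 2) - (r - 3 * ρ / 4)) = ((m:ℝ) + 1) * (ρ / 2) := by ring
    rw [e1]
    push_cast
    field_simp
  obtain ⟨v, hv, hvc⟩ := hcoh al hal (fun m => κ2 / m) hsin (r - ρ / 2) (r - 3 * ρ / 4) D W (by linarith) (by linarith) (by linarith) hD0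
    (by linarith) (by simp only [eterm]; exact hsum.1.mul_left _)
    (by
      simp only [eterm]
      rw [tsum_mul_left, hW]
      have h := mul_le_mul_of_nonneg_left hsum.2 (show (0:ℝ) ≤ κ2⁻¹ by positivity)
      refine h.trans (le_of_eq ?_)
      field_simp
      norm_num)
    Z X A B (m11_FC hSt.ap.fc (by linarith) (by linarith)) (m11_FC hAp.fc (by linarith) le_rfl) hdS.bd
  -- the new matrix
  have hDS : D ≤ D + Cu * D * W := by have : 0 ≤ Cu * D * W := by positivity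
                                      linarith
  have hcoh2 : ∀ e, ∀ z ∈ strip (r - 3 * ρ / 4), CohEq al (fun z => Z e z + A e z) (fun z => X e z + B e z) (fun z => u e z + v e z) z := by
    intro e z hz
    have h1 := hSt.uc e z (m11_strip (by linarith) hz)
    have h2 := hvc e z hz
    unfold CohEq at h1 ⊢
    linear_combination h1 + h2
  obtain ⟨Rm', RM', hRS⟩ := hnew al hal (r - 3 * ρ / 4) cR (D + Cu * D * W) (ρ / 8) (by linarith) (by linarith) (by linarith) (by linarith)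
    (by linarith) hcR0 hS0 (by linarith) Z X A B u v Rm RM (m11_FC hSt.ap.fc (by linarith) (by linarith))
    (m11_FC hAp.fc (by linarith) (by linarith)) (fun e => (hdS.bd e).mono hDS (by linarith) (by linarith))
    (m11_US hSt.us (by linarith) (by linarith)) (m11_US hv (by linarith) le_rfl)
    (fun e z hz => hSt.uc e z (m11_strip (by linarith) hz)) hcoh2 (m11_RS hSt.rs (by linarith))
  have er : r - 3 * ρ / 4 - 2 * (ρ / 8) = r - ρ := by ring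
  rw [er] at hRS
  refine ⟨fun e z => Z e z + A e z, fun e z => X e z + B e z, fun e z => u e z + v e z, Rm', RM', fun e => V0 e + dV e,
    fun e => mu e + dm e, ⟨m11_Ap hAp (by linarith) hErr (by linarith), ?_, ?_, m11_RS_mono hRS (by linarith) m11_WW⟩, ?_, ?_⟩
  · refine m11_US (m11_US_add (m11_US hSt.us le_rfl (by linarith)) hv) ?_ (by linarith)
    linarith
  · intro e z hz
    exact hcoh2 e z (m11_strip (by linarith) hz)
  · intro e z hz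
    have hz' : z ∈ band (-(r - ρ / 2)) (r - ρ / 2) := m11_strip (by linarith) hz
    simp only [add_sub_cancel_left]
    exact ⟨((hdS.bd e).a0 z hz').trans hDQ, ((hdS.bd e).b0 z hz').trans hDQ⟩
  · intro e
    simp only [add_sub_cancel_left]
    exact ⟨(hdS.bV e).trans hDQ, (hdS.bm e).trans hDQ⟩

end FB
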