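import Pool.Agent.H48.FB.EDefs
import Pool.Agent.H48.FB.K02

/-! Structures for the Newton iteration. -/

open Complex Set MeasureTheory Filter Topology

noncomputable section

namespace FB

/-- lower bounds for the divisors (polynomial) -/
structure LB (al κ κ2 : ℝ) : Prop where
  k0 : 0 < κ
  k1 : κ ≤ 1
  l0 : 0 < κ2
  l1 : κ2 ≤ 1
  hl : ∀ n : ℕ, n ≠ 2 → κ * (1 + 2 * (n:ℝ)) ^ (-(7:ℝ)/2) ≤ |lam al n|
  hs : ∀ k : ℕ, 1 ≤ k → κ2 / k ≤ |Real.sin (2 * k * al)|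

/-- lower bounds for the divisors (exponential) -/
structure EB (al c b : ℝ) : Prop where
  c0 : 0 < c
  b0 : 1 ≤ b
  hl : ∀ n : ℕ, n ≠ 2 → c * Real.exp (-(b * n)) ≤ |lam al n|
  hs : ∀ k : ℕ, 1 ≤ k → c * Real.exp (-(b * k)) ≤ |Real.sin (2 * k * al)|

/-- the part of the state about `u`: bounded by `c`, even, periodic, real -/
structure US (c r : ℝ) (u : EE → ℂ → ℂ) : Prop where
  fu : Fam (strip r) u
  u0 : ∀ e, ∀ z ∈ strip r, ‖u e z‖ ≤ c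
  ue : ∀ e, ∀ z ∈ strip r, u e (-z) = u e z
  up : ∀ e, ∀ z ∈ strip r, u e (z + (Real.pi:ℂ)) = u e z
  ur : ∀ e, ∀ z ∈ strip r, u e ((starRingEnd ℂ) z) = (starRingEnd ℂ) (u e z)

/-- the part of the state about the Legendre matrix of `Rop` -/
structure RS (al r cR : ℝ) (Z X u : EE → ℂ → ℂ) (Rm : EE → ℕ → ℕ → ℝ) (RM : ℕ → ℕ → ℝ) : Prop where
  c : ∀ n m, Continuous (fun e => Rm e n m)
  m : ∀ e n m, |Rm e n m| ≤ RM n m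
  n : ∀ r' : ℝ, 5/2 ≤ r' → r' < r → ∀ m : ℕ, Summable (fun n : ℕ => (1 + 2 * (n:ℝ)) ^ ((7:ℝ)/2) * RM n m * WW n r') ∧
        ∑' n : ℕ, (1 + 2 * (n:ℝ)) ^ ((7:ℝ)/2) * RM n m * WW n r' ≤ cR * WW m r'
  h : ∀ e (m : ℕ), ∀ t ∈ band 2 r, HasSum (fun n => ((Rm e n m : ℝ) : ℂ) * PL n t) (Rop al (Z e) (X e) (u e) (PL m) t)

/-- approximate solution -/
structure Ap (al r cA E : ℝ) (Z X : EE → ℂ → ℂ) (V0 mu : EE → ℝ) : Prop where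
  fc : FC cA r Z X
  vc : Continuous V0
  mc : Continuous mu
  vb : ∀ e, |V0 e - Vs al| ≤ cA
  mb : ∀ e, |mu e| ≤ cA
  eS : ∀ e, ∀ t ∈ band 1 r, ‖SS al (V0 e) (mu e) (Z e) (X e) t‖ ≤ E
  eV : ∀ e, ∀ t ∈ band 1 r, ‖Vf al (Z e) (X e) t - (V0 e : ℂ)‖ ≤ E

/-- full state of the Newton iteration -/
structure St (al r cA cR E : ℝ) (Z X u : EE → ℂ → ℂ) (Rm : EE → ℕ → ℕ → ℝ) (RM : ℕ → ℕ → ℝ) (V0 mu : EE → ℝ) : Prop where
  ap : Ap al r cA E Z X V0 mu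
  us : US cA r u
  uc : ∀ e, ∀ z ∈ strip r, CohEq al (Z e) (X e) (u e) z
  rs : RS al r cR Z X u Rm RM

end FB
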