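import Pool.Agent.H48.FB.M11
import Pool.Agent.H48.FB.A08

/-! N01: the Newton iteration and its limit. -/

open Complex Set MeasureTheory Filter Topology

noncomputable section

namespace FB

namespace N01

/-- widths -/
def ro (j : ℕ) : ℝ := (1/2) ^ (j+1)
def rr (j : ℕ) : ℝ := 3 + (1/2) ^ j

def Es (C q E : ℝ) (b : ℕ) : ℕ → ℝ
  | 0 => E
  | j+1 => C * (Es C q E b j) ^ 2 / (q * ro j) ^ b

def Ds (C q E : ℝ) (b : ℕ) (j : ℕ) : ℝ := C * Es C q E b j / (q * ro j) ^ b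

theorem ro_pos (j : ℕ) : 0 < ro j := by unfold ro; positivity
theorem ro_le (j : ℕ) : ro j ≤ 1/2 := by
  unfold ro
  calc (1/2 : ℝ) ^ (j+1) ≤ (1/2) ^ 1 := pow_le_pow_of_le_one (by norm_num) (by norm_num) (by omega)
    _ = 1/2 := by norm_num
theorem rr_sub (j : ℕ) : rr j - ro j = rr (j+1) := by unfold rr ro; ring
theorem rr_gt (j : ℕ) : 3 < rr j := by unfold rr; have : (0:ℝ) < (1/2) ^ j := by positivity
                                       linarith
theorem rr_le (j : ℕ) : rr j ≤ 4 := by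
  unfold rr
  have : (1/2 : ℝ) ^ j ≤ 1 := pow_le_one₀ (by norm_num) (by norm_num)
  linarith

variable {C q E : ℝ} {b : ℕ}

theorem Es_nonneg (hC : 0 ≤ C) (hq : 0 < q) (hE : 0 ≤ E) (j : ℕ) : 0 ≤ Es C q E b j := by
  induction j with
  | zero => exact hE
  | succ j ih =>
    rw [Es]
    have := ro_pos j
    positivity

theorem Ds_nonneg (hC : 0 ≤ C) (hq : 0 < q) (hE : 0 ≤ E) (j : ℕ) : 0 ≤ Ds C q E b j := by
  have := ro_pos j
  have := Es_nonneg (b := b) hC hq hE j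
  rw [Ds]
  positivity

theorem Ds_succ (hq : 0 < q) (j : ℕ) : Ds C q E b (j+1) = 2 ^ b * (Ds C q E b j) ^ 2 := by
  have h1 := ro_pos j
  have h2 : q * ro (j+1) = (q * ro j) / 2 := by unfold ro; ring
  rw [Ds, Ds, Es, h2, div_pow]
  have h3 : (q * ro j) ^ b ≠ 0 := by positivity
  field_simp

theorem Ds_le (hC : 0 ≤ C) (hq : 0 < q) (hE : 0 ≤ E) (h : 2 ^ b * Ds C q E b 0 ≤ 1/2) (j : ℕ) :
    Ds C q E b j ≤ Ds C q E b 0 * (1/2) ^ j := by
  have h0 := Ds_nonneg (b := b) hC hq hE 0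
  induction j with
  | zero => simp
  | succ j ih =>
    have hj := Ds_nonneg (b := b) hC hq hE j
    have h1 : Ds C q E b j ≤ Ds C q E b 0 := by
      refine ih.trans (mul_le_of_le_one_right h0 (pow_le_one₀ (by norm_num) (by norm_num)))
    rw [Ds_succ hq, pow_succ]
    have h2 : (2:ℝ) ^ b * Ds C q E b j ≤ 1/2 := le_trans (mul_le_mul_of_nonneg_left h1 (by positivity)) h
    calc 2 ^ b * Ds C q E b j ^ 2 = (2 ^ b * Ds C q E b j) * Ds C q E b j := by ring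
      _ ≤ 1/2 * (Ds C q E b 0 * (1/2) ^ j) := mul_le_mul h2 ih hj (by norm_num)
      _ = _ := by ring

theorem sum_Ds (hC : 0 ≤ C) (hq : 0 < q) (hE : 0 ≤ E) (h : 2 ^ b * Ds C q E b 0 ≤ 1/2) (j : ℕ) :
    ∑ i ∈ Finset.range j, Ds C q E b i ≤ 2 * Ds C q E b 0 := by
  calc ∑ i ∈ Finset.range j, Ds C q E b i ≤ ∑ i ∈ Finset.range j, Ds C q E b 0 * (1/2) ^ i :=
        Finset.sum_le_sum fun i _ => Ds_le hC hq hE h i
    _ = Ds C q E b 0 * ∑ i ∈ Finset.range j, (1/2 : ℝ) ^ i := by rw [Finset.mul_sum]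
    _ ≤ Ds C q E b 0 * 2 := mul_le_mul_of_nonneg_left (sum_geometric_two_le j) (Ds_nonneg hC hq hE 0)
    _ = _ := by ring

theorem Es_le_Ds (hC : 1 ≤ C) (hq : 0 < q) (hq1 : q ≤ 1) (hE : 0 ≤ E) (j : ℕ) : Es C q E b j ≤ Ds C q E b j := by
  have h1 := ro_pos j
  have h2 := ro_le j
  have h3 := Es_nonneg (b := b) (by linarith : 0 ≤ C) hq hE j
  rw [Ds, le_div_iff₀ (by positivity)]
  have h4 : (q * ro j) ^ b ≤ 1 := pow_le_one₀ (by positivity) (by nlinarith)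
  nlinarith

theorem seq_exists {α : Type*} {P : ℕ → α → Prop} {Q : ℕ → α → α → Prop} {a : α} (h0 : P 0 a)
    (hs : ∀ j x, P j x → ∃ y, P (j+1) y ∧ Q j x y) :
    ∃ f : ℕ → α, f 0 = a ∧ ∀ j, P j (f j) ∧ Q j (f j) (f (j+1)) := by
  classical
  let F : (j : ℕ) → {x // P j x} := fun j => Nat.rec (motive := fun j => {x // P j x}) ⟨a, h0⟩
    (fun j x => ⟨(hs j x.1 x.2).choose, (hs j x.1 x.2).choose_spec.1⟩) j
  exact ⟨fun j => (F j).1, rfl, fun j => ⟨(F j).2, (hs j _ (F j).2).choose_spec.2⟩⟩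

/-- the data of the iteration -/
structure Pt where
  Z : EE → ℂ → ℂ
  X : EE → ℂ → ℂ
  u : EE → ℂ → ℂ
  Rm : EE → ℕ → ℕ → ℝ
  RM : ℕ → ℕ → ℝ
  V0 : EE → ℝ
  mu : EE → ℝ

theorem strip_mono {r r' : ℝ} (h : r ≤ r') : strip r ⊆ strip r' := by
  intro z hz
  exact ⟨by have := hz.1; linarith, lt_of_lt_of_le hz.2 h⟩

theorem lim_geo {V : Type*} [NormedAddCommGroup V] [CompleteSpace V] {f : ℕ → V} {D : ℝ}
    (h : ∀ j, ‖f (j+1) - f j‖ ≤ D * (1/2) ^ j) :
    ∃ y, Tendsto f atTop (𝓝 y) ∧ ∀ j, ‖f j - y‖ ≤ 2 * D * (1/2) ^ j := by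
  have h' : ∀ n, dist (f n) (f (n+1)) ≤ D * (1/2) ^ n := by
    intro n
    rw [dist_comm, dist_eq_norm]; exact h n
  have hc := cauchySeq_of_le_geometric (1/2 : ℝ) D (by norm_num) h'
  obtain ⟨y, hy⟩ := cauchySeq_tendsto_of_complete hc
  refine ⟨y, hy, fun j => ?_⟩
  have := dist_le_of_le_geometric_of_tendsto (1/2 : ℝ) D (by norm_num) h' hy j
  rw [dist_eq_norm] at this
  refine this.trans (le_of_eq ?_)
  ring

theorem geo_tendsto (D : ℝ) : Tendsto (fun j : ℕ => D * (1/2 : ℝ) ^ j) atTop (𝓝 0) := by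
  have := (tendsto_pow_atTop_nhds_zero_of_lt_one (r := (1/2 : ℝ)) (by norm_num) (by norm_num)).const_mul D
  simpa using this

theorem unif_of_bd {α V : Type*} [NormedAddCommGroup V] {F : ℕ → α → V} {f : α → V} {s : Set α} {D : ℝ}
    (h : ∀ j, ∀ x ∈ s, ‖F j x - f x‖ ≤ D * (1/2) ^ j) : TendstoUniformlyOn F f atTop s := by
  rw [Metric.tendstoUniformlyOn_iff]
  intro ε hε
  filter_upwards [(geo_tendsto D).eventually (gt_mem_nhds hε)] with j hj x hx
  rw [dist_comm, dist_eq_norm]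
  exact (h j x hx).trans_lt hj

theorem cauchy3 {g : ℂ → ℂ} (hg : DifferentiableOn ℂ g (strip 3)) {δ M : ℝ} (hδ : 0 < δ)
    (hM : ∀ z ∈ strip 3, ‖g z‖ ≤ M) {z : ℂ} (h1 : -(3 - δ) < z.im) (h2 : z.im < 3 - δ) : ‖deriv g z‖ ≤ M / δ := by
  have hsub : Metric.closedBall z δ ⊆ strip 3 := by
    intro w hw
    have hw' : ‖w - z‖ ≤ δ := by simpa [dist_eq_norm] using hw
    have h3 := Complex.abs_im_le_norm (w - z)
    rw [Complex.sub_im] at h3
    have h4 := abs_le.1 (h3.trans hw')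
    exact ⟨by linarith [h4.1], by linarith [h4.2]⟩
  refine Complex.norm_deriv_le_of_forall_mem_sphere_norm_le hδ ?_ ?_
  · refine DifferentiableOn.diffContOnCl ?_
    rw [closure_ball z hδ.ne']
    exact hg.mono hsub
  · intro w hw
    exact hM w (hsub (Metric.sphere_subset_closedBall hw))

/-- convergence of the functionals -/
theorem conv {al : ℝ} (hal : al ∈ JJ) {c0 Cq : ℝ} (hc0 : 0 < c0) (hCq : 1 ≤ Cq)
    (hquad : ∀ al ∈ JJ, ∀ a b : ℝ, 1 ≤ a → b ≤ 3 →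
    ∀ Z X : ℂ → ℂ, NB c0 a b Z X → ∀ d : ℝ, 0 ≤ d → d ≤ c0 → ∀ A B : ℂ → ℂ, DirBd d a b A B → ∀ t ∈ band a b,
      ‖Vf al (fun z => Z z + A z) (fun z => X z + B z) t - Vf al Z X t - DV al Z X A B t‖ ≤ Cq * d ^ 2 ∧
      ‖Sf al (fun z => Z z + A z) (fun z => X z + B z) t - Sf al Z X t - DS al Z X A B t‖ ≤ Cq * d ^ 2 ∧
      ‖et al (fun z => Z z + A z) (fun z => X z + B z) t - et al Z X t - Det al Z X A B t‖ ≤ Cq * d ^ 2 ∧
      ‖ell al (fun z => Z z + A z) (fun z => X z + B z) t - ell al Z X t -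
        (nz al X t * df al B t - nx al Z t * df al A t) / ell al Z X t‖ ≤ Cq * d ^ 2 ∧
      ‖Yf al (fun z => Z z + A z) (fun z => X z + B z) t - Yf al Z X t -
        (Yz al Z X t * df al B t - Yx al Z X t * df al A t)‖ ≤ Cq * d ^ 2 ∧
      ‖DV al Z X A B t‖ ≤ Cq * d ∧ ‖DS al Z X A B t‖ ≤ Cq * d ∧ ‖DS0 al Z X A B t‖ ≤ Cq * d ∧ ‖Det al Z X A B t‖ ≤ Cq * d ∧
      ‖df al A t‖ ≤ Cq * d ∧ ‖df al B t‖ ≤ Cq * d ∧ ‖Yz al Z X t‖ ≤ Cq ∧ ‖Yx al Z X t‖ ≤ Cq ∧ ‖Yf al Z X t‖ ≤ Cq ∧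
      ‖et al Z X t‖ ≤ Cq)
    {Zs Xs : ℕ → ℂ → ℂ} {Z X : ℂ → ℂ} {D : ℝ} (hD : 0 ≤ D) (hNB : NB c0 (-3) 3 Z X)
    (hdZ : ∀ j, DifferentiableOn ℂ (Zs j) (strip 3)) (hdX : ∀ j, DifferentiableOn ℂ (Xs j) (strip 3))
    (hbZ : ∀ j, ∀ z ∈ strip 3, ‖Zs j z - Z z‖ ≤ D * (1/2) ^ j) (hbX : ∀ j, ∀ z ∈ strip 3, ‖Xs j z - X z‖ ≤ D * (1/2) ^ j)
    {t : ℂ} (ht : t ∈ band 1 3) :
    Tendsto (fun j => Vf al (Zs j) (Xs j) t) atTop (𝓝 (Vf al Z X t)) ∧
    Tendsto (fun j => Sf al (Zs j) (Xs j) t) atTop (𝓝 (Sf al Z X t)) ∧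
    Tendsto (fun j => et al (Zs j) (Xs j) t) atTop (𝓝 (et al Z X t)) ∧
    Tendsto (fun j => ell al (Zs j) (Xs j) t) atTop (𝓝 (ell al Z X t)) ∧
    Tendsto (fun j => Yf al (Zs j) (Xs j) t) atTop (𝓝 (Yf al Z X t)) := by
  obtain ⟨t1, t2⟩ := ht
  set b := (t.im + 3) / 2 with hb
  have hb1 : t.im < b := by rw [hb]; linarith
  have hb2 : b < 3 := by rw [hb]; linarith
  set δ := 3 - b with hδ
  have hδ0 : 0 < δ := by rw [hδ]; linarith
  set d : ℕ → ℝ := fun j => D * (1 + 1/δ) * (1/2) ^ j with hd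
  have hd0 : ∀ j, 0 ≤ d j := fun j => by simp only [hd]; positivity
  have hdt : Tendsto d atTop (𝓝 0) := geo_tendsto _
  have htm : t ∈ band 1 b := ⟨t1, hb1⟩
  have hN : NB c0 1 b Z X := hNB.mono le_rfl (by norm_num) hb2.le
  have hdir : ∀ j, DirBd (d j) 1 b (fun z => Zs j z - Z z) (fun z => Xs j z - X z) := by
    intro j
    have gZ : DifferentiableOn ℂ (fun z => Zs j z - Z z) (strip 3) := (hdZ j).sub hNB.dZ
    have gX : DifferentiableOn ℂ (fun z => Xs j z - X z) (strip 3) := (hdX j).sub hNB.dX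
    have hsub : band 1 b ⊆ strip 3 := band_subset (by norm_num) hb2.le
    have e0 : D * (1/2) ^ j ≤ d j := by
      simp only [hd]
      have h1 : 0 ≤ D * (1/2 : ℝ) ^ j := by positivity
      have h2 : 0 ≤ 1/δ := by positivity
      nlinarith
    have e1 : D * (1/2) ^ j / δ ≤ d j := by
      simp only [hd]
      have h1 : 0 ≤ D * (1/2 : ℝ) ^ j := by positivity
      have h2 : 0 ≤ 1/δ := by positivity
      rw [div_eq_mul_one_div]
      nlinarith
    refine ⟨gZ.mono hsub, gX.mono hsub, ?_, ?_, ?_, ?_⟩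
    · exact fun z hz => (hbZ j z (hsub hz)).trans e0
    · exact fun z hz => (hbX j z (hsub hz)).trans e0
    · intro z hz
      exact (cauchy3 gZ hδ0 (hbZ j) (by rw [hδ]; linarith [hz.1]) (by rw [hδ]; linarith [hz.2])).trans e1
    · intro z hz
      exact (cauchy3 gX hδ0 (hbX j) (by rw [hδ]; linarith [hz.1]) (by rw [hδ]; linarith [hz.2])).trans e1
  have hev : ∀ᶠ j in atTop, d j ≤ c0 := hdt.eventually (ge_mem_nhds hc0)
  set K : ℝ := Cq + 2 * Cq * Cq + (‖nz al X t‖ + ‖nx al Z t‖) * Cq * ‖(ell al Z X t)⁻¹‖ with hK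
  have hKt : Tendsto (fun j => K * d j ^ 2 + K * d j) atTop (𝓝 0) := by
    have := ((hdt.pow 2).const_mul K).add (hdt.const_mul K)
    simpa using this
  have hKC : Cq ≤ K := by
    rw [hK]
    have : 0 ≤ 2 * Cq * Cq := by positivity
    have : 0 ≤ (‖nz al X t‖ + ‖nx al Z t‖) * Cq * ‖(ell al Z X t)⁻¹‖ := by positivity
    linarith
  have hK2 : 2 * Cq * Cq ≤ K := by
    rw [hK]
    have : 0 ≤ (‖nz al X t‖ + ‖nx al Z t‖) * Cq * ‖(ell al Z X t)⁻¹‖ := by positivity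
    linarith
  have hK3 : (‖nz al X t‖ + ‖nx al Z t‖) * Cq * ‖(ell al Z X t)⁻¹‖ ≤ K := by
    rw [hK]
    have : 0 ≤ 2 * Cq * Cq := by positivity
    linarith
  have hfin : ∀ {G : (ℂ → ℂ) → (ℂ → ℂ) → ℂ}, (∀ᶠ j in atTop, ‖G (Zs j) (Xs j) - G Z X‖ ≤ K * d j ^ 2 + K * d j) →
      Tendsto (fun j => G (Zs j) (Xs j)) atTop (𝓝 (G Z X)) := by
    intro G hG
    rw [tendsto_iff_norm_sub_tendsto_zero]
    exact squeeze_zero' (Eventually.of_forall fun _ => norm_nonneg _) hG hKt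
  have eZ : ∀ j, (fun z => Z z + (Zs j z - Z z)) = Zs j := fun j => by funext z; ring
  have eX : ∀ j, (fun z => X z + (Xs j z - X z)) = Xs j := fun j => by funext z; ring
  have hall := fun j (hj : d j ≤ c0) => hquad al hal 1 b le_rfl hb2.le Z X hN (d j) (hd0 j) hj _ _ (hdir j) t htm
  simp only [eZ, eX] at hall
  refine ⟨?_, ?_, ?_, ?_, ?_⟩
  · refine hfin (G := fun Z X => Vf al Z X t) ?_
    filter_upwards [hev] with j hj
    obtain ⟨q1, -, -, -, -, q6, -⟩ := hall j hj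
    have h1 : ‖Vf al (Zs j) (Xs j) t - Vf al Z X t‖ ≤ Cq * d j ^ 2 + Cq * d j := by
      calc _ = ‖(Vf al (Zs j) (Xs j) t - Vf al Z X t - DV al Z X (fun z => Zs j z - Z z) (fun z => Xs j z - X z) t) +
            DV al Z X (fun z => Zs j z - Z z) (fun z => Xs j z - X z) t‖ := by congr 1; ring
        _ ≤ _ := (norm_add_le _ _).trans (add_le_add q1 q6)
    exact h1.trans (add_le_add (mul_le_mul_of_nonneg_right hKC (by positivity)) (mul_le_mul_of_nonneg_right hKC (hd0 j)))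
  · refine hfin (G := fun Z X => Sf al Z X t) ?_
    filter_upwards [hev] with j hj
    obtain ⟨-, q1, -, -, -, -, q6, -⟩ := hall j hj
    have h1 : ‖Sf al (Zs j) (Xs j) t - Sf al Z X t‖ ≤ Cq * d j ^ 2 + Cq * d j := by
      calc _ = ‖(Sf al (Zs j) (Xs j) t - Sf al Z X t - DS al Z X (fun z => Zs j z - Z z) (fun z => Xs j z - X z) t) +
            DS al Z X (fun z => Zs j z - Z z) (fun z => Xs j z - X z) t‖ := by congr 1; ring
        _ ≤ _ := (norm_add_le _ _).trans (add_le_add q1 q6)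
    exact h1.trans (add_le_add (mul_le_mul_of_nonneg_right hKC (by positivity)) (mul_le_mul_of_nonneg_right hKC (hd0 j)))
  · refine hfin (G := fun Z X => et al Z X t) ?_
    filter_upwards [hev] with j hj
    obtain ⟨-, -, q1, -, -, -, -, -, q6, -⟩ := hall j hj
    have h1 : ‖et al (Zs j) (Xs j) t - et al Z X t‖ ≤ Cq * d j ^ 2 + Cq * d j := by
      calc _ = ‖(et al (Zs j) (Xs j) t - et al Z X t - Det al Z X (fun z => Zs j z - Z z) (fun z => Xs j z - X z) t) +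
            Det al Z X (fun z => Zs j z - Z z) (fun z => Xs j z - X z) t‖ := by congr 1; ring
        _ ≤ _ := (norm_add_le _ _).trans (add_le_add q1 q6)
    exact h1.trans (add_le_add (mul_le_mul_of_nonneg_right hKC (by positivity)) (mul_le_mul_of_nonneg_right hKC (hd0 j)))
  · refine hfin (G := fun Z X => ell al Z X t) ?_
    filter_upwards [hev] with j hj
    obtain ⟨-, -, -, q1, -, -, -, -, -, qA, qB, -⟩ := hall j hj
    set dA := df al (fun z => Zs j z - Z z) t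
    set dB := df al (fun z => Xs j z - X z) t
    have h2 : ‖(nz al X t * dB - nx al Z t * dA) / ell al Z X t‖ ≤ K * d j := by
      rw [div_eq_mul_inv, norm_mul]
      have h3 : ‖nz al X t * dB - nx al Z t * dA‖ ≤ (‖nz al X t‖ + ‖nx al Z t‖) * (Cq * d j) := by
        refine (norm_sub_le _ _).trans ?_
        rw [norm_mul, norm_mul, add_mul]
        gcongr
      calc _ ≤ (‖nz al X t‖ + ‖nx al Z t‖) * (Cq * d j) * ‖(ell al Z X t)⁻¹‖ := by gcongr
        _ = (‖nz al X t‖ + ‖nx al Z t‖) * Cq * ‖(ell al Z X t)⁻¹‖ * d j := by ring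
        _ ≤ K * d j := mul_le_mul_of_nonneg_right hK3 (hd0 j)
    calc ‖ell al (Zs j) (Xs j) t - ell al Z X t‖ =
          ‖(ell al (Zs j) (Xs j) t - ell al Z X t - (nz al X t * dB - nx al Z t * dA) / ell al Z X t) +
            (nz al X t * dB - nx al Z t * dA) / ell al Z X t‖ := by congr 1; ring
      _ ≤ Cq * d j ^ 2 + K * d j := (norm_add_le _ _).trans (add_le_add q1 h2)
      _ ≤ _ := by gcongr
  · refine hfin (G := fun Z X => Yf al Z X t) ?_
    filter_upwards [hev] with j hj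
    obtain ⟨-, -, -, -, q1, -, -, -, -, qA, qB, y1, y2, -⟩ := hall j hj
    set dA := df al (fun z => Zs j z - Z z) t
    set dB := df al (fun z => Xs j z - X z) t
    have h2 : ‖Yz al Z X t * dB - Yx al Z X t * dA‖ ≤ K * d j := by
      refine (norm_sub_le _ _).trans ?_
      rw [norm_mul, norm_mul]
      have hdj := hd0 j
      calc ‖Yz al Z X t‖ * ‖dB‖ + ‖Yx al Z X t‖ * ‖dA‖ ≤ Cq * (Cq * d j) + Cq * (Cq * d j) := by gcongr
        _ = 2 * Cq * Cq * d j := by ring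
        _ ≤ K * d j := mul_le_mul_of_nonneg_right hK2 (hd0 j)
    calc ‖Yf al (Zs j) (Xs j) t - Yf al Z X t‖ =
          ‖(Yf al (Zs j) (Xs j) t - Yf al Z X t - (Yz al Z X t * dB - Yx al Z X t * dA)) +
            (Yz al Z X t * dB - Yx al Z X t * dA)‖ := by congr 1; ring
      _ ≤ Cq * d j ^ 2 + K * d j := (norm_add_le _ _).trans (add_le_add q1 h2)
      _ ≤ _ := by gcongr

end N01

open N01

/-- Iterate `step` with `r_j = 3 + 2^{-j}`, `ρ_j = 2^{-j-1}` (`r_0 = 4`), `E_{j+1} = C E_j^2/(q 2^{-j-1})^b`, `q = κ κ2`,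
`D_j = C E_j/(q 2^{-j-1})^b`. With `E_0 ≤ η q^{2b+1}` (`η` small depending on `C, b`): `E_j ≤ E_0 2^{-(b+1) j}..` and more precisely
`D_{j+1} = 2^b (C/(q 2^{-j-1})^b) ... `: show by induction `D_j ≤ 2^{-j} D_0` (since `D_{j+1} = C E_{j+1}/(q 2^{-j-2})^b = 2^b D_j^2` and `2^b D_0 ≤ 1/2`).
So `∑ D_j ≤ 2 D_0`, `cA + 2 D_0 ≤ c1 κ`, `cR + 2 D_0 ≤ c1 κ` and the hypotheses of `step` persist.
The sequences `Z_j, X_j` (with derivatives: `DirBd` is not returned by `step`, but the derivatives converge on `strip 3`.. locally uniformly; to get `FC` for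
the limit use that `NB` is a closed condition: `‖Z_j - cos‖ ≤ cA + 2 D_0`, `‖Z_j' + sin‖ ≤ cA + 2 D_0` on `strip r_j ⊇ strip 3`, and
`Z_j' → Z'` pointwise) converge uniformly on `strip 3`; families by `Fam.limit`; `V0_j, mu_j` converge uniformly, so the limits are continuous.
The equations pass to the limit: `SS`, `Vf` are continuous under uniform convergence of `(Z, X)` (and of the derivatives on smaller bands):
for `t ∈ band 1 3` choose `1 < a < Im t < b < 3`, use `quad` (or dominated convergence) on `band a b`, where `Z_j - Z` tends to `0` with its derivative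
by Cauchy. -/
theorem newton : ∃ η C : ℝ, ∃ b : ℕ, 0 < η ∧ 1 ≤ C ∧ ∀ al ∈ JJ, ∀ κ κ2 : ℝ, LB al κ κ2 → ∀ cA cR E : ℝ,
    0 ≤ cA → cA ≤ η * κ → 0 ≤ cR → cR ≤ η * κ → 0 ≤ E → E ≤ η * (κ * κ2) ^ b →
    ∀ (Z X u : EE → ℂ → ℂ) (Rm : EE → ℕ → ℕ → ℝ) (RM : ℕ → ℕ → ℝ) (V0 mu : EE → ℝ), St al 4 cA cR E Z X u Rm RM V0 mu →
    ∃ (Z' X' : EE → ℂ → ℂ) (V0' mu' : EE → ℝ), FC (cA + C * E / (κ * κ2) ^ b) 3 Z' X' ∧ Continuous V0' ∧ Continuous mu' ∧
      (∀ e, |V0' e - V0 e| ≤ C * E / (κ * κ2) ^ b ∧ |mu' e - mu e| ≤ C * E / (κ * κ2) ^ b) ∧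
      (∀ e, ∀ z ∈ strip 3, ‖Z' e z - Z e z‖ ≤ C * E / (κ * κ2) ^ b ∧ ‖X' e z - X e z‖ ≤ C * E / (κ * κ2) ^ b) ∧
      ∀ e, ∀ t ∈ band 1 3, SS al (V0' e) (mu' e) (Z' e) (X' e) t = 0 ∧ Vf al (Z' e) (X' e) t = (V0' e : ℂ) := by
  obtain ⟨c1, C, b, hc1, hC, hstep⟩ := step
  obtain ⟨c0, Cq, hc0, hCq, hquad⟩ := quad 3 (by norm_num)
  set Λ : ℝ := C * 2 ^ b with hΛ
  have h2b : (1:ℝ) ≤ 2 ^ b := one_le_pow₀ (by norm_num)
  have hΛ1 : 1 ≤ Λ := by rw [hΛ]; nlinarith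
  set m : ℝ := min c1 (min c0 1) with hm
  have hm0 : 0 < m := by rw [hm]; positivity
  have hmc1 : m ≤ c1 := min_le_left _ _
  have hmc0 : m ≤ c0 := (min_le_right _ _).trans (min_le_left _ _)
  have hm1 : m ≤ 1 := (min_le_right _ _).trans (min_le_right _ _)
  set η : ℝ := m / (8 * Λ * 2 ^ b) with hη
  have hη0 : 0 < η := by rw [hη]; positivity
  have hη1 : 2 ^ b * (Λ * η) = m / 8 := by rw [hη]; field_simp
  have hη2 : Λ * η ≤ m / 8 := by
    rw [← hη1]
    have : 0 < Λ * η := by positivity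
    nlinarith
  have hη3 : η ≤ m / 8 := by nlinarith
  refine ⟨η, 2 * Λ, b + 1, hη0, by linarith, ?_⟩
  intro al hal κ κ2 hLB cA cR E hcA hcA' hcR hcR' hE hE' Z X u Rm RM V0 mu hSt
  obtain ⟨k0, k1, l0, l1, -, -⟩ := id hLB
  set q : ℝ := κ * κ2 with hq
  have hq0 : 0 < q := by rw [hq]; positivity
  have hqκ : q ≤ κ := by rw [hq]; nlinarith
  have hq1 : q ≤ 1 := hqκ.trans k1
  have hC0 : 0 ≤ C := by linarith
  -- the first step size
  have hD0 : Ds C q E b 0 = Λ * E / q ^ b := by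
    rw [Ds, Es, hΛ]
    have : q * ro 0 = q / 2 := by unfold ro; ring
    rw [this, div_pow]
    field_simp
  have hD0' : Ds C q E b 0 ≤ Λ * η * κ := by
    rw [hD0, div_le_iff₀ (by positivity)]
    calc Λ * E ≤ Λ * (η * q ^ (b+1)) := by gcongr
      _ = Λ * η * q * q ^ b := by ring
      _ ≤ Λ * η * κ * q ^ b := by gcongr
  have hD0n := Ds_nonneg (b := b) hC0 hq0 hE 0
  have hsmall : 2 ^ b * Ds C q E b 0 ≤ 1/2 := by
    calc 2 ^ b * Ds C q E b 0 ≤ 2 ^ b * (Λ * η * κ) := by gcongr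
      _ = m / 8 * κ := by rw [← hη1]; ring
      _ ≤ 1/2 := by nlinarith
  have hD0k : Ds C q E b 0 ≤ m / 8 * κ := hD0'.trans (mul_le_mul_of_nonneg_right hη2 k0.le)
  have hDle : ∀ j, Ds C q E b j ≤ Ds C q E b 0 := fun j =>
    (Ds_le hC0 hq0 hE hsmall j).trans (mul_le_of_le_one_right hD0n (pow_le_one₀ (by norm_num) (by norm_num)))
  set S : ℕ → ℝ := fun j => ∑ i ∈ Finset.range j, Ds C q E b i with hS
  have hS0 : ∀ j, 0 ≤ S j := fun j => Finset.sum_nonneg fun i _ => Ds_nonneg hC0 hq0 hE i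
  have hS1 : ∀ j, S j ≤ 2 * Ds C q E b 0 := sum_Ds hC0 hq0 hE hsmall
  have hηκ : η * κ ≤ m / 8 * κ := mul_le_mul_of_nonneg_right hη3 k0.le
  have hmκ : 0 < m * κ := by positivity
  have hmk1 : m * κ ≤ c1 * κ := mul_le_mul_of_nonneg_right hmc1 k0.le
  have hmk0 : m * κ ≤ c0 := by nlinarith
  have hb1 : ∀ j, cA + S j ≤ c1 * κ := fun j => by have := hS1 j; linarith
  have hb2 : ∀ j, cR + S j ≤ c1 * κ := fun j => by have := hS1 j; linarith
  -- the sequence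
  obtain ⟨p, hp0, hp⟩ := seq_exists (α := Pt) (a := ⟨Z, X, u, Rm, RM, V0, mu⟩)
    (P := fun j p => St al (rr j) (cA + S j) (cR + S j) (Es C q E b j) p.Z p.X p.u p.Rm p.RM p.V0 p.mu)
    (Q := fun j p p' => (∀ e, ∀ z ∈ strip (rr (j+1)), ‖p'.Z e z - p.Z e z‖ ≤ Ds C q E b j ∧ ‖p'.X e z - p.X e z‖ ≤ Ds C q E b j) ∧
      (∀ e, |p'.V0 e - p.V0 e| ≤ Ds C q E b j ∧ |p'.mu e - p.mu e| ≤ Ds C q E b j))
    (by
      have e1 : rr 0 = 4 := by unfold rr; norm_num
      have e2 : S 0 = 0 := by simp [hS]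
      have e3 : Es C q E b 0 = E := rfl
      simp only [e1, e2, e3, add_zero]
      exact hSt)
    (by
      rintro j ⟨Z, X, u, Rm, RM, V0, mu⟩ hPj
      obtain ⟨Z', X', u', Rm', RM', V0', mu', h1, h2, h3⟩ := hstep al hal κ κ2 hLB (rr j) (cA + S j) (cR + S j)
        (Es C q E b j) (ro j) (rr_le j) (ro_pos j) (ro_le j) (by rw [rr_sub]; exact rr_gt _) (by have := hS0 j; linarith)
        (hb1 j) (by have := hS0 j; linarith) (hb2 j) (Es_nonneg hC0 hq0 hE j)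
        (by
          have : C * Es C q E b j / (κ * κ2 * ro j) ^ b = Ds C q E b j := rfl
          rw [this]
          have := hDle j
          linarith) Z X u Rm RM V0 mu hPj
      refine ⟨⟨Z', X', u', Rm', RM', V0', mu'⟩, ?_, ?_, ?_⟩
      · have e1 : S (j+1) = S j + Ds C q E b j := Finset.sum_range_succ _ _
        rw [rr_sub] at h1
        rw [e1, ← add_assoc, ← add_assoc]
        exact h1
      · rw [rr_sub] at h2
        exact h2
      · exact h3)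
  have hsub : ∀ j, strip 3 ⊆ strip (rr j) := fun j => strip_mono (rr_gt j).le
  set D0 := Ds C q E b 0 with hD0def
  have hgeo : ∀ j, Ds C q E b j ≤ D0 * (1/2) ^ j := Ds_le hC0 hq0 hE hsmall
  have lZ : ∀ e z, z ∈ strip 3 → ∃ y, Tendsto (fun j => (p j).Z e z) atTop (𝓝 y) ∧ ∀ j, ‖(p j).Z e z - y‖ ≤ 2 * D0 * (1/2) ^ j :=
    fun e z hz => lim_geo fun j => (((hp j).2.1 e z (hsub _ hz)).1).trans (hgeo j)
  have lX : ∀ e z, z ∈ strip 3 → ∃ y, Tendsto (fun j => (p j).X e z) atTop (𝓝 y) ∧ ∀ j, ‖(p j).X e z - y‖ ≤ 2 * D0 * (1/2) ^ j :=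
    fun e z hz => lim_geo fun j => (((hp j).2.1 e z (hsub _ hz)).2).trans (hgeo j)
  have lV : ∀ e, ∃ y, Tendsto (fun j => (p j).V0 e) atTop (𝓝 y) ∧ ∀ j, ‖(p j).V0 e - y‖ ≤ 2 * D0 * (1/2) ^ j :=
    fun e => lim_geo fun j => (((hp j).2.2 e).1).trans (hgeo j)
  have lM : ∀ e, ∃ y, Tendsto (fun j => (p j).mu e) atTop (𝓝 y) ∧ ∀ j, ‖(p j).mu e - y‖ ≤ 2 * D0 * (1/2) ^ j :=
    fun e => lim_geo fun j => (((hp j).2.2 e).2).trans (hgeo j)
  choose! Z' hZ' hZ'' using lZ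
  choose! X' hX' hX'' using lX
  choose V0' hV' hV'' using lV
  choose mu' hM' hM'' using lM
  have hfin : 2 * D0 ≤ 2 * Λ * E / q ^ (b+1) := by
    rw [hD0, pow_succ, ← div_div, le_div_iff₀ hq0]
    have : 0 ≤ 2 * (Λ * E / q ^ b) := by positivity
    have e : 2 * Λ * E / q ^ b = 2 * (Λ * E / q ^ b) := by ring
    rw [e]
    nlinarith
  have hpst := fun j => (hp j).1
  have hAj : ∀ j, cA + S j ≤ cA + 2 * Λ * E / q ^ (b+1) := fun j => by have := hS1 j; linarith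
  -- families
  have fZ' : Fam (strip 3) Z' := by
    refine Fam.limit (F := fun j => (p j).Z) (fun j => (hpst j).ap.fc.fZ.mono (hsub j)) (unif_of_bd (D := 2 * D0) ?_)
    rintro j ⟨e, z⟩ ⟨-, hz⟩
    exact hZ'' e z hz j
  have fX' : Fam (strip 3) X' := by
    refine Fam.limit (F := fun j => (p j).X) (fun j => (hpst j).ap.fc.fX.mono (hsub j)) (unif_of_bd (D := 2 * D0) ?_)
    rintro j ⟨e, z⟩ ⟨-, hz⟩
    exact hX'' e z hz j
  have dZ' : ∀ e, ∀ z ∈ strip 3, Tendsto (fun j => deriv ((p j).Z e) z) atTop (𝓝 (deriv (Z' e) z)) := by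
    intro e z hz
    have h1 : TendstoUniformlyOn (fun j => (p j).Z e) (Z' e) atTop (strip 3) :=
      unif_of_bd (D := 2 * D0) fun j z hz => hZ'' e z hz j
    exact (h1.tendstoLocallyUniformlyOn.deriv (Eventually.of_forall fun j => ((hpst j).ap.fc.fZ.mono (hsub j)).diff e)
      (isOpen_band _ _)).tendsto_at hz
  have dX' : ∀ e, ∀ z ∈ strip 3, Tendsto (fun j => deriv ((p j).X e) z) atTop (𝓝 (deriv (X' e) z)) := by
    intro e z hz
    have h1 : TendstoUniformlyOn (fun j => (p j).X e) (X' e) atTop (strip 3) :=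
      unif_of_bd (D := 2 * D0) fun j z hz => hX'' e z hz j
    exact (h1.tendstoLocallyUniformlyOn.deriv (Eventually.of_forall fun j => ((hpst j).ap.fc.fX.mono (hsub j)).diff e)
      (isOpen_band _ _)).tendsto_at hz
  have hNB' : ∀ e, NB (cA + 2 * Λ * E / q ^ (b+1)) (-3) 3 (Z' e) (X' e) := by
    intro e
    refine ⟨fZ'.diff e, fX'.diff e, ?_, ?_, ?_, ?_⟩
    · intro z hz
      refine le_of_tendsto ((hZ' e z hz).sub_const _).norm (Eventually.of_forall fun j => ?_)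
      exact (((hpst j).ap.fc.nb e).z0 z (hsub j hz)).trans (hAj j)
    · intro z hz
      refine le_of_tendsto ((hX' e z hz).sub_const _).norm (Eventually.of_forall fun j => ?_)
      exact (((hpst j).ap.fc.nb e).x0 z (hsub j hz)).trans (hAj j)
    · intro z hz
      refine le_of_tendsto ((dZ' e z hz).add_const _).norm (Eventually.of_forall fun j => ?_)
      exact (((hpst j).ap.fc.nb e).z1 z (hsub j hz)).trans (hAj j)
    · intro z hz
      refine le_of_tendsto ((dX' e z hz).sub_const _).norm (Eventually.of_forall fun j => ?_)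
      exact (((hpst j).ap.fc.nb e).x1 z (hsub j hz)).trans (hAj j)
  have hFC : FC (cA + 2 * Λ * E / q ^ (b+1)) 3 Z' X' := by
    refine ⟨fZ', fX', hNB', ?_, ?_⟩
    · intro e
      refine ⟨?_, ?_, ?_, ?_⟩
      · intro z hz
        refine tendsto_nhds_unique (hZ' e _ (neg_mem_strip hz)) ((hZ' e z hz).congr fun j => ?_)
        exact (((hpst j).ap.fc.sy e).eZ z (hsub j hz)).symm
      · intro z hz
        refine tendsto_nhds_unique (hX' e _ (neg_mem_strip hz)) ((hX' e z hz).neg.congr fun j => ?_)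
        exact (((hpst j).ap.fc.sy e).oX z (hsub j hz)).symm
      · intro z hz
        refine tendsto_nhds_unique (hZ' e _ (add_real_mem_band hz Real.pi)) ((hZ' e z hz).neg.congr fun j => ?_)
        exact (((hpst j).ap.fc.sy e).aZ z (hsub j hz)).symm
      · intro z hz
        refine tendsto_nhds_unique (hX' e _ (add_real_mem_band hz Real.pi)) ((hX' e z hz).neg.congr fun j => ?_)
        exact (((hpst j).ap.fc.sy e).aX z (hsub j hz)).symm
    · intro e
      refine ⟨?_, ?_⟩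
      · intro z hz
        refine tendsto_nhds_unique (hZ' e _ (conj_mem_strip hz)) (((Complex.continuous_conj.tendsto _).comp (hZ' e z hz)).congr fun j => ?_)
        exact (((hpst j).ap.fc.re e).rZ z (hsub j hz)).symm
      · intro z hz
        refine tendsto_nhds_unique (hX' e _ (conj_mem_strip hz)) (((Complex.continuous_conj.tendsto _).comp (hX' e z hz)).congr fun j => ?_)
        exact (((hpst j).ap.fc.re e).rX z (hsub j hz)).symm
  have cV' : Continuous V0' := by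
    have h1 : TendstoUniformlyOn (fun j => (p j).V0) V0' atTop univ := unif_of_bd (D := 2 * D0) fun j e _ => hV'' e j
    rw [tendstoUniformlyOn_univ] at h1
    exact h1.continuous (Eventually.of_forall fun j => (hpst j).ap.vc).frequently
  have cM' : Continuous mu' := by
    have h1 : TendstoUniformlyOn (fun j => (p j).mu) mu' atTop univ := unif_of_bd (D := 2 * D0) fun j e _ => hM'' e j
    rw [tendstoUniformlyOn_univ] at h1
    exact h1.continuous (Eventually.of_forall fun j => (hpst j).ap.mc).frequently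
  have hEt : Tendsto (fun j => Es C q E b j) atTop (𝓝 0) :=
    squeeze_zero (fun j => Es_nonneg hC0 hq0 hE j) (fun j => (Es_le_Ds hC hq0 hq1 hE j).trans (hgeo j)) (geo_tendsto D0)
  refine ⟨Z', X', V0', mu', hFC, cV', cM', ?_, ?_, ?_⟩
  · intro e
    have h1 := hV'' e 0
    have h2 := hM'' e 0
    rw [hp0] at h1 h2
    simp only [pow_zero, mul_one, Real.norm_eq_abs] at h1 h2
    rw [abs_sub_comm] at h1 h2
    exact ⟨h1.trans hfin, h2.trans hfin⟩
  · intro e z hz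
    have h1 := hZ'' e z hz 0
    have h2 := hX'' e z hz 0
    rw [hp0] at h1 h2
    simp only [pow_zero, mul_one] at h1 h2
    rw [norm_sub_rev] at h1 h2
    exact ⟨h1.trans hfin, h2.trans hfin⟩
  · intro e t ht
    have hc0' : cA + 2 * Λ * E / q ^ (b+1) ≤ c0 := by
      have h1 : 2 * Λ * E / q ^ (b+1) ≤ 2 * (Λ * η) := by
        rw [div_le_iff₀ (by positivity)]
        calc 2 * Λ * E ≤ 2 * Λ * (η * q ^ (b+1)) := by gcongr
          _ = _ := by ring
      have h2 : cA ≤ m / 8 := by nlinarith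
      linarith
    obtain ⟨t1, t2, t3, t4, t5⟩ := conv hal hc0 hCq hquad (Zs := fun j => (p j).Z e) (Xs := fun j => (p j).X e) (D := 2 * D0)
      (by positivity) ((hNB' e).mono hc0' le_rfl le_rfl) (fun j => ((hpst j).ap.fc.fZ.mono (hsub j)).diff e)
      (fun j => ((hpst j).ap.fc.fX.mono (hsub j)).diff e) (fun j z hz => hZ'' e z hz j) (fun j z hz => hX'' e z hz j) ht
    have tV : Tendsto (fun j => (((p j).V0 e : ℝ) : ℂ)) atTop (𝓝 (V0' e : ℂ)) := (Complex.continuous_ofReal.tendsto _).comp (hV' e)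
    have tM : Tendsto (fun j => (((p j).mu e : ℝ) : ℂ)) atTop (𝓝 (mu' e : ℂ)) := (Complex.continuous_ofReal.tendsto _).comp (hM' e)
    have htj : ∀ j, t ∈ band 1 (rr j) := fun j => ⟨ht.1, ht.2.trans (rr_gt j)⟩
    constructor
    · have hS : Tendsto (fun j => SS al ((p j).V0 e) ((p j).mu e) ((p j).Z e) ((p j).X e) t) atTop
          (𝓝 (SS al (V0' e) (mu' e) (Z' e) (X' e) t)) :=
        ((t2.add (tV.mul t3)).sub (t4.const_mul _)).add (tM.mul t5)
      have h0 : Tendsto (fun j => SS al ((p j).V0 e) ((p j).mu e) ((p j).Z e) ((p j).X e) t) atTop (𝓝 0) :=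
        squeeze_zero_norm (fun j => (hpst j).ap.eS e t (htj j)) hEt
      exact tendsto_nhds_unique hS h0
    · have h0 : Tendsto (fun j => Vf al ((p j).Z e) ((p j).X e) t - (((p j).V0 e : ℝ) : ℂ)) atTop (𝓝 0) :=
        squeeze_zero_norm (fun j => (hpst j).ap.eV e t (htj j)) hEt
      have h1 := tendsto_nhds_unique (t1.sub tV) h0
      exact sub_eq_zero.1 h1

end FB
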