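import Pool.Agent.H48.FB.MDefs

/-! Structures for the Newton step (continued). -/

open Complex Set MeasureTheory Filter Topology

noncomputable section

namespace FB

/-- solution of the linearised equations at an approximate solution -/
structure DirSol (al r D E2 : ℝ) (Z X A B : EE → ℂ → ℂ) (V0 mu dV dm : EE → ℝ) : Prop where
  fA : Fam (strip r) A
  fB : Fam (strip r) B
  sy : ∀ e, Sym r (A e) (B e)
  re : ∀ e, RealC r (A e) (B e)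
  bd : ∀ e, DirBd D (-r) r (A e) (B e)
  cV : Continuous dV
  cm : Continuous dm
  bV : ∀ e, |dV e| ≤ D
  bm : ∀ e, |dm e| ≤ D
  e1 : ∀ e, ∀ t ∈ band 2 r, DS0 al (Z e) (X e) (A e) (B e) t + (dV e : ℂ) * et al (Z e) (X e) t + (dm e : ℂ) * Yf al (Z e) (X e) t =
    - SS al (V0 e) (mu e) (Z e) (X e) t
  e2 : ∀ e, ∀ t ∈ band 2 r, ‖DV al (Z e) (X e) (A e) (B e) t - ((dV e : ℂ) - (Vf al (Z e) (X e) t - (V0 e : ℂ)))‖ ≤ E2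

/-- the limit value of the mean of `(1 - DVN x_1)/B` -/
def be1 (al : ℝ) : ℝ :=
  (1 + 3 / 2 * Vs al * (Real.sin al * Real.cos al / lam al 0)) / (Real.pi / 2 * (Real.sin al) ^ 3)

/-- the three functions whose means enter the second scalar equation -/
def rh0 (al : ℝ) (V0 : ℂ) (Z X u x : ℂ → ℂ) (t : ℂ) : ℂ := (- (Vf al Z X t - V0) - DVN al Z X u x t) / Bt al Z X t
def rh1 (al : ℝ) (Z X u x : ℂ → ℂ) (t : ℂ) : ℂ := (1 - DVN al Z X u x t) / Bt al Z X t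
def rh2 (al : ℝ) (Z X u x : ℂ → ℂ) (t : ℂ) : ℂ := (- DVN al Z X u x t) / Bt al Z X t

/-- even, periodic, real family on the strip -/
structure EPR (r : ℝ) (x : EE → ℂ → ℂ) : Prop where
  f : Fam (strip r) x
  e : ∀ e, ∀ z ∈ strip r, x e (-z) = x e z
  p : ∀ e, ∀ z ∈ strip r, x e (z + (Real.pi:ℂ)) = x e z
  r : ∀ e, ∀ z ∈ strip r, x e ((starRingEnd ℂ) z) = (starRingEnd ℂ) (x e z)

/-- the three basic solutions of the first linearised equation -/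
structure Basic3 (al r e1 e2 E : ℝ) (Z X u : EE → ℂ → ℂ) (V0 mu : EE → ℝ) (x0 x1 x2 : EE → ℂ → ℂ) (s0 s1 s2 : EE → ℝ) : Prop where
  h0 : EPR r x0
  h1 : EPR r x1
  h2 : EPR r x2
  c0 : Continuous s0
  c1 : Continuous s1
  c2 : Continuous s2
  t0 : ∀ e, ∀ t ∈ band 2 r, Top al (Z e) (X e) (u e) (x0 e) t = - SS al (V0 e) (mu e) (Z e) (X e) t + m1 al (Z e) (X e) (u e) t * (s0 e : ℂ) * PL 2 t
  t1 : ∀ e, ∀ t ∈ band 2 r, Top al (Z e) (X e) (u e) (x1 e) t = - et al (Z e) (X e) t + m1 al (Z e) (X e) (u e) t * (s1 e : ℂ) * PL 2 t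
  t2 : ∀ e, ∀ t ∈ band 2 r, Top al (Z e) (X e) (u e) (x2 e) t = - Yf al (Z e) (X e) t + m1 al (Z e) (X e) (u e) t * (s2 e : ℂ) * PL 2 t
  b0 : ∀ ρ : ℝ, 0 < ρ → ρ ≤ 1/2 → ∀ e, ∀ z ∈ strip (r - ρ), ‖x0 e z‖ ≤ e1 * E * ρ ^ (-(9:ℝ)/2)
  b1 : ∀ ρ : ℝ, 0 < ρ → ρ ≤ 1/2 → ∀ e, ∀ z ∈ strip (r - ρ), ‖x1 e z + (Real.sin al * Real.cos al / lam al 0 : ℝ)‖ ≤ e2 * ρ ^ (-(9:ℝ)/2)
  b2 : ∀ ρ : ℝ, 0 < ρ → ρ ≤ 1/2 → ∀ e, ∀ z ∈ strip (r - ρ), ‖x2 e z‖ ≤ e2 * ρ ^ (-(9:ℝ)/2)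
  d0 : ∀ e, |s0 e| ≤ e1 * E
  d1 : ∀ e, |s1 e| ≤ e2
  d2 : ∀ e, |s2 e - Real.sin al| ≤ e2

end FB
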