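import Pool.Agent.H48.FB.NDefs
import Pool.Agent.H48.FB.G04
import Pool.Agent.H48.FB.G05
import Pool.Agent.H48.FB.M01
import Pool.Agent.H48.FB.J01

/-! O01: right inverse of the linearisation at the circle, with exponential divisors. -/

open Complex Set MeasureTheory Filter Topology

noncomputable section

namespace FB

theorem O01_cos_le {r : ℝ} {z : ℂ} (hz : z ∈ strip r) : ‖cos z‖ ≤ Real.exp r ∧ ‖sin z‖ ≤ Real.exp r := by
  have h1 : |z.im| ≤ r := (abs_lt.2 ⟨hz.1, hz.2⟩).le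
  exact ⟨(c01_cos_le z).trans (Real.exp_le_exp.2 h1), (c01_sin_le z).trans (Real.exp_le_exp.2 h1)⟩

/-- bounds at the circle -/
theorem O01_bound (R : ℝ) (hR : 3 ≤ R) : ∃ C : ℝ, 1 ≤ C ∧ ∀ al ∈ JJ, ∀ r : ℝ, 1 < r → r ≤ R → ∀ A B : ℂ → ℂ,
    DifferentiableOn ℂ A (band 1 r) → DifferentiableOn ℂ B (band 1 r) → ∀ d : ℝ,
    (∀ z ∈ band 1 r, ‖A z‖ ≤ d ∧ ‖B z‖ ≤ d) → ∀ t ∈ band 1 r, ‖DV al cos sin A B t‖ ≤ C * d ∧ ‖DS0 al cos sin A B t‖ ≤ C * d := by
  obtain ⟨c1, C1, hc1, hC1, H1⟩ := fam_variation R (by linarith)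
  refine ⟨C1, hC1, ?_⟩
  intro al hal r hr hrR A B hA hB d hd t ht
  have h := H1 al hal 1 r le_rfl hr hrR (fun _ => cos) (fun _ => sin)
    (g05_FNB (r := R) (by linarith) hrR (g05_circle c1 R hc1.le)) (fun _ => A) (fun _ => B) (Fam.const hA) (Fam.const hB) d
    (fun _ z hz => hd z hz)
  have h2 := h.2.2.2 (⟨0, by constructor <;> norm_num⟩ : EE) t ht
  exact ⟨h2.1, h2.2.1⟩

/-- linearity at the circle -/
theorem O01_lin (al : ℝ) (hal : al ∈ JJ) (r : ℝ) (A B A' B' : ℂ → ℂ) (hA : ContinuousOn A (band 1 r)) (hB : ContinuousOn B (band 1 r))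
    (hA' : ContinuousOn A' (band 1 r)) (hB' : ContinuousOn B' (band 1 r)) (t : ℂ) (ht : t ∈ band 1 r) (p q : ℂ) :
      DV al cos sin (fun z => p * A z + q * A' z) (fun z => p * B z + q * B' z) t =
        p * DV al cos sin A B t + q * DV al cos sin A' B' t ∧
      DS0 al cos sin (fun z => p * A z + q * A' z) (fun z => p * B z + q * B' z) t =
        p * DS0 al cos sin A B t + q * DS0 al cos sin A' B' t := by
  obtain ⟨c0, hc0, H⟩ := DV_add (max r 2) (lt_of_lt_of_le (by norm_num) (le_max_right r 2))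
  have h := H al hal 1 r le_rfl (le_max_left _ _) cos sin ((NB_circle 1 r).mono hc0.le le_rfl le_rfl) A B A' B' hA hB hA' hB' t ht p q
  exact ⟨h.1, h.2.1⟩

/-- the radial direction -/
theorem O01_radial {al : ℝ} (hal : al ∈ JJ) {t : ℂ} (ht : 1 < t.im) : DV al cos sin cos sin t = 3 * (Vs al : ℂ) ∧
    DS0 al cos sin cos sin t = 2 * (lam al 0 : ℂ) := by
  refine ⟨(DV_scaling hal ht).1, ?_⟩
  have htb : t ∈ band 1 (t.im + 1) := ⟨ht, by linarith⟩
  have h := (DS0_circle hal (f := fun _ => (2 : ℂ)) (b := t.im + 1) continuousOn_const htb).1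
  have h1 : (fun z : ℂ => (2 : ℂ) / 2 * cos z) = cos := by
    funext z
    norm_num
  have h2 : (fun z : ℂ => (2 : ℂ) / 2 * sin z) = sin := by
    funext z
    norm_num
  rw [h1, h2] at h
  rw [h]
  have h3 := L0_PL hal 0 ht
  rw [PL_zero, mul_one] at h3
  rw [← h3]
  unfold L0
  rw [← intervalIntegral.integral_const_mul]
  refine intervalIntegral.integral_congr fun s _ => ?_
  simp only [PL_zero]
  ring

/-- partial sums -/
theorem O01_partial {al : ℝ} (hal : al ∈ JJ) {r : ℝ} (x : ℕ → ℝ) (N : ℕ) {t : ℂ} (ht : t ∈ band 1 r) :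
    DS0 al cos sin (fun z => (∑ n ∈ Finset.range N, ((x n : ℝ) : ℂ) * PL n z) / 2 * cos z)
      (fun z => (∑ n ∈ Finset.range N, ((x n : ℝ) : ℂ) * PL n z) / 2 * sin z) t =
      ∑ n ∈ Finset.range N, ((lam al n * x n : ℝ) : ℂ) * PL n t := by
  induction N with
  | zero =>
    have h := (O01_lin al hal r cos sin cos sin continuous_cos.continuousOn continuous_sin.continuousOn
      continuous_cos.continuousOn continuous_sin.continuousOn t ht 0 0).2
    simp only [Finset.range_zero, Finset.sum_empty, zero_div, zero_mul, add_zero] at h ⊢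
    exact h
  | succ N ih =>
    have hPc : ∀ n, Continuous (PL n) := fun n => (PL_diff n).continuous
    have hSc : Continuous (fun z => ∑ n ∈ Finset.range N, ((x n : ℝ) : ℂ) * PL n z) :=
      continuous_finsetSum _ fun n _ => continuous_const.mul (hPc n)
    have h := (O01_lin al hal r
      (fun z => (∑ n ∈ Finset.range N, ((x n : ℝ) : ℂ) * PL n z) / 2 * cos z)
      (fun z => (∑ n ∈ Finset.range N, ((x n : ℝ) : ℂ) * PL n z) / 2 * sin z)
      (fun z => PL N z / 2 * cos z) (fun z => PL N z / 2 * sin z)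
      ((hSc.div_const 2).mul continuous_cos).continuousOn ((hSc.div_const 2).mul continuous_sin).continuousOn
      (((hPc N).div_const 2).mul continuous_cos).continuousOn (((hPc N).div_const 2).mul continuous_sin).continuousOn
      t ht 1 ((x N : ℝ) : ℂ)).2
    have h1 : (fun z => (∑ n ∈ Finset.range (N + 1), ((x n : ℝ) : ℂ) * PL n z) / 2 * cos z) =
        fun z => 1 * ((∑ n ∈ Finset.range N, ((x n : ℝ) : ℂ) * PL n z) / 2 * cos z) + ((x N : ℝ) : ℂ) * (PL N z / 2 * cos z) := by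
      funext z
      rw [Finset.sum_range_succ]
      ring
    have h2 : (fun z => (∑ n ∈ Finset.range (N + 1), ((x n : ℝ) : ℂ) * PL n z) / 2 * sin z) =
        fun z => 1 * ((∑ n ∈ Finset.range N, ((x n : ℝ) : ℂ) * PL n z) / 2 * sin z) + ((x N : ℝ) : ℂ) * (PL N z / 2 * sin z) := by
      funext z
      rw [Finset.sum_range_succ]
      ring
    rw [h1, h2, h, ih, (DS0_circle hal (hPc N).continuousOn ht).1, L0_PL hal N ht.1, Finset.sum_range_succ]
    push_cast
    ring

/-- the synthesised direction: limit of the partial sums -/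
theorem O01_series {al : ℝ} (hal : al ∈ JJ) {r : ℝ} (hr : 3 ≤ r) {x XM : ℕ → ℝ} (hx : ∀ n, |x n| ≤ XM n)
    (hs : Summable (fun n => XM n * WW n r)) {t : ℂ} (ht : t ∈ band 1 r) :
    Tendsto (fun N : ℕ => ∑ n ∈ Finset.range N, ((lam al n * x n : ℝ) : ℂ) * PL n t) atTop
      (𝓝 (DS0 al cos sin (fun z => (∑' n, ((x n : ℝ) : ℂ) * PL n z) / 2 * cos z)
        (fun z => (∑' n, ((x n : ℝ) : ℂ) * PL n z) / 2 * sin z) t)) := by
  obtain ⟨C, hC, HB⟩ := O01_bound r hr
  have hWp : ∀ n, 0 < WW n r := fun n => mul_pos (cc_pos _) (Real.exp_pos _)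
  have hXM : ∀ n, 0 ≤ XM n := fun n => (abs_nonneg _).trans (hx n)
  have hterm : ∀ (n : ℕ) (z : ℂ), |z.im| ≤ r → ‖((x n : ℝ) : ℂ) * PL n z‖ ≤ 4 * (XM n * WW n r) := by
    intro n z hz
    rw [norm_mul, Complex.norm_real, Real.norm_eq_abs]
    have h2 := PL_bound n (by linarith : (1:ℝ) ≤ r) hz
    calc |x n| * ‖PL n z‖ ≤ XM n * (4 * WW n r) := mul_le_mul (hx n) h2 (norm_nonneg _) (hXM n)
      _ = _ := by ring
  have hs4 := hs.mul_left 4
  set X : ℂ → ℂ := fun z => ∑' n, ((x n : ℝ) : ℂ) * PL n z with hX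
  have hsm : ∀ z : ℂ, |z.im| ≤ r → Summable (fun n => ((x n : ℝ) : ℂ) * PL n z) := fun z hz =>
    Summable.of_norm_bounded hs4 (fun n => hterm n z hz)
  have hXd : DifferentiableOn ℂ X (strip r) := by
    have h := (synthLeg hr (x := fun _ => x) (XM := XM) (fun _ => continuous_const) (fun _ => hx) (by
      intro r' h1 h2
      refine Summable.of_nonneg_of_le (fun n => mul_nonneg (hXM n) (mul_pos (cc_pos _) (Real.exp_pos _)).le) (fun n => ?_) hs
      refine mul_le_mul_of_nonneg_left ?_ (hXM n)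
      unfold WW
      refine mul_le_mul_of_nonneg_left (Real.exp_le_exp.2 ?_) (cc_pos _).le
      have : (0:ℝ) ≤ n := Nat.cast_nonneg n
      nlinarith)).1
    exact h.diff ⟨0, by constructor <;> norm_num⟩
  set P : ℕ → ℂ → ℂ := fun N z => ∑ n ∈ Finset.range N, ((x n : ℝ) : ℂ) * PL n z with hP
  have hPd : ∀ N, Differentiable ℂ (P N) := by
    intro N z
    exact DifferentiableAt.fun_sum fun n _ => (PL_diff n z).const_mul _
  have hsub : band 1 r ⊆ strip r := band_subset (by linarith) le_rfl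
  -- tail
  have htail : ∀ N, ∀ z ∈ strip r, ‖X z - P N z‖ ≤ ∑' n, 4 * (XM (n + N) * WW (n + N) r) := by
    intro N z hz
    have hz' : |z.im| ≤ r := (abs_lt.2 ⟨hz.1, hz.2⟩).le
    have h1 : X z - P N z = ∑' n, ((x (n + N) : ℝ) : ℂ) * PL (n + N) z := by
      rw [hX, hP]
      simp only
      rw [← (hsm z hz').sum_add_tsum_nat_add N]
      ring
    rw [h1]
    exact tsum_of_norm_bounded ((summable_nat_add_iff N).2 hs4).hasSum (fun n => hterm (n + N) z hz')
  have htend : Tendsto (fun N : ℕ => ∑' n, 4 * (XM (n + N) * WW (n + N) r)) atTop (𝓝 0) :=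
    tendsto_sum_nat_add (fun n => 4 * (XM n * WW n r))
  have hkey : ∀ N, ‖(∑ n ∈ Finset.range N, ((lam al n * x n : ℝ) : ℂ) * PL n t) -
      DS0 al cos sin (fun z => X z / 2 * cos z) (fun z => X z / 2 * sin z) t‖ ≤
      C * ((∑' n, 4 * (XM (n + N) * WW (n + N) r)) * Real.exp r) := by
    intro N
    have hcX : ContinuousOn X (band 1 r) := (hXd.mono hsub).continuousOn
    have h1 := (O01_lin al hal r (fun z => X z / 2 * cos z) (fun z => X z / 2 * sin z)
      (fun z => P N z / 2 * cos z) (fun z => P N z / 2 * sin z)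
      ((hcX.div_const 2).mul continuous_cos.continuousOn) ((hcX.div_const 2).mul continuous_sin.continuousOn)
      (((hPd N).continuous.div_const 2).mul continuous_cos).continuousOn
      (((hPd N).continuous.div_const 2).mul continuous_sin).continuousOn t ht 1 (-1)).2
    have h2 := O01_partial hal (r := r) x N ht
    have h3 : DS0 al cos sin (fun z => P N z / 2 * cos z) (fun z => P N z / 2 * sin z) t =
      ∑ n ∈ Finset.range N, ((lam al n * x n : ℝ) : ℂ) * PL n t := h2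
    rw [h3] at h1
    have h4 : (∑ n ∈ Finset.range N, ((lam al n * x n : ℝ) : ℂ) * PL n t) -
      DS0 al cos sin (fun z => X z / 2 * cos z) (fun z => X z / 2 * sin z) t =
      -(DS0 al cos sin (fun z => 1 * (X z / 2 * cos z) + -1 * (P N z / 2 * cos z))
        (fun z => 1 * (X z / 2 * sin z) + -1 * (P N z / 2 * sin z)) t) := by
      rw [h1]
      ring
    rw [h4, norm_neg]
    refine (HB al hal r (by linarith) le_rfl _ _ ?_ ?_ _ ?_ t ht).2
    · exact ((((hXd.mono hsub).div_const 2).mul differentiable_cos.differentiableOn).const_mul 1).add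
        ((((hPd N).differentiableOn.div_const 2).mul differentiable_cos.differentiableOn).const_mul (-1))
    · exact ((((hXd.mono hsub).div_const 2).mul differentiable_sin.differentiableOn).const_mul 1).add
        ((((hPd N).differentiableOn.div_const 2).mul differentiable_sin.differentiableOn).const_mul (-1))
    · intro z hz
      have h5 := htail N z (hsub hz)
      obtain ⟨h6, h7⟩ := O01_cos_le (hsub hz)
      have h8 : (0:ℝ) ≤ ∑' n, 4 * (XM (n + N) * WW (n + N) r) := (norm_nonneg _).trans h5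
      have h9 : ∀ w : ℂ, ‖w‖ ≤ Real.exp r → ‖1 * (X z / 2 * w) + -1 * (P N z / 2 * w)‖ ≤
          (∑' n, 4 * (XM (n + N) * WW (n + N) r)) * Real.exp r := by
        intro w hw
        have : 1 * (X z / 2 * w) + -1 * (P N z / 2 * w) = (X z - P N z) * w / 2 := by ring
        rw [this, norm_div, norm_mul]
        have h10 : ‖X z - P N z‖ * ‖w‖ ≤ (∑' n, 4 * (XM (n + N) * WW (n + N) r)) * Real.exp r :=
          mul_le_mul h5 hw (norm_nonneg _) h8
        have h11 : ‖(2:ℂ)‖ = 2 := by simp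
        rw [h11]
        have h12 : 0 ≤ ‖X z - P N z‖ * ‖w‖ := by positivity
        linarith
      exact ⟨h9 _ h6, h9 _ h7⟩
  rw [tendsto_iff_norm_sub_tendsto_zero]
  refine squeeze_zero (fun N => norm_nonneg _) hkey ?_
  have := (htend.mul_const (Real.exp r)).const_mul C
  simpa using this


/-- Fourier coefficients on the band with the limit weight -/
theorem O01_fourier {r B : ℝ} (hr : 1 < r) {f : EE → ℂ → ℂ} (hf : Fam (band 1 r) f)
    (hp : ∀ e, ∀ z ∈ band 1 r, f e (z + (Real.pi : ℂ)) = f e z) (he : ∀ e, EvenExt 1 r (f e))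
    (hcj : ∀ e, ∀ z ∈ band 1 r, f e (-(starRingEnd ℂ) z) = (starRingEnd ℂ) (f e z)) (hB : ∀ e, ∀ z ∈ band 1 r, ‖f e z‖ ≤ B) :
    ∃ φ : EE → ℕ → ℝ, (∀ m, Continuous (fun e => φ e m)) ∧ (∀ e, ∀ z ∈ band 1 r, f e z = cosS (φ e) z) ∧
      (∀ e (m : ℕ), |φ e m| ≤ B * Real.exp (-(2 * m * r))) := by
  obtain ⟨φ, hφc, hφf, hφb, -⟩ := fourierEven (zero_le_one) hr hf hp he hcj
  refine ⟨φ, hφc, hφf, ?_⟩
  intro e m
  have hy : ∀ y ∈ Ioo 1 r, |φ e m| ≤ B * Real.exp (-(2 * m * y)) := fun y hy =>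
    hφb e m y hy B (fun x => hB e _ ⟨by simpa using hy.1, by simpa using hy.2⟩)
  have hc : Continuous (fun y : ℝ => B * Real.exp (-(2 * m * y))) := by fun_prop
  have ht : Tendsto (fun y : ℝ => B * Real.exp (-(2 * m * y))) (𝓝[<] r)
      (𝓝 (B * Real.exp (-(2 * m * r)))) := (hc.tendsto r).mono_left nhdsWithin_le_nhds
  refine ge_of_tendsto ht ?_
  filter_upwards [Ioo_mem_nhdsLT hr] with y hy' using hy y hy'

/-- the cohomological part: from an even function `f` given on the upper band, a function `τ` with `κ (τ(t + al) - τ(t - al)) = ψ 0 - f` -/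
theorem O01_tau {al c b : ℝ} (hal : al ∈ JJ) (hEB : EB al c b) {r B : ℝ} (hr : b / 2 + 1 < r) (hB0 : 0 ≤ B) {f : EE → ℂ → ℂ}
    (hf : Fam (band 1 r) f)
    (hp : ∀ e, ∀ z ∈ band 1 r, f e (z + (Real.pi : ℂ)) = f e z) (he : ∀ e, EvenExt 1 r (f e))
    (hcj : ∀ e, ∀ z ∈ band 1 r, f e (-(starRingEnd ℂ) z) = (starRingEnd ℂ) (f e z)) (hB : ∀ e, ∀ z ∈ band 1 r, ‖f e z‖ ≤ B) :
    ∃ (ψ0 : EE → ℝ) (τ : EE → ℂ → ℂ), Continuous ψ0 ∧ (∀ e, |ψ0 e| ≤ B) ∧ Fam (strip (r - b / 2)) τ ∧
      (∀ e, ∀ z ∈ strip (r - b / 2), τ e (-z) = - τ e z) ∧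
      (∀ e, ∀ z ∈ strip (r - b / 2), τ e (z + (Real.pi : ℂ)) = τ e z) ∧
      (∀ e, ∀ z ∈ strip (r - b / 2), τ e ((starRingEnd ℂ) z) = (starRingEnd ℂ) (τ e z)) ∧
      (∀ e, ∀ z ∈ band 1 (r - b / 2), (Real.pi / 2 : ℂ) * (Real.sin al : ℂ) ^ 3 * (τ e (z + (al:ℂ)) - τ e (z - (al:ℂ))) =
        (ψ0 e : ℂ) - f e z) ∧
      ∀ e, ∀ z : ℂ, |z.im| ≤ r - b / 2 - 1 / 2 → ‖τ e z‖ ≤ B / c := by
  have hb1 := hEB.b0
  have hc0 := hEB.c0
  obtain ⟨ψ, hψc, hψf, hψb⟩ := O01_fourier (by linarith) hf hp he hcj hB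
  obtain ⟨-, -, -, -, -, hsin, -⟩ := JJ_bounds hal
  have hpi := Real.pi_gt_three
  set κ : ℝ := Real.pi / 2 * Real.sin al ^ 3 with hκ
  have hκ1 : 1 ≤ κ := by
    have h1 : (0.92:ℝ) ^ 3 ≤ Real.sin al ^ 3 := pow_le_pow_left₀ (by norm_num) hsin.le 3
    have h2 : (3:ℝ) / 2 * (0.92:ℝ) ^ 3 ≤ Real.pi / 2 * Real.sin al ^ 3 :=
      mul_le_mul (by linarith) h1 (by positivity) (by positivity)
    have h3 : (1:ℝ) ≤ 3 / 2 * 0.92 ^ 3 := by norm_num
    linarith
  have hκ0 : (κ : ℂ) ≠ 0 := by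
    have : κ ≠ 0 := by linarith
    exact_mod_cast this
  set φ : EE → ℕ → ℝ := fun e m => if m = 0 then 0 else - ψ e m / κ with hφ
  set F : ℕ → ℝ := fun m => B * Real.exp (-(2 * m * r)) with hF
  have hFn : ∀ m, 0 ≤ F m := fun m => mul_nonneg hB0 (Real.exp_pos _).le
  set s : ℕ → ℝ := fun m => c * Real.exp (-(b * m)) with hs
  have hquot : ∀ (r' : ℝ) (m : ℕ), F (m + 1) / s (m + 1) * Real.exp (2 * ((m:ℝ) + 1) * r') =
      B / c * Real.exp (-(2 * (r - b / 2 - r'))) ^ (m + 1) := by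
    intro r' m
    rw [← Real.exp_nat_mul, hF, hs]
    simp only
    rw [mul_div_mul_comm, ← Real.exp_sub, mul_assoc, ← Real.exp_add]
    congr 2
    push_cast
    ring
  have hgeo : ∀ r' : ℝ, r' < r - b / 2 → Summable (fun m : ℕ => F (m + 1) / s (m + 1) * Real.exp (2 * ((m:ℝ) + 1) * r')) := by
    intro r' hr'
    have h1 : Real.exp (-(2 * (r - b / 2 - r'))) < 1 := by
      rw [Real.exp_lt_one_iff]
      linarith
    have h2 := ((summable_nat_add_iff 1).2 (summable_geometric_of_lt_one (Real.exp_pos _).le h1)).mul_left (B / c)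
    exact h2.congr fun m => (hquot r' m).symm
  obtain ⟨τ, hτf, hτo, hτp, hτr, hτe, hτb⟩ := coh_odd (b := r - b / 2) (by linarith) (al := al) (s := s)
    (fun m hm => ⟨mul_pos hc0 (Real.exp_pos _), hEB.hs m hm⟩) (φ := φ) (F := F) (by
      intro m
      by_cases hm : m = 0
      · simp only [hφ, hm, if_true]
        exact continuous_const
      · simp only [hφ, hm, if_false]
        exact (hψc m).neg.div_const κ) (fun e => by simp [hφ]) (by
      intro e m
      by_cases hm : m = 0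
      · simp only [hφ, hm, if_true, abs_zero]
        exact hFn 0
      · simp only [hφ, hm, if_false]
        rw [abs_div, abs_neg, abs_of_pos (by linarith : 0 < κ)]
        rw [div_le_iff₀ (by linarith)]
        have h1 := hψb e m
        have h2 := hFn m
        nlinarith) (fun r' _ h => hgeo r' h)
  refine ⟨fun e => ψ e 0, τ, hψc 0, fun e => by simpa using hψb e 0, hτf, hτo, hτp, hτr, ?_, ?_⟩
  · intro e z hz
    have hz1 : z ∈ strip (r - b / 2) := band_subset (by linarith) le_rfl hz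
    have hz2 : z ∈ band 1 r := band_subset le_rfl (by linarith) hz
    rw [hτe e z hz1, hψf e z hz2]
    have h1 : (Real.pi / 2 : ℂ) * (Real.sin al : ℂ) ^ 3 = (κ : ℂ) := by
      rw [hκ]
      push_cast
      ring
    rw [h1]
    unfold cosS
    have h2 : ∑' m : ℕ, (φ e (m + 1) : ℂ) * cos (2 * ((m : ℂ) + 1) * z) =
        (-(1 / (κ : ℂ))) * ∑' m : ℕ, (ψ e (m + 1) : ℂ) * cos (2 * ((m : ℂ) + 1) * z) := by
      rw [← tsum_mul_left]
      refine tsum_congr fun m => ?_
      have : φ e (m + 1) = - ψ e (m + 1) / κ := by simp [hφ]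
      rw [this]
      push_cast
      ring
    rw [h2]
    have h3 : φ e 0 = 0 := by simp [hφ]
    rw [h3]
    generalize (∑' m : ℕ, (ψ e (m + 1) : ℂ) * cos (2 * ((m : ℂ) + 1) * z)) = T
    push_cast
    field_simp
    ring
  · intro e z hz
    refine (hτb (r - b / 2 - 1 / 2) (by linarith) (by linarith) e z hz).trans ?_
    have h1 : ∀ m : ℕ, F (m + 1) / s (m + 1) * Real.exp (2 * ((m:ℝ) + 1) * (r - b / 2 - 1 / 2)) =
        B / c * (Real.exp (-1) ^ (m + 1)) := by
      intro m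
      rw [hquot]
      congr 3
      ring
    rw [tsum_congr h1, tsum_mul_left]
    have hq : Real.exp (-1) < 1 / 2 := by
      rw [Real.exp_neg, inv_eq_one_div]
      have := Real.exp_one_gt_d9
      rw [div_lt_div_iff₀ (Real.exp_pos _) (by norm_num)]
      linarith
    have h2 : ∑' m : ℕ, Real.exp (-1) ^ (m + 1) = Real.exp (-1) * (1 - Real.exp (-1))⁻¹ := by
      simp_rw [pow_succ']
      rw [tsum_mul_left, tsum_geometric_of_lt_one (Real.exp_pos _).le (by linarith)]
    rw [h2]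
    have h3 : Real.exp (-1) * (1 - Real.exp (-1))⁻¹ ≤ 1 := by
      rw [← div_eq_mul_inv, div_le_one (by linarith)]
      linarith
    have h4 : 0 ≤ B / c := by positivity
    nlinarith


/-- the normal part: `x = ∑ x_n PL n` with `lam_n x_n = - l_n`, `n ≠ 0, 2` -/
theorem O01_normal {al c b : ℝ} (hal : al ∈ JJ) (hEB : EB al c b) {r : ℝ} (hr : 3 < r) {S : ℝ} {f : EE → ℂ → ℂ}
    {l : EE → ℕ → ℝ} {L : ℕ → ℝ} (hlc : ∀ n, Continuous (fun e => l e n)) (hlL : ∀ e n, |l e n| ≤ L n)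
    (hLs : Summable (fun n : ℕ => L n * WW n (r + b / 2))) (hLS : ∑' n : ℕ, L n * WW n (r + b / 2) ≤ S)
    (hlf : ∀ e, ∀ z ∈ band 1 r, HasSum (fun n => ((l e n : ℝ) : ℂ) * PL n z) (f e z)) :
    ∃ x : EE → ℂ → ℂ, EPR r x ∧ (∀ e, ∀ z ∈ strip r, ‖x e z‖ ≤ 4 / c * S) ∧
      ∀ e, ∀ t ∈ band 1 r, DS0 al cos sin (fun z => x e z / 2 * cos z) (fun z => x e z / 2 * sin z) t =
        - f e t + (l e 0 : ℂ) + (l e 2 : ℂ) * PL 2 t := by
  have hb1 := hEB.b0
  have hc0 := hEB.c0
  have hL0 : ∀ n, 0 ≤ L n := fun n => (abs_nonneg _).trans (hlL ⟨0, by constructor <;> norm_num⟩ n)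
  have hWp : ∀ n r, 0 < WW n r := fun n r => mul_pos (cc_pos _) (Real.exp_pos _)
  set y : EE → ℕ → ℝ := fun e n => if n = 0 ∨ n = 2 then 0 else - l e n / lam al n with hy
  set XM : ℕ → ℝ := fun n => 1 / c * Real.exp (b * n) * L n with hXM
  have hXM0 : ∀ n, 0 ≤ XM n := fun n => mul_nonneg (by positivity) (hL0 n)
  have hlam : ∀ n, n ≠ 2 → 0 < |lam al n| := fun n hn =>
    lt_of_lt_of_le (mul_pos hc0 (Real.exp_pos _)) (hEB.hl n hn)
  have hyX : ∀ e n, |y e n| ≤ XM n := by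
    intro e n
    by_cases hn : n = 0 ∨ n = 2
    · simp only [hy, hn, if_true, abs_zero]
      exact hXM0 n
    · simp only [hy, hn, if_false]
      push Not at hn
      have h1 := hlam n hn.2
      rw [abs_div, abs_neg, div_le_iff₀ h1]
      have h2 := hEB.hl n hn.2
      have h3 : XM n * (c * Real.exp (-(b * n))) = L n := by
        rw [hXM]
        simp only
        have h4 : Real.exp (b * n) * Real.exp (-(b * n)) = 1 := by
          rw [← Real.exp_add]
          simp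
        calc 1 / c * Real.exp (b * n) * L n * (c * Real.exp (-(b * n))) = (c / c) * (Real.exp (b * n) * Real.exp (-(b * n))) * L n := by
              field_simp
          _ = L n := by
              rw [h4, div_self hc0.ne']
              ring
      calc |l e n| ≤ L n := hlL e n
        _ = XM n * (c * Real.exp (-(b * n))) := h3.symm
        _ ≤ XM n * |lam al n| := mul_le_mul_of_nonneg_left h2 (hXM0 n)
  have hyc : ∀ n, Continuous (fun e => y e n) := by
    intro n
    by_cases hn : n = 0 ∨ n = 2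
    · simp only [hy, hn, if_true]
      exact continuous_const
    · simp only [hy, hn, if_false]
      exact (hlc n).neg.div_const _
  have hXW : ∀ n, XM n * WW n r = 1 / c * (L n * WW n (r + b / 2)) := by
    intro n
    rw [hXM]
    unfold WW
    simp only
    have h4 : Real.exp (2 * n * (r + b / 2)) = Real.exp (b * n) * Real.exp (2 * n * r) := by
      rw [← Real.exp_add]
      congr 1
      ring
    rw [h4]
    ring
  have hs : Summable (fun n => XM n * WW n r) := (hLs.mul_left (1 / c)).congr fun n => (hXW n).symm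
  have hsS : ∑' n, XM n * WW n r ≤ 1 / c * S := by
    rw [tsum_congr hXW, tsum_mul_left]
    exact mul_le_mul_of_nonneg_left hLS (by positivity)
  have hWmono : ∀ r', r' ≤ r → ∀ n, XM n * WW n r' ≤ XM n * WW n r := by
    intro r' hr' n
    refine mul_le_mul_of_nonneg_left ?_ (hXM0 n)
    unfold WW
    refine mul_le_mul_of_nonneg_left (Real.exp_le_exp.2 ?_) (cc_pos _).le
    have : (0:ℝ) ≤ n := Nat.cast_nonneg n
    nlinarith
  have hs' : ∀ r', r' ≤ r → Summable (fun n => XM n * WW n r') := fun r' hr' =>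
    Summable.of_nonneg_of_le (fun n => mul_nonneg (hXM0 n) (hWp n r').le) (hWmono r' hr') hs
  obtain ⟨hxf, hxs, hxe, hxb⟩ := synthLeg (r := r) hr.le hyc hyX (fun r' _ h => hs' r' h.le)
  refine ⟨fun e z => ∑' n, ((y e n : ℝ) : ℂ) * PL n z, ⟨hxf, fun e z hz => (hxe e z hz).1, fun e z hz => (hxe e z hz).2.1,
    fun e z hz => (hxe e z hz).2.2⟩, ?_, ?_⟩
  · intro e z hz
    have hz' : |z.im| < r := abs_lt.2 ⟨hz.1, hz.2⟩
    have h1 : max (5/2) |z.im| < r := max_lt (by linarith) hz'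
    have h2 := hxb (max (5/2) |z.im|) (le_max_left _ _) h1 e z (le_max_right _ _)
    have h3 : ∑' n, XM n * WW n (max (5/2) |z.im|) ≤ ∑' n, XM n * WW n r :=
      (hs' _ h1.le).tsum_le_tsum (hWmono _ h1.le) hs
    calc _ ≤ 4 * ∑' n, XM n * WW n (max (5/2) |z.im|) := h2
      _ ≤ 4 * (1 / c * S) := by linarith
      _ = _ := by ring
  · intro e t ht
    have h1 := O01_series hal hr.le (hyX e) hs ht
    have h2 : Tendsto (fun N : ℕ => ∑ n ∈ Finset.range N, ((lam al n * y e n : ℝ) : ℂ) * PL n t) atTop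
        (𝓝 (- f e t + (l e 0 : ℂ) + (l e 2 : ℂ) * PL 2 t)) := by
      have h3 := (hlf e t ht).tendsto_sum_nat
      have h4 : Tendsto (fun N : ℕ => -(∑ n ∈ Finset.range N, ((l e n : ℝ) : ℂ) * PL n t) + (l e 0 : ℂ) + (l e 2 : ℂ) * PL 2 t) atTop
        (𝓝 (- f e t + (l e 0 : ℂ) + (l e 2 : ℂ) * PL 2 t)) := (h3.neg.add_const _).add_const _
      refine h4.congr' ?_
      filter_upwards [eventually_ge_atTop 3] with N hN
      have h5 : ∀ n ∈ Finset.range N, ((lam al n * y e n : ℝ) : ℂ) * PL n t = -(((l e n : ℝ) : ℂ) * PL n t) +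
          ((if n = 0 then (l e 0 : ℂ) else 0) + (if n = 2 then (l e 2 : ℂ) * PL 2 t else 0)) := by
        intro n _
        by_cases hn0 : n = 0
        · subst hn0
          simp [hy, PL_zero]
        · by_cases hn2 : n = 2
          · subst hn2
            simp [hy]
          · have h6 : y e n = - l e n / lam al n := by simp [hy, hn0, hn2]
            have h7 : lam al n ≠ 0 := abs_pos.1 (hlam n hn2)
            have h8 : lam al n * y e n = - l e n := by
              rw [h6]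
              field_simp
            rw [h8, if_neg hn0, if_neg hn2]
            push_cast
            ring
      rw [Finset.sum_congr rfl h5, Finset.sum_add_distrib, Finset.sum_add_distrib, Finset.sum_neg_distrib,
        Finset.sum_ite_eq' , Finset.sum_ite_eq', if_pos (Finset.mem_range.2 (by omega)), if_pos (Finset.mem_range.2 (by omega))]
      ring
    exact tendsto_nhds_unique h1 h2


/-- the assembled direction -/
def O01_A (x τ : ℂ → ℂ) (x0 : ℝ) (z : ℂ) : ℂ := (x z + (x0 : ℂ)) / 2 * cos z - τ z * sin z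
def O01_B (x τ : ℂ → ℂ) (x0 : ℝ) (z : ℂ) : ℂ := (x z + (x0 : ℂ)) / 2 * sin z + τ z * cos z

theorem O01_eval {al : ℝ} (hal : al ∈ JJ) {r : ℝ} {x τ : ℂ → ℂ} {x0 : ℝ} (hx : ContinuousOn x (band 1 r)) (hτ : ContinuousOn τ (band 1 r))
    {t : ℂ} (ht : t ∈ band 1 r) :
    DS0 al cos sin (O01_A x τ x0) (O01_B x τ x0) t =
      DS0 al cos sin (fun z => x z / 2 * cos z) (fun z => x z / 2 * sin z) t + (x0 : ℂ) * (lam al 0 : ℂ) ∧
    DV al cos sin (O01_A x τ x0) (O01_B x τ x0) t =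
      DV al cos sin (fun z => x z / 2 * cos z) (fun z => x z / 2 * sin z) t + 3 / 2 * (x0 : ℂ) * (Vs al : ℂ) +
        (Real.pi / 2 : ℂ) * (Real.sin al : ℂ) ^ 3 * (τ (t + al) - τ (t - al)) := by
  have hcc : ContinuousOn cos (band 1 r) := continuous_cos.continuousOn
  have hss : ContinuousOn sin (band 1 r) := continuous_sin.continuousOn
  have hA0 : ContinuousOn (fun z => x z / 2 * cos z) (band 1 r) := (hx.div_const 2).mul hcc
  have hB0 : ContinuousOn (fun z => x z / 2 * sin z) (band 1 r) := (hx.div_const 2).mul hss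
  have hA1 : ContinuousOn (fun z => 1 * (x z / 2 * cos z) + (x0 : ℂ) / 2 * cos z) (band 1 r) :=
    (continuousOn_const.mul hA0).add (continuousOn_const.mul hcc)
  have hB1 : ContinuousOn (fun z => 1 * (x z / 2 * sin z) + (x0 : ℂ) / 2 * sin z) (band 1 r) :=
    (continuousOn_const.mul hB0).add (continuousOn_const.mul hss)
  have hA2 : ContinuousOn (fun z => τ z * (- sin z)) (band 1 r) := hτ.mul hss.neg
  have hB2 : ContinuousOn (fun z => τ z * cos z) (band 1 r) := hτ.mul hcc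
  have h1 := O01_lin al hal r _ _ _ _ hA1 hB1 hA2 hB2 t ht 1 1
  have h2 := O01_lin al hal r _ _ _ _ hA0 hB0 hcc hss t ht 1 ((x0 : ℂ) / 2)
  have h3 := O01_radial hal ht.1
  have h4 := DS0_circle_tan hal (τ := τ) ht
  have e1 : O01_A x τ x0 = fun z => 1 * (1 * (x z / 2 * cos z) + (x0 : ℂ) / 2 * cos z) + 1 * (τ z * (- sin z)) := by
    funext z
    unfold O01_A
    ring
  have e2 : O01_B x τ x0 = fun z => 1 * (1 * (x z / 2 * sin z) + (x0 : ℂ) / 2 * sin z) + 1 * (τ z * cos z) := by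
    funext z
    unfold O01_B
    ring
  rw [e1, e2]
  constructor
  · rw [h1.2, h2.2, h3.2, h4.1]
    ring
  · rw [h1.1, h2.1, h3.1, h4.2]
    ring

theorem O01_sym {r : ℝ} {x τ : ℂ → ℂ} {x0 : ℝ} (xe : ∀ z ∈ strip r, x (-z) = x z) (xp : ∀ z ∈ strip r, x (z + (Real.pi:ℂ)) = x z)
    (xr : ∀ z ∈ strip r, x ((starRingEnd ℂ) z) = (starRingEnd ℂ) (x z)) (te : ∀ z ∈ strip r, τ (-z) = - τ z)
    (tp : ∀ z ∈ strip r, τ (z + (Real.pi:ℂ)) = τ z) (tr : ∀ z ∈ strip r, τ ((starRingEnd ℂ) z) = (starRingEnd ℂ) (τ z)) :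
    Sym r (O01_A x τ x0) (O01_B x τ x0) ∧ RealC r (O01_A x τ x0) (O01_B x τ x0) := by
  refine ⟨⟨fun z hz => ?_, fun z hz => ?_, fun z hz => ?_, fun z hz => ?_⟩, ⟨fun z hz => ?_, fun z hz => ?_⟩⟩
  · unfold O01_A
    rw [xe z hz, te z hz, Complex.cos_neg, Complex.sin_neg]
    ring
  · unfold O01_B
    rw [xe z hz, te z hz, Complex.cos_neg, Complex.sin_neg]
    ring
  · unfold O01_A
    rw [xp z hz, tp z hz, Complex.cos_add_pi, Complex.sin_add_pi]
    ring
  · unfold O01_B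
    rw [xp z hz, tp z hz, Complex.cos_add_pi, Complex.sin_add_pi]
    ring
  · unfold O01_A
    rw [xr z hz, tr z hz, Complex.cos_conj, Complex.sin_conj]
    simp only [map_sub, map_mul, map_add, map_div₀, Complex.conj_ofReal, map_ofNat]
  · unfold O01_B
    rw [xr z hz, tr z hz, Complex.cos_conj, Complex.sin_conj]
    simp only [map_mul, map_add, map_div₀, Complex.conj_ofReal, map_ofNat]

theorem O01_dirBd {r : ℝ} {A B : ℂ → ℂ} {d : ℝ} (hA : DifferentiableOn ℂ A (strip (r + 1))) (hB : DifferentiableOn ℂ B (strip (r + 1)))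
    (hA0 : ∀ z ∈ strip (r + 1), ‖A z‖ ≤ d) (hB0 : ∀ z ∈ strip (r + 1), ‖B z‖ ≤ d) (hd : 0 ≤ d) : DirBd (2 * d) (-r) r A B := by
  have hsub : band (-r) r ⊆ strip (r + 1) := band_subset (by linarith) (by linarith)
  have hcau : ∀ g : ℂ → ℂ, DifferentiableOn ℂ g (strip (r + 1)) → (∀ z ∈ strip (r + 1), ‖g z‖ ≤ d) → ∀ z ∈ band (-r) r,
      ‖deriv g z‖ ≤ 2 * d := by
    intro g hg hgd z hz
    have hball : Metric.closedBall z (1/2) ⊆ strip (r + 1) := by
      intro w hw
      rw [Metric.mem_closedBall, dist_eq_norm] at hw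
      have h1 := Complex.abs_im_le_norm (w - z)
      rw [Complex.sub_im] at h1
      have h2 := abs_le.1 (h1.trans hw)
      rw [mem_strip]
      obtain ⟨h3, h4⟩ := hz
      constructor <;> linarith
    have h1 : DiffContOnCl ℂ g (Metric.ball z (1/2)) := by
      refine DifferentiableOn.diffContOnCl ?_
      rw [closure_ball z (by norm_num)]
      exact hg.mono hball
    have h2 := Complex.norm_deriv_le_of_forall_mem_sphere_norm_le (by norm_num : (0:ℝ) < 1/2) h1
      (fun w hw => hgd w (hball (Metric.sphere_subset_closedBall hw)))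
    calc ‖deriv g z‖ ≤ d / (1/2) := h2
      _ = 2 * d := by ring
  exact ⟨hA.mono hsub, hB.mono hsub, fun z hz => (hA0 z (hsub hz)).trans (by linarith),
    fun z hz => (hB0 z (hsub hz)).trans (by linarith), hcau A hA hA0, hcau B hB hB0⟩

/-- `Vs` and `lam 0` are bounded -/
theorem O01_consts : ∃ C : ℝ, 1 ≤ C ∧ ∀ al ∈ JJ, |Vs al| ≤ C ∧ 0 < lam al 0 ∧ lam al 0 ≤ 2 + 2 * C ∧ 1 ≤ 2 * M0 al * Real.sin al := by
  obtain ⟨c4, CF, hc4, hCF, HF⟩ := fam_functionals 3 (by norm_num)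
  refine ⟨CF, hCF, ?_⟩
  intro al hal
  obtain ⟨-, -, -, hc1, hc2, hs1, hs2⟩ := JJ_bounds hal
  have hV : |Vs al| ≤ CF := by
    have h := (HF al hal 1 3 le_rfl (by norm_num) le_rfl (fun _ => cos) (fun _ => sin)
      (g05_FNB (r := 3) (by norm_num) le_rfl (g05_circle c4 3 hc4.le))).2.2.2.2.2 (⟨0, by constructor <;> norm_num⟩ : EE) (2 * I)
      (by constructor <;> norm_num)
    exact (Complex.abs_re_le_norm _).trans h.1
  have hM : M0 al ≤ 1 := by
    unfold M0
    have h1 : Real.sin al ^ 4 ≤ 1 := pow_le_one₀ (by linarith) (Real.sin_le_one _)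
    have h2 : (0:ℝ) ≤ Real.sin al ^ 4 := by positivity
    have h3 := Real.pi_lt_d2
    nlinarith
  have hM1 : (0.56 : ℝ) ≤ M0 al := by
    unfold M0
    have h1 : (0.92 : ℝ) ^ 4 ≤ Real.sin al ^ 4 := pow_le_pow_left₀ (by norm_num) hs1.le 4
    have h3 := Real.pi_gt_d2
    have h4 : (3.14 : ℝ) / 4 * 0.92 ^ 4 ≤ Real.pi / 4 * Real.sin al ^ 4 :=
      mul_le_mul (by linarith) h1 (by positivity) (by positivity)
    have h5 : (0.56 : ℝ) ≤ 3.14 / 4 * 0.92 ^ 4 := by norm_num
    linarith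
  refine ⟨hV, (D0_rel hal).1, ?_, ?_⟩
  · have h := lam0_rel hal
    have h1 : 4 * M0 al * Real.sin al ≤ 4 := by nlinarith
    have h2 : |3 * Real.sin al * Real.cos al * Vs al| ≤ 3 * CF := by
      rw [abs_mul]
      have h3 : |3 * Real.sin al * Real.cos al| ≤ 3 := by
        rw [abs_of_nonneg (by positivity)]
        nlinarith
      exact mul_le_mul h3 hV (abs_nonneg _) (by norm_num)
    have h4 := neg_abs_le (3 * Real.sin al * Real.cos al * Vs al)
    linarith
  · nlinarith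

/-- Legendre coefficients `l n` of `f` (`legOf`, `ρ = 1/2`: norm `≤ C E` at `r - 1/2`). `x_n = - l_n/lam_n` for `n ≠ 0, 2`, `x_2 = 0`,
`x_0 = - (l_0 + dV sin cos)/lam_0`, `dm = - l_2/sin al`. As `|x_n| ≤ (1/c) e^{bn} |l_n|`, the function `x = ∑ x_n PL n` is bounded by `C (E + |dV|)` on
`strip (r - 1/2 - b/2)`. Normal direction `(x/2) (cos, sin)`: `DS0_circle` gives `DS0 = L0 x = ∑ lam_n x_n PL n` (termwise as in M02; `L0_PL`), so the first
equation holds on `band 1 (..)`. Let `w = DV` of the normal direction (`= S0 x - ..`, or by `quad` bounds `≤ C |x|`), written as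
`w = w~ + (3/2) x_0 Vs` (`DV_scaling`), `w~` from `x~ = x - x_0`. The function `g = dV - v - w` must have mean `0`:
`dV (1 + (3/2) Vs sin cos/lam_0) = mean v + mean w~ - (3/2) Vs l_0/lam_0` (`D0_rel`: the factor is `2 M0 sin al/lam_0 > 0`): this defines `dV`
(continuous in `e`, `≤ C E`). `g/((pi/2) sin^3 al)` is even, periodic, real (`DV_even`), bounded by `C E` on `band 1 (r - 1 - b/2)`; `fourierEven`,
`coh_odd` with `s m = c e^{-bm}` on `strip (r - 3/2 - b)`: `τ` odd, `τ(t+al) - τ(t-al) = g/((pi/2) sin^3 al)`, bounded by `C E`.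
Direction `((x/2) cos - τ sin, (x/2) sin + τ cos)` (`DS0_circle_tan`, `DV_add`), derivatives by Cauchy on `strip (r - b - 2)`. -/
theorem sphInv (c b R : ℝ) (hc : 0 < c) (hb : 1 ≤ b) : ∃ C : ℝ, 1 ≤ C ∧ ∀ al ∈ JJ, EB al c b → ∀ r E : ℝ, b + 5 ≤ r → r ≤ R → 0 ≤ E →
    ∀ f v : EE → ℂ → ℂ, Fam (band 1 r) f → Fam (band 1 r) v →
      (∀ e, ∀ z ∈ band 1 r, f e (z + (Real.pi : ℂ)) = f e z ∧ v e (z + (Real.pi : ℂ)) = v e z) →
      (∀ e, EvenExt 1 r (f e) ∧ EvenExt 1 r (v e)) →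
      (∀ e, ∀ z ∈ band 1 r, f e (-(starRingEnd ℂ) z) = (starRingEnd ℂ) (f e z) ∧ v e (-(starRingEnd ℂ) z) = (starRingEnd ℂ) (v e z)) →
      (∀ e, ∀ z ∈ band 1 r, ‖f e z‖ ≤ E ∧ ‖v e z‖ ≤ E) →
    ∃ (A B : EE → ℂ → ℂ) (dV dm : EE → ℝ) (l : EE → ℕ → ℝ) (L : ℕ → ℝ),
      Fam (strip (r - b - 2)) A ∧ Fam (strip (r - b - 2)) B ∧ (∀ e, Sym (r - b - 2) (A e) (B e)) ∧ (∀ e, RealC (r - b - 2) (A e) (B e)) ∧
      (∀ e, DirBd (C * E) (-(r - b - 2)) (r - b - 2) (A e) (B e)) ∧ Continuous dV ∧ Continuous dm ∧ (∀ e, |dV e| ≤ C * E ∧ |dm e| ≤ C * E) ∧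
      (∀ e, ∀ t ∈ band 1 (r - b - 2), DS0 al cos sin (A e) (B e) t + (dV e : ℂ) * ((Real.sin al : ℂ) * (Real.cos al : ℂ)) +
          (dm e : ℂ) * ((Real.sin al : ℂ) * PL 2 t) = - f e t ∧
        DV al cos sin (A e) (B e) t = (dV e : ℂ) - v e t) ∧
      (∀ n, Continuous (fun e => l e n)) ∧ (∀ e n, |l e n| ≤ L n) ∧
      (∀ r' : ℝ, 1 ≤ r' → r' < r → Summable (fun n : ℕ => L n * WW n r')) ∧
      (∀ e, ∀ t ∈ band 1 r, HasSum (fun n => ((l e n : ℝ) : ℂ) * PL n t) (f e t)) ∧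
      (∀ e, dm e = - l e 2 / Real.sin al) := by
  obtain ⟨CL, hCL, HL⟩ := legOf
  have hR3 : (3:ℝ) ≤ max R 3 := le_max_right _ _
  set R' : ℝ := max R 3 with hR'
  obtain ⟨c1, CV, hc1, hCV, HV⟩ := fam_variation R' (by linarith)
  obtain ⟨c2, hc2, HE⟩ := DV_even' R' hR3
  obtain ⟨c3, hc3, HC⟩ := variation_conj R' (by linarith)
  obtain ⟨CF, hCF, HF⟩ := O01_consts
  have hp12 : (0:ℝ) < (1/2 : ℝ) ^ (-(9:ℝ)/2) := Real.rpow_pos_of_pos (by norm_num) _
  set K0 : ℝ := 4 * (CL * (1/2 : ℝ) ^ (-(9:ℝ)/2)) with hK0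
  have hK0p : 0 < K0 := by positivity
  set eR : ℝ := Real.exp R' with heR
  have heRp : 0 < eR := Real.exp_pos _
  set K1 : ℝ := 4 / c * K0 with hK1
  have hK1p : 0 < K1 := by positivity
  set K3 : ℝ := CV * (K1 * eR) with hK3
  have hK3p : 0 < K3 := by positivity
  set K4 : ℝ := (1 + K3) * (2 + 2 * CF) + 2 * CF * K0 with hK4
  have hK4p : 0 < K4 := by positivity
  set K5 : ℝ := (K0 + K4) / c with hK5
  have hK5p : 0 < K5 := by positivity
  set K6 : ℝ := (1 + K3) / c with hK6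
  have hK6p : 0 < K6 := by positivity
  set K7 : ℝ := (K1 + K5 + K6) * eR with hK7
  have hK7p : 0 < K7 := by positivity
  refine ⟨1 + K4 + 2 * K0 + 2 * K7, by linarith, ?_⟩
  intro al hal hEB r E hr hrR hE f v hf hv hper heven hreal hbd
  obtain ⟨hVs, hlam0, hlam0b, hM1⟩ := HF al hal
  obtain ⟨-, -, -, hco1, hco2, hs1, hs2⟩ := JJ_bounds hal
  have hrR' : r ≤ R' := hrR.trans (le_max_left _ _)
  have hc0 := hEB.c0
  -- Legendre coefficients
  obtain ⟨l, L, hlc, hlL, hLs, hlf⟩ := HL r E (by linarith) hE f hf (fun e z hz => (hper e z hz).1) (fun e => (heven e).1)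
    (fun e z hz => (hreal e z hz).1) (fun e z hz => (hbd e z hz).1)
  have hL0 : ∀ n, 0 ≤ L n := fun n => (abs_nonneg _).trans (hlL ⟨0, by constructor <;> norm_num⟩ n)
  have hWp : ∀ n r, 0 < WW n r := fun n r => mul_pos (cc_pos _) (Real.exp_pos _)
  have hw1 : ∀ n : ℕ, 1 ≤ (1 + 2 * (n:ℝ)) ^ ((7:ℝ)/2) := fun n =>
    Real.one_le_rpow (by have : (0:ℝ) ≤ n := Nat.cast_nonneg n; linarith) (by norm_num)
  have hle : ∀ (n : ℕ) (r' : ℝ), L n * WW n r' ≤ (1 + 2 * (n:ℝ)) ^ ((7:ℝ)/2) * (L n * WW n r') := by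
    intro n r'
    have h2 : 0 ≤ L n * WW n r' := mul_nonneg (hL0 n) (hWp n r').le
    nlinarith [hw1 n]
  have hsum : ∀ r' : ℝ, 1 ≤ r' → r' < r → Summable (fun n : ℕ => L n * WW n r') := by
    intro r' h1 h2
    have hm : 0 < min 1 (r - r') := lt_min one_pos (by linarith)
    refine Summable.of_nonneg_of_le (fun n => mul_nonneg (hL0 n) (hWp n r').le) (fun n => hle n r')
      (hLs (min 1 (r - r')) r' hm (min_le_left _ _) h1 (by have := min_le_right 1 (r - r'); linarith)).1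
  set r1 : ℝ := r - 1/2 - b/2 with hr1
  have hr1' : r1 + b / 2 = r - 1/2 := by rw [hr1]; ring
  have hLS : ∑' n : ℕ, L n * WW n (r1 + b / 2) ≤ K0 * E := by
    rw [hr1']
    obtain ⟨h1, h2⟩ := hLs (1/2) (r - 1/2) (by norm_num) (by norm_num) (by linarith) le_rfl
    have h3 := (hsum (r - 1/2) (by linarith) (by linarith)).tsum_le_tsum (fun n => hle n (r - 1/2)) h1
    have h4 : CL * E * (1/2 : ℝ) ^ (-(9:ℝ)/2) ≤ K0 * E := by
      rw [hK0]
      have : 0 ≤ CL * E * (1/2 : ℝ) ^ (-(9:ℝ)/2) := by positivity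
      nlinarith
    linarith
  have hLS4 : ∑' n : ℕ, L n * WW n (r - 1/2) ≤ K0 / 4 * E := by
    obtain ⟨h1, h2⟩ := hLs (1/2) (r - 1/2) (by norm_num) (by norm_num) (by linarith) le_rfl
    have h3 := (hsum (r - 1/2) (by linarith) (by linarith)).tsum_le_tsum (fun n => hle n (r - 1/2)) h1
    have h4 : CL * E * (1/2 : ℝ) ^ (-(9:ℝ)/2) = K0 / 4 * E := by
      rw [hK0]
      ring
    linarith
  have hl0 : ∀ e, |l e 0| ≤ K0 * E := by
    intro e
    have h1 := (hsum (r - 1/2) (by linarith) (by linarith)).le_tsum 0 (fun n _ => mul_nonneg (hL0 n) (hWp n _).le)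
    have h2 : WW 0 (r - 1/2) = 1 := by
      unfold WW
      simp [A10_cc_zero]
    rw [h2, mul_one] at h1
    have h3 : 0 ≤ K0 * E := by positivity
    have h4 := hlL e 0
    linarith
  have hl2 : ∀ e, |l e 2| ≤ K0 * E := by
    intro e
    have h1 := (hsum (r - 1/2) (by linarith) (by linarith)).le_tsum 2 (fun n _ => mul_nonneg (hL0 n) (hWp n _).le)
    have h2 : 1/4 ≤ WW 2 (r - 1/2) := by
      unfold WW
      have h5 : cc (2 * 2) = 35 / 128 := A10_cc_four
      rw [h5]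
      have h6 : 1 ≤ Real.exp (2 * (2:ℕ) * (r - 1/2)) := Real.one_le_exp (by push_cast; linarith)
      linarith
    have h3 : L 2 * (1/4) ≤ L 2 * WW 2 (r - 1/2) := mul_le_mul_of_nonneg_left h2 (hL0 2)
    have h4 := hlL e 2
    have h5 : L 2 * WW 2 (r - 1/2) ≤ K0 / 4 * E := h1.trans hLS4
    linarith
  -- the normal part
  obtain ⟨x, hx, hxb, hxD⟩ := O01_normal hal hEB (r := r1) (by linarith) (f := f) hlc hlL (by
      rw [hr1']
      exact hsum (r - 1/2) (by linarith) (by linarith)) hLS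
    (fun e z hz => hlf e z (band_subset le_rfl (by linarith) hz))
  have hxb' : ∀ e, ∀ z ∈ strip r1, ‖x e z‖ ≤ K1 * E := by
    intro e z hz
    refine (hxb e z hz).trans (le_of_eq ?_)
    rw [hK1]
    ring
  have hsub1 : band 1 r1 ⊆ strip r1 := band_subset (by linarith) le_rfl
  have hsubr : band 1 r1 ⊆ band 1 r := band_subset le_rfl (by linarith)
  set A0 : EE → ℂ → ℂ := fun e z => x e z / 2 * cos z with hA0
  set B0 : EE → ℂ → ℂ := fun e z => x e z / 2 * sin z with hB0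
  have hcosF : ∀ U : Set ℂ, Fam U (fun _ => cos) := fun U => Fam.const differentiable_cos.differentiableOn
  have hsinF : ∀ U : Set ℂ, Fam U (fun _ => sin) := fun U => Fam.const differentiable_sin.differentiableOn
  have hhalf : ∀ U : Set ℂ, Fam U (fun _ _ => (1/2 : ℂ)) := fun U => Fam.const (differentiableOn_const _)
  have fA0 : Fam (strip r1) A0 := by
    refine ((hx.f.mul (hhalf _)).mul (hcosF _)).congr fun e z _ => ?_
    simp only [hA0]
    ring
  have fB0 : Fam (strip r1) B0 := by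
    refine ((hx.f.mul (hhalf _)).mul (hsinF _)).congr fun e z _ => ?_
    simp only [hB0]
    ring
  have hsr : ∀ e, Sym r1 (A0 e) (B0 e) ∧ RealC r1 (A0 e) (B0 e) := by
    intro e
    have h := O01_sym (r := r1) (x := x e) (τ := fun _ => 0) (x0 := 0) (hx.e e) (hx.p e) (hx.r e) (by simp) (by simp) (by simp)
    have e1 : O01_A (x e) (fun _ => 0) 0 = A0 e := by
      funext z
      simp [O01_A, hA0]
    have e2 : O01_B (x e) (fun _ => 0) 0 = B0 e := by
      funext z
      simp [O01_B, hB0]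
    rw [e1, e2] at h
    exact h
  have hdir0 : ∀ e, ∀ z ∈ strip r1, ‖A0 e z‖ ≤ K1 * eR * E ∧ ‖B0 e z‖ ≤ K1 * eR * E := by
    intro e z hz
    obtain ⟨h1, h2⟩ := O01_cos_le hz
    have h3 : Real.exp r1 ≤ eR := Real.exp_le_exp.2 (by linarith)
    have h4 := hxb' e z hz
    have h5 : ∀ w : ℂ, ‖w‖ ≤ Real.exp r1 → ‖x e z / 2 * w‖ ≤ K1 * eR * E := by
      intro w hw
      rw [norm_mul, norm_div]
      have h6 : ‖(2:ℂ)‖ = 2 := by simp
      rw [h6]
      have h7 : ‖x e z‖ / 2 ≤ K1 * E := by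
        have := norm_nonneg (x e z)
        linarith
      have h8 : ‖x e z‖ / 2 * ‖w‖ ≤ (K1 * E) * eR := mul_le_mul h7 (hw.trans h3) (norm_nonneg _) (by positivity)
      linarith
    exact ⟨h5 _ h1, h5 _ h2⟩
  have hcirc1 : FNB c1 1 r1 (fun _ => cos) (fun _ => sin) := g05_FNB (r := r1) (by linarith) le_rfl (g05_circle c1 r1 hc1.le)
  have hDV := HV al hal 1 r1 le_rfl (by linarith) (by linarith) (fun _ => cos) (fun _ => sin) hcirc1 A0 B0
    (fA0.mono hsub1) (fB0.mono hsub1) (K1 * eR * E) (fun e z hz => hdir0 e z (hsub1 hz))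
  -- the even function `v + w`
  set g : EE → ℂ → ℂ := fun e z => v e z + DV al cos sin (A0 e) (B0 e) z with hg
  have hgF : Fam (band 1 r1) g := (hv.mono hsubr).add hDV.1
  have hgp : ∀ e, ∀ z ∈ band 1 r1, g e (z + (Real.pi : ℂ)) = g e z := by
    intro e z hz
    simp only [hg]
    rw [(hper e z (hsubr hz)).2, (variation_pi ((Sym_circle r1).aper (by linarith) le_rfl)
      ((hsr e).1.aper (by linarith) le_rfl) one_pos hz).1]
  have hge : ∀ e, EvenExt 1 r1 (g e) := by
    intro e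
    exact ((heven e).2.mono le_rfl (by linarith)).add
      (HE al hal r1 (by linarith) (by linarith) cos sin ((NB_circle (-r1) r1).mono hc2.le le_rfl le_rfl) (Sym_circle r1)
        (A0 e) (B0 e) (hsr e).1 (fA0.diff e) (fB0.diff e)).1
  have hgr : ∀ e, ∀ z ∈ band 1 r1, g e (-(starRingEnd ℂ) z) = (starRingEnd ℂ) (g e z) := by
    intro e z hz
    simp only [hg]
    rw [(hreal e z (hsubr hz)).2, (HC al hal 1 r1 le_rfl (by linarith) cos sin (A0 e) (B0 e)
      ((NB_circle 1 r1).mono hc3.le le_rfl le_rfl) (ureal_of (Sym_circle r1) (RealC_circle r1) (by linarith) le_rfl)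
      (ureal_of (hsr e).1 (hsr e).2 (by linarith) le_rfl) z hz).1, map_add]
  have hgb : ∀ e, ∀ z ∈ band 1 r1, ‖g e z‖ ≤ (1 + K3) * E := by
    intro e z hz
    have h1 := (hbd e z (hsubr hz)).2
    have h2 := (hDV.2.2.2 e z hz).1
    have h3 : CV * (K1 * eR * E) = K3 * E := by
      rw [hK3]
      ring
    calc ‖g e z‖ ≤ ‖v e z‖ + ‖DV al cos sin (A0 e) (B0 e) z‖ := norm_add_le _ _
      _ ≤ E + K3 * E := by linarith
      _ = _ := by ring
  obtain ⟨ψ0, τ, hψc, hψb, hτf, hτo, hτp, hτr, hτe, hτb⟩ := O01_tau hal hEB (r := r1) (by linarith) (by positivity) hgF hgp hge hgr hgb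
  -- the scalars
  set M : ℝ := 2 * M0 al * Real.sin al with hM
  set dV : EE → ℝ := fun e => (ψ0 e * lam al 0 - 3 / 2 * Vs al * l e 0) / M with hdV
  set x0 : EE → ℝ := fun e => -(l e 0 + dV e * (Real.sin al * Real.cos al)) / lam al 0 with hx0
  set dm : EE → ℝ := fun e => - l e 2 / Real.sin al with hdm
  have hdVc : Continuous dV := ((hψc.mul continuous_const).sub (continuous_const.mul (hlc 0))).div_const _
  have hx0c : Continuous x0 := (((hlc 0).add (hdVc.mul continuous_const)).neg).div_const _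
  have hdmc : Continuous dm := (hlc 2).neg.div_const _
  have hdVb : ∀ e, |dV e| ≤ K4 * E := by
    intro e
    rw [hdV]
    simp only
    rw [abs_div, abs_of_pos (by linarith : 0 < M), div_le_iff₀ (by linarith)]
    have h1 : |ψ0 e * lam al 0| ≤ (1 + K3) * E * (2 + 2 * CF) := by
      rw [abs_mul, abs_of_pos hlam0]
      exact mul_le_mul (hψb e) hlam0b hlam0.le (by positivity)
    have h2 : |3 / 2 * Vs al * l e 0| ≤ 2 * CF * (K0 * E) := by
      rw [abs_mul, abs_mul]
      have h3 : |(3:ℝ) / 2| * |Vs al| ≤ 2 * CF := by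
        rw [abs_of_pos (by norm_num : (0:ℝ) < 3 / 2)]
        have := abs_nonneg (Vs al)
        nlinarith
      exact mul_le_mul h3 (hl0 e) (abs_nonneg _) (by positivity)
    have h4 : |ψ0 e * lam al 0 - 3 / 2 * Vs al * l e 0| ≤ K4 * E := by
      have h5 := abs_sub (ψ0 e * lam al 0) (3 / 2 * Vs al * l e 0)
      have h6 : (1 + K3) * E * (2 + 2 * CF) + 2 * CF * (K0 * E) = K4 * E := by
        rw [hK4]
        ring
      linarith
    have h7 : 0 ≤ K4 * E := by positivity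
    nlinarith
  have hx0b : ∀ e, |x0 e| ≤ K5 * E := by
    intro e
    rw [hx0]
    simp only
    rw [abs_div, abs_neg, div_le_iff₀ (abs_pos.2 hlam0.ne')]
    have h1 : c ≤ |lam al 0| := by
      have := hEB.hl 0 (by norm_num)
      simpa using this
    have h2 : |dV e * (Real.sin al * Real.cos al)| ≤ K4 * E := by
      rw [abs_mul]
      have h3 : |Real.sin al * Real.cos al| ≤ 1 := by
        rw [abs_mul]
        exact mul_le_one₀ (Real.abs_sin_le_one _) (abs_nonneg _) (Real.abs_cos_le_one _)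
      have h4 := mul_le_mul (hdVb e) h3 (abs_nonneg _) (by positivity : 0 ≤ K4 * E)
      linarith
    have h5 : |l e 0 + dV e * (Real.sin al * Real.cos al)| ≤ (K0 + K4) * E := by
      have h6 := abs_add_le (l e 0) (dV e * (Real.sin al * Real.cos al))
      have h7 := hl0 e
      nlinarith
    have h8 : (K0 + K4) * E = K5 * E * c := by
      rw [hK5]
      field_simp
    have h9 : K5 * E * c ≤ K5 * E * |lam al 0| := mul_le_mul_of_nonneg_left h1 (by positivity)
    linarith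
  have hdmb : ∀ e, |dm e| ≤ 2 * K0 * E := by
    intro e
    rw [hdm]
    simp only
    rw [abs_div, abs_neg, abs_of_pos (by linarith : 0 < Real.sin al), div_le_iff₀ (by linarith)]
    have h1 := hl2 e
    have h2 : 0 ≤ K0 * E := by positivity
    nlinarith
  have hkey : ∀ e, dV e = 3 / 2 * x0 e * Vs al + ψ0 e := by
    intro e
    have h1 := (D0_rel hal).2
    have h2 : dV e * M = ψ0 e * lam al 0 - 3 / 2 * Vs al * l e 0 := by
      rw [hdV]
      simp only
      rw [div_mul_cancel₀]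
      linarith
    have h3 : x0 e * lam al 0 = -(l e 0 + dV e * (Real.sin al * Real.cos al)) := by
      rw [hx0]
      simp only
      rw [div_mul_cancel₀]
      exact hlam0.ne'
    have h4 : lam al 0 + 3 / 2 * Vs al * (Real.sin al * Real.cos al) = M := by
      rw [hM]
      have h5 : (1 + 3 / 2 * Vs al * (Real.sin al * Real.cos al / lam al 0)) * lam al 0 = 2 * M0 al * Real.sin al / lam al 0 * lam al 0 := by
        rw [h1]
      rw [div_mul_cancel₀ _ hlam0.ne'] at h5
      rw [← h5]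
      field_simp
    have h6 : dV e * lam al 0 = (3 / 2 * x0 e * Vs al + ψ0 e) * lam al 0 := by
      have h7 : 3 / 2 * Vs al * (x0 e * lam al 0) = 3 / 2 * Vs al * (-(l e 0 + dV e * (Real.sin al * Real.cos al))) := by rw [h3]
      have h8 : dV e * (lam al 0 + 3 / 2 * Vs al * (Real.sin al * Real.cos al)) = ψ0 e * lam al 0 - 3 / 2 * Vs al * l e 0 := by
        rw [h4, h2]
      linarith
    exact mul_right_cancel₀ hlam0.ne' h6
  -- the direction
  set r2 : ℝ := r1 - b / 2 with hr2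
  have hr2' : r - b - 2 + 1 = r2 - 1/2 := by rw [hr2, hr1]; ring
  have hsub2 : strip (r - b - 2 + 1) ⊆ strip r2 := band_subset (by linarith) (by linarith)
  have hsub21 : strip r2 ⊆ strip r1 := band_subset (by linarith) (by linarith)
  have hsub3 : strip (r - b - 2) ⊆ strip r2 := band_subset (by linarith) (by linarith)
  have hsub4 : band 1 (r - b - 2) ⊆ band 1 r2 := band_subset le_rfl (by linarith)
  have hsub41 : band 1 (r - b - 2) ⊆ band 1 r1 := band_subset le_rfl (by linarith)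
  have hx0F : ∀ U : Set ℂ, Fam U (fun e _ => ((x0 e : ℝ) : ℂ)) := fun U => Fam.param (Complex.continuous_ofReal.comp hx0c)
  have fA : Fam (strip r2) (fun e => O01_A (x e) (τ e) (x0 e)) := by
    refine (((((hx.f.mono hsub21).add (hx0F _)).mul (hhalf _)).mul (hcosF _)).sub (hτf.mul (hsinF _))).congr fun e z _ => ?_
    simp only [O01_A]
    ring
  have fB : Fam (strip r2) (fun e => O01_B (x e) (τ e) (x0 e)) := by
    refine (((((hx.f.mono hsub21).add (hx0F _)).mul (hhalf _)).mul (hsinF _)).add (hτf.mul (hcosF _))).congr fun e z _ => ?_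
    simp only [O01_B]
    ring
  have hsy : ∀ e, Sym r2 (O01_A (x e) (τ e) (x0 e)) (O01_B (x e) (τ e) (x0 e)) ∧
      RealC r2 (O01_A (x e) (τ e) (x0 e)) (O01_B (x e) (τ e) (x0 e)) := fun e =>
    O01_sym (fun z hz => hx.e e z (hsub21 hz)) (fun z hz => hx.p e z (hsub21 hz)) (fun z hz => hx.r e z (hsub21 hz))
      (hτo e) (hτp e) (hτr e)
  have hAB : ∀ e, ∀ z ∈ strip (r - b - 2 + 1), ‖O01_A (x e) (τ e) (x0 e) z‖ ≤ K7 * E ∧ ‖O01_B (x e) (τ e) (x0 e) z‖ ≤ K7 * E := by
    intro e z hz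
    obtain ⟨h1, h2⟩ := O01_cos_le hz
    have h3 : Real.exp (r - b - 2 + 1) ≤ eR := Real.exp_le_exp.2 (by linarith)
    have h4 := hxb' e z (hsub21 (hsub2 hz))
    have h5 : ‖τ e z‖ ≤ K6 * E := by
      have hz' : |z.im| ≤ r1 - b / 2 - 1 / 2 := by
        have := (abs_lt.2 ⟨hz.1, hz.2⟩).le
        linarith
      refine (hτb e z hz').trans (le_of_eq ?_)
      rw [hK6]
      ring
    have h6 : ‖(x e z + (x0 e : ℂ)) / 2‖ ≤ (K1 + K5) * E := by
      rw [norm_div]
      have h7 : ‖(2:ℂ)‖ = 2 := by simp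
      rw [h7]
      have h8 : ‖(x0 e : ℂ)‖ ≤ K5 * E := by
        rw [Complex.norm_real, Real.norm_eq_abs]
        exact hx0b e
      have h9 := norm_add_le (x e z) (x0 e : ℂ)
      have h10 : 0 ≤ (K1 + K5) * E := by positivity
      linarith
    have h11 : ∀ w w' : ℂ, ‖w‖ ≤ Real.exp (r - b - 2 + 1) → ‖w'‖ ≤ Real.exp (r - b - 2 + 1) →
        ‖(x e z + (x0 e : ℂ)) / 2 * w‖ + ‖τ e z * w'‖ ≤ K7 * E := by
      intro w w' hw hw'
      rw [norm_mul, norm_mul]
      have h12 := mul_le_mul h6 (hw.trans h3) (norm_nonneg _) (by positivity : 0 ≤ (K1 + K5) * E)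
      have h13 := mul_le_mul h5 (hw'.trans h3) (norm_nonneg _) (by positivity : 0 ≤ K6 * E)
      have h14 : (K1 + K5) * E * eR + K6 * E * eR = K7 * E := by
        rw [hK7]
        ring
      linarith
    exact ⟨(norm_sub_le _ _).trans (h11 _ _ h1 h2), (norm_add_le _ _).trans (h11 _ _ h2 h1)⟩
  have hCE : ∀ K : ℝ, K ≤ 1 + K4 + 2 * K0 + 2 * K7 → K * E ≤ (1 + K4 + 2 * K0 + 2 * K7) * E := fun K hK =>
    mul_le_mul_of_nonneg_right hK hE
  refine ⟨fun e => O01_A (x e) (τ e) (x0 e), fun e => O01_B (x e) (τ e) (x0 e), dV, dm, l, L, fA.mono hsub3, fB.mono hsub3,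
    fun e => (hsy e).1.mono (by linarith), fun e => (hsy e).2.mono (by linarith), ?_, hdVc, hdmc, ?_, ?_, hlc, hlL, hsum, hlf, fun e => rfl⟩
  · intro e
    refine (O01_dirBd ((fA.diff e).mono hsub2) ((fB.diff e).mono hsub2) (fun z hz => (hAB e z hz).1) (fun z hz => (hAB e z hz).2)
      (by positivity)).mono ?_ le_rfl le_rfl
    have h1 := hCE (2 * K7) (by linarith)
    linarith
  · intro e
    exact ⟨(hdVb e).trans (hCE K4 (by linarith)), (hdmb e).trans (hCE (2 * K0) (by linarith))⟩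
  · intro e t ht
    have hev := O01_eval hal (x := x e) (τ := τ e) (x0 := x0 e) (r := r2)
      ((hx.f.diff e).continuousOn.mono ((band_subset (by linarith) le_rfl : band 1 r2 ⊆ strip r2).trans hsub21))
      ((hτf.diff e).continuousOn.mono (band_subset (by linarith) le_rfl)) (hsub4 ht)
    constructor
    · rw [hev.1, hxD e t (hsub41 ht)]
      have h3 : ((x0 e : ℝ) : ℂ) * (lam al 0 : ℂ) = -((l e 0 : ℂ) + (dV e : ℂ) * ((Real.sin al : ℂ) * (Real.cos al : ℂ))) := by
        have h4 : x0 e * lam al 0 = -(l e 0 + dV e * (Real.sin al * Real.cos al)) := by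
          rw [hx0]
          simp only
          rw [div_mul_cancel₀]
          exact hlam0.ne'
        exact_mod_cast h4
      have h5 : (dm e : ℂ) * (Real.sin al : ℂ) = - (l e 2 : ℂ) := by
        have h6 : dm e * Real.sin al = - l e 2 := by
          rw [hdm]
          simp only
          rw [div_mul_cancel₀]
          linarith
        exact_mod_cast h6
      rw [h3]
      linear_combination (PL 2 t) * h5
    · rw [hev.2, hτe e t (hsub4 ht)]
      have h3 : (dV e : ℂ) = 3 / 2 * (x0 e : ℂ) * (Vs al : ℂ) + (ψ0 e : ℂ) := by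
        rw [hkey e]
        push_cast
        ring
      rw [h3]
      simp only [hg]
      ring

end FB
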