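import Pool.Agent.H48.FB.EDefs

/-! Definitions for the expansion at the circle (P and O modules). `c = cos al`, `s = sin^2 al`. -/

open Complex Set MeasureTheory Filter Topology

noncomputable section

namespace FB

/-- `J_4 = ∫_c^1 P_4 = c s (2 - 7 s/2)/4` -/
def J4 (al : ℝ) : ℝ := Real.cos al * (Real.sin al) ^ 2 / 4 * (2 - 7 * (Real.sin al) ^ 2 / 2)
def c0c (al : ℝ) : ℝ := -2 * Real.cos al * (9/64) * (2 * J4 al - Real.cos al * (Real.sin al) ^ 2) / (Real.sin al) ^ 4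
def v1c (al : ℝ) : ℝ := - lam al 0 * c0c al / (Real.sin al * Real.cos al)
def mu1c (al : ℝ) : ℝ := - 2 * lam al 2 / Real.sin al
def tk (al p k : ℝ) : ℝ := p * (-2 * J4 al + (Real.sin al) ^ 2 * Real.cos al * Real.cos (2 * k * al)) / ((Real.sin al) ^ 3 * Real.sin (2 * k * al))
/-- normal and tangential components of the first order direction -/
def a1f (al : ℝ) (b : ℂ) : ℂ := PL 2 b + (c0c al : ℂ) / 2
def t1f (al : ℝ) (b : ℂ) : ℂ := (tk al (5/16) 1 : ℂ) * sin (2 * b) + (tk al (35/64) 2 : ℂ) * sin (4 * b)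
def Af1 (al : ℝ) (b : ℂ) : ℂ := a1f al b * cos b - t1f al b * sin b
def Bf1 (al : ℝ) (b : ℂ) : ℂ := a1f al b * sin b + t1f al b * cos b
/-- coefficients of the plane shift `h = h4 PL 2 + h00` -/
def h4c (al : ℝ) : ℝ := 2 * J4 al / Real.sin al
def h00c (al : ℝ) : ℝ := ((1 - Real.cos al) * c0c al - v1c al / Real.pi) / Real.sin al
/-- main part of the second order coefficient -/
def q4m (al : ℝ) : ℝ := Real.pi * Real.sin al * Real.cos al * J4 al * (162/1001 + c0c al) -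
  Real.pi / 2 * Real.sin al * (h4c al ^ 2 * (162/1001) + 2 * h4c al * h00c al)

/-- the curve `circle + w (Af1, Bf1)` -/
def Z1 (al : ℝ) (w : ℂ) (b : ℂ) : ℂ := cos b + w * Af1 al b
def X1 (al : ℝ) (w : ℂ) (b : ℂ) : ℂ := sin b + w * Bf1 al b

end FB
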