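import Pool.Agent.H48.FB.O01
import Pool.Agent.H48.FB.F03
import Pool.Agent.H48.FB.G01
import Pool.Agent.H48.FB.PDefs

/-! O02: improvement step with the inverse at the circle. -/

open Complex Set MeasureTheory Filter Topology

noncomputable section

namespace FB

theorem o02_dir_mono {d a b a' b' : ℝ} {A B : ℂ → ℂ} (h : DirBd d a b A B) (ha : a ≤ a') (hb : b' ≤ b) :
    DirBd d a' b' A B := h.mono le_rfl ha hb

theorem o02_nb {c d c' a b : ℝ} {Z X A B : ℂ → ℂ} (h : NB c a b Z X) (h' : DirBd d a b A B) (hc : c + d ≤ c') :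
    NB c' a b (fun z => Z z + A z) (fun z => X z + B z) := by
  have key : ∀ u v : ℂ, ‖u‖ ≤ c → ‖v‖ ≤ d → ‖u + v‖ ≤ c' := fun u v hu hv =>
    (norm_add_le _ _).trans ((add_le_add hu hv).trans hc)
  have d1 : ∀ z ∈ band a b, HasDerivAt (fun z => Z z + A z) (deriv Z z + deriv A z) z := fun z hz =>
    (h.dZ.differentiableAt ((isOpen_band a b).mem_nhds hz)).hasDerivAt.add
      (h'.dA.differentiableAt ((isOpen_band a b).mem_nhds hz)).hasDerivAt
  have d2 : ∀ z ∈ band a b, HasDerivAt (fun z => X z + B z) (deriv X z + deriv B z) z := fun z hz =>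
    (h.dX.differentiableAt ((isOpen_band a b).mem_nhds hz)).hasDerivAt.add
      (h'.dB.differentiableAt ((isOpen_band a b).mem_nhds hz)).hasDerivAt
  constructor
  · exact fun z hz => (d1 z hz).differentiableAt.differentiableWithinAt
  · exact fun z hz => (d2 z hz).differentiableAt.differentiableWithinAt
  · intro z hz
    rw [show Z z + A z - cos z = (Z z - cos z) + A z by ring]
    exact key _ _ (h.z0 z hz) (h'.a0 z hz)
  · intro z hz
    rw [show X z + B z - sin z = (X z - sin z) + B z by ring]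
    exact key _ _ (h.x0 z hz) (h'.b0 z hz)
  · intro z hz
    rw [(d1 z hz).deriv, show deriv Z z + deriv A z + sin z = (deriv Z z + sin z) + deriv A z by ring]
    exact key _ _ (h.z1 z hz) (h'.a1 z hz)
  · intro z hz
    rw [(d2 z hz).deriv, show deriv X z + deriv B z - cos z = (deriv X z - cos z) + deriv B z by ring]
    exact key _ _ (h.x1 z hz) (h'.b1 z hz)

theorem o02_sym {r : ℝ} {Z X A B : ℂ → ℂ} (h : Sym r Z X) (h' : Sym r A B) :
    Sym r (fun z => Z z + A z) (fun z => X z + B z) where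
  eZ := fun z hz => by rw [h.eZ z hz, h'.eZ z hz]
  oX := fun z hz => by rw [h.oX z hz, h'.oX z hz]; ring
  aZ := fun z hz => by rw [h.aZ z hz, h'.aZ z hz]; ring
  aX := fun z hz => by rw [h.aX z hz, h'.aX z hz]; ring

theorem o02_real {r : ℝ} {Z X A B : ℂ → ℂ} (h : RealC r Z X) (h' : RealC r A B) :
    RealC r (fun z => Z z + A z) (fun z => X z + B z) where
  rZ := fun z hz => by rw [h.rZ z hz, h'.rZ z hz, map_add]
  rX := fun z hz => by rw [h.rX z hz, h'.rX z hz, map_add]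

/-- the data for `sphInv` -/
theorem o02_data (R : ℝ) (hR : 3 ≤ R) : ∃ c0 : ℝ, 0 < c0 ∧ ∀ al ∈ JJ, ∀ r : ℝ, 3 ≤ r → r ≤ R →
    ∀ (Z X : EE → ℂ → ℂ) (V0 mu : EE → ℝ), FC c0 r Z X → Continuous V0 → Continuous mu →
      Fam (band 1 r) (fun e => SS al (V0 e) (mu e) (Z e) (X e)) ∧
      Fam (band 1 r) (fun e t => Vf al (Z e) (X e) t - (V0 e : ℂ)) ∧
      (∀ e, ∀ z ∈ band 1 r, SS al (V0 e) (mu e) (Z e) (X e) (z + (Real.pi : ℂ)) = SS al (V0 e) (mu e) (Z e) (X e) z ∧
        Vf al (Z e) (X e) (z + (Real.pi : ℂ)) - (V0 e : ℂ) = Vf al (Z e) (X e) z - (V0 e : ℂ)) ∧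
      (∀ e, EvenExt 1 r (SS al (V0 e) (mu e) (Z e) (X e)) ∧ EvenExt 1 r (fun t => Vf al (Z e) (X e) t - (V0 e : ℂ))) ∧
      (∀ e, ∀ z ∈ band 1 r,
        SS al (V0 e) (mu e) (Z e) (X e) (-(starRingEnd ℂ) z) = (starRingEnd ℂ) (SS al (V0 e) (mu e) (Z e) (X e) z) ∧
        Vf al (Z e) (X e) (-(starRingEnd ℂ) z) - (V0 e : ℂ) = (starRingEnd ℂ) (Vf al (Z e) (X e) z - (V0 e : ℂ))) := by
  obtain ⟨c1, C1, hc1, hC1, H1⟩ := fam_functionals R (by linarith)
  obtain ⟨c2, hc2, H2⟩ := fam_chord' R (by linarith)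
  obtain ⟨c3, hc3, H3⟩ := functionals_conj R (by linarith)
  obtain ⟨c4, hc4, H4⟩ := SS_even R hR
  refine ⟨min (min c1 c2) (min c3 c4), by positivity, fun al hal r hr hrR Z X V0 mu hF hV0 hmu => ?_⟩
  have l1 : min (min c1 c2) (min c3 c4) ≤ c1 := (min_le_left _ _).trans (min_le_left _ _)
  have l2 : min (min c1 c2) (min c3 c4) ≤ c2 := (min_le_left _ _).trans (min_le_right _ _)
  have l3 : min (min c1 c2) (min c3 c4) ≤ c3 := (min_le_right _ _).trans (min_le_left _ _)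
  have l4 : min (min c1 c2) (min c3 c4) ≤ c4 := (min_le_right _ _).trans (min_le_right _ _)
  have hsub : band 1 r ⊆ strip r := band_subset (by linarith) le_rfl
  have hFNB : ∀ c, min (min c1 c2) (min c3 c4) ≤ c → FNB c 1 r Z X := fun c hc =>
    ⟨hF.fZ.mono hsub, hF.fX.mono hsub, fun e => (hF.nb e).mono hc (by linarith) le_rfl⟩
  obtain ⟨fV, fPz, fPx, -, fS, -⟩ := H1 al hal 1 r le_rfl (by linarith) hrR Z X (hFNB c1 l1)
  obtain ⟨fell, -, -, fY⟩ := H2 al hal 1 r le_rfl hrR Z X (hFNB c2 l2)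
  obtain ⟨-, -, -, -, fet, -, -⟩ := fam_chord (al := al) (hFNB c1 l1).fZ (hFNB c1 l1).fX
  have cV0 : Continuous (fun e : EE => ((V0 e : ℝ) : ℂ)) := continuous_ofReal.comp hV0
  have cmu : Continuous (fun e : EE => ((mu e : ℝ) : ℂ)) := continuous_ofReal.comp hmu
  refine ⟨?_, fV.sub (Fam.param cV0), ?_, ?_, ?_⟩
  · exact ((fS.add ((Fam.param cV0).mul fet)).sub (fell.smulc (M0 al : ℂ))).add ((Fam.param cmu).mul fY)
  · intro e z hz
    obtain ⟨h1, -, -, -, h2, -, -, h3, h4, h5⟩ := functionals_pi (al := al)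
      ((hF.sy e).aper (a := 1) (b := r) (by linarith) le_rfl) one_pos hz
    refine ⟨?_, ?_⟩
    · simp only [SS, h2, h3, h4, h5]
    · rw [h1]
  · intro e
    exact H4 al hal r hr hrR (Z e) (X e) ((hF.nb e).mono l4 le_rfl le_rfl) (hF.sy e) (V0 e) (mu e)
  · intro e z hz
    obtain ⟨h1, -, -, -, h2, h3, h4, h5⟩ := H3 al hal 1 r le_rfl hrR (Z e) (X e)
      ((hF.nb e).mono l3 (by linarith) le_rfl)
      (ureal_of (hF.sy e) (hF.re e) (a := 1) (b := r) (by linarith) le_rfl) z hz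
    refine ⟨?_, ?_⟩
    · simp only [SS, h2, h3, h4, h5, map_add, map_sub, map_mul, Complex.conj_ofReal]
    · rw [h1, map_sub, Complex.conj_ofReal]

/-- `sphInv` with `f = SS`, `v = Vf - V0` (hypotheses as in M04). By `mixed` (F03) with `d = C E`:
`SS' = SS + [DS0 + dV sin cos + dm sin PL 2] + O((cA + CE) C E) = O((cA + E) E)`, `Vf' - V0' = Vf - V0 + DV - dV + .. = O((cA + E) E)`. -/
theorem stepA (c b R : ℝ) (hc : 0 < c) (hb : 1 ≤ b) : ∃ C c1 : ℝ, 1 ≤ C ∧ 0 < c1 ∧ ∀ al ∈ JJ, EB al c b → ∀ r cA E : ℝ, b + 5 ≤ r → r ≤ R →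
    0 ≤ cA → cA ≤ c1 → 0 ≤ E → E ≤ c1 → ∀ (Z X : EE → ℂ → ℂ) (V0 mu : EE → ℝ), Ap al r cA E Z X V0 mu →
    ∃ (Z' X' : EE → ℂ → ℂ) (V0' mu' : EE → ℝ) (l : EE → ℕ → ℝ) (L : ℕ → ℝ),
      Ap al (r - b - 2) (cA + C * E) (C * (cA + E) * E) Z' X' V0' mu' ∧
      (∀ e, ∀ z ∈ strip (r - b - 2), ‖Z' e z - Z e z‖ ≤ C * E ∧ ‖X' e z - X e z‖ ≤ C * E) ∧
      (∀ e, |V0' e - V0 e| ≤ C * E ∧ |mu' e - mu e| ≤ C * E) ∧
      (∀ e n, |l e n| ≤ L n) ∧ (∀ r' : ℝ, 1 ≤ r' → r' < r → Summable (fun n : ℕ => L n * WW n r')) ∧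
      (∀ e, ∀ t ∈ band 1 r, HasSum (fun n => ((l e n : ℝ) : ℂ) * PL n t) (SS al (V0 e) (mu e) (Z e) (X e) t)) ∧
      (∀ e, mu' e = mu e - l e 2 / Real.sin al) := by
  set R' : ℝ := max R 6 with hR'
  have hR6 : 6 ≤ R' := le_max_right _ _
  have hRR : R ≤ R' := le_max_left _ _
  obtain ⟨K, hK, HK⟩ := sphInv c b R' hc hb
  obtain ⟨c0, hc0, H0⟩ := o02_data R' (by linarith)
  obtain ⟨cm, Cm, hcm, hCm, Hm⟩ := mixed R' (by linarith)
  have hK0 : 0 < K := by linarith
  refine ⟨K + Cm * K ^ 2, min c0 (cm / K), ?_, by positivity, ?_⟩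
  · have : 0 ≤ Cm * K ^ 2 := by positivity
    linarith
  intro al hal hEB r cA E hr hrR hcA0 hcA hE0 hE Z X V0 mu hAp
  have hcA1 : cA ≤ c0 := hcA.trans (min_le_left _ _)
  have hcmK : cm / K ≤ cm := by
    rw [div_le_iff₀ hK0]
    nlinarith
  have hcA2 : cA ≤ cm := (hcA.trans (min_le_right _ _)).trans hcmK
  have hKE : K * E ≤ cm := by
    have := hE.trans (min_le_right _ _)
    rw [le_div_iff₀ hK0] at this
    linarith
  have hKE0 : 0 ≤ K * E := by positivity
  have hFC0 : FC c0 r Z X := ⟨hAp.fc.fZ, hAp.fc.fX, fun e => (hAp.fc.nb e).mono hcA1 le_rfl le_rfl, hAp.fc.sy, hAp.fc.re⟩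
  obtain ⟨fSS, fVv, hpi, hev, hre⟩ := H0 al hal r (by linarith) (hrR.trans hRR) Z X V0 mu hFC0 hAp.vc hAp.mc
  obtain ⟨A, B, dV, dm, l, L, fA, fB, sAB, rAB, dAB, cdV, cdm, bdm, heq, hlc, hlL, hLs, hls, hdm⟩ :=
    HK al hal hEB r E hr (hrR.trans hRR) hE0 (fun e => SS al (V0 e) (mu e) (Z e) (X e))
      (fun e t => Vf al (Z e) (X e) t - (V0 e : ℂ)) fSS fVv hpi hev hre
      (fun e z hz => ⟨hAp.eS e z hz, hAp.eV e z hz⟩)
  set r1 : ℝ := r - b - 2 with hr1
  have hr13 : 3 ≤ r1 := by linarith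
  have hr1r : r1 ≤ r := by linarith
  have hsub : strip r1 ⊆ strip r := band_subset (by linarith) hr1r
  have hKC : K ≤ K + Cm * K ^ 2 := by
    have : 0 ≤ Cm * K ^ 2 := by positivity
    linarith
  have hKEC : K * E ≤ (K + Cm * K ^ 2) * E := mul_le_mul_of_nonneg_right hKC hE0
  have hquad : Cm * (cA + K * E) * (K * E) ≤ (K + Cm * K ^ 2) * (cA + E) * E := by
    have h1 : cA + K * E ≤ K * (cA + E) := by nlinarith
    have h2 : Cm * (cA + K * E) * (K * E) ≤ Cm * (K * (cA + E)) * (K * E) :=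
      mul_le_mul_of_nonneg_right (mul_le_mul_of_nonneg_left h1 (by linarith)) hKE0
    have h3 : Cm * (K * (cA + E)) * (K * E) = Cm * K ^ 2 * (cA + E) * E := by ring
    have h4 : 0 ≤ K * (cA + E) * E := by positivity
    nlinarith
  refine ⟨fun e z => Z e z + A e z, fun e z => X e z + B e z, fun e => V0 e + dV e, fun e => mu e + dm e, l, L,
    ?_, ?_, ?_, hlL, hLs, hls, ?_⟩
  · have hdV : ∀ e, |dV e| ≤ K * E := fun e => (bdm e).1
    have hdm' : ∀ e, |dm e| ≤ K * E := fun e => (bdm e).2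
    have hmix := fun e t (ht : t ∈ band 1 r1) => Hm al hal 1 r1 le_rfl (by linarith) cA (K * E) hcA0 hcA2 hKE0 hKE
      (Z e) (X e) ((hAp.fc.nb e).mono le_rfl (by linarith) hr1r) (A e) (B e)
      ((dAB e).mono le_rfl (by linarith) le_rfl) (V0 e) (mu e) (dV e) (dm e)
      (by rw [← ofReal_sub, norm_real, Real.norm_eq_abs]; exact hAp.vb e)
      (by rw [norm_real, Real.norm_eq_abs]; exact hAp.mb e)
      (by rw [norm_real, Real.norm_eq_abs]; exact hdV e)
      (by rw [norm_real, Real.norm_eq_abs]; exact hdm' e) t ht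
    refine { fc := ?_, vc := hAp.vc.add cdV, mc := hAp.mc.add cdm, vb := ?_, mb := ?_, eS := ?_, eV := ?_ }
    · exact { fZ := (hAp.fc.fZ.mono hsub).add fA
              fX := (hAp.fc.fX.mono hsub).add fB
              nb := fun e => o02_nb ((hAp.fc.nb e).mono le_rfl (by linarith) hr1r) (dAB e) (by linarith)
              sy := fun e => o02_sym ((hAp.fc.sy e).mono hr1r) (sAB e)
              re := fun e => o02_real ((hAp.fc.re e).mono hr1r) (rAB e) }
    · intro e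
      have h1 : V0 e + dV e - Vs al = (V0 e - Vs al) + dV e := by ring
      rw [h1]
      refine (abs_add_le _ _).trans ?_
      have := hAp.vb e
      have := hdV e
      linarith
    · intro e
      refine (abs_add_le _ _).trans ?_
      have := hAp.mb e
      have := hdm' e
      linarith
    · intro e t ht
      have h1 := (hmix e t ht).1
      have h2 := (heq e t ht).1
      rw [h2] at h1
      refine le_trans (le_of_eq ?_) (h1.trans hquad)
      congr 1
      push_cast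
      ring
    · intro e t ht
      have h1 := (hmix e t ht).2
      have h2 := (heq e t ht).2
      rw [h2] at h1
      refine le_trans (le_of_eq ?_) (h1.trans hquad)
      congr 1
      push_cast
      ring
  · intro e z hz
    have h1 := (dAB e).a0 z hz
    have h2 := (dAB e).b0 z hz
    refine ⟨?_, ?_⟩
    · simp only [add_sub_cancel_left]
      linarith
    · simp only [add_sub_cancel_left]
      linarith
  · intro e
    refine ⟨?_, ?_⟩
    · simp only [add_sub_cancel_left]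
      exact (bdm e).1.trans hKEC
    · simp only [add_sub_cancel_left]
      exact (bdm e).2.trans hKEC
  · intro e
    show mu e + dm e = _
    rw [hdm e]
    ring

end FB
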