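import Pool.Agent.H48.FB.P02
import Pool.Agent.H48.FB.F02
import Pool.Agent.H48.FB.NDefs
import Pool.Agent.H48.FB.O02

/-! O03: the first order curve and the iteration of the improvement step. -/

open Complex Set MeasureTheory Filter Topology

noncomputable section

namespace FB

theorem O03_dirMono {d d' a b : ℝ} {A B : ℂ → ℂ} (h : DirBd d a b A B) (hd : d ≤ d') : DirBd d' a b A B where
  dA := h.dA
  dB := h.dB
  a0 := fun z hz => (h.a0 z hz).trans hd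
  b0 := fun z hz => (h.b0 z hz).trans hd
  a1 := fun z hz => (h.a1 z hz).trans hd
  b1 := fun z hz => (h.b1 z hz).trans hd

theorem O03_mono {al r cA E cA' E' : ℝ} {Z X : EE → ℂ → ℂ} {V0 mu : EE → ℝ} (h : Ap al r cA E Z X V0 mu)
    (hc : cA ≤ cA') (hE : E ≤ E') : Ap al r cA' E' Z X V0 mu where
  fc := ⟨h.fc.fZ, h.fc.fX, fun e => G01_NBMono (h.fc.nb e) hc le_rfl le_rfl, h.fc.sy, h.fc.re⟩
  vc := h.vc
  mc := h.mc
  vb := fun e => (h.vb e).trans hc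
  mb := fun e => (h.mb e).trans hc
  eS := fun e t ht => (h.eS e t ht).trans hE
  eV := fun e t ht => (h.eV e t ht).trans hE

/-- `SS` vanishes at the circle -/
theorem O03_circle {al : ℝ} (hal : al ∈ JJ) {t : ℂ} (ht : 1 < t.im) :
    SS al (Vs al : ℂ) 0 cos sin t = 0 ∧ Vf al cos sin t = (Vs al : ℂ) := by
  obtain ⟨-, -, -, hV, -, -, hS⟩ := circle_values hal ht
  obtain ⟨-, -, -, -, -, -, het, hell, -⟩ := circle_chord al (G00_sin_pos hal) t
  refine ⟨?_, hV⟩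
  rw [SS, hS, het, hell]
  ring

/-- the direction data with one constant -/
structure O03D (C al R : ℝ) : Prop where
  sy : Sym R (Af1 al) (Bf1 al)
  re : RealC R (Af1 al) (Bf1 al)
  bd : DirBd C (-R) R (Af1 al) (Bf1 al)
  hv : |v1c al| ≤ C
  hm : |mu1c al| ≤ C
  dA : Differentiable ℂ (Af1 al)
  dB : Differentiable ℂ (Bf1 al)

theorem O03_dir (R : ℝ) (hR : 3 ≤ R) : ∃ C : ℝ, 1 ≤ C ∧ ∀ al ∈ JJ, O03D C al R := by
  obtain ⟨K, hK, hD⟩ := dir1_props R (by linarith)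
  obtain ⟨Lb, hLb, hlam⟩ := lam_bound
  have h1 : K ≤ K * (1 + Lb) := by nlinarith
  refine ⟨K * (1 + Lb), by nlinarith, fun al hal => ?_⟩
  obtain ⟨hS, hRe, hB, -, hv, hm, hA', hB', -, -⟩ := hD al hal
  refine ⟨hS, hRe, O03_dirMono hB h1, hv.trans h1, hm.trans ?_, hA', hB'⟩
  have h2 := hlam al hal 2
  nlinarith [abs_nonneg (lam al 2)]

theorem O03_dmul {C d R : ℝ} {A B : ℂ → ℂ} (h : DirBd C (-R) R A B) {w : ℝ} (hw : 0 ≤ w) (hwd : w * C ≤ d) :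
    DirBd d 1 R (fun z => (w : ℂ) * A z) (fun z => (w : ℂ) * B z) := by
  have h1 := f03_dir_mul h (w : ℂ)
  rw [Complex.norm_real, Real.norm_eq_abs, abs_of_nonneg hw] at h1
  rcases le_or_gt (-R) 1 with h2 | h2
  · exact G01_DirMono (O03_dirMono h1 hwd) h2 le_rfl
  · have hemp : ∀ z ∈ band 1 R, False := fun z hz => by
      have := hz.1
      have := hz.2
      linarith
    exact ⟨fun z hz => (hemp z hz).elim, fun z hz => (hemp z hz).elim, fun z hz => (hemp z hz).elim,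
      fun z hz => (hemp z hz).elim, fun z hz => (hemp z hz).elim, fun z hz => (hemp z hz).elim⟩

theorem O03_est (R : ℝ) (hR : 3 ≤ R) : ∃ M C c1 : ℝ, 1 ≤ M ∧ 1 ≤ C ∧ 0 < c1 ∧ ∀ al ∈ JJ, O03D M al R ∧
    ∀ w : ℝ, 0 ≤ w → w ≤ c1 → ∀ t ∈ band 1 R,
      ‖SS al ((Vs al + w * v1c al : ℝ) : ℂ) ((w * mu1c al : ℝ) : ℂ) (Z1 al (w : ℂ)) (X1 al (w : ℂ)) t‖ ≤ C * w ^ 2 ∧
      ‖Vf al (Z1 al (w : ℂ)) (X1 al (w : ℂ)) t - ((Vs al + w * v1c al : ℝ) : ℂ)‖ ≤ C * w ^ 2 := by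
  obtain ⟨M, hM, hD⟩ := O03_dir R hR
  obtain ⟨c0, Cm, hc0, hCm, hmix⟩ := mixed R (by linarith)
  obtain ⟨c0', hc0', hadd⟩ := DV_add R (by linarith)
  refine ⟨M, Cm * M ^ 2, c0 / M, hM, by nlinarith [one_le_pow₀ (n := 2) hM], by positivity,
    fun al hal => ⟨hD al hal, fun w hw hw1 t ht => ?_⟩⟩
  have hDa := hD al hal
  have hwM : w * M ≤ c0 := by rwa [le_div_iff₀ (by linarith)] at hw1
  have hw0 : 0 ≤ w * M := by positivity
  have hdir : DirBd (w * M) 1 R (fun z => (w : ℂ) * Af1 al z) (fun z => (w : ℂ) * Bf1 al z) :=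
    O03_dmul hDa.bd hw le_rfl
  obtain ⟨h1, h2⟩ := hmix al hal 1 R le_rfl le_rfl 0 (w * M) le_rfl hc0.le hw0 hwM cos sin (d05_NB le_rfl) _ _ hdir
    (Vs al : ℂ) 0 ((w * v1c al : ℝ) : ℂ) ((w * mu1c al : ℝ) : ℂ) (by simp) (by simp)
    (by
      rw [Complex.norm_real, Real.norm_eq_abs, abs_mul, abs_of_nonneg hw]
      exact mul_le_mul_of_nonneg_left hDa.hv hw)
    (by
      rw [Complex.norm_real, Real.norm_eq_abs, abs_mul, abs_of_nonneg hw]
      exact mul_le_mul_of_nonneg_left hDa.hm hw) t ht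
  obtain ⟨hc1, hc2⟩ := O03_circle hal ht.1
  obtain ⟨hf1, hf2⟩ := first_order hal ht.1
  have hcA : ContinuousOn (Af1 al) (band 1 R) := hDa.dA.continuous.continuousOn
  have hcB : ContinuousOn (Bf1 al) (band 1 R) := hDa.dB.continuous.continuousOn
  obtain ⟨ha1, ha2, -⟩ := hadd al hal 1 R le_rfl le_rfl cos sin (d05_NB hc0'.le) _ _ _ _ hcA hcB hcA hcB t ht (w : ℂ) 0
  simp only [zero_mul, add_zero] at ha1 ha2
  have e0 : Cm * (0 + w * M) * (w * M) = Cm * M ^ 2 * w ^ 2 := by ring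
  rw [hc1, ha2, e0] at h1
  rw [hc2, ha1, e0, hf2] at h2
  constructor
  · have e1 : (w : ℂ) * DS0 al cos sin (Af1 al) (Bf1 al) t + ((w * v1c al : ℝ) : ℂ) * ((Real.sin al : ℂ) * (Real.cos al : ℂ)) +
        ((w * mu1c al : ℝ) : ℂ) * ((Real.sin al : ℂ) * PL 2 t) = 0 := by
      rw [ofReal_mul, ofReal_mul]
      linear_combination (w : ℂ) * hf1
    rw [e1, sub_zero, sub_zero, zero_add] at h1
    rw [ofReal_add]
    exact h1
  · rw [ofReal_add, ofReal_mul]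
    have e2 : Vf al (Z1 al (w : ℂ)) (X1 al (w : ℂ)) t - ((Vs al : ℂ) + (w : ℂ) * (v1c al : ℂ)) =
        Vf al (fun z => cos z + (w : ℂ) * Af1 al z) (fun z => sin z + (w : ℂ) * Bf1 al z) t - (Vs al : ℂ) -
          (w : ℂ) * (v1c al : ℂ) := by
      change Vf al (fun z => cos z + (w : ℂ) * Af1 al z) (fun z => sin z + (w : ℂ) * Bf1 al z) t - _ = _
      ring
    rw [e2]
    exact h2

theorem O03_NB {M al R w d : ℝ} (hR : 0 ≤ R) (h : O03D M al R) (hM : 0 ≤ M) (hw : 0 ≤ w) (hwd : w ≤ d) :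
    NB (M * d) (-R) R (Z1 al (w : ℂ)) (X1 al (w : ℂ)) := by
  have hk : ∀ x : ℂ, ‖x‖ ≤ M → ‖(w : ℂ) * x‖ ≤ M * d := fun x hx => by
    rw [norm_mul, Complex.norm_real, Real.norm_eq_abs, abs_of_nonneg hw, mul_comm M d]
    exact mul_le_mul hwd hx (norm_nonneg _) (hw.trans hwd)
  have hZ : ∀ z, HasDerivAt (Z1 al (w : ℂ)) (- sin z + (w : ℂ) * deriv (Af1 al) z) z := fun z =>
    (hasDerivAt_cos z).add ((h.dA z).hasDerivAt.const_mul (w : ℂ))
  have hX : ∀ z, HasDerivAt (X1 al (w : ℂ)) (cos z + (w : ℂ) * deriv (Bf1 al) z) z := fun z =>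
    (hasDerivAt_sin z).add ((h.dB z).hasDerivAt.const_mul (w : ℂ))
  refine ⟨fun z _ => (hZ z).differentiableAt.differentiableWithinAt,
    fun z _ => (hX z).differentiableAt.differentiableWithinAt, fun z hz => ?_, fun z hz => ?_, fun z hz => ?_, fun z hz => ?_⟩
  · have : Z1 al (w : ℂ) z - cos z = (w : ℂ) * Af1 al z := by rw [Z1]; ring
    rw [this]
    exact hk _ (h.bd.a0 z hz)
  · have : X1 al (w : ℂ) z - sin z = (w : ℂ) * Bf1 al z := by rw [X1]; ring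
    rw [this]
    exact hk _ (h.bd.b0 z hz)
  · rw [(hZ z).deriv]
    have : -sin z + (w : ℂ) * deriv (Af1 al) z + sin z = (w : ℂ) * deriv (Af1 al) z := by ring
    rw [this]
    exact hk _ (h.bd.a1 z hz)
  · rw [(hX z).deriv]
    have : cos z + (w : ℂ) * deriv (Bf1 al) z - cos z = (w : ℂ) * deriv (Bf1 al) z := by ring
    rw [this]
    exact hk _ (h.bd.b1 z hz)

theorem O03_Sym {M al R : ℝ} (h : O03D M al R) (w : ℂ) : Sym R (Z1 al w) (X1 al w) where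
  eZ := fun z hz => by rw [Z1, Z1, cos_neg, h.sy.eZ z hz]
  oX := fun z hz => by rw [X1, X1, sin_neg, h.sy.oX z hz]; ring
  aZ := fun z hz => by rw [Z1, Z1, cos_add_pi, h.sy.aZ z hz]; ring
  aX := fun z hz => by rw [X1, X1, sin_add_pi, h.sy.aX z hz]; ring

theorem O03_Real {M al R : ℝ} (h : O03D M al R) (w : ℝ) : RealC R (Z1 al (w : ℂ)) (X1 al (w : ℂ)) where
  rZ := fun z hz => by
    rw [Z1, Z1, h.re.rZ z hz, map_add, map_mul, conj_ofReal, ← cos_conj]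
  rX := fun z hz => by
    rw [X1, X1, h.re.rX z hz, map_add, map_mul, conj_ofReal, ← sin_conj]

/-- The family `e ↦ Z1 al (d e)`, `X1 al (d e)`: `quad` at the circle and `first_order`: errors `O(d^2)`. Symmetries by `dir1_props`. -/
theorem firstAp (R : ℝ) (hR : 3 ≤ R) : ∃ C c1 : ℝ, 1 ≤ C ∧ 0 < c1 ∧ ∀ al ∈ JJ, ∀ d : ℝ, 0 ≤ d → d ≤ c1 →
    Ap al R (C * d) (C * d ^ 2) (fun e => Z1 al ((d * (e : ℝ) : ℝ) : ℂ)) (fun e => X1 al ((d * (e : ℝ) : ℝ) : ℂ))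
      (fun e => Vs al + d * (e : ℝ) * v1c al) (fun e => d * (e : ℝ) * mu1c al) := by
  obtain ⟨M, C, c1, hM, hC, hc1, h⟩ := O03_est R hR
  refine ⟨M + C, c1, by linarith, hc1, fun al hal d hd hdc => ?_⟩
  obtain ⟨hD, hE⟩ := h al hal
  have hM0 : (0:ℝ) ≤ M := by linarith
  have he0 : ∀ e : EE, 0 ≤ d * (e : ℝ) := fun e => mul_nonneg hd e.2.1
  have he1 : ∀ e : EE, d * (e : ℝ) ≤ d := fun e => mul_le_of_le_one_right hd e.2.2
  have hsq : ∀ e : EE, C * (d * (e : ℝ)) ^ 2 ≤ (M + C) * d ^ 2 := fun e => by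
    have h1 : (d * (e : ℝ)) ^ 2 ≤ d ^ 2 := pow_le_pow_left₀ (he0 e) (he1 e) 2
    nlinarith [sq_nonneg d, sq_nonneg (d * (e : ℝ))]
  have hlin : ∀ e : EE, ∀ x : ℝ, |x| ≤ M → |d * (e : ℝ) * x| ≤ (M + C) * d := fun e x hx => by
    rw [abs_mul, abs_of_nonneg (he0 e)]
    have h1 : d * (e : ℝ) * |x| ≤ d * M := mul_le_mul (he1 e) hx (abs_nonneg _) hd
    nlinarith
  have hcast : Continuous (fun p : EE × ℂ => ((d * (p.1 : ℝ) : ℝ) : ℂ)) := by fun_prop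
  refine ⟨⟨⟨?_, fun e => ?_⟩, ⟨?_, fun e => ?_⟩, fun e => ?_, fun e => O03_Sym hD _, fun e => O03_Real hD _⟩, by fun_prop, by fun_prop,
    fun e => ?_, fun e => ?_, fun e t ht => ?_, fun e t ht => ?_⟩
  · exact ((continuous_cos.comp continuous_snd).add (hcast.mul (hD.dA.continuous.comp continuous_snd))).continuousOn
  · exact fun z _ => ((hasDerivAt_cos z).differentiableAt.add ((hD.dA z).const_mul _)).differentiableWithinAt
  · exact ((continuous_sin.comp continuous_snd).add (hcast.mul (hD.dB.continuous.comp continuous_snd))).continuousOn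
  · exact fun z _ => ((hasDerivAt_sin z).differentiableAt.add ((hD.dB z).const_mul _)).differentiableWithinAt
  · exact G01_NBMono (O03_NB (by linarith) hD hM0 (he0 e) (he1 e)) (by nlinarith) le_rfl le_rfl
  · have : Vs al + d * (e : ℝ) * v1c al - Vs al = d * (e : ℝ) * v1c al := by ring
    rw [this]
    exact hlin e _ hD.hv
  · exact hlin e _ hD.hm
  · exact ((hE _ (he0 e) ((he1 e).trans hdc) t ht).1).trans (hsq e)
  · exact ((hE _ (he0 e) ((he1 e).trans hdc) t ht).2).trans (hsq e)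

/-- `firstAp` on `strip (R0 + m (b + 2))`, then `m` times `stepA`: errors `E_k ≤ C d^{k+2}`, closeness `≤ C d`; after the first step
`mu = d e mu1c - l_2/sin al` with `l` the Legendre coefficients of `SS` at the first order curve; the later steps change `mu` by `O(d^3)` and the curve by
`O(d^3)`; the first one changes the curve by `O(d^2)`. -/
theorem iterAp (c b : ℝ) (hc : 0 < c) (hb : 1 ≤ b) (m : ℕ) (hm : 1 ≤ m) (R0 : ℝ) (hR0 : b + 5 ≤ R0) : ∃ C c1 : ℝ, 1 ≤ C ∧ 0 < c1 ∧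
    ∀ al ∈ JJ, EB al c b → ∀ d : ℝ, 0 ≤ d → d ≤ c1 → ∃ (Z X : EE → ℂ → ℂ) (V0 mu : EE → ℝ) (l : EE → ℕ → ℝ) (L : ℕ → ℝ),
      Ap al R0 (C * d) (C * d ^ (m + 2)) Z X V0 mu ∧
      (∀ e, ∀ z ∈ strip R0, ‖Z e z - Z1 al ((d * (e : ℝ) : ℝ) : ℂ) z‖ ≤ C * d ^ 2 ∧ ‖X e z - X1 al ((d * (e : ℝ) : ℝ) : ℂ) z‖ ≤ C * d ^ 2) ∧
      (∀ e n, |l e n| ≤ L n) ∧ (∀ r' : ℝ, 1 ≤ r' → r' < R0 → Summable (fun n : ℕ => L n * WW n r')) ∧
      (∀ e, ∀ t ∈ band 1 R0, HasSum (fun n => ((l e n : ℝ) : ℂ) * PL n t)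
        (SS al ((Vs al + d * (e : ℝ) * v1c al : ℝ) : ℂ) ((d * (e : ℝ) * mu1c al : ℝ) : ℂ) (Z1 al ((d * (e : ℝ) : ℝ) : ℂ))
          (X1 al ((d * (e : ℝ) : ℝ) : ℂ)) t)) ∧
      (∀ e, |mu e - (d * (e : ℝ) * mu1c al - l e 2 / Real.sin al)| ≤ C * d ^ 3) := by
  induction m, hm using Nat.le_induction generalizing R0 with
  | base =>
    obtain ⟨C1, c1, hC1, hc1, h1⟩ := firstAp (R0 + b + 2) (by linarith)
    obtain ⟨C2, c2, hC2, hc2, h2⟩ := stepA c b (R0 + b + 2) hc hb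
    have hK : 1 ≤ C1 * C2 := by nlinarith
    have hK2 : C1 ≤ C1 * C2 := by nlinarith
    have hK3 : C1 * C2 ≤ C1 ^ 2 * C2 := by nlinarith
    refine ⟨2 * C1 ^ 2 * C2, min (min c1 1) (c2 / C1), by nlinarith, by positivity, fun al hal hEB d hd hdc => ?_⟩
    have hd1 : d ≤ c1 := hdc.trans ((min_le_left _ _).trans (min_le_left _ _))
    have hd2 : d ≤ 1 := hdc.trans ((min_le_left _ _).trans (min_le_right _ _))
    have hd3 : C1 * d ≤ c2 := by
      have := hdc.trans (min_le_right _ _)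
      rw [le_div_iff₀ (by linarith)] at this
      linarith
    have hdd : d ^ 2 ≤ d := by nlinarith
    have hA := h1 al hal d hd hd1
    have hE2 : C1 * d ^ 2 ≤ c2 := by nlinarith
    obtain ⟨Z, X, V0, mu, l, L, g1, g2, g3, g4, g5, g6, g7⟩ := h2 al hal hEB (R0 + b + 2) (C1 * d) (C1 * d ^ 2) (by linarith) le_rfl
      (by positivity) hd3 (by positivity) hE2 _ _ _ _ hA
    have er : R0 + b + 2 - b - 2 = R0 := by ring
    rw [er] at g1 g2
    refine ⟨Z, X, V0, mu, l, L, O03_mono g1 ?_ ?_, fun e z hz => ?_, g4, fun r' hr' hr'' => g5 r' hr' (by linarith), fun e t ht => ?_,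
      fun e => ?_⟩
    · nlinarith [mul_nonneg (sub_nonneg.2 hK3) hd, mul_nonneg (sub_nonneg.2 hK2) hd,
        mul_nonneg (show 0 ≤ C1 * C2 by linarith) (sub_nonneg.2 hdd)]
    · have e3 : 2 * C1 ^ 2 * C2 * d ^ (1 + 2) - C2 * (C1 * d + C1 * d ^ 2) * (C1 * d ^ 2) =
          C1 ^ 2 * C2 * d ^ 3 * (1 - d) := by ring
      have : 0 ≤ C1 ^ 2 * C2 * d ^ 3 * (1 - d) := mul_nonneg (by positivity) (by linarith)
      linarith
    · have h3 : C2 * (C1 * d ^ 2) ≤ 2 * C1 ^ 2 * C2 * d ^ 2 := by nlinarith [sq_nonneg d]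
      exact ⟨((g2 e z hz).1).trans h3, ((g2 e z hz).2).trans h3⟩
    · exact g6 e t ⟨ht.1, by linarith [ht.2]⟩
    · rw [g7 e, sub_self, abs_zero]
      positivity
  | succ m hm ih =>
    obtain ⟨C1, c1, hC1, hc1, h1⟩ := ih (R0 + b + 2) (by linarith)
    obtain ⟨C2, c2, hC2, hc2, h2⟩ := stepA c b (R0 + b + 2) hc hb
    have hK : 1 ≤ C1 * C2 := by nlinarith
    have hK2 : C1 ≤ C1 * C2 := by nlinarith
    have hK3 : C1 * C2 ≤ C1 ^ 2 * C2 := by nlinarith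
    refine ⟨2 * C1 ^ 2 * C2, min (min c1 1) (c2 / C1), by nlinarith, by positivity, fun al hal hEB d hd hdc => ?_⟩
    have hd1 : d ≤ c1 := hdc.trans ((min_le_left _ _).trans (min_le_left _ _))
    have hd2 : d ≤ 1 := hdc.trans ((min_le_left _ _).trans (min_le_right _ _))
    have hd3 : C1 * d ≤ c2 := by
      have := hdc.trans (min_le_right _ _)
      rw [le_div_iff₀ (by linarith)] at this
      linarith
    have hp1 : d ^ (m + 2) ≤ d := by
      calc d ^ (m + 2) ≤ d ^ 1 := pow_le_pow_of_le_one hd hd2 (by omega)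
        _ = d := pow_one d
    have hp2 : d ^ (m + 2) ≤ d ^ 2 := pow_le_pow_of_le_one hd hd2 (by omega)
    have hp3 : d ^ (m + 2) ≤ d ^ 3 := pow_le_pow_of_le_one hd hd2 (by omega)
    have hp0 : 0 ≤ d ^ (m + 2) := pow_nonneg hd _
    obtain ⟨Z, X, V0, mu, l, L, a1, a2, a3, a4, a5, a6⟩ := h1 al hal hEB d hd hd1
    have hE2 : C1 * d ^ (m + 2) ≤ c2 := by nlinarith
    obtain ⟨Z', X', V0', mu', l', L', g1, g2, g3, -, -, -, -⟩ := h2 al hal hEB (R0 + b + 2) (C1 * d) (C1 * d ^ (m + 2)) (by linarith) le_rfl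
      (by positivity) hd3 (by positivity) hE2 _ _ _ _ a1
    have er : R0 + b + 2 - b - 2 = R0 := by ring
    rw [er] at g1 g2
    have hstr : ∀ z ∈ strip R0, z ∈ strip (R0 + b + 2) := fun z hz => ⟨by linarith [hz.1], by linarith [hz.2]⟩
    refine ⟨Z', X', V0', mu', l, L, O03_mono g1 ?_ ?_, fun e z hz => ?_, a3, fun r' hr' hr'' => a4 r' hr' (by linarith), fun e t ht => ?_,
      fun e => ?_⟩
    · nlinarith [mul_nonneg (sub_nonneg.2 hK3) hd, mul_nonneg (sub_nonneg.2 hK2) hd,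
        mul_nonneg (show 0 ≤ C1 * C2 by linarith) (sub_nonneg.2 hp1)]
    · have e3 : 2 * C1 ^ 2 * C2 * d ^ (m + 1 + 2) - C2 * (C1 * d + C1 * d ^ (m + 2)) * (C1 * d ^ (m + 2)) =
          C1 ^ 2 * C2 * d ^ (m + 2) * (d - d ^ (m + 2)) := by ring
      have : 0 ≤ C1 ^ 2 * C2 * d ^ (m + 2) * (d - d ^ (m + 2)) := mul_nonneg (by positivity) (by linarith)
      linarith
    · have h3 : C2 * (C1 * d ^ (m + 2)) + C1 * d ^ 2 ≤ 2 * C1 ^ 2 * C2 * d ^ 2 := by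
        have e4 : C2 * (C1 * d ^ (m + 2)) ≤ C2 * (C1 * d ^ 2) := by gcongr
        nlinarith [sq_nonneg d]
      obtain ⟨b1, b2⟩ := g2 e z hz
      obtain ⟨b3, b4⟩ := a2 e z (hstr z hz)
      refine ⟨le_trans ?_ h3, le_trans ?_ h3⟩
      · calc ‖Z' e z - Z1 al ((d * (e : ℝ) : ℝ) : ℂ) z‖ = ‖(Z' e z - Z e z) + (Z e z - Z1 al ((d * (e : ℝ) : ℝ) : ℂ) z)‖ := by ring_nf
          _ ≤ _ := (norm_add_le _ _).trans (add_le_add b1 b3)
      · calc ‖X' e z - X1 al ((d * (e : ℝ) : ℝ) : ℂ) z‖ = ‖(X' e z - X e z) + (X e z - X1 al ((d * (e : ℝ) : ℝ) : ℂ) z)‖ := by ring_nf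
          _ ≤ _ := (norm_add_le _ _).trans (add_le_add b2 b4)
    · exact a5 e t ⟨ht.1, by linarith [ht.2]⟩
    · have b1 := (g3 e).2
      have b2 := a6 e
      have h4 : C2 * (C1 * d ^ (m + 2)) + C1 * d ^ 3 ≤ 2 * C1 ^ 2 * C2 * d ^ 3 := by
        have e4 : C2 * (C1 * d ^ (m + 2)) ≤ C2 * (C1 * d ^ 3) := by gcongr
        nlinarith [pow_nonneg hd 3]
      refine le_trans ?_ h4
      calc |mu' e - (d * (e : ℝ) * mu1c al - l e 2 / Real.sin al)|
          = |(mu' e - mu e) + (mu e - (d * (e : ℝ) * mu1c al - l e 2 / Real.sin al))| := by ring_nf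
        _ ≤ _ := (abs_add_le _ _).trans (add_le_add b1 b2)

end FB
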