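import Pool.Agent.H48.FB.M09
import Pool.Agent.H48.FB.M10
import Pool.Agent.H48.FB.D05

/-! O04: from an approximate solution to a full state. -/

open Complex Set MeasureTheory Filter Topology

noncomputable section

namespace FB

theorem O04_strip {r r' : ℝ} (h : r' ≤ r) : strip r' ⊆ strip r := band_subset (by linarith) h

theorem O04_FC_mono {c c' r r' : ℝ} {Z X : EE → ℂ → ℂ} (h : FC c r Z X) (hc : c ≤ c') (hr : r' ≤ r) : FC c' r' Z X where
  fZ := h.fZ.mono (O04_strip hr)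
  fX := h.fX.mono (O04_strip hr)
  nb := fun e => (h.nb e).mono hc (by linarith) hr
  sy := fun e => (h.sy e).mono hr
  re := fun e => (h.re e).mono hr

theorem O04_US_mono {c c' r r' : ℝ} {u : EE → ℂ → ℂ} (h : US c r u) (hc : c ≤ c') (hr : r' ≤ r) : US c' r' u where
  fu := h.fu.mono (O04_strip hr)
  u0 := fun e z hz => (h.u0 e z (O04_strip hr hz)).trans hc
  ue := fun e z hz => h.ue e z (O04_strip hr hz)
  up := fun e z hz => h.up e z (O04_strip hr hz)
  ur := fun e z hz => h.ur e z (O04_strip hr hz)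

theorem O04_RS_mono {al r r' cR cR' : ℝ} {Z X u : EE → ℂ → ℂ} {Rm : EE → ℕ → ℕ → ℝ} {RM : ℕ → ℕ → ℝ}
    (h : RS al r cR Z X u Rm RM) (hr : r' ≤ r) (hc : cR ≤ cR') : RS al r' cR' Z X u Rm RM where
  c := h.c
  m := h.m
  n := fun r'' h1 h2 m => by
    obtain ⟨h3, h4⟩ := h.n r'' h1 (h2.trans_le hr) m
    exact ⟨h3, h4.trans (mul_le_mul_of_nonneg_right hc (A10_WW_pos m r'').le)⟩
  h := fun e m t ht => h.h e m t (band_subset le_rfl hr ht)

theorem O04_Ap_mono {al r r' cA cA' E : ℝ} {Z X : EE → ℂ → ℂ} {V0 mu : EE → ℝ}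
    (h : Ap al r cA E Z X V0 mu) (hr : r' ≤ r) (hc : cA ≤ cA') : Ap al r' cA' E Z X V0 mu where
  fc := O04_FC_mono h.fc hc hr
  vc := h.vc
  mc := h.mc
  vb := fun e => (h.vb e).trans hc
  mb := fun e => (h.mb e).trans hc
  eS := fun e t ht => h.eS e t (band_subset le_rfl hr ht)
  eV := fun e t ht => h.eV e t (band_subset le_rfl hr ht)

theorem O04_FC_circle {c : ℝ} (hc : 0 ≤ c) (r : ℝ) : FC c r (fun _ => cos) (fun _ => sin) where
  fZ := Fam.const differentiable_cos.differentiableOn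
  fX := Fam.const differentiable_sin.differentiableOn
  nb := fun _ => d05_NB hc
  sy := fun _ => Sym_circle r
  re := fun _ => RealC_circle r

theorem O04_dir {c a b : ℝ} {Z X : ℂ → ℂ} (h : NB c a b Z X) :
    DirBd c a b (fun z => Z z - cos z) (fun z => X z - sin z) where
  dA := h.dZ.sub differentiable_cos.differentiableOn
  dB := h.dX.sub differentiable_sin.differentiableOn
  a0 := h.z0
  b0 := h.x0
  a1 := fun z hz => by
    have h1 : HasDerivAt Z (deriv Z z) z := ((h.dZ z hz).differentiableAt ((isOpen_band a b).mem_nhds hz)).hasDerivAt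
    have h2 : deriv (fun z => Z z - cos z) z = deriv Z z - -sin z := (h1.sub (hasDerivAt_cos z)).deriv
    rw [h2, sub_neg_eq_add]
    exact h.z1 z hz
  b1 := fun z hz => by
    have h1 : HasDerivAt X (deriv X z) z := ((h.dX z hz).differentiableAt ((isOpen_band a b).mem_nhds hz)).hasDerivAt
    have h2 : deriv (fun z => X z - sin z) z = deriv X z - cos z := (h1.sub (hasDerivAt_sin z)).deriv
    rw [h2]
    exact h.x1 z hz

theorem O04_term (c b : ℝ) (m : ℕ) :
    Real.exp (-(2 * ((m:ℝ) + 1) * (b + 6 - 5))) / (c * Real.exp (-(b * ((m + 1 : ℕ) : ℝ)))) =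
      Real.exp (-(b + 2)) / c * Real.exp (-(b + 2)) ^ m := by
  rw [← Real.exp_nat_mul]
  have h1 : Real.exp (-(2 * ((m:ℝ) + 1) * (b + 6 - 5))) =
      Real.exp (-(b + 2)) * Real.exp ((m:ℝ) * -(b + 2)) * Real.exp (-(b * ((m + 1 : ℕ) : ℝ))) := by
    rw [← Real.exp_add, ← Real.exp_add]
    congr 1
    push_cast
    ring
  have h2 : Real.exp (-(b * ((m + 1 : ℕ) : ℝ))) ≠ 0 := (Real.exp_pos _).ne'
  rw [h1]
  field_simp

/-- `cohU` from the circle (constant family, `A = Z - cos`, `B = X - sin`, `DirBd cA`; `log 1 = 0`) with `s m = c e^{-bm}`, from `strip (b + 6)` to `strip 5`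
(`W = (1/c) ∑ e^{-2(m+1)(b+1)} e^{b(m+1)} ≤ C`): gives `u` with the cohomological equation, `‖u‖ ≤ C cA`. Then `startR` on `strip 5` with `ρ = 1/4`
(result on `strip (9/2)`), and restrict everything to `strip 4`. -/
theorem finish (c b : ℝ) (hc : 0 < c) (hb : 1 ≤ b) : ∃ C c1 : ℝ, 1 ≤ C ∧ 0 < c1 ∧ ∀ al ∈ JJ, EB al c b → ∀ cA E : ℝ, 0 ≤ cA → cA ≤ c1 → 0 ≤ E →
    ∀ (Z X : EE → ℂ → ℂ) (V0 mu : EE → ℝ), Ap al (b + 6) cA E Z X V0 mu →
    ∃ (u : EE → ℂ → ℂ) (Rm : EE → ℕ → ℕ → ℝ) (RM : ℕ → ℕ → ℝ), St al 4 (C * cA) (C * cA) E Z X u Rm RM V0 mu := by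
  obtain ⟨c0, C0, hc0, hC0, hU⟩ := cohU (b + 6) (by linarith)
  obtain ⟨c1, C1, hc1, hC1, hR⟩ := startR
  have hq : Real.exp (-(b + 2)) < 1 := by
    rw [Real.exp_lt_one_iff]; linarith
  have hsum : Summable (fun m : ℕ => Real.exp (-(2 * ((m:ℝ) + 1) * (b + 6 - 5))) / (c * Real.exp (-(b * ((m + 1 : ℕ) : ℝ))))) := by
    simp only [O04_term]
    exact (summable_geometric_of_lt_one (Real.exp_pos _).le hq).mul_left _
  set W : ℝ := ∑' m : ℕ, Real.exp (-(2 * ((m:ℝ) + 1) * (b + 6 - 5))) / (c * Real.exp (-(b * ((m + 1 : ℕ) : ℝ)))) with hWdef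
  have hW : 0 ≤ W := tsum_nonneg fun m => by positivity
  set K : ℝ := C0 * (W + 1) with hK
  have hK1 : 1 ≤ K := by rw [hK]; nlinarith
  have hK0 : 0 < K := by linarith
  refine ⟨K * C1 * 4 ^ 6, min c0 (c1 / K), by nlinarith, lt_min hc0 (by positivity), ?_⟩
  intro al hal hE cA E hcA hcA1 hE0 Z X V0 mu hA
  have hcA0 : cA ≤ c0 := hcA1.trans (min_le_left _ _)
  have hcAK : K * cA ≤ c1 := by
    have := hcA1.trans (min_le_right _ _)
    rwa [le_div_iff₀ hK0, mul_comm] at this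
  have hZeq : (fun (e : EE) z => cos z + (Z e z - cos z)) = Z := by funext e z; ring
  have hXeq : (fun (e : EE) z => sin z + (X e z - sin z)) = X := by funext e z; ring
  have hal0 : 0 < Real.sin al := by
    have := (JJ_bounds hal).2.2.2.2.2.1
    linarith
  obtain ⟨u, hu, hueq⟩ := hU al hal (fun m => c * Real.exp (-(b * (m:ℝ)))) (fun m hm => ⟨by positivity, hE.hs m hm⟩)
    (b + 6) 5 cA W (by norm_num) (by linarith) le_rfl hcA hcA0 hsum le_rfl (fun _ => cos) (fun _ => sin)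
    (fun e z => Z e z - cos z) (fun e z => X e z - sin z) (O04_FC_circle hc0.le _)
    (by rw [hZeq, hXeq]; exact O04_FC_mono hA.fc hcA0 le_rfl) (fun e => O04_dir (hA.fc.nb e))
  have hu5 : US (K * cA) 5 u := by
    refine O04_US_mono hu ?_ le_rfl
    rw [hK]
    nlinarith [mul_nonneg (by linarith : (0:ℝ) ≤ C0) hcA]
  have hcoh : ∀ e, ∀ z ∈ strip 5, CohEq al (Z e) (X e) (u e) z := by
    intro e z hz
    unfold CohEq
    rw [hueq e z hz]
    have e1 : (fun z => cos z + (Z e z - cos z)) = Z e := congrFun hZeq e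
    have e2 : (fun z => sin z + (X e z - sin z)) = X e := congrFun hXeq e
    obtain ⟨-, -, -, -, -, -, -, -, -, -, h11, h12, -⟩ := circle_chord al hal0 z
    simp only [e1, e2, h11, h12, sub_self, sub_zero]
  have hA5 : FC (K * cA) 5 Z X := O04_FC_mono hA.fc (by nlinarith) (by linarith)
  obtain ⟨Rm, RM, hRS⟩ := hR al hal 5 (K * cA) (1/4) (by norm_num) le_rfl (by norm_num) le_rfl (by norm_num)
    (by positivity) hcAK Z X u hA5 hu5 hcoh
  have hKC : K ≤ K * C1 * 4 ^ 6 := by nlinarith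
  have hKcA : K * cA ≤ K * C1 * 4 ^ 6 * cA := mul_le_mul_of_nonneg_right hKC hcA
  refine ⟨u, Rm, RM, ?_, ?_, fun e z hz => hcoh e z (O04_strip (by norm_num) hz), ?_⟩
  · exact O04_Ap_mono hA (by linarith) (by nlinarith)
  · exact O04_US_mono hu5 hKcA (by norm_num)
  · refine O04_RS_mono hRS (by norm_num) (le_of_eq ?_)
    ring

end FB
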