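import Pool.Agent.H48.FB.PDefs
import Pool.Agent.H48.FB.G00
import Pool.Agent.H48.FB.G03
import Pool.Agent.H48.FB.E01

/-! P03: derivative of `DS0` along a line through the circle. -/

open Complex Set MeasureTheory Filter Topology

noncomputable section

namespace FB

/-- `κ̂(t, s) = nx sin(t+s) Lf (kk q0)` at the circle -/
def kh (al : ℝ) (t s : ℂ) : ℂ := (Real.sin al : ℂ) * sin t * sin (t + s) * Lf (kk al s * q0 t s)

/-! ### pointwise derivatives -/

theorem P03_sq {𝕜 : Type*} [NontriviallyNormedField 𝕜] [NormedAlgebra 𝕜 ℂ] {y P Q : 𝕜 → ℂ} {x : 𝕜}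
    {y' P' Q' : ℂ} (hy : HasDerivAt y y' x) (hP : HasDerivAt P P' x) (hQ : HasDerivAt Q Q' x)
    (h : ∀ᶠ z in 𝓝 x, y z ^ 2 * Q z = P z) : 2 * y x * y' * Q x = P' - y x ^ 2 * Q' := by
  have h1 := (hy.pow 2).mul hQ
  have h2 : HasDerivAt (fun z => y z ^ 2 * Q z) P' x := hP.congr_of_eventuallyEq h
  have h3 := h1.unique h2
  simp only [Pi.pow_apply, Nat.cast_ofNat, Nat.reduceSub, pow_one] at h3
  linear_combination h3

/-- derivative of `Lf y * Q` when `y^2 Q = P` -/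
theorem P03_kap {𝕜 : Type*} [NontriviallyNormedField 𝕜] [NormedAlgebra 𝕜 ℂ] {y P Q : 𝕜 → ℂ} {x : 𝕜}
    {y' P' Q' : ℂ} (hy : HasDerivAt y y' x) (hP : HasDerivAt P P' x) (hQ : HasDerivAt Q Q' x)
    (h : ∀ᶠ z in 𝓝 x, y z ^ 2 * Q z = P z) (hn : ‖y x‖ ^ 2 < 2) :
    HasDerivAt (fun z => Lf (y z) * Q z) (Af (y x) * P' + (Uf (y x) - Af (y x)) * Q') x := by
  have h0 := P03_sq hy hP hQ h
  have h1 := ((hasDerivAt_Lf hn).comp x hy).mul hQ
  refine h1.congr_deriv ?_
  have h2 := Lf_eq hn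
  simp only [Function.comp]
  rw [h2]
  linear_combination Af (y x) * h0

/-- derivative of `Wf y * Q` when `y^2 Q = P` -/
theorem P03_kapW {𝕜 : Type*} [NontriviallyNormedField 𝕜] [NormedAlgebra 𝕜 ℂ] {y P Q : 𝕜 → ℂ} {x : 𝕜}
    {y' P' Q' : ℂ} (hy : HasDerivAt y y' x) (hP : HasDerivAt P P' x) (hQ : HasDerivAt Q Q' x)
    (h : ∀ᶠ z in 𝓝 x, y z ^ 2 * Q z = P z) (hn : ‖y x‖ ^ 2 < 2) :
    HasDerivAt (fun z => Wf (y z) * Q z)
      (2 * Uf (y x) * P' + (Af (y x) - (1 + y x ^ 2) * Uf (y x)) * Q') x := by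
  have h0 := P03_sq hy hP hQ h
  have h1 := ((hasDerivAt_Wf hn).comp x hy).mul hQ
  refine h1.congr_deriv ?_
  simp only [Function.comp]
  rw [Wf]
  unfold Uf
  linear_combination 2 * y x * (2 - y x ^ 2) ^ ((1:ℂ)/2) * h0

/-! ### the function `y = kk q0` on the closed interval -/

theorem P03_im {t : ℂ} (ht : 1 < t.im) (s : ℝ) : 1 ≤ (t + (s:ℂ)).im := by
  rw [add_real_im]
  exact ht.le

theorem P03_cos_ge {al s : ℝ} (hal : al ∈ JJ) (hs : s ∈ Icc (-al) al) : Real.cos al ≤ Real.cos s := by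
  obtain ⟨h1, h2, h3, -⟩ := JJ_bounds hal
  rw [← Real.cos_abs s]
  exact Real.cos_le_cos_of_nonneg_of_le_pi (abs_nonneg _) (by linarith [Real.pi_pos]) (abs_le.2 hs)

theorem P03_q0_cont {t : ℂ} (ht : 1 < t.im) : Continuous (fun s : ℝ => q0 t (s:ℂ)) := by
  rw [continuous_iff_continuousAt]
  intro s
  have h1 := (q0_diff ht.le (P03_im ht s)).2.1.continuousAt
  exact ContinuousAt.comp (f := fun s : ℝ => (s:ℂ)) h1 (by fun_prop)

theorem P03_kk_cont {al : ℝ} (hal : al ∈ JJ) : ContinuousOn (fun s : ℝ => kk al (s:ℂ)) (Icc (-al) al) := by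
  have h1 : ContinuousOn (fun s : ℝ => ((Real.sqrt (Real.cos s - Real.cos al) : ℝ) : ℂ)) (Icc (-al) al) :=
    (continuous_ofReal.comp (Real.continuous_sqrt.comp (Real.continuous_cos.sub continuous_const))).continuousOn
  exact h1.congr fun s hs => kk_real (P03_cos_ge hal hs)

theorem P03_Y_cont {al : ℝ} (hal : al ∈ JJ) {t : ℂ} (ht : 1 < t.im) :
    ContinuousOn (fun s : ℝ => kk al (s:ℂ) * q0 t (s:ℂ)) (Icc (-al) al) :=
  (P03_kk_cont hal).mul (P03_q0_cont ht).continuousOn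

theorem P03_Y_bd {al : ℝ} (hal : al ∈ JJ) {t : ℂ} (ht : 1 < t.im) {s : ℝ} (hs : s ∈ Icc (-al) al) :
    ‖kk al (s:ℂ) * q0 t (s:ℂ)‖ ^ 2 ≤ 1/2 := by
  obtain ⟨hj1, hj2, hj3, hj4, hj5, hs1, hs2⟩ := JJ_bounds hal
  have hc := P03_cos_ge hal hs
  have h3 : q0 t (s:ℂ) ^ 2 = 1 / (sin t * sin (t + s)) := (q0_sq ht.le (P03_im ht s)).1
  have h4 := sin_im_ge ht.le
  have h5 := sin_im_ge (P03_im ht s)
  have h6 : 1.38 ≤ ‖sin t‖ * ‖sin (t + s)‖ := by
    have h7 : (1.38 : ℝ) ^ 2 ≤ (‖sin t‖ * ‖sin (t + s)‖) ^ 2 := by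
      rw [mul_pow]
      nlinarith
    exact le_of_sq_le_sq h7 (by positivity)
  have h8 : 1 / (‖sin t‖ * ‖sin (t + s)‖) ≤ 1 / 1.38 :=
    one_div_le_one_div_of_le (by norm_num) h6
  rw [norm_mul, mul_pow, ← norm_pow, ← norm_pow, h3, kk, cpow_half_sq, ← ofReal_cos, ← ofReal_sub,
    norm_real, Real.norm_eq_abs, abs_of_nonneg (by linarith), norm_div, norm_one, norm_mul]
  have h1 : Real.cos s - Real.cos al ≤ 0.64 := by
    have := Real.cos_le_one s
    linarith
  have h9 : (Real.cos s - Real.cos al) * (1 / (‖sin t‖ * ‖sin (t + s)‖)) ≤ 0.64 * (1 / 1.38) :=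
    mul_le_mul h1 h8 (by positivity) (by norm_num)
  refine h9.trans (by norm_num)

theorem P03_kk_end (al : ℝ) : kk al (al:ℂ) = 0 ∧ kk al ((-al : ℝ):ℂ) = 0 := by
  constructor
  · rw [kk, ← ofReal_cos, sub_self, zero_cpow (by norm_num)]
  · rw [kk, ← ofReal_cos, Real.cos_neg, sub_self, zero_cpow (by norm_num)]

theorem P03_Y_diff {al : ℝ} (hal : al ∈ JJ) {t : ℂ} (ht : 1 < t.im) {s : ℝ} (hs : s ∈ Ioo (-al) al) :
    DifferentiableAt ℝ (fun s : ℝ => kk al (s:ℂ) * q0 t (s:ℂ)) s := by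
  have hcos := cos_gt hal hs
  have dk : DifferentiableAt ℂ (fun w => kk al w) (s:ℂ) := by
    unfold kk
    refine DifferentiableAt.cpow_const (by fun_prop) ?_
    left
    rw [← ofReal_cos, ← ofReal_sub, ofReal_re]
    linarith
  have h1 : DifferentiableAt ℂ (fun w => kk al w * q0 t w) (s:ℂ) :=
    dk.fun_mul (q0_diff ht.le (P03_im ht s)).2.1
  exact h1.hasDerivAt.comp_ofReal.differentiableAt

theorem P03_Y_sq {al : ℝ} {t : ℂ} (ht : 1 < t.im) (s : ℝ) :
    (kk al (s:ℂ) * q0 t (s:ℂ)) ^ 2 * (sin t * sin (t + s)) = cos (s:ℂ) - (Real.cos al : ℂ) := by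
  have hst : sin t ≠ 0 := sin_ne_zero_of_im (by linarith)
  have hsts : sin (t + (s:ℂ)) ≠ 0 := sin_ne_zero_of_im (by rw [add_real_im]; linarith)
  rw [mul_pow, (q0_sq ht.le (P03_im ht s)).1, kk, cpow_half_sq]
  field_simp

/-! ### differentiation under the integral -/

theorem P03_param {al ε M : ℝ} (hal : 0 < al) (hε : 0 < ε) {F : ℂ → ℝ → ℂ}
    (hF : ∀ s ∈ Ioo (-al) al, DifferentiableOn ℂ (fun w => F w s) (Metric.ball 0 ε))
    (hM : ∀ w ∈ Metric.ball (0:ℂ) ε, ∀ s ∈ Ioo (-al) al, ‖F w s‖ ≤ M)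
    (hs : ∀ w ∈ Metric.ball (0:ℂ) ε, ContinuousOn (F w) (Ioo (-al) al)) {F' : ℝ → ℂ}
    (hd : ∀ s ∈ Ioo (-al) al, HasDerivAt (fun w => F w s) (F' s) 0) :
    HasDerivAt (fun w => ∫ s in (-al)..al, F w s) (∫ s in (-al)..al, F' s) 0 := by
  have hal' : -al ≤ al := by linarith
  have hne : ∀ᵐ t ∂(volume : Measure ℝ), t ∈ uIoc (-al) al → t ∈ Ioo (-al) al := by
    have h0 : ∀ᵐ t ∂(volume : Measure ℝ), t ≠ al := by
      rw [ae_iff]; simp
    filter_upwards [h0] with t ht ht'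
    rw [uIoc_of_le hal'] at ht'
    exact ⟨ht'.1, lt_of_le_of_ne ht'.2 ht⟩
  have hres : (volume : Measure ℝ).restrict (uIoc (-al) al) = (volume : Measure ℝ).restrict (Ioo (-al) al) := by
    rw [uIoc_of_le hal']
    exact (Measure.restrict_congr_set Ioo_ae_eq_Ioc).symm
  have hmeas : ∀ z ∈ Metric.ball (0:ℂ) ε, AEStronglyMeasurable (F z) ((volume : Measure ℝ).restrict (uIoc (-al) al)) := by
    intro z hz
    rw [hres]
    exact (hs z hz).aestronglyMeasurable measurableSet_Ioo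
  have h00 : (0:ℂ) ∈ Metric.ball (0:ℂ) ε := Metric.mem_ball_self hε
  set R : ℝ := ε / 2 with hRdef
  have hR : 0 < R := by positivity
  have hball : Metric.closedBall (0:ℂ) R ⊆ Metric.ball (0:ℂ) ε :=
    Metric.closedBall_subset_ball (by rw [hRdef]; linarith)
  have hint : IntervalIntegrable (F 0) volume (-al) al := e01_ii hal.le (hs 0 h00) (hM 0 h00)
  have hmemn : ∀ n : ℕ, (0:ℂ) + ((R / ((n:ℝ) + 1) : ℝ) : ℂ) ∈ Metric.ball (0:ℂ) ε := by
    intro n
    apply hball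
    rw [Metric.mem_closedBall, dist_eq_norm, add_sub_cancel_left, norm_real,
      Real.norm_of_nonneg (by positivity)]
    rw [div_le_iff₀ (by positivity)]
    have : (0:ℝ) ≤ n := Nat.cast_nonneg n
    nlinarith
  have key := intervalIntegral.hasDerivAt_integral_of_dominated_loc_of_deriv_le
    (μ := (volume : Measure ℝ)) (a := -al) (b := al)
    (F := fun z s => F z s) (F' := fun z s => _root_.deriv (fun z => F z s) z) (x₀ := 0)
    (s := Metric.ball 0 (R / 2)) (bound := fun _ => M / (R / 2))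
    (Metric.ball_mem_nhds 0 (by positivity))
    (by
      filter_upwards [Metric.ball_mem_nhds (0:ℂ) hε] with z hz
      exact hmeas z hz)
    hint
    (by
      refine aestronglyMeasurable_of_tendsto_ae (u := atTop)
        (f := fun (n : ℕ) t => (((R / ((n:ℝ) + 1) : ℝ) : ℂ))⁻¹ * (F (0 + ((R / ((n:ℝ) + 1) : ℝ) : ℂ)) t - F 0 t)) ?_ ?_
      · intro n
        exact ((hmeas _ (hmemn n)).sub (hmeas 0 h00)).const_mul _
      · rw [ae_restrict_iff' measurableSet_uIoc]
        filter_upwards [hne] with t ht ht'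
        have hd : HasDerivAt (fun z => F z t) (_root_.deriv (fun z => F z t) 0) 0 :=
          (hd t (ht ht')).differentiableAt.hasDerivAt
        have hsl := hd.tendsto_slope_zero
        have hseq : Tendsto (fun n : ℕ => ((R / ((n:ℝ) + 1) : ℝ) : ℂ)) atTop (𝓝[≠] 0) := by
          rw [tendsto_nhdsWithin_iff]
          constructor
          · have h1 : Tendsto (fun n : ℕ => R * (1 / ((n:ℝ) + 1))) atTop (𝓝 (R * 0)) :=
              (tendsto_one_div_add_atTop_nhds_zero_nat (𝕜 := ℝ)).const_mul R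
            have h2 : Tendsto (fun n : ℕ => ((R / ((n:ℝ) + 1) : ℝ) : ℂ)) atTop (𝓝 ((0 : ℝ) : ℂ)) := by
              refine (continuous_ofReal.tendsto 0).comp ?_
              rw [mul_zero] at h1
              refine h1.congr fun n => ?_
              ring
            rw [ofReal_zero] at h2
            exact h2
          · filter_upwards with n
            have : (R / ((n:ℝ) + 1) : ℝ) ≠ 0 := by positivity
            exact ofReal_ne_zero.2 this
        exact hsl.comp hseq)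
    (by
      filter_upwards [hne] with t ht ht' z hz
      exact A08_cauchy hR ((hF t (ht ht')).mono hball) (fun y hy => hM y (hball hy) t (ht ht')) hz)
    intervalIntegrable_const
    (by
      filter_upwards [hne] with t ht ht' z hz
      have hzU : z ∈ Metric.ball (0:ℂ) ε := hball (Metric.ball_subset_closedBall (Metric.ball_subset_ball (by linarith) hz))
      exact ((hF t (ht ht')).differentiableAt (Metric.isOpen_ball.mem_nhds hzU)).hasDerivAt)
  refine key.2.congr_deriv ?_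
  exact e01_congr hal.le fun s hs => (hd s hs).deriv


/-! ### the perturbed circle, locally -/

/-- bound of a divided difference -/
theorem P03_div {al : ℝ} (hal : al ∈ JJ) {N N' : ℝ → ℂ} (hN : ∀ s, HasDerivAt N (N' s) s)
    (hc : Continuous N') (h1 : N al = 0) (h2 : N (-al) = 0) :
    ∃ C : ℝ, 0 ≤ C ∧ ∀ s ∈ Ioo (-al) al, ‖N s‖ ≤ C * (Real.cos s - Real.cos al) := by
  obtain ⟨hj1, hj2, hj3, hj4, hj5, hs1, hs2⟩ := JJ_bounds hal
  obtain ⟨L, hL⟩ := (isCompact_Icc (a := -al) (b := al)).exists_bound_of_continuousOn hc.continuousOn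
  have hal1 : al ∈ Icc (-al) al := ⟨by linarith, le_rfl⟩
  have hal2 : -al ∈ Icc (-al) al := ⟨le_rfl, by linarith⟩
  have hL0 : 0 ≤ L := (norm_nonneg _).trans (hL al hal1)
  refine ⟨L / 0.23, by positivity, fun s hs => ?_⟩
  have hsI : s ∈ Icc (-al) al := Ioo_subset_Icc_self hs
  have hlo := b01_cos_lower hal hs
  have ha : ‖N s‖ ≤ L * (al - s) := by
    have h := Convex.norm_image_sub_le_of_norm_hasDerivWithin_le (f := N) (f' := N') (s := Icc (-al) al)
      (C := L) (x := al) (y := s) (fun x _ => (hN x).hasDerivWithinAt) hL (convex_Icc _ _) hal1 hsI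
    rw [h1, sub_zero, Real.norm_eq_abs, abs_sub_comm, abs_of_nonneg (by linarith [hs.2])] at h
    exact h
  have hb : ‖N s‖ ≤ L * (s + al) := by
    have h := Convex.norm_image_sub_le_of_norm_hasDerivWithin_le (f := N) (f' := N') (s := Icc (-al) al)
      (C := L) (x := -al) (y := s) (fun x _ => (hN x).hasDerivWithinAt) hL (convex_Icc _ _) hal2 hsI
    rw [h2, sub_zero, sub_neg_eq_add, Real.norm_eq_abs, abs_of_nonneg (by linarith [hs.1])] at h
    exact h
  have hm : ‖N s‖ ≤ L * min (al - s) (s + al) := by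
    rcases le_total (al - s) (s + al) with h | h
    · rw [min_eq_left h]; exact ha
    · rw [min_eq_right h]; exact hb
  calc ‖N s‖ ≤ L * min (al - s) (s + al) := hm
    _ ≤ L * ((Real.cos s - Real.cos al) / 0.23) :=
        mul_le_mul_of_nonneg_left (by rw [le_div_iff₀ (by norm_num)]; linarith) hL0
    _ = L / 0.23 * (Real.cos s - Real.cos al) := by ring

/-- first order coefficient of the numerator -/
def P03n1 (al : ℝ) (A B : ℂ → ℂ) (t : ℂ) (s : ℝ) : ℂ :=
  df al B t * cos (t + (s:ℂ)) - df al A t * sin (t + (s:ℂ)) + nz al sin t * A (t + (s:ℂ)) +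
    nx al cos t * B (t + (s:ℂ)) - Det al cos sin A B t

/-- second order coefficient of the numerator -/
def P03n2 (al : ℝ) (A B : ℂ → ℂ) (t : ℂ) (s : ℝ) : ℂ :=
  df al B t * A (t + (s:ℂ)) - df al A t * B (t + (s:ℂ)) - (df al B t * md al A t - df al A t * md al B t)

theorem P03_shift {f : ℂ → ℂ} (hf : Differentiable ℂ f) (t : ℂ) (s : ℝ) :
    HasDerivAt (fun s : ℝ => f (t + (s:ℂ))) (deriv f (t + (s:ℂ))) s := by
  have h2 : HasDerivAt (fun s : ℂ => f (t + s)) (deriv f (t + (s:ℂ))) (s:ℂ) :=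
    (hf (t + (s:ℂ))).hasDerivAt.comp_const_add t (s:ℂ)
  exact h2.comp_ofReal

theorem P03_shift_cont {f : ℂ → ℂ} (hf : Differentiable ℂ f) (t : ℂ) :
    Continuous (fun s : ℝ => f (t + (s:ℂ))) := hf.continuous.comp (by fun_prop)

theorem P03_deriv_diff {f : ℂ → ℂ} (hf : Differentiable ℂ f) : Differentiable ℂ (deriv f) :=
  hf.deriv

theorem P03_num (al : ℝ) (hs : 0 < Real.sin al) (A B : ℂ → ℂ) (t w : ℂ) (s : ℝ) :
    nz al (e01L sin B w) t * e01L cos A w (t + (s:ℂ)) + nx al (e01L cos A w) t * e01L sin B w (t + (s:ℂ)) -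
      et al (e01L cos A w) (e01L sin B w) t =
    (Real.sin al : ℂ) * (cos (s:ℂ) - (Real.cos al : ℂ)) + w * P03n1 al A B t s + w ^ 2 * P03n2 al A B t s := by
  obtain ⟨cnz, cnx, cmz, cmx, cdz, cdx, cet, -⟩ := circle_chord al hs t
  have h0 : nz al sin t * cos (t + (s:ℂ)) + nx al cos t * sin (t + (s:ℂ)) - et al cos sin t =
      (Real.sin al : ℂ) * (cos (s:ℂ) - (Real.cos al : ℂ)) := by
    rw [cnz, cnx, cet]
    have : cos (s:ℂ) = cos (t + s) * cos t + sin (t + s) * sin t := by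
      rw [← Complex.cos_sub]
      congr 1
      ring
    rw [this]
    ring
  rw [e01L_nz, e01L_nx, e01L_et, e01L_apply, e01L_apply, P03n1, P03n2, Det, ← h0, et]
  ring

theorem P03_chi {al : ℝ} (hal : al ∈ JJ) (A B : ℂ → ℂ) (t w : ℂ) {s : ℝ} (hs : s ∈ Ioo (-al) al) :
    chi al (e01L cos A w) (e01L sin B w) t (s:ℂ) - 1 =
      (w * P03n1 al A B t s + w ^ 2 * P03n2 al A B t s) /
        (((Real.cos s - Real.cos al : ℝ) : ℂ) * (Real.sin al : ℂ)) := by
  obtain ⟨hj1, hj2, hj3, hj4, hj5, hs1, hs2⟩ := JJ_bounds hal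
  have hcos := cos_gt hal hs
  have hD : cos (s:ℂ) - (Real.cos al : ℂ) ≠ 0 := by
    rw [← ofReal_cos, ← ofReal_sub, Ne, ofReal_eq_zero]
    linarith
  have hsal : (Real.sin al : ℂ) ≠ 0 := by
    rw [Ne, ofReal_eq_zero]
    linarith
  rw [chi, Hq, P03_num al (by linarith) A B t w s, ofReal_sub, ofReal_cos s]
  field_simp
  ring

theorem P03_pt {al : ℝ} (hal : al ∈ JJ) {A B : ℂ → ℂ} (hA : Differentiable ℂ A) (hB : Differentiable ℂ B)
    {t : ℂ} (ht : 1 < t.im) : ∃ ε : ℝ, 0 < ε ∧ ε ≤ 1 ∧ ∀ w ∈ Metric.ball (0:ℂ) ε, ∀ s ∈ Ioo (-al) al,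
      PtBd al (e01L cos A w) (e01L sin B w) t (s:ℂ) := by
  obtain ⟨hj1, hj2, hj3, hj4, hj5, hs1, hs2⟩ := JJ_bounds hal
  have hsinal : 0 < Real.sin al := by linarith
  obtain ⟨cnz, cnx, cmz, cmx, cdz, cdx, cet, -⟩ := circle_chord al hsinal t
  have e1 : t + ((-al : ℝ) : ℂ) = t - (al:ℂ) := by push_cast; ring
  obtain ⟨C1, hC1, H1⟩ := P03_div (al := al) hal (N := P03n1 al A B t)
    (N' := fun s => df al B t * (-sin (t + (s:ℂ))) - df al A t * cos (t + (s:ℂ)) +
      nz al sin t * deriv A (t + (s:ℂ)) + nx al cos t * deriv B (t + (s:ℂ)))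
    (fun s => by
      have hc := P03_shift differentiable_cos t s
      have hsn := P03_shift differentiable_sin t s
      rw [Complex.deriv_cos] at hc
      rw [Complex.deriv_sin] at hsn
      exact ((((hc.const_mul _).sub (hsn.const_mul _)).add ((P03_shift hA t s).const_mul _)).add
        ((P03_shift hB t s).const_mul _)).sub_const _)
    (by
      have h1 := P03_shift_cont hA.deriv t
      have h2 := P03_shift_cont hB.deriv t
      fun_prop)
    (by simp only [P03n1, Det, nz, nx, df, md]; ring)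
    (by simp only [P03n1, Det, nz, nx, df, md, e1]; ring)
  obtain ⟨C2, hC2, H2⟩ := P03_div (al := al) hal (N := P03n2 al A B t)
    (N' := fun s => df al B t * deriv A (t + (s:ℂ)) - df al A t * deriv B (t + (s:ℂ)))
    (fun s => (((P03_shift hA t s).const_mul _).sub ((P03_shift hB t s).const_mul _)).sub_const _)
    (by
      have h1 := P03_shift_cont hA.deriv t
      have h2 := P03_shift_cont hB.deriv t
      fun_prop)
    (by simp only [P03n2, df, md]; ring)
    (by simp only [P03n2, df, md, e1]; ring)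
  have hsts : ∀ s : ℝ, sin (t + (s:ℂ)) ≠ 0 := fun s => sin_ne_zero_of_im (by rw [add_real_im]; linarith)
  have hst : sin t ≠ 0 := sin_ne_zero_of_im (by linarith)
  obtain ⟨C3, hC3⟩ := (isCompact_Icc (a := -al) (b := al)).exists_bound_of_continuousOn
    (f := fun s : ℝ => B (t + (s:ℂ)) / sin (t + (s:ℂ)))
    (((P03_shift_cont hB t).div (P03_shift_cont differentiable_sin t) hsts).continuousOn)
  have hC30 : 0 ≤ C3 := (norm_nonneg _).trans (hC3 0 ⟨by linarith, by linarith⟩)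
  set C4 : ℝ := ‖df al A t / ((Real.sin al : ℂ) * sin t)‖ with hC4
  have hC40 : 0 ≤ C4 := norm_nonneg _
  set T : ℝ := 1 + (C1 + C2) / Real.sin al + C3 + C4 with hT
  have hq : 0 ≤ (C1 + C2) / Real.sin al := by positivity
  have hT1 : 1 ≤ T := by linarith
  have hε : 0 < 1 / (100 * T) := by positivity
  refine ⟨1 / (100 * T), hε, ?_, fun w hw s hs => ?_⟩
  · rw [div_le_one (by positivity)]
    linarith
  rw [mem_ball_zero_iff] at hw
  have hwT : ‖w‖ * T ≤ 1 / 100 := by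
    have h1 : ‖w‖ * T ≤ 1 / (100 * T) * T := mul_le_mul_of_nonneg_right hw.le (by linarith)
    have h2 : 1 / (100 * T) * T = 1 / 100 := by field_simp
    linarith
  have hw0 := norm_nonneg w
  have hw1 : ‖w‖ ≤ 1 := by nlinarith
  have hcos := cos_gt hal hs
  refine ⟨?_, ?_, ?_⟩
  · -- nu
    rw [nu_eq hst, e01L_nx, cnx]
    have hsal : (Real.sin al : ℂ) ≠ 0 := by
      rw [Ne, ofReal_eq_zero]
      linarith
    have h1 : ((Real.sin al : ℂ) * sin t - w * df al A t) / ((Real.sin al : ℂ) * sin t) - 1 =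
        -(w * (df al A t / ((Real.sin al : ℂ) * sin t))) := by
      field_simp
      ring
    rw [h1, norm_neg, norm_mul]
    calc ‖w‖ * C4 ≤ ‖w‖ * T := mul_le_mul_of_nonneg_left (by linarith) hw0
      _ ≤ 1 / 100 := hwT
  · rw [xi_eq (hsts s), e01L_apply]
    have h1 : (sin (t + (s:ℂ)) + w * B (t + (s:ℂ))) / sin (t + (s:ℂ)) - 1 = w * (B (t + (s:ℂ)) / sin (t + (s:ℂ))) := by
      have := hsts s
      field_simp
      ring
    rw [h1, norm_mul]
    calc ‖w‖ * ‖B (t + (s:ℂ)) / sin (t + (s:ℂ))‖ ≤ ‖w‖ * C3 :=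
          mul_le_mul_of_nonneg_left (hC3 s (Ioo_subset_Icc_self hs)) hw0
      _ ≤ ‖w‖ * T := mul_le_mul_of_nonneg_left (by linarith) hw0
      _ ≤ 1 / 100 := hwT
  · rw [P03_chi hal A B t w hs, norm_div, norm_mul, norm_real, norm_real, Real.norm_eq_abs, Real.norm_eq_abs,
      abs_of_pos (by linarith : 0 < Real.cos s - Real.cos al), abs_of_pos hsinal]
    have hD : 0 < Real.cos s - Real.cos al := by linarith
    have h1 : ‖w * P03n1 al A B t s + w ^ 2 * P03n2 al A B t s‖ ≤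
        ‖w‖ * (C1 + C2) * (Real.cos s - Real.cos al) := by
      refine (norm_add_le _ _).trans ?_
      rw [norm_mul, norm_mul, norm_pow]
      have h2 : ‖w‖ * ‖P03n1 al A B t s‖ ≤ ‖w‖ * (C1 * (Real.cos s - Real.cos al)) :=
        mul_le_mul_of_nonneg_left (H1 s hs) hw0
      have h3 : ‖w‖ ^ 2 * ‖P03n2 al A B t s‖ ≤ ‖w‖ * (C2 * (Real.cos s - Real.cos al)) := by
        have h4 : ‖w‖ ^ 2 ≤ ‖w‖ := by nlinarith
        exact mul_le_mul h4 (H2 s hs) (norm_nonneg _) hw0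
      linarith
    rw [div_le_iff₀ (by positivity)]
    calc ‖w * P03n1 al A B t s + w ^ 2 * P03n2 al A B t s‖ ≤
        ‖w‖ * (C1 + C2) * (Real.cos s - Real.cos al) := h1
      _ = ‖w‖ * ((C1 + C2) / Real.sin al) * ((Real.cos s - Real.cos al) * Real.sin al) := by
          field_simp
      _ ≤ 1 / 100 * ((Real.cos s - Real.cos al) * Real.sin al) := by
          refine mul_le_mul_of_nonneg_right ?_ (by positivity)
          calc ‖w‖ * ((C1 + C2) / Real.sin al) ≤ ‖w‖ * T := mul_le_mul_of_nonneg_left (by linarith) hw0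
            _ ≤ 1 / 100 := hwT

/-- pointwise facts for entire curves close to the circle at one point -/
theorem P03_basic {al : ℝ} (hal : al ∈ JJ) {Z X : ℂ → ℂ} (hZ : Differentiable ℂ Z) (hX : Differentiable ℂ X)
    {t : ℂ} (ht : 1 < t.im) {s : ℝ} (hs : s ∈ Ioo (-al) al) (hpt : PtBd al Z X t (s:ℂ)) :
    ‖yy al Z X t (s:ℂ)‖ ^ 2 ≤ 1/2 ∧
    yy al Z X t (s:ℂ) ^ 2 * (nx al Z t * X (t + (s:ℂ))) =
      nz al X t * Z (t + (s:ℂ)) + nx al Z t * X (t + (s:ℂ)) - et al Z X t ∧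
    ContinuousAt (fun s : ℝ => yy al Z X t (s:ℂ)) s := by
  obtain ⟨hj1, hj2, hj3, hj4, hj5, hs1, hs2⟩ := JJ_bounds hal
  have him : 1 ≤ t.im := ht.le
  have him' : 1 ≤ (t + (s:ℂ)).im := P03_im ht s
  obtain ⟨hr1, hr2, hc0', hn0, hx0⟩ := rho_bd hpt.chi hpt.nu hpt.xi
  have hsal : (Real.sin al : ℂ) ≠ 0 := by
    rw [Ne, ofReal_eq_zero]
    linarith
  have hst : sin t ≠ 0 := sin_ne_zero_of_im (by linarith)
  have hsts : sin (t + (s:ℂ)) ≠ 0 := sin_ne_zero_of_im (by linarith)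
  have hcos := cos_gt hal hs
  have hkd : cos (s:ℂ) - (Real.cos al : ℂ) ≠ 0 := by
    rw [← ofReal_cos, ← ofReal_sub, Ne, ofReal_eq_zero]
    linarith
  have hom := om_norm him him' hpt
  have hnx : nx al Z t ≠ 0 := by
    intro h0
    apply hn0
    rw [nu_eq hst, h0, zero_div]
  have hXs : X (t + (s:ℂ)) ≠ 0 := by
    intro h0
    apply hx0
    rw [xi_eq hsts, h0, zero_div]
  refine ⟨?_, ?_, ?_⟩
  · rw [yy, norm_mul, mul_pow, ← norm_pow, kk, cpow_half_sq, ← ofReal_cos, ← ofReal_sub,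
      norm_real, Real.norm_eq_abs, abs_of_pos (by linarith)]
    have h1 : Real.cos s - Real.cos al ≤ 0.64 := by
      have := Real.cos_le_one s
      linarith
    have h2 : (Real.cos s - Real.cos al) * ‖om al Z X t (s:ℂ)‖ ^ 2 ≤ 0.64 * (1.04 / 1.38) :=
      mul_le_mul h1 hom (by positivity) (by norm_num)
    refine h2.trans (by norm_num)
  · rw [yy_eq, mul_pow, mul_pow, (q0_sq him him').1, cpow_half_sq, kk, cpow_half_sq, rho, chi, Hq,
      nu_eq hst, xi_eq hsts]
    field_simp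
  · have hsh : ∀ (f : ℂ → ℂ), DifferentiableAt ℂ f (t + (s:ℂ)) →
        DifferentiableAt ℂ (fun w => f (t + w)) (s:ℂ) := fun f hf =>
      hf.comp (f := fun w => t + w) (s:ℂ) (differentiableAt_id.const_add t)
    have dk : DifferentiableAt ℂ (fun w => kk al w) (s:ℂ) := by
      unfold kk
      refine DifferentiableAt.cpow_const (by fun_prop) ?_
      left
      rw [← ofReal_cos, ← ofReal_sub, ofReal_re]
      linarith
    have dchi : DifferentiableAt ℂ (fun w => chi al Z X t w) (s:ℂ) := by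
      unfold chi Hq
      refine DifferentiableAt.div_const ?_ _
      refine DifferentiableAt.fun_div ?_ (by fun_prop) hkd
      exact ((((hsh Z (hZ _)).const_mul _).fun_add ((hsh X (hX _)).const_mul _))).sub_const _
    have dxi : DifferentiableAt ℂ (xi X) (t + (s:ℂ)) := by
      have h1 : DifferentiableAt ℂ (fun w => X w / sin w) (t + (s:ℂ)) :=
        (hX _).fun_div (by fun_prop) hsts
      refine h1.congr_of_eventuallyEq ?_
      filter_upwards [Complex.continuous_sin.continuousAt.eventually_ne hsts] with w hw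
      exact xi_eq hw
    have drho : DifferentiableAt ℂ (fun w => rho al Z X t w) (s:ℂ) := by
      unfold rho
      exact dchi.fun_div ((hsh (xi X) dxi).const_mul _) (mul_ne_zero hn0 hx0)
    have dyy : DifferentiableAt ℂ (fun w => yy al Z X t w) (s:ℂ) := by
      have h2 : (fun w => yy al Z X t w) =
          fun w => kk al w * (q0 t w * rho al Z X t w ^ ((1:ℂ)/2)) := rfl
      rw [h2]
      exact dk.fun_mul ((q0_diff him him').2.1.fun_mul (drho.cpow_const hr2))
    exact dyy.hasDerivAt.comp_ofReal.continuousAt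

/-- analyticity in the parameter -/
theorem P03_yy_diff {al : ℝ} {A B : ℂ → ℂ} {t : ℂ} (ht : 1 < t.im) {s : ℝ} {w : ℂ}
    (hpt : PtBd al (e01L cos A w) (e01L sin B w) t (s:ℂ)) :
    DifferentiableAt ℂ (fun w => yy al (e01L cos A w) (e01L sin B w) t (s:ℂ)) w := by
  obtain ⟨-, h2, -, h4, h5⟩ := rho_bd hpt.chi hpt.nu hpt.xi
  have hst : sin t ≠ 0 := sin_ne_zero_of_im (by linarith)
  have hsts : sin (t + (s:ℂ)) ≠ 0 := sin_ne_zero_of_im (by rw [add_real_im]; linarith)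
  have hrho : DifferentiableAt ℂ (fun w => chi al (e01L cos A w) (e01L sin B w) t (s:ℂ) /
      (nu al (e01L cos A w) t * xi (e01L sin B w) (t + (s:ℂ)))) w := by
    refine DifferentiableAt.div ?_ ?_ (mul_ne_zero h4 h5)
    · unfold chi Hq
      refine DifferentiableAt.div_const (DifferentiableAt.div_const ?_ _) _
      refine DifferentiableAt.sub (DifferentiableAt.add ?_ ?_) (e01_et_differentiable al cos sin A B t w)
      · exact (e01_nz_differentiable al sin B t w).mul (e01L_differentiable cos A _ w)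
      · exact (e01_nx_differentiable al cos A t w).mul (e01L_differentiable sin B _ w)
    · refine DifferentiableAt.mul ?_ ?_
      · have : (fun w => nu al (e01L cos A w) t) = fun w => nx al (e01L cos A w) t / ((Real.sin al : ℂ) * sin t) := by
          funext w
          exact nu_eq hst
        rw [this]
        exact (e01_nx_differentiable al cos A t w).div_const _
      · have : (fun w => xi (e01L sin B w) (t + (s:ℂ))) = fun w => e01L sin B w (t + (s:ℂ)) / sin (t + (s:ℂ)) := by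
          funext w
          exact xi_eq hsts
        rw [this]
        exact (e01L_differentiable sin B _ w).div_const _
  have h6 := (hrho.cpow_const (c := (1:ℂ)/2) h2).const_mul (kk al (s:ℂ) * q0 t (s:ℂ))
  refine h6.congr_of_eventuallyEq (Filter.Eventually.of_forall fun w => ?_)
  simp only [yy, om]
  ring


theorem P03_e01L_deriv {Z A : ℂ → ℂ} (hZ : Differentiable ℂ Z) (hA : Differentiable ℂ A) (w z : ℂ) :
    deriv (e01L Z A w) z = deriv Z z + w * deriv A z :=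
  ((hZ z).hasDerivAt.add ((hA z).hasDerivAt.const_mul w)).deriv

theorem P03_affine (p q : ℂ) : HasDerivAt (fun w : ℂ => p + w * q) q 0 := by
  have h1 : HasDerivAt (fun w : ℂ => p + w * q) (1 * q) 0 :=
    ((hasDerivAt_id (0:ℂ)).mul_const q).const_add p
  rwa [one_mul] at h1

theorem P03_e01L_diff {Z A : ℂ → ℂ} (hZ : Differentiable ℂ Z) (hA : Differentiable ℂ A) (w : ℂ) :
    Differentiable ℂ (e01L Z A w) := hZ.add (hA.const_mul w)

/-- Differentiation under the integral (integrand analytic in `w`, bounded). Pointwise: with `κ̂ = L nx X`, `y^2 nx X = N`,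
`∂(L nx X) = Af ∂N + (Uf - Af) ∂(nx X)` (from `Lf' = 2 y Af`, `Lf - y^2 Af = Uf - Af`), `∂N = nz' Z + nz A + (nx X)' - et'`, so
`∂κ̂ = Af (nz' Z + nz A - et') + Uf (nx' X + nx B)`; `nz' = df B`, `nx' = - df A`, `et' = Det`; the remaining factor `2 X (X' A - Z' B)` has the derivative
`2 B (X' A - Z' B) + 2 X (B' A - A' B)`. -/
theorem DS0_line {al : ℝ} (hal : al ∈ JJ) {A B : ℂ → ℂ} (hA : Differentiable ℂ A) (hB : Differentiable ℂ B) {t : ℂ} (ht : 1 < t.im) :
    HasDerivAt (fun w : ℂ => DS0 al (fun z => cos z + w * A z) (fun z => sin z + w * B z) A B t)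
      (∫ s in (-al)..al,
        ((Af (kk al (s:ℂ) * q0 t (s:ℂ)) * (df al B t * cos (t + (s:ℂ)) - Det al cos sin A B t + (Real.sin al : ℂ) * cos t * A (t + (s:ℂ))) +
          Uf (kk al (s:ℂ) * q0 t (s:ℂ)) * (- df al A t * sin (t + (s:ℂ)) + (Real.sin al : ℂ) * sin t * B (t + (s:ℂ)))) *
          (2 * sin (t + (s:ℂ))) * (cos (t + (s:ℂ)) * A (t + (s:ℂ)) + sin (t + (s:ℂ)) * B (t + (s:ℂ))) +
        kh al t (s:ℂ) * (2 * B (t + (s:ℂ))) * (cos (t + (s:ℂ)) * A (t + (s:ℂ)) + sin (t + (s:ℂ)) * B (t + (s:ℂ))) +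
        kh al t (s:ℂ) * (2 * sin (t + (s:ℂ))) * (deriv B (t + (s:ℂ)) * A (t + (s:ℂ)) - deriv A (t + (s:ℂ)) * B (t + (s:ℂ))))) 0 := by
  obtain ⟨hj1, hj2, hj3, hj4, hj5, hs1, hs2⟩ := JJ_bounds hal
  have hal0 : 0 < al := by linarith
  have hsinal : 0 < Real.sin al := by linarith
  obtain ⟨cnz, cnx, cmz, cmx, cdz, cdx, cet, -⟩ := circle_chord al hsinal t
  obtain ⟨ε, hε, hε1, hpt⟩ := P03_pt hal hA hB ht
  have hA' := hA.deriv
  have hB' := hB.deriv
  have hAc := P03_shift_cont hA t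
  have hBc := P03_shift_cont hB t
  have hA'c := P03_shift_cont hA' t
  have hB'c := P03_shift_cont hB' t
  have hcc := P03_shift_cont differentiable_cos t
  have hsc := P03_shift_cont differentiable_sin t
  obtain ⟨CL, hCL, HL⟩ := c02_AL_bound
  set F : ℂ → ℝ → ℂ := fun w s => (Lf (yy al (e01L cos A w) (e01L sin B w) t (s:ℂ)) *
    (nx al (e01L cos A w) t * e01L sin B w (t + (s:ℂ)))) * ((2 * e01L sin B w (t + (s:ℂ))) *
    ((cos (t + (s:ℂ)) + w * deriv B (t + (s:ℂ))) * A (t + (s:ℂ)) -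
      (-sin (t + (s:ℂ)) + w * deriv A (t + (s:ℂ))) * B (t + (s:ℂ)))) with hF
  have hDS : (fun w : ℂ => DS0 al (fun z => cos z + w * A z) (fun z => sin z + w * B z) A B t) =
      fun w => ∫ s in (-al)..al, F w s := by
    funext w
    unfold DS0
    apply intervalIntegral.integral_congr
    intro s _
    have h1 : deriv (fun z => cos z + w * A z) (t + (s:ℂ)) = -sin (t + (s:ℂ)) + w * deriv A (t + (s:ℂ)) := by
      have := P03_e01L_deriv differentiable_cos hA w (t + (s:ℂ))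
      rw [Complex.deriv_cos] at this
      exact this
    have h2 : deriv (fun z => sin z + w * B z) (t + (s:ℂ)) = cos (t + (s:ℂ)) + w * deriv B (t + (s:ℂ)) := by
      have := P03_e01L_deriv differentiable_sin hB w (t + (s:ℂ))
      rw [Complex.deriv_sin] at this
      exact this
    simp only [h1, h2]
    have h3 : (fun z => cos z + w * A z) = e01L cos A w := rfl
    have h4 : (fun z => sin z + w * B z) = e01L sin B w := rfl
    have h5 : sin (t + (s:ℂ)) + w * B (t + (s:ℂ)) = e01L sin B w (t + (s:ℂ)) := rfl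
    rw [h3, h4, h5]
    simp only [hF]
    ring
  rw [hDS]
  -- bounds
  obtain ⟨K1, hK1⟩ := (isCompact_Icc (a := -al) (b := al)).exists_bound_of_continuousOn hAc.continuousOn
  obtain ⟨K2, hK2⟩ := (isCompact_Icc (a := -al) (b := al)).exists_bound_of_continuousOn hBc.continuousOn
  obtain ⟨K3, hK3⟩ := (isCompact_Icc (a := -al) (b := al)).exists_bound_of_continuousOn hA'c.continuousOn
  obtain ⟨K4, hK4⟩ := (isCompact_Icc (a := -al) (b := al)).exists_bound_of_continuousOn hB'c.continuousOn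
  obtain ⟨K5, hK5⟩ := (isCompact_Icc (a := -al) (b := al)).exists_bound_of_continuousOn hcc.continuousOn
  obtain ⟨K6, hK6⟩ := (isCompact_Icc (a := -al) (b := al)).exists_bound_of_continuousOn hsc.continuousOn
  have hw1 : ∀ w ∈ Metric.ball (0:ℂ) ε, ‖w‖ ≤ 1 := by
    intro w hw
    rw [mem_ball_zero_iff] at hw
    linarith
  have hK60 : 0 ≤ K6 := (norm_nonneg _).trans (hK6 0 ⟨by linarith, by linarith⟩)
  have hK10 : 0 ≤ K1 := (norm_nonneg _).trans (hK1 0 ⟨by linarith, by linarith⟩)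
  have hK20 : 0 ≤ K2 := (norm_nonneg _).trans (hK2 0 ⟨by linarith, by linarith⟩)
  have hK30 : 0 ≤ K3 := (norm_nonneg _).trans (hK3 0 ⟨by linarith, by linarith⟩)
  have hK40 : 0 ≤ K4 := (norm_nonneg _).trans (hK4 0 ⟨by linarith, by linarith⟩)
  have hK50 : 0 ≤ K5 := (norm_nonneg _).trans (hK5 0 ⟨by linarith, by linarith⟩)
  have hwm : ∀ w ∈ Metric.ball (0:ℂ) ε, ∀ x y : ℂ, ∀ c d : ℝ, ‖x‖ ≤ c → ‖y‖ ≤ d → ‖x + w * y‖ ≤ c + d := by
    intro w hw x y c d hx hy
    refine (norm_add_le _ _).trans (add_le_add hx ?_)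
    rw [norm_mul]
    calc ‖w‖ * ‖y‖ ≤ 1 * ‖y‖ := mul_le_mul_of_nonneg_right (hw1 w hw) (norm_nonneg _)
      _ ≤ d := by rw [one_mul]; exact hy
  refine P03_param (ε := ε) (M := (CL * ((‖nx al cos t‖ + ‖df al A t‖) * (K6 + K2))) * ((2 * (K6 + K2)) *
    ((K5 + K4) * K1 + (K6 + K3) * K2))) hal0 hε ?_ ?_ ?_ ?_
  · -- analyticity
    intro s hs w hw
    have hp := hpt w hw s hs
    obtain ⟨hy, -, -⟩ := P03_basic hal (P03_e01L_diff differentiable_cos hA w) (P03_e01L_diff differentiable_sin hB w) ht hs hp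
    have h1 : DifferentiableAt ℂ (fun w => Lf (yy al (e01L cos A w) (e01L sin B w) t (s:ℂ))) w :=
      (hasDerivAt_Lf (by linarith)).differentiableAt.comp w (P03_yy_diff ht hp)
    have h2 := e01_nx_differentiable al cos A t w
    have h3 := e01L_differentiable sin B (t + (s:ℂ)) w
    have h4 : DifferentiableAt ℂ (fun w : ℂ => (cos (t + (s:ℂ)) + w * deriv B (t + (s:ℂ))) * A (t + (s:ℂ)) -
      (-sin (t + (s:ℂ)) + w * deriv A (t + (s:ℂ))) * B (t + (s:ℂ))) w := by fun_prop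
    exact ((h1.mul (h2.mul h3)).mul ((h3.const_mul 2).mul h4)).differentiableWithinAt
  · intro w hw s hs
    have hp := hpt w hw s hs
    have hsI : s ∈ Icc (-al) al := Ioo_subset_Icc_self hs
    obtain ⟨hy, -, -⟩ := P03_basic hal (P03_e01L_diff differentiable_cos hA w) (P03_e01L_diff differentiable_sin hB w) ht hs hp
    have h1 := (HL _ hy).2
    have h2 : ‖nx al (e01L cos A w) t‖ ≤ ‖nx al cos t‖ + ‖df al A t‖ := by
      rw [e01L_nx, sub_eq_add_neg, ← mul_neg]
      exact hwm w hw _ _ _ _ le_rfl (by rw [norm_neg])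
    have h3 : ‖e01L sin B w (t + (s:ℂ))‖ ≤ K6 + K2 := hwm w hw _ _ _ _ (hK6 s hsI) (hK2 s hsI)
    have h4 : ‖cos (t + (s:ℂ)) + w * deriv B (t + (s:ℂ))‖ ≤ K5 + K4 := hwm w hw _ _ _ _ (hK5 s hsI) (hK4 s hsI)
    have h5 : ‖-sin (t + (s:ℂ)) + w * deriv A (t + (s:ℂ))‖ ≤ K6 + K3 :=
      hwm w hw _ _ _ _ (by rw [norm_neg]; exact hK6 s hsI) (hK3 s hsI)
    have h6 : ‖(cos (t + (s:ℂ)) + w * deriv B (t + (s:ℂ))) * A (t + (s:ℂ)) -
      (-sin (t + (s:ℂ)) + w * deriv A (t + (s:ℂ))) * B (t + (s:ℂ))‖ ≤ (K5 + K4) * K1 + (K6 + K3) * K2 := by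
      refine (norm_sub_le _ _).trans (add_le_add ?_ ?_)
      · rw [norm_mul]
        exact mul_le_mul h4 (hK1 s hsI) (norm_nonneg _) (by positivity)
      · rw [norm_mul]
        exact mul_le_mul h5 (hK2 s hsI) (norm_nonneg _) (by positivity)
    simp only [hF]
    rw [norm_mul, norm_mul, norm_mul, norm_mul, norm_mul, Complex.norm_ofNat]
    gcongr
  · intro w hw s hs
    have hp := hpt w hw s hs
    obtain ⟨hy, -, hc⟩ := P03_basic hal (P03_e01L_diff differentiable_cos hA w) (P03_e01L_diff differentiable_sin hB w) ht hs hp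
    have h1 : ContinuousAt (fun s : ℝ => Lf (yy al (e01L cos A w) (e01L sin B w) t (s:ℂ))) s :=
      ContinuousAt.comp (f := fun s : ℝ => yy al (e01L cos A w) (e01L sin B w) t (s:ℂ))
        (hasDerivAt_Lf (by linarith)).continuousAt hc
    have h3 : Continuous (fun s : ℝ => e01L sin B w (t + (s:ℂ))) :=
      P03_shift_cont (P03_e01L_diff differentiable_sin hB w) t
    have h4 : Continuous (fun s : ℝ => (2 * e01L sin B w (t + (s:ℂ))) *
      ((cos (t + (s:ℂ)) + w * deriv B (t + (s:ℂ))) * A (t + (s:ℂ)) -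
        (-sin (t + (s:ℂ)) + w * deriv A (t + (s:ℂ))) * B (t + (s:ℂ)))) :=
      (continuous_const.mul h3).mul (((hcc.add (continuous_const.mul hB'c)).mul hAc).sub
        ((hsc.neg.add (continuous_const.mul hA'c)).mul hBc))
    exact ((h1.mul (continuousAt_const.mul h3.continuousAt)).mul h4.continuousAt).continuousWithinAt
  · intro s hs
    have h0 : (0:ℂ) ∈ Metric.ball (0:ℂ) ε := Metric.mem_ball_self hε
    have hp := hpt 0 h0 s hs
    obtain ⟨hy, -, -⟩ := P03_basic hal (P03_e01L_diff differentiable_cos hA 0) (P03_e01L_diff differentiable_sin hB 0) ht hs hp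
    have hyd := (P03_yy_diff ht hp).hasDerivAt
    set y' := deriv (fun w => yy al (e01L cos A w) (e01L sin B w) t (s:ℂ)) 0
    have hXd : HasDerivAt (fun w => e01L sin B w (t + (s:ℂ))) (B (t + (s:ℂ))) 0 := P03_affine _ _
    have hZd : HasDerivAt (fun w => e01L cos A w (t + (s:ℂ))) (A (t + (s:ℂ))) 0 := P03_affine _ _
    have hQd := (e01_deriv_nx al cos A t).mul hXd
    have hPd := (((e01_deriv_nz al sin B t).mul hZd).add hQd).sub (e01_deriv_et al cos sin A B t)
    have hev : ∀ᶠ w in 𝓝 (0:ℂ), yy al (e01L cos A w) (e01L sin B w) t (s:ℂ) ^ 2 *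
        (nx al (e01L cos A w) t * e01L sin B w (t + (s:ℂ))) =
        nz al (e01L sin B w) t * e01L cos A w (t + (s:ℂ)) + nx al (e01L cos A w) t * e01L sin B w (t + (s:ℂ)) -
          et al (e01L cos A w) (e01L sin B w) t := by
      filter_upwards [Metric.ball_mem_nhds (0:ℂ) hε] with w hw
      exact (P03_basic hal (P03_e01L_diff differentiable_cos hA w) (P03_e01L_diff differentiable_sin hB w) ht hs
        (hpt w hw s hs)).2.1
    have hk := P03_kap hyd hPd hQd hev (by linarith)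
    have hG := (hXd.const_mul 2).mul ((((P03_affine (cos (t + (s:ℂ))) (deriv B (t + (s:ℂ)))).mul_const (A (t + (s:ℂ)))).sub
      ((P03_affine (-sin (t + (s:ℂ))) (deriv A (t + (s:ℂ)))).mul_const (B (t + (s:ℂ))))))
    have hFd := hk.mul hG
    refine hFd.congr_deriv ?_
    simp only [e01L_zero, G00_yy hsinal, kh, zero_mul, add_zero, cnx, cnz, Pi.mul_apply, Pi.sub_apply]
    ring


/-! ### evaluation -/

/-- algebraic identity behind the evaluation -/
theorem P03_alg {sa ca st ct sb cb A U L W a τ a1 τ1 dB dA De : ℂ}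
    (hL : st * sb * L = st * sb * U + (cb * ct - ca) * A) (hE : cb ^ 2 + sb ^ 2 = 1) (hF : st ^ 2 + ct ^ 2 = 1)
    (hsa : sa * sa⁻¹ = 1) :
    (A * (dB * cb - De + sa * ct * (a * cb - τ * sb)) + U * (-dA * sb + sa * st * (a * sb + τ * cb))) * (2 * sb) *
        (cb * (a * cb - τ * sb) + sb * (a * sb + τ * cb)) +
      (sa * st * sb * L) * (2 * (a * sb + τ * cb)) * (cb * (a * cb - τ * sb) + sb * (a * sb + τ * cb)) +
      (sa * st * sb * L) * (2 * sb) * ((a1 * sb + a * cb + (τ1 * cb - τ * sb)) * (a * cb - τ * sb) -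
        (a1 * cb - a * sb - (τ1 * sb + τ * cb)) * (a * sb + τ * cb)) =
    2 * (sa * ca) * (A * sb * a ^ 2) + sa * st * sb ^ 2 * L * (6 * a ^ 2 - 4 * a1 * τ + 2 * τ ^ 2) +
      2 * (ct * dB - st * dA) / sa * (sa * st * sb ^ 2 * L * a) +
      2 * (ca * (ct * dB - st * dA) - De) * (A * sb * a) +
      2 * (-st * dB - ct * dA) / sa * (sa * st * sb ^ 2 / 2 * W * a1) +
      (2 * (sa * (st * cb * U - ct * sb * A)) * (sb * a * τ) + 2 * (sa * st * sb * L) * (cb * a * τ + sb * (a1 * τ + a * τ1)) -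
        2 * (-st * dB - ct * dA) / sa * (sa * sb * (st * cb * A - ct * sb * U) * a + sa * st * sb ^ 2 / 2 * W * a1)) := by
  linear_combination (2 * sb * a * (A * (dB * cb - De + sa * ct * (a * cb - τ * sb)) + U * (-dA * sb + sa * st * (a * sb + τ * cb))) +
      2 * (sa * st * sb * L) * a * (a * sb + τ * cb) + 2 * (sa * st * sb * L) * sb * (a ^ 2 + a * τ1 - a1 * τ + τ ^ 2)) * hE +
    (-2 * sb * a ^ 2 * sa - 2 * sb * a * (ct * dB - st * dA)) * hL -
    2 * sb * a * (cb * A * dB - sb * U * dA) * hF +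
    (-2 * (ct * dB - st * dA) * (st * sb ^ 2 * L * a) + 2 * (-st * dB - ct * dA) * (sb * (st * cb * A - ct * sb * U) * a)) * hsa

theorem P03_psi_cont {S : Set ℝ} {U A L W sb cb a0 a1 τ0 τ1 : ℝ → ℂ} (hU : ContinuousOn U S) (hA : ContinuousOn A S)
    (hL : ContinuousOn L S) (hW : ContinuousOn W S) (hsb : ContinuousOn sb S) (hcb : ContinuousOn cb S)
    (ha0 : ContinuousOn a0 S) (ha1 : ContinuousOn a1 S) (hτ0 : ContinuousOn τ0 S) (hτ1 : ContinuousOn τ1 S) (sa st ct q : ℂ) :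
    ContinuousOn (fun s => 2 * (sa * (st * cb s * U s - ct * sb s * A s)) * (sb s * a0 s * τ0 s) +
      2 * (sa * st * sb s * L s) * (cb s * a0 s * τ0 s + sb s * (a1 s * τ0 s + a0 s * τ1 s)) -
        q * (sa * sb s * (st * cb s * A s - ct * sb s * U s) * a0 s + sa * st * sb s ^ 2 / 2 * W s * a1 s)) S := by
  fun_prop

theorem P03_Psi_cont {S : Set ℝ} {L W sb a0 τ0 : ℝ → ℂ} (hL : ContinuousOn L S) (hW : ContinuousOn W S)
    (hsb : ContinuousOn sb S) (ha0 : ContinuousOn a0 S) (hτ0 : ContinuousOn τ0 S) (sa st q : ℂ) :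
    ContinuousOn (fun s => 2 * (L s * (sa * st * sb s)) * (sb s * a0 s * τ0 s) -
        q * (W s * (sa * st * sb s) * (sb s / 2) * a0 s)) S := by
  fun_prop

theorem P03_cont5 {S : Set ℝ} {A L W sb a0 a1 τ0 : ℝ → ℂ} (hA : ContinuousOn A S)
    (hL : ContinuousOn L S) (hW : ContinuousOn W S) (hsb : ContinuousOn sb S)
    (ha0 : ContinuousOn a0 S) (ha1 : ContinuousOn a1 S) (hτ0 : ContinuousOn τ0 S) (sa st : ℂ) :
    ContinuousOn (fun s => A s * sb s * a0 s ^ 2) S ∧
    ContinuousOn (fun s => sa * st * sb s ^ 2 * L s * (6 * a0 s ^ 2 - 4 * a1 s * τ0 s + 2 * τ0 s ^ 2)) S ∧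
    ContinuousOn (fun s => sa * st * sb s ^ 2 * L s * a0 s) S ∧
    ContinuousOn (fun s => A s * sb s * a0 s) S ∧
    ContinuousOn (fun s => sa * st * sb s ^ 2 / 2 * W s * a1 s) S := by
  refine ⟨?_, ?_, ?_, ?_, ?_⟩ <;> fun_prop

theorem P03_sum {al : ℝ} {g1 g2 g3 g4 g5 ψ : ℝ → ℂ} (c1 c3 c4 c5 : ℂ)
    (h1 : IntervalIntegrable g1 volume (-al) al) (h2 : IntervalIntegrable g2 volume (-al) al)
    (h3 : IntervalIntegrable g3 volume (-al) al) (h4 : IntervalIntegrable g4 volume (-al) al)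
    (h5 : IntervalIntegrable g5 volume (-al) al) (h6 : IntervalIntegrable ψ volume (-al) al) :
    ∫ s in (-al)..al, (c1 * g1 s + g2 s + c3 * g3 s + c4 * g4 s + c5 * g5 s + ψ s) =
      c1 * (∫ s in (-al)..al, g1 s) + (∫ s in (-al)..al, g2 s) + c3 * (∫ s in (-al)..al, g3 s) +
        c4 * (∫ s in (-al)..al, g4 s) + c5 * (∫ s in (-al)..al, g5 s) + ∫ s in (-al)..al, ψ s := by
  rw [intervalIntegral.integral_add, intervalIntegral.integral_add, intervalIntegral.integral_add,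
    intervalIntegral.integral_add, intervalIntegral.integral_add, intervalIntegral.integral_const_mul,
    intervalIntegral.integral_const_mul, intervalIntegral.integral_const_mul, intervalIntegral.integral_const_mul]
  · exact h1.const_mul _
  · exact h2
  · exact (h1.const_mul _).add h2
  · exact h3.const_mul _
  · exact ((h1.const_mul _).add h2).add (h3.const_mul _)
  · exact h4.const_mul _
  · exact (((h1.const_mul _).add h2).add (h3.const_mul _)).add (h4.const_mul _)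
  · exact h5.const_mul _
  · exact ((((h1.const_mul _).add h2).add (h3.const_mul _)).add (h4.const_mul _)).add (h5.const_mul _)
  · exact h6

theorem P03_L0 (al : ℝ) (f : ℂ → ℂ) (t : ℂ) :
    L0 al f t = ∫ s in (-al)..al, (Real.sin al : ℂ) * sin t * sin (t + (s:ℂ)) ^ 2 *
      Lf (kk al (s:ℂ) * q0 t (s:ℂ)) * f (t + (s:ℂ)) := by
  unfold L0
  apply intervalIntegral.integral_congr
  intro s _
  simp only
  rw [Lf, K0]
  have hk := G00_kk_sq al (s : ℂ)
  have e1 : (kk al (s:ℂ) * q0 t (s:ℂ)) ^ 2 = (cos (s:ℂ) - (Real.cos al : ℂ)) * q0 t (s:ℂ) ^ 2 := by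
    rw [mul_pow, hk]
  rw [e1]
  ring

theorem P03_Lf_zero : Lf 0 = 0 := by simp [Lf]
theorem P03_Wf_zero : Wf 0 = 0 := by simp [Wf, Af, Uf]

/-- Evaluation for `A = a cos - τ sin`, `B = a sin + τ cos`. Put `D = cos A + sin B = a`, `B' A - A' B = a^2 + a τ' - τ a' + τ^2`.
Plane part: `(df B, - df A) = p (cos t, sin t) + q (- sin t, cos t)`; `Af n̂_z cos β + Uf n̂_x sin β = (κ̂ + η Af)/sin al` for `n̂ = (cos t, sin t)`,
`η = sin al cos al` (since `nz Z Af + nx X Uf - η Af = nx X Lf`), and for `n̂' = (- sin t, cos t)`: `sin β (- sin t cos β Af + cos t sin β Uf) = ∂_t κ0/sin al`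
with `κ0 = κ̂ sin β` (see G03), `∫ ∂_t κ0 a = (L0 a)'` (`L0_deriv`: `= L1op a'`). So it equals
`(2p/sin al)(L0 a + η S0 a) - 2 Det S0 a + (2q/sin al)(L0 a)'`.
Fixed part: `nz Af A + nx Uf B = a (κ̂ + η Af) + τ κ̂_β`, `κ̂_β = - nz Af sin β + nx Uf cos β` (derivative of `κ̂` in `β` at fixed plane); integrate
`2 sin β a τ κ̂_β` by parts (`κ̂ = 0` at the ends): total `∫ 2 η Af sin β a^2 + ∫ 2 κ̂ sin β [3 a^2 - 2 a' τ + τ^2]
= 2 η S0 (a^2) + L0 (6 a^2 - 4 a' τ + 2 τ^2)`. -/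
theorem DS0_line_value {al : ℝ} (hal : al ∈ JJ) {a τ : ℂ → ℂ} (ha : Differentiable ℂ a) (hτ : Differentiable ℂ τ) {t : ℂ} (ht : 1 < t.im) :
    HasDerivAt (fun w : ℂ => DS0 al (fun z => cos z + w * (a z * cos z - τ z * sin z)) (fun z => sin z + w * (a z * sin z + τ z * cos z))
        (fun z => a z * cos z - τ z * sin z) (fun z => a z * sin z + τ z * cos z) t)
      (2 * ((Real.sin al : ℂ) * (Real.cos al : ℂ)) * S0 al (fun z => a z ^ 2) t +
        L0 al (fun z => 6 * a z ^ 2 - 4 * deriv a z * τ z + 2 * τ z ^ 2) t +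
        2 * (cos t * df al (fun z => a z * sin z + τ z * cos z) t - sin t * df al (fun z => a z * cos z - τ z * sin z) t) /
          (Real.sin al : ℂ) * L0 al a t +
        2 * ((Real.cos al : ℂ) * (cos t * df al (fun z => a z * sin z + τ z * cos z) t - sin t * df al (fun z => a z * cos z - τ z * sin z) t) -
          Det al cos sin (fun z => a z * cos z - τ z * sin z) (fun z => a z * sin z + τ z * cos z) t) * S0 al a t +
        2 * (- sin t * df al (fun z => a z * sin z + τ z * cos z) t - cos t * df al (fun z => a z * cos z - τ z * sin z) t) /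
          (Real.sin al : ℂ) * deriv (L0 al a) t) 0 := by
  obtain ⟨hj1, hj2, hj3, hj4, hj5, hs1, hs2⟩ := JJ_bounds hal
  have hal0 : 0 < al := by linarith
  have hle : -al ≤ al := by linarith
  have hsinal : 0 < Real.sin al := by linarith
  have hsa : (Real.sin al : ℂ) ≠ 0 := by
    rw [Ne, ofReal_eq_zero]
    linarith
  have hA : Differentiable ℂ (fun z => a z * cos z - τ z * sin z) :=
    (ha.mul differentiable_cos).sub (hτ.mul differentiable_sin)
  have hB : Differentiable ℂ (fun z => a z * sin z + τ z * cos z) :=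
    (ha.mul differentiable_sin).add (hτ.mul differentiable_cos)
  have hdA : ∀ z, deriv (fun z => a z * cos z - τ z * sin z) z =
      deriv a z * cos z - a z * sin z - (deriv τ z * sin z + τ z * cos z) := by
    intro z
    have h := (((ha z).hasDerivAt.mul (hasDerivAt_cos z)).sub ((hτ z).hasDerivAt.mul (hasDerivAt_sin z))).deriv
    refine h.trans ?_
    ring
  have hdB : ∀ z, deriv (fun z => a z * sin z + τ z * cos z) z =
      deriv a z * sin z + a z * cos z + (deriv τ z * cos z - τ z * sin z) := by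
    intro z
    have h := (((ha z).hasDerivAt.mul (hasDerivAt_sin z)).add ((hτ z).hasDerivAt.mul (hasDerivAt_cos z))).deriv
    refine h.trans ?_
    ring
  refine (DS0_line hal hA hB ht).congr_deriv ?_
  rw [(L0_deriv hal ha ht).deriv]
  set dA := df al (fun z => a z * cos z - τ z * sin z) t
  set dB := df al (fun z => a z * sin z + τ z * cos z) t
  set De := Det al cos sin (fun z => a z * cos z - τ z * sin z) (fun z => a z * sin z + τ z * cos z) t
  -- continuity on the closed interval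
  have hYc := P03_Y_cont hal ht
  have hYb : ∀ s ∈ Icc (-al) al, ‖kk al (s:ℂ) * q0 t (s:ℂ)‖ ^ 2 < 2 := fun s hs =>
    (P03_Y_bd hal ht hs).trans_lt (by norm_num)
  have hcomp : ∀ f : ℂ → ℂ, (∀ y : ℂ, ‖y‖ ^ 2 < 2 → ContinuousAt f y) →
      ContinuousOn (fun s : ℝ => f (kk al (s:ℂ) * q0 t (s:ℂ))) (Icc (-al) al) := by
    intro f hf s hs
    exact ContinuousAt.comp_continuousWithinAt (f := fun s : ℝ => kk al (s:ℂ) * q0 t (s:ℂ)) (hf _ (hYb s hs)) (hYc s hs)
  have cA := hcomp Af fun y hy => (hasDerivAt_Af hy).continuousAt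
  have cU := hcomp Uf fun y hy => (hasDerivAt_Uf hy).continuousAt
  have cL := hcomp Lf fun y hy => (hasDerivAt_Lf hy).continuousAt
  have cW := hcomp Wf fun y hy => (hasDerivAt_Wf hy).continuousAt
  have csb := (P03_shift_cont differentiable_sin t).continuousOn (s := Icc (-al) al)
  have ccb := (P03_shift_cont differentiable_cos t).continuousOn (s := Icc (-al) al)
  have ca0 := (P03_shift_cont ha t).continuousOn (s := Icc (-al) al)
  have ca1 := (P03_shift_cont ha.deriv t).continuousOn (s := Icc (-al) al)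
  have ct0 := (P03_shift_cont hτ t).continuousOn (s := Icc (-al) al)
  have ct1 := (P03_shift_cont hτ.deriv t).continuousOn (s := Icc (-al) al)
  obtain ⟨i1, i2, i3, i4, i5⟩ := P03_cont5 cA cL cW csb ca0 ca1 ct0 (Real.sin al : ℂ) (sin t)
  have i6 := P03_psi_cont cU cA cL cW csb ccb ca0 ca1 ct0 ct1 (Real.sin al : ℂ) (sin t) (cos t)
    (2 * (-sin t * dB - cos t * dA) / (Real.sin al : ℂ))
  have hΨc := P03_Psi_cont cL cW csb ca0 ct0 (Real.sin al : ℂ) (sin t)
    (2 * (-sin t * dB - cos t * dA) / (Real.sin al : ℂ))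
  -- relations
  have hrel : ∀ s : ℝ, cos (s:ℂ) = cos (t + s) * cos t + sin (t + s) * sin t := by
    intro s
    rw [← Complex.cos_sub]
    congr 1
    ring
  have hrel' : ∀ s : ℝ, sin (s:ℂ) = sin (t + s) * cos t - cos (t + s) * sin t := by
    intro s
    rw [← Complex.sin_sub]
    congr 1
    ring
  -- the integral of the total derivative
  have hψ0 : ∫ s in (-al)..al, (2 * ((Real.sin al : ℂ) * (sin t * cos (t + (s:ℂ)) * Uf (kk al (s:ℂ) * q0 t (s:ℂ)) -
      cos t * sin (t + (s:ℂ)) * Af (kk al (s:ℂ) * q0 t (s:ℂ)))) * (sin (t + (s:ℂ)) * a (t + (s:ℂ)) * τ (t + (s:ℂ))) +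
      2 * ((Real.sin al : ℂ) * sin t * sin (t + (s:ℂ)) * Lf (kk al (s:ℂ) * q0 t (s:ℂ))) *
        (cos (t + (s:ℂ)) * a (t + (s:ℂ)) * τ (t + (s:ℂ)) + sin (t + (s:ℂ)) *
          (deriv a (t + (s:ℂ)) * τ (t + (s:ℂ)) + a (t + (s:ℂ)) * deriv τ (t + (s:ℂ)))) -
        2 * (-sin t * dB - cos t * dA) / (Real.sin al : ℂ) * ((Real.sin al : ℂ) * sin (t + (s:ℂ)) *
          (sin t * cos (t + (s:ℂ)) * Af (kk al (s:ℂ) * q0 t (s:ℂ)) - cos t * sin (t + (s:ℂ)) * Uf (kk al (s:ℂ) * q0 t (s:ℂ))) *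
          a (t + (s:ℂ)) + (Real.sin al : ℂ) * sin t * sin (t + (s:ℂ)) ^ 2 / 2 * Wf (kk al (s:ℂ) * q0 t (s:ℂ)) * deriv a (t + (s:ℂ)))) = 0 := by
    rw [intervalIntegral.integral_eq_sub_of_hasDerivAt_of_le hle hΨc ?_ (i6.intervalIntegrable_of_Icc hle)]
    · have e1 := (P03_kk_end al).1
      have e2 := (P03_kk_end al).2
      simp only [e1, e2, zero_mul, P03_Lf_zero, P03_Wf_zero, mul_zero, sub_zero]
    · intro s hs
      have hsI : s ∈ Icc (-al) al := Ioo_subset_Icc_self hs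
      have hY := (P03_Y_diff hal ht hs).hasDerivAt
      set y' := deriv (fun s : ℝ => kk al (s:ℂ) * q0 t (s:ℂ)) s
      have hsd : HasDerivAt (fun s : ℝ => sin (t + (s:ℂ))) (cos (t + (s:ℂ))) s := by
        have h := P03_shift differentiable_sin t s
        rwa [Complex.deriv_sin] at h
      have hcd : HasDerivAt (fun s : ℝ => cos (s:ℂ)) (-sin (s:ℂ)) s := (hasDerivAt_cos (s:ℂ)).comp_ofReal
      have hQ : HasDerivAt (fun s : ℝ => (Real.sin al : ℂ) * sin t * sin (t + (s:ℂ)))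
          ((Real.sin al : ℂ) * sin t * cos (t + (s:ℂ))) s := hsd.const_mul _
      have hP : HasDerivAt (fun s : ℝ => (Real.sin al : ℂ) * (cos (s:ℂ) - (Real.cos al : ℂ)))
          ((Real.sin al : ℂ) * (-sin (s:ℂ))) s := (hcd.sub_const _).const_mul _
      have hev : ∀ᶠ z : ℝ in 𝓝 s, (kk al (z:ℂ) * q0 t (z:ℂ)) ^ 2 * ((Real.sin al : ℂ) * sin t * sin (t + (z:ℂ))) =
          (Real.sin al : ℂ) * (cos (z:ℂ) - (Real.cos al : ℂ)) := by
        refine Filter.Eventually.of_forall fun z => ?_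
        rw [← P03_Y_sq ht z]
        ring
      have hk := P03_kap hY hP hQ hev (hYb s hsI)
      have hkW := P03_kapW hY hP hQ hev (hYb s hsI)
      have had := P03_shift ha t s
      have htd := P03_shift hτ t s
      have h1 := (hk.const_mul 2).mul ((hsd.mul had).mul htd)
      have h2 := ((hkW.mul (hsd.div_const 2)).mul had).const_mul (2 * (-sin t * dB - cos t * dA) / (Real.sin al : ℂ))
      refine (h1.sub h2).congr_deriv ?_
      have hw : Wf (kk al (s:ℂ) * q0 t (s:ℂ)) = Af (kk al (s:ℂ) * q0 t (s:ℂ)) -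
        (1 - (kk al (s:ℂ) * q0 t (s:ℂ)) ^ 2) * Uf (kk al (s:ℂ) * q0 t (s:ℂ)) := rfl
      simp only [Pi.mul_apply]
      rw [hrel' s, hw]
      ring
  have hpt : ∫ s in (-al)..al,
        ((Af (kk al (s:ℂ) * q0 t (s:ℂ)) * (dB * cos (t + (s:ℂ)) - De + (Real.sin al : ℂ) * cos t *
            (a (t + (s:ℂ)) * cos (t + (s:ℂ)) - τ (t + (s:ℂ)) * sin (t + (s:ℂ)))) +
          Uf (kk al (s:ℂ) * q0 t (s:ℂ)) * (- dA * sin (t + (s:ℂ)) + (Real.sin al : ℂ) * sin t *
            (a (t + (s:ℂ)) * sin (t + (s:ℂ)) + τ (t + (s:ℂ)) * cos (t + (s:ℂ))))) *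
          (2 * sin (t + (s:ℂ))) * (cos (t + (s:ℂ)) * (a (t + (s:ℂ)) * cos (t + (s:ℂ)) - τ (t + (s:ℂ)) * sin (t + (s:ℂ))) +
            sin (t + (s:ℂ)) * (a (t + (s:ℂ)) * sin (t + (s:ℂ)) + τ (t + (s:ℂ)) * cos (t + (s:ℂ)))) +
        kh al t (s:ℂ) * (2 * (a (t + (s:ℂ)) * sin (t + (s:ℂ)) + τ (t + (s:ℂ)) * cos (t + (s:ℂ)))) *
          (cos (t + (s:ℂ)) * (a (t + (s:ℂ)) * cos (t + (s:ℂ)) - τ (t + (s:ℂ)) * sin (t + (s:ℂ))) +
            sin (t + (s:ℂ)) * (a (t + (s:ℂ)) * sin (t + (s:ℂ)) + τ (t + (s:ℂ)) * cos (t + (s:ℂ)))) +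
        kh al t (s:ℂ) * (2 * sin (t + (s:ℂ))) * (deriv (fun z => a z * sin z + τ z * cos z) (t + (s:ℂ)) *
            (a (t + (s:ℂ)) * cos (t + (s:ℂ)) - τ (t + (s:ℂ)) * sin (t + (s:ℂ))) -
          deriv (fun z => a z * cos z - τ z * sin z) (t + (s:ℂ)) *
            (a (t + (s:ℂ)) * sin (t + (s:ℂ)) + τ (t + (s:ℂ)) * cos (t + (s:ℂ))))) =
      ∫ s in (-al)..al, (2 * ((Real.sin al : ℂ) * (Real.cos al : ℂ)) * (Af (kk al (s:ℂ) * q0 t (s:ℂ)) * sin (t + (s:ℂ)) * a (t + (s:ℂ)) ^ 2) +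
        (Real.sin al : ℂ) * sin t * sin (t + (s:ℂ)) ^ 2 * Lf (kk al (s:ℂ) * q0 t (s:ℂ)) *
          (6 * a (t + (s:ℂ)) ^ 2 - 4 * deriv a (t + (s:ℂ)) * τ (t + (s:ℂ)) + 2 * τ (t + (s:ℂ)) ^ 2) +
        2 * (cos t * dB - sin t * dA) / (Real.sin al : ℂ) * ((Real.sin al : ℂ) * sin t * sin (t + (s:ℂ)) ^ 2 *
          Lf (kk al (s:ℂ) * q0 t (s:ℂ)) * a (t + (s:ℂ))) +
        2 * ((Real.cos al : ℂ) * (cos t * dB - sin t * dA) - De) * (Af (kk al (s:ℂ) * q0 t (s:ℂ)) * sin (t + (s:ℂ)) * a (t + (s:ℂ))) +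
        2 * (-sin t * dB - cos t * dA) / (Real.sin al : ℂ) * ((Real.sin al : ℂ) * sin t * sin (t + (s:ℂ)) ^ 2 / 2 *
          Wf (kk al (s:ℂ) * q0 t (s:ℂ)) * deriv a (t + (s:ℂ))) +
        (2 * ((Real.sin al : ℂ) * (sin t * cos (t + (s:ℂ)) * Uf (kk al (s:ℂ) * q0 t (s:ℂ)) -
      cos t * sin (t + (s:ℂ)) * Af (kk al (s:ℂ) * q0 t (s:ℂ)))) * (sin (t + (s:ℂ)) * a (t + (s:ℂ)) * τ (t + (s:ℂ))) +
      2 * ((Real.sin al : ℂ) * sin t * sin (t + (s:ℂ)) * Lf (kk al (s:ℂ) * q0 t (s:ℂ))) *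
        (cos (t + (s:ℂ)) * a (t + (s:ℂ)) * τ (t + (s:ℂ)) + sin (t + (s:ℂ)) *
          (deriv a (t + (s:ℂ)) * τ (t + (s:ℂ)) + a (t + (s:ℂ)) * deriv τ (t + (s:ℂ)))) -
        2 * (-sin t * dB - cos t * dA) / (Real.sin al : ℂ) * ((Real.sin al : ℂ) * sin (t + (s:ℂ)) *
          (sin t * cos (t + (s:ℂ)) * Af (kk al (s:ℂ) * q0 t (s:ℂ)) - cos t * sin (t + (s:ℂ)) * Uf (kk al (s:ℂ) * q0 t (s:ℂ))) *
          a (t + (s:ℂ)) + (Real.sin al : ℂ) * sin t * sin (t + (s:ℂ)) ^ 2 / 2 * Wf (kk al (s:ℂ) * q0 t (s:ℂ)) * deriv a (t + (s:ℂ))))) := by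
    refine e01_congr hal0.le fun s hs => ?_
    have hsI : s ∈ Icc (-al) al := Ioo_subset_Icc_self hs
    rw [hdA, hdB, kh]
    refine P03_alg (a := a (t + (s:ℂ))) (τ := τ (t + (s:ℂ))) (a1 := deriv a (t + (s:ℂ))) (τ1 := deriv τ (t + (s:ℂ))) ?_ ?_ ?_
      (mul_inv_cancel₀ hsa)
    · have h1 := P03_Y_sq (al := al) ht s
      have h2 := Lf_eq (hYb s hsI)
      have h3 := hrel s
      rw [h2]
      linear_combination Af (kk al (s:ℂ) * q0 t (s:ℂ)) * h1 + Af (kk al (s:ℂ) * q0 t (s:ℂ)) * h3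
    · exact Complex.cos_sq_add_sin_sq _
    · exact Complex.sin_sq_add_cos_sq _
  rw [hpt, P03_sum _ _ _ _ (i1.intervalIntegrable_of_Icc hle) (i2.intervalIntegrable_of_Icc hle)
    (i3.intervalIntegrable_of_Icc hle) (i4.intervalIntegrable_of_Icc hle) (i5.intervalIntegrable_of_Icc hle)
    (i6.intervalIntegrable_of_Icc hle), hψ0, P03_L0, P03_L0]
  unfold S0 L1op
  ring

end FB
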