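import Pool.Agent.H48.FB.P02
import Pool.Agent.H48.FB.P03
import Pool.Agent.H48.FB.F02
import Pool.Agent.H48.FB.M01
import Pool.Agent.H48.FB.A07

/-! P04: second order expansion of the first equation along the first order curve. -/

open Complex Set MeasureTheory Filter Topology

noncomputable section

namespace FB

/-! ### general lemmas -/

theorem P04_of_quad {f : ℂ → ℂ} {D : ℂ} {K r : ℝ} (hr : 0 < r)
    (h : ∀ w : ℂ, ‖w‖ ≤ r → ‖f w - f 0 - w * D‖ ≤ K * ‖w‖ ^ 2) : HasDerivAt f D 0 := by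
  rw [hasDerivAt_iff_isLittleO]
  have h1 : (fun w : ℂ => f w - f 0 - (w - 0) • D) =O[𝓝 0] fun w => ‖w - 0‖ ^ 2 := by
    rw [Asymptotics.isBigO_iff]
    refine ⟨K, ?_⟩
    filter_upwards [Metric.ball_mem_nhds (0:ℂ) hr] with w hw
    rw [mem_ball_zero_iff] at hw
    rw [sub_zero, smul_eq_mul, Real.norm_eq_abs, abs_of_nonneg (by positivity)]
    exact h w hw.le
  refine h1.trans_isLittleO ?_
  have h2 : (fun w : ℂ => ‖w - 0‖ ^ 2) =o[𝓝 0] fun w : ℂ => (w - 0 : ℂ) := by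
    simp only [sub_zero]
    rw [Asymptotics.isLittleO_iff]
    intro c hc
    filter_upwards [Metric.ball_mem_nhds (0:ℂ) hc] with w hw
    rw [mem_ball_zero_iff] at hw
    rw [Real.norm_eq_abs, abs_of_nonneg (by positivity)]
    nlinarith [norm_nonneg w]
  exact h2

theorem P04_slope {F : ℂ → ℂ} {w F' Φ : ℂ} (hF : HasDerivAt F F' w) {K1 K2 r : ℝ} (hr : 0 < r)
    (h : ∀ k : ℂ, ‖k‖ ≤ r → ‖F (w + k) - F w - k * Φ‖ ≤ K1 * ‖k‖ ^ 2 + K2 * ‖k‖) :
    ‖F' - Φ‖ ≤ K2 := by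
  have h1 := hasDerivAt_iff_tendsto_slope_zero.1 hF
  have h2 : Tendsto (fun k : ℂ => ‖k⁻¹ • (F (w + k) - F w) - Φ‖) (𝓝[≠] 0) (𝓝 ‖F' - Φ‖) :=
    (h1.sub_const Φ).norm
  have h3 : Tendsto (fun k : ℂ => K1 * ‖k‖ + K2) (𝓝[≠] 0) (𝓝 K2) := by
    have : Tendsto (fun k : ℂ => K1 * ‖k‖ + K2) (𝓝 0) (𝓝 (K1 * ‖(0:ℂ)‖ + K2)) :=
      Continuous.tendsto (by fun_prop) 0
    rw [norm_zero, mul_zero, zero_add] at this
    exact this.mono_left nhdsWithin_le_nhds
  refine le_of_tendsto_of_tendsto h2 h3 ?_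
  filter_upwards [self_mem_nhdsWithin, mem_nhdsWithin_of_mem_nhds (Metric.ball_mem_nhds (0:ℂ) hr)]
    with k hk hk'
  rw [mem_ball_zero_iff] at hk'
  have hk0 : k ≠ 0 := hk
  have hkn : 0 < ‖k‖ := norm_pos_iff.2 hk0
  have h4 := h k hk'.le
  have e : k⁻¹ • (F (w + k) - F w) - Φ = k⁻¹ * (F (w + k) - F w - k * Φ) := by
    rw [smul_eq_mul]
    field_simp
  rw [e, norm_mul, norm_inv, inv_mul_le_iff₀ hkn]
  calc _ ≤ K1 * ‖k‖ ^ 2 + K2 * ‖k‖ := h4
    _ = ‖k‖ * (K1 * ‖k‖ + K2) := by ring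

/-- third order Taylor formula for a function vanishing to first order -/
theorem P04_taylor {F : ℂ → ℂ} {T C : ℝ} {G : ℂ} (hT : 0 < T) (hF : DifferentiableOn ℂ F (Metric.ball 0 T))
    (hC : ∀ z ∈ Metric.ball (0:ℂ) T, ‖F z‖ ≤ C) (h0 : F 0 = 0) (h1 : deriv F 0 = 0)
    (h2 : deriv (deriv F) 0 = 2 * G) {w : ℂ} (hw : ‖w‖ ≤ T / 2) :
    ‖F w - w ^ 2 * G‖ ≤ 64 * C / T ^ 3 * ‖w‖ ^ 3 := by
  rcases eq_or_ne w 0 with rfl | hw0
  · rw [h0]
    simp
  have hwn : 0 < ‖w‖ := norm_pos_iff.2 hw0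
  have hmem : ∀ z ∈ Metric.ball (0:ℂ) (T / ‖w‖), w * z ∈ Metric.ball (0:ℂ) T := by
    intro z hz
    rw [mem_ball_zero_iff] at hz ⊢
    rw [norm_mul]
    rwa [lt_div_iff₀' hwn] at hz
  have h3 := taylor_three (g := fun z => F (w * z)) (T := T / ‖w‖) (C := C)
    (by rw [le_div_iff₀ hwn]; linarith)
    (hF.comp (differentiable_id.const_mul w).differentiableOn hmem)
    (fun z hz => hC _ (hmem z hz))
  have e1 : ∀ z, deriv (fun z => F (w * z)) z = w * deriv F (w * z) := by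
    intro z
    rw [deriv_comp_mul_left, smul_eq_mul]
  have e2 : deriv (deriv (fun z => F (w * z))) 0 = w ^ 2 * (2 * G) := by
    have : deriv (fun z => F (w * z)) = fun z => w * deriv F (w * z) := funext e1
    rw [this, deriv_const_mul_field, deriv_comp_mul_left w (deriv F), smul_eq_mul, mul_zero, h2]
    ring
  rw [e2, e1] at h3
  simp only [mul_one, mul_zero, h0, h1, sub_zero] at h3
  have e3 : F w - w ^ 2 * (2 * G) / 2 = F w - w ^ 2 * G := by ring
  rw [e3] at h3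
  refine h3.trans (le_of_eq ?_)
  field_simp

theorem P04_DirBd {d a b : ℝ} {A B : ℂ → ℂ} (h : DirBd d a b A B) (w : ℂ) :
    DirBd (d * ‖w‖) a b (fun z => w * A z) (fun z => w * B z) where
  dA := h.dA.const_mul w
  dB := h.dB.const_mul w
  a0 := fun z hz => by
    rw [norm_mul, mul_comm]; exact mul_le_mul_of_nonneg_right (h.a0 z hz) (norm_nonneg _)
  b0 := fun z hz => by
    rw [norm_mul, mul_comm]; exact mul_le_mul_of_nonneg_right (h.b0 z hz) (norm_nonneg _)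
  a1 := fun z hz => by
    rw [deriv_const_mul_field, norm_mul, mul_comm]
    exact mul_le_mul_of_nonneg_right (h.a1 z hz) (norm_nonneg _)
  b1 := fun z hz => by
    rw [deriv_const_mul_field, norm_mul, mul_comm]
    exact mul_le_mul_of_nonneg_right (h.b1 z hz) (norm_nonneg _)

theorem P04_DS0_smul (al : ℝ) (Z X A B : ℂ → ℂ) (w t : ℂ) :
    DS0 al Z X (fun z => w * A z) (fun z => w * B z) t = w * DS0 al Z X A B t := by
  unfold DS0
  rw [← intervalIntegral.integral_const_mul]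
  apply intervalIntegral.integral_congr
  intro s _
  simp only
  ring

theorem P04_df_smul (al : ℝ) (A : ℂ → ℂ) (w t : ℂ) : df al (fun z => w * A z) t = w * df al A t := by
  unfold df; ring

theorem P04_DV_smul (al : ℝ) (Z X A B : ℂ → ℂ) (w t : ℂ) :
    DV al Z X (fun z => w * A z) (fun z => w * B z) t = w * DV al Z X A B t := by
  unfold DV ndp ndm
  rw [mul_sub, mul_sub, ← intervalIntegral.integral_const_mul]
  congr 1
  · congr 1
    · apply intervalIntegral.integral_congr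
      intro s _
      simp only
      ring
    · ring
  · ring

/-- circle values of `e` -/
theorem P04_circle_e {al : ℝ} (hal : al ∈ JJ) {t : ℂ} (ht : 1 < t.im) :
    ezf al 0 cos sin t = 0 ∧ exf al 0 cos sin t = 0 ∧ SS al (Vs al : ℂ) 0 cos sin t = 0 := by
  have hsin := G00_sin_pos hal
  have hs0 : (Real.sin al : ℂ) ≠ 0 := by exact_mod_cast hsin.ne'
  obtain ⟨cnz, cnx, cmz, cmx, cdz, cdx, cet, cell, cnu, cxi, cchip, cchim, cY, cchi, com⟩ :=
    circle_chord al hsin t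
  obtain ⟨-, -, -, v3, v4, v5, v6⟩ := circle_values hal ht
  refine ⟨?_, ?_, ?_⟩
  · unfold ezf
    rw [v4, cnz, cell]
    field_simp
    ring
  · unfold exf
    rw [v5, cnx, cell]
    field_simp
    ring
  · unfold SS
    rw [v6, cet, cell]
    ring

/-! ### the first order curve -/

/-- the function which is expanded -/
def P04F (al : ℝ) (t w : ℂ) : ℂ :=
  SS al ((Vs al : ℂ) + w * (v1c al : ℂ)) (w * (mu1c al : ℂ)) (Z1 al w) (X1 al w) t

/-- the main part of its derivative -/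
def P04Phi (al : ℝ) (t w : ℂ) : ℂ :=
  DS0 al (Z1 al w) (X1 al w) (Af1 al) (Bf1 al) t + (v1c al : ℂ) * et al (Z1 al w) (X1 al w) t +
    (mu1c al : ℂ) * Yf al (Z1 al w) (X1 al w) t

theorem P04_Z1_add (al : ℝ) (w k : ℂ) : Z1 al (w + k) = fun z => Z1 al w z + k * Af1 al z := by
  funext z
  unfold Z1
  ring
theorem P04_X1_add (al : ℝ) (w k : ℂ) : X1 al (w + k) = fun z => X1 al w z + k * Bf1 al z := by
  funext z
  unfold X1
  ring
theorem P04_Z1_zero (al : ℝ) : Z1 al 0 = cos := by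
  funext z
  unfold Z1
  ring
theorem P04_X1_zero (al : ℝ) : X1 al 0 = sin := by
  funext z
  unfold X1
  ring

/-- uniform constants for the first order curve -/
structure P04K (al R c0 T C2 C : ℝ) : Prop where
  t0 : 0 < T
  t1 : T ≤ 1
  k2 : 1 ≤ C2
  k : 1 ≤ C
  tc : T * C2 ≤ c0
  tc1 : T * C2 ≤ 1
  v1 : ‖(v1c al : ℂ)‖ ≤ C2
  m1 : ‖(mu1c al : ℂ)‖ ≤ C2
  dir : DirBd C2 1 (R + 1) (Af1 al) (Bf1 al)
  nb : ∀ w : ℂ, ‖w‖ ≤ T → NB c0 1 (R + 1) (Z1 al w) (X1 al w)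
  /-- analyticity and bound of `F` -/
  an : ∀ t ∈ band 1 (R + 1), DifferentiableOn ℂ (P04F al t) (Metric.ball 0 T) ∧
    ∀ w ∈ Metric.ball (0:ℂ) T, ‖P04F al t w‖ ≤ C
  /-- linearisation -/
  sl : ∀ w k : ℂ, ‖w‖ ≤ T → ‖k‖ ≤ T → ∀ t ∈ band 1 (R + 1),
    ‖P04F al t (w + k) - P04F al t w - k * P04Phi al t w‖ ≤ C * ‖k‖ ^ 2 +
      C * ‖k‖ * (‖ezf al (w * (mu1c al : ℂ)) (Z1 al w) (X1 al w) t‖ +
        ‖exf al (w * (mu1c al : ℂ)) (Z1 al w) (X1 al w) t‖ +
        ‖Vf al (Z1 al w) (X1 al w) t - ((Vs al : ℂ) + w * (v1c al : ℂ))‖)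
  /-- volume -/
  vl : ∀ w : ℂ, ‖w‖ ≤ T → ∀ t ∈ band 1 (R + 1),
    ‖Vf al (Z1 al w) (X1 al w) t - ((Vs al : ℂ) + w * (v1c al : ℂ))‖ ≤ C * ‖w‖ ^ 2
  yl : ∀ w : ℂ, ‖w‖ ≤ T → ∀ t ∈ band 1 (R + 1),
    ‖Yf al (Z1 al w) (X1 al w) t - Yf al cos sin t -
      w * (Yz al cos sin t * df al (Bf1 al) t - Yx al cos sin t * df al (Af1 al) t)‖ ≤ C * ‖w‖ ^ 2
  /-- `e` -/
  eb : ∀ w : ℂ, ‖w‖ ≤ T → ∀ E ρ : ℝ, 0 < ρ → ρ ≤ 1 →
      (∀ t ∈ band 1 (R + 1), ‖P04F al t w‖ ≤ E ∧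
        ‖Vf al (Z1 al w) (X1 al w) t - ((Vs al : ℂ) + w * (v1c al : ℂ))‖ ≤ E) →
      ∀ t ∈ band (1 + ρ) (R + 1 - ρ),
      ‖ezf al (w * (mu1c al : ℂ)) (Z1 al w) (X1 al w) t‖ ≤ C * E / ρ ∧
      ‖exf al (w * (mu1c al : ℂ)) (Z1 al w) (X1 al w) t‖ ≤ C * E / ρ

theorem P04_const (R : ℝ) (hR : 3 ≤ R) : ∃ c0 T C2 C : ℝ, ∀ al ∈ JJ, P04K al R c0 T C2 C := by
  obtain ⟨C1, hC1, H1⟩ := dir1_props (R + 1) (by linarith)
  obtain ⟨CL, hCL, HL⟩ := lam_bound
  obtain ⟨ca, Ca, hca, hCa, HA⟩ := line_analytic (R + 1) (by linarith)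
  obtain ⟨cq, Cq, hcq, hCq, HQ⟩ := quad (R + 1) (by linarith)
  obtain ⟨cs, Cs, hcs, hCs, HS⟩ := SS_lin (R + 1) (by linarith)
  obtain ⟨ce, Ce, hce, hCe, HE⟩ := e_bound (R + 1) (by linarith)
  set c0 : ℝ := min (min ca cq) (min cs ce) with hc0def
  have hc0 : 0 < c0 := by positivity
  have h1 : c0 ≤ ca := (min_le_left _ _).trans (min_le_left _ _)
  have h2 : c0 ≤ cq := (min_le_left _ _).trans (min_le_right _ _)
  have h3 : c0 ≤ cs := (min_le_right _ _).trans (min_le_left _ _)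
  have h4 : c0 ≤ ce := (min_le_right _ _).trans (min_le_right _ _)
  set C2 : ℝ := C1 * (1 + CL) with hC2def
  have hC2 : 1 ≤ C2 := by nlinarith
  have hC12 : C1 ≤ C2 := by nlinarith
  set T : ℝ := min 1 (min c0 1 / C2) with hTdef
  have hT : 0 < T := by positivity
  have hT1 : T ≤ 1 := min_le_left _ _
  have hTc : T * C2 ≤ min c0 1 := by
    have : T ≤ min c0 1 / C2 := min_le_right _ _
    rwa [le_div_iff₀ (by linarith)] at this
  have hTc0 : T * C2 ≤ c0 := hTc.trans (min_le_left _ _)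
  have hTc1 : T * C2 ≤ 1 := hTc.trans (min_le_right _ _)
  set C : ℝ := 9 * Ca + Cs * C2 ^ 2 + Cq * C2 ^ 2 + Ce + Cs * C2 with hCdef
  have p1 : 0 ≤ Cs * C2 ^ 2 := by positivity
  have p2 : 0 ≤ Cq * C2 ^ 2 := by positivity
  have p3 : 0 ≤ Cs * C2 := by positivity
  refine ⟨c0, T, C2, C, fun al hal => ?_⟩
  obtain ⟨hsym, hreal, hdir, hc0c, hv1, hmu1, dA, dB, da, dt⟩ := H1 al hal
  have hv : ‖(v1c al : ℂ)‖ ≤ C2 := by
    rw [norm_real, Real.norm_eq_abs]
    exact hv1.trans hC12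
  have hm : ‖(mu1c al : ℂ)‖ ≤ C2 := by
    rw [norm_real, Real.norm_eq_abs]
    refine hmu1.trans ?_
    have := HL al hal 2
    nlinarith
  have hd : DirBd C2 1 (R + 1) (Af1 al) (Bf1 al) := hdir.mono hC12 (by linarith) le_rfl
  have hnb : ∀ w : ℂ, ‖w‖ ≤ T → NB c0 1 (R + 1) (Z1 al w) (X1 al w) := by
    intro w hw
    exact e01L_NB (c := 0) (d05_NB le_rfl) hd (by nlinarith)
  have hVs : ‖(Vs al : ℂ)‖ ≤ 5 := by
    rw [norm_real, Real.norm_eq_abs]
    exact Vs_bd hal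
  have hVw : ∀ w : ℂ, ‖w‖ ≤ T → ‖(Vs al : ℂ) + w * (v1c al : ℂ)‖ ≤ 6 := by
    intro w hw
    refine (norm_add_le _ _).trans ?_
    rw [norm_mul]
    have : ‖w‖ * ‖(v1c al : ℂ)‖ ≤ T * C2 := mul_le_mul hw hv (norm_nonneg _) hT.le
    linarith
  have hmw : ∀ w : ℂ, ‖w‖ ≤ T → ‖w * (mu1c al : ℂ)‖ ≤ 1 := by
    intro w hw
    rw [norm_mul]
    have : ‖w‖ * ‖(mu1c al : ℂ)‖ ≤ T * C2 := mul_le_mul hw hm (norm_nonneg _) hT.le
    linarith
  refine ⟨hT, hT1, hC2, by linarith, hTc0, hTc1, hv, hm, hd, hnb, ?_, ?_, ?_, ?_, ?_⟩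
  · -- analyticity
    intro t ht
    obtain ⟨aV, aS, al', aY, ab⟩ := HA al hal 1 (R + 1) le_rfl le_rfl cos sin (Af1 al) (Bf1 al) T C2 hT hd
      (fun w hw => (hnb w (mem_ball_zero_iff.1 hw).le).mono h1 le_rfl le_rfl) t ht
    constructor
    · have e1 : Differentiable ℂ (fun w => et al (Z1 al w) (X1 al w) t) :=
        e01_et_differentiable al cos sin (Af1 al) (Bf1 al) t
      have e2 : DifferentiableOn ℂ (fun w : ℂ => (Vs al : ℂ) + w * (v1c al : ℂ)) (Metric.ball 0 T) := by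
        fun_prop
      have e3 : DifferentiableOn ℂ (fun w : ℂ => w * (mu1c al : ℂ)) (Metric.ball 0 T) := by
        fun_prop
      exact ((aS.add (e2.mul e1.differentiableOn)).sub (al'.const_mul (M0 al : ℂ))).add (e3.mul aY)
    · intro w hw
      obtain ⟨b1, b2, b3, b4, b5⟩ := ab w hw
      have hwT := (mem_ball_zero_iff.1 hw).le
      have hb1 := hVw w hwT
      have hb2 := hmw w hwT
      unfold P04F SS
      refine (norm_add_le _ _).trans ?_
      have q1 : ‖w * (mu1c al : ℂ) * Yf al (Z1 al w) (X1 al w) t‖ ≤ 1 * Ca := by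
        rw [norm_mul]
        exact mul_le_mul hb2 b4 (norm_nonneg _) (by norm_num)
      have q2 : ‖(M0 al : ℂ) * ell al (Z1 al w) (X1 al w) t‖ ≤ 1 * Ca := by
        rw [norm_mul]
        exact mul_le_mul (F02_M0 al) b3 (norm_nonneg _) (by norm_num)
      have q3 : ‖((Vs al : ℂ) + w * (v1c al : ℂ)) * et al (Z1 al w) (X1 al w) t‖ ≤ 6 * Ca := by
        rw [norm_mul]
        exact mul_le_mul hb1 b5 (norm_nonneg _) (by norm_num)
      have q4 : ‖Sf al (Z1 al w) (X1 al w) t‖ ≤ Ca := b2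
      have q5 := norm_sub_le (Sf al (Z1 al w) (X1 al w) t +
        ((Vs al : ℂ) + w * (v1c al : ℂ)) * et al (Z1 al w) (X1 al w) t)
        ((M0 al : ℂ) * ell al (Z1 al w) (X1 al w) t)
      have q6 := norm_add_le (Sf al (Z1 al w) (X1 al w) t)
        (((Vs al : ℂ) + w * (v1c al : ℂ)) * et al (Z1 al w) (X1 al w) t)
      linarith
  · -- linearisation
    intro w k hw hk t ht
    have hd' : DirBd (C2 * ‖k‖) 1 (R + 1) (fun z => k * Af1 al z) (fun z => k * Bf1 al z) :=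
      P04_DirBd hd k
    have hk0 := norm_nonneg k
    have h := HS al hal 1 (R + 1) le_rfl le_rfl (Z1 al w) (X1 al w)
      ((hnb w hw).mono h3 le_rfl le_rfl) (C2 * ‖k‖) (by positivity)
      (by nlinarith) _ _ hd' ((Vs al : ℂ) + w * (v1c al : ℂ)) (w * (mu1c al : ℂ))
      (k * (v1c al : ℂ)) (k * (mu1c al : ℂ)) ((hVw w hw).trans (by norm_num)) (hmw w hw)
      (by rw [norm_mul, mul_comm]; exact mul_le_mul_of_nonneg_right hv hk0)
      (by rw [norm_mul, mul_comm]; exact mul_le_mul_of_nonneg_right hm hk0) t ht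
    rw [P04_DS0_smul] at h
    have e1 : P04F al t (w + k) - P04F al t w - k * P04Phi al t w =
        SS al ((Vs al : ℂ) + w * (v1c al : ℂ) + k * (v1c al : ℂ)) (w * (mu1c al : ℂ) + k * (mu1c al : ℂ))
          (fun z => Z1 al w z + k * Af1 al z) (fun z => X1 al w z + k * Bf1 al z) t -
        SS al ((Vs al : ℂ) + w * (v1c al : ℂ)) (w * (mu1c al : ℂ)) (Z1 al w) (X1 al w) t -
        (k * DS0 al (Z1 al w) (X1 al w) (Af1 al) (Bf1 al) t +
          k * (v1c al : ℂ) * et al (Z1 al w) (X1 al w) t +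
          k * (mu1c al : ℂ) * Yf al (Z1 al w) (X1 al w) t) := by
      unfold P04F P04Phi
      rw [P04_Z1_add, P04_X1_add]
      have e2 : (Vs al : ℂ) + (w + k) * (v1c al : ℂ) =
        (Vs al : ℂ) + w * (v1c al : ℂ) + k * (v1c al : ℂ) := by ring
      have e3 : (w + k) * (mu1c al : ℂ) = w * (mu1c al : ℂ) + k * (mu1c al : ℂ) := by ring
      rw [e2, e3]
      ring
    rw [e1]
    refine h.trans ?_
    set E := ‖ezf al (w * (mu1c al : ℂ)) (Z1 al w) (X1 al w) t‖ +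
        ‖exf al (w * (mu1c al : ℂ)) (Z1 al w) (X1 al w) t‖ +
        ‖Vf al (Z1 al w) (X1 al w) t - ((Vs al : ℂ) + w * (v1c al : ℂ))‖ with hE
    have hE0 : 0 ≤ E := by positivity
    have r1 : Cs * (C2 * ‖k‖) ^ 2 ≤ C * ‖k‖ ^ 2 := by
      have : Cs * (C2 * ‖k‖) ^ 2 = (Cs * C2 ^ 2) * ‖k‖ ^ 2 := by ring
      rw [this]
      exact mul_le_mul_of_nonneg_right (by linarith) (by positivity)
    have r2 : Cs * (C2 * ‖k‖) * E ≤ C * ‖k‖ * E := by
      apply mul_le_mul_of_nonneg_right _ hE0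
      have : Cs * (C2 * ‖k‖) = (Cs * C2) * ‖k‖ := by ring
      rw [this]
      exact mul_le_mul_of_nonneg_right (by linarith) hk0
    linarith
  · -- volume
    intro w hw t ht
    have hw0 := norm_nonneg w
    obtain ⟨qV, -⟩ := HQ al hal 1 (R + 1) le_rfl le_rfl cos sin (d05_NB hcq.le) (C2 * ‖w‖)
      (by positivity) (by nlinarith) _ _ (P04_DirBd hd w) t ht
    have e1 := (first_order hal ht.1).2
    have e2 := (circle_values hal ht.1).2.2.2.1
    rw [P04_DV_smul, e1, e2] at qV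
    have e3 : Vf al (Z1 al w) (X1 al w) t - ((Vs al : ℂ) + w * (v1c al : ℂ)) =
        Vf al (fun z => cos z + w * Af1 al z) (fun z => sin z + w * Bf1 al z) t - (Vs al : ℂ) -
          w * (v1c al : ℂ) := by
      show Vf al (fun z => cos z + w * Af1 al z) (fun z => sin z + w * Bf1 al z) t -
        ((Vs al : ℂ) + w * (v1c al : ℂ)) = _
      ring
    rw [e3]
    refine qV.trans ?_
    have : Cq * (C2 * ‖w‖) ^ 2 = (Cq * C2 ^ 2) * ‖w‖ ^ 2 := by ring
    rw [this]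
    exact mul_le_mul_of_nonneg_right (by linarith) (by positivity)
  · -- the function `Y`
    intro w hw t ht
    have hw0 := norm_nonneg w
    obtain ⟨-, -, -, -, qY, -⟩ := HQ al hal 1 (R + 1) le_rfl le_rfl cos sin (d05_NB hcq.le) (C2 * ‖w‖)
      (by positivity) (by nlinarith) _ _ (P04_DirBd hd w) t ht
    rw [P04_df_smul, P04_df_smul] at qY
    have e3 : Yf al (Z1 al w) (X1 al w) t - Yf al cos sin t -
      w * (Yz al cos sin t * df al (Bf1 al) t - Yx al cos sin t * df al (Af1 al) t) =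
      Yf al (fun z => cos z + w * Af1 al z) (fun z => sin z + w * Bf1 al z) t - Yf al cos sin t -
        (Yz al cos sin t * (w * df al (Bf1 al) t) - Yx al cos sin t * (w * df al (Af1 al) t)) := by
      show Yf al (fun z => cos z + w * Af1 al z) (fun z => sin z + w * Bf1 al z) t - Yf al cos sin t -
        _ = _
      ring
    rw [e3]
    refine qY.trans ?_
    have : Cq * (C2 * ‖w‖) ^ 2 = (Cq * C2 ^ 2) * ‖w‖ ^ 2 := by ring
    rw [this]
    exact mul_le_mul_of_nonneg_right (by linarith) (by positivity)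
  · -- `e`
    intro w hw E ρ hρ hρ1 hE t ht
    obtain ⟨q1, q2, -⟩ := HE al hal 1 (R + 1) le_rfl le_rfl (Z1 al w) (X1 al w)
      ((hnb w hw).mono h4 le_rfl le_rfl) ((Vs al : ℂ) + w * (v1c al : ℂ)) (w * (mu1c al : ℂ)) E ρ hρ hρ1
      hE t ht
    have hE0 : 0 ≤ E := (norm_nonneg _).trans (hE t (band_subset (by linarith) (by linarith) ht)).1
    have r : Ce * E / ρ ≤ C * E / ρ := by
      apply div_le_div_of_nonneg_right _ hρ.le
      exact mul_le_mul_of_nonneg_right (by linarith) hE0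
    exact ⟨q1.trans r, q2.trans r⟩

theorem P04_Phi_zero {al : ℝ} (hal : al ∈ JJ) {t : ℂ} (ht : 1 < t.im) : P04Phi al t 0 = 0 := by
  have hsin := G00_sin_pos hal
  obtain ⟨cnz, cnx, cmz, cmx, cdz, cdx, cet, cell, cnu, cxi, cchip, cchim, cY, cchi, com⟩ :=
    circle_chord al hsin t
  have h := (first_order hal ht).1
  unfold P04Phi
  rw [P04_Z1_zero, P04_X1_zero, cet, cY]
  exact h

theorem P04_F_zero {al : ℝ} (hal : al ∈ JJ) {t : ℂ} (ht : 1 < t.im) : P04F al t 0 = 0 := by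
  unfold P04F
  rw [P04_Z1_zero, P04_X1_zero, zero_mul, zero_mul, add_zero]
  exact (P04_circle_e hal ht).2.2

/-- quadratic bound of `F` -/
theorem P04_F_quad {al R c0 T C2 C : ℝ} (hal : al ∈ JJ) (h : P04K al R c0 T C2 C) {w : ℂ}
    (hw : ‖w‖ ≤ T) {t : ℂ} (ht : t ∈ band 1 (R + 1)) : ‖P04F al t w‖ ≤ C * ‖w‖ ^ 2 := by
  have h1 := h.sl 0 w (by rw [norm_zero]; exact h.t0.le) hw t ht
  obtain ⟨e1, e2, -⟩ := P04_circle_e hal ht.1
  have e3 := (circle_values hal ht.1).2.2.2.1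
  rw [P04_Phi_zero hal ht.1, P04_F_zero hal ht.1, P04_Z1_zero, P04_X1_zero, zero_mul, zero_mul,
    add_zero, zero_add, e1, e2, e3, sub_self, norm_zero, mul_zero, sub_zero, sub_zero] at h1
  simpa using h1

theorem P04_PL_zero (z : ℂ) : PL 0 z = 1 := by
  simp [PL, cc]

theorem P04_L0_lin {al : ℝ} (hal : al ∈ JJ) {f g : ℂ → ℂ} (hf : Continuous f) (hg : Continuous g)
    (p q : ℂ) {t : ℂ} (ht : 1 < t.im) :
    L0 al (fun z => p * f z + q * g z) t = p * L0 al f t + q * L0 al g t := by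
  obtain ⟨j1, j2, j3, j4, j5, j6, j7⟩ := JJ_bounds hal
  have hsin := G00_sin_pos hal
  have hs0 : (Real.sin al : ℂ) ≠ 0 := by exact_mod_cast hsin.ne'
  have h1 := P01_L0 (a := al) (f := fun z => p * f z + q * g z) (by linarith) j3
    ((hf.const_mul p).add (hg.const_mul q)) ht
  have h2 := P01_L0 (a := al) (by linarith) j3 hf ht
  have h3 := P01_L0 (a := al) (by linarith) j3 hg ht
  rw [div_eq_iff hs0] at h1 h2 h3
  rw [h1, h2, h3]
  have hc : Continuous (fun s : ℝ => sin t * sin (t + (s:ℂ)) ^ 2 * Lf (P01_y t al s)) := by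
    refine Continuous.mul (by fun_prop) (P01_Lf_cont ht (by linarith))
  have hts : Continuous (fun s : ℝ => t + (s:ℂ)) := by fun_prop
  have i1 : IntervalIntegrable (fun s : ℝ => p * (sin t * sin (t + (s:ℂ)) ^ 2 * Lf (P01_y t al s) *
      f (t + (s:ℂ)))) volume (-Real.pi) Real.pi :=
    (continuous_const.mul (hc.mul (hf.comp hts))).intervalIntegrable _ _
  have i2 : IntervalIntegrable (fun s : ℝ => q * (sin t * sin (t + (s:ℂ)) ^ 2 * Lf (P01_y t al s) *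
      g (t + (s:ℂ)))) volume (-Real.pi) Real.pi :=
    (continuous_const.mul (hc.mul (hg.comp hts))).intervalIntegrable _ _
  have e : (∫ s in (-Real.pi)..Real.pi, sin t * sin (t + (s:ℂ)) ^ 2 * Lf (P01_y t al s) *
      (p * f (t + (s:ℂ)) + q * g (t + (s:ℂ)))) =
      p * (∫ s in (-Real.pi)..Real.pi, sin t * sin (t + (s:ℂ)) ^ 2 * Lf (P01_y t al s) *
        f (t + (s:ℂ))) + q * ∫ s in (-Real.pi)..Real.pi, sin t * sin (t + (s:ℂ)) ^ 2 *
          Lf (P01_y t al s) * g (t + (s:ℂ)) := by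
    rw [← intervalIntegral.integral_const_mul, ← intervalIntegral.integral_const_mul,
      ← intervalIntegral.integral_add i1 i2]
    apply intervalIntegral.integral_congr
    intro s _
    simp only
    ring
  rw [e]
  ring

theorem P04_S0_lin {al : ℝ} (hal : al ∈ JJ) {f g : ℂ → ℂ} (hf : Continuous f) (hg : Continuous g)
    (p q : ℂ) {t : ℂ} (ht : 1 < t.im) :
    S0 al (fun z => p * f z + q * g z) t = p * S0 al f t + q * S0 al g t := by
  obtain ⟨j1, j2, j3, j4, j5, j6, j7⟩ := JJ_bounds hal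
  rw [P01_S0 (a := al) (f := fun z => p * f z + q * g z) (by linarith) j3
    ((hf.const_mul p).add (hg.const_mul q)) ht,
    P01_S0 (a := al) (by linarith) j3 hf ht, P01_S0 (a := al) (by linarith) j3 hg ht]
  have hc : Continuous (fun s : ℝ => Af (P01_y t al s) * sin (t + (s:ℂ))) := by
    refine Continuous.mul (P01_Af_cont ht (by linarith)) (by fun_prop)
  have hts : Continuous (fun s : ℝ => t + (s:ℂ)) := by fun_prop
  have i1 : IntervalIntegrable (fun s : ℝ => p * (Af (P01_y t al s) * sin (t + (s:ℂ)) *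
      f (t + (s:ℂ)))) volume (-Real.pi) Real.pi :=
    (continuous_const.mul (hc.mul (hf.comp hts))).intervalIntegrable _ _
  have i2 : IntervalIntegrable (fun s : ℝ => q * (Af (P01_y t al s) * sin (t + (s:ℂ)) *
      g (t + (s:ℂ)))) volume (-Real.pi) Real.pi :=
    (continuous_const.mul (hc.mul (hg.comp hts))).intervalIntegrable _ _
  rw [← intervalIntegral.integral_const_mul, ← intervalIntegral.integral_const_mul,
    ← intervalIntegral.integral_add i1 i2]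
  apply intervalIntegral.integral_congr
  intro s _
  simp only
  ring

theorem P04_L0_a {al : ℝ} (hal : al ∈ JJ) {t : ℂ} (ht : 1 < t.im) :
    L0 al (a1f al) t = (lam al 2 : ℂ) * PL 2 t + (lam al 0 : ℂ) * ((c0c al : ℂ) / 2) := by
  have e : a1f al = fun z => 1 * PL 2 z + ((c0c al : ℂ) / 2) * PL 0 z := by
    funext z
    rw [P04_PL_zero]
    unfold a1f
    ring
  rw [e, P04_L0_lin hal (PL_diff 2).continuous (PL_diff 0).continuous _ _ ht, L0_PL hal 2 ht,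
    L0_PL hal 0 ht, P04_PL_zero]
  ring

theorem P04_L0_a_deriv {al : ℝ} (hal : al ∈ JJ) {t : ℂ} (ht : 1 < t.im) :
    deriv (L0 al (a1f al)) t = (lam al 2 : ℂ) * deriv (PL 2) t := by
  have h1 : L0 al (a1f al) =ᶠ[𝓝 t] fun t => (lam al 2 : ℂ) * PL 2 t + (lam al 0 : ℂ) * ((c0c al : ℂ) / 2) := by
    have ho : IsOpen {z : ℂ | 1 < z.im} := isOpen_lt continuous_const continuous_im
    filter_upwards [ho.mem_nhds ht] with z hz
    exact P04_L0_a hal hz
  rw [h1.deriv_eq, deriv_add_const, deriv_const_mul_field]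

/-- the second order coefficient -/
def P04G (al : ℝ) (t : ℂ) : ℂ :=
  (Real.sin al : ℂ) * (Real.cos al : ℂ) * S0 al (fun z => a1f al z ^ 2) t -
        (Real.pi : ℂ) / 2 * (Real.sin al : ℂ) * ((h4c al : ℂ) * PL 2 t + (h00c al : ℂ)) ^ 2 +
        1/2 * L0 al (fun z => 6 * a1f al z ^ 2 - 4 * deriv (a1f al) z * t1f al z + 2 * t1f al z ^ 2) t +
        (lam al 2 : ℂ) * ((cos t * df al (Bf1 al) t - sin t * df al (Af1 al) t) / (Real.sin al : ℂ) * PL 2 t +
          (- sin t * df al (Bf1 al) t - cos t * df al (Af1 al) t) / (Real.sin al : ℂ) * deriv (PL 2) t -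
          (Yz al cos sin t * df al (Bf1 al) t - Yx al cos sin t * df al (Af1 al) t) / (Real.sin al : ℂ))

/-- derivative of the main part -/
theorem P04_Phi_deriv {al R c0 T C2 C : ℝ} (hal : al ∈ JJ) (h : P04K al R c0 T C2 C)
    (da : Differentiable ℂ (a1f al)) (dt : Differentiable ℂ (t1f al)) {t : ℂ}
    (ht : t ∈ band 1 (R + 1)) : HasDerivAt (P04Phi al t) (2 * P04G al t) 0 := by
  have hsin := G00_sin_pos hal
  have hs0 : (Real.sin al : ℂ) ≠ 0 := by exact_mod_cast hsin.ne'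
  have hcos : 0 < Real.cos al := by linarith [(JJ_bounds hal).2.2.2.1]
  have hc0 : (Real.cos al : ℂ) ≠ 0 := by exact_mod_cast hcos.ne'
  have h1 := DS0_line_value hal da dt ht.1
  have h2 := e01_deriv_et al cos sin (Af1 al) (Bf1 al) t
  have h3 : HasDerivAt (fun w => Yf al (Z1 al w) (X1 al w) t)
      (Yz al cos sin t * df al (Bf1 al) t - Yx al cos sin t * df al (Af1 al) t) 0 := by
    refine P04_of_quad h.t0 (K := C) fun w hw => ?_
    rw [P04_Z1_zero, P04_X1_zero]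
    exact h.yl w hw t ht
  have h4 : HasDerivAt (fun w => DS0 al (Z1 al w) (X1 al w) (Af1 al) (Bf1 al) t) _ 0 := h1
  have h5 : HasDerivAt (fun w => et al (Z1 al w) (X1 al w) t) (Det al cos sin (Af1 al) (Bf1 al) t) 0 := h2
  have h6 := (h4.add (h5.const_mul (v1c al : ℂ))).add (h3.const_mul (mu1c al : ℂ))
  refine h6.congr_deriv ?_
  obtain ⟨ps1, ps2⟩ := plane_shift hal ht.1
  have hA : (fun z => a1f al z * cos z - t1f al z * sin z) = Af1 al := rfl
  have hB : (fun z => a1f al z * sin z + t1f al z * cos z) = Bf1 al := rfl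
  rw [hA, hB, P04_L0_a hal ht.1, P04_L0_a_deriv hal ht.1]
  have hv : (v1c al : ℂ) = - (lam al 0 : ℂ) * (c0c al : ℂ) / ((Real.sin al : ℂ) * (Real.cos al : ℂ)) := by
    unfold v1c
    push_cast
    ring
  have hm : (mu1c al : ℂ) = - 2 * (lam al 2 : ℂ) / (Real.sin al : ℂ) := by
    unfold mu1c
    push_cast
    ring
  unfold P04G
  set hh : ℂ := (h4c al : ℂ) * PL 2 t + (h00c al : ℂ) with hhdef
  set S2 := S0 al (fun z => a1f al z ^ 2) t
  set Lr := L0 al (fun z => 6 * a1f al z ^ 2 - 4 * deriv (a1f al) z * t1f al z + 2 * t1f al z ^ 2) t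
  set DA := df al (Af1 al) t
  set DB := df al (Bf1 al) t
  set De := Det al cos sin (Af1 al) (Bf1 al) t
  set S1 := S0 al (a1f al) t
  have e1 : De = hh + (Real.cos al : ℂ) * (cos t * DB - sin t * DA) := by
    rw [← ps1]; ring
  have e2 : S1 = ((Real.pi : ℂ) * (Real.sin al : ℂ) * hh + (v1c al : ℂ)) / 2 := by
    rw [← ps2]; ring
  rw [e1, e2, hv, hm]
  field_simp
  ring

/-- the derivative of `F` and its main part -/
theorem P04_F_deriv {al R c0 T C2 C : ℝ} (hal : al ∈ JJ) (h : P04K al R c0 T C2 C)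
    {t : ℂ} (ht : t ∈ band 1 R) : ∃ K : ℝ, ∀ w : ℂ, ‖w‖ ≤ T / 2 →
      ‖deriv (P04F al t) w - P04Phi al t w‖ ≤ K * ‖w‖ ^ 2 := by
  set ρ : ℝ := min ((t.im - 1) / 2) (1 / 2) with hρ
  have hρ0 : 0 < ρ := lt_min (by linarith [ht.1]) (by norm_num)
  have hρ1 : ρ ≤ 1 / 2 := min_le_right _ _
  have hρ2 : ρ ≤ (t.im - 1) / 2 := min_le_left _ _
  have htb : t ∈ band 1 (R + 1) := ⟨ht.1, by linarith [ht.2]⟩
  have htb' : t ∈ band (1 + ρ) (R + 1 - ρ) := ⟨by linarith [ht.1], by linarith [ht.2]⟩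
  have hC : 0 ≤ C := by linarith [h.k]
  refine ⟨C * (C * C / ρ + C * C / ρ + C), fun w hw => ?_⟩
  have hT := h.t0
  have hwT : ‖w‖ ≤ T := by linarith
  obtain ⟨e1, e2⟩ := h.eb w hwT (C * ‖w‖ ^ 2) ρ hρ0 (by linarith)
    (fun t' ht' => ⟨P04_F_quad hal h hwT ht', h.vl w hwT t' ht'⟩) t htb'
  have e3 := h.vl w hwT t htb
  have hdiff : HasDerivAt (P04F al t) (deriv (P04F al t) w) w :=
    ((h.an t htb).1.differentiableAt (Metric.isOpen_ball.mem_nhds
      (by rw [mem_ball_zero_iff]; linarith))).hasDerivAt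
  set Ew := ‖ezf al (w * (mu1c al : ℂ)) (Z1 al w) (X1 al w) t‖ +
        ‖exf al (w * (mu1c al : ℂ)) (Z1 al w) (X1 al w) t‖ +
        ‖Vf al (Z1 al w) (X1 al w) t - ((Vs al : ℂ) + w * (v1c al : ℂ))‖ with hEw
  have h1 := P04_slope hdiff (Φ := P04Phi al t w) (K1 := C) (K2 := C * Ew) hT (fun k hk => by
    refine (h.sl w k hwT hk t htb).trans (le_of_eq ?_)
    ring)
  refine h1.trans ?_
  have h2 : Ew ≤ (C * C / ρ + C * C / ρ + C) * ‖w‖ ^ 2 := by
    calc Ew ≤ C * (C * ‖w‖ ^ 2) / ρ + C * (C * ‖w‖ ^ 2) / ρ + C * ‖w‖ ^ 2 := by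
          rw [hEw]
          exact add_le_add (add_le_add e1 e2) e3
      _ = _ := by ring
  calc C * Ew ≤ C * ((C * C / ρ + C * C / ρ + C) * ‖w‖ ^ 2) := mul_le_mul_of_nonneg_left h2 hC
    _ = _ := by ring

theorem P04_main {al R c0 T C2 C : ℝ} (hal : al ∈ JJ) (h : P04K al R c0 T C2 C)
    (da : Differentiable ℂ (a1f al)) (dt : Differentiable ℂ (t1f al))
    {t : ℂ} (ht : t ∈ band 1 R) {w : ℂ} (hw : ‖w‖ ≤ T / 2) :
    ‖P04F al t w - w ^ 2 * P04G al t‖ ≤ 64 * C / T ^ 3 * ‖w‖ ^ 3 := by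
  have htb : t ∈ band 1 (R + 1) := ⟨ht.1, by linarith [ht.2]⟩
  obtain ⟨K, hK⟩ := P04_F_deriv hal h ht
  have hT := h.t0
  have h0 : deriv (P04F al t) 0 = P04Phi al t 0 := by
    have := hK 0 (by rw [norm_zero]; positivity)
    rw [norm_zero] at this
    have h2 : ‖deriv (P04F al t) 0 - P04Phi al t 0‖ ≤ 0 := by simpa using this
    exact sub_eq_zero.1 (norm_eq_zero.1 (le_antisymm h2 (norm_nonneg _)))
  have h1 := P04_Phi_deriv hal h da dt htb
  have h2 : HasDerivAt (fun w => deriv (P04F al t) w - P04Phi al t w) 0 0 := by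
    refine P04_of_quad (r := T / 2) (K := K) (by positivity) fun w hw => ?_
    rw [h0, sub_self, mul_zero, sub_zero, sub_zero]
    exact hK w hw
  have h3 : HasDerivAt (deriv (P04F al t)) (2 * P04G al t) 0 := by
    have := h2.add h1
    rw [zero_add] at this
    refine this.congr_of_eventuallyEq (Eventually.of_forall fun w => ?_)
    simp
  refine P04_taylor hT (h.an t htb).1 (h.an t htb).2 (P04_F_zero hal ht.1) ?_ h3.deriv hw
  rw [h0, P04_Phi_zero hal ht.1]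

/-- `F(w) = SS al (Vs + w v1) (w mu1) (Z1 al w) (X1 al w) t` is analytic and bounded for `|w| < c` (`line_analytic`); `F 0 = 0` (circle values),
`F' 0 = 0` (`first_order`; at the circle `e = 0`, `V = Vs`); `F'(w) = DS0(Γ_w)[A,B] + v1 et + mu1 Yf + bracket(w)`, where
`bracket = df B ez - df A ex - Det (V - V0)` is `O(w^2)`: by `e_bound` on a slightly larger band, since `SS(w), V(w) - V0(w) = O(w^2)` there (Cauchy/`quad`
with `first_order`). So `F''(0)` = derivative of `DS0(Γ_w)[A,B] + v1 et + mu1 Yf` at `0`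
= [`DS0_line_value`] `+ v1 Det + mu1 (Yz df B - Yx df A)`. Using `plane_shift` (`h = Det - c p`, `2 S0 a - v1 = pi sin al h`) and
`L0 a = lam_2 PL 2 + lam_0 c0c/2`, `(lam_0 c0c/sin al) p + v1 Det = v1 h`, one gets
`F''(0)/2 = η S0 (a^2) - (pi/2) sin al h^2 + (1/2) L0 r + lam_2 H`, `r = 6a^2 - 4a'τ + 2τ^2`,
`H = (p/sin al) PL 2 + (q/sin al) (PL 2)' - (1/sin al)(Yz df B - Yx df A)`. Then `taylor_three`. -/
theorem second_raw (R : ℝ) (hR : 3 ≤ R) : ∃ C c1 : ℝ, 1 ≤ C ∧ 0 < c1 ∧ ∀ al ∈ JJ, ∀ w : ℂ, ‖w‖ ≤ c1 → ∀ t ∈ band 1 R,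
    ‖SS al ((Vs al : ℂ) + w * (v1c al : ℂ)) (w * (mu1c al : ℂ)) (Z1 al w) (X1 al w) t -
      w ^ 2 * ((Real.sin al : ℂ) * (Real.cos al : ℂ) * S0 al (fun z => a1f al z ^ 2) t -
        (Real.pi : ℂ) / 2 * (Real.sin al : ℂ) * ((h4c al : ℂ) * PL 2 t + (h00c al : ℂ)) ^ 2 +
        1/2 * L0 al (fun z => 6 * a1f al z ^ 2 - 4 * deriv (a1f al) z * t1f al z + 2 * t1f al z ^ 2) t +
        (lam al 2 : ℂ) * ((cos t * df al (Bf1 al) t - sin t * df al (Af1 al) t) / (Real.sin al : ℂ) * PL 2 t +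
          (- sin t * df al (Bf1 al) t - cos t * df al (Af1 al) t) / (Real.sin al : ℂ) * deriv (PL 2) t -
          (Yz al cos sin t * df al (Bf1 al) t - Yx al cos sin t * df al (Af1 al) t) / (Real.sin al : ℂ)))‖ ≤ C * ‖w‖ ^ 3 := by
  obtain ⟨c0, T, C2, C, H⟩ := P04_const R hR
  obtain ⟨C1, hC1, H1⟩ := dir1_props R (by linarith)
  have hal0 : al0 ∈ JJ := ⟨by linarith, by linarith⟩
  have hT := (H al0 hal0).t0
  refine ⟨max 1 (64 * C / T ^ 3), T / 2, le_max_left _ _, by positivity, ?_⟩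
  intro al hal w hw t ht
  obtain ⟨-, -, -, -, -, -, -, -, da, dt⟩ := H1 al hal
  have h1 := P04_main hal (H al hal) da dt ht hw
  exact h1.trans (mul_le_mul_of_nonneg_right (le_max_right _ _) (by positivity))

/-! ### Legendre coefficients of the second order term -/

/-- a combination of the first five Legendre functions -/
def P04five (a0 a1 a2 a3 a4 : ℝ) (z : ℂ) : ℂ :=
  (a0 : ℂ) * PL 0 z + (a1 : ℂ) * PL 1 z + (a2 : ℂ) * PL 2 z + (a3 : ℂ) * PL 3 z + (a4 : ℂ) * PL 4 z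

theorem P04_five_lin (T : (ℂ → ℂ) → ℂ → ℂ) (t : ℂ)
    (hlin : ∀ f g : ℂ → ℂ, Continuous f → Continuous g → ∀ p q : ℂ,
      T (fun z => p * f z + q * g z) t = p * T f t + q * T g t)
    (s : ℕ → ℝ) (hs : ∀ n : ℕ, T (PL n) t = (s n : ℂ) * PL n t) (a0 a1 a2 a3 a4 : ℝ) :
    T (P04five a0 a1 a2 a3 a4) t =
      P04five (s 0 * a0) (s 1 * a1) (s 2 * a2) (s 3 * a3) (s 4 * a4) t := by
  have hc : ∀ n, Continuous (PL n) := fun n => (PL_diff n).continuous
  have e1 : P04five a0 a1 a2 a3 a4 = fun z => 1 * (fun z => 1 * (fun z => 1 * (fun z => (a0:ℂ) * PL 0 z +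
      (a1:ℂ) * PL 1 z) z + (a2:ℂ) * PL 2 z) z + (a3:ℂ) * PL 3 z) z + (a4:ℂ) * PL 4 z := by
    funext z
    simp only [P04five]
    ring
  have c1 : Continuous (fun z => (a0:ℂ) * PL 0 z + (a1:ℂ) * PL 1 z) :=
    ((hc 0).const_mul _).add ((hc 1).const_mul _)
  have c2 : Continuous (fun z => 1 * (fun z => (a0:ℂ) * PL 0 z +
      (a1:ℂ) * PL 1 z) z + (a2:ℂ) * PL 2 z) := (c1.const_mul 1).add ((hc 2).const_mul _)
  have c3 : Continuous (fun z => 1 * (fun z => 1 * (fun z => (a0:ℂ) * PL 0 z +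
      (a1:ℂ) * PL 1 z) z + (a2:ℂ) * PL 2 z) z + (a3:ℂ) * PL 3 z) :=
    (c2.const_mul 1).add ((hc 3).const_mul _)
  rw [e1, hlin _ _ c3 (hc 4), hlin _ _ c2 (hc 3), hlin _ _ c1 (hc 2), hlin _ _ (hc 0) (hc 1),
    hs, hs, hs, hs, hs]
  simp only [P04five]
  push_cast
  ring

/-- the coefficients of `a ^ 2` -/
theorem P04_a_sq (al : ℝ) : (fun z => a1f al z ^ 2) =
    P04five (1/9 + c0c al ^ 2 / 4) (100/693) (162/1001 + c0c al) (20/99) (490/1287) := by
  funext z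
  have h := PL_two_sq z
  simp only [a1f, P04five, P04_PL_zero]
  push_cast
  linear_combination h

theorem P04_h_sq (p q : ℝ) (z : ℂ) : ((p : ℂ) * PL 2 z + (q : ℂ)) ^ 2 =
    P04five (1/9 * p ^ 2 + q ^ 2) (100/693 * p ^ 2) (162/1001 * p ^ 2 + 2 * p * q) (20/99 * p ^ 2)
      (490/1287 * p ^ 2) z := by
  have h := PL_two_sq z
  simp only [P04five, P04_PL_zero]
  push_cast
  linear_combination (p : ℂ) ^ 2 * h

/-- the coefficients of `- 4 a' τ + 2 τ ^ 2` -/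
def P04w (k1 k2 : ℝ) : ℝ × ℝ × ℝ × ℝ × ℝ :=
  let u1 : ℝ := 5/2 * k1 + 2 * k1 ^ 2
  let u2 : ℝ := 5/2 * k2 + 35/4 * k1 + 4 * k1 * k2
  let u3 : ℝ := 35/4 * k2 + 2 * k2 ^ 2
  (8/15 * u1 - 16/105 * u2 + 32/63 * u3, 8/21 * u1 + 16/21 * u2 + 32/693 * u3,
    - 32/35 * u1 + 192/385 * u2 + 128/1001 * u3, - 256/231 * u2 + 2048/3465 * u3,
    - 8192/6435 * u3)

theorem P04_w (al : ℝ) (k1 k2 : ℝ) (h1 : k1 = tk al (5/16) 1) (h2 : k2 = tk al (35/64) 2) (z : ℂ) :
    - 4 * deriv (a1f al) z * t1f al z + 2 * t1f al z ^ 2 =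
      P04five (P04w k1 k2).1 (P04w k1 k2).2.1 (P04w k1 k2).2.2.1 (P04w k1 k2).2.2.2.1
        (P04w k1 k2).2.2.2.2 z := by
  have hs2 : sin (2 * z) = 2 * sin z * cos z := Complex.sin_two_mul z
  have hs4 : sin (4 * z) = 2 * (2 * sin z * cos z) * (2 * cos z ^ 2 - 1) := by
    rw [show (4 : ℂ) * z = 2 * (2 * z) by ring, Complex.sin_two_mul (2 * z), Complex.sin_two_mul z,
      Complex.cos_two_mul]
  have hss : sin z ^ 2 = 1 - cos z ^ 2 := by
    rw [eq_sub_iff_add_eq]; exact sin_sq_add_cos_sq z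
  rw [(P02_da1 al z).deriv]
  simp only [P02_da, t1f, P04five, P04_PL_zero, ← h1, ← h2, P04w, P02_PL3, P02_PL4, PL_two, PL_one,
    hs2, hs4]
  push_cast
  have key : ∀ s c : ℂ, s ^ 2 = 1 - c ^ 2 → ∀ k1 k2 : ℂ,
      -4 * (-(5/8 * (2 * s * c)) - 35/16 * (2 * (2 * s * c) * (2 * c ^ 2 - 1))) *
        (k1 * (2 * s * c) + k2 * (2 * (2 * s * c) * (2 * c ^ 2 - 1))) +
      2 * (k1 * (2 * s * c) + k2 * (2 * (2 * s * c) * (2 * c ^ 2 - 1))) ^ 2 =
      (1 - c ^ 2) * (-4 * (-(5/8 * (2 * c)) - 35/16 * (2 * (2 * c) * (2 * c ^ 2 - 1))) *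
        (k1 * (2 * c) + k2 * (2 * (2 * c) * (2 * c ^ 2 - 1))) +
      2 * (k1 * (2 * c) + k2 * (2 * (2 * c) * (2 * c ^ 2 - 1))) ^ 2) := by
    intro s c h k1 k2
    rw [← h]
    ring
  rw [key (sin z) (cos z) hss]
  ring

/-- the bracket multiplying `lam_2` vanishes: it is the homogeneity of `Y` -/
theorem P04_H_zero {al : ℝ} (hal : al ∈ JJ) (t A B : ℂ) :
    (cos t * B - sin t * A) / (Real.sin al : ℂ) * PL 2 t +
          (- sin t * B - cos t * A) / (Real.sin al : ℂ) * deriv (PL 2) t -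
          (Yz al cos sin t * B - Yx al cos sin t * A) / (Real.sin al : ℂ) = 0 := by
  have hsin := G00_sin_pos hal
  have hs0 : (Real.sin al : ℂ) ≠ 0 := by exact_mod_cast hsin.ne'
  obtain ⟨cnz, cnx, cmz, cmx, cdz, cdx, cet, cell, cnu, cxi, cchip, cchim, cY, cchi, com⟩ :=
    circle_chord al hsin t
  have hd : deriv (PL 2) t = - sin t * P4d (cos t) := by
    have e : PL 2 = fun z => (35 * cos z ^ 4 - 30 * cos z ^ 2 + 3) / 8 := funext PL_two
    have h1 := Complex.hasDerivAt_cos t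
    have h2 := ((((h1.pow 4).const_mul 35).sub ((h1.pow 2).const_mul 30)).add_const 3).div_const 8
    rw [e]
    refine (h2.congr_deriv ?_).deriv
    unfold P4d
    push_cast
    ring
  have hz : nz al sin t / ell al cos sin t = cos t := by
    rw [cnz, cell]; field_simp
  have hx : nx al cos t / ell al cos sin t = sin t := by
    rw [cnx, cell]; field_simp
  have hss : sin t ^ 2 = 1 - cos t ^ 2 := by
    rw [eq_sub_iff_add_eq]; exact sin_sq_add_cos_sq t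
  have hp : PL 2 t = P4 (cos t) := PL_two t
  unfold Yz Yx
  rw [hz, hx, hd, hp, ← hss]
  field_simp
  ring

theorem P04_five_add (a0 a1 a2 a3 a4 b0 b1 b2 b3 b4 : ℝ) (p q : ℝ) (z : ℂ) :
    (p : ℂ) * P04five a0 a1 a2 a3 a4 z + (q : ℂ) * P04five b0 b1 b2 b3 b4 z =
      P04five (p * a0 + q * b0) (p * a1 + q * b1) (p * a2 + q * b2) (p * a3 + q * b3)
        (p * a4 + q * b4) z := by
  simp only [P04five]
  push_cast
  ring

/-- coefficient sequence with five entries -/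
def P04c5 (a0 a1 a2 a3 a4 : ℝ) (n : ℕ) : ℝ :=
  if n = 0 then a0 else if n = 1 then a1 else if n = 2 then a2 else if n = 3 then a3 else
    if n = 4 then a4 else 0

theorem P04_c5_zero (a0 a1 a2 a3 a4 : ℝ) {n : ℕ} (hn : n ∉ Finset.range 5) :
    P04c5 a0 a1 a2 a3 a4 n = 0 := by
  rw [Finset.mem_range, not_lt] at hn
  unfold P04c5
  rw [if_neg (by omega), if_neg (by omega), if_neg (by omega), if_neg (by omega), if_neg (by omega)]

theorem P04_c5_sum (a0 a1 a2 a3 a4 : ℝ) (z : ℂ) :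
    ∑' n, ((P04c5 a0 a1 a2 a3 a4 n : ℝ) : ℂ) * PL n z = P04five a0 a1 a2 a3 a4 z := by
  rw [tsum_eq_sum (s := Finset.range 5) (fun n hn => by
    rw [P04_c5_zero _ _ _ _ _ hn, ofReal_zero, zero_mul])]
  simp [Finset.sum_range_succ, P04c5, P04five]

/-- Legendre coefficients of the second order term: `S0 (a^2) = ∑ σ_n [a^2]_n PL n` with `[a^2]_2 = 162/1001 + c0c` (`PL_two_sq`), `σ_2 = pi J4`;
`[h^2]_2 = h4^2 162/1001 + 2 h4 h00`; `L0 r = ∑ lam_n r_n PL n` for the even trigonometric polynomial `r` (`legOf` for the constant family, `L0_PL`),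
`|r_2| ≤ C`; `H` is an even `pi`-periodic real entire function, bounded on the strip, so it has Legendre coefficients with `|H_2| ≤ C`. Hence
`g_2 = q4m + lam_2 (r_2/2 + H_2)`. -/
theorem second_order (R : ℝ) (hR : 3 ≤ R) : ∃ C c1 : ℝ, 1 ≤ C ∧ 0 < c1 ∧ ∀ al ∈ JJ, ∃ g : ℕ → ℝ,
    (∀ r' : ℝ, 1 ≤ r' → r' < R → Summable (fun n : ℕ => |g n| * WW n r')) ∧ |g 2 - q4m al| ≤ C * |lam al 2| ∧
    ∀ w : ℝ, |w| ≤ c1 → ∀ t ∈ band 1 R,
    ‖SS al ((Vs al : ℂ) + (w : ℂ) * (v1c al : ℂ)) ((w : ℂ) * (mu1c al : ℂ)) (Z1 al w) (X1 al w) t -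
      (w : ℂ) ^ 2 * ∑' n, ((g n : ℝ) : ℂ) * PL n t‖ ≤ C * |w| ^ 3 := by
  obtain ⟨C, c1, hC, hc1, H⟩ := second_raw R hR
  refine ⟨max C 2000, c1, hC.trans (le_max_left _ _), hc1, fun al hal => ?_⟩
  obtain ⟨sg, hsg, hsg0, hsg2⟩ := S0_PL hal
  set k1 := tk al (5/16) 1 with hk1
  set k2 := tk al (35/64) 2 with hk2
  -- coefficients of `a ^ 2`, `h ^ 2`, `r`
  set w0 := (P04w k1 k2).1 with hw0
  set w1 := (P04w k1 k2).2.1 with hw1
  set w2 := (P04w k1 k2).2.2.1 with hw2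
  set w3 := (P04w k1 k2).2.2.2.1 with hw3
  set w4 := (P04w k1 k2).2.2.2.2 with hw4
  set η : ℝ := Real.sin al * Real.cos al with hη
  set κ : ℝ := - (Real.pi / 2 * Real.sin al) with hκ
  set p := h4c al with hp
  set q := h00c al with hq
  set A0 : ℝ := 1/9 + c0c al ^ 2 / 4 with hA0
  set A2 : ℝ := 162/1001 + c0c al with hA2
  set g0 : ℝ := (η * (sg 0 * A0) + κ * (1/9 * p ^ 2 + q ^ 2)) + lam al 0 * (6 * A0 + w0) / 2 with hg0
  set g1 : ℝ := (η * (sg 1 * (100/693)) + κ * (100/693 * p ^ 2)) + lam al 1 * (6 * (100/693) + w1) / 2 with hg1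
  set g2 : ℝ := (η * (sg 2 * A2) + κ * (162/1001 * p ^ 2 + 2 * p * q)) + lam al 2 * (6 * A2 + w2) / 2 with hg2
  set g3 : ℝ := (η * (sg 3 * (20/99)) + κ * (20/99 * p ^ 2)) + lam al 3 * (6 * (20/99) + w3) / 2 with hg3
  set g4 : ℝ := (η * (sg 4 * (490/1287)) + κ * (490/1287 * p ^ 2)) + lam al 4 * (6 * (490/1287) + w4) / 2 with hg4
  have hG : ∀ t : ℂ, 1 < t.im → P04G al t = P04five g0 g1 g2 g3 g4 t := by
    intro t ht
    have hS := P04_five_lin (S0 al) t (fun f g hf hg p q => P04_S0_lin hal hf hg p q ht) sg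
      (fun n => hsg n t ht) A0 (100/693) A2 (20/99) (490/1287)
    have hr : (fun z => 6 * a1f al z ^ 2 - 4 * deriv (a1f al) z * t1f al z + 2 * t1f al z ^ 2) =
        P04five (6 * A0 + w0) (6 * (100/693) + w1) (6 * A2 + w2) (6 * (20/99) + w3)
          (6 * (490/1287) + w4) := by
      funext z
      have e1 := P04_w al k1 k2 hk1 hk2 z
      have e2 := congrFun (P04_a_sq al) z
      have e3 := P04_five_add A0 (100/693) A2 (20/99) (490/1287) w0 w1 w2 w3 w4 6 1 z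
      rw [← e1, ← e2] at e3
      simp only [one_mul] at e3
      rw [← e3]
      push_cast
      ring
    have hL := P04_five_lin (L0 al) t (fun f g hf hg p q => P04_L0_lin hal hf hg p q ht) (lam al)
      (fun n => L0_PL hal n ht) (6 * A0 + w0) (6 * (100/693) + w1) (6 * A2 + w2) (6 * (20/99) + w3)
          (6 * (490/1287) + w4)
    unfold P04G
    rw [P04_H_zero hal, mul_zero, add_zero, P04_a_sq, hr, hS, hL, P04_h_sq]
    simp only [P04five, hg0, hg1, hg2, hg3, hg4, hη, hκ]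
    push_cast
    ring
  refine ⟨P04c5 g0 g1 g2 g3 g4, ?_, ?_, ?_⟩
  · intro r' _ _
    apply summable_of_ne_finset_zero (s := Finset.range 5)
    intro n hn
    rw [P04_c5_zero _ _ _ _ _ hn, abs_zero, zero_mul]
  · have e : P04c5 g0 g1 g2 g3 g4 2 = g2 := by simp [P04c5]
    have e2 : g2 - q4m al = lam al 2 * ((6 * A2 + w2) / 2) := by
      rw [hg2, hsg2, q4m, hη, hκ, hA2, hp, hq]
      ring
    rw [e, e2, abs_mul, mul_comm]
    apply mul_le_mul_of_nonneg_right _ (abs_nonneg _)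
    refine le_trans ?_ (le_max_right _ _)
    have b1 : |k1| ≤ 10 := P02_tk hal (by norm_num) (by norm_num) (by
      have := P02_sin2 hal
      rw [show (2 : ℝ) * 1 * al = 2 * al by ring, abs_of_pos (by linarith)]; exact this)
    have b2 : |k2| ≤ 10 := P02_tk hal (by norm_num) (by norm_num) (by
      have := P02_sin4 hal
      rw [show (2 : ℝ) * 2 * al = 4 * al by ring, abs_of_neg (by linarith)]; linarith)
    have b3 := P02_c0 hal
    have c1 := abs_le.1 b1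
    have c2 := abs_le.1 b2
    have c3 := abs_le.1 b3
    have s1 : k1 ^ 2 ≤ 100 := by nlinarith [sq_abs k1, abs_nonneg k1]
    have s2 : k2 ^ 2 ≤ 100 := by nlinarith [sq_abs k2, abs_nonneg k2]
    have s3 : |k1 * k2| ≤ 100 := by
      rw [abs_mul]
      have := mul_le_mul b1 b2 (abs_nonneg _) (by norm_num : (0:ℝ) ≤ 10)
      linarith
    have s4 := abs_le.1 s3
    have s5 := sq_nonneg k1
    have s6 := sq_nonneg k2
    rw [hw2, hA2]
    simp only [P04w]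
    rw [abs_le]
    constructor <;> linarith
  · intro w hw t ht
    rw [P04_c5_sum, ← hG t ht.1]
    have h1 := H al hal (w : ℂ) (by rw [norm_real]; exact hw) t ht
    have e : ‖(w : ℂ)‖ = |w| := by rw [norm_real, Real.norm_eq_abs]
    rw [e] at h1
    refine (le_of_eq ?_).trans (h1.trans (mul_le_mul_of_nonneg_right (le_max_left _ _) (by positivity)))
    rfl

end FB
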