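import Pool.Agent.H48.FB.PDefs
import Pool.Agent.H48.FB.H05

/-! P05: signs of the coefficients near `al0`. -/

open Set Filter Topology

noncomputable section

namespace FB

theorem p05_al0_mem : al0 ∈ JJ := by
  unfold JJ
  constructor <;> linarith

/-- closed form of `q4m` -/
def p05Q (al : ℝ) : ℝ := Real.pi * Real.sin al * (Real.cos al * J4 al * (162/1001 + c0c al) -
  2 * J4 al ^ 2 / Real.sin al ^ 2 * (162/1001) - J4 al * c0c al / Real.cos al)

theorem p05_h00c {al : ℝ} (hal : al ∈ JJ) : h00c al = c0c al * Real.sin al / (2 * Real.cos al) := by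
  obtain ⟨h1, h2, h3, h4, h5, h6, h7⟩ := JJ_bounds hal
  have hs : Real.sin al ≠ 0 := by
    have : 0 < Real.sin al := by linarith
    exact this.ne'
  have hc : Real.cos al ≠ 0 := by
    have : 0 < Real.cos al := by linarith
    exact this.ne'
  have hpi : Real.pi ≠ 0 := Real.pi_ne_zero
  have hsc : Real.sin al ^ 2 = 1 - Real.cos al ^ 2 := by
    have := Real.sin_sq_add_cos_sq al
    linarith
  unfold h00c v1c
  rw [lam_zero (by linarith) h3]
  field_simp
  rw [hsc]
  ring

theorem p05_q4m {al : ℝ} (hal : al ∈ JJ) : q4m al = p05Q al := by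
  obtain ⟨h1, h2, h3, h4, h5, h6, h7⟩ := JJ_bounds hal
  have hs : Real.sin al ≠ 0 := by
    have : 0 < Real.sin al := by linarith
    exact this.ne'
  have hc : Real.cos al ≠ 0 := by
    have : 0 < Real.cos al := by linarith
    exact this.ne'
  unfold q4m p05Q
  rw [p05_h00c hal]
  unfold h4c
  field_simp
  ring

theorem p05_J4_cont : Continuous J4 := by
  unfold J4
  fun_prop

theorem p05_c0c_cont : ContinuousOn c0c JJ := by
  unfold c0c
  apply ContinuousOn.div
  · have := p05_J4_cont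
    fun_prop
  · fun_prop
  · intro x hx
    have := (JJ_bounds hx).2.2.2.2.2.1
    have h : 0 < Real.sin x := by linarith
    positivity

theorem p05_Q_cont : ContinuousOn p05Q JJ := by
  unfold p05Q
  have hJ : ContinuousOn J4 JJ := p05_J4_cont.continuousOn
  have hc := p05_c0c_cont
  have hs : ∀ x ∈ JJ, Real.sin x ^ 2 ≠ 0 := by
    intro x hx
    have := (JJ_bounds hx).2.2.2.2.2.1
    have h : 0 < Real.sin x := by linarith
    positivity
  have hcos : ∀ x ∈ JJ, Real.cos x ≠ 0 := by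
    intro x hx
    have := (JJ_bounds hx).2.2.2.1
    have h : 0 < Real.cos x := by linarith
    positivity
  have e1 : ContinuousOn (fun al => 2 * J4 al ^ 2 / Real.sin al ^ 2) JJ :=
    ContinuousOn.div (by fun_prop) (by fun_prop) hs
  have e2 : ContinuousOn (fun al => J4 al * c0c al / Real.cos al) JJ :=
    ContinuousOn.div (by fun_prop) (by fun_prop) hcos
  fun_prop

theorem p05_Q_al0 : 0 < p05Q al0 := by
  obtain ⟨h1, h2, h3, h4, h5, h6⟩ := al0_bounds
  have hpi := Real.pi_pos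
  have hc2 : Real.cos al0 ^ 2 = 1 / 7 := by
    have := Real.sin_sq_add_cos_sq al0
    linarith
  have hcpos : 0 < Real.cos al0 := by
    rw [h3]; positivity
  have hJ : J4 al0 = - (3 / 14) * Real.cos al0 := by
    unfold J4
    rw [h4]
    ring
  have hc0 : c0c al0 = 9 / 128 := by
    unfold c0c
    have e : Real.sin al0 ^ 4 = 36 / 49 := by
      have : Real.sin al0 ^ 4 = (Real.sin al0 ^ 2) ^ 2 := by ring
      rw [this, h4]; norm_num
    rw [e, hJ, h4]
    have : -2 * Real.cos al0 * (9 / 64) * (2 * (-(3 / 14) * Real.cos al0) - Real.cos al0 * (6 / 7)) / (36 / 49)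
      = (-2 * (9 / 64) * (2 * (-(3 / 14)) - 6 / 7) / (36 / 49)) * Real.cos al0 ^ 2 := by ring
    rw [this, hc2]
    norm_num
  unfold p05Q
  apply mul_pos (mul_pos hpi h5)
  rw [hc0, hJ, h4]
  have e1 : Real.cos al0 * (-(3 / 14) * Real.cos al0) * (162 / 1001 + 9 / 128) =
    (-(3 / 14) * (162 / 1001 + 9 / 128)) * Real.cos al0 ^ 2 := by ring
  have e2 : 2 * (-(3 / 14) * Real.cos al0) ^ 2 / (6 / 7) * (162 / 1001) =
    (2 * (3 / 14) ^ 2 / (6 / 7) * (162 / 1001)) * Real.cos al0 ^ 2 := by ring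
  have e3 : -(3 / 14) * Real.cos al0 * (9 / 128) / Real.cos al0 = -(3 / 14) * (9 / 128) := by
    field_simp
  rw [e1, e2, e3, hc2]
  norm_num

/-- at `al0`: `c = 1/sqrt 7`, `s = 6/7`: `J4 = - 3c/14`, `c0c = 9/128`, `h4 = 2 J4/sin al`, `v1c = - (pi/2)(1-c)^2 c0c/c`,
`sin al h00 = (1-c) c0c + (1-c)^2 c0c/(2c) = c0c (1 - c^2)/(2c)`, so `h4 h00 = J4 c0c s/(c s) = ...`: the value is
`q4m al0 = pi sin al0 (405/25088 - (9/784)(648/1001 + 9/32)) = pi sin al0 * 0.00548.. > 0`. `q4m` is continuous on `JJ` (closed forms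
`lam_zero`), so it is `≥ c2 > 0` near `al0`, and bounded. -/
theorem q4m_pos : ∃ c2 C d : ℝ, 0 < c2 ∧ 1 ≤ C ∧ 0 < d ∧ ∀ al ∈ JJ, |al - al0| ≤ d → c2 ≤ q4m al ∧ q4m al ≤ C := by
  have hcont := p05_Q_cont
  have hpos := p05_Q_al0
  obtain ⟨C, hC⟩ := (isCompact_Icc : IsCompact (Icc (al0 - 1/100) (al0 + 1/100))).exists_bound_of_continuousOn hcont
  have h2 := Metric.continuousOn_iff.1 hcont al0 p05_al0_mem (p05Q al0 / 2) (by linarith)
  obtain ⟨δ, hδ, hδ2⟩ := h2
  refine ⟨p05Q al0 / 2, max 1 C, δ / 2, by linarith, le_max_left _ _, by linarith, ?_⟩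
  intro al hal hd
  rw [p05_q4m hal]
  constructor
  · have := hδ2 al hal (by rw [Real.dist_eq]; linarith)
    rw [Real.dist_eq, abs_lt] at this
    linarith [this.1]
  · have := hC al hal
    rw [Real.norm_eq_abs] at this
    exact (le_abs_self _).trans (this.trans (le_max_right _ _))

theorem p05_mu1c {al : ℝ} (hal : al ∈ JJ) :
    mu1c al = 7 * Real.pi / 24 * Real.sin al ^ 4 * (Real.sin (al - al0) * Real.sin (al + al0)) := by
  obtain ⟨h1, h2, h3, h4, h5, h6, h7⟩ := JJ_bounds hal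
  obtain ⟨a1, a2, a3, a4, a5, a6⟩ := al0_bounds
  have hs : Real.sin al ≠ 0 := by
    have : 0 < Real.sin al := by linarith
    exact this.ne'
  have e : Real.sin (al - al0) * Real.sin (al + al0) = Real.sin al ^ 2 - 6 / 7 := by
    rw [Real.sin_sub, Real.sin_add]
    have q1 : Real.cos al0 ^ 2 = 1 / 7 := by
      have := Real.sin_sq_add_cos_sq al0
      linarith
    have q2 : Real.cos al ^ 2 = 1 - Real.sin al ^ 2 := by
      have := Real.sin_sq_add_cos_sq al
      linarith
    have : (Real.sin al * Real.cos al0 - Real.cos al * Real.sin al0) *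
      (Real.sin al * Real.cos al0 + Real.cos al * Real.sin al0) =
      Real.sin al ^ 2 * Real.cos al0 ^ 2 - Real.cos al ^ 2 * Real.sin al0 ^ 2 := by ring
    rw [this, q1, q2, a4]
    ring
  rw [e]
  unfold mu1c
  rw [lam_two (by linarith) h3]
  field_simp
  ring

/-- `mu1c = - 2 lam_2/sin al = - (pi/4) s^2 (1 - 7s/6)`, `s = sin^2 al`, `1 - 7 s/6 = -(7/6)(s - 6/7)`,
`s - 6/7 = sin^2 al - sin^2 al0 = sin(al - al0) sin(al + al0)`. -/
theorem mu1c_bd : ∃ c3 C : ℝ, 0 < c3 ∧ 1 ≤ C ∧ ∀ al ∈ JJ, al0 ≤ al → c3 * (al - al0) ≤ mu1c al ∧ mu1c al ≤ C * (al - al0) ∧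
    |lam al 2| ≤ C * (al - al0) := by
  refine ⟨1/5, 1, by norm_num, le_refl _, ?_⟩
  intro al hal hle
  obtain ⟨h1, h2, h3, h4, h5, h6, h7⟩ := JJ_bounds hal
  obtain ⟨b1, b2, b3, b4, b5, b6, b7⟩ := JJ_bounds p05_al0_mem
  have hx0 : 0 ≤ al - al0 := by linarith
  have hx1 : al - al0 ≤ 1 / 100 := by
    have := hal.2
    linarith
  have hpi := Real.pi_gt_three
  have hpi2 := Real.pi_lt_d2
  have hsx : 2 / Real.pi * (al - al0) ≤ Real.sin (al - al0) := Real.mul_le_sin hx0 (by linarith)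
  have hsx2 : Real.sin (al - al0) ≤ al - al0 := Real.sin_le hx0
  have hsx0 : 0 ≤ Real.sin (al - al0) := le_trans (by positivity) hsx
  have hsp : 66 / 100 ≤ Real.sin (al + al0) := by
    rw [Real.sin_add]
    have q1 : 0.92 * 0.36 ≤ Real.sin al * Real.cos al0 := by
      apply mul_le_mul <;> linarith
    have q2 : 0.36 * 0.92 ≤ Real.cos al * Real.sin al0 := by
      apply mul_le_mul <;> linarith
    linarith
  have hsp1 : Real.sin (al + al0) ≤ 1 := Real.sin_le_one _
  have hs4 : (0.92 : ℝ) ^ 4 ≤ Real.sin al ^ 4 := by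
    apply pow_le_pow_left₀ (by norm_num) h6.le
  have hs41 : Real.sin al ^ 4 ≤ 1 := by
    apply pow_le_one₀ (by linarith) (Real.sin_le_one _)
  have hmu := p05_mu1c hal
  have hlow : 1 / 5 * (al - al0) ≤ mu1c al := by
    rw [hmu]
    have k1 : 2 / Real.pi * (al - al0) * (66 / 100) ≤ Real.sin (al - al0) * Real.sin (al + al0) := by
      apply mul_le_mul hsx hsp (by norm_num) hsx0
    have k2 : 7 * Real.pi / 24 * 0.92 ^ 4 * (2 / Real.pi * (al - al0) * (66 / 100)) ≤
        7 * Real.pi / 24 * Real.sin al ^ 4 * (Real.sin (al - al0) * Real.sin (al + al0)) := by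
      apply mul_le_mul _ k1 (by positivity) (by positivity)
      apply mul_le_mul_of_nonneg_left hs4 (by positivity)
    refine le_trans ?_ k2
    have k3 : 7 * Real.pi / 24 * 0.92 ^ 4 * (2 / Real.pi * (al - al0) * (66 / 100)) =
      (7 / 24 * 0.92 ^ 4 * 2 * (66 / 100)) * (al - al0) := by
      field_simp
    rw [k3]
    apply mul_le_mul_of_nonneg_right _ hx0
    norm_num
  have hup : mu1c al ≤ 1 * (al - al0) := by
    rw [hmu]
    have k1 : Real.sin (al - al0) * Real.sin (al + al0) ≤ (al - al0) * 1 := by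
      apply mul_le_mul hsx2 hsp1 (by linarith) hx0
    have k2 : 7 * Real.pi / 24 * Real.sin al ^ 4 * (Real.sin (al - al0) * Real.sin (al + al0)) ≤
        7 * Real.pi / 24 * 1 * ((al - al0) * 1) := by
      apply mul_le_mul _ k1 (mul_nonneg hsx0 (by linarith)) (by positivity)
      apply mul_le_mul_of_nonneg_left hs41 (by positivity)
    refine le_trans k2 ?_
    have : 7 * Real.pi / 24 ≤ 1 := by linarith
    nlinarith
  refine ⟨hlow, hup, ?_⟩
  have hmupos : 0 ≤ mu1c al := le_trans (by positivity) hlow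
  have hs : Real.sin al ≠ 0 := by
    have : 0 < Real.sin al := by linarith
    exact this.ne'
  have hl : lam al 2 = - (mu1c al * Real.sin al / 2) := by
    unfold mu1c
    field_simp
  rw [hl, abs_neg, abs_of_nonneg (by
    have : 0 ≤ Real.sin al := by linarith
    positivity)]
  have : mu1c al * Real.sin al ≤ mu1c al * 1 := mul_le_mul_of_nonneg_left (Real.sin_le_one _) hmupos
  linarith

end FB
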