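import Pool.Agent.H48.FB.O03
import Pool.Agent.H48.FB.O04
import Pool.Agent.H48.FB.P04
import Pool.Agent.H48.FB.P05

/-! O05: the approximate solutions of high order. -/

open Complex Set MeasureTheory Filter Topology

noncomputable section

namespace FB

theorem o05_WW_pos (n : ℕ) (r : ℝ) : 0 < WW n r := A10_WW_pos n r

theorem o05_WW_two {r : ℝ} (hr : 1 ≤ r) : 1 ≤ WW 2 r := by
  have h1 : WW 2 r = 35 / 128 * Real.exp (4 * r) := by
    rw [WW, show 2 * 2 = 4 by norm_num, A10_cc_four]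
    push_cast
    ring_nf
  rw [h1]
  have h2 : 4 * r + 1 ≤ Real.exp (4 * r) := Real.add_one_le_exp _
  linarith

theorem o05_pow {n : ℕ} : 1 ≤ (1 + 2 * (n:ℝ)) ^ ((7:ℝ)/2) :=
  Real.one_le_rpow (by
    have : (0:ℝ) ≤ n := Nat.cast_nonneg n
    linarith) (by norm_num)

/-- a Legendre coefficient is bounded by the supremum of the function -/
theorem o05_coef : ∃ C : ℝ, 0 < C ∧ ∀ R0 : ℝ, 4 ≤ R0 → ∀ k : ℕ → ℝ,
    (∀ r' : ℝ, 1 ≤ r' → r' < R0 → Summable (fun n : ℕ => |k n| * WW n r')) → ∀ B : ℝ, 0 ≤ B →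
    (∀ t ∈ band 1 R0, ‖∑' n, ((k n : ℝ) : ℂ) * PL n t‖ ≤ B) → |k 2| ≤ C * B := by
  obtain ⟨C, hC, H⟩ := legOf
  refine ⟨C, hC, fun R0 hR0 k hk B hB hF => ?_⟩
  obtain ⟨hfam, hsum, hsym, -⟩ := synthLeg (r := R0) (by linarith) (x := fun _ => k) (XM := fun n => |k n|)
    (fun n => continuous_const) (fun e n => le_rfl) (fun r' h1 h2 => hk r' (by linarith) h2)
  have hsub : band 1 R0 ⊆ strip R0 := band_subset (by linarith) le_rfl
  have e0 : EE := ⟨0, by simp⟩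
  have hev : EvenExt 1 R0 (fun z => ∑' n, ((k n : ℝ) : ℂ) * PL n z) := by
    refine EvenExt.of_strip (by linarith) (hfam.diff e0) ?_ (fun z hz => (hsym e0 z hz).1)
    intro z hz
    have hz' : z + (Real.pi : ℂ) ∈ strip R0 := add_real_mem_band hz Real.pi
    have h1 : (∑' n, ((k n : ℝ) : ℂ) * PL n (z + (Real.pi : ℂ) + (Real.pi : ℂ))) =
        ∑' n, ((k n : ℝ) : ℂ) * PL n (z + (Real.pi : ℂ)) := (hsym e0 _ hz').2.1
    have h2 : (∑' n, ((k n : ℝ) : ℂ) * PL n (z + (Real.pi : ℂ))) =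
        ∑' n, ((k n : ℝ) : ℂ) * PL n z := (hsym e0 _ hz).2.1
    have e : z + 2 * (Real.pi : ℂ) = z + (Real.pi : ℂ) + (Real.pi : ℂ) := by ring
    rw [e, h1, h2]
  obtain ⟨l, L, hlc, hlL, hLs, hls⟩ := H R0 B (by linarith) hB (fun _ z => ∑' n, ((k n : ℝ) : ℂ) * PL n z)
    (hfam.mono hsub) (fun e z hz => (hsym e z (hsub hz)).2.1) (fun _ => hev)
    (fun e z hz => by
      have hc : (starRingEnd ℂ) z ∈ strip R0 := conj_mem_strip (hsub hz)
      have h1 : (∑' n, ((k n : ℝ) : ℂ) * PL n (-(starRingEnd ℂ) z)) =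
        ∑' n, ((k n : ℝ) : ℂ) * PL n ((starRingEnd ℂ) z) := (hsym e _ hc).1
      have h2 : (∑' n, ((k n : ℝ) : ℂ) * PL n ((starRingEnd ℂ) z)) =
        (starRingEnd ℂ) (∑' n, ((k n : ℝ) : ℂ) * PL n z) := (hsym e _ (hsub hz)).2.2
      rw [h1, h2]) (fun e z hz => hF z hz)
  have huniq : l e0 = k := by
    refine leg_unique (b := R0) (by linarith) ?_ hk ?_
    · intro r hr1 hr2
      set ρ : ℝ := min 1 (R0 - r) with hρ
      have hρ0 : 0 < ρ := lt_min one_pos (by linarith)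
      obtain ⟨hs, -⟩ := hLs ρ r hρ0 (min_le_left _ _) hr1 (by
        have := min_le_right 1 (R0 - r)
        linarith)
      refine Summable.of_nonneg_of_le (fun n => mul_nonneg (abs_nonneg _) (o05_WW_pos n r).le) (fun n => ?_) hs
      have h1 : |l e0 n| * WW n r ≤ L n * WW n r := mul_le_mul_of_nonneg_right (hlL e0 n) (o05_WW_pos n r).le
      have h0 : 0 ≤ L n * WW n r := mul_nonneg ((abs_nonneg _).trans (hlL e0 n)) (o05_WW_pos n r).le
      have h2 := mul_le_mul_of_nonneg_right (o05_pow (n := n)) h0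
      linarith
    · intro z hz
      exact (hls e0 z hz).tsum_eq
  obtain ⟨hs, hb⟩ := hLs 1 1 one_pos le_rfl le_rfl (by linarith)
  have hnn : ∀ n : ℕ, 0 ≤ (1 + 2 * (n:ℝ)) ^ ((7:ℝ)/2) * (L n * WW n 1) := fun n =>
    mul_nonneg (by positivity) (mul_nonneg ((abs_nonneg _).trans (hlL e0 n)) (o05_WW_pos n 1).le)
  have h2 := (hs.le_tsum 2 (fun n _ => hnn n)).trans hb
  rw [Real.one_rpow, mul_one] at h2
  have h3 : |k 2| ≤ L 2 := by
    rw [← huniq]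
    exact hlL e0 2
  have hL0 : 0 ≤ L 2 := (abs_nonneg _).trans h3
  have h4 : L 2 ≤ L 2 * WW 2 1 := le_mul_of_one_le_right hL0 (o05_WW_two le_rfl)
  have h5 : L 2 * WW 2 1 ≤ (1 + 2 * ((2:ℕ):ℝ)) ^ ((7:ℝ)/2) * (L 2 * WW 2 1) := by
    have h6 : 0 ≤ L 2 * WW 2 1 := mul_nonneg hL0 (o05_WW_pos 2 1).le
    exact le_mul_of_one_le_left h6 o05_pow
  linarith

theorem o05_St_mono {al r cA cR E cA' cR' E' : ℝ} {Z X u : EE → ℂ → ℂ} {Rm : EE → ℕ → ℕ → ℝ} {RM : ℕ → ℕ → ℝ}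
    {V0 mu : EE → ℝ} (h : St al r cA cR E Z X u Rm RM V0 mu) (h1 : cA ≤ cA') (h2 : cR ≤ cR') (h3 : E ≤ E') :
    St al r cA' cR' E' Z X u Rm RM V0 mu where
  ap :=
    { fc := ⟨h.ap.fc.fZ, h.ap.fc.fX, fun e => (h.ap.fc.nb e).mono h1 le_rfl le_rfl, h.ap.fc.sy, h.ap.fc.re⟩
      vc := h.ap.vc
      mc := h.ap.mc
      vb := fun e => (h.ap.vb e).trans h1
      mb := fun e => (h.ap.mb e).trans h1
      eS := fun e t ht => (h.ap.eS e t ht).trans h3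
      eV := fun e t ht => (h.ap.eV e t ht).trans h3 }
  us := ⟨h.us.fu, fun e z hz => (h.us.u0 e z hz).trans h1, h.us.ue, h.us.up, h.us.ur⟩
  uc := h.uc
  rs := ⟨h.rs.c, h.rs.m, fun r' h5 h6 m => ⟨(h.rs.n r' h5 h6 m).1,
    (h.rs.n r' h5 h6 m).2.trans (mul_le_mul_of_nonneg_right h2 (o05_WW_pos m r').le)⟩, h.rs.h⟩

/-- `iterAp` with `d = C1 δ`, `R0 = b + 6`, exponent `m`; `finish`. The Legendre coefficient: `second_order` with `R = b + 6`, `w = d e`: the function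
`SS - w^2 ∑ g n PL n` is a family on `band 1 R0`, even, periodic, real, bounded by `C d^3`; its Legendre coefficients are `l e n - w^2 g n` by uniqueness
(`leg_unique`), and `legOf` (for the constant family of this function, `ρ = 1`, `r' = R0 - 1`) gives `|l e 2 - w^2 g 2| ≤ C d^3`; with
`|g 2 - q4m| ≤ C |lam al 2| ≤ C δ` (`mu1c_bd`) we get the expansion of `mu`. (`|1/sin al| ≤ 2`.) -/
theorem app (c b : ℝ) (hc : 0 < c) (hb : 1 ≤ b) (C1 : ℝ) (hC1 : 1 ≤ C1) (m : ℕ) (hm : 1 ≤ m) : ∃ C δ1 : ℝ, 1 ≤ C ∧ 0 < δ1 ∧ ∀ δ : ℝ, 0 < δ → δ < δ1 →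
    ∀ al ∈ JJ, al0 ≤ al → al ≤ al0 + δ → EB al c b →
    ∃ (Z X u : EE → ℂ → ℂ) (Rm : EE → ℕ → ℕ → ℝ) (RM : ℕ → ℕ → ℝ) (V0 mu : EE → ℝ),
      St al 4 (C * δ) (C * δ) (C * δ ^ m) Z X u Rm RM V0 mu ∧
      (∀ e : EE, |mu e - (C1 * δ * (e:ℝ) * mu1c al - (C1 * δ * (e:ℝ)) ^ 2 * q4m al / Real.sin al)| ≤ C * δ ^ 3) ∧
      (∀ e : EE, ∀ z ∈ strip 4, ‖Z e z - Z1 al ((C1 * δ * (e:ℝ) : ℝ) : ℂ) z‖ ≤ C * δ ^ 2 ∧
        ‖X e z - X1 al ((C1 * δ * (e:ℝ) : ℝ) : ℂ) z‖ ≤ C * δ ^ 2) := by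
  obtain ⟨Ci, ci, hCi, hci, HI⟩ := iterAp c b hc hb m hm (b + 6) (by linarith)
  obtain ⟨Cf, cf, hCf, hcf, HF⟩ := finish c b hc hb
  obtain ⟨Cs, cs, hCs, hcs, HS⟩ := second_order (b + 6) (by linarith)
  obtain ⟨Cl, hCl, HL⟩ := o05_coef
  obtain ⟨c3, C3, hc3, hC3, H3⟩ := mu1c_bd
  set K1 : ℝ := Cf * (Ci * C1) with hK1
  set K2 : ℝ := Ci * C1 ^ (m + 2) with hK2
  set K3 : ℝ := Ci * C1 ^ 3 + 2 * (Cl * (Cs * C1 ^ 3) + C1 ^ 2 * (Cs * C3)) with hK3
  set K4 : ℝ := Ci * C1 ^ 2 with hK4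
  have hC10 : 0 < C1 := by linarith
  have hCi0 : 0 < Ci := by linarith
  have hCf0 : 0 < Cf := by linarith
  have hCs0 : 0 < Cs := by linarith
  have hC30 : 0 < C3 := by linarith
  have p1 : 0 ≤ K1 := by positivity
  have p2 : 0 ≤ K2 := by positivity
  have p3 : 0 ≤ K3 := by positivity
  have p4 : 0 ≤ K4 := by positivity
  refine ⟨1 + K1 + K2 + K3 + K4, min 1 (min (ci / C1) (min (cf / (Ci * C1)) (cs / C1))), by linarith, by positivity, ?_⟩
  intro δ hδ0 hδ al hal hal0 halδ hEB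
  have d1 : δ ≤ 1 := (hδ.le).trans (min_le_left _ _)
  have d2 : δ ≤ ci / C1 := (hδ.le).trans ((min_le_right _ _).trans (min_le_left _ _))
  have d3 : δ ≤ cf / (Ci * C1) := (hδ.le).trans ((min_le_right _ _).trans ((min_le_right _ _).trans (min_le_left _ _)))
  have d4 : δ ≤ cs / C1 := (hδ.le).trans ((min_le_right _ _).trans ((min_le_right _ _).trans (min_le_right _ _)))
  obtain ⟨hj1, hj2, hj3, hj4, hj5, hs1, hs2⟩ := JJ_bounds hal
  set d : ℝ := C1 * δ with hd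
  have hd0 : 0 ≤ d := by positivity
  have hdi : d ≤ ci := by
    rw [le_div_iff₀ hC10] at d2
    linarith
  have hds : d ≤ cs := by
    rw [le_div_iff₀ hC10] at d4
    linarith
  have hdf : Ci * d ≤ cf := by
    rw [le_div_iff₀ (by positivity)] at d3
    calc Ci * d = δ * (Ci * C1) := by rw [hd]; ring
      _ ≤ cf := d3
  obtain ⟨Z, X, V0, mu, l, L, hAp, hcl, hlL, hLs, hls, hmu⟩ := HI al hal hEB d hd0 hdi
  obtain ⟨u, Rm, RM, hSt⟩ := HF al hal hEB (Ci * d) (Ci * d ^ (m + 2)) (by positivity) hdf (by positivity) Z X V0 mu hAp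
  obtain ⟨g, hgs, hg2, hgb⟩ := HS al hal
  refine ⟨Z, X, u, Rm, RM, V0, mu, ?_, ?_, ?_⟩
  · have e1 : Cf * (Ci * d) = K1 * δ := by rw [hK1, hd]; ring
    have e2 : Ci * d ^ (m + 2) ≤ K2 * δ ^ m := by
      rw [hK2, hd, mul_pow]
      have h1 : δ ^ (m + 2) ≤ δ ^ m := pow_le_pow_of_le_one hδ0.le d1 (by omega)
      calc Ci * (C1 ^ (m + 2) * δ ^ (m + 2)) = Ci * C1 ^ (m + 2) * δ ^ (m + 2) := by ring
        _ ≤ Ci * C1 ^ (m + 2) * δ ^ m := mul_le_mul_of_nonneg_left h1 (by positivity)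
    have e3 : K1 * δ ≤ (1 + K1 + K2 + K3 + K4) * δ := mul_le_mul_of_nonneg_right (by linarith) hδ0.le
    refine o05_St_mono hSt (by rw [e1]; exact e3) (by rw [e1]; exact e3) (e2.trans ?_)
    exact mul_le_mul_of_nonneg_right (by linarith) (by positivity)
  · intro e
    have he0 : 0 ≤ (e:ℝ) := e.2.1
    have he1 : (e:ℝ) ≤ 1 := e.2.2
    set w : ℝ := d * (e:ℝ) with hw
    have hw0 : 0 ≤ w := by positivity
    have hwd : w ≤ d := by
      rw [hw]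
      exact mul_le_of_le_one_right hd0 he1
    have hwa : |w| = w := abs_of_nonneg hw0
    -- the coefficients
    set k : ℕ → ℝ := fun n => l e n - w ^ 2 * g n with hk
    have hks : ∀ r' : ℝ, 1 ≤ r' → r' < b + 6 → Summable (fun n : ℕ => |k n| * WW n r') := by
      intro r' h1 h2
      refine Summable.of_nonneg_of_le (fun n => mul_nonneg (abs_nonneg _) (o05_WW_pos n r').le) (fun n => ?_)
        ((hLs r' h1 h2).add ((hgs r' h1 h2).mul_left (w ^ 2)))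
      have h3 : |k n| ≤ L n + w ^ 2 * |g n| := by
        rw [hk]
        refine (abs_sub _ _).trans (add_le_add (hlL e n) ?_)
        rw [abs_mul, abs_of_nonneg (sq_nonneg w)]
      calc |k n| * WW n r' ≤ (L n + w ^ 2 * |g n|) * WW n r' := mul_le_mul_of_nonneg_right h3 (o05_WW_pos n r').le
        _ = _ := by ring
    have hgsum : ∀ t ∈ band 1 (b + 6), HasSum (fun n => ((g n : ℝ) : ℂ) * PL n t) (∑' n, ((g n : ℝ) : ℂ) * PL n t) := by
      intro t ht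
      obtain ⟨-, h1, -⟩ := synthLeg (r := b + 6) (by linarith) (x := fun _ => g) (XM := fun n => |g n|)
        (fun n => continuous_const) (fun e n => le_rfl) (fun r' h1 h2 => hgs r' (by linarith) h2)
      exact h1 e t (band_subset (by linarith) le_rfl ht)
    have hkb : ∀ t ∈ band 1 (b + 6), ‖∑' n, ((k n : ℝ) : ℂ) * PL n t‖ ≤ Cs * w ^ 3 := by
      intro t ht
      have h1 := (hls e t ht).sub ((hgsum t ht).mul_left ((w:ℂ) ^ 2))
      have h2 : (fun n => ((l e n : ℝ) : ℂ) * PL n t - (w:ℂ) ^ 2 * (((g n : ℝ) : ℂ) * PL n t)) =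
          fun n => ((k n : ℝ) : ℂ) * PL n t := by
        funext n
        rw [hk]
        push_cast
        ring
      rw [h2] at h1
      rw [h1.tsum_eq]
      have h3 := hgb w (by rw [hwa]; exact hwd.trans hds) t ht
      rw [hwa] at h3
      refine le_trans (le_of_eq ?_) h3
      have hwc : (w:ℂ) = (d:ℂ) * ((e:ℝ):ℂ) := by rw [hw]; push_cast; ring
      rw [hwc]
      push_cast
      rfl
    have hk2 := HL (b + 6) (by linarith) k hks (Cs * w ^ 3) (by positivity) hkb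
    have hw3 : w ^ 3 ≤ C1 ^ 3 * δ ^ 3 := by
      rw [← mul_pow]
      exact pow_le_pow_left₀ hw0 hwd 3
    have hw2 : w ^ 2 ≤ C1 ^ 2 * δ ^ 2 := by
      rw [← mul_pow]
      exact pow_le_pow_left₀ hw0 hwd 2
    have hlam : |lam al 2| ≤ C3 * δ := by
      have h1 := (H3 al hal hal0).2.2
      have h2 : C3 * (al - al0) ≤ C3 * δ := mul_le_mul_of_nonneg_left (by linarith) hC30.le
      linarith
    have hl2 : |l e 2 - w ^ 2 * q4m al| ≤ (Cl * (Cs * C1 ^ 3) + C1 ^ 2 * (Cs * C3)) * δ ^ 3 := by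
      have h1 : l e 2 - w ^ 2 * q4m al = k 2 + w ^ 2 * (g 2 - q4m al) := by rw [hk]; ring
      rw [h1]
      refine (abs_add_le _ _).trans ?_
      rw [abs_mul, abs_of_nonneg (sq_nonneg w)]
      have h2 : |k 2| ≤ Cl * (Cs * (C1 ^ 3 * δ ^ 3)) :=
        hk2.trans (mul_le_mul_of_nonneg_left (mul_le_mul_of_nonneg_left hw3 hCs0.le) hCl.le)
      have h3 : w ^ 2 * |g 2 - q4m al| ≤ (C1 ^ 2 * δ ^ 2) * (Cs * (C3 * δ)) :=
        mul_le_mul hw2 (hg2.trans (mul_le_mul_of_nonneg_left hlam hCs0.le)) (abs_nonneg _) (by positivity)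
      calc |k 2| + w ^ 2 * |g 2 - q4m al| ≤ Cl * (Cs * (C1 ^ 3 * δ ^ 3)) + (C1 ^ 2 * δ ^ 2) * (Cs * (C3 * δ)) :=
            add_le_add h2 h3
        _ = _ := by ring
    have hfin : mu e - (d * (e:ℝ) * mu1c al - (d * (e:ℝ)) ^ 2 * q4m al / Real.sin al) =
        (mu e - (d * (e:ℝ) * mu1c al - l e 2 / Real.sin al)) - (l e 2 - w ^ 2 * q4m al) / Real.sin al := by
      rw [hw]
      ring
    rw [hfin]
    refine (abs_sub _ _).trans ?_
    have h5 : |(l e 2 - w ^ 2 * q4m al) / Real.sin al| ≤ 2 * ((Cl * (Cs * C1 ^ 3) + C1 ^ 2 * (Cs * C3)) * δ ^ 3) := by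
      rw [abs_div, abs_of_pos (show 0 < Real.sin al by linarith), div_le_iff₀ (by linarith)]
      have h6 : 0 ≤ (Cl * (Cs * C1 ^ 3) + C1 ^ 2 * (Cs * C3)) * δ ^ 3 := by positivity
      nlinarith
    have h6 : |mu e - (d * (e:ℝ) * mu1c al - l e 2 / Real.sin al)| ≤ Ci * C1 ^ 3 * δ ^ 3 := by
      have := hmu e
      rw [hd, mul_pow] at this
      rw [hd]
      linarith
    have h7 : K3 * δ ^ 3 ≤ (1 + K1 + K2 + K3 + K4) * δ ^ 3 := mul_le_mul_of_nonneg_right (by linarith) (by positivity)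
    calc _ ≤ Ci * C1 ^ 3 * δ ^ 3 + 2 * ((Cl * (Cs * C1 ^ 3) + C1 ^ 2 * (Cs * C3)) * δ ^ 3) := add_le_add h6 h5
      _ = K3 * δ ^ 3 := by rw [hK3]; ring
      _ ≤ _ := h7
  · intro e z hz
    have hz' : z ∈ strip (b + 6) := band_subset (by linarith) (by linarith) hz
    obtain ⟨h1, h2⟩ := hcl e z hz'
    have h3 : Ci * d ^ 2 ≤ (1 + K1 + K2 + K3 + K4) * δ ^ 2 := by
      have h4 : Ci * d ^ 2 = K4 * δ ^ 2 := by rw [hK4, hd]; ring
      rw [h4]
      exact mul_le_mul_of_nonneg_right (by linarith) (by positivity)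
    exact ⟨h1.trans h3, h2.trans h3⟩

end FB
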