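import Pool.Agent.H48.FB.PDefs
import Pool.Agent.H48.FB.G03
import Pool.Agent.H48.FB.H05

/-! P01: the operator `S0` is diagonal in the Legendre functions. -/

open Complex Set MeasureTheory Filter Topology

noncomputable section

namespace FB

theorem P01_q0 {t : ℂ} (ht : 1 < t.im) (s : ℝ) : ‖q0 t (s:ℂ)‖ ^ 2 ≤ 1 := by
  have him : (t + (s:ℂ)).im = t.im := by simp
  have h := (q0_sq (t := t) (s := (s:ℂ)) ht.le (by rw [him]; exact ht.le)).1
  have h1 : ∀ z : ℂ, 1 < z.im → 1 ≤ ‖sin z‖ := by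
    intro z hz
    have h2 := d01_le_sin z
    have h3 : z.im ≤ Real.sinh z.im := Real.self_le_sinh_iff.2 (by linarith)
    linarith
  have h2 := h1 t ht
  have h3 := h1 (t + (s:ℂ)) (by rw [him]; exact ht)
  rw [← norm_pow, h, norm_div, norm_one, norm_mul, div_le_one (by positivity)]
  nlinarith

/-- the argument of the special functions, extended by zero -/
def P01_y (t : ℂ) (a s : ℝ) : ℂ := ((Real.sqrt (Real.cos s - Real.cos a) : ℝ) : ℂ) * q0 t (s:ℂ)

theorem P01_sqrt {a s : ℝ} (ha : 0 ≤ Real.cos a) : Real.sqrt (Real.cos s - Real.cos a) ^ 2 ≤ 1 := by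
  have h1 := Real.cos_le_one s
  rcases le_total 0 (Real.cos s - Real.cos a) with h | h
  · rw [Real.sq_sqrt h]; linarith
  · rw [Real.sqrt_eq_zero_of_nonpos h]; norm_num

theorem P01_y_norm {t : ℂ} (ht : 1 < t.im) {a : ℝ} (ha : 0 ≤ Real.cos a) (s : ℝ) :
    ‖P01_y t a s‖ ^ 2 ≤ 1 := by
  rw [P01_y, norm_mul, mul_pow, norm_real, Real.norm_eq_abs, sq_abs]
  have h1 := P01_sqrt (s := s) ha
  have h2 := P01_q0 ht s
  have h3 : 0 ≤ ‖q0 t (s:ℂ)‖ ^ 2 := by positivity
  have h4 : 0 ≤ Real.sqrt (Real.cos s - Real.cos a) ^ 2 := by positivity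
  nlinarith

theorem P01_q0_cont {t : ℂ} (ht : 1 < t.im) : Continuous (fun s : ℝ => q0 t (s:ℂ)) := by
  rw [continuous_iff_continuousAt]
  intro s
  have him : (t + (s:ℂ)).im = t.im := by simp
  have h := (q0_diff (t := t) (s := (s:ℂ)) ht.le (by rw [him]; exact ht.le)).2.1.continuousAt
  exact ContinuousAt.comp (f := fun s : ℝ => (s:ℂ)) h continuous_ofReal.continuousAt

theorem P01_y_cont {t : ℂ} (ht : 1 < t.im) (a : ℝ) : Continuous (P01_y t a) := by
  unfold P01_y
  refine Continuous.mul ?_ (P01_q0_cont ht)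
  exact continuous_ofReal.comp (by fun_prop)

theorem P01_Lf_cont {t : ℂ} (ht : 1 < t.im) {a : ℝ} (ha : 0 ≤ Real.cos a) :
    Continuous (fun s => Lf (P01_y t a s)) := by
  rw [continuous_iff_continuousAt]
  intro s
  have h := P01_y_norm ht ha s
  exact ContinuousAt.comp (f := P01_y t a) (hasDerivAt_Lf (by linarith)).continuousAt
    (P01_y_cont ht a).continuousAt

theorem P01_Af_cont {t : ℂ} (ht : 1 < t.im) {a : ℝ} (ha : 0 ≤ Real.cos a) :
    Continuous (fun s => Af (P01_y t a s)) := by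
  rw [continuous_iff_continuousAt]
  intro s
  have h := P01_y_norm ht ha s
  exact ContinuousAt.comp (f := P01_y t a) (hasDerivAt_Af (by linarith)).continuousAt
    (P01_y_cont ht a).continuousAt

theorem P01_Af_zero : Af 0 = 0 := by unfold Af; simp
theorem P01_Lf_zero : Lf 0 = 0 := by unfold Lf; simp

/-- derivative of `κ ↦ Lf (√κ q)` -/
theorem P01_deriv {q : ℂ} (hq : ‖q‖ ^ 2 ≤ 1) {k : ℝ} (hk : k ≤ 1) :
    HasDerivAt (fun x : ℝ => Lf (((Real.sqrt x : ℝ) : ℂ) * q))
      (q ^ 2 * Af (((Real.sqrt k : ℝ) : ℂ) * q)) k := by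
  rcases lt_trichotomy k 0 with h | h | h
  · rw [Real.sqrt_eq_zero_of_nonpos h.le, ofReal_zero, zero_mul, P01_Af_zero, mul_zero]
    refine (hasDerivAt_const k (Lf 0)).congr_of_eventuallyEq ?_
    filter_upwards [gt_mem_nhds h] with y hy
    rw [Real.sqrt_eq_zero_of_nonpos hy.le, ofReal_zero, zero_mul]
  · subst h
    rw [Real.sqrt_zero, ofReal_zero, zero_mul, P01_Af_zero, mul_zero, hasDerivAt_iff_tendsto_slope]
    have hbd : ∀ y : ℝ, y ≤ 1 → ‖slope (fun x : ℝ => Lf (((Real.sqrt x : ℝ) : ℂ) * q)) 0 y‖ ≤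
        2 * Real.sqrt y := by
      intro y hy
      rw [slope_def_module, Real.sqrt_zero, ofReal_zero, zero_mul, P01_Lf_zero, sub_zero, sub_zero]
      rcases le_or_gt y 0 with h0 | h0
      · rw [Real.sqrt_eq_zero_of_nonpos h0, ofReal_zero, zero_mul, P01_Lf_zero, smul_zero]
        simp
      · rw [norm_smul, norm_inv, Real.norm_eq_abs, abs_of_pos h0, Lf, norm_mul, norm_pow, norm_mul,
          norm_real, Real.norm_eq_abs, abs_of_nonneg (Real.sqrt_nonneg y)]
        have e1 : (Real.sqrt y * ‖q‖) ^ 3 = y * Real.sqrt y * ‖q‖ ^ 3 := by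
          have : Real.sqrt y ^ 2 = y := Real.sq_sqrt h0.le
          calc (Real.sqrt y * ‖q‖) ^ 3 = Real.sqrt y ^ 2 * Real.sqrt y * ‖q‖ ^ 3 := by ring
            _ = _ := by rw [this]
        have hq1 : ‖q‖ ≤ 1 := by
          have := norm_nonneg q
          nlinarith
        have e2 : ‖q‖ ^ 3 ≤ 1 := pow_le_one₀ (norm_nonneg q) hq1
        have hw : ‖(((Real.sqrt y : ℝ) : ℂ) * q) ^ 2‖ ≤ 1 := by
          rw [norm_pow, norm_mul, mul_pow, norm_real, Real.norm_eq_abs, sq_abs, Real.sq_sqrt h0.le]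
          nlinarith [sq_nonneg ‖q‖]
        have e3 : ‖afn ((((Real.sqrt y : ℝ) : ℂ) * q) ^ 2)‖ ≤ 2 := by
          have h1 := afn_bound hw
          have h2 := norm_le_norm_add_norm_sub' (afn ((((Real.sqrt y : ℝ) : ℂ) * q) ^ 2))
            (2 * Real.sqrt 2 / 3 : ℂ)
          have h3 : ‖(2 * Real.sqrt 2 / 3 : ℂ)‖ ≤ 1 := by
            have h4 : (2 * Real.sqrt 2 / 3 : ℂ) = ((2 * Real.sqrt 2 / 3 : ℝ) : ℂ) := by push_cast; ring
            rw [h4, norm_real, Real.norm_eq_abs, abs_of_nonneg (by positivity)]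
            exact H05_sqrt2.1
          linarith
        rw [e1]
        have hs := Real.sqrt_nonneg y
        calc y⁻¹ * (y * Real.sqrt y * ‖q‖ ^ 3 * ‖afn ((((Real.sqrt y : ℝ) : ℂ) * q) ^ 2)‖)
            = Real.sqrt y * (‖q‖ ^ 3 * ‖afn ((((Real.sqrt y : ℝ) : ℂ) * q) ^ 2)‖) := by
              field_simp
          _ ≤ Real.sqrt y * (1 * 2) := by gcongr
          _ = 2 * Real.sqrt y := by ring
    have h1 : Tendsto (fun y : ℝ => 2 * Real.sqrt y) (𝓝[≠] 0) (𝓝 0) := by
      have := (Real.continuous_sqrt.tendsto 0).const_mul 2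
      rw [Real.sqrt_zero, mul_zero] at this
      exact this.mono_left nhdsWithin_le_nhds
    refine squeeze_zero_norm' ?_ h1
    filter_upwards [mem_nhdsWithin_of_mem_nhds (gt_mem_nhds (zero_lt_one (α := ℝ)))] with y hy
    exact hbd y hy.le
  · have hs : 0 < Real.sqrt k := Real.sqrt_pos.2 h
    have hy : ‖((Real.sqrt k : ℝ) : ℂ) * q‖ ^ 2 < 2 := by
      rw [norm_mul, mul_pow, norm_real, Real.norm_eq_abs, sq_abs, Real.sq_sqrt h.le]
      nlinarith [sq_nonneg ‖q‖]
    have h2 := ((Real.hasDerivAt_sqrt h.ne').ofReal_comp).mul_const q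
    have h3 := (hasDerivAt_Lf hy).comp k h2
    refine h3.congr_deriv ?_
    have hs' : ((Real.sqrt k : ℝ) : ℂ) ≠ 0 := ofReal_ne_zero.2 hs.ne'
    push_cast
    field_simp

theorem P01_zero {a s : ℝ} (h0 : 0 ≤ a) (has : a ≤ |s|) (hs : |s| ≤ Real.pi) (t : ℂ) :
    P01_y t a s = 0 := by
  rw [P01_y, Real.sqrt_eq_zero_of_nonpos, ofReal_zero, zero_mul]
  have : Real.cos |s| ≤ Real.cos a := Real.cos_le_cos_of_nonneg_of_le_pi h0 hs has
  rw [Real.cos_abs] at this
  linarith

theorem P01_ext {a : ℝ} (h0 : 0 < a) (h1 : a < Real.pi) (f : ℝ → ℂ) (hf : Continuous f)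
    (hz : ∀ s, a ≤ |s| → |s| ≤ Real.pi → f s = 0) :
    ∫ s in (-a)..a, f s = ∫ s in (-Real.pi)..Real.pi, f s := by
  have hi : ∀ x y : ℝ, IntervalIntegrable f volume x y := fun x y => hf.intervalIntegrable x y
  rw [← intervalIntegral.integral_add_adjacent_intervals (hi (-Real.pi) (-a)) (hi (-a) Real.pi),
    ← intervalIntegral.integral_add_adjacent_intervals (hi (-a) a) (hi a Real.pi)]
  have e1 : ∫ s in (-Real.pi)..(-a), f s = 0 := by
    rw [intervalIntegral.integral_congr (g := fun _ => (0:ℂ))]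
    · simp
    · intro s hs
      rw [uIcc_of_le (by linarith)] at hs
      have : |s| = -s := abs_of_nonpos (by linarith [hs.2])
      exact hz s (by rw [this]; linarith [hs.2]) (by rw [this]; linarith [hs.1])
  have e2 : ∫ s in a..Real.pi, f s = 0 := by
    rw [intervalIntegral.integral_congr (g := fun _ => (0:ℂ))]
    · simp
    · intro s hs
      rw [uIcc_of_le (by linarith)] at hs
      have : |s| = s := abs_of_nonneg (by linarith [hs.1])
      exact hz s (by rw [this]; linarith [hs.1]) (by rw [this]; linarith [hs.2])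
  rw [e1, e2]
  ring

theorem P01_kk {a : ℝ} (_h0 : 0 < a) (h1 : a < Real.pi) {s : ℝ} (hs : s ∈ Icc (-a) a) (t : ℂ) :
    kk a (s:ℂ) * q0 t (s:ℂ) = P01_y t a s := by
  rw [P01_y, kk_real]
  rw [← Real.cos_abs s]
  exact Real.cos_le_cos_of_nonneg_of_le_pi (abs_nonneg s) h1.le (abs_le.2 hs)

theorem P01_L0 {a : ℝ} (h0 : 0 < a) (h1 : a < Real.pi / 2) {f : ℂ → ℂ} (hf : Continuous f) {t : ℂ}
    (ht : 1 < t.im) : L0 a f t / (Real.sin a : ℂ) =
      ∫ s in (-Real.pi)..Real.pi, sin t * sin (t + (s:ℂ)) ^ 2 * Lf (P01_y t a s) * f (t + (s:ℂ)) := by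
  have hpi := Real.pi_pos
  have hsin : 0 < Real.sin a := Real.sin_pos_of_pos_of_lt_pi h0 (by linarith)
  have hsin' : (Real.sin a : ℂ) ≠ 0 := ofReal_ne_zero.2 hsin.ne'
  have hcos : 0 ≤ Real.cos a := Real.cos_nonneg_of_neg_pi_div_two_le_of_le (by linarith) h1.le
  rw [← P01_ext h0 (by linarith), L0, div_eq_iff hsin', ← intervalIntegral.integral_mul_const]
  · apply intervalIntegral.integral_congr
    intro s hs
    rw [uIcc_of_le (by linarith)] at hs
    simp only
    rw [← P01_kk h0 (by linarith) hs, Lf, K0]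
    have hk := G00_kk_sq a (s:ℂ)
    have e1 : (kk a (s:ℂ) * q0 t (s:ℂ)) ^ 2 = (cos (s:ℂ) - (Real.cos a : ℂ)) * q0 t (s:ℂ) ^ 2 := by
      rw [mul_pow, hk]
    rw [e1]
    ring
  · refine Continuous.mul (Continuous.mul ?_ (P01_Lf_cont ht hcos)) ?_
    · fun_prop
    · exact hf.comp (by fun_prop)
  · intro s h2 h3
    rw [P01_zero h0.le h2 h3, P01_Lf_zero]
    ring

theorem P01_S0 {a : ℝ} (h0 : 0 < a) (h1 : a < Real.pi / 2) {f : ℂ → ℂ} (hf : Continuous f) {t : ℂ}
    (ht : 1 < t.im) : S0 a f t =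
      ∫ s in (-Real.pi)..Real.pi, Af (P01_y t a s) * sin (t + (s:ℂ)) * f (t + (s:ℂ)) := by
  have hpi := Real.pi_pos
  have hcos : 0 ≤ Real.cos a := Real.cos_nonneg_of_neg_pi_div_two_le_of_le (by linarith) h1.le
  rw [← P01_ext h0 (by linarith), S0]
  · apply intervalIntegral.integral_congr
    intro s hs
    rw [uIcc_of_le (by linarith)] at hs
    simp only
    rw [P01_kk h0 (by linarith) hs]
  · refine Continuous.mul (Continuous.mul (P01_Af_cont ht hcos) ?_) ?_
    · fun_prop
    · exact hf.comp (by fun_prop)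
  · intro s h2 h3
    rw [P01_zero h0.le h2 h3, P01_Af_zero]
    ring

/-- For fixed `t` and `f`, `a ↦ L0 a f t/sin a = ∫ sin t sin^2(t+s) Lf (sqrt(cos s - cos a) q0) f(t+s) ds` (extend the integrand by `0` where
`cos s < cos a`, to a fixed interval such as `[-1.3, 1.3]`) has the derivative `sin a * S0 a f t` (the function `κ ↦ Lf (sqrt κ q0)` is `C^1` on `[0, ∞)`
small, extended by `0`, with derivative `q0^2 Af (sqrt κ q0)`, using `Lf' = 2 y Af`; and `q0^2 = 1/(sin t sin(t+s))`). At the end points of `JJ` use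
one-sided derivatives (within `JJ`). -/
theorem S0_deriv {al : ℝ} (hal : al ∈ JJ) {f : ℂ → ℂ} (hf : Differentiable ℂ f) {t : ℂ} (ht : 1 < t.im) :
    HasDerivWithinAt (fun a : ℝ => L0 a f t / (Real.sin a : ℂ)) ((Real.sin al : ℂ) * S0 al f t) JJ al := by
  apply HasDerivAt.hasDerivWithinAt
  obtain ⟨j1, j2, j3, j4, j5, j6, j7⟩ := JJ_bounds hal
  have hpi := Real.pi_gt_three
  have hfc := hf.continuous
  have hcos : ∀ a ∈ Ioo (1:ℝ) 1.3, 0 ≤ Real.cos a := fun a ha =>
    Real.cos_nonneg_of_neg_pi_div_two_le_of_le (by linarith [ha.1]) (by linarith [ha.2])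
  have hmem : Ioo (1:ℝ) 1.3 ∈ 𝓝 al := Ioo_mem_nhds (by linarith) (by linarith)
  have hcosal : 0 ≤ Real.cos al := by linarith
  have hts : Continuous (fun s : ℝ => t + (s:ℂ)) := by fun_prop
  -- bound
  obtain ⟨CA, -, hCA⟩ : ∃ C : ℝ, 1 ≤ C ∧ ∀ y : ℂ, ‖y‖ ^ 2 ≤ 1 → ‖Af y‖ ≤ C := by
    have hc : ContinuousOn Af (Metric.closedBall 0 1) := by
      intro y hy
      rw [mem_closedBall_zero_iff] at hy
      have h0 := norm_nonneg y
      exact (hasDerivAt_Af (by nlinarith)).continuousAt.continuousWithinAt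
    obtain ⟨C, hC⟩ := (isCompact_closedBall (0:ℂ) 1).exists_bound_of_continuousOn hc
    refine ⟨max C 1, le_max_right _ _, fun y hy => ?_⟩
    refine (hC y ?_).trans (le_max_left _ _)
    rw [mem_closedBall_zero_iff]
    have := norm_nonneg y
    nlinarith
  have key := (intervalIntegral.hasDerivAt_integral_of_dominated_loc_of_deriv_le
    (F := fun (a s : ℝ) => sin t * sin (t + (s:ℂ)) ^ 2 * Lf (P01_y t a s) * f (t + (s:ℂ)))
    (F' := fun (a s : ℝ) => sin t * sin (t + (s:ℂ)) ^ 2 * (q0 t (s:ℂ) ^ 2 * Af (P01_y t a s) *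
      (Real.sin a : ℂ)) * f (t + (s:ℂ)))
    (x₀ := al) (s := Ioo (1:ℝ) 1.3) (a := -Real.pi) (b := Real.pi) (μ := volume)
    (bound := fun s : ℝ => ‖sin t * sin (t + (s:ℂ)) ^ 2‖ * CA * ‖f (t + (s:ℂ))‖)
    hmem
    (by
      filter_upwards [hmem] with a ha
      refine Continuous.aestronglyMeasurable ?_
      refine Continuous.mul (Continuous.mul ?_ (P01_Lf_cont ht (hcos a ha))) ?_
      · fun_prop
      · exact hfc.comp hts)
    (by
      refine Continuous.intervalIntegrable ?_ _ _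
      refine Continuous.mul (Continuous.mul ?_ (P01_Lf_cont ht hcosal)) ?_
      · fun_prop
      · exact hfc.comp hts)
    (by
      refine Continuous.aestronglyMeasurable ?_
      refine Continuous.mul (Continuous.mul ?_ (Continuous.mul (Continuous.mul ?_
        (P01_Af_cont ht hcosal)) ?_)) ?_
      · fun_prop
      · exact (P01_q0_cont ht).pow 2
      · fun_prop
      · exact hfc.comp hts)
    (Eventually.of_forall fun s _ a ha => by
      rw [norm_mul, norm_mul]
      refine mul_le_mul_of_nonneg_right ?_ (norm_nonneg _)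
      refine mul_le_mul_of_nonneg_left ?_ (norm_nonneg _)
      rw [norm_mul, norm_mul, norm_pow, norm_real, Real.norm_eq_abs]
      have e1 := P01_q0 ht s
      have e2 := hCA _ (P01_y_norm ht (hcos a ha) s)
      have e3 := Real.abs_sin_le_one a
      calc _ ≤ 1 * CA * 1 := by
            refine mul_le_mul (mul_le_mul e1 e2 (norm_nonneg _) (by norm_num)) e3 (abs_nonneg _) ?_
            have := norm_nonneg (Af (P01_y t a s))
            linarith
        _ = CA := by ring)
    (by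
      refine Continuous.intervalIntegrable ?_ _ _
      refine Continuous.mul (Continuous.mul ?_ continuous_const) ?_
      · fun_prop
      · exact (hfc.comp hts).norm)
    (Eventually.of_forall fun s _ a ha => by
      have e1 : HasDerivAt (fun a : ℝ => Real.cos s - Real.cos a) (Real.sin a) a := by
        have := (Real.hasDerivAt_cos a).const_sub (Real.cos s)
        rwa [neg_neg] at this
      have hk : Real.cos s - Real.cos a ≤ 1 := by
        have := Real.cos_le_one s
        linarith [hcos a ha]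
      have e2 := (P01_deriv (P01_q0 ht s) hk).scomp a e1
      have e3 : HasDerivAt (fun a : ℝ => Lf (P01_y t a s)) (q0 t (s:ℂ) ^ 2 * Af (P01_y t a s) *
          (Real.sin a : ℂ)) a := by
        refine e2.congr_deriv ?_
        rw [real_smul]
        unfold P01_y
        ring
      exact (e3.const_mul _).mul_const _)).2
  have heq : (fun a : ℝ => L0 a f t / (Real.sin a : ℂ)) =ᶠ[𝓝 al] fun a => ∫ s in (-Real.pi)..Real.pi,
      sin t * sin (t + (s:ℂ)) ^ 2 * Lf (P01_y t a s) * f (t + (s:ℂ)) := by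
    filter_upwards [hmem] with a ha
    exact P01_L0 (by linarith [ha.1]) (by linarith [ha.2]) hfc ht
  refine (key.congr_of_eventuallyEq heq).congr_deriv ?_
  rw [P01_S0 (by linarith) j3 hfc ht, ← intervalIntegral.integral_const_mul]
  refine intervalIntegral.integral_congr ?_
  intro s _
  simp only
  have him : (t + (s:ℂ)).im = t.im := by simp
  have h := (q0_sq (t := t) (s := (s:ℂ)) ht.le (by rw [him]; exact ht.le)).1
  have h1 : ∀ z : ℂ, 1 < z.im → sin z ≠ 0 := by
    intro z hz h0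
    have h2 := d01_le_sin z
    have h3 : z.im ≤ Real.sinh z.im := Real.self_le_sinh_iff.2 (by linarith)
    rw [h0, norm_zero] at h2
    linarith
  have h2 := h1 t ht
  have h3 := h1 (t + (s:ℂ)) (by rw [him]; exact ht)
  rw [h]
  field_simp

theorem P01_lam {a : ℝ} (h0 : 0 < a) (h1 : a < Real.pi) (n : ℕ) :
    HasDerivAt (fun a => lam a n / Real.sin a)
      (Real.sin a * (Real.sqrt 2 * l1 a (2 * n + 1/2))) a := by
  have h2 := (hasDerivAt_ll (m := 2 * n + 1/2) h0 h1).const_mul (2 * Real.sqrt 2 / 3)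
  have heq : (fun a => lam a n / Real.sin a) =ᶠ[𝓝 a]
      fun a => 2 * Real.sqrt 2 / 3 * ll a (2 * n + 1/2) := by
    filter_upwards [Ioo_mem_nhds h0 h1] with x hx
    have hs : 0 < Real.sin x := Real.sin_pos_of_pos_of_lt_pi hx.1 hx.2
    rw [H05_lam]
    field_simp
  refine (h2.congr_of_eventuallyEq heq).congr_deriv ?_
  ring

/-- Hence `S0 al (PL n) = σ_n PL n` with `σ_n = (d/da)(lam a n/sin a)/sin al` (choose `t` with `PL n t ≠ 0`; `L0_PL`); closed forms from `lam_zero`,
`lam_two`: `lam a 0/sin a = (pi/2)(1 - cos a)^2`, `lam a 2/sin a = (pi/8) s^2 (1 - 7 s/6)`. -/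
theorem S0_PL {al : ℝ} (hal : al ∈ JJ) : ∃ sg : ℕ → ℝ, (∀ n : ℕ, ∀ t : ℂ, 1 < t.im → S0 al (PL n) t = (sg n : ℂ) * PL n t) ∧
    sg 0 = Real.pi * (1 - Real.cos al) ∧ sg 2 = Real.pi * J4 al := by
  obtain ⟨j1, j2, j3, j4, j5, j6, j7⟩ := JJ_bounds hal
  have hpi := Real.pi_gt_three
  have hsin : Real.sin al ≠ 0 := by
    intro h; rw [h] at j6; norm_num at j6
  refine ⟨fun n => Real.sqrt 2 * l1 al (2 * n + 1/2), ?_, ?_, ?_⟩
  · intro n t ht
    have h1 := S0_deriv hal (PL_diff n) ht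
    have h2 := ((P01_lam (a := al) (by linarith) (by linarith) n).ofReal_comp.mul_const
      (PL n t)).hasDerivWithinAt (s := JJ)
    have h3 : HasDerivWithinAt (fun a : ℝ => L0 a (PL n) t / (Real.sin a : ℂ))
        (((Real.sin al * (Real.sqrt 2 * l1 al (2 * n + 1/2)) : ℝ) : ℂ) * PL n t) JJ al := by
      refine h2.congr_of_eventuallyEq ?_ ?_
      · filter_upwards [self_mem_nhdsWithin] with a ha
        rw [L0_PL ha n ht]
        push_cast
        ring
      · rw [L0_PL hal n ht]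
        push_cast
        ring
    have hu : UniqueDiffWithinAt ℝ JJ al := by
      have : al0 - 1/100 < al0 + 1/100 := by linarith
      exact uniqueDiffOn_Icc this al hal
    have h4 := hu.eq_deriv _ h1 h3
    have hsin' : (Real.sin al : ℂ) ≠ 0 := ofReal_ne_zero.2 hsin
    apply mul_left_cancel₀ hsin'
    rw [h4]
    push_cast
    ring
  · have h1 := P01_lam (a := al) (by linarith) (by linarith) 0
    have h2 : HasDerivAt (fun a : ℝ => Real.pi / 2 * (1 - Real.cos a) ^ 2)
        (Real.sin al * (Real.pi * (1 - Real.cos al))) al := by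
      have h3 := (((Real.hasDerivAt_cos al).const_sub 1).pow 2).const_mul (Real.pi / 2)
      refine h3.congr_deriv ?_
      norm_num
      ring
    have heq : (fun a => lam a 0 / Real.sin a) =ᶠ[𝓝 al]
        fun a : ℝ => Real.pi / 2 * (1 - Real.cos a) ^ 2 := by
      filter_upwards [Ioo_mem_nhds (a := 0) (b := Real.pi / 2) (by linarith) j3] with x hx
      have hs : 0 < Real.sin x := Real.sin_pos_of_pos_of_lt_pi hx.1 (by linarith [hx.2])
      rw [lam_zero hx.1 hx.2]
      field_simp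
    have h4 := (h2.congr_of_eventuallyEq heq).unique h1
    exact (mul_left_cancel₀ hsin h4).symm
  · have h1 := P01_lam (a := al) (by linarith) (by linarith) 2
    have h2 : HasDerivAt (fun a : ℝ => Real.pi / 8 * (Real.sin a ^ 4 * (1 - 7 * Real.sin a ^ 2 / 6)))
        (Real.sin al * (Real.pi * J4 al)) al := by
      have hs := Real.hasDerivAt_sin al
      have h3 := ((hs.pow 4).mul ((((hs.pow 2).const_mul 7).div_const 6).const_sub 1)).const_mul
        (Real.pi / 8)
      refine h3.congr_deriv ?_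
      unfold J4
      norm_num
      ring
    have heq : (fun a => lam a 2 / Real.sin a) =ᶠ[𝓝 al]
        fun a : ℝ => Real.pi / 8 * (Real.sin a ^ 4 * (1 - 7 * Real.sin a ^ 2 / 6)) := by
      filter_upwards [Ioo_mem_nhds (a := 0) (b := Real.pi / 2) (by linarith) j3] with x hx
      have hs : 0 < Real.sin x := Real.sin_pos_of_pos_of_lt_pi hx.1 (by linarith [hx.2])
      rw [lam_two hx.1 hx.2]
      field_simp
    have h4 := (h2.congr_of_eventuallyEq heq).unique h1
    exact (mul_left_cancel₀ hsin h4).symm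

end FB
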