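import Pool.Agent.H48.FB.P01
import Pool.Agent.H48.FB.G00

/-! P02: the first order equations at the circle. -/

open Complex Set MeasureTheory Filter Topology

noncomputable section

namespace FB

/-- `PL 2 b = 9/64 + (5/16) cos 2b + (35/64) cos 4b`. -/
theorem PL_two_cos (z : ℂ) : PL 2 z = 9/64 + 5/16 * cos (2 * z) + 35/64 * cos (4 * z) := by
  rw [PL_two, show (4 : ℂ) * z = 2 * (2 * z) by ring, Complex.cos_two_mul (2 * z),
    Complex.cos_two_mul z]
  ring

theorem P02_cc5 : cc 5 = 63 / 256 := by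
  have := cc_succ 4; rw [A10_cc_four] at this; norm_num at this; exact this
theorem P02_cc6 : cc 6 = 231 / 1024 := by
  have := cc_succ 5; rw [P02_cc5] at this; norm_num at this; exact this
theorem P02_cc7 : cc 7 = 429 / 2048 := by
  have := cc_succ 6; rw [P02_cc6] at this; norm_num at this; exact this
theorem P02_cc8 : cc 8 = 6435 / 32768 := by
  have := cc_succ 7; rw [P02_cc7] at this; norm_num at this; exact this

theorem P02_cos6 (z : ℂ) : cos (6 * z) = 32 * cos z ^ 6 - 48 * cos z ^ 4 + 18 * cos z ^ 2 - 1 := by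
  rw [show (6 : ℂ) * z = 3 * (2 * z) by ring, Complex.cos_three_mul, Complex.cos_two_mul]
  ring

theorem P02_cos4 (z : ℂ) : cos (4 * z) = 8 * cos z ^ 4 - 8 * cos z ^ 2 + 1 := by
  rw [show (4 : ℂ) * z = 2 * (2 * z) by ring, Complex.cos_two_mul (2 * z), Complex.cos_two_mul]
  ring

theorem P02_cos8 (z : ℂ) : cos (8 * z) =
    128 * cos z ^ 8 - 256 * cos z ^ 6 + 160 * cos z ^ 4 - 32 * cos z ^ 2 + 1 := by
  rw [show (8 : ℂ) * z = 2 * (4 * z) by ring, Complex.cos_two_mul (4 * z), P02_cos4]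
  ring

theorem P02_PL3 (z : ℂ) : PL 3 z =
    (231 * cos z ^ 6 - 315 * cos z ^ 4 + 105 * cos z ^ 2 - 5) / 16 := by
  rw [PL]
  simp only [Finset.sum_range_succ, Finset.sum_range_zero]
  norm_num [A10_cc_zero, A10_cc_one, A10_cc_two, A10_cc_three, A10_cc_four, P02_cc5, P02_cc6]
  rw [P02_cos6, P02_cos4, Complex.cos_two_mul]
  ring

theorem P02_PL4 (z : ℂ) : PL 4 z =
    (6435 * cos z ^ 8 - 12012 * cos z ^ 6 + 6930 * cos z ^ 4 - 1260 * cos z ^ 2 + 35) / 128 := by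
  rw [PL]
  simp only [Finset.sum_range_succ, Finset.sum_range_zero]
  norm_num [A10_cc_zero, A10_cc_one, A10_cc_two, A10_cc_three, A10_cc_four, P02_cc5, P02_cc6,
    P02_cc7, P02_cc8]
  rw [P02_cos8, P02_cos6, P02_cos4, Complex.cos_two_mul]
  ring

theorem PL_two_sq (z : ℂ) : PL 2 z ^ 2 = 1/9 + 100/693 * PL 1 z + 162/1001 * PL 2 z + 20/99 * PL 3 z + 490/1287 * PL 4 z := by
  rw [P02_PL3, P02_PL4, PL_two, PL_one]
  ring

/-! bounds of the constants -/

theorem P02_J4 (al : ℝ) : |J4 al| ≤ 1 / 2 := by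
  have hs := Real.sin_sq_le_one al
  have hs0 := sq_nonneg (Real.sin al)
  have hc := Real.abs_cos_le_one al
  have h1 : |Real.cos al * (Real.sin al) ^ 2| ≤ 1 := by
    rw [abs_mul, abs_of_nonneg hs0]
    calc |Real.cos al| * Real.sin al ^ 2 ≤ 1 * 1 :=
          mul_le_mul hc hs hs0 zero_le_one
      _ = 1 := by norm_num
  have h2 : |2 - 7 * (Real.sin al) ^ 2 / 2| ≤ 2 := by
    rw [abs_le]; constructor <;> nlinarith
  have h3 : J4 al = (Real.cos al * (Real.sin al) ^ 2) * (2 - 7 * (Real.sin al) ^ 2 / 2) / 4 := by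
    rw [J4]; ring
  rw [h3, abs_div, abs_mul, abs_of_pos (by norm_num : (0:ℝ) < 4)]
  have := mul_le_mul h1 h2 (abs_nonneg _) zero_le_one
  linarith

theorem P02_c0 {al : ℝ} (hal : al ∈ JJ) : |c0c al| ≤ 1 := by
  obtain ⟨-, -, -, c1, c2, s1, s2⟩ := JJ_bounds hal
  have hJ := abs_le.1 (P02_J4 al)
  have h4 : (0.7 : ℝ) ≤ Real.sin al ^ 4 := by
    have : (0.92 : ℝ) ^ 4 ≤ Real.sin al ^ 4 := pow_le_pow_left₀ (by norm_num) s1.le 4
    norm_num at this ⊢; linarith
  have hss : Real.sin al ^ 2 ≤ 1 := Real.sin_sq_le_one al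
  have hs0 : 0 ≤ Real.sin al ^ 2 := sq_nonneg _
  have hcs : |Real.cos al * (Real.sin al) ^ 2| ≤ 1 := by
    rw [abs_of_nonneg (by positivity)]; nlinarith
  have hcs' := abs_le.1 hcs
  have h2 : |2 * J4 al - Real.cos al * (Real.sin al) ^ 2| ≤ 2 := by
    rw [abs_le]; constructor <;> linarith
  rw [c0c, abs_div, abs_of_pos (by positivity : 0 < Real.sin al ^ 4), div_le_one (by positivity),
    abs_mul]
  have h3 : |-2 * Real.cos al * (9 / 64)| ≤ 0.2 := by
    rw [abs_le]; constructor <;> linarith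
  have := mul_le_mul h3 h2 (abs_nonneg _) (by norm_num)
  linarith

theorem P02_sin2 {al : ℝ} (hal : al ∈ JJ) : 0.6 ≤ Real.sin (2 * al) := by
  obtain ⟨-, -, -, c1, c2, s1, s2⟩ := JJ_bounds hal
  rw [Real.sin_two_mul]; nlinarith

theorem P02_sin4 {al : ℝ} (hal : al ∈ JJ) : Real.sin (4 * al) ≤ -0.6 := by
  obtain ⟨-, -, -, c1, c2, s1, s2⟩ := JJ_bounds hal
  have h := P02_sin2 hal
  have h1 : Real.cos (2 * al) ≤ -0.65 := by
    rw [Real.cos_two_mul]; nlinarith
  rw [show 4 * al = 2 * (2 * al) by ring, Real.sin_two_mul]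
  nlinarith

theorem P02_tk {al : ℝ} (hal : al ∈ JJ) {p k : ℝ} (hp0 : 0 ≤ p) (hp : p ≤ 1)
    (hk : 0.6 ≤ |Real.sin (2 * k * al)|) : |tk al p k| ≤ 10 := by
  obtain ⟨-, -, -, c1, c2, s1, s2⟩ := JJ_bounds hal
  have hJ := abs_le.1 (P02_J4 al)
  have h3 : (0.7 : ℝ) ≤ Real.sin al ^ 3 := by
    have : (0.92 : ℝ) ^ 3 ≤ Real.sin al ^ 3 := pow_le_pow_left₀ (by norm_num) s1.le 3
    norm_num at this ⊢; linarith
  have hss : Real.sin al ^ 2 ≤ 1 := Real.sin_sq_le_one al
  have hs0 : 0 ≤ Real.sin al ^ 2 := sq_nonneg _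
  have hcs : |(Real.sin al) ^ 2 * Real.cos al * Real.cos (2 * k * al)| ≤ 1 := by
    rw [abs_mul, abs_mul, abs_of_nonneg hs0]
    have h1 := mul_le_mul hss (Real.abs_cos_le_one al) (abs_nonneg _) zero_le_one
    have h2 := mul_le_mul h1 (Real.abs_cos_le_one (2 * k * al)) (abs_nonneg _) (by norm_num)
    linarith
  have hcs' := abs_le.1 hcs
  have h2 : |-2 * J4 al + (Real.sin al) ^ 2 * Real.cos al * Real.cos (2 * k * al)| ≤ 2 := by
    rw [abs_le]; constructor <;> linarith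
  have hd : 0.42 ≤ |(Real.sin al) ^ 3 * Real.sin (2 * k * al)| := by
    rw [abs_mul, abs_of_pos (by positivity : 0 < Real.sin al ^ 3)]
    have := mul_le_mul h3 hk (by norm_num) (by positivity)
    linarith
  rw [tk, abs_div, div_le_iff₀ (by linarith), abs_mul, abs_of_nonneg hp0]
  have := mul_le_mul hp h2 (abs_nonneg _) zero_le_one
  linarith

theorem P02_v1 {al : ℝ} (hal : al ∈ JJ) : |v1c al| ≤ 10 := by
  obtain ⟨a1, a2, a3, c1, c2, s1, s2⟩ := JJ_bounds hal
  have h0 := P02_c0 hal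
  have e : v1c al = -(Real.pi / 2 * (1 - Real.cos al) ^ 2 / Real.cos al) * c0c al := by
    rw [v1c, lam_zero (by linarith) a3]
    have : Real.sin al ≠ 0 := by linarith
    have : Real.cos al ≠ 0 := by linarith
    field_simp
  rw [e, abs_mul, abs_neg]
  have hpi := Real.pi_lt_four
  have hpi0 := Real.pi_pos
  have h1 : |Real.pi / 2 * (1 - Real.cos al) ^ 2 / Real.cos al| ≤ 10 := by
    rw [abs_of_nonneg (by positivity), div_le_iff₀ (by linarith)]
    nlinarith
  have := mul_le_mul h1 h0 (abs_nonneg _) (by norm_num)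
  linarith

theorem P02_mu1 {al : ℝ} (hal : al ∈ JJ) : |mu1c al| ≤ 10 * |lam al 2| := by
  obtain ⟨a1, a2, a3, c1, c2, s1, s2⟩ := JJ_bounds hal
  rw [mu1c, abs_div, abs_mul, abs_of_pos (by linarith : 0 < Real.sin al),
    div_le_iff₀ (by linarith)]
  have : |(-2 : ℝ)| = 2 := by norm_num
  rw [this]
  have h := abs_nonneg (lam al 2)
  nlinarith

theorem P02_mul {x y : ℂ} {p q : ℝ} (hx : ‖x‖ ≤ p) (hy : ‖y‖ ≤ q) : ‖x * y‖ ≤ p * q := by
  rw [norm_mul]
  exact mul_le_mul hx hy (norm_nonneg _) ((norm_nonneg _).trans hx)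

theorem P02_ncos {w : ℂ} {R : ℝ} (h : |w.im| ≤ R) : ‖cos w‖ ≤ Real.exp R := A10_norm_cos_le h

theorem P02_nsin {w : ℂ} {R : ℝ} (h : |w.im| ≤ R) : ‖sin w‖ ≤ Real.exp R := by
  have : sin w = cos (w - (Real.pi / 2 : ℝ)) := by
    push_cast
    rw [Complex.cos_sub_pi_div_two]
  rw [this]
  apply A10_norm_cos_le
  simpa using h

theorem P02_trig {R : ℝ} {z : ℂ} (hz : |z.im| ≤ R) :
    ‖cos z‖ ≤ Real.exp (4 * R) ∧ ‖sin z‖ ≤ Real.exp (4 * R) ∧ ‖cos (2 * z)‖ ≤ Real.exp (4 * R) ∧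
    ‖sin (2 * z)‖ ≤ Real.exp (4 * R) ∧ ‖cos (4 * z)‖ ≤ Real.exp (4 * R) ∧
    ‖sin (4 * z)‖ ≤ Real.exp (4 * R) := by
  have h0 : 0 ≤ |z.im| := abs_nonneg _
  have h1 : |z.im| ≤ 4 * R := by linarith
  have h2 : |(2 * z).im| ≤ 4 * R := by
    have : (2 * z).im = 2 * z.im := by simp
    rw [this, abs_mul, abs_of_pos (by norm_num : (0:ℝ) < 2)]; linarith
  have h4 : |(4 * z).im| ≤ 4 * R := by
    have : (4 * z).im = 4 * z.im := by simp
    rw [this, abs_mul, abs_of_pos (by norm_num : (0:ℝ) < 4)]; linarith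
  exact ⟨P02_ncos h1, P02_nsin h1, P02_ncos h2, P02_nsin h2, P02_ncos h4, P02_nsin h4⟩

/-! the functions -/

theorem P02_a1_eq (al : ℝ) : a1f al = fun z => 9/64 + 5/16 * cos (2 * z) + 35/64 * cos (4 * z) +
    (c0c al : ℂ) / 2 := by
  ext z; rw [a1f, PL_two_cos]

def P02_da (b : ℂ) : ℂ := -(5/8 * sin (2 * b)) - 35/16 * sin (4 * b)
def P02_dt (al : ℝ) (b : ℂ) : ℂ := 2 * (tk al (5/16) 1 : ℂ) * cos (2 * b) +
  4 * (tk al (35/64) 2 : ℂ) * cos (4 * b)

theorem P02_hc2 (k : ℂ) (b : ℂ) : HasDerivAt (fun z => cos (k * z)) (-(k * sin (k * b))) b := by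
  have h1 : HasDerivAt (fun z : ℂ => k * z) k b := by
    simpa using (hasDerivAt_id b).const_mul k
  exact ((Complex.hasDerivAt_cos (k * b)).comp b h1).congr_deriv (by ring)

theorem P02_hs2 (k : ℂ) (b : ℂ) : HasDerivAt (fun z => sin (k * z)) (k * cos (k * b)) b := by
  have h1 : HasDerivAt (fun z : ℂ => k * z) k b := by
    simpa using (hasDerivAt_id b).const_mul k
  exact ((Complex.hasDerivAt_sin (k * b)).comp b h1).congr_deriv (by ring)

theorem P02_da1 (al : ℝ) (b : ℂ) : HasDerivAt (a1f al) (P02_da b) b := by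
  rw [P02_a1_eq]
  have := ((((P02_hc2 2 b).const_mul (5/16)).const_add (9/64)).add
    ((P02_hc2 4 b).const_mul (35/64))).add_const ((c0c al : ℂ) / 2)
  exact this.congr_deriv (by rw [P02_da]; ring)

theorem P02_dt1 (al : ℝ) (b : ℂ) : HasDerivAt (t1f al) (P02_dt al b) b := by
  have := ((P02_hs2 2 b).const_mul (tk al (5/16) 1 : ℂ)).add
    ((P02_hs2 4 b).const_mul (tk al (35/64) 2 : ℂ))
  exact this.congr_deriv (by rw [P02_dt]; ring)

theorem P02_dA (al : ℝ) (b : ℂ) : HasDerivAt (Af1 al)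
    (P02_da b * cos b + a1f al b * (-sin b) - (P02_dt al b * sin b + t1f al b * cos b)) b :=
  ((P02_da1 al b).mul (Complex.hasDerivAt_cos b)).sub
    ((P02_dt1 al b).mul (Complex.hasDerivAt_sin b))

theorem P02_dB (al : ℝ) (b : ℂ) : HasDerivAt (Bf1 al)
    (P02_da b * sin b + a1f al b * cos b + (P02_dt al b * cos b + t1f al b * (-sin b))) b :=
  ((P02_da1 al b).mul (Complex.hasDerivAt_sin b)).add
    ((P02_dt1 al b).mul (Complex.hasDerivAt_cos b))

theorem P02_a_neg (al : ℝ) (z : ℂ) : a1f al (-z) = a1f al z := by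
  rw [a1f, a1f, PL_neg]

theorem P02_t_neg (al : ℝ) (z : ℂ) : t1f al (-z) = - t1f al z := by
  simp only [t1f, mul_neg, Complex.sin_neg]; ring

theorem P02_a_pi (al : ℝ) (z : ℂ) : a1f al (z + (Real.pi : ℂ)) = a1f al z := by
  rw [a1f, a1f, PL_pi]

theorem P02_t_pi (al : ℝ) (z : ℂ) : t1f al (z + (Real.pi : ℂ)) = t1f al z := by
  have h2 : sin (2 * (z + (Real.pi : ℂ))) = sin (2 * z) := by
    rw [show 2 * (z + (Real.pi : ℂ)) = 2 * z + 2 * (Real.pi : ℂ) by ring, Complex.sin_add_two_pi]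
  have h4 : sin (4 * (z + (Real.pi : ℂ))) = sin (4 * z) := by
    rw [show 4 * (z + (Real.pi : ℂ)) = (4 * z + 2 * (Real.pi : ℂ)) + 2 * (Real.pi : ℂ) by ring,
      Complex.sin_add_two_pi, Complex.sin_add_two_pi]
  rw [t1f, t1f, h2, h4]

theorem P02_a_conj (al : ℝ) (z : ℂ) : a1f al ((starRingEnd ℂ) z) = (starRingEnd ℂ) (a1f al z) := by
  rw [a1f, a1f, PL_conj, map_add, map_div₀, Complex.conj_ofReal, map_ofNat]

theorem P02_t_conj (al : ℝ) (z : ℂ) : t1f al ((starRingEnd ℂ) z) = (starRingEnd ℂ) (t1f al z) := by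
  rw [t1f, t1f, map_add, map_mul, map_mul, Complex.conj_ofReal, Complex.conj_ofReal,
    ← Complex.sin_conj, ← Complex.sin_conj, map_mul, map_mul, map_ofNat, map_ofNat]

theorem P02_sym (R al : ℝ) : Sym R (Af1 al) (Bf1 al) where
  eZ z _ := by
    rw [Af1, Af1, P02_a_neg, P02_t_neg, Complex.cos_neg, Complex.sin_neg]; ring
  oX z _ := by
    rw [Bf1, Bf1, P02_a_neg, P02_t_neg, Complex.cos_neg, Complex.sin_neg]; ring
  aZ z _ := by
    rw [Af1, Af1, P02_a_pi, P02_t_pi, Complex.cos_add_pi, Complex.sin_add_pi]; ring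
  aX z _ := by
    rw [Bf1, Bf1, P02_a_pi, P02_t_pi, Complex.cos_add_pi, Complex.sin_add_pi]; ring

theorem P02_real (R al : ℝ) : RealC R (Af1 al) (Bf1 al) where
  rZ z _ := by
    rw [Af1, Af1, P02_a_conj, P02_t_conj, map_sub, map_mul, map_mul, Complex.cos_conj,
      Complex.sin_conj]
  rX z _ := by
    rw [Bf1, Bf1, P02_a_conj, P02_t_conj, map_add, map_mul, map_mul, Complex.cos_conj,
      Complex.sin_conj]

theorem P02_cf {x : ℝ} {K : ℝ} (h : |x| ≤ K) : ‖(x : ℂ)‖ ≤ K := by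
  rw [Complex.norm_real]; exact h

theorem P02_bounds {al : ℝ} (hal : al ∈ JJ) {R : ℝ} {z : ℂ} (hz : |z.im| ≤ R) (hR : 0 ≤ R) :
    ‖a1f al z‖ ≤ 2 * Real.exp (4 * R) ∧ ‖t1f al z‖ ≤ 20 * Real.exp (4 * R) ∧
    ‖P02_da z‖ ≤ 3 * Real.exp (4 * R) ∧ ‖P02_dt al z‖ ≤ 60 * Real.exp (4 * R) := by
  obtain ⟨h1, h2, h3, h4, h5, h6⟩ := P02_trig hz
  set E := Real.exp (4 * R)
  have hE : 1 ≤ E := Real.one_le_exp (by linarith)
  have hc := P02_cf (P02_c0 hal)
  have ht1 : |tk al (5/16) 1| ≤ 10 := P02_tk hal (by norm_num) (by norm_num) (by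
    have := P02_sin2 hal
    rw [show (2 : ℝ) * 1 * al = 2 * al by ring, abs_of_pos (by linarith)]; exact this)
  have ht2 : |tk al (35/64) 2| ≤ 10 := P02_tk hal (by norm_num) (by norm_num) (by
    have := P02_sin4 hal
    rw [show (2 : ℝ) * 2 * al = 4 * al by ring, abs_of_neg (by linarith)]; linarith)
  have k1 := P02_cf ht1
  have k2 := P02_cf ht2
  refine ⟨?_, ?_, ?_, ?_⟩
  · rw [a1f, PL_two_cos]
    have n1 : ‖(5/16 : ℂ) * cos (2 * z)‖ ≤ 5/16 * E := P02_mul (by norm_num) h3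
    have n2 : ‖(35/64 : ℂ) * cos (4 * z)‖ ≤ 35/64 * E := P02_mul (by norm_num) h5
    have n3 : ‖(9/64 : ℂ)‖ ≤ 9/64 := by norm_num
    have n4 : ‖(c0c al : ℂ) / 2‖ ≤ 1/2 := by
      rw [norm_div]; norm_num; norm_num at hc; linarith
    have := norm_add₄_le (a := (9/64 : ℂ)) (b := (5/16 : ℂ) * cos (2 * z))
      (c := (35/64 : ℂ) * cos (4 * z)) (d := (c0c al : ℂ) / 2)
    linarith
  · rw [t1f]
    have n1 := P02_mul k1 h4
    have n2 := P02_mul k2 h6
    have := norm_add_le ((tk al (5/16) 1 : ℂ) * sin (2 * z)) ((tk al (35/64) 2 : ℂ) * sin (4 * z))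
    linarith
  · rw [P02_da]
    have n1 : ‖(5/8 : ℂ) * sin (2 * z)‖ ≤ 5/8 * E := P02_mul (by norm_num) h4
    have n2 : ‖(35/16 : ℂ) * sin (4 * z)‖ ≤ 35/16 * E := P02_mul (by norm_num) h6
    have := norm_sub_le (-((5/8 : ℂ) * sin (2 * z))) ((35/16 : ℂ) * sin (4 * z))
    rw [norm_neg] at this
    linarith
  · rw [P02_dt]
    have n1 : ‖2 * (tk al (5/16) 1 : ℂ) * cos (2 * z)‖ ≤ 2 * 10 * E :=
      P02_mul (P02_mul (by norm_num) k1) h3
    have n2 : ‖4 * (tk al (35/64) 2 : ℂ) * cos (4 * z)‖ ≤ 4 * 10 * E :=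
      P02_mul (P02_mul (by norm_num) k2) h5
    have := norm_add_le (2 * (tk al (5/16) 1 : ℂ) * cos (2 * z))
      (4 * (tk al (35/64) 2 : ℂ) * cos (4 * z))
    linarith

/-- symmetries and bounds of the first order direction (entire functions) -/
theorem dir1_props (R : ℝ) (hR : 1 ≤ R) : ∃ C : ℝ, 1 ≤ C ∧ ∀ al ∈ JJ, Sym R (Af1 al) (Bf1 al) ∧ RealC R (Af1 al) (Bf1 al) ∧
    DirBd C (-R) R (Af1 al) (Bf1 al) ∧ |c0c al| ≤ C ∧ |v1c al| ≤ C ∧ |mu1c al| ≤ C * |lam al 2| ∧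
    Differentiable ℂ (Af1 al) ∧ Differentiable ℂ (Bf1 al) ∧ Differentiable ℂ (a1f al) ∧ Differentiable ℂ (t1f al) := by
  set E := Real.exp (4 * R) with hEdef
  have hE : 1 ≤ E := Real.one_le_exp (by linarith)
  have hEE : 1 ≤ E * E := by nlinarith
  refine ⟨100 * (E * E), by linarith, ?_⟩
  intro al hal
  have hdA : Differentiable ℂ (Af1 al) := fun z => (P02_dA al z).differentiableAt
  have hdB : Differentiable ℂ (Bf1 al) := fun z => (P02_dB al z).differentiableAt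
  have hb : ∀ z ∈ band (-R) R, |z.im| ≤ R := fun z hz => abs_le.2 ⟨hz.1.le, hz.2.le⟩
  refine ⟨P02_sym R al, P02_real R al, ?_, ?_, ?_, ?_, hdA, hdB,
    fun z => (P02_da1 al z).differentiableAt, fun z => (P02_dt1 al z).differentiableAt⟩
  · refine ⟨hdA.differentiableOn, hdB.differentiableOn, ?_, ?_, ?_, ?_⟩
    · intro z hz
      obtain ⟨h1, h2, h3, h4, h5, h6⟩ := P02_trig (hb z hz)
      obtain ⟨b1, b2, b3, b4⟩ := P02_bounds hal (hb z hz) (by linarith)
      have n1 := P02_mul b1 h1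
      have n2 := P02_mul b2 h2
      have := norm_sub_le (a1f al z * cos z) (t1f al z * sin z)
      rw [Af1]
      rw [← hEdef] at n1 n2
      nlinarith
    · intro z hz
      obtain ⟨h1, h2, h3, h4, h5, h6⟩ := P02_trig (hb z hz)
      obtain ⟨b1, b2, b3, b4⟩ := P02_bounds hal (hb z hz) (by linarith)
      have n1 := P02_mul b1 h2
      have n2 := P02_mul b2 h1
      have := norm_add_le (a1f al z * sin z) (t1f al z * cos z)
      rw [Bf1]
      rw [← hEdef] at n1 n2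
      nlinarith
    · intro z hz
      obtain ⟨h1, h2, h3, h4, h5, h6⟩ := P02_trig (hb z hz)
      obtain ⟨b1, b2, b3, b4⟩ := P02_bounds hal (hb z hz) (by linarith)
      have n1 := P02_mul b3 h1
      have n2 := P02_mul b1 h2
      have n3 := P02_mul b4 h2
      have n4 := P02_mul b2 h1
      rw [(P02_dA al z).deriv]
      have e1 := norm_sub_le (P02_da z * cos z + a1f al z * (-sin z))
        (P02_dt al z * sin z + t1f al z * cos z)
      have e2 := norm_add_le (P02_da z * cos z) (a1f al z * (-sin z))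
      have e3 := norm_add_le (P02_dt al z * sin z) (t1f al z * cos z)
      rw [mul_neg, norm_neg] at e2
      rw [mul_neg] at e1
      rw [mul_neg]
      rw [← hEdef] at n1 n2 n3 n4
      nlinarith
    · intro z hz
      obtain ⟨h1, h2, h3, h4, h5, h6⟩ := P02_trig (hb z hz)
      obtain ⟨b1, b2, b3, b4⟩ := P02_bounds hal (hb z hz) (by linarith)
      have n1 := P02_mul b3 h2
      have n2 := P02_mul b1 h1
      have n3 := P02_mul b4 h1
      have n4 := P02_mul b2 h2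
      rw [(P02_dB al z).deriv]
      have e1 := norm_add_le (P02_da z * sin z + a1f al z * cos z)
        (P02_dt al z * cos z + t1f al z * (-sin z))
      have e2 := norm_add_le (P02_da z * sin z) (a1f al z * cos z)
      have e3 := norm_add_le (P02_dt al z * cos z) (t1f al z * (-sin z))
      rw [mul_neg, norm_neg] at e3
      rw [mul_neg] at e1
      rw [mul_neg]
      rw [← hEdef] at n1 n2 n3 n4
      nlinarith
  · have := P02_c0 hal; linarith
  · have := P02_v1 hal; linarith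
  · have := P02_mu1 hal
    have h := abs_nonneg (lam al 2)
    nlinarith

/-! linearity at the circle -/

theorem P02_lin {al : ℝ} (hal : al ∈ JJ) {A B A' B' : ℂ → ℂ} (hA : Continuous A)
    (hB : Continuous B) (hA' : Continuous A') (hB' : Continuous B') {t : ℂ} (ht : 1 < t.im)
    (p q : ℂ) :
    DV al cos sin (fun z => p * A z + q * A' z) (fun z => p * B z + q * B' z) t =
        p * DV al cos sin A B t + q * DV al cos sin A' B' t ∧
      DS0 al cos sin (fun z => p * A z + q * A' z) (fun z => p * B z + q * B' z) t =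
        p * DS0 al cos sin A B t + q * DS0 al cos sin A' B' t := by
  obtain ⟨c0, hc0, H⟩ := DV_add (t.im + 1) (by linarith)
  have h := H al hal 1 (t.im + 1) le_rfl le_rfl cos sin (d05_NB hc0.le) A B A' B'
    hA.continuousOn hB.continuousOn hA'.continuousOn hB'.continuousOn t ⟨ht, by linarith⟩ p q
  exact ⟨h.1, h.2.1⟩

theorem P02_cPL (n : ℕ) : Continuous (PL n) := (PL_diff n).continuous

theorem P02_ct (al : ℝ) : Continuous (t1f al) :=
  continuous_iff_continuousAt.2 fun z => (P02_dt1 al z).continuousAt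

theorem P02_Aeq (al : ℝ) : Af1 al = fun z => 2 * (PL 2 z / 2 * cos z) +
    1 * ((c0c al : ℂ) * (PL 0 z / 2 * cos z) + 1 * (t1f al z * (- sin z))) := by
  ext z; rw [Af1, a1f, PL_zero]; ring

theorem P02_Beq (al : ℝ) : Bf1 al = fun z => 2 * (PL 2 z / 2 * sin z) +
    1 * ((c0c al : ℂ) * (PL 0 z / 2 * sin z) + 1 * (t1f al z * cos z)) := by
  ext z; rw [Bf1, a1f, PL_zero]; ring

theorem P02_split {al : ℝ} (hal : al ∈ JJ) {t : ℂ} (ht : 1 < t.im) :
    DV al cos sin (Af1 al) (Bf1 al) t =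
      2 * DV al cos sin (fun z => PL 2 z / 2 * cos z) (fun z => PL 2 z / 2 * sin z) t +
      ((c0c al : ℂ) * DV al cos sin (fun z => PL 0 z / 2 * cos z) (fun z => PL 0 z / 2 * sin z) t +
        DV al cos sin (fun z => t1f al z * (- sin z)) (fun z => t1f al z * cos z) t) ∧
    DS0 al cos sin (Af1 al) (Bf1 al) t =
      2 * DS0 al cos sin (fun z => PL 2 z / 2 * cos z) (fun z => PL 2 z / 2 * sin z) t +
      ((c0c al : ℂ) * DS0 al cos sin (fun z => PL 0 z / 2 * cos z) (fun z => PL 0 z / 2 * sin z) t +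
        DS0 al cos sin (fun z => t1f al z * (- sin z)) (fun z => t1f al z * cos z) t) := by
  have c2 := P02_cPL 2
  have c0 := P02_cPL 0
  have ct := P02_ct al
  have cc := Complex.continuous_cos
  have cs := Complex.continuous_sin
  have k1 : Continuous fun z => PL 2 z / 2 * cos z := (c2.div_const 2).mul cc
  have k2 : Continuous fun z => PL 2 z / 2 * sin z := (c2.div_const 2).mul cs
  have k3 : Continuous fun z => PL 0 z / 2 * cos z := (c0.div_const 2).mul cc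
  have k4 : Continuous fun z => PL 0 z / 2 * sin z := (c0.div_const 2).mul cs
  have k5 : Continuous fun z => t1f al z * (- sin z) := ct.mul cs.neg
  have k6 : Continuous fun z => t1f al z * cos z := ct.mul cc
  have k7 : Continuous fun z => (c0c al : ℂ) * (PL 0 z / 2 * cos z) + 1 * (t1f al z * (- sin z)) :=
    (k3.const_mul _).add (k5.const_mul _)
  have k8 : Continuous fun z => (c0c al : ℂ) * (PL 0 z / 2 * sin z) + 1 * (t1f al z * cos z) :=
    (k4.const_mul _).add (k6.const_mul _)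
  have h1 := P02_lin hal k1 k2 k7 k8 ht 2 1
  have h2 := P02_lin hal k3 k4 k5 k6 ht (c0c al : ℂ) 1
  rw [P02_Aeq, P02_Beq]
  constructor
  · rw [h1.1, h2.1]; ring
  · rw [h1.2, h2.2]; ring

theorem P02_band {t : ℂ} (ht : 1 < t.im) : t ∈ band 1 (t.im + 1) := ⟨ht, by linarith⟩

theorem P02_S0 {al : ℝ} (hal : al ∈ JJ) {t : ℂ} (ht : 1 < t.im) :
    S0 al (PL 0) t = (Real.pi : ℂ) * (1 - (Real.cos al : ℂ)) ∧
    S0 al (PL 2) t = (Real.pi : ℂ) * (J4 al : ℂ) * PL 2 t := by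
  obtain ⟨sg, h, h0, h2⟩ := S0_PL hal
  constructor
  · rw [h 0 t ht, h0, PL_zero]; push_cast; ring
  · rw [h 2 t ht, h2]; push_cast; ring

theorem P02_PLsum (al : ℝ) (t : ℂ) : PL 2 (t + al) + PL 2 (t - al) = 9/32 +
    5/8 * cos (2 * t) * (Real.cos (2 * al) : ℂ) + 35/32 * cos (4 * t) * (Real.cos (4 * al) : ℂ) := by
  rw [PL_two_cos, PL_two_cos, show 2 * (t + (al:ℂ)) = 2 * t + 2 * al by ring,
    show 2 * (t - (al:ℂ)) = 2 * t - 2 * al by ring, show 4 * (t + (al:ℂ)) = 4 * t + 4 * al by ring,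
    show 4 * (t - (al:ℂ)) = 4 * t - 4 * al by ring, Complex.cos_add, Complex.cos_sub,
    Complex.cos_add, Complex.cos_sub]
  push_cast
  ring

theorem P02_tdiff (al : ℝ) (t : ℂ) : t1f al (t + al) - t1f al (t - al) =
    2 * (tk al (5/16) 1 : ℂ) * cos (2 * t) * (Real.sin (2 * al) : ℂ) +
    2 * (tk al (35/64) 2 : ℂ) * cos (4 * t) * (Real.sin (4 * al) : ℂ) := by
  rw [t1f, t1f, show 2 * (t + (al:ℂ)) = 2 * t + 2 * al by ring,
    show 2 * (t - (al:ℂ)) = 2 * t - 2 * al by ring, show 4 * (t + (al:ℂ)) = 4 * t + 4 * al by ring,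
    show 4 * (t - (al:ℂ)) = 4 * t - 4 * al by ring, Complex.sin_add, Complex.sin_sub,
    Complex.sin_add, Complex.sin_sub]
  push_cast
  ring

theorem P02_tk_eq {al : ℝ} (hal : al ∈ JJ) :
    (Real.sin al) ^ 3 * (tk al (5/16) 1 * Real.sin (2 * al)) =
      5/16 * (-2 * J4 al + (Real.sin al) ^ 2 * Real.cos al * Real.cos (2 * al)) ∧
    (Real.sin al) ^ 3 * (tk al (35/64) 2 * Real.sin (4 * al)) =
      35/64 * (-2 * J4 al + (Real.sin al) ^ 2 * Real.cos al * Real.cos (4 * al)) := by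
  obtain ⟨-, -, -, c1, c2, s1, s2⟩ := JJ_bounds hal
  have h2 := P02_sin2 hal
  have h4 := P02_sin4 hal
  have hs : Real.sin al ≠ 0 := by linarith
  have h2' : Real.sin (2 * al) ≠ 0 := by linarith
  have h4' : Real.sin (4 * al) ≠ 0 := by linarith
  constructor
  · rw [tk, show (2 : ℝ) * 1 * al = 2 * al by ring]
    field_simp
  · rw [tk, show (2 : ℝ) * 2 * al = 4 * al by ring]
    field_simp

theorem P02_const {al : ℝ} (hal : al ∈ JJ) :
    2 * Real.pi * J4 al * (9/64) - Real.pi / 2 * Real.sin al ^ 2 * Real.cos al * (9/32) +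
      c0c al * (Real.pi * (1 - Real.cos al)) -
      Real.pi / 2 * c0c al * Real.sin al ^ 2 * Real.cos al = v1c al := by
  obtain ⟨a1, a2, a3, c1, c2, s1, s2⟩ := JJ_bounds hal
  have hs : Real.sin al ≠ 0 := by linarith
  have hc : Real.cos al ≠ 0 := by linarith
  have e1 : c0c al * Real.sin al ^ 4 = -2 * Real.cos al * (9/64) *
      (2 * J4 al - Real.cos al * (Real.sin al) ^ 2) := by
    rw [c0c]; field_simp
  have e2 : v1c al * Real.cos al = -(Real.pi / 2 * (1 - Real.cos al) ^ 2) * c0c al := by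
    rw [v1c, lam_zero (by linarith) a3]; field_simp
  have hss : Real.sin al ^ 2 = 1 - Real.cos al ^ 2 := Real.sin_sq al
  have e3 : Real.sin al ^ 4 = (1 - Real.cos al ^ 2) ^ 2 := by rw [← hss]; ring
  apply mul_right_cancel₀ hc
  rw [e2]
  rw [e3] at e1
  rw [hss] at e1 ⊢
  linear_combination (Real.pi / 2) * e1

/-- `(Af1, Bf1) = (a cos, a sin) + (- τ sin, τ cos)`, `a = a1f`, `τ = t1f`. By G00, linearity (`DV_add`):
`DS0 = L0 (2a) = 2 lam_2 PL 2 + lam_0 c0c`, and `v1c sin cos = - lam_0 c0c`, `mu1c sin al = - 2 lam_2`.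
`DV = S0 (2a) - (pi/2) s c (a(t+al) + a(t-al)) + (pi/2) sin^3 al (τ(t+al) - τ(t-al))`, `S0 (2a) = 2 pi J4 PL 2 + pi (1-c) c0c`; compare the coefficients of
`cos 2t`, `cos 4t` (definition of `tk`) and the constant term (definition of `c0c`, `v1c`, `lam_zero`). -/
theorem first_order {al : ℝ} (hal : al ∈ JJ) {t : ℂ} (ht : 1 < t.im) :
    DS0 al cos sin (Af1 al) (Bf1 al) t + (v1c al : ℂ) * ((Real.sin al : ℂ) * (Real.cos al : ℂ)) +
      (mu1c al : ℂ) * ((Real.sin al : ℂ) * PL 2 t) = 0 ∧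
    DV al cos sin (Af1 al) (Bf1 al) t = (v1c al : ℂ) := by
  obtain ⟨a1, a2, a3, c1, c2, s1, s2⟩ := JJ_bounds hal
  have hs : Real.sin al ≠ 0 := by linarith
  have hc : Real.cos al ≠ 0 := by linarith
  have hsp := P02_split hal ht
  have hb := P02_band ht
  have d2 := DS0_circle hal (f := PL 2) (P02_cPL 2).continuousOn hb
  have d0 := DS0_circle hal (f := PL 0) (P02_cPL 0).continuousOn hb
  have dt := DS0_circle_tan hal (τ := t1f al) hb
  have hS := P02_S0 hal ht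
  constructor
  · rw [hsp.2, d2.1, d0.1, dt.1, L0_PL hal 2 ht, L0_PL hal 0 ht, PL_zero]
    have e1 : v1c al * (Real.sin al * Real.cos al) = -(lam al 0 * c0c al) := by
      rw [v1c]; field_simp
    have e2 : mu1c al * Real.sin al = -2 * lam al 2 := by
      rw [mu1c]; field_simp
    have e1' : (v1c al : ℂ) * ((Real.sin al : ℂ) * (Real.cos al : ℂ)) =
        -((lam al 0 : ℂ) * (c0c al : ℂ)) := by exact_mod_cast e1
    have e2' : (mu1c al : ℂ) * (Real.sin al : ℂ) = -2 * (lam al 2 : ℂ) := by exact_mod_cast e2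
    linear_combination e1' + PL 2 t * e2'
  · rw [hsp.1, d2.2, d0.2, dt.2, hS.1, hS.2, P02_PLsum, P02_tdiff, PL_zero, PL_zero]
    obtain ⟨k1, k2⟩ := P02_tk_eq hal
    have k3 := P02_const hal
    have k1' : (Real.sin al : ℂ) ^ 3 * ((tk al (5/16) 1 : ℂ) * (Real.sin (2 * al) : ℂ)) =
      5/16 * (-2 * (J4 al : ℂ) + (Real.sin al : ℂ) ^ 2 * (Real.cos al : ℂ) *
        (Real.cos (2 * al) : ℂ)) := by
      have := congrArg Complex.ofReal k1
      push_cast at this ⊢
      exact this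
    have k2' : (Real.sin al : ℂ) ^ 3 * ((tk al (35/64) 2 : ℂ) * (Real.sin (4 * al) : ℂ)) =
      35/64 * (-2 * (J4 al : ℂ) + (Real.sin al : ℂ) ^ 2 * (Real.cos al : ℂ) *
        (Real.cos (4 * al) : ℂ)) := by
      have := congrArg Complex.ofReal k2
      push_cast at this ⊢
      exact this
    have k3' : 2 * (Real.pi : ℂ) * (J4 al : ℂ) * (9/64) -
      (Real.pi : ℂ) / 2 * (Real.sin al : ℂ) ^ 2 * (Real.cos al : ℂ) * (9/32) +
      (c0c al : ℂ) * ((Real.pi : ℂ) * (1 - (Real.cos al : ℂ))) -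
      (Real.pi : ℂ) / 2 * (c0c al : ℂ) * (Real.sin al : ℂ) ^ 2 * (Real.cos al : ℂ) =
        (v1c al : ℂ) := by
      have := congrArg Complex.ofReal k3
      push_cast at this ⊢
      exact this
    rw [PL_two_cos t]
    linear_combination k3' + (Real.pi : ℂ) * cos (2 * t) * k1' + (Real.pi : ℂ) * cos (4 * t) * k2'

theorem P02_shift {al : ℝ} (hal : al ∈ JJ) (t : ℂ) :
    Det al cos sin (Af1 al) (Bf1 al) t - (Real.cos al : ℂ) * (cos t * df al (Bf1 al) t - sin t * df al (Af1 al) t) =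
      (Real.sin al : ℂ) / 2 * ((Real.cos al : ℂ) * (a1f al (t + al) + a1f al (t - al)) -
        (Real.sin al : ℂ) * (t1f al (t + al) - t1f al (t - al))) := by
  have hsin := G00_sin_pos hal
  obtain ⟨cnz, cnx, cmz, cmx, cdz, cdx, -⟩ := circle_chord al hsin t
  have hcs := Complex.sin_sq_add_cos_sq t
  rw [Det, cnz, cnx, cmz, cmx, md, md]
  simp only [Af1, Bf1]
  have p1 : cos (t + (al:ℂ)) = cos t * (Real.cos al : ℂ) - sin t * (Real.sin al : ℂ) := by
    rw [Complex.cos_add, Complex.ofReal_cos, Complex.ofReal_sin]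
  have p2 : sin (t + (al:ℂ)) = sin t * (Real.cos al : ℂ) + cos t * (Real.sin al : ℂ) := by
    rw [Complex.sin_add, Complex.ofReal_cos, Complex.ofReal_sin]
  have p3 : cos (t - (al:ℂ)) = cos t * (Real.cos al : ℂ) + sin t * (Real.sin al : ℂ) := by
    rw [Complex.cos_sub, Complex.ofReal_cos, Complex.ofReal_sin]
  have p4 : sin (t - (al:ℂ)) = sin t * (Real.cos al : ℂ) - cos t * (Real.sin al : ℂ) := by
    rw [Complex.sin_sub, Complex.ofReal_cos, Complex.ofReal_sin]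
  rw [p1, p2, p3, p4]
  linear_combination ((Real.sin al : ℂ) / 2 * ((Real.cos al : ℂ) *
    (a1f al (t + al) + a1f al (t - al)) -
        (Real.sin al : ℂ) * (t1f al (t + al) - t1f al (t - al)))) * hcs

theorem P02_S0a {al : ℝ} (hal : al ∈ JJ) {t : ℂ} (ht : 1 < t.im) :
    2 * S0 al (a1f al) t = 2 * (Real.pi : ℂ) * (J4 al : ℂ) * PL 2 t +
      (c0c al : ℂ) * (Real.pi : ℂ) * (1 - (Real.cos al : ℂ)) ∧
    (v1c al : ℂ) = 2 * S0 al (a1f al) t - (Real.pi / 2 : ℂ) * (Real.sin al : ℂ) ^ 2 *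
      (Real.cos al : ℂ) * (a1f al (t + al) + a1f al (t - al)) +
      (Real.pi / 2 : ℂ) * (Real.sin al : ℂ) ^ 3 * (t1f al (t + al) - t1f al (t - al)) := by
  have hb := P02_band ht
  have d2 := DS0_circle hal (f := PL 2) (P02_cPL 2).continuousOn hb
  have d0 := DS0_circle hal (f := PL 0) (P02_cPL 0).continuousOn hb
  have ca : Continuous (a1f al) :=
    continuous_iff_continuousAt.2 fun z => (P02_da1 al z).continuousAt
  have da := DS0_circle hal (f := a1f al) ca.continuousOn hb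
  have dt := DS0_circle_tan hal (τ := t1f al) hb
  have hS := P02_S0 hal ht
  have c2 := P02_cPL 2
  have c0 := P02_cPL 0
  have cc := Complex.continuous_cos
  have cs := Complex.continuous_sin
  have k1 : Continuous fun z => PL 2 z / 2 * cos z := (c2.div_const 2).mul cc
  have k2 : Continuous fun z => PL 2 z / 2 * sin z := (c2.div_const 2).mul cs
  have k3 : Continuous fun z => PL 0 z / 2 * cos z := (c0.div_const 2).mul cc
  have k4 : Continuous fun z => PL 0 z / 2 * sin z := (c0.div_const 2).mul cs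
  have h1 := (P02_lin hal k1 k2 k3 k4 ht 1 ((c0c al : ℂ) / 2)).1
  have e1 : (fun z => a1f al z / 2 * cos z) = fun z => 1 * (PL 2 z / 2 * cos z) +
      (c0c al : ℂ) / 2 * (PL 0 z / 2 * cos z) := by
    ext z; rw [a1f, PL_zero]; ring
  have e2 : (fun z => a1f al z / 2 * sin z) = fun z => 1 * (PL 2 z / 2 * sin z) +
      (c0c al : ℂ) / 2 * (PL 0 z / 2 * sin z) := by
    ext z; rw [a1f, PL_zero]; ring
  rw [← e1, ← e2, da.2, d2.2, d0.2, hS.1, hS.2] at h1
  have ep : a1f al (t + al) = PL 2 (t + al) + (c0c al : ℂ) / 2 := rfl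
  have em : a1f al (t - al) = PL 2 (t - al) + (c0c al : ℂ) / 2 := rfl
  rw [PL_zero, PL_zero] at h1
  have hSa : 2 * S0 al (a1f al) t = 2 * (Real.pi : ℂ) * (J4 al : ℂ) * PL 2 t +
      (c0c al : ℂ) * (Real.pi : ℂ) * (1 - (Real.cos al : ℂ)) := by
    rw [ep, em] at h1
    linear_combination 2 * h1
  refine ⟨hSa, ?_⟩
  have hf := (first_order hal ht).2
  have hsp := (P02_split hal ht).1
  rw [hf, d2.2, d0.2, dt.2, hS.1, hS.2, PL_zero, PL_zero] at hsp
  rw [hSa, hsp, ep, em]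
  ring

/-- the shift of the plane: `h = Det - cos al * p` where `p = cos t df B - sin t df A`:
`h = (1/2) [sin al cos al (a(t+al) + a(t-al)) - sin^2 al (τ(t+al) - τ(t-al))] = (2 S0 a - v1c)/(pi sin al) = h4c PL 2 + h00c` -/
theorem plane_shift {al : ℝ} (hal : al ∈ JJ) {t : ℂ} (ht : 1 < t.im) :
    Det al cos sin (Af1 al) (Bf1 al) t - (Real.cos al : ℂ) * (cos t * df al (Bf1 al) t - sin t * df al (Af1 al) t) =
      (h4c al : ℂ) * PL 2 t + (h00c al : ℂ) ∧
    2 * S0 al (a1f al) t - (v1c al : ℂ) = (Real.pi : ℂ) * (Real.sin al : ℂ) * ((h4c al : ℂ) * PL 2 t + (h00c al : ℂ)) := by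
  obtain ⟨a1, a2, a3, c1, c2, s1, s2⟩ := JJ_bounds hal
  have hs : (Real.sin al : ℂ) ≠ 0 := by
    have : Real.sin al ≠ 0 := by linarith
    exact_mod_cast this
  have hpi : (Real.pi : ℂ) ≠ 0 := by exact_mod_cast Real.pi_ne_zero
  obtain ⟨hSa, hv⟩ := P02_S0a hal ht
  have h2 : 2 * S0 al (a1f al) t - (v1c al : ℂ) =
      (Real.pi : ℂ) * (Real.sin al : ℂ) * ((h4c al : ℂ) * PL 2 t + (h00c al : ℂ)) := by
    rw [hSa, h4c, h00c]
    have hs' : Complex.sin (al : ℂ) ≠ 0 := by rw [← Complex.ofReal_sin]; exact hs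
    push_cast
    field_simp
    ring
  refine ⟨?_, h2⟩
  apply mul_left_cancel₀ (mul_ne_zero hpi hs)
  rw [← h2, P02_shift hal t]
  linear_combination hv

end FB
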