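import Pool.Agent.H48.FB.QDefs
import Pool.Agent.H48.FB.H00

/-! Q01: shape of the profile `f`. -/

open Set MeasureTheory

namespace FB

namespace Q01aux

theorem prof {al c : ℝ} (hc : c ≤ 1/100) {zf xf f : ℝ → ℝ} (h : RG al c zf xf f) :
    StrictConcaveOn ℝ (Icc (-3) 3) f ∧ |zf 0 - 1| ≤ c ∧ f (zf 0) = 0 ∧ (∀ z, |z| < zf 0 → 0 < f z) ∧
    (∀ z, zf 0 < |z| → |z| ≤ 3 → f z < 0) ∧ ContinuousOn f (Icc (-3) 3) := by
  have hcont : ContinuousOn f (Icc (-3) 3) :=
    h.cf.continuousOn.mono fun z hz => ⟨by linarith [hz.1], by linarith [hz.2]⟩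
  have hconc : StrictConcaveOn ℝ (Icc (-3) 3) f := by
    apply strictConcaveOn_of_deriv2_neg (convex_Icc _ _) hcont
    intro x hx
    rw [interior_Icc] at hx
    have h1 := abs_le.1 (h.f2 x ⟨hx.1.le, hx.2.le⟩)
    change deriv (deriv f) x < 0
    linarith [h1.2]
  have hz1 : |zf 0 - 1| ≤ c := by
    have := h.z0 0
    rwa [Real.cos_zero] at this
  have hz1' := abs_le.1 hz1
  have hx0 : xf 0 = 0 := by
    have := h.ox 0
    rw [neg_zero] at this
    linarith
  have hf0 : f (zf 0) = 0 := by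
    rw [h.fz, hx0]; norm_num
  have hmem : zf 0 ∈ Icc (-3 : ℝ) 3 := ⟨by linarith [hz1'.1], by linarith [hz1'.2]⟩
  have hmem' : - zf 0 ∈ Icc (-3 : ℝ) 3 := ⟨by linarith [hz1'.2], by linarith [hz1'.1]⟩
  have hfneg : f (- zf 0) = 0 := by rw [h.fe _ hmem, hf0]
  have hpos : ∀ z, |z| < zf 0 → 0 < f z := by
    intro z hz
    have hz' := abs_lt.1 hz
    have hzf : 0 < zf 0 := lt_of_le_of_lt (abs_nonneg z) hz
    have hne : - zf 0 ≠ zf 0 := by linarith
    have ha : 0 < (zf 0 - z) / (2 * zf 0) := by apply div_pos <;> linarith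
    have hb : 0 < (zf 0 + z) / (2 * zf 0) := by apply div_pos <;> linarith
    have hab : (zf 0 - z) / (2 * zf 0) + (zf 0 + z) / (2 * zf 0) = 1 := by field_simp; ring
    have h2 := hconc.2 hmem' hmem hne ha hb hab
    rw [hf0, hfneg, smul_zero, smul_zero, add_zero, smul_eq_mul, smul_eq_mul] at h2
    have h3 : (zf 0 - z) / (2 * zf 0) * - zf 0 + (zf 0 + z) / (2 * zf 0) * zf 0 = z := by
      field_simp; ring
    rwa [h3] at h2
  have hneg : ∀ z, 0 ≤ z → zf 0 < z → z ≤ 3 → f z < 0 := by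
    intro z hz0 hz hz3
    by_contra hcon
    push Not at hcon
    have hzf : 0 < zf 0 := by linarith [hz1'.1]
    have hzp : 0 < z := by linarith
    have h0 : 0 < f 0 := hpos 0 (by rwa [abs_zero])
    have hm0 : (0 : ℝ) ∈ Icc (-3 : ℝ) 3 := ⟨by norm_num, by norm_num⟩
    have hmz : z ∈ Icc (-3 : ℝ) 3 := ⟨by linarith, hz3⟩
    have ha : 0 < (z - zf 0) / z := div_pos (by linarith) hzp
    have hb : 0 < zf 0 / z := div_pos hzf hzp
    have hab : (z - zf 0) / z + zf 0 / z = 1 := by field_simp; ring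
    have h2 := hconc.2 hm0 hmz hzp.ne ha hb hab
    have h3 : ((z - zf 0) / z) • (0 : ℝ) + (zf 0 / z) • z = zf 0 := by
      rw [smul_zero, zero_add, smul_eq_mul, div_mul_cancel₀ _ hzp.ne']
    rw [h3, hf0, smul_eq_mul, smul_eq_mul] at h2
    have h4 : 0 ≤ (z - zf 0) / z * f 0 := by
      apply mul_nonneg (div_nonneg (by linarith) hzp.le) h0.le
    have h5 : 0 ≤ zf 0 / z * f z := mul_nonneg (div_nonneg hzf.le hzp.le) hcon
    linarith
  refine ⟨hconc, hz1, hf0, hpos, ?_, hcont⟩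
  intro z hz hz3
  rcases le_total 0 z with h0 | h0
  · rw [abs_of_nonneg h0] at hz hz3
    exact hneg z h0 hz hz3
  · rw [abs_of_nonpos h0] at hz hz3
    have h1 := hneg (-z) (by linarith) hz hz3
    rwa [h.fe z ⟨by linarith, by linarith⟩] at h1

theorem nsq (p : E3) : ‖p‖ ^ 2 = p 0 ^ 2 + p 1 ^ 2 + p 2 ^ 2 := by
  rw [EuclideanSpace.real_norm_sq_eq, Fin.sum_univ_three]

end Q01aux

open Q01aux

/-- For small `c`: `z1 = zf 0` satisfies `|z1 - 1| ≤ c`, `f z1 = (xf 0)^2 = 0`; `f` is strictly concave on `[-3,3]` (`f'' < 0`), even; so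
`f > 0` on `(-z1, z1)`, `f < 0` on `(z1, 3]`. -/
theorem profile : ∃ c0 : ℝ, 0 < c0 ∧ c0 ≤ 1/100 ∧ ∀ (al : ℝ), al ∈ JJ → ∀ zf xf f : ℝ → ℝ, RG al c0 zf xf f →
    StrictConcaveOn ℝ (Icc (-3) 3) f ∧ |zf 0 - 1| ≤ c0 ∧ f (zf 0) = 0 ∧ (∀ z, |z| < zf 0 → 0 < f z) ∧
    (∀ z, zf 0 < |z| → |z| ≤ 3 → f z < 0) ∧ ContinuousOn f (Icc (-3) 3) :=
  ⟨1/100, by norm_num, le_refl _, fun _ _ _ _ _ h => prof le_rfl h⟩

/-- The body is a convex body, centrally symmetric, invariant under the rotations about the third axis. -/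
theorem body : ∃ c0 : ℝ, 0 < c0 ∧ c0 ≤ 1/100 ∧ ∀ (al : ℝ), al ∈ JJ → ∀ zf xf f : ℝ → ℝ, RG al c0 zf xf f →
    IsCompact (KK f) ∧ Convex ℝ (KK f) ∧ (0 : E3) ∈ interior (KK f) ∧ (∀ p ∈ KK f, -p ∈ KK f) ∧
    (∀ p q : E3, p 2 = q 2 → (p 0) ^ 2 + (p 1) ^ 2 = (q 0) ^ 2 + (q 1) ^ 2 → (p ∈ KK f ↔ q ∈ KK f)) ∧
    (∀ p ∈ KK f, ‖p‖ ≤ 2) ∧ (∀ p : E3, ‖p‖ ≤ 9/10 → p ∈ KK f) := by
  refine ⟨1/100, by norm_num, le_refl _, fun al _ zf xf f h => ?_⟩
  obtain ⟨hconc, -, -, -, -, hcont⟩ := prof le_rfl h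
  have hbound : ∀ p ∈ KK f, ‖p‖ ≤ 2 := by
    intro p hp
    have h1 := abs_le.1 (h.f0 (p 2) (abs_le.1 hp.2))
    have h2 := nsq p
    have h3 := hp.1
    nlinarith [norm_nonneg p, h1.2]
  have hball : ∀ p : E3, ‖p‖ ≤ 9/10 → p ∈ KK f := by
    intro p hp
    have h2 := nsq p
    have h3 : ‖p‖ ^ 2 ≤ (9/10) ^ 2 := pow_le_pow_left₀ (norm_nonneg p) hp 2
    have hz : |p 2| ≤ 3 := by
      apply abs_le_of_sq_le_sq _ (by norm_num)
      nlinarith [sq_nonneg (p 0), sq_nonneg (p 1)]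
    have h1 := abs_le.1 (h.f0 (p 2) (abs_le.1 hz))
    refine ⟨?_, hz⟩
    linarith [h1.1]
  have hclosed : IsClosed (KK f) := by
    have hc1 : IsClosed {p : E3 | |p 2| ≤ 3} :=
      isClosed_le (continuous_abs.comp (EuclideanSpace.proj (𝕜 := ℝ) (2 : Fin 3)).continuous)
        continuous_const
    have hg : ContinuousOn (fun p : E3 => f (p 2) - ((p 0) ^ 2 + (p 1) ^ 2)) {p : E3 | |p 2| ≤ 3} := by
      apply ContinuousOn.sub
      · apply hcont.comp (EuclideanSpace.proj (𝕜 := ℝ) (2 : Fin 3)).continuous.continuousOn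
        intro p hp
        exact abs_le.1 hp
      · apply Continuous.continuousOn
        exact ((EuclideanSpace.proj (𝕜 := ℝ) (0 : Fin 3)).continuous.pow 2).add
          ((EuclideanSpace.proj (𝕜 := ℝ) (1 : Fin 3)).continuous.pow 2)
    have h2 := hg.preimage_isClosed_of_isClosed hc1 (isClosed_Ici (a := (0:ℝ)))
    convert h2 using 1
    ext p
    simp only [KK, mem_ofPred_eq, mem_inter_iff, mem_preimage, mem_Ici, sub_nonneg]
    exact and_comm
  refine ⟨?_, ?_, ?_, ?_, ?_, hbound, hball⟩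
  · apply Metric.isCompact_of_isClosed_isBounded hclosed
    apply (Metric.isBounded_closedBall (x := (0 : E3)) (r := 2)).subset
    intro p hp
    rw [mem_closedBall_zero_iff]
    exact hbound p hp
  · intro p hp q hq a b ha hb hab
    have hp2 := abs_le.1 hp.2
    have hq2 := abs_le.1 hq.2
    have e0 : (a • p + b • q) 0 = a * p 0 + b * q 0 := rfl
    have e1 : (a • p + b • q) 1 = a * p 1 + b * q 1 := rfl
    have e2 : (a • p + b • q) 2 = a * p 2 + b * q 2 := rfl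
    have hc := hconc.concaveOn.2 (x := p 2) hp2 (y := q 2) hq2 ha hb hab
    simp only [smul_eq_mul] at hc
    have hb' : b = 1 - a := by linarith
    refine ⟨?_, ?_⟩
    · rw [e0, e1, e2]
      refine le_trans ?_ hc
      have h1 := mul_le_mul_of_nonneg_left hp.1 ha
      have h2 := mul_le_mul_of_nonneg_left hq.1 hb
      have h3 : (a * p 0 + b * q 0) ^ 2 + (a * p 1 + b * q 1) ^ 2 ≤
          a * (p 0 ^ 2 + p 1 ^ 2) + b * (q 0 ^ 2 + q 1 ^ 2) := by
        have h4 : a * (p 0 ^ 2 + p 1 ^ 2) + b * (q 0 ^ 2 + q 1 ^ 2) -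
            ((a * p 0 + b * q 0) ^ 2 + (a * p 1 + b * q 1) ^ 2) =
            a * b * ((p 0 - q 0) ^ 2 + (p 1 - q 1) ^ 2) := by
          rw [hb']; ring
        have h5 : 0 ≤ a * b * ((p 0 - q 0) ^ 2 + (p 1 - q 1) ^ 2) := by positivity
        linarith
      linarith
    · rw [e2, abs_le]
      constructor <;> nlinarith [hp2.1, hp2.2, hq2.1, hq2.2]
  · rw [mem_interior]
    refine ⟨Metric.ball 0 (9/10), ?_, Metric.isOpen_ball, Metric.mem_ball_self (by norm_num)⟩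
    intro p hp
    rw [mem_ball_zero_iff] at hp
    exact hball p hp.le
  · intro p hp
    have hz := abs_le.1 hp.2
    refine ⟨?_, ?_⟩
    · change (-(p 0)) ^ 2 + (-(p 1)) ^ 2 ≤ f (-(p 2))
      rw [h.fe _ hz, neg_sq, neg_sq]
      exact hp.1
    · change |-(p 2)| ≤ 3
      rw [abs_neg]
      exact hp.2
  · intro p q h2 h01
    simp only [KK, mem_ofPred_eq]
    rw [h2, h01]

/-- `omg f` is continuous with compact support (it vanishes for `|z| ≥ zf 0`, and for `x^2 ≥ f z`). -/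
theorem omg_cont : ∃ c0 : ℝ, 0 < c0 ∧ c0 ≤ 1/100 ∧ ∀ (al : ℝ), al ∈ JJ → ∀ zf xf f : ℝ → ℝ, RG al c0 zf xf f →
    Continuous (omg f) ∧ (∀ p : ℝ × ℝ, 2 < |p.1| ∨ 2 < |p.2| → omg f p = 0) := by
  refine ⟨1/100, by norm_num, le_refl _, fun al _ zf xf f h => ?_⟩
  obtain ⟨hconc, hz1, hf0, hpos, hneg, hcont⟩ := prof le_rfl h
  have hz1' := abs_le.1 hz1
  have hzero : ∀ p : ℝ × ℝ, 2 < |p.1| → omg f p = 0 := by
    intro p hp
    rw [omg]
    split_ifs with h3
    · have := hneg p.1 (by linarith [hz1'.2]) h3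
      rw [Real.sqrt_eq_zero_of_nonpos (by nlinarith [sq_nonneg p.2]), mul_zero]
    · rfl
  constructor
  · rw [← continuousOn_univ]
    have hU : (univ : Set (ℝ × ℝ)) = {p | |p.1| ≤ 3} ∪ {p | 3 ≤ |p.1|} := by
      ext p
      simp only [mem_univ, mem_union, mem_ofPred_eq, true_iff]
      exact le_total _ _
    rw [hU]
    apply ContinuousOn.union_of_isClosed
    · have h1 : ContinuousOn (fun p : ℝ × ℝ => 2 * Real.sqrt (f p.1 - p.2 ^ 2)) {p | |p.1| ≤ 3} := by
        apply ContinuousOn.mul continuousOn_const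
        apply Real.continuous_sqrt.comp_continuousOn
        apply ContinuousOn.sub
        · exact hcont.comp continuous_fst.continuousOn fun p hp => abs_le.1 hp
        · exact (continuous_snd.pow 2).continuousOn
      apply h1.congr
      intro p hp
      exact if_pos (show |p.1| ≤ 3 from hp)
    · apply continuousOn_const (c := (0:ℝ)) |>.congr
      intro p hp
      exact hzero p (lt_of_lt_of_le (by norm_num) hp)
    · exact isClosed_le (continuous_abs.comp continuous_fst) continuous_const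
    · exact isClosed_le continuous_const (continuous_abs.comp continuous_fst)
  · intro p hp
    rcases hp with hp | hp
    · exact hzero p hp
    · rw [omg]
      split_ifs with h3
      · have h4 := abs_le.1 (h.f0 p.1 (abs_le.1 h3))
        have h5 : 4 < p.2 ^ 2 := by
          rw [← sq_abs]
          nlinarith
        rw [Real.sqrt_eq_zero_of_nonpos (by nlinarith [sq_nonneg p.1, h4.2]), mul_zero]
      · rfl

end FB
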