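import Pool.Agent.H48.FB.QDefs

/-! Q02: reduction of the integrals over the body to planar integrals. -/

open Set MeasureTheory

namespace FB

/-- the coordinates `((z, x), y)` -/
noncomputable def q02e : E3 ≃ᵐ (ℝ × ℝ) × ℝ :=
  (MeasurableEquiv.toLp 2 (Fin 3 → ℝ)).symm.trans
   ((MeasurableEquiv.piFinSuccAbove (fun _ => ℝ) 1).trans
    (MeasurableEquiv.prodComm.trans
      ((MeasurableEquiv.prodCongr ((MeasurableEquiv.piFinTwo (fun _ => ℝ)).trans
        MeasurableEquiv.prodComm) (MeasurableEquiv.refl ℝ)))))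

theorem q02e_apply (p : E3) : q02e p = ((p 2, p 0), p 1) := rfl

theorem q02e_mp :
    MeasurePreserving q02e (volume : Measure E3) (volume : Measure ((ℝ × ℝ) × ℝ)) := by
  have h1 := EuclideanSpace.volume_preserving_symm_measurableEquiv_toLp (Fin 3)
  have h2 := volume_preserving_piFinSuccAbove (fun _ : Fin 3 => ℝ) 1
  have h3 : MeasurePreserving (Prod.swap : ℝ × (Fin 2 → ℝ) → (Fin 2 → ℝ) × ℝ) volume volume :=
    Measure.measurePreserving_swap
  have h4 := volume_preserving_piFinTwo (fun _ : Fin 2 => ℝ)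
  have h5 : MeasurePreserving (Prod.swap : ℝ × ℝ → ℝ × ℝ) volume volume :=
    Measure.measurePreserving_swap
  have h6 : MeasurePreserving (id : ℝ → ℝ) volume volume := MeasurePreserving.id _
  have h7 := (h5.comp h4).prod h6
  exact h7.comp (h3.comp (h2.comp h1))

/-- the cap in the coordinates `((z, x), y)` -/
def q02S (f : ℝ → ℝ) (a b h : ℝ) : Set ((ℝ × ℝ) × ℝ) :=
  {q | q.1.2 ^ 2 + q.2 ^ 2 ≤ f q.1.1 ∧ |q.1.1| ≤ 3 ∧ h ≤ a * q.1.1 + b * q.1.2}

theorem q02_pre (f : ℝ → ℝ) (a b h : ℝ) :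
    q02e ⁻¹' q02S f a b h = KK f ∩ {p : E3 | h ≤ a * p 2 + b * p 0} := by
  ext p
  rw [mem_preimage, q02e_apply]
  simp only [q02S, KK, mem_ofPred_eq, mem_inter_iff]
  tauto

theorem q02_half (a b h : ℝ) : IsClosed {p : E3 | h ≤ a * p 2 + b * p 0} := by
  apply isClosed_le continuous_const
  fun_prop

theorem q02_meas {f : ℝ → ℝ} (hK : IsCompact (KK f)) (a b h : ℝ) :
    MeasurableSet (q02S f a b h) := by
  have h1 : MeasurableSet (KK f ∩ {p : E3 | h ≤ a * p 2 + b * p 0}) :=
    hK.isClosed.measurableSet.inter (q02_half a b h).measurableSet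
  have h2 : q02S f a b h = q02e.symm ⁻¹' (KK f ∩ {p : E3 | h ≤ a * p 2 + b * p 0}) := by
    rw [← q02_pre, ← preimage_comp]
    simp
  rw [h2]
  exact q02e.symm.measurable h1

/-- Fubini -/
theorem q02_fubini {f : ℝ → ℝ} (hK : IsCompact (KK f)) (a b h : ℝ) (G : (ℝ × ℝ) × ℝ → ℝ)
    (hG : Continuous G) :
    (∫ p in KK f ∩ {p : E3 | h ≤ a * p 2 + b * p 0}, G ((p 2, p 0), p 1)) =
      ∫ x : ℝ × ℝ, ∫ y : ℝ, (q02S f a b h).indicator G (x, y) := by
  have h1 : (∫ p in KK f ∩ {p : E3 | h ≤ a * p 2 + b * p 0}, G ((p 2, p 0), p 1)) =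
      ∫ q in q02S f a b h, G q := by
    rw [← q02_pre]
    exact q02e_mp.setIntegral_preimage_emb q02e.measurableEmbedding G (q02S f a b h)
  have hcomp : IsCompact (KK f ∩ {p : E3 | h ≤ a * p 2 + b * p 0}) :=
    hK.inter_right (q02_half a b h)
  have h2 : IntegrableOn G (q02S f a b h) volume := by
    rw [← q02e_mp.integrableOn_comp_preimage q02e.measurableEmbedding, q02_pre]
    apply ContinuousOn.integrableOn_compact hcomp
    apply Continuous.continuousOn
    have : (G ∘ q02e) = fun p : E3 => G ((p 2, p 0), p 1) := rfl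
    rw [this]
    fun_prop
  rw [h1, ← integral_indicator (q02_meas hK a b h)]
  exact integral_prod _ ((integrable_indicator_iff (q02_meas hK a b h)).mpr h2)

theorem q02_len (c : ℝ) : (volume {y : ℝ | y ^ 2 ≤ c}).toReal = 2 * Real.sqrt c := by
  rcases lt_or_ge c 0 with hc | hc
  · have h1 : {y : ℝ | y ^ 2 ≤ c} = ∅ := by
      ext y
      simp only [mem_ofPred_eq, mem_empty_iff_false, iff_false, not_le]
      exact lt_of_lt_of_le hc (sq_nonneg y)
    rw [h1, Real.sqrt_eq_zero_of_nonpos hc.le]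
    simp
  · have h1 : {y : ℝ | y ^ 2 ≤ c} = Icc (-Real.sqrt c) (Real.sqrt c) := by
      ext y
      rw [mem_ofPred_eq, mem_Icc, Real.sq_le hc]
    rw [h1, Real.volume_Icc, ENNReal.toReal_ofReal]
    · ring
    · have := Real.sqrt_nonneg c
      linarith

/-- the inner integral -/
theorem q02_inner {f : ℝ → ℝ} (a b h : ℝ) (ph : ℝ × ℝ → ℝ) (x : ℝ × ℝ) :
    (∫ y : ℝ, (q02S f a b h).indicator (fun q : (ℝ × ℝ) × ℝ => ph q.1) (x, y)) =
      {p : ℝ × ℝ | h ≤ a * p.1 + b * p.2}.indicator (fun p => omg f p * ph p) x := by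
  by_cases hx : h ≤ a * x.1 + b * x.2
  · rw [indicator_of_mem (show x ∈ {p : ℝ × ℝ | h ≤ a * p.1 + b * p.2} from hx)]
    unfold omg
    by_cases h3 : |x.1| ≤ 3
    · rw [if_pos h3]
      have h1 : (fun y : ℝ => (q02S f a b h).indicator (fun q : (ℝ × ℝ) × ℝ => ph q.1) (x, y)) =
          {y : ℝ | y ^ 2 ≤ f x.1 - x.2 ^ 2}.indicator (fun _ => ph x) := by
        funext y
        by_cases hy : y ^ 2 ≤ f x.1 - x.2 ^ 2
        · rw [indicator_of_mem (show y ∈ {y : ℝ | y ^ 2 ≤ f x.1 - x.2 ^ 2} from hy),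
            indicator_of_mem]
          exact ⟨by show x.2 ^ 2 + y ^ 2 ≤ f x.1; linarith, h3, hx⟩
        · rw [indicator_of_notMem (show y ∉ {y : ℝ | y ^ 2 ≤ f x.1 - x.2 ^ 2} from hy),
            indicator_of_notMem]
          intro hmem
          apply hy
          have h4 : x.2 ^ 2 + y ^ 2 ≤ f x.1 := hmem.1
          linarith
      rw [h1, integral_indicator (measurableSet_le (by fun_prop) (by fun_prop)),
        setIntegral_const, smul_eq_mul, Measure.real, q02_len]
    · rw [if_neg h3]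
      have h1 : (fun y : ℝ => (q02S f a b h).indicator (fun q : (ℝ × ℝ) × ℝ => ph q.1) (x, y)) =
          fun _ => 0 := by
        funext y
        rw [indicator_of_notMem]
        intro hmem
        exact h3 hmem.2.1
      rw [h1]
      simp
  · rw [indicator_of_notMem (show x ∉ {p : ℝ × ℝ | h ≤ a * p.1 + b * p.2} from hx)]
    have h1 : (fun y : ℝ => (q02S f a b h).indicator (fun q : (ℝ × ℝ) × ℝ => ph q.1) (x, y)) =
        fun _ => 0 := by
      funext y
      rw [indicator_of_notMem]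
      intro hmem
      exact hx hmem.2.2
    rw [h1]
    simp

/-- the reduction for a function of `(z, x)` -/
theorem q02_main {f : ℝ → ℝ} (hK : IsCompact (KK f)) (a b h : ℝ) (ph : ℝ × ℝ → ℝ)
    (hph : Continuous ph) :
    (∫ p in KK f ∩ {p : E3 | h ≤ a * p 2 + b * p 0}, ph (p 2, p 0)) = HI f ph a b h := by
  have h1 := q02_fubini hK a b h (fun q => ph q.1) (by fun_prop)
  rw [h1]
  unfold HI
  rw [← integral_indicator (measurableSet_le (by fun_prop) (by fun_prop))]
  congr 1
  funext x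
  exact q02_inner a b h ph x

/-- the moment in the direction of `y` -/
theorem q02_odd {f : ℝ → ℝ} (hK : IsCompact (KK f)) (a b h : ℝ) :
    (∫ p in KK f ∩ {p : E3 | h ≤ a * p 2 + b * p 0}, p 1) = 0 := by
  have h1 := q02_fubini hK a b h (fun q => q.2) (by fun_prop)
  rw [h1]
  have h2 : ∀ x : ℝ × ℝ, (∫ y : ℝ, (q02S f a b h).indicator (fun q : (ℝ × ℝ) × ℝ => q.2) (x, y)) =
      0 := by
    intro x
    have h3 : ∀ y : ℝ, (q02S f a b h).indicator (fun q : (ℝ × ℝ) × ℝ => q.2) (x, -y) =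
        -(q02S f a b h).indicator (fun q : (ℝ × ℝ) × ℝ => q.2) (x, y) := by
      intro y
      by_cases hy : (x, y) ∈ q02S f a b h
      · rw [indicator_of_mem hy, indicator_of_mem]
        refine ⟨?_, hy.2.1, hy.2.2⟩
        have h4 : x.2 ^ 2 + y ^ 2 ≤ f x.1 := hy.1
        show x.2 ^ 2 + (-y) ^ 2 ≤ f x.1
        rw [neg_sq]
        exact h4
      · rw [indicator_of_notMem hy, indicator_of_notMem, neg_zero]
        intro hmem
        apply hy
        refine ⟨?_, hmem.2.1, hmem.2.2⟩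
        have h4 : x.2 ^ 2 + (-y) ^ 2 ≤ f x.1 := hmem.1
        rw [neg_sq] at h4
        exact h4
    have h5 := integral_neg_eq_self
      (fun y : ℝ => (q02S f a b h).indicator (fun q : (ℝ × ℝ) × ℝ => q.2) (x, y)) volume
    simp only [h3, integral_neg] at h5
    linarith
  simp only [h2, integral_zero]

/-- Fubini: for `S = KK f ∩ {h ≤ a p2 + b p0}` (note: `z = p 2`, `x = p 0`), integrating out `y = p 1` over
`|y| ≤ sqrt (f z - x^2)` (empty if `f z < x^2`; and then `sqrt` is `0`).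
Use `EuclideanSpace.volume_preserving_symm_measurableEquiv_toLp` (or the current name) and
`MeasurableEquiv.piFinSuccAbove`/`volume_preserving_piFinTwo` etc. Hypothesis: `f` continuous on `[-3,3]` (measurability)
and the body is bounded. -/
theorem cap_volume {f : ℝ → ℝ} (hf : ContinuousOn f (Icc (-3) 3)) (hK : IsCompact (KK f)) (a b h : ℝ) :
    (volume (KK f ∩ {p : E3 | h ≤ a * p 2 + b * p 0})).toReal = HI f (fun _ => 1) a b h := by
  rw [← q02_main hK a b h (fun _ => 1) continuous_const, setIntegral_const, smul_eq_mul, mul_one]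
  rfl

theorem cap_moment {f : ℝ → ℝ} (hf : ContinuousOn f (Icc (-3) 3)) (hK : IsCompact (KK f)) (a b h : ℝ) :
    (∫ p in KK f ∩ {p : E3 | h ≤ a * p 2 + b * p 0}, p) =
      (WithLp.toLp 2 ![HI f (fun p => p.2) a b h, 0, HI f (fun p => p.1) a b h] : E3) := by
  have hcomp : IsCompact (KK f ∩ {p : E3 | h ≤ a * p 2 + b * p 0}) :=
    hK.inter_right (q02_half a b h)
  have hint : IntegrableOn (fun p : E3 => p) (KK f ∩ {p : E3 | h ≤ a * p 2 + b * p 0}) volume :=
    ContinuousOn.integrableOn_compact hcomp continuous_id.continuousOn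
  have hc : ∀ i : Fin 3, (∫ p in KK f ∩ {p : E3 | h ≤ a * p 2 + b * p 0}, p) i =
      ∫ p in KK f ∩ {p : E3 | h ≤ a * p 2 + b * p 0}, p i := by
    intro i
    exact ((EuclideanSpace.proj i : E3 →L[ℝ] ℝ).integral_comp_comm hint).symm
  ext i
  rw [hc i]
  fin_cases i
  · exact q02_main hK a b h (fun p => p.2) continuous_snd
  · exact q02_odd hK a b h
  · exact q02_main hK a b h (fun p => p.1) continuous_fst

end FB
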