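import Pool.Agent.H48.FB.QDefs

/-! Q03: transport lemma for half planes. -/

open Set MeasureTheory Filter Topology

namespace FB

namespace Q03

/-- derivative of the smooth step -/
noncomputable def sg : ℝ → ℝ := deriv Real.smoothTransition

lemma sg_cont : Continuous sg :=
  (Real.smoothTransition.contDiff (n := 1)).continuous_deriv (by norm_num)

lemma sg_hasDeriv (x : ℝ) : HasDerivAt Real.smoothTransition (sg x) x :=
  ((Real.smoothTransition.contDiff (n := 1)).differentiable (by norm_num) x).hasDerivAt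

lemma sg_left {u : ℝ} (h : u < 0) : sg u = 0 := by
  have : Real.smoothTransition =ᶠ[𝓝 u] fun _ => (0:ℝ) := by
    filter_upwards [Iio_mem_nhds h] with x hx
    exact Real.smoothTransition.zero_of_nonpos (le_of_lt hx)
  rw [sg, this.deriv_eq]; simp

lemma sg_right {u : ℝ} (h : 1 < u) : sg u = 0 := by
  have : Real.smoothTransition =ᶠ[𝓝 u] fun _ => (1:ℝ) := by
    filter_upwards [Ioi_mem_nhds h] with x hx
    exact Real.smoothTransition.one_of_one_le (le_of_lt hx)
  rw [sg, this.deriv_eq]; simp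

lemma sg_int : ∫ u in Icc (0:ℝ) 1, sg u = 1 := by
  rw [integral_Icc_eq_integral_Ioc, ← intervalIntegral.integral_of_le (by norm_num),
    intervalIntegral.integral_eq_sub_of_hasDerivAt (f := Real.smoothTransition)
      (fun x _ => sg_hasDeriv x) (sg_cont.intervalIntegrable _ _)]
  simp [Real.smoothTransition.one, Real.smoothTransition.zero]

/-- change of variables in the plane -/
lemma cov (F : ℝ × ℝ → ℝ) (a b c d e1 e2 : ℝ) (hdet : a * d - b * c ≠ 0) :
    ∫ p : ℝ × ℝ, F p = |a * d - b * c| * ∫ q : ℝ × ℝ, F (e1 + (a * q.1 + b * q.2), e2 + (c * q.1 + d * q.2)) := by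
  set L : ℝ × ℝ →ₗ[ℝ] ℝ × ℝ := Matrix.toLin (Module.Basis.finTwoProd ℝ) (Module.Basis.finTwoProd ℝ) !![a, b; c, d] with hL
  have hLa : ∀ q : ℝ × ℝ, L q = (a * q.1 + b * q.2, c * q.1 + d * q.2) := fun q => by
    rw [hL, Matrix.toLin_finTwoProd_apply]
  have hLd : LinearMap.det L = a * d - b * c := by
    rw [hL, LinearMap.det_toLin, Matrix.det_fin_two_of]
  have hne : LinearMap.det L ≠ 0 := by rw [hLd]; exact hdet
  have h1 : ∫ p : ℝ × ℝ, F p = ∫ p : ℝ × ℝ, F ((e1, e2) + p) := by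
    rw [integral_add_left_eq_self (μ := (volume : Measure (ℝ × ℝ))) F (e1, e2)]
  have h2 := Measure.map_linearMap_addHaar_eq_smul_addHaar (μ := (volume : Measure (ℝ × ℝ))) hne
  have hemb : MeasurableEmbedding L := by
    have : L = (LinearEquiv.ofIsUnitDet (f := L) (v := Module.Basis.finTwoProd ℝ) (v' := Module.Basis.finTwoProd ℝ) (by
      rw [hL, LinearMap.toMatrix_toLin, Matrix.det_fin_two_of]; exact hdet.isUnit)).toContinuousLinearEquiv := rfl
    rw [this]
    exact ((LinearEquiv.ofIsUnitDet (f := L) (v := Module.Basis.finTwoProd ℝ) (v' := Module.Basis.finTwoProd ℝ) (by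
      rw [hL, LinearMap.toMatrix_toLin, Matrix.det_fin_two_of]; exact hdet.isUnit)).toContinuousLinearEquiv).toHomeomorph.measurableEmbedding
  have h3 : ∫ p : ℝ × ℝ, F ((e1, e2) + L p) = ∫ p, F ((e1, e2) + p) ∂(Measure.map L volume) := by
    rw [hemb.integral_map]
  rw [h1]
  have h4 : ∫ p, F ((e1, e2) + p) ∂(Measure.map L volume) = |(LinearMap.det L)⁻¹| * ∫ p : ℝ × ℝ, F ((e1, e2) + p) := by
    rw [h2, integral_smul_measure, ENNReal.toReal_ofReal (abs_nonneg _), smul_eq_mul]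
  have h5 : (∫ q : ℝ × ℝ, F (e1 + (a * q.1 + b * q.2), e2 + (c * q.1 + d * q.2))) = ∫ p : ℝ × ℝ, F ((e1, e2) + L p) := by
    congr 1
    funext q
    rw [hLa]; rfl
  rw [h5, h3, h4, hLd, abs_inv, ← mul_assoc, mul_inv_cancel₀ (abs_ne_zero.mpr hdet), one_mul]

section main

variable {w : ℝ × ℝ → ℝ} {B : ℝ} {zm zd xm xd : ℝ → ℝ}

/-- the level function -/
def gg (zm zd xm xd : ℝ → ℝ) (s : ℝ) (p : ℝ × ℝ) : ℝ :=
  xd s * p.1 - zd s * p.2 - (xd s * zm s - zd s * xm s)

/-- its derivative in `s` -/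
noncomputable def gs (zm zd xm xd : ℝ → ℝ) (s : ℝ) (p : ℝ × ℝ) : ℝ :=
  deriv xd s * p.1 - deriv zd s * p.2 - deriv (fun s => xd s * zm s - zd s * xm s) s

/-- the parametrization -/
noncomputable def Ph (zm zd xm xd : ℝ → ℝ) (e s : ℝ) (q : ℝ × ℝ) : ℝ × ℝ :=
  (zm s + q.1 * zd s + e * (q.2 - 1) / ((zd s) ^ 2 + (xd s) ^ 2) * xd s,
   xm s + q.1 * xd s - e * (q.2 - 1) / ((zd s) ^ 2 + (xd s) ^ 2) * zd s)

/-- integrand -/
noncomputable def Wf (w : ℝ × ℝ → ℝ) (zm zd xm xd : ℝ → ℝ) (e s : ℝ) (q : ℝ × ℝ) : ℝ :=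
  w (Ph zm zd xm xd e s q) * sg q.2 * gs zm zd xm xd s (Ph zm zd xm xd e s q)

lemma gg_hasDeriv (h1 : ContDiff ℝ 1 zm) (h2 : ContDiff ℝ 1 zd) (h3 : ContDiff ℝ 1 xm) (h4 : ContDiff ℝ 1 xd)
    (s : ℝ) (p : ℝ × ℝ) : HasDerivAt (fun s => gg zm zd xm xd s p) (gs zm zd xm xd s p) s := by
  have d1 := (h1.differentiable (by norm_num) s).hasDerivAt
  have d2 := (h2.differentiable (by norm_num) s).hasDerivAt
  have d3 := (h3.differentiable (by norm_num) s).hasDerivAt
  have d4 := (h4.differentiable (by norm_num) s).hasDerivAt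
  have d5 : HasDerivAt (fun s => xd s * zm s - zd s * xm s) (deriv (fun s => xd s * zm s - zd s * xm s) s) s :=
    ((d4.mul d1).sub (d2.mul d3)).differentiableAt.hasDerivAt
  exact ((d4.mul_const p.1).sub (d2.mul_const p.2)).sub d5

lemma gs_cont (h1 : ContDiff ℝ 1 zm) (h2 : ContDiff ℝ 1 zd) (h3 : ContDiff ℝ 1 xm) (h4 : ContDiff ℝ 1 xd) :
    Continuous (fun q : ℝ × (ℝ × ℝ) => gs zm zd xm xd q.1 q.2) := by
  have c4 : Continuous (deriv xd) := h4.continuous_deriv le_rfl
  have c2 : Continuous (deriv zd) := h2.continuous_deriv le_rfl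
  have c5 : Continuous (deriv (fun s => xd s * zm s - zd s * xm s)) :=
    ((h4.mul h1).sub (h2.mul h3)).continuous_deriv le_rfl
  unfold gs
  fun_prop

lemma gg_cont (h1 : ContDiff ℝ 1 zm) (h2 : ContDiff ℝ 1 zd) (h3 : ContDiff ℝ 1 xm) (h4 : ContDiff ℝ 1 xd) :
    Continuous (fun q : ℝ × (ℝ × ℝ) => gg zm zd xm xd q.1 q.2) := by
  have c1 := h1.continuous
  have c2 := h2.continuous
  have c3 := h3.continuous
  have c4 := h4.continuous
  unfold gg
  fun_prop

lemma Ph_cont (h1 : ContDiff ℝ 1 zm) (h2 : ContDiff ℝ 1 zd) (h3 : ContDiff ℝ 1 xm) (h4 : ContDiff ℝ 1 xd)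
    (hne : ∀ t, 0 < (zd t) ^ 2 + (xd t) ^ 2) :
    Continuous (fun q : (ℝ × ℝ) × (ℝ × ℝ) => Ph zm zd xm xd q.1.1 q.1.2 q.2) := by
  have c1 := h1.continuous
  have c2 := h2.continuous
  have c3 := h3.continuous
  have c4 := h4.continuous
  have c5 : Continuous (fun q : (ℝ × ℝ) × (ℝ × ℝ) => q.1.1 * (q.2.2 - 1) / ((zd q.1.2) ^ 2 + (xd q.1.2) ^ 2)) := by
    refine Continuous.div (by fun_prop) (by fun_prop) fun q => (hne _).ne'
  unfold Ph
  fun_prop

lemma Wf_cont (hw : Continuous w) (h1 : ContDiff ℝ 1 zm) (h2 : ContDiff ℝ 1 zd) (h3 : ContDiff ℝ 1 xm) (h4 : ContDiff ℝ 1 xd)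
    (hne : ∀ t, 0 < (zd t) ^ 2 + (xd t) ^ 2) :
    Continuous (fun q : (ℝ × ℝ) × (ℝ × ℝ) => Wf w zm zd xm xd q.1.1 q.1.2 q.2) := by
  have c := Ph_cont h1 h2 h3 h4 hne
  have cg := gs_cont h1 h2 h3 h4
  have cs := sg_cont
  have c1 : Continuous (fun q : (ℝ × ℝ) × (ℝ × ℝ) => gs zm zd xm xd q.1.2 (Ph zm zd xm xd q.1.1 q.1.2 q.2)) :=
    cg.comp ((continuous_snd.comp continuous_fst).prodMk c)
  exact ((hw.comp c).mul (cs.comp (continuous_snd.comp continuous_snd))).mul c1

/-- smoothed functional -/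
noncomputable def In (w : ℝ × ℝ → ℝ) (zm zd xm xd : ℝ → ℝ) (n : ℕ) (s : ℝ) : ℝ :=
  ∫ p : ℝ × ℝ, w p * Real.smoothTransition (((n:ℝ) + 1) * gg zm zd xm xd s p + 1)

lemma w_supp (hB : ∀ p : ℝ × ℝ, B < |p.1| ∨ B < |p.2| → w p = 0) (p : ℝ × ℝ) (hp : p ∉ Icc (-B) B ×ˢ Icc (-B) B) :
    w p = 0 := by
  apply hB
  by_contra hc
  push Not at hc
  exact hp ⟨abs_le.mp hc.1, abs_le.mp hc.2⟩

lemma w_hcs (hB : ∀ p : ℝ × ℝ, B < |p.1| ∨ B < |p.2| → w p = 0) : HasCompactSupport w :=
  HasCompactSupport.intro (isCompact_Icc.prod isCompact_Icc) (w_supp hB)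

lemma w_int (hw : Continuous w) (hB : ∀ p : ℝ × ℝ, B < |p.1| ∨ B < |p.2| → w p = 0) : Integrable w :=
  hw.integrable_of_hasCompactSupport (w_hcs hB)

lemma In_tendsto (hw : Continuous w) (hB : ∀ p : ℝ × ℝ, B < |p.1| ∨ B < |p.2| → w p = 0)
    (h1 : ContDiff ℝ 1 zm) (h2 : ContDiff ℝ 1 zd) (h3 : ContDiff ℝ 1 xm) (h4 : ContDiff ℝ 1 xd) (s : ℝ) :
    Tendsto (fun n => In w zm zd xm xd n s) atTop
      (𝓝 (∫ p in {p : ℝ × ℝ | xd s * zm s - zd s * xm s ≤ xd s * p.1 - zd s * p.2}, w p)) := by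
  have hcs : Continuous fun p => gg zm zd xm xd s p :=
    (gg_cont h1 h2 h3 h4).comp (continuous_const.prodMk continuous_id)
  have hm : MeasurableSet {p : ℝ × ℝ | xd s * zm s - zd s * xm s ≤ xd s * p.1 - zd s * p.2} :=
    (isClosed_le continuous_const (by fun_prop)).measurableSet
  rw [← integral_indicator hm]
  refine tendsto_integral_of_dominated_convergence (fun p => |w p|) (fun n => ?_) (w_int hw hB).abs (fun n => ?_) ?_
  · exact (hw.mul (Real.smoothTransition.continuous.comp (by fun_prop))).aestronglyMeasurable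
  · refine Eventually.of_forall fun p => ?_
    rw [Real.norm_eq_abs, abs_mul]
    have h0 := Real.smoothTransition.nonneg (((n:ℝ) + 1) * gg zm zd xm xd s p + 1)
    have h1 := Real.smoothTransition.le_one (((n:ℝ) + 1) * gg zm zd xm xd s p + 1)
    rw [abs_of_nonneg h0]
    exact mul_le_of_le_one_right (abs_nonneg _) h1
  · refine Eventually.of_forall fun p => ?_
    by_cases hp : 0 ≤ gg zm zd xm xd s p
    · have hmem : p ∈ {p : ℝ × ℝ | xd s * zm s - zd s * xm s ≤ xd s * p.1 - zd s * p.2} := by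
        simp only [gg] at hp
        simp only [mem_ofPred_eq]; linarith
      rw [indicator_of_mem hmem]
      refine tendsto_const_nhds.congr fun n => ?_
      rw [Real.smoothTransition.one_of_one_le, mul_one]
      have : 0 ≤ ((n:ℝ) + 1) * gg zm zd xm xd s p := mul_nonneg (by positivity) hp
      linarith
    · have hmem : p ∉ {p : ℝ × ℝ | xd s * zm s - zd s * xm s ≤ xd s * p.1 - zd s * p.2} := by
        simp only [gg] at hp
        simp only [mem_ofPred_eq]; intro h; apply hp; linarith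
      rw [indicator_of_notMem hmem]
      push Not at hp
      obtain ⟨N, hN⟩ := exists_nat_gt (1 / (- gg zm zd xm xd s p))
      refine tendsto_const_nhds.congr' ?_
      filter_upwards [eventually_ge_atTop N] with n hn
      rw [Real.smoothTransition.zero_of_nonpos, mul_zero]
      have h5 : 1 / (- gg zm zd xm xd s p) < (n:ℝ) + 1 := by
        have : (N:ℝ) ≤ n := by exact_mod_cast hn
        linarith
      rw [div_lt_iff₀ (by linarith)] at h5
      linarith

lemma In_hasDeriv (hw : Continuous w) (hB : ∀ p : ℝ × ℝ, B < |p.1| ∨ B < |p.2| → w p = 0)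
    (h1 : ContDiff ℝ 1 zm) (h2 : ContDiff ℝ 1 zd) (h3 : ContDiff ℝ 1 xm) (h4 : ContDiff ℝ 1 xd) (n : ℕ) (s : ℝ) :
    HasDerivAt (In w zm zd xm xd n) (∫ p : ℝ × ℝ, w p * (sg (((n:ℝ) + 1) * gg zm zd xm xd s p + 1) *
      (((n:ℝ) + 1) * gs zm zd xm xd s p))) s := by
  have hg := gg_cont h1 h2 h3 h4
  have hgs := gs_cont h1 h2 h3 h4
  have hsg := sg_cont
  have hst := Real.smoothTransition.continuous
  have hF' : Continuous fun q : ℝ × (ℝ × ℝ) => w q.2 * (sg (((n:ℝ) + 1) * gg zm zd xm xd q.1 q.2 + 1) *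
      (((n:ℝ) + 1) * gs zm zd xm xd q.1 q.2)) := by fun_prop
  have hF : Continuous fun q : ℝ × (ℝ × ℝ) => w q.2 * Real.smoothTransition (((n:ℝ) + 1) * gg zm zd xm xd q.1 q.2 + 1) := by
    fun_prop
  obtain ⟨C, hC⟩ := ((isCompact_Icc (a := s - 1) (b := s + 1)).prod
    ((isCompact_Icc (a := -B) (b := B)).prod (isCompact_Icc (a := -B) (b := B)))).exists_bound_of_continuousOn hF'.continuousOn
  have hcK : IsCompact (Icc (-B) B ×ˢ Icc (-B) B) := isCompact_Icc.prod isCompact_Icc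
  refine (hasDerivAt_integral_of_dominated_loc_of_deriv_le (s := Icc (s - 1) (s + 1))
    (F := fun s p => w p * Real.smoothTransition (((n:ℝ) + 1) * gg zm zd xm xd s p + 1))
    (F' := fun s p => w p * (sg (((n:ℝ) + 1) * gg zm zd xm xd s p + 1) * (((n:ℝ) + 1) * gs zm zd xm xd s p)))
    (bound := (Icc (-B) B ×ˢ Icc (-B) B).indicator fun _ => C)
    (Icc_mem_nhds (by linarith) (by linarith)) ?_ ?_ ?_ ?_ ?_ ?_).2
  · exact Eventually.of_forall fun x => (hF.comp (continuous_const.prodMk continuous_id)).aestronglyMeasurable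
  · refine (hF.comp (continuous_const.prodMk continuous_id)).integrable_of_hasCompactSupport ?_
    exact HasCompactSupport.intro hcK fun p hp => by simp [w_supp hB p hp]
  · exact (hF'.comp (continuous_const.prodMk continuous_id)).aestronglyMeasurable
  · refine Eventually.of_forall fun p x hx => ?_
    by_cases hp : p ∈ Icc (-B) B ×ˢ Icc (-B) B
    · rw [indicator_of_mem hp]
      exact hC (x, p) ⟨hx, hp⟩
    · rw [indicator_of_notMem hp]
      simp [w_supp hB p hp]
  · rw [integrable_indicator_iff hcK.measurableSet]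
    exact integrableOn_const hcK.measure_ne_top
  · refine Eventually.of_forall fun p x _ => ?_
    have := ((gg_hasDeriv h1 h2 h3 h4 x p).const_mul ((n:ℝ) + 1)).add_const 1
    exact ((sg_hasDeriv _).comp x this).const_mul (w p)

/-- the derivative in the new coordinates -/
lemma In_cov (hne : ∀ t, 0 < (zd t) ^ 2 + (xd t) ^ 2) (n : ℕ) (s : ℝ) :
    (∫ p : ℝ × ℝ, w p * (sg (((n:ℝ) + 1) * gg zm zd xm xd s p + 1) * (((n:ℝ) + 1) * gs zm zd xm xd s p))) =
      ∫ q : ℝ × ℝ, Wf w zm zd xm xd (1 / ((n:ℝ) + 1)) s q := by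
  have hl := hne s
  have hn : (0:ℝ) < (n:ℝ) + 1 := by positivity
  set l2 := (zd s) ^ 2 + (xd s) ^ 2 with hl2
  set e : ℝ := 1 / ((n:ℝ) + 1) with he
  have hdet : zd s * (-(e / l2 * zd s)) - (e / l2 * xd s) * xd s = - e := by
    field_simp; rw [hl2]; ring
  rw [cov _ (zd s) (e / l2 * xd s) (xd s) (-(e / l2 * zd s)) (zm s - e / l2 * xd s) (xm s + e / l2 * zd s)
    (by rw [hdet, he]; exact neg_ne_zero.mpr (by positivity)), hdet, abs_neg, abs_of_pos (by positivity), ← integral_const_mul]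
  congr 1
  funext q
  have hq : ((zm s - e / l2 * xd s + (zd s * q.1 + e / l2 * xd s * q.2), xm s + e / l2 * zd s + (xd s * q.1 + -(e / l2 * zd s) * q.2)) : ℝ × ℝ)
      = Ph zm zd xm xd e s q := by
    unfold Ph
    rw [← hl2]
    ext
    · simp only; ring
    · simp only; ring
  rw [hq]
  have hg : ((n:ℝ) + 1) * gg zm zd xm xd s (Ph zm zd xm xd e s q) + 1 = q.2 := by
    unfold gg Ph
    simp only
    rw [← hl2]
    have : xd s * (zm s + q.1 * zd s + e * (q.2 - 1) / l2 * xd s) - zd s * (xm s + q.1 * xd s - e * (q.2 - 1) / l2 * zd s) -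
      (xd s * zm s - zd s * xm s) = e * (q.2 - 1) := by
      field_simp
      rw [hl2]; ring
    rw [this, he]
    field_simp
    ring
  rw [hg]
  unfold Wf
  rw [he]
  field_simp

lemma Wf_supp (hB : ∀ p : ℝ × ℝ, B < |p.1| ∨ B < |p.2| → w p = 0)
    (h1 : ContDiff ℝ 1 zm) (h2 : ContDiff ℝ 1 zd) (h3 : ContDiff ℝ 1 xm) (h4 : ContDiff ℝ 1 xd)
    (hne : ∀ t, 0 < (zd t) ^ 2 + (xd t) ^ 2) (t : ℝ) :
    ∃ R : ℝ, ∀ e s : ℝ, s ∈ Icc (t - 1) (t + 1) → ∀ q : ℝ × ℝ, q ∉ Icc (-R) R ×ˢ Icc (0:ℝ) 1 →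
      Wf w zm zd xm xd e s q = 0 := by
  have c1 := h1.continuous
  have c2 := h2.continuous
  have c3 := h3.continuous
  have c4 := h4.continuous
  have hc : Continuous fun s => ((|B| + |zm s|) * |zd s| + (|B| + |xm s|) * |xd s|) / ((zd s) ^ 2 + (xd s) ^ 2) := by
    refine Continuous.div (by fun_prop) (by fun_prop) fun q => (hne _).ne'
  obtain ⟨R, hR⟩ := (isCompact_Icc (a := t - 1) (b := t + 1)).exists_bound_of_continuousOn hc.continuousOn
  refine ⟨R, fun e s hs q hq => ?_⟩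
  by_cases hu : q.2 ∈ Icc (0:ℝ) 1
  swap
  · have : sg q.2 = 0 := by
      rw [mem_Icc, not_and_or, not_le, not_le] at hu
      exact hu.elim sg_left sg_right
    simp [Wf, this]
  have hw0 : w (Ph zm zd xm xd e s q) = 0 := by
    by_contra hcon
    apply hq
    refine ⟨?_, hu⟩
    have hb1 : |(Ph zm zd xm xd e s q).1| ≤ |B| := by
      by_contra h; push Not at h
      exact hcon (hB _ (Or.inl ((le_abs_self B).trans_lt h)))
    have hb2 : |(Ph zm zd xm xd e s q).2| ≤ |B| := by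
      by_contra h; push Not at h
      exact hcon (hB _ (Or.inr ((le_abs_self B).trans_lt h)))
    have hl := hne s
    have hx : q.1 = (((Ph zm zd xm xd e s q).1 - zm s) * zd s + ((Ph zm zd xm xd e s q).2 - xm s) * xd s) / ((zd s) ^ 2 + (xd s) ^ 2) := by
      rw [eq_div_iff hl.ne']
      unfold Ph
      simp only
      ring
    have hRs := hR s hs
    rw [Real.norm_eq_abs] at hRs
    have habs : |q.1| ≤ R := by
      refine le_trans ?_ hRs
      rw [hx, abs_div, abs_div]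
      refine div_le_div_of_nonneg_right ?_ (abs_nonneg _)
      refine le_trans ?_ (le_abs_self _)
      refine (abs_add_le _ _).trans ?_
      rw [abs_mul, abs_mul]
      refine add_le_add (mul_le_mul_of_nonneg_right ?_ (abs_nonneg _)) (mul_le_mul_of_nonneg_right ?_ (abs_nonneg _))
      · exact (abs_sub _ _).trans (add_le_add_left hb1 _)
      · exact (abs_sub _ _).trans (add_le_add_left hb2 _)
    exact abs_le.mp habs
  simp [Wf, hw0]

end main

end Q03

/-- Let `w : ℝ × ℝ → ℝ` be continuous and vanish outside a bounded set, and let `zm, zd, xm, xd` be `C^1` functions of `t` with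
`(zd, xd) ≠ 0`. With `n = (n_z, n_x) = (xd, - zd)` and `h = n . (zm, xm)`, the function
`I(t) = ∫_{h(t) ≤ n(t) . p} w(p) dp` is differentiable with
`I'(t) = ∫_ℝ w (zm + x zd, xm + x xd) * (n'(t) . (zm + x zd, xm + x xd) - h'(t)) dx`.
Proof (smoothing): `I_e(t) = ∫ w(p) H_e (n(t).p - h(t)) dp`, `H_e(s) = min 1 (max 0 (s/e))`. For fixed `t` the map
`(x, y) ↦ (zm + x zd + y n_z, xm + x xd + y n_x)` has Jacobian `- l2`, `l2 = zd^2 + xd^2`, and `n . p - h = y l2`.
`I_e` is differentiable (dominated, Lipschitz integrand, differentiable off two lines):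
`I_e'(t) = (1/e) ∫_{0 < n.p - h < e} w(p) (n'.p - h') dp = (l2/e) ∫_{0 < y < e/l2} ∫ w(..) (n'.p - h') dx dy`, which converges as `e → 0`,
locally uniformly in `t` (uniform continuity of `w`), to the claimed continuous function, and `I_e → I` uniformly. Use
`hasDerivAt_of_tendstoUniformlyOn` (or integrate: `I_e(t) - I_e(s) = ∫_s^t I_e'`, pass to the limit, then FTC).
Alternative: prove it for `C^1` functions `w` by the change of variables, and approximate `w` uniformly. -/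
theorem transport {w : ℝ × ℝ → ℝ} (hw : Continuous w) {B : ℝ} (hB : ∀ p : ℝ × ℝ, B < |p.1| ∨ B < |p.2| → w p = 0)
    {zm zd xm xd : ℝ → ℝ} (h1 : ContDiff ℝ 1 zm) (h2 : ContDiff ℝ 1 zd) (h3 : ContDiff ℝ 1 xm) (h4 : ContDiff ℝ 1 xd)
    (hne : ∀ t, 0 < (zd t) ^ 2 + (xd t) ^ 2) (t : ℝ) :
    HasDerivAt (fun s => ∫ p in {p : ℝ × ℝ | xd s * zm s - zd s * xm s ≤ xd s * p.1 - zd s * p.2}, w p)
      (∫ x : ℝ, w (zm t + x * zd t, xm t + x * xd t) *
        (deriv xd t * (zm t + x * zd t) - deriv zd t * (xm t + x * xd t) - deriv (fun s => xd s * zm s - zd s * xm s) t)) t := by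
  obtain ⟨R, hR⟩ := Q03.Wf_supp hB h1 h2 h3 h4 hne t
  have hWc := Q03.Wf_cont hw h1 h2 h3 h4 hne
  have hcK : IsCompact (Icc (-R) R ×ˢ Icc (0:ℝ) 1) := isCompact_Icc.prod isCompact_Icc
  set K : ℝ → ℝ → ℝ := fun e s => ∫ q in Icc (-R) R ×ˢ Icc (0:ℝ) 1, Q03.Wf w zm zd xm xd e s q with hK
  have hKc : Continuous (Function.uncurry K) := by
    have := continuous_parametric_integral_of_continuous (μ := (volume : Measure (ℝ × ℝ)))
      (f := fun (x : ℝ × ℝ) (q : ℝ × ℝ) => Q03.Wf w zm zd xm xd x.1 x.2 q) (by exact hWc) hcK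
    exact this
  -- the full integral equals `K` near `t`
  have hfull : ∀ e s : ℝ, s ∈ Icc (t - 1) (t + 1) → ∫ q : ℝ × ℝ, Q03.Wf w zm zd xm xd e s q = K e s := by
    intro e s hs
    rw [hK]
    simp only
    rw [setIntegral_eq_integral_of_forall_compl_eq_zero]
    intro q hq
    exact hR e s hs q hq
  have hlim : HasDerivAt (fun s => ∫ p in {p : ℝ × ℝ | xd s * zm s - zd s * xm s ≤ xd s * p.1 - zd s * p.2}, w p)
      (K 0 t) t := by
    refine hasDerivAt_of_tendstoUniformlyOn (s := Ioo (t - 1) (t + 1)) (l := atTop) isOpen_Ioo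
      (f := fun (n : ℕ) s => Q03.In w zm zd xm xd n s) (f' := fun (n : ℕ) s => K (1 / ((n:ℝ) + 1)) s) (g' := fun s => K 0 s) ?_ ?_ ?_
      ⟨by linarith, by linarith⟩
    · rw [Metric.tendstoUniformlyOn_iff]
      intro ε hε
      obtain ⟨v, hv, hv'⟩ := (isCompact_Icc (a := t - 1) (b := t + 1)).mem_uniformity_of_prod
        (s := univ) (q := (0:ℝ)) (f := K) hKc.continuousOn (mem_univ _) (Metric.dist_mem_uniformity hε)
      rw [nhdsWithin_univ] at hv
      have ht0 : Tendsto (fun n : ℕ => 1 / ((n:ℝ) + 1)) atTop (𝓝 0) := tendsto_one_div_add_atTop_nhds_zero_nat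
      filter_upwards [ht0 hv] with n hn x hx
      rw [dist_comm]
      exact hv' _ hn x (Ioo_subset_Icc_self hx)
    · refine Eventually.of_forall fun n s hs => ?_
      rw [← hfull _ s (Ioo_subset_Icc_self hs), ← Q03.In_cov hne n s]
      exact Q03.In_hasDeriv hw hB h1 h2 h3 h4 n s
    · intro s _
      exact Q03.In_tendsto hw hB h1 h2 h3 h4 s
  have hval : K 0 t = ∫ x : ℝ, w (zm t + x * zd t, xm t + x * xd t) *
        (deriv xd t * (zm t + x * zd t) - deriv zd t * (xm t + x * xd t) - deriv (fun s => xd s * zm s - zd s * xm s) t) := by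
    have hW0 : ∀ q : ℝ × ℝ, Q03.Wf w zm zd xm xd 0 t q = (w (zm t + q.1 * zd t, xm t + q.1 * xd t) *
        (deriv xd t * (zm t + q.1 * zd t) - deriv zd t * (xm t + q.1 * xd t) -
          deriv (fun s => xd s * zm s - zd s * xm s) t)) * Q03.sg q.2 := by
      intro q
      unfold Q03.Wf Q03.gs Q03.Ph
      simp only [zero_mul, zero_div, add_zero, sub_zero]
      ring
    rw [hK]
    simp only
    simp_rw [hW0]
    rw [Measure.volume_eq_prod, setIntegral_prod_mul (fun x : ℝ => w (zm t + x * zd t, xm t + x * xd t) *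
        (deriv xd t * (zm t + x * zd t) - deriv zd t * (xm t + x * xd t) -
          deriv (fun s => xd s * zm s - zd s * xm s) t)) Q03.sg, Q03.sg_int, mul_one]
    apply setIntegral_eq_integral_of_forall_compl_eq_zero
    intro x hx
    obtain ⟨u, hu, hu'⟩ : ∃ u ∈ Icc (0:ℝ) 1, Q03.sg u ≠ 0 := by
      by_contra hcon
      push Not at hcon
      have := Q03.sg_int
      rw [setIntegral_eq_zero_of_forall_eq_zero hcon] at this
      norm_num at this
    have h0 := hR 0 t ⟨by linarith, by linarith⟩ (x, u) (fun h => hx h.1)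
    rw [hW0] at h0
    exact (mul_eq_zero.mp h0).resolve_right hu'
  rw [← hval]
  exact hlim

end FB
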