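import Pool.Agent.H48.FB.QDefs
import Pool.Agent.H48.FB.Q01

/-! Q04: the density on the water line chords. -/

open Set MeasureTheory

namespace FB

/-- closeness of the chord quantities to those of the circle -/
theorem Q04_close {al c : ℝ} {zf xf f : ℝ → ℝ} (h : RG al c zf xf f) (t : ℝ) :
    |rmd al zf t - Real.cos t * Real.cos al| ≤ c ∧ |rdf al zf t + Real.sin t * Real.sin al| ≤ c ∧
    |rmd al xf t - Real.sin t * Real.cos al| ≤ c ∧ |rdf al xf t - Real.cos t * Real.sin al| ≤ c := by
  have hz1 := abs_le.1 (h.z0 (t + al))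
  have hz2 := abs_le.1 (h.z0 (t - al))
  have hx1 := abs_le.1 (h.x0 (t + al))
  have hx2 := abs_le.1 (h.x0 (t - al))
  rw [Real.cos_add] at hz1
  rw [Real.cos_sub] at hz2
  rw [Real.sin_add] at hx1
  rw [Real.sin_sub] at hx2
  unfold rmd rdf
  refine ⟨?_, ?_, ?_, ?_⟩ <;> rw [abs_le] <;> constructor <;>
    linarith [hz1.1, hz1.2, hz2.1, hz2.2, hx1.1, hx1.2, hx2.1, hx2.2]

/-- On the line of the chord `t`: `omg f (z_m + x z_d, x_m + x x_d) = 2 sqrt (G x)` for `|x| ≤ 1` and `= 0` for `|x| ≥ 1`.
Proof: `G(±1) = f (zf b) - (xf b)^2 = 0` for `b = t ± al`; `G` is strictly concave as long as `|z_m + x z_d| ≤ 3`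
(`G'' = f'' z_d^2 - 2 x_d^2 < 0`), so `G > 0` on `(-1,1)` and `G < 0` for `|x| > 1`, `|z| ≤ 3`. -/
theorem omg_chord : ∃ c0 : ℝ, 0 < c0 ∧ c0 ≤ 1/100 ∧ ∀ (al : ℝ), al ∈ JJ → ∀ zf xf f : ℝ → ℝ, RG al c0 zf xf f →
    (∀ t x : ℝ, |x| ≤ 1 → omg f (rmd al zf t + x * rdf al zf t, rmd al xf t + x * rdf al xf t) = 2 * Real.sqrt (rG al zf xf f t x)) ∧
    (∀ t x : ℝ, 1 ≤ |x| → omg f (rmd al zf t + x * rdf al zf t, rmd al xf t + x * rdf al xf t) = 0) ∧
    (∀ t, 0 < (rdf al zf t) ^ 2 + (rdf al xf t) ^ 2) ∧ (∀ t, 0 < ret al zf xf t) := by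
  obtain ⟨c0, hc0, hc1, hprof⟩ := profile
  refine ⟨c0, hc0, hc1, ?_⟩
  intro al hal zf xf f hRG
  obtain ⟨hconc, -, -, -, -, -⟩ := hprof al hal zf xf f hRG
  have hconc' : ConcaveOn ℝ (Icc (-3) 3) f := hconc.concaveOn
  have hJJ := JJ_bounds hal
  -- the end points
  have hzb : ∀ b, |zf b| ≤ 101 / 100 := by
    intro b
    have h1 := abs_le.1 (hRG.z0 b)
    have h2 := Real.cos_le_one b
    have h3 := Real.neg_one_le_cos b
    rw [abs_le]; constructor <;> linarith [h1.1, h1.2]
  have hG1 : ∀ t, rG al zf xf f t 1 = 0 := by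
    intro t
    unfold rG rmd rdf
    have e1 : (zf (t + al) + zf (t - al)) / 2 + 1 * ((zf (t + al) - zf (t - al)) / 2) = zf (t + al) := by ring
    have e2 : (xf (t + al) + xf (t - al)) / 2 + 1 * ((xf (t + al) - xf (t - al)) / 2) = xf (t + al) := by ring
    rw [e1, e2, hRG.fz]; ring
  have hG2 : ∀ t, rG al zf xf f t (-1) = 0 := by
    intro t
    unfold rG rmd rdf
    have e1 : (zf (t + al) + zf (t - al)) / 2 + (-1) * ((zf (t + al) - zf (t - al)) / 2) = zf (t - al) := by ring
    have e2 : (xf (t + al) + xf (t - al)) / 2 + (-1) * ((xf (t + al) - xf (t - al)) / 2) = xf (t - al) := by ring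
    rw [e1, e2, hRG.fz]; ring
  have hend1 : ∀ t, |rmd al zf t + 1 * rdf al zf t| ≤ 3 := by
    intro t
    have e1 : rmd al zf t + 1 * rdf al zf t = zf (t + al) := by unfold rmd rdf; ring
    rw [e1]; linarith [hzb (t + al)]
  have hend2 : ∀ t, |rmd al zf t + (-1) * rdf al zf t| ≤ 3 := by
    intro t
    have e1 : rmd al zf t + (-1) * rdf al zf t = zf (t - al) := by unfold rmd rdf; ring
    rw [e1]; linarith [hzb (t - al)]
  -- concavity
  have hGc : ∀ t x y l : ℝ, |rmd al zf t + x * rdf al zf t| ≤ 3 → |rmd al zf t + y * rdf al zf t| ≤ 3 →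
      0 ≤ l → l ≤ 1 → l * rG al zf xf f t x + (1 - l) * rG al zf xf f t y ≤
        rG al zf xf f t (l * x + (1 - l) * y) := by
    intro t x y l hx hy hl0 hl1
    have h1 := hconc'.2 (abs_le.1 hx) (abs_le.1 hy) hl0 (by linarith : (0:ℝ) ≤ 1 - l) (by ring)
    simp only [smul_eq_mul] at h1
    have e1 : l * (rmd al zf t + x * rdf al zf t) + (1 - l) * (rmd al zf t + y * rdf al zf t)
        = rmd al zf t + (l * x + (1 - l) * y) * rdf al zf t := by ring
    rw [e1] at h1
    unfold rG
    have h2 : 0 ≤ l * (1 - l) * ((x - y) * rdf al xf t) ^ 2 :=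
      mul_nonneg (mul_nonneg hl0 (by linarith)) (sq_nonneg _)
    nlinarith [h1, h2]
  refine ⟨?_, ?_, ?_, ?_⟩
  · intro t x hx
    obtain ⟨hx1, hx2⟩ := abs_le.1 hx
    have hz : |rmd al zf t + x * rdf al zf t| ≤ 3 := by
      have a1 := abs_le.1 (hend1 t)
      have a2 := abs_le.1 (hend2 t)
      rw [abs_le]
      constructor
      · nlinarith [mul_nonneg (by linarith : (0:ℝ) ≤ (1 + x) / 2) (by linarith [a1.1] : (0:ℝ) ≤ rmd al zf t + 1 * rdf al zf t + 3),
          mul_nonneg (by linarith : (0:ℝ) ≤ (1 - x) / 2) (by linarith [a2.1] : (0:ℝ) ≤ rmd al zf t + (-1) * rdf al zf t + 3)]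
      · nlinarith [mul_nonneg (by linarith : (0:ℝ) ≤ (1 + x) / 2) (by linarith [a1.2] : (0:ℝ) ≤ 3 - (rmd al zf t + 1 * rdf al zf t)),
          mul_nonneg (by linarith : (0:ℝ) ≤ (1 - x) / 2) (by linarith [a2.2] : (0:ℝ) ≤ 3 - (rmd al zf t + (-1) * rdf al zf t))]
    unfold omg
    rw [if_pos hz]
    rfl
  · intro t x hx
    unfold omg
    by_cases hz : |rmd al zf t + x * rdf al zf t| ≤ 3
    · rw [if_pos hz]
      have hG : rG al zf xf f t x ≤ 0 := by
        rcases le_abs.1 hx with h1 | h1
        · have hl0 : (0:ℝ) < 2 / (x + 1) := by positivity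
          have hl1 : 2 / (x + 1) ≤ 1 := by
            rw [div_le_one (by linarith)]; linarith
          have h2 := hGc t x (-1) (2 / (x + 1)) hz (hend2 t) hl0.le hl1
          have e1 : 2 / (x + 1) * x + (1 - 2 / (x + 1)) * (-1) = 1 := by
            have : x + 1 ≠ 0 := by linarith
            field_simp; ring
          rw [e1, hG1, hG2] at h2
          by_contra hcon
          push Not at hcon
          have := mul_pos hl0 hcon
          linarith
        · have hx' : x ≤ -1 := by linarith
          have hl0 : (0:ℝ) < 2 / (1 - x) := by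
            apply div_pos <;> linarith
          have hl1 : 2 / (1 - x) ≤ 1 := by
            rw [div_le_one (by linarith)]; linarith
          have h2 := hGc t x 1 (2 / (1 - x)) hz (hend1 t) hl0.le hl1
          have e1 : 2 / (1 - x) * x + (1 - 2 / (1 - x)) * 1 = -1 := by
            have : 1 - x ≠ 0 := by linarith
            field_simp; ring
          rw [e1, hG1, hG2] at h2
          by_contra hcon
          push Not at hcon
          have := mul_pos hl0 hcon
          linarith
      have h3 : Real.sqrt (f (rmd al zf t + x * rdf al zf t) - (rmd al xf t + x * rdf al xf t) ^ 2) = 0 :=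
        Real.sqrt_eq_zero'.2 hG
      simp only
      rw [h3, mul_zero]
    · rw [if_neg hz]
  · intro t
    obtain ⟨-, h1, -, h2⟩ := Q04_close hRG t
    have h1' := abs_le.1 h1
    have h2' := abs_le.1 h2
    obtain ⟨-, -, -, -, -, hs1, hs2⟩ := hJJ
    set s := Real.sin al
    set u := rdf al zf t + Real.sin t * s with hu
    set v := rdf al xf t - Real.cos t * s with hv
    have e1 : rdf al zf t = u - Real.sin t * s := by rw [hu]; ring
    have e2 : rdf al xf t = v + Real.cos t * s := by rw [hv]; ring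
    rw [e1, e2]
    have hsc := Real.sin_sq_add_cos_sq t
    have b1 := Real.neg_one_le_sin t
    have b2 := Real.sin_le_one t
    have b3 := Real.neg_one_le_cos t
    have b4 := Real.cos_le_one t
    have k1 : u * Real.sin t ≤ 1 / 100 := by
      have : |u * Real.sin t| ≤ c0 * 1 := by
        rw [abs_mul]
        exact mul_le_mul h1 (Real.abs_sin_le_one t) (abs_nonneg _) hc0.le
      have := le_abs_self (u * Real.sin t)
      linarith
    have k2 : -(1 / 100) ≤ v * Real.cos t := by
      have : |v * Real.cos t| ≤ c0 * 1 := by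
        rw [abs_mul]
        exact mul_le_mul h2 (Real.abs_cos_le_one t) (abs_nonneg _) hc0.le
      have := neg_abs_le (v * Real.cos t)
      linarith
    have e3 : (u - Real.sin t * s) ^ 2 + (v + Real.cos t * s) ^ 2
        = u ^ 2 + v ^ 2 + s ^ 2 * (Real.sin t ^ 2 + Real.cos t ^ 2) - 2 * s * (u * Real.sin t)
          + 2 * s * (v * Real.cos t) := by ring
    rw [e3, hsc]
    have k3 : s * (u * Real.sin t) ≤ s * (1 / 100) := mul_le_mul_of_nonneg_left k1 (by linarith)
    have k4 : s * (-(1 / 100)) ≤ s * (v * Real.cos t) := mul_le_mul_of_nonneg_left k2 (by linarith)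
    nlinarith [sq_nonneg u, sq_nonneg v]
  · intro t
    obtain ⟨h1, h2, h3, h4⟩ := Q04_close hRG t
    obtain ⟨-, -, -, hc1', hc2', hs1, hs2⟩ := hJJ
    have hct := Real.abs_cos_le_one t
    have hst := Real.abs_sin_le_one t
    have hsc := Real.sin_sq_add_cos_sq t
    have hcz : |Real.cos t * Real.cos al| ≤ 1 := by
      rw [abs_mul]
      calc |Real.cos t| * |Real.cos al| ≤ 1 * 1 :=
            mul_le_mul hct (Real.abs_cos_le_one al) (abs_nonneg _) zero_le_one
        _ = 1 := by norm_num
    have hsz : |Real.sin t * Real.cos al| ≤ 1 := by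
      rw [abs_mul]
      calc |Real.sin t| * |Real.cos al| ≤ 1 * 1 :=
            mul_le_mul hst (Real.abs_cos_le_one al) (abs_nonneg _) zero_le_one
        _ = 1 := by norm_num
    have hcs : |Real.cos t * Real.sin al| ≤ 1 := by
      rw [abs_mul]
      calc |Real.cos t| * |Real.sin al| ≤ 1 * 1 :=
            mul_le_mul hct (Real.abs_sin_le_one al) (abs_nonneg _) zero_le_one
        _ = 1 := by norm_num
    have hss : |Real.sin t * Real.sin al| ≤ 1 := by
      rw [abs_mul]
      calc |Real.sin t| * |Real.sin al| ≤ 1 * 1 :=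
            mul_le_mul hst (Real.abs_sin_le_one al) (abs_nonneg _) zero_le_one
        _ = 1 := by norm_num
    unfold ret rnz rnx
    -- a = md z, b = df x, c = md x, d = df z
    set a := rmd al zf t - Real.cos t * Real.cos al with ha
    set b := rdf al xf t - Real.cos t * Real.sin al with hb
    set e := rmd al xf t - Real.sin t * Real.cos al with he
    set d := rdf al zf t + Real.sin t * Real.sin al with hd
    have ea : rmd al zf t = a + Real.cos t * Real.cos al := by rw [ha]; ring
    have eb : rdf al xf t = b + Real.cos t * Real.sin al := by rw [hb]; ring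
    have ee : rmd al xf t = e + Real.sin t * Real.cos al := by rw [he]; ring
    have ed : rdf al zf t = d - Real.sin t * Real.sin al := by rw [hd]; ring
    rw [ea, eb, ee, ed]
    have hp : ∀ x y : ℝ, |x| ≤ c0 → |y| ≤ 1 → -(1 / 100) ≤ x * y := by
      intro x y hx hy
      have : |x * y| ≤ c0 * 1 := by
        rw [abs_mul]; exact mul_le_mul hx hy (abs_nonneg _) hc0.le
      have := neg_abs_le (x * y)
      linarith
    have hp' : ∀ x y : ℝ, |x| ≤ c0 → |y| ≤ 1 → x * y ≤ 1 / 100 := by
      intro x y hx hy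
      have : |x * y| ≤ c0 * 1 := by
        rw [abs_mul]; exact mul_le_mul hx hy (abs_nonneg _) hc0.le
      have := le_abs_self (x * y)
      linarith
    have ha1 : |a| ≤ 1 := h1.trans (by linarith)
    have he1 : |e| ≤ 1 := h3.trans (by linarith)
    have p1 := hp b a h4 ha1
    have p2 := hp b (Real.cos t * Real.cos al) h4 hcz
    have p3 := hp a (Real.cos t * Real.sin al) h1 hcs
    have p4 := hp' d e h2 he1
    have p5 := hp' d (Real.sin t * Real.cos al) h2 hsz
    have p6 := hp e (Real.sin t * Real.sin al) h3 hss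
    have e3 : (b + Real.cos t * Real.sin al) * (a + Real.cos t * Real.cos al)
        + -(d - Real.sin t * Real.sin al) * (e + Real.sin t * Real.cos al)
        = b * a + b * (Real.cos t * Real.cos al) + a * (Real.cos t * Real.sin al)
          - d * e - d * (Real.sin t * Real.cos al) + e * (Real.sin t * Real.sin al)
          + Real.sin al * Real.cos al * (Real.sin t ^ 2 + Real.cos t ^ 2) := by ring
    rw [e3, hsc]
    have hprod : 0.92 * 0.36 ≤ Real.sin al * Real.cos al :=
      mul_le_mul hs1.le hc1'.le (by norm_num) (by linarith)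
    linarith

end FB
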