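import Pool.Agent.H48.FB.QDefs
import Pool.Agent.H48.FB.Q01
import Pool.Agent.H48.FB.Q03
import Pool.Agent.H48.FB.Q04

/-! Q05: the cap volume is constant and the cap moments are `M0 n / ell`. -/

open Set MeasureTheory

namespace FB

theorem line_int (W : ℝ → ℝ) (hW : Continuous W) (hW0 : ∀ x, 1 ≤ |x| → W x = 0) (u v p m : ℝ) :
    ∫ x : ℝ, W x * (u + x * v) * (-(1 / 2) * ((1 + x) * p + (1 - x) * m)) =
      -(p * (u * ((∫ x in (-1 : ℝ)..1, x ^ 0 * (W x / 2)) + ∫ x in (-1 : ℝ)..1, x ^ 1 * (W x / 2)) +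
          v * ((∫ x in (-1 : ℝ)..1, x ^ 1 * (W x / 2)) + ∫ x in (-1 : ℝ)..1, x ^ 2 * (W x / 2))) +
        m * (u * ((∫ x in (-1 : ℝ)..1, x ^ 0 * (W x / 2)) - ∫ x in (-1 : ℝ)..1, x ^ 1 * (W x / 2)) +
          v * ((∫ x in (-1 : ℝ)..1, x ^ 1 * (W x / 2)) - ∫ x in (-1 : ℝ)..1, x ^ 2 * (W x / 2)))) := by
  have hsupp : Function.support (fun x : ℝ => W x * (u + x * v) *
      (-(1 / 2) * ((1 + x) * p + (1 - x) * m))) ⊆ Ioc (-1) 1 := by
    intro x hx
    rw [Function.mem_support] at hx
    by_contra hne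
    have h1 : 1 ≤ |x| := by
      rw [mem_Ioc, not_and_or, not_lt, not_le] at hne
      rcases hne with h | h
      · rw [abs_of_neg (by linarith)]; linarith
      · rw [abs_of_pos (by linarith)]; linarith
    exact hx (by rw [hW0 x h1]; ring)
  rw [← intervalIntegral.integral_eq_integral_of_support_subset hsupp]
  have h0 : ∀ j : ℕ, IntervalIntegrable (fun x => x ^ j * (W x / 2)) volume (-1) 1 := fun j =>
    Continuous.intervalIntegrable (by fun_prop) _ _
  have h1 : ∀ x : ℝ, W x * (u + x * v) * (-(1 / 2) * ((1 + x) * p + (1 - x) * m)) =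
      (-(u * (p + m))) * (x ^ 0 * (W x / 2)) + (-(u * (p - m) + v * (p + m))) * (x ^ 1 * (W x / 2)) +
        (-(v * (p - m))) * (x ^ 2 * (W x / 2)) := fun x => by ring
  simp_rw [h1]
  rw [intervalIntegral.integral_add (((h0 0).const_mul _).add ((h0 1).const_mul _))
      ((h0 2).const_mul _),
    intervalIntegral.integral_add ((h0 0).const_mul _) ((h0 1).const_mul _),
    intervalIntegral.integral_const_mul, intervalIntegral.integral_const_mul,
    intervalIntegral.integral_const_mul]
  ring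

theorem rmd_hasDeriv {al : ℝ} {g : ℝ → ℝ} (hg : Differentiable ℝ g) (t : ℝ) :
    HasDerivAt (rmd al g) ((deriv g (t + al) + deriv g (t - al)) / 2) t := by
  have h1 : HasDerivAt (fun s => g (s + al)) (deriv g (t + al)) t :=
    ((hg (t + al)).hasDerivAt).comp_add_const t al
  have h2 : HasDerivAt (fun s => g (s - al)) (deriv g (t - al)) t :=
    ((hg (t - al)).hasDerivAt).comp_sub_const t al
  exact (h1.add h2).div_const 2

theorem rdf_hasDeriv {al : ℝ} {g : ℝ → ℝ} (hg : Differentiable ℝ g) (t : ℝ) :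
    HasDerivAt (rdf al g) ((deriv g (t + al) - deriv g (t - al)) / 2) t := by
  have h1 : HasDerivAt (fun s => g (s + al)) (deriv g (t + al)) t :=
    ((hg (t + al)).hasDerivAt).comp_add_const t al
  have h2 : HasDerivAt (fun s => g (s - al)) (deriv g (t - al)) t :=
    ((hg (t - al)).hasDerivAt).comp_sub_const t al
  exact (h1.sub h2).div_const 2

theorem rmd_contDiff {al : ℝ} {g : ℝ → ℝ} (hg : ContDiff ℝ 2 g) : ContDiff ℝ 1 (rmd al g) := by
  have hg1 : ContDiff ℝ 1 g := hg.of_le (by norm_num)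
  unfold rmd
  fun_prop

theorem rdf_contDiff {al : ℝ} {g : ℝ → ℝ} (hg : ContDiff ℝ 2 g) : ContDiff ℝ 1 (rdf al g) := by
  have hg1 : ContDiff ℝ 1 g := hg.of_le (by norm_num)
  unfold rdf
  fun_prop

theorem HI_hasDeriv {al c : ℝ} {zf xf f : ℝ → ℝ} (hR : RG al c zf xf f)
    (hom : Continuous (omg f)) (hom0 : ∀ p : ℝ × ℝ, 2 < |p.1| ∨ 2 < |p.2| → omg f p = 0)
    (hc1 : ∀ t x : ℝ, |x| ≤ 1 → omg f (rmd al zf t + x * rdf al zf t, rmd al xf t + x * rdf al xf t) =
      2 * Real.sqrt (rG al zf xf f t x))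
    (hc2 : ∀ t x : ℝ, 1 ≤ |x| → omg f (rmd al zf t + x * rdf al zf t, rmd al xf t + x * rdf al xf t) = 0)
    (hpos : ∀ t, 0 < (rdf al zf t) ^ 2 + (rdf al xf t) ^ 2)
    {ph : ℝ × ℝ → ℝ} (hph : Continuous ph) (t u v : ℝ)
    (hline : ∀ x : ℝ, ph (rmd al zf t + x * rdf al zf t, rmd al xf t + x * rdf al xf t) = u + x * v) :
    HasDerivAt (fun s => HI f ph (rnz al xf s) (rnx al zf s) (ret al zf xf s))
      (-(rnp al zf xf t * (u * (raj al 0 zf xf f t + raj al 1 zf xf f t) +
          v * (raj al 1 zf xf f t + raj al 2 zf xf f t)) +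
        rnm al zf xf t * (u * (raj al 0 zf xf f t - raj al 1 zf xf f t) +
          v * (raj al 1 zf xf f t - raj al 2 zf xf f t)))) t := by
  have hz : Differentiable ℝ zf := hR.cz.differentiable (by norm_num)
  have hx : Differentiable ℝ xf := hR.cx.differentiable (by norm_num)
  have h := transport (w := fun p => omg f p * ph p) (hom.mul hph) (B := 2)
    (fun p hp => by simp only [hom0 p hp, zero_mul])
    (rmd_contDiff (al := al) hR.cz) (rdf_contDiff (al := al) hR.cz)
    (rmd_contDiff (al := al) hR.cx) (rdf_contDiff (al := al) hR.cx) hpos t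
  have hfun : (fun s => HI f ph (rnz al xf s) (rnx al zf s) (ret al zf xf s)) =
      fun s => ∫ p in {p : ℝ × ℝ | rdf al xf s * rmd al zf s - rdf al zf s * rmd al xf s ≤
        rdf al xf s * p.1 - rdf al zf s * p.2}, omg f p * ph p := by
    funext s
    unfold HI
    congr 2
    ext p
    simp only [ret, rnz, rnx, mem_ofPred_eq]
    constructor <;> intro h <;> linarith
  rw [hfun]
  convert h using 1
  set W : ℝ → ℝ := fun x =>
    omg f (rmd al zf t + x * rdf al zf t, rmd al xf t + x * rdf al xf t) with hW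
  have hWc : Continuous W := hom.comp (by fun_prop)
  have hraj : ∀ j : ℕ, raj al j zf xf f t = ∫ x in (-1 : ℝ)..1, x ^ j * (W x / 2) := by
    intro j
    unfold raj
    refine intervalIntegral.integral_congr fun x hx => ?_
    rw [uIcc_of_le (by norm_num : (-1 : ℝ) ≤ 1)] at hx
    simp only [hW]
    rw [hc1 t x (abs_le.2 hx)]
    ring
  rw [hraj 0, hraj 1, hraj 2,
    ← line_int W hWc (fun x hx => hc2 t x hx) u v (rnp al zf xf t) (rnm al zf xf t)]
  refine integral_congr_ae (Filter.Eventually.of_forall fun x => ?_)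
  simp only
  rw [hline x]
  have hd : deriv (fun s => rdf al xf s * rmd al zf s - rdf al zf s * rmd al xf s) t =
      ((deriv xf (t + al) - deriv xf (t - al)) / 2 * rmd al zf t +
        rdf al xf t * ((deriv zf (t + al) + deriv zf (t - al)) / 2)) -
      ((deriv zf (t + al) - deriv zf (t - al)) / 2 * rmd al xf t +
        rdf al zf t * ((deriv xf (t + al) + deriv xf (t - al)) / 2)) :=
    (((rdf_hasDeriv hx t).mul (rmd_hasDeriv hz t)).sub
      ((rdf_hasDeriv hz t).mul (rmd_hasDeriv hx t))).deriv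
  rw [hd, (rdf_hasDeriv hx t).deriv, (rdf_hasDeriv hz t).deriv]
  simp only [hW, rnp, rnm, rnz, rnx]
  ring

theorem HI_neg {f : ℝ → ℝ} (hfe : ∀ z ∈ Icc (-3 : ℝ) 3, f (-z) = f z) (ph : ℝ × ℝ → ℝ)
    (a b h : ℝ) (hph : ∀ p, ph (-p) = -ph p) : HI f ph (-a) (-b) h = -HI f ph a b h := by
  have homg : ∀ p, omg f (-p) = omg f p := by
    intro p
    unfold omg
    simp only [Prod.fst_neg, Prod.snd_neg, abs_neg, neg_sq]
    split_ifs with h1
    · rw [hfe _ (abs_le.1 h1)]
    · rfl
  unfold HI
  have h1 := (Measure.measurePreserving_neg (volume : Measure (ℝ × ℝ))).setIntegral_preimage_emb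
    (MeasurableEquiv.neg (ℝ × ℝ)).measurableEmbedding (fun p => omg f p * ph p)
    {p : ℝ × ℝ | h ≤ a * p.1 + b * p.2}
  rw [← h1, ← integral_neg]
  have hset : (Neg.neg ⁻¹' {p : ℝ × ℝ | h ≤ a * p.1 + b * p.2}) =
      {p : ℝ × ℝ | h ≤ -a * p.1 + -b * p.2} := by
    ext p
    simp only [mem_preimage, mem_ofPred_eq, Prod.fst_neg, Prod.snd_neg]
    constructor <;> intro h <;> linarith
  rw [hset]
  refine integral_congr_ae (Filter.Eventually.of_forall fun p => ?_)
  simp only
  rw [homg, hph]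
  ring

/-- Apply `transport` (Q03) with `w = omg f`, `omg f * z`, `omg f * x` and `zm = rmd al zf` etc.; by Q04 the line integral is
`∫_{-1}^1 2 sqrt G * (1, z, x) * (n' . p - h') dx`, and `n'.p - h' = - (n . Gamma_m' + x n . Gamma_d') = -(1/2) ((1+x) rnp + (1-x) rnm)`
(use `n . Gamma_d = 0`, `h = n . Gamma_m`). So the derivative of the volume is minus the left side of `idV`, i.e. `0`, and the derivatives of the
moments are `M0 (n/ell)'` by `idZ`, `idX`. The volume is therefore constant; the moments differ from `M0 n/ell` by constants, which vanish because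
both sides change sign under `t → t + pi` (`omg f (-p) = omg f p`, `n(t+pi) = -n(t)`, `h(t+pi) = h(t)`). -/
theorem caps : ∃ c0 : ℝ, 0 < c0 ∧ c0 ≤ 1/100 ∧ ∀ (al : ℝ), al ∈ JJ → ∀ zf xf f : ℝ → ℝ, RG al c0 zf xf f →
    ∃ Vc : ℝ, ∀ t : ℝ, HI f (fun _ => 1) (rnz al xf t) (rnx al zf t) (ret al zf xf t) = Vc ∧
      HI f (fun p => p.1) (rnz al xf t) (rnx al zf t) (ret al zf xf t) = M0 al * (rnz al xf t / rell al zf xf t) ∧
      HI f (fun p => p.2) (rnz al xf t) (rnx al zf t) (ret al zf xf t) = M0 al * (rnx al zf t / rell al zf xf t) := by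
  obtain ⟨c1, hc1, hc1', H1⟩ := omg_cont
  obtain ⟨c2, hc2, hc2', H2⟩ := omg_chord
  refine ⟨min c1 c2, lt_min hc1 hc2, (min_le_left _ _).trans hc1', ?_⟩
  intro al hal zf xf f hR
  obtain ⟨hom, hom0⟩ := H1 al hal zf xf f (hR.mono (min_le_left _ _))
  obtain ⟨hch1, hch2, hpos, -⟩ := H2 al hal zf xf f (hR.mono (min_le_right _ _))
  have hz : Differentiable ℝ zf := hR.cz.differentiable (by norm_num)
  have hx : Differentiable ℝ xf := hR.cx.differentiable (by norm_num)
  have hnzd : Differentiable ℝ (rnz al xf) := fun t => (rdf_hasDeriv hx t).differentiableAt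
  have hnxd : Differentiable ℝ (rnx al zf) := fun t => (rdf_hasDeriv hz t).neg.differentiableAt
  have hell_pos : ∀ t, 0 < rnz al xf t ^ 2 + rnx al zf t ^ 2 := fun t => by
    have := hpos t
    simp only [rnz, rnx, neg_sq]
    linarith
  have hell : ∀ t, 0 < rell al zf xf t := fun t => Real.sqrt_pos.2 (hell_pos t)
  have helld : Differentiable ℝ (rell al zf xf) := fun t =>
    DifferentiableAt.sqrt (((hnzd t).pow 2).add ((hnxd t).pow 2)) (hell_pos t).ne'
  -- volume
  have hV : ∀ t, HasDerivAt (fun s => HI f (fun _ => 1) (rnz al xf s) (rnx al zf s)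
      (ret al zf xf s)) 0 t := by
    intro t
    have h := HI_hasDeriv hR hom hom0 hch1 hch2 hpos (ph := fun _ => 1) continuous_const t 1 0
      (fun x => by ring)
    convert h using 1
    have := hR.idV t
    linarith
  have hZ : ∀ t, HasDerivAt (fun s => HI f (fun p => p.1) (rnz al xf s) (rnx al zf s)
      (ret al zf xf s) - M0 al * (rnz al xf s / rell al zf xf s)) 0 t := by
    intro t
    have h := HI_hasDeriv hR hom hom0 hch1 hch2 hpos (ph := fun p => p.1) continuous_fst t
      (rmd al zf t) (rdf al zf t) (fun x => rfl)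
    rw [hR.idZ t] at h
    have h2 : HasDerivAt (fun s => rnz al xf s / rell al zf xf s)
        (deriv (fun s => rnz al xf s / rell al zf xf s) t) t :=
      ((hnzd t).div (helld t) (hell t).ne').hasDerivAt
    have h3 := h.sub (h2.const_mul (M0 al))
    rw [sub_self] at h3
    exact h3
  have hX : ∀ t, HasDerivAt (fun s => HI f (fun p => p.2) (rnz al xf s) (rnx al zf s)
      (ret al zf xf s) - M0 al * (rnx al zf s / rell al zf xf s)) 0 t := by
    intro t
    have h := HI_hasDeriv hR hom hom0 hch1 hch2 hpos (ph := fun p => p.2) continuous_snd t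
      (rmd al xf t) (rdf al xf t) (fun x => rfl)
    rw [hR.idX t] at h
    have h2 : HasDerivAt (fun s => rnx al zf s / rell al zf xf s)
        (deriv (fun s => rnx al zf s / rell al zf xf s) t) t :=
      ((hnxd t).div (helld t) (hell t).ne').hasDerivAt
    have h3 := h.sub (h2.const_mul (M0 al))
    rw [sub_self] at h3
    exact h3
  have hconst : ∀ F : ℝ → ℝ, (∀ t, HasDerivAt F 0 t) → ∀ s t, F s = F t := fun F hF s t =>
    is_const_of_deriv_eq_zero (fun t => (hF t).differentiableAt) (fun t => (hF t).deriv) s t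
  -- symmetry
  have hnzpi : ∀ t, rnz al xf (t + Real.pi) = -rnz al xf t := by
    intro t
    simp only [rnz, rdf]
    rw [show t + Real.pi + al = (t + al) + Real.pi by ring,
      show t + Real.pi - al = (t - al) + Real.pi by ring, hR.ax, hR.ax]
    ring
  have hnxpi : ∀ t, rnx al zf (t + Real.pi) = -rnx al zf t := by
    intro t
    simp only [rnx, rdf]
    rw [show t + Real.pi + al = (t + al) + Real.pi by ring,
      show t + Real.pi - al = (t - al) + Real.pi by ring, hR.az, hR.az]
    ring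
  have hetpi : ∀ t, ret al zf xf (t + Real.pi) = ret al zf xf t := by
    intro t
    simp only [ret, hnzpi, hnxpi, rmd]
    rw [show t + Real.pi + al = (t + al) + Real.pi by ring,
      show t + Real.pi - al = (t - al) + Real.pi by ring, hR.az, hR.az, hR.ax, hR.ax]
    ring
  have hellpi : ∀ t, rell al zf xf (t + Real.pi) = rell al zf xf t := by
    intro t
    simp only [rell, hnzpi, hnxpi, neg_sq]
  refine ⟨HI f (fun _ => 1) (rnz al xf 0) (rnx al zf 0) (ret al zf xf 0), fun t => ⟨?_, ?_, ?_⟩⟩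
  · exact hconst _ hV t 0
  · have h := hconst _ hZ (t + Real.pi) t
    rw [hnzpi, hnxpi, hetpi, hellpi, HI_neg hR.fe (fun p => p.1) _ _ _ (fun p => rfl),
      neg_div] at h
    linarith
  · have h := hconst _ hX (t + Real.pi) t
    rw [hnzpi, hnxpi, hetpi, hellpi, HI_neg hR.fe (fun p => p.2) _ _ _ (fun p => rfl),
      neg_div] at h
    linarith

end FB
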