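import Pool.Agent.H48.FB.QDefs
import Pool.Agent.H48.FB.H00

/-! Q06: the normals of the water lines cover all directions. -/

open Set MeasureTheory

namespace FB

private lemma q06_angle {a b : ℝ} (h : a ^ 2 + b ^ 2 = 1) : ∃ v : ℝ, Real.cos v = a ∧ Real.sin v = b := by
  have hn : ‖(⟨a, b⟩ : ℂ)‖ = 1 := by
    rw [Complex.norm_def, Complex.normSq_mk, show a * a + b * b = 1 by rw [← h]; ring, Real.sqrt_one]
  refine ⟨Complex.arg ⟨a, b⟩, ?_, ?_⟩
  · have := Complex.norm_mul_cos_arg (⟨a, b⟩ : ℂ)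
    rwa [hn, one_mul] at this
  · have := Complex.norm_mul_sin_arg (⟨a, b⟩ : ℂ)
    rwa [hn, one_mul] at this

private lemma q06_nz {al c : ℝ} {zf xf f : ℝ → ℝ} (h : RG al c zf xf f) (t : ℝ) :
    |rnz al xf t - Real.sin al * Real.cos t| ≤ c := by
  have h1 := abs_le.1 (h.x0 (t + al))
  have h2 := abs_le.1 (h.x0 (t - al))
  rw [Real.sin_add] at h1
  rw [Real.sin_sub] at h2
  unfold rnz rdf
  rw [abs_le]
  constructor <;> nlinarith [h1.1, h1.2, h2.1, h2.2]

private lemma q06_nx {al c : ℝ} {zf xf f : ℝ → ℝ} (h : RG al c zf xf f) (t : ℝ) :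
    |rnx al zf t - Real.sin al * Real.sin t| ≤ c := by
  have h1 := abs_le.1 (h.z0 (t + al))
  have h2 := abs_le.1 (h.z0 (t - al))
  rw [Real.cos_add] at h1
  rw [Real.cos_sub] at h2
  unfold rnx rdf
  rw [abs_le]
  constructor <;> nlinarith [h1.1, h1.2, h2.1, h2.2]

/-- `n(t)` is within `2c + ..` of `sin al (cos t, sin t)`. For a given angle `v`, the function
`g(t) = n_z(t) sin v - n_x(t) cos v` (`≈ sin al sin (v - t)`) changes sign on `[v - 1, v + 1]`, so has a zero `t0` there, where `n(t0)` is parallel to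
`(cos v, sin v)` with a positive factor since `n_z cos v + n_x sin v ≈ sin al cos (v - t0) > 0`. -/
theorem directions : ∃ c0 : ℝ, 0 < c0 ∧ c0 ≤ 1/100 ∧ ∀ (al : ℝ), al ∈ JJ → ∀ zf xf f : ℝ → ℝ, RG al c0 zf xf f →
    ∀ a b : ℝ, a ^ 2 + b ^ 2 = 1 → ∃ t : ℝ, rnz al xf t = rell al zf xf t * a ∧ rnx al zf t = rell al zf xf t * b ∧
      0 < rell al zf xf t := by
  refine ⟨1 / 100, by norm_num, le_rfl, ?_⟩
  intro al hal zf xf f h a b hab
  obtain ⟨v, hva, hvb⟩ := q06_angle hab
  have hs : 0.92 < Real.sin al := (JJ_bounds hal).2.2.2.2.2.1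
  have hs1 : Real.sin al ≤ 1 := Real.sin_le_one al
  have ha1 : |a| ≤ 1 := by rw [← hva]; exact Real.abs_cos_le_one v
  have hb1 : |b| ≤ 1 := by rw [← hvb]; exact Real.abs_sin_le_one v
  have hpi := Real.pi_pos
  -- approximation of the two combinations
  have hg : ∀ t, |(rnz al xf t * b - rnx al zf t * a) - Real.sin al * Real.sin (v - t)| ≤ 1 / 50 := by
    intro t
    have e : (rnz al xf t * b - rnx al zf t * a) - Real.sin al * Real.sin (v - t) =
        (rnz al xf t - Real.sin al * Real.cos t) * b - (rnx al zf t - Real.sin al * Real.sin t) * a := by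
      rw [Real.sin_sub, hva, hvb]; ring
    rw [e]
    refine (abs_sub _ _).trans ?_
    rw [abs_mul, abs_mul]
    have e1 := mul_le_mul (q06_nz h t) hb1 (abs_nonneg _) (by norm_num)
    have e2 := mul_le_mul (q06_nx h t) ha1 (abs_nonneg _) (by norm_num)
    linarith
  have hp : ∀ t, |(rnz al xf t * a + rnx al zf t * b) - Real.sin al * Real.cos (v - t)| ≤ 1 / 50 := by
    intro t
    have e : (rnz al xf t * a + rnx al zf t * b) - Real.sin al * Real.cos (v - t) =
        (rnz al xf t - Real.sin al * Real.cos t) * a + (rnx al zf t - Real.sin al * Real.sin t) * b := by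
      rw [Real.cos_sub, hva, hvb]; ring
    rw [e]
    refine (abs_add_le _ _).trans ?_
    rw [abs_mul, abs_mul]
    have e1 := mul_le_mul (q06_nz h t) ha1 (abs_nonneg _) (by norm_num)
    have e2 := mul_le_mul (q06_nx h t) hb1 (abs_nonneg _) (by norm_num)
    linarith
  have hcx := h.cx.continuous
  have hcz := h.cz.continuous
  have hcont : Continuous (fun t => rnz al xf t * b - rnx al zf t * a) := by
    unfold rnz rnx rdf
    fun_prop
  have hm : (0:ℝ) ∈ Icc ((fun t => rnz al xf t * b - rnx al zf t * a) (v + Real.pi / 6))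
      ((fun t => rnz al xf t * b - rnx al zf t * a) (v - Real.pi / 6)) := by
    have e1 := abs_le.1 (hg (v + Real.pi / 6))
    have e2 := abs_le.1 (hg (v - Real.pi / 6))
    rw [show v - (v + Real.pi / 6) = -(Real.pi / 6) by ring, Real.sin_neg, Real.sin_pi_div_six] at e1
    rw [show v - (v - Real.pi / 6) = Real.pi / 6 by ring, Real.sin_pi_div_six] at e2
    constructor
    · simp only
      linarith [e1.2]
    · simp only
      linarith [e2.1]
  obtain ⟨t, ht, ht0⟩ := intermediate_value_Icc' (by linarith) hcont.continuousOn hm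
  simp only at ht0
  have hcos : 1 / 2 ≤ Real.cos (v - t) := by
    rw [← Real.cos_pi_div_three, ← Real.cos_abs (v - t)]
    refine Real.cos_le_cos_of_nonneg_of_le_pi (abs_nonneg _) (by linarith) ?_
    rw [abs_le]
    constructor <;> linarith [ht.1, ht.2]
  set p := rnz al xf t * a + rnx al zf t * b with hpdef
  have hp0 : 0 < p := by
    have e1 := abs_le.1 (hp t)
    have e2 : (0.46:ℝ) ≤ Real.sin al * Real.cos (v - t) := by nlinarith
    linarith [e1.1]
  have e1 : rnz al xf t = p * a := by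
    have e3 : p * a + (rnz al xf t * b - rnx al zf t * a) * b = rnz al xf t * (a ^ 2 + b ^ 2) := by
      rw [hpdef]; ring
    rw [ht0, zero_mul, add_zero, hab, mul_one] at e3
    exact e3.symm
  have e2 : rnx al zf t = p * b := by
    have e3 : p * b - (rnz al xf t * b - rnx al zf t * a) * a = rnx al zf t * (a ^ 2 + b ^ 2) := by
      rw [hpdef]; ring
    rw [ht0, zero_mul, sub_zero, hab, mul_one] at e3
    exact e3.symm
  have e3 : rell al zf xf t = p := by
    unfold rell
    rw [e1, e2, show (p * a) ^ 2 + (p * b) ^ 2 = p ^ 2 * (a ^ 2 + b ^ 2) by ring, hab, mul_one]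
    exact Real.sqrt_sq hp0.le
  refine ⟨t, ?_, ?_, ?_⟩
  · rw [e3]; exact e1
  · rw [e3]; exact e2
  · rw [e3]; exact hp0

end FB
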