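import Pool.Agent.H48.FB.QDefs

/-! Q07: general facts on floating of centrally symmetric convex bodies. -/

open Set MeasureTheory

namespace FB

theorem hyperplane_null {u : E3} (hu : ‖u‖ = 1) (h : ℝ) :
    volume {x : E3 | inner ℝ x u = h} = 0 := by
  have hs : ((AffineSubspace.mk' (h • u) (LinearMap.ker (innerₛₗ ℝ u)) :
      AffineSubspace ℝ E3) : Set E3) = {x : E3 | inner ℝ x u = h} := by
    ext x
    rw [SetLike.mem_coe, AffineSubspace.mem_mk', LinearMap.mem_ker]
    simp only [innerₛₗ_apply_apply, vsub_eq_sub, inner_sub_right, inner_smul_right,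
      real_inner_self_eq_norm_sq, hu, Set.mem_ofPred_eq]
    rw [real_inner_comm]
    constructor <;> intro h1 <;> linarith
  rw [← hs]
  refine Measure.addHaar_affineSubspace volume _ fun htop => ?_
  have h1 : ((h + 1) • u) ∈ (AffineSubspace.mk' (h • u) (LinearMap.ker (innerₛₗ ℝ u)) :
      AffineSubspace ℝ E3) := by
    rw [htop]; exact AffineSubspace.mem_top _ _ _
  rw [← SetLike.mem_coe, hs] at h1
  simp only [Set.mem_ofPred_eq, inner_smul_left, real_inner_self_eq_norm_sq, hu] at h1
  norm_num at h1

theorem vol_neg {S T : Set E3} (h : ∀ x, x ∈ S ↔ -x ∈ T) :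
    volume S = volume T ∧ ∫ x in S, x = -∫ x in T, x := by
  have hST : S = Neg.neg ⁻¹' T := by
    ext x; exact h x
  refine ⟨?_, ?_⟩
  · rw [hST]
    exact (Measure.measurePreserving_neg (volume : Measure E3)).measure_preimage_emb
      (MeasurableEquiv.neg E3).measurableEmbedding T
  have h1 := (Measure.measurePreserving_neg (volume : Measure E3)).setIntegral_preimage_emb
    (MeasurableEquiv.neg E3).measurableEmbedding (fun y : E3 => -y) T
  rw [← hST] at h1
  simp only [neg_neg] at h1
  rw [h1, integral_neg]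

theorem lo_unique {K : Set E3} (hc : IsCompact K) (hconv : Convex ℝ K)
    (hint : (interior K).Nonempty) (u : E3) {w : ℝ} (hw : 0 < w)
    (hw2 : w < (volume K).toReal) {t t' : ℝ}
    (ht : (volume (K ∩ {x | inner ℝ x u ≤ t})).toReal = w)
    (ht' : (volume (K ∩ {x | inner ℝ x u ≤ t'})).toReal = w) : ¬ t < t' := by
  intro htt
  have hKfin : volume K ≠ ⊤ := hc.measure_lt_top.ne
  have hcont : Continuous fun x : E3 => inner ℝ x u := by fun_prop
  -- a point low
  have hp : ∃ p ∈ K, inner ℝ p u ≤ t := by
    by_contra hne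
    push Not at hne
    have : K ∩ {x | inner ℝ x u ≤ t} = ∅ := by
      ext x
      simp only [mem_inter_iff, mem_ofPred_eq, mem_empty_iff_false, iff_false, not_and, not_le]
      exact fun hx => hne x hx
    rw [this, measure_empty] at ht
    simp at ht
    linarith
  have hq : ∃ q ∈ K, t' < inner ℝ q u := by
    by_contra hne
    push Not at hne
    have : K ∩ {x | inner ℝ x u ≤ t'} = K := by
      ext x
      simp only [mem_inter_iff, mem_ofPred_eq, and_iff_left_iff_imp]
      exact fun hx => hne x hx
    rw [this] at ht'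
    linarith
  have hcl : K ⊆ closure (interior K) := by
    rw [hconv.closure_interior_eq_closure_of_nonempty_interior hint]
    exact subset_closure
  obtain ⟨p, hpK, hp⟩ := hp
  obtain ⟨q, hqK, hq⟩ := hq
  obtain ⟨p', hp'1, hp'2⟩ : ∃ p' ∈ interior K, inner ℝ p' u < t' := by
    have hop : IsOpen {x : E3 | inner ℝ x u < t'} := isOpen_lt hcont continuous_const
    obtain ⟨x, hx1, hx2⟩ := mem_closure_iff.1 (hcl hpK) _ hop (lt_of_le_of_lt hp htt)
    exact ⟨x, hx2, hx1⟩
  obtain ⟨q', hq'1, hq'2⟩ : ∃ q' ∈ interior K, t' < inner ℝ q' u := by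
    have hop : IsOpen {x : E3 | t' < inner ℝ x u} := isOpen_lt continuous_const hcont
    obtain ⟨x, hx1, hx2⟩ := mem_closure_iff.1 (hcl hqK) _ hop hq
    exact ⟨x, hx2, hx1⟩
  -- a point of the interior in the slab
  have hslab : ∃ x ∈ interior K, t < inner ℝ x u ∧ inner ℝ x u < t' := by
    by_cases h1 : t < inner ℝ p' u
    · exact ⟨p', hp'1, h1, hp'2⟩
    · push Not at h1
      have hcs : ContinuousOn (fun x : E3 => inner ℝ x u) (interior K) := hcont.continuousOn
      have hpc : IsPreconnected (interior K) := hconv.interior.isPreconnected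
      have hiv := hpc.intermediate_value hp'1 hq'1 hcs
      have hmem : (t + t') / 2 ∈ Icc (inner ℝ p' u) (inner ℝ q' u) := by
        constructor <;> linarith
      obtain ⟨x, hx, hxe⟩ := hiv hmem
      simp only at hxe
      exact ⟨x, hx, by rw [hxe]; linarith, by rw [hxe]; linarith⟩
  obtain ⟨x, hx, hx1, hx2⟩ := hslab
  set O : Set E3 := interior K ∩ {y | t < inner ℝ y u ∧ inner ℝ y u < t'} with hO
  have hOopen : IsOpen O := by
    refine isOpen_interior.inter ?_
    exact (isOpen_lt continuous_const hcont).inter (isOpen_lt hcont continuous_const)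
  have hOpos : 0 < volume O := hOopen.measure_pos volume ⟨x, hx, hx1, hx2⟩
  have hdisj : Disjoint (K ∩ {x | inner ℝ x u ≤ t}) O := by
    rw [Set.disjoint_left]
    rintro y ⟨-, hy⟩ ⟨-, hy2, -⟩
    simp only [mem_ofPred_eq] at hy
    linarith
  have hsub : (K ∩ {x | inner ℝ x u ≤ t}) ∪ O ⊆ K ∩ {x | inner ℝ x u ≤ t'} := by
    rintro y (⟨hy1, hy2⟩ | ⟨hy1, hy2, hy3⟩)
    · exact ⟨hy1, by simp only [mem_ofPred_eq] at hy2 ⊢; linarith⟩
    · exact ⟨interior_subset hy1, hy3.le⟩
  have hle : volume (K ∩ {x | inner ℝ x u ≤ t}) + volume O ≤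
      volume (K ∩ {x | inner ℝ x u ≤ t'}) := by
    rw [← measure_union hdisj hOopen.measurableSet]
    exact measure_mono hsub
  have hf1 : volume (K ∩ {x | inner ℝ x u ≤ t}) ≠ ⊤ :=
    ((measure_mono inter_subset_left).trans_lt hc.measure_lt_top).ne
  have hf2 : volume (K ∩ {x | inner ℝ x u ≤ t'}) ≠ ⊤ :=
    ((measure_mono inter_subset_left).trans_lt hc.measure_lt_top).ne
  have hf3 : volume O ≠ ⊤ :=
    ((measure_mono (inter_subset_left.trans interior_subset)).trans_lt hc.measure_lt_top).ne
  have h2 := ENNReal.toReal_mono hf2 hle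
  rw [ENNReal.toReal_add hf1 hf3, ht, ht'] at h2
  have h3 : 0 < (volume O).toReal := ENNReal.toReal_pos hOpos.ne' hf3
  linarith

/-- Let `K` be compact, convex, symmetric, with nonempty interior, `0 < v < vol K / 2`, and suppose that for every unit vector `u` there are
`h > 0`, `m` with `vol (K ∩ {h ≤ x.u}) = v` and `∫_{K ∩ {h ≤ x.u}} x = m u`. Then `K` floats in every orientation at the densities
`v / vol K` and `1 - v / vol K`. -/
theorem floats_of_caps {K : Set E3} (hc : IsCompact K) (hconv : Convex ℝ K) (hint : (interior K).Nonempty)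
    (hsym : ∀ p ∈ K, -p ∈ K) {v : ℝ} (hv : 0 < v) (hv2 : v < (volume K).toReal / 2)
    (hcap : ∀ u : E3, ‖u‖ = 1 → ∃ h m : ℝ, 0 < h ∧ (volume (K ∩ {x | h ≤ inner ℝ x u})).toReal = v ∧
      ∫ x in K ∩ {x | h ≤ inner ℝ x u}, x = m • u) :
    FloatsEvery K (v / (volume K).toReal) ∧ FloatsEvery K (1 - v / (volume K).toReal) := by
  have hV : 0 < (volume K).toReal := by linarith
  have hKfin : volume K ≠ ⊤ := hc.measure_lt_top.ne
  have hsym' : ∀ x, x ∈ K ↔ -x ∈ K := fun x => ⟨hsym x, fun h => by simpa using hsym _ h⟩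
  have hK0 : ∫ x in K, x = 0 := by
    have h := (vol_neg hsym').2
    have h2 : (2 : ℝ) • ∫ x in K, x = 0 := by
      rw [two_smul]
      nth_rewrite 2 [h]
      exact add_neg_cancel _
    exact (smul_eq_zero.1 h2).resolve_left (by norm_num)
  have hcK : centroid3 K = 0 := by rw [centroid3, hK0, smul_zero]
  have hidK : IntegrableOn (fun x : E3 => x) K := continuous_id.continuousOn.integrableOn_compact hc
  have hlo : ∀ u : E3, ‖u‖ = 1 → ∃ h m : ℝ,
      (volume (K ∩ {x | inner ℝ x u ≤ -h})).toReal = v ∧
      ∫ x in K ∩ {x | inner ℝ x u ≤ -h}, x = -(m • u) ∧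
      (volume (K ∩ {x | inner ℝ x u ≤ h})).toReal = (volume K).toReal - v ∧
      ∫ x in K ∩ {x | inner ℝ x u ≤ h}, x = -(m • u) := by
    intro u hu
    obtain ⟨h, m, -, hvol, hmom⟩ := hcap u hu
    have h1 := vol_neg (S := K ∩ {x | inner ℝ x u ≤ -h}) (T := K ∩ {x | h ≤ inner ℝ x u}) (by
      intro x
      simp only [mem_inter_iff, mem_ofPred_eq, inner_neg_left, ← hsym' x]
      constructor <;> rintro ⟨h1, h2⟩ <;> exact ⟨h1, by linarith⟩)
    refine ⟨h, m, by rw [h1.1, hvol], by rw [h1.2, hmom], ?_, ?_⟩
    · -- volume of the lower part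
      have hmeas : MeasurableSet (K ∩ {x : E3 | h ≤ inner ℝ x u}) :=
        hc.measurableSet.inter (measurableSet_le measurable_const (by fun_prop))
      have hae : (K ∩ {x : E3 | inner ℝ x u ≤ h} : Set E3) =ᵐ[volume]
          (K \ (K ∩ {x : E3 | h ≤ inner ℝ x u}) : Set E3) := by
        rw [ae_eq_set]
        constructor
        · refine measure_mono_null ?_ (hyperplane_null hu h)
          rintro x ⟨⟨hx1, hx2⟩, hx3⟩
          simp only [mem_sdiff, mem_inter_iff, mem_ofPred_eq, not_and, not_le] at hx2 hx3 ⊢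
          push Not at hx3
          have := (hx3 hx1).2
          linarith
        · refine measure_mono_null ?_ (measure_empty (μ := volume))
          rintro x ⟨⟨hx1, hx2⟩, hx3⟩
          simp only [mem_inter_iff, mem_ofPred_eq, not_and, not_le] at hx2 hx3
          have h2 := hx2 hx1
          have h3 := hx3 hx1
          linarith
      rw [measure_congr hae, measure_sdiff inter_subset_left hmeas.nullMeasurableSet
        ((measure_mono inter_subset_left).trans_lt hc.measure_lt_top).ne,
        ENNReal.toReal_sub_of_le (measure_mono inter_subset_left) hKfin, hvol]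
    · have hmeas : MeasurableSet (K ∩ {x : E3 | h ≤ inner ℝ x u}) :=
        hc.measurableSet.inter (measurableSet_le measurable_const (by fun_prop))
      have hae : (K ∩ {x : E3 | inner ℝ x u ≤ h} : Set E3) =ᵐ[volume]
          (K \ (K ∩ {x : E3 | h ≤ inner ℝ x u}) : Set E3) := by
        rw [ae_eq_set]
        constructor
        · refine measure_mono_null ?_ (hyperplane_null hu h)
          rintro x ⟨⟨hx1, hx2⟩, hx3⟩
          simp only [mem_sdiff, mem_inter_iff, mem_ofPred_eq, not_and, not_le] at hx2 hx3 ⊢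
          push Not at hx3
          have := (hx3 hx1).2
          linarith
        · refine measure_mono_null ?_ (measure_empty (μ := volume))
          rintro x ⟨⟨hx1, hx2⟩, hx3⟩
          simp only [mem_inter_iff, mem_ofPred_eq, not_and, not_le] at hx2 hx3
          have h2 := hx2 hx1
          have h3 := hx3 hx1
          linarith
      rw [setIntegral_congr_set hae, setIntegral_sdiff hmeas hidK inter_subset_left, hK0, hmom,
        zero_sub]
  constructor
  · intro u hu
    obtain ⟨h, m, h1, h2, -, -⟩ := hlo u hu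
    have hd : v / (volume K).toReal * (volume K).toReal = v := by field_simp
    refine ⟨⟨-h, by rw [hd, h1]⟩, fun t ht => ?_⟩
    rw [hd] at ht
    have htt : t = -h := by
      rcases lt_trichotomy t (-h) with hlt | heq | hgt
      · exact absurd hlt (lo_unique hc hconv hint u hv (by linarith) ht h1)
      · exact heq
      · exact absurd hgt (lo_unique hc hconv hint u hv (by linarith) h1 ht)
    subst htt
    refine ⟨v⁻¹ * m, ?_⟩
    rw [hcK, centroid3, h1, h2, zero_sub, smul_neg, neg_neg, smul_smul]
  · intro u hu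
    obtain ⟨h, m, -, -, h1, h2⟩ := hlo u hu
    have hd : (1 - v / (volume K).toReal) * (volume K).toReal = (volume K).toReal - v := by
      field_simp
    refine ⟨⟨h, by rw [hd, h1]⟩, fun t ht => ?_⟩
    rw [hd] at ht
    have htt : t = h := by
      rcases lt_trichotomy t h with hlt | heq | hgt
      · exact absurd hlt (lo_unique hc hconv hint u (w := (volume K).toReal - v) (by linarith)
          (by linarith) ht h1)
      · exact heq
      · exact absurd hgt (lo_unique hc hconv hint u (w := (volume K).toReal - v) (by linarith)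
          (by linarith) h1 ht)
    subst htt
    refine ⟨((volume K).toReal - v)⁻¹ * m, ?_⟩
    rw [hcK, centroid3, h1, h2, zero_sub, smul_neg, neg_neg, smul_smul]

end FB
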