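import Pool.Agent.H48.FB.QDefs
import Pool.Agent.H48.FB.Q01
import Pool.Agent.H48.FB.Q02
import Pool.Agent.H48.FB.Q04
import Pool.Agent.H48.FB.Q05
import Pool.Agent.H48.FB.Q06
import Pool.Agent.H48.FB.Q07

/-! Q08: the body of revolution floats; final theorem of the geometric part. -/

open Set MeasureTheory

namespace FB

namespace Q08

/-- the matrix of the rotation about the third axis -/
noncomputable def rotM (C S : ℝ) : Matrix (Fin 3) (Fin 3) ℝ := !![C, -S, 0; S, C, 0; 0, 0, 1]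

/-- the rotation as a linear map -/
noncomputable def rotL (C S : ℝ) : E3 →ₗ[ℝ] E3 := Matrix.toEuclideanLin (rotM C S)

theorem rotL_0 (C S : ℝ) (p : E3) : rotL C S p 0 = C * p 0 - S * p 1 := by
  simp [rotL, rotM, Matrix.toEuclideanLin, dotProduct, Fin.sum_univ_three,
    Matrix.toLpLin_apply]
  ring

theorem rotL_1 (C S : ℝ) (p : E3) : rotL C S p 1 = S * p 0 + C * p 1 := by
  simp [rotL, rotM, Matrix.toEuclideanLin, dotProduct, Fin.sum_univ_three,
    Matrix.toLpLin_apply]

theorem rotL_2 (C S : ℝ) (p : E3) : rotL C S p 2 = p 2 := by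
  simp [rotL, rotM, Matrix.toEuclideanLin, dotProduct, Fin.sum_univ_three,
    Matrix.toLpLin_apply]

theorem norm_sq3 (p : E3) : ‖p‖ ^ 2 = (p 0) ^ 2 + (p 1) ^ 2 + (p 2) ^ 2 := by
  rw [EuclideanSpace.norm_sq_eq, Fin.sum_univ_three]
  simp

theorem inner3 (p q : E3) : inner ℝ p q = p 0 * q 0 + p 1 * q 1 + p 2 * q 2 := by
  simp [PiLp.inner_apply, Fin.sum_univ_three]
  ring

/-- the rotation as a linear isometry equivalence -/
noncomputable def rot (C S : ℝ) (h : C ^ 2 + S ^ 2 = 1) : E3 ≃ₗᵢ[ℝ] E3 :=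
  LinearIsometry.toLinearIsometryEquiv
    { rotL C S with
      norm_map' := by
        intro p
        have h1 : ‖rotL C S p‖ ^ 2 = ‖p‖ ^ 2 := by
          rw [norm_sq3, norm_sq3, rotL_0, rotL_1, rotL_2]
          have e : (C * p 0 - S * p 1) ^ 2 + (S * p 0 + C * p 1) ^ 2 + (p 2) ^ 2 =
            (C ^ 2 + S ^ 2) * (p 0) ^ 2 + (C ^ 2 + S ^ 2) * (p 1) ^ 2 + (p 2) ^ 2 := by ring
          rw [e, h]; ring
        have := (sq_eq_sq₀ (norm_nonneg _) (norm_nonneg _)).mp h1
        exact this } rfl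

theorem rot_apply (C S : ℝ) (h : C ^ 2 + S ^ 2 = 1) (p : E3) : rot C S h p = rotL C S p := rfl

end Q08

open Q08

/-- Caps of `KK f` in an arbitrary direction `u`: rotate about the third axis so that `u = (b, 0, a)` with `b ≥ 0` (or any sign); the rotation preserves
`KK f`, the volume, and commutes with the integral; then Q06 gives `t`, and Q02, Q05 give the volume `Vc` and the moment `M0 (b, 0, a)`. -/
theorem caps3 : ∃ c0 : ℝ, 0 < c0 ∧ c0 ≤ 1/100 ∧ ∀ (al : ℝ), al ∈ JJ → ∀ zf xf f : ℝ → ℝ, RG al c0 zf xf f →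
    ∃ Vc : ℝ, 0 < Vc ∧ Vc < (volume (KK f)).toReal / 2 ∧ ∀ u : E3, ‖u‖ = 1 → ∃ h : ℝ, 0 < h ∧
      (volume (KK f ∩ {x | h ≤ inner ℝ x u})).toReal = Vc ∧ ∫ x in KK f ∩ {x | h ≤ inner ℝ x u}, x = M0 al • u := by
  obtain ⟨c1, hc1, hc1', H1⟩ := profile
  obtain ⟨c2, hc2, hc2', H2⟩ := body
  obtain ⟨c3, hc3, hc3', H3⟩ := omg_chord
  obtain ⟨c4, hc4, hc4', H4⟩ := caps
  obtain ⟨c5, hc5, hc5', H5⟩ := directions
  refine ⟨min c1 (min c2 (min c3 (min c4 c5))), by positivity, (min_le_left _ _).trans hc1', ?_⟩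
  intro al hal zf xf f hR
  have hR1 := hR.mono (min_le_left c1 _)
  have hR2 := hR.mono ((min_le_right c1 _).trans (min_le_left c2 _))
  have hR3 := hR.mono ((min_le_right c1 _).trans ((min_le_right c2 _).trans (min_le_left c3 _)))
  have hR4 := hR.mono ((min_le_right c1 _).trans ((min_le_right c2 _).trans
    ((min_le_right c3 _).trans (min_le_left c4 _))))
  have hR5 := hR.mono ((min_le_right c1 _).trans ((min_le_right c2 _).trans
    ((min_le_right c3 _).trans (min_le_right c4 _))))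
  obtain ⟨-, -, -, -, -, hfc⟩ := H1 al hal zf xf f hR1
  obtain ⟨hKc, hKconv, hK0, hKsym, hKrot, hKn, hKball⟩ := H2 al hal zf xf f hR2
  obtain ⟨-, -, -, hret⟩ := H3 al hal zf xf f hR3
  obtain ⟨Vc, hVc⟩ := H4 al hal zf xf f hR4
  have hdir := H5 al hal zf xf f hR5
  -- the basic statement
  have key : ∀ u : E3, ‖u‖ = 1 → ∃ h : ℝ, 0 < h ∧
      (volume (KK f ∩ {x | h ≤ inner ℝ x u})).toReal = Vc ∧
      ∫ x in KK f ∩ {x | h ≤ inner ℝ x u}, x = M0 al • u := by
    intro u hu
    have hu2 : (u 0) ^ 2 + (u 1) ^ 2 + (u 2) ^ 2 = 1 := by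
      rw [← norm_sq3, hu]; norm_num
    -- polar coordinates
    obtain ⟨b, C, S, hCS, hb0, hb1, hb2⟩ : ∃ b C S : ℝ, C ^ 2 + S ^ 2 = 1 ∧ u 0 = b * C ∧
        u 1 = b * S ∧ (u 2) ^ 2 + b ^ 2 = 1 := by
      set b := Real.sqrt ((u 0) ^ 2 + (u 1) ^ 2) with hb
      have hbsq : b ^ 2 = (u 0) ^ 2 + (u 1) ^ 2 := Real.sq_sqrt (by positivity)
      by_cases h0 : b = 0
      · refine ⟨0, 1, 0, by norm_num, ?_, ?_, ?_⟩
        · rw [h0] at hbsq
          nlinarith [sq_nonneg (u 0), sq_nonneg (u 1)]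
        · rw [h0] at hbsq
          nlinarith [sq_nonneg (u 0), sq_nonneg (u 1)]
        · rw [h0] at hbsq
          nlinarith
      · refine ⟨b, u 0 / b, u 1 / b, ?_, ?_, ?_, ?_⟩
        · field_simp
          linarith
        · field_simp
        · field_simp
        · linarith
    obtain ⟨t, ht1, ht2, ht3⟩ := hdir (u 2) b hb2
    have hrt := hret t
    set h : ℝ := ret al zf xf t / rell al zf xf t with hh
    have hhpos : 0 < h := div_pos hrt ht3
    have hHI : ∀ ph : ℝ × ℝ → ℝ, HI f ph (u 2) b h =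
        HI f ph (rnz al xf t) (rnx al zf t) (ret al zf xf t) := by
      intro ph
      have hset : {p : ℝ × ℝ | h ≤ u 2 * p.1 + b * p.2} =
          {p : ℝ × ℝ | ret al zf xf t ≤ rnz al xf t * p.1 + rnx al zf t * p.2} := by
        ext p
        simp only [Set.mem_ofPred_eq]
        rw [ht1, ht2, hh, div_le_iff₀ ht3]
        constructor <;> intro h' <;> nlinarith
      simp only [HI, hset]
    obtain ⟨hV1, hV2, hV3⟩ := hVc t
    have hq1 : rnz al xf t / rell al zf xf t = u 2 := by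
      rw [ht1]; field_simp
    have hq2 : rnx al zf t / rell al zf xf t = b := by
      rw [ht2]; field_simp
    rw [hq1] at hV2
    rw [hq2] at hV3
    -- the rotation
    set R := rot C S hCS with hRdef
    have hmp : MeasurePreserving R volume volume := R.measurePreserving
    have hpre : R ⁻¹' (KK f ∩ {x | h ≤ inner ℝ x u}) =
        KK f ∩ {p : E3 | h ≤ u 2 * p 2 + b * p 0} := by
      ext p
      simp only [Set.mem_preimage, Set.mem_inter_iff, Set.mem_ofPred_eq]
      have e1 : R p ∈ KK f ↔ p ∈ KK f := by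
        apply hKrot
        · rw [hRdef, rot_apply, rotL_2]
        · rw [hRdef, rot_apply, rotL_0, rotL_1]
          have e : (C * p 0 - S * p 1) ^ 2 + (S * p 0 + C * p 1) ^ 2 =
            (C ^ 2 + S ^ 2) * ((p 0) ^ 2 + (p 1) ^ 2) := by ring
          rw [e, hCS, one_mul]
      have e2 : inner ℝ (R p) u = u 2 * p 2 + b * p 0 := by
        rw [inner3, hRdef, rot_apply, rotL_0, rotL_1, rotL_2, hb0, hb1]
        have e : (C * p 0 - S * p 1) * (b * C) + (S * p 0 + C * p 1) * (b * S) + p 2 * u 2 =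
          (C ^ 2 + S ^ 2) * (b * p 0) + u 2 * p 2 := by ring
        rw [e, hCS]; ring
      rw [e1, e2]
    have hms : MeasurableSet (KK f ∩ {x : E3 | h ≤ inner ℝ x u}) := by
      apply hKc.isClosed.measurableSet.inter
      apply IsClosed.measurableSet
      exact isClosed_le continuous_const (by fun_prop)
    refine ⟨h, hhpos, ?_, ?_⟩
    · rw [← hmp.measure_preimage hms.nullMeasurableSet, hpre, cap_volume hfc hKc, hHI, hV1]
    · have hemb : MeasurableEmbedding R := R.toHomeomorph.measurableEmbedding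
      rw [← hmp.setIntegral_preimage_emb hemb, hpre]
      have h1 : ∫ p in KK f ∩ {p : E3 | h ≤ u 2 * p 2 + b * p 0}, R p =
          R (∫ p in KK f ∩ {p : E3 | h ≤ u 2 * p 2 + b * p 0}, p) :=
        (R.toContinuousLinearEquiv : E3 ≃L[ℝ] E3).integral_comp_comm (fun p => p)
      rw [h1, cap_moment hfc hKc, hHI, hHI, hV2, hV3]
      ext i
      rw [hRdef, rot_apply]
      fin_cases i
      · show rotL C S _ 0 = _
        rw [rotL_0]
        simp [hb0]
        ring
      · show rotL C S _ 1 = _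
        rw [rotL_1]
        simp [hb1]
        ring
      · show rotL C S _ 2 = _
        rw [rotL_2]
        simp
  refine ⟨Vc, ?_, ?_, key⟩
  · -- positivity
    have he : ‖(EuclideanSpace.single 2 1 : E3)‖ = 1 := by simp
    obtain ⟨h, hh, hv, hm⟩ := key _ he
    have hge : 0 ≤ Vc := by rw [← hv]; positivity
    rcases hge.lt_or_eq with h1 | h1
    · exact h1
    · exfalso
      rw [← h1] at hv
      have hfin : volume (KK f ∩ {x : E3 | h ≤ inner ℝ x (EuclideanSpace.single 2 1 : E3)}) ≠ ⊤ :=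
        ((measure_mono inter_subset_left).trans_lt hKc.measure_lt_top).ne
      have hz : volume (KK f ∩ {x : E3 | h ≤ inner ℝ x (EuclideanSpace.single 2 1 : E3)}) = 0 :=
        ((ENNReal.toReal_eq_zero_iff _).mp hv).resolve_right hfin
      rw [setIntegral_measure_zero _ hz] at hm
      have hM : 0 < M0 al := by
        have hs := (JJ_bounds hal).2.2.2.2.2.1
        have : 0 < Real.sin al := by linarith
        unfold M0
        positivity
      have := congrArg norm hm
      rw [norm_zero, norm_smul, he, mul_one, Real.norm_eq_abs, abs_of_pos hM] at this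
      linarith
  · have he : ‖(EuclideanSpace.single 2 1 : E3)‖ = 1 := by simp
    obtain ⟨h, hh, hv, -⟩ := key _ he
    set e : E3 := EuclideanSpace.single 2 1 with hedef
    set A : Set E3 := KK f ∩ {x : E3 | h ≤ inner ℝ x e} with hA
    have hcl : IsClosed {x : E3 | h ≤ inner ℝ x e} := isClosed_le continuous_const (by fun_prop)
    have hAm : MeasurableSet A := hKc.isClosed.measurableSet.inter hcl.measurableSet
    -- the opposite cap
    set A' : Set E3 := (LinearIsometryEquiv.neg ℝ (E := E3)) ⁻¹' A with hA'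
    have hmp : MeasurePreserving (LinearIsometryEquiv.neg ℝ (E := E3)) volume volume :=
      (LinearIsometryEquiv.neg ℝ (E := E3)).measurePreserving
    have hvA' : volume A' = volume A := hmp.measure_preimage hAm.nullMeasurableSet
    have hA'm : MeasurableSet A' := hAm.preimage hmp.measurable
    have hA'K : A' ⊆ KK f := by
      intro x hx
      have h1 : -x ∈ KK f := hx.1
      have := hKsym _ h1
      rwa [neg_neg] at this
    have hA'in : ∀ x ∈ A', inner ℝ x e ≤ -h := by
      intro x hx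
      have h1 : h ≤ inner ℝ (-x) e := hx.2
      rw [inner_neg_left] at h1
      linarith
    -- the middle part
    set ε : ℝ := min h (9 / 10) with hε
    have hεpos : 0 < ε := by positivity
    set Bm : Set E3 := Metric.ball 0 ε with hBm
    have hBpos : 0 < volume Bm := Metric.measure_ball_pos _ _ hεpos
    have hBK : Bm ⊆ KK f := by
      intro x hx
      rw [hBm, mem_ball_zero_iff] at hx
      exact hKball x (hx.le.trans (min_le_right _ _))
    have hBin : ∀ x ∈ Bm, |inner ℝ x e| < h := by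
      intro x hx
      rw [hBm, mem_ball_zero_iff] at hx
      have h1 := abs_real_inner_le_norm x e
      rw [he, mul_one] at h1
      exact (h1.trans_lt hx).trans_le (min_le_left _ _)
    have hd1 : Disjoint A A' := by
      rw [Set.disjoint_left]
      intro x hx hx'
      have h1 : h ≤ inner ℝ x e := hx.2
      have h2 := hA'in x hx'
      linarith
    have hd2 : Disjoint (A ∪ A') Bm := by
      rw [Set.disjoint_left]
      intro x hx hx'
      have h3 := abs_lt.mp (hBin x hx')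
      rcases hx with hx | hx
      · have h1 : h ≤ inner ℝ x e := hx.2
        linarith
      · have h2 := hA'in x hx
        linarith
    have hsum : volume A + volume A' + volume Bm ≤ volume (KK f) := by
      rw [← measure_union hd1 hA'm, ← measure_union hd2 measurableSet_ball]
      apply measure_mono
      exact union_subset (union_subset inter_subset_left hA'K) hBK
    have hfin : volume (KK f) ≠ ⊤ := hKc.measure_lt_top.ne
    have hfA : volume A ≠ ⊤ := ((measure_mono inter_subset_left).trans_lt hKc.measure_lt_top).ne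
    have hfB : volume Bm ≠ ⊤ := ((measure_mono hBK).trans_lt hKc.measure_lt_top).ne
    rw [hvA'] at hsum
    have h1 := ENNReal.toReal_mono hfin hsum
    rw [ENNReal.toReal_add (ENNReal.add_ne_top.mpr ⟨hfA, hfA⟩) hfB, ENNReal.toReal_add hfA hfA, hv]
      at h1
    have h2 : 0 < (volume Bm).toReal := ENNReal.toReal_pos hBpos.ne' hfB
    linarith

/-- `KK f` is not a ball: a ball symmetric about `0` is centred at `0`; then `f z = R^2 - z^2` on `[-R, R]`, so
`zf^2 + xf^2 = zf^2 + f (zf) = R^2` for all `b` (`|zf b| ≤ zf 0 = R` as `f (zf b) ≥ 0`), contradicting `nonsph`. -/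
theorem not_ball : ∃ c0 : ℝ, 0 < c0 ∧ c0 ≤ 1/100 ∧ ∀ (al : ℝ), al ∈ JJ → ∀ zf xf f : ℝ → ℝ, RG al c0 zf xf f →
    ¬ ∃ (p : E3) (r : ℝ), KK f = Metric.closedBall p r := by
  obtain ⟨c2, hc2, hc2', H2⟩ := body
  refine ⟨c2, hc2, hc2', ?_⟩
  intro al hal zf xf f hR
  obtain ⟨hKc, hKconv, hK0, hKsym, hKrot, hKn, hKball⟩ := H2 al hal zf xf f hR
  rintro ⟨p, r, hpr⟩
  have h0 : (0 : E3) ∈ KK f := hKball 0 (by rw [norm_zero]; norm_num)
  have hr : 0 ≤ r := by
    rw [hpr] at h0
    exact dist_nonneg.trans (Metric.mem_closedBall.mp h0)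
  have hp : p = 0 := by
    by_contra hne
    have hn : 0 < ‖p‖ := norm_pos_iff.mpr hne
    have h1 : p + (r / ‖p‖) • p ∈ KK f := by
      rw [hpr, mem_closedBall_iff_norm, add_sub_cancel_left, norm_smul, Real.norm_eq_abs,
        abs_of_nonneg (by positivity)]
      field_simp
      exact le_rfl
    have h2 := hKsym _ h1
    rw [hpr, mem_closedBall_iff_norm] at h2
    have h3 : -(p + (r / ‖p‖) • p) - p = -((2 + r / ‖p‖) • p) := by
      module
    rw [h3, norm_neg, norm_smul, Real.norm_eq_abs, abs_of_nonneg (by positivity)] at h2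
    have h4 : (2 + r / ‖p‖) * ‖p‖ = 2 * ‖p‖ + r := by field_simp
    rw [h4] at h2
    linarith
  subst hp
  apply hR.nonsph
  refine ⟨r ^ 2, fun b => ?_⟩
  have hfz := hR.fz b
  have hz3 : |zf b| ≤ 3 := by
    have h1 := abs_le.mp (hR.z0 b)
    have h2 := Real.cos_le_one b
    have h3 := Real.neg_one_le_cos b
    rw [abs_le]
    constructor <;> linarith [h1.1, h1.2]
  have hmem : ∀ x : ℝ, (WithLp.toLp 2 ![x, 0, zf b] : E3) ∈ KK f ↔ x ^ 2 ≤ (xf b) ^ 2 := by
    intro x
    show x ^ 2 + 0 ^ 2 ≤ f (zf b) ∧ |zf b| ≤ 3 ↔ _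
    rw [hfz]
    constructor
    · rintro ⟨h1, -⟩
      linarith
    · intro h1
      exact ⟨by linarith, hz3⟩
  have hnorm : ∀ x : ℝ, ‖(WithLp.toLp 2 ![x, 0, zf b] : E3)‖ ^ 2 = x ^ 2 + (zf b) ^ 2 := by
    intro x
    rw [norm_sq3]
    have e0 : (WithLp.toLp 2 ![x, 0, zf b] : E3) 0 = x := rfl
    have e1 : (WithLp.toLp 2 ![x, 0, zf b] : E3) 1 = 0 := rfl
    have e2 : (WithLp.toLp 2 ![x, 0, zf b] : E3) 2 = zf b := rfl
    rw [e0, e1, e2]
    ring
  have hball : ∀ x : ℝ, x ^ 2 + (zf b) ^ 2 ≤ r ^ 2 ↔ x ^ 2 ≤ (xf b) ^ 2 := by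
    intro x
    rw [← hmem, hpr, mem_closedBall_zero_iff, ← hnorm, sq_le_sq₀ (norm_nonneg _) hr]
  have h1 := (hball (xf b)).mpr le_rfl
  by_contra hne
  have hlt : (zf b) ^ 2 + (xf b) ^ 2 < r ^ 2 := lt_of_le_of_ne (by linarith) hne
  have h2 := (hball (Real.sqrt (r ^ 2 - (zf b) ^ 2))).mp (by
    rw [Real.sq_sqrt (by nlinarith [sq_nonneg (xf b)])]
    linarith)
  rw [Real.sq_sqrt (by nlinarith [sq_nonneg (xf b)])] at h2
  linarith

theorem geo : ∃ c0 : ℝ, 0 < c0 ∧ ∀ (al : ℝ), al ∈ JJ → ∀ zf xf f : ℝ → ℝ, RG al c0 zf xf f → Goal := by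
  obtain ⟨c1, hc1, hc1', H1⟩ := caps3
  obtain ⟨c2, hc2, hc2', H2⟩ := body
  obtain ⟨c3, hc3, hc3', H3⟩ := not_ball
  refine ⟨min c1 (min c2 c3), by positivity, ?_⟩
  intro al hal zf xf f hR
  obtain ⟨Vc, hV0, hV2, hcap⟩ := H1 al hal zf xf f (hR.mono (min_le_left _ _))
  obtain ⟨hKc, hKconv, hK0, hKsym, hKrot, hKn, hKball⟩ :=
    H2 al hal zf xf f (hR.mono ((min_le_right _ _).trans (min_le_left _ _)))
  have hnb := H3 al hal zf xf f (hR.mono ((min_le_right _ _).trans (min_le_right _ _)))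
  have hfl := floats_of_caps hKc hKconv ⟨0, hK0⟩ hKsym hV0 hV2 (by
    intro u hu
    obtain ⟨h, hh, h1, h2⟩ := hcap u hu
    exact ⟨h, M0 al, hh, h1, h2⟩)
  have hvol : 0 < (volume (KK f)).toReal := by linarith
  have hd : Vc / (volume (KK f)).toReal < 1 / 2 := by
    rw [div_lt_iff₀ hvol]; linarith
  have hd0 : 0 < Vc / (volume (KK f)).toReal := div_pos hV0 hvol
  exact ⟨KK f, hKc, hKconv, ⟨0, hK0⟩, hnb, Vc / (volume (KK f)).toReal,
    1 - Vc / (volume (KK f)).toReal, hd0, by linarith, by linarith, by linarith,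
    by linarith, hfl.1, hfl.2⟩

end FB
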