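import Pool.Agent.H48.FB.Q08

/-! Q09: the geometric conclusion in its strongest form. -/

open Set MeasureTheory

noncomputable section

namespace FB

/-- the body is close to the unit ball -/
theorem near_ball {al c ε : ℝ} (hε : 0 < ε) (hε1 : ε ≤ 1) (hc : c ≤ ε) {zf xf f : ℝ → ℝ} (h : RG al c zf xf f) :
    Metric.closedBall (0 : E3) (1 - ε) ⊆ KK f ∧ KK f ⊆ Metric.closedBall (0 : E3) (1 + ε) := by
  constructor
  · intro p hp
    have hn : ‖p‖ ≤ 1 - ε := by simpa using hp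
    have h2 : ‖p‖ ^ 2 ≤ (1 - ε) ^ 2 := pow_le_pow_left₀ (norm_nonneg _) hn 2
    rw [Q08.norm_sq3] at h2
    have hp2 : |p 2| ≤ 1 := by
      rw [abs_le_one_iff_mul_self_le_one]
      nlinarith [sq_nonneg (p 0), sq_nonneg (p 1)]
    have hm : p 2 ∈ Icc (-3:ℝ) 3 := by
      obtain ⟨h3, h4⟩ := abs_le.mp hp2
      constructor <;> linarith
    have hf := (abs_le.mp (h.f0 _ hm)).1
    refine ⟨?_, by linarith⟩
    nlinarith
  · intro p hp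
    obtain ⟨h1, h2⟩ := hp
    have hm : p 2 ∈ Icc (-3:ℝ) 3 := abs_le.mp h2
    have hf := (abs_le.mp (h.f0 _ hm)).2
    have h3 : ‖p‖ ^ 2 ≤ (1 + ε) ^ 2 := by
      rw [Q08.norm_sq3]
      nlinarith
    have h4 : ‖p‖ ≤ 1 + ε := by
      exact (sq_le_sq₀ (norm_nonneg _) (by linarith)).mp h3
    simpa using h4

/-- the strong form of the conclusion -/
def Strong (ε : ℝ) : Prop := ∃ K : Set E3, IsCompact K ∧ Convex ℝ K ∧ (interior K).Nonempty ∧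
  Metric.closedBall (0 : E3) (1 - ε) ⊆ K ∧ K ⊆ Metric.closedBall (0 : E3) (1 + ε) ∧ (∀ p ∈ K, -p ∈ K) ∧
  (∀ p q : E3, p 2 = q 2 → (p 0) ^ 2 + (p 1) ^ 2 = (q 0) ^ 2 + (q 1) ^ 2 → (p ∈ K ↔ q ∈ K)) ∧
  (¬ ∃ (p : E3) (r : ℝ), K = Metric.closedBall p r) ∧
  ∃ d : ℝ, 0 < d ∧ d < 1 / 2 ∧ FloatsEvery K d ∧ FloatsEvery K (1 - d)

theorem geo2 : ∃ c0 : ℝ, 0 < c0 ∧ ∀ ε : ℝ, 0 < ε → ε ≤ 1 → ∀ (al : ℝ), al ∈ JJ → ∀ zf xf f : ℝ → ℝ,
    RG al (min c0 ε) zf xf f → Strong ε := by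
  obtain ⟨c1, hc1, hc1', H1⟩ := caps3
  obtain ⟨c2, hc2, hc2', H2⟩ := body
  obtain ⟨c3, hc3, hc3', H3⟩ := not_ball
  refine ⟨min c1 (min c2 c3), by positivity, ?_⟩
  intro ε hε hε1 al hal zf xf f hR0
  have hR := hR0.mono (min_le_left _ _)
  obtain ⟨hb1, hb2⟩ := near_ball hε hε1 (min_le_right _ _) hR0
  obtain ⟨Vc, hV0, hV2, hcap⟩ := H1 al hal zf xf f (hR.mono (min_le_left _ _))
  obtain ⟨hKc, hKconv, hK0, hKsym, hKrot, hKn, hKball⟩ :=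
    H2 al hal zf xf f (hR.mono ((min_le_right _ _).trans (min_le_left _ _)))
  have hnb := H3 al hal zf xf f (hR.mono ((min_le_right _ _).trans (min_le_right _ _)))
  have hfl := floats_of_caps hKc hKconv ⟨0, hK0⟩ hKsym hV0 hV2 (by
    intro u hu
    obtain ⟨h, hh, h1, h2⟩ := hcap u hu
    exact ⟨h, M0 al, hh, h1, h2⟩)
  have hvol : 0 < (volume (KK f)).toReal := by linarith
  have hd : Vc / (volume (KK f)).toReal < 1 / 2 := by
    rw [div_lt_iff₀ hvol]; linarith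
  have hd0 : 0 < Vc / (volume (KK f)).toReal := div_pos hV0 hvol
  exact ⟨KK f, hKc, hKconv, ⟨0, hK0⟩, hb1, hb2, hKsym, hKrot, hnb, Vc / (volume (KK f)).toReal, hd0, hd, hfl.1, hfl.2⟩

end FB
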