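import Pool.Agent.H48.FB.O05
import Pool.Agent.H48.FB.N01
import Pool.Agent.H48.FB.F02
import Pool.Agent.H48.FB.D06
import Pool.Agent.H48.FB.H05

/-! R01: existence of the exact solution; final theorem. -/

open Complex Set MeasureTheory Filter Topology

noncomputable section

namespace FB

/-! ### small parameters -/

theorem R01_small (A : ℝ) {B : ℝ} (hB : 0 < B) : ∀ᶠ δ in 𝓝[>] (0:ℝ), A * δ < B := by
  have h1 : Tendsto (fun δ : ℝ => A * δ) (𝓝[>] 0) (𝓝 (A * 0)) :=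
    (tendsto_id.const_mul A).mono_left nhdsWithin_le_nhds
  rw [mul_zero] at h1
  exact h1.eventually (eventually_lt_nhds hB)

theorem R01_extract {P : ℝ → Prop} (h : ∀ᶠ δ in 𝓝[>] (0:ℝ), P δ) :
    ∃ d : ℝ, 0 < d ∧ ∀ δ : ℝ, 0 < δ → δ < d → P δ := by
  rw [eventually_nhdsWithin_iff] at h
  obtain ⟨d, hd, H⟩ := Metric.eventually_nhds_iff.1 h
  refine ⟨d, hd, fun δ h0 h1 => H ?_ h0⟩
  rw [Real.dist_eq, sub_zero, abs_of_pos h0]
  exact h1

/-! ### the intermediate value theorem on `EE` -/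

theorem R01_ivt {m : EE → ℝ} (hm : Continuous m) {e0 : ℝ} (h0 : 0 ≤ e0) (h1 : e0 ≤ 1)
    (ha : 0 < m ⟨e0, h0, h1⟩) (hb : m ⟨1, zero_le_one, le_rfl⟩ < 0) :
    ∃ e : EE, e0 ≤ (e : ℝ) ∧ m e = 0 := by
  set f : ℝ → ℝ := fun x => m (projIcc 0 1 zero_le_one x) with hf
  have hfc : Continuous f := hm.comp continuous_projIcc
  have hfa : f e0 = m ⟨e0, h0, h1⟩ := by
    simp only [hf]; rw [projIcc_of_mem zero_le_one ⟨h0, h1⟩]
  have hfb : f 1 = m ⟨1, zero_le_one, le_rfl⟩ := by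
    simp only [hf]; rw [projIcc_of_mem zero_le_one ⟨zero_le_one, le_rfl⟩]
  have h2 : (0:ℝ) ∈ Icc (f 1) (f e0) := ⟨by rw [hfb]; exact hb.le, by rw [hfa]; exact ha.le⟩
  obtain ⟨x, hx, hx0⟩ := intermediate_value_Icc' h1 hfc.continuousOn h2
  refine ⟨⟨x, h0.trans hx.1, hx.2⟩, hx.1, ?_⟩
  have hfx : f x = m ⟨x, h0.trans hx.1, hx.2⟩ := by
    simp only [hf]; rw [projIcc_of_mem zero_le_one ⟨h0.trans hx.1, hx.2⟩]
  exact hfx.symm.trans hx0

/-! ### the first order curve at `0` and `pi/2` -/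

theorem R01_at0 (al : ℝ) (w : ℂ) : Z1 al w 0 = 1 + w * (1 + (c0c al : ℂ) / 2) ∧ X1 al w 0 = 0 := by
  have h1 : PL 2 0 = 1 := by rw [PL_two, Complex.cos_zero]; norm_num
  have h2 : t1f al 0 = 0 := by unfold t1f; simp
  constructor
  · unfold Z1 Af1 a1f
    rw [h1, h2, Complex.cos_zero, Complex.sin_zero]; ring
  · unfold X1 Bf1
    rw [h2, Complex.sin_zero]; ring

theorem R01_atpi (al : ℝ) (w : ℂ) : Z1 al w ((Real.pi / 2 : ℝ) : ℂ) = 0 ∧
    X1 al w ((Real.pi / 2 : ℝ) : ℂ) = 1 + w * (3/8 + (c0c al : ℂ) / 2) := by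
  have hc : cos ((Real.pi / 2 : ℝ) : ℂ) = 0 := by rw [← Complex.ofReal_cos, Real.cos_pi_div_two]; rfl
  have hs : sin ((Real.pi / 2 : ℝ) : ℂ) = 1 := by rw [← Complex.ofReal_sin, Real.sin_pi_div_two]; rfl
  have h1 : PL 2 ((Real.pi / 2 : ℝ) : ℂ) = 3/8 := by rw [PL_two, hc]; norm_num
  have h2 : t1f al ((Real.pi / 2 : ℝ) : ℂ) = 0 := by
    unfold t1f
    have e1 : sin (2 * ((Real.pi / 2 : ℝ) : ℂ)) = 0 := by
      rw [show 2 * ((Real.pi / 2 : ℝ) : ℂ) = (Real.pi : ℂ) by push_cast; ring, Complex.sin_pi]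
    have e2 : sin (4 * ((Real.pi / 2 : ℝ) : ℂ)) = 0 := by
      rw [show 4 * ((Real.pi / 2 : ℝ) : ℂ) = 2 * (Real.pi : ℂ) by push_cast; ring, Complex.sin_two_pi]
    rw [e1, e2]; ring
  constructor
  · unfold Z1 Af1
    rw [h2, hc]; ring
  · unfold X1 Bf1 a1f
    rw [h1, h2, hs]; ring

/-- the perturbed curve is not a circle -/
theorem R01_not_circle {w ε c : ℝ} (hw : 0 < w) (hε : 0 ≤ ε) (hε1 : ε ≤ 1) (hwc : w * (1 + |c|) ≤ 1/2)
    (h16 : 16 * ε < w) {p0 q0 p1 q1 : ℂ} (h1 : ‖p0 - (1 + (w:ℂ) * (1 + (c : ℂ) / 2))‖ ≤ ε) (h2 : ‖q0‖ ≤ ε)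
    (h3 : ‖p1‖ ≤ ε) (h4 : ‖q1 - (1 + (w:ℂ) * (3/8 + (c : ℂ) / 2))‖ ≤ ε)
    (h : p0 ^ 2 + q0 ^ 2 = p1 ^ 2 + q1 ^ 2) : False := by
  set A : ℝ := 1 + w * (1 + c / 2) with hA
  set B : ℝ := 1 + w * (3/8 + c / 2) with hB
  have hAc : (1 + (w:ℂ) * (1 + (c : ℂ) / 2)) = ((A : ℝ) : ℂ) := by rw [hA]; push_cast; ring
  have hBc : (1 + (w:ℂ) * (3/8 + (c : ℂ) / 2)) = ((B : ℝ) : ℂ) := by rw [hB]; push_cast; ring
  rw [hAc] at h1
  rw [hBc] at h4
  have habs := abs_nonneg c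
  have hc1 := neg_abs_le c
  have hc2 := le_abs_self c
  have hA1 : |A| ≤ 3/2 := by
    rw [abs_le]; constructor <;> nlinarith
  have hB1 : |B| ≤ 3/2 := by
    rw [abs_le]; constructor <;> nlinarith
  have hAB : (5/8) * w ≤ |A ^ 2 - B ^ 2| := by
    refine le_trans ?_ (le_abs_self _)
    have : A ^ 2 - B ^ 2 = (5/8) * w * (2 + w * (11/8 + c)) := by rw [hA, hB]; ring
    rw [this]
    have h5 : 1 ≤ 2 + w * (11/8 + c) := by nlinarith
    nlinarith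
  have hsq : ∀ p : ℂ, ∀ D : ℝ, |D| ≤ 3/2 → ‖p - (D:ℂ)‖ ≤ ε → ‖p ^ 2 - (D:ℂ) ^ 2‖ ≤ 4 * ε := by
    intro p D hD hp
    have e1 : p ^ 2 - (D:ℂ) ^ 2 = (p - D) * ((p - D) + 2 * D) := by ring
    rw [e1, norm_mul]
    have e2 : ‖(p - (D:ℂ)) + 2 * D‖ ≤ 4 := by
      refine (norm_add_le _ _).trans ?_
      rw [norm_mul, Complex.norm_real, Real.norm_eq_abs]
      have : ‖(2:ℂ)‖ = 2 := by simp
      rw [this]
      linarith
    calc ‖p - (D:ℂ)‖ * ‖(p - (D:ℂ)) + 2 * D‖ ≤ ε * 4 :=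
          mul_le_mul hp e2 (norm_nonneg _) hε
      _ = 4 * ε := by ring
  have k1 := hsq p0 A hA1 h1
  have k2 := hsq q1 B hB1 h4
  have k3 : ‖q0 ^ 2‖ ≤ ε := by
    rw [norm_pow]
    nlinarith [norm_nonneg q0]
  have k4 : ‖p1 ^ 2‖ ≤ ε := by
    rw [norm_pow]
    nlinarith [norm_nonneg p1]
  have hkey : (((A ^ 2 - B ^ 2 : ℝ)) : ℂ) = -(p0 ^ 2 - (A:ℂ) ^ 2) + -(q0 ^ 2) + p1 ^ 2 + (q1 ^ 2 - (B:ℂ) ^ 2) := by
    push_cast
    linear_combination h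
  have hn : |A ^ 2 - B ^ 2| ≤ 10 * ε := by
    rw [← Real.norm_eq_abs, ← Complex.norm_real, hkey]
    refine (norm_add_le _ _).trans ?_
    have e1 := norm_add_le (-(p0 ^ 2 - (A:ℂ) ^ 2) + -(q0 ^ 2)) (p1 ^ 2)
    have e2 := norm_add_le (-(p0 ^ 2 - (A:ℂ) ^ 2)) (-(q0 ^ 2))
    rw [norm_neg, norm_neg] at e2
    linarith
  linarith

theorem R01_zero_mem {r : ℝ} (hr : 0 < r) : (0:ℂ) ∈ strip r := ⟨by simpa using hr, by simpa using hr⟩
theorem R01_pi_mem {r : ℝ} (hr : 0 < r) (x : ℝ) : ((x : ℝ) : ℂ) ∈ strip r :=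
  ⟨by simpa using hr, by simpa using hr⟩

theorem R01_NB_mono {c c' a b a' b' : ℝ} {Z X : ℂ → ℂ} (h : NB c a b Z X) (hc : c ≤ c')
    (ha : a ≤ a') (hb : b' ≤ b) : NB c' a' b' Z X :=
  have hs := band_subset ha hb
  { dZ := h.dZ.mono hs
    dX := h.dX.mono hs
    z0 := fun z hz => (h.z0 z (hs hz)).trans hc
    x0 := fun z hz => (h.x0 z (hs hz)).trans hc
    z1 := fun z hz => (h.z1 z (hs hz)).trans hc
    x1 := fun z hz => (h.x1 z (hs hz)).trans hc }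

/-- the constants of the Newton iteration -/
theorem R01_pow {K δ CA CN η : ℝ} (bN : ℕ) (hK : 1 ≤ K) (hδ : 0 < δ) (hδ1 : δ ≤ 1) (hCA : 1 ≤ CA) (hη : 0 < η)
    (h1 : CA * δ < η) (h2 : CN * CA * δ < 1) :
    CA * δ ^ (2 * bN + 4) ≤ η * (K * δ * δ) ^ bN ∧
      CN * (CA * δ ^ (2 * bN + 4)) / (K * δ * δ) ^ bN ≤ δ ^ 3 := by
  have e1 : δ ^ (2 * bN) ≤ (K * δ * δ) ^ bN := by
    rw [pow_mul]
    refine pow_le_pow_left₀ (by positivity) ?_ bN
    nlinarith [mul_pos hδ hδ]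
  have e2 : δ ^ 4 ≤ δ := by
    have := pow_le_pow_of_le_one hδ.le hδ1 (show 1 ≤ 4 by norm_num)
    simpa using this
  have e3 : 0 < δ ^ (2 * bN) := by positivity
  have e4 : 0 < (K * δ * δ) ^ bN := by positivity
  constructor
  · have e5 : CA * δ ^ (2 * bN + 4) = (CA * δ ^ 4) * δ ^ (2 * bN) := by rw [pow_add]; ring
    rw [e5]
    refine mul_le_mul ?_ e1 e3.le hη.le
    have : CA * δ ^ 4 ≤ CA * δ := mul_le_mul_of_nonneg_left e2 (by linarith)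
    linarith
  · rw [div_le_iff₀ e4]
    have e5 : CN * (CA * δ ^ (2 * bN + 4)) = (CN * CA * δ) * δ ^ 3 * δ ^ (2 * bN) := by
      rw [show 2 * bN + 4 = 2 * bN + 3 + 1 by ring, pow_succ, pow_add]; ring
    rw [e5]
    have e6 : (CN * CA * δ) * δ ^ 3 ≤ 1 * δ ^ 3 := mul_le_mul_of_nonneg_right h2.le (by positivity)
    calc (CN * CA * δ) * δ ^ 3 * δ ^ (2 * bN) ≤ 1 * δ ^ 3 * δ ^ (2 * bN) :=
          mul_le_mul_of_nonneg_right e6 e3.le
      _ = δ ^ 3 * δ ^ (2 * bN) := by ring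
      _ ≤ δ ^ 3 * (K * δ * δ) ^ bN := mul_le_mul_of_nonneg_left e1 (by positivity)

theorem ana (c : ℝ) (hc : 0 < c) : ∃ al ∈ JJ, ∃ Z X : ℂ → ℂ, NB c (-3) 3 Z X ∧ Sym 3 Z X ∧ RealC 3 Z X ∧
    (∃ V0 : ℂ, ∀ t ∈ band 1 3, Vf al Z X t = V0) ∧
    (∀ t ∈ band 1 3, Pzf al Z X t * ell al Z X t = (M0 al : ℂ) * nz al X t) ∧
    (∀ t ∈ band 1 3, Pxf al Z X t * ell al Z X t = (M0 al : ℂ) * nx al Z t) ∧
    (¬ ∃ ρ : ℝ, ∀ b : ℝ, Z b ^ 2 + X b ^ 2 = (ρ : ℂ)) := by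
  obtain ⟨cg, bg, hcg, hbg, hgood⟩ := good_angle
  obtain ⟨η, CN, bN, hη, hCN, hnewton⟩ := newton
  obtain ⟨c2, Cq, dq, hc2, hCq, hdq, hq⟩ := q4m_pos
  obtain ⟨c3, C3, hc3, hC3, hmu⟩ := mu1c_bd
  obtain ⟨cF, hcF, hexact⟩ := exact_of_zero 3 (by norm_num)
  obtain ⟨Cd, hCd, hdir⟩ := dir1_props 1 le_rfl
  set C1 : ℝ := max 1 ((C3 + 2) / c2) with hC1def
  have hC1 : 1 ≤ C1 := le_max_left _ _
  have hC1c2 : C3 + 2 ≤ C1 * c2 := by
    have : (C3 + 2) / c2 ≤ C1 := le_max_right _ _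
    rwa [div_le_iff₀ hc2] at this
  set e0 : ℝ := min 1 (c3 / (8 * C1 * Cq)) with he0def
  have he0 : 0 < e0 := by rw [he0def]; positivity
  have he01 : e0 ≤ 1 := min_le_left _ _
  have he0q : C1 * e0 * Cq * 2 ≤ c3 / 4 := by
    have : e0 ≤ c3 / (8 * C1 * Cq) := min_le_right _ _
    rw [le_div_iff₀ (by positivity)] at this
    linarith
  obtain ⟨CA, δ1, hCA, hδ1, happ⟩ := app cg bg hcg hbg C1 hC1 (2 * bN + 4) (by omega)
  set K : ℝ := max 1 (CA / η) with hKdef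
  have hK : 1 ≤ K := le_max_left _ _
  have hKη : CA ≤ η * K := by
    have : CA / η ≤ K := le_max_right _ _
    rw [div_le_iff₀ hη] at this
    linarith
  -- the small parameter
  obtain ⟨de0, hde0, hsmall⟩ := R01_extract ((((((((((((R01_small 1 hδ1).and (R01_small K one_pos)).and
    (R01_small 1 one_pos)).and (R01_small CA hη)).and (R01_small (CN * CA) one_pos)).and
    (R01_small (CA + 1) (lt_min hc hcF))).and (R01_small 1 hdq)).and
    (R01_small (CA + 1) (show (0:ℝ) < 2 * C1 by linarith))).and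
    (R01_small (CA + 1) (show (0:ℝ) < C1 * e0 * c3 / 4 by positivity))).and
    (R01_small (16 * (CA + 1)) (show (0:ℝ) < C1 * e0 by positivity))).and
    (R01_small (C1 * (1 + Cd)) (show (0:ℝ) < 1/2 by norm_num))).and
    (R01_small (CA + 1) one_pos))
  obtain ⟨δ, hδ, hδ0, al, hal, halJ, hl1, hl2, hs1, hs2⟩ := hgood K hK de0 hde0
  obtain ⟨⟨⟨⟨⟨⟨⟨⟨⟨⟨⟨s1, s2⟩, s3⟩, s4⟩, s5⟩, s6⟩, s7⟩, s8⟩, s9⟩, s10⟩, s11⟩, s12⟩ := hsmall δ hδ hδ0
  rw [one_mul] at s1 s3 s7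
  have hal0 : al0 ≤ al := by linarith [hal.1]
  have hEB : EB al cg bg := ⟨hcg, hbg, hl2, hs2⟩
  obtain ⟨Z, X, u, Rm, RM, V0, mu, hSt, hmuE, hZ1⟩ := happ δ hδ s1 al halJ hal0 hal.2 hEB
  have hLB : LB al (K * δ) δ :=
    { k0 := by positivity
      k1 := s2.le
      l0 := hδ
      l1 := s3.le
      hl := hl1
      hs := hs1 }
  obtain ⟨hp1, hp2⟩ := R01_pow bN hK hδ s3.le hCA hη s4 s5
  have hcA : CA * δ ≤ η * (K * δ) := by
    have := mul_le_mul_of_nonneg_right hKη hδ.le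
    linarith
  obtain ⟨Z', X', V0', mu', hFC, hV0c, hmuc, hVm, hZX, heq⟩ := hnewton al halJ (K * δ) δ hLB
    (CA * δ) (CA * δ) (CA * δ ^ (2 * bN + 4)) (by positivity) hcA (by positivity) hcA (by positivity) hp1
    Z X u Rm RM V0 mu hSt
  set D : ℝ := CN * (CA * δ ^ (2 * bN + 4)) / (K * δ * δ) ^ bN with hD
  have hD0 : 0 ≤ D := by rw [hD]; positivity
  obtain ⟨-, -, -, -, -, hsin1, hsin2⟩ := JJ_bounds halJ
  have hδ3 : δ ^ 3 ≤ δ := by
    have := pow_le_pow_of_le_one hδ.le s3.le (show 1 ≤ 3 by norm_num)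
    simpa using this
  have hδ32 : δ ^ 3 ≤ δ ^ 2 := pow_le_pow_of_le_one hδ.le s3.le (by norm_num)
  -- `mu'` changes sign
  have hmu' : ∀ e : EE, |mu' e - (C1 * δ * (e:ℝ) * mu1c al - (C1 * δ * (e:ℝ)) ^ 2 * q4m al / Real.sin al)| ≤
      (CA + 1) * δ ^ 3 := by
    intro e
    have h1 := (hVm e).2
    have h2 := hmuE e
    have h3 : mu' e - (C1 * δ * (e:ℝ) * mu1c al - (C1 * δ * (e:ℝ)) ^ 2 * q4m al / Real.sin al) =
      (mu' e - mu e) + (mu e - (C1 * δ * (e:ℝ) * mu1c al - (C1 * δ * (e:ℝ)) ^ 2 * q4m al / Real.sin al)) := by ring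
    rw [h3]
    refine (abs_add_le _ _).trans ?_
    linarith
  obtain ⟨m1, m2, m3⟩ := hmu al halJ hal0
  obtain ⟨q1, q2⟩ := hq al halJ (by rw [abs_of_nonneg (by linarith)]; linarith [hal.2])
  have hmu1lo : c3 * (δ / 2) ≤ mu1c al := by
    refine le_trans ?_ m1
    exact mul_le_mul_of_nonneg_left (by linarith [hal.1]) hc3.le
  have hmu1hi : mu1c al ≤ C3 * δ := by
    refine m2.trans ?_
    exact mul_le_mul_of_nonneg_left (by linarith [hal.2]) (by linarith)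
  have hsinpos : 0 < Real.sin al := by linarith
  have hqs1 : c2 ≤ q4m al / Real.sin al := by
    rw [le_div_iff₀ hsinpos]
    have : c2 * Real.sin al ≤ c2 * 1 := mul_le_mul_of_nonneg_left (by linarith) hc2.le
    linarith
  have hqs2 : q4m al / Real.sin al ≤ 2 * Cq := by
    rw [div_le_iff₀ hsinpos]
    nlinarith
  have hneg : mu' ⟨1, zero_le_one, le_rfl⟩ < 0 := by
    have h1 := (abs_le.1 (hmu' ⟨1, zero_le_one, le_rfl⟩)).2
    simp only [mul_one] at h1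
    have h2 : C1 * δ * mu1c al - (C1 * δ) ^ 2 * q4m al / Real.sin al =
      C1 * δ * (mu1c al - C1 * δ * (q4m al / Real.sin al)) := by ring
    have h3 : mu1c al - C1 * δ * (q4m al / Real.sin al) ≤ -2 * δ := by
      have h4 : C1 * δ * c2 ≤ C1 * δ * (q4m al / Real.sin al) :=
        mul_le_mul_of_nonneg_left hqs1 (by positivity)
      have h6 := mul_le_mul_of_nonneg_right hC1c2 hδ.le
      linarith
    have h4 : C1 * δ * (mu1c al - C1 * δ * (q4m al / Real.sin al)) ≤ C1 * δ * (-2 * δ) :=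
      mul_le_mul_of_nonneg_left h3 (by positivity)
    have h5 : (CA + 1) * δ ^ 3 < 2 * C1 * δ ^ 2 := by
      have := mul_lt_mul_of_pos_right s8 (show 0 < δ ^ 2 by positivity)
      calc (CA + 1) * δ ^ 3 = (CA + 1) * δ * δ ^ 2 := by ring
        _ < 2 * C1 * δ ^ 2 := this
    rw [h2] at h1
    linarith
  have hpos : 0 < mu' ⟨e0, he0.le, he01⟩ := by
    have h1 := (abs_le.1 (hmu' ⟨e0, he0.le, he01⟩)).1
    simp only at h1
    have h2 : C1 * δ * e0 * mu1c al - (C1 * δ * e0) ^ 2 * q4m al / Real.sin al =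
      C1 * δ * e0 * (mu1c al - C1 * δ * e0 * (q4m al / Real.sin al)) := by ring
    have h3 : c3 / 4 * δ ≤ mu1c al - C1 * δ * e0 * (q4m al / Real.sin al) := by
      have h4 : C1 * δ * e0 * (q4m al / Real.sin al) ≤ C1 * δ * e0 * (2 * Cq) :=
        mul_le_mul_of_nonneg_left hqs2 (by positivity)
      have h5 : (C1 * e0 * Cq * 2) * δ ≤ c3 / 4 * δ := mul_le_mul_of_nonneg_right he0q hδ.le
      linarith
    have h4 : C1 * δ * e0 * (c3 / 4 * δ) ≤ C1 * δ * e0 * (mu1c al - C1 * δ * e0 * (q4m al / Real.sin al)) :=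
      mul_le_mul_of_nonneg_left h3 (by positivity)
    have h5 : (CA + 1) * δ ^ 3 < C1 * e0 * c3 / 4 * δ ^ 2 := by
      have := mul_lt_mul_of_pos_right s9 (show 0 < δ ^ 2 by positivity)
      calc (CA + 1) * δ ^ 3 = (CA + 1) * δ * δ ^ 2 := by ring
        _ < C1 * e0 * c3 / 4 * δ ^ 2 := this
    rw [h2] at h1
    linarith
  obtain ⟨e, hee, hmue⟩ := R01_ivt hmuc he0.le he01 hpos hneg
  have hcc : CA * δ + D ≤ min c cF := by
    have : D ≤ δ := hp2.trans hδ3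
    have h1 : (CA + 1) * δ = CA * δ + δ := by ring
    linarith
  have hNB := hFC.nb e
  refine ⟨al, halJ, Z' e, X' e, R01_NB_mono hNB (hcc.trans (min_le_left _ _)) le_rfl le_rfl,
    hFC.sy e, hFC.re e, ⟨(V0' e : ℂ), fun t ht => (heq e t ht).2⟩, ?_, ?_, ?_⟩
  · intro t ht
    refine (hexact al halJ 1 3 le_rfl le_rfl (Z' e) (X' e)
      (R01_NB_mono hNB (hcc.trans (min_le_right _ _)) (by norm_num) le_rfl) (V0' e : ℂ) ?_ t ht).1
    intro t ht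
    have h1 := heq e t ht
    rw [hmue, Complex.ofReal_zero] at h1
    exact h1
  · intro t ht
    refine (hexact al halJ 1 3 le_rfl le_rfl (Z' e) (X' e)
      (R01_NB_mono hNB (hcc.trans (min_le_right _ _)) (by norm_num) le_rfl) (V0' e : ℂ) ?_ t ht).2
    intro t ht
    have h1 := heq e t ht
    rw [hmue, Complex.ofReal_zero] at h1
    exact h1
  · rintro ⟨ρ, hρ⟩
    have hε : ∀ z ∈ strip 3, ‖Z' e z - Z1 al ((C1 * δ * (e:ℝ) : ℝ) : ℂ) z‖ ≤ (CA + 1) * δ ^ 2 ∧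
        ‖X' e z - X1 al ((C1 * δ * (e:ℝ) : ℝ) : ℂ) z‖ ≤ (CA + 1) * δ ^ 2 := by
      intro z hz
      obtain ⟨a1, a2⟩ := hZX e z hz
      obtain ⟨a3, a4⟩ := hZ1 e z (band_subset (by norm_num) (by norm_num) hz)
      constructor
      · have : Z' e z - Z1 al ((C1 * δ * (e:ℝ) : ℝ) : ℂ) z = (Z' e z - Z e z) +
          (Z e z - Z1 al ((C1 * δ * (e:ℝ) : ℝ) : ℂ) z) := by ring
        rw [this]
        refine (norm_add_le _ _).trans ?_
        linarith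
      · have : X' e z - X1 al ((C1 * δ * (e:ℝ) : ℝ) : ℂ) z = (X' e z - X e z) +
          (X e z - X1 al ((C1 * δ * (e:ℝ) : ℝ) : ℂ) z) := by ring
        rw [this]
        refine (norm_add_le _ _).trans ?_
        linarith
    obtain ⟨b1, b2⟩ := hε 0 (R01_zero_mem (by norm_num))
    obtain ⟨b3, b4⟩ := hε ((Real.pi / 2 : ℝ) : ℂ) (R01_pi_mem (by norm_num) _)
    rw [(R01_at0 al _).1] at b1
    rw [(R01_at0 al _).2, sub_zero] at b2
    rw [(R01_atpi al _).1, sub_zero] at b3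
    rw [(R01_atpi al _).2] at b4
    have hepos : 0 < (e:ℝ) := lt_of_lt_of_le he0 hee
    have hele : (e:ℝ) ≤ 1 := e.2.2
    have hc0c := (hdir al halJ).2.2.2.1
    have hwlo : C1 * δ * e0 ≤ C1 * δ * (e:ℝ) := mul_le_mul_of_nonneg_left hee (by positivity)
    have hwhi : C1 * δ * (e:ℝ) ≤ C1 * δ := by
      have := mul_le_mul_of_nonneg_left hele (show 0 ≤ C1 * δ by positivity)
      linarith
    refine R01_not_circle (w := C1 * δ * (e:ℝ)) (ε := (CA + 1) * δ ^ 2) (c := c0c al)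
      (by positivity) (by positivity) ?_ ?_ ?_ b1 b2 b3 b4 ?_
    · have h1 : (CA + 1) * δ ^ 2 = (CA + 1) * δ * δ := by ring
      rw [h1]
      exact mul_le_one₀ s12.le hδ.le s3.le
    · have h1 : C1 * δ * (e:ℝ) * (1 + |c0c al|) ≤ C1 * δ * (1 + Cd) :=
        mul_le_mul hwhi (by linarith) (by positivity) (by positivity)
      linarith
    · have h1 : 16 * ((CA + 1) * δ ^ 2) = (16 * (CA + 1) * δ) * δ := by ring
      have h2 := mul_lt_mul_of_pos_right s10 hδ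
      rw [h1]
      refine lt_of_lt_of_le h2 ?_
      linarith
    · have h1 := hρ 0
      have h2 := hρ (Real.pi / 2)
      rw [Complex.ofReal_zero] at h1
      rw [h1, h2]

end FB
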