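import Pool.Agent.H48.FB.R01
import Pool.Agent.H48.FB.Q09

/-! R02: the theorem. -/

namespace FB

theorem main : Goal := by
  obtain ⟨c0, hc0, hgeo⟩ := geo
  obtain ⟨c, hc, hnr⟩ := nr c0 hc0
  obtain ⟨al, hal, Z, X, h1, h2, h3, h4, h5, h6, h7⟩ := ana c hc
  obtain ⟨zf, xf, f, hRG⟩ := hnr al hal Z X h1 h2 h3 h4 h5 h6 h7
  exact hgeo al hal zf xf f hRG

theorem main2 {ε : ℝ} (hε : 0 < ε) (hε1 : ε ≤ 1) : Strong ε := by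
  obtain ⟨c0, hc0, hgeo⟩ := geo2
  obtain ⟨c, hc, hnr⟩ := nr (min c0 ε) (lt_min hc0 hε)
  obtain ⟨al, hal, Z, X, h1, h2, h3, h4, h5, h6, h7⟩ := ana c hc
  obtain ⟨zf, xf, f, hRG⟩ := hnr al hal Z X h1 h2 h3 h4 h5 h6 h7
  exact hgeo ε hε hε1 al hal zf xf f hRG

end FB
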